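import Pool.Agent.TH972.U.Seq
import Pool.Agent.TH972.RAsym

/-!
# The exponential weights: the exponent of the diameter
-/

set_option autoImplicit false

namespace Pool.Agent.TH972.U

open Finset MeasureTheory Pool.Agent.W842.RST Pool.Agent.TH972 Filter Topology

noncomputable section

namespace RsExp

theorem wT_scale {n : ℕ} {κ : Sym2 (Fin n) → ℝ} {c : ℝ} {T : SimpleGraph (Fin n)}
    (hT : T.IsTree) : wT (fun e => c * κ e) T = c ^ (n - 1) * wT κ T := by
  classical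
  unfold wT
  rw [Finset.prod_mul_distrib, Finset.prod_const]
  congr 2
  have h := hT.card_edgeFinset
  rw [Fintype.card_fin] at h
  have h2 : (univ : Finset (Sym2 (Fin n))).filter (fun e => e ∈ T.edgeSet) = T.edgeFinset := by
    ext e
    simp
  rw [h2]
  omega

theorem sumT_scale {n : ℕ} {κ : Sym2 (Fin n) → ℝ} {c : ℝ} (A : SimpleGraph (Fin n) → Prop) :
    sumT (fun e => c * κ e) A = c ^ (n - 1) * sumT κ A := by
  classical
  unfold sumT
  rw [Finset.mul_sum]
  apply Finset.sum_congr rfl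
  intro T hT
  exact wT_scale (Finset.mem_filter.1 hT).2.1

theorem GG_scale {n : ℕ} {κ : Sym2 (Fin n) → ℝ} {c : ℝ} (hc : 0 < c)
    (A : SimpleGraph (Fin n) → Prop) : GG (fun e => c * κ e) A = GG κ A := by
  unfold GG
  rw [sumT_scale, sumT_scale]
  exact mul_div_mul_left _ _ (pow_pos hc _).ne'

/-- two events whose probabilities tend to one -/
theorem inter_tendsto {w : ℕ → ℝ → ℝ} (hw : ∀ n u, 0 < w n u) (hm : ∀ n, Measurable (w n))
    {A B C : ∀ n : ℕ, SimpleGraph (Fin n) → Prop}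
    (hABC : ∀ n, ∀ T : SimpleGraph (Fin n), T.IsTree → A n T → B n T → C n T)
    (hA : Tendsto (fun n => avgw (w n) n (A n)) atTop (𝓝 1))
    (hB : Tendsto (fun n => avgw (w n) n (B n)) atTop (𝓝 1)) :
    Tendsto (fun n => avgw (w n) n (C n)) atTop (𝓝 1) := by
  have hlim : Tendsto (fun n => 1 - ((1 - avgw (w n) n (A n)) + (1 - avgw (w n) n (B n))))
      atTop (𝓝 1) := by
    have h1 : Tendsto (fun _ : ℕ => (1 : ℝ)) atTop (𝓝 1) := tendsto_const_nhds
    have := h1.sub ((h1.sub hA).add (h1.sub hB))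
    simpa using this
  refine tendsto_of_tendsto_of_tendsto_of_le_of_le' hlim tendsto_const_nhds ?_ ?_
  · filter_upwards [eventually_ge_atTop 1] with n hn
    have : Nonempty (Fin n) := ⟨⟨0, by omega⟩⟩
    exact avgw_inter (hw n) (hm n) (hABC n) (by linarith) (by linarith)
  · filter_upwards with n
    exact avgw_le_one (hw n) (hm n) _

end RsExp

theorem avgw_scale {w : ℝ → ℝ} {c : ℝ} (hc : 0 < c) (n : ℕ) (A : SimpleGraph (Fin n) → Prop) :
    avgw (fun u => c * w u) n A = avgw w n A := by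
  unfold avgw
  congr 1
  funext U
  exact RsExp.GG_scale hc A

theorem lvs_exp {n : ℕ} {y : ℝ} {K : ℕ} (hn : 2 ≤ n) (hy : (K : ℝ) + 1 ≤ y) :
    Lvs (fun u => Real.exp (-(y * (n * u - 1)))) (fun i : ℤ => (1 + i / y) / n) n y K := by
  have hK : (0 : ℝ) ≤ K := Nat.cast_nonneg _
  have hy0 : 0 < y := by linarith
  have hn2 : (2 : ℝ) ≤ n := by exact_mod_cast hn
  have hn0 : (0 : ℝ) < n := by linarith
  have hstep : ∀ i : ℤ, (n : ℝ) * ((1 + ((i + 1 : ℤ) : ℝ) / y) / n - (1 + (i : ℝ) / y) / n) =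
      1 / y := by
    intro i
    push_cast
    field_simp
    ring
  have key : ∀ (i : ℤ) (u : ℝ), u ≤ (1 + (i : ℝ) / y) / n ↔ y * (n * u - 1) ≤ i := by
    intro i u
    rw [le_div_iff₀ hn0]
    constructor
    · intro h
      have h1 : n * u - 1 ≤ (i : ℝ) / y := by linarith
      have h2 := mul_le_mul_of_nonneg_left h1 hy0.le
      have h3 : y * ((i : ℝ) / y) = i := by field_simp
      linarith
    · intro h
      have h1 : n * u - 1 ≤ (i : ℝ) / y := by
        rw [le_div_iff₀ hy0]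
        linarith
      linarith
  have hinv : ∀ u : ℝ, 1 / Real.exp (-(y * (n * u - 1))) = Real.exp (y * (n * u - 1)) := by
    intro u
    rw [Real.exp_neg, one_div, inv_inv]
  constructor
  · intro u
    exact Real.exp_pos _
  · fun_prop
  · intro i j hij
    have h : (i : ℝ) ≤ j := by exact_mod_cast hij
    show (1 + (i : ℝ) / y) / n ≤ (1 + (j : ℝ) / y) / n
    apply div_le_div_of_nonneg_right _ hn0.le
    have := div_le_div_of_nonneg_right h hy0.le
    linarith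
  · show (n : ℝ) * ((1 + ((0 : ℤ) : ℝ) / y) / n) = 1
    push_cast
    field_simp
    ring
  · show 0 ≤ (1 + ((-(K : ℤ) : ℤ) : ℝ) / y) / n
    apply div_nonneg _ hn0.le
    push_cast
    have : -(K : ℝ) / y = -((K : ℝ) / y) := by ring
    rw [this]
    have h2 : (K : ℝ) / y ≤ 1 := by
      rw [div_le_one hy0]
      linarith
    linarith
  · show (1 + (((K : ℤ) + 1 : ℤ) : ℝ) / y) / n ≤ 1
    rw [div_le_one hn0]
    push_cast
    have h2 : ((K : ℝ) + 1) / y ≤ 1 := by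
      rw [div_le_one hy0]
      linarith
    linarith
  · intro i _ _
    show 0.999 / y ≤ (n : ℝ) * ((1 + ((i + 1 : ℤ) : ℝ) / y) / n - (1 + (i : ℝ) / y) / n)
    rw [hstep]
    apply div_le_div_of_nonneg_right _ hy0.le
    norm_num
  · intro i _ _
    show (n : ℝ) * ((1 + ((i + 1 : ℤ) : ℝ) / y) / n - (1 + (i : ℝ) / y) / n) ≤ 1.001 / y
    rw [hstep]
    apply div_le_div_of_nonneg_right _ hy0.le
    norm_num
  · intro i _ u hu
    show 1 / Real.exp (-(y * (n * u - 1))) ≤ _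
    rw [hinv]
    exact Real.exp_le_exp.2 ((key i u).1 hu)
  · intro i _ _ u hu
    show _ ≤ 1 / Real.exp (-(y * (n * u - 1)))
    rw [hinv]
    apply Real.exp_le_exp.2
    by_contra hcon
    exact absurd ((key i u).2 (not_le.1 hcon).le) (not_le.2 hu)
  · intro u
    show Real.exp (-(y * (n * ((1 + ((1 : ℤ) : ℝ) / y) / n) - 1))) ≤
      Real.exp (-(y * (n * u - 1))) ↔ _
    rw [Real.exp_le_exp, neg_le_neg_iff]
    have h1 : y * (n * ((1 + ((1 : ℤ) : ℝ) / y) / n) - 1) = ((1 : ℤ) : ℝ) := by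
      push_cast
      field_simp
      ring
    rw [h1]
    exact (key 1 u).symm

namespace RsExp

theorem log_pow_le (k : ℕ) {δ : ℝ} (hδ : 0 < δ) {C : ℝ} (hC : 0 < C) :
    ∀ᶠ n : ℕ in atTop, C * Real.log n ^ k ≤ (n : ℝ) ^ δ := by
  filter_upwards [eventually_log k hδ hC] with n h
  rwa [Real.rpow_natCast] at h

theorem par_of {g γ : ℝ} {y : ℕ → ℝ} (hg0 : 0 < g) (hg3 : g < 1 / 3) (hγ : 0 < γ)
    (hyγ : ∀ᶠ n : ℕ in atTop, y n ≤ (n : ℝ) ^ γ)
    (hγ1 : γ ≤ 1)
    (hy : ∀ δ : ℝ, 0 < δ → ∀ᶠ n : ℕ in atTop, (n : ℝ) ^ (g - δ) ≤ y n ∧ y n ≤ (n : ℝ) ^ (g + δ)) :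
    ∀ᶠ n : ℕ in atTop, Par γ n (Real.log n ^ 8) (y n) := by
  have hlog : Tendsto (fun n : ℕ => Real.log n) atTop atTop :=
    Real.tendsto_log_atTop.comp (tendsto_natCast_atTop_atTop (R := ℝ))
  have h8 := log_pow_le 8 (δ := g / 2) (by linarith) (C := 1) one_pos
  filter_upwards [hyγ, hlog.eventually (eventually_ge_atTop (1000000 / γ)), h8, hy (g / 2)
    (by linarith), hy ((1 - 3 * g) / 3) (by linarith), eventually_ge_atTop 2] with n hy1 hL h8 hy2
    hy3 hn
  have hn1 : (1 : ℝ) ≤ n := by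
    have : 1 ≤ n := by omega
    exact_mod_cast this
  have hn0 : (0 : ℝ) < n := by linarith
  have hLb : 1000000 ≤ Real.log n := by
    refine le_trans ?_ hL
    rw [le_div_iff₀ hγ]
    linarith
  have hLγ : 1000000 ≤ γ * Real.log n := by
    rw [div_le_iff₀ hγ] at hL
    linarith
  obtain ⟨L, hLd⟩ : ∃ L, L = Real.log n := ⟨_, rfl⟩
  rw [← hLd] at h8 hLb hLγ ⊢
  have hL0 : 0 < L := by linarith
  have hy0 : 0 ≤ y n := le_trans (by positivity) hy2.1
  refine ⟨hγ, by linarith, ?_, ?_, ?_, hy1, ?_⟩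
  · rw [← hLd]
    have e2 : (1 + 8 * L) ^ 6 ≤ (9 * L) ^ 6 :=
      pow_le_pow_left₀ (by linarith) (by linarith) 6
    have e3 : (1000000 : ℝ) * 9 ^ 6 ≤ L ^ 2 := by
      calc (1000000 : ℝ) * 9 ^ 6 ≤ 1000000 ^ 2 := by norm_num
        _ ≤ L ^ 2 := pow_le_pow_left₀ (by norm_num) hLb 2
    calc 1000000 * (1 + 8 * L) ^ 6 ≤ 1000000 * (9 * L) ^ 6 := by linarith
      _ = 1000000 * 9 ^ 6 * L ^ 6 := by ring
      _ ≤ L ^ 2 * L ^ 6 := mul_le_mul_of_nonneg_right e3 (by positivity)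
      _ = L ^ 8 := by ring
  · rw [one_mul] at h8
    refine h8.trans (le_trans (le_of_eq ?_) hy2.1)
    congr 1
    ring
  · calc (y n) ^ 3 ≤ ((n : ℝ) ^ (g + (1 - 3 * g) / 3)) ^ 3 :=
          pow_le_pow_left₀ hy0 hy3.2 3
      _ = n := by
          rw [← Real.rpow_natCast, ← Real.rpow_mul hn0.le]
          have : (g + (1 - 3 * g) / 3) * ((3 : ℕ) : ℝ) = 1 := by push_cast; ring
          rw [this, Real.rpow_one]
  · rw [← hLd]
    have e1 : (1 + 5 * L) ^ γ ≤ (1 + 5 * L) ^ (1 : ℝ) :=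
      Real.rpow_le_rpow_of_exponent_le (by linarith) hγ1
    rw [Real.rpow_one] at e1
    have e2 : 126 * (1 + γ) * L * (1 + 5 * L) ^ γ ≤ 126 * (1 + γ) * L * (6 * L) := by
      apply mul_le_mul_of_nonneg_left _ (by positivity)
      linarith
    have e3 : 126 * (1 + γ) * L * (6 * L) ≤ 1512 * L ^ 2 := by
      have : (1 + γ) * L ^ 2 ≤ 2 * L ^ 2 := mul_le_mul_of_nonneg_right (by linarith) (by positivity)
      nlinarith
    have e4 : 1512 * L ^ 2 ≤ (γ * L) * L ^ 7 := by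
      have : (1 : ℝ) ≤ L ^ 5 := one_le_pow₀ (by linarith)
      have h2 : L ^ 2 ≤ L ^ 7 := by
        calc L ^ 2 = L ^ 2 * 1 := (mul_one _).symm
          _ ≤ L ^ 2 * L ^ 5 := mul_le_mul_of_nonneg_left this (by positivity)
          _ = L ^ 7 := by ring
      have h3 : 0 < L ^ 7 := by positivity
      calc 1512 * L ^ 2 ≤ 1512 * L ^ 7 := by linarith
        _ ≤ (γ * L) * L ^ 7 := mul_le_mul_of_nonneg_right (by linarith) h3.le
    have e5 : (γ * L) * L ^ 7 = γ * L ^ 8 := by ring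
    linarith

end RsExp

/-- upper bound with the conjectured exponent in the intermediate regime -/
theorem upper_exp (g : ℝ) (hg0 : 0 < g) (hg3 : g < 1 / 3) (β : ℕ → ℝ) (hβ0 : ∀ n, 0 ≤ β n)
    (hβ : Tendsto (fun n : ℕ => Real.log (β n) / Real.log n) atTop (𝓝 (1 + g)))
    (ε : ℝ) (hε : 0 < ε) :
    Tendsto (fun n : ℕ => avgw (wexp (β n)) n (fun T =>
      (T.diam : ℝ) ≤ (n : ℝ) ^ ((1 - g) / 2 + ε))) atTop (𝓝 1) := by
  have hlog : Tendsto (fun n : ℕ => Real.log n) atTop atTop :=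
    Real.tendsto_log_atTop.comp (tendsto_natCast_atTop_atTop (R := ℝ))
  have hy : ∀ δ : ℝ, 0 < δ → ∀ᶠ n : ℕ in atTop,
      (n : ℝ) ^ (g - δ) ≤ β n / n ∧ β n / n ≤ (n : ℝ) ^ (g + δ) := by
    intro δ hδ
    filter_upwards [eventually_beta hg0 (lt_min hδ hg0) (min_le_right _ _) hβ0 hβ,
      eventually_ge_atTop 1] with n hb hn
    have hn1 : (1 : ℝ) ≤ n := by exact_mod_cast hn
    have hmin := min_le_left δ g
    exact ⟨(Real.rpow_le_rpow_of_exponent_le hn1 (by linarith)).trans hb.1,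
      hb.2.trans (Real.rpow_le_rpow_of_exponent_le hn1 (by linarith))⟩
  have hyK : ∀ᶠ n : ℕ in atTop, (KL (Real.log n) : ℝ) + 1 ≤ β n / n := by
    filter_upwards [RsExp.log_pow_le 9 (δ := g / 2) (by linarith) (C := 3) (by norm_num),
      hy (g / 2) (by linarith), hlog.eventually (eventually_ge_atTop 1)] with n h1 h2 hL
    have h3 : (KL (Real.log n) : ℝ) ≤ Real.log n ^ 9 + 1 :=
      (Nat.ceil_lt_add_one (by positivity)).le
    have h4 : 1 ≤ Real.log n ^ 9 := one_le_pow₀ hL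
    have h5 : (n : ℝ) ^ (g / 2) = (n : ℝ) ^ (g - g / 2) := by congr 1; ring
    rw [h5] at h1
    linarith [h2.1]
  have hlv : ∀ᶠ n : ℕ in atTop, Lvs (fun u => Real.exp (-(β n / n * (n * u - 1))))
      (fun i : ℤ => (1 + i / (β n / n)) / n) n (β n / n) (KL (Real.log n)) := by
    filter_upwards [hyK, eventually_ge_atTop 2] with n h1 hn
    exact lvs_exp hn h1
  have hPar : ∀ᶠ n : ℕ in atTop, Par 1 n (Real.log n ^ 8) (β n / n) := by
    apply RsExp.par_of hg0 hg3 one_pos _ le_rfl hy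
    filter_upwards [hy (1 - g) (by linarith)] with n hn
    refine hn.2.trans (le_of_eq ?_)
    congr 1
    ring
  have hth : ∀ᶠ n : ℕ in atTop, ∀ θ : ℝ, Real.log n ^ 8 / (β n / n) ≤ θ → θ ≤ 5 * Real.log n →
      ∀ u u' : ℝ, u ≤ Pool.Agent.W842.RST.lev n θ →
        Pool.Agent.W842.RST.lev n (11 / 10 * θ) < u' →
        Real.exp (-(β n / n * (n * u' - 1))) ≤
          1 / (n : ℝ) ^ 6 * Real.exp (-(β n / n * (n * u - 1))) := by
    filter_upwards [hPar] with n HP θ h1 h2 u u' hu hu'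
    have hy0 := HP.y_pos
    have hn0 := HP.n_pos
    have hx := HP.x_big
    have hL := HP.hL
    unfold Pool.Agent.W842.RST.lev at hu hu'
    rw [le_div_iff₀ hn0] at hu
    rw [div_lt_iff₀ hn0] at hu'
    rw [div_le_iff₀ hy0] at h1
    have e1 : 1 / (n : ℝ) ^ 6 = Real.exp (-(6 * Real.log n)) := by
      rw [Real.exp_neg, one_div]
      congr 1
      rw [show 6 * Real.log (n : ℝ) = ((6 : ℕ) : ℝ) * Real.log n by norm_num,
        Real.exp_nat_mul, Real.exp_log hn0]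
    rw [e1, ← Real.exp_add]
    apply Real.exp_le_exp.2
    have e2 : 60 * Real.log n ≤ Real.log n ^ 8 := by
      have h3 := HP.hx
      have h4 : (1 + 8 * Real.log n) ≤ (1 + 8 * Real.log n) ^ 6 :=
        le_self_pow₀ (by linarith) (by norm_num)
      linarith
    have e3 : 1 / 10 * θ ≤ n * u' - n * u := by linarith
    have e4 : β n / n * (1 / 10 * θ) ≤ β n / n * (n * u' - n * u) :=
      mul_le_mul_of_nonneg_left e3 hy0.le
    have e5 : β n / n * (1 / 10 * θ) = 1 / 10 * (θ * (β n / n)) := by ring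
    have e6 : β n / n * (n * u' - n * u) = β n / n * (n * u' - 1) - β n / n * (n * u - 1) := by
      ring
    linarith
  have key := upper_seq hg0 hg3 (fun n u => Real.exp (-(β n / n * (n * u - 1))))
    (fun n i => (1 + (i : ℝ) / (β n / n)) / n) (fun n => β n / n) hy hlv hPar hth hε
  refine Tendsto.congr' ?_ key
  filter_upwards [eventually_ge_atTop 1] with n hn
  have hn0 : (0 : ℝ) < n := by exact_mod_cast hn
  have e : (fun u : ℝ => Real.exp (-(β n / n * (n * u - 1)))) =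
      fun u => Real.exp (β n / n) * wexp (β n) u := by
    funext u
    unfold wexp
    rw [← Real.exp_add]
    congr 1
    field_simp
    ring
  rw [e]
  exact avgw_scale (Real.exp_pos _) n _

/-- the exponent of the diameter in the intermediate regime -/
theorem sharp_exp (g : ℝ) (hg0 : 0 < g) (hg3 : g < 1 / 3) (β : ℕ → ℝ) (hβ0 : ∀ n, 0 ≤ β n)
    (hβ : Tendsto (fun n : ℕ => Real.log (β n) / Real.log n) atTop (𝓝 (1 + g)))
    (ε : ℝ) (hε : 0 < ε) :
    Tendsto (fun n : ℕ => RSTRE.avg (β n) n (fun T =>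
      (n : ℝ) ^ ((1 - g) / 2 - ε) ≤ (T.diam : ℝ) ∧
        (T.diam : ℝ) ≤ (n : ℝ) ^ ((1 - g) / 2 + ε))) atTop (𝓝 1) := by
  have h1 := two_sided g hg0 hg3 β hβ0 hβ ε hε
  have h2 := upper_exp g hg0 hg3 β hβ0 hβ ε hε
  simp_rw [avg_eq] at h1 ⊢
  exact RsExp.inter_tendsto (fun n => wexp_pos (β n)) (fun n => wexp_meas (β n))
    (fun n T _ ha hb => ⟨ha.1, hb⟩) h1 h2

end

end Pool.Agent.TH972.U
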