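import Pool.Agent.TH972.U.SDef2
import Pool.Agent.TH972.GibbsK
import Pool.Agent.W842.RST.Levels

/-!
# The window around `β = n`: parameters (definitions)

`1 / (log n) ^ 3 ≤ y ≤ log (log n)`, weights `exp (-(y (n u - 1)))`.
-/

set_option autoImplicit false
set_option linter.unusedSectionVars false

namespace Pool.Agent.TH972.U

open Finset MeasureTheory Pool.Agent.W842.RST Pool.Agent.TH972

noncomputable section

def wA (n : ℕ) (y u : ℝ) : ℝ := Real.exp (-(y * (n * u - 1)))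
def gA (n : ℕ) (y : ℝ) (i : ℤ) : ℝ := (1 + i / y) / n
def gbA (n : ℕ) : ℝ := 1 / Real.log n ^ 3
def pbA (n : ℕ) : ℝ := (1 - gbA n) / n
def s0A (n : ℕ) : ℕ := ⌊1 / (6400 * gbA n ^ 2)⌋₊
def smaxA (n : ℕ) : ℝ := 16 * Real.log n / gbA n ^ 2
def vminA (n : ℕ) : ℝ := n * gbA n / 6
def lamA (n : ℕ) : ℝ := 1000 * Real.log (Real.log n)
def JA (n : ℕ) : ℕ := ⌈10 * Real.log (Real.log n)⌉₊
def bA (n : ℕ) : ℝ := Real.log (8 * (JA n + 1))
def IA (n : ℕ) : ℕ := ⌈Real.log n ^ 2⌉₊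
def KA (n : ℕ) : ℝ := Real.log n ^ 3
def zA (n : ℕ) : ℝ := 1 / Real.log n ^ 5
def aaA (n : ℕ) : ℝ := gbA n ^ 2 / (16 * (6 * Real.log n ^ 6) ^ JA n)
def X0A (n : ℕ) : ℝ := n * gbA n / 16
def ΔA (n : ℕ) : ℝ := Real.log n ^ 12
def AA (n : ℕ) : ℝ := Real.log n ^ 20
/-- the bound of the degrees -/
def dA (n : ℕ) : ℝ := Real.log n ^ 5

/-- the parameters of the path sum -/
def spA (n : ℕ) (y : ℝ) : SP n where
  gam := gA n y
  I0 := 0
  I := IA n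
  bs := fun j U v F => bush 0 (gA n y j) (pbA n) 1 (s0A n) (JA n) U v F
  b := bA n
  lam := lamA n
  X0 := X0A n

variable {n : ℕ}

/-- the path sum of the environment -/
def SSA (n : ℕ) (y : ℝ) (m : ℕ) (U : Ev n) : ℝ :=
  ∑ x, ∑ π ∈ spaths m x ∅, (spA n y).wsum (zA n) U π.toFinset π ∅ none

/-- good environments -/
structure GdA (n : ℕ) (y : ℝ) (U : Ev n) : Prop where
  pos : ∀ e, 0 < U e
  hsm : ∀ v, ((cmp (GU U (pbA n)) v).card : ℝ) ≤ smaxA n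
  hvmin : vminA n ≤ (marks 0 (pbA n) 1 (s0A n) U).card
  iso : Iso (pbA n) (gA n y 1) (s0A n) U
  rob : Rob (pbA n) (gA n y 1) (s0A n) U
  deg : ∀ S ∈ blks (GU U (pbA n)) (s0A n),
    ∑ S' ∈ (blks (GU U (pbA n)) (s0A n)).erase S, nU (gA n y 1) U S S' ≤ ΔA n
  arm : ∀ v, arm (pbA n) (gA n y (IA n)) 1 U v ≤ AA n
  dmax : ∀ v, cs (fun e => wA n y (U e)) v ≤ dA n
  conn : (GU U (Pool.Agent.W842.RST.lev n (5 * Real.log n))).Preconnected

end

end Pool.Agent.TH972.U
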