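import Pool.Agent.TH972.U.XDef

/-!
# Properties of the graphs at different levels (definitions)
-/

set_option autoImplicit false
set_option linter.unusedSectionVars false

namespace Pool.Agent.TH972.U

open Finset MeasureTheory Pool.Agent.W842.RST Pool.Agent.TH972

noncomputable section

variable {n : ℕ}

open Classical in
/-- number of pairs of level at most `p` between two sets -/
def nU (p : ℝ) (U : Ev n) (S S' : Finset (Fin n)) : ℝ :=
  ((S ×ˢ S').filter (fun q => U s(q.1, q.2) ≤ p)).card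

/-- isoperimetry of the block graph -/
def Iso (pb pn : ℝ) (s0 : ℕ) (U : Ev n) : Prop :=
  ∀ bs : Finset (Fin n), (bs = ∅ ∨ bs ∈ blks (GU U pb) s0) →
    ∀ A ⊆ (blks (GU U pb) s0).erase bs, 2 * A.card ≤ (blks (GU U pb) s0).card →
      (A.card : ℝ) ≤ ∑ S ∈ A, ∑ S' ∈ ((blks (GU U pb) s0).erase bs) \ A, nU pn U S S'

/-- the standing assumptions on the blocks -/
def Std (pb : ℝ) (s0 : ℕ) (smax vmin : ℝ) (U : Ev n) : Prop :=
  (∀ v, ((cmp (GU U pb) v).card : ℝ) ≤ smax) ∧ vmin ≤ (gd (GU U pb) s0).card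

/-- large parts of a block minus a vertex have an edge to another block -/
def Rob (pb pn : ℝ) (s0 : ℕ) (U : Ev n) : Prop :=
  ∀ (v : Fin n) (K : Finset (Fin n)), v ∉ K → s0 ≤ K.card →
    (∀ x ∈ K, ∀ y, y ≠ v → (GU U pb).Adj x y → y ∈ K) →
    (∀ x ∈ K, ∀ y ∈ K, rin (GU U pb) K x y) → (∃ x ∈ K, (GU U pb).Reachable v x) →
    ∃ x ∈ K, ∃ y ∈ gd (GU U pb) s0, ¬ (GU U pb).Reachable v y ∧ U s(x, y) ≤ pn

open Classical in
/-- number of edges of level at most `pt` from the cluster `S` of `v` (level `pb`) to the vertices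
`w` outside whose cluster in the graph of level `pt` on the complement of `S` is large -/
def arm (pb pt : ℝ) (sa : ℕ) (U : Ev n) (v : Fin n) : ℝ :=
  (((cmp (GU U pb) v) ×ˢ (univ \ cmp (GU U pb) v)).filter (fun q => U s(q.1, q.2) ≤ pt ∧
    sa ≤ (rch pt U {q.2} ((univ \ cmp (GU U pb) v).erase q.2)).card)).card

open Classical in
/-- the marks -/
def marks (pl pb : ℝ) (s1 s0 : ℕ) (U : Ev n) : Finset (Fin n) :=
  univ.filter (fun v => s1 ≤ (cmp (GU U pl) v).card ∧ s0 ≤ (cmp (GU U pb) v).card)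

end

end Pool.Agent.TH972.U
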