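import Pool.Agent.TH972.U.BDef

/-!
# Marks and blocks
-/

set_option autoImplicit false
set_option linter.unusedSectionVars false

namespace Pool.Agent.TH972.U

open Finset

noncomputable section

variable {V : Type} [Fintype V] [DecidableEq V]

/-- killing at rate `k` on the marks -/
def BlkEnv.net (E : BlkEnv V) (k : ℝ) (hk : 0 < k) : Net V where
  κ := E.κ
  k := fun x => if x ∈ E.M then k else 0
  κ_pos := E.κ_pos
  k_nonneg := fun x => by split_ifs <;> linarith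
  k_pos := by
    obtain ⟨v, hv⟩ := Finset.card_pos.1 E.hM0
    exact ⟨v, by rw [if_pos hv]; exact hk⟩

namespace Marks

/-! ### Energy -/

lemma term_nonneg {κ : Sym2 V → ℝ} (h : ∀ e, 0 < κ e) (f : V → ℝ) (x y : V) :
    0 ≤ Kc κ x y * (f x - f y) ^ 2 :=
  mul_nonneg (Kc_nonneg (fun e => (h e).le) x y) (sq_nonneg _)

lemma EnIn_nonneg {κ : Sym2 V → ℝ} (h : ∀ e, 0 < κ e) (W : Finset V) (f : V → ℝ) :
    0 ≤ EnIn κ W f := by
  unfold EnIn
  refine div_nonneg (Finset.sum_nonneg fun x _ => Finset.sum_nonneg fun y _ => ?_) (by norm_num)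
  exact term_nonneg h f x y

lemma EnIn_mono {κ : Sym2 V → ℝ} (h : ∀ e, 0 < κ e) {W W' : Finset V} (hW : W ⊆ W')
    (f : V → ℝ) : EnIn κ W f ≤ EnIn κ W' f := by
  unfold EnIn
  refine div_le_div_of_nonneg_right ?_ (by norm_num)
  calc ∑ x ∈ W, ∑ y ∈ W, Kc κ x y * (f x - f y) ^ 2
      ≤ ∑ x ∈ W, ∑ y ∈ W', Kc κ x y * (f x - f y) ^ 2 :=
        Finset.sum_le_sum fun x _ =>
          Finset.sum_le_sum_of_subset_of_nonneg hW fun y _ _ => term_nonneg h f x y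
    _ ≤ _ := Finset.sum_le_sum_of_subset_of_nonneg hW fun x _ _ =>
          Finset.sum_nonneg fun y _ => term_nonneg h f x y

lemma EnIn_univ (κ : Sym2 V → ℝ) (f : V → ℝ) : EnIn κ univ f = En κ f := rfl

lemma EnIn_le_En {κ : Sym2 V → ℝ} (h : ∀ e, 0 < κ e) (W : Finset V) (f : V → ℝ) :
    EnIn κ W f ≤ En κ f := by
  rw [← EnIn_univ]
  exact EnIn_mono h (Finset.subset_univ W) f

lemma term_le {κ : Sym2 V → ℝ} (h : ∀ e, 0 < κ e) {W : Finset V} {x y : V} (hx : x ∈ W)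
    (hy : y ∈ W) (hxy : x ≠ y) (f : V → ℝ) : Kc κ x y * (f x - f y) ^ 2 ≤ EnIn κ W f := by
  unfold EnIn
  rw [le_div_iff₀ (by norm_num)]
  have h1 : ∑ z ∈ ({x, y} : Finset V), ∑ w ∈ W, Kc κ z w * (f z - f w) ^ 2 ≤
      ∑ z ∈ W, ∑ w ∈ W, Kc κ z w * (f z - f w) ^ 2 := by
    refine Finset.sum_le_sum_of_subset_of_nonneg ?_ fun z _ _ =>
      Finset.sum_nonneg fun w _ => term_nonneg h f z w
    intro z hz
    rcases Finset.mem_insert.mp hz with rfl | hz
    · exact hx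
    · rw [Finset.mem_singleton.mp hz]
      exact hy
  rw [Finset.sum_pair hxy] at h1
  have h2 : Kc κ x y * (f x - f y) ^ 2 ≤ ∑ w ∈ W, Kc κ x w * (f x - f w) ^ 2 :=
    Finset.single_le_sum (f := fun w => Kc κ x w * (f x - f w) ^ 2)
      (fun w _ => term_nonneg h f x w) hy
  have h3 : Kc κ y x * (f y - f x) ^ 2 ≤ ∑ w ∈ W, Kc κ y w * (f y - f w) ^ 2 :=
    Finset.single_le_sum (f := fun w => Kc κ y w * (f y - f w) ^ 2)
      (fun w _ => term_nonneg h f y w) hx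
  rw [Kc_symm κ y x] at h3
  have h4 : (f y - f x) ^ 2 = (f x - f y) ^ 2 := by ring
  rw [h4] at h3
  linarith

/-! ### Clusters -/

variable {G : SimpleGraph V} {s0 : ℕ}

lemma mem_cmp {u v : V} : u ∈ cmp G v ↔ G.Reachable v u := by
  unfold cmp
  simp

lemma self_mem_cmp (v : V) : v ∈ cmp G v := mem_cmp.mpr (SimpleGraph.Reachable.refl v)

lemma cmp_eq {u v : V} (h : u ∈ cmp G v) : cmp G u = cmp G v := by
  rw [mem_cmp] at h
  ext z
  rw [mem_cmp, mem_cmp]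
  exact ⟨fun h' => h.trans h', fun h' => h.symm.trans h'⟩

lemma mem_gd {v : V} : v ∈ gd G s0 ↔ s0 ≤ (cmp G v).card := by
  unfold gd
  simp

lemma gd_of_cmp {u v : V} (h : u ∈ cmp G v) (hv : v ∈ gd G s0) : u ∈ gd G s0 := by
  rw [mem_gd] at hv ⊢
  rw [cmp_eq h]
  exact hv

lemma cmp_mem_blks {v : V} (hv : v ∈ gd G s0) : cmp G v ∈ blks G s0 :=
  Finset.mem_image_of_mem _ hv

lemma blks_spec {S : Finset V} (hS : S ∈ blks G s0) : ∃ v ∈ gd G s0, S = cmp G v := by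
  unfold blks at hS
  rw [Finset.mem_image] at hS
  obtain ⟨v, hv, rfl⟩ := hS
  exact ⟨v, hv, rfl⟩

lemma cmp_eq_of_mem {S : Finset V} (hS : S ∈ blks G s0) {v : V} (hv : v ∈ S) : cmp G v = S := by
  obtain ⟨w, -, rfl⟩ := blks_spec hS
  exact cmp_eq hv

lemma empty_notMem_blks : (∅ : Finset V) ∉ blks G s0 := by
  intro h
  obtain ⟨v, -, hv⟩ := blks_spec h
  have := self_mem_cmp (G := G) v
  rw [← hv] at this
  exact Finset.notMem_empty v this

/-- the cluster of a vertex outside `bs` -/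
lemma cmp_sub {bs : Finset V} (hbs : bs = ∅ ∨ bs ∈ blks G s0) {u : V} (hu : u ∈ gd G s0 \ bs) :
    cmp G u ⊆ gd G s0 \ bs ∧ cmp G u ∈ (blks G s0).erase bs := by
  rw [Finset.mem_sdiff] at hu
  constructor
  · intro z hz
    rw [Finset.mem_sdiff]
    refine ⟨gd_of_cmp hz hu.1, fun hzb => ?_⟩
    rcases hbs with rfl | hbs
    · exact Finset.notMem_empty z hzb
    · apply hu.2
      rw [← cmp_eq_of_mem hbs hzb, cmp_eq hz]
      exact self_mem_cmp u
  · rw [Finset.mem_erase]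
    refine ⟨?_, cmp_mem_blks hu.1⟩
    rintro rfl
    exact hu.2 (self_mem_cmp u)

lemma rin_cmp {v u w : V} (hu : u ∈ cmp G v) (hw : w ∈ cmp G v) : rin G (cmp G v) u w := by
  rw [mem_cmp] at hu hw
  obtain ⟨p⟩ := hu.symm.trans hw
  refine ⟨p, fun z hz => ?_⟩
  rw [mem_cmp]
  exact hu.trans ⟨p.takeUntil z hz⟩

lemma rin_symm {W : Finset V} {u v : V} (h : rin G W u v) : rin G W v u := by
  obtain ⟨p, hp⟩ := h
  refine ⟨p.reverse, fun z hz => hp z ?_⟩
  rwa [SimpleGraph.Walk.support_reverse, List.mem_reverse] at hz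

lemma rin_trans {W : Finset V} {u v w : V} (h : rin G W u v) (h' : rin G W v w) :
    rin G W u w := by
  obtain ⟨p, hp⟩ := h
  obtain ⟨q, hq⟩ := h'
  refine ⟨p.append q, fun z hz => ?_⟩
  rw [SimpleGraph.Walk.mem_support_append_iff] at hz
  rcases hz with hz | hz
  · exact hp z hz
  · exact hq z hz

lemma rin_mono {W W' : Finset V} (hW : W ⊆ W') {u v : V} (h : rin G W u v) : rin G W' u v := by
  obtain ⟨p, hp⟩ := h
  exact ⟨p, fun z hz => hW (hp z hz)⟩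

lemma rin_reach {W : Finset V} {u v : V} (h : rin G W u v) : G.Reachable u v := by
  obtain ⟨p, -⟩ := h
  exact ⟨p⟩

lemma rin_right {W : Finset V} {u v : V} (h : rin G W u v) : v ∈ W := by
  obtain ⟨p, hp⟩ := h
  exact hp v p.end_mem_support

lemma rin_refl {W : Finset V} {u : V} (h : u ∈ W) : rin G W u u :=
  ⟨SimpleGraph.Walk.nil, fun z hz => by
    rw [SimpleGraph.Walk.support_nil, List.mem_singleton] at hz
    rw [hz]
    exact h⟩

lemma rin_adj {W : Finset V} {u v : V} (h : G.Adj u v) (hu : u ∈ W) (hv : v ∈ W) :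
    rin G W u v :=
  ⟨SimpleGraph.Walk.cons h SimpleGraph.Walk.nil, fun z hz => by
    simp only [SimpleGraph.Walk.support_cons, SimpleGraph.Walk.support_nil, List.mem_cons,
      List.not_mem_nil, or_false] at hz
    rcases hz with rfl | rfl
    · exact hu
    · exact hv⟩

/-! ### The environment -/

lemma smax_nonneg (E : BlkEnv V) : 0 ≤ E.smax := by
  obtain ⟨v, -⟩ := Finset.card_pos.1 E.hM0
  exact (Nat.cast_nonneg _).trans (E.hsmax v)

/-- representatives -/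
lemma exists_rep (E : BlkEnv V) (Q : Finset V → V → Prop)
    (hQ : ∀ S ∈ blks E.Hb E.s0, ∃ v ∈ S, Q S v) :
    ∃ rep : Finset V → V, ∀ S ∈ blks E.Hb E.s0, rep S ∈ S ∧ Q S (rep S) := by
  obtain ⟨v0, -⟩ := Finset.card_pos.1 E.hM0
  have h : ∀ S : Finset V, ∃ v : V, S ∈ blks E.Hb E.s0 → v ∈ S ∧ Q S v := by
    intro S
    by_cases hS : S ∈ blks E.Hb E.s0
    · obtain ⟨v, h1, h2⟩ := hQ S hS
      exact ⟨v, fun _ => ⟨h1, h2⟩⟩
    · exact ⟨v0, fun h => absurd h hS⟩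
  choose rep hrep using h
  exact ⟨rep, hrep⟩

/-- the killed energy -/
lemma EK_net (E : BlkEnv V) {k : ℝ} (hk : 0 < k) (f : V → ℝ) :
    EK (E.net k hk) f = En E.κ f + ∑ m ∈ E.M, k * f m ^ 2 := by
  unfold EK
  congr 1
  have h : ∀ x, (E.net k hk).k x * f x ^ 2 = if x ∈ E.M then k * f x ^ 2 else 0 := by
    intro x
    show (if x ∈ E.M then k else 0) * f x ^ 2 = _
    split_ifs <;> ring
  rw [Finset.sum_congr rfl fun x _ => h x, Finset.sum_ite_mem, Finset.univ_inter]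

/-- a mark with small value -/
lemma min_mark (M : Finset V) (hM : 0 < M.card) (f : V → ℝ) :
    ∃ m ∈ M, (M.card : ℝ) * f m ^ 2 ≤ ∑ x ∈ M, f x ^ 2 := by
  obtain ⟨m, hm, hmin⟩ := Finset.exists_min_image M (fun x => f x ^ 2) (Finset.card_pos.1 hM)
  refine ⟨m, hm, ?_⟩
  rw [← nsmul_eq_mul, ← Finset.sum_const]
  exact Finset.sum_le_sum fun x hx => hmin x hx

end Marks

open Marks

/-- two good vertices outside `bs` -/
theorem BlkEnv.pair (E : BlkEnv V) (bs : Finset V) (hbs : bs = ∅ ∨ bs ∈ blks E.Hb E.s0)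
    {u v : V} (hu : u ∈ gd E.Hb E.s0 \ bs) (hv : v ∈ gd E.Hb E.s0 \ bs) (f : V → ℝ) :
    (f u - f v) ^ 2 ≤ 8 * (E.C + E.ρb) * EnIn E.κ (gd E.Hb E.s0 \ bs) f := by
  have hE := EnIn_nonneg E.κ_pos (gd E.Hb E.s0 \ bs) f
  have hC := E.C_pos
  have hρ := E.ρb_pos
  by_cases h : cmp E.Hb u = cmp E.Hb v
  · have h1 : v ∈ cmp E.Hb u := by
      rw [h]
      exact self_mem_cmp v
    have h2 := E.path (cmp E.Hb u) u v (rin_cmp (self_mem_cmp u) h1) f
    have h3 := EnIn_mono E.κ_pos (cmp_sub hbs hu).1 f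
    calc (f u - f v) ^ 2 ≤ E.ρb * EnIn E.κ (cmp E.Hb u) f := h2
      _ ≤ E.ρb * EnIn E.κ (gd E.Hb E.s0 \ bs) f := mul_le_mul_of_nonneg_left h3 hρ.le
      _ ≤ _ := mul_le_mul_of_nonneg_right (by linarith) hE
  · obtain ⟨c, hc⟩ := E.poinc bs hbs f
    obtain ⟨rep, hrep⟩ := exists_rep E (fun S z => (S = cmp E.Hb u → z = u) ∧
      (S = cmp E.Hb v → z = v)) (by
        intro S hS
        by_cases h1 : S = cmp E.Hb u
        · refine ⟨u, ?_, fun _ => rfl, fun h2 => absurd (h1.symm.trans h2) h⟩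
          rw [h1]
          exact self_mem_cmp u
        · by_cases h2 : S = cmp E.Hb v
          · refine ⟨v, ?_, fun h3 => absurd h3 h1, fun _ => rfl⟩
            rw [h2]
            exact self_mem_cmp v
          · obtain ⟨w, -, rfl⟩ := blks_spec hS
            exact ⟨w, self_mem_cmp w, fun h3 => absurd h3 h1, fun h3 => absurd h3 h2⟩)
    have h1 := hc rep fun S hS => (hrep S hS).1
    have hub := (cmp_sub hbs hu).2
    have hvb := (cmp_sub hbs hv).2
    have hru : rep (cmp E.Hb u) = u := (hrep _ (Finset.mem_of_mem_erase hub)).2.1 rfl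
    have hrv : rep (cmp E.Hb v) = v := (hrep _ (Finset.mem_of_mem_erase hvb)).2.2 rfl
    have h2 : (f u - c) ^ 2 + (f v - c) ^ 2 ≤
        ∑ S ∈ (blks E.Hb E.s0).erase bs, (f (rep S) - c) ^ 2 := by
      have h3 : ∑ S ∈ ({cmp E.Hb u, cmp E.Hb v} : Finset (Finset V)), (f (rep S) - c) ^ 2 ≤
          ∑ S ∈ (blks E.Hb E.s0).erase bs, (f (rep S) - c) ^ 2 := by
        refine Finset.sum_le_sum_of_subset_of_nonneg ?_ fun S _ _ => sq_nonneg _
        intro S hS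
        rcases Finset.mem_insert.mp hS with rfl | hS
        · exact hub
        · rw [Finset.mem_singleton.mp hS]
          exact hvb
      rwa [Finset.sum_pair h, hru, hrv] at h3
    have h4 := h2.trans h1
    have h5 : (f u - f v) ^ 2 ≤ 2 * ((f u - c) ^ 2 + (f v - c) ^ 2) := by
      nlinarith [sq_nonneg ((f u - c) + (f v - c))]
    have h6 : 0 ≤ E.C * EnIn E.κ (gd E.Hb E.s0 \ bs) f := mul_nonneg hC.le hE
    have h7 : 0 ≤ E.ρb * EnIn E.κ (gd E.Hb E.s0 \ bs) f := mul_nonneg hρ.le hE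
    nlinarith

/-- Poincare inequality for the marks -/
theorem BlkEnv.marks (E : BlkEnv V) (f : V → ℝ) :
    ∃ c : ℝ, ∑ m ∈ E.M, (f m - c) ^ 2 ≤ E.smax * E.C * En E.κ f := by
  obtain ⟨c, hc⟩ := E.poinc ∅ (Or.inl rfl) f
  refine ⟨c, ?_⟩
  obtain ⟨rep, hrep⟩ := exists_rep E (fun S z => ∀ x ∈ S, (f x - c) ^ 2 ≤ (f z - c) ^ 2) (by
    intro S hS
    obtain ⟨w, -, rfl⟩ := blks_spec hS
    obtain ⟨z, hz, hmax⟩ := Finset.exists_max_image (cmp E.Hb w) (fun x => (f x - c) ^ 2)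
      ⟨w, self_mem_cmp w⟩
    exact ⟨z, hz, hmax⟩)
  have h1 := hc rep fun S hS => (hrep S hS).1
  rw [Finset.erase_eq_of_notMem empty_notMem_blks, Finset.sdiff_empty] at h1
  have h2 : ∑ m ∈ E.M, (f m - c) ^ 2 = ∑ S ∈ blks E.Hb E.s0,
      ∑ m ∈ E.M with cmp E.Hb m = S, (f m - c) ^ 2 :=
    (Finset.sum_fiberwise_of_maps_to (fun m hm => cmp_mem_blks (E.M_good hm)) _).symm
  have h3 : ∀ S ∈ blks E.Hb E.s0, ∑ m ∈ E.M with cmp E.Hb m = S, (f m - c) ^ 2 ≤
      E.smax * (f (rep S) - c) ^ 2 := by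
    intro S hS
    have hsub : (E.M.filter fun m => cmp E.Hb m = S) ⊆ S := by
      intro m hm
      rw [← (Finset.mem_filter.mp hm).2]
      exact self_mem_cmp m
    have hcard : ((E.M.filter fun m => cmp E.Hb m = S).card : ℝ) ≤ E.smax := by
      obtain ⟨w, -, rfl⟩ := blks_spec hS
      refine le_trans ?_ (E.hsmax w)
      exact_mod_cast Finset.card_le_card hsub
    calc ∑ m ∈ E.M with cmp E.Hb m = S, (f m - c) ^ 2
        ≤ ∑ _m ∈ E.M with cmp E.Hb _m = S, (f (rep S) - c) ^ 2 :=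
          Finset.sum_le_sum fun m hm => (hrep S hS).2 m (hsub hm)
      _ = ((E.M.filter fun m => cmp E.Hb m = S).card : ℝ) * (f (rep S) - c) ^ 2 := by
          rw [Finset.sum_const, nsmul_eq_mul]
      _ ≤ _ := mul_le_mul_of_nonneg_right hcard (sq_nonneg _)
  have hs := smax_nonneg E
  calc ∑ m ∈ E.M, (f m - c) ^ 2 ≤ ∑ S ∈ blks E.Hb E.s0, E.smax * (f (rep S) - c) ^ 2 := by
        rw [h2]
        exact Finset.sum_le_sum h3
    _ = E.smax * ∑ S ∈ blks E.Hb E.s0, (f (rep S) - c) ^ 2 := by rw [Finset.mul_sum]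
    _ ≤ E.smax * (E.C * EnIn E.κ (gd E.Hb E.s0) f) := mul_le_mul_of_nonneg_left h1 hs
    _ ≤ E.smax * (E.C * En E.κ f) :=
        mul_le_mul_of_nonneg_left
          (mul_le_mul_of_nonneg_left (EnIn_le_En E.κ_pos _ f) E.C_pos.le) hs
    _ = _ := by ring

theorem BlkEnv.grn_good (E : BlkEnv V) {k : ℝ} (hk : 0 < k) {z : V} (hz : z ∈ gd E.Hb E.s0) :
    grn (E.net k hk) ∅ z z ≤ 5 / (4 * (k * E.M.card)) + 40 * (E.C + E.ρb) := by
  have hM : (0 : ℝ) < (E.M.card : ℝ) := by exact_mod_cast E.hM0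
  have hC := E.C_pos
  have hρ := E.ρb_pos
  have hR1 : 0 < 5 / (4 * (k * (E.M.card : ℝ))) := by positivity
  refine grn_var2 (E.net k hk) z (by positivity) fun f _ => ?_
  rw [EK_net]
  obtain ⟨m, hm, hmin⟩ := min_mark E.M E.hM0 f
  have h1 := E.pair ∅ (Or.inl rfl) (u := z) (v := m) (by simpa using hz)
    (by simpa using E.M_good hm) f
  rw [Finset.sdiff_empty] at h1
  have h2 := EnIn_le_En E.κ_pos (gd E.Hb E.s0) f
  have hEn : 0 ≤ En E.κ f := by
    rw [← EnIn_univ]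
    exact EnIn_nonneg E.κ_pos univ f
  have hS : 0 ≤ ∑ x ∈ E.M, k * f x ^ 2 :=
    Finset.sum_nonneg fun x _ => mul_nonneg hk.le (sq_nonneg _)
  have h3 : f z ^ 2 ≤ 5 / 4 * f m ^ 2 + 5 * (f z - f m) ^ 2 := by
    nlinarith [sq_nonneg (f m / 2 - 2 * (f z - f m))]
  have h4 : (f z - f m) ^ 2 ≤ 8 * (E.C + E.ρb) * En E.κ f :=
    h1.trans (mul_le_mul_of_nonneg_left h2 (by positivity))
  have h5 : 5 / 4 * f m ^ 2 ≤ 5 / (4 * (k * (E.M.card : ℝ))) * ∑ x ∈ E.M, k * f x ^ 2 := by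
    rw [← Finset.mul_sum]
    have e : 5 / (4 * (k * (E.M.card : ℝ))) * (k * ∑ x ∈ E.M, f x ^ 2) =
        5 / 4 * ((∑ x ∈ E.M, f x ^ 2) / (E.M.card : ℝ)) := by
      field_simp
    rw [e]
    refine mul_le_mul_of_nonneg_left ?_ (by norm_num)
    rw [le_div_iff₀ hM]
    linarith
  have h6 : 0 ≤ 5 / (4 * (k * (E.M.card : ℝ))) * En E.κ f := mul_nonneg hR1.le hEn
  have h7 : 0 ≤ (E.C + E.ρb) * ∑ x ∈ E.M, k * f x ^ 2 := mul_nonneg (by positivity) hS
  nlinarith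

/-- few roots -/
theorem BlkEnv.roots (E : BlkEnv V) {k : ℝ} (hk : 0 < k)
    (hQ : k * E.M.card * (160 * (E.C + E.ρb)) ≤ 1) :
    ∑ x, (E.net k hk).k x * grn (E.net k hk) ∅ x x ≤ 3 / 2 := by
  have hM : (0 : ℝ) < (E.M.card : ℝ) := by exact_mod_cast E.hM0
  have h : ∀ x, (E.net k hk).k x * grn (E.net k hk) ∅ x x =
      if x ∈ E.M then k * grn (E.net k hk) ∅ x x else 0 := by
    intro x
    show (if x ∈ E.M then k else 0) * _ = _
    split_ifs <;> ring
  rw [Finset.sum_congr rfl fun x _ => h x, Finset.sum_ite_mem, Finset.univ_inter]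
  calc ∑ x ∈ E.M, k * grn (E.net k hk) ∅ x x
      ≤ ∑ _x ∈ E.M, k * (5 / (4 * (k * (E.M.card : ℝ))) + 40 * (E.C + E.ρb)) :=
        Finset.sum_le_sum fun x hx =>
          mul_le_mul_of_nonneg_left (E.grn_good hk (E.M_good hx)) hk.le
    _ = 5 / 4 + 40 * (k * (E.M.card : ℝ) * (E.C + E.ρb)) := by
        rw [Finset.sum_const, nsmul_eq_mul]
        field_simp
    _ ≤ 3 / 2 := by linarith

namespace Marks

/-- the bound for a good vertex outside `bs` -/
lemma star (E : BlkEnv V) {k : ℝ} (hk : 0 < k) {v y : V} {bs : Finset V}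
    (hbs : bs = ∅ ∨ bs ∈ blks E.Hb E.s0) (hy : y ∈ gd E.Hb E.s0 \ bs)
    (hv : v ∉ gd E.Hb E.s0 \ bs) (f : V → ℝ) :
    f y ^ 2 ≤ 4 / (k * (E.M.card : ℝ)) * ∑ m ∈ E.M, k * f m ^ 2 +
      16 * (E.C + E.ρb) * EnIn E.κ (univ.erase v) f := by
  have hM : (0 : ℝ) < (E.M.card : ℝ) := by exact_mod_cast E.hM0
  have hC := E.C_pos
  have hρ := E.ρb_pos
  have hbc : (bs.card : ℝ) ≤ E.smax := by
    rcases hbs with rfl | hbs
    · simpa using smax_nonneg E
    · obtain ⟨w, -, rfl⟩ := blks_spec hbs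
      exact E.hsmax w
  have h1 : (E.M.card : ℝ) ≤ 2 * ((E.M \ bs).card : ℝ) := by
    have h2 : E.M.card ≤ (E.M \ bs).card + bs.card := by
      have := Finset.card_sdiff_add_card E.M bs
      have h3 := Finset.card_le_card (Finset.subset_union_left (s₁ := E.M) (s₂ := bs))
      omega
    have h3 : (E.M.card : ℝ) ≤ ((E.M \ bs).card : ℝ) + (bs.card : ℝ) := by exact_mod_cast h2
    have := E.hM
    linarith
  have h0 : 0 < (E.M \ bs).card := by
    have : (0 : ℝ) < ((E.M \ bs).card : ℝ) := by linarith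
    exact_mod_cast this
  obtain ⟨m, hm, hmin⟩ := min_mark (E.M \ bs) h0 f
  have hm' := Finset.mem_sdiff.mp hm
  have h2 := E.pair bs hbs hy (v := m) (Finset.mem_sdiff.mpr ⟨E.M_good hm'.1, hm'.2⟩) f
  have hsub : gd E.Hb E.s0 \ bs ⊆ univ.erase v := by
    intro z hz
    rw [Finset.mem_erase]
    exact ⟨fun h => hv (h ▸ hz), Finset.mem_univ z⟩
  have h3 := EnIn_mono E.κ_pos hsub f
  have h4 : ∑ x ∈ E.M \ bs, f x ^ 2 ≤ ∑ x ∈ E.M, f x ^ 2 :=
    Finset.sum_le_sum_of_subset_of_nonneg Finset.sdiff_subset fun x _ _ => sq_nonneg _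
  have h5 : (E.M.card : ℝ) * f m ^ 2 ≤ 2 * ∑ x ∈ E.M, f x ^ 2 := by
    have h6 : (E.M.card : ℝ) * f m ^ 2 ≤ 2 * ((E.M \ bs).card : ℝ) * f m ^ 2 :=
      mul_le_mul_of_nonneg_right h1 (sq_nonneg _)
    linarith
  have h6 : 2 * f m ^ 2 ≤ 4 / (k * (E.M.card : ℝ)) * ∑ x ∈ E.M, k * f x ^ 2 := by
    rw [← Finset.mul_sum]
    have e : 4 / (k * (E.M.card : ℝ)) * (k * ∑ x ∈ E.M, f x ^ 2) =
        2 * ((2 * ∑ x ∈ E.M, f x ^ 2) / (E.M.card : ℝ)) := by
      field_simp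
      ring
    rw [e]
    refine mul_le_mul_of_nonneg_left ?_ (by norm_num)
    rw [le_div_iff₀ hM]
    linarith
  have h7 : f y ^ 2 ≤ 2 * f m ^ 2 + 2 * (f y - f m) ^ 2 := by
    nlinarith [sq_nonneg (f m - (f y - f m))]
  have h8 : (f y - f m) ^ 2 ≤ 8 * (E.C + E.ρb) * EnIn E.κ (univ.erase v) f :=
    h2.trans (mul_le_mul_of_nonneg_left h3 (by positivity))
  linarith

end Marks

/-- every large connected set of `Hb` avoiding `v` is well connected to the marks off `v` -/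
theorem BlkEnv.rho (E : BlkEnv V) {k : ℝ} (hk : 0 < k) {v d : V} {D : Finset V} (hd : d ∈ D)
    (hv : v ∉ D) (hD : ∀ u ∈ D, rin E.Hb D d u) (hs : E.s0 ≤ D.card) (f : V → ℝ) :
    f d ^ 2 ≤ 3 * (E.ρb + 1 / E.cn + 4 / (k * E.M.card) + 16 * (E.C + E.ρb)) *
      (EnIn E.κ (univ.erase v) f + ∑ m ∈ E.M, k * f m ^ 2) := by
  classical
  have hM : (0 : ℝ) < (E.M.card : ℝ) := by exact_mod_cast E.hM0
  have hC := E.C_pos
  have hρ := E.ρb_pos
  have hcn := E.cn_pos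
  have hE' : 0 ≤ EnIn E.κ (univ.erase v) f := EnIn_nonneg E.κ_pos _ f
  have hS2 : 0 ≤ ∑ m ∈ E.M, k * f m ^ 2 :=
    Finset.sum_nonneg fun x _ => mul_nonneg hk.le (sq_nonneg _)
  have hK4 : 0 < 4 / (k * (E.M.card : ℝ)) := by positivity
  have hcn' : 0 < 1 / E.cn := by positivity
  have hDc : D ⊆ cmp E.Hb d := fun u hu => mem_cmp.mpr (rin_reach (hD u hu))
  have hdg : d ∈ gd E.Hb E.s0 := mem_gd.mpr (hs.trans (Finset.card_le_card hDc))
  by_cases hvd : v ∈ cmp E.Hb d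
  · -- the cluster of `d` contains `v`
    have hvg : v ∈ gd E.Hb E.s0 := gd_of_cmp hvd hdg
    obtain ⟨K, hK⟩ : ∃ K : Finset V, K = univ.filter (fun u => rin E.Hb (univ.erase v) d u) :=
      ⟨_, rfl⟩
    have hKm : ∀ u, u ∈ K ↔ rin E.Hb (univ.erase v) d u := by
      intro u
      rw [hK]
      simp
    have hDv : D ⊆ univ.erase v := by
      intro z hz
      rw [Finset.mem_erase]
      exact ⟨fun h => hv (h ▸ hz), Finset.mem_univ z⟩
    have hDK : D ⊆ K := fun u hu => (hKm u).mpr (rin_mono hDv (hD u hu))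
    have hdK : d ∈ K := hDK hd
    have hKv : K ⊆ univ.erase v := fun u hu => rin_right ((hKm u).mp hu)
    have hvK : v ∉ K := fun h => by
      have := hKv h
      simp at this
    have hdx : ∀ x ∈ K, rin E.Hb K d x := by
      intro x hx
      obtain ⟨p, hp⟩ := (hKm x).mp hx
      refine ⟨p, fun z hz => (hKm z).mpr ⟨p.takeUntil z hz, fun w hw => ?_⟩⟩
      exact hp w (SimpleGraph.Walk.support_takeUntil_subset_support p hz hw)
    obtain ⟨x, hx, y, hy, hvy, hxy⟩ := E.rob v K hvK (hs.trans (Finset.card_le_card hDK))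
      (by
        intro x hx y hyv hadj
        rw [hKm] at hx ⊢
        refine rin_trans hx (rin_adj hadj (rin_right hx) ?_)
        rw [Finset.mem_erase]
        exact ⟨hyv, Finset.mem_univ y⟩)
      (fun x hx y hy => rin_trans (rin_symm (hdx x hx)) (hdx y hy))
      ⟨d, hdK, (mem_cmp.mp hvd).symm⟩
    have hxr : E.Hb.Reachable v x :=
      ((mem_cmp.mp hvd).symm).trans (rin_reach ((hKm x).mp hx))
    have hne : x ≠ y := fun h => hvy (h ▸ hxr)
    have hyv : y ≠ v := by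
      intro h
      apply hvy
      rw [h]
    have g1 : (f d - f x) ^ 2 ≤ E.ρb * EnIn E.κ (univ.erase v) f :=
      (E.path K d x (hdx x hx) f).trans
        (mul_le_mul_of_nonneg_left (EnIn_mono E.κ_pos hKv f) hρ.le)
    have g2 : (f x - f y) ^ 2 ≤ 1 / E.cn * EnIn E.κ (univ.erase v) f := by
      have h1 := term_le E.κ_pos (W := univ.erase v) (hKv hx)
        (Finset.mem_erase.mpr ⟨hyv, Finset.mem_univ y⟩) hne f
      have h2 : E.cn * (f x - f y) ^ 2 ≤ EnIn E.κ (univ.erase v) f :=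
        (mul_le_mul_of_nonneg_right hxy (sq_nonneg _)).trans h1
      rw [one_div, inv_mul_eq_div, le_div_iff₀ hcn]
      linarith
    have g3 := star E hk (v := v) (y := y) (bs := cmp E.Hb v) (Or.inr (cmp_mem_blks hvg))
      (Finset.mem_sdiff.mpr ⟨hy, fun h => hvy (mem_cmp.mp h)⟩)
      (fun h => (Finset.mem_sdiff.mp h).2 (self_mem_cmp v)) f
    have g4 : f d ^ 2 ≤ 3 * ((f d - f x) ^ 2 + (f x - f y) ^ 2 + f y ^ 2) := by
      nlinarith [sq_nonneg ((f d - f x) - (f x - f y)), sq_nonneg ((f x - f y) - f y),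
        sq_nonneg ((f d - f x) - f y)]
    have g5 : 0 ≤ (E.ρb + 1 / E.cn + 16 * (E.C + E.ρb)) * ∑ m ∈ E.M, k * f m ^ 2 :=
      mul_nonneg (by positivity) hS2
    have g6 : 0 ≤ 4 / (k * (E.M.card : ℝ)) * EnIn E.κ (univ.erase v) f :=
      mul_nonneg hK4.le hE'
    nlinarith
  · -- the cluster of `d` does not contain `v`
    have g3 : f d ^ 2 ≤ 4 / (k * (E.M.card : ℝ)) * ∑ m ∈ E.M, k * f m ^ 2 +
        16 * (E.C + E.ρb) * EnIn E.κ (univ.erase v) f := by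
      by_cases hvg : v ∈ gd E.Hb E.s0
      · refine star E hk (v := v) (y := d) (bs := cmp E.Hb v) (Or.inr (cmp_mem_blks hvg))
          (Finset.mem_sdiff.mpr ⟨hdg, fun h => hvd ?_⟩)
          (fun h => (Finset.mem_sdiff.mp h).2 (self_mem_cmp v)) f
        exact mem_cmp.mpr (mem_cmp.mp h).symm
      · refine star E hk (v := v) (y := d) (bs := ∅) (Or.inl rfl) (by simpa using hdg)
          (by simpa using hvg) f
    have g5 : 0 ≤ (E.ρb + 1 / E.cn + 16 * (E.C + E.ρb)) * ∑ m ∈ E.M, k * f m ^ 2 :=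
      mul_nonneg (by positivity) hS2
    have g6 : 0 ≤ 4 / (k * (E.M.card : ℝ)) * EnIn E.κ (univ.erase v) f :=
      mul_nonneg hK4.le hE'
    have g7 : 0 ≤ 4 / (k * (E.M.card : ℝ)) * ∑ m ∈ E.M, k * f m ^ 2 := mul_nonneg hK4.le hS2
    have g8 : 0 ≤ (E.ρb + 1 / E.cn) * EnIn E.κ (univ.erase v) f :=
      mul_nonneg (by positivity) hE'
    have g9 : 0 ≤ (E.C + E.ρb) * EnIn E.κ (univ.erase v) f :=
      mul_nonneg (by positivity) hE'
    nlinarith

end

end Pool.Agent.TH972.U
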