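import Pool.Agent.TH972.U.LiftU
import Pool.Agent.TH972.U.GDef
import Pool.Agent.TH972.U.Marks

/-!
# Facts on the block graph
-/

set_option autoImplicit false
set_option linter.unusedSectionVars false

namespace Pool.Agent.TH972.U

open Finset MeasureTheory Pool.Agent.W842.RST Pool.Agent.TH972

noncomputable section

variable {n : ℕ}

namespace Graph

/-- edges between two sets -/
def cross (S S' : Finset (Fin n)) : Finset (Sym2 (Fin n)) :=
  (S ×ˢ S').image (fun q => s(q.1, q.2))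

theorem cross_inj {S S' : Finset (Fin n)} (h : Disjoint S S') :
    Set.InjOn (fun q : Fin n × Fin n => s(q.1, q.2)) ((S ×ˢ S' : Finset _) : Set (Fin n × Fin n)) := by
  rintro ⟨a, b⟩ h1 ⟨c, d⟩ h2 hab
  simp only [Finset.coe_product, Set.mem_prod, Finset.mem_coe] at h1 h2
  simp only at hab
  rw [Sym2.eq_iff] at hab
  rcases hab with ⟨h3, h4⟩ | ⟨h3, h4⟩
  · rw [h3, h4]
  · exact absurd h2.2 (Finset.disjoint_left.1 h (h3 ▸ h1.1))

theorem cross_card {S S' : Finset (Fin n)} (h : Disjoint S S') :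
    (cross S S').card = S.card * S'.card := by
  unfold cross
  rw [Finset.card_image_of_injOn (cross_inj h), Finset.card_product]

open Classical in
theorem cross_filter {S S' : Finset (Fin n)} (h : Disjoint S S') (p : ℝ) (U : Ev n) :
    ((cross S S').filter (fun e => U e ≤ p)).card =
      ((S ×ˢ S').filter (fun q => U s(q.1, q.2) ≤ p)).card := by
  unfold cross
  rw [Finset.filter_image, Finset.card_image_of_injOn]
  intro a ha b hb hab
  exact cross_inj h (Finset.filter_subset _ _ ha) (Finset.filter_subset _ _ hb) hab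

theorem mem_cross {S S' : Finset (Fin n)} {e : Sym2 (Fin n)} :
    e ∈ cross S S' ↔ ∃ x ∈ S, ∃ y ∈ S', e = s(x, y) := by
  unfold cross
  rw [Finset.mem_image]
  constructor
  · rintro ⟨⟨x, y⟩, h, rfl⟩
    rw [Finset.mem_product] at h
    exact ⟨x, h.1, y, h.2, rfl⟩
  · rintro ⟨x, hx, y, hy, rfl⟩
    exact ⟨(x, y), Finset.mem_product.2 ⟨hx, hy⟩, rfl⟩

theorem GU_lvl {L : Finset ℝ} {p : ℝ} (hp : p ∈ L) {U U' : Ev n} (h : lvlEq L U U') :
    GU U p = GU U' p := by
  ext u v
  rw [GU_adj, GU_adj, h _ p hp]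

/-- an edge leaving a cluster has a large level -/
theorem out {U : Ev n} {p : ℝ} {v x y : Fin n} (hx : x ∈ cmp (GU U p) v)
    (hy : y ∉ cmp (GU U p) v) : p < U s(x, y) := by
  by_contra h
  apply hy
  rw [Marks.mem_cmp] at hx ⊢
  by_cases hxy : x = y
  · rw [← hxy]; exact hx
  · exact hx.trans (SimpleGraph.Adj.reachable (GU_adj.2 ⟨not_lt.1 h, hxy⟩))

theorem blks_card (G : SimpleGraph (Fin n)) (s0 : ℕ) : (blks G s0).card ≤ n := by
  unfold blks
  refine Finset.card_image_le.trans ?_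
  refine (Finset.card_le_univ _).trans ?_
  rw [Fintype.card_fin]

theorem blk_disj {G : SimpleGraph (Fin n)} {s0 : ℕ} {S S' : Finset (Fin n)} (hS : S ∈ blks G s0)
    (hS' : S' ∈ blks G s0) (hne : S ≠ S') : Disjoint S S' := by
  rw [Finset.disjoint_left]
  intro x h1 h2
  exact hne ((Marks.cmp_eq_of_mem hS h1).symm.trans (Marks.cmp_eq_of_mem hS' h2))

theorem blk_sub {G : SimpleGraph (Fin n)} {s0 : ℕ} {S : Finset (Fin n)} (hS : S ∈ blks G s0) :
    S ⊆ gd G s0 := by
  obtain ⟨v, hv, rfl⟩ := Marks.blks_spec hS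
  intro u hu
  exact Marks.gd_of_cmp hu hv

theorem blk_card {G : SimpleGraph (Fin n)} {s0 : ℕ} {S : Finset (Fin n)} (hS : S ∈ blks G s0) :
    s0 ≤ S.card := by
  obtain ⟨v, hv, rfl⟩ := Marks.blks_spec hS
  exact Marks.mem_gd.1 hv

theorem q_nn {p p' : ℝ} (hpp : p ≤ p') (hp1 : p < 1) : 0 ≤ (p' - p) / (1 - p) :=
  div_nonneg (by linarith) (by linarith)

theorem expn (k : ℕ) (hn : 2 ≤ n) : Real.exp (-(k * Real.log n)) = ((n : ℝ) ^ k)⁻¹ := by
  have h : (0 : ℝ) < n := by exact_mod_cast (by omega : 0 < n)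
  rw [Real.exp_neg, ← Real.log_pow, Real.exp_log (by positivity)]

end Graph

open Pool.Agent.TH972.U.Graph

/-- large clusters of a higher level meet the good vertices -/
theorem core_le {pb p2 p3 vmin : ℝ} {s0 s : ℕ} (h0 : 0 ≤ pb) (hb2 : pb ≤ p2) (h23 : p2 ≤ p3)
    (h1 : p3 ≤ 1) (hp1 : p2 < 1) (hn : 2 ≤ n) (hvm : 0 ≤ vmin)
    (hq : 2 * Real.log n ≤ 0.6 * ((p3 - p2) / (1 - p2)) * (s * vmin)) :
    env n {U | vmin ≤ (gd (GU U pb) s0).card ∧ ∃ v, s ≤ (cmp (GU U p2) v).card ∧
      ∀ u ∈ gd (GU U pb) s0, ¬ (GU U p3).Reachable v u} ≤ ENNReal.ofReal (1 / n) := by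
  classical
  have hn0 : (0 : ℝ) < n := by exact_mod_cast (by omega : 0 < n)
  have hq0 := q_nn h23 hp1
  have hpbL : pb ∈ ({pb, p2} : Finset ℝ) := by simp
  have hp2L : p2 ∈ ({pb, p2} : Finset ℝ) := by simp
  refine le_trans (measure_mono ?_) (lift_low (h0.trans hb2) h23 h1 hp1 {pb, p2} (by
      intro l hl
      rw [Finset.mem_insert, Finset.mem_singleton] at hl
      rcases hl with rfl | rfl
      · exact hb2
      · exact le_refl _) (ι := Fin n)
    (fun U => univ.filter (fun v => vmin ≤ (gd (GU U pb) s0).card ∧ s ≤ (cmp (GU U p2) v).card ∧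
      Disjoint (cmp (GU U p2) v) (gd (GU U pb) s0)))
    (fun U v => cross (cmp (GU U p2) v) (gd (GU U pb) s0)) (fun _ _ => 0) ?_ ?_ ?_ ?_ (b := 1 / n) ?_)
  · rintro U ⟨h2, v, h3, h4⟩
    refine ⟨v, ?_, ?_⟩
    · rw [Finset.mem_filter]
      refine ⟨Finset.mem_univ _, h2, h3, ?_⟩
      rw [Finset.disjoint_left]
      intro u hu hu'
      rw [Marks.mem_cmp] at hu
      exact h4 u hu' (hu.mono (GU_mono h23))
    · rw [Nat.le_zero, Finset.card_eq_zero, Finset.filter_eq_empty_iff]
      intro e he hle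
      obtain ⟨x, hx, y, hy, rfl⟩ := mem_cross.1 he
      rw [Marks.mem_cmp] at hx
      apply h4 y hy
      by_cases hxy : x = y
      · rw [← hxy]; exact hx.mono (GU_mono h23)
      · exact (hx.mono (GU_mono h23)).trans (SimpleGraph.Adj.reachable (GU_adj.2 ⟨hle, hxy⟩))
  · intro U U' h
    simp only [GU_lvl hpbL h, GU_lvl hp2L h]
  · intro U U' h
    simp only [GU_lvl hpbL h, GU_lvl hp2L h]
  · intro U U' h
    rfl
  · intro U v hv e he
    rw [Finset.mem_filter] at hv
    obtain ⟨x, hx, y, hy, rfl⟩ := mem_cross.1 he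
    exact out hx (fun h => Finset.disjoint_left.1 hv.2.2.2 h hy)
  · intro U
    have key : ∀ v ∈ univ.filter (fun v => vmin ≤ (gd (GU U pb) s0).card ∧
        s ≤ (cmp (GU U p2) v).card ∧ Disjoint (cmp (GU U p2) v) (gd (GU U pb) s0)),
        Real.exp (((0 : ℕ) : ℝ) - 0.6 * ((p3 - p2) / (1 - p2)) *
          (cross (cmp (GU U p2) v) (gd (GU U pb) s0)).card) ≤ ((n : ℝ) ^ 2)⁻¹ := by
      intro v hv
      rw [Finset.mem_filter] at hv
      obtain ⟨_, h2, h3, h4⟩ := hv
      rw [cross_card h4, ← expn 2 hn]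
      apply Real.exp_le_exp.2
      have h5 : (s : ℝ) * vmin ≤ (((cmp (GU U p2) v).card * (gd (GU U pb) s0).card : ℕ) : ℝ) := by
        push_cast
        exact mul_le_mul (by exact_mod_cast h3) h2 hvm (Nat.cast_nonneg _)
      have h6 := mul_le_mul_of_nonneg_left h5 (mul_nonneg (by norm_num : (0 : ℝ) ≤ 0.6) hq0)
      push_cast at h6 ⊢
      linarith
    refine (Finset.sum_le_sum key).trans ?_
    rw [Finset.sum_const, nsmul_eq_mul]
    have hc : ((univ.filter (fun v => vmin ≤ (gd (GU U pb) s0).card ∧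
        s ≤ (cmp (GU U p2) v).card ∧ Disjoint (cmp (GU U p2) v) (gd (GU U pb) s0))).card : ℝ) ≤ n := by
      have := Finset.card_le_univ (univ.filter (fun v => vmin ≤ (gd (GU U pb) s0).card ∧
        s ≤ (cmp (GU U p2) v).card ∧ Disjoint (cmp (GU U p2) v) (gd (GU U pb) s0)))
      rw [Fintype.card_fin] at this
      exact_mod_cast this
    calc _ ≤ (n : ℝ) * ((n : ℝ) ^ 2)⁻¹ := mul_le_mul_of_nonneg_right hc (by positivity)
      _ = 1 / n := by field_simp

theorem deg_le {pb pn smax vmax Δ : ℝ} {s0 : ℕ} (h0 : 0 ≤ pb) (hpp : pb ≤ pn) (h1 : pn ≤ 1)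
    (hp1 : pb < 1) (hs0 : 1 ≤ s0) (hn : 2 ≤ n) (hsm : 0 ≤ smax) (hvm : 0 ≤ vmax)
    (hΔ : (pn - pb) / (1 - pb) * (smax * vmax) + 3 * Real.log n ≤ 0.69 * (Δ - 1)) :
    env n {U | (∀ v, ((cmp (GU U pb) v).card : ℝ) ≤ smax) ∧ ((gd (GU U pb) s0).card : ℝ) ≤ vmax ∧
      ∃ S ∈ blks (GU U pb) s0, Δ < ∑ S' ∈ (blks (GU U pb) s0).erase S, nU pn U S S'} ≤
      ENNReal.ofReal (1 / n) := by
  classical
  have hn0 : (0 : ℝ) < n := by exact_mod_cast (by omega : 0 < n)
  have hq0 := q_nn hpp hp1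
  have hpbL : pb ∈ ({pb} : Finset ℝ) := Finset.mem_singleton_self _
  refine le_trans (measure_mono ?_) (lift_up h0 hpp h1 hp1 {pb} (by simp) (ι := Finset (Fin n))
    (fun U => if (∀ v, ((cmp (GU U pb) v).card : ℝ) ≤ smax) ∧ ((gd (GU U pb) s0).card : ℝ) ≤ vmax
      then blks (GU U pb) s0 else ∅)
    (fun U S => cross S (gd (GU U pb) s0 \ S)) (fun _ _ => ⌊Δ⌋₊) ?_ ?_ ?_ ?_ (b := 1 / n) ?_)
  · rintro U ⟨h2, h3, S, hS, h4⟩
    refine ⟨S, ?_, ?_⟩
    · rw [if_pos ⟨h2, h3⟩]; exact hS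
    · rw [cross_filter Finset.disjoint_sdiff]
      have h5 : ∑ S' ∈ (blks (GU U pb) s0).erase S, nU pn U S S' ≤
          (((S ×ˢ (gd (GU U pb) s0 \ S)).filter (fun q => U s(q.1, q.2) ≤ pn)).card : ℝ) := by
        unfold nU
        rw [← Nat.cast_sum, ← Finset.card_biUnion]
        · refine Nat.cast_le.2 (Finset.card_le_card ?_)
          intro z hz
          rw [Finset.mem_biUnion] at hz
          obtain ⟨S', hS', hz⟩ := hz
          rw [Finset.mem_filter, Finset.mem_product] at hz ⊢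
          rw [Finset.mem_erase] at hS'
          refine ⟨⟨hz.1.1, Finset.mem_sdiff.2 ⟨blk_sub hS'.2 hz.1.2, fun h => ?_⟩⟩, hz.2⟩
          exact Finset.disjoint_left.1 (blk_disj hS'.2 hS hS'.1) hz.1.2 h
        · intro S' hS' S'' hS'' hne
          rw [Finset.mem_coe, Finset.mem_erase] at hS' hS''
          rw [Function.onFun, Finset.disjoint_left]
          intro z hz hz'
          rw [Finset.mem_filter, Finset.mem_product] at hz hz'
          exact Finset.disjoint_left.1 (blk_disj hS'.2 hS''.2 hne) hz.1.2 hz'.1.2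
      have h6 := h4.trans_le h5
      rcases le_or_gt 0 Δ with hΔ0 | hΔ0
      · have h7 := (Nat.floor_le hΔ0).trans_lt h6
        exact_mod_cast h7.le
      · rw [Nat.floor_of_nonpos hΔ0.le]
        exact Nat.zero_le _
  · intro U U' h
    simp only [GU_lvl hpbL h]
  · intro U U' h
    simp only [GU_lvl hpbL h]
  · intro U U' h
    rfl
  · intro U S hS e he
    split_ifs at hS with hc
    · obtain ⟨x, hx, y, hy, rfl⟩ := mem_cross.1 he
      have h2 := Marks.cmp_eq_of_mem hS hx
      rw [Finset.mem_sdiff] at hy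
      rw [← h2] at hx hy
      exact out hx hy.2
    · exact absurd hS (Finset.notMem_empty _)
  · intro U
    split_ifs with hc
    swap
    · rw [Finset.sum_empty]; positivity
    have key : ∀ S ∈ blks (GU U pb) s0,
        Real.exp ((pn - pb) / (1 - pb) * (cross S (gd (GU U pb) s0 \ S)).card - 0.69 * ⌊Δ⌋₊) ≤
          ((n : ℝ) ^ 3)⁻¹ := by
      intro S hS
      rw [cross_card Finset.disjoint_sdiff, ← expn 3 hn]
      apply Real.exp_le_exp.2
      obtain ⟨v, hv, rfl⟩ := Marks.blks_spec hS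
      have h5 : (((cmp (GU U pb) v).card * (gd (GU U pb) s0 \ cmp (GU U pb) v).card : ℕ) : ℝ) ≤
          smax * vmax := by
        push_cast
        refine mul_le_mul (hc.1 v) (le_trans ?_ hc.2) (Nat.cast_nonneg _) hsm
        exact_mod_cast Finset.card_le_card Finset.sdiff_subset
      have h6 := mul_le_mul_of_nonneg_left h5 hq0
      have h7 : Δ - 1 ≤ (⌊Δ⌋₊ : ℝ) := by
        have := Nat.lt_floor_add_one Δ
        linarith
      push_cast at h6 ⊢
      linarith
    refine (Finset.sum_le_sum key).trans ?_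
    rw [Finset.sum_const, nsmul_eq_mul]
    have hc : ((blks (GU U pb) s0).card : ℝ) ≤ n := by exact_mod_cast blks_card _ _
    have hn1 : (1 : ℝ) ≤ n := by exact_mod_cast (by omega : 1 ≤ n)
    calc _ ≤ (n : ℝ) * ((n : ℝ) ^ 3)⁻¹ := mul_le_mul_of_nonneg_right hc (by positivity)
      _ ≤ 1 / n := by
        rw [← div_eq_mul_inv, div_le_div_iff₀ (by positivity) hn0]
        nlinarith [mul_pos hn0 hn0]

namespace Graph

/-- the structure of a part of a cluster off `v` -/
def str (G : SimpleGraph (Fin n)) (s0 : ℕ) (v : Fin n) (K : Finset (Fin n)) : Prop :=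
  v ∉ K ∧ s0 ≤ K.card ∧ (∀ x ∈ K, ∀ y, y ≠ v → G.Adj x y → y ∈ K) ∧
    (∀ x ∈ K, ∀ y ∈ K, rin G K x y) ∧ (∃ x ∈ K, G.Reachable v x)

theorem str_sub {G : SimpleGraph (Fin n)} {s0 : ℕ} {v : Fin n} {K K' : Finset (Fin n)}
    (h : str G s0 v K) (h' : str G s0 v K') {x : Fin n} (hx : x ∈ K) (hx' : x ∈ K') : K' ⊆ K := by
  intro y hy
  obtain ⟨p, hp⟩ := h'.2.2.2.1 x hx' y hy
  have key : ∀ (a b : Fin n) (p : G.Walk a b), a ∈ K → (∀ z ∈ p.support, z ∈ K') → b ∈ K := by
    intro a b p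
    induction p with
    | nil => intro ha _; exact ha
    | cons hadj q ih =>
      intro ha hs
      have hs' : ∀ z ∈ q.support, z ∈ K' := fun z hz =>
        hs z (by rw [SimpleGraph.Walk.support_cons]; exact List.mem_cons_of_mem _ hz)
      refine ih (h.2.2.1 _ ha _ ?_ hadj) hs'
      rintro rfl
      exact h'.1 (hs' _ q.start_mem_support)
  exact key x y p hx hp

theorem str_cmp {G : SimpleGraph (Fin n)} {s0 : ℕ} {v : Fin n} {K : Finset (Fin n)}
    (h : str G s0 v K) : K ⊆ cmp G v := by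
  intro y hy
  obtain ⟨x, hx, hr⟩ := h.2.2.2.2
  rw [Marks.mem_cmp]
  exact hr.trans (Marks.rin_reach (h.2.2.2.1 x hx y hy))

open Classical in
theorem str_card (G : SimpleGraph (Fin n)) (s0 : ℕ) :
    (univ.filter (fun i : Fin n × Finset (Fin n) => str G s0 i.1 i.2)).card ≤ n * n := by
  have h1 : (univ : Finset (Fin n × Fin n)).card = n * n := by
    rw [Finset.card_univ, Fintype.card_prod, Fintype.card_fin]
  rw [← h1]
  have hne : ∀ i : Fin n × Finset (Fin n), str G s0 i.1 i.2 → i.2.Nonempty := by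
    intro i hi
    obtain ⟨x, hx, _⟩ := hi.2.2.2.2
    exact ⟨x, hx⟩
  refine Finset.card_le_card_of_injOn
    (fun i => (i.1, if h : i.2.Nonempty then h.choose else i.1))
    (fun _ _ => Finset.mem_coe.2 (Finset.mem_univ _)) ?_
  intro i hi j hj hij
  rw [Finset.mem_coe, Finset.mem_filter] at hi hj
  have ni := hne i hi.2
  have nj := hne j hj.2
  simp only [Prod.mk.injEq, dif_pos ni, dif_pos nj] at hij
  obtain ⟨h2, h3⟩ := hij
  have si := hi.2
  have sj := hj.2
  have mi := ni.choose_spec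
  have mj := nj.choose_spec
  rw [← h3] at mj
  rw [← h2] at sj
  refine Prod.ext h2 (Finset.Subset.antisymm ?_ ?_)
  · exact str_sub sj si mj mi
  · exact str_sub si sj mi mj

end Graph

theorem rob_le {pb pn smax vmin : ℝ} {s0 : ℕ} (h0 : 0 ≤ pb) (hpp : pb ≤ pn) (h1 : pn ≤ 1)
    (hp1 : pb < 1) (hs0 : 1 ≤ s0) (hv : 2 * smax ≤ vmin) (hn : 2 ≤ n)
    (hq : 3 * Real.log n ≤ 0.6 * ((pn - pb) / (1 - pb)) * (s0 * vmin / 2)) :
    env n {U | Std pb s0 smax vmin U ∧ ¬ Rob pb pn s0 U} ≤ ENNReal.ofReal (1 / n) := by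
  classical
  have hn0 : (0 : ℝ) < n := by exact_mod_cast (by omega : 0 < n)
  have hq0 := q_nn hpp hp1
  have hpbL : pb ∈ ({pb} : Finset ℝ) := Finset.mem_singleton_self _
  refine le_trans (measure_mono ?_) (lift_low h0 hpp h1 hp1 {pb} (by simp)
    (ι := Fin n × Finset (Fin n))
    (fun U => if (∀ v, ((cmp (GU U pb) v).card : ℝ) ≤ smax) ∧ vmin ≤ (gd (GU U pb) s0).card
      then univ.filter (fun i : Fin n × Finset (Fin n) => str (GU U pb) s0 i.1 i.2) else ∅)
    (fun U i => cross i.2 (gd (GU U pb) s0 \ cmp (GU U pb) i.1)) (fun _ _ => 0)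
    ?_ ?_ ?_ ?_ (b := 1 / n) ?_)
  · rintro U ⟨h2, h3⟩
    unfold Rob at h3
    push Not at h3
    obtain ⟨v, K, a1, a2, a3, a4, a5, a6⟩ := h3
    have hst : str (GU U pb) s0 v K := ⟨a1, a2, a3, a4, a5⟩
    refine ⟨(v, K), ?_, ?_⟩
    · rw [if_pos (show (∀ v, ((cmp (GU U pb) v).card : ℝ) ≤ smax) ∧
        vmin ≤ (gd (GU U pb) s0).card from h2), Finset.mem_filter]
      exact ⟨Finset.mem_univ _, hst⟩
    · rw [Nat.le_zero, Finset.card_eq_zero, Finset.filter_eq_empty_iff]
      intro e he hle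
      obtain ⟨x, hx, y, hy, rfl⟩ := mem_cross.1 he
      rw [Finset.mem_sdiff, Marks.mem_cmp] at hy
      exact absurd (a6 x hx y hy.1 hy.2) (not_lt.2 hle)
  · intro U U' h
    simp only [GU_lvl hpbL h]
  · intro U U' h
    simp only [GU_lvl hpbL h]
  · intro U U' h
    rfl
  · intro U i hi e he
    split_ifs at hi with hc
    · rw [Finset.mem_filter] at hi
      obtain ⟨x, hx, y, hy, rfl⟩ := mem_cross.1 he
      rw [Finset.mem_sdiff] at hy
      exact out (str_cmp hi.2 hx) hy.2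
    · exact absurd hi (Finset.notMem_empty _)
  · intro U
    split_ifs with hc
    swap
    · rw [Finset.sum_empty]; positivity
    have key : ∀ i ∈ univ.filter (fun i : Fin n × Finset (Fin n) => str (GU U pb) s0 i.1 i.2),
        Real.exp (((0 : ℕ) : ℝ) - 0.6 * ((pn - pb) / (1 - pb)) *
          (cross i.2 (gd (GU U pb) s0 \ cmp (GU U pb) i.1)).card) ≤ ((n : ℝ) ^ 3)⁻¹ := by
      intro i hi
      rw [Finset.mem_filter] at hi
      have hdisj : Disjoint i.2 (gd (GU U pb) s0 \ cmp (GU U pb) i.1) :=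
        Finset.disjoint_sdiff.mono_left (str_cmp hi.2)
      rw [cross_card hdisj, ← expn 3 hn]
      apply Real.exp_le_exp.2
      have h5 : (s0 : ℝ) ≤ (i.2.card : ℝ) := by exact_mod_cast hi.2.2.1
      have h6 : vmin / 2 ≤ ((gd (GU U pb) s0 \ cmp (GU U pb) i.1).card : ℝ) := by
        have h7 := Finset.le_card_sdiff (cmp (GU U pb) i.1) (gd (GU U pb) s0)
        have h8 : ((gd (GU U pb) s0).card : ℝ) ≤ (cmp (GU U pb) i.1).card +
            (gd (GU U pb) s0 \ cmp (GU U pb) i.1).card := by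
          have : (gd (GU U pb) s0).card ≤ (cmp (GU U pb) i.1).card +
            (gd (GU U pb) s0 \ cmp (GU U pb) i.1).card := by omega
          exact_mod_cast this
        have h9 := hc.1 i.1
        linarith [hc.2]
      have hs : (0 : ℝ) ≤ s0 := Nat.cast_nonneg _
      have h7 : (s0 : ℝ) * vmin / 2 ≤
          ((i.2.card * (gd (GU U pb) s0 \ cmp (GU U pb) i.1).card : ℕ) : ℝ) := by
        push_cast
        have hh : (0 : ℝ) ≤ ((gd (GU U pb) s0 \ cmp (GU U pb) i.1).card : ℝ) := Nat.cast_nonneg _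
        calc (s0 : ℝ) * vmin / 2 = s0 * (vmin / 2) := by ring
          _ ≤ s0 * ((gd (GU U pb) s0 \ cmp (GU U pb) i.1).card : ℝ) :=
            mul_le_mul_of_nonneg_left h6 hs
          _ ≤ _ := mul_le_mul_of_nonneg_right h5 hh
      have h8 := mul_le_mul_of_nonneg_left h7 (mul_nonneg (by norm_num : (0 : ℝ) ≤ 0.6) hq0)
      push_cast at h8 ⊢
      linarith
    refine (Finset.sum_le_sum key).trans ?_
    rw [Finset.sum_const, nsmul_eq_mul]
    have hc : ((univ.filter (fun i : Fin n × Finset (Fin n) =>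
        str (GU U pb) s0 i.1 i.2)).card : ℝ) ≤ n * n := by exact_mod_cast str_card _ _
    calc _ ≤ ((n : ℝ) * n) * ((n : ℝ) ^ 3)⁻¹ := mul_le_mul_of_nonneg_right hc (by positivity)
      _ = 1 / n := by field_simp

namespace Graph

theorem sum_pow_card {α : Type} [DecidableEq α] (S : Finset α) (x : ℝ) :
    ∑ A ∈ S.powerset, x ^ A.card = (x + 1) ^ S.card := by
  rw [← Finset.sum_pow_mul_eq_add_pow]
  simp

theorem gd_card_le {G : SimpleGraph (Fin n)} {s0 : ℕ} {smax : ℝ}
    (h : ∀ v, ((cmp G v).card : ℝ) ≤ smax) : ((gd G s0).card : ℝ) ≤ (blks G s0).card * smax := by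
  have h1 : gd G s0 ⊆ (blks G s0).biUnion id := by
    intro v hv
    rw [Finset.mem_biUnion]
    exact ⟨cmp G v, Marks.cmp_mem_blks hv, Marks.self_mem_cmp v⟩
  have h2 : (gd G s0).card ≤ ∑ S ∈ blks G s0, S.card :=
    (Finset.card_le_card h1).trans Finset.card_biUnion_le
  have h3 : ((gd G s0).card : ℝ) ≤ ∑ S ∈ blks G s0, (S.card : ℝ) := by exact_mod_cast h2
  refine h3.trans ?_
  have h4 : ∀ S ∈ blks G s0, (S.card : ℝ) ≤ smax := by
    intro S hS
    obtain ⟨v, _, rfl⟩ := Marks.blks_spec hS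
    exact h v
  refine (Finset.sum_le_sum h4).trans ?_
  rw [Finset.sum_const, nsmul_eq_mul]

theorem union_card {G : SimpleGraph (Fin n)} {s0 : ℕ} {A : Finset (Finset (Fin n))}
    (hA : A ⊆ blks G s0) : A.card * s0 ≤ (A.biUnion id).card := by
  rw [Finset.card_biUnion]
  · rw [← smul_eq_mul]
    exact Finset.card_nsmul_le_sum A _ s0 (fun S hS => blk_card (hA hS))
  · intro S hS S' hS' hne
    exact blk_disj (hA hS) (hA hS') hne

theorem num {n : ℕ} (hn : 2 ≤ n) {m : ℕ} (hm : m ≤ n) {x : ℝ}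
    (hx : x = Real.exp 1 * ((n : ℝ) ^ 14)⁻¹) :
    ((n : ℝ) + 1) * ((x + 1) ^ m - 1) ≤ 1 / n := by
  have hn2 : (2 : ℝ) ≤ n := by exact_mod_cast hn
  have hn0 : (0 : ℝ) < n := by linarith
  have he : Real.exp 1 ≤ 3 := by
    have := Real.exp_one_lt_d9
    norm_num at this ⊢
    linarith
  have hx0 : 0 ≤ x := by rw [hx]; positivity
  have hn3 : (2 : ℝ) ^ 11 ≤ (n : ℝ) ^ 11 := pow_le_pow_left₀ (by norm_num) hn2 11
  have hx1 : x * (n : ℝ) ^ 3 ≤ 3 / 2048 := by
    have e : x * (n : ℝ) ^ 3 = Real.exp 1 / (n : ℝ) ^ 11 := by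
      rw [hx]; field_simp
    rw [e, div_le_div_iff₀ (by positivity) (by norm_num)]
    nlinarith [Real.exp_pos 1]
  have h1 : (x + 1) ^ m ≤ Real.exp (n * x) := by
    have h2 : (x + 1) ^ m ≤ (Real.exp x) ^ m := pow_le_pow_left₀ (by linarith) (Real.add_one_le_exp x) m
    rw [← Real.exp_nat_mul] at h2
    refine h2.trans (Real.exp_le_exp.2 (mul_le_mul_of_nonneg_right (by exact_mod_cast hm) hx0))
  have hnx : (n : ℝ) * x ≤ 1 := by
    nlinarith [mul_nonneg hx0 hn0.le, mul_self_nonneg ((n : ℝ) - 1)]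
  have hnx0 : 0 ≤ (n : ℝ) * x := by positivity
  have h3 : Real.exp (n * x) ≤ 1 + 2 * (n * x) := by
    have h4 := Real.abs_exp_sub_one_sub_id_le (x := (n : ℝ) * x) (by rw [abs_of_nonneg hnx0]; exact hnx)
    have h5 := (abs_le.1 h4).2
    nlinarith
  rw [le_div_iff₀ hn0]
  have h6 : (x + 1) ^ m - 1 ≤ 2 * (n * x) := by linarith
  have h7 : ((n : ℝ) + 1) * ((x + 1) ^ m - 1) * n ≤ ((n : ℝ) + 1) * (2 * (n * x)) * n := by
    gcongr
  refine h7.trans ?_
  have h8 : ((n : ℝ) + 1) * (2 * (n * x)) * n ≤ (2 * n) * (2 * (n * x)) * n := by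
    gcongr
    linarith
  refine h8.trans ?_
  have : (2 * (n : ℝ)) * (2 * (n * x)) * n = 4 * (x * (n : ℝ) ^ 3) := by ring
  rw [this]
  linarith

end Graph

theorem iso_le {pb pn smax vmin : ℝ} {s0 : ℕ} (h0 : 0 ≤ pb) (hpp : pb ≤ pn) (h1 : pn ≤ 1)
    (hp1 : pb < 1) (hs0 : 1 ≤ s0) (hs : (s0 : ℝ) ≤ smax) (hv : 8 * smax ≤ vmin) (hn : 2 ≤ n)
    (hq : 7 * Real.log n ≤ 0.6 * ((pn - pb) / (1 - pb)) * (s0 ^ 2 * vmin / (8 * smax))) :
    env n {U | Std pb s0 smax vmin U ∧ ¬ Iso pb pn s0 U} ≤ ENNReal.ofReal (1 / n) := by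
  classical
  have hn0 : (0 : ℝ) < n := by exact_mod_cast (by omega : 0 < n)
  have hq0 := q_nn hpp hp1
  have hpbL : pb ∈ ({pb} : Finset ℝ) := Finset.mem_singleton_self _
  have hs1 : (1 : ℝ) ≤ s0 := by exact_mod_cast hs0
  have hsm : 0 < smax := by linarith
  -- the family
  let FG : SimpleGraph (Fin n) → Finset (Finset (Fin n) × Finset (Finset (Fin n))) := fun G =>
    ((insert ∅ (blks G s0)) ×ˢ (blks G s0).powerset).filter (fun i =>
      i.2 ⊆ (blks G s0).erase i.1 ∧ 2 * i.2.card ≤ (blks G s0).card ∧ i.2.Nonempty)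
  refine le_trans (measure_mono ?_) (lift_low h0 hpp h1 hp1 {pb} (by simp)
    (ι := Finset (Fin n) × Finset (Finset (Fin n)))
    (fun U => if (∀ v, ((cmp (GU U pb) v).card : ℝ) ≤ smax) ∧ vmin ≤ (gd (GU U pb) s0).card
      then FG (GU U pb) else ∅)
    (fun U i => cross (i.2.biUnion id) ((((blks (GU U pb) s0).erase i.1) \ i.2).biUnion id))
    (fun _ i => i.2.card) ?_ ?_ ?_ ?_ (b := 1 / n) ?_)
  · rintro U ⟨h2, h3⟩
    unfold Iso at h3
    push Not at h3
    obtain ⟨bs, hbs, A, hA, hA2, hA3⟩ := h3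
    have hAne : A.Nonempty := by
      rw [Finset.nonempty_iff_ne_empty]
      rintro rfl
      simp at hA3
    have hdisj : Disjoint (A.biUnion id) ((((blks (GU U pb) s0).erase bs) \ A).biUnion id) := by
      rw [Finset.disjoint_left]
      intro x hx hx'
      rw [Finset.mem_biUnion] at hx hx'
      obtain ⟨S, hS, hxS⟩ := hx
      obtain ⟨S', hS', hxS'⟩ := hx'
      rw [Finset.mem_sdiff] at hS'
      refine Finset.disjoint_left.1 (blk_disj (Finset.mem_of_mem_erase (hA hS))
        (Finset.mem_of_mem_erase hS'.1) ?_) hxS hxS'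
      rintro rfl
      exact hS'.2 hS
    refine ⟨(bs, A), ?_, ?_⟩
    · rw [if_pos (show (∀ v, ((cmp (GU U pb) v).card : ℝ) ≤ smax) ∧
        vmin ≤ (gd (GU U pb) s0).card from h2)]
      simp only [FG, Finset.mem_filter, Finset.mem_product, Finset.mem_insert,
        Finset.mem_powerset]
      exact ⟨⟨hbs, hA.trans (Finset.erase_subset _ _)⟩, hA, hA2, hAne⟩
    · simp only
      rw [cross_filter hdisj]
      have h5 : ((((A.biUnion id) ×ˢ ((((blks (GU U pb) s0).erase bs) \ A).biUnion id)).filter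
          (fun q => U s(q.1, q.2) ≤ pn)).card : ℝ) ≤
          ∑ S ∈ A, ∑ S' ∈ ((blks (GU U pb) s0).erase bs) \ A, nU pn U S S' := by
        unfold nU
        have h6 : (((A.biUnion id) ×ˢ ((((blks (GU U pb) s0).erase bs) \ A).biUnion id)).filter
          (fun q => U s(q.1, q.2) ≤ pn)) ⊆ A.biUnion (fun S =>
            (((blks (GU U pb) s0).erase bs) \ A).biUnion (fun S' =>
              (S ×ˢ S').filter (fun q => U s(q.1, q.2) ≤ pn))) := by
          intro z hz
          simp only [Finset.mem_filter, Finset.mem_product, Finset.mem_biUnion, id] at hz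
          obtain ⟨⟨⟨S, hS, hzS⟩, ⟨S', hS', hzS'⟩⟩, hzU⟩ := hz
          rw [Finset.mem_biUnion]
          refine ⟨S, hS, ?_⟩
          rw [Finset.mem_biUnion]
          refine ⟨S', hS', ?_⟩
          rw [Finset.mem_filter, Finset.mem_product]
          exact ⟨⟨hzS, hzS'⟩, hzU⟩
        have h7 := (Finset.card_le_card h6).trans (Finset.card_biUnion_le.trans
          (Finset.sum_le_sum fun S _ => Finset.card_biUnion_le))
        exact_mod_cast h7
      have h6 := h5.trans_lt hA3
      exact_mod_cast h6.le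
  · intro U U' h
    simp only [GU_lvl hpbL h]
  · intro U U' h
    simp only [GU_lvl hpbL h]
  · intro U U' h
    rfl
  · intro U i hi e he
    split_ifs at hi with hc
    · simp only [FG, Finset.mem_filter, Finset.mem_product, Finset.mem_insert,
        Finset.mem_powerset] at hi
      obtain ⟨x, hx, y, hy, rfl⟩ := mem_cross.1 he
      rw [Finset.mem_biUnion] at hx hy
      obtain ⟨S, hS, hxS⟩ := hx
      obtain ⟨S', hS', hyS'⟩ := hy
      rw [Finset.mem_sdiff] at hS'
      have hSb := Finset.mem_of_mem_erase (hi.2.1 hS)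
      have hSb' := Finset.mem_of_mem_erase hS'.1
      have hne : S ≠ S' := by
        rintro rfl
        exact hS'.2 hS
      have h2 := Marks.cmp_eq_of_mem hSb hxS
      refine out (v := x) (Marks.self_mem_cmp x) ?_
      rw [h2]
      intro h3
      exact Finset.disjoint_left.1 (blk_disj hSb hSb' hne) h3 hyS'
    · exact absurd hi (Finset.notMem_empty _)
  · intro U
    split_ifs with hc
    swap
    · rw [Finset.sum_empty]; positivity
    set B := blks (GU U pb) s0 with hB
    set x : ℝ := Real.exp 1 * ((n : ℝ) ^ 14)⁻¹ with hx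
    have hx0 : 0 ≤ x := by positivity
    have hN : vmin / smax ≤ (B.card : ℝ) := by
      rw [div_le_iff₀ hsm]
      exact hc.2.trans (gd_card_le hc.1)
    have hN8 : (8 : ℝ) ≤ B.card := le_trans (by rw [le_div_iff₀ hsm]; exact hv) hN
    have key : ∀ i ∈ FG (GU U pb), Real.exp (((i.2.card : ℕ) : ℝ) -
        0.6 * ((pn - pb) / (1 - pb)) *
          (cross (i.2.biUnion id) (((B.erase i.1) \ i.2).biUnion id)).card) ≤ x ^ i.2.card := by
      intro i hi
      simp only [FG, Finset.mem_filter, Finset.mem_product, Finset.mem_insert,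
        Finset.mem_powerset] at hi
      obtain ⟨_, hA, hA2, _⟩ := hi
      have hdisj : Disjoint (i.2.biUnion id) (((B.erase i.1) \ i.2).biUnion id) := by
        rw [Finset.disjoint_left]
        intro x hx hx'
        rw [Finset.mem_biUnion] at hx hx'
        obtain ⟨S, hS, hxS⟩ := hx
        obtain ⟨S', hS', hxS'⟩ := hx'
        rw [Finset.mem_sdiff] at hS'
        refine Finset.disjoint_left.1 (blk_disj (Finset.mem_of_mem_erase (hA hS))
          (Finset.mem_of_mem_erase hS'.1) ?_) hxS hxS'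
        rintro rfl
        exact hS'.2 hS
      rw [cross_card hdisj]
      have c1 : (i.2.card : ℝ) * s0 ≤ ((i.2.biUnion id).card : ℝ) := by
        exact_mod_cast union_card (hA.trans (Finset.erase_subset _ _))
      have c2 : (((B.erase i.1) \ i.2).card : ℝ) * s0 ≤
          ((((B.erase i.1) \ i.2).biUnion id).card : ℝ) := by
        exact_mod_cast union_card (G := GU U pb) (s0 := s0)
          (Finset.sdiff_subset.trans (Finset.erase_subset _ _))
      have c3 : vmin / (4 * smax) ≤ (((B.erase i.1) \ i.2).card : ℝ) := by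
        have d1 : (B.erase i.1 \ i.2).card = (B.erase i.1).card - i.2.card :=
          Finset.card_sdiff_of_subset hA
        have d2 : B.card - 1 ≤ (B.erase i.1).card := Finset.pred_card_le_card_erase
        have d2' : 2 * i.2.card ≤ B.card := hA2
        have d3 : (B.card : ℝ) ≤ 2 * ((B.erase i.1 \ i.2).card : ℝ) + 2 := by
          have : B.card ≤ 2 * (B.erase i.1 \ i.2).card + 2 := by omega
          exact_mod_cast this
        have d4 : vmin / (4 * smax) = (vmin / smax) / 4 := by field_simp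
        rw [d4]
        linarith
      have c4 : (i.2.card : ℝ) * (s0 ^ 2 * vmin / (4 * smax)) ≤
          (((i.2.biUnion id).card * (((B.erase i.1) \ i.2).biUnion id).card : ℕ) : ℝ) := by
        push_cast
        have e1 : (i.2.card : ℝ) * (s0 ^ 2 * vmin / (4 * smax)) =
          (i.2.card * s0) * (vmin / (4 * smax) * s0) := by ring
        rw [e1]
        have hvs : 0 ≤ vmin / (4 * smax) := by
          apply div_nonneg <;> linarith
        refine mul_le_mul c1 ((mul_le_mul_of_nonneg_right c3 (by linarith)).trans c2)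
          (by positivity) (Nat.cast_nonneg _)
      have c5 := mul_le_mul_of_nonneg_left c4 (mul_nonneg (by norm_num : (0 : ℝ) ≤ 0.6) hq0)
      have c6 : 14 * Real.log n ≤ 0.6 * ((pn - pb) / (1 - pb)) * (s0 ^ 2 * vmin / (4 * smax)) := by
        have e2 : (s0 : ℝ) ^ 2 * vmin / (4 * smax) = 2 * (s0 ^ 2 * vmin / (8 * smax)) := by
          field_simp
          ring
        rw [e2]
        linarith
      have c7 := mul_le_mul_of_nonneg_left c6 (Nat.cast_nonneg (α := ℝ) i.2.card)
      have e3 : x ^ i.2.card = Real.exp (i.2.card * (1 + -(14 * Real.log n))) := by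
        rw [Real.exp_nat_mul, Real.exp_add, hx]
        congr 2
        have := expn (n := n) 14 hn
        push_cast at this
        exact this.symm
      rw [e3]
      apply Real.exp_le_exp.2
      nlinarith
    refine (Finset.sum_le_sum key).trans ?_
    have hsub : FG (GU U pb) ⊆ (insert ∅ B) ×ˢ (B.powerset.erase ∅) := by
      intro i hi
      simp only [FG, Finset.mem_filter, Finset.mem_product, Finset.mem_powerset] at hi
      rw [Finset.mem_product, Finset.mem_erase, Finset.mem_powerset]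
      exact ⟨hi.1.1, hi.2.2.2.ne_empty, hi.1.2⟩
    have hstep : ∑ i ∈ FG (GU U pb), x ^ i.2.card ≤
        ∑ i ∈ (insert ∅ B) ×ˢ (B.powerset.erase ∅), x ^ i.2.card :=
      Finset.sum_le_sum_of_subset_of_nonneg hsub (fun i _ _ => pow_nonneg hx0 _)
    refine hstep.trans ?_
    rw [Finset.sum_product]
    simp only
    rw [Finset.sum_const, nsmul_eq_mul]
    have hsum : ∑ A ∈ B.powerset.erase ∅, x ^ A.card = (x + 1) ^ B.card - 1 := by
      have := Finset.add_sum_erase B.powerset (fun A => x ^ A.card) (Finset.empty_mem_powerset B)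
      rw [sum_pow_card] at this
      simp only [Finset.card_empty, pow_zero] at this
      linarith
    rw [hsum]
    have hcard : (((insert ∅ B).card : ℕ) : ℝ) ≤ n + 1 := by
      have h2 := Finset.card_insert_le (∅ : Finset (Fin n)) B
      have h3 : B.card ≤ n := blks_card (GU U pb) s0
      have : (insert ∅ B).card ≤ n + 1 := by omega
      exact_mod_cast this
    have hpos : 0 ≤ (x + 1) ^ B.card - 1 := by
      have := one_le_pow₀ (n := B.card) (show (1 : ℝ) ≤ x + 1 by linarith)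
      linarith
    refine (mul_le_mul_of_nonneg_right hcard hpos).trans ?_
    exact num hn (blks_card _ _) hx

end

end Pool.Agent.TH972.U
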