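import Pool.Agent.TH972.U.XDef

/-!
# Reach sets (combinatorics)
(job RSTRE X1a of helper972, written by helper267)
-/

set_option autoImplicit false
set_option linter.unusedVariables false

namespace Pool.Agent.TH972.U

open Finset MeasureTheory Pool.Agent.W842.RST Pool.Agent.TH972

noncomputable section

variable {n : ℕ}

namespace Rch

theorem mem_rch {p : ℝ} {U : Ev n} {A F : Finset (Fin n)} {u : Fin n} :
    u ∈ rch p U A F ↔ ∃ a ∈ A, rin (GU U p) (A ∪ F) a u := by
  classical
  unfold rch
  simp only [mem_filter, mem_univ, true_and]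

theorem sub (p : ℝ) (U : Ev n) (A F : Finset (Fin n)) : rch p U A F ⊆ A ∪ F := by
  intro u hu
  obtain ⟨a, _, q, hq⟩ := mem_rch.1 hu
  exact hq u q.end_mem_support

theorem base (p : ℝ) (U : Ev n) (A F : Finset (Fin n)) : A ⊆ rch p U A F := by
  intro a ha
  refine mem_rch.2 ⟨a, ha, SimpleGraph.Walk.nil, ?_⟩
  intro z hz
  rw [SimpleGraph.Walk.support_nil, List.mem_singleton] at hz
  rw [hz]
  exact mem_union_left _ ha

theorem closed {p : ℝ} {U : Ev n} {A F : Finset (Fin n)} {a b : Fin n}
    (ha : a ∈ rch p U A F) (hb : b ∈ A ∪ F) (h : U s(a, b) ≤ p) : b ∈ rch p U A F := by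
  by_cases hab : a = b
  · rw [← hab]; exact ha
  obtain ⟨a0, ha0, q, hq⟩ := mem_rch.1 ha
  refine mem_rch.2 ⟨a0, ha0, q.concat (GU_adj.2 ⟨h, hab⟩), ?_⟩
  intro z hz
  rw [SimpleGraph.Walk.support_concat, List.mem_append] at hz
  rcases hz with hz | hz
  · exact hq z hz
  · rw [List.mem_singleton] at hz
    rw [hz]; exact hb

theorem least {p : ℝ} {U : Ev n} {A F S : Finset (Fin n)} (hA : A ⊆ S)
    (h : ∀ a ∈ S, ∀ b ∈ A ∪ F, U s(a, b) ≤ p → b ∈ S) : rch p U A F ⊆ S := by
  intro u hu
  obtain ⟨a, ha, q, hq⟩ := mem_rch.1 hu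
  have key : ∀ (x y : Fin n) (q : (GU U p).Walk x y), x ∈ S → (∀ z ∈ q.support, z ∈ A ∪ F) →
      y ∈ S := by
    intro x y q
    induction q with
    | nil => intro hx _; exact hx
    | cons hadj q ih =>
      intro hx hs
      apply ih
      · refine h _ hx _ ?_ (GU_adj.1 hadj).1
        apply hs
        rw [SimpleGraph.Walk.support_cons]
        exact List.mem_cons_of_mem _ q.start_mem_support
      · intro z hz
        apply hs
        rw [SimpleGraph.Walk.support_cons]
        exact List.mem_cons_of_mem _ hz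
  exact key a u q (hA ha) hq

theorem mem_nbr {p : ℝ} {U : Ev n} {v : Fin n} {F : Finset (Fin n)} {u : Fin n} :
    u ∈ nbr p U v F ↔ u ∈ F ∧ U s(v, u) ≤ p := by
  unfold nbr
  rw [mem_filter]

theorem loc (p : ℝ) {U U' : Ev n} {A F : Finset (Fin n)}
    (h : ∀ a ∈ rch p U A F, ∀ b ∈ F, (U s(a, b) ≤ p ↔ U' s(a, b) ≤ p)) :
    rch p U' A F = rch p U A F := by
  apply Subset.antisymm
  · apply least (base p U A F)
    intro a ha b hb hab
    rcases mem_union.1 hb with hbA | hbF
    · exact base p U A F hbA
    · exact closed ha hb ((h a ha b hbF).2 hab)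
  · have : rch p U A F ⊆ rch p U A F ∩ rch p U' A F := by
      apply least
      · intro a ha
        exact mem_inter.2 ⟨base p U A F ha, base p U' A F ha⟩
      · intro a ha b hb hab
        rw [mem_inter] at ha ⊢
        refine ⟨closed ha.1 hb hab, ?_⟩
        rcases mem_union.1 hb with hbA | hbF
        · exact base p U' A F hbA
        · exact closed ha.2 hb ((h a ha.1 b hbF).1 hab)
    exact this.trans inter_subset_right

end Rch

theorem rch_subset (p : ℝ) (U : Ev n) (A F : Finset (Fin n)) : rch p U A F ⊆ A ∪ F :=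
  Rch.sub p U A F

theorem subset_rch (p : ℝ) (U : Ev n) (A F : Finset (Fin n)) : A ⊆ rch p U A F :=
  Rch.base p U A F

theorem rch_mono {p p' : ℝ} (h : p ≤ p') (U : Ev n) {A A' F F' : Finset (Fin n)} (hA : A ⊆ A')
    (hF : A ∪ F ⊆ A' ∪ F') : rch p U A F ⊆ rch p' U A' F' := by
  apply Rch.least (hA.trans (subset_rch p' U A' F'))
  intro a ha b hb hab
  exact Rch.closed ha (hF hb) (hab.trans h)

/-- one step of the exploration -/
theorem rch_step (p : ℝ) (U : Ev n) {A F : Finset (Fin n)} {v : Fin n} (hv : v ∈ A)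
    (hAF : Disjoint A F) :
    rch p U A F = insert v (rch p U ((A.erase v) ∪ nbr p U v F) (F \ nbr p U v F)) := by
  have hsub : nbr p U v F ⊆ F := fun u hu => (Rch.mem_nbr.1 hu).1
  apply Subset.antisymm
  · apply Rch.least
    · intro a ha
      by_cases hav : a = v
      · rw [hav]; exact mem_insert_self _ _
      · apply mem_insert_of_mem
        apply subset_rch
        exact mem_union_left _ (mem_erase.2 ⟨hav, ha⟩)
    · intro a ha b hb hab
      by_cases hbv : b = v
      · rw [hbv]; exact mem_insert_self _ _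
      apply mem_insert_of_mem
      rcases mem_insert.1 ha with rfl | ha'
      · apply subset_rch
        rcases mem_union.1 hb with hbA | hbF
        · exact mem_union_left _ (mem_erase.2 ⟨hbv, hbA⟩)
        · exact mem_union_right _ (Rch.mem_nbr.2 ⟨hbF, hab⟩)
      · apply Rch.closed ha' _ hab
        rcases mem_union.1 hb with hbA | hbF
        · exact mem_union_left _ (mem_union_left _ (mem_erase.2 ⟨hbv, hbA⟩))
        · by_cases hbN : b ∈ nbr p U v F
          · exact mem_union_left _ (mem_union_right _ hbN)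
          · exact mem_union_right _ (mem_sdiff.2 ⟨hbF, hbN⟩)
  · intro u hu
    rcases mem_insert.1 hu with rfl | hu
    · exact subset_rch p U A F hv
    · have hle : rch p U ((A.erase v) ∪ nbr p U v F) (F \ nbr p U v F) ⊆ rch p U A F := by
        apply Rch.least
        · intro a ha
          rcases mem_union.1 ha with ha | ha
          · exact subset_rch p U A F (mem_of_mem_erase ha)
          · exact Rch.closed (subset_rch p U A F hv) (mem_union_right _ (hsub ha))
              (Rch.mem_nbr.1 ha).2
        · intro a ha b hb hab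
          apply Rch.closed ha _ hab
          rcases mem_union.1 hb with hb | hb
          · rcases mem_union.1 hb with hb | hb
            · exact mem_union_left _ (mem_of_mem_erase hb)
            · exact mem_union_right _ (hsub hb)
          · exact mem_union_right _ (mem_sdiff.1 hb).1
      exact hle hu

/-- the exploration depends on the edges between the explored set and `F` only -/
theorem rch_local (p : ℝ) {U U' : Ev n} {A F : Finset (Fin n)} (hAF : Disjoint A F)
    (h : ∀ a ∈ rch p U A F, ∀ b ∈ F, (U s(a, b) ≤ p ↔ U' s(a, b) ≤ p)) :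
    rch p U' A F = rch p U A F := Rch.loc p h

theorem rch_lvl (p : ℝ) {U U' : Ev n} (A F : Finset (Fin n)) (h : lvlEq {p} U U') :
    rch p U A F = rch p U' A F :=
  (Rch.loc p (fun a _ b _ => h s(a, b) p (mem_singleton_self p))).symm

/-- the whole cluster -/
theorem rch_cmp (p : ℝ) (U : Ev n) (v : Fin n) :
    rch p U {v} (univ.erase v) = cmp (GU U p) v := by
  classical
  ext u
  rw [Rch.mem_rch]
  unfold cmp
  simp only [mem_filter, mem_univ, true_and]
  constructor
  · rintro ⟨a, ha, q, _⟩
    rw [mem_singleton] at ha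
    rw [← ha]
    exact ⟨q⟩
  · rintro ⟨q⟩
    refine ⟨v, mem_singleton_self v, q, ?_⟩
    intro z _
    by_cases hz : z = v
    · rw [hz]; exact mem_union_left _ (mem_singleton_self v)
    · exact mem_union_right _ (mem_erase.2 ⟨hz, mem_univ z⟩)

end

end Pool.Agent.TH972.U
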