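import Pool.Agent.TH972.U.LiftU
import Pool.Agent.TH972.U.GDef
import Pool.Agent.TH972.U.Rch
import Pool.Agent.TH972.U.Graph

/-!
# The number of arms
-/

set_option autoImplicit false
set_option linter.unusedSectionVars false

namespace Pool.Agent.TH972.U

open Finset MeasureTheory Pool.Agent.W842.RST Pool.Agent.TH972

noncomputable section

variable {n : ℕ}

open Pool.Agent.TH972.U.Graph

namespace Arm

open Classical in
/-- the vertices of `T` with a large cluster inside `T` -/
def W (pt : ℝ) (sa : ℕ) (T : Finset (Fin n)) (U : Ev n) : Finset (Fin n) :=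
  T.filter (fun w => sa ≤ (rch pt U {w} (T.erase w)).card)

theorem W_sub (pt : ℝ) (sa : ℕ) (T : Finset (Fin n)) (U : Ev n) : W pt sa T U ⊆ T :=
  Finset.filter_subset _ _

theorem W_gd (pt : ℝ) (sa : ℕ) (T : Finset (Fin n)) (U : Ev n) :
    W pt sa T U ⊆ gd (GU U pt) sa := by
  classical
  intro w hw
  unfold W at hw
  rw [Finset.mem_filter] at hw
  rw [Marks.mem_gd, ← rch_cmp]
  refine hw.2.trans (Finset.card_le_card ?_)
  refine rch_mono (le_refl pt) U (Finset.Subset.refl _) ?_
  intro x hx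
  rw [Finset.mem_union] at hx ⊢
  rcases hx with hx | hx
  · exact Or.inl hx
  · rw [Finset.mem_erase] at hx ⊢
    exact Or.inr ⟨hx.1, Finset.mem_univ _⟩

theorem W_lvl {pt : ℝ} {sa : ℕ} (T : Finset (Fin n)) {U U' : Ev n} (h : lvlEq {pt} U U') :
    W pt sa T U = W pt sa T U' := by
  unfold W
  refine Finset.filter_congr fun w _ => ?_
  rw [rch_lvl pt {w} (T.erase w) h]

theorem W_loc {pt : ℝ} {sa : ℕ} (T : Finset (Fin n)) {U U' : Ev n}
    (h : ∀ e ∈ cross T T, U e = U' e) : W pt sa T U = W pt sa T U' := by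
  unfold W
  refine Finset.filter_congr fun w hw => ?_
  have h2 : rch pt U' {w} (T.erase w) = rch pt U {w} (T.erase w) := by
    refine rch_local pt ?_ ?_
    · rw [Finset.disjoint_singleton_left]
      exact Finset.notMem_erase _ _
    · intro a ha b hb
      have h3 := rch_subset pt U {w} (T.erase w) ha
      rw [Finset.mem_union, Finset.mem_singleton, Finset.mem_erase] at h3
      have h4 : a ∈ T := by
        rcases h3 with rfl | h3
        · exact hw
        · exact h3.2
      rw [h s(a, b) (mem_cross.2 ⟨a, h4, b, Finset.mem_of_mem_erase hb, rfl⟩)]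
  rw [h2]

theorem cmp_loc {pb : ℝ} {S : Finset (Fin n)} {v : Fin n} {U U' : Ev n}
    (h : ∀ e, e ∉ cross (univ \ S) (univ \ S) → U e = U' e) (hU : cmp (GU U pb) v = S) :
    cmp (GU U' pb) v = S := by
  rw [← rch_cmp] at hU ⊢
  rw [← hU]
  refine rch_local pb ?_ ?_
  · rw [Finset.disjoint_singleton_left]
    exact Finset.notMem_erase _ _
  · intro a ha b _
    rw [hU] at ha
    rw [h s(a, b)]
    intro h2
    obtain ⟨x, hx, y, hy, h3⟩ := mem_cross.1 h2
    rw [Sym2.eq_iff] at h3
    rw [Finset.mem_sdiff] at hx hy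
    rcases h3 with ⟨h3, _⟩ | ⟨h3, _⟩
    · exact hx.2 (h3 ▸ ha)
    · exact hy.2 (h3 ▸ ha)

/-- generating function of the number of elements in a given subset -/
theorem ex_two {α : Type} [DecidableEq α] (q : ℝ) {E E' : Finset α} (h : E' ⊆ E) :
    ex q E (fun S => (2 : ℝ) ^ (E' ∩ S).card) = (1 + q) ^ E'.card := by
  have h1 : E = E' ∪ (E \ E') := by rw [Finset.union_sdiff_of_subset h]
  rw [h1, ex_union q Finset.disjoint_sdiff]
  have h2 : ex q E' (fun S₁ => ex q (E \ E') (fun S₂ => (2 : ℝ) ^ (E' ∩ (S₁ ∪ S₂)).card)) =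
      ex q E' (fun S₁ => (2 : ℝ) ^ S₁.card) := by
    refine ex_congr q fun S₁ hS₁ => ?_
    rw [← ex_const q (E \ E') ((2 : ℝ) ^ S₁.card)]
    refine ex_congr q fun S₂ hS₂ => ?_
    congr 2
    ext x
    rw [Finset.mem_inter, Finset.mem_union]
    constructor
    · rintro ⟨h3, h4 | h4⟩
      · exact h4
      · exact absurd h3 (Finset.mem_sdiff.1 (hS₂ h4)).2
    · intro h3
      exact ⟨hS₁ h3, Or.inl h3⟩
  rw [h2, ex_pow_card]
  congr 1
  ring

/-- the weight -/
def G (pt K : ℝ) (sa : ℕ) (S : Finset (Fin n)) (S' : Finset (Sym2 (Fin n))) (U : Ev n) : ℝ :=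
  ind (((W pt sa (univ \ S) U).card : ℝ) ≤ K) *
    (2 : ℝ) ^ (cross S (W pt sa (univ \ S) U) ∩ S').card

theorem G_nonneg (pt K : ℝ) (sa : ℕ) (S : Finset (Fin n)) (S' : Finset (Sym2 (Fin n)))
    (U : Ev n) : 0 ≤ G pt K sa S S' U :=
  mul_nonneg (ind_nonneg _) (by positivity)

theorem cross_mono {S T T' : Finset (Fin n)} (h : T ⊆ T') : cross S T ⊆ cross S T' := by
  intro e he
  obtain ⟨x, hx, y, hy, rfl⟩ := mem_cross.1 he
  exact mem_cross.2 ⟨x, hx, y, h hy, rfl⟩

theorem ex_G {pt K smax q : ℝ} (hq : 0 ≤ q) (hsm : 0 ≤ smax) (sa : ℕ)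
    {S : Finset (Fin n)} (hS : (S.card : ℝ) ≤ smax) (U : Ev n) :
    ex q (cross S (univ \ S)) (fun S' => G pt K sa S S' U) ≤ Real.exp (q * (smax * K)) := by
  unfold G
  rw [ex_mul_left, ex_two q (cross_mono (W_sub pt sa (univ \ S) U)),
    cross_card (Finset.disjoint_sdiff.mono_right (W_sub pt sa (univ \ S) U))]
  by_cases hW : ((W pt sa (univ \ S) U).card : ℝ) ≤ K
  · rw [ind_true hW, one_mul]
    have h2 : 1 + q ≤ Real.exp q := by
      have := Real.add_one_le_exp q
      linarith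
    refine (pow_le_pow_left₀ (by linarith) h2 _).trans ?_
    rw [← Real.exp_nat_mul]
    apply Real.exp_le_exp.2
    push_cast
    have h3 : (S.card : ℝ) * (W pt sa (univ \ S) U).card ≤ smax * K :=
      mul_le_mul hS hW (Nat.cast_nonneg _) hsm
    have h4 := mul_le_mul_of_nonneg_left h3 hq
    linarith
  · rw [ind_false hW, zero_mul]
    exact (Real.exp_pos _).le

theorem Ex_G {pt K smax q : ℝ} (hq : 0 ≤ q) (hsm : 0 ≤ smax) (sa : ℕ)
    {S : Finset (Fin n)} (hS : (S.card : ℝ) ≤ smax) :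
    ex q (cross S (univ \ S)) (fun S' => Ex (fun U => G pt K sa S S' U)) ≤
      Real.exp (q * (smax * K)) := by
  have hG : ∀ S' : Finset (Sym2 (Fin n)), ∀ U U' : Ev n, lvlEq {pt} U U' →
      G pt K sa S S' U = G pt K sa S S' U' := by
    intro S' U U' h
    unfold G
    rw [W_lvl _ h]
  have h1 : ex q (cross S (univ \ S)) (fun S' => Ex (fun U => G pt K sa S S' U)) =
      Ex (fun U => ex q (cross S (univ \ S)) (fun S' => G pt K sa S S' U)) := by
    unfold ex
    rw [Ex_sum]
    · refine Finset.sum_congr rfl fun S' _ => ?_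
      rw [Ex_const_mul]
    · intro S' _
      refine BM_lvl {pt} fun U U' h => ?_
      simp only [hG S' U U' h]
  rw [h1]
  have h2 : BM (fun U => ex q (cross S (univ \ S)) (fun S' => G pt K sa S S' U)) := by
    refine BM_lvl {pt} fun U U' h => ?_
    refine ex_congr q fun S' _ => hG S' U U' h
  refine (Ex_mono h2 (BM.const _) (fun U => ex_G hq hsm sa hS U)).trans ?_
  rw [Ex_const]

end Arm

open Pool.Agent.TH972.U.Arm

theorem arm_le {pb pt smax K A : ℝ} {sa : ℕ} (h0 : 0 ≤ pb) (hpp : pb ≤ pt) (h1 : pt ≤ 1)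
    (hp1 : pb < 1) (hn : 2 ≤ n) (hsm : 0 ≤ smax) (hK : 0 ≤ K)
    (hA : (pt - pb) / (1 - pb) * (smax * K) + 3 * Real.log n ≤ 0.69 * (A - 1)) :
    env n {U | (∀ v, ((cmp (GU U pb) v).card : ℝ) ≤ smax) ∧ ((gd (GU U pt) sa).card : ℝ) ≤ K ∧
      ∃ v, A < arm pb pt sa U v} ≤ ENNReal.ofReal (1 / n) := by
  classical
  have hn0 : (0 : ℝ) < n := by exact_mod_cast (by omega : 0 < n)
  have hq0 := q_nn hpp hp1
  set q : ℝ := (pt - pb) / (1 - pb) with hqdef
  have hpbL : pb ∈ ({pb, pt} : Finset ℝ) := by simp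
  have hptL : pt ∈ ({pb, pt} : Finset ℝ) := by simp
  have hsub : ∀ {U U' : Ev n}, lvlEq {pb, pt} U U' → lvlEq {pt} U U' := by
    intro U U' h e l hl
    rw [Finset.mem_singleton] at hl
    exact h e l (by rw [hl]; exact hptL)
  have hsub' : ∀ {U U' : Ev n}, lvlEq {pb, pt} U U' → lvlEq {pb} U U' := by
    intro U U' h e l hl
    rw [Finset.mem_singleton] at hl
    exact h e l (by rw [hl]; exact hpbL)
  have harm : ∀ {U U' : Ev n}, lvlEq {pb, pt} U U' → ∀ v, arm pb pt sa U v = arm pb pt sa U' v := by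
    intro U U' h v
    unfold arm
    rw [GU_lvl hpbL h]
    congr 2
    refine Finset.filter_congr fun z _ => ?_
    rw [rch_lvl pt _ _ (hsub h), h _ pt hptL]
  refine env_of_Ex {pb, pt} ?_ ?_
  · intro U U' h
    simp only [GU_lvl hpbL h, GU_lvl hptL h, harm h]
  -- the bound
  set P : Ev n → Prop := fun U => (∀ v, ((cmp (GU U pb) v).card : ℝ) ≤ smax) ∧
    ((gd (GU U pt) sa).card : ℝ) ≤ K ∧ ∃ v, A < arm pb pt sa U v with hP
  set F : Finset (Finset (Fin n)) := univ.filter (fun S => (S.card : ℝ) ≤ smax) with hF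
  set w : ℝ := (2⁻¹ : ℝ) ^ ⌊A⌋₊ with hw
  have hw0 : 0 ≤ w := by positivity
  have hBMP : BM (fun U => ind (P U)) := by
    refine BM_lvl {pb, pt} fun U U' h => ?_
    simp only [hP, GU_lvl hpbL h, GU_lvl hptL h, harm h]
  have hBMt : ∀ v : Fin n, ∀ S : Finset (Fin n), BM (fun U : Ev n =>
      w * (ind (cmp (GU U pb) v = S) *
        G pt K sa S ((cross S (univ \ S)).filter (fun e => U e ≤ pt)) U)) := by
    intro v S
    refine BM_lvl {pb, pt} fun U U' h => ?_
    have h2 : (cross S (univ \ S)).filter (fun e => U e ≤ pt) =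
        (cross S (univ \ S)).filter (fun e => U' e ≤ pt) :=
      Finset.filter_congr fun e _ => h e pt hptL
    rw [h2, GU_lvl hpbL h]
    unfold G
    rw [W_lvl _ (hsub h)]
  have hle : ∀ U : Ev n, ind (P U) ≤ ∑ v : Fin n, ∑ S ∈ F,
      w * (ind (cmp (GU U pb) v = S) *
        G pt K sa S ((cross S (univ \ S)).filter (fun e => U e ≤ pt)) U) := by
    intro U
    have hnn : ∀ v : Fin n, ∀ S ∈ F, 0 ≤ w * (ind (cmp (GU U pb) v = S) *
        G pt K sa S ((cross S (univ \ S)).filter (fun e => U e ≤ pt)) U) := by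
      intro v S _
      exact mul_nonneg hw0 (mul_nonneg (ind_nonneg _) (G_nonneg _ _ _ _ _ _))
    by_cases hp : P U
    swap
    · rw [ind_false hp]
      exact Finset.sum_nonneg fun v _ => Finset.sum_nonneg (hnn v)
    rw [ind_true hp]
    obtain ⟨hp1, hp2, v, hv⟩ := hp
    refine le_trans ?_ (Finset.single_le_sum (f := fun v => ∑ S ∈ F,
      w * (ind (cmp (GU U pb) v = S) *
        G pt K sa S ((cross S (univ \ S)).filter (fun e => U e ≤ pt)) U))
      (fun v _ => Finset.sum_nonneg (hnn v)) (Finset.mem_univ v))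
    have hSF : cmp (GU U pb) v ∈ F := by
      rw [hF, Finset.mem_filter]
      exact ⟨Finset.mem_univ _, hp1 v⟩
    refine le_trans ?_ (Finset.single_le_sum (hnn v) hSF)
    rw [ind_true rfl, one_mul]
    unfold G
    set S := cmp (GU U pb) v with hS
    have hWK : ((W pt sa (univ \ S) U).card : ℝ) ≤ K := by
      refine le_trans ?_ hp2
      exact_mod_cast Finset.card_le_card (W_gd pt sa (univ \ S) U)
    rw [ind_true hWK, one_mul]
    have e1 : (cross S (W pt sa (univ \ S) U) ∩ (cross S (univ \ S)).filter (fun e => U e ≤ pt)) =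
        (cross S (W pt sa (univ \ S) U)).filter (fun e => U e ≤ pt) := by
      ext e
      rw [Finset.mem_inter, Finset.mem_filter, Finset.mem_filter]
      constructor
      · rintro ⟨h2, _, h3⟩; exact ⟨h2, h3⟩
      · rintro ⟨h2, h3⟩; exact ⟨h2, cross_mono (W_sub _ _ _ _) h2, h3⟩
    have e2 : ((S ×ˢ (W pt sa (univ \ S) U)).filter (fun q => U s(q.1, q.2) ≤ pt)) =
        ((S ×ˢ (univ \ S)).filter (fun q => U s(q.1, q.2) ≤ pt ∧
          sa ≤ (rch pt U {q.2} ((univ \ S).erase q.2)).card)) := by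
      ext z
      unfold W
      simp only [Finset.mem_filter, Finset.mem_product]
      tauto
    rw [e1, cross_filter (Finset.disjoint_sdiff.mono_right (W_sub pt sa (univ \ S) U)), e2]
    have e3 : arm pb pt sa U v = (((S ×ˢ (univ \ S)).filter (fun q => U s(q.1, q.2) ≤ pt ∧
          sa ≤ (rch pt U {q.2} ((univ \ S).erase q.2)).card)).card : ℝ) := rfl
    rw [e3] at hv
    rw [hw, inv_pow, ← div_eq_inv_mul, one_le_div (by positivity)]
    refine pow_le_pow_right₀ (by norm_num) ?_
    rcases le_or_gt 0 A with hA0 | hA0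
    · have h7 := (Nat.floor_le hA0).trans_lt hv
      exact_mod_cast h7.le
    · rw [Nat.floor_of_nonpos hA0.le]
      exact Nat.zero_le _
  refine (Ex_mono hBMP (BM.sum _ fun v _ => BM.sum _ fun S _ => hBMt v S) hle).trans ?_
  rw [Ex_sum _ fun v _ => BM.sum _ fun S _ => hBMt v S]
  have hv : ∀ v : Fin n, Ex (fun U => ∑ S ∈ F,
      w * (ind (cmp (GU U pb) v = S) *
        G pt K sa S ((cross S (univ \ S)).filter (fun e => U e ≤ pt)) U)) ≤ ((n : ℝ) ^ 3)⁻¹ := by
    intro v
    rw [Ex_sum _ fun S _ => hBMt v S]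
    have hBMc : ∀ S : Finset (Fin n), BM (fun U : Ev n => ind (cmp (GU U pb) v = S)) := by
      intro S
      refine BM_lvl {pb, pt} fun U U' h => ?_
      rw [GU_lvl hpbL h]
    have hS : ∀ S ∈ F, Ex (fun U : Ev n => w * (ind (cmp (GU U pb) v = S) *
        G pt K sa S ((cross S (univ \ S)).filter (fun e => U e ≤ pt)) U)) ≤
        Ex (fun U : Ev n => ind (cmp (GU U pb) v = S)) * (w * Real.exp (q * (smax * K))) := by
      intro S hS
      rw [hF, Finset.mem_filter] at hS
      rw [Ex_const_mul, Ex_lift_ex' h0 hpp h1 hp1 {pb} (by simp) (cross S (univ \ S))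
        (fun U => cmp (GU U pb) v = S) ?_ ?_ (cross (univ \ S) (univ \ S)) ?_ ?_ {pt}
        (G pt K sa S) ?_ ?_]
      · have h2 := Ex_G (n := n) (pt := pt) (K := K) hq0 hsm sa hS.2
        have h3 : 0 ≤ Ex (fun U : Ev n => ind (cmp (GU U pb) v = S)) :=
          Ex_nonneg fun U => ind_nonneg _
        have h4 := mul_le_mul_of_nonneg_left h2 (mul_nonneg hw0 h3)
        refine le_trans (le_of_eq ?_) (h4.trans (le_of_eq ?_))
        · rw [mul_assoc]
        · ring
      · intro U U' h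
        rw [GU_lvl (Finset.mem_singleton_self pb) h]
      · intro U hU e he
        obtain ⟨x, hx, y, hy, rfl⟩ := mem_cross.1 he
        rw [Finset.mem_sdiff] at hy
        exact out (hU.symm ▸ hx) (hU.symm ▸ hy.2)
      · rw [Finset.disjoint_left]
        intro e he he'
        obtain ⟨x, hx, y, hy, rfl⟩ := mem_cross.1 he
        obtain ⟨x', hx', y', hy', h2⟩ := mem_cross.1 he'
        rw [Sym2.eq_iff] at h2
        rw [Finset.mem_sdiff] at hx hy
        rcases h2 with ⟨h2, _⟩ | ⟨_, h2⟩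
        · exact hx.2 (h2 ▸ hx')
        · exact hy.2 (h2 ▸ hx')
      · intro U U' h
        exact ⟨fun hU => cmp_loc h hU, fun hU => cmp_loc (fun e he => (h e he).symm) hU⟩
      · intro S' U U' h
        unfold G
        rw [W_lvl _ h]
      · intro S' U U' h
        unfold G
        rw [W_loc _ h]
    refine (Finset.sum_le_sum hS).trans ?_
    rw [← Finset.sum_mul, ← Ex_sum _ fun S _ => hBMc S]
    have h2 : Ex (fun U : Ev n => ∑ S ∈ F, ind (cmp (GU U pb) v = S)) ≤ 1 := by
      refine (Ex_mono (BM.sum _ fun S _ => hBMc S) (BM.const 1) (fun U => ?_)).trans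
        (le_of_eq (Ex_const _))
      by_cases hc : cmp (GU U pb) v ∈ F
      · rw [Finset.sum_eq_single_of_mem _ hc]
        · exact ind_le_one _
        · intro S _ hne
          exact ind_false (Ne.symm hne)
      · rw [Finset.sum_eq_zero]
        · exact zero_le_one
        · intro S hS
          refine ind_false ?_
          rintro rfl
          exact hc hS
    have h3 : w * Real.exp (q * (smax * K)) ≤ ((n : ℝ) ^ 3)⁻¹ := by
      have h4 : w ≤ Real.exp (-(0.69 * ⌊A⌋₊)) := by
        have h5 : (2⁻¹ : ℝ) ≤ Real.exp (-0.69) := by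
          rw [Real.exp_neg, inv_le_inv₀ (by norm_num) (Real.exp_pos _)]
          have h4 := Real.log_two_gt_d9
          rw [← Real.le_log_iff_exp_le (by norm_num)]
          linarith
        refine (pow_le_pow_left₀ (by norm_num) h5 _).trans (le_of_eq ?_)
        rw [← Real.exp_nat_mul]
        congr 1
        ring
      refine (mul_le_mul_of_nonneg_right h4 (Real.exp_pos _).le).trans ?_
      rw [← Real.exp_add, ← expn 3 hn]
      apply Real.exp_le_exp.2
      have h7 : A - 1 ≤ (⌊A⌋₊ : ℝ) := by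
        have := Nat.lt_floor_add_one A
        linarith
      push_cast
      linarith
    have h4 : 0 ≤ w * Real.exp (q * (smax * K)) := mul_nonneg hw0 (Real.exp_pos _).le
    calc _ ≤ 1 * (w * Real.exp (q * (smax * K))) := mul_le_mul_of_nonneg_right h2 h4
      _ ≤ _ := by rw [one_mul]; exact h3
  refine (Finset.sum_le_sum fun v _ => hv v).trans ?_
  rw [Finset.sum_const, nsmul_eq_mul, Finset.card_univ, Fintype.card_fin]
  have hn1 : (1 : ℝ) ≤ n := by exact_mod_cast (by omega : 1 ≤ n)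
  rw [← div_eq_mul_inv, div_le_div_iff₀ (by positivity) hn0]
  nlinarith [mul_pos hn0 hn0]

end

end Pool.Agent.TH972.U
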