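import Pool.Agent.TH972.U.Grn2

/-!
# Effect of killing on the Green function and on the path masses
-/

set_option autoImplicit false
set_option linter.unusedSectionVars false

namespace Pool.Agent.TH972.U

open Finset

noncomputable section

variable {V : Type} [Fintype V] [DecidableEq V]

namespace Kill

open Grn

/-- equality of networks -/
lemma net_ext (N N' : Net V) (h1 : N.κ = N'.κ) (h2 : N.k = N'.k) : N = N' := by
  cases N
  cases N'
  simp only at h1 h2
  subst h1
  subst h2
  rfl

/-- the killing of `N'` on `S` and of `N` elsewhere -/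
def mix (N N' : Net V) (S : Finset V) : Net V where
  κ := N.κ
  k := fun x => if x ∈ S then (if N.k x ≤ N'.k x then N'.k x else N.k x) else N.k x
  κ_pos := N.κ_pos
  k_nonneg := fun v => by
    split_ifs with h1 h2
    · exact (N.k_nonneg v).trans h2
    · exact N.k_nonneg v
    · exact N.k_nonneg v
  k_pos := by
    obtain ⟨v, hv⟩ := N.k_pos
    refine ⟨v, ?_⟩
    split_ifs with h1 h2
    · exact hv.trans_le h2
    · exact hv
    · exact hv

lemma mix_k (N N' : Net V) (hk : ∀ x, N.k x ≤ N'.k x) (S : Finset V) (x : V) :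
    (mix N N' S).k x = if x ∈ S then N'.k x else N.k x := by
  show (if x ∈ S then (if N.k x ≤ N'.k x then N'.k x else N.k x) else N.k x) = _
  rw [if_pos (hk x)]

lemma mix_empty (N N' : Net V) : mix N N' ∅ = N := by
  apply net_ext
  · rfl
  · funext x
    show (if x ∈ (∅ : Finset V) then (if N.k x ≤ N'.k x then N'.k x else N.k x) else N.k x) = N.k x
    rw [if_neg (Finset.notMem_empty x)]

lemma mix_univ (N N' : Net V) (hκ : N'.κ = N.κ) (hk : ∀ x, N.k x ≤ N'.k x) : mix N N' univ = N' := by
  apply net_ext
  · exact hκ.symm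
  · funext x
    rw [mix_k N N' hk, if_pos (mem_univ x)]

lemma mix_step (N N' : Net V) (hk : ∀ x, N.k x ≤ N'.k x) {S : Finset V} {h : V} (hS : h ∉ S) (x : V) :
    (mix N N' (insert h S)).k x = (mix N N' S).k x + if x = h then N'.k h - N.k h else 0 := by
  rw [mix_k N N' hk, mix_k N N' hk]
  by_cases hx : x = h
  · subst hx
    rw [if_pos (Finset.mem_insert_self x S), if_neg hS, if_pos rfl]
    ring
  · rw [if_neg hx, add_zero]
    by_cases hxS : x ∈ S
    · rw [if_pos (Finset.mem_insert_of_mem hxS), if_pos hxS]
    · rw [if_neg hxS, if_neg]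
      rw [Finset.mem_insert]
      tauto

lemma den_pos (N : Net V) (D : Finset V) (h : V) {δ : ℝ} (hδ : 0 ≤ δ) : 0 < 1 + δ * grn N D h h := by
  have := mul_nonneg hδ (grn_nonneg N D h h)
  linarith

/-- Sherman-Morrison -/
lemma sm (N N' : Net V) (hκ : N'.κ = N.κ) (h : V) (δ : ℝ) (hδ : 0 ≤ δ)
    (hk : ∀ x, N'.k x = N.k x + if x = h then δ else 0) (D : Finset V) (x y : V) :
    grn N' D x y = grn N D x y - δ * grn N D x h * grn N D h y / (1 + δ * grn N D h h) := by
  have hden := den_pos N D h hδ
  by_cases hy : y ∈ D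
  · rw [grn_right N' x hy, grn_right N x hy, grn_right N h hy]
    ring
  by_cases hh : h ∈ D
  · rw [grn_left N y hh]
    have h1 := uniq N' D (fun x => grn N' D x y - grn N D x y)
      (fun x hx => by rw [grn_left N' y hx, grn_left N y hx, sub_zero])
      (fun x hx => by
        have e : ∑ w, Kc N'.κ x w * (grn N' D w y - grn N D w y) =
            ∑ w, Kc N'.κ x w * grn N' D w y - ∑ w, Kc N'.κ x w * grn N D w y := by
          rw [← Finset.sum_sub_distrib]
          exact Finset.sum_congr rfl fun w _ => by ring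
        have h2 := grn_eq N' hx hy
        have h3 := grn_eq N hx hy
        have hxh : x ≠ h := fun h' => hx (h' ▸ hh)
        rw [hk x, if_neg hxh, add_zero] at h2
        rw [e, hk x, if_neg hxh, add_zero, hκ]
        rw [hκ] at h2
        linear_combination h2 - h3) x
    rw [mul_zero, zero_div]
    linarith
  · set c : ℝ := δ * grn N D h y / (1 + δ * grn N D h h) with hc
    have hc2 : δ * grn N D h y = c * (1 + δ * grn N D h h) := by
      rw [hc]
      field_simp
    have h1 := uniq N' D (fun x => grn N' D x y - (grn N D x y - c * grn N D x h))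
      (fun x hx => by
        rw [grn_left N' y hx, grn_left N y hx, grn_left N h hx]
        ring)
      (fun x hx => by
        have e : ∑ w, Kc N'.κ x w * (grn N' D w y - (grn N D w y - c * grn N D w h)) =
            ∑ w, Kc N'.κ x w * grn N' D w y - ∑ w, Kc N'.κ x w * grn N D w y +
              c * ∑ w, Kc N'.κ x w * grn N D w h := by
          rw [Finset.mul_sum, ← Finset.sum_sub_distrib, ← Finset.sum_add_distrib]
          exact Finset.sum_congr rfl fun w _ => by ring
        have h2 := grn_eq N' hx hy
        have h3 := grn_eq N hx hy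
        have h4 := grn_eq N hx hh
        rw [hκ] at h2 e
        rw [hκ, e]
        rw [hk x] at h2 ⊢
        by_cases hxh : x = h
        · subst hxh
          rw [if_pos rfl] at h2 h4
          rw [if_pos rfl]
          linear_combination h2 - h3 + c * h4 - hc2
        · rw [if_neg hxh] at h2 h4
          rw [if_neg hxh]
          linear_combination h2 - h3 + c * h4) x
    have h5 : δ * grn N D x h * grn N D h y / (1 + δ * grn N D h h) = c * grn N D x h := by
      rw [hc]
      ring
    rw [h5]
    linarith

/-- hitting probabilities decrease with the killing set -/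
lemma hit_anti (N : Net V) {D D' : Finset V} (hD : D ⊆ D') {h : V} (hh : h ∉ D') (g : V) :
    grn N D' g h / grn N D' h h ≤ grn N D g h / grn N D h h := by
  have hhD : h ∉ D := fun h' => hh (hD h')
  have hb := grn_pos N hhD
  have hb' := grn_pos N hh
  have h1 := max_pr N (insert h D') (fun x => grn N D' x h / grn N D' h h - grn N D x h / grn N D h h)
    (fun x hx => by
      rcases Finset.mem_insert.mp hx with rfl | hx
      · rw [div_self hb.ne', div_self hb'.ne', sub_self]
      · rw [grn_left N h hx, zero_div, zero_sub]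
        have := div_nonneg (grn_nonneg N D x h) hb.le
        linarith)
    (fun x hx => by
      have hx1 : x ≠ h := fun h' => hx (h' ▸ Finset.mem_insert_self _ _)
      have hx2 : x ∉ D' := fun h' => hx (Finset.mem_insert_of_mem h')
      have hx3 : x ∉ D := fun h' => hx2 (hD h')
      have e : ∑ w, Kc N.κ x w * (grn N D' w h / grn N D' h h - grn N D w h / grn N D h h) =
          (∑ w, Kc N.κ x w * grn N D' w h) / grn N D' h h - (∑ w, Kc N.κ x w * grn N D w h) / grn N D h h := by
        rw [Finset.sum_div, Finset.sum_div, ← Finset.sum_sub_distrib]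
        exact Finset.sum_congr rfl fun w _ => by ring
      have h2 := grn_eq N hx2 hh
      have h3 := grn_eq N hx3 hhD
      rw [if_neg hx1, zero_add] at h2 h3
      rw [e, ← h2, ← h3]
      apply le_of_eq
      ring) g
  linarith

lemma gap_anti1 (N N' : Net V) (hκ : N'.κ = N.κ) (h : V) (δ : ℝ) (hδ : 0 ≤ δ)
    (hk : ∀ x, N'.k x = N.k x + if x = h then δ else 0) {D D' : Finset V} (hD : D ⊆ D') (g : V) :
    grn N' D g g - grn N' D' g g ≤ grn N D g g - grn N D' g g := by
  rw [sm N N' hκ h δ hδ hk D g g, sm N N' hκ h δ hδ hk D' g g, grn_symm N D h g, grn_symm N D' h g]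
  have hd := den_pos N D h hδ
  have hd' := den_pos N D' h hδ
  suffices hs : δ * grn N D' g h * grn N D' g h / (1 + δ * grn N D' h h) ≤
      δ * grn N D g h * grn N D g h / (1 + δ * grn N D h h) by linarith
  by_cases hh : h ∈ D'
  · rw [grn_right N g hh]
    have : 0 ≤ δ * grn N D g h * grn N D g h / (1 + δ * grn N D h h) :=
      div_nonneg (mul_nonneg (mul_nonneg hδ (grn_nonneg N D g h)) (grn_nonneg N D g h)) hd.le
    simpa using this
  have hhD : h ∉ D := fun h' => hh (hD h')
  have hb := grn_pos N hhD
  have hb' := grn_pos N hh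
  have hbb := grn_anti N hD h h
  have hp := hit_anti N hD hh g
  set a := grn N D g h
  set b := grn N D h h
  set a' := grn N D' g h
  set b' := grn N D' h h
  have ha' : 0 ≤ a' := grn_nonneg N D' g h
  have hp0 : 0 ≤ a' / b' := div_nonneg ha' hb'.le
  have ea : a = (a / b) * b := by field_simp
  have ea' : a' = (a' / b') * b' := by field_simp
  set p := a / b
  set p' := a' / b'
  rw [ea, ea', div_le_div_iff₀ hd' hd]
  have h1 : p' ^ 2 ≤ p ^ 2 := by nlinarith
  have h2 : b' ^ 2 * (1 + δ * b) ≤ b ^ 2 * (1 + δ * b') := by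
    have h3 : b' ^ 2 ≤ b ^ 2 := by nlinarith
    have h4 : 0 ≤ δ * (b * b') * (b - b') := by
      have : 0 ≤ b - b' := by linarith
      positivity
    nlinarith
  have h3 : 0 ≤ b' ^ 2 * (1 + δ * b) := by positivity
  calc δ * (p' * b') * (p' * b') * (1 + δ * b) = δ * (p' ^ 2 * (b' ^ 2 * (1 + δ * b))) := by ring
    _ ≤ δ * (p ^ 2 * (b ^ 2 * (1 + δ * b'))) := by
        apply mul_le_mul_of_nonneg_left _ hδ
        exact mul_le_mul h1 h2 h3 (sq_nonneg p)
    _ = δ * (p * b) * (p * b) * (1 + δ * b') := by ring

lemma dGnn (N : Net V) (D : Finset V) (π : List V) : 0 ≤ dG N D π := by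
  induction π with
  | nil => exact zero_le_one
  | cons v t ih => exact mul_nonneg (grn_nonneg _ _ _ _) ih

/-- the exact effect of a change at one vertex -/
lemma dG_one (N N' : Net V) (hκ : N'.κ = N.κ) (h : V) (δ : ℝ) (hδ : 0 ≤ δ)
    (hk : ∀ x, N'.k x = N.k x + if x = h then δ else 0) (D : Finset V) (π : List V) (hπ : π.Nodup)
    (hD : ∀ z ∈ π, z ∉ D) :
    dG N' D π * (1 + δ * grn N D h h) = dG N D π * (1 + δ * grn N (D ∪ π.toFinset) h h) := by
  induction π with
  | nil =>
    show 1 * _ = 1 * _
    rw [List.toFinset_nil, Finset.union_empty]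
  | cons v t ih =>
    have ht := ih (List.nodup_cons.1 hπ).2 (fun z hz => hD z (List.mem_cons_of_mem v hz))
    have hv : v ∉ D ∪ t.toFinset := by
      rw [Finset.mem_union, List.mem_toFinset]
      rintro (h1 | h1)
      · exact hD v List.mem_cons_self h1
      · exact (List.nodup_cons.1 hπ).1 h1
    have hset : D ∪ (v :: t).toFinset = insert v (D ∪ t.toFinset) := by
      rw [List.toFinset_cons, Finset.union_insert]
    rw [hset]
    show grn N' (D ∪ t.toFinset) v v * dG N' D t * _ = grn N (D ∪ t.toFinset) v v * dG N D t * _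
    set S := D ∪ t.toFinset
    have h1 := sm N N' hκ h δ hδ hk S v v
    have h2 := grn_insert N hv h h
    have hd := den_pos N S h hδ
    have hvv := grn_pos N hv
    have key : grn N' S v v * (1 + δ * grn N S h h) = grn N S v v * (1 + δ * grn N (insert v S) h h) := by
      rw [h1, h2, grn_symm N S h v]
      field_simp
      ring
    calc grn N' S v v * dG N' D t * (1 + δ * grn N D h h)
        = grn N' S v v * (dG N' D t * (1 + δ * grn N D h h)) := by ring
      _ = grn N' S v v * (1 + δ * grn N S h h) * dG N D t := by rw [ht]; ring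
      _ = grn N S v v * dG N D t * (1 + δ * grn N (insert v S) h h) := by rw [key]; ring

lemma dG_kill1 (N N' : Net V) (hκ : N'.κ = N.κ) (h : V) (δ : ℝ) (hδ : 0 ≤ δ)
    (hk : ∀ x, N'.k x = N.k x + if x = h then δ else 0) (D : Finset V) (π : List V) (hπ : π.Nodup)
    (hD : ∀ z ∈ π, z ∉ D) :
    dG N' D π ≤ dG N D π * Real.exp (-(δ * (grn N' D h h - grn N' (D ∪ π.toFinset) h h))) := by
  have h1 := dG_one N N' hκ h δ hδ hk D π hπ hD
  have e1 := sm N N' hκ h δ hδ hk D h h
  have e2 := sm N N' hκ h δ hδ hk (D ∪ π.toFinset) h h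
  have hda := den_pos N D h hδ
  have hdb := den_pos N (D ∪ π.toFinset) h hδ
  have hba : grn N (D ∪ π.toFinset) h h ≤ grn N D h h := grn_anti N Finset.subset_union_left h h
  have hb0 := grn_nonneg N (D ∪ π.toFinset) h h
  rw [e1, e2]
  set a := grn N D h h
  set b := grn N (D ∪ π.toFinset) h h
  have h2 : dG N' D π = dG N D π * ((1 + δ * b) / (1 + δ * a)) := by
    rw [mul_div_assoc', ← h1]
    field_simp
  rw [h2]
  apply mul_le_mul_of_nonneg_left _ (dGnn N D π)
  have h3 := Real.add_one_le_exp (-(δ * (a - δ * a * a / (1 + δ * a) - (b - δ * b * b / (1 + δ * b)))))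
  refine le_trans ?_ h3
  have h4 : δ * (a - δ * a * a / (1 + δ * a) - (b - δ * b * b / (1 + δ * b))) =
      δ * (a - b) / ((1 + δ * a) * (1 + δ * b)) := by
    field_simp
    ring
  rw [h4]
  have h5 : (1 + δ * b) / (1 + δ * a) = 1 - δ * (a - b) / (1 + δ * a) := by
    field_simp
    ring
  rw [h5]
  have h6 : δ * (a - b) / ((1 + δ * a) * (1 + δ * b)) ≤ δ * (a - b) / (1 + δ * a) := by
    apply div_le_div_of_nonneg_left
    · exact mul_nonneg hδ (by linarith)
    · exact hda
    · have : 0 ≤ δ * b := mul_nonneg hδ hb0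
      nlinarith
  linarith

end Kill

open Kill

/-- the gap of the Green function is decreasing in the killing -/
theorem gap_anti (N N' : Net V) (hκ : N'.κ = N.κ) (hk : ∀ x, N.k x ≤ N'.k x) {D D' : Finset V}
    (h : D ⊆ D') (g : V) :
    grn N' D g g - grn N' D' g g ≤ grn N D g g - grn N D' g g := by
  have key : ∀ S : Finset V, grn (mix N N' S) D g g - grn (mix N N' S) D' g g ≤
      grn N D g g - grn N D' g g := by
    intro S
    induction S using Finset.induction_on with
    | empty => rw [mix_empty]
    | insert x S hx ih =>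
      refine le_trans ?_ ih
      exact gap_anti1 (mix N N' S) (mix N N' (insert x S)) rfl x (N'.k x - N.k x) (sub_nonneg.2 (hk x))
        (mix_step N N' hk hx) h g
  have := key univ
  rwa [mix_univ N N' hκ hk] at this

/-- effect of more killing (`N'`) on the product of the Green functions -/
theorem dG_kill (N N' : Net V) (hκ : N'.κ = N.κ) (hk : ∀ x, N.k x ≤ N'.k x) (D : Finset V)
    {π : List V} (hπ : π.Nodup) (hD : ∀ z ∈ π, z ∉ D) :
    dG N' D π ≤ dG N D π * Real.exp (-(∑ g, (N'.k g - N.k g) *
      (grn N' D g g - grn N' (D ∪ π.toFinset) g g))) := by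
  have key : ∀ S : Finset V, dG (mix N N' S) D π ≤ dG N D π * Real.exp (-(∑ g ∈ S, (N'.k g - N.k g) *
      (grn (mix N N' S) D g g - grn (mix N N' S) (D ∪ π.toFinset) g g))) := by
    intro S
    induction S using Finset.induction_on with
    | empty => rw [mix_empty, Finset.sum_empty, neg_zero, Real.exp_zero, mul_one]
    | insert x S hx ih =>
      have h1 := dG_kill1 (mix N N' S) (mix N N' (insert x S)) rfl x (N'.k x - N.k x) (sub_nonneg.2 (hk x))
        (mix_step N N' hk hx) D π hπ hD
      refine h1.trans ?_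
      refine (mul_le_mul_of_nonneg_right ih (Real.exp_pos _).le).trans ?_
      rw [mul_assoc, ← Real.exp_add]
      apply mul_le_mul_of_nonneg_left _ (dGnn N D π)
      apply Real.exp_le_exp.2
      rw [Finset.sum_insert hx]
      have h2 : ∑ g ∈ S, (N'.k g - N.k g) *
          (grn (mix N N' (insert x S)) D g g - grn (mix N N' (insert x S)) (D ∪ π.toFinset) g g) ≤
          ∑ g ∈ S, (N'.k g - N.k g) *
          (grn (mix N N' S) D g g - grn (mix N N' S) (D ∪ π.toFinset) g g) := by
        apply Finset.sum_le_sum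
        intro g _
        apply mul_le_mul_of_nonneg_left _ (sub_nonneg.2 (hk g))
        exact gap_anti1 (mix N N' S) (mix N N' (insert x S)) rfl x (N'.k x - N.k x) (sub_nonneg.2 (hk x))
          (mix_step N N' hk hx) Finset.subset_union_left g
      linarith
  have := key univ
  rwa [mix_univ N N' hκ hk] at this

/-- lower bound of the gap by hitting probabilities: `w` in the path -/
theorem gap_ge (N : Net V) {D : Finset V} {w : V} (hw : w ∈ D) (g : V) :
    grn N ∅ g w ^ 2 / grn N ∅ w w ≤ grn N ∅ g g - grn N D g g := by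
  have h1 := grn_anti N (Finset.singleton_subset_iff.2 hw) g g
  have h2 := grn_insert N (Finset.notMem_empty w) g g
  rw [insert_empty_eq, grn_symm N ∅ w g] at h2
  rw [h2] at h1
  have h3 : grn N ∅ g w ^ 2 / grn N ∅ w w = grn N ∅ g w * grn N ∅ g w / grn N ∅ w w := by ring
  rw [h3]
  linarith

end

end Pool.Agent.TH972.U
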