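import Pool.Agent.TH972.U.LE
import Pool.Agent.TH972.U.Kill0

/-!
# Effect of killing on the masses of the paths
(`gap_anti`, `dG_kill` and `gap_ge` are in `Kill0`)
-/

set_option autoImplicit false
set_option linter.unusedSectionVars false

namespace Pool.Agent.TH972.U

open Finset

noncomputable section

variable {V : Type} [Fintype V] [DecidableEq V]

namespace Kill

open Grn

/-- the network with half of the killing -/
def half (N : Net V) : Net V where
  κ := N.κ
  k := fun x => N.k x / 2
  κ_pos := N.κ_pos
  k_nonneg := fun v => div_nonneg (N.k_nonneg v) zero_le_two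
  k_pos := by
    obtain ⟨v, hv⟩ := N.k_pos
    exact ⟨v, half_pos hv⟩

lemma cpr_half (N : Net V) (π : List V) : cpr (half N) π = cpr N π := by
  induction π with
  | nil => rfl
  | cons v t ih =>
    cases t with
    | nil => rfl
    | cons w t =>
      show Kc N.κ v w * cpr (half N) (w :: t) = Kc N.κ v w * cpr N (w :: t)
      rw [ih]

lemma cpr_nn (N : Net V) (π : List V) : 0 ≤ cpr N π := by
  induction π with
  | nil => exact zero_le_one
  | cons v t ih =>
    cases t with
    | nil => exact zero_le_one
    | cons w t => exact mul_nonneg (Kc_nn N v w) ih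

lemma lastf_half (N : Net V) (π : List V) : lastf N.k π = 2 * lastf (half N).k π := by
  unfold lastf
  cases π.getLast? with
  | none => simp
  | some z =>
    show N.k z = 2 * (N.k z / 2)
    ring

lemma lastf_nn (N : Net V) (π : List V) : 0 ≤ lastf N.k π := by
  unfold lastf
  cases π.getLast? with
  | none => exact le_rfl
  | some z => exact N.k_nonneg z

end Kill

open Kill

open Classical in
/-- the paths which pick up much killing have small mass -/
theorem good_mass (N : Net V) (x : V) (P : List V → Prop) (Φ : ℝ)
    (hP : ∀ ζ : List V, ζ.Nodup → P ζ →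
      Φ ≤ (∑ g, N.k g * (grn N ∅ g g - grn N ζ.toFinset g g)) / 2) :
    psum N ∅ x (fun ζ => if P ζ then lastf N.k ζ else 0) ≤ 2 * Real.exp (-Φ) := by
  have hone := psum_one (half N) x
  rw [psum_eq_sum] at hone ⊢
  have key : ∑ j ∈ range (Fintype.card V), ∑ π ∈ spaths j x ∅,
      cpr N π * dG N ∅ π * (if P π then lastf N.k π else 0) ≤
      ∑ j ∈ range (Fintype.card V), ∑ π ∈ spaths j x ∅,
        (2 * Real.exp (-Φ)) * (cpr (half N) π * dG (half N) ∅ π * lastf (half N).k π) := by
    apply Finset.sum_le_sum
    intro j _
    apply Finset.sum_le_sum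
    intro π hπ
    have hnd : π.Nodup := (mem_spaths.1 hπ).2.1
    rw [cpr_half]
    have hc := cpr_nn N π
    have hd := Kill.dGnn (half N) ∅ π
    have hl := lastf_nn (half N) π
    by_cases hPπ : P π
    · rw [if_pos hPπ, lastf_half]
      have h1 := dG_kill (half N) N rfl (fun v => by
        show N.k v / 2 ≤ N.k v
        linarith [N.k_nonneg v]) ∅ hnd (fun z _ => Finset.notMem_empty z)
      have h2 := hP π hnd hPπ
      have h3 : ∑ g, (N.k g - (half N).k g) * (grn N ∅ g g - grn N (∅ ∪ π.toFinset) g g) =
          (∑ g, N.k g * (grn N ∅ g g - grn N π.toFinset g g)) / 2 := by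
        rw [Finset.sum_div]
        refine Finset.sum_congr rfl fun g _ => ?_
        show (N.k g - N.k g / 2) * _ = _
        rw [Finset.empty_union]
        ring
      rw [h3] at h1
      have h4 : dG N ∅ π ≤ dG (half N) ∅ π * Real.exp (-Φ) :=
        h1.trans (mul_le_mul_of_nonneg_left (Real.exp_le_exp.2 (by linarith)) hd)
      calc cpr N π * dG N ∅ π * (2 * lastf (half N).k π)
          ≤ cpr N π * (dG (half N) ∅ π * Real.exp (-Φ)) * (2 * lastf (half N).k π) := by
            apply mul_le_mul_of_nonneg_right _ (by positivity)
            exact mul_le_mul_of_nonneg_left h4 hc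
        _ = _ := by ring
    · rw [if_neg hPπ, mul_zero]
      have := Real.exp_pos (-Φ)
      positivity
  refine key.trans ?_
  simp only [← Finset.mul_sum]
  rw [hone, mul_one]

end

end Pool.Agent.TH972.U
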