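import Pool.Agent.TH972.U.Marks
import Pool.Agent.TH972.U.Kill

/-!
# Killing picked up by a path with many attachments
-/

set_option autoImplicit false
set_option linter.unusedSectionVars false

namespace Pool.Agent.TH972.U

open Finset

noncomputable section

variable {V : Type} [Fintype V] [DecidableEq V]

/-- hitting along a path -/
theorem grn_path (N : Net V) {a : ℝ} (ha : 0 < a) (hcap : ∀ v, 1 / a ≤ grn N ∅ v v)
    (x : ℕ → V) (t : ℕ) (hx : ∀ j < t, x j ≠ x (j + 1)) :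
    grn N ∅ (x t) (x t) ≤
      (∏ j ∈ range t, (1 + a / Kc N.κ (x j) (x (j + 1)))) * grn N ∅ (x 0) (x t) := by
  induction t with
  | zero => simp
  | succ t ih =>
    have ih' := ih fun j hj => hx j (by omega)
    have hne := hx t (by omega)
    have hK := Grn.Kc_pos N hne
    have h1 := grn_hit N ha (r := 1 / Kc N.κ (x t) (x (t + 1))) (by positivity) hne
      (by rw [one_div_one_div]) (hcap (x t))
    have h2 := grn_chain N ∅ (x 0) (x t) (x (t + 1))
    have hG := grn_pos N (Finset.notMem_empty (x t))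
    have hG2 := grn_nonneg N ∅ (x t) (x (t + 1))
    rw [mul_one_div] at h1
    have hP : 0 ≤ ∏ j ∈ range t, (1 + a / Kc N.κ (x j) (x (j + 1))) := by
      refine Finset.prod_nonneg fun j _ => ?_
      have := div_nonneg ha.le (Grn.Kc_nn N (x j) (x (j + 1)))
      linarith
    have hF : 0 ≤ 1 + a / Kc N.κ (x t) (x (t + 1)) := by
      have := div_nonneg ha.le hK.le
      linarith
    rw [Finset.prod_range_succ]
    refine le_of_mul_le_mul_left ?_ hG
    calc grn N ∅ (x t) (x t) * grn N ∅ (x (t + 1)) (x (t + 1))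
        ≤ grn N ∅ (x t) (x t) * ((1 + a / Kc N.κ (x t) (x (t + 1))) *
          grn N ∅ (x t) (x (t + 1))) := mul_le_mul_of_nonneg_left h1 hG.le
      _ = grn N ∅ (x t) (x t) * ((1 + a / Kc N.κ (x t) (x (t + 1))) *
          grn N ∅ (x t) (x (t + 1))) := rfl
      _ ≤ ((∏ j ∈ range t, (1 + a / Kc N.κ (x j) (x (j + 1)))) * grn N ∅ (x 0) (x t)) *
          ((1 + a / Kc N.κ (x t) (x (t + 1))) * grn N ∅ (x t) (x (t + 1))) :=
          mul_le_mul_of_nonneg_right ih' (mul_nonneg hF hG2)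
      _ = (∏ j ∈ range t, (1 + a / Kc N.κ (x j) (x (j + 1)))) *
          (1 + a / Kc N.κ (x t) (x (t + 1))) *
          (grn N ∅ (x 0) (x t) * grn N ∅ (x t) (x (t + 1))) := by ring
      _ ≤ (∏ j ∈ range t, (1 + a / Kc N.κ (x j) (x (j + 1)))) *
          (1 + a / Kc N.κ (x t) (x (t + 1))) *
          (grn N ∅ (x 0) (x (t + 1)) * grn N ∅ (x t) (x t)) :=
          mul_le_mul_of_nonneg_left h2 (mul_nonneg hP hF)
      _ = _ := by ring

theorem grn_path' (N : Net V) {a : ℝ} (ha : 0 < a) (hcap : ∀ v, 1 / a ≤ grn N ∅ v v)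
    (x : ℕ → V) (t : ℕ) (hx : ∀ j < t, x j ≠ x (j + 1)) :
    grn N ∅ (x 0) (x 0) ≤
      (∏ j ∈ range t, (1 + a / Kc N.κ (x j) (x (j + 1)))) * grn N ∅ (x 0) (x t) := by
  have h1 := grn_path N ha hcap (fun j => x (t - j)) t (by
    intro j hj
    have h := hx (t - (j + 1)) (by omega)
    rw [show t - (j + 1) + 1 = t - j by omega] at h
    exact h.symm)
  simp only [Nat.sub_self, Nat.sub_zero] at h1
  rw [grn_symm N ∅ (x t) (x 0)] at h1
  have h2 : ∏ j ∈ range t, (1 + a / Kc N.κ (x (t - j)) (x (t - (j + 1)))) =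
      ∏ j ∈ range t, (1 + a / Kc N.κ (x j) (x (j + 1))) := by
    rw [← Finset.prod_range_reflect]
    refine Finset.prod_congr rfl fun j hj => ?_
    rw [Finset.mem_range] at hj
    rw [show t - (t - 1 - j) = j + 1 by omega, show t - (t - 1 - j + 1) = j by omega, Kc_symm]
  rw [h2] at h1
  exact h1

namespace Gap

/-- the energy of the Green function -/
lemma En_grn (E : BlkEnv V) {k : ℝ} (hk : 0 < k) (u : V) :
    En E.κ (fun x => grn (E.net k hk) ∅ x u) ≤ grn (E.net k hk) ∅ u u := by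
  have h1 := EB_grn (E.net k hk) (D := ∅) (fun x => grn (E.net k hk) ∅ x u)
    (fun x hx => absurd hx (Finset.notMem_empty x)) (Finset.notMem_empty u)
  rw [EB_self, Marks.EK_net] at h1
  have h2 : 0 ≤ ∑ m ∈ E.M, k * grn (E.net k hk) ∅ m u ^ 2 :=
    Finset.sum_nonneg fun x _ => mul_nonneg hk.le (sq_nonneg _)
  linarith

/-- one attachment -/
lemma one (E : BlkEnv V) {k : ℝ} (hk : 0 < k) {a : ℝ} (ha : 0 < a)
    (hcap : ∀ v, 1 / a ≤ grn (E.net k hk) ∅ v v) {ζ : Finset V} {u w g : V} {P : ℝ} (hP : 0 < P)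
    (hw : w ∈ ζ)
    (hu : grn (E.net k hk) ∅ u u ≤ P * grn (E.net k hk) ∅ w u)
    (hu' : grn (E.net k hk) ∅ w w ≤ P * grn (E.net k hk) ∅ w u)
    (hlow : ∀ f : V → ℝ, (f g - f u) ^ 2 ≤ 1 / (4 * a) * En E.κ f) :
    1 / (4 * a * P ^ 2) ≤ grn (E.net k hk) ∅ g g - grn (E.net k hk) ζ g g := by
  have h0 := gap_ge (E.net k hk) hw g
  refine le_trans ?_ h0
  have hEn := En_grn E hk u
  have h1 := hlow fun x => grn (E.net k hk) ∅ x u
  have h2 := grn_chain (E.net k hk) ∅ g u w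
  have hGu := grn_pos (E.net k hk) (Finset.notMem_empty u)
  have hGw := grn_pos (E.net k hk) (Finset.notMem_empty w)
  have hcu := hcap u
  have hs := grn_symm (E.net k hk) ∅ u w
  have hwu := grn_nonneg (E.net k hk) ∅ w u
  rw [hs] at h2
  generalize grn (E.net k hk) ∅ g u = Ggu at *
  generalize grn (E.net k hk) ∅ g w = Ggw at *
  generalize grn (E.net k hk) ∅ w u = Gwu at *
  generalize grn (E.net k hk) ∅ u u = Guu at *
  generalize grn (E.net k hk) ∅ w w = Gww at *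
  have h3 : (Ggu - Guu) ^ 2 ≤ (Guu / 2) ^ 2 := by
    calc (Ggu - Guu) ^ 2 ≤ 1 / (4 * a) * En E.κ (fun x => grn (E.net k hk) ∅ x u) := h1
      _ ≤ 1 / (4 * a) * Guu := mul_le_mul_of_nonneg_left hEn (by positivity)
      _ = (1 / a) * (Guu / 4) := by ring
      _ ≤ Guu * (Guu / 4) := mul_le_mul_of_nonneg_right hcu (by positivity)
      _ = _ := by ring
  have h4 : Guu / 2 ≤ Ggu := by
    have := abs_le_of_sq_le_sq' h3 (by positivity)
    linarith [this.1]
  have h5 : Gwu / 2 ≤ Ggw := by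
    have h6 : Guu * (Gwu / 2) ≤ Guu * Ggw := by
      calc Guu * (Gwu / 2) = Guu / 2 * Gwu := by ring
        _ ≤ Ggu * Gwu := mul_le_mul_of_nonneg_right h4 hwu
        _ ≤ Ggw * Guu := h2
        _ = Guu * Ggw := by ring
    exact le_of_mul_le_mul_left h6 hGu
  have h6 : Gww / (2 * P) ≤ Ggw := by
    rw [div_le_iff₀ (by positivity)]
    nlinarith
  have h7 : 1 / (2 * a * P) ≤ Ggw := by
    have h8 : 1 / a ≤ P * Gwu := hcu.trans hu
    rw [div_le_iff₀ (by positivity)]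
    rw [div_le_iff₀ ha] at h8
    have h9 : P * Gwu * a ≤ P * (2 * Ggw) * a :=
      mul_le_mul_of_nonneg_right (mul_le_mul_of_nonneg_left (by linarith) hP.le) ha.le
    nlinarith
  rw [le_div_iff₀ hGw]
  have h8 : 0 ≤ 1 / (2 * a * P) := by positivity
  calc 1 / (4 * a * P ^ 2) * Gww = (1 / (2 * a * P)) * (Gww / (2 * P)) := by
        field_simp
        ring
    _ ≤ Ggw * Ggw := mul_le_mul h7 h6 (by positivity) (h8.trans h7)
    _ = Ggw ^ 2 := by ring

end Gap

open Gap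

/-- many attachments give much killing -/
theorem BlkEnv.gap (E : BlkEnv V) {k : ℝ} (hk : 0 < k) {a : ℝ} (ha : 0 < a)
    (hcap : ∀ v, 1 / a ≤ grn (E.net k hk) ∅ v v) (ζ : Finset V) {ι : Type} (I : Finset ι)
    (B : ι → Finset V) (u w : ι → V) {s1 P : ℝ} (hs1 : 0 < s1) (hP : 0 < P)
    (hB : ∀ i ∈ I, B i ⊆ E.M) (hBs : ∀ i ∈ I, s1 ≤ (B i).card)
    (hdisj : ∀ i ∈ I, ∀ j ∈ I, i ≠ j → Disjoint (B i) (B j))
    (hw : ∀ i ∈ I, w i ∈ ζ)
    (hu : ∀ i ∈ I, grn (E.net k hk) ∅ (u i) (u i) ≤ P * grn (E.net k hk) ∅ (w i) (u i))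
    (hu' : ∀ i ∈ I, grn (E.net k hk) ∅ (w i) (w i) ≤ P * grn (E.net k hk) ∅ (w i) (u i))
    (hlow : ∀ i ∈ I, ∀ g ∈ B i, ∀ f : V → ℝ, (f g - f (u i)) ^ 2 ≤ 1 / (4 * a) * En E.κ f) :
    k * I.card * s1 / (8 * a * P ^ 2) ≤
      (∑ g, (E.net k hk).k g * (grn (E.net k hk) ∅ g g - grn (E.net k hk) ζ g g)) / 2 := by
  classical
  have hnn : ∀ g, 0 ≤ (E.net k hk).k g *
      (grn (E.net k hk) ∅ g g - grn (E.net k hk) ζ g g) := by
    intro g
    refine mul_nonneg ((E.net k hk).k_nonneg g) ?_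
    have := grn_anti (E.net k hk) (Finset.empty_subset ζ) g g
    linarith
  have hone : ∀ i ∈ I, ∀ g ∈ B i, k * (1 / (4 * a * P ^ 2)) ≤ (E.net k hk).k g *
      (grn (E.net k hk) ∅ g g - grn (E.net k hk) ζ g g) := by
    intro i hi g hg
    have h1 := one E hk ha hcap hP (hw i hi) (hu i hi) (hu' i hi) (hlow i hi g hg)
    have h2 : (E.net k hk).k g = k := if_pos (hB i hi hg)
    rw [h2]
    exact mul_le_mul_of_nonneg_left h1 hk.le
  have h1 : ∑ i ∈ I, ∑ _g ∈ B i, k * (1 / (4 * a * P ^ 2)) ≤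
      ∑ g, (E.net k hk).k g * (grn (E.net k hk) ∅ g g - grn (E.net k hk) ζ g g) := by
    calc ∑ i ∈ I, ∑ _g ∈ B i, k * (1 / (4 * a * P ^ 2))
        ≤ ∑ i ∈ I, ∑ g ∈ B i, (E.net k hk).k g *
          (grn (E.net k hk) ∅ g g - grn (E.net k hk) ζ g g) :=
          Finset.sum_le_sum fun i hi => Finset.sum_le_sum fun g hg => hone i hi g hg
      _ = ∑ g ∈ I.biUnion B, (E.net k hk).k g *
          (grn (E.net k hk) ∅ g g - grn (E.net k hk) ζ g g) := by
          rw [Finset.sum_biUnion]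
          intro i hi j hj hij
          exact hdisj i hi j hj hij
      _ ≤ _ := Finset.sum_le_sum_of_subset_of_nonneg (Finset.subset_univ _) fun g _ _ => hnn g
  have h2 : (I.card : ℝ) * (s1 * (k * (1 / (4 * a * P ^ 2)))) ≤
      ∑ i ∈ I, ∑ _g ∈ B i, k * (1 / (4 * a * P ^ 2)) := by
    rw [← nsmul_eq_mul, ← Finset.sum_const]
    refine Finset.sum_le_sum fun i hi => ?_
    rw [Finset.sum_const, nsmul_eq_mul]
    exact mul_le_mul_of_nonneg_right (hBs i hi) (by positivity)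
  have h3 : k * (I.card : ℝ) * s1 / (8 * a * P ^ 2) =
      ((I.card : ℝ) * (s1 * (k * (1 / (4 * a * P ^ 2))))) / 2 := by
    field_simp
    ring
  rw [h3]
  linarith

end

end Pool.Agent.TH972.U
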