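import Pool.Agent.TH972.U.Marks

/-!
# Hitting a set with many attachments
-/

set_option autoImplicit false
set_option linter.unusedSectionVars false

namespace Pool.Agent.TH972.U

open Finset

noncomputable section

variable {V : Type} [Fintype V] [DecidableEq V]

namespace Hit

/-- harmonicity of potentials -/
lemma harm (N : Net V) {D : Finset V} {x : V} (hx : x ∉ D) (g : V → ℝ) :
    (cs N.κ x + N.k x) * ∑ y, grn N D x y * g y =
      (if x ∈ D then 0 else g x) + ∑ w, Kc N.κ x w * ∑ y, grn N D w y * g y := by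
  have h1 : ∀ y, (cs N.κ x + N.k x) * grn N D x y =
      (if x = y then 1 else 0) + ∑ w, Kc N.κ x w * grn N D w y := by
    intro y
    by_cases hy : y ∈ D
    · have hxy : x ≠ y := fun h => hx (h ▸ hy)
      rw [grn_right N x hy, mul_zero, if_neg hxy, zero_add]
      exact (Finset.sum_eq_zero fun w _ => by rw [grn_right N w hy, mul_zero]).symm
    · exact grn_eq N hx hy
  have h2 : (cs N.κ x + N.k x) * ∑ y, grn N D x y * g y =
      ∑ y, ((if x = y then g y else 0) + ∑ w, Kc N.κ x w * (grn N D w y * g y)) := by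
    rw [Finset.mul_sum]
    apply Finset.sum_congr rfl
    intro y _
    rw [← mul_assoc, h1, add_mul, Finset.sum_mul]
    congr 1
    · split_ifs <;> ring
    · exact Finset.sum_congr rfl fun w _ => by ring
  rw [h2, if_neg hx, Finset.sum_add_distrib, Finset.sum_ite_eq, if_pos (mem_univ x),
    Finset.sum_comm]
  congr 1
  apply Finset.sum_congr rfl
  intro w _
  rw [Finset.mul_sum]

/-- sums with the killing of the marks -/
lemma sum_k (E : BlkEnv V) {k : ℝ} (hk : 0 < k) (f : V → ℝ) :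
    ∑ x, (E.net k hk).k x * f x = ∑ x ∈ E.M, k * f x := by
  have h : ∀ x, (E.net k hk).k x * f x = if x ∈ E.M then k * f x else 0 := by
    intro x
    show (if x ∈ E.M then k else 0) * _ = _
    split_ifs <;> ring
  rw [Finset.sum_congr rfl fun x _ => h x, Finset.sum_ite_mem, Finset.univ_inter]

/-- the energy of the survival probability -/
lemma En_surv (E : BlkEnv V) {k : ℝ} (hk : 0 < k) (A : Finset V) :
    En E.κ (surv (E.net k hk) A) ≤ k * E.M.card / 4 := by
  have h1 : EB (E.net k hk) (surv (E.net k hk) A) (surv (E.net k hk) A) =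
      ∑ x, (E.net k hk).k x * surv (E.net k hk) A x := by
    rw [Grn2.EB_eq]
    refine Finset.sum_congr rfl fun x _ => ?_
    by_cases hx : x ∈ A
    · rw [surv_mem _ hx]
      ring
    · rw [surv_harm _ hx]
      ring
  rw [EB_self, Marks.EK_net, sum_k] at h1
  have h2 : ∀ x ∈ E.M, k * surv (E.net k hk) A x ≤ k * surv (E.net k hk) A x ^ 2 + k / 4 := by
    intro x _
    nlinarith [mul_nonneg hk.le (sq_nonneg (surv (E.net k hk) A x - 1 / 2))]
  have h3 := Finset.sum_le_sum h2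
  rw [Finset.sum_add_distrib, Finset.sum_const, nsmul_eq_mul] at h3
  have h4 : (E.M.card : ℝ) * (k / 4) = k * E.M.card / 4 := by ring
  linarith

/-- the survival probability as a potential for more killing -/
lemma surv_rep (E : BlkEnv V) {k : ℝ} (hk : 0 < k) (hk8 : 0 < 8 * k) (A : Finset V) (z : V) :
    surv (E.net k hk) A z =
      ∑ y ∈ E.M, (grn (E.net (8 * k) hk8) A z y * (8 * k)) *
        (1 / 8 + 7 / 8 * surv (E.net k hk) A y) := by
  obtain ⟨g, hg⟩ : ∃ g : V → ℝ, g = fun y => (E.net k hk).k y *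
    (1 + 7 * surv (E.net k hk) A y) := ⟨_, rfl⟩
  have hk8x : ∀ x, (E.net (8 * k) hk8).k x = 8 * (E.net k hk).k x := by
    intro x
    show (if x ∈ E.M then 8 * k else 0) = 8 * (if x ∈ E.M then k else 0)
    split_ifs <;> ring
  have h1 := Grn.uniq (E.net (8 * k) hk8) A
    (fun x => surv (E.net k hk) A x - ∑ y, grn (E.net (8 * k) hk8) A x y * g y)
    (fun x hx => by
      rw [surv_mem _ hx, Finset.sum_eq_zero fun y _ => by rw [grn_left _ y hx, zero_mul],
        sub_zero])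
    (fun x hx => by
      have e1 := harm (E.net (8 * k) hk8) hx g
      have e2 := surv_harm (E.net k hk) hx
      rw [if_neg hx] at e1
      have e3 : ∑ w, Kc (E.net (8 * k) hk8).κ x w * (surv (E.net k hk) A w -
          ∑ y, grn (E.net (8 * k) hk8) A w y * g y) =
          ∑ w, Kc (E.net k hk).κ x w * surv (E.net k hk) A w -
          ∑ w, Kc (E.net (8 * k) hk8).κ x w * ∑ y, grn (E.net (8 * k) hk8) A w y * g y := by
        rw [← Finset.sum_sub_distrib]
        refine Finset.sum_congr rfl fun w _ => ?_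
        rw [mul_sub]
        rfl
      have e4 : cs (E.net (8 * k) hk8).κ x = cs (E.net k hk).κ x := rfl
      have e5 : g x = (E.net k hk).k x * (1 + 7 * surv (E.net k hk) A x) := by rw [hg]
      rw [e3, mul_sub, e1, hk8x, e4, e5]
      linear_combination e2) z
  have h2 : surv (E.net k hk) A z = ∑ y, grn (E.net (8 * k) hk8) A z y * g y := by linarith
  rw [h2]
  have h3 : ∀ y, grn (E.net (8 * k) hk8) A z y * g y = (E.net k hk).k y *
      (grn (E.net (8 * k) hk8) A z y * (1 + 7 * surv (E.net k hk) A y)) := by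
    intro y
    rw [hg]
    ring
  rw [Finset.sum_congr rfl fun y _ => h3 y, sum_k]
  refine Finset.sum_congr rfl fun y _ => ?_
  ring

end Hit

open Hit

/-- a set `A` with many attachments is hit before the killing -/
theorem BlkEnv.hit (E : BlkEnv V) {k : ℝ} (hk : 0 < k) (A : Finset V) {ι : Type} (I : Finset ι)
    (B Z : ι → Finset V) {s1 R : ℝ} (hs1 : 0 < s1) (hR : 0 ≤ R) (hI : 0 < I.card)
    (hB : ∀ i ∈ I, B i ⊆ E.M) (hBs : ∀ i ∈ I, s1 ≤ (B i).card)
    (hatt : ∀ i ∈ I, ∀ f : V → ℝ, (∀ x ∈ A, f x = 0) → ∀ g ∈ B i,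
      f g ^ 2 ≤ R * EnIn E.κ (Z i) f)
    (hdisj : ∀ i ∈ I, ∀ j ∈ I, i ≠ j → Disjoint (B i) (B j))
    (hZ : ∀ f : V → ℝ, ∑ i ∈ I, EnIn E.κ (Z i) f ≤ En E.κ f)
    (hQ : 1 ≤ k * E.M.card)
    (h1 : 128 * (k * E.M.card) * (R + E.smax * E.C / s1) ≤ I.card)
    (h2 : 512 * k * (k * E.M.card) * (1 + 40 * (E.C + E.ρb)) * (E.smax * E.C) ≤ 1) :
    ∀ z ∈ E.M, surv (E.net k hk) A z ≤ 1 / 4 := by
  classical
  intro z hz
  have hk8 : 0 < 8 * k := by positivity
  have hC := E.C_pos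
  have hρb := E.ρb_pos
  have hsm := Marks.smax_nonneg E
  have hI' : (0 : ℝ) < (I.card : ℝ) := by exact_mod_cast hI
  obtain ⟨w, hw⟩ : ∃ w : V → ℝ, w = surv (E.net k hk) A := ⟨_, rfl⟩
  have hEn : En E.κ w ≤ k * E.M.card / 4 := by
    rw [hw]
    exact En_surv E hk A
  have hwA : ∀ x ∈ A, w x = 0 := fun x hx => by
    rw [hw]
    exact surv_mem _ hx
  obtain ⟨c, hc⟩ := E.marks w
  have hc' : ∑ m ∈ E.M, (w m - c) ^ 2 ≤ E.smax * E.C * (k * E.M.card / 4) :=
    hc.trans (mul_le_mul_of_nonneg_left hEn (mul_nonneg hsm hC.le))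
  -- the constant is small
  have hcc : c ^ 2 ≤ 1 / 256 := by
    have g1 : ∀ i ∈ I, c ^ 2 ≤ 2 * R * EnIn E.κ (Z i) w +
        2 / s1 * ∑ g ∈ B i, (w g - c) ^ 2 := by
      intro i hi
      have hBi : 0 < ((B i).card : ℝ) := lt_of_lt_of_le hs1 (hBs i hi)
      have g2 : ∑ _g ∈ B i, c ^ 2 ≤ ∑ g ∈ B i, (2 * R * EnIn E.κ (Z i) w +
          2 * (w g - c) ^ 2) := by
        refine Finset.sum_le_sum fun g hg => ?_
        have g3 := hatt i hi w hwA g hg
        nlinarith [sq_nonneg (w g + (w g - c))]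
      rw [Finset.sum_const, nsmul_eq_mul, Finset.sum_add_distrib, Finset.sum_const, nsmul_eq_mul,
        ← Finset.mul_sum] at g2
      have g4 : 0 ≤ ∑ g ∈ B i, (w g - c) ^ 2 := Finset.sum_nonneg fun g _ => sq_nonneg _
      have g5 : ∑ g ∈ B i, (w g - c) ^ 2 ≤
          ((B i).card : ℝ) * (1 / s1 * ∑ g ∈ B i, (w g - c) ^ 2) := by
        have g6 : 1 ≤ ((B i).card : ℝ) * (1 / s1) := by
          rw [mul_one_div, le_div_iff₀ hs1, one_mul]
          exact hBs i hi
        calc ∑ g ∈ B i, (w g - c) ^ 2 = 1 * ∑ g ∈ B i, (w g - c) ^ 2 := by ring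
          _ ≤ ((B i).card : ℝ) * (1 / s1) * ∑ g ∈ B i, (w g - c) ^ 2 :=
              mul_le_mul_of_nonneg_right g6 g4
          _ = _ := by ring
      refine le_of_mul_le_mul_left ?_ hBi
      calc ((B i).card : ℝ) * c ^ 2 ≤ ((B i).card : ℝ) * (2 * R * EnIn E.κ (Z i) w) +
            2 * ∑ g ∈ B i, (w g - c) ^ 2 := g2
        _ ≤ ((B i).card : ℝ) * (2 * R * EnIn E.κ (Z i) w) +
            2 * (((B i).card : ℝ) * (1 / s1 * ∑ g ∈ B i, (w g - c) ^ 2)) := by linarith
        _ = _ := by ring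
    have g2 := Finset.sum_le_sum g1
    rw [Finset.sum_const, nsmul_eq_mul, Finset.sum_add_distrib, ← Finset.mul_sum,
      ← Finset.mul_sum] at g2
    have g3 : ∑ i ∈ I, ∑ g ∈ B i, (w g - c) ^ 2 ≤ ∑ m ∈ E.M, (w m - c) ^ 2 := by
      rw [← Finset.sum_biUnion (fun i hi j hj hij => hdisj i hi j hj hij)]
      refine Finset.sum_le_sum_of_subset_of_nonneg ?_ fun m _ _ => sq_nonneg _
      intro m hm
      obtain ⟨i, hi, hmi⟩ := Finset.mem_biUnion.mp hm
      exact hB i hi hmi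
    have g4 := (hZ w).trans hEn
    have g5 : (I.card : ℝ) * c ^ 2 ≤ (I.card : ℝ) * (1 / 256) := by
      calc (I.card : ℝ) * c ^ 2 ≤ 2 * R * ∑ i ∈ I, EnIn E.κ (Z i) w +
            2 / s1 * ∑ i ∈ I, ∑ g ∈ B i, (w g - c) ^ 2 := g2
        _ ≤ 2 * R * (k * E.M.card / 4) +
            2 / s1 * (E.smax * E.C * (k * E.M.card / 4)) :=
            add_le_add (mul_le_mul_of_nonneg_left g4 (by positivity))
              (mul_le_mul_of_nonneg_left (g3.trans hc') (by positivity))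
        _ = 128 * (k * E.M.card) * (R + E.smax * E.C / s1) * (1 / 256) := by ring
        _ ≤ (I.card : ℝ) * (1 / 256) := mul_le_mul_of_nonneg_right h1 (by norm_num)
    exact le_of_mul_le_mul_left g5 hI'
  -- the weights
  obtain ⟨ρ, hρ⟩ : ∃ ρ : V → ℝ, ρ = fun y => grn (E.net (8 * k) hk8) A z y * (8 * k) := ⟨_, rfl⟩
  have hρ0 : ∀ y, 0 ≤ ρ y := fun y => by
    rw [hρ]
    exact mul_nonneg (grn_nonneg _ A z y) hk8.le
  have hsum : ∑ y ∈ E.M, ρ y ≤ 1 := by
    have g1 := surv_le_one (E.net (8 * k) hk8) A z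
    have g2 : surv (E.net (8 * k) hk8) A z = ∑ y ∈ E.M, ρ y := by
      unfold surv
      have g3 : ∀ y, grn (E.net (8 * k) hk8) A z y * (E.net (8 * k) hk8).k y =
          (E.net (8 * k) hk8).k y * grn (E.net (8 * k) hk8) A z y := fun y => by ring
      rw [Finset.sum_congr rfl fun y _ => g3 y, sum_k]
      refine Finset.sum_congr rfl fun y _ => ?_
      rw [hρ]
      ring
    linarith
  have hrep : w z = ∑ y ∈ E.M, ρ y * (1 / 8 + 7 / 8 * w y) := by
    rw [hw, hρ]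
    exact surv_rep E hk hk8 A z
  have hT : ∀ y, ρ y ≤ 8 * k * (1 + 40 * (E.C + E.ρb)) := by
    intro y
    have g1 : grn (E.net (8 * k) hk8) A z y ≤ grn (E.net (8 * k) hk8) ∅ z z := by
      rw [grn_symm]
      exact (grn_le_diag _ A y z).trans (grn_anti _ (Finset.empty_subset A) z z)
    have g2 := E.grn_good hk8 (E.M_good hz)
    have g3 : 5 / (4 * (8 * k * (E.M.card : ℝ))) ≤ 1 := by
      rw [div_le_one (by nlinarith)]
      nlinarith
    have g4 : grn (E.net (8 * k) hk8) A z y ≤ 1 + 40 * (E.C + E.ρb) := by linarith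
    rw [hρ]
    calc grn (E.net (8 * k) hk8) A z y * (8 * k) ≤ (1 + 40 * (E.C + E.ρb)) * (8 * k) :=
          mul_le_mul_of_nonneg_right g4 hk8.le
      _ = _ := by ring
  have hsq : ∑ y ∈ E.M, ρ y ^ 2 ≤ 8 * k * (1 + 40 * (E.C + E.ρb)) := by
    have hT0 : 0 ≤ 8 * k * (1 + 40 * (E.C + E.ρb)) := by positivity
    calc ∑ y ∈ E.M, ρ y ^ 2 ≤ ∑ y ∈ E.M, (8 * k * (1 + 40 * (E.C + E.ρb))) * ρ y :=
          Finset.sum_le_sum fun y _ => by
            rw [pow_two]
            exact mul_le_mul_of_nonneg_right (hT y) (hρ0 y)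
      _ = (8 * k * (1 + 40 * (E.C + E.ρb))) * ∑ y ∈ E.M, ρ y := by rw [Finset.mul_sum]
      _ ≤ (8 * k * (1 + 40 * (E.C + E.ρb))) * 1 := mul_le_mul_of_nonneg_left hsum hT0
      _ = _ := mul_one _
  have hcs : (∑ y ∈ E.M, ρ y * (w y - c)) ^ 2 ≤ 1 / 256 := by
    calc (∑ y ∈ E.M, ρ y * (w y - c)) ^ 2
        ≤ (∑ y ∈ E.M, ρ y ^ 2) * ∑ y ∈ E.M, (w y - c) ^ 2 :=
          Finset.sum_mul_sq_le_sq_mul_sq _ _ _
      _ ≤ (8 * k * (1 + 40 * (E.C + E.ρb))) * (E.smax * E.C * (k * E.M.card / 4)) :=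
          mul_le_mul hsq hc' (Finset.sum_nonneg fun y _ => sq_nonneg _) (by positivity)
      _ = 512 * k * (k * E.M.card) * (1 + 40 * (E.C + E.ρb)) * (E.smax * E.C) * (1 / 256) := by
          ring
      _ ≤ 1 * (1 / 256) := mul_le_mul_of_nonneg_right h2 (by norm_num)
      _ = _ := one_mul _
  have b1 : c ≤ 1 / 16 := by
    by_contra hcon
    rw [not_le] at hcon
    nlinarith
  have b2 : ∑ y ∈ E.M, ρ y * (w y - c) ≤ 1 / 16 := by
    by_contra hcon
    rw [not_le] at hcon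
    nlinarith
  have hs0 : 0 ≤ ∑ y ∈ E.M, ρ y := Finset.sum_nonneg fun y _ => hρ0 y
  have e : ∑ y ∈ E.M, ρ y * (1 / 8 + 7 / 8 * w y) =
      1 / 8 * ∑ y ∈ E.M, ρ y + 7 / 8 * (c * ∑ y ∈ E.M, ρ y + ∑ y ∈ E.M, ρ y * (w y - c)) := by
    rw [Finset.mul_sum, Finset.mul_sum, ← Finset.sum_add_distrib, Finset.mul_sum,
      ← Finset.sum_add_distrib]
    refine Finset.sum_congr rfl fun y _ => ?_
    ring
  have b3 : c * ∑ y ∈ E.M, ρ y ≤ 1 / 16 := by
    calc c * ∑ y ∈ E.M, ρ y ≤ 1 / 16 * ∑ y ∈ E.M, ρ y := mul_le_mul_of_nonneg_right b1 hs0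
      _ ≤ 1 / 16 * 1 := mul_le_mul_of_nonneg_left hsum (by norm_num)
      _ = _ := mul_one _
  have hfin : w z ≤ 1 / 4 := by
    rw [hrep, e]
    linarith
  rw [hw] at hfin
  exact hfin

end

end Pool.Agent.TH972.U
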