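import Pool.Agent.TH972.U.Rch

/-!
# The bush exploration: locality and structure
-/

set_option autoImplicit false
set_option linter.unusedSectionVars false

namespace Pool.Agent.TH972.U

open Finset MeasureTheory Pool.Agent.W842.RST Pool.Agent.TH972

noncomputable section

variable {n : ℕ}

namespace Bush

theorem mem_nbr {p : ℝ} {U : Ev n} {v u : Fin n} {F : Finset (Fin n)} :
    u ∈ nbr p U v F ↔ u ∈ F ∧ U s(v, u) ≤ p := by
  unfold nbr
  rw [mem_filter]

theorem nbr_subset (p : ℝ) (U : Ev n) (v : Fin n) (F : Finset (Fin n)) : nbr p U v F ⊆ F :=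
  fun _ hu => (mem_nbr.1 hu).1

theorem nbr_mono {p p' : ℝ} (h : p ≤ p') (U : Ev n) (v : Fin n) (F : Finset (Fin n)) :
    nbr p U v F ⊆ nbr p' U v F :=
  fun _ hu => mem_nbr.2 ⟨(mem_nbr.1 hu).1, (mem_nbr.1 hu).2.trans h⟩

theorem nbr_congr {p : ℝ} {U U' : Ev n} {v : Fin n} {F : Finset (Fin n)}
    (h : ∀ b ∈ F, (U s(v, b) ≤ p ↔ U' s(v, b) ≤ p)) : nbr p U' v F = nbr p U v F := by
  ext u
  rw [mem_nbr, mem_nbr]
  constructor
  · rintro ⟨h1, h2⟩; exact ⟨h1, (h u h1).2 h2⟩
  · rintro ⟨h1, h2⟩; exact ⟨h1, (h u h1).1 h2⟩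

/-- the new stack -/
def nst (N H : Finset (Fin n)) (h : ℕ) (rest : List (Fin n × ℕ)) : List (Fin n × ℕ) :=
  N.toList.map (fun u => (u, h)) ++ H.toList.map (fun u => (u, h + 1)) ++ rest

theorem mem_nst {N H : Finset (Fin n)} {h : ℕ} {rest : List (Fin n × ℕ)} {w : Fin n × ℕ} :
    w ∈ nst N H h rest ↔ (w.1 ∈ N ∧ w.2 = h) ∨ (w.1 ∈ H ∧ w.2 = h + 1) ∨ w ∈ rest := by
  unfold nst
  simp only [List.mem_append, List.mem_map, Finset.mem_toList]
  constructor
  · rintro ((⟨a, ha, rfl⟩ | ⟨a, ha, rfl⟩) | h)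
    · exact Or.inl ⟨ha, rfl⟩
    · exact Or.inr (Or.inl ⟨ha, rfl⟩)
    · exact Or.inr (Or.inr h)
  · rintro (⟨h1, h2⟩ | ⟨h1, h2⟩ | h)
    · exact Or.inl (Or.inl ⟨w.1, h1, by rw [← h2]⟩)
    · exact Or.inl (Or.inr ⟨w.1, h1, by rw [← h2]⟩)
    · exact Or.inr h

variable {pl pt pb : ℝ} {s1 s0 J : ℕ} {U U' : Ev n}

theorem bsh_step {k h : ℕ} {v : Fin n} {rest : List (Fin n × ℕ)} {F : Finset (Fin n)}
    (hh : h < J) : bsh pl pt pb s1 s0 J U (k + 1) ((v, h) :: rest) F =
      (nbr pt U v F ∪ (bsh pl pt pb s1 s0 J U k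
        (nst (nbr pl U v F) (nbr pt U v F \ nbr pl U v F) h rest) (F \ nbr pt U v F)).1,
       (bsh pl pt pb s1 s0 J U k
        (nst (nbr pl U v F) (nbr pt U v F \ nbr pl U v F) h rest) (F \ nbr pt U v F)).2) := by
  rw [bsh, if_neg (not_le.2 hh)]
  rfl

theorem bsh_ok {k h : ℕ} {v : Fin n} {rest : List (Fin n × ℕ)} {F : Finset (Fin n)}
    (hh : J ≤ h) (hm : mk pl pb s1 s0 U v F) :
    bsh pl pt pb s1 s0 J U (k + 1) ((v, h) :: rest) F =
      ((rch pb U {v} F).erase v, some v) := by
  rw [bsh, if_pos hh, if_pos hm]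

theorem bsh_no {k h : ℕ} {v : Fin n} {rest : List (Fin n × ℕ)} {F : Finset (Fin n)}
    (hh : J ≤ h) (hm : ¬ mk pl pb s1 s0 U v F) :
    bsh pl pt pb s1 s0 J U (k + 1) ((v, h) :: rest) F =
      ((rch pb U {v} F).erase v ∪ (bsh pl pt pb s1 s0 J U k rest (F \ rch pb U {v} F)).1,
       (bsh pl pt pb s1 s0 J U k rest (F \ rch pb U {v} F)).2) := by
  rw [bsh, if_pos hh, if_neg hm]

theorem bsh_zero {st : List (Fin n × ℕ)} {F : Finset (Fin n)} :
    bsh pl pt pb s1 s0 J U 0 st F = (∅, none) := by
  rw [bsh]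

theorem bsh_nil {k : ℕ} {F : Finset (Fin n)} :
    bsh pl pt pb s1 s0 J U k [] F = (∅, none) := by
  cases k <;> rw [bsh]

theorem rch_erase_subset (p : ℝ) (U : Ev n) (v : Fin n) (F : Finset (Fin n)) :
    (rch p U {v} F).erase v ⊆ F := by
  intro u hu
  rw [mem_erase] at hu
  have := rch_subset p U {v} F hu.2
  rw [mem_union, mem_singleton] at this
  rcases this with h | h
  · exact absurd h hu.1
  · exact h

theorem bsh_subset (k : ℕ) : ∀ (st : List (Fin n × ℕ)) (F : Finset (Fin n)),
    (bsh pl pt pb s1 s0 J U k st F).1 ⊆ F := by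
  induction k with
  | zero => intro st F; rw [bsh_zero]; exact empty_subset _
  | succ k ih =>
    intro st F
    rcases st with _ | ⟨⟨v, h⟩, rest⟩
    · rw [bsh_nil]; exact empty_subset _
    · by_cases hh : J ≤ h
      · by_cases hm : mk pl pb s1 s0 U v F
        · rw [bsh_ok hh hm]
          exact rch_erase_subset _ _ _ _
        · rw [bsh_no hh hm]
          exact union_subset (rch_erase_subset _ _ _ _) ((ih _ _).trans sdiff_subset)
      · rw [bsh_step (not_le.1 hh)]
        exact union_subset (nbr_subset _ _ _ _) ((ih _ _).trans sdiff_subset)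

/-- coarse locality -/
theorem loc_coarse (hlt : pl ≤ pt) (k : ℕ) : ∀ (st : List (Fin n × ℕ)) (F : Finset (Fin n)),
    (∀ w ∈ st, w.1 ∉ F) →
    (∀ a, ((∃ w ∈ st, w.1 = a) ∨ a ∈ F) → ∀ b ∈ F, ∀ p ∈ ({pl, pt, pb} : Finset ℝ),
      (U s(a, b) ≤ p ↔ U' s(a, b) ≤ p)) →
    bsh pl pt pb s1 s0 J U' k st F = bsh pl pt pb s1 s0 J U k st F := by
  induction k with
  | zero => intro st F _ _; rw [bsh_zero, bsh_zero]
  | succ k ih =>
    intro st F hst h
    rcases st with _ | ⟨⟨v, i⟩, rest⟩
    · rw [bsh_nil, bsh_nil]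
    · have hv : v ∉ F := hst (v, i) List.mem_cons_self
      have hdis : Disjoint {v} F := by rwa [disjoint_singleton_left]
      by_cases hh : J ≤ i
      · have hr : ∀ p ∈ ({pl, pt, pb} : Finset ℝ), rch p U' {v} F = rch p U {v} F := by
          intro p hp
          refine rch_local p hdis fun a ha b hb => ?_
          refine h a ?_ b hb p hp
          have := rch_subset p U {v} F ha
          rw [mem_union, mem_singleton] at this
          rcases this with h1 | h1
          · exact Or.inl ⟨(v, i), List.mem_cons_self, h1.symm⟩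
          · exact Or.inr h1
        have hpl := hr pl (by simp)
        have hpb := hr pb (by simp)
        have hmk : mk pl pb s1 s0 U' v F ↔ mk pl pb s1 s0 U v F := by
          unfold mk
          rw [hpl, hpb]
        by_cases hm : mk pl pb s1 s0 U v F
        · rw [bsh_ok hh hm, bsh_ok hh (hmk.2 hm), hpb]
        · rw [bsh_no hh hm, bsh_no hh (fun h1 => hm (hmk.1 h1)), hpb]
          rw [ih]
          · intro w hw hwF
            exact hst w (List.mem_cons_of_mem _ hw) (sdiff_subset hwF)
          · intro a ha b hb p hp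
            refine h a ?_ b (sdiff_subset hb) p hp
            rcases ha with ⟨w, hw, rfl⟩ | ha
            · exact Or.inl ⟨w, List.mem_cons_of_mem _ hw, rfl⟩
            · exact Or.inr (sdiff_subset ha)
      · have hv' : ∃ w ∈ ((v, i) :: rest : List (Fin n × ℕ)), w.1 = v :=
          ⟨(v, i), List.mem_cons_self, rfl⟩
        have h1 : nbr pl U' v F = nbr pl U v F :=
          nbr_congr fun b hb => h v (Or.inl hv') b hb pl (by simp)
        have h2 : nbr pt U' v F = nbr pt U v F :=
          nbr_congr fun b hb => h v (Or.inl hv') b hb pt (by simp)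
        rw [bsh_step (not_le.1 hh), bsh_step (not_le.1 hh), h1, h2]
        have hsub := nbr_subset pt U v F
        rw [ih]
        · intro w hw hwF
          rw [mem_sdiff] at hwF
          rcases mem_nst.1 hw with ⟨h3, -⟩ | ⟨h3, -⟩ | h3
          · exact hwF.2 (nbr_mono hlt U v F h3)
          · exact hwF.2 (mem_sdiff.1 h3).1
          · exact hst w (List.mem_cons_of_mem _ h3) hwF.1
        · intro a ha b hb p hp
          refine h a ?_ b (sdiff_subset hb) p hp
          rcases ha with ⟨w, hw, rfl⟩ | ha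
          · rcases mem_nst.1 hw with ⟨h3, -⟩ | ⟨h3, -⟩ | h3
            · exact Or.inr (nbr_subset pl U v F h3)
            · exact Or.inr (nbr_subset pt U v F (mem_sdiff.1 h3).1)
            · exact Or.inl ⟨w, List.mem_cons_of_mem _ h3, rfl⟩
          · exact Or.inr (sdiff_subset ha)

/-- fine locality -/
theorem loc_fine (hlt : pl ≤ pt) (hlb : pl ≤ pb) (k : ℕ) :
    ∀ (st : List (Fin n × ℕ)) (F : Finset (Fin n)),
    (∀ w ∈ st, w.1 ∉ F) →
    (∀ a, ((∃ w ∈ st, w.1 = a) ∨ a ∈ (bsh pl pt pb s1 s0 J U k st F).1) →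
      ∀ b ∈ F, ∀ p ∈ ({pl, pt, pb} : Finset ℝ), (U s(a, b) ≤ p ↔ U' s(a, b) ≤ p)) →
    bsh pl pt pb s1 s0 J U' k st F = bsh pl pt pb s1 s0 J U k st F := by
  induction k with
  | zero => intro st F _ _; rw [bsh_zero, bsh_zero]
  | succ k ih =>
    intro st F hst h
    rcases st with _ | ⟨⟨v, i⟩, rest⟩
    · rw [bsh_nil, bsh_nil]
    · have hv : v ∉ F := hst (v, i) List.mem_cons_self
      have hdis : Disjoint {v} F := by rwa [disjoint_singleton_left]
      by_cases hh : J ≤ i
      · have hsubR : (rch pb U {v} F).erase v ⊆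
            (bsh pl pt pb s1 s0 J U (k + 1) ((v, i) :: rest) F).1 := by
          by_cases hm : mk pl pb s1 s0 U v F
          · rw [bsh_ok hh hm]
          · rw [bsh_no hh hm]
            exact subset_union_left
        have hr : ∀ p ∈ ({pl, pt, pb} : Finset ℝ), p ≤ pb →
            rch p U' {v} F = rch p U {v} F := by
          intro p hp hle
          refine rch_local p hdis fun a ha b hb => ?_
          refine h a ?_ b hb p hp
          have h1 := rch_mono hle U (Finset.Subset.refl {v}) (Finset.Subset.refl _) ha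
          by_cases hav : a = v
          · exact Or.inl ⟨(v, i), List.mem_cons_self, hav.symm⟩
          · exact Or.inr (hsubR (mem_erase.2 ⟨hav, h1⟩))
        have hpl := hr pl (by simp) hlb
        have hpb := hr pb (by simp) le_rfl
        have hmk : mk pl pb s1 s0 U' v F ↔ mk pl pb s1 s0 U v F := by
          unfold mk
          rw [hpl, hpb]
        by_cases hm : mk pl pb s1 s0 U v F
        · rw [bsh_ok hh hm, bsh_ok hh (hmk.2 hm), hpb]
        · rw [bsh_no hh hm] at h
          rw [bsh_no hh hm, bsh_no hh (fun h1 => hm (hmk.1 h1)), hpb]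
          rw [ih]
          · intro w hw hwF
            exact hst w (List.mem_cons_of_mem _ hw) (sdiff_subset hwF)
          · intro a ha b hb p hp
            refine h a ?_ b (sdiff_subset hb) p hp
            rcases ha with ⟨w, hw, rfl⟩ | ha
            · exact Or.inl ⟨w, List.mem_cons_of_mem _ hw, rfl⟩
            · exact Or.inr (mem_union_right _ ha)
      · have hv' : ∃ w ∈ ((v, i) :: rest : List (Fin n × ℕ)), w.1 = v :=
          ⟨(v, i), List.mem_cons_self, rfl⟩
        have h1 : nbr pl U' v F = nbr pl U v F :=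
          nbr_congr fun b hb => h v (Or.inl hv') b hb pl (by simp)
        have h2 : nbr pt U' v F = nbr pt U v F :=
          nbr_congr fun b hb => h v (Or.inl hv') b hb pt (by simp)
        rw [bsh_step (not_le.1 hh)] at h
        rw [bsh_step (not_le.1 hh), bsh_step (not_le.1 hh), h1, h2]
        have hsub := nbr_subset pt U v F
        rw [ih]
        · intro w hw hwF
          rw [mem_sdiff] at hwF
          rcases mem_nst.1 hw with ⟨h3, -⟩ | ⟨h3, -⟩ | h3
          · exact hwF.2 (nbr_mono hlt U v F h3)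
          · exact hwF.2 (mem_sdiff.1 h3).1
          · exact hst w (List.mem_cons_of_mem _ h3) hwF.1
        · intro a ha b hb p hp
          refine h a ?_ b (sdiff_subset hb) p hp
          rcases ha with ⟨w, hw, rfl⟩ | ha
          · rcases mem_nst.1 hw with ⟨h3, -⟩ | ⟨h3, -⟩ | h3
            · exact Or.inr (mem_union_left _ (nbr_mono hlt U v F h3))
            · exact Or.inr (mem_union_left _ (mem_sdiff.1 h3).1)
            · exact Or.inl ⟨w, List.mem_cons_of_mem _ h3, rfl⟩
          · exact Or.inr (mem_union_right _ ha)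

/-- the functions of the exploration depend on the comparisons only -/
theorem bsh_lvl (h : lvlEq {pl, pt, pb} U U') (k : ℕ) :
    ∀ (st : List (Fin n × ℕ)) (F : Finset (Fin n)),
    bsh pl pt pb s1 s0 J U' k st F = bsh pl pt pb s1 s0 J U k st F := by
  have hr : ∀ p ∈ ({pl, pt, pb} : Finset ℝ), ∀ A F : Finset (Fin n),
      rch p U' A F = rch p U A F := by
    intro p hp A F
    refine (rch_lvl p A F fun e q hq => ?_).symm
    rw [mem_singleton] at hq
    rw [hq]
    exact h e p hp
  have hn : ∀ p ∈ ({pl, pt, pb} : Finset ℝ), ∀ (v : Fin n) (F : Finset (Fin n)),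
      nbr p U' v F = nbr p U v F := fun p hp v F => nbr_congr fun b _ => h _ p hp
  induction k with
  | zero => intro st F; rw [bsh_zero, bsh_zero]
  | succ k ih =>
    intro st F
    rcases st with _ | ⟨⟨v, i⟩, rest⟩
    · rw [bsh_nil, bsh_nil]
    · by_cases hh : J ≤ i
      · have hmk : mk pl pb s1 s0 U' v F ↔ mk pl pb s1 s0 U v F := by
          unfold mk
          rw [hr pl (by simp), hr pb (by simp)]
        by_cases hm : mk pl pb s1 s0 U v F
        · rw [bsh_ok hh hm, bsh_ok hh (hmk.2 hm), hr pb (by simp)]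
        · rw [bsh_no hh hm, bsh_no hh (fun h1 => hm (hmk.1 h1)), hr pb (by simp), ih]
      · rw [bsh_step (not_le.1 hh), bsh_step (not_le.1 hh), hn pl (by simp), hn pt (by simp), ih]

end Bush

open Bush

/-- locality of the bush -/
theorem bush_local {pl pt pb : ℝ} {s1 s0 J : ℕ} (hlt : pl ≤ pt) (hlb : pl ≤ pb) {U U' : Ev n}
    {v : Fin n} {F : Finset (Fin n)} (hv : v ∉ F)
    (h : ∀ a ∈ insert v (bush pl pt pb s1 s0 J U v F).1, ∀ b ∈ F, ∀ p ∈ ({pl, pt, pb} : Finset ℝ),
      (U s(a, b) ≤ p ↔ U' s(a, b) ≤ p)) :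
    bush pl pt pb s1 s0 J U' v F = bush pl pt pb s1 s0 J U v F := by
  unfold bush at h ⊢
  refine loc_fine hlt hlb _ _ _ ?_ ?_
  · intro w hw
    rw [List.mem_singleton] at hw
    rw [hw]
    exact hv
  · intro a ha b hb p hp
    refine h a ?_ b hb p hp
    rcases ha with ⟨w, hw, rfl⟩ | ha
    · rw [List.mem_singleton] at hw
      rw [hw]
      exact mem_insert_self _ _
    · exact mem_insert_of_mem ha

theorem bush_subset {pl pt pb : ℝ} {s1 s0 J : ℕ} {U : Ev n} {v : Fin n} {F : Finset (Fin n)}
    (hv : v ∉ F) : (bush pl pt pb s1 s0 J U v F).1 ⊆ F :=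
  bsh_subset _ _ _

namespace Bush

/-- joined to the root `r` inside `X` by a path with at most `h` high edges -/
def Jn (pl pt : ℝ) (U : Ev n) (r : Fin n) (X : Finset (Fin n)) (w : Fin n) (h : ℕ) : Prop :=
  ∃ (t : ℕ) (x : ℕ → Fin n), x 0 = r ∧ x t = w ∧ Set.InjOn x (Set.Iic t) ∧
    (∀ j ≤ t, x j ∈ X) ∧ (∀ j < t, U s(x j, x (j + 1)) ≤ pt) ∧
    (open Classical in (range t).filter (fun j => pl < U s(x j, x (j + 1)))).card ≤ h

theorem Jn.mono {pl pt : ℝ} {U : Ev n} {r : Fin n} {X X' : Finset (Fin n)} {w : Fin n} {h : ℕ}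
    (hj : Jn pl pt U r X w h) (hX : X ⊆ X') : Jn pl pt U r X' w h := by
  obtain ⟨t, x, h1, h2, h3, h4, h5, h6⟩ := hj
  exact ⟨t, x, h1, h2, h3, fun j hj => hX (h4 j hj), h5, h6⟩

theorem Jn.ext {pl pt : ℝ} {U : Ev n} {r : Fin n} {X X' : Finset (Fin n)} {w u : Fin n} {h h' : ℕ}
    (hj : Jn pl pt U r X w h) (hX : X ⊆ X') (hu : u ∉ X) (hu' : u ∈ X') (hpt : U s(w, u) ≤ pt)
    (hh : h ≤ h') (hh' : pl < U s(w, u) → h + 1 ≤ h') : Jn pl pt U r X' u h' := by
  classical
  obtain ⟨t, x, h1, h2, h3, h4, h5, h6⟩ := hj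
  have e1 : ∀ j ≤ t, Function.update x (t + 1) u j = x j := fun j hj =>
    Function.update_of_ne (by omega) _ _
  have e2 : Function.update x (t + 1) u (t + 1) = u := Function.update_self _ _ _
  refine ⟨t + 1, Function.update x (t + 1) u, ?_, e2, ?_, ?_, ?_, ?_⟩
  · rw [e1 0 (Nat.zero_le _), h1]
  · intro i hi j hj hij
    rw [Set.mem_Iic] at hi hj
    rcases Nat.lt_or_ge t i with hi' | hi'
    · have hi'' : i = t + 1 := by omega
      rcases Nat.lt_or_ge t j with hj' | hj'
      · omega
      · exfalso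
        rw [hi'', e2, e1 j hj'] at hij
        exact hu (hij ▸ h4 j hj')
    · rcases Nat.lt_or_ge t j with hj' | hj'
      · exfalso
        have hj'' : j = t + 1 := by omega
        rw [hj'', e2, e1 i hi'] at hij
        exact hu (hij ▸ h4 i hi')
      · rw [e1 i hi', e1 j hj'] at hij
        exact h3 hi' hj' hij
  · intro j hj
    rcases Nat.lt_or_ge t j with hj' | hj'
    · have hj'' : j = t + 1 := by omega
      rw [hj'', e2]
      exact hu'
    · rw [e1 j hj']
      exact hX (h4 j hj')
  · intro j hj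
    rcases Nat.lt_or_ge j t with hj' | hj'
    · rw [e1 j hj'.le, e1 (j + 1) hj']
      exact h5 j hj'
    · have hj'' : j = t := by omega
      rw [hj'', e1 t le_rfl, e2, h2]
      exact hpt
  · have e3 : (range (t + 1)).filter (fun j => pl < U s(Function.update x (t + 1) u j,
        Function.update x (t + 1) u (j + 1))) =
        (range (t + 1)).filter (fun j => if j < t then pl < U s(x j, x (j + 1)) else
          pl < U s(w, u)) := by
      refine Finset.filter_congr fun j hj => ?_
      rw [mem_range] at hj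
      rcases Nat.lt_or_ge j t with hj' | hj'
      · rw [if_pos hj', e1 j hj'.le, e1 (j + 1) hj']
      · have hj'' : j = t := by omega
        rw [if_neg (not_lt.2 hj'), hj'', e1 t le_rfl, e2, h2]
    have e4 : (range t).filter (fun j => if j < t then pl < U s(x j, x (j + 1)) else
          pl < U s(w, u)) = (range t).filter (fun j => pl < U s(x j, x (j + 1))) := by
      refine Finset.filter_congr fun j hj => ?_
      rw [mem_range] at hj
      rw [if_pos hj]
    have e5 : ((range (t + 1)).filter (fun j => if j < t then pl < U s(x j, x (j + 1)) else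
          pl < U s(w, u))).card ≤ h' := by
      rw [range_add_one, filter_insert]
      by_cases hc : pl < U s(w, u)
      · refine (Finset.card_le_card ?_).trans ((card_insert_le t
          ((range t).filter (fun j => pl < U s(x j, x (j + 1))))).trans
          ((Nat.add_le_add_right h6 1).trans (hh' hc)))
        rw [e4, if_pos (by rw [if_neg (lt_irrefl t)]; exact hc)]
      · rw [if_neg (by rw [if_neg (lt_irrefl t)]; exact hc), e4]
        exact h6.trans hh
    convert e5 using 2

/-- the walk stays in the reached set -/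
theorem rin_rch {p : ℝ} {U : Ev n} {u : Fin n} {F : Finset (Fin n)} :
    ∀ g ∈ rch p U {u} F, rin (GU U p) (rch p U {u} F) u g := by
  classical
  intro g hg
  unfold rch at hg
  rw [mem_filter] at hg
  obtain ⟨-, a, ha, w, hw⟩ := hg
  rw [mem_singleton] at ha
  subst ha
  refine ⟨w, fun z hz => ?_⟩
  unfold rch
  rw [mem_filter]
  refine ⟨mem_univ _, a, mem_singleton_self a, w.takeUntil z hz, fun y hy => ?_⟩
  exact hw y (w.support_takeUntil_subset_support hz hy)

theorem bsh_some {pl pt pb : ℝ} {s1 s0 J : ℕ} {U : Ev n} (hlt : pl ≤ pt) (hlb : pl ≤ pb)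
    (hJ : 1 ≤ J) (r u : Fin n) (k : ℕ) :
    ∀ (st : List (Fin n × ℕ)) (F X : Finset (Fin n)),
    Disjoint X F → (∀ w ∈ st, w.1 ∈ X ∧ w.2 ≤ J ∧ (w.1 = r → w.2 = 0) ∧
      Jn pl pt U r X w.1 w.2) → r ∈ X →
    (bsh pl pt pb s1 s0 J U k st F).2 = some u →
    ∃ (B D : Finset (Fin n)),
      u ∈ B ∧ u ∈ D ∧ s1 ≤ B.card ∧ s0 ≤ D.card ∧
      B ⊆ (X.erase r) ∪ (bsh pl pt pb s1 s0 J U k st F).1 ∧
      D ⊆ (X.erase r) ∪ (bsh pl pt pb s1 s0 J U k st F).1 ∧
      (∀ g ∈ B, rin (GU U pl) B u g) ∧ (∀ d ∈ D, rin (GU U pb) D u d) ∧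
      Jn pl pt U r (X ∪ (bsh pl pt pb s1 s0 J U k st F).1) u J := by
  induction k with
  | zero => intro st F X _ _ _ h; rw [bsh_zero] at h; simp at h
  | succ k ih =>
    intro st F X hXF hst hr h
    rcases st with _ | ⟨⟨v, i⟩, rest⟩
    · rw [bsh_nil] at h; simp at h
    · obtain ⟨hvX, hiJ, hvr, hjn⟩ := hst (v, i) List.mem_cons_self
      simp only at hvX hiJ hvr hjn
      have hst' := fun w hw => hst w (List.mem_cons_of_mem _ hw)
      by_cases hh : J ≤ i
      · have hi : i = J := le_antisymm hiJ hh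
        have hvr' : v ≠ r := fun e => by have := hvr e; omega
        by_cases hm : mk pl pb s1 s0 U v F
        · rw [bsh_ok hh hm] at h ⊢
          simp only [Option.some.injEq] at h
          subst h
          have hsub : rch pb U {v} F ⊆ X.erase r ∪ (rch pb U {v} F).erase v := by
            intro z hz
            by_cases hzv : z = v
            · rw [hzv]
              exact mem_union_left _ (mem_erase.2 ⟨hvr', hvX⟩)
            · exact mem_union_right _ (mem_erase.2 ⟨hzv, hz⟩)
          refine ⟨rch pl U {v} F, rch pb U {v} F, subset_rch _ _ _ _ (mem_singleton_self v),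
            subset_rch _ _ _ _ (mem_singleton_self v), hm.1, hm.2,
            (rch_mono hlb U (Finset.Subset.refl {v}) (Finset.Subset.refl _)).trans hsub, hsub,
            rin_rch, rin_rch, ?_⟩
          rw [← hi]
          exact hjn.mono subset_union_left
        · rw [bsh_no hh hm] at h ⊢
          simp only at h ⊢
          obtain ⟨B, D, h1, h2, h3, h4, h5, h6, h7, h8, h9⟩ := ih rest (F \ rch pb U {v} F)
            (X ∪ rch pb U {v} F) (by
              rw [disjoint_union_left]
              exact ⟨hXF.mono_right sdiff_subset, disjoint_sdiff⟩)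
            (fun w hw => by
              obtain ⟨a1, a2, a3, a4⟩ := hst' w hw
              exact ⟨mem_union_left _ a1, a2, a3, a4.mono subset_union_left⟩)
            (mem_union_left _ hr) h
          have hs1 : (X ∪ rch pb U {v} F).erase r ∪
              (bsh pl pt pb s1 s0 J U k rest (F \ rch pb U {v} F)).1 ⊆
              X.erase r ∪ ((rch pb U {v} F).erase v ∪
                (bsh pl pt pb s1 s0 J U k rest (F \ rch pb U {v} F)).1) := by
            intro z hz
            simp only [mem_union, mem_erase] at hz ⊢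
            by_cases hzv : z = v
            · rw [hzv]; exact Or.inl ⟨hvr', hvX⟩
            · tauto
          have hs2 : (X ∪ rch pb U {v} F) ∪
              (bsh pl pt pb s1 s0 J U k rest (F \ rch pb U {v} F)).1 ⊆
              X ∪ ((rch pb U {v} F).erase v ∪
                (bsh pl pt pb s1 s0 J U k rest (F \ rch pb U {v} F)).1) := by
            intro z hz
            simp only [mem_union, mem_erase] at hz ⊢
            by_cases hzv : z = v
            · rw [hzv]; exact Or.inl hvX
            · tauto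
          exact ⟨B, D, h1, h2, h3, h4, h5.trans hs1, h6.trans hs1, h7, h8, h9.mono hs2⟩
      · have hi : i < J := not_le.1 hh
        rw [bsh_step hi] at h ⊢
        simp only at h ⊢
        obtain ⟨B, D, h1, h2, h3, h4, h5, h6, h7, h8, h9⟩ := ih _ (F \ nbr pt U v F)
            (X ∪ nbr pt U v F) (by
              rw [disjoint_union_left]
              exact ⟨hXF.mono_right sdiff_subset, disjoint_sdiff⟩)
            (fun w hw => by
              have hnr : ∀ z ∈ nbr pt U v F, z ∉ X ∧ z ≠ r := fun z hz => by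
                have hzF := nbr_subset pt U v F hz
                have hzX : z ∉ X := fun hzX => (disjoint_left.1 hXF hzX) hzF
                exact ⟨hzX, fun e => hzX (e ▸ hr)⟩
              rcases mem_nst.1 hw with ⟨h3, h4⟩ | ⟨h3, h4⟩ | h3
              · have h5 := nbr_mono hlt U v F h3
                refine ⟨mem_union_right _ h5, by omega, fun e => absurd e (hnr _ h5).2, ?_⟩
                rw [h4]
                refine hjn.ext subset_union_left (hnr _ h5).1 (mem_union_right _ h5)
                  (mem_nbr.1 h5).2 le_rfl fun hlt' => absurd (mem_nbr.1 h3).2 (not_le.2 hlt')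
              · have h5 := (mem_sdiff.1 h3).1
                refine ⟨mem_union_right _ h5, by omega, fun e => absurd e (hnr _ h5).2, ?_⟩
                rw [h4]
                exact hjn.ext subset_union_left (hnr _ h5).1 (mem_union_right _ h5)
                  (mem_nbr.1 h5).2 (Nat.le_succ _) fun _ => le_rfl
              · obtain ⟨a1, a2, a3, a4⟩ := hst' w h3
                exact ⟨mem_union_left _ a1, a2, a3, a4.mono subset_union_left⟩)
            (mem_union_left _ hr) h
        have hs1 : ∀ R : Finset (Fin n), (X ∪ nbr pt U v F).erase r ∪ R ⊆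
            X.erase r ∪ (nbr pt U v F ∪ R) := by
          intro R z hz
          simp only [mem_union, mem_erase] at hz ⊢
          tauto
        have hs2 : ∀ R : Finset (Fin n), (X ∪ nbr pt U v F) ∪ R ⊆
            X ∪ (nbr pt U v F ∪ R) := by
          intro R z hz
          simp only [mem_union] at hz ⊢
          tauto
        exact ⟨B, D, h1, h2, h3, h4, h5.trans (hs1 _), h6.trans (hs1 _), h7, h8, h9.mono (hs2 _)⟩

end Bush

/-- structure of a successful bush -/
theorem bush_some {pl pt pb : ℝ} {s1 s0 J : ℕ} (hlt : pl ≤ pt) (hlb : pl ≤ pb) (hJ : 1 ≤ J)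
    {U : Ev n} {v u : Fin n} {F : Finset (Fin n)} (hv : v ∉ F)
    (h : (bush pl pt pb s1 s0 J U v F).2 = some u) :
    ∃ (B D : Finset (Fin n)) (t : ℕ) (x : ℕ → Fin n),
      u ∈ B ∧ u ∈ D ∧ s1 ≤ B.card ∧ s0 ≤ D.card ∧
      B ⊆ (bush pl pt pb s1 s0 J U v F).1 ∧ D ⊆ (bush pl pt pb s1 s0 J U v F).1 ∧
      (∀ g ∈ B, rin (GU U pl) B u g) ∧ (∀ d ∈ D, rin (GU U pb) D u d) ∧
      x 0 = v ∧ x t = u ∧ Set.InjOn x (Set.Iic t) ∧
      (∀ j, 1 ≤ j → j ≤ t → x j ∈ (bush pl pt pb s1 s0 J U v F).1) ∧
      (∀ j < t, U s(x j, x (j + 1)) ≤ pt) ∧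
      (open Classical in (range t).filter (fun j => pl < U s(x j, x (j + 1)))).card ≤ J := by
  obtain ⟨B, D, h1, h2, h3, h4, h5, h6, h7, h8, t, x, a1, a2, a3, a4, a5, a6⟩ :=
    bsh_some (s1 := s1) (s0 := s0) hlt hlb hJ v u (2 * n + 2) [(v, 0)] F {v}
      (by rwa [disjoint_singleton_left])
      (fun w hw => by
        rw [List.mem_singleton] at hw
        subst hw
        refine ⟨mem_singleton_self _, Nat.zero_le _, fun _ => rfl, 0, fun _ => v, rfl, rfl, ?_,
          fun _ _ => mem_singleton_self _, fun j hj => absurd hj (Nat.not_lt_zero _), by simp⟩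
        intro i hi j hj _
        rw [Set.mem_Iic] at hi hj
        omega)
      (mem_singleton_self v) h
  have e1 : ({v} : Finset (Fin n)).erase v ∪ (bsh pl pt pb s1 s0 J U (2 * n + 2) [(v, 0)] F).1 =
      (bush pl pt pb s1 s0 J U v F).1 := by
    rw [erase_singleton, empty_union]
    rfl
  rw [e1] at h5 h6
  refine ⟨B, D, t, x, h1, h2, h3, h4, h5, h6, h7, h8, a1, a2, a3, fun j hj hjt => ?_, a5, a6⟩
  have := a4 j hjt
  rw [mem_union, mem_singleton] at this
  rcases this with h9 | h9
  · exfalso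
    have := a3 (show j ∈ Set.Iic t from hjt) (show 0 ∈ Set.Iic t from Nat.zero_le _)
      (h9.trans a1.symm)
    omega
  · exact h9

end

end Pool.Agent.TH972.U
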