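import Pool.Agent.TH972.U.SDef2
import Pool.Agent.TH972.U.Bush
import Pool.Agent.TH972.U.Marks

/-!
# Strong successes give attachments
(job RSTRE Y2b of helper972, written by helper267)
-/

set_option autoImplicit false
set_option linter.unusedVariables false
set_option linter.unusedSectionVars false

namespace Pool.Agent.TH972.U

open Finset MeasureTheory Pool.Agent.W842.RST Pool.Agent.TH972

noncomputable section

variable {n : ℕ}

namespace Strong

section energy

variable {V : Type} [Fintype V] [DecidableEq V]

/-- the energy along a simple path inside `W` -/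
theorem path_in {κ : Sym2 V → ℝ} (h : ∀ e, 0 < κ e) (f : V → ℝ) (l : ℕ) (x : ℕ → V)
    (hinj : Set.InjOn x (Set.Iic l)) {W : Finset V} (hW : ∀ i ≤ l, x i ∈ W) :
    (f (x l) - f (x 0)) ^ 2 ≤ (∑ i ∈ range l, (κ s(x i, x (i + 1)))⁻¹) * EnIn κ W f := by
  classical
  set κ' : Sym2 V → ℝ := fun e => if (∀ a ∈ e, a ∈ W) then κ e else 0 with hκ'
  have hκe : ∀ i < l, κ' s(x i, x (i + 1)) = κ s(x i, x (i + 1)) := by
    intro i hi
    simp only [hκ']
    rw [if_pos]
    intro a ha
    rw [Sym2.mem_iff] at ha
    rcases ha with rfl | rfl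
    · exact hW i hi.le
    · exact hW (i + 1) hi
  have h1 := path_energy (κ := κ') (fun e => by
    simp only [hκ']
    split_ifs
    · exact (h e).le
    · exact le_rfl) f l x hinj (fun i hi => by rw [hκe i hi]; exact h _)
  have h2 : ∑ i ∈ range l, (κ' s(x i, x (i + 1)))⁻¹ = ∑ i ∈ range l, (κ s(x i, x (i + 1)))⁻¹ :=
    Finset.sum_congr rfl fun i hi => by rw [hκe i (Finset.mem_range.1 hi)]
  have h3 : En κ' f = EnIn κ W f := by
    unfold En EnIn
    congr 1
    have hK : ∀ a b, Kc κ' a b * (f a - f b) ^ 2 =
        if a ∈ W then (if b ∈ W then Kc κ a b * (f a - f b) ^ 2 else 0) else 0 := by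
      intro a b
      unfold Kc
      by_cases hab : a = b
      · rw [if_pos hab, if_pos hab]
        split_ifs <;> simp
      · rw [if_neg hab, if_neg hab]
        simp only [hκ']
        by_cases ha : a ∈ W
        · by_cases hb : b ∈ W
          · rw [if_pos, if_pos ha, if_pos hb]
            intro c hc
            rw [Sym2.mem_iff] at hc
            rcases hc with rfl | rfl
            · exact ha
            · exact hb
          · rw [if_neg, if_pos ha, if_neg hb, zero_mul]
            intro hc
            exact hb (hc b (Sym2.mem_mk_right a b))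
        · rw [if_neg, if_neg ha, zero_mul]
          intro hc
          exact ha (hc a (Sym2.mem_mk_left a b))
    calc ∑ a, ∑ b, Kc κ' a b * (f a - f b) ^ 2 =
          ∑ a, (if a ∈ W then ∑ b, (if b ∈ W then Kc κ a b * (f a - f b) ^ 2 else 0) else 0) := by
          apply Finset.sum_congr rfl
          intro a _
          by_cases ha : a ∈ W
          · rw [if_pos ha]
            apply Finset.sum_congr rfl
            intro b _
            rw [hK, if_pos ha]
          · rw [if_neg ha]
            apply Finset.sum_eq_zero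
            intro b _
            rw [hK, if_neg ha]
      _ = ∑ a ∈ W, ∑ b ∈ W, Kc κ a b * (f a - f b) ^ 2 := by
          rw [Finset.sum_ite_mem, Finset.univ_inter]
          apply Finset.sum_congr rfl
          intro a _
          rw [Finset.sum_ite_mem, Finset.univ_inter]
  rw [h2, h3] at h1
  exact h1

/-- disjoint sets have disjoint energies -/
theorem sum_EnIn_le {κ : Sym2 V → ℝ} (h : ∀ e, 0 < κ e) (I : Finset ℕ) (Z : ℕ → Finset V)
    (hd : ∀ i ∈ I, ∀ j ∈ I, i ≠ j → Disjoint (Z i) (Z j)) (f : V → ℝ) :
    ∑ i ∈ I, EnIn κ (Z i) f ≤ En κ f := by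
  classical
  have hnn : ∀ a b : V, 0 ≤ Kc κ a b * (f a - f b) ^ 2 := fun a b => Marks.term_nonneg h f a b
  unfold EnIn En
  rw [← Finset.sum_div]
  apply div_le_div_of_nonneg_right _ (by norm_num)
  calc ∑ i ∈ I, ∑ x ∈ Z i, ∑ y ∈ Z i, Kc κ x y * (f x - f y) ^ 2
      ≤ ∑ i ∈ I, ∑ x ∈ Z i, ∑ y, Kc κ x y * (f x - f y) ^ 2 := by
        apply Finset.sum_le_sum
        intro i _
        apply Finset.sum_le_sum
        intro x _
        exact Finset.sum_le_sum_of_subset_of_nonneg (Finset.subset_univ _)
          (fun y _ _ => hnn x y)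
    _ = ∑ x ∈ I.biUnion Z, ∑ y, Kc κ x y * (f x - f y) ^ 2 := by
        rw [Finset.sum_biUnion]
        intro i hi j hj hij
        exact hd i hi j hj hij
    _ ≤ ∑ x, ∑ y, Kc κ x y * (f x - f y) ^ 2 :=
        Finset.sum_le_sum_of_subset_of_nonneg (Finset.subset_univ _)
          (fun x _ _ => Finset.sum_nonneg (fun y _ => hnn x y))

end energy

/-! ### runs of low edges -/

/-- the low edges of a simple path -/
theorem runs (t : ℕ) (c : ℕ → ℝ) (hc : ∀ j < t, 0 ≤ c j) (hi : ℕ → Prop) [DecidablePred hi]
    {Tl : ℝ} (hT : ∀ a b, a ≤ b → b ≤ t → (∀ j, a ≤ j → j < b → ¬ hi j) →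
      ∑ j ∈ Finset.Ico a b, c j ≤ Tl) :
    ∑ j ∈ (range t).filter (fun j => ¬ hi j), c j ≤
      (((range t).filter hi).card + 1) * Tl := by
  have key : ∀ s ≤ t, ∃ a ≤ s, (∀ j, a ≤ j → j < s → ¬ hi j) ∧
      ∑ j ∈ (range s).filter (fun j => ¬ hi j), c j ≤
        ((range s).filter hi).card * Tl + ∑ j ∈ Finset.Ico a s, c j := by
    intro s
    induction s with
    | zero =>
      intro _
      exact ⟨0, le_rfl, fun j _ h => absurd h (Nat.not_lt_zero _), by simp⟩
    | succ s ih =>
      intro hs
      obtain ⟨a, ha, hlow, hle⟩ := ih (by omega)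
      by_cases hh : hi s
      · refine ⟨s + 1, le_rfl, fun j h1 h2 => by omega, ?_⟩
        have hrun := hT a s ha (by omega) hlow
        rw [Finset.range_add_one, Finset.filter_insert, Finset.filter_insert, if_neg (by simpa using hh),
          if_pos hh, Finset.card_insert_of_notMem (by simp), Finset.Ico_self, Finset.sum_empty]
        push_cast
        linarith
      · refine ⟨a, by omega, ?_, ?_⟩
        · intro j h1 h2
          by_cases hjs : j = s
          · rw [hjs]; exact hh
          · exact hlow j h1 (by omega)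
        · rw [Finset.range_add_one, Finset.filter_insert, Finset.filter_insert, if_pos hh, if_neg hh,
            Finset.sum_insert (by simp), Finset.sum_Ico_succ_top ha]
          linarith
  obtain ⟨a, ha, hlow, hle⟩ := key t le_rfl
  have := hT a t ha le_rfl hlow
  linarith

/-! ### one attachment -/

/-- data of an attachment at `v` -/
structure Good (E : BlkEnv (Fin n)) (s1 J : ℕ) (Tl lam : ℝ) (v : Fin n) (Y B : Finset (Fin n))
    (u : Fin n) : Prop where
  hBY : B ⊆ Y
  hB : B ⊆ E.M
  hBs : s1 ≤ B.card
  hatt : ∀ f : Fin n → ℝ, f v = 0 → ∀ g ∈ B,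
    f g ^ 2 ≤ 4 * (J + 2) * Real.exp lam * EnIn E.κ (insert v Y) f
  hlow : ∀ g ∈ B, ∀ f : Fin n → ℝ, (f g - f u) ^ 2 ≤ Tl * En E.κ f
  hpath : ∃ (t : ℕ) (x : ℕ → Fin n), x 0 = v ∧ x t = u ∧ (∀ j < t, x j ≠ x (j + 1)) ∧
    ∀ a : ℝ, 0 < a → ∏ j ∈ range t, (1 + a / Kc E.κ (x j) (x (j + 1))) ≤
      (1 + a * Real.exp lam) ^ J * Real.exp (a * ((J + 1) * Tl))

/-- a simple path inside `W` -/
theorem rin_path {G : SimpleGraph (Fin n)} {W : Finset (Fin n)} {u g : Fin n}
    (h : rin G W u g) : ∃ (t : ℕ) (x : ℕ → Fin n), x 0 = u ∧ x t = g ∧ Set.InjOn x (Set.Iic t) ∧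
      (∀ j ≤ t, x j ∈ W) ∧ ∀ j < t, G.Adj (x j) (x (j + 1)) := by
  classical
  obtain ⟨q, hq⟩ := h
  refine ⟨q.bypass.length, q.bypass.getVert, by simp, by simp, ?_, ?_, ?_⟩
  · intro a ha b hb hab
    exact q.bypass_isPath.getVert_injOn ha hb hab
  · intro j hj
    apply hq
    apply SimpleGraph.Walk.support_bypass_subset_support q
    exact SimpleGraph.Walk.getVert_mem_support _ _
  · intro j hj
    exact q.bypass.adj_getVert_succ hj

theorem good_of_bush (P : SP n) (U : Ev n) (E : BlkEnv (Fin n)) {pl pb : ℝ} {s1 J : ℕ} {Tl : ℝ}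
    (H : Lnk P U E pl pb s1 J Tl) {jj : ℕ} (hjj : (jj : ℝ) ≤ P.lam) {v u : Fin n}
    {F : Finset (Fin n)} (hv : v ∉ F)
    (h : (bush pl (P.gam jj) pb s1 E.s0 J U v F).2 = some u) :
    ∃ B, Good E s1 J Tl P.lam v (bush pl (P.gam jj) pb s1 E.s0 J U v F).1 B u := by
  classical
  obtain ⟨B, D, t, x, hu, huD, hBc, hDc, hBY, hDY, hBr, hDr, hx0, hxt, hinj, hxY, hxe, hhigh⟩ :=
    bush_some (H.hplj jj) H.hlb H.hJ hv h
  set Y := (bush pl (P.gam jj) pb s1 E.s0 J U v F).1 with hY
  have hTl0 : 0 ≤ Tl := by
    have := H.htail 0 (fun _ => v) (by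
      intro a ha b hb _
      rw [Set.mem_Iic] at ha hb
      omega) (fun j hj => absurd hj (Nat.not_lt_zero _))
    simpa using this
  have hlam1 : 1 ≤ Real.exp P.lam := Real.one_le_exp (by linarith [H.hlam])
  -- simple low path from `u` to `g`
  have hlowin : ∀ g ∈ B, ∀ f : Fin n → ℝ, (f g - f u) ^ 2 ≤ Tl * EnIn E.κ B f := by
    intro g hg f
    obtain ⟨t', x', h0, ht', hinj', hW, hadj⟩ := rin_path (hBr g hg)
    have h1 := path_in E.κ_pos f t' x' hinj' hW
    rw [h0, ht'] at h1
    refine h1.trans ?_
    apply mul_le_mul_of_nonneg_right _ (Marks.EnIn_nonneg E.κ_pos B f)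
    have h2 := H.htail t' x' hinj' (fun j hj => (GU_adj.1 (hadj j hj)).1)
    simpa only [one_div] using h2
  -- the resistances along the path
  have hne : ∀ j < t, x j ≠ x (j + 1) := by
    intro j hj he
    have := hinj (x₁ := j) (x₂ := j + 1) (by simp only [Set.mem_Iic]; omega)
      (by simp only [Set.mem_Iic]; omega) he
    omega
  set c : ℕ → ℝ := fun j => 1 / E.κ s(x j, x (j + 1)) with hc
  have hc0 : ∀ j, 0 < c j := fun j => by
    simp only [hc]
    exact one_div_pos.2 (E.κ_pos _)
  set hi : ℕ → Prop := fun j => pl < U s(x j, x (j + 1)) with hhi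
  have hruns : ∑ j ∈ (range t).filter (fun j => ¬ hi j), c j ≤
      (((range t).filter hi).card + 1) * Tl := by
    apply runs t c (fun j _ => (hc0 j).le) hi
    intro a b hab hbt hlow
    have h1 := H.htail (b - a) (fun j => x (a + j)) (by
      intro i hi' j hj' hij
      rw [Set.mem_Iic] at hi' hj'
      have := hinj (x₁ := a + i) (x₂ := a + j) (by simp only [Set.mem_Iic]; omega)
        (by simp only [Set.mem_Iic]; omega) hij
      omega) (fun j hj => by
        have := hlow (a + j) (by omega) (by omega)
        simp only [hhi, not_lt] at this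
        exact this)
    rw [Finset.sum_Ico_eq_sum_range]
    exact h1
  have hhc : (((range t).filter hi).card : ℝ) ≤ J := by
    have : ((range t).filter hi).card ≤ J := by
      convert hhigh using 2
    exact_mod_cast this
  have hlowsum : ∑ j ∈ (range t).filter (fun j => ¬ hi j), c j ≤ (J + 1) * Tl :=
    hruns.trans (mul_le_mul_of_nonneg_right (by linarith) hTl0)
  have hce : ∀ j < t, c j ≤ Real.exp P.lam := by
    intro j hj
    exact (H.hup jj _ (hxe j hj)).trans (Real.exp_le_exp.2 hjj)
  have hsum : ∑ j ∈ range t, c j ≤ J * Real.exp P.lam + (J + 1) * Tl := by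
    rw [← Finset.sum_filter_add_sum_filter_not (range t) hi c]
    apply add_le_add _ hlowsum
    calc ∑ j ∈ (range t).filter hi, c j ≤ ∑ _j ∈ (range t).filter hi, Real.exp P.lam := by
          apply Finset.sum_le_sum
          intro j hj
          rw [Finset.mem_filter, Finset.mem_range] at hj
          exact hce j hj.1
      _ = ((range t).filter hi).card * Real.exp P.lam := by
          rw [Finset.sum_const, nsmul_eq_mul]
      _ ≤ J * Real.exp P.lam := mul_le_mul_of_nonneg_right hhc (Real.exp_pos _).le
  refine ⟨B, ?_⟩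
  refine ⟨hBY, ?_, hBc, ?_, ?_, t, x, hx0, hxt, hne, ?_⟩
  · -- marks
    intro g hg
    rw [H.hM]
    unfold marks
    rw [Finset.mem_filter]
    refine ⟨Finset.mem_univ g, hBc.trans (Finset.card_le_card ?_),
      hDc.trans (Finset.card_le_card ?_)⟩
    · intro b hb
      rw [Marks.mem_cmp]
      exact (Marks.rin_reach (hBr g hg)).symm.trans (Marks.rin_reach (hBr b hb))
    · intro d hd
      rw [Marks.mem_cmp]
      exact ((Marks.rin_reach (hBr g hg)).symm.mono (GU_mono H.hlb)).trans
        (Marks.rin_reach (hDr d hd))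
  · -- attachment
    intro f hf g hg
    have hEn := Marks.EnIn_nonneg E.κ_pos (insert v Y) f
    have hBZ : EnIn E.κ B f ≤ EnIn E.κ (insert v Y) f :=
      Marks.EnIn_mono E.κ_pos (hBY.trans (Finset.subset_insert v Y)) f
    have h1 : (f g - f u) ^ 2 ≤ Tl * EnIn E.κ (insert v Y) f :=
      (hlowin g hg f).trans (mul_le_mul_of_nonneg_left hBZ hTl0)
    have h2 := path_in E.κ_pos f t x hinj (W := insert v Y) (by
      intro i hi'
      by_cases h0 : i = 0
      · rw [h0, hx0]; exact Finset.mem_insert_self _ _
      · exact Finset.mem_insert_of_mem (hxY i (by omega) hi'))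
    rw [hxt, hx0, hf, sub_zero] at h2
    have h3 : f u ^ 2 ≤ (J * Real.exp P.lam + (J + 1) * Tl) * EnIn E.κ (insert v Y) f := by
      refine h2.trans (mul_le_mul_of_nonneg_right ?_ hEn)
      simpa only [hc, one_div] using hsum
    have h4 : f g ^ 2 ≤ 2 * (f g - f u) ^ 2 + 2 * f u ^ 2 := by
      nlinarith [sq_nonneg (f g - 2 * f u)]
    have hJ0 : (0 : ℝ) ≤ J := Nat.cast_nonneg J
    have hTle : Tl ≤ Real.exp P.lam := H.hTl.trans hlam1
    have h5 : 2 * Tl + 2 * (J * Real.exp P.lam + (J + 1) * Tl) ≤
        4 * (J + 2) * Real.exp P.lam := by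
      nlinarith [mul_le_mul_of_nonneg_left hTle hJ0]
    calc f g ^ 2 ≤ 2 * (f g - f u) ^ 2 + 2 * f u ^ 2 := h4
      _ ≤ 2 * (Tl * EnIn E.κ (insert v Y) f) +
          2 * ((J * Real.exp P.lam + (J + 1) * Tl) * EnIn E.κ (insert v Y) f) := by linarith
      _ = (2 * Tl + 2 * (J * Real.exp P.lam + (J + 1) * Tl)) * EnIn E.κ (insert v Y) f := by ring
      _ ≤ _ := mul_le_mul_of_nonneg_right h5 hEn
  · intro g hg f
    exact (hlowin g hg f).trans (mul_le_mul_of_nonneg_left
      (Marks.EnIn_le_En E.κ_pos B f) hTl0)
  · -- product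
    intro a ha
    have hK : ∀ j ∈ range t, 1 + a / Kc E.κ (x j) (x (j + 1)) = 1 + a * c j := by
      intro j hj
      have : Kc E.κ (x j) (x (j + 1)) = E.κ s(x j, x (j + 1)) := by
        unfold Kc
        rw [if_neg (hne j (Finset.mem_range.1 hj))]
      rw [this]
      simp only [hc]
      ring
    rw [Finset.prod_congr rfl hK, ← Finset.prod_filter_mul_prod_filter_not (range t) hi]
    have h1le : (1 : ℝ) ≤ 1 + a * Real.exp P.lam := by
      have := mul_pos ha (Real.exp_pos P.lam)
      linarith
    apply mul_le_mul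
    · calc ∏ j ∈ (range t).filter hi, (1 + a * c j) ≤
            ∏ _j ∈ (range t).filter hi, (1 + a * Real.exp P.lam) := by
            apply Finset.prod_le_prod
            · intro j _
              have := mul_pos ha (hc0 j)
              linarith
            · intro j hj
              rw [Finset.mem_filter, Finset.mem_range] at hj
              have := mul_le_mul_of_nonneg_left (hce j hj.1) ha.le
              linarith
        _ = (1 + a * Real.exp P.lam) ^ ((range t).filter hi).card := by
            rw [Finset.prod_const]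
        _ ≤ (1 + a * Real.exp P.lam) ^ J :=
            pow_le_pow_right₀ h1le (by exact_mod_cast hhc)
    · calc ∏ j ∈ (range t).filter (fun j => ¬ hi j), (1 + a * c j) ≤
            ∏ j ∈ (range t).filter (fun j => ¬ hi j), Real.exp (a * c j) := by
            apply Finset.prod_le_prod
            · intro j _
              have := mul_pos ha (hc0 j)
              linarith
            · intro j _
              have := Real.add_one_le_exp (a * c j)
              linarith
        _ = Real.exp (∑ j ∈ (range t).filter (fun j => ¬ hi j), a * c j) :=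
            (Real.exp_sum _ _).symm
        _ ≤ Real.exp (a * ((J + 1) * Tl)) := by
            apply Real.exp_le_exp.2
            rw [← Finset.mul_sum]
            exact mul_le_mul_of_nonneg_left hlowsum ha.le
    · apply Finset.prod_nonneg
      intro j _
      have := mul_pos ha (hc0 j)
      linarith
    · positivity

/-! ### collecting -/

/-- an item: vertex, explored set, piece and its base point -/
structure Item (n : ℕ) where
  w : Fin n
  Y : Finset (Fin n)
  B : Finset (Fin n)
  u : Fin n

theorem collect (P : SP n) (U : Ev n) (E : BlkEnv (Fin n)) {pl pb : ℝ} {s1 J : ℕ} {Tl : ℝ}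
    (H : Lnk P U E pl pb s1 J Tl) (Q : Finset (Fin n)) :
    ∀ (l : List (Fin n)) (X : Finset (Fin n)) (R : Option ℝ), l.Nodup → (∀ v ∈ l, v ∈ Q) →
      ∃ items : List (Item n), items.length = P.nss U Q l X R ∧
        (∀ it ∈ items, it.w ∈ l ∧ Disjoint it.Y (Q ∪ X) ∧ Good E s1 J Tl P.lam it.w it.Y it.B it.u) ∧
        items.Pairwise (fun a b => a.w ≠ b.w ∧ Disjoint a.Y b.Y) := by
  classical
  intro l
  induction l with
  | nil => exact fun X R _ _ => ⟨[], rfl, by simp, List.Pairwise.nil⟩
  | cons v l' ih =>
    intro X R hnd hQ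
    cases l' with
    | nil => exact ⟨[], rfl, by simp, List.Pairwise.nil⟩
    | cons w t =>
      have hvQ : v ∈ Q := hQ v (by simp)
      set e := P.ebs U Q X R v with he
      obtain ⟨items, hlen, hgood, hpw⟩ := ih (X ∪ e.1)
        (P.nst (P.sta R e) (P.cnt (U s(v, w)))) (List.nodup_cons.1 hnd).2
        (fun z hz => hQ z (List.mem_cons_of_mem _ hz))
      have hvnot : ∀ it ∈ items, it.w ≠ v := by
        intro it hit h
        have := (hgood it hit).1
        rw [h] at this
        exact (List.nodup_cons.1 hnd).1 this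
      have hdisX : ∀ it ∈ items, Disjoint it.Y (Q ∪ X) := by
        intro it hit
        refine Disjoint.mono_right ?_ (hgood it hit).2.1
        intro z hz
        rcases Finset.mem_union.1 hz with h | h
        · exact Finset.mem_union_left _ h
        · exact Finset.mem_union_right _ (Finset.mem_union_left _ h)
      by_cases hs : e.2.isSome ∧ P.low R
      · -- a strong success
        obtain ⟨hsome, hlow⟩ := hs
        obtain ⟨u, hu⟩ := Option.isSome_iff_exists.1 hsome
        have hX : (X.card : ℝ) ≤ P.X0 := by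
          by_contra hX
          have : e = (∅, none) := by
            rw [he]
            unfold SP.ebs
            rw [if_neg hX]
          rw [this] at hu
          exact absurd hu (by simp)
        have hebs : e = bush pl (P.gam (P.idx R)) pb s1 E.s0 J U v (univ \ (Q ∪ X)) := by
          rw [he]
          unfold SP.ebs
          rw [if_pos hX]
          exact H.hbs _ _ _
        have hidx : ((P.idx R : ℕ) : ℝ) ≤ P.lam := by
          have hl := H.hlam
          cases R with
          | none => exact absurd hlow (by simp [SP.low])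
          | some r =>
            have hlow' : Real.log r ≤ 1.15 * P.lam := hlow
            show ((⌊0.85 * Real.log r⌋₊ : ℕ) : ℝ) ≤ P.lam
            by_cases h0 : 0 ≤ 0.85 * Real.log r
            · refine (Nat.floor_le h0).trans ?_
              linarith
            · rw [Nat.floor_of_nonpos (by linarith)]
              rw [Nat.cast_zero]
              linarith
        have hvF : v ∉ univ \ (Q ∪ X) := by
          rw [Finset.mem_sdiff]
          exact fun h => h.2 (Finset.mem_union_left _ hvQ)
        rw [hebs] at hu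
        obtain ⟨B, hB⟩ := good_of_bush P U E H hidx hvF hu
        rw [← hebs] at hB
        have hsub : e.1 ⊆ univ \ (Q ∪ X) := by
          rw [hebs]
          exact bush_subset hvF
        have hdis : Disjoint e.1 (Q ∪ X) :=
          Disjoint.mono_left hsub Finset.sdiff_disjoint
        refine ⟨⟨v, e.1, B, u⟩ :: items, ?_, ?_, ?_⟩
        · rw [List.length_cons, hlen]
          show _ = (if (P.ebs U Q X R v).2.isSome ∧ P.low R then 1 else 0) + _
          rw [if_pos ⟨hsome, hlow⟩]
          ring
        · intro it hit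
          rcases List.mem_cons.1 hit with rfl | hit
          · exact ⟨by simp, hdis, hB⟩
          · exact ⟨List.mem_cons_of_mem _ (hgood it hit).1, hdisX it hit, (hgood it hit).2.2⟩
        · rw [List.pairwise_cons]
          refine ⟨?_, hpw⟩
          intro it hit
          refine ⟨(hvnot it hit).symm, ?_⟩
          refine Disjoint.symm (Disjoint.mono_right ?_ (hgood it hit).2.1)
          intro z hz
          exact Finset.mem_union_right _ (Finset.mem_union_right _ hz)
      · refine ⟨items, ?_, ?_, hpw⟩
        · rw [hlen]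
          show _ = (if (P.ebs U Q X R v).2.isSome ∧ P.low R then 1 else 0) + _
          rw [if_neg hs, zero_add]
        · intro it hit
          exact ⟨List.mem_cons_of_mem _ (hgood it hit).1, hdisX it hit, (hgood it hit).2.2⟩

end Strong

/-- the strong successes give attachments -/
theorem strong_att (P : SP n) (U : Ev n) (E : BlkEnv (Fin n)) {pl pb : ℝ} {s1 J : ℕ} {Tl : ℝ}
    (H : Lnk P U E pl pb s1 J Tl) (π : List (Fin n)) (hπ : π.Nodup) :
    Nonempty (Att E π.toFinset s1 J Tl P.lam (P.nss U π.toFinset π ∅ none)) := by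
  classical
  obtain ⟨items, hlen, hgood, hpw⟩ := Strong.collect P U E H π.toFinset π ∅ none hπ
    (fun v hv => List.mem_toFinset.2 hv)
  obtain ⟨v0, -⟩ := Finset.card_pos.1 E.hM0
  set dflt : Strong.Item n := ⟨v0, ∅, ∅, v0⟩ with hdflt
  have hget : ∀ i < items.length, items.getD i dflt ∈ items := by
    intro i hi
    rw [List.getD_eq_getElem _ _ hi]
    exact List.getElem_mem hi
  have hpw' : ∀ i j, i < items.length → j < items.length → i ≠ j →
      (items.getD i dflt).w ≠ (items.getD j dflt).w ∧
      Disjoint (items.getD i dflt).Y (items.getD j dflt).Y := by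
    intro i j hi hj hij
    rw [List.pairwise_iff_getElem] at hpw
    rw [List.getD_eq_getElem _ _ hi, List.getD_eq_getElem _ _ hj]
    rcases Nat.lt_or_gt_of_ne hij with h | h
    · exact hpw i j hi hj h
    · have := hpw j i hj hi h
      exact ⟨this.1.symm, this.2.symm⟩
  have hin : ∀ i ∈ Finset.range items.length, i < items.length := fun i hi =>
    Finset.mem_range.1 hi
  have hwQ : ∀ i < items.length, (items.getD i dflt).w ∈ π.toFinset := fun i hi =>
    List.mem_toFinset.2 (hgood _ (hget i hi)).1
  have hYQ : ∀ i < items.length, ∀ z ∈ (items.getD i dflt).Y, z ∉ π.toFinset := by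
    intro i hi z hz hzQ
    exact Finset.disjoint_left.1 (hgood _ (hget i hi)).2.1 hz (Finset.mem_union_left _ hzQ)
  refine ⟨{
    I := Finset.range items.length
    B := fun i => (items.getD i dflt).B
    Z := fun i => insert (items.getD i dflt).w (items.getD i dflt).Y
    u := fun i => (items.getD i dflt).u
    w := fun i => (items.getD i dflt).w
    card := by rw [Finset.card_range, hlen]
    hB := fun i hi => (hgood _ (hget i (hin i hi))).2.2.hB
    hBs := fun i hi => (hgood _ (hget i (hin i hi))).2.2.hBs
    hw := fun i hi => hwQ i (hin i hi)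
    hdisj := fun i hi j hj hij => Disjoint.mono (hgood _ (hget i (hin i hi))).2.2.hBY
      (hgood _ (hget j (hin j hj))).2.2.hBY (hpw' i j (hin i hi) (hin j hj) hij).2
    hZ := fun f => Strong.sum_EnIn_le E.κ_pos _ _ (fun i hi j hj hij => by
      have h1 := hpw' i j (hin i hi) (hin j hj) hij
      rw [Finset.disjoint_left]
      intro z hz hz'
      rcases Finset.mem_insert.1 hz with hz | hz <;> rcases Finset.mem_insert.1 hz' with hz' | hz'
      · exact h1.1 (hz.symm.trans hz')
      · exact hYQ j (hin j hj) z hz' (hz ▸ hwQ i (hin i hi))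
      · exact hYQ i (hin i hi) z hz (hz' ▸ hwQ j (hin j hj))
      · exact Finset.disjoint_left.1 h1.2 hz hz') f
    hatt := fun i hi f hf g hg =>
      (hgood _ (hget i (hin i hi))).2.2.hatt f (hf _ (hwQ i (hin i hi))) g hg
    hlow := fun i hi g hg f => (hgood _ (hget i (hin i hi))).2.2.hlow g hg f
    hpath := fun i hi => (hgood _ (hget i (hin i hi))).2.2.hpath }⟩

end

end Pool.Agent.TH972.U
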