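import Pool.Agent.TH972.U.LE

/-!
# The tick argument for loop-erased paths
-/

set_option autoImplicit false
set_option linter.unusedSectionVars false

namespace Pool.Agent.TH972.U

open Finset

noncomputable section

variable {V : Type} [Fintype V] [DecidableEq V]

namespace Ticks

/-- walk one step from the end of the path, and erase the loop -/
def step : List V → V → List V
  | [], w => [w]
  | (x :: η), w => if w = x then [x] else x :: step η w

lemma lastf_cons (g : V → ℝ) (x : V) {η : List V} {w : V} (h : η.head? = some w) :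
    lastf g (x :: η) = lastf g η := by
  cases η with
  | nil => simp at h
  | cons a t =>
    unfold lastf
    rw [List.getLast?_cons_cons]

lemma lastf_single (g : V → ℝ) (x : V) : lastf g [x] = g x := rfl

lemma lastf_concat (g : V → ℝ) (P : List V) (v : V) : lastf g (P ++ [v]) = g v := by
  unfold lastf
  rw [List.getLast?_append]
  rfl

lemma sum_split (D : Finset V) {x : V} (hx : x ∉ D) (f : V → ℝ) :
    ∑ w ∈ univ \ D, f w = f x + ∑ w ∈ univ \ insert x D, f w := by
  have h : univ \ D = insert x (univ \ insert x D) := by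
    ext w
    simp only [mem_sdiff, mem_univ, true_and, mem_insert]
    by_cases hw : w = x
    · subst hw; simp [hx]
    · simp [hw]
  rw [h, Finset.sum_insert (by simp)]

/-- the hitting probability through the last exit -/
lemma exit_sum (N : Net V) {D : Finset V} {x w : V} (hx : x ∉ D) (hw : w ∉ insert x D) :
    ∑ z, grn N (insert x D) w z * Kc N.κ z x = grn N D w x / grn N D x x := by
  have hG := (grn_pos N hx).ne'
  have hwx : x ≠ w := fun h => hw (h ▸ mem_insert_self x D)
  have hwD : w ∉ D := fun h => hw (mem_insert_of_mem h)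
  have h1 := grn_eq N hx hwD
  rw [if_neg hwx, zero_add] at h1
  have h2 := grn_eq N hx hx
  rw [if_pos rfl] at h2
  have e1 : ∑ z, grn N D w z * Kc N.κ z x = ∑ z, Kc N.κ x z * grn N D z w :=
    Finset.sum_congr rfl fun z _ => by rw [Kc_symm N.κ z x, grn_symm N D w z, mul_comm]
  have e2 : ∑ z, grn N D x z * Kc N.κ z x = ∑ z, Kc N.κ x z * grn N D z x :=
    Finset.sum_congr rfl fun z _ => by rw [Kc_symm N.κ z x, grn_symm N D x z, mul_comm]
  have e3 : ∑ z, grn N (insert x D) w z * Kc N.κ z x =
      ∑ z, grn N D w z * Kc N.κ z x - grn N D w x / grn N D x x *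
        ∑ z, grn N D x z * Kc N.κ z x := by
    rw [Finset.mul_sum, ← Finset.sum_sub_distrib]
    refine Finset.sum_congr rfl fun z _ => ?_
    rw [grn_insert N hx]
    ring
  rw [e3, e1, e2, ← h1]
  have h3 : ∑ z, Kc N.κ x z * grn N D z x = (cs N.κ x + N.k x) * grn N D x x - 1 := by linarith
  rw [h3, grn_symm N D w x]
  field_simp
  ring

/-- the balance of a function of the path -/
def Bal (N : Net V) (D : Finset V) (u : List V → ℝ) (ξ : List V) : ℝ :=
  lastf (fun z => cs N.κ z + N.k z) ξ * u ξ -
    ∑ w ∈ univ \ D, lastf (fun z => Kc N.κ z w) ξ * u (step ξ w)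

lemma Bal_cons (N : Net V) {D : Finset V} {x : V} (hx : x ∉ D) (u : List V → ℝ) {η : List V}
    {w : V} (h : η.head? = some w) :
    Bal N D u (x :: η) = Bal N (insert x D) (fun η => u (x :: η)) η +
      (-u [x]) * lastf (fun z => Kc N.κ z x) η := by
  unfold Bal
  rw [sum_split D hx, lastf_cons _ x h, lastf_cons _ x h]
  have e1 : step (x :: η) x = [x] := by
    unfold step; rw [if_pos rfl]
  have e2 : ∑ w ∈ univ \ insert x D, lastf (fun z => Kc N.κ z w) (x :: η) * u (step (x :: η) w) =
      ∑ w ∈ univ \ insert x D, lastf (fun z => Kc N.κ z w) η * u (x :: step η w) := by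
    refine Finset.sum_congr rfl fun z hz => ?_
    have hzx : z ≠ x := by
      intro h
      rw [mem_sdiff] at hz
      exact hz.2 (h ▸ mem_insert_self x D)
    rw [lastf_cons _ x h]
    congr 2
    show step (x :: η) z = x :: step η z
    rw [step, if_neg hzx]
  rw [e1, e2]
  ring

lemma balance (N : Net V) (n : ℕ) : ∀ (D : Finset V), (univ \ D).card = n → ∀ x, x ∉ D →
    ∀ u : List V → ℝ, psum N D x (Bal N D u) = u [x] := by
  induction n with
  | zero =>
    intro D hD x hx
    exfalso
    rw [Finset.card_eq_zero] at hD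
    have : x ∈ univ \ D := by simp [hx]
    rw [hD] at this
    simp at this
  | succ n ih =>
    intro D hD x hx u
    have hG := (grn_pos N hx).ne'
    have hcard : (univ \ insert x D).card = n := by
      have h1 : univ \ insert x D = (univ \ D).erase x := by
        ext z
        simp only [mem_sdiff, mem_univ, true_and, mem_insert, mem_erase]
        tauto
      rw [h1, Finset.card_erase_of_mem (by simp [hx]), hD]
      rfl
    have key : ∀ w, Kc N.κ x w * psum N (insert x D) w (fun η => Bal N D u (x :: η)) =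
        Kc N.κ x w * (if w ∈ insert x D then 0 else
          u [x, w] - u [x] * (grn N D w x / grn N D x x)) := by
      intro w
      congr 1
      split_ifs with hw
      · exact psum_mem N hw _
      · have e1 : psum N (insert x D) w (fun η => Bal N D u (x :: η)) =
            psum N (insert x D) w (fun η => Bal N (insert x D) (fun η => u (x :: η)) η +
              (-u [x]) * lastf (fun z => Kc N.κ z x) η) :=
          psum_congr N _ _ fun π _ _ h => Bal_cons N hx u h
        rw [e1, psum_add, psum_const_mul, ih _ hcard w hw, psum_tip, exit_sum N hx hw]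
        ring
    rw [psum_eq N hx, Finset.sum_congr rfl fun w _ => key w]
    have e2 : Bal N D u [x] = (cs N.κ x + N.k x) * u [x] -
        ∑ w ∈ univ \ insert x D, Kc N.κ x w * u [x, w] := by
      unfold Bal
      rw [sum_split D hx, lastf_single, lastf_single, Kc_self, zero_mul, zero_add]
      congr 1
      refine Finset.sum_congr rfl fun w hw => ?_
      have hzx : w ≠ x := by
        intro h
        rw [mem_sdiff] at hw
        exact hw.2 (h ▸ mem_insert_self x D)
      rw [lastf_single]
      congr 2
      rw [step, if_neg hzx]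
      rfl
    have e3 : ∑ w, Kc N.κ x w * (if w ∈ insert x D then 0 else
          u [x, w] - u [x] * (grn N D w x / grn N D x x)) =
        ∑ w ∈ univ \ insert x D, Kc N.κ x w * u [x, w] -
          u [x] / grn N D x x * ∑ w, Kc N.κ x w * grn N D w x := by
      have h4 : ∑ w, Kc N.κ x w * grn N D w x =
          ∑ w ∈ univ \ insert x D, Kc N.κ x w * grn N D w x := by
        refine (Finset.sum_subset (subset_univ _) fun w _ hw => ?_).symm
        rw [mem_sdiff, not_and, not_not] at hw
        rcases mem_insert.1 (hw (mem_univ w)) with h | h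
        · rw [h, Kc_self, zero_mul]
        · rw [grn_left N x h, mul_zero]
      have h5 : ∑ w, Kc N.κ x w * (if w ∈ insert x D then 0 else
          u [x, w] - u [x] * (grn N D w x / grn N D x x)) =
          ∑ w ∈ univ \ insert x D, Kc N.κ x w *
            (u [x, w] - u [x] * (grn N D w x / grn N D x x)) := by
        rw [← Finset.sum_subset (subset_univ (univ \ insert x D))]
        · refine Finset.sum_congr rfl fun w hw => ?_
          rw [mem_sdiff] at hw
          rw [if_neg hw.2]
        · intro w _ hw
          rw [mem_sdiff, not_and, not_not] at hw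
          rw [if_pos (hw (mem_univ w)), mul_zero]
      rw [h4, h5, Finset.mul_sum, ← Finset.sum_sub_distrib]
      exact Finset.sum_congr rfl fun w _ => by ring
    have h6 := grn_eq N hx hx
    rw [if_pos rfl] at h6
    have h7 : ∑ w, Kc N.κ x w * grn N D w x = (cs N.κ x + N.k x) * grn N D x x - 1 := by linarith
    rw [e2, e3, h7]
    field_simp
    ring

/-! ### the kernel -/

/-- the continuation of the prefix `P` from `y`, run in the network `N` -/
def Bt (N : Net V) (F : List V → ℝ) (P : List V) (y : V) : ℝ :=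
  psum N P.toFinset y (fun η => lastf N.k η * F (P ++ η))

/-- the sum over the last exits -/
def Kr (N : Net V) (F : List V → ℝ) : List V → List V → V → ℝ
  | _, [], _ => 0
  | A, (y :: t), v => grn N A.toFinset v y / grn N A.toFinset y y * Bt N F A y +
      Kr N F (A ++ [y]) t v

/-- the kernel -/
def KK (N : Net V) (F : List V → ℝ) (ξ : List V) : ℝ := lastf (fun v => Kr N F [] ξ v) ξ

lemma toFinset_concat (P : List V) (v : V) : (P ++ [v]).toFinset = insert v P.toFinset := by
  ext z
  simp

lemma Bt_mem (N : Net V) (F : List V → ℝ) {P : List V} {y : V} (h : y ∈ P) : Bt N F P y = 0 :=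
  psum_mem N (List.mem_toFinset.2 h) _

lemma Kr_mem (N : Net V) (F : List V → ℝ) : ∀ (t A : List V) {w : V}, w ∈ A →
    Kr N F A t w = 0 := by
  intro t
  induction t with
  | nil => intro A w _; rfl
  | cons y t ih =>
    intro A w hw
    rw [Kr, grn_left N y (List.mem_toFinset.2 hw), zero_div, zero_mul, zero_add]
    exact ih _ (List.mem_append_left _ hw)

lemma Kr_step (N : Net V) (F : List V → ℝ) (w : V) : ∀ (t A : List V),
    Kr N F A (step t w) w = Kr N F A t w + (if w ∈ t then 0 else Bt N F (A ++ t) w) := by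
  intro t
  induction t with
  | nil =>
    intro A
    rw [step, Kr, Kr, if_neg (List.not_mem_nil), List.append_nil]
    by_cases hw : w ∈ A
    · rw [Bt_mem N F hw]; simp [Kr]
    · rw [div_self (grn_pos N (fun h => hw (List.mem_toFinset.1 h))).ne']
      simp [Kr]
  | cons y t ih =>
    intro A
    rw [step]
    by_cases hwy : w = y
    · subst hwy
      rw [if_pos rfl, Kr, Kr, Kr, if_pos List.mem_cons_self,
        Kr_mem N F t (A ++ [w]) (by simp)]
      ring
    · rw [if_neg hwy, Kr, Kr, ih (A ++ [y])]
      have e : A ++ [y] ++ t = A ++ y :: t := by simp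
      have e2 : (w ∈ y :: t) ↔ w ∈ t := by simp [hwy]
      simp only [e, e2]
      ring

lemma Kr_harm (N : Net V) (F : List V → ℝ) (v : V) : ∀ (t A : List V), (A ++ t).Nodup →
    v ∉ A ++ t → ∑ w, Kc N.κ v w * Kr N F A (t ++ [v]) w =
      (cs N.κ v + N.k v) * Kr N F A (t ++ [v]) v - Bt N F (A ++ t) v / grn N (A ++ t).toFinset v v := by
  intro t
  induction t with
  | nil =>
    intro A _ hv
    rw [List.append_nil] at hv ⊢
    have hvA : v ∉ A.toFinset := fun h => hv (List.mem_toFinset.1 h)
    have h1 := grn_eq N hvA hvA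
    rw [if_pos rfl] at h1
    have hG := (grn_pos N hvA).ne'
    have e : ∀ w, Kr N F A ([] ++ [v]) w =
        grn N A.toFinset w v * (Bt N F A v / grn N A.toFinset v v) := by
      intro w
      rw [List.nil_append, Kr, Kr]
      ring
    simp only [e]
    have e2 : ∑ w, Kc N.κ v w * (grn N A.toFinset w v * (Bt N F A v / grn N A.toFinset v v)) =
        (∑ w, Kc N.κ v w * grn N A.toFinset w v) * (Bt N F A v / grn N A.toFinset v v) := by
      rw [Finset.sum_mul]
      exact Finset.sum_congr rfl fun w _ => by ring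
    have h3 : ∑ w, Kc N.κ v w * grn N A.toFinset w v =
        (cs N.κ v + N.k v) * grn N A.toFinset v v - 1 := by linarith
    rw [e2, h3]
    ring
  | cons y t ih =>
    intro A hnd hv
    have e : A ++ [y] ++ t = A ++ y :: t := by simp
    have h1 := ih (A ++ [y]) (by rw [e]; exact hnd) (by rw [e]; exact hv)
    rw [e] at h1
    have hvy : v ≠ y := by rintro rfl; exact hv (by simp)
    have hvA : v ∉ A.toFinset := fun h => hv (List.mem_append_left _ (List.mem_toFinset.1 h))
    have hyA : y ∉ A.toFinset := by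
      intro h
      have h2 := (List.nodup_append.1 hnd).2.2
      exact h2 y (List.mem_toFinset.1 h) y List.mem_cons_self rfl
    have h2 := grn_eq N hvA hyA
    rw [if_neg hvy, zero_add] at h2
    have e3 : ∀ w, Kr N F A ((y :: t) ++ [v]) w =
        grn N A.toFinset w y * (Bt N F A y / grn N A.toFinset y y) +
          Kr N F (A ++ [y]) (t ++ [v]) w := by
      intro w
      rw [List.cons_append, Kr]
      ring
    simp only [e3]
    have e4 : ∑ w, Kc N.κ v w * (grn N A.toFinset w y * (Bt N F A y / grn N A.toFinset y y) +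
          Kr N F (A ++ [y]) (t ++ [v]) w) =
        (∑ w, Kc N.κ v w * grn N A.toFinset w y) * (Bt N F A y / grn N A.toFinset y y) +
        ∑ w, Kc N.κ v w * Kr N F (A ++ [y]) (t ++ [v]) w := by
      rw [Finset.sum_mul, ← Finset.sum_add_distrib]
      exact Finset.sum_congr rfl fun w _ => by ring
    rw [e4, h1, ← h2]
    ring

lemma Bt_eq (N : Net V) (F : List V → ℝ) {P : List V} {v : V} (hv : v ∉ P) :
    Bt N F P v / grn N P.toFinset v v =
      N.k v * F (P ++ [v]) + ∑ w, Kc N.κ v w * Bt N F (P ++ [v]) w := by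
  have hvP : v ∉ P.toFinset := fun h => hv (List.mem_toFinset.1 h)
  have hG := (grn_pos N hvP).ne'
  have e : ∀ w, psum N (insert v P.toFinset) w
      (fun η => lastf N.k (v :: η) * F (P ++ (v :: η))) = Bt N F (P ++ [v]) w := by
    intro w
    unfold Bt
    rw [toFinset_concat]
    refine psum_congr N _ _ fun π _ _ h => ?_
    rw [lastf_cons _ _ h, List.append_assoc]
    rfl
  rw [Bt, psum_eq N hvP]
  simp only [e]
  rw [lastf_single]
  field_simp

/-- the kernel equation -/
lemma kernel (N : Net V) (F : List V → ℝ) {P : List V} {v : V} (hnd : (P ++ [v]).Nodup) :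
    (cs N.κ v + N.k v) * KK N F (P ++ [v]) =
      N.k v * F (P ++ [v]) + ∑ w, Kc N.κ v w * Kr N F [] (step (P ++ [v]) w) w := by
  have hP : P.Nodup := (List.nodup_append.1 hnd).1
  have hv : v ∉ P := by
    intro h
    exact (List.nodup_append.1 hnd).2.2 v h v (by simp) rfl
  have h1 := Kr_harm N F v P [] (by simpa using hP) (by simpa using hv)
  rw [List.nil_append, Bt_eq N F hv] at h1
  have e : KK N F (P ++ [v]) = Kr N F [] (P ++ [v]) v := lastf_concat _ _ _
  rw [e]
  have e2 : ∑ w, Kc N.κ v w * Kr N F [] (step (P ++ [v]) w) w =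
      ∑ w, Kc N.κ v w * Kr N F [] (P ++ [v]) w + ∑ w, Kc N.κ v w * Bt N F (P ++ [v]) w := by
    rw [← Finset.sum_add_distrib]
    refine Finset.sum_congr rfl fun w _ => ?_
    rw [Kr_step, List.nil_append]
    split_ifs with hw
    · rw [Bt_mem N F hw]; ring
    · ring
  rw [e2]
  linarith

lemma getLast_step (w : V) : ∀ ξ : List V, (step ξ w).getLast? = some w := by
  intro ξ
  induction ξ with
  | nil => rfl
  | cons x η ih =>
    rw [step]
    split_ifs with h
    · rw [h]; rfl
    · cases hs : step η w with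
      | nil => rw [hs] at ih; simp at ih
      | cons a t =>
        rw [List.getLast?_cons_cons, ← hs]
        exact ih

lemma KK_step (N : Net V) (F : List V → ℝ) (ξ : List V) (w : V) :
    KK N F (step ξ w) = Kr N F [] (step ξ w) w := by
  unfold KK lastf
  rw [getLast_step]

lemma KK_single (N : Net V) (F : List V → ℝ) (x : V) :
    KK N F [x] = psum N ∅ x (fun η => lastf N.k η * F η) := by
  have e : KK N F [x] = Kr N F [] [x] x := rfl
  rw [e, Kr, Kr]
  have hG := (grn_pos N (D := ([] : List V).toFinset) (x := x) (by simp)).ne'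
  rw [div_self hG, one_mul, add_zero]
  rfl

/-- the resolvent equation -/
lemma resolvent (N0 N1 : Net V) (hκ : N0.κ = N1.κ) {q : ℝ} (hk : ∀ x, N0.k x = q * N1.k x)
    (x : V) (F : List V → ℝ) :
    psum N0 ∅ x (fun ξ => lastf N0.k ξ * F ξ) =
      q * KK N1 F [x] + (1 - q) * psum N0 ∅ x (fun ξ => lastf N0.k ξ * KK N1 F ξ) := by
  have h1 := balance N0 _ ∅ rfl x (by simp) (fun ξ => q * KK N1 F ξ)
  have h2 : psum N0 ∅ x (Bal N0 ∅ (fun ξ => q * KK N1 F ξ)) =
      psum N0 ∅ x (fun ξ => lastf N0.k ξ * F ξ + (q - 1) * (lastf N0.k ξ * KK N1 F ξ)) := by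
    refine psum_congr N0 _ _ fun π hnd _ h => ?_
    obtain rfl | ⟨P, v, rfl⟩ := List.eq_nil_or_concat π
    · simp at h
    · rw [List.concat_eq_append] at hnd h ⊢
      have h3 := kernel N1 F hnd
      unfold Bal
      simp only [lastf_concat, KK_step]
      rw [sdiff_empty, hκ]
      have e : ∑ w, Kc N1.κ v w * (q * Kr N1 F [] (step (P ++ [v]) w) w) =
          q * ∑ w, Kc N1.κ v w * Kr N1 F [] (step (P ++ [v]) w) w := by
        rw [Finset.mul_sum]
        exact Finset.sum_congr rfl fun w _ => by ring
      rw [e, hk v]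
      linear_combination q * h3
  rw [h2, psum_add, psum_const_mul] at h1
  linarith

/-! ### the estimate of the kernel -/

lemma surv_insert (N : Net V) {D : Finset V} {y : V} (hy : y ∉ D) (v : V) :
    surv N (insert y D) v = surv N D v - grn N D v y / grn N D y y * surv N D y := by
  unfold surv
  rw [Finset.mul_sum, ← Finset.sum_sub_distrib]
  refine Finset.sum_congr rfl fun z _ => ?_
  rw [grn_insert N hy]
  ring

lemma coef_nonneg (N : Net V) (D : Finset V) (v y : V) : 0 ≤ grn N D v y / grn N D y y :=
  div_nonneg (grn_nonneg N D v y) (grn_nonneg N D y y)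

lemma coef_le (N : Net V) (D : Finset V) (v y : V) : grn N D v y / grn N D y y ≤ 1 :=
  div_le_one_of_le₀ (grn_le_diag N D v y) (grn_nonneg N D y y)

lemma lastf_nonneg {g : V → ℝ} (hg : ∀ z, 0 ≤ g z) (π : List V) : 0 ≤ lastf g π := by
  unfold lastf
  split
  · exact le_rfl
  · exact hg _

lemma Kr_append (N : Net V) (F : List V → ℝ) (v : V) : ∀ (s A t : List V),
    Kr N F A (s ++ t) v = Kr N F A s v + Kr N F (A ++ s) t v := by
  intro s
  induction s with
  | nil => intro A t; rw [List.nil_append, List.append_nil, Kr, zero_add]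
  | cons y s ih =>
    intro A t
    rw [List.cons_append, Kr, Kr, ih (A ++ [y]) t]
    have e : A ++ [y] ++ s = A ++ y :: s := by simp
    rw [e]
    ring

lemma okc_right {ok : V → V → Prop} {M R : ℕ} {A η : List V} (h : okc ok M (A ++ η))
    (hA : A.length + R ≤ M) : okc ok R η := by
  obtain ⟨h1, h2⟩ := h
  rw [List.length_append] at h1
  refine ⟨by omega, ?_⟩
  have h3 := h2.drop A.length
  rw [List.drop_take, List.drop_left] at h3
  have h4 := h3.take (R + 1)
  rwa [List.take_take, min_eq_left (by omega)] at h4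

lemma okc_left {ok : V → V → Prop} {M m : ℕ} {A η t : List V} (h : okc ok M (A ++ η))
    (hm : m ≤ M) (hA : m + 1 ≤ A.length) : okc ok m (A ++ t) := by
  obtain ⟨h1, h2⟩ := h
  refine ⟨by rw [List.length_append]; omega, ?_⟩
  have h3 := h2.take (m + 1)
  rw [List.take_take, min_eq_left (by omega), List.take_append_of_le_length hA] at h3
  rw [List.take_append_of_le_length hA]
  exact h3

open Classical in
/-- the indicator of the long paths -/
def FM (ok : V → V → Prop) (M : ℕ) (ζ : List V) : ℝ := if okc ok M ζ then 1 else 0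

lemma FM_nonneg (ok : V → V → Prop) (M : ℕ) (ζ : List V) : 0 ≤ FM ok M ζ := by
  unfold FM
  split_ifs <;> norm_num

lemma Bt_nonneg (N : Net V) (ok : V → V → Prop) (M : ℕ) (A : List V) (y : V) :
    0 ≤ Bt N (FM ok M) A y :=
  psum_nonneg N _ _ fun π => mul_nonneg (lastf_nonneg N.k_nonneg π) (FM_nonneg _ _ _)

lemma Bt_le_longQ (N : Net V) (ok : V → V → Prop) {M R : ℕ} {A : List V} (hA : A.length + R ≤ M)
    (y : V) : Bt N (FM ok M) A y ≤ longQ ok N R y := by
  classical
  unfold longQ Bt
  refine le_trans (psum_mono N _ _ (G := fun ζ => if okc ok R ζ then lastf N.k ζ else 0)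
    fun π _ _ _ => ?_) (psum_anti N (Finset.empty_subset _) y fun π => ?_)
  · unfold FM
    by_cases h : okc ok M (A ++ π)
    · rw [if_pos h, if_pos (okc_right h hA), mul_one]
    · rw [if_neg h, mul_zero]
      split_ifs
      · exact lastf_nonneg N.k_nonneg π
      · exact le_rfl
  · split_ifs
    · exact lastf_nonneg N.k_nonneg π
    · exact le_rfl

lemma Kr_le_sum (N : Net V) (ok : V → V → Prop) {M R : ℕ} (v : V) : ∀ (t A : List V),
    A.length + t.length + R ≤ M + 1 →
    Kr N (FM ok M) A t v ≤ (t.map (longQ ok N R)).sum := by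
  intro t
  induction t with
  | nil => intro A _; rw [Kr]; simp
  | cons y t ih =>
    intro A hA
    rw [List.length_cons] at hA
    rw [Kr, List.map_cons, List.sum_cons]
    refine add_le_add ?_ (ih (A ++ [y]) (by rw [List.length_append, List.length_singleton]; omega))
    exact (mul_le_of_le_one_left (Bt_nonneg N ok M A y) (coef_le N _ v y)).trans
      (Bt_le_longQ N ok (by omega) y)

lemma Kr_le_surv (N : Net V) (ok : V → V → Prop) {M m : ℕ} (hm : m ≤ M) (v : V) :
    ∀ (t A : List V), (A ++ t).Nodup → m + 1 ≤ A.length →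
    Kr N (FM ok M) A t v ≤ FM ok m (A ++ t) *
      (surv N A.toFinset v - surv N (A ++ t).toFinset v) := by
  intro t
  induction t with
  | nil => intro A _ _; rw [Kr, List.append_nil, sub_self, mul_zero]
  | cons y t ih =>
    intro A hnd hA
    have e : A ++ [y] ++ t = A ++ y :: t := by simp
    have hyA : y ∉ A.toFinset := by
      intro h
      exact (List.nodup_append.1 hnd).2.2 y (List.mem_toFinset.1 h) y List.mem_cons_self rfl
    have h1 := ih (A ++ [y]) (by rw [e]; exact hnd)
      (by rw [List.length_append, List.length_singleton]; omega)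
    rw [e, toFinset_concat, surv_insert N hyA] at h1
    have h2 : Bt N (FM ok M) A y ≤ FM ok m (A ++ y :: t) * surv N A.toFinset y := by
      unfold Bt
      rw [← psum_surv, ← psum_const_mul]
      refine psum_mono N _ _ fun π _ _ _ => ?_
      rw [mul_comm (FM ok m (A ++ y :: t))]
      refine mul_le_mul_of_nonneg_left ?_ (lastf_nonneg N.k_nonneg π)
      unfold FM
      by_cases h : okc ok M (A ++ π)
      · rw [if_pos h, if_pos (okc_left h hm hA)]
      · rw [if_neg h]
        split_ifs <;> norm_num
    rw [Kr]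
    have h3 := mul_le_mul_of_nonneg_left h2 (coef_nonneg N A.toFinset v y)
    linarith

lemma sum_list_le (N : Net V) (ok : V → V → Prop) (R : ℕ) {t : List V} (ht : t.Nodup) :
    (t.map (longQ ok N R)).sum ≤ ∑ v, longQ ok N R v := by
  rw [← List.sum_toFinset _ ht]
  exact Finset.sum_le_sum_of_subset_of_nonneg (subset_univ _) fun v _ _ => longQ_nonneg ok N R v

open Classical in
/-- the estimate of the kernel -/
lemma KK_le (N1 : Net V) (ok : V → V → Prop) {R0 R M : ℕ} (hM : R0 + R ≤ M) {δ : ℝ}
    (hδ : ∑ v, longQ ok N1 R v ≤ δ) (B : List V → Prop)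
    (hB : ∀ A : List V, A.length = R0 + 1 → A.Nodup → ¬ B A →
      ∀ z, N1.k z ≠ 0 → surv N1 A.toFinset z ≤ 1 / 4)
    {P : List V} {v : V} (hnd : (P ++ [v]).Nodup) (hv : N1.k v ≠ 0) :
    KK N1 (FM ok M) (P ++ [v]) ≤ δ + 1 / 4 * FM ok (M - R) (P ++ [v]) +
      (if okc ok R0 (P ++ [v]) ∧ B ((P ++ [v]).take (R0 + 1)) then 1 else 0) := by
  set ξ := P ++ [v] with hξ
  have e : KK N1 (FM ok M) ξ = Kr N1 (FM ok M) [] ξ v := lastf_concat _ _ _
  have hvξ : v ∈ ξ := by rw [hξ]; simp
  obtain ⟨m, hm⟩ : ∃ m, m = M - R := ⟨_, rfl⟩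
  rw [← hm]
  have h1 : Kr N1 (FM ok M) [] ξ v = Kr N1 (FM ok M) [] (ξ.take (m + 1)) v +
      Kr N1 (FM ok M) (ξ.take (m + 1)) (ξ.drop (m + 1)) v := by
    conv_lhs => rw [← List.take_append_drop (m + 1) ξ]
    rw [Kr_append, List.nil_append]
  have h2 : Kr N1 (FM ok M) [] (ξ.take (m + 1)) v ≤ δ := by
    refine (Kr_le_sum N1 ok (R := R) v _ _ ?_).trans ((sum_list_le N1 ok R
      (hnd.sublist (List.take_sublist _ _))).trans hδ)
    have := List.length_take_le (m + 1) ξ
    rw [List.length_nil]
    omega
  have hind : (0 : ℝ) ≤ (if okc ok R0 ξ ∧ B (ξ.take (R0 + 1)) then 1 else 0) := by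
    split_ifs <;> norm_num
  rw [e, h1]
  by_cases hlen : m + 1 ≤ ξ.length
  · have hlen' : (ξ.take (m + 1)).length = m + 1 := by
      rw [List.length_take, min_eq_left hlen]
    have h3 := Kr_le_surv N1 ok (M := M) (m := m) (by omega) v (ξ.drop (m + 1)) (ξ.take (m + 1))
      (by rw [List.take_append_drop]; exact hnd) (by rw [hlen'])
    rw [List.take_append_drop, surv_mem N1 (List.mem_toFinset.2 hvξ), sub_zero] at h3
    have h4 : FM ok m ξ * surv N1 (ξ.take (m + 1)).toFinset v ≤ 1 / 4 * FM ok m ξ +
        (if okc ok R0 ξ ∧ B (ξ.take (R0 + 1)) then 1 else 0) := by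
      unfold FM
      by_cases h5 : okc ok m ξ
      · rw [if_pos h5]
        have h6 : okc ok R0 ξ := by
          refine ⟨by omega, ?_⟩
          have := h5.2.take (R0 + 1)
          rwa [List.take_take, min_eq_left (by omega)] at this
        by_cases h7 : B (ξ.take (R0 + 1))
        · rw [if_pos ⟨h6, h7⟩]
          have := surv_le_one N1 (ξ.take (m + 1)).toFinset v
          linarith
        · rw [if_neg (fun h => h7 h.2)]
          have h8 := hB (ξ.take (R0 + 1)) (by rw [List.length_take]; omega)
            (hnd.sublist (List.take_sublist _ _)) h7 v hv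
          have h9 : surv N1 (ξ.take (m + 1)).toFinset v ≤ surv N1 (ξ.take (R0 + 1)).toFinset v := by
            refine surv_anti N1 (fun z hz => ?_) v
            rw [List.mem_toFinset] at hz ⊢
            have h10 : ξ.take (R0 + 1) = (ξ.take (m + 1)).take (R0 + 1) := by
              rw [List.take_take, min_eq_left (by omega)]
            rw [h10] at hz
            exact List.mem_of_mem_take hz
          linarith
      · rw [if_neg h5, zero_mul, mul_zero, zero_add]
        exact hind
    linarith
  · have h3 : ξ.drop (m + 1) = [] := List.drop_eq_nil_of_le (by omega)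
    rw [h3, Kr]
    have := FM_nonneg ok m ξ
    linarith

end Ticks

open Ticks

open Classical in
/-- the tick argument: the killing of `N0` is a thinning of the killing of `N1` -/
theorem ticks (N0 N1 : Net V) (hκ : N0.κ = N1.κ) {q : ℝ} (hq0 : 0 < q) (hq1 : q ≤ 1)
    (hk : ∀ x, N0.k x = q * N1.k x) (ok : V → V → Prop) (x : V) (R0 R : ℕ) (hR : 1 ≤ R)
    {δ b : ℝ} (hδ : ∑ v, longQ ok N1 R v ≤ δ) (B : List V → Prop)
    (hB : ∀ A : List V, A.length = R0 + 1 → A.Nodup → ¬ B A →
      ∀ z, N1.k z ≠ 0 → surv N1 A.toFinset z ≤ 1 / 4)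
    (hb : psum N0 ∅ x (fun ζ => if (okc ok R0 ζ ∧ B (ζ.take (R0 + 1))) then lastf N0.k ζ else 0) ≤ b)
    (k : ℕ) :
    longQ ok N0 (R0 + k * R) x ≤ 4 / 3 * (δ + b) + (1 / 4) ^ k := by
  have ha : ∀ M, longQ ok N0 M x = psum N0 ∅ x (fun ξ => lastf N0.k ξ * FM ok M ξ) := by
    intro M
    unfold longQ
    refine psum_congr N0 _ _ fun π _ _ _ => ?_
    unfold FM
    split_ifs <;> ring
  have hδ0 : 0 ≤ δ := le_trans (Finset.sum_nonneg fun v _ => longQ_nonneg ok N1 R v) hδ
  have hb0 : 0 ≤ b := by
    refine le_trans (psum_nonneg N0 ∅ x fun π => ?_) hb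
    split_ifs
    · exact lastf_nonneg N0.k_nonneg π
    · exact le_rfl
  have hstep : ∀ M, R0 + R ≤ M → longQ ok N0 M x ≤ δ + b + 1 / 4 * longQ ok N0 (M - R) x := by
    intro M hM
    have h1 := resolvent N0 N1 hκ hk x (FM ok M)
    have h2 : KK N1 (FM ok M) [x] ≤ δ := by
      rw [KK_single]
      have e : psum N1 ∅ x (fun η => lastf N1.k η * FM ok M η) = longQ ok N1 M x := by
        unfold longQ
        refine psum_congr N1 _ _ fun π _ _ _ => ?_
        unfold FM
        split_ifs <;> ring
      rw [e]
      refine (longQ_anti ok N1 (by omega : R ≤ M) x).trans (le_trans ?_ hδ)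
      exact Finset.single_le_sum (f := fun v => longQ ok N1 R v)
        (fun v _ => longQ_nonneg ok N1 R v) (mem_univ x)
    have h3 : psum N0 ∅ x (fun ξ => lastf N0.k ξ * KK N1 (FM ok M) ξ) ≤
        δ + 1 / 4 * longQ ok N0 (M - R) x + b := by
      have h4 : psum N0 ∅ x (fun ξ => lastf N0.k ξ * KK N1 (FM ok M) ξ) ≤
          psum N0 ∅ x (fun ξ => (δ * lastf N0.k ξ + 1 / 4 * (lastf N0.k ξ * FM ok (M - R) ξ)) +
            (if (okc ok R0 ξ ∧ B (ξ.take (R0 + 1))) then lastf N0.k ξ else 0)) := by
        refine psum_mono N0 _ _ fun π hnd _ h => ?_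
        obtain rfl | ⟨P, v, rfl⟩ := List.eq_nil_or_concat π
        · simp at h
        · rw [List.concat_eq_append] at hnd h ⊢
          rw [lastf_concat]
          by_cases hv : N1.k v = 0
          · rw [hk v, hv]
            simp
          · have h5 := mul_le_mul_of_nonneg_left (KK_le N1 ok hM hδ B hB hnd hv)
              (N0.k_nonneg v)
            refine h5.trans (le_of_eq ?_)
            split_ifs <;> ring
      refine h4.trans ?_
      rw [psum_add, psum_add, psum_const_mul, psum_const_mul, psum_one, ← ha]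
      linarith
    have h6 : 0 ≤ longQ ok N0 (M - R) x := longQ_nonneg ok N0 _ x
    rw [ha M, h1]
    have h7 : q * KK N1 (FM ok M) [x] ≤ q * δ := mul_le_mul_of_nonneg_left h2 hq0.le
    have h8 := mul_le_mul_of_nonneg_left h3 (sub_nonneg.2 hq1)
    have h9 : (1 - q) * (δ + 1 / 4 * longQ ok N0 (M - R) x + b) ≤
        (1 - q) * δ + (1 / 4 * longQ ok N0 (M - R) x + b) := by
      have : 0 ≤ q * (1 / 4 * longQ ok N0 (M - R) x + b) := by positivity
      nlinarith
    linarith
  induction k with
  | zero =>
    have := longQ_le_one ok N0 (R0 + 0 * R) x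
    have h : 0 ≤ 4 / 3 * (δ + b) := by positivity
    rw [pow_zero]
    linarith
  | succ k ih =>
    have h1 := hstep (R0 + (k + 1) * R) (by nlinarith)
    have e : R0 + (k + 1) * R - R = R0 + k * R := by
      have : (k + 1) * R = k * R + R := by ring
      omega
    rw [e] at h1
    rw [pow_succ]
    linarith

end

end Pool.Agent.TH972.U
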