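import Pool.Agent.TH972.U.Run
import Pool.Agent.TH972.U.Strong
import Pool.Agent.TH972.U.Ticks
import Pool.Agent.TH972.U.Hit
import Pool.Agent.TH972.U.Gap

/-!
# Long loop-erased paths are rare if the path sum is small
-/

set_option autoImplicit false
set_option linter.unusedSectionVars false
set_option linter.unusedVariables false

namespace Pool.Agent.TH972.U

open Finset MeasureTheory Pool.Agent.W842.RST Pool.Agent.TH972

noncomputable section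

variable {n : ℕ}

namespace Assem

/-- few strong successes -/
def Bad (P : SP n) (U : Ev n) (N₀ : ℕ) (A : List (Fin n)) : Prop :=
  P.nss U A.toFinset A ∅ none < N₀

/-- the allowed steps -/
def okP (P : SP n) (U : Ev n) (u v : Fin n) : Prop := U s(u, v) ≤ P.gam P.I

/-- allowed lists with few strong successes -/
def PB (P : SP n) (U : Ev n) (N₀ : ℕ) (A : List (Fin n)) : Prop :=
  A.IsChain (okP P U) ∧ Bad P U N₀ A

/-- long allowed lists with many strong successes -/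
def PG (P : SP n) (U : Ev n) (N₀ m : ℕ) (ζ : List (Fin n)) : Prop :=
  okc (okP P U) m ζ ∧ ¬ Bad P U N₀ (ζ.take (m + 1))

/-- the path sum from a vertex -/
def Sx (P : SP n) (U : Ev n) (m : ℕ) (x : Fin n) : ℝ :=
  ∑ π ∈ spaths m x ∅, P.wsum (1 / 20) U π.toFinset π ∅ none

theorem wsum_one_le (P : SP n) (U : Ev n) {N₀ : ℕ} {A : List (Fin n)} (h : Bad P U N₀ A) :
    P.wsum 1 U A.toFinset A ∅ none ≤ 20 ^ N₀ * P.wsum (1 / 20) U A.toFinset A ∅ none := by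
  have h1 := wsum_nonneg P (zero_le_one' ℝ) U A.toFinset A
  rw [wsum_eq P (1 / 20)]
  have h2 : (20 : ℝ) ^ (P.nss U A.toFinset A ∅ none) ≤ 20 ^ N₀ :=
    pow_le_pow_right₀ (by norm_num) (le_of_lt h)
  have h3 : (20 : ℝ) ^ (P.nss U A.toFinset A ∅ none) * (1 / 20) ^ (P.nss U A.toFinset A ∅ none) = 1 := by
    rw [← mul_pow]
    norm_num
  have h4 : 1 ≤ (20 : ℝ) ^ N₀ * (1 / 20) ^ (P.nss U A.toFinset A ∅ none) :=
    h3.symm.le.trans (mul_le_mul_of_nonneg_right h2 (by positivity))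
  calc P.wsum 1 U A.toFinset A ∅ none = 1 * P.wsum 1 U A.toFinset A ∅ none := by rw [one_mul]
    _ ≤ (20 : ℝ) ^ N₀ * (1 / 20) ^ (P.nss U A.toFinset A ∅ none) *
        P.wsum 1 U A.toFinset A ∅ none := mul_le_mul_of_nonneg_right h4 h1
    _ = _ := by ring

open Classical in
/-- the part with few strong successes -/
theorem bpart (P : SP n) (U : Ev n) (E : BlkEnv (Fin n)) {pl pb : ℝ} {s1 J : ℕ} {Tl : ℝ}
    (H : Lnk P U E pl pb s1 J Tl) {k0 k1 : ℝ} (hk0 : 0 < k0) (hk1 : 0 < k1) (hk : k0 ≤ k1)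
    {r : ℝ} (hr : 3 * (E.ρb + 1 / E.cn + 4 / (k0 * E.M.card) + 16 * (E.C + E.ρb)) ≤ r)
    (hRs : ∀ j : ℕ, 2 * (J * Real.exp j + (J + 1) * Tl + r) ≤ P.Rs j) (N₀ m : ℕ) (x : Fin n) :
    psum (E.net k1 hk1) ∅ x (fun ζ => if (okc (okP P U) m ζ ∧ Bad P U N₀ (ζ.take (m + 1)))
      then lastf (E.net k1 hk1).k ζ else 0) ≤ 20 ^ N₀ * Sx P U m x := by
  have h1 := psum_split (E.net k1 hk1) x m (PB P U N₀)
  have h2 : psum (E.net k1 hk1) ∅ x (fun ζ => if (okc (okP P U) m ζ ∧ Bad P U N₀ (ζ.take (m + 1)))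
      then lastf (E.net k1 hk1).k ζ else 0) ≤
      psum (E.net k1 hk1) ∅ x (fun ζ => if (m + 1 ≤ ζ.length ∧ PB P U N₀ (ζ.take (m + 1)))
      then lastf (E.net k1 hk1).k ζ else 0) := by
    refine psum_mono _ _ _ fun π _ _ _ => ?_
    by_cases hc : okc (okP P U) m π ∧ Bad P U N₀ (π.take (m + 1))
    · rw [if_pos hc, if_pos ⟨hc.1.1, hc.1.2, hc.2⟩]
    · rw [if_neg hc, if_neg]
      rintro ⟨a1, a2, a3⟩
      exact hc ⟨⟨a1, a2⟩, a3⟩
  refine h2.trans (h1.trans ?_)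
  have hkx : ∀ y, (E.net k0 hk0).k y ≤ (E.net k1 hk1).k y := by
    intro y
    show (if y ∈ E.M then k0 else 0) ≤ (if y ∈ E.M then k1 else 0)
    split_ifs
    · exact hk
    · exact le_rfl
  have h3 : ∀ A ∈ (spaths m x ∅).filter (PB P U N₀),
      pref (E.net k1 hk1) A ≤ 20 ^ N₀ * P.wsum (1 / 20) U A.toFinset A ∅ none := by
    intro A hA
    rw [mem_filter, mem_spaths] at hA
    refine (pref_anti_k (E.net k0 hk0) (E.net k1 hk1) rfl hkx A).trans ?_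
    exact (pref_le_wsum P U E H hk0 hr hRs A hA.1.2.1 hA.2.1).trans (wsum_one_le P U hA.2.2)
  refine (sum_le_sum h3).trans ?_
  rw [← mul_sum]
  refine mul_le_mul_of_nonneg_left ?_ (by positivity)
  exact sum_le_sum_of_subset_of_nonneg (filter_subset _ _) fun A _ _ =>
    wsum_nonneg P (by norm_num) U A.toFinset A

theorem En_nonneg (E : BlkEnv (Fin n)) (f : Fin n → ℝ) : 0 ≤ En E.κ f := by
  rw [← Marks.EnIn_univ]
  exact Marks.EnIn_nonneg E.κ_pos univ f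

open Classical in
/-- the part with many strong successes -/
theorem gpart (P : SP n) (U : Ev n) (E : BlkEnv (Fin n)) {pl pb : ℝ} {s1 J : ℕ} {Tl : ℝ}
    (H : Lnk P U E pl pb s1 J Tl) {k1 : ℝ} (hk1 : 0 < k1)
    {a : ℝ} (ha : 0 < a) (hcap : ∀ v, 1 / a ≤ grn (E.net k1 hk1) ∅ v v)
    (hTl : 4 * a * Tl ≤ 1) (N₀ : ℕ) (m : ℕ) {Φ : ℝ}
    (hΦ : Φ ≤ k1 * N₀ * s1 / (8 * a * ((1 + a * Real.exp P.lam) ^ J *
      Real.exp (a * ((J + 1) * Tl))) ^ 2)) (x : Fin n) :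
    psum (E.net k1 hk1) ∅ x (fun ζ => if PG P U N₀ m ζ
      then lastf (E.net k1 hk1).k ζ else 0) ≤ 2 * Real.exp (-Φ) := by
  refine good_mass (E.net k1 hk1) x (PG P U N₀ m) Φ fun ζ hζ hG => ?_
  obtain ⟨T⟩ := strong_att P U E H (ζ.take (m + 1)) (hζ.sublist (List.take_sublist _ _))
  have hN : N₀ ≤ T.I.card := by
    rw [T.card]
    exact not_lt.1 hG.2
  have hs1 : (0 : ℝ) < s1 := by
    have := H.hs1
    exact_mod_cast this
  obtain ⟨Pc, hPc⟩ : ∃ Pc : ℝ, Pc = (1 + a * Real.exp P.lam) ^ J * Real.exp (a * ((J + 1) * Tl)) :=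
    ⟨_, rfl⟩
  have hP0 : 0 < Pc := by
    rw [hPc]
    have := Real.exp_pos P.lam
    positivity
  rw [← hPc] at hΦ
  have hsub : (ζ.take (m + 1)).toFinset ⊆ ζ.toFinset := by
    intro z hz
    rw [List.mem_toFinset] at hz ⊢
    exact List.mem_of_mem_take hz
  have hpp : ∀ i ∈ T.I, grn (E.net k1 hk1) ∅ (T.u i) (T.u i) ≤
        Pc * grn (E.net k1 hk1) ∅ (T.w i) (T.u i) ∧
      grn (E.net k1 hk1) ∅ (T.w i) (T.w i) ≤ Pc * grn (E.net k1 hk1) ∅ (T.w i) (T.u i) := by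
    intro i hi
    obtain ⟨t, y, e1, e2, e3, e4⟩ := T.hpath i hi
    have g1 := grn_path (E.net k1 hk1) ha hcap y t e3
    have g2 := grn_path' (E.net k1 hk1) ha hcap y t e3
    have g3 := e4 a ha
    have g4 : (∏ j ∈ range t, (1 + a / Kc (E.net k1 hk1).κ (y j) (y (j + 1)))) ≤ Pc := by
      rw [hPc]
      exact g3
    rw [e1, e2] at g1 g2
    have g5 := grn_nonneg (E.net k1 hk1) ∅ (T.w i) (T.u i)
    exact ⟨g1.trans (mul_le_mul_of_nonneg_right g4 g5),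
      g2.trans (mul_le_mul_of_nonneg_right g4 g5)⟩
  have hgap := E.gap hk1 ha hcap ζ.toFinset T.I T.B T.u T.w (s1 := (s1 : ℝ)) (P := Pc) hs1 hP0
    T.hB (fun i hi => by exact_mod_cast T.hBs i hi) T.hdisj (fun i hi => hsub (T.hw i hi))
    (fun i hi => (hpp i hi).1) (fun i hi => (hpp i hi).2)
    (fun i hi g hg f => by
      refine (T.hlow i hi g hg f).trans (mul_le_mul_of_nonneg_right ?_ (En_nonneg E f))
      rw [le_div_iff₀ (by positivity)]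
      linarith)
  refine hΦ.trans (le_trans ?_ hgap)
  have hN' : (N₀ : ℝ) ≤ (T.I.card : ℝ) := by exact_mod_cast hN
  refine div_le_div_of_nonneg_right ?_ (by positivity)
  exact mul_le_mul_of_nonneg_right (mul_le_mul_of_nonneg_left hN' hk1.le) hs1.le

open Classical in
theorem longQ_le (P : SP n) (U : Ev n) (E : BlkEnv (Fin n)) {pl pb : ℝ} {s1 J : ℕ} {Tl : ℝ}
    (H : Lnk P U E pl pb s1 J Tl) {k0 k1 : ℝ} (hk0 : 0 < k0) (hk1 : 0 < k1) (hk : k0 ≤ k1)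
    {a r : ℝ} (ha : 0 < a) (hcap : ∀ v, 1 / a ≤ grn (E.net k1 hk1) ∅ v v)
    (hTl : 4 * a * Tl ≤ 1)
    (hr : 3 * (E.ρb + 1 / E.cn + 4 / (k0 * E.M.card) + 16 * (E.C + E.ρb)) ≤ r)
    (hRs : ∀ j : ℕ, 2 * (J * Real.exp j + (J + 1) * Tl + r) ≤ P.Rs j)
    (N₀ : ℕ) (m : ℕ) {Φ : ℝ}
    (hΦ : Φ ≤ k1 * N₀ * s1 / (8 * a * ((1 + a * Real.exp P.lam) ^ J *
      Real.exp (a * ((J + 1) * Tl))) ^ 2)) (x : Fin n) :
    longQ (okP P U) (E.net k1 hk1) m x ≤ 2 * Real.exp (-Φ) + 20 ^ N₀ * Sx P U m x := by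
  have h1 := gpart P U E H hk1 ha hcap hTl N₀ m hΦ x
  have h2 := bpart P U E H hk0 hk1 hk hr hRs N₀ m x
  refine le_trans ?_ (add_le_add h1 h2)
  rw [← psum_add]
  unfold longQ
  refine psum_mono _ _ _ fun π _ _ _ => ?_
  by_cases hc : okc (okP P U) m π
  · by_cases hB : Bad P U N₀ (π.take (m + 1))
    · rw [if_pos hc, if_neg (fun h => h.2 hB), if_pos ⟨hc, hB⟩, zero_add]
    · rw [if_pos hc, if_pos ⟨hc, hB⟩, if_neg (fun h => hB h.2), add_zero]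
  · rw [if_neg hc, if_neg (fun h => hc h.1), if_neg (fun h => hc h.1), add_zero]

end Assem

open Assem

/-- long loop-erased paths are rare if the path sum is small -/
theorem long_le (P : SP n) (U : Ev n) (E : BlkEnv (Fin n)) {pl pb : ℝ} {s1 J : ℕ} {Tl : ℝ}
    (H : Lnk P U E pl pb s1 J Tl) {k0 k1 : ℝ} (hk0 : 0 < k0) (hk1 : 0 < k1) (hk : k0 ≤ k1)
    {a r : ℝ} (ha : 0 < a) (hcap : ∀ v, 1 / a ≤ grn (E.net k1 hk1) ∅ v v)
    (hTl : 4 * a * Tl ≤ 1)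
    (hr : 3 * (E.ρb + 1 / E.cn + 4 / (k0 * E.M.card) + 16 * (E.C + E.ρb)) ≤ r)
    (hRs : ∀ j : ℕ, 2 * (J * Real.exp j + (J + 1) * Tl + r) ≤ P.Rs j)
    (N₀ : ℕ) (hN : 1 ≤ N₀) (hQ : 1 ≤ k1 * E.M.card)
    (h1 : 128 * (k1 * E.M.card) * (4 * (J + 2) * Real.exp P.lam + E.smax * E.C / s1) ≤ N₀)
    (h2 : 512 * k1 * (k1 * E.M.card) * (1 + 40 * (E.C + E.ρb)) * (E.smax * E.C) ≤ 1)
    (m : ℕ) (hm : 1 ≤ m) {Φ S : ℝ}
    (hΦ : Φ ≤ k1 * N₀ * s1 / (8 * a * ((1 + a * Real.exp P.lam) ^ J *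
      Real.exp (a * ((J + 1) * Tl))) ^ 2))
    (hS : ∑ x, ∑ π ∈ spaths m x ∅, P.wsum (1 / 20) U π.toFinset π ∅ none ≤ S) (k : ℕ) :
    ∑ x, longQ (fun u v => U s(u, v) ≤ P.gam P.I) (E.net k0 hk0) (m + k * m) x ≤
      4 / 3 * (n * (2 * n * Real.exp (-Φ) + 20 ^ N₀ * S) + 20 ^ N₀ * S) + n * (1 / 4) ^ k := by
  classical
  have hS' : ∑ x, Sx P U m x ≤ S := hS
  have hδ : ∑ v, longQ (okP P U) (E.net k1 hk1) m v ≤
      2 * n * Real.exp (-Φ) + 20 ^ N₀ * S := by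
    refine (sum_le_sum fun x _ => longQ_le P U E H hk0 hk1 hk ha hcap hTl hr hRs N₀ m hΦ x).trans ?_
    rw [sum_add_distrib, sum_const, card_univ, Fintype.card_fin, nsmul_eq_mul, ← mul_sum]
    have := mul_le_mul_of_nonneg_left hS' (by positivity : (0 : ℝ) ≤ 20 ^ N₀)
    linarith
  have hs1 : (0 : ℝ) < s1 := by
    have := H.hs1
    exact_mod_cast this
  have hkq : ∀ x, (E.net k0 hk0).k x = k0 / k1 * (E.net k1 hk1).k x := by
    intro x
    show (if x ∈ E.M then k0 else 0) = k0 / k1 * (if x ∈ E.M then k1 else 0)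
    split_ifs
    · field_simp
    · ring
  have hB : ∀ A : List (Fin n), A.length = m + 1 → A.Nodup → ¬ Bad P U N₀ A →
      ∀ z, (E.net k1 hk1).k z ≠ 0 → surv (E.net k1 hk1) A.toFinset z ≤ 1 / 4 := by
    intro A hA hnd hbad z hz
    obtain ⟨T⟩ := strong_att P U E H A hnd
    have hN' : N₀ ≤ T.I.card := by
      rw [T.card]
      exact not_lt.1 hbad
    have hzM : z ∈ E.M := by
      by_contra hzM
      apply hz
      show (if z ∈ E.M then k1 else 0) = 0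
      rw [if_neg hzM]
    have hN'' : (N₀ : ℝ) ≤ (T.I.card : ℝ) := by exact_mod_cast hN'
    exact E.hit hk1 A.toFinset T.I T.B T.Z (s1 := (s1 : ℝ))
      (R := 4 * (J + 2) * Real.exp P.lam) hs1 (by positivity) (by omega)
      T.hB (fun i hi => by exact_mod_cast T.hBs i hi) T.hatt T.hdisj T.hZ hQ (h1.trans hN'')
      h2 z hzM
  have key : ∀ x, longQ (okP P U) (E.net k0 hk0) (m + k * m) x ≤
      4 / 3 * ((2 * n * Real.exp (-Φ) + 20 ^ N₀ * S) + 20 ^ N₀ * Sx P U m x) + (1 / 4) ^ k := by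
    intro x
    exact ticks (E.net k0 hk0) (E.net k1 hk1) rfl (q := k0 / k1) (by positivity)
      (by rw [div_le_one hk1]; exact hk) hkq (okP P U) x m m hm hδ (Bad P U N₀) hB
      (bpart P U E H hk0 hk0 le_rfl hr hRs N₀ m x) k
  refine (sum_le_sum fun x _ => key x).trans ?_
  rw [sum_add_distrib, ← mul_sum, sum_add_distrib, ← mul_sum, sum_const, sum_const, card_univ,
    Fintype.card_fin, nsmul_eq_mul, nsmul_eq_mul]
  have := mul_le_mul_of_nonneg_left hS' (by positivity : (0 : ℝ) ≤ 20 ^ N₀)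
  linarith

end

end Pool.Agent.TH972.U
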