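import Pool.Agent.TH972.GibbsK

/-!
# Averages of sums
-/

set_option autoImplicit false
set_option linter.unusedSectionVars false
set_option maxHeartbeats 4000000

namespace Pool.Agent.TH972.U

open Finset MeasureTheory Pool.Agent.W842.RST Pool.Agent.TH972

noncomputable section

variable {n : ℕ}

/-- averages over the environment of a sum of probabilities -/
theorem avgw_sum_ge {w : ℝ → ℝ} (hw : ∀ u, 0 < w u) (hm : Measurable w)
    (A : Fin n → SimpleGraph (Fin n) → Prop) (Bad : Set (Sym2 (Fin n) → ℝ)) {η δ : ℝ}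
    (hη : 0 ≤ η) (hδ : 0 ≤ δ) (hBad : env n Bad ≤ ENNReal.ofReal η)
    (h : ∀ U, U ∉ Bad → (1 - δ) * n ≤ ∑ v, GG (fun e => w (U e)) (A v)) :
    (1 - δ - η) * n ≤ ∑ v, avgw w n (A v) := by
  classical
  set B := toMeasurable (env n) Bad with hB
  have hBm : MeasurableSet B := measurableSet_toMeasurable _ _
  have hBe : env n B = env n Bad := measure_toMeasurable _
  have hsub : Bad ⊆ B := subset_toMeasurable _ _
  have hint : ∀ v, Integrable (fun U : Sym2 (Fin n) → ℝ => GG (fun e => w (U e)) (A v)) (env n) :=
    fun v => integrable_GG (n := n) hw hm (A v)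
  have h0 : ∑ v, avgw w n (A v) = ∫ U, ∑ v, GG (fun e => w (U e)) (A v) ∂(env n) := by
    unfold avgw
    rw [integral_finsetSum _ (fun v _ => hint v)]
  have h1 : ∫ U, (Bᶜ).indicator (fun _ => ((1 - δ) * n : ℝ)) U ∂(env n) ≤
      ∫ U, ∑ v, GG (fun e => w (U e)) (A v) ∂(env n) := by
    apply integral_mono _ (integrable_finsetSum _ (fun v _ => hint v))
    · intro U
      simp only [Set.indicator_apply]
      split_ifs with hU
      · exact h U (fun hU' => hU (hsub hU'))
      · exact Finset.sum_nonneg fun v _ => GG_nonneg (fun e => hw _) (A v)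
    · exact (integrable_const _).indicator hBm.compl
  rw [integral_indicator_const _ hBm.compl] at h1
  have h2 : (env n).real Bᶜ = 1 - (env n).real B := by
    rw [measureReal_compl hBm]
    simp
  have h3 : (env n).real B ≤ η := by
    rw [measureReal_def, hBe]
    exact ENNReal.toReal_le_of_le_ofReal hη hBad
  have h4 : 0 ≤ (env n).real B := measureReal_nonneg
  rw [h2, smul_eq_mul] at h1
  rw [h0]
  refine le_trans ?_ h1
  rw [← mul_assoc]
  refine mul_le_mul_of_nonneg_right ?_ (Nat.cast_nonneg n)
  nlinarith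

end

end Pool.Agent.TH972.U
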