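import Pool.Agent.TH972.U.PDef

/-!
# Blocks (definitions)
-/

set_option autoImplicit false
set_option linter.unusedSectionVars false

namespace Pool.Agent.TH972.U

open Finset

noncomputable section

variable {V : Type} [Fintype V] [DecidableEq V]

/-- the energy of the edges inside `W` -/
def EnIn (κ : Sym2 V → ℝ) (W : Finset V) (f : V → ℝ) : ℝ :=
  (∑ x ∈ W, ∑ y ∈ W, Kc κ x y * (f x - f y) ^ 2) / 2

/-- connected inside `W` -/
def rin (G : SimpleGraph V) (W : Finset V) (u v : V) : Prop :=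
  ∃ p : G.Walk u v, ∀ z ∈ p.support, z ∈ W

open Classical in
/-- the cluster of `v` -/
def cmp (G : SimpleGraph V) (v : V) : Finset V := univ.filter (fun u => G.Reachable v u)

open Classical in
/-- the vertices in the large clusters -/
def gd (G : SimpleGraph V) (s0 : ℕ) : Finset V := univ.filter (fun v => s0 ≤ (cmp G v).card)

/-- the large clusters -/
def blks (G : SimpleGraph V) (s0 : ℕ) : Finset (Finset V) := (gd G s0).image (cmp G)

/-- number of edges of conductance at least `cn` between two sets -/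
def nE (κ : Sym2 V → ℝ) (cn : ℝ) (S S' : Finset V) : ℝ :=
  open Classical in ((S ×ˢ S').filter (fun q => cn ≤ Kc κ q.1 q.2)).card

/-- a network with well connected blocks and marks -/
structure BlkEnv (V : Type) [Fintype V] [DecidableEq V] where
  κ : Sym2 V → ℝ
  κ_pos : ∀ e, 0 < κ e
  Hb : SimpleGraph V
  s0 : ℕ
  s0_pos : 1 ≤ s0
  C : ℝ
  ρb : ℝ
  cn : ℝ
  C_pos : 0 < C
  ρb_pos : 0 < ρb
  cn_pos : 0 < cn
  /-- marks -/
  M : Finset V
  M_good : M ⊆ gd Hb s0
  smax : ℝ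
  hsmax : ∀ v, ((cmp Hb v).card : ℝ) ≤ smax
  hM : 2 * smax ≤ M.card
  hM0 : 0 < M.card
  /-- resistances inside the clusters -/
  path : ∀ (W : Finset V) (u v : V), rin Hb W u v → ∀ f : V → ℝ,
    (f u - f v) ^ 2 ≤ ρb * EnIn κ W f
  /-- Poincare inequality for the blocks, also with one block removed -/
  poinc : ∀ bs : Finset V, (bs = ∅ ∨ bs ∈ blks Hb s0) → ∀ f : V → ℝ, ∃ c : ℝ,
    ∀ rep : Finset V → V, (∀ S ∈ blks Hb s0, rep S ∈ S) →
      ∑ S ∈ (blks Hb s0).erase bs, (f (rep S) - c) ^ 2 ≤ C * EnIn κ (gd Hb s0 \ bs) f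
  /-- robustness: a large part of a block minus a vertex has an edge to another block -/
  rob : ∀ (v : V) (K : Finset V), v ∉ K → s0 ≤ K.card → (∀ x ∈ K, ∀ y, y ≠ v → Hb.Adj x y → y ∈ K) →
    (∀ x ∈ K, ∀ y ∈ K, rin Hb K x y) → (∃ x ∈ K, Hb.Reachable v x) →
    ∃ x ∈ K, ∃ y ∈ gd Hb s0, ¬ Hb.Reachable v y ∧ cn ≤ Kc κ x y

end

end Pool.Agent.TH972.U
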