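import Pool.Agent.TH972.U.Lvl
import Pool.Agent.W842.RST.Ex

/-!
# Lifting with a general functional (job RSTRE X0b, helper230 for helper972)
-/

set_option autoImplicit false

namespace Pool.Agent.TH972.U

open Finset MeasureTheory Pool.Agent.W842.RST Pool.Agent.TH972

noncomputable section

variable {n : ℕ}

namespace Lift

open Classical in
/-- the set of the open edges is measurable in the comparisons -/
theorem filter_eq {p' : ℝ} (E0 : Finset (Sym2 (Fin n))) {U U' : Ev n} (h : lvlEq {p'} U U') :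
    E0.filter (fun e => U e ≤ p') = E0.filter (fun e => U' e ≤ p') := by
  ext e
  rw [mem_filter, mem_filter, h e p' (by simp)]

theorem bm_B {L : Finset ℝ} {B : Ev n → Prop} (hB : ∀ U U', lvlEq L U U' → (B U ↔ B U')) :
    BM (fun U => ind (B U)) := by
  refine BM_lvl L fun U U' h => ?_
  have := hB U U' h
  simp only [this]

open Classical in
theorem bm_f {p' : ℝ} (E0 S : Finset (Sym2 (Fin n))) :
    BM (fun U : Ev n => ind (E0.filter (fun e => U e ≤ p') = S)) := by
  refine BM_lvl {p'} fun U U' h => ?_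
  simp only [filter_eq E0 h]

open Classical in
/-- the probability of one pattern -/
theorem one {p p' : ℝ} (h0 : 0 ≤ p) (hpp : p ≤ p') (h1 : p' ≤ 1) (hp1 : p < 1)
    (L : Finset ℝ) (hL : ∀ l ∈ L, l ≤ p) (E0 : Finset (Sym2 (Fin n))) (B : Ev n → Prop)
    (hB : ∀ U U', lvlEq L U U' → (B U ↔ B U')) (hBE : ∀ U, B U → ∀ e ∈ E0, p < U e)
    {S : Finset (Sym2 (Fin n))} (hS : S ⊆ E0) :
    Ex (fun U => ind (B U) * ind (E0.filter (fun e => U e ≤ p') = S)) =
      Ex (fun U : Ev n => ind (B (fun e => if e ∈ E0 then 1 else U e))) *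
        ((p' - p) ^ S.card * (1 - p') ^ (E0 \ S).card) := by
  have hlv : ∀ U : Ev n, (∀ e ∈ E0, p < U e) →
      lvlEq L U (fun e => if e ∈ E0 then 1 else U e) := by
    intro U hU e l hl
    by_cases he : e ∈ E0
    · simp only [if_pos he]
      have h2 := hU e he
      have h3 := hL l hl
      constructor
      · intro h4; linarith
      · intro h4; linarith
    · simp only [if_neg he]
  have h2 : ∀ U : Ev n, ind (B U) * ind (E0.filter (fun e => U e ≤ p') = S) =
      ind (B (fun e => if e ∈ E0 then 1 else U e)) *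
        ((∏ e ∈ S, (0 + (-1) * ind (U e ≤ p) + 1 * ind (U e ≤ p'))) *
          ∏ e ∈ E0 \ S, (1 + 0 * ind (U e ≤ p) + (-1) * ind (U e ≤ p'))) := by
    intro U
    by_cases h4 : ∀ e ∈ E0, p < U e
    · have e1 : ind (B U) = ind (B (fun e => if e ∈ E0 then 1 else U e)) := by
        by_cases h6 : B U
        · rw [ind_true h6, ind_true ((hB _ _ (hlv U h4)).1 h6)]
        · rw [ind_false h6, ind_false fun h7 => h6 ((hB _ _ (hlv U h4)).2 h7)]
      rw [← e1]
      congr 1
      by_cases h5 : E0.filter (fun e => U e ≤ p') = S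
      · rw [ind_true h5, Finset.prod_eq_one, Finset.prod_eq_one, one_mul]
        · intro e he
          rw [Finset.mem_sdiff, ← h5, Finset.mem_filter] at he
          have h7 : ¬ U e ≤ p' := fun h => he.2 ⟨he.1, h⟩
          rw [ind_false h7]
          ring
        · intro e he
          rw [← h5, Finset.mem_filter] at he
          rw [ind_true he.2, ind_false (not_le.2 (h4 e he.1))]
          ring
      · rw [ind_false h5]
        symm
        by_cases h7 : ∃ e ∈ S, ¬ U e ≤ p'
        · obtain ⟨e, he, h8⟩ := h7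
          rw [Finset.prod_eq_zero he, zero_mul]
          rw [ind_false h8, ind_false (fun h => h8 (h.trans hpp))]
          ring
        · push Not at h7
          have h9 : ∃ e ∈ E0 \ S, U e ≤ p' := by
            by_contra hcon
            push Not at hcon
            apply h5
            ext e
            rw [Finset.mem_filter]
            constructor
            · rintro ⟨h10, h11⟩
              by_contra h12
              have := hcon e (Finset.mem_sdiff.2 ⟨h10, h12⟩)
              linarith
            · intro h10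
              exact ⟨hS h10, h7 e h10⟩
          obtain ⟨e, he, h8⟩ := h9
          rw [Finset.prod_eq_zero (s := E0 \ S) he, mul_zero]
          rw [ind_true h8]
          ring
    · rw [ind_false fun h5 => h4 (hBE U h5), zero_mul]
      push Not at h4
      obtain ⟨e, he, hle⟩ := h4
      symm
      by_cases heS : e ∈ S
      · rw [Finset.prod_eq_zero (s := S) heS, zero_mul, mul_zero]
        rw [ind_true hle, ind_true (hle.trans hpp)]
        ring
      · rw [Finset.prod_eq_zero (s := E0 \ S) (Finset.mem_sdiff.2 ⟨he, heS⟩), mul_zero, mul_zero]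
        rw [ind_true (hle.trans hpp)]
        ring
  rw [Ex_congr h2, Ex_mul_of_dependsOn (F := fun U : Ev n =>
      ind (B (fun e => if e ∈ E0 then 1 else U e)))
    (G := fun U : Ev n => (∏ e ∈ S, (0 + (-1) * ind (U e ≤ p) + 1 * ind (U e ≤ p'))) *
          ∏ e ∈ E0 \ S, (1 + 0 * ind (U e ≤ p) + (-1) * ind (U e ≤ p')))
    {e | e ∉ E0}]
  · congr 1
    rw [Ex_mul_of_dependsOn (F := fun U : Ev n =>
        ∏ e ∈ S, (0 + (-1) * ind (U e ≤ p) + 1 * ind (U e ≤ p')))
      (G := fun U : Ev n => ∏ e ∈ E0 \ S, (1 + 0 * ind (U e ≤ p) + (-1) * ind (U e ≤ p')))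
      {e | e ∈ S}]
    · rw [Lvl.Ex_prod S (fun t => 0 + (-1) * ind (t ≤ p) + 1 * ind (t ≤ p'))
        (Lvl.meas_comb _ _ _ _ _), Lvl.int_comb h0 hp1.le (h0.trans hpp) h1,
        Lvl.Ex_prod (E0 \ S) (fun t => 1 + 0 * ind (t ≤ p) + (-1) * ind (t ≤ p'))
        (Lvl.meas_comb _ _ _ _ _), Lvl.int_comb h0 hp1.le (h0.trans hpp) h1]
      congr 2
      · ring
      · ring
    · intro U U' h
      refine Finset.prod_congr rfl fun e he => ?_
      have : U e = U' e := h e he
      rw [this]
    · intro U U' h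
      refine Finset.prod_congr rfl fun e he => ?_
      have : U e = U' e := h e (by
        rw [Set.mem_compl_iff, Set.mem_ofPred_eq]
        exact (Finset.mem_sdiff.1 he).2)
      rw [this]
  · intro U U' h
    have h3 : (fun e => if e ∈ E0 then (1 : ℝ) else U e) =
        fun e => if e ∈ E0 then (1 : ℝ) else U' e := by
      funext e
      by_cases he : e ∈ E0
      · rw [if_pos he, if_pos he]
      · rw [if_neg he, if_neg he]
        exact h e he
    simp only [h3]
  · intro U U' h
    have h3 : ∀ e ∈ E0, U e = U' e := fun e he => h e (by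
      rw [Set.mem_compl_iff, Set.mem_ofPred_eq, not_not]
      exact he)
    refine congrArg₂ _ ?_ ?_
    · refine Finset.prod_congr rfl fun e he => ?_
      rw [h3 e (hS he)]
    · refine Finset.prod_congr rfl fun e he => ?_
      rw [h3 e (Finset.mem_sdiff.1 he).1]

/-- the expectation over the Bernoulli set -/
theorem ex_eq {p p' : ℝ} (hp1 : p < 1) (E0 : Finset (Sym2 (Fin n)))
    (g : Finset (Sym2 (Fin n)) → ℝ) :
    (1 - p) ^ E0.card * ex ((p' - p) / (1 - p)) E0 g =
      ∑ S ∈ E0.powerset, (p' - p) ^ S.card * (1 - p') ^ (E0 \ S).card * g S := by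
  unfold ex
  rw [Finset.mul_sum]
  refine Finset.sum_congr rfl fun S hS => ?_
  have hS' := Finset.mem_powerset.1 hS
  have h1 : E0.card = S.card + (E0 \ S).card := by
    rw [Finset.card_sdiff_of_subset hS']
    have := Finset.card_le_card hS'
    omega
  have hp : (1 - p) ≠ 0 := by linarith
  have h2 : 1 - (p' - p) / (1 - p) = (1 - p') / (1 - p) := by
    field_simp
    ring
  rw [h1, h2, div_pow, div_pow, pow_add]
  field_simp

open Classical in
theorem expand {p' : ℝ} (E0 : Finset (Sym2 (Fin n))) (U : Ev n)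
    (G : Finset (Sym2 (Fin n)) → Ev n → ℝ) :
    G (E0.filter (fun e => U e ≤ p')) U =
      ∑ S ∈ E0.powerset, ind (E0.filter (fun e => U e ≤ p') = S) * G S U := by
  rw [Finset.sum_eq_single_of_mem (E0.filter (fun e => U e ≤ p'))
    (Finset.mem_powerset.2 (Finset.filter_subset _ _))]
  · rw [ind_true rfl, one_mul]
  · intro S _ hS
    rw [ind_false (Ne.symm hS), zero_mul]

end Lift

open Classical in
/-- given an event at the levels of `L` (all at most `p`) on which the edges of `E0` are above `p`,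
the set of the edges of `E0` of level at most `p'` is a Bernoulli set -/
theorem Ex_lift_ex {p p' : ℝ} (h0 : 0 ≤ p) (hpp : p ≤ p') (h1 : p' ≤ 1) (hp1 : p < 1)
    (L : Finset ℝ) (hL : ∀ l ∈ L, l ≤ p) (E0 : Finset (Sym2 (Fin n))) (B : Ev n → Prop)
    (hB : ∀ U U', lvlEq L U U' → (B U ↔ B U')) (hBE : ∀ U, B U → ∀ e ∈ E0, p < U e)
    (g : Finset (Sym2 (Fin n)) → ℝ) :
    Ex (fun U => ind (B U) * g (E0.filter (fun e => U e ≤ p'))) =
      Ex (fun U => ind (B U)) * ex ((p' - p) / (1 - p)) E0 g := by
  have key : ∀ g : Finset (Sym2 (Fin n)) → ℝ,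
      Ex (fun U => ind (B U) * g (E0.filter (fun e => U e ≤ p'))) =
        Ex (fun U : Ev n => ind (B (fun e => if e ∈ E0 then 1 else U e))) *
          ((1 - p) ^ E0.card * ex ((p' - p) / (1 - p)) E0 g) := by
    intro g
    rw [Lift.ex_eq hp1, Finset.mul_sum]
    have h2 : ∀ U : Ev n, ind (B U) * g (E0.filter (fun e => U e ≤ p')) =
        ∑ S ∈ E0.powerset, g S * (ind (B U) * ind (E0.filter (fun e => U e ≤ p') = S)) := by
      intro U
      rw [Lift.expand E0 U (fun S _ => g S), Finset.mul_sum]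
      refine Finset.sum_congr rfl fun S _ => ?_
      ring
    rw [Ex_congr h2, Ex_sum _ fun S _ => (BM.const (g S)).mul ((Lift.bm_B hB).mul (Lift.bm_f E0 S))]
    refine Finset.sum_congr rfl fun S hS => ?_
    rw [Ex_const_mul, Lift.one h0 hpp h1 hp1 L hL E0 B hB hBE (Finset.mem_powerset.1 hS)]
    ring
  have h3 := key (fun _ => 1)
  simp only [mul_one, ex_const] at h3
  rw [key g, h3]
  ring

open Classical in
/-- the same with a function of the other edges -/
theorem Ex_lift_ex' {p p' : ℝ} (h0 : 0 ≤ p) (hpp : p ≤ p') (h1 : p' ≤ 1) (hp1 : p < 1)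
    (L : Finset ℝ) (hL : ∀ l ∈ L, l ≤ p) (E0 : Finset (Sym2 (Fin n))) (B : Ev n → Prop)
    (hB : ∀ U U', lvlEq L U U' → (B U ↔ B U')) (hBE : ∀ U, B U → ∀ e ∈ E0, p < U e)
    (A1 : Finset (Sym2 (Fin n))) (hA : Disjoint A1 E0)
    (hBA : ∀ U U' : Ev n, (∀ e, e ∉ A1 → U e = U' e) → (B U ↔ B U'))
    (L' : Finset ℝ) (G : Finset (Sym2 (Fin n)) → Ev n → ℝ)
    (hG : ∀ S, ∀ U U', lvlEq L' U U' → G S U = G S U')
    (hGA : ∀ S, ∀ U U' : Ev n, (∀ e ∈ A1, U e = U' e) → G S U = G S U') :
    Ex (fun U => ind (B U) * G (E0.filter (fun e => U e ≤ p')) U) =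
      Ex (fun U => ind (B U)) * ex ((p' - p) / (1 - p)) E0 (fun S => Ex (G S)) := by
  have h2 : ∀ U : Ev n, ind (B U) * G (E0.filter (fun e => U e ≤ p')) U =
      ∑ S ∈ E0.powerset, G S U * (ind (B U) * ind (E0.filter (fun e => U e ≤ p') = S)) := by
    intro U
    rw [Lift.expand E0 U G, Finset.mul_sum]
    refine Finset.sum_congr rfl fun S _ => ?_
    ring
  have h3 : ∀ S : Finset (Sym2 (Fin n)),
      Ex (fun U => ind (B U) * ind (E0.filter (fun e => U e ≤ p') = S)) =
      Ex (fun U => ind (B U)) * ex ((p' - p) / (1 - p)) E0 (fun S' => ind (S' = S)) := fun S =>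
    Ex_lift_ex h0 hpp h1 hp1 L hL E0 B hB hBE (fun S' => ind (S' = S))
  rw [Ex_congr h2, Ex_sum _ fun S _ => (BM_lvl L' (hG S)).mul ((Lift.bm_B hB).mul (Lift.bm_f E0 S))]
  have h4 : ∀ S ∈ E0.powerset,
      Ex (fun U => G S U * (ind (B U) * ind (E0.filter (fun e => U e ≤ p') = S))) =
      Ex (fun U => ind (B U)) * ex ((p' - p) / (1 - p)) E0 (fun S' => ind (S' = S) * Ex (G S)) := by
    intro S _
    rw [Ex_indep (F := G S)
      (G := fun U => ind (B U) * ind (E0.filter (fun e => U e ≤ p') = S)) (A1 : Set _)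
      (fun U U' h => hGA S U U' fun e he => h e he) ?_, h3 S]
    · have h5 : (fun S' => ind (S' = S) * Ex (G S)) = fun S' => Ex (G S) * ind (S' = S) := by
        funext S'
        ring
      rw [h5, ex_mul_left]
      ring
    · intro U U' h
      have h6 := hBA U U' fun e he => h e he
      have h7 : E0.filter (fun e => U e ≤ p') = E0.filter (fun e => U' e ≤ p') := by
        refine Finset.filter_congr fun e he => ?_
        rw [h e fun h8 => Finset.disjoint_left.1 hA h8 he]
      simp only [h6, h7]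
  rw [Finset.sum_congr rfl h4, ← Finset.mul_sum, ← ex_sum]
  congr 1
  refine ex_congr _ fun S' hS' => ?_
  rw [Finset.sum_eq_single_of_mem S' (Finset.mem_powerset.2 hS')]
  · rw [ind_true rfl, one_mul]
  · intro S _ hS
    rw [ind_false (Ne.symm hS), zero_mul]

end
end Pool.Agent.TH972.U
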