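import Pool.Agent.TH972.U.XDef

/-!
# Expectations of functions of finitely many comparisons, exploration step, lifting
-/

set_option autoImplicit false
set_option linter.unusedSectionVars false

namespace Pool.Agent.TH972.U

open Finset MeasureTheory Pool.Agent.W842.RST Pool.Agent.TH972

noncomputable section

variable {n : ℕ}

namespace Lvl

/-- the comparisons -/
def kap (L : Finset ℝ) (U : Ev n) : Sym2 (Fin n) → L → Prop := fun e l => U e ≤ l

theorem kap_eq {L : Finset ℝ} {U U' : Ev n} (h : kap L U = kap L U') : lvlEq L U U' := by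
  intro e p hp
  have := congrFun (congrFun h e) ⟨p, hp⟩
  exact iff_of_eq this

theorem meas_kap (L : Finset ℝ) (c : Sym2 (Fin n) → L → Prop) :
    MeasurableSet {U : Ev n | kap L U = c} := by
  have h1 : {U : Ev n | kap L U = c} = ⋂ e, ⋂ l : L, {U : Ev n | (U e ≤ l) = c e l} := by
    ext U
    simp only [Set.mem_iInter, Set.mem_ofPred_eq]
    constructor
    · intro h e l
      exact congrFun (congrFun h e) l
    · intro h
      funext e l
      exact h e l
  rw [h1]
  refine MeasurableSet.iInter fun e => MeasurableSet.iInter fun l => ?_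
  have h2 : MeasurableSet {U : Ev n | U e ≤ l} :=
    measurableSet_le (measurable_pi_apply e) measurable_const
  by_cases hc : c e l
  · simpa only [hc, eq_iff_iff, iff_true] using h2
  · simp only [hc, eq_iff_iff, iff_false]
    exact h2.compl

end Lvl

open Lvl

/-- functions of finitely many comparisons are bounded and measurable -/
theorem BM_lvl (L : Finset ℝ) {F : Ev n → ℝ} (h : ∀ U U', lvlEq L U U' → F U = F U') : BM F := by
  classical
  set g : (Sym2 (Fin n) → L → Prop) → ℝ := fun c =>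
    if hc : ∃ U : Ev n, kap L U = c then F hc.choose else 0 with hg
  have h1 : F = fun U => ∑ c : (Sym2 (Fin n) → L → Prop), ind (kap L U = c) * g c := by
    funext U
    rw [Finset.sum_eq_single (kap L U)]
    · rw [ind_true rfl, one_mul, hg]
      have hc : ∃ U' : Ev n, kap L U' = kap L U := ⟨U, rfl⟩
      simp only [dif_pos hc]
      exact h _ _ (kap_eq hc.choose_spec.symm)
    · intro c _ hc
      rw [ind_false (Ne.symm hc), zero_mul]
    · intro hc
      exact absurd (mem_univ _) hc
  rw [h1]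
  exact BM.sum _ fun c _ => (BM.ind (meas_kap L c)).mul (BM.const _)

namespace Lvl

/-- one coordinate -/
theorem Ex_one (φ : ℝ → ℝ) (hφ : Measurable φ) (e : Sym2 (Fin n)) :
    Ex (fun U : Ev n => φ (U e)) = ∫ x, φ x ∂nu := by
  have hmp := measurePreserving_eval (fun _ : Sym2 (Fin n) => nu) e
  unfold Ex
  rw [← hmp.map_eq, integral_map hmp.measurable.aemeasurable hφ.aestronglyMeasurable]
  rfl

theorem Ex_prod (E0 : Finset (Sym2 (Fin n))) (φ : ℝ → ℝ) (hφ : Measurable φ) :
    Ex (fun U : Ev n => ∏ e ∈ E0, φ (U e)) = (∫ x, φ x ∂nu) ^ E0.card := by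
  classical
  induction E0 using Finset.induction_on with
  | empty =>
    simp only [Finset.prod_empty, Finset.card_empty, pow_zero]
    exact Ex_const 1
  | insert a E0 ha ih =>
    simp only [Finset.prod_insert ha, Finset.card_insert_of_notMem ha]
    rw [Ex_mul_of_dependsOn (F := fun U : Ev n => φ (U a))
      (G := fun U : Ev n => ∏ e ∈ E0, φ (U e)) {a}, ih, Ex_one φ hφ a, pow_succ, mul_comm]
    · intro U U' h
      have := h a (Set.mem_singleton a)
      simp only [this]
    · intro U U' h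
      refine Finset.prod_congr rfl fun e he => ?_
      have : U e = U' e := h e (by
        rw [Set.mem_compl_iff, Set.mem_singleton_iff]
        rintro rfl
        exact ha he)
      rw [this]

theorem int_ind {p : ℝ} (h0 : 0 ≤ p) (h1 : p ≤ 1) : ∫ x, ind (x ≤ p) ∂nu = p := by
  have h2 : (fun x : ℝ => ind (x ≤ p)) = Set.indicator (Set.Iic p) 1 := by
    funext x
    by_cases h : x ≤ p
    · rw [ind_true h, Set.indicator_of_mem (show x ∈ Set.Iic p from h)]; rfl
    · rw [ind_false h, Set.indicator_of_notMem (show x ∉ Set.Iic p from h)]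
  rw [h2, integral_indicator_one measurableSet_Iic, measureReal_def, nu_Iic h0 h1,
    ENNReal.toReal_ofReal h0]

theorem meas_ind (p : ℝ) : Measurable fun x : ℝ => ind (x ≤ p) := by
  have h2 : (fun x : ℝ => ind (x ≤ p)) = Set.indicator (Set.Iic p) 1 := by
    funext x
    by_cases h : x ≤ p
    · rw [ind_true h, Set.indicator_of_mem (show x ∈ Set.Iic p from h)]; rfl
    · rw [ind_false h, Set.indicator_of_notMem (show x ∉ Set.Iic p from h)]
  rw [h2]
  exact measurable_one.indicator measurableSet_Iic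

theorem integrable_ind (p : ℝ) : Integrable (fun x : ℝ => ind (x ≤ p)) nu := by
  refine Integrable.of_bound (meas_ind p).aestronglyMeasurable 1
    (Filter.Eventually.of_forall fun x => ?_)
  rw [Real.norm_eq_abs, abs_of_nonneg (ind_nonneg _)]
  exact ind_le_one _

/-- integral of a combination of two comparisons -/
theorem int_comb {p q : ℝ} (hp0 : 0 ≤ p) (hp1 : p ≤ 1) (hq0 : 0 ≤ q) (hq1 : q ≤ 1) (a b c : ℝ) :
    ∫ x, (a + b * ind (x ≤ p) + c * ind (x ≤ q)) ∂nu = a + b * p + c * q := by
  rw [integral_add, integral_add, integral_const, integral_const_mul, integral_const_mul,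
    int_ind hp0 hp1, int_ind hq0 hq1]
  · simp
  · exact integrable_const a
  · exact (integrable_ind p).const_mul b
  · exact (integrable_const a).add ((integrable_ind p).const_mul b)
  · exact (integrable_ind q).const_mul c

theorem meas_comb (p q a b c : ℝ) :
    Measurable fun x : ℝ => a + b * ind (x ≤ p) + c * ind (x ≤ q) :=
  (measurable_const.add ((meas_ind p).const_mul b)).add ((meas_ind q).const_mul c)

end Lvl

/-- products over a star -/
theorem Ex_star {v : Fin n} {F : Finset (Fin n)} (hv : v ∉ F) (φ : ℝ → ℝ) (hφ : Measurable φ)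
    (hb : ∃ C, ∀ x, |φ x| ≤ C) :
    Ex (fun U : Ev n => ∏ u ∈ F, φ (U s(v, u))) = (∫ x, φ x ∂nu) ^ F.card := by
  classical
  have hinj : Function.Injective fun u : Fin n => s(v, u) := by
    intro u u' h
    exact (Sym2.congr_right).1 h
  have h1 := Ex_prod (F.image fun u => s(v, u)) φ hφ
  rw [Finset.card_image_of_injective _ hinj] at h1
  rw [← h1]
  refine Ex_congr fun U => ?_
  rw [Finset.prod_image fun a _ b _ h => hinj h]

namespace Lvl

open Classical in
theorem nbr_eq {pl pt : ℝ} {L : Finset ℝ} (h1 : pl ∈ L) {U U' : Ev n} (h : lvlEq L U U')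
    (v : Fin n) (F : Finset (Fin n)) : nbr pl U v F = nbr pl U' v F := by
  unfold nbr
  ext u
  rw [mem_filter, mem_filter, h s(v, u) pl h1]

open Classical in
/-- expansion -/
theorem expand {v : Fin n} {F : Finset (Fin n)} (pl pt : ℝ) (L : Finset ℝ)
    (G : Finset (Fin n) → Finset (Fin n) → Ev n → ℝ)
    (hL : ∀ N H, ∀ U U', lvlEq L U U' → G N H U = G N H U')
    (hdep : ∀ N H, ∀ U U' : Ev n, (∀ e, v ∉ e → U e = U' e) → G N H U = G N H U') :
    Ex (fun U => G (nbr pl U v F) (nbr pt U v F \ nbr pl U v F) U) =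
      ∑ N ∈ F.powerset, ∑ H ∈ F.powerset,
        Ex (fun U : Ev n => ind (nbr pl U v F = N ∧ nbr pt U v F \ nbr pl U v F = H)) *
          Ex (G N H) := by
  have hsub1 : ∀ U : Ev n, nbr pl U v F ∈ F.powerset := fun U =>
    Finset.mem_powerset.2 (Finset.filter_subset _ _)
  have hsub2 : ∀ U : Ev n, nbr pt U v F \ nbr pl U v F ∈ F.powerset := fun U =>
    Finset.mem_powerset.2 (Finset.sdiff_subset.trans (Finset.filter_subset _ _))
  have h1 : ∀ U : Ev n, G (nbr pl U v F) (nbr pt U v F \ nbr pl U v F) U =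
      ∑ N ∈ F.powerset, ∑ H ∈ F.powerset,
        ind (nbr pl U v F = N ∧ nbr pt U v F \ nbr pl U v F = H) * G N H U := by
    intro U
    rw [Finset.sum_eq_single_of_mem _ (hsub1 U), Finset.sum_eq_single_of_mem _ (hsub2 U)]
    · rw [ind_true ⟨rfl, rfl⟩, one_mul]
    · intro H _ hH
      rw [ind_false (fun h => hH h.2.symm), zero_mul]
    · intro N _ hN
      refine Finset.sum_eq_zero fun H _ => ?_
      rw [ind_false (fun h => hN h.1.symm), zero_mul]
  have hBM : ∀ N H : Finset (Fin n), BM (fun U : Ev n =>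
      ind (nbr pl U v F = N ∧ nbr pt U v F \ nbr pl U v F = H)) := by
    intro N H
    refine BM_lvl {pl, pt} fun U U' h => ?_
    rw [nbr_eq (pt := pt) (L := {pl, pt}) (by simp) h v F,
      nbr_eq (pl := pt) (pt := pt) (L := {pl, pt}) (by simp) h v F]
  rw [Ex_congr h1, Ex_sum _ fun N _ => BM.sum _ fun H _ => (hBM N H).mul (BM_lvl L (hL N H))]
  refine Finset.sum_congr rfl fun N _ => ?_
  rw [Ex_sum _ fun H _ => (hBM N H).mul (BM_lvl L (hL N H))]
  refine Finset.sum_congr rfl fun H _ => ?_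
  refine Ex_mul_of_dependsOn {e | v ∈ e} ?_ ?_
  · intro U U' h
    have h2 : ∀ p, nbr p U v F = nbr p U' v F := by
      intro p
      unfold nbr
      ext u
      rw [mem_filter, mem_filter, h s(v, u) (Sym2.mem_mk_left v u)]
    simp only [h2]
  · intro U U' h
    exact hdep N H U U' fun e he => h e he

open Classical in
/-- the value of the star sum -/
theorem star_val {v : Fin n} {F : Finset (Fin n)} (hv : v ∉ F) {pl pt : ℝ} (h0 : 0 ≤ pl)
    (hlt : pl ≤ pt) (h1 : pt ≤ 1) (A x y : ℝ) :
    ∑ N ∈ F.powerset, ∑ H ∈ F.powerset,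
        Ex (fun U : Ev n => ind (nbr pl U v F = N ∧ nbr pt U v F \ nbr pl U v F = H)) *
          (A * x ^ N.card * y ^ H.card) =
      A * (1 - pt + pl * x + (pt - pl) * y) ^ F.card := by
  have h2 := expand (v := v) (F := F) pl pt ∅ (fun N H _ => A * x ^ N.card * y ^ H.card)
    (fun _ _ _ _ _ => rfl) (fun _ _ _ _ _ => rfl)
  simp only [Ex_const] at h2
  rw [← h2]
  have h3 : ∀ U : Ev n, A * x ^ (nbr pl U v F).card * y ^ (nbr pt U v F \ nbr pl U v F).card =
      A * ∏ u ∈ F, (1 + (x - y) * ind (U s(v, u) ≤ pl) + (y - 1) * ind (U s(v, u) ≤ pt)) := by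
    intro U
    have h4 : ∀ u ∈ F, (1 + (x - y) * ind (U s(v, u) ≤ pl) + (y - 1) * ind (U s(v, u) ≤ pt)) =
        if U s(v, u) ≤ pl then x else if U s(v, u) ≤ pt then y else 1 := by
      intro u _
      by_cases h5 : U s(v, u) ≤ pl
      · rw [if_pos h5, ind_true h5, ind_true (h5.trans hlt)]
        ring
      · rw [if_neg h5, ind_false h5]
        by_cases h6 : U s(v, u) ≤ pt
        · rw [if_pos h6, ind_true h6]
          ring
        · rw [if_neg h6, ind_false h6]
          ring
    rw [Finset.prod_congr rfl h4, Finset.prod_ite, Finset.prod_const, Finset.prod_ite,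
      Finset.prod_const, Finset.prod_const_one, mul_one, mul_assoc]
    have h7 : nbr pt U v F \ nbr pl U v F =
        (F.filter fun u => ¬ U s(v, u) ≤ pl).filter fun u => U s(v, u) ≤ pt := by
      unfold nbr
      ext u
      simp only [Finset.mem_sdiff, Finset.mem_filter]
      tauto
    rw [h7]
    rfl
  rw [Ex_congr h3, Ex_const_mul, Ex_star hv
    (fun t => 1 + (x - y) * ind (t ≤ pl) + (y - 1) * ind (t ≤ pt)) (meas_comb _ _ _ _ _),
    int_comb h0 (hlt.trans h1) (h0.trans hlt) h1]
  · congr 2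
    ring
  · refine ⟨1 + |x - y| + |y - 1|, fun t => ?_⟩
    have h8 : |(x - y) * ind (t ≤ pl)| ≤ |x - y| := by
      rw [abs_mul, abs_of_nonneg (ind_nonneg _)]
      exact mul_le_of_le_one_right (abs_nonneg _) (ind_le_one _)
    have h9 : |(y - 1) * ind (t ≤ pt)| ≤ |y - 1| := by
      rw [abs_mul, abs_of_nonneg (ind_nonneg _)]
      exact mul_le_of_le_one_right (abs_nonneg _) (ind_le_one _)
    calc |1 + (x - y) * ind (t ≤ pl) + (y - 1) * ind (t ≤ pt)|
        ≤ |1 + (x - y) * ind (t ≤ pl)| + |(y - 1) * ind (t ≤ pt)| := abs_add_le _ _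
      _ ≤ |(1 : ℝ)| + |(x - y) * ind (t ≤ pl)| + |(y - 1) * ind (t ≤ pt)| :=
          add_le_add (abs_add_le _ _) le_rfl
      _ ≤ 1 + |x - y| + |y - 1| := by
          rw [abs_one]
          linarith

open Classical in
theorem ind_zero {v : Fin n} {F : Finset (Fin n)} (pl pt : ℝ) {N H : Finset (Fin n)}
    (hNH : ¬ Disjoint N H) (U : Ev n) :
    ind (nbr pl U v F = N ∧ nbr pt U v F \ nbr pl U v F = H) = 0 := by
  refine ind_false fun h => hNH ?_
  rw [← h.1, ← h.2]
  exact Finset.disjoint_sdiff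

end Lvl

/-- one step of an exploration: the edges from `v` to `F` are revealed through the comparisons
with `pl ≤ pt`; the rest depends on edges not containing `v` -/
theorem Ex_step {v : Fin n} {F : Finset (Fin n)} (hv : v ∉ F) {pl pt : ℝ} (h0 : 0 ≤ pl)
    (hlt : pl ≤ pt) (h1 : pt ≤ 1) (L : Finset ℝ)
    (G : Finset (Fin n) → Finset (Fin n) → Ev n → ℝ)
    (hL : ∀ N H, ∀ U U', lvlEq L U U' → G N H U = G N H U')
    (hdep : ∀ N H, ∀ U U' : Ev n, (∀ e, v ∉ e → U e = U' e) → G N H U = G N H U')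
    {A x y : ℝ} (hA : 0 ≤ A) (hx : 0 ≤ x) (hy : 0 ≤ y)
    (hG : ∀ N H, N ⊆ F → H ⊆ F → Disjoint N H → Ex (G N H) ≤ A * x ^ N.card * y ^ H.card) :
    Ex (fun U => G (nbr pl U v F) (nbr pt U v F \ nbr pl U v F) U) ≤
      A * (1 - pt + pl * x + (pt - pl) * y) ^ F.card := by
  classical
  have he := expand (v := v) (F := F) pl pt L G hL hdep
  rw [← star_val hv h0 hlt h1 A x y]
  refine le_trans he.le (Finset.sum_le_sum fun N hN => Finset.sum_le_sum fun H hH => ?_)
  · by_cases hNH : Disjoint N H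
    · exact mul_le_mul_of_nonneg_left (hG N H (Finset.mem_powerset.1 hN)
        (Finset.mem_powerset.1 hH) hNH) (Ex_nonneg fun U => ind_nonneg _)
    · have h3 : Ex (fun U : Ev n =>
          ind (nbr pl U v F = N ∧ nbr pt U v F \ nbr pl U v F = H)) = 0 := by
        rw [Ex_congr (G := fun _ => 0) fun U => ind_zero pl pt hNH U, Ex_const]
      rw [h3, zero_mul, zero_mul]

/-- the same with the inequalities reversed -/
theorem Ex_step' {v : Fin n} {F : Finset (Fin n)} (hv : v ∉ F) {pl pt : ℝ} (h0 : 0 ≤ pl)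
    (hlt : pl ≤ pt) (h1 : pt ≤ 1) (L : Finset ℝ)
    (G : Finset (Fin n) → Finset (Fin n) → Ev n → ℝ)
    (hL : ∀ N H, ∀ U U', lvlEq L U U' → G N H U = G N H U')
    (hdep : ∀ N H, ∀ U U' : Ev n, (∀ e, v ∉ e → U e = U' e) → G N H U = G N H U')
    {A x y : ℝ} (hA : 0 ≤ A) (hx : 0 ≤ x) (hy : 0 ≤ y)
    (hG : ∀ N H, N ⊆ F → H ⊆ F → Disjoint N H → A * x ^ N.card * y ^ H.card ≤ Ex (G N H)) :
    A * (1 - pt + pl * x + (pt - pl) * y) ^ F.card ≤
      Ex (fun U => G (nbr pl U v F) (nbr pt U v F \ nbr pl U v F) U) := by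
  classical
  have he := expand (v := v) (F := F) pl pt L G hL hdep
  rw [← star_val hv h0 hlt h1 A x y]
  refine le_trans (Finset.sum_le_sum fun N hN => Finset.sum_le_sum fun H hH => ?_) he.ge
  · by_cases hNH : Disjoint N H
    · exact mul_le_mul_of_nonneg_left (hG N H (Finset.mem_powerset.1 hN)
        (Finset.mem_powerset.1 hH) hNH) (Ex_nonneg fun U => ind_nonneg _)
    · have h3 : Ex (fun U : Ev n =>
          ind (nbr pl U v F = N ∧ nbr pt U v F \ nbr pl U v F = H)) = 0 := by
        rw [Ex_congr (G := fun _ => 0) fun U => ind_zero pl pt hNH U, Ex_const]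
      rw [h3, zero_mul, zero_mul]

namespace Lvl

open Classical in
theorem lift_aux {p p' : ℝ} (h0 : 0 ≤ p) (hpp : p ≤ p') (h1 : p' ≤ 1) (hp1 : p < 1)
    (L : Finset ℝ)
    (hL : ∀ l ∈ L, l ≤ p) (E0 : Finset (Sym2 (Fin n))) (B : Ev n → Prop)
    (hB : ∀ U U', lvlEq L U U' → (B U ↔ B U')) (hBE : ∀ U, B U → ∀ e ∈ E0, p < U e) (x : ℝ) :
    Ex (fun U => ind (B U) * ∏ e ∈ E0, (if U e ≤ p' then x else 1)) =
      Ex (fun U : Ev n => ind (B (fun e => if e ∈ E0 then 1 else U e))) *
        ((1 - p) + (p' - p) * (x - 1)) ^ E0.card := by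
  have hlv : ∀ U : Ev n, (∀ e ∈ E0, p < U e) →
      lvlEq L U (fun e => if e ∈ E0 then 1 else U e) := by
    intro U hU e l hl
    by_cases he : e ∈ E0
    · simp only [if_pos he]
      have h2 := hU e he
      have h3 := hL l hl
      constructor
      · intro h4; linarith
      · intro h4; linarith
    · simp only [if_neg he]
  have h2 : ∀ U : Ev n, ind (B U) * ∏ e ∈ E0, (if U e ≤ p' then x else 1) =
      ind (B (fun e => if e ∈ E0 then 1 else U e)) *
        ∏ e ∈ E0, (1 + (-1 - (x - 1)) * ind (U e ≤ p) + (x - 1) * ind (U e ≤ p')) := by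
    intro U
    have h3 : ∀ e ∈ E0, (1 + (-1 - (x - 1)) * ind (U e ≤ p) + (x - 1) * ind (U e ≤ p')) =
        if p < U e then (if U e ≤ p' then x else 1) else 0 := by
      intro e _
      by_cases h5 : p < U e
      · rw [if_pos h5, ind_false (not_le.2 h5)]
        by_cases h6 : U e ≤ p'
        · rw [if_pos h6, ind_true h6]
          ring
        · rw [if_neg h6, ind_false h6]
          ring
      · rw [if_neg h5, ind_true (not_lt.1 h5), ind_true ((not_lt.1 h5).trans hpp)]
        ring
    rw [Finset.prod_congr rfl h3]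
    by_cases h4 : ∀ e ∈ E0, p < U e
    · have h5 : ∏ e ∈ E0, (if p < U e then (if U e ≤ p' then x else 1) else 0) =
          ∏ e ∈ E0, (if U e ≤ p' then x else 1) :=
        Finset.prod_congr rfl fun e he => if_pos (h4 e he)
      rw [h5]
      congr 1
      by_cases h6 : B U
      · rw [ind_true h6, ind_true ((hB _ _ (hlv U h4)).1 h6)]
      · rw [ind_false h6, ind_false fun h7 => h6 ((hB _ _ (hlv U h4)).2 h7)]
    · rw [ind_false fun h5 => h4 (hBE U h5), zero_mul]
      push Not at h4
      obtain ⟨e, he, hle⟩ := h4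
      rw [Finset.prod_eq_zero he (if_neg (not_lt.2 hle)), mul_zero]
  rw [Ex_congr h2, Ex_mul_of_dependsOn (F := fun U : Ev n =>
      ind (B (fun e => if e ∈ E0 then 1 else U e)))
    (G := fun U : Ev n => ∏ e ∈ E0,
      (1 + (-1 - (x - 1)) * ind (U e ≤ p) + (x - 1) * ind (U e ≤ p')))
    {e | e ∉ E0}]
  · congr 1
    rw [Ex_prod E0 (fun t => 1 + (-1 - (x - 1)) * ind (t ≤ p) + (x - 1) * ind (t ≤ p'))
      (meas_comb _ _ _ _ _), int_comb h0 hp1.le (h0.trans hpp) h1]
    congr 1
    ring
  · intro U U' h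
    have h3 : (fun e => if e ∈ E0 then (1 : ℝ) else U e) =
        fun e => if e ∈ E0 then (1 : ℝ) else U' e := by
      funext e
      by_cases he : e ∈ E0
      · rw [if_pos he, if_pos he]
      · rw [if_neg he, if_neg he]
        exact h e he
    simp only [h3]
  · intro U U' h
    refine Finset.prod_congr rfl fun e he => ?_
    have : U e = U' e := h e (by
      rw [Set.mem_compl_iff, Set.mem_ofPred_eq, not_not]
      exact he)
    rw [this]

end Lvl

/-- lifting: given an event at the levels of `L` (all at most `p`) on which the edges of `E0` are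
above `p`, these edges are at most `p'` independently with probability `(p' - p)/(1 - p)` -/
theorem Ex_lift {p p' : ℝ} (h0 : 0 ≤ p) (hpp : p ≤ p') (h1 : p' ≤ 1) (hp1 : p < 1) (L : Finset ℝ)
    (hL : ∀ l ∈ L, l ≤ p) (E0 : Finset (Sym2 (Fin n))) (B : Ev n → Prop)
    (hB : ∀ U U', lvlEq L U U' → (B U ↔ B U')) (hBE : ∀ U, B U → ∀ e ∈ E0, p < U e) (x : ℝ) :
    Ex (fun U => ind (B U) * ∏ e ∈ E0, (if U e ≤ p' then x else 1)) =
      Ex (fun U => ind (B U)) * (1 + (p' - p) / (1 - p) * (x - 1)) ^ E0.card := by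
  have h2 := lift_aux h0 hpp h1 hp1 L hL E0 B hB hBE x
  have h3 := lift_aux h0 hpp h1 hp1 L hL E0 B hB hBE 1
  have h4 : ∀ U : Ev n, ind (B U) * ∏ e ∈ E0, (if U e ≤ p' then (1 : ℝ) else 1) = ind (B U) := by
    intro U
    simp
  rw [Ex_congr h4, sub_self, mul_zero, add_zero] at h3
  have hp : (1 - p) ≠ 0 := by linarith
  rw [h2, h3, mul_assoc, ← mul_pow]
  congr 2
  field_simp

/-- independence of an event and a function -/
theorem Ex_indep {F G : Ev n → ℝ} (A : Set (Sym2 (Fin n)))
    (hF : ∀ U U' : Ev n, (∀ e ∈ A, U e = U' e) → F U = F U')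
    (hG : ∀ U U' : Ev n, (∀ e, e ∉ A → U e = U' e) → G U = G U') :
    Ex (fun U => F U * G U) = Ex F * Ex G :=
  Ex_mul_of_dependsOn A (fun U U' h => hF U U' h) (fun U U' h => hG U U' h)

end

end Pool.Agent.TH972.U
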