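import Pool.Agent.TH972.U.Rch
import Pool.Agent.TH972.U.Lvl
import Pool.Agent.W842.RST.Ex

/-!
# Probability to be a mark: moments of a Bernoulli set and the attached vertices
-/

set_option autoImplicit false
set_option linter.unusedSectionVars false
set_option maxHeartbeats 4000000

namespace Pool.Agent.TH972.U

open Finset MeasureTheory Pool.Agent.W842.RST Pool.Agent.TH972

noncomputable section

namespace Test

section moments

variable {α : Type} [DecidableEq α]

lemma ex_card (p : ℝ) (E : Finset α) : ∀ T : Finset α, T ⊆ E →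
    ex p E (fun S => ((S ∩ T).card : ℝ)) = p * T.card ∧
    ex p E (fun S => ((S ∩ T).card : ℝ) ^ 2) = p * T.card + p ^ 2 * T.card * (T.card - 1) := by
  induction E using Finset.induction_on with
  | empty =>
    intro T hT
    rw [Finset.subset_empty.1 hT]
    simp [ex_empty]
  | insert a E ha ih =>
    intro T hT
    by_cases haT : a ∈ T
    · have hT' : T.erase a ⊆ E := by
        intro x hx
        rw [mem_erase] at hx
        rcases mem_insert.1 (hT hx.2) with h | h
        · exact absurd h hx.1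
        · exact h
      obtain ⟨i1, i2⟩ := ih (T.erase a) hT'
      have hc : ((T.erase a).card : ℝ) = T.card - 1 := by
        rw [card_erase_of_mem haT, Nat.cast_sub (card_pos.2 ⟨a, haT⟩)]
        push_cast
        ring
      have e1 : ∀ S ⊆ E, S ∩ T = S ∩ T.erase a := by
        intro S hS
        ext x
        simp only [mem_inter, mem_erase]
        constructor
        · rintro ⟨h1, h2⟩
          exact ⟨h1, fun h => ha (h ▸ hS h1), h2⟩
        · rintro ⟨h1, _, h2⟩
          exact ⟨h1, h2⟩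
      have e2 : ∀ S ⊆ E, ((insert a S ∩ T).card : ℝ) = ((S ∩ T.erase a).card : ℝ) + 1 := by
        intro S hS
        rw [insert_inter_of_mem haT, card_insert_of_notMem, e1 S hS]
        · push_cast
          ring
        · intro h
          exact ha (hS (mem_inter.1 h).1)
      constructor
      · rw [ex_insert p ha]
        have a1 : ex p E (fun S => ((S ∩ T).card : ℝ)) =
            ex p E (fun S => ((S ∩ T.erase a).card : ℝ)) :=
          ex_congr p (fun S hS => by rw [e1 S hS])
        have a2 : ex p E (fun S => ((insert a S ∩ T).card : ℝ)) =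
            ex p E (fun S => ((S ∩ T.erase a).card : ℝ)) + 1 := by
          rw [ex_congr p (fun S hS => e2 S hS), ex_add, ex_const]
        rw [a1, a2, i1, hc]
        ring
      · rw [ex_insert p ha]
        have a1 : ex p E (fun S => ((S ∩ T).card : ℝ) ^ 2) =
            ex p E (fun S => ((S ∩ T.erase a).card : ℝ) ^ 2) :=
          ex_congr p (fun S hS => by rw [e1 S hS])
        have a2 : ex p E (fun S => ((insert a S ∩ T).card : ℝ) ^ 2) =
            ex p E (fun S => ((S ∩ T.erase a).card : ℝ) ^ 2) +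
              (2 * ex p E (fun S => ((S ∩ T.erase a).card : ℝ)) + 1) := by
          rw [ex_congr p (fun S hS => show ((insert a S ∩ T).card : ℝ) ^ 2 =
            ((S ∩ T.erase a).card : ℝ) ^ 2 + (2 * ((S ∩ T.erase a).card : ℝ) + 1) by
              rw [e2 S hS]; ring), ex_add, ex_add, ex_const, ex_mul_left]
        rw [a1, a2, i1, i2, hc]
        ring
    · have hT' : T ⊆ E := by
        intro x hx
        rcases mem_insert.1 (hT hx) with h | h
        · exact absurd (h ▸ hx) haT
        · exact h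
      obtain ⟨i1, i2⟩ := ih T hT'
      have e2 : ∀ S : Finset α, insert a S ∩ T = S ∩ T := by
        intro S
        rw [insert_inter_of_notMem haT]
      constructor
      · rw [ex_insert p ha]
        simp only [e2]
        rw [i1]
        ring
      · rw [ex_insert p ha]
        simp only [e2]
        rw [i2]
        ring

end moments

variable {n : ℕ}

open Classical in
/-- the vertices of `F` attached to `W` by the edges in `S` -/
def NN (W F : Finset (Fin n)) (S : Finset (Sym2 (Fin n))) : Finset (Fin n) :=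
  F.filter (fun u => ∃ a ∈ W, s(a, u) ∈ S)

/-- the edges between two sets -/
def EE (W F : Finset (Fin n)) : Finset (Sym2 (Fin n)) :=
  (W ×ˢ F).image (fun q => s(q.1, q.2))

/-- the edges between a set and a vertex -/
def TT (W : Finset (Fin n)) (u : Fin n) : Finset (Sym2 (Fin n)) := W.image (fun a => s(a, u))

lemma pair_eq {W F : Finset (Fin n)} (hd : Disjoint W F) {a a' u u' : Fin n} (ha : a ∈ W)
    (hu' : u' ∈ F) (h : s(a, u) = s(a', u')) : a = a' ∧ u = u' := by
  rcases Sym2.eq_iff.1 h with h | h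
  · exact h
  · exfalso
    rw [h.1] at ha
    exact Finset.disjoint_left.1 hd ha hu'

lemma card_EE {W F : Finset (Fin n)} (hd : Disjoint W F) : (EE W F).card = W.card * F.card := by
  unfold EE
  rw [card_image_of_injOn, card_product]
  rintro ⟨a, u⟩ h ⟨a', u'⟩ h' he
  rw [mem_coe, mem_product] at h h'
  have := pair_eq hd h.1 h'.2 he
  exact Prod.ext this.1 this.2

lemma card_TT {W : Finset (Fin n)} {u : Fin n} : (TT W u).card = W.card := by
  unfold TT
  rw [card_image_of_injective]
  intro a a' h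
  exact (Sym2.congr_left).1 h

lemma TT_sub {W F : Finset (Fin n)} {u : Fin n} (hu : u ∈ F) : TT W u ⊆ EE W F := by
  intro e he
  unfold TT at he
  obtain ⟨a, ha, rfl⟩ := mem_image.1 he
  exact mem_image.2 ⟨(a, u), mem_product.2 ⟨ha, hu⟩, rfl⟩

lemma sum_TT {W F : Finset (Fin n)} (hd : Disjoint W F) (S : Finset (Sym2 (Fin n))) :
    ∑ u ∈ F, ((S ∩ TT W u).card : ℝ) ≤ ((S ∩ EE W F).card : ℝ) := by
  have h1 : (F.biUnion (fun u => S ∩ TT W u)).card = ∑ u ∈ F, (S ∩ TT W u).card := by
    apply card_biUnion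
    intro u hu u' hu' huu
    show Disjoint (S ∩ TT W u) (S ∩ TT W u')
    rw [Finset.disjoint_left]
    intro e he he'
    obtain ⟨a, ha, h1⟩ := mem_image.1 (mem_inter.1 he).2
    obtain ⟨a', ha', h2⟩ := mem_image.1 (mem_inter.1 he').2
    exact huu (pair_eq hd ha hu' (h1.trans h2.symm)).2
  have h2 : F.biUnion (fun u => S ∩ TT W u) ⊆ S ∩ EE W F := by
    intro e he
    obtain ⟨u, hu, h3⟩ := mem_biUnion.1 he
    exact mem_inter.2 ⟨(mem_inter.1 h3).1, TT_sub hu (mem_inter.1 h3).2⟩
  have h3 := card_le_card h2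
  rw [h1] at h3
  exact_mod_cast h3

lemma mem_NN {W F : Finset (Fin n)} {S : Finset (Sym2 (Fin n))} {u : Fin n} (hu : u ∈ F) :
    u ∈ NN W F S ↔ 1 ≤ (S ∩ TT W u).card := by
  classical
  unfold NN
  rw [mem_filter, Nat.one_le_iff_ne_zero, Ne, card_eq_zero, ← Ne, ← nonempty_iff_ne_empty]
  constructor
  · rintro ⟨_, a, ha, h⟩
    exact ⟨s(a, u), mem_inter.2 ⟨h, mem_image.2 ⟨a, ha, rfl⟩⟩⟩
  · rintro ⟨e, he⟩
    obtain ⟨a, ha, h1⟩ := mem_image.1 (mem_inter.1 he).2
    refine ⟨hu, a, ha, ?_⟩
    rw [h1]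
    exact (mem_inter.1 he).1

lemma NN_card (W F : Finset (Fin n)) (S : Finset (Sym2 (Fin n))) :
    ((NN W F S).card : ℝ) = ∑ u ∈ F, (if 1 ≤ (S ∩ TT W u).card then (1:ℝ) else 0) := by
  classical
  have h1 : NN W F S = F.filter (fun u => 1 ≤ (S ∩ TT W u).card) := by
    ext u
    rw [mem_filter]
    constructor
    · intro h
      have hu : u ∈ F := (mem_filter.1 h).1
      exact ⟨hu, (mem_NN hu).1 h⟩
    · rintro ⟨hu, h⟩
      exact (mem_NN hu).2 h
  rw [h1, card_filter]
  push_cast
  rfl

lemma NN_le {W F : Finset (Fin n)} (hd : Disjoint W F) (S : Finset (Sym2 (Fin n))) :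
    ((NN W F S).card : ℝ) ≤ ((S ∩ EE W F).card : ℝ) := by
  rw [NN_card]
  refine le_trans (Finset.sum_le_sum fun u _ => ?_) (sum_TT hd S)
  split_ifs with h
  · exact_mod_cast h
  · positivity

lemma NN_ge (W F : Finset (Fin n)) (S : Finset (Sym2 (Fin n))) :
    ∑ u ∈ F, (2 * ((S ∩ TT W u).card : ℝ) - ((S ∩ TT W u).card : ℝ) ^ 2) ≤
      ((NN W F S).card : ℝ) := by
  rw [NN_card]
  refine Finset.sum_le_sum fun u _ => ?_
  split_ifs with h
  · nlinarith [sq_nonneg (((S ∩ TT W u).card : ℝ) - 1)]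
  · have : (S ∩ TT W u).card = 0 := by omega
    rw [this]
    norm_num

/-- the expectation of the lower bound for the attached vertices -/
lemma ex_low {W F : Finset (Fin n)} (hd : Disjoint W F) {q x : ℝ} (hq0 : 0 ≤ q) (hq1 : q ≤ 1)
    (hx0 : 0 ≤ x) (hx1 : x ≤ 1) :
    x / 2 * (F.card * (q * W.card * (1 - q * W.card))) -
      x ^ 2 / 2 * (q * W.card * F.card + (q * W.card * F.card) ^ 2) ≤
    ex q (EE W F) (fun S => 1 - (1 - x) ^ (NN W F S).card - (NN W F S).card * x / 2) := by
  have h1 : ex q (EE W F) (fun S => x / 2 * ∑ u ∈ F, (2 * ((S ∩ TT W u).card : ℝ) -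
      ((S ∩ TT W u).card : ℝ) ^ 2) - x ^ 2 / 2 * ((S ∩ EE W F).card : ℝ) ^ 2) ≤
      ex q (EE W F) (fun S => 1 - (1 - x) ^ (NN W F S).card - (NN W F S).card * x / 2) := by
    apply ex_mono hq0 hq1
    intro S _
    obtain ⟨m, hm⟩ : ∃ m, m = (NN W F S).card := ⟨_, rfl⟩
    have a1 := NN_ge W F S
    have a2 := NN_le hd S
    rw [← hm] at a1 a2 ⊢
    have a3 : (1 - x) ^ m ≤ 1 - m * x + (m * x) ^ 2 / 2 := by
      have b1 : (1 - x) ^ m ≤ Real.exp (-(m * x)) := by
        have b2 : 1 - x ≤ Real.exp (-x) := by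
          have := Real.add_one_le_exp (-x)
          linarith
        calc (1 - x) ^ m ≤ Real.exp (-x) ^ m := pow_le_pow_left₀ (by linarith) b2 m
          _ = Real.exp (-(m * x)) := by
              rw [← Real.exp_nat_mul]
              congr 1
              ring
      have b3 : Real.exp (-(m * x)) ≤ 1 - m * x + (m * x) ^ 2 / 2 := by
        have hmx : 0 ≤ (m : ℝ) * x := by positivity
        have := Real.one_sub_le_exp_neg (m * x)
        -- exp(-t) ≤ 1 - t + t^2/2
        have b4 : 1 ≤ (1 - m * x + (m * x) ^ 2 / 2) * Real.exp (m * x) := by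
          obtain ⟨t, ht⟩ : ∃ t, t = (m : ℝ) * x := ⟨_, rfl⟩
          rw [← ht] at hmx ⊢
          have c1 : 1 + t + t ^ 2 / 2 ≤ Real.exp t := Real.quadratic_le_exp_of_nonneg hmx
          have c2 : 0 < 1 - t + t ^ 2 / 2 := by nlinarith [sq_nonneg (t - 1)]
          have c3 : 1 ≤ (1 - t + t ^ 2 / 2) * (1 + t + t ^ 2 / 2) := by
            nlinarith [sq_nonneg (t ^ 2)]
          nlinarith [mul_le_mul_of_nonneg_left c1 c2.le]
        rw [Real.exp_neg]
        rw [inv_le_iff_one_le_mul₀ (Real.exp_pos _)]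
        exact b4
      exact b1.trans b3
    have a4 : (m : ℝ) ^ 2 ≤ ((S ∩ EE W F).card : ℝ) ^ 2 :=
      pow_le_pow_left₀ (by positivity) a2 2
    have a5 := mul_le_mul_of_nonneg_left a1 (show 0 ≤ x / 2 by positivity)
    have a6 := mul_le_mul_of_nonneg_left a4 (show 0 ≤ x ^ 2 / 2 by positivity)
    nlinarith
  refine le_trans ?_ h1
  rw [ex_sub, ex_mul_left, ex_mul_left, ex_sum]
  have h2 : ∀ u ∈ F, ex q (EE W F) (fun S => 2 * ((S ∩ TT W u).card : ℝ) -
      ((S ∩ TT W u).card : ℝ) ^ 2) =
      q * W.card - q ^ 2 * W.card * (W.card - 1) := by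
    intro u hu
    obtain ⟨b1, b2⟩ := ex_card q (EE W F) (TT W u) (TT_sub hu)
    rw [ex_sub, ex_mul_left, b1, b2, card_TT]
    ring
  rw [Finset.sum_congr rfl h2, Finset.sum_const, nsmul_eq_mul, (ex_card q (EE W F) (EE W F)
    (Finset.Subset.refl _)).2, card_EE hd]
  push_cast
  have h3 : F.card * (q * W.card * (1 - q * W.card)) ≤
      (F.card : ℝ) * (q * W.card - q ^ 2 * W.card * (W.card - 1)) := by
    apply mul_le_mul_of_nonneg_left _ (by positivity)
    have : 0 ≤ q ^ 2 * (W.card : ℝ) := by positivity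
    nlinarith
  have h4 : q * ((W.card : ℝ) * F.card) + q ^ 2 * (W.card * F.card) * (W.card * F.card - 1) ≤
      q * W.card * F.card + (q * W.card * F.card) ^ 2 := by
    have : 0 ≤ q ^ 2 * ((W.card : ℝ) * F.card) := by positivity
    nlinarith
  have h5 := mul_le_mul_of_nonneg_left h3 (show 0 ≤ x / 2 by positivity)
  have h6 := mul_le_mul_of_nonneg_left h4 (show 0 ≤ x ^ 2 / 2 by positivity)
  linarith

end Test

end

end Pool.Agent.TH972.U
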