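import Pool.Agent.TH972.U.Rch2
import Pool.Agent.TH972.U.Lift
import Pool.Agent.TH972.U.Test0

/-!
# Probability to be a mark
-/

set_option autoImplicit false
set_option linter.unusedSectionVars false
set_option maxHeartbeats 4000000

namespace Pool.Agent.TH972.U

open Finset MeasureTheory Pool.Agent.W842.RST Pool.Agent.TH972

noncomputable section

variable {n : ℕ}

namespace Test

lemma lvl_ind {P : Ev n → Prop} {L : Finset ℝ} (h : ∀ U U', lvlEq L U U' → (P U ↔ P U')) :
    BM (fun U => ind (P U)) := by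
  apply BM_lvl L
  intro U U' hU
  by_cases hP : P U
  · rw [ind_true hP, ind_true ((h U U' hU).1 hP)]
  · rw [ind_false hP, ind_false (fun h' => hP ((h U U' hU).2 h'))]

lemma lvlEq_mono {L L' : Finset ℝ} (h : L ⊆ L') {U U' : Ev n} (hU : lvlEq L' U U') :
    lvlEq L U U' := fun e p hp => hU e p (h hp)

open Classical in
/-- given the low cluster -/
lemma cond {pl pb x : ℝ} (h0 : 0 ≤ pl) (hpp : pl ≤ pb) (h1 : pb ≤ 1) (hp1 : pl < 1) (w : Fin n)
    (F W0 W1 : Finset (Fin n)) (hW1 : W1 ⊆ W0) (s0 : ℕ)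
    (hrch : ∀ A : Finset (Fin n), A ⊆ F \ W0 → 1 - (1 - x) ^ A.card - A.card * x / 2 ≤
      Ex (fun U : Ev n => ind (s0 ≤ (rch pb U A ((F \ W0) \ A)).card))) :
    Ex (fun U : Ev n => ind (rch pl U {w} F = W0)) *
      ex ((pb - pl) / (1 - pl)) (EE W1 (F \ W0)) (fun S => 1 - (1 - x) ^ (NN W1 (F \ W0) S).card -
        (NN W1 (F \ W0) S).card * x / 2) ≤
      Ex (fun U : Ev n => ind (rch pl U {w} F = W0 ∧ s0 ≤ (rch pb U {w} F).card)) := by
  have hd : Disjoint W1 (F \ W0) := by
    rw [Finset.disjoint_left]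
    intro a ha ha'
    exact (mem_sdiff.1 ha').2 (hW1 ha)
  have hNN : ∀ S, NN W1 (F \ W0) S ⊆ F \ W0 := fun S => filter_subset _ _
  have hlift := Ex_lift_ex' h0 hpp h1 hp1 {pl} (fun l hl => by rw [mem_singleton.1 hl])
    (EE W1 (F \ W0)) (fun U : Ev n => rch pl U {w} F = W0)
    (fun U U' hU => by rw [rch_lvl pl {w} F hU])
    (fun U hU e he => by
      obtain ⟨q, hq, rfl⟩ := mem_image.1 he
      rw [mem_product] at hq
      by_contra hc
      push Not at hc
      have ha : q.1 ∈ rch pl U {w} F := by rw [hU]; exact hW1 hq.1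
      have hb : q.2 ∈ ({w} ∪ F : Finset (Fin n)) := mem_union_right _ (mem_sdiff.1 hq.2).1
      have := Rch.closed ha hb hc
      rw [hU] at this
      exact (mem_sdiff.1 hq.2).2 this)
    (EE (F \ W0) (F \ W0))
    (by
      rw [Finset.disjoint_left]
      intro e he he'
      obtain ⟨q, hq, rfl⟩ := mem_image.1 he
      obtain ⟨q', hq', he''⟩ := mem_image.1 he'
      rw [mem_product] at hq hq'
      rcases Sym2.eq_iff.1 he'' with h | h
      · exact Finset.disjoint_left.1 hd hq'.1 (h.1 ▸ hq.1)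
      · exact Finset.disjoint_left.1 hd hq'.1 (h.1 ▸ hq.2))
    (fun U U' hU => by
      have key : ∀ U U' : Ev n, (∀ e, e ∉ EE (F \ W0) (F \ W0) → U e = U' e) →
          rch pl U {w} F = W0 → rch pl U' {w} F = W0 := by
        intro U U' hU hB
        rw [← hB]
        apply Rch.loc
        intro a ha b hb
        have hn : s(a, b) ∉ EE (F \ W0) (F \ W0) := by
          intro he
          obtain ⟨q, hq, he'⟩ := mem_image.1 he
          rw [mem_product] at hq
          rw [hB] at ha
          rcases Sym2.eq_iff.1 he' with h | h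
          · exact (mem_sdiff.1 hq.1).2 (h.1 ▸ ha)
          · exact (mem_sdiff.1 hq.2).2 (h.2 ▸ ha)
        rw [hU _ hn]
      exact ⟨key U U' hU, key U' U (fun e he => (hU e he).symm)⟩)
    {pb} (fun S U => ind (s0 ≤ (rch pb U (NN W1 (F \ W0) S)
      ((F \ W0) \ NN W1 (F \ W0) S)).card))
    (fun S U U' hU => by
      show ind _ = ind _
      rw [rch_lvl pb _ _ hU])
    (fun S U U' hU => by
      show ind _ = ind _
      have e1 : rch pb U' (NN W1 (F \ W0) S) ((F \ W0) \ NN W1 (F \ W0) S) =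
          rch pb U (NN W1 (F \ W0) S) ((F \ W0) \ NN W1 (F \ W0) S) := by
        apply Rch.loc
        intro a ha b hb
        have ha' : a ∈ F \ W0 := by
          rcases mem_union.1 (rch_subset _ _ _ _ ha) with h | h
          · exact hNN S h
          · exact (mem_sdiff.1 h).1
        have hb' : b ∈ F \ W0 := (mem_sdiff.1 hb).1
        rw [hU _ (mem_image.2 ⟨(a, b), mem_product.2 ⟨ha', hb'⟩, rfl⟩)]
      rw [e1])
  have hq0 : 0 ≤ (pb - pl) / (1 - pl) := div_nonneg (by linarith) (by linarith)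
  have hq1 : (pb - pl) / (1 - pl) ≤ 1 := by
    rw [div_le_one (by linarith)]
    linarith
  refine le_trans (mul_le_mul_of_nonneg_left (ex_mono hq0 hq1 (fun S _ => hrch _ (hNN S)))
    (Ex_nonneg (fun U => ind_nonneg _))) ?_
  refine le_trans (le_of_eq ?_) (le_trans (le_of_eq hlift.symm) ?_)
  · rfl
  · apply Ex_mono
    · apply BM_lvl {pl, pb}
      intro U U' hU
      have hU1 : lvlEq {pl} U U' := lvlEq_mono (by simp) hU
      have hU2 : lvlEq {pb} U U' := lvlEq_mono (by simp) hU
      have e1 : (EE W1 (F \ W0)).filter (fun e => U e ≤ pb) =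
          (EE W1 (F \ W0)).filter (fun e => U' e ≤ pb) := by
        apply filter_congr
        intro e _
        exact hU2 e pb (mem_singleton_self pb)
      rw [e1, rch_lvl pl {w} F hU1, rch_lvl pb _ _ hU2]
    · apply lvl_ind (L := {pl, pb})
      intro U U' hU
      have hU1 : lvlEq {pl} U U' := lvlEq_mono (by simp) hU
      have hU2 : lvlEq {pb} U U' := lvlEq_mono (by simp) hU
      rw [rch_lvl pl {w} F hU1, rch_lvl pb {w} F hU2]
    · intro U
      by_cases hB : rch pl U {w} F = W0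
      · rw [ind_true hB, one_mul]
        apply ind_mono
        intro hs
        refine ⟨hB, hs.trans (card_le_card ?_)⟩
        have hle : W0 ⊆ rch pb U {w} F := by
          rw [← hB]
          exact rch_mono hpp U (Finset.Subset.refl _) (Finset.Subset.refl _)
        apply Rch.least
        · intro u hu
          obtain ⟨hu1, a, ha, hau⟩ := mem_filter.1 hu
          have h2 := (mem_filter.1 hau).2
          exact Rch.closed (hle (hW1 ha)) (mem_union_right _ (mem_sdiff.1 hu1).1) h2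
        · intro a ha b hb hab
          apply Rch.closed ha _ hab
          rcases mem_union.1 hb with hb | hb
          · exact mem_union_right _ (mem_sdiff.1 (hNN _ hb)).1
          · exact mem_union_right _ (mem_sdiff.1 (mem_sdiff.1 hb).1).1
      · rw [ind_false hB, zero_mul]
        exact ind_nonneg _

open Classical in
/-- sum over the values of the low cluster -/
lemma sum_clusters {pl pb : ℝ} (w : Fin n) (F : Finset (Fin n)) (s1 t s0 : ℕ) (c0 : ℝ)
    (h : ∀ W0 : Finset (Fin n), s1 ≤ W0.card → W0.card ≤ t →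
      Ex (fun U : Ev n => ind (rch pl U {w} F = W0)) * c0 ≤
        Ex (fun U : Ev n => ind (rch pl U {w} F = W0 ∧ s0 ≤ (rch pb U {w} F).card))) :
    (Ex (fun U : Ev n => ind (s1 ≤ (rch pl U {w} F).card)) -
      Ex (fun U : Ev n => ind (t + 1 ≤ (rch pl U {w} F).card))) * c0 ≤
      Ex (fun U : Ev n => ind (s1 ≤ (rch pl U {w} F).card ∧ s0 ≤ (rch pb U {w} F).card)) ∨
      c0 < 0 := by
  by_cases hc : c0 < 0
  · exact Or.inr hc
  left
  push Not at hc
  obtain ⟨WW, hWW⟩ : ∃ WW : Finset (Finset (Fin n)), WW = univ.filter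
    (fun W0 => s1 ≤ W0.card ∧ W0.card ≤ t) := ⟨_, rfl⟩
  have mWW : ∀ W0, W0 ∈ WW ↔ s1 ≤ W0.card ∧ W0.card ≤ t := by
    intro W0
    rw [hWW, mem_filter]
    exact ⟨fun h => h.2, fun h => ⟨mem_univ _, h⟩⟩
  have b1 : ∀ W0 : Finset (Fin n), BM (fun U : Ev n => ind (rch pl U {w} F = W0)) := by
    intro W0
    apply lvl_ind (L := {pl})
    intro U U' hU
    rw [rch_lvl pl {w} F hU]
  have b2 : ∀ W0 : Finset (Fin n), BM (fun U : Ev n => ind (rch pl U {w} F = W0 ∧
      s0 ≤ (rch pb U {w} F).card)) := by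
    intro W0
    apply lvl_ind (L := {pl, pb})
    intro U U' hU
    rw [rch_lvl pl {w} F (lvlEq_mono (by simp) hU), rch_lvl pb {w} F (lvlEq_mono (by simp) hU)]
  have e1 : Ex (fun U : Ev n => ind (s1 ≤ (rch pl U {w} F).card)) -
      Ex (fun U : Ev n => ind (t + 1 ≤ (rch pl U {w} F).card)) ≤
      ∑ W0 ∈ WW, Ex (fun U : Ev n => ind (rch pl U {w} F = W0)) := by
    rw [← Ex_sum _ (fun W0 _ => b1 W0), ← Ex_sub]
    · apply Ex_mono
      · apply BM.sub
        · apply lvl_ind (L := {pl})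
          intro U U' hU
          rw [rch_lvl pl {w} F hU]
        · apply lvl_ind (L := {pl})
          intro U U' hU
          rw [rch_lvl pl {w} F hU]
      · exact BM.sum _ (fun W0 _ => b1 W0)
      · intro U
        by_cases hs : s1 ≤ (rch pl U {w} F).card
        · by_cases ht : t + 1 ≤ (rch pl U {w} F).card
          · rw [ind_true hs, ind_true ht, sub_self]
            exact Finset.sum_nonneg (fun _ _ => ind_nonneg _)
          · rw [ind_true hs, ind_false ht, sub_zero]
            have hm : rch pl U {w} F ∈ WW := (mWW _).2 ⟨hs, by omega⟩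
            calc (1:ℝ) = ind (rch pl U {w} F = rch pl U {w} F) := (ind_true rfl).symm
              _ ≤ _ := Finset.single_le_sum (f := fun W0 => ind (rch pl U {w} F = W0))
                  (fun _ _ => ind_nonneg _) hm
        · rw [ind_false hs]
          have : 0 ≤ ind (t + 1 ≤ (rch pl U {w} F).card) := ind_nonneg _
          have : 0 ≤ ∑ W0 ∈ WW, ind (rch pl U {w} F = W0) :=
            Finset.sum_nonneg (fun _ _ => ind_nonneg _)
          linarith
    · apply lvl_ind (L := {pl})
      intro U U' hU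
      rw [rch_lvl pl {w} F hU]
    · apply lvl_ind (L := {pl})
      intro U U' hU
      rw [rch_lvl pl {w} F hU]
  have e2 : ∑ W0 ∈ WW, Ex (fun U : Ev n => ind (rch pl U {w} F = W0 ∧
      s0 ≤ (rch pb U {w} F).card)) ≤
      Ex (fun U : Ev n => ind (s1 ≤ (rch pl U {w} F).card ∧ s0 ≤ (rch pb U {w} F).card)) := by
    rw [← Ex_sum _ (fun W0 _ => b2 W0)]
    apply Ex_mono
    · exact BM.sum _ (fun W0 _ => b2 W0)
    · apply lvl_ind (L := {pl, pb})
      intro U U' hU
      rw [rch_lvl pl {w} F (lvlEq_mono (by simp) hU), rch_lvl pb {w} F (lvlEq_mono (by simp) hU)]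
    · intro U
      by_cases hg : s1 ≤ (rch pl U {w} F).card ∧ s0 ≤ (rch pb U {w} F).card
      · rw [ind_true hg]
        by_cases hm : rch pl U {w} F ∈ WW
        · rw [Finset.sum_eq_single (rch pl U {w} F)]
          · exact ind_le_one _
          · intro W0 _ hne
            exact ind_false (fun h => hne h.1.symm)
          · intro h
            exact absurd hm h
        · rw [Finset.sum_eq_zero]
          · exact zero_le_one
          · intro W0 hW0
            apply ind_false
            intro h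
            exact hm (h.1 ▸ hW0)
      · rw [ind_false hg]
        apply le_of_eq
        apply Finset.sum_eq_zero
        intro W0 hW0
        apply ind_false
        intro h
        apply hg
        rw [h.1]
        exact ⟨((mWW W0).1 hW0).1, h.2⟩
  calc _ ≤ (∑ W0 ∈ WW, Ex (fun U : Ev n => ind (rch pl U {w} F = W0))) * c0 :=
        mul_le_mul_of_nonneg_right e1 hc
    _ = ∑ W0 ∈ WW, Ex (fun U : Ev n => ind (rch pl U {w} F = W0)) * c0 := by rw [Finset.sum_mul]
    _ ≤ ∑ W0 ∈ WW, Ex (fun U : Ev n => ind (rch pl U {w} F = W0 ∧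
        s0 ≤ (rch pb U {w} F).card)) :=
        Finset.sum_le_sum (fun W0 hW0 => h W0 ((mWW W0).1 hW0).1 ((mWW W0).1 hW0).2)
    _ ≤ _ := e2

lemma num1 {N a b pl pb s1 K x : ℝ} (hb : 0 < b) (hba : 2 * b ≤ a) (ha : a ≤ 1 / 100)
    (hN : 10 ^ 7 ≤ N * b ^ 3) (hpl : pl = (1 - a) / N) (hpb : pb = (1 - b) / N)
    (hs1 : s1 * a ^ 2 * 6400 ≤ 1) (hs1' : 1 ≤ s1 * a ^ 2 * 6500) (hK : N / 2 ≤ K) (hK' : K ≤ N)
    (hx : 5 * b / 7 ≤ x) (hx' : x ≤ 2 * b) :
    b / (146000 * a) ≤ x / 2 * (K * ((pb - pl) / (1 - pl) * s1 * (1 - (pb - pl) / (1 - pl) * s1))) -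
      x ^ 2 / 2 * ((pb - pl) / (1 - pl) * s1 * K + ((pb - pl) / (1 - pl) * s1 * K) ^ 2) := by
  have ha0 : 0 < a := by linarith
  have hb1 : b ≤ 1 / 200 := by linarith
  have hb3 : b ^ 3 ≤ 1 := by
    apply pow_le_one₀ hb.le
    linarith
  have hN0 : 0 < N := by
    by_contra h
    push Not at h
    have : N * b ^ 3 ≤ 0 := mul_nonpos_of_nonpos_of_nonneg h (by positivity)
    linarith
  have hN1 : 10 ^ 7 ≤ N := by
    have : N * b ^ 3 ≤ N * 1 := mul_le_mul_of_nonneg_left hb3 hN0.le
    linarith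
  have hNa : 10 ^ 7 ≤ N * a := by
    have h1 : b ^ 3 ≤ a := by
      have : b ^ 3 ≤ b := by
        have h2 : b ^ 2 ≤ 1 := by nlinarith
        nlinarith
      linarith
    have : N * b ^ 3 ≤ N * a := mul_le_mul_of_nonneg_left h1 hN0.le
    linarith
  have hpl0 : 0 ≤ pl := by rw [hpl]; exact div_nonneg (by linarith) hN0.le
  have hpl1 : pl ≤ 1 / 2 := by
    rw [hpl, div_le_iff₀ hN0]
    linarith
  obtain ⟨q, hq⟩ : ∃ q, q = (pb - pl) / (1 - pl) := ⟨_, rfl⟩
  rw [← hq]
  have hd : pb - pl = (a - b) / N := by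
    rw [hpb, hpl, ← sub_div]
    congr 1
    ring
  have hqN : q * (1 - pl) * N = a - b := by
    rw [hq, div_mul_cancel₀ _ (by linarith : (1 - pl) ≠ 0), hd, div_mul_cancel₀ _ hN0.ne']
  have hq0 : 0 ≤ q := by
    rw [hq, hd]
    exact div_nonneg (div_nonneg (by linarith) hN0.le) (by linarith)
  have hqN0 : 0 ≤ q * N := by positivity
  -- a / 2 ≤ q N ≤ 2 a
  have hqe : q * (1 - pl) * N = q * N - pl * (q * N) := by ring
  have hqp : 0 ≤ pl * (q * N) := by positivity
  have hqp2 : pl * (q * N) ≤ 1 / 2 * (q * N) := mul_le_mul_of_nonneg_right hpl1 hqN0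
  have hql : a / 2 ≤ q * N := by linarith
  have hqu : q * N ≤ 2 * a := by linarith
  have hs0 : 0 < s1 := by
    by_contra h
    push Not at h
    have : s1 * a ^ 2 ≤ 0 := mul_nonpos_of_nonpos_of_nonneg h (by positivity)
    linarith
  obtain ⟨y, hy⟩ : ∃ y, y = q * s1 * K := ⟨_, rfl⟩
  obtain ⟨p1, hp1⟩ : ∃ p1, p1 = q * s1 := ⟨_, rfl⟩
  have hp10 : 0 ≤ p1 := by rw [hp1]; positivity
  have hK0 : 0 ≤ K := by linarith
  have hy0 : 0 ≤ y := by rw [hy]; positivity
  -- bounds for y
  have hyu : y * (3200 * a) ≤ 1 := by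
    have h1 : y ≤ (q * N) * s1 := by
      rw [hy]
      have : q * s1 * K ≤ q * s1 * N := mul_le_mul_of_nonneg_left hK' (by positivity)
      linarith
    have h2 : (q * N) * s1 ≤ 2 * a * s1 := mul_le_mul_of_nonneg_right hqu hs0.le
    have h3 : y * (3200 * a) ≤ 2 * a * s1 * (3200 * a) :=
      mul_le_mul_of_nonneg_right (h1.trans h2) (by positivity)
    have e : 2 * a * s1 * (3200 * a) = s1 * a ^ 2 * 6400 := by ring
    linarith
  have hyl : 1 ≤ y * (26000 * a) := by
    have h1 : (q * N) * s1 / 2 ≤ y := by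
      rw [hy]
      have : q * s1 * (N / 2) ≤ q * s1 * K := mul_le_mul_of_nonneg_left hK (by positivity)
      linarith
    have h2 : a / 2 * s1 ≤ (q * N) * s1 := mul_le_mul_of_nonneg_right hql hs0.le
    have h3 : (a / 2 * s1) / 2 * (26000 * a) ≤ y * (26000 * a) :=
      mul_le_mul_of_nonneg_right (by linarith) (by positivity)
    have e : (a / 2 * s1) / 2 * (26000 * a) = s1 * a ^ 2 * 6500 := by ring
    linarith
  have hp1u : p1 ≤ 1 / 100 := by
    have h1 : p1 * N ≤ 2 * a * s1 := by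
      rw [hp1]
      have : (q * N) * s1 ≤ 2 * a * s1 := mul_le_mul_of_nonneg_right hqu hs0.le
      linarith
    have h2 : p1 * (N * a) ≤ 1 / 3200 := by
      have : p1 * N * a ≤ 2 * a * s1 * a := mul_le_mul_of_nonneg_right h1 ha0.le
      have e : 2 * a * s1 * a = s1 * a ^ 2 * 6400 / 3200 := by ring
      linarith
    have h3 : p1 * 10 ^ 7 ≤ p1 * (N * a) := mul_le_mul_of_nonneg_left hNa hp10
    linarith
  have hx0 : 0 < x := by linarith [show 0 < 5 * b / 7 by positivity]
  have hxy : x * y ≤ 1 / 100 := by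
    have h1 : x * y ≤ a * y := mul_le_mul_of_nonneg_right (by linarith) hy0
    have e : y * (3200 * a) = 3200 * (a * y) := by ring
    linarith
  have e1 : x / 2 * (K * (q * s1 * (1 - q * s1))) - x ^ 2 / 2 * (q * s1 * K + (q * s1 * K) ^ 2) =
      x * y / 2 * (1 - p1 - x - x * y) := by
    rw [hy, hp1]
    ring
  rw [e1]
  have h4 : 1 / 2 ≤ 1 - p1 - x - x * y := by linarith
  have h5 : x * y / 4 ≤ x * y / 2 * (1 - p1 - x - x * y) := by
    have := mul_le_mul_of_nonneg_left h4 (show 0 ≤ x * y / 2 by positivity)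
    linarith
  refine le_trans ?_ h5
  rw [div_le_iff₀ (by positivity)]
  have h6 : 5 * b / 7 * (y * (26000 * a)) ≤ x * (y * (26000 * a)) :=
    mul_le_mul_of_nonneg_right hx (by positivity)
  have h7 : 5 * b / 7 * 1 ≤ 5 * b / 7 * (y * (26000 * a)) :=
    mul_le_mul_of_nonneg_left hyl (by positivity)
  have e : x * y / 4 * (146000 * a) = 73 / 52 * (x * (y * (26000 * a))) := by ring
  linarith

end Test

open Test

/-- probability to be a mark -/
theorem test_prob {pl pb gl gb : ℝ} {s1 s0 : ℕ} (hpl : pl = (1 - gl) / n) (hpb : pb = (1 - gb) / n)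
    (hgb : 0 < gb) (hgl : 2 * gb ≤ gl) (hgl1 : gl ≤ 1 / 100) (hn : 10 ^ 7 ≤ n * gb ^ 3)
    (hs1 : s1 * gl ^ 2 * 6400 ≤ 1) (hs1' : 1 ≤ s1 * gl ^ 2 * 6500) (hs0 : s0 * gb ^ 2 * 6400 ≤ 1)
    (hs0' : 1 ≤ s0) (w : Fin n) (F : Finset (Fin n)) (hw : w ∉ F)
    (hF : n * (1 - gb / 4) ≤ F.card) :
    gb / 10 ^ 8 ≤ Ex (fun U : Ev n => ind (mk pl pb s1 s0 U w F)) := by
  classical
  have hgl0 : 0 < gl := by linarith
  have hb1 : gb ≤ 1 / 200 := by linarith
  have hb3 : gb ^ 3 ≤ 1 := pow_le_one₀ hgb.le (by linarith)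
  have hN0 : (0:ℝ) < n := by
    by_contra h
    push Not at h
    have : (n:ℝ) * gb ^ 3 ≤ 0 := mul_nonpos_of_nonpos_of_nonneg h (by positivity)
    linarith
  have hN1 : (10:ℝ) ^ 7 ≤ n := by
    have : (n:ℝ) * gb ^ 3 ≤ n * 1 := mul_le_mul_of_nonneg_left hb3 hN0.le
    linarith
  -- n gb ^ 2 and so on
  have hNb2 : (10:ℝ) ^ 7 ≤ n * gb * gb ^ 2 := by
    have e : (n:ℝ) * gb * gb ^ 2 = n * gb ^ 3 := by ring
    linarith
  have hNb : (10:ℝ) ^ 7 ≤ n * gb ^ 2 := by
    have : (n:ℝ) * gb ^ 2 * gb ≤ n * gb ^ 2 * 1 := mul_le_mul_of_nonneg_left (by linarith)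
      (by positivity)
    have e : (n:ℝ) * gb ^ 2 * gb = n * gb ^ 3 := by ring
    linarith
  have hpl0 : 0 ≤ pl := by rw [hpl]; exact div_nonneg (by linarith) hN0.le
  have hpb0 : 0 ≤ pb := by rw [hpb]; exact div_nonneg (by linarith) hN0.le
  have hplN : pl * n = 1 - gl := by rw [hpl, div_mul_cancel₀ _ hN0.ne']
  have hpbN : pb * n = 1 - gb := by rw [hpb, div_mul_cancel₀ _ hN0.ne']
  have hpl16 : pl ≤ 1 / 16 := by
    rw [hpl, div_le_iff₀ hN0]
    linarith
  have hpb16 : pb ≤ 1 / 16 := by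
    rw [hpb, div_le_iff₀ hN0]
    linarith
  have hplb : pl ≤ pb := by
    rw [hpl, hpb]
    exact div_le_div_of_nonneg_right (by linarith) hN0.le
  have hFn : (F.card : ℝ) ≤ n := by
    have := card_le_univ F
    rw [Fintype.card_fin] at this
    exact_mod_cast this
  -- the large value of s0
  obtain ⟨S, hS⟩ : ∃ S : ℕ, S = ⌊1 / (6400 * gb ^ 2)⌋₊ := ⟨_, rfl⟩
  have hR0 : 0 ≤ 1 / (6400 * gb ^ 2) := by positivity
  have hsS : s0 ≤ S := by
    rw [hS]
    apply Nat.le_floor
    rw [le_div_iff₀ (by positivity)]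
    linarith
  have hS1 : 1 ≤ S := hs0'.trans hsS
  have hSu : (S:ℝ) * gb ^ 2 * 6400 ≤ 1 := by
    have h1 : (S:ℝ) ≤ 1 / (6400 * gb ^ 2) := by
      rw [hS]
      exact Nat.floor_le hR0
    rw [le_div_iff₀ (by positivity)] at h1
    linarith
  have hSl : 1 ≤ (S:ℝ) * gb ^ 2 * 12800 := by
    have h1 : 1 / (6400 * gb ^ 2) < (S:ℝ) + 1 := by
      rw [hS]
      exact Nat.lt_floor_add_one _
    rw [div_lt_iff₀ (by positivity)] at h1
    have h2 : gb ^ 2 ≤ (1 / 200) ^ 2 := pow_le_pow_left₀ hgb.le hb1 2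
    have e : ((S:ℝ) + 1) * (6400 * gb ^ 2) = S * gb ^ 2 * 6400 + 6400 * gb ^ 2 := by ring
    norm_num at h2
    linarith
  obtain ⟨r, hr⟩ : ∃ r, r = Real.sqrt S := ⟨_, rfl⟩
  have hr0 : 0 < r := by
    rw [hr]
    apply Real.sqrt_pos.2
    exact_mod_cast hS1
  have hr2 : r ^ 2 = S := by
    rw [hr]
    exact Real.sq_sqrt (by positivity)
  have hrb : r * gb ≤ 1 / 80 := by
    rw [← pow_le_pow_iff_left₀ (by positivity) (by norm_num) two_ne_zero, mul_pow, hr2]
    linarith
  have hrb' : 1 / 224 ≤ r * gb := by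
    rw [← pow_le_pow_iff_left₀ (by norm_num) (by positivity) two_ne_zero, mul_pow, hr2]
    linarith
  obtain ⟨x, hx⟩ : ∃ x, x = 1 / (112 * r) := ⟨_, rfl⟩
  have hxl : 5 * gb / 7 ≤ x := by
    rw [hx, le_div_iff₀ (by positivity)]
    linarith
  have hxu : x ≤ 2 * gb := by
    rw [hx, div_le_iff₀ (by positivity)]
    linarith
  have hx0 : 0 < x := by rw [hx]; positivity
  -- the low cluster
  have hs11 : 1 ≤ s1 := by
    by_contra h
    push Not at h
    have : s1 = 0 := by omega
    rw [this] at hs1'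
    norm_num at hs1'
  have hdw : Disjoint {w} F := by rwa [disjoint_singleton_left]
  have hs1n : (s1:ℝ) ≤ n * gb / 1000 := by
    have h1 : (s1:ℝ) * gb ^ 2 * 6400 ≤ 1 := by
      have : (s1:ℝ) * gb ^ 2 ≤ s1 * gl ^ 2 :=
        mul_le_mul_of_nonneg_left (pow_le_pow_left₀ hgb.le (by linarith) 2) (by positivity)
      linarith
    have h2 : (s1:ℝ) * gb ^ 2 ≤ (n * gb / 1000) * gb ^ 2 := by
      have e : ((n:ℝ) * gb / 1000) * gb ^ 2 = n * gb * gb ^ 2 / 1000 := by ring
      linarith
    exact le_of_mul_le_mul_right h2 (by positivity)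
  have hSn : (S:ℝ) ≤ n * gb / 1000 := by
    have h2 : (S:ℝ) * gb ^ 2 ≤ (n * gb / 1000) * gb ^ 2 := by
      have e : ((n:ℝ) * gb / 1000) * gb ^ 2 = n * gb * gb ^ 2 / 1000 := by ring
      linarith
    exact le_of_mul_le_mul_right h2 (by positivity)
  have low1 := rch_low hpl0 hpl16 hgl0 hgl1 {w} F hdw s1 hs11
    (by
      calc (F.card : ℝ) * pl ≤ n * pl := mul_le_mul_of_nonneg_right hFn hpl0
        _ ≤ 1 := by rw [mul_comm, hplN]; linarith)
    (by
      have h1 : (n:ℝ) * (1 - gb / 4 - gb / 1000) ≤ (F.card : ℝ) - s1 := by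
        have e : (n:ℝ) * (1 - gb / 4 - gb / 1000) = n * (1 - gb / 4) - n * gb / 1000 := by ring
        linarith
      calc 1 - 2 * gl ≤ (1 - gl) * (1 - gb / 4 - gb / 1000) := by
            have e : (1 - gl) * (1 - gb / 4 - gb / 1000) =
              1 - gl - 251 / 1000 * gb + 251 / 1000 * (gl * gb) := by ring
            have : 0 ≤ gl * gb := by positivity
            linarith
        _ = n * (1 - gb / 4 - gb / 1000) * pl := by rw [← hplN]; ring
        _ ≤ ((F.card : ℝ) - s1) * pl := mul_le_mul_of_nonneg_right h1 hpl0) hs1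
  have hlow1 : 5 * gl / 14 ≤ Ex (fun U : Ev n => ind (s1 ≤ (rch pl U {w} F).card)) := by
    refine le_trans ?_ low1
    obtain ⟨r1, hr1⟩ : ∃ r1, r1 = Real.sqrt s1 := ⟨_, rfl⟩
    have hr10 : 0 < r1 := by
      rw [hr1]
      apply Real.sqrt_pos.2
      exact_mod_cast hs11
    have hr12 : r1 ^ 2 = s1 := by
      rw [hr1]
      exact Real.sq_sqrt (by positivity)
    have hrb1 : r1 * gl ≤ 1 / 80 := by
      rw [← pow_le_pow_iff_left₀ (by positivity) (by norm_num) two_ne_zero, mul_pow, hr12]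
      linarith
    rw [← hr1, card_singleton, pow_one]
    have e1 : 1 - (1 - 1 / (112 * r1)) - ((1:ℕ) : ℝ) / (224 * r1) = 1 / (224 * r1) := by
      push_cast
      field_simp
      norm_num
    rw [e1, le_div_iff₀ (by positivity)]
    linarith
  clear low1
  obtain ⟨t, ht⟩ : ∃ t : ℕ, t = ⌊(n:ℝ) * gb / 8⌋₊ := ⟨_, rfl⟩
  have htu : (t:ℝ) ≤ n * gb / 8 := by
    rw [ht]
    exact Nat.floor_le (by positivity)
  have htl : (n:ℝ) * gb / 8 ≤ ((t + 1 : ℕ) : ℝ) := by
    push_cast
    rw [ht]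
    exact (Nat.lt_floor_add_one _).le
  have htail := rch_tail hpl0 hpl16 (le_refl (0:ℝ)) zero_le_one {w} F hdw
    (by
      calc (F.card : ℝ) * pl ≤ n * pl := mul_le_mul_of_nonneg_right hFn hpl0
        _ ≤ 1 + 0 := by rw [mul_comm, hplN]; linarith) (t + 1) (by omega)
  have htail' : Ex (fun U : Ev n => ind (t + 1 ≤ (rch pl U {w} F).card)) ≤ gl / 300 := by
    refine htail.trans ?_
    obtain ⟨r2, hr2'⟩ : ∃ r2, r2 = Real.sqrt ((t + 1 : ℕ) : ℝ) := ⟨_, rfl⟩
    rw [← hr2', card_singleton]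
    have h1 : 2100 / gl ≤ r2 := by
      rw [hr2']
      apply Real.le_sqrt_of_sq_le
      refine le_trans ?_ htl
      rw [div_pow, div_le_iff₀ (by positivity)]
      have h3 : (2 * gb) ^ 2 ≤ gl ^ 2 := pow_le_pow_left₀ (by positivity) hgl 2
      have h4 := mul_le_mul_of_nonneg_left h3 (show 0 ≤ (n:ℝ) * gb / 8 by positivity)
      have e : (n:ℝ) * gb / 8 * (2 * gb) ^ 2 = n * gb ^ 3 / 2 := by ring
      rw [e] at h4
      norm_num
      linarith
    have hr20 : 0 < r2 := lt_of_lt_of_le (by positivity) h1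
    have h2 : 1 / r2 ≤ gl / 2100 := by
      rw [div_le_iff₀ hr20]
      have := mul_le_mul_of_nonneg_left h1 (show 0 ≤ gl / 2100 by positivity)
      have e : gl / 2100 * (2100 / gl) = 1 := by field_simp
      linarith
    push_cast
    linarith
  clear htail
  -- the attached vertices
  have hmain := sum_clusters (pl := pl) (pb := pb) w F s1 t S (gb / (146000 * gl)) (by
    intro W0 hW0 hW0t
    clear hlow1 htail'
    obtain ⟨W1, hW1, hW1c⟩ := exists_subset_card_eq hW0
    have hW0r : (W0.card : ℝ) ≤ n * gb / 8 := le_trans (by exact_mod_cast hW0t) htu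
    have hFW : (F.card : ℝ) - W0.card ≤ ((F \ W0).card : ℝ) := by
      have h1 := le_card_sdiff W0 F
      have h2 : (F.card : ℝ) ≤ ((F \ W0).card : ℝ) + W0.card := by
        have : F.card ≤ (F \ W0).card + W0.card := by omega
        exact_mod_cast this
      linarith
    have hd : Disjoint W1 (F \ W0) := by
      rw [Finset.disjoint_left]
      intro a ha ha'
      exact (mem_sdiff.1 ha').2 (hW1 ha)
    have hq0 : 0 ≤ (pb - pl) / (1 - pl) := div_nonneg (by linarith) (by linarith)
    have hq1 : (pb - pl) / (1 - pl) ≤ 1 := by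
      rw [div_le_one (by linarith)]
      linarith
    have hc := cond (x := x) hpl0 hplb (by linarith) (by linarith) w F W0 W1 hW1 S (by
      intro A hA
      by_cases hm : (A.card : ℝ) ≤ n * gb / 2
      · have h1 : ((((F \ W0) \ A).card : ℕ) : ℝ) = ((F \ W0).card : ℝ) - A.card := by
          rw [card_sdiff_of_subset hA, Nat.cast_sub (card_le_card hA)]
        have h2 : ((((F \ W0) \ A).card : ℕ) : ℝ) ≤ n := by
          have := card_le_univ ((F \ W0) \ A)
          rw [Fintype.card_fin] at this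
          exact_mod_cast this
        have h3 := rch_low hpb0 hpb16 hgb (by linarith) A ((F \ W0) \ A) disjoint_sdiff S hS1
          (by
            calc ((((F \ W0) \ A).card : ℕ) : ℝ) * pb ≤ n * pb :=
                  mul_le_mul_of_nonneg_right h2 hpb0
              _ ≤ 1 := by rw [mul_comm, hpbN]; linarith)
          (by
            have h4 : (n:ℝ) * (1 - 7 * gb / 8 - gb / 1000) ≤
                ((((F \ W0) \ A).card : ℕ) : ℝ) - S := by
              rw [h1]
              linarith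
            calc 1 - 2 * gb ≤ (1 - gb) * (1 - 7 * gb / 8 - gb / 1000) := by
                  have e : (1 - gb) * (1 - 7 * gb / 8 - gb / 1000) =
                    1 - 1876 / 1000 * gb + 876 / 1000 * gb ^ 2 := by ring
                  have : 0 ≤ gb ^ 2 := sq_nonneg gb
                  linarith
              _ = n * (1 - 7 * gb / 8 - gb / 1000) * pb := by rw [← hpbN]; ring
              _ ≤ _ := mul_le_mul_of_nonneg_right h4 hpb0) hSu
        refine le_trans (le_of_eq ?_) h3
        rw [← hr, hx]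
        field_simp
        ring
      · push Not at hm
        refine le_trans ?_ (Ex_nonneg (fun U => ind_nonneg _))
        have h1 : 0 ≤ (1 - x) ^ A.card := pow_nonneg (by linarith) _
        have h2 : 2 ≤ (A.card : ℝ) * x := by
          calc (2:ℝ) ≤ n * gb / 2 * (5 * gb / 7) := by
                have e : (n:ℝ) * gb / 2 * (5 * gb / 7) = n * gb ^ 2 * 5 / 14 := by ring
                linarith
            _ ≤ A.card * x := mul_le_mul hm.le hxl (by positivity) (by positivity)
        linarith)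
    refine le_trans (mul_le_mul_of_nonneg_left ?_ (Ex_nonneg (fun U => ind_nonneg _))) hc
    refine le_trans ?_ (ex_low hd hq0 hq1 hx0.le (by linarith))
    rw [hW1c]
    refine num1 hgb hgl hgl1 hn hpl hpb hs1 hs1' ?_ ?_ hxl hxu
    · have e : (n:ℝ) * (1 - gb / 4) = n - n * gb / 4 := by ring
      have e2 : (n:ℝ) * gb ≤ n * (1 / 200) := mul_le_mul_of_nonneg_left hb1 hN0.le
      linarith
    · have := card_le_univ (F \ W0)
      rw [Fintype.card_fin] at this
      exact_mod_cast this)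
  rcases hmain with hmain | hmain
  · have h1 : Ex (fun U : Ev n => ind (s1 ≤ (rch pl U {w} F).card ∧
        S ≤ (rch pb U {w} F).card)) ≤ Ex (fun U : Ev n => ind (mk pl pb s1 s0 U w F)) := by
      apply Ex_mono
      · apply lvl_ind (L := {pl, pb})
        intro U U' hU
        rw [rch_lvl pl {w} F (lvlEq_mono (by simp) hU), rch_lvl pb {w} F (lvlEq_mono (by simp) hU)]
      · apply lvl_ind (L := {pl, pb})
        intro U U' hU
        unfold mk
        rw [rch_lvl pl {w} F (lvlEq_mono (by simp) hU), rch_lvl pb {w} F (lvlEq_mono (by simp) hU)]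
      · intro U
        apply ind_mono
        rintro ⟨h2, h3⟩
        exact ⟨h2, hsS.trans h3⟩
    refine le_trans ?_ (hmain.trans h1)
    have h2 : gl / 3 ≤ Ex (fun U : Ev n => ind (s1 ≤ (rch pl U {w} F).card)) -
        Ex (fun U : Ev n => ind (t + 1 ≤ (rch pl U {w} F).card)) := by linarith
    have h3 : 0 ≤ gb / (146000 * gl) := by positivity
    refine le_trans ?_ (mul_le_mul_of_nonneg_right h2 h3)
    have e : gl / 3 * (gb / (146000 * gl)) = gb / 438000 := by
      field_simp
      norm_num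
    rw [e]
    apply div_le_div_of_nonneg_left hgb.le (by norm_num) (by norm_num)
  · exfalso
    have : 0 ≤ gb / (146000 * gl) := by positivity
    linarith

end

end Pool.Agent.TH972.U
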