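import Pool.Agent.TH972.U.Bush2
import Pool.Agent.TH972.U.Test

/-!
# Numerics of the bush
-/

set_option autoImplicit false
set_option linter.unusedSectionVars false

namespace Pool.Agent.TH972.U

open Finset MeasureTheory Pool.Agent.W842.RST Pool.Agent.TH972

noncomputable section

variable {n : ℕ}

namespace BNum

theorem exp_up {z : ℝ} (h0 : 0 ≤ z) (h1 : z ≤ 1) : Real.exp z - 1 ≤ z + z ^ 2 := by
  have := Real.abs_exp_sub_one_sub_id_le (x := z) (by rw [abs_of_nonneg h0]; exact h1)
  have h2 := (abs_le.1 this).2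
  linarith

theorem exp_down {z : ℝ} (h0 : 0 ≤ z) : z - z ^ 2 / 2 ≤ 1 - Real.exp (-z) := by
  have h1 := Real.quadratic_le_exp_of_nonneg h0
  have h2 : Real.exp (-z) * Real.exp z = 1 := by rw [← Real.exp_add]; simp
  have h3 : Real.exp (-z) * (1 + z + z ^ 2 / 2) ≤ 1 := by
    calc Real.exp (-z) * (1 + z + z ^ 2 / 2) ≤ Real.exp (-z) * Real.exp z :=
          mul_le_mul_of_nonneg_left h1 (Real.exp_pos _).le
      _ = 1 := h2
  have h4 : 1 ≤ (1 - z + z ^ 2 / 2) * (1 + z + z ^ 2 / 2) := by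
    have : (1 - z + z ^ 2 / 2) * (1 + z + z ^ 2 / 2) = 1 + z ^ 4 / 4 := by ring
    rw [this]
    have : 0 ≤ z ^ 4 := by positivity
    linarith
  have h5 : 0 < 1 + z + z ^ 2 / 2 := by positivity
  have h6 : Real.exp (-z) ≤ 1 - z + z ^ 2 / 2 :=
    le_of_mul_le_mul_right (h3.trans h4) h5
  linarith

theorem card_le (F : Finset (Fin n)) : (F.card : ℝ) ≤ n := by
  have : F.card ≤ n := by simpa using Finset.card_le_univ F
  exact_mod_cast this

theorem BM_bush {pl pt pb : ℝ} {s1 s0 J : ℕ} (v : Fin n) (F : Finset (Fin n))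
    (g : Finset (Fin n) × Option (Fin n) → ℝ) :
    BM (fun U : Ev n => g (bush pl pt pb s1 s0 J U v F)) := by
  refine BM_lvl {pl, pt, pb} fun U U' h => ?_
  unfold bush
  rw [Bush.bsh_lvl (U := U) (U' := U') h]

/-- the recursion of the weights -/
theorem step_num {gl gb t a z z' : ℝ} (hgb : 0 < gb) (hgl : 2 * gb ≤ gl)
    (hgl1 : gl ≤ 1 / 100) (ht : 100 * gl ≤ t) (hz' : 0 ≤ z') (hzz : gl * z = 4 * (t + gl) * z')
    (hz : 0 ≤ z) (hz1 : z ≤ gl / 4) (hz1' : z' ≤ gl / 4) (ha : a ≤ gl * z') :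
    (1 - gl) * (Real.exp z - 1) + (t + gl) * (Real.exp z' - 1) ≤ z - a := by
  have h1 := exp_up hz (by linarith)
  have h2 := exp_up hz' (by linarith)
  have h3 : (1 - gl) * (Real.exp z - 1) ≤ (1 - gl) * (z + z ^ 2) :=
    mul_le_mul_of_nonneg_left h1 (by linarith)
  have h4 : (t + gl) * (Real.exp z' - 1) ≤ (t + gl) * (z' + z' ^ 2) :=
    mul_le_mul_of_nonneg_left h2 (by linarith)
  have h5 : (1 - gl) * z ^ 2 ≤ (t + gl) * z' := by
    have a1 : z ^ 2 ≤ z * (gl / 4) := by nlinarith
    have a2 : (1 - gl) * z ^ 2 ≤ z ^ 2 := by nlinarith [sq_nonneg z]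
    nlinarith
  have h6 : (t + gl) * z' ^ 2 ≤ (t + gl) * z' := by
    have : z' ^ 2 ≤ z' := by nlinarith
    exact mul_le_mul_of_nonneg_left this (by linarith)
  have h7 : gl * z' ≤ (t + gl) * z' := mul_le_mul_of_nonneg_right (by linarith) hz'
  nlinarith

/-- the function `α` in units of `t` -/
def th (h : ℕ) : ℝ :=
  if h = 0 then 1.55 else if h = 1 then 1.25 else if h = 2 then 0.85 else if h = 3 then 0.45
    else 0.12 / 10 ^ (h - 4)

theorem th_pos (h : ℕ) : 0 < th h := by
  unfold th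
  split_ifs <;> positivity

theorem th_le (h : ℕ) : th h ≤ 1.55 := by
  unfold th
  split_ifs with h0 h1 h2 h3
  · norm_num
  · norm_num
  · norm_num
  · norm_num
  · have : (1 : ℝ) ≤ 10 ^ (h - 4) := one_le_pow₀ (by norm_num)
    rw [div_le_iff₀ (by positivity)]
    linarith

theorem th_step (h : ℕ) : th h ^ 2 / 2 + 0.0101 * th h ≤ 0.998 * th (h + 1) := by
  rcases Nat.lt_or_ge h 4 with hh | hh
  · interval_cases h
    · norm_num [th]
    · norm_num [th]
    · norm_num [th]
    · norm_num [th]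
  · have e1 : th h = 0.12 / 10 ^ (h - 4) := by
      unfold th
      rw [if_neg (by omega), if_neg (by omega), if_neg (by omega), if_neg (by omega)]
    have e2 : th (h + 1) = th h / 10 := by
      rw [e1]
      unfold th
      rw [if_neg (by omega), if_neg (by omega), if_neg (by omega), if_neg (by omega),
        show h + 1 - 4 = (h - 4) + 1 by omega, pow_succ]
      field_simp
    have e3 : th h ≤ 0.12 := by
      rw [e1]
      have : (1 : ℝ) ≤ 10 ^ (h - 4) := one_le_pow₀ (by norm_num)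
      rw [div_le_iff₀ (by positivity)]
      linarith
    have e4 := th_pos h
    rw [e2]
    nlinarith

/-- the recursion for the failure probability -/
theorem fail_num {gl gb t x x' : ℝ} (hgb : 0 < gb) (hgl : 100 * gb ≤ gl)
    (hgl1 : gl ≤ 1 / 100) (ht : 100 * gl ≤ t) (ht1 : t ≤ 1 / 500) (hx : 0 < x) (hx1 : x ≤ 1.55)
    (hx' : 0 < x') (hx1' : x' ≤ 1.55)
    (hs : x ^ 2 / 2 + 0.0101 * x ≤ 0.998 * x') :
    x * t ≤ (1 - gb / 4) * ((1 - gl) * (1 - Real.exp (-(x * t))) +
      (t + gl) * (1 - Real.exp (-(x' * t)))) := by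
  have ht0 : 0 < t := by linarith
  have h1 := exp_down (z := x * t) (by positivity)
  have h2 := exp_down (z := x' * t) (by positivity)
  have h3 : (1 - gl) * (x * t - (x * t) ^ 2 / 2) ≤ (1 - gl) * (1 - Real.exp (-(x * t))) :=
    mul_le_mul_of_nonneg_left h1 (by linarith)
  have h4 : (t + gl) * (x' * t - (x' * t) ^ 2 / 2) ≤ (t + gl) * (1 - Real.exp (-(x' * t))) :=
    mul_le_mul_of_nonneg_left h2 (by linarith)
  have h5 : (1 - gb / 4) * ((1 - gl) * (x * t - (x * t) ^ 2 / 2) +
      (t + gl) * (x' * t - (x' * t) ^ 2 / 2)) ≤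
      (1 - gb / 4) * ((1 - gl) * (1 - Real.exp (-(x * t))) +
      (t + gl) * (1 - Real.exp (-(x' * t)))) :=
    mul_le_mul_of_nonneg_left (add_le_add h3 h4) (by linarith)
  refine le_trans ?_ h5
  -- first term
  have hxt : x * t ≤ 1 / 300 := by nlinarith
  have hxt' : x' * t ≤ 1 / 300 := by nlinarith
  have hA : x * t - (x * t) ^ 2 / 2 - (gb / 4 + gl) * (x * t) ≤
      (1 - gb / 4) * ((1 - gl) * (x * t - (x * t) ^ 2 / 2)) := by
    have a1 : 0 ≤ gb / 4 * gl * (x * t - (x * t) ^ 2 / 2) := by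
      refine mul_nonneg (mul_nonneg (by linarith) (by linarith)) ?_
      nlinarith [mul_pos hx ht0]
    have a2 : 0 ≤ (gb / 4 + gl) * ((x * t) ^ 2 / 2) := by
      have : 0 ≤ gl := by linarith
      positivity
    nlinarith
  have hB : 0.998 * (t * (x' * t)) ≤ (1 - gb / 4) * ((t + gl) * (x' * t - (x' * t) ^ 2 / 2)) := by
    have b1 : 0 ≤ x' * t - (x' * t) ^ 2 / 2 := by nlinarith [mul_pos hx' ht0]
    have b2 : t * (x' * t - (x' * t) ^ 2 / 2) ≤ (t + gl) * (x' * t - (x' * t) ^ 2 / 2) :=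
      mul_le_mul_of_nonneg_right (by linarith) b1
    have b3 : 0.9983 * (x' * t) ≤ x' * t - (x' * t) ^ 2 / 2 := by nlinarith [mul_pos hx' ht0]
    have b4 : 0.9999 * (t * (0.9983 * (x' * t))) ≤
        (1 - gb / 4) * ((t + gl) * (x' * t - (x' * t) ^ 2 / 2)) := by
      have c1 : t * (0.9983 * (x' * t)) ≤ (t + gl) * (x' * t - (x' * t) ^ 2 / 2) :=
        (mul_le_mul_of_nonneg_left b3 ht0.le).trans b2
      have c2 : 0 ≤ t * (0.9983 * (x' * t)) := by positivity
      have c3 : (0.9999 : ℝ) ≤ 1 - gb / 4 := by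
        have : gb ≤ 1 / 10000 * (1 / 500) := by nlinarith
        linarith
      exact mul_le_mul c3 c1 c2 (by linarith)
    have b5 : 0 ≤ t * (x' * t) := by positivity
    nlinarith
  have hC : (x * t) ^ 2 / 2 + (gb / 4 + gl) * (x * t) ≤ 0.998 * (t * (x' * t)) := by
    have d1 : gb / 4 + gl ≤ 0.0101 * t := by nlinarith
    have d2 : (gb / 4 + gl) * (x * t) ≤ 0.0101 * t * (x * t) :=
      mul_le_mul_of_nonneg_right d1 (by positivity)
    have d3 : (x ^ 2 / 2 + 0.0101 * x) * t ^ 2 ≤ 0.998 * x' * t ^ 2 :=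
      mul_le_mul_of_nonneg_right hs (by positivity)
    nlinarith
  have e : (1 - gb / 4) * ((1 - gl) * (x * t - (x * t) ^ 2 / 2) +
      (t + gl) * (x' * t - (x' * t) ^ 2 / 2)) =
      (1 - gb / 4) * ((1 - gl) * (x * t - (x * t) ^ 2 / 2)) +
      (1 - gb / 4) * ((t + gl) * (x' * t - (x' * t) ^ 2 / 2)) := by ring
  rw [e]
  linarith

end BNum

open BNum

/-- exponential moment of the bush -/
theorem bush_exp {pl pb pt gl gb t a : ℝ} {s1 s0 J : ℕ} (hn : 1 ≤ n) (hpl : pl = (1 - gl) / n)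
    (hpb : pb = (1 - gb) / n) (hpt : pt = (1 + t) / n) (hgb : 0 < gb) (hgl : 2 * gb ≤ gl)
    (hgl1 : gl ≤ 1 / 100) (ht : 100 * gl ≤ t) (ht1 : t ≤ 1 / 500) (h1 : pt ≤ 1) (ha : 0 ≤ a)
    (ha1 : 8 * a * (4 * (t + gl) / gl) ^ J ≤ gb * gl) (ha2 : a ≤ gb ^ 2 / 4)
    (v : Fin n) (F : Finset (Fin n)) (hv : v ∉ F) :
    Ex (fun U : Ev n => Real.exp (a * (bush pl pt pb s1 s0 J U v F).1.card)) ≤ 1 + gl / 2 := by
  have hnpos : (0 : ℝ) < n := by exact_mod_cast hn
  have hn1 : (1 : ℝ) ≤ n := by exact_mod_cast hn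
  have hgl0 : 0 < gl := by linarith
  set q : ℝ := 4 * (t + gl) / gl with hq
  have hq1 : 1 ≤ q := by
    rw [hq, le_div_iff₀ hgl0]
    linarith
  set z : ℕ → ℝ := fun h => q ^ (J - h) * (2 * a / gb) with hz
  have hb0 : 0 ≤ 2 * a / gb := by positivity
  have hab : a ≤ 2 * a / gb := by
    rw [le_div_iff₀ hgb]
    nlinarith
  have hzlow : ∀ h, 2 * a / gb ≤ z h := fun h => by
    rw [hz]
    exact le_mul_of_one_le_left hb0 (one_le_pow₀ hq1)
  have hz0 : z 0 ≤ gl / 4 := by
    rw [hz]
    simp only [Nat.sub_zero]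
    have e1 : q ^ J * (2 * a / gb) = (8 * a * q ^ J) / (4 * gb) := by field_simp; ring
    rw [e1, div_le_iff₀ (by positivity)]
    calc 8 * a * q ^ J ≤ gb * gl := ha1
      _ = gl / 4 * (4 * gb) := by ring
  have hzle : ∀ h, z h ≤ gl / 4 := fun h => by
    refine le_trans ?_ hz0
    rw [hz]
    exact mul_le_mul_of_nonneg_right (pow_le_pow_right₀ hq1 (by omega)) hb0
  have hzz : ∀ h < J, gl * z h = 4 * (t + gl) * z (h + 1) := by
    intro h hh
    rw [hz]
    simp only
    rw [show J - h = (J - (h + 1)) + 1 by omega, pow_succ]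
    have : gl * q = 4 * (t + gl) := by rw [hq]; field_simp
    calc gl * (q ^ (J - (h + 1)) * q * (2 * a / gb)) =
        gl * q * (q ^ (J - (h + 1)) * (2 * a / gb)) := by ring
      _ = _ := by rw [this]
  have hplpt : pl ≤ pt := by
    rw [hpl, hpt]
    exact div_le_div_of_nonneg_right (by linarith) hnpos.le
  have hpl0 : 0 ≤ pl := by
    rw [hpl]
    exact div_nonneg (by linarith) hnpos.le
  have hpb0 : 0 ≤ pb := by
    rw [hpb]
    exact div_nonneg (by linarith) hnpos.le
  have hpb1 : pb ≤ 1 := by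
    rw [hpb, div_le_one hnpos]
    linarith
  have hFn := BNum.card_le F
  have hkey := bush_size (s1 := s1) (s0 := s0) (J := J) hpl0 hplpt hpb0 hpb1 h1 v F hv ha
    (fun h => z h - a) (fun h => by have := hzlow h; linarith) ?_ ?_
  · refine hkey.trans ?_
    have e1 : Real.exp (z 0 - a) ≤ Real.exp (gl / 4) := by
      rw [Real.exp_le_exp]
      linarith
    have e2 := exp_up (z := gl / 4) (by positivity) (by linarith)
    nlinarith
  · intro h hh
    have e1 : a + (z h - a) = z h := by ring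
    have e2 : a + (z (h + 1) - a) = z (h + 1) := by ring
    rw [e1, e2]
    have hzh : 0 ≤ z h := hb0.trans (hzlow h)
    have hzh' : 0 ≤ z (h + 1) := hb0.trans (hzlow (h + 1))
    have hs := step_num (a := a) hgb hgl hgl1 ht hzh' (hzz h hh) hzh (hzle h) (hzle (h + 1)) (by
      have a1 := mul_le_mul_of_nonneg_left (hzlow (h + 1)) hgl0.le
      have a2 : a ≤ gl * (2 * a / gb) := by
        rw [mul_div_assoc', le_div_iff₀ hgb]
        nlinarith
      linarith)
    refine le_trans ?_ hs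
    have e3 : 0 ≤ pl * (Real.exp (z h) - 1) + (pt - pl) * (Real.exp (z (h + 1)) - 1) := by
      have b1 : 0 ≤ Real.exp (z h) - 1 := by
        have := Real.one_le_exp hzh
        linarith
      have b2 : 0 ≤ Real.exp (z (h + 1)) - 1 := by
        have := Real.one_le_exp hzh'
        linarith
      exact add_nonneg (mul_nonneg hpl0 b1) (mul_nonneg (by linarith) b2)
    refine (mul_le_mul_of_nonneg_right hFn e3).trans (le_of_eq ?_)
    rw [hpl, hpt]
    field_simp
    ring
  · intro w F' hw hF'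
    have e1 : a + (z J - a) = 2 * a / gb := by
      rw [hz]
      simp
    rw [e1]
    have hF'n := BNum.card_le F'
    have := rch_sub (p := pb) (g := gb) (μ := a) hpb0 hpb1 hgb (by linarith) {w} F'
      (by rwa [disjoint_singleton_left]) (by
        rw [hpb]
        rw [mul_div_assoc', div_le_iff₀ hnpos]
        have : 0 ≤ 1 - gb := by linarith
        nlinarith) ha ha2
    rw [card_singleton, Nat.cast_one, mul_one] at this
    exact this

/-- probability that the bush fails -/
theorem bush_none {pl pb pt gl gb t a : ℝ} {s1 s0 J : ℕ} (hpl : pl = (1 - gl) / n)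
    (hpb : pb = (1 - gb) / n) (hpt : pt = (1 + t) / n) (hgb : 0 < gb) (hgl : 100 * gb ≤ gl)
    (hgl1 : gl ≤ 1 / 100) (hn : 10 ^ 7 ≤ n * gb ^ 3)
    (hs1 : s1 * gl ^ 2 * 6400 ≤ 1) (hs1' : 1 ≤ s1 * gl ^ 2 * 6500) (hs0 : s0 * gb ^ 2 * 6400 ≤ 1)
    (hs0' : 1 ≤ s0) (ht : 100 * gl ≤ t) (ht1 : t ≤ 1 / 500) (h1 : pt ≤ 1) (ha : 0 ≤ a)
    (ha1 : 8 * a * (4 * (t + gl) / gl) ^ J ≤ gb * gl) (ha2 : a ≤ gb ^ 2 / 4)
    (hJ : 4 ≤ J) (hJt : 0.12 * t * 10 ^ 8 ≤ gb * 10 ^ (J - 4))
    (v : Fin n) (F : Finset (Fin n)) (hv : v ∉ F) (cap : ℕ)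
    (hF : n * (1 - gb / 4) + cap + 1 ≤ F.card) :
    Ex (fun U : Ev n => ind ((bush pl pt pb s1 s0 J U v F).2 = none)) ≤
      Real.exp (-(1.55 * t)) + 2 * Real.exp (-(a * cap)) := by
  have hnat : 1 ≤ n := by
    rcases Nat.eq_zero_or_pos n with h | h
    · exfalso
      rw [h] at hn
      norm_num at hn
    · exact h
  have hnpos : (0 : ℝ) < n := by exact_mod_cast hnat
  have hn1 : (1 : ℝ) ≤ n := by exact_mod_cast hnat
  have hgl0 : 0 < gl := by linarith
  have ht0 : 0 < t := by linarith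
  have hplpt : pl ≤ pt := by
    rw [hpl, hpt]
    exact div_le_div_of_nonneg_right (by linarith) hnpos.le
  have hplpb : pl ≤ pb := by
    rw [hpl, hpb]
    exact div_le_div_of_nonneg_right (by linarith) hnpos.le
  have hpl0 : 0 ≤ pl := by
    rw [hpl]
    exact div_nonneg (by linarith) hnpos.le
  have hpb1 : pb ≤ 1 := by
    rw [hpb, div_le_one hnpos]
    linarith
  -- splitting
  have hBM1 := BM_bush (pl := pl) (pt := pt) (pb := pb) (s1 := s1) (s0 := s0) (J := J) v F
    (fun R => ind (R.2 = none))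
  have hBM2 := BM_bush (pl := pl) (pt := pt) (pb := pb) (s1 := s1) (s0 := s0) (J := J) v F
    (fun R => ind (R.2 = none ∧ R.1.card ≤ cap))
  have hBM3 := BM_bush (pl := pl) (pt := pt) (pb := pb) (s1 := s1) (s0 := s0) (J := J) v F
    (fun R => Real.exp (-(a * cap)) * Real.exp (a * R.1.card))
  have hsplit : Ex (fun U : Ev n => ind ((bush pl pt pb s1 s0 J U v F).2 = none)) ≤
      Ex (fun U : Ev n => ind ((bush pl pt pb s1 s0 J U v F).2 = none ∧
        (bush pl pt pb s1 s0 J U v F).1.card ≤ cap)) +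
      Ex (fun U : Ev n => Real.exp (-(a * cap)) *
        Real.exp (a * (bush pl pt pb s1 s0 J U v F).1.card)) := by
    rw [← Ex_add hBM2 hBM3]
    refine Ex_mono hBM1 (hBM2.add hBM3) fun U => ?_
    by_cases hc : (bush pl pt pb s1 s0 J U v F).1.card ≤ cap
    · have e1 : ind ((bush pl pt pb s1 s0 J U v F).2 = none) =
          ind ((bush pl pt pb s1 s0 J U v F).2 = none ∧
            (bush pl pt pb s1 s0 J U v F).1.card ≤ cap) := by
        congr 1
        simp [hc]
      have : 0 ≤ Real.exp (-(a * cap)) *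
        Real.exp (a * (bush pl pt pb s1 s0 J U v F).1.card) := by positivity
      linarith
    · have e1 : 1 ≤ Real.exp (-(a * cap)) *
          Real.exp (a * (bush pl pt pb s1 s0 J U v F).1.card) := by
        rw [← Real.exp_add]
        apply Real.one_le_exp
        have : (cap : ℝ) ≤ (bush pl pt pb s1 s0 J U v F).1.card := by
          exact_mod_cast (not_le.1 hc).le
        nlinarith
      have e2 := ind_le_one ((bush pl pt pb s1 s0 J U v F).2 = none)
      have e3 := ind_nonneg ((bush pl pt pb s1 s0 J U v F).2 = none ∧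
            (bush pl pt pb s1 s0 J U v F).1.card ≤ cap)
      linarith
  have hexp := bush_exp (s1 := s1) (s0 := s0) (J := J) hnat hpl hpb hpt hgb (by linarith) hgl1 ht
    ht1 h1 ha ha1 ha2 v F hv
  have hsecond : Ex (fun U : Ev n => Real.exp (-(a * cap)) *
        Real.exp (a * (bush pl pt pb s1 s0 J U v F).1.card)) ≤ 2 * Real.exp (-(a * cap)) := by
    rw [Ex_const_mul, mul_comm]
    exact mul_le_mul_of_nonneg_right (by linarith) (Real.exp_pos _).le
  -- first term
  have hfmin : (n : ℝ) * (1 - gb / 4) ≤ ⌈(n : ℝ) * (1 - gb / 4)⌉₊ := Nat.le_ceil _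
  have hfmin' : (⌈(n : ℝ) * (1 - gb / 4)⌉₊ : ℝ) < n * (1 - gb / 4) + 1 :=
    Nat.ceil_lt_add_one (by
      have : 0 ≤ 1 - gb / 4 := by linarith
      positivity)
  set fmin := ⌈(n : ℝ) * (1 - gb / 4)⌉₊ with hfm
  have hfirst : Ex (fun U : Ev n => ind ((bush pl pt pb s1 s0 J U v F).2 = none ∧
        (bush pl pt pb s1 s0 J U v F).1.card ≤ cap)) ≤ Real.exp (-(1.55 * t)) := by
    have h3 := bush_fail (s1 := s1) (s0 := s0) (J := J) hpl0 hplpt hplpb hpb1 h1 v F hv
      (fun h => th h * t) (fun h => mul_nonneg (th_pos h).le ht0.le) cap fmin ?_ ?_ ?_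
    · have e1 : th 0 = 1.55 := by norm_num [th]
      rw [e1] at h3
      exact h3
    · have : ((fmin + cap : ℕ) : ℝ) ≤ F.card := by
        push_cast
        linarith
      exact_mod_cast this
    · intro h hh
      have h4 := fail_num hgb hgl hgl1 ht ht1 (th_pos h) (th_le h) (th_pos (h + 1))
        (th_le (h + 1)) (th_step h)
      refine h4.trans ?_
      have e3 : 0 ≤ pl * (1 - Real.exp (-(th h * t))) +
          (pt - pl) * (1 - Real.exp (-(th (h + 1) * t))) := by
        have b1 : 0 ≤ 1 - Real.exp (-(th h * t)) := by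
          have : Real.exp (-(th h * t)) ≤ 1 := by
            rw [Real.exp_le_one_iff]
            have := mul_nonneg (th_pos h).le ht0.le
            linarith
          linarith
        have b2 : 0 ≤ 1 - Real.exp (-(th (h + 1) * t)) := by
          have : Real.exp (-(th (h + 1) * t)) ≤ 1 := by
            rw [Real.exp_le_one_iff]
            have := mul_nonneg (th_pos (h + 1)).le ht0.le
            linarith
          linarith
        exact add_nonneg (mul_nonneg hpl0 b1) (mul_nonneg (by linarith) b2)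
      refine le_trans (le_of_eq ?_) (mul_le_mul_of_nonneg_right hfmin e3)
      rw [hpl, hpt]
      field_simp
      ring
    · intro w F' hw hF1 hF2
      have hmk := test_prob hpl hpb hgb (by linarith) hgl1 hn hs1 hs1' hs0 hs0' w F' hw
        (hfmin.trans (by exact_mod_cast hF1))
      have hBMk : BM (fun U : Ev n => ind (mk pl pb s1 s0 U w F')) := by
        refine BM_lvl {pl, pb} fun U U' h => ?_
        have hr : ∀ p ∈ ({pl, pb} : Finset ℝ), rch p U {w} F' = rch p U' {w} F' := by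
          intro p hp
          refine rch_lvl p {w} F' fun e q hq => ?_
          rw [mem_singleton] at hq
          rw [hq]
          exact h e p hp
        unfold mk
        rw [hr pl (by simp), hr pb (by simp)]
      have e1 : Ex (fun U : Ev n => ind (¬ mk pl pb s1 s0 U w F')) =
          1 - Ex (fun U : Ev n => ind (mk pl pb s1 s0 U w F')) := by
        have : ∀ U : Ev n, ind (¬ mk pl pb s1 s0 U w F') = 1 - ind (mk pl pb s1 s0 U w F') := by
          intro U
          by_cases hc : mk pl pb s1 s0 U w F'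
          · rw [ind_true hc, ind_false (by simpa using hc)]; ring
          · rw [ind_false hc, ind_true hc]; ring
        rw [Ex_congr this, Ex_sub (BM.const 1) hBMk, Ex_const]
      rw [e1]
      have e2 : th J * t ≤ gb / 10 ^ 8 := by
        have e3 : th J = 0.12 / 10 ^ (J - 4) := by
          unfold th
          rw [if_neg (by omega), if_neg (by omega), if_neg (by omega)]
          rcases Nat.lt_or_ge J 5 with h5 | h5
          · rw [if_neg (by omega)]
          · rw [if_neg (by omega)]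
        rw [e3, div_mul_eq_mul_div, div_le_div_iff₀ (by positivity) (by positivity)]
        exact hJt
      have e4 : 1 - gb / 10 ^ 8 ≤ Real.exp (-(th J * t)) := by
        have := Real.add_one_le_exp (-(th J * t))
        linarith
      linarith
  linarith

end

end Pool.Agent.TH972.U
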