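import Pool.Agent.TH972.U.Forest0

/-!
# Weighted rooted forests: forest paths, roots and trees
-/

set_option autoImplicit false
set_option linter.unusedSectionVars false
set_option maxHeartbeats 4000000

namespace Pool.Agent.TH972.U

open Finset

noncomputable section

variable {V : Type} [Fintype V] [DecidableEq V]

namespace Forest

/-- the list is a path of the forest up to a root -/
def Pth (f : V → Option V) : List V → Prop
  | [] => False
  | [z] => f z = none
  | (z :: w :: t) => f z = some w ∧ Pth f (w :: t)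

omit [Fintype V] [DecidableEq V] in
lemma pth_agree {f g : V → Option V} {ζ : List V} (hf : Pth f ζ) (hg : Pth g ζ) :
    ∀ x ∈ ζ, f x = g x := by
  induction ζ with
  | nil => exact hf.elim
  | cons z t ih =>
    cases t with
    | nil =>
      intro x hx
      rw [List.mem_singleton] at hx
      subst hx
      have h1 : f x = none := hf
      have h2 : g x = none := hg
      rw [h1, h2]
    | cons w t =>
      intro x hx
      have h1 : f z = some w := hf.1
      have h2 : g z = some w := hg.1
      rw [List.mem_cons] at hx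
      rcases hx with rfl | hx
      · rw [h1, h2]
      · exact ih hf.2 hg.2 x hx

/-- the weight at a vertex -/
def wo (N : Net V) (x : V) (o : Option V) : ℝ :=
  match o with
  | none => N.k x
  | some y => Kc N.κ x y

lemma wo_nonneg (N : Net V) (x : V) (o : Option V) : 0 ≤ wo N x o := by
  rcases o with _ | y
  · exact N.k_nonneg x
  · exact Grn.Kc_nn N x y

lemma wF_eq (N : Net V) (D : Finset V) (f : V → Option V) :
    wF N D f = ∏ x ∈ univ \ D, wo N x (f x) := rfl

lemma wF_nonneg (N : Net V) (D : Finset V) (f : V → Option V) : 0 ≤ wF N D f :=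
  Finset.prod_nonneg (fun x _ => wo_nonneg N x _)

lemma pth_weight (N : Net V) {f : V → Option V} {ζ : List V} (hf : Pth f ζ) :
    (ζ.map (fun x => wo N x (f x))).prod = cpr N ζ * lastf N.k ζ := by
  induction ζ with
  | nil => exact hf.elim
  | cons z t ih =>
    cases t with
    | nil =>
      have h1 : f z = none := hf
      simp [h1, cpr, lastf, wo]
    | cons w t =>
      have h1 : f z = some w := hf.1
      have h2 := ih hf.2
      rw [List.map_cons, List.prod_cons, h2, h1]
      have h3 : lastf N.k (z :: w :: t) = lastf N.k (w :: t) := by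
        unfold lastf
        rw [List.getLast?_cons_cons]
      rw [h3]
      show Kc N.κ z w * (cpr N (w :: t) * _) = (Kc N.κ z w * cpr N (w :: t)) * _
      ring

/-- remove the values on a set -/
def cut (E : Finset V) (f : V → Option V) : V → Option V := fun x => if x ∈ E then none else f x

lemma cut_isFor {f : V → Option V} (E : Finset V) (hf : ∀ x, Rch f x) : IsFor E (cut E f) := by
  refine ⟨fun x hx => if_pos hx, ?_⟩
  intro x
  show Rch (cut E f) x
  refine rch_induction (f := f) (P := fun x => Rch (cut E f) x) ?_ ?_ (hf x)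
  · intro x hx
    apply rch_none
    unfold cut
    split_ifs
    · rfl
    · exact hx
  · intro x y hxy hy
    by_cases hx : x ∈ E
    · exact rch_none (if_pos hx)
    · have : cut E f x = some y := by
        unfold cut
        rw [if_neg hx]
        exact hxy
      exact (rch_some this).2 hy

open Classical in
/-- weight of the forests with a given path -/
theorem path_weight (N : Net V) (ζ : List V) (h : ζ.Nodup) :
    ∑ f ∈ univ.filter (fun f : V → Option V => IsFor ∅ f ∧ Pth f ζ), wF N ∅ f ≤
      cpr N ζ * lastf N.k ζ * (dG N ∅ ζ * Zf N ∅) := by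
  rw [← Zf_list N ζ h]
  have h1 : ∀ f ∈ univ.filter (fun f : V → Option V => IsFor ∅ f ∧ Pth f ζ),
      wF N ∅ f = cpr N ζ * lastf N.k ζ * wF N ζ.toFinset (cut ζ.toFinset f) := by
    intro f hf
    rw [Finset.mem_filter] at hf
    rw [← pth_weight N hf.2.2, ← List.prod_toFinset _ h, wF_eq, wF_eq, Finset.sdiff_empty,
      mul_comm, ← Finset.prod_sdiff (Finset.subset_univ ζ.toFinset)]
    congr 1
    apply Finset.prod_congr rfl
    intro x hx
    unfold cut
    rw [if_neg (Finset.mem_sdiff.1 hx).2]
  rw [Finset.sum_congr rfl h1, ← Finset.mul_sum]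
  have hc : 0 ≤ cpr N ζ * lastf N.k ζ := by
    by_cases hz : ∃ f : V → Option V, Pth f ζ
    · obtain ⟨f, hf⟩ := hz
      rw [← pth_weight N hf]
      apply List.prod_nonneg
      intro a ha
      rw [List.mem_map] at ha
      obtain ⟨x, _, rfl⟩ := ha
      exact wo_nonneg N x _
    · apply mul_nonneg
      · clear h h1 hz
        induction ζ with
        | nil => exact zero_le_one
        | cons z t ih =>
          cases t with
          | nil => exact zero_le_one
          | cons w t => exact mul_nonneg (Grn.Kc_nn N z w) ih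
      · unfold lastf
        rcases ζ.getLast? with _ | z
        · exact le_rfl
        · exact N.k_nonneg z
  apply mul_le_mul_of_nonneg_left _ hc
  have h2 : Set.InjOn (fun f : V → Option V => cut ζ.toFinset f)
      ((univ.filter (fun f : V → Option V => IsFor ∅ f ∧ Pth f ζ) : Finset (V → Option V)) :
        Set (V → Option V)) := by
    intro f hf g hg hfg
    rw [Finset.coe_filter, Set.mem_ofPred_eq] at hf hg
    funext x
    by_cases hx : x ∈ ζ
    · exact pth_agree hf.2.2 hg.2.2 x hx
    · have h3 := congrFun hfg x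
      simp only [cut, List.mem_toFinset, if_neg hx] at h3
      exact h3
  have h3 : ∑ f ∈ univ.filter (fun f : V → Option V => IsFor ∅ f ∧ Pth f ζ),
      wF N ζ.toFinset (cut ζ.toFinset f) =
      ∑ g ∈ (univ.filter (fun f : V → Option V => IsFor ∅ f ∧ Pth f ζ)).image
        (fun f => cut ζ.toFinset f), wF N ζ.toFinset g :=
    (Finset.sum_image (f := wF N ζ.toFinset) h2).symm
  rw [h3]
  unfold Zf
  apply Finset.sum_le_sum_of_subset_of_nonneg
  · intro g hg
    obtain ⟨f, hf, rfl⟩ := Finset.mem_image.1 hg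
    rw [Finset.mem_filter] at hf ⊢
    exact ⟨mem_univ _, cut_isFor _ hf.2.1.2⟩
  · intro g _ _
    exact wF_nonneg N _ g

/-- the path of a vertex exists -/
lemma exists_pth {f : V → Option V} (hf : ∀ x, Rch f x) (x : V) :
    ∃ t : List V, Pth f (x :: t) ∧ (x :: t).Nodup := by
  obtain ⟨d, hd⟩ := exists_depth f hf
  have key : ∃ t : List V, Pth f (x :: t) ∧ (x :: t).Nodup ∧ ∀ z ∈ x :: t, d z ≤ d x := by
    refine rch_induction (f := f) (P := fun x => ∃ t : List V, Pth f (x :: t) ∧ (x :: t).Nodup ∧
      ∀ z ∈ x :: t, d z ≤ d x) ?_ ?_ (hf x)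
    · intro x hx
      refine ⟨[], hx, List.nodup_singleton x, ?_⟩
      intro z hz
      rw [List.mem_singleton] at hz
      rw [hz]
    · rintro x y hxy ⟨t, h1, h2, h3⟩
      have hdx := hd x y hxy
      refine ⟨y :: t, ⟨hxy, h1⟩, List.nodup_cons.2 ⟨?_, h2⟩, ?_⟩
      · intro hx
        have := h3 x hx
        omega
      · intro z hz
        rw [List.mem_cons] at hz
        rcases hz with rfl | hz
        · exact le_rfl
        · have := h3 z hz
          omega
  obtain ⟨t, h1, h2, _⟩ := key
  exact ⟨t, h1, h2⟩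

lemma exists_root {f : V → Option V} (hf : ∀ x, Rch f x) (x : V) : ∃ z, f z = none := by
  refine rch_induction (f := f) (P := fun _ => ∃ z, f z = none) ?_ ?_ (hf x)
  · intro x hx
    exact ⟨x, hx⟩
  · intro x y _ h
    exact h

open Classical in
/-- weight of the forests with exactly one root -/
def S1 (N : Net V) : ℝ :=
  ∑ ρ : V, ∑ f ∈ univ.filter (fun f : V → Option V => IsFor ∅ f ∧ ∀ x, f x = none ↔ x = ρ),
    wF N ∅ f

open Classical in
lemma Zf_le_S1 (N : Net V) (hroot : ∑ x, N.k x * grn N ∅ x x ≤ 3 / 2) :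
    Zf N ∅ ≤ 2 * S1 N := by
  have h1 : ∀ x, ∑ f ∈ univ.filter (fun f : V → Option V => IsFor ∅ f ∧ Pth f [x]), wF N ∅ f ≤
      N.k x * grn N ∅ x x * Zf N ∅ := by
    intro x
    refine (path_weight N [x] (List.nodup_singleton x)).trans (le_of_eq ?_)
    simp [cpr, lastf, dG]
    ring
  have hZ : 0 ≤ Zf N ∅ := Finset.sum_nonneg (fun f _ => wF_nonneg N ∅ f)
  have h2 : ∑ x, ∑ f ∈ univ.filter (fun f : V → Option V => IsFor ∅ f ∧ Pth f [x]), wF N ∅ f ≤
      3 / 2 * Zf N ∅ := by
    refine (Finset.sum_le_sum (fun x _ => h1 x)).trans ?_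
    rw [← Finset.sum_mul]
    exact mul_le_mul_of_nonneg_right hroot hZ
  have h3 : 2 * Zf N ∅ - S1 N ≤
      ∑ x, ∑ f ∈ univ.filter (fun f : V → Option V => IsFor ∅ f ∧ Pth f [x]), wF N ∅ f := by
    unfold S1 Zf
    simp only [Finset.sum_filter]
    rw [Finset.sum_comm, Finset.sum_comm (s := univ) (t := univ) (f := fun x f =>
      if IsFor ∅ f ∧ Pth f [x] then wF N ∅ f else 0), Finset.mul_sum, ← Finset.sum_sub_distrib]
    apply Finset.sum_le_sum
    intro f _
    by_cases hf : IsFor ∅ f
    · have hw := wF_nonneg N ∅ f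
      simp only [hf, true_and, if_true]
      obtain ⟨z, hz⟩ := N.k_pos
      obtain ⟨ρ, hρ⟩ := exists_root hf.2 z
      by_cases h1 : ∀ x, f x = none ↔ x = ρ
      · have e1 : ∑ x, (if Pth f [x] then wF N ∅ f else 0) = wF N ∅ f := by
          rw [Finset.sum_eq_single ρ]
          · exact if_pos hρ
          · intro x _ hx
            exact if_neg (fun h => hx ((h1 x).1 h))
          · intro h
            exact absurd (mem_univ _) h
        have e2 : ∑ x, (if (∀ y, f y = none ↔ y = x) then wF N ∅ f else 0) = wF N ∅ f := by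
          rw [Finset.sum_eq_single ρ]
          · exact if_pos h1
          · intro x _ hx
            exact if_neg (fun h => hx ((h ρ).1 hρ).symm)
          · intro h
            exact absurd (mem_univ _) h
        rw [e1, e2]
        linarith
      · have e2 : ∑ x, (if (∀ y, f y = none ↔ y = x) then wF N ∅ f else 0) = 0 := by
          apply Finset.sum_eq_zero
          intro x _
          apply if_neg
          intro h
          have h3 := (h ρ).1 hρ
          subst h3
          exact h1 h
        have h4 : ∃ σ, σ ≠ ρ ∧ f σ = none := by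
          by_contra h5
          push Not at h5
          apply h1
          intro x
          constructor
          · intro hx
            by_contra h6
            exact h5 x h6 hx
          · rintro rfl
            exact hρ
        obtain ⟨σ, hσ, hσ2⟩ := h4
        rw [e2]
        have e3 : ∑ x ∈ ({ρ, σ} : Finset V), (if Pth f [x] then wF N ∅ f else 0) ≤
            ∑ x, (if Pth f [x] then wF N ∅ f else 0) := by
          apply Finset.sum_le_sum_of_subset_of_nonneg (Finset.subset_univ _)
          intro x _ _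
          split_ifs
          · exact hw
          · exact le_rfl
        rw [Finset.sum_pair (Ne.symm hσ), if_pos (show Pth f [ρ] from hρ),
          if_pos (show Pth f [σ] from hσ2)] at e3
        linarith
    · simp [hf]
  linarith

/-- the function of a one-root forest -/
def tof (f : V → Option V) : V → V := fun x => (f x).getD x

/-- the forest of a rooted tree -/
def ofA (h : V → V) (ρ : V) : V → Option V := fun x => if x = ρ then none else some (h x)

lemma tof_arb {f : V → Option V} {ρ : V} (hf : IsFor ∅ f) (h1 : ∀ x, f x = none ↔ x = ρ) :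
    Arb (tof f) ρ := by
  refine ⟨?_, ?_⟩
  · unfold tof
    rw [(h1 ρ).2 rfl, Option.getD_none]
  · intro x
    refine rch_induction (f := f) (P := fun x => ∃ k : ℕ, (tof f)^[k] x = ρ) ?_ ?_ (hf.2 x)
    · intro x hx
      exact ⟨0, (h1 x).1 hx⟩
    · rintro x y hxy ⟨k, hk⟩
      refine ⟨k + 1, ?_⟩
      rw [Function.iterate_succ_apply]
      have : tof f x = y := by
        unfold tof
        rw [hxy, Option.getD_some]
      rw [this, hk]

lemma ofA_tof {f : V → Option V} {ρ : V} (h1 : ∀ x, f x = none ↔ x = ρ) :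
    ofA (tof f) ρ = f := by
  funext x
  unfold ofA tof
  by_cases hx : x = ρ
  · rw [if_pos hx, (h1 x).2 hx]
  · rw [if_neg hx]
    rcases h : f x with _ | y
    · exact absurd ((h1 x).1 h) hx
    · rw [Option.getD_some]

lemma ofA_isFor {h : V → V} {ρ : V} (hh : Arb h ρ) : IsFor ∅ (ofA h ρ) := by
  refine ⟨fun x hx => absurd hx (Finset.notMem_empty x), ?_⟩
  intro x
  show Rch (ofA h ρ) x
  obtain ⟨k, hk⟩ := hh.2 x
  induction k generalizing x with
  | zero =>
    apply rch_none
    rw [Function.iterate_zero, id_eq] at hk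
    exact if_pos hk
  | succ k ih =>
    rw [Function.iterate_succ_apply] at hk
    by_cases hx : x = ρ
    · exact rch_none (if_pos hx)
    · exact (rch_some (f := ofA h ρ) (y := h x) (if_neg hx)).2 (ih (h x) hk)

lemma ofA_root (h : V → V) (ρ : V) : ∀ x, ofA h ρ x = none ↔ x = ρ := by
  intro x
  unfold ofA
  by_cases hx : x = ρ
  · simp [hx]
  · simp [hx]

lemma tof_ofA {h : V → V} {ρ : V} (hh : Arb h ρ) : tof (ofA h ρ) = h := by
  funext x
  show (if x = ρ then none else some (h x)).getD x = h x
  by_cases hx : x = ρ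
  · rw [if_pos hx, Option.getD_none, hx, hh.1]
  · rw [if_neg hx, Option.getD_some]

lemma wF_ofA (N : Net V) (h : V → V) (ρ : V) : wF N ∅ (ofA h ρ) = N.k ρ * Wt N.κ h ρ := by
  rw [wF_eq, Finset.sdiff_empty, ← Finset.mul_prod_erase univ _ (mem_univ ρ)]
  congr 1
  · unfold ofA
    rw [if_pos rfl]
    rfl
  · unfold Wt
    apply Finset.prod_congr rfl
    intro x hx
    unfold ofA
    rw [if_neg (Finset.mem_erase.1 hx).1]
    rfl

lemma κ_nn (N : Net V) (e : Sym2 V) : 0 ≤ N.κ e := (N.κ_pos e).le

open Classical in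
lemma S1_le (N : Net V) : S1 N ≤ (∑ ρ, N.k ρ) * sumT N.κ (fun _ => True) := by
  unfold S1
  rw [Finset.sum_mul]
  apply Finset.sum_le_sum
  intro ρ _
  have h1 : sumA N.κ ρ (fun _ => (1:ℝ)) ≤ sumT N.κ (fun _ => True) := by
    refine le_trans (le_of_eq ?_) (sumA_le_sumT (κ_nn N) (fun _ => True) ρ)
    congr 1
    funext f
    simp
  refine le_trans ?_ (mul_le_mul_of_nonneg_left h1 (N.k_nonneg ρ))
  unfold sumA
  have h2 : ∀ f ∈ univ.filter (fun f : V → Option V => IsFor ∅ f ∧ ∀ x, f x = none ↔ x = ρ),
      wF N ∅ f = N.k ρ * Wt N.κ (tof f) ρ := by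
    intro f hf
    rw [Finset.mem_filter] at hf
    rw [← wF_ofA, ofA_tof hf.2.2]
  rw [Finset.sum_congr rfl h2, ← Finset.mul_sum]
  apply mul_le_mul_of_nonneg_left _ (N.k_nonneg ρ)
  have h3 : Set.InjOn (fun f : V → Option V => tof f)
      ((univ.filter (fun f : V → Option V => IsFor ∅ f ∧ ∀ x, f x = none ↔ x = ρ) :
        Finset (V → Option V)) : Set (V → Option V)) := by
    intro f hf g hg hfg
    rw [Finset.coe_filter, Set.mem_ofPred_eq] at hf hg
    rw [← ofA_tof hf.2.2, ← ofA_tof hg.2.2]
    have h4 : tof f = tof g := hfg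
    rw [h4]
  have h4 : ∑ f ∈ univ.filter (fun f : V → Option V => IsFor ∅ f ∧ ∀ x, f x = none ↔ x = ρ),
      Wt N.κ (tof f) ρ =
      ∑ g ∈ (univ.filter (fun f : V → Option V => IsFor ∅ f ∧ ∀ x, f x = none ↔ x = ρ)).image
        (fun f => tof f), Wt N.κ g ρ :=
    (Finset.sum_image (f := fun g => Wt N.κ g ρ) h3).symm
  rw [h4]
  simp only [mul_one]
  apply Finset.sum_le_sum_of_subset_of_nonneg
  · intro g hg
    obtain ⟨f, hf, rfl⟩ := Finset.mem_image.1 hg
    rw [Finset.mem_filter] at hf ⊢
    exact ⟨mem_univ _, tof_arb hf.2.1 hf.2.2⟩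
  · intro g _ _
    exact Wt_nonneg (κ_nn N) g ρ

/-- the path in the tree is the path of the forest -/
lemma pth_walk {h : V → V} {ρ : V} (hh : Arb h ρ) {x : V} (p : (gf h).Walk x ρ)
    (hp : p.IsPath) : Pth (ofA h ρ) p.support := by
  induction p with
  | nil =>
    show ofA h _ _ = none
    exact if_pos rfl
  | @cons x y z hadj q ih =>
    rw [SimpleGraph.Walk.cons_isPath_iff] at hp
    have ih' := ih hh hp.1
    have hq : q.support = y :: q.support.tail := (SimpleGraph.Walk.cons_tail_support q).symm
    rw [SimpleGraph.Walk.support_cons, hq]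
    rw [hq] at ih'
    have hxz : x ≠ z := by
      rintro rfl
      exact hp.2 (SimpleGraph.Walk.end_mem_support q)
    refine ⟨?_, ih'⟩
    show ofA h z x = some y
    unfold ofA
    rw [if_neg hxz]
    congr 1
    unfold gf at hadj
    rw [SimpleGraph.fromEdgeSet_adj] at hadj
    obtain ⟨⟨u, hu, hu2⟩, hne⟩ := hadj
    rcases Sym2.eq_iff.1 hu2 with h1 | h1
    · rw [h1.1, h1.2]
    · exfalso
      -- y = u, x = h u
      have hyz : y ≠ z := by
        rintro rfl
        rw [← h1.2, hh.1] at h1
        exact hne h1.1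
      apply hp.2
      cases hs : q.support.tail with
      | nil =>
        rw [hs] at ih'
        have h2 : ofA h z y = none := ih'
        exact absurd ((ofA_root h z y).1 h2) hyz
      | cons w t =>
        rw [hs] at ih'
        have h2 : ofA h z y = some w := ih'.1
        unfold ofA at h2
        rw [if_neg hyz, Option.some.injEq, h1.2, ← h1.1] at h2
        rw [hq, hs, h2]
        exact List.mem_cons_of_mem _ List.mem_cons_self

open Classical in
/-- the trees in the event are one-root forests with a good path -/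
lemma sumT_le_forests (N : Net V) (A : SimpleGraph V → Prop) (G : List V → Prop)
    (hA : ∀ T : SimpleGraph V, T.IsTree → A T → ∀ ρ, N.k ρ ≠ 0 →
      ∃ (x : V) (p : T.Walk x ρ), p.IsPath ∧ G p.support) :
    (∑ ρ, N.k ρ) * sumT N.κ A ≤ ∑ f ∈ univ.filter (fun f : V → Option V => IsFor ∅ f ∧
      ∃ x t, Pth f (x :: t) ∧ (x :: t).Nodup ∧ G (x :: t)), wF N ∅ f := by
  have hch : ∀ (T : SimpleGraph V) (ρ : V), ∃ h : V → V, T.IsTree → Arb h ρ ∧ gf h = T := by
    intro T ρ
    by_cases hT : T.IsTree
    · obtain ⟨h, hh⟩ := exists_arb T hT ρ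
      exact ⟨h, fun _ => hh⟩
    · exact ⟨id, fun h => absurd h hT⟩
  choose H hH using hch
  unfold sumT
  rw [Finset.sum_mul]
  have h1 : ∀ ρ : V, N.k ρ * ∑ T ∈ univ.filter (fun T : SimpleGraph V => T.IsTree ∧ A T), wT N.κ T =
      ∑ T ∈ univ.filter (fun T : SimpleGraph V => T.IsTree ∧ A T), wF N ∅ (ofA (H T ρ) ρ) := by
    intro ρ
    rw [Finset.mul_sum]
    apply Finset.sum_congr rfl
    intro T hT
    rw [Finset.mem_filter] at hT
    rw [wF_ofA, ← wT_gf N.κ (hH T ρ hT.2.1).1, (hH T ρ hT.2.1).2]
  rw [Finset.sum_congr rfl (fun ρ _ => h1 ρ), ← Finset.sum_product']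
  -- restrict to the roots with positive killing
  have h2 : ∑ q ∈ (univ : Finset V) ×ˢ univ.filter (fun T : SimpleGraph V => T.IsTree ∧ A T),
      wF N ∅ (ofA (H q.2 q.1) q.1) =
      ∑ q ∈ (univ.filter (fun ρ : V => N.k ρ ≠ 0)) ×ˢ
        univ.filter (fun T : SimpleGraph V => T.IsTree ∧ A T), wF N ∅ (ofA (H q.2 q.1) q.1) := by
    symm
    apply Finset.sum_subset
    · apply Finset.product_subset_product_left
      exact Finset.filter_subset _ _
    · intro q hq hq2
      rw [Finset.mem_product] at hq hq2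
      have h3 : N.k q.1 = 0 := by
        by_contra h4
        exact hq2 ⟨Finset.mem_filter.2 ⟨mem_univ _, h4⟩, hq.2⟩
      rw [wF_ofA, h3, zero_mul]
  rw [h2]
  have h3 : Set.InjOn (fun q : V × SimpleGraph V => ofA (H q.2 q.1) q.1)
      (((univ.filter (fun ρ : V => N.k ρ ≠ 0)) ×ˢ
        univ.filter (fun T : SimpleGraph V => T.IsTree ∧ A T) : Finset (V × SimpleGraph V)) :
        Set (V × SimpleGraph V)) := by
    intro q hq q' hq' hqq
    rw [Finset.mem_coe, Finset.mem_product, Finset.mem_filter, Finset.mem_filter] at hq hq'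
    have h4 : ofA (H q.2 q.1) q.1 = ofA (H q'.2 q'.1) q'.1 := hqq
    have h5 : q.1 = q'.1 := by
      rw [← ofA_root (H q'.2 q'.1) q'.1, ← h4, ofA_root]
    have h6 := (hH q.2 q.1 hq.2.2.1)
    have h7 := (hH q'.2 q'.1 hq'.2.2.1)
    have h8 : H q.2 q.1 = H q'.2 q'.1 := by
      rw [← tof_ofA h6.1, h4, tof_ofA h7.1]
    exact Prod.ext h5 (by rw [← h6.2, h8, h7.2])
  rw [← Finset.sum_image (f := wF N ∅) h3]
  apply Finset.sum_le_sum_of_subset_of_nonneg
  · intro g hg
    obtain ⟨q, hq, rfl⟩ := Finset.mem_image.1 hg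
    rw [Finset.mem_product, Finset.mem_filter, Finset.mem_filter] at hq
    have h6 := (hH q.2 q.1 hq.2.2.1)
    rw [Finset.mem_filter]
    refine ⟨mem_univ _, ofA_isFor h6.1, ?_⟩
    obtain ⟨x, p, hp, hG⟩ := hA q.2 hq.2.2.1 hq.2.2.2 q.1 hq.1.2
    have h9 : ∃ (p' : (gf (H q.2 q.1)).Walk x q.1), p'.IsPath ∧ G p'.support := by
      rw [h6.2]
      exact ⟨p, hp, hG⟩
    obtain ⟨p', hp', hG'⟩ := h9
    have h10 := pth_walk h6.1 p' hp'
    have hq' : p'.support = x :: p'.support.tail :=
      (SimpleGraph.Walk.cons_tail_support p').symm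
    refine ⟨x, p'.support.tail, ?_, ?_, ?_⟩
    · rw [← hq']
      exact h10
    · rw [← hq']
      exact hp'.support_nodup
    · rw [← hq']
      exact hG'
  · intro g _ _
    exact wF_nonneg N ∅ g

end Forest

end

end Pool.Agent.TH972.U
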