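import Pool.Agent.TH972.U.LE
import Pool.Agent.TH972.U.Forest1

/-!
# Long tree paths from long loop-erased paths
-/

set_option autoImplicit false
set_option linter.unusedSectionVars false
set_option maxHeartbeats 4000000

namespace Pool.Agent.TH972.U

open Finset

noncomputable section

variable {V : Type} [Fintype V] [DecidableEq V]

namespace Forest

open Classical in
/-- weight of the forests with a good path from a vertex -/
lemma forests_le_longQ (N : Net V) (ok : V → V → Prop) (m : ℕ) :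
    ∑ f ∈ univ.filter (fun f : V → Option V => IsFor ∅ f ∧
      ∃ x t, Pth f (x :: t) ∧ (x :: t).Nodup ∧ okc ok m (x :: t)), wF N ∅ f ≤
      Zf N ∅ * ∑ x, longQ ok N m x := by
  have h1 : ∀ f ∈ univ.filter (fun f : V → Option V => IsFor ∅ f ∧
      ∃ x t, Pth f (x :: t) ∧ (x :: t).Nodup ∧ okc ok m (x :: t)),
      wF N ∅ f ≤ ∑ x : V, ∑ j ∈ range (Fintype.card V), ∑ ζ ∈ spaths j x ∅,
        (if okc ok m ζ then (if IsFor ∅ f ∧ Pth f ζ then wF N ∅ f else 0) else 0) := by
    intro f hf
    rw [Finset.mem_filter] at hf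
    obtain ⟨_, hfor, x, t, hp, hnd, hok⟩ := hf
    have hw := wF_nonneg N ∅ f
    have hnn : ∀ ζ : List V, 0 ≤ (if okc ok m ζ then
        (if IsFor ∅ f ∧ Pth f ζ then wF N ∅ f else 0) else 0) := by
      intro ζ
      split_ifs
      · exact hw
      · exact le_rfl
      · exact le_rfl
    have hlen : t.length < Fintype.card V := by
      have h2 : (x :: t).length ≤ Fintype.card V := hnd.length_le_card
      rw [List.length_cons] at h2
      omega
    have hmem : (x :: t) ∈ spaths t.length x ∅ := by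
      rw [mem_spaths]
      exact ⟨List.length_cons, hnd, rfl, fun z _ => Finset.notMem_empty z⟩
    calc wF N ∅ f = (if okc ok m (x :: t) then
        (if IsFor ∅ f ∧ Pth f (x :: t) then wF N ∅ f else 0) else 0) := by
          rw [if_pos hok, if_pos ⟨hfor, hp⟩]
      _ ≤ ∑ ζ ∈ spaths t.length x ∅,
        (if okc ok m ζ then (if IsFor ∅ f ∧ Pth f ζ then wF N ∅ f else 0) else 0) :=
          Finset.single_le_sum (f := fun ζ => (if okc ok m ζ then
            (if IsFor ∅ f ∧ Pth f ζ then wF N ∅ f else 0) else 0)) (fun ζ _ => hnn ζ) hmem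
      _ ≤ ∑ j ∈ range (Fintype.card V), ∑ ζ ∈ spaths j x ∅,
        (if okc ok m ζ then (if IsFor ∅ f ∧ Pth f ζ then wF N ∅ f else 0) else 0) :=
          Finset.single_le_sum (f := fun j => ∑ ζ ∈ spaths j x ∅, (if okc ok m ζ then
            (if IsFor ∅ f ∧ Pth f ζ then wF N ∅ f else 0) else 0))
            (fun j _ => Finset.sum_nonneg (fun ζ _ => hnn ζ)) (Finset.mem_range.2 hlen)
      _ ≤ _ := Finset.single_le_sum (f := fun x : V => ∑ j ∈ range (Fintype.card V),
            ∑ ζ ∈ spaths j x ∅, (if okc ok m ζ then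
            (if IsFor ∅ f ∧ Pth f ζ then wF N ∅ f else 0) else 0))
            (fun x _ => Finset.sum_nonneg (fun j _ => Finset.sum_nonneg (fun ζ _ => hnn ζ)))
            (mem_univ x)
  refine (Finset.sum_le_sum h1).trans ?_
  have h2 : ∀ x, Zf N ∅ * longQ ok N m x = ∑ j ∈ range (Fintype.card V), ∑ ζ ∈ spaths j x ∅,
      (if okc ok m ζ then cpr N ζ * lastf N.k ζ * (dG N ∅ ζ * Zf N ∅) else 0) := by
    intro x
    unfold longQ
    rw [psum_eq_sum, Finset.mul_sum]
    apply Finset.sum_congr rfl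
    intro j _
    rw [Finset.mul_sum]
    apply Finset.sum_congr rfl
    intro ζ _
    split_ifs
    · ring
    · ring
  rw [Finset.mul_sum, Finset.sum_congr rfl (fun x _ => h2 x), Finset.sum_comm]
  apply Finset.sum_le_sum
  intro x _
  rw [Finset.sum_comm]
  apply Finset.sum_le_sum
  intro j _
  rw [Finset.sum_comm]
  apply Finset.sum_le_sum
  intro ζ hζ
  by_cases hok : okc ok m ζ
  · simp only [if_pos hok]
    rw [mem_spaths] at hζ
    refine le_trans ?_ (path_weight N ζ hζ.2.1)
    rw [← Finset.sum_filter]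
    apply Finset.sum_le_sum_of_subset_of_nonneg
    · intro f hf
      rw [Finset.mem_filter, Finset.mem_filter] at hf
      rw [Finset.mem_filter]
      exact ⟨mem_univ _, hf.2⟩
    · intro f _ _
      exact wF_nonneg N ∅ f
  · simp only [if_neg hok, Finset.sum_const_zero]
    exact le_rfl

end Forest

open Forest

/-- from long loop-erased paths to long paths in the weighted random tree -/
theorem tree_long (N : Net V) (hroot : ∑ x, N.k x * grn N ∅ x x ≤ 3 / 2) (ok : V → V → Prop)
    (m : ℕ) (A : SimpleGraph V → Prop)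
    (hA : ∀ T : SimpleGraph V, T.IsTree → A T → ∀ ρ, N.k ρ ≠ 0 →
      ∃ (x : V) (p : T.Walk x ρ), p.IsPath ∧ okc ok m p.support) :
    sumT N.κ A ≤ 2 * sumT N.κ (fun _ => True) * ∑ x, longQ ok N m x := by
  classical
  have h1 := sumT_le_forests N A (fun ζ => okc ok m ζ) hA
  have h2 := forests_le_longQ N ok m
  have h3 := Zf_le_S1 N hroot
  have h4 := S1_le N
  have h5 : 0 ≤ ∑ x, longQ ok N m x := Finset.sum_nonneg (fun x _ => longQ_nonneg ok N m x)
  have hK : 0 < ∑ ρ, N.k ρ := by
    obtain ⟨z, hz⟩ := N.k_pos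
    exact lt_of_lt_of_le hz (Finset.single_le_sum (fun x _ => N.k_nonneg x) (mem_univ z))
  have h6 : (∑ ρ, N.k ρ) * sumT N.κ A ≤
      (∑ ρ, N.k ρ) * (2 * sumT N.κ (fun _ => True) * ∑ x, longQ ok N m x) := by
    calc (∑ ρ, N.k ρ) * sumT N.κ A ≤ Zf N ∅ * ∑ x, longQ ok N m x := h1.trans h2
      _ ≤ (2 * ((∑ ρ, N.k ρ) * sumT N.κ (fun _ => True))) * ∑ x, longQ ok N m x := by
          apply mul_le_mul_of_nonneg_right _ h5
          linarith
      _ = _ := by ring
  exact le_of_mul_le_mul_left h6 hK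

end

end Pool.Agent.TH972.U
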