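import Pool.Agent.TH972.U.VDef
import Pool.Agent.TH972.U.Forest
import Pool.Agent.TH902.WT.Gr

/-!
# Stochastic domination of the random rooted forest by the random tree
-/

set_option autoImplicit false
set_option linter.unusedSectionVars false

namespace Pool.Agent.TH972.U

open Finset

noncomputable section

variable {V : Type} [Fintype V] [DecidableEq V]

namespace Dom

/-- conductances with a cemetery vertex -/
def kp (N : Net V) : Sym2 (Option V) → ℝ :=
  Sym2.lift ⟨fun a b => match a, b with
    | some x, some y => N.κ s(x, y)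
    | none, some x => N.k x
    | some x, none => N.k x
    | none, none => 0, by
      intro a b
      rcases a with _ | x <;> rcases b with _ | y
      · rfl
      · rfl
      · rfl
      · exact congrArg N.κ Sym2.eq_swap⟩

lemma kp_ss (N : Net V) (x y : V) : kp N s(some x, some y) = N.κ s(x, y) := rfl
lemma kp_sn (N : Net V) (x : V) : kp N s(some x, none) = N.k x := rfl

lemma kp_map (N : Net V) (e : Sym2 V) : kp N (Sym2.map some e) = N.κ e := by
  induction e using Sym2.ind with
  | _ x y => exact kp_ss N x y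

lemma kp_nonneg (N : Net V) (e : Sym2 (Option V)) : 0 ≤ kp N e := by
  induction e using Sym2.ind with
  | _ a b =>
    rcases a with _ | x <;> rcases b with _ | y
    · exact le_rfl
    · exact N.k_nonneg y
    · exact N.k_nonneg x
    · exact (N.κ_pos _).le

/-- positive weights -/
def wp (N : Net V) (e : Sym2 (Option V)) : ℝ := if 0 < kp N e then kp N e else 1

lemma wp_pos (N : Net V) (e : Sym2 (Option V)) : 0 < wp N e := by
  unfold wp
  split_ifs with h
  · exact h
  · exact one_pos

lemma wp_map (N : Net V) (e : Sym2 V) : wp N (Sym2.map some e) = N.κ e := by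
  unfold wp
  rw [kp_map, if_pos (N.κ_pos e)]

open Classical in
/-- the edges between the vertices -/
def EV (V : Type) [Fintype V] [DecidableEq V] : Finset (Sym2 V) :=
  univ.filter (fun e => ¬ e.IsDiag)

/-- the same edges, with the cemetery -/
def E1 (V : Type) [Fintype V] [DecidableEq V] : Finset (Sym2 (Option V)) :=
  (EV V).image (Sym2.map some)

open Classical in
/-- the edges with positive weights -/
def E2 (N : Net V) : Finset (Sym2 (Option V)) :=
  univ.filter (fun e => ¬ e.IsDiag ∧ 0 < kp N e)

lemma mem_EV (e : Sym2 V) : e ∈ EV V ↔ ¬ e.IsDiag := by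
  unfold EV
  rw [Finset.mem_filter]
  simp

lemma mem_E2 (N : Net V) (e : Sym2 (Option V)) : e ∈ E2 N ↔ ¬ e.IsDiag ∧ 0 < kp N e := by
  unfold E2
  rw [Finset.mem_filter]
  simp

lemma some_inj : Function.Injective (Sym2.map (some : V → Option V)) :=
  Sym2.map.injective (Option.some_injective V)

lemma E1_sub (N : Net V) : E1 V ⊆ E2 N := by
  intro e he
  obtain ⟨e', he', rfl⟩ := Finset.mem_image.1 he
  rw [mem_EV] at he'
  rw [mem_E2, kp_map]
  refine ⟨?_, N.κ_pos _⟩
  induction e' using Sym2.ind with
  | _ x y =>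
    intro h
    apply he'
    rw [Sym2.map_mk] at h
    have h1 : some x = some y := Sym2.mk_isDiag_iff.1 h
    exact Sym2.mk_isDiag_iff.2 (Option.some_injective V h1)

lemma conn_EV (x y : V) :
    Pool.Agent.TH968.UST.Conn ⊥ ((EV V : Finset (Sym2 V)) : Set (Sym2 V)) x y := by
  by_cases h : x = y
  · rw [h]
    exact Pool.Agent.TH830.UST.crefl _ _ _
  · apply Pool.Agent.TH830.UST.cedge
    rw [Finset.mem_coe, mem_EV]
    exact fun k => h (Sym2.mk_isDiag_iff.1 k)

lemma conn_E2 (N : Net V) (a b : Option V) :
    Pool.Agent.TH968.UST.Conn ⊥ ((E2 N : Finset (Sym2 (Option V))) : Set (Sym2 (Option V))) a b := by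
  obtain ⟨z, hz⟩ := N.k_pos
  have key : ∀ a : Option V, Pool.Agent.TH968.UST.Conn ⊥
      ((E2 N : Finset (Sym2 (Option V))) : Set (Sym2 (Option V))) a (some z) := by
    intro a
    by_cases h : a = some z
    · rw [h]
      exact Pool.Agent.TH830.UST.crefl _ _ _
    · apply Pool.Agent.TH830.UST.cedge
      rw [Finset.mem_coe, mem_E2]
      refine ⟨fun k => h (Sym2.mk_isDiag_iff.1 k), ?_⟩
      rcases a with _ | x
      · exact hz
      · exact N.κ_pos _
  exact Pool.Agent.TH830.UST.ctrans (key a) (Pool.Agent.TH830.UST.csymm (key b))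

/-- the function with the cemetery -/
def ext (f : V → Option V) : Option V → Option V := fun o => o.bind f

omit [Fintype V] [DecidableEq V] in
lemma ext_arb (f : V → Option V) : Arb (ext f) none ↔ IsFor ∅ f := by
  unfold Arb IsFor ext
  constructor
  · rintro ⟨_, h⟩
    exact ⟨fun x hx => absurd hx (Finset.notMem_empty x), fun x => h (some x)⟩
  · rintro ⟨_, h⟩
    refine ⟨rfl, ?_⟩
    intro o
    rcases o with _ | x
    · exact ⟨0, rfl⟩
    · exact h x

lemma ext_wt (N : Net V) (f : V → Option V) : Wt (kp N) (ext f) none = wF N ∅ f := by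
  rw [Forest.wF_eq, Finset.sdiff_empty]
  unfold Wt
  have h1 : (univ : Finset (Option V)).erase none = (univ : Finset V).map Function.Embedding.some := by
    ext o
    rw [Finset.mem_erase, Finset.mem_map]
    rcases o with _ | x
    · simp
    · simp
  rw [h1, Finset.prod_map]
  apply Finset.prod_congr rfl
  intro x _
  show Kc (kp N) (some x) (f x) = Forest.wo N x (f x)
  rcases f x with _ | y
  · unfold Kc
    rw [if_neg (by simp)]
    rfl
  · unfold Kc
    show _ = Kc N.κ x y
    unfold Kc
    by_cases hxy : x = y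
    · rw [if_pos hxy, if_pos (by rw [hxy])]
    · rw [if_neg hxy, if_neg (fun h => hxy (Option.some_injective V h))]
      rfl

omit [Fintype V] [DecidableEq V] in
lemma ext_gr (f : V → Option V) : (gf (ext f)).comap some = grF f := by
  ext x y
  unfold gf grF
  rw [SimpleGraph.comap_adj, SimpleGraph.fromEdgeSet_adj, SimpleGraph.fromRel_adj]
  constructor
  · rintro ⟨⟨o, ho, ho2⟩, hne⟩
    have hxy : x ≠ y := fun h => hne (by rw [h])
    refine ⟨hxy, ?_⟩
    rcases Sym2.eq_iff.1 ho2 with ⟨h1, h2⟩ | ⟨h1, h2⟩
    · left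
      rw [← h1] at h2
      exact h2.symm
    · right
      rw [← h2] at h1
      exact h1.symm
  · rintro ⟨hxy, h | h⟩
    · refine ⟨⟨some x, ?_, ?_⟩, fun k => hxy (Option.some_injective V k)⟩
      · show f x ≠ some x
        rw [h]
        exact fun k => hxy (Option.some_injective V k).symm
      · show s(some x, some y) = s(some x, f x)
        rw [h]
    · refine ⟨⟨some y, ?_, ?_⟩, fun k => hxy (Option.some_injective V k)⟩
      · show f y ≠ some y
        rw [h]
        exact fun k => hxy (Option.some_injective V k)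
      · show s(some x, some y) = s(some y, f y)
        rw [h]
        exact Sym2.eq_swap

open Classical in
/-- sums over the rooted forests as sums over the trees with the cemetery -/
lemma sumA_ext (N : Net V) (G : (Option V → Option V) → ℝ) :
    sumA (kp N) none G =
      ∑ f ∈ univ.filter (fun f : V → Option V => IsFor ∅ f), wF N ∅ f * G (ext f) := by
  unfold sumA
  symm
  refine Finset.sum_bij' (fun f _ => ext f) (fun F _ => fun x => F (some x)) ?_ ?_ ?_ ?_ ?_
  · intro f hf
    exact Finset.mem_filter.2 ⟨mem_univ _, (ext_arb f).2 (Finset.mem_filter.1 hf).2⟩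
  · intro F hF
    refine Finset.mem_filter.2 ⟨mem_univ _, ?_⟩
    rw [← ext_arb]
    have h1 : ext (fun x => F (some x)) = F := by
      funext o
      rcases o with _ | x
      · exact (Finset.mem_filter.1 hF).2.1.symm
      · rfl
    rw [h1]
    exact (Finset.mem_filter.1 hF).2
  · intro f _
    rfl
  · intro F hF
    funext o
    rcases o with _ | x
    · exact (Finset.mem_filter.1 hF).2.1.symm
    · rfl
  · intro f _
    rw [ext_wt]

open Classical in
lemma forest_le (N : Net V) (A : SimpleGraph V → Prop) :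
    ∑ f ∈ univ.filter (fun f : V → Option V => IsFor ∅ f),
      wF N ∅ f * (if A (grF f) then 1 else 0) ≤
      sumT (kp N) (fun G => A (G.comap some)) := by
  refine le_trans (le_of_eq ?_) (sumA_le_sumT (kp_nonneg N) (fun G => A (G.comap some)) none)
  rw [sumA_ext]
  apply Finset.sum_congr rfl
  intro f _
  rw [ext_gr]

lemma le_Zf (N : Net V) : sumT (kp N) (fun _ => True) ≤ Zf N ∅ := by
  classical
  refine (sumT_le_sumA (kp_nonneg N) none).trans (le_of_eq ?_)
  rw [sumA_ext]
  unfold Zf
  apply Finset.sum_congr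
  · ext f
    simp
  · intro f _
    rw [mul_one]

open Classical in
/-- the increasing function -/
def gA (A : SimpleGraph V → Prop) (S : Finset (Sym2 (Option V))) : ℝ :=
  if A (SimpleGraph.fromEdgeSet {e : Sym2 V | Sym2.map some e ∈ S}) then 1 else 0

lemma gA_mono (A : SimpleGraph V → Prop)
    (hA : ∀ G G' : SimpleGraph V, G ≤ G' → A G → A G') (S T : Finset (Sym2 (Option V)))
    (h : S ⊆ T) : gA A S ≤ gA A T := by
  unfold gA
  by_cases h1 : A (SimpleGraph.fromEdgeSet {e : Sym2 V | Sym2.map some e ∈ S})
  · rw [if_pos h1, if_pos]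
    refine hA _ _ ?_ h1
    apply SimpleGraph.fromEdgeSet_mono
    intro e he
    exact h he
  · rw [if_neg h1]
    split_ifs <;> norm_num

open Pool.Agent.TH902.WT in
lemma P_wp (N : Net V) (T : Finset (Sym2 (Option V))) (hT : T ⊆ E2 N) :
    P (wp N) T = P (kp N) T := by
  unfold P
  apply Finset.prod_congr rfl
  intro e he
  have h1 := (mem_E2 N e).1 (hT he)
  unfold wp
  rw [if_pos h1.2]

open Pool.Agent.TH902.WT Pool.Agent.TH968.UST Pool.Agent.TH830.UST in
lemma big_sum (N : Net V) (A : SimpleGraph V → Prop) :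
    ∑ T ∈ trees ⊥ (E2 N), P (wp N) T * gA A (T ∩ E1 V) =
      sumT (kp N) (fun G => A (G.comap some)) := by
  classical
  rw [sumT_eq (kp N) (E2 N) (conn_E2 N) (fun e he => ((mem_E2 N e).1 he).1) ?_]
  · apply Finset.sum_congr rfl
    intro T hT
    have hTE := (mem_trees.1 hT).1
    rw [P_wp N T hTE]
    congr 1
    unfold gA
    have h1 : SimpleGraph.fromEdgeSet {e : Sym2 V | Sym2.map some e ∈ T ∩ E1 V} =
        (SimpleGraph.fromEdgeSet (T : Set (Sym2 (Option V)))).comap some := by
      ext x y
      rw [SimpleGraph.comap_adj, SimpleGraph.fromEdgeSet_adj, SimpleGraph.fromEdgeSet_adj]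
      constructor
      · rintro ⟨h1, h2⟩
        exact ⟨Finset.mem_coe.2 (Finset.mem_inter.1 h1).1, fun k => h2 (Option.some_injective V k)⟩
      · rintro ⟨h1, h2⟩
        have hxy : x ≠ y := fun k => h2 (by rw [k])
        refine ⟨?_, hxy⟩
        show Sym2.map some s(x, y) ∈ T ∩ E1 V
        refine Finset.mem_inter.2 ⟨Finset.mem_coe.1 h1, ?_⟩
        refine Finset.mem_image.2 ⟨s(x, y), ?_, rfl⟩
        rw [mem_EV]
        exact fun k => hxy (Sym2.mk_isDiag_iff.1 k)
    rw [h1]
  · intro e h1 h2
    rw [mem_E2] at h2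
    have h3 := kp_nonneg N e
    by_contra h4
    exact h2 ⟨h1, lt_of_le_of_ne h3 (Ne.symm h4)⟩

open Pool.Agent.TH902.WT Pool.Agent.TH968.UST Pool.Agent.TH830.UST in
lemma small_sum [Nonempty V] (N : Net V) (A : SimpleGraph V → Prop) :
    ∑ T ∈ trees ⊥ (E1 V), P (wp N) T * gA A T = sumT N.κ A := by
  classical
  have hne : Nonempty V := inferInstance
  obtain ⟨v0⟩ := hne
  rw [sumT_eq N.κ (EV V) conn_EV (fun e he => (mem_EV e).1 he)
    (fun e h1 h2 => absurd ((mem_EV e).2 h1) h2)]
  unfold E1
  rw [trees_image (some : V → Option V) (fun o => o.getD v0) (fun x => rfl),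
    Finset.sum_image (fun T _ T' _ h => Finset.image_injective some_inj h)]
  apply Finset.sum_congr rfl
  intro T _
  congr 1
  · unfold P
    rw [Finset.prod_image (fun a _ b _ h => some_inj h)]
    apply Finset.prod_congr rfl
    intro e _
    exact wp_map N e
  · unfold gA
    have h1 : {e : Sym2 V | Sym2.map some e ∈ T.image (Sym2.map (some : V → Option V))} =
        (T : Set (Sym2 V)) := by
      ext e
      constructor
      · intro h
        obtain ⟨e', he', h2⟩ := Finset.mem_image.1 h
        have h3 := some_inj h2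
        rw [← h3]
        exact Finset.mem_coe.2 he'
      · intro h
        exact Finset.mem_image.2 ⟨e, Finset.mem_coe.1 h, rfl⟩
    rw [h1]

lemma Z_eq {w : Sym2 (Option V) → ℝ} {E : Finset (Sym2 (Option V))} :
    Pool.Agent.TH902.WT.Z w ⊥ E = ∑ T ∈ Pool.Agent.TH968.UST.trees ⊥ E,
      Pool.Agent.TH902.WT.P w T * gA (fun _ : SimpleGraph V => True) T := by
  unfold Pool.Agent.TH902.WT.Z
  apply Finset.sum_congr rfl
  intro T _
  unfold gA
  rw [if_pos trivial, mul_one]

lemma Z_eq' {w : Sym2 (Option V) → ℝ} {E : Finset (Sym2 (Option V))} :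
    Pool.Agent.TH902.WT.Z w ⊥ E = ∑ T ∈ Pool.Agent.TH968.UST.trees ⊥ E,
      Pool.Agent.TH902.WT.P w T * gA (fun _ : SimpleGraph V => True) (T ∩ E1 V) := by
  unfold Pool.Agent.TH902.WT.Z
  apply Finset.sum_congr rfl
  intro T _
  unfold gA
  rw [if_pos trivial, mul_one]

end Dom

open Dom

/-- stochastic domination (Feder and Mihail): the random rooted forest is dominated by the random
tree with the same conductances -/
theorem forest_dom [Nonempty V] (N : Net V) (A : SimpleGraph V → Prop)
    (hA : ∀ G G' : SimpleGraph V, G ≤ G' → A G → A G') :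
    PF N (fun f => A (grF f)) * sumT N.κ (fun _ => True) ≤ sumT N.κ A := by
  classical
  have h1 := Pool.Agent.TH902.WT.dom (wp_pos N) ⊥ ⊥ le_rfl (E2 N) (E1 V) (E1_sub N) (gA A)
    (gA_mono A hA)
  rw [Z_eq (E := E1 V), Z_eq' (E := E2 N), Dom.small_sum, Dom.small_sum, big_sum, big_sum] at h1
  have h2 := forest_le N A
  have h3 := le_Zf N
  have hS : 0 ≤ sumT N.κ (fun _ => True) :=
    Finset.sum_nonneg (fun T _ => wT_nonneg (Forest.κ_nn N) T)
  have hSA : 0 ≤ sumT N.κ A :=
    Finset.sum_nonneg (fun T _ => wT_nonneg (Forest.κ_nn N) T)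
  have h5 : 0 ≤ Zf N ∅ := Finset.sum_nonneg (fun f _ => Forest.wF_nonneg N ∅ f)
  unfold PF EF
  rcases h5.eq_or_lt with h6 | h6
  · rw [← h6, div_zero, zero_mul]
    exact hSA
  · rw [div_mul_eq_mul_div, div_le_iff₀ h6]
    calc _ ≤ sumT (kp N) (fun G => A (G.comap some)) * sumT N.κ (fun _ => True) := by
          apply mul_le_mul_of_nonneg_right _ hS
          refine le_trans (le_of_eq ?_) h2
          apply Finset.sum_congr
          · ext f
            simp
          · intro f _
            congr 1
      _ ≤ sumT N.κ A * sumT (kp N) (fun _ => True) := h1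
      _ ≤ _ := mul_le_mul_of_nonneg_left h3 hSA

end

end Pool.Agent.TH972.U
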