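import Pool.Agent.TH972.U.VBas
import Pool.Agent.TH972.U.Dom

/-!
# From the trees of the random forest to the balls in the random tree
-/

set_option autoImplicit false
set_option linter.unusedSectionVars false

namespace Pool.Agent.TH972.U

open Finset

noncomputable section

variable {V : Type} [Fintype V] [DecidableEq V]

namespace BallF

lemma mem_anc (f : V → Option V) (x z : V) :
    z ∈ anc f x ↔ ∃ j : ℕ, (fun o : Option V => o.bind f)^[j] (some x) = some z := by
  classical
  unfold anc
  rw [Finset.mem_filter]
  exact ⟨fun h => h.2, fun h => ⟨mem_univ _, h⟩⟩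

lemma self_mem_anc (f : V → Option V) (x : V) : x ∈ anc f x :=
  (mem_anc f x x).2 ⟨0, rfl⟩

lemma anc_sub {f : V → Option V} {x y : V} (h : f x = some y) : anc f y ⊆ anc f x := by
  intro z hz
  rw [mem_anc] at hz ⊢
  obtain ⟨j, hj⟩ := hz
  refine ⟨j + 1, ?_⟩
  rw [Function.iterate_succ_apply]
  show (fun o : Option V => o.bind f)^[j] (f x) = some z
  rw [h]
  exact hj

lemma iter_none (f : V → Option V) (j : ℕ) :
    (fun o : Option V => o.bind f)^[j] none = none := by
  induction j with
  | zero => rfl
  | succ j ih =>
    rw [Function.iterate_succ_apply]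
    exact ih

lemma walk_up (f : V → Option V) (z : V) (j : ℕ) : ∀ x : V,
    (fun o : Option V => o.bind f)^[j] (some x) = some z →
    ∃ p : (grF f).Walk x z, ∀ w ∈ p.support, w ∈ anc f x := by
  induction j with
  | zero =>
    intro x hx
    have hxz : x = z := Option.some.inj hx
    subst hxz
    refine ⟨SimpleGraph.Walk.nil, ?_⟩
    intro w hw
    rw [SimpleGraph.Walk.support_nil, List.mem_singleton] at hw
    rw [hw]
    exact self_mem_anc f x
  | succ j ih =>
    intro x hx
    rw [Function.iterate_succ_apply] at hx
    change (fun o : Option V => o.bind f)^[j] (f x) = some z at hx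
    cases hfx : f x with
    | none =>
      rw [hfx, iter_none] at hx
      exact absurd hx (by simp)
    | some y =>
      rw [hfx] at hx
      obtain ⟨p, hp⟩ := ih y hx
      by_cases hxy : x = y
      · subst hxy
        exact ⟨p, hp⟩
      · have hadj : (grF f).Adj x y := by
          unfold grF
          rw [SimpleGraph.fromRel_adj]
          exact ⟨hxy, Or.inl hfx⟩
        refine ⟨SimpleGraph.Walk.cons hadj p, ?_⟩
        intro w hw
        rw [SimpleGraph.Walk.support_cons, List.mem_cons] at hw
        rcases hw with hw | hw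
        · rw [hw]
          exact self_mem_anc f x
        · exact anc_sub hfx (hp w hw)

lemma walk_short {f : V → Option V} {x z : V} (h : z ∈ anc f x) :
    ∃ p : (grF f).Walk x z, p.length + 1 ≤ (anc f x).card := by
  classical
  obtain ⟨j, hj⟩ := (mem_anc f x z).1 h
  obtain ⟨p, hp⟩ := walk_up f z j x hj
  refine ⟨p.bypass, ?_⟩
  have h1 : p.bypass.IsPath := p.bypass_isPath
  have h2 : p.bypass.support.Nodup := h1.support_nodup
  rw [← SimpleGraph.Walk.length_support, ← List.toFinset_card_of_nodup h2]
  apply Finset.card_le_card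
  intro w hw
  rw [List.mem_toFinset] at hw
  exact hp w (p.support_bypass_subset_support hw)

lemma walk_conn {f : V → Option V} {x u : V} {m : ℕ} (hm : ∀ y, (anc f y).card ≤ m)
    (h : Conn f x u) : ∃ p : (grF f).Walk x u, p.length ≤ 2 * m := by
  obtain ⟨z, hz1, hz2⟩ := h
  obtain ⟨p, hp⟩ := walk_short hz1
  obtain ⟨q, hq⟩ := walk_short hz2
  refine ⟨p.append q.reverse, ?_⟩
  rw [SimpleGraph.Walk.length_append, SimpleGraph.Walk.length_reverse]
  have h1 := hm x
  have h2 := hm u
  omega

lemma ball_mono {G G' : SimpleGraph V} (h : G ≤ G') (v : V) (m : ℕ) : ball G v m ⊆ ball G' v m := by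
  classical
  intro u hu
  unfold ball at hu ⊢
  rw [Finset.mem_filter] at hu ⊢
  obtain ⟨_, p, hp⟩ := hu
  refine ⟨mem_univ _, p.mapLe h, ?_⟩
  rw [SimpleGraph.Walk.length_map]
  exact hp

lemma sumT_nn {κ : Sym2 V → ℝ} (h : ∀ e, 0 ≤ κ e) (A : SimpleGraph V → Prop) : 0 ≤ sumT κ A := by
  unfold sumT
  apply Finset.sum_nonneg
  intro T _
  exact wT_nonneg h T

lemma union3 (N : Net V) (A B C : (V → Option V) → Prop)
    (h : ∀ f, IsFor ∅ f → A f ∨ B f ∨ C f) : 1 ≤ PF N A + (PF N B + PF N C) := by
  classical
  unfold PF
  rw [← EF_add, ← EF_add]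
  refine le_trans (EF_one N ∅).ge ?_
  apply EF_mono
  intro f hf
  have nn : ∀ p : Prop, (0 : ℝ) ≤ (if p then (1 : ℝ) else 0) := by
    intro p
    split_ifs <;> norm_num
  have ha := nn (A f)
  have hb := nn (B f)
  have hc := nn (C f)
  rcases h f hf with h1 | h1 | h1
  · have e : (if A f then (1 : ℝ) else 0) = 1 := if_pos h1
    linarith
  · have e : (if B f then (1 : ℝ) else 0) = 1 := if_pos h1
    linarith
  · have e : (if C f then (1 : ℝ) else 0) = 1 := if_pos h1
    linarith

end BallF

open BallF

/-- from the trees of the random forest to the balls in the random tree -/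
theorem ball_forest [Nonempty V] (N : Net V) (B : Finset V) (v : V) (m s : ℕ) :
    (1 - PF N (fun f => ∃ x, m < (anc f x).card) -
      PF N (fun f => (open Classical in (B.filter (fun u => Conn f v u)).card) < s)) *
        sumT N.κ (fun _ => True) ≤
      sumT N.κ (fun T => s ≤ (ball T v (2 * m) ∩ B).card) := by
  classical
  have hdom := forest_dom N (fun T => s ≤ (ball T v (2 * m) ∩ B).card) (by
    intro G G' hG hs
    exact le_trans hs (Finset.card_le_card
      (Finset.inter_subset_inter_right (ball_mono hG v (2 * m)))))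
  refine le_trans ?_ hdom
  apply mul_le_mul_of_nonneg_right _ (sumT_nn (fun e => (N.κ_pos e).le) _)
  have hmain := union3 N (fun f => ∃ x, m < (anc f x).card)
      (fun f => (open Classical in (B.filter (fun u => Conn f v u)).card) < s)
      (fun f => s ≤ (ball (grF f) v (2 * m) ∩ B).card) (by
    intro f _
    by_cases h1 : ∃ x, m < (anc f x).card
    · exact Or.inl h1
    · have h1' : ∀ y, (anc f y).card ≤ m := by
        intro y
        by_contra hy
        exact h1 ⟨y, not_le.1 hy⟩
      by_cases h2 : (open Classical in (B.filter (fun u => Conn f v u)).card) < s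
      · exact Or.inr (Or.inl h2)
      · refine Or.inr (Or.inr ?_)
        refine le_trans (not_lt.1 h2) (Finset.card_le_card ?_)
        intro u hu
        rw [Finset.mem_filter] at hu
        rw [Finset.mem_inter]
        refine ⟨?_, hu.1⟩
        unfold ball
        rw [Finset.mem_filter]
        exact ⟨mem_univ _, walk_conn h1' hu.2⟩)
  linarith

end

end Pool.Agent.TH972.U
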