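import Pool.Agent.TH972.U.VolGen
import Pool.Agent.TH972.U.BallF
import Pool.Agent.TH972.GibbsK

/-!
# The ball around a typical vertex is large
-/

set_option autoImplicit false

namespace Pool.Agent.TH972.U

open Finset

noncomputable section

variable {n : ℕ}

/-- the ball around a typical vertex is large -/
theorem PN.ball_gen (hn : 1 ≤ n) (P : PN (Fin n)) {k1 k2 g σ : ℝ} (hk1 : 0 < k1) (hk2 : 0 < k2)
    (ht : k2 * P.t ≤ 1) (hg1 : 1 ≤ g) (hg : ∀ y ∈ P.M, grn (P.net k2 hk2) ∅ y y ≤ g)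
    (hσ : 1 ≤ σ) (hk : k1 ^ 2 * P.M.card = σ ^ 2 * k2) (hk12 : k1 * σ ≤ k2) (K : ℕ)
    (hK : g * σ ^ 5 ≤ K) (hK2 : 2 ≤ K) (j : ℕ) (m : ℕ) {ε : ℝ}
    (hlen : PF (P.net k1 hk1) (fun f => ∃ x, m < (anc f x).card) ≤ ε) :
    (1 - ε - erV σ K (k1 / k2) P.M.card j) * n ≤
      ∑ v, GG P.κ (fun T => n / K < (ball T v (2 * m)).card) := by
  classical
  have : Nonempty (Fin n) := ⟨⟨0, hn⟩⟩
  have hpos : 0 < sumT P.κ (fun _ => True) := sumT_pos P.κ_pos
  have h1 : ∀ v : Fin n, 1 - ε - PF (P.net k1 hk1) (fun f =>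
      (open Classical in (univ.filter (fun u => Conn f v u)).card) ≤ Fintype.card (Fin n) / K) ≤
      GG P.κ (fun T => n / K < (ball T v (2 * m)).card) := by
    intro v
    have h2 := ball_forest (P.net k1 hk1) univ v m (n / K + 1)
    have e1 : (fun f : Fin n → Option (Fin n) =>
        (open Classical in (univ.filter (fun u => Conn f v u)).card) < n / K + 1) =
        (fun f => (open Classical in (univ.filter (fun u => Conn f v u)).card) ≤
          Fintype.card (Fin n) / K) := by
      funext f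
      rw [Fintype.card_fin]
      exact propext Nat.lt_succ_iff
    have e2 : (fun T : SimpleGraph (Fin n) => n / K + 1 ≤ (ball T v (2 * m) ∩ univ).card) =
        (fun T => n / K < (ball T v (2 * m)).card) := by
      funext T
      rw [Finset.inter_univ]
      exact propext Nat.succ_le_iff
    rw [e1, e2] at h2
    change _ * sumT P.κ (fun _ => True) ≤ sumT P.κ _ at h2
    unfold GG
    rw [le_div_iff₀ hpos]
    refine le_trans (mul_le_mul_of_nonneg_right ?_ hpos.le) h2
    linarith
  have h3 := Finset.sum_le_sum (fun v (_ : v ∈ (univ : Finset (Fin n))) => h1 v)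
  have h4 := PN.vol_gen P hk1 hk2 ht hg1 hg hσ hk hk12 K hK hK2 j
  rw [Finset.sum_sub_distrib, Finset.sum_const, Finset.card_univ, nsmul_eq_mul] at h3
  have h5 : (Fintype.card (Fin n) : ℝ) = n := by rw [Fintype.card_fin]
  rw [h5] at h3 h4
  refine le_trans ?_ h3
  have h6 : (1 - ε - erV σ K (k1 / k2) P.M.card j) * n =
      n * (1 - ε) - erV σ K (k1 / k2) P.M.card j * n := by ring
  rw [h6]
  linarith

end

end Pool.Agent.TH972.U
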