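import Pool.Agent.TH972.U.Det

/-!
# The network of a good environment and its long paths, with free parameters
-/

set_option autoImplicit false

namespace Pool.Agent.TH972.U

open Finset Pool.Agent.W842.RST Pool.Agent.TH972

noncomputable section

variable {n : ℕ}

/-- the network of a good environment, and its long paths -/
theorem Prm.Ok.blk {P : Prm n} (H : P.Ok) {θ0 k1 : ℝ} {N₀ : ℕ} (H2 : P.Ok2 θ0 k1 N₀) {U : Ev n}
    (hG : P.Gd θ0 U) :
    ∃ E : BlkEnv (Fin n), E.κ = (fun e => P.w (U e)) ∧ E.Hb = GU U P.pb ∧ E.s0 = P.s0 ∧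
      E.M = marks P.pl P.pb P.s1 P.s0 U ∧ E.C = P.Cb ∧ E.ρb = P.ρb ∧ E.smax = P.smax ∧
      P.vmin ≤ E.M.card ∧ (E.M.card : ℝ) ≤ P.vmax ∧
      ∀ (k : ℝ) (hk : 0 < k) (N m : ℕ), P.k0 ≤ k → k * P.smax ≤ 1 → ∀ x,
        longQ (fun u v => U s(u, v) ≤ P.pt) (E.net k hk) m x ≤
          2 * Real.exp (-(P.Φ k N)) + 20 ^ N * ({P with m := m} : Prm n).SS U := by
  have hn := Det.n_pos H
  have hy := Det.y_pos H
  have hgb := Det.gb_pos H
  have hL := H.hL
  have hρ := Det.rho_pos H
  have hCb := Det.Cb_pos H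
  have hvmin := Det.vmin_pos H
  have hvmax := Det.vmax_pos H
  have hsx := Det.smax_pos H
  have hk0 := Det.k0_pos H
  have hbn : P.pb ≤ P.pn := (Det.pb_lt H).trans (H.lvs.mono (by norm_num))
  have hbt : P.pb ≤ P.pt := (Det.pb_lt H).trans (H.lvs.mono (by positivity))
  have hlb : P.pl ≤ P.pb := (Det.pl_le H).trans (Det.pb_gt H).le
  have hA := Det.A_nonneg P H
  have hTl := Det.Tl_le H H2
  have hTl0 := Det.Tl_nonneg H
  have hM1 : P.vmin ≤ (marks P.pl P.pb P.s1 P.s0 U).card := hG.hvmin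
  have hM0 : 0 < (marks P.pl P.pb P.s1 P.s0 U).card := by
    have : (0 : ℝ) < (marks P.pl P.pb P.s1 P.s0 U).card := hvmin.trans_le hM1
    exact_mod_cast this
  have hM2 : ((marks P.pl P.pb P.s1 P.s0 U).card : ℝ) ≤ P.vmax := by
    refine le_trans ?_ hG.hvmax
    exact_mod_cast Finset.card_le_card marks_sub
  obtain ⟨E, hEκ, hEH, hEs, hEM, hEC, hEρ, hEcn, hEsm⟩ := mk_blk (U := U)
    (κ := fun e => P.w (U e)) (fun e => H.lvs.wpos _) (pl := P.pl) (pb := P.pb) (pn := P.pn)
    (smax := P.smax) (ρb := P.ρb) (cn := P.w (P.gam 1)) (Δ := P.Δ) (s1 := P.s1) (s0 := P.s0)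
    hbn (Det.s0_pos H) hρ (H.lvs.wpos _) (Det.Delta_nonneg H) (fun e => H.lvs.st (U e))
    hG.hsm hG.iso hG.rob hG.deg hG.tb ((Det.smax_le H).trans hM1) hM0
  have hEC' : E.C = P.Cb := by rw [hEC]; rfl
  have hlnk : Lnk P.sp U E P.pl P.pb P.s1 P.J P.Tl := by
    refine mk_lnk P.sp (w := P.w) H.lvs.wpos U E H.lvs.mono (by have := H.hJ; omega)
      (Det.s1_pos H) hlb ((Det.pl_le H).trans (H.lvs.mono (by norm_num))) ?_ hEκ hEH ?_ ?_ ?_
      hG.tl hTl ?_
    · intro j v F
      rw [hEs]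
      rfl
    · rw [hEs]
      exact hEM
    · intro i hi u hu
      refine H.lvs.up i ?_ u hu
      have := H.hI0K
      have h : -(P.I0 : ℤ) ≤ i := hi
      omega
    · intro i hi hi' u hu
      have h1 := H.hI0K
      have h2 := Det.I_le H
      have h3 : -(P.I0 : ℤ) ≤ i := hi
      have h4 : i ≤ (P.I : ℤ) := hi'
      exact H.lvs.dn i (by omega) (by omega) u hu
    · show (1 : ℝ) ≤ P.lam
      linarith [H.hlam]
  have hcardM : (E.M.card : ℝ) ≤ P.vmax := by rw [hEM]; exact hM2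
  have hcardM' : P.vmin ≤ (E.M.card : ℝ) := by rw [hEM]; exact hM1
  have hMpos : (0 : ℝ) < E.M.card := hvmin.trans_le hcardM'
  refine ⟨E, hEκ, hEH, hEs, hEM, hEC', hEρ, hEsm, hcardM', hcardM, ?_⟩
  intro k hk N m hkk hks x
  have hcap : ∀ v, 1 / P.ac ≤ grn (E.net k hk) ∅ v v := by
    intro v
    refine cap_le (by have := H.hn; omega) U (E.net k hk) (pl := P.pl) (pb := P.pb)
      (pt := P.pt) (smax := P.smax) (A := P.A) (k := k) (s1 := P.s1) (s0 := P.s0) (sa := P.s1)
      hlb hbt le_rfl ?_ ?_ hk.le ?_ ?_ hG.hsm hks hG.arm v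
    · intro x hx
      show (if x ∈ E.M then k else 0) = 0
      rw [if_neg (by rw [hEM]; exact hx)]
    · intro x
      show (if x ∈ E.M then k else 0) ≤ k
      split_ifs
      · exact le_rfl
      · exact hk.le
    · intro e he
      show E.κ e ≤ 3
      rw [hEκ]
      show P.w (U e) ≤ 3
      have h1 := H.lvs.dn (-1) (by have := Det.K_ge H; omega) (by omega) (U e)
        ((Det.pb_gt H).trans he)
      push_cast at h1
      have h2 := H.lvs.wpos (U e)
      have h3 := Real.exp_one_lt_d9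
      have h4 : P.w (U e) ≤ 1 / Real.exp (-1) := by
        rw [le_div_iff₀ (Real.exp_pos _)]
        rw [le_div_iff₀ h2] at h1
        linarith
      rw [Real.exp_neg, one_div, inv_inv] at h4
      linarith
    · intro e he
      show E.κ e ≤ 1 / (n : ℝ) ^ 2
      rw [hEκ]
      show P.w (U e) ≤ 1 / (n : ℝ) ^ 2
      have h1 := H.lvs.dn (P.I : ℤ) (by omega) (by have := Det.I_le H; omega) (U e) he
      push_cast at h1
      have h2 := H.lvs.wpos (U e)
      have h3 : (n : ℝ) ^ 2 ≤ Real.exp P.I := by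
        calc (n : ℝ) ^ 2 = Real.exp (2 * Real.log n) := by
              rw [mul_comm, Real.exp_mul, Real.exp_log hn]
              norm_num
          _ ≤ Real.exp P.I := Real.exp_le_exp.2 H.hI
      rw [le_div_iff₀ (by positivity)]
      rw [le_div_iff₀ h2] at h1
      nlinarith
  have hac : 0 < P.ac := by unfold Prm.ac; positivity
  have hlong := Assem.longQ_le P.sp U E hlnk hk0 hk hkk (a := P.ac) (r := P.r) hac hcap H2.haT
    ?_ ?_ N m (Φ := P.Φ k N) le_rfl x
  · refine hlong.trans (add_le_add le_rfl (mul_le_mul_of_nonneg_left ?_ (by positivity)))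
    show Assem.Sx P.sp U m x ≤ ∑ y, Assem.Sx P.sp U m y
    refine Finset.single_le_sum (f := fun y => Assem.Sx P.sp U m y) (fun y _ => ?_)
      (Finset.mem_univ x)
    exact Finset.sum_nonneg fun π _ => wsum_nonneg P.sp (by norm_num) U π.toFinset π
  · rw [hEC', hEρ, hEcn]
    unfold Prm.r
    have h1 := Det.cn_le H
    have h2 : 4 / (P.k0 * E.M.card) ≤ 4 / (P.k0 * P.vmin) := by
      apply div_le_div_of_nonneg_left (by norm_num) (by positivity)
      gcongr
    linarith
  · intro j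
    show 2 * (P.J * Real.exp j + (P.J + 1) * P.Tl + P.r) ≤ Real.exp (max (j + P.b) P.lam)
    have h1 : Real.exp (j + P.b) ≤ Real.exp (max (j + P.b) P.lam) :=
      Real.exp_le_exp.2 (le_max_left _ _)
    have h2 : Real.exp P.lam ≤ Real.exp (max (j + P.b) P.lam) :=
      Real.exp_le_exp.2 (le_max_right _ _)
    have h3 := H2.hr
    have h4 : 4 * P.J * Real.exp j ≤ Real.exp (j + P.b) := by
      rw [Real.exp_add, mul_comm (Real.exp j)]
      exact mul_le_mul_of_nonneg_right H.hbJ (Real.exp_pos _).le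
    linarith

end

end Pool.Agent.TH972.U
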