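import Pool.Agent.TH972.U.Grn2

/-!
# Sums over simple paths (definitions)
-/

set_option autoImplicit false
set_option linter.unusedSectionVars false

namespace Pool.Agent.TH972.U

open Finset

noncomputable section

variable {V : Type} [Fintype V] [DecidableEq V]

/-- sum over the simple paths `ζ` from `x` outside `D` of (conductances) x (Green functions) x
`F ζ`, with fuel `s` -/
def psumF (N : Net V) : ℕ → Finset V → V → (List V → ℝ) → ℝ
  | 0, _, _, _ => 0
  | (s + 1), D, x, F =>
    if x ∈ D then 0
    else grn N D x x *
      (F [x] + ∑ w, Kc N.κ x w * psumF N s (insert x D) w (fun η => F (x :: η)))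

/-- the same with enough fuel -/
def psum (N : Net V) (D : Finset V) (x : V) (F : List V → ℝ) : ℝ :=
  psumF N (Fintype.card V + 1) D x F

/-- the value of `g` at the last vertex of the list -/
def lastf (g : V → ℝ) (π : List V) : ℝ :=
  match π.getLast? with
  | none => 0
  | some z => g z

/-- the prefix weight: an upper bound for the probability that the loop-erased path starts
with the given list -/
def pref (N : Net V) : List V → ℝ
  | [] => 1
  | [_] => 1
  | (v :: w :: t) => Kc N.κ v w * grn N (insert w t.toFinset) v v * pref N (w :: t)

/-- the list has at least `m` edges and its first `m` edges are allowed -/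
def okc (ok : V → V → Prop) (m : ℕ) (ζ : List V) : Prop :=
  m + 1 ≤ ζ.length ∧ (ζ.take (m + 1)).IsChain ok

open Classical in
/-- probability that the loop-erased path from `x` to the cemetery has at least `m` edges, the
first `m` of which are allowed -/
def longQ (ok : V → V → Prop) (N : Net V) (m : ℕ) (x : V) : ℝ :=
  psum N ∅ x (fun ζ => if okc ok m ζ then lastf N.k ζ else 0)

end

end Pool.Agent.TH972.U
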