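import Pool.Agent.TH972.U.Grn2
import Pool.Agent.TH972.U.PDef

/-!
# Random rooted forests, balls, networks with a Poincare inequality (definitions)
-/

set_option autoImplicit false
set_option linter.unusedSectionVars false

namespace Pool.Agent.TH972.U

open Finset

noncomputable section

variable {V : Type} [Fintype V] [DecidableEq V]

open Classical in
/-- expectation over the rooted forests (the vertices of `D` are roots) -/
def EF (N : Net V) (D : Finset V) (F : (V → Option V) → ℝ) : ℝ :=
  (∑ f ∈ univ.filter (fun f : V → Option V => IsFor D f), wF N D f * F f) / Zf N D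

open Classical in
/-- probability of a property of the rooted forest -/
def PF (N : Net V) (A : (V → Option V) → Prop) : ℝ := EF N ∅ (fun f => if A f then 1 else 0)

open Classical in
/-- the vertices of the path of `x` to its root -/
def anc (f : V → Option V) (x : V) : Finset V :=
  univ.filter (fun z => ∃ j : ℕ, (fun o : Option V => o.bind f)^[j] (some x) = some z)

/-- `x` and `y` are in the same tree -/
def Conn (f : V → Option V) (x y : V) : Prop := ∃ z ∈ anc f x, z ∈ anc f y

/-- the union of the paths of the vertices of `W` -/
def skel (f : V → Option V) (W : Finset V) : Finset V := W.biUnion (anc f)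

/-- `x` is in the tree of some vertex of `W` -/
def Mt (f : V → Option V) (x : V) (W : Finset V) : Prop := ∃ w ∈ W, Conn f x w

/-- the forest as a graph: `x` and `y` are adjacent if `f x = y` or `f y = x` -/
def grF (f : V → Option V) : SimpleGraph V := SimpleGraph.fromRel (fun x y => f x = some y)

open Classical in
/-- the vertices at distance at most `m` from `v` -/
def ball (G : SimpleGraph V) (v : V) (m : ℕ) : Finset V :=
  univ.filter (fun u => ∃ p : G.Walk v u, p.length ≤ m)

open Classical in
/-- number of the indices whose vertex is not connected with the others -/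
def isoN {K : ℕ} (f : V → Option V) (W : Fin K → V) : ℕ :=
  (univ.filter (fun i => ∀ j, j ≠ i → ¬ Conn f (W i) (W j))).card

/-- a network with a Poincare inequality on the set `M` -/
structure PN (V : Type) [Fintype V] [DecidableEq V] where
  κ : Sym2 V → ℝ
  κ_pos : ∀ e, 0 < κ e
  M : Finset V
  M_ne : M.Nonempty
  t : ℝ
  t_pos : 0 < t
  poinc : ∀ f : V → ℝ, ∑ m ∈ M, (f m - (∑ m ∈ M, f m) / M.card) ^ 2 ≤ t * En κ f

/-- killing at rate `k` on `M` -/
def PN.net (P : PN V) (k : ℝ) (hk : 0 < k) : Net V where
  κ := P.κ
  k := fun x => if x ∈ P.M then k else 0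
  κ_pos := P.κ_pos
  k_nonneg := fun x => by split_ifs <;> linarith
  k_pos := by
    obtain ⟨v, hv⟩ := P.M_ne
    exact ⟨v, by rw [if_pos hv]; exact hk⟩

/-- the capacity of `D` at the killing rate `k` -/
def PN.cap (P : PN V) (k : ℝ) (hk : 0 < k) (D : Finset V) : ℝ :=
  k * ∑ m ∈ P.M, (1 - surv (P.net k hk) D m)

end

end Pool.Agent.TH972.U
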