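import Pool.Agent.TH972.U.Marks
import Pool.Agent.TH972.U.VDef

/-!
# The network of a block environment
-/

set_option autoImplicit false
set_option linter.unusedSectionVars false

namespace Pool.Agent.TH972.U

open Finset

noncomputable section

variable {V : Type} [Fintype V] [DecidableEq V]

theorem BlkEnv.smax_pos (E : BlkEnv V) : 0 < E.smax := by
  obtain ⟨v, _⟩ := Finset.card_pos.1 E.hM0
  refine lt_of_lt_of_le ?_ (E.hsmax v)
  have : 0 < (cmp E.Hb v).card := Finset.card_pos.2 ⟨v, by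
    rw [Marks.mem_cmp]⟩
  exact_mod_cast this

theorem sum_mean_le (M : Finset V) (hM : M.Nonempty) (f : V → ℝ) (c : ℝ) :
    ∑ m ∈ M, (f m - (∑ m ∈ M, f m) / M.card) ^ 2 ≤ ∑ m ∈ M, (f m - c) ^ 2 := by
  have hc : (0 : ℝ) < M.card := by exact_mod_cast Finset.card_pos.2 hM
  obtain ⟨a, ha⟩ : ∃ a : ℝ, a = (∑ m ∈ M, f m) / M.card := ⟨_, rfl⟩
  rw [← ha]
  have h1 : ∑ m ∈ M, (f m - c) ^ 2 = ∑ m ∈ M, (f m - a) ^ 2 +
      2 * (a - c) * ∑ m ∈ M, (f m - a) + M.card * (a - c) ^ 2 := by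
    rw [Finset.mul_sum, ← Finset.sum_add_distrib, ← nsmul_eq_mul, ← Finset.sum_const,
      ← Finset.sum_add_distrib]
    refine Finset.sum_congr rfl fun m _ => ?_
    ring
  have h2 : ∑ m ∈ M, (f m - a) = 0 := by
    rw [Finset.sum_sub_distrib, Finset.sum_const, nsmul_eq_mul, ha]
    field_simp
    ring
  rw [h1, h2]
  nlinarith [mul_nonneg hc.le (sq_nonneg (a - c))]

/-- the network of a block environment -/
def BlkEnv.pn (E : BlkEnv V) : PN V where
  κ := E.κ
  κ_pos := E.κ_pos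
  M := E.M
  M_ne := Finset.card_pos.1 E.hM0
  t := E.smax * E.C
  t_pos := mul_pos E.smax_pos E.C_pos
  poinc := fun f => by
    obtain ⟨c, hc⟩ := E.marks f
    exact (sum_mean_le E.M (Finset.card_pos.1 E.hM0) f c).trans hc

theorem BlkEnv.pn_net (E : BlkEnv V) {k : ℝ} (hk : 0 < k) : E.pn.net k hk = E.net k hk := rfl

end

end Pool.Agent.TH972.U
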