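import Mathlib
set_option autoImplicit false
namespace Pool.Agent.TH972.U
open Finset

namespace Cheeger

variable {ι : Type} [DecidableEq ι]

/-- co-area inequality, by induction on the size of the support -/
theorem coarea (I : Finset ι) (w : ι → ι → ℝ)
    (hiso : ∀ A ⊆ I, 2 * A.card ≤ I.card → (A.card : ℝ) ≤ ∑ i ∈ A, ∑ j ∈ I \ A, w i j)
    (n : ℕ) : ∀ h : ι → ℝ, (∀ i, 0 ≤ h i) → (I.filter fun i => h i ≠ 0).card = n →
      2 * n ≤ I.card → ∑ i ∈ I, h i ≤ ∑ i ∈ I, ∑ j ∈ I, w i j * max (h i - h j) 0 := by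
  induction n using Nat.strong_induction_on with
  | _ n ih =>
    intro h h0 hn hI
    set T := I.filter fun i => h i ≠ 0 with hT
    rcases T.eq_empty_or_nonempty with hTe | hTn
    · have hz : ∀ i ∈ I, h i = 0 := by
        intro i hi
        by_contra hne
        have : i ∈ T := by rw [hT, mem_filter]; exact ⟨hi, hne⟩
        rw [hTe] at this
        exact absurd this (notMem_empty _)
      rw [sum_eq_zero hz]
      refine (sum_eq_zero fun i hi => sum_eq_zero fun j hj => ?_).ge
      rw [hz i hi, hz j hj]; simp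
    · obtain ⟨i0, hi0, hmin⟩ := T.exists_min_image h hTn
      set m := h i0 with hm
      have hmpos : 0 < m := lt_of_le_of_ne (h0 i0) (Ne.symm (mem_filter.1 hi0).2)
      have hTI : T ⊆ I := filter_subset _ _
      set h' : ι → ℝ := fun i => if i ∈ T then h i - m else 0 with hh'
      have hh0 : ∀ i, 0 ≤ h' i := by
        intro i
        simp only [hh']
        split_ifs with hi
        · have := hmin i hi; linarith
        · exact le_rfl
      have hsub : (I.filter fun i => h' i ≠ 0) ⊆ T.erase i0 := by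
        intro i hi
        rw [mem_filter] at hi
        rw [mem_erase]
        constructor
        · rintro rfl
          apply hi.2
          simp only [hh']
          rw [if_pos hi0]; simp [hm]
        · by_contra hiT
          apply hi.2
          simp only [hh']
          rw [if_neg hiT]
      have hcard : (I.filter fun i => h' i ≠ 0).card < n := by
        rw [← hn]
        refine (card_le_card hsub).trans_lt ?_
        rw [card_erase_of_mem hi0]
        have := hTn.card_pos
        omega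
      have hind := ih _ hcard h' hh0 rfl (by omega)
      have hval : ∀ i ∈ I, h i = h' i + if i ∈ T then m else 0 := by
        intro i hi
        simp only [hh']
        split_ifs with hiT
        · ring
        · rw [add_zero]
          by_contra hne
          exact hiT (by rw [hT, mem_filter]; exact ⟨hi, hne⟩)
      have hpt : ∀ i ∈ I, ∀ j ∈ I, w i j * max (h i - h j) 0 = w i j * max (h' i - h' j) 0 +
          if i ∈ T then (if j ∈ T then 0 else w i j * m) else 0 := by
        intro i hi j hj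
        have e1 := hval i hi
        have e2 := hval j hj
        by_cases hiT : i ∈ T <;> by_cases hjT : j ∈ T
        · rw [if_pos hiT] at e1 ⊢
          rw [if_pos hjT] at e2 ⊢
          rw [e1, e2, add_zero]
          congr 2; ring
        · rw [if_pos hiT] at e1 ⊢
          rw [if_neg hjT] at e2 ⊢
          have h2 : h' j = 0 := by simp only [hh']; rw [if_neg hjT]
          rw [e1, e2, h2, add_zero, sub_zero, sub_zero, max_eq_left (by linarith [hh0 i]),
            max_eq_left (hh0 i)]
          ring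
        · rw [if_neg hiT] at e1 ⊢
          have h2 : h' i = 0 := by simp only [hh']; rw [if_neg hiT]
          rw [e1, h2, add_zero, add_zero, max_eq_right (by linarith [h0 j]),
            max_eq_right (by linarith [hh0 j])]
        · rw [if_neg hiT] at e1 ⊢
          have h2 : h' i = 0 := by simp only [hh']; rw [if_neg hiT]
          rw [e1, h2, add_zero, add_zero, max_eq_right (by linarith [h0 j]),
            max_eq_right (by linarith [hh0 j])]
      have hL : ∑ i ∈ I, h i = ∑ i ∈ I, h' i + m * T.card := by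
        rw [sum_congr rfl hval, sum_add_distrib]
        congr 1
        rw [← sum_filter, filter_mem_eq_inter, inter_eq_right.2 hTI, sum_const, nsmul_eq_mul,
          mul_comm]
      have hR : ∑ i ∈ I, ∑ j ∈ I, w i j * max (h i - h j) 0 =
          ∑ i ∈ I, ∑ j ∈ I, w i j * max (h' i - h' j) 0 + m * ∑ i ∈ T, ∑ j ∈ I \ T, w i j := by
        rw [sum_congr rfl fun i hi => sum_congr rfl (hpt i hi)]
        simp only [sum_add_distrib]
        congr 1
        have e1 : ∀ i ∈ I, (∑ j ∈ I, if i ∈ T then (if j ∈ T then 0 else w i j * m) else 0) =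
            if i ∈ T then ∑ j ∈ I \ T, w i j * m else 0 := by
          intro i _
          split_ifs with hiT
          · rw [← sum_filter_add_sum_filter_not I (fun j => j ∈ T)]
            have e2 : ∑ j ∈ I.filter (fun j => j ∈ T), (if j ∈ T then 0 else w i j * m) = 0 :=
              sum_eq_zero fun j hj => if_pos (mem_filter.1 hj).2
            have e3 : I.filter (fun j => j ∉ T) = I \ T := by
              ext j; simp [mem_sdiff]
            rw [e2, zero_add, e3]
            exact sum_congr rfl fun j hj => if_neg (mem_sdiff.1 hj).2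
          · simp
        rw [sum_congr rfl e1, ← sum_filter, filter_mem_eq_inter, inter_eq_right.2 hTI, mul_sum]
        refine sum_congr rfl fun i _ => ?_
        rw [mul_sum]
        exact sum_congr rfl fun j _ => mul_comm _ _
      have hA := hiso T hTI (by rw [hn]; exact hI)
      rw [hL, hR]
      have := mul_le_mul_of_nonneg_left hA hmpos.le
      linarith

/-- step 1 -/
theorem step1 (I : Finset ι) (w : ι → ι → ℝ)
    (hw : ∀ i j, 0 ≤ w i j) (hs : ∀ i j, w i j = w j i) {Δ : ℝ} (hΔ : 0 ≤ Δ)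
    (hdeg : ∀ i ∈ I, ∑ j ∈ I, w i j ≤ Δ)
    (hiso : ∀ A ⊆ I, 2 * A.card ≤ I.card → (A.card : ℝ) ≤ ∑ i ∈ A, ∑ j ∈ I \ A, w i j)
    (g : ι → ℝ) (hg : 2 * (I.filter fun i => g i ≠ 0).card ≤ I.card) :
    ∑ i ∈ I, g i ^ 2 ≤ Δ * ∑ i ∈ I, ∑ j ∈ I, w i j * (g i - g j) ^ 2 := by
  have hsupp : (I.filter fun i => g i ^ 2 ≠ 0) = I.filter fun i => g i ≠ 0 := by
    refine filter_congr fun i _ => ?_
    simp
  have h1 := coarea I w hiso _ (fun i => g i ^ 2) (fun i => sq_nonneg _) rfl (by
    rw [hsupp]; exact hg)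
  have hsym : ∑ i ∈ I, ∑ j ∈ I, w i j * (g i ^ 2 - g j ^ 2) = 0 := by
    have e : ∑ i ∈ I, ∑ j ∈ I, w i j * (g i ^ 2 - g j ^ 2) =
        ∑ i ∈ I, ∑ j ∈ I, w i j * (g j ^ 2 - g i ^ 2) := by
      rw [sum_comm]
      refine sum_congr rfl fun i _ => sum_congr rfl fun j _ => ?_
      rw [hs j i]
    have e2 : ∑ i ∈ I, ∑ j ∈ I, w i j * (g i ^ 2 - g j ^ 2) +
        ∑ i ∈ I, ∑ j ∈ I, w i j * (g j ^ 2 - g i ^ 2) = 0 := by
      rw [← sum_add_distrib]
      refine sum_eq_zero fun i _ => ?_
      rw [← sum_add_distrib]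
      refine sum_eq_zero fun j _ => by ring
    linarith
  have h2 : ∑ i ∈ I, ∑ j ∈ I, w i j * max (g i ^ 2 - g j ^ 2) 0 =
      (1 / 2) * ∑ i ∈ I, ∑ j ∈ I, w i j * |g i ^ 2 - g j ^ 2| := by
    have e : ∑ i ∈ I, ∑ j ∈ I, w i j * max (g i ^ 2 - g j ^ 2) 0 =
        ∑ i ∈ I, ∑ j ∈ I, ((1 / 2) * (w i j * |g i ^ 2 - g j ^ 2|) +
          (1 / 2) * (w i j * (g i ^ 2 - g j ^ 2))) := by
      refine sum_congr rfl fun i _ => sum_congr rfl fun j _ => ?_
      rcases le_total 0 (g i ^ 2 - g j ^ 2) with h | h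
      · rw [max_eq_left h, abs_of_nonneg h]; ring
      · rw [max_eq_right h, abs_of_nonpos h]; ring
    rw [e]
    simp only [sum_add_distrib, ← mul_sum]
    rw [hsym]; ring
  set S := ∑ i ∈ I, g i ^ 2 with hS
  set E := ∑ i ∈ I, ∑ j ∈ I, w i j * (g i - g j) ^ 2 with hE
  have hE0 : 0 ≤ E := sum_nonneg fun i _ => sum_nonneg fun j _ => mul_nonneg (hw i j) (sq_nonneg _)
  rcases hΔ.lt_or_eq with hpos | hz
  · have hkey : ∑ i ∈ I, ∑ j ∈ I, w i j * |g i ^ 2 - g j ^ 2| ≤
        Δ * E + (1 / (2 * Δ)) * ∑ i ∈ I, ∑ j ∈ I, w i j * (g i ^ 2 + g j ^ 2) := by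
      rw [hE, mul_sum, mul_sum, ← sum_add_distrib]
      refine sum_le_sum fun i _ => ?_
      rw [mul_sum, mul_sum, ← sum_add_distrib]
      refine sum_le_sum fun j _ => ?_
      have e : |g i ^ 2 - g j ^ 2| ≤ Δ * (g i - g j) ^ 2 + (1 / (2 * Δ)) * (g i ^ 2 + g j ^ 2) := by
        have e1 : g i ^ 2 - g j ^ 2 = (g i - g j) * (g i + g j) := by ring
        have e2 : (g i + g j) ^ 2 ≤ 2 * (g i ^ 2 + g j ^ 2) := by nlinarith [sq_nonneg (g i - g j)]
        have e3 : |g i - g j| * |g i + g j| ≤ Δ * (g i - g j) ^ 2 +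
            (1 / (4 * Δ)) * (g i + g j) ^ 2 := by
          rw [← sq_abs (g i - g j), ← sq_abs (g i + g j)]
          have h4 : 0 ≤ (2 * Δ * |g i - g j| - |g i + g j|) ^ 2 / (4 * Δ) := by positivity
          have h5 : (2 * Δ * |g i - g j| - |g i + g j|) ^ 2 / (4 * Δ) = Δ * |g i - g j| ^ 2 +
            (1 / (4 * Δ)) * |g i + g j| ^ 2 - |g i - g j| * |g i + g j| := by
            field_simp
            ring
          linarith
        rw [e1, abs_mul]
        have e4 : (1 / (4 * Δ)) * (g i + g j) ^ 2 ≤ (1 / (2 * Δ)) * (g i ^ 2 + g j ^ 2) := by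
          have : (1 / (4 * Δ)) * (g i + g j) ^ 2 ≤ (1 / (4 * Δ)) * (2 * (g i ^ 2 + g j ^ 2)) :=
            mul_le_mul_of_nonneg_left e2 (by positivity)
          have e5 : (1 / (4 * Δ)) * (2 * (g i ^ 2 + g j ^ 2)) =
            (1 / (2 * Δ)) * (g i ^ 2 + g j ^ 2) := by field_simp; ring
          linarith
        linarith
      calc w i j * |g i ^ 2 - g j ^ 2| ≤ w i j * (Δ * (g i - g j) ^ 2 +
            (1 / (2 * Δ)) * (g i ^ 2 + g j ^ 2)) := mul_le_mul_of_nonneg_left e (hw i j)
        _ = _ := by ring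
    have hdeg2 : ∑ i ∈ I, ∑ j ∈ I, w i j * (g i ^ 2 + g j ^ 2) ≤ 2 * Δ * S := by
      have e1 : ∑ i ∈ I, ∑ j ∈ I, w i j * g j ^ 2 = ∑ i ∈ I, ∑ j ∈ I, w i j * g i ^ 2 := by
        rw [sum_comm]
        exact sum_congr rfl fun i _ => sum_congr rfl fun j _ => by rw [hs j i]
      have e2 : ∑ i ∈ I, ∑ j ∈ I, w i j * g i ^ 2 ≤ Δ * S := by
        rw [hS, mul_sum]
        refine sum_le_sum fun i hi => ?_
        rw [← sum_mul]
        exact mul_le_mul_of_nonneg_right (hdeg i hi) (sq_nonneg _)
      simp only [mul_add, sum_add_distrib]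
      rw [e1]; linarith
    rw [h2] at h1
    have h3 : (1 / (2 * Δ)) * ∑ i ∈ I, ∑ j ∈ I, w i j * (g i ^ 2 + g j ^ 2) ≤
        (1 / (2 * Δ)) * (2 * Δ * S) := mul_le_mul_of_nonneg_left hdeg2 (by positivity)
    have h4 : (1 / (2 * Δ)) * (2 * Δ * S) = S := by field_simp
    linarith
  · have hw0 : ∀ i ∈ I, ∀ j ∈ I, w i j = 0 := by
      intro i hi j hj
      have h3 := hdeg i hi
      rw [← hz] at h3
      have h4 := single_le_sum (f := fun j => w i j) (fun j _ => hw i j) hj
      exact le_antisymm (by simpa using h4.trans h3) (hw i j)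
    have h3 : ∑ i ∈ I, ∑ j ∈ I, w i j * max (g i ^ 2 - g j ^ 2) 0 = 0 :=
      sum_eq_zero fun i hi => sum_eq_zero fun j hj => by rw [hw0 i hi j hj, zero_mul]
    rw [h3] at h1
    rw [← hz, zero_mul]
    exact h1

omit [DecidableEq ι] in
theorem exists_median (I : Finset ι) (F : ι → ℝ) : ∃ c : ℝ,
    2 * (I.filter fun i => c < F i).card ≤ I.card ∧ 2 * (I.filter fun i => F i < c).card ≤ I.card := by
  rcases I.eq_empty_or_nonempty with rfl | hI
  · exact ⟨0, by simp, by simp⟩
  set T := (I.image F).filter fun c => 2 * (I.filter fun i => c < F i).card ≤ I.card with hT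
  have hTn : T.Nonempty := by
    obtain ⟨i0, hi0, hmax⟩ := I.exists_max_image F hI
    refine ⟨F i0, ?_⟩
    rw [hT, mem_filter]
    refine ⟨mem_image_of_mem _ hi0, ?_⟩
    have : (I.filter fun i => F i0 < F i) = ∅ := by
      refine filter_eq_empty_iff.2 fun i hi => not_lt.2 (hmax i hi)
    rw [this]; simp
  set c := T.min' hTn with hc
  have hcT : c ∈ T := T.min'_mem hTn
  refine ⟨c, (mem_filter.1 hcT).2, ?_⟩
  by_contra hcon
  rw [not_le] at hcon
  have hne : (I.filter fun i => F i < c).Nonempty := by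
    rw [← card_pos]; omega
  obtain ⟨i1, hi1, hmax⟩ := (I.filter fun i => F i < c).exists_max_image F hne
  have hi1' := mem_filter.1 hi1
  have h1 : (I.filter fun i => F i1 < F i) = I.filter fun i => ¬ F i < c := by
    refine filter_congr fun i hi => ?_
    constructor
    · intro h hlt
      exact absurd (hmax i (mem_filter.2 ⟨hi, hlt⟩)) (not_le.2 h)
    · intro h
      exact lt_of_lt_of_le hi1'.2 (not_lt.1 h)
  have h2 := card_filter_add_card_filter_not (s := I) (fun i => F i < c)
  have h3 : F i1 ∈ T := by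
    rw [hT, mem_filter]
    refine ⟨mem_image_of_mem _ hi1'.1, ?_⟩
    rw [h1]; omega
  exact absurd (T.min'_le _ h3) (not_le.2 hi1'.2)

end Cheeger

open Cheeger in
/-- L2 Cheeger inequality with bounded degree -/
theorem cheeger {ι : Type} [DecidableEq ι] (I : Finset ι) (w : ι → ι → ℝ)
    (hw : ∀ i j, 0 ≤ w i j) (hs : ∀ i j, w i j = w j i) {Δ : ℝ} (hΔ : 0 ≤ Δ)
    (hdeg : ∀ i ∈ I, ∑ j ∈ I, w i j ≤ Δ)
    (hiso : ∀ A ⊆ I, 2 * A.card ≤ I.card → (A.card : ℝ) ≤ ∑ i ∈ A, ∑ j ∈ I \ A, w i j)
    (F : ι → ℝ) :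
    ∃ c : ℝ, ∑ i ∈ I, (F i - c) ^ 2 ≤ Δ * ∑ i ∈ I, ∑ j ∈ I, w i j * (F i - F j) ^ 2 := by
  obtain ⟨c, hc1, hc2⟩ := exists_median I F
  refine ⟨c, ?_⟩
  set g : ι → ℝ := fun i => max (F i - c) 0 with hg
  set g' : ι → ℝ := fun i => max (c - F i) 0 with hg'
  have e1 : (I.filter fun i => g i ≠ 0) = I.filter fun i => c < F i := by
    refine filter_congr fun i _ => ?_
    simp only [hg]
    constructor
    · intro h
      by_contra hcon
      exact h (max_eq_right (by linarith))
    · intro h
      rw [max_eq_left (by linarith)]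
      linarith
  have e2 : (I.filter fun i => g' i ≠ 0) = I.filter fun i => F i < c := by
    refine filter_congr fun i _ => ?_
    simp only [hg']
    constructor
    · intro h
      by_contra hcon
      exact h (max_eq_right (by linarith))
    · intro h
      rw [max_eq_left (by linarith)]
      linarith
  have h1 := step1 I w hw hs hΔ hdeg hiso g (by rw [e1]; exact hc1)
  have h2 := step1 I w hw hs hΔ hdeg hiso g' (by rw [e2]; exact hc2)
  have h3 : ∑ i ∈ I, (F i - c) ^ 2 = ∑ i ∈ I, g i ^ 2 + ∑ i ∈ I, g' i ^ 2 := by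
    rw [← sum_add_distrib]
    refine sum_congr rfl fun i _ => ?_
    simp only [hg, hg']
    rcases le_total c (F i) with h | h
    · rw [max_eq_left (by linarith), max_eq_right (by linarith)]; ring
    · rw [max_eq_right (by linarith), max_eq_left (by linarith)]; ring
  have h4 : ∑ i ∈ I, ∑ j ∈ I, w i j * (g i - g j) ^ 2 + ∑ i ∈ I, ∑ j ∈ I, w i j * (g' i - g' j) ^ 2 ≤
      ∑ i ∈ I, ∑ j ∈ I, w i j * (F i - F j) ^ 2 := by
    rw [← sum_add_distrib]
    refine sum_le_sum fun i _ => ?_
    rw [← sum_add_distrib]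
    refine sum_le_sum fun j _ => ?_
    rw [← mul_add]
    refine mul_le_mul_of_nonneg_left ?_ (hw i j)
    simp only [hg, hg']
    rcases le_total c (F i) with h | h <;> rcases le_total c (F j) with h' | h'
    · rw [max_eq_left (by linarith : (0 : ℝ) ≤ F i - c), max_eq_right (by linarith : c - F i ≤ 0),
        max_eq_left (by linarith : (0 : ℝ) ≤ F j - c), max_eq_right (by linarith : c - F j ≤ 0)]
      nlinarith
    · rw [max_eq_left (by linarith : (0 : ℝ) ≤ F i - c), max_eq_right (by linarith : c - F i ≤ 0),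
        max_eq_right (by linarith : F j - c ≤ 0), max_eq_left (by linarith : (0 : ℝ) ≤ c - F j)]
      nlinarith
    · rw [max_eq_right (by linarith : F i - c ≤ 0), max_eq_left (by linarith : (0 : ℝ) ≤ c - F i),
        max_eq_left (by linarith : (0 : ℝ) ≤ F j - c), max_eq_right (by linarith : c - F j ≤ 0)]
      nlinarith
    · rw [max_eq_right (by linarith : F i - c ≤ 0), max_eq_left (by linarith : (0 : ℝ) ≤ c - F i),
        max_eq_right (by linarith : F j - c ≤ 0), max_eq_left (by linarith : (0 : ℝ) ≤ c - F j)]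
      nlinarith
  rw [h3]
  have := mul_le_mul_of_nonneg_left h4 hΔ
  linarith

end Pool.Agent.TH972.U
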