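import Pool.Agent.TH972.U.BDef
import Pool.Agent.TH972.U.Cheeger
set_option autoImplicit false
set_option linter.unusedSectionVars false
namespace Pool.Agent.TH972.U
open Finset
noncomputable section
variable {V : Type} [Fintype V] [DecidableEq V]

namespace Block

lemma EnIn_nn {κ : Sym2 V → ℝ} (hκ : ∀ e, 0 < κ e) (W : Finset V) (f : V → ℝ) :
    0 ≤ EnIn κ W f := by
  unfold EnIn
  have : 0 ≤ ∑ x ∈ W, ∑ y ∈ W, Kc κ x y * (f x - f y) ^ 2 :=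
    sum_nonneg fun x _ => sum_nonneg fun y _ =>
      mul_nonneg (Kc_nonneg (fun e => (hκ e).le) x y) (sq_nonneg _)
  linarith

/-- double sums over pairwise disjoint sets -/
lemma dsum_le {G : Finset V} {I : Finset (Finset V)} (hsub : ∀ S ∈ I, S ⊆ G)
    (hd : ∀ S ∈ I, ∀ S' ∈ I, S ≠ S' → Disjoint S S') (T : V → V → ℝ) (hT : ∀ x y, 0 ≤ T x y) :
    ∑ S ∈ I, ∑ S' ∈ I, ∑ x ∈ S, ∑ y ∈ S', T x y ≤ ∑ x ∈ G, ∑ y ∈ G, T x y := by
  have hpd : (I : Set (Finset V)).PairwiseDisjoint id := fun S hS S' hS' h => hd S hS S' hS' h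
  have e1 : ∑ S ∈ I, ∑ S' ∈ I, ∑ x ∈ S, ∑ y ∈ S', T x y =
      ∑ x ∈ I.biUnion id, ∑ y ∈ I.biUnion id, T x y := by
    rw [sum_biUnion hpd]
    refine sum_congr rfl fun S _ => ?_
    rw [sum_comm]
    refine sum_congr rfl fun x _ => ?_
    rw [sum_biUnion hpd]
    rfl
  rw [e1]
  have hs : I.biUnion id ⊆ G := by
    intro x hx
    obtain ⟨S, hS, hx⟩ := mem_biUnion.1 hx
    exact hsub S hS hx
  calc ∑ x ∈ I.biUnion id, ∑ y ∈ I.biUnion id, T x y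
      ≤ ∑ x ∈ I.biUnion id, ∑ y ∈ G, T x y :=
        sum_le_sum fun x _ => sum_le_sum_of_subset_of_nonneg hs fun y _ _ => hT x y
    _ ≤ ∑ x ∈ G, ∑ y ∈ G, T x y :=
        sum_le_sum_of_subset_of_nonneg hs fun x _ _ => sum_nonneg fun y _ => hT x y

lemma mem_cmp {G : SimpleGraph V} {u v : V} : u ∈ cmp G v ↔ G.Reachable v u := by
  unfold cmp
  simp

lemma cmp_eq {G : SimpleGraph V} {u v : V} (h : G.Reachable v u) : cmp G u = cmp G v := by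
  ext z
  rw [mem_cmp, mem_cmp]
  exact ⟨fun k => h.trans k, fun k => h.symm.trans k⟩

lemma blk_mem {G : SimpleGraph V} {s0 : ℕ} {S : Finset V} (hS : S ∈ blks G s0) :
    ∃ v, v ∈ gd G s0 ∧ S = cmp G v := by
  unfold blks at hS
  obtain ⟨v, hv, rfl⟩ := mem_image.1 hS
  exact ⟨v, hv, rfl⟩

lemma blk_sub {G : SimpleGraph V} {s0 : ℕ} {S : Finset V} (hS : S ∈ blks G s0) :
    S ⊆ gd G s0 := by
  obtain ⟨v, hv, rfl⟩ := blk_mem hS
  intro z hz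
  unfold gd at hv ⊢
  rw [mem_filter] at hv ⊢
  refine ⟨mem_univ _, ?_⟩
  rw [cmp_eq (mem_cmp.1 hz)]
  exact hv.2

lemma blk_disj {G : SimpleGraph V} {s0 : ℕ} {S S' : Finset V} (hS : S ∈ blks G s0)
    (hS' : S' ∈ blks G s0) (h : S ≠ S') : Disjoint S S' := by
  obtain ⟨v, hv, rfl⟩ := blk_mem hS
  obtain ⟨w, hw, rfl⟩ := blk_mem hS'
  rw [disjoint_left]
  intro z hz hz'
  apply h
  rw [← cmp_eq (mem_cmp.1 hz), ← cmp_eq (mem_cmp.1 hz')]

lemma blk_rin {G : SimpleGraph V} {s0 : ℕ} {S : Finset V} (hS : S ∈ blks G s0) {u w : V}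
    (hu : u ∈ S) (hw : w ∈ S) : rin G S u w := by
  classical
  obtain ⟨v, hv, rfl⟩ := blk_mem hS
  have hu' := mem_cmp.1 hu
  have hw' := mem_cmp.1 hw
  obtain ⟨p⟩ := hu'.symm.trans hw'
  refine ⟨p, fun z hz => ?_⟩
  rw [mem_cmp]
  exact hu'.trans ⟨p.takeUntil z hz⟩

lemma nE_nn (κ : Sym2 V → ℝ) (cn : ℝ) (S S' : Finset V) : 0 ≤ nE κ cn S S' := by
  unfold nE
  positivity

lemma nE_symm (κ : Sym2 V → ℝ) (cn : ℝ) (S S' : Finset V) : nE κ cn S S' = nE κ cn S' S := by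
  classical
  unfold nE
  norm_cast
  refine card_bij' (fun q _ => (q.2, q.1)) (fun q _ => (q.2, q.1)) ?_ ?_ ?_ ?_
  · intro q hq
    simp only [mem_filter, mem_product] at hq ⊢
    exact ⟨⟨hq.1.2, hq.1.1⟩, by rw [Kc_symm]; exact hq.2⟩
  · intro q hq
    simp only [mem_filter, mem_product] at hq ⊢
    exact ⟨⟨hq.1.2, hq.1.1⟩, by rw [Kc_symm]; exact hq.2⟩
  · intro q _
    rfl
  · intro q _
    rfl

/-- bound for one pair of blocks -/
lemma pair_bound {κ : Sym2 V → ℝ} (hκ : ∀ e, 0 < κ e) {cn : ℝ} (hcn : 0 < cn)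
    (S S' : Finset V) (f : V → ℝ) (a b A B : ℝ)
    (hA : ∀ x ∈ S, (a - f x) ^ 2 ≤ A) (hB : ∀ y ∈ S', (f y - b) ^ 2 ≤ B) :
    nE κ cn S S' * (a - b) ^ 2 ≤ nE κ cn S S' * (3 * (A + B)) +
      (3 / cn) * ∑ x ∈ S, ∑ y ∈ S', Kc κ x y * (f x - f y) ^ 2 := by
  classical
  have hT : ∀ x y, 0 ≤ Kc κ x y * (f x - f y) ^ 2 := fun x y =>
    mul_nonneg (Kc_nonneg (fun e => (hκ e).le) x y) (sq_nonneg _)
  set P := (S ×ˢ S').filter (fun q => cn ≤ Kc κ q.1 q.2) with hP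
  have hn : nE κ cn S S' = ∑ _q ∈ P, (1 : ℝ) := by
    unfold nE
    rw [sum_const, nsmul_eq_mul, mul_one, hP]
  rw [hn, sum_mul, sum_mul]
  have h1 : (3 / cn) * ∑ q ∈ P, Kc κ q.1 q.2 * (f q.1 - f q.2) ^ 2 ≤
      (3 / cn) * ∑ x ∈ S, ∑ y ∈ S', Kc κ x y * (f x - f y) ^ 2 := by
    have : ∑ q ∈ P, Kc κ q.1 q.2 * (f q.1 - f q.2) ^ 2 ≤
        ∑ x ∈ S, ∑ y ∈ S', Kc κ x y * (f x - f y) ^ 2 := by
      rw [← sum_product']
      exact sum_le_sum_of_subset_of_nonneg (filter_subset _ _) fun q _ _ => hT _ _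
    exact mul_le_mul_of_nonneg_left this (by positivity)
  refine le_trans ?_ (add_le_add_right h1 _)
  rw [mul_sum, ← sum_add_distrib]
  refine sum_le_sum fun q hq => ?_
  rw [hP, mem_filter, mem_product] at hq
  have h2 := hA q.1 hq.1.1
  have h3 := hB q.2 hq.1.2
  have h4 : (f q.1 - f q.2) ^ 2 ≤ 1 / cn * (Kc κ q.1 q.2 * (f q.1 - f q.2) ^ 2) := by
    rw [← mul_assoc]
    have h5 : 1 ≤ 1 / cn * Kc κ q.1 q.2 := by
      rw [one_div, inv_mul_eq_div, le_div_iff₀ hcn, one_mul]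
      exact hq.2
    nlinarith [sq_nonneg (f q.1 - f q.2)]
  have h6 : (a - b) ^ 2 ≤ 3 * ((a - f q.1) ^ 2 + (f q.1 - f q.2) ^ 2 + (f q.2 - b) ^ 2) := by
    nlinarith [sq_nonneg ((a - f q.1) - (f q.1 - f q.2)), sq_nonneg ((a - f q.1) - (f q.2 - b)),
      sq_nonneg ((f q.1 - f q.2) - (f q.2 - b))]
  have h7 : 3 / cn * (Kc κ q.1 q.2 * (f q.1 - f q.2) ^ 2) =
      3 * (1 / cn * (Kc κ q.1 q.2 * (f q.1 - f q.2) ^ 2)) := by ring
  rw [h7]
  linarith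

end Block

open Block in
/-- Poincare inequality for the blocks from the isoperimetry of the block graph -/
theorem block_poinc {κ : Sym2 V → ℝ} (hκ : ∀ e, 0 < κ e) (Hb : SimpleGraph V) (s0 : ℕ)
    (hs0 : 1 ≤ s0) {ρb cn Δ : ℝ} (hρ : 0 < ρb) (hcn : 0 < cn) (hΔ : 0 ≤ Δ)
    (path : ∀ (W : Finset V) (u v : V), rin Hb W u v → ∀ f : V → ℝ,
      (f u - f v) ^ 2 ≤ ρb * EnIn κ W f)
    (hdeg : ∀ S ∈ blks Hb s0, ∑ S' ∈ (blks Hb s0).erase S, nE κ cn S S' ≤ Δ)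
    (hiso : ∀ bs : Finset V, (bs = ∅ ∨ bs ∈ blks Hb s0) → ∀ A ⊆ (blks Hb s0).erase bs,
      2 * A.card ≤ (blks Hb s0).card →
        (A.card : ℝ) ≤ ∑ S ∈ A, ∑ S' ∈ ((blks Hb s0).erase bs) \ A, nE κ cn S S')
    (bs : Finset V) (hbs : bs = ∅ ∨ bs ∈ blks Hb s0) (f : V → ℝ) :
    ∃ c : ℝ, ∀ rep : Finset V → V, (∀ S ∈ blks Hb s0, rep S ∈ S) →
      ∑ S ∈ (blks Hb s0).erase bs, (f (rep S) - c) ^ 2 ≤
        (2 * ρb + 12 * Δ * (Δ * ρb + 1 / cn)) * EnIn κ (gd Hb s0 \ bs) f := by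
  classical
  by_cases hex : ∃ r0 : Finset V → V, ∀ S ∈ blks Hb s0, r0 S ∈ S
  swap
  · exact ⟨0, fun rep hrep => (hex ⟨rep, hrep⟩).elim⟩
  obtain ⟨r0, hr0⟩ := hex
  set I := (blks Hb s0).erase bs with hI
  have hIb : ∀ S ∈ I, S ∈ blks Hb s0 := fun S hS => mem_of_mem_erase hS
  have hT : ∀ x y, 0 ≤ Kc κ x y * (f x - f y) ^ 2 := fun x y =>
    mul_nonneg (Kc_nonneg (fun e => (hκ e).le) x y) (sq_nonneg _)
  have hsub : ∀ S ∈ I, S ⊆ gd Hb s0 \ bs := by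
    intro S hS x hx
    rw [mem_sdiff]
    refine ⟨blk_sub (hIb S hS) hx, fun hxb => ?_⟩
    rcases hbs with rfl | hb
    · simp at hxb
    · exact (disjoint_left.1 (blk_disj (hIb S hS) hb (ne_of_mem_erase hS)) hx) hxb
  have hdisj : ∀ S ∈ I, ∀ S' ∈ I, S ≠ S' → Disjoint S S' := fun S hS S' hS' h =>
    blk_disj (hIb S hS) (hIb S' hS') h
  set EG := EnIn κ (gd Hb s0 \ bs) f with hEG
  have hEG2 : ∑ x ∈ gd Hb s0 \ bs, ∑ y ∈ gd Hb s0 \ bs, Kc κ x y * (f x - f y) ^ 2 = 2 * EG := by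
    rw [hEG]
    unfold EnIn
    ring
  have hds := dsum_le hsub hdisj (fun x y => Kc κ x y * (f x - f y) ^ 2) hT
  rw [hEG2] at hds
  have hnn : ∀ S S' : Finset V, 0 ≤ ∑ x ∈ S, ∑ y ∈ S', Kc κ x y * (f x - f y) ^ 2 :=
    fun S S' => sum_nonneg fun x _ => sum_nonneg fun y _ => hT x y
  have hsumE : ∑ S ∈ I, EnIn κ S f ≤ EG := by
    have h1 : ∑ S ∈ I, (2 * EnIn κ S f) ≤
        ∑ S ∈ I, ∑ S' ∈ I, ∑ x ∈ S, ∑ y ∈ S', Kc κ x y * (f x - f y) ^ 2 := by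
      refine sum_le_sum fun S hS => ?_
      have h2 : 2 * EnIn κ S f = ∑ x ∈ S, ∑ y ∈ S, Kc κ x y * (f x - f y) ^ 2 := by
        unfold EnIn
        ring
      rw [h2]
      exact single_le_sum (f := fun S' => ∑ x ∈ S, ∑ y ∈ S', Kc κ x y * (f x - f y) ^ 2)
        (fun S' _ => hnn S S') hS
    rw [← mul_sum] at h1
    linarith
  set w : Finset V → Finset V → ℝ := fun S S' => if S = S' then 0 else nE κ cn S S' with hw
  have hw0 : ∀ S S', 0 ≤ w S S' := by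
    intro S S'
    rw [hw]
    dsimp only
    split_ifs
    · exact le_rfl
    · exact nE_nn _ _ _ _
  have hws : ∀ S S', w S S' = w S' S := by
    intro S S'
    rw [hw]
    dsimp only
    by_cases h : S = S'
    · rw [if_pos h, if_pos h.symm]
    · rw [if_neg h, if_neg (Ne.symm h), nE_symm]
  have hwle : ∀ S S', w S S' ≤ nE κ cn S S' := by
    intro S S'
    rw [hw]
    dsimp only
    split_ifs
    · exact nE_nn _ _ _ _
    · exact le_rfl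
  have hwdeg : ∀ S ∈ I, ∑ S' ∈ I, w S S' ≤ Δ := by
    intro S hS
    calc ∑ S' ∈ I, w S S' = ∑ S' ∈ I.erase S, w S S' := by
          rw [← add_sum_erase I (fun S' => w S S') hS]
          simp [hw]
      _ ≤ ∑ S' ∈ I.erase S, nE κ cn S S' := sum_le_sum fun S' _ => hwle S S'
      _ ≤ ∑ S' ∈ (blks Hb s0).erase S, nE κ cn S S' :=
          sum_le_sum_of_subset_of_nonneg (erase_subset_erase _ (erase_subset _ _))
            fun S' _ _ => nE_nn _ _ _ _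
      _ ≤ Δ := hdeg S (hIb S hS)
  have hwiso : ∀ A ⊆ I, 2 * A.card ≤ I.card → (A.card : ℝ) ≤ ∑ i ∈ A, ∑ j ∈ I \ A, w i j := by
    intro A hA hc
    have h1 := hiso bs hbs A hA (hc.trans (card_le_card (erase_subset _ _)))
    refine h1.trans (le_of_eq ?_)
    refine sum_congr rfl fun S hS => sum_congr rfl fun S' hS' => ?_
    rw [hw]
    dsimp only
    rw [if_neg]
    rintro rfl
    exact (mem_sdiff.1 hS').2 hS
  obtain ⟨c, hc⟩ := cheeger I w hw0 hws hΔ hwdeg hwiso (fun S => f (r0 S))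
  refine ⟨c, fun rep hrep => ?_⟩
  have hpath : ∀ S ∈ I, ∀ u ∈ S, ∀ v ∈ S, (f u - f v) ^ 2 ≤ ρb * EnIn κ S f :=
    fun S hS u hu v hv => path S u v (blk_rin (hIb S hS) hu hv) f
  have hmain : ∑ S ∈ I, ∑ S' ∈ I, w S S' * (f (r0 S) - f (r0 S')) ^ 2 ≤
      (6 * Δ * ρb + 6 / cn) * EG := by
    have h1 : ∀ S ∈ I, ∀ S' ∈ I, w S S' * (f (r0 S) - f (r0 S')) ^ 2 ≤
        3 * ρb * (w S S' * EnIn κ S f) + 3 * ρb * (w S' S * EnIn κ S' f) +
          (3 / cn) * ∑ x ∈ S, ∑ y ∈ S', Kc κ x y * (f x - f y) ^ 2 := by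
      intro S hS S' hS'
      by_cases h : S = S'
      · have : w S S' = 0 := by
          rw [hw]
          dsimp only
          rw [if_pos h]
        rw [this, zero_mul]
        have h2 : 0 ≤ (3 / cn) * ∑ x ∈ S, ∑ y ∈ S', Kc κ x y * (f x - f y) ^ 2 :=
          mul_nonneg (by positivity) (hnn S S')
        have h3 : 0 ≤ w S' S * EnIn κ S' f := mul_nonneg (hw0 _ _) (EnIn_nn hκ _ _)
        have h4 : 0 ≤ 3 * ρb * (w S' S * EnIn κ S' f) := by positivity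
        linarith
      · have e1 : w S S' = nE κ cn S S' := by
          rw [hw]
          dsimp only
          rw [if_neg h]
        have e2 : w S' S = nE κ cn S S' := by rw [hws, e1]
        rw [e1, e2]
        have h2 := pair_bound hκ hcn S S' f (f (r0 S)) (f (r0 S')) (ρb * EnIn κ S f)
          (ρb * EnIn κ S' f) (fun x hx => hpath S hS _ (hr0 S (hIb S hS)) x hx)
          (fun y hy => hpath S' hS' y hy _ (hr0 S' (hIb S' hS')))
        refine h2.trans (le_of_eq ?_)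
        ring
    have h2 : ∑ S ∈ I, ∑ S' ∈ I, w S S' * EnIn κ S f ≤ Δ * EG := by
      calc ∑ S ∈ I, ∑ S' ∈ I, w S S' * EnIn κ S f
          = ∑ S ∈ I, (∑ S' ∈ I, w S S') * EnIn κ S f := by
            refine sum_congr rfl fun S _ => ?_
            rw [sum_mul]
        _ ≤ ∑ S ∈ I, Δ * EnIn κ S f := sum_le_sum fun S hS =>
            mul_le_mul_of_nonneg_right (hwdeg S hS) (EnIn_nn hκ _ _)
        _ = Δ * ∑ S ∈ I, EnIn κ S f := by rw [mul_sum]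
        _ ≤ Δ * EG := mul_le_mul_of_nonneg_left hsumE hΔ
    have h3 : ∑ S ∈ I, ∑ S' ∈ I, w S' S * EnIn κ S' f ≤ Δ * EG := by
      rw [sum_comm]
      exact h2
    calc ∑ S ∈ I, ∑ S' ∈ I, w S S' * (f (r0 S) - f (r0 S')) ^ 2
        ≤ ∑ S ∈ I, ∑ S' ∈ I, (3 * ρb * (w S S' * EnIn κ S f) +
            3 * ρb * (w S' S * EnIn κ S' f) +
            (3 / cn) * ∑ x ∈ S, ∑ y ∈ S', Kc κ x y * (f x - f y) ^ 2) :=
          sum_le_sum fun S hS => sum_le_sum fun S' hS' => h1 S hS S' hS'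
      _ = 3 * ρb * (∑ S ∈ I, ∑ S' ∈ I, w S S' * EnIn κ S f) +
            3 * ρb * (∑ S ∈ I, ∑ S' ∈ I, w S' S * EnIn κ S' f) +
            (3 / cn) * ∑ S ∈ I, ∑ S' ∈ I, ∑ x ∈ S, ∑ y ∈ S', Kc κ x y * (f x - f y) ^ 2 := by
          simp only [sum_add_distrib, mul_sum]
      _ ≤ 3 * ρb * (Δ * EG) + 3 * ρb * (Δ * EG) + (3 / cn) * (2 * EG) := by
          gcongr
      _ = (6 * Δ * ρb + 6 / cn) * EG := by ring
  have hEG0 : 0 ≤ EG := EnIn_nn hκ _ _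
  calc ∑ S ∈ I, (f (rep S) - c) ^ 2
      ≤ ∑ S ∈ I, (2 * (ρb * EnIn κ S f) + 2 * (f (r0 S) - c) ^ 2) := by
        refine sum_le_sum fun S hS => ?_
        have h1 := hpath S hS _ (hrep S (hIb S hS)) _ (hr0 S (hIb S hS))
        nlinarith [sq_nonneg ((f (rep S) - f (r0 S)) - (f (r0 S) - c))]
    _ = 2 * ρb * (∑ S ∈ I, EnIn κ S f) + 2 * ∑ S ∈ I, (f (r0 S) - c) ^ 2 := by
        simp only [sum_add_distrib, mul_sum, mul_assoc]
    _ ≤ 2 * ρb * EG + 2 * (Δ * ((6 * Δ * ρb + 6 / cn) * EG)) := by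
        have h1 : Δ * ∑ S ∈ I, ∑ S' ∈ I, w S S' * (f (r0 S) - f (r0 S')) ^ 2 ≤
            Δ * ((6 * Δ * ρb + 6 / cn) * EG) := mul_le_mul_of_nonneg_left hmain hΔ
        have h2 : 2 * ρb * (∑ S ∈ I, EnIn κ S f) ≤ 2 * ρb * EG :=
          mul_le_mul_of_nonneg_left hsumE (by positivity)
        linarith
    _ = (2 * ρb + 12 * Δ * (Δ * ρb + 1 / cn)) * EG := by ring

end
end Pool.Agent.TH972.U
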