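import Pool.Agent.TH972.U.Bush
import Pool.Agent.TH972.U.Lvl

/-!
# The bush exploration: probabilities
-/

set_option autoImplicit false
set_option linter.unusedSectionVars false

namespace Pool.Agent.TH972.U

open Finset MeasureTheory Pool.Agent.W842.RST Pool.Agent.TH972

noncomputable section

variable {n : ℕ}

namespace Bush2

open Bush

/-- the step of an item which reveals its neighbours -/
theorem step_le {pl pt pb : ℝ} {s1 s0 J : ℕ} (h0 : 0 ≤ pl) (hlt : pl ≤ pt) (h1 : pt ≤ 1)
    {v : Fin n} {F : Finset (Fin n)} {rest : List (Fin n × ℕ)} (hv : v ∉ F)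
    (hvr : ∀ w ∈ rest, w.1 ≠ v) (hr : ∀ w ∈ rest, w.1 ∉ F) (k h : ℕ)
    (G0 : Finset (Fin n) → Finset (Fin n) → Finset (Fin n) × Option (Fin n) → ℝ)
    {A x y : ℝ} (hA : 0 ≤ A) (hx : 0 ≤ x) (hy : 0 ≤ y)
    (hG : ∀ N H, N ⊆ F → H ⊆ F → Disjoint N H →
      Ex (fun U : Ev n => G0 N H (bsh pl pt pb s1 s0 J U k (nst N H h rest) (F \ (N ∪ H)))) ≤
        A * x ^ N.card * y ^ H.card) :
    Ex (fun U : Ev n => G0 (nbr pl U v F) (nbr pt U v F \ nbr pl U v F)
      (bsh pl pt pb s1 s0 J U k (nst (nbr pl U v F) (nbr pt U v F \ nbr pl U v F) h rest)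
        (F \ nbr pt U v F))) ≤
      A * (1 - pt + pl * x + (pt - pl) * y) ^ F.card := by
  classical
  set G : Finset (Fin n) → Finset (Fin n) → Ev n → ℝ := fun N H U =>
    if N ⊆ F ∧ H ⊆ F ∧ Disjoint N H then
      G0 N H (bsh pl pt pb s1 s0 J U k (nst N H h rest) (F \ (N ∪ H))) else 0 with hGdef
  have hkey := Ex_step hv h0 hlt h1 {pl, pt, pb} G ?_ ?_ hA hx hy ?_
  · refine le_trans (le_of_eq (Ex_congr fun U => ?_)) hkey
    have e1 : nbr pl U v F ∪ (nbr pt U v F \ nbr pl U v F) = nbr pt U v F :=
      union_sdiff_of_subset (nbr_mono hlt U v F)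
    rw [hGdef]
    simp only
    rw [if_pos ⟨nbr_subset _ _ _ _, sdiff_subset.trans (nbr_subset _ _ _ _), disjoint_sdiff⟩, e1]
  · intro N H U U' hU
    rw [hGdef]
    simp only
    rw [bsh_lvl (U := U) (U' := U') hU]
  · intro N H U U' hU
    rw [hGdef]
    simp only
    by_cases hc : N ⊆ F ∧ H ⊆ F ∧ Disjoint N H
    · rw [if_pos hc, if_pos hc]
      congr 1
      symm
      refine loc_coarse hlt k _ _ ?_ ?_
      · intro w hw hwF
        rw [mem_sdiff, mem_union] at hwF
        rcases mem_nst.1 hw with ⟨h3, -⟩ | ⟨h3, -⟩ | h3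
        · exact hwF.2 (Or.inl h3)
        · exact hwF.2 (Or.inr h3)
        · exact hr w h3 hwF.1
      · intro a ha b hb p _
        have hb' : b ∈ F := sdiff_subset hb
        have hbv : b ≠ v := fun e => hv (e ▸ hb')
        have hav : a ≠ v := by
          rcases ha with ⟨w, hw, rfl⟩ | ha
          · rcases mem_nst.1 hw with ⟨h3, -⟩ | ⟨h3, -⟩ | h3
            · exact fun e => hv (e ▸ hc.1 h3)
            · exact fun e => hv (e ▸ hc.2.1 h3)
            · exact hvr w h3
          · exact fun e => hv (e ▸ sdiff_subset ha)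
        rw [hU s(a, b) (by
          rw [Sym2.mem_iff]
          rintro (e | e)
          · exact hav e.symm
          · exact hbv e.symm)]
    · rw [if_neg hc, if_neg hc]
  · intro N H hN hH hNH
    have : G N H = fun U : Ev n =>
        G0 N H (bsh pl pt pb s1 s0 J U k (nst N H h rest) (F \ (N ∪ H))) := by
      funext U
      rw [hGdef]
      simp only
      rw [if_pos ⟨hN, hH, hNH⟩]
    rw [this]
    exact hG N H hN hH hNH

/-- the step of an item which is tested -/
theorem test_le {pl pt pb : ℝ} {s1 s0 J : ℕ} (hlt : pl ≤ pt)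
    {v : Fin n} {F : Finset (Fin n)} {rest : List (Fin n × ℕ)} (hv : v ∉ F)
    (hvr : ∀ w ∈ rest, w.1 ≠ v) (hr : ∀ w ∈ rest, w.1 ∉ F) (k : ℕ)
    (K1 : Ev n → ℝ) (hK0 : ∀ U, 0 ≤ K1 U) (hK1 : ∀ U U', lvlEq {pl, pt, pb} U U' → K1 U = K1 U')
    (hK2 : ∀ U U' : Ev n, (∀ e, (∃ a ∈ rch pb U {v} F, a ∈ e) → U e = U' e) → K1 U' = K1 U)
    (G : Finset (Fin n) → Finset (Fin n) × Option (Fin n) → ℝ) {B : ℝ}
    (hG : ∀ Z, Z ⊆ insert v F → v ∈ Z →
      Ex (fun U : Ev n => G Z (bsh pl pt pb s1 s0 J U k rest (F \ Z))) ≤ B) :
    Ex (fun U : Ev n => K1 U * G (rch pb U {v} F)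
      (bsh pl pt pb s1 s0 J U k rest (F \ rch pb U {v} F))) ≤ Ex K1 * B := by
  classical
  have hdis : Disjoint {v} F := by rwa [disjoint_singleton_left]
  have hins : ∀ U : Ev n, rch pb U {v} F ∈ (insert v F).powerset := fun U => by
    rw [mem_powerset]
    have := rch_subset pb U {v} F
    rwa [← insert_eq] at this
  have hrl : ∀ U U' : Ev n, lvlEq {pl, pt, pb} U U' → rch pb U {v} F = rch pb U' {v} F := by
    intro U U' h
    refine rch_lvl pb {v} F fun e q hq => ?_
    rw [mem_singleton] at hq
    rw [hq]
    exact h e pb (by simp)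
  have hloc : ∀ U U' : Ev n, (∀ e, (∃ a ∈ rch pb U {v} F, a ∈ e) → U e = U' e) →
      rch pb U' {v} F = rch pb U {v} F := by
    intro U U' h
    refine rch_local pb hdis fun a ha b _ => ?_
    rw [h s(a, b) ⟨a, ha, Sym2.mem_mk_left a b⟩]
  have e1 : ∀ U : Ev n, K1 U * G (rch pb U {v} F)
      (bsh pl pt pb s1 s0 J U k rest (F \ rch pb U {v} F)) =
      ∑ Z ∈ (insert v F).powerset, (ind (rch pb U {v} F = Z) * K1 U) *
        G Z (bsh pl pt pb s1 s0 J U k rest (F \ Z)) := by
    intro U
    rw [Finset.sum_eq_single_of_mem _ (hins U)]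
    · rw [ind_true rfl, one_mul]
    · intro Z _ hZ
      rw [ind_false (Ne.symm hZ), zero_mul, zero_mul]
  have e2 : ∀ U : Ev n, K1 U = ∑ Z ∈ (insert v F).powerset, ind (rch pb U {v} F = Z) * K1 U := by
    intro U
    rw [Finset.sum_eq_single_of_mem _ (hins U)]
    · rw [ind_true rfl, one_mul]
    · intro Z _ hZ
      rw [ind_false (Ne.symm hZ), zero_mul]
  have hBM1 : ∀ Z : Finset (Fin n), BM (fun U : Ev n => ind (rch pb U {v} F = Z) * K1 U) := by
    intro Z
    refine BM_lvl {pl, pt, pb} fun U U' h => ?_
    rw [hrl U U' h, hK1 U U' h]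
  have hBM2 : ∀ Z : Finset (Fin n), BM (fun U : Ev n =>
      G Z (bsh pl pt pb s1 s0 J U k rest (F \ Z))) := by
    intro Z
    refine BM_lvl {pl, pt, pb} fun U U' h => ?_
    rw [bsh_lvl (U := U) (U' := U') h]
  rw [Ex_congr e1, Ex_sum _ fun Z _ => (hBM1 Z).mul (hBM2 Z)]
  have e3 : Ex K1 * B = ∑ Z ∈ (insert v F).powerset,
      Ex (fun U : Ev n => ind (rch pb U {v} F = Z) * K1 U) * B := by
    rw [← Finset.sum_mul, ← Ex_sum _ fun Z _ => hBM1 Z]
    congr 1
    exact Ex_congr e2
  rw [e3]
  refine Finset.sum_le_sum fun Z hZ => ?_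
  rw [mem_powerset] at hZ
  by_cases hvZ : v ∈ Z
  · rw [Ex_indep {e | ∃ a ∈ Z, a ∈ e}]
    · exact mul_le_mul_of_nonneg_left (hG Z hZ hvZ)
        (Ex_nonneg fun U => mul_nonneg (ind_nonneg _) (hK0 U))
    · intro U U' h
      by_cases hc : rch pb U {v} F = Z
      · have h' : ∀ e, (∃ a ∈ rch pb U {v} F, a ∈ e) → U e = U' e := by
          intro e he
          rw [hc] at he
          exact h e he
        rw [hloc U U' h', hK2 U U' h']
      · by_cases hc' : rch pb U' {v} F = Z
        · exfalso
          apply hc
          rw [← hc']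
          refine hloc U' U fun e he => ?_
          rw [hc'] at he
          exact (h e he).symm
        · rw [ind_false hc, ind_false hc', zero_mul, zero_mul]
    · intro U U' h
      congr 1
      symm
      refine loc_coarse hlt k _ _ ?_ ?_
      · intro w hw hwF
        exact hr w hw (sdiff_subset hwF)
      · intro a ha b hb p _
        rw [mem_sdiff] at hb
        have haZ : a ∉ Z := by
          rcases ha with ⟨w, hw, rfl⟩ | ha
          · intro hwZ
            have := hZ hwZ
            rw [mem_insert] at this
            rcases this with h5 | h5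
            · exact hvr w hw h5
            · exact hr w hw h5
          · exact (mem_sdiff.1 ha).2
        rw [h s(a, b)]
        rintro ⟨z, hz, hze⟩
        rw [Sym2.mem_iff] at hze
        rcases hze with rfl | rfl
        · exact haZ hz
        · exact hb.2 hz
  · have e4 : Ex (fun U : Ev n => ind (rch pb U {v} F = Z) * K1 U) = 0 := by
      rw [Ex_congr (G := fun _ => 0), Ex_const]
      intro U
      rw [ind_false, zero_mul]
      intro e
      exact hvZ (e ▸ subset_rch pb U {v} F (mem_singleton_self v))
    have e5 : Ex (fun U : Ev n => ind (rch pb U {v} F = Z) * K1 U *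
        G Z (bsh pl pt pb s1 s0 J U k rest (F \ Z))) = 0 := by
      rw [Ex_congr (G := fun _ => 0), Ex_const]
      intro U
      rw [ind_false, zero_mul, zero_mul]
      intro e
      exact hvZ (e ▸ subset_rch pb U {v} F (mem_singleton_self v))
    rw [e4, e5, zero_mul]

theorem sum_nst (α : ℕ → ℝ) (N H : Finset (Fin n)) (h : ℕ) (rest : List (Fin n × ℕ)) :
    ((nst N H h rest).map (fun w => α w.2)).sum =
      N.card * α h + H.card * α (h + 1) + (rest.map (fun w => α w.2)).sum := by
  unfold nst
  simp [Function.comp_def]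
  ring

theorem length_nst (N H : Finset (Fin n)) (h : ℕ) (rest : List (Fin n × ℕ)) :
    (nst N H h rest).length = N.card + H.card + rest.length := by
  unfold nst
  simp
  ring

theorem nodup_nst {N H F : Finset (Fin n)} {h : ℕ} {rest : List (Fin n × ℕ)} (hN : N ⊆ F)
    (hH : H ⊆ F) (hNH : Disjoint N H) (hr : ∀ w ∈ rest, w.1 ∉ F)
    (hn : (rest.map Prod.fst).Nodup) : ((nst N H h rest).map Prod.fst).Nodup := by
  unfold nst
  simp only [List.map_append, List.map_map, Function.comp_def]
  rw [List.nodup_append', List.nodup_append']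
  refine ⟨⟨?_, ?_, ?_⟩, hn, ?_⟩
  · simpa using N.nodup_toList
  · simpa using H.nodup_toList
  · intro a ha hb
    simp only [List.map_id', mem_toList] at ha hb
    exact disjoint_left.1 hNH ha hb
  · intro a ha hb
    simp only [List.map_id', List.mem_append, mem_toList] at ha
    obtain ⟨w, hw, rfl⟩ := List.mem_map.1 hb
    rcases ha with ha | ha
    · exact hr w hw (hN ha)
    · exact hr w hw (hH ha)

theorem pow_aux {s b : ℝ} {m f : ℕ} (hs0 : 0 ≤ s) (hs1 : s ≤ 1) (hb : b ≤ f * s) (hm : f ≤ m) :
    (1 - s) ^ m ≤ Real.exp (-b) := by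
  calc (1 - s) ^ m ≤ (Real.exp (-s)) ^ m :=
        pow_le_pow_left₀ (by linarith) (by linarith [Real.add_one_le_exp (-s)]) m
    _ = Real.exp (-(m * s)) := by rw [← Real.exp_nat_mul]; ring_nf
    _ ≤ Real.exp (-b) := by
        rw [Real.exp_le_exp]
        have : (f : ℝ) * s ≤ m * s := mul_le_mul_of_nonneg_right (by exact_mod_cast hm) hs0
        linarith

theorem pow_aux' {s b : ℝ} {m f : ℕ} (hs0 : 0 ≤ s) (hb : f * s ≤ b) (hm : m ≤ f) :
    (1 + s) ^ m ≤ Real.exp b := by
  calc (1 + s) ^ m ≤ (Real.exp s) ^ m :=
        pow_le_pow_left₀ (by linarith) (by linarith [Real.add_one_le_exp s]) m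
    _ = Real.exp (m * s) := by rw [← Real.exp_nat_mul]
    _ ≤ Real.exp b := by
        rw [Real.exp_le_exp]
        have : (m : ℝ) * s ≤ f * s := mul_le_mul_of_nonneg_right (by exact_mod_cast hm) hs0
        linarith

theorem fail_aux {pl pt pb : ℝ} {s1 s0 J : ℕ} (h0 : 0 ≤ pl) (hlt : pl ≤ pt) (hlb : pl ≤ pb)
    (h1 : pt ≤ 1) (m : ℕ) (α : ℕ → ℝ) (hα0 : ∀ h, 0 ≤ α h) (fmin : ℕ)
    (hα : ∀ h < J, α h ≤ fmin * (pl * (1 - Real.exp (-α h)) +
      (pt - pl) * (1 - Real.exp (-α (h + 1)))))
    (htest : ∀ (w : Fin n) (F' : Finset (Fin n)), w ∉ F' → fmin ≤ F'.card → F'.card ≤ m →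
      Ex (fun U : Ev n => ind (¬ mk pl pb s1 s0 U w F')) ≤ Real.exp (-α J)) (k : ℕ) :
    ∀ (st : List (Fin n × ℕ)) (F : Finset (Fin n)) (c : ℕ), (st.map Prod.fst).Nodup →
      (∀ w ∈ st, w.1 ∉ F ∧ w.2 ≤ J) → fmin + c ≤ F.card → F.card ≤ m →
      st.length + F.card + 1 ≤ k →
      Ex (fun U : Ev n => ind ((bsh pl pt pb s1 s0 J U k st F).2 = none ∧
        (bsh pl pt pb s1 s0 J U k st F).1.card ≤ c)) ≤
        Real.exp (-(st.map (fun w => α w.2)).sum) := by
  classical
  induction k with
  | zero => intro st F c _ _ _ _ h; omega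
  | succ k ih =>
    intro st F c hnd hst hc hm hk
    rcases st with _ | ⟨⟨v, i⟩, rest⟩
    · simp only [List.map_nil, List.sum_nil, neg_zero, Real.exp_zero]
      calc Ex (fun U : Ev n => ind ((bsh pl pt pb s1 s0 J U (k + 1) [] F).2 = none ∧
            (bsh pl pt pb s1 s0 J U (k + 1) [] F).1.card ≤ c)) ≤ Ex (fun _ : Ev n => (1 : ℝ)) := by
            refine Ex_mono ?_ (BM.const 1) fun U => ind_le_one _
            refine BM_lvl {pl, pt, pb} fun U U' h => ?_
            rw [bsh_lvl (U := U) (U' := U') h]
        _ = 1 := Ex_const 1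
    · obtain ⟨hv, hiJ⟩ := hst (v, i) List.mem_cons_self
      simp only at hv hiJ
      simp only [List.map_cons, List.nodup_cons, List.mem_map, not_exists, not_and] at hnd
      have hvr : ∀ w ∈ rest, w.1 ≠ v := fun w hw => hnd.1 w hw
      have hst' := fun w hw => hst w (List.mem_cons_of_mem _ hw)
      have hr : ∀ w ∈ rest, w.1 ∉ F := fun w hw => (hst' w hw).1
      simp only [List.length_cons] at hk
      have hsum : (((v, i) :: rest : List (Fin n × ℕ)).map (fun w => α w.2)).sum =
          α i + (rest.map (fun w => α w.2)).sum := by simp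
      rw [hsum]
      set S := (rest.map (fun w => α w.2)).sum with hS
      by_cases hh : J ≤ i
      · have hi : i = J := le_antisymm hiJ hh
        have hdis : Disjoint {v} F := by rwa [disjoint_singleton_left]
        have hkey := test_le (s1 := s1) (s0 := s0) (J := J) (pb := pb) hlt hv hvr hr k
          (fun U => ind (¬ mk pl pb s1 s0 U v F)) (fun U => ind_nonneg _) ?_ ?_
          (fun Z R => ind (R.2 = none ∧ (Z.erase v).card + R.1.card ≤ c)) (B := Real.exp (-S)) ?_
        · refine le_trans (le_trans (le_of_eq (Ex_congr fun U => ?_)) hkey) ?_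
          · by_cases hmk : mk pl pb s1 s0 U v F
            · rw [bsh_ok hh hmk, ind_false (by simp), ind_false (by simpa using hmk), zero_mul]
            · rw [bsh_no hh hmk, ind_true hmk, one_mul]
              simp only
              rw [card_union_of_disjoint]
              refine Finset.disjoint_left.2 fun z hz hz' => ?_
              have h3 := bsh_subset k rest (F \ rch pb U {v} F) hz'
              exact (mem_sdiff.1 h3).2 (mem_erase.1 hz).2
          · rw [neg_add, Real.exp_add, hi]
            exact mul_le_mul_of_nonneg_right (htest v F hv (by omega) hm) (Real.exp_pos _).le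
        · intro U U' h
          have hrl : ∀ p ∈ ({pl, pt, pb} : Finset ℝ), rch p U {v} F = rch p U' {v} F := by
            intro p hp
            refine rch_lvl p {v} F fun e q hq => ?_
            rw [mem_singleton] at hq
            rw [hq]
            exact h e p hp
          unfold mk
          rw [hrl pl (by simp), hrl pb (by simp)]
        · intro U U' h
          have hr1 : rch pb U' {v} F = rch pb U {v} F := by
            refine rch_local pb hdis fun a ha b _ => ?_
            rw [h s(a, b) ⟨a, ha, Sym2.mem_mk_left a b⟩]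
          have hr2 : rch pl U' {v} F = rch pl U {v} F := by
            refine rch_local pl hdis fun a ha b _ => ?_
            rw [h s(a, b) ⟨a, rch_mono hlb U (Finset.Subset.refl _) (Finset.Subset.refl _) ha,
              Sym2.mem_mk_left a b⟩]
          unfold mk
          rw [hr1, hr2]
        · intro Z hZ hvZ
          have hZF : Z.erase v ⊆ F := by
            intro z hz
            rw [mem_erase] at hz
            exact (mem_insert.1 (hZ hz.2)).resolve_left hz.1
          have e1 : F \ Z = F \ Z.erase v := by
            ext z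
            simp only [mem_sdiff, mem_erase]
            constructor
            · rintro ⟨a, b⟩; exact ⟨a, fun h => b h.2⟩
            · rintro ⟨a, b⟩; exact ⟨a, fun h => b ⟨fun e => hv (e ▸ a), h⟩⟩
          have e2 : (F \ Z).card = F.card - (Z.erase v).card := by
            rw [e1, card_sdiff_of_subset hZF]
          have e3 := card_le_card hZF
          by_cases hcc : (Z.erase v).card ≤ c
          · have := ih rest (F \ Z) (c - (Z.erase v).card) hnd.2
              (fun w hw => ⟨fun h => hr w hw (sdiff_subset h), (hst' w hw).2⟩) (by omega)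
              (by omega) (by omega)
            refine le_trans (le_of_eq (Ex_congr fun U => ?_)) this
            congr 1
            apply propext
            apply and_congr_right
            intro _
            omega
          · refine le_trans (le_of_eq ?_) (Real.exp_pos _).le
            rw [Ex_congr (G := fun _ => 0), Ex_const]
            intro U
            exact ind_false fun h => by omega
      · have hi : i < J := not_le.1 hh
        have hx1 : Real.exp (-α i) ≤ 1 := by
          rw [Real.exp_le_one_iff]; linarith [hα0 i]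
        have hy1 : Real.exp (-α (i + 1)) ≤ 1 := by
          rw [Real.exp_le_one_iff]; linarith [hα0 (i + 1)]
        have hkey := step_le (s1 := s1) (s0 := s0) (J := J) (pb := pb) h0 hlt h1 hv hvr hr k i
          (fun N H R => ind (R.2 = none ∧ (N ∪ H).card + R.1.card ≤ c)) (A := Real.exp (-S))
          (x := Real.exp (-α i)) (y := Real.exp (-α (i + 1))) (Real.exp_pos _).le
          (Real.exp_pos _).le (Real.exp_pos _).le ?_
        · refine le_trans (le_trans (le_of_eq (Ex_congr fun U => ?_)) hkey) ?_
          · rw [bsh_step hi]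
            have e1 : nbr pl U v F ∪ (nbr pt U v F \ nbr pl U v F) = nbr pt U v F :=
              union_sdiff_of_subset (nbr_mono hlt U v F)
            simp only
            rw [e1, card_union_of_disjoint]
            refine Finset.disjoint_left.2 fun z hz hz' => ?_
            have h3 := bsh_subset k _ _ hz'
            exact (mem_sdiff.1 h3).2 hz
          · rw [neg_add, Real.exp_add, mul_comm (Real.exp (-α i))]
            refine mul_le_mul_of_nonneg_left ?_ (Real.exp_pos _).le
            have e2 : 1 - pt + pl * Real.exp (-α i) + (pt - pl) * Real.exp (-α (i + 1)) =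
                1 - (pl * (1 - Real.exp (-α i)) + (pt - pl) * (1 - Real.exp (-α (i + 1)))) := by
              ring
            rw [e2]
            refine pow_aux ?_ ?_ (hα i hi) (by omega)
            · have a1 := mul_nonneg h0 (sub_nonneg.2 hx1)
              have a2 := mul_nonneg (sub_nonneg.2 hlt) (sub_nonneg.2 hy1)
              linarith
            · have a1 : pl * (1 - Real.exp (-α i)) ≤ pl :=
                mul_le_of_le_one_right h0 (by linarith [Real.exp_pos (-α i)])
              have a2 : (pt - pl) * (1 - Real.exp (-α (i + 1))) ≤ pt - pl :=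
                mul_le_of_le_one_right (sub_nonneg.2 hlt)
                  (by linarith [Real.exp_pos (-α (i + 1))])
              linarith
        · intro N H hN hH hNH
          have hNHF : N ∪ H ⊆ F := union_subset hN hH
          have e2 : (F \ (N ∪ H)).card = F.card - (N ∪ H).card := card_sdiff_of_subset hNHF
          have e3 := card_le_card hNHF
          have e4 : (N ∪ H).card = N.card + H.card := card_union_of_disjoint hNH
          by_cases hcc : (N ∪ H).card ≤ c
          · have := ih (nst N H i rest) (F \ (N ∪ H)) (c - (N ∪ H).card)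
              (nodup_nst hN hH hNH hr hnd.2)
              (fun w hw => by
                rcases mem_nst.1 hw with ⟨h3, h4⟩ | ⟨h3, h4⟩ | h3
                · exact ⟨fun h => (mem_sdiff.1 h).2 (mem_union_left _ h3), by omega⟩
                · exact ⟨fun h => (mem_sdiff.1 h).2 (mem_union_right _ h3), by omega⟩
                · exact ⟨fun h => hr w h3 (sdiff_subset h), (hst' w h3).2⟩)
              (by omega) (by omega) (by rw [length_nst]; omega)
            refine le_trans (le_trans (le_of_eq (Ex_congr fun U => ?_)) this) (le_of_eq ?_)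
            · congr 1
              apply propext
              apply and_congr_right
              intro _
              omega
            · rw [sum_nst, ← hS, ← Real.exp_nat_mul, ← Real.exp_nat_mul, ← Real.exp_add,
                ← Real.exp_add]
              congr 1
              ring
          · refine le_trans (le_of_eq ?_) (mul_nonneg (mul_nonneg (Real.exp_pos _).le
              (pow_nonneg (Real.exp_pos _).le _)) (pow_nonneg (Real.exp_pos _).le _))
            rw [Ex_congr (G := fun _ => 0), Ex_const]
            intro U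
            exact ind_false fun h => by omega

theorem size_aux {pl pt pb : ℝ} {s1 s0 J : ℕ} (h0 : 0 ≤ pl) (hlt : pl ≤ pt)
    (h1 : pt ≤ 1) (m : ℕ) {a : ℝ} (ha : 0 ≤ a) (β : ℕ → ℝ) (hβ0 : ∀ h, 0 ≤ β h)
    (hβ : ∀ h < J, m * (pl * (Real.exp (a + β h) - 1) +
      (pt - pl) * (Real.exp (a + β (h + 1)) - 1)) ≤ β h)
    (htest : ∀ (w : Fin n) (F' : Finset (Fin n)), w ∉ F' → F'.card ≤ m →
      Ex (fun U : Ev n => Real.exp (a * (rch pb U {w} F').card)) ≤ Real.exp (a + β J)) (k : ℕ) :
    ∀ (st : List (Fin n × ℕ)) (F : Finset (Fin n)), (st.map Prod.fst).Nodup →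
      (∀ w ∈ st, w.1 ∉ F ∧ w.2 ≤ J) → F.card ≤ m →
      Ex (fun U : Ev n => Real.exp (a * (bsh pl pt pb s1 s0 J U k st F).1.card)) ≤
        Real.exp ((st.map (fun w => β w.2)).sum) := by
  classical
  have htriv : ∀ (st : List (Fin n × ℕ)), (1 : ℝ) ≤ Real.exp ((st.map (fun w => β w.2)).sum) := by
    intro st
    rw [Real.one_le_exp_iff]
    apply List.sum_nonneg
    intro x hx
    obtain ⟨w, -, rfl⟩ := List.mem_map.1 hx
    exact hβ0 _
  induction k with
  | zero =>
    intro st F _ _ _
    simp only [bsh_zero, card_empty, Nat.cast_zero, mul_zero, Real.exp_zero, Ex_const]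
    exact htriv st
  | succ k ih =>
    intro st F hnd hst hm
    rcases st with _ | ⟨⟨v, i⟩, rest⟩
    · simp only [bsh_nil, card_empty, Nat.cast_zero, mul_zero, Real.exp_zero, Ex_const]
      exact htriv []
    · obtain ⟨hv, hiJ⟩ := hst (v, i) List.mem_cons_self
      simp only at hv hiJ
      simp only [List.map_cons, List.nodup_cons, List.mem_map, not_exists, not_and] at hnd
      have hvr : ∀ w ∈ rest, w.1 ≠ v := fun w hw => hnd.1 w hw
      have hst' := fun w hw => hst w (List.mem_cons_of_mem _ hw)
      have hr : ∀ w ∈ rest, w.1 ∉ F := fun w hw => (hst' w hw).1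
      have hsum : (((v, i) :: rest : List (Fin n × ℕ)).map (fun w => β w.2)).sum =
          β i + (rest.map (fun w => β w.2)).sum := by simp
      rw [hsum]
      set S := (rest.map (fun w => β w.2)).sum with hS
      by_cases hh : J ≤ i
      · have hi : i = J := le_antisymm hiJ hh
        have hdis : Disjoint {v} F := by rwa [disjoint_singleton_left]
        have hrl : ∀ U U' : Ev n, lvlEq {pl, pt, pb} U U' →
            ∀ p ∈ ({pl, pt, pb} : Finset ℝ), rch p U {v} F = rch p U' {v} F := by
          intro U U' h p hp
          refine rch_lvl p {v} F fun e q hq => ?_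
          rw [mem_singleton] at hq
          rw [hq]
          exact h e p hp
        have hcardZ : ∀ U : Ev n, ((rch pb U {v} F).card : ℝ) =
            1 + ((rch pb U {v} F).erase v).card := by
          intro U
          have h3 : v ∈ rch pb U {v} F := subset_rch pb U {v} F (mem_singleton_self v)
          have h4 := card_erase_add_one h3
          rw [← h4]
          push_cast
          ring
        have hkey := test_le (s1 := s1) (s0 := s0) (J := J) (pb := pb) hlt hv hvr hr k
          (fun U => Real.exp (a * ((rch pb U {v} F).erase v).card)) (fun U => (Real.exp_pos _).le)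
          ?_ ?_ (fun _ R => Real.exp (a * R.1.card)) (B := Real.exp S) ?_
        · refine le_trans (le_trans (Ex_mono ?_ ?_ fun U => ?_) hkey) ?_
          · refine BM_lvl {pl, pt, pb} fun U U' h => ?_
            rw [bsh_lvl (U := U) (U' := U') h]
          · refine BM_lvl {pl, pt, pb} fun U U' h => ?_
            rw [bsh_lvl (U := U) (U' := U') h, hrl U U' h pb (by simp)]
          · rw [← Real.exp_add, Real.exp_le_exp]
            by_cases hmk : mk pl pb s1 s0 U v F
            · rw [bsh_ok hh hmk]
              simp only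
              have : 0 ≤ a * ((bsh pl pt pb s1 s0 J U k rest (F \ rch pb U {v} F)).1.card : ℝ) := by
                positivity
              linarith
            · rw [bsh_no hh hmk]
              simp only
              have h3 : ((((rch pb U {v} F).erase v) ∪
                  (bsh pl pt pb s1 s0 J U k rest (F \ rch pb U {v} F)).1).card : ℝ) ≤
                  ((rch pb U {v} F).erase v).card +
                  (bsh pl pt pb s1 s0 J U k rest (F \ rch pb U {v} F)).1.card := by
                exact_mod_cast card_union_le _ _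
              have := mul_le_mul_of_nonneg_left h3 ha
              linarith
          · rw [Real.exp_add]
            refine mul_le_mul_of_nonneg_right ?_ (Real.exp_pos _).le
            have h3 := htest v F hv hm
            have h4 : Ex (fun U : Ev n => Real.exp (a * (rch pb U {v} F).card)) =
                Real.exp a * Ex (fun U : Ev n =>
                  Real.exp (a * ((rch pb U {v} F).erase v).card)) := by
              rw [← Ex_const_mul]
              refine Ex_congr fun U => ?_
              rw [hcardZ U, ← Real.exp_add]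
              congr 1
              ring
            rw [h4, Real.exp_add] at h3
            rw [hi]
            exact le_of_mul_le_mul_left h3 (Real.exp_pos a)
        · intro U U' h
          rw [hrl U U' h pb (by simp)]
        · intro U U' h
          have hr1 : rch pb U' {v} F = rch pb U {v} F := by
            refine rch_local pb hdis fun a ha b _ => ?_
            rw [h s(a, b) ⟨a, ha, Sym2.mem_mk_left a b⟩]
          rw [hr1]
        · intro Z hZ hvZ
          exact ih rest (F \ Z) hnd.2
            (fun w hw => ⟨fun h => hr w hw (sdiff_subset h), (hst' w hw).2⟩)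
            ((card_le_card sdiff_subset).trans hm)
      · have hi : i < J := not_le.1 hh
        have hkey := step_le (s1 := s1) (s0 := s0) (J := J) (pb := pb) h0 hlt h1 hv hvr hr k i
          (fun N H R => Real.exp (a * ((N.card : ℝ) + H.card + R.1.card))) (A := Real.exp S)
          (x := Real.exp (a + β i)) (y := Real.exp (a + β (i + 1))) (Real.exp_pos _).le
          (Real.exp_pos _).le (Real.exp_pos _).le ?_
        · refine le_trans (le_trans (le_of_eq (Ex_congr fun U => ?_)) hkey) ?_
          · rw [bsh_step hi]
            simp only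
            congr 2
            have e1 : nbr pl U v F ∪ (nbr pt U v F \ nbr pl U v F) = nbr pt U v F :=
              union_sdiff_of_subset (nbr_mono hlt U v F)
            have e2 : (nbr pt U v F).card =
                (nbr pl U v F).card + (nbr pt U v F \ nbr pl U v F).card := by
              rw [← card_union_of_disjoint disjoint_sdiff, e1]
            rw [card_union_of_disjoint, e2]
            · push_cast; ring
            · refine Finset.disjoint_left.2 fun z hz hz' => ?_
              have h3 := bsh_subset k _ _ hz'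
              exact (mem_sdiff.1 h3).2 hz
          · rw [Real.exp_add (β i) S, mul_comm (Real.exp (β i))]
            refine mul_le_mul_of_nonneg_left ?_ (Real.exp_pos _).le
            have e2 : 1 - pt + pl * Real.exp (a + β i) + (pt - pl) * Real.exp (a + β (i + 1)) =
                1 + (pl * (Real.exp (a + β i) - 1) +
                  (pt - pl) * (Real.exp (a + β (i + 1)) - 1)) := by
              ring
            rw [e2]
            refine pow_aux' ?_ (hβ i hi) hm
            have hx1 : 1 ≤ Real.exp (a + β i) := by
              rw [Real.one_le_exp_iff]; linarith [hβ0 i]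
            have hy1 : 1 ≤ Real.exp (a + β (i + 1)) := by
              rw [Real.one_le_exp_iff]; linarith [hβ0 (i + 1)]
            have a1 := mul_nonneg h0 (sub_nonneg.2 hx1)
            have a2 := mul_nonneg (sub_nonneg.2 hlt) (sub_nonneg.2 hy1)
            linarith
        · intro N H hN hH hNH
          have hNHF : N ∪ H ⊆ F := union_subset hN hH
          have := ih (nst N H i rest) (F \ (N ∪ H))
              (nodup_nst hN hH hNH hr hnd.2)
              (fun w hw => by
                rcases mem_nst.1 hw with ⟨h3, h4⟩ | ⟨h3, h4⟩ | h3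
                · exact ⟨fun h => (mem_sdiff.1 h).2 (mem_union_left _ h3), by omega⟩
                · exact ⟨fun h => (mem_sdiff.1 h).2 (mem_union_right _ h3), by omega⟩
                · exact ⟨fun h => hr w h3 (sdiff_subset h), (hst' w h3).2⟩)
              ((card_le_card sdiff_subset).trans hm)
          have e5 : Ex (fun U : Ev n => Real.exp (a * ((N.card : ℝ) + H.card +
              (bsh pl pt pb s1 s0 J U k (nst N H i rest) (F \ (N ∪ H))).1.card))) =
              Real.exp (a * (N.card + H.card)) * Ex (fun U : Ev n => Real.exp (a *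
              (bsh pl pt pb s1 s0 J U k (nst N H i rest) (F \ (N ∪ H))).1.card)) := by
            rw [← Ex_const_mul]
            refine Ex_congr fun U => ?_
            rw [← Real.exp_add]
            congr 1
            ring
          rw [e5]
          refine le_trans (mul_le_mul_of_nonneg_left this (Real.exp_pos _).le) (le_of_eq ?_)
          rw [sum_nst, ← hS, ← Real.exp_nat_mul, ← Real.exp_nat_mul, ← Real.exp_add,
                ← Real.exp_add, ← Real.exp_add]
          congr 1
          ring

end Bush2

/-- the bush fails, or is large, with small probability -/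
theorem bush_fail {pl pt pb : ℝ} {s1 s0 J : ℕ} (h0 : 0 ≤ pl) (hlt : pl ≤ pt) (hlb : pl ≤ pb)
    (hb1 : pb ≤ 1) (h1 : pt ≤ 1) (v : Fin n) (F : Finset (Fin n)) (hv : v ∉ F) (α : ℕ → ℝ)
    (hα0 : ∀ h, 0 ≤ α h) (cap fmin : ℕ) (hcap : fmin + cap ≤ F.card)
    (hα : ∀ h < J, α h ≤ fmin * (pl * (1 - Real.exp (-α h)) +
      (pt - pl) * (1 - Real.exp (-α (h + 1)))))
    (htest : ∀ (w : Fin n) (F' : Finset (Fin n)), w ∉ F' → fmin ≤ F'.card → F'.card ≤ F.card →
      Ex (fun U : Ev n => ind (¬ mk pl pb s1 s0 U w F')) ≤ Real.exp (-α J)) :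
    Ex (fun U : Ev n => ind ((bush pl pt pb s1 s0 J U v F).2 = none ∧
      (bush pl pt pb s1 s0 J U v F).1.card ≤ cap)) ≤ Real.exp (-α 0) := by
  have hF : F.card ≤ n := by
    simpa using Finset.card_le_univ F
  have := Bush2.fail_aux h0 hlt hlb h1 F.card α hα0 fmin hα htest (2 * n + 2) [(v, 0)] F cap
    (by simp) (by simpa using hv) hcap le_rfl (by simp; omega)
  simpa [bush] using this

/-- exponential moment of the size of the bush -/
theorem bush_size {pl pt pb : ℝ} {s1 s0 J : ℕ} (h0 : 0 ≤ pl) (hlt : pl ≤ pt) (hb0 : 0 ≤ pb)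
    (hb1 : pb ≤ 1) (h1 : pt ≤ 1) (v : Fin n) (F : Finset (Fin n)) (hv : v ∉ F) {a : ℝ}
    (ha : 0 ≤ a) (β : ℕ → ℝ) (hβ0 : ∀ h, 0 ≤ β h)
    (hβ : ∀ h < J, F.card * (pl * (Real.exp (a + β h) - 1) +
      (pt - pl) * (Real.exp (a + β (h + 1)) - 1)) ≤ β h)
    (htest : ∀ (w : Fin n) (F' : Finset (Fin n)), w ∉ F' → F'.card ≤ F.card →
      Ex (fun U : Ev n => Real.exp (a * (rch pb U {w} F').card)) ≤ Real.exp (a + β J)) :
    Ex (fun U : Ev n => Real.exp (a * (bush pl pt pb s1 s0 J U v F).1.card)) ≤
      Real.exp (β 0) := by
  have := Bush2.size_aux (s1 := s1) (s0 := s0) h0 hlt h1 F.card ha β hβ0 hβ htest (2 * n + 2)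
    [(v, 0)] F (by simp) (by simpa using hv) le_rfl
  simpa [bush] using this

end

end Pool.Agent.TH972.U
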