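import Pool.Agent.TH972.U.Rch
import Pool.Agent.TH972.U.Lvl

/-!
# Near-critical estimates for reach sets
(job RSTRE X1b of helper972, written by helper267)
-/

set_option autoImplicit false
set_option linter.unusedVariables false

namespace Pool.Agent.TH972.U

open Finset MeasureTheory Pool.Agent.W842.RST Pool.Agent.TH972

noncomputable section

variable {n : ℕ}

namespace Rch2

theorem rch_dep (p : ℝ) {v : Fin n} {A F : Finset (Fin n)} (hv : v ∉ A ∪ F) {U U' : Ev n}
    (h : ∀ e, v ∉ e → U e = U' e) : rch p U A F = rch p U' A F := by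
  apply (Rch.loc p _).symm
  intro a ha b hb
  have hav : v ≠ a := by rintro rfl; exact hv (rch_subset p U A F ha)
  have hbv : v ≠ b := by rintro rfl; exact hv (mem_union_right _ hb)
  rw [h s(a, b) (by
    rw [Sym2.mem_iff]
    rintro (h | h)
    · exact hav h
    · exact hbv h)]

theorem rch_empty (p : ℝ) (U : Ev n) (F : Finset (Fin n)) : rch p U ∅ F = ∅ := by
  apply Finset.subset_empty.1
  apply Rch.least (Subset.refl _)
  intro a ha
  exact absurd ha (notMem_empty a)

theorem card_step (p : ℝ) (U : Ev n) {A F : Finset (Fin n)} {v : Fin n} (hv : v ∈ A)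
    (hAF : Disjoint A F) :
    (rch p U A F).card =
      (rch p U ((A.erase v) ∪ nbr p U v F) (F \ nbr p U v F)).card + 1 := by
  rw [rch_step p U hv hAF, card_insert_of_notMem]
  intro h
  have h1 := rch_subset p U _ _ h
  have hvF : v ∉ F := Finset.disjoint_left.1 hAF hv
  rcases mem_union.1 h1 with h2 | h2
  · rcases mem_union.1 h2 with h3 | h3
    · exact notMem_erase v A h3
    · exact hvF (Rch.mem_nbr.1 h3).1
  · exact hvF (mem_sdiff.1 h2).1

theorem bm (p : ℝ) (A F : Finset (Fin n)) (φ : ℕ → ℝ) :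
    BM (fun U : Ev n => φ (rch p U A F).card) := by
  apply BM_lvl {p}
  intro U U' h
  simp only [rch_lvl p A F h]

theorem disj_step {A F N : Finset (Fin n)} {v : Fin n} (hv : v ∈ A) (hAF : Disjoint A F)
    (hN : N ⊆ F) : Disjoint (A.erase v ∪ N) (F \ N) ∧ (A.erase v ∪ N).card + 1 = A.card + N.card ∧
      (F \ N).card + N.card = F.card := by
  have hd : Disjoint (A.erase v) N := by
    apply Disjoint.mono (erase_subset v A) hN hAF
  refine ⟨?_, ?_, ?_⟩
  · rw [disjoint_union_left]
    refine ⟨Disjoint.mono (erase_subset v A) sdiff_subset hAF, ?_⟩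
    exact disjoint_sdiff
  · rw [card_union_of_disjoint hd, card_erase_of_mem hv]
    have : 0 < A.card := card_pos.2 ⟨v, hv⟩
    omega
  · exact card_sdiff_add_card_eq_card hN

theorem aux_eq (p : ℝ) (φ : ℕ → ℝ) {A F : Finset (Fin n)} {v : Fin n} (hv : v ∈ A)
    (hAF : Disjoint A F) (U : Ev n) :
    φ (rch p U A F).card = φ ((rch p U (A.erase v ∪ (nbr p U v F ∩ F))
      (F \ nbr p U v F)).card + 1) := by
  have hsub : nbr p U v F ⊆ F := fun u hu => (Rch.mem_nbr.1 hu).1
  rw [inter_eq_left.2 hsub, ← card_step p U hv hAF]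

theorem aux_dep (p : ℝ) (φ : ℕ → ℝ) {A F : Finset (Fin n)} {v : Fin n} (hv : v ∈ A)
    (hAF : Disjoint A F) (N : Finset (Fin n)) (U U' : Ev n) (h : ∀ e, v ∉ e → U e = U' e) :
    φ ((rch p U (A.erase v ∪ (N ∩ F)) (F \ N)).card + 1) =
      φ ((rch p U' (A.erase v ∪ (N ∩ F)) (F \ N)).card + 1) := by
  rw [rch_dep p _ h]
  have hvF : v ∉ F := Finset.disjoint_left.1 hAF hv
  intro h1
  rcases mem_union.1 h1 with h2 | h2
  · rcases mem_union.1 h2 with h3 | h3
    · exact notMem_erase v A h3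
    · exact hvF (mem_inter.1 h3).2
  · exact hvF (mem_sdiff.1 h2).1

theorem step_le {p : ℝ} (h0 : 0 ≤ p) (h1 : p ≤ 1) {A F : Finset (Fin n)} (hAF : Disjoint A F)
    {v : Fin n} (hv : v ∈ A) (φ : ℕ → ℝ) {K x : ℝ} (hK : 0 ≤ K) (hx : 0 ≤ x)
    (hG : ∀ N, N ⊆ F → Ex (fun U : Ev n => φ ((rch p U (A.erase v ∪ N) (F \ N)).card + 1)) ≤
      K * x ^ N.card) :
    Ex (fun U : Ev n => φ (rch p U A F).card) ≤ K * (1 - p + p * x) ^ F.card := by
  have hvF : v ∉ F := Finset.disjoint_left.1 hAF hv
  have h := Ex_step (v := v) (F := F) hvF h0 (le_refl p) h1 {p}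
    (fun N _ U => φ ((rch p U (A.erase v ∪ (N ∩ F)) (F \ N)).card + 1))
    (fun N H U U' h => by simp only [rch_lvl p _ _ h])
    (fun N H U U' h => aux_dep p φ hv hAF N U U' h)
    (A := K) (x := x) (y := 1) hK hx zero_le_one
    (fun N H hN _ _ => by
      rw [one_pow, mul_one, inter_eq_left.2 hN]
      exact hG N hN)
  rw [sub_self, zero_mul, add_zero] at h
  refine le_trans (le_of_eq ?_) h
  exact Ex_congr (fun U => aux_eq p φ hv hAF U)

theorem step_ge {p : ℝ} (h0 : 0 ≤ p) (h1 : p ≤ 1) {A F : Finset (Fin n)} (hAF : Disjoint A F)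
    {v : Fin n} (hv : v ∈ A) (φ : ℕ → ℝ) {K x : ℝ} (hK : 0 ≤ K) (hx : 0 ≤ x)
    (hG : ∀ N, N ⊆ F → K * x ^ N.card ≤
      Ex (fun U : Ev n => φ ((rch p U (A.erase v ∪ N) (F \ N)).card + 1))) :
    K * (1 - p + p * x) ^ F.card ≤ Ex (fun U : Ev n => φ (rch p U A F).card) := by
  have hvF : v ∉ F := Finset.disjoint_left.1 hAF hv
  have h := Ex_step' (v := v) (F := F) hvF h0 (le_refl p) h1 {p}
    (fun N _ U => φ ((rch p U (A.erase v ∪ (N ∩ F)) (F \ N)).card + 1))
    (fun N H U U' h => by simp only [rch_lvl p _ _ h])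
    (fun N H U U' h => aux_dep p φ hv hAF N U U' h)
    (A := K) (x := x) (y := 1) hK hx zero_le_one
    (fun N H hN _ _ => by
      rw [one_pow, mul_one, inter_eq_left.2 hN]
      exact hG N hN)
  rw [sub_self, zero_mul, add_zero] at h
  refine le_trans h (le_of_eq ?_)
  exact (Ex_congr (fun U => aux_eq p φ hv hAF U)).symm

theorem exp_aux {p z ρ : ℝ} (h0 : 0 ≤ p) (h1 : p ≤ 1) (hz : 1 ≤ z) (hρ : 1 ≤ ρ) (k : ℕ) :
    ∀ (A F : Finset (Fin n)), Disjoint A F → A.card + F.card ≤ k →
      z * (1 - p + p * ρ) ^ F.card ≤ ρ →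
      Ex (fun U : Ev n => z ^ (rch p U A F).card) ≤ ρ ^ A.card := by
  induction k with
  | zero =>
    intro A F hAF hk h
    have hA : A = ∅ := card_eq_zero.1 (by omega)
    subst hA
    simp only [rch_empty, card_empty, pow_zero, Ex_const, le_refl]
  | succ k ih =>
    intro A F hAF hk h
    rcases A.eq_empty_or_nonempty with hA | ⟨v, hv⟩
    · subst hA
      simp only [rch_empty, card_empty, pow_zero, Ex_const, le_refl]
    have hq : 1 ≤ 1 - p + p * ρ := by nlinarith
    have hApos : 0 < A.card := card_pos.2 ⟨v, hv⟩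
    have hstep := step_le h0 h1 hAF hv (fun j => z ^ j) (K := z * ρ ^ (A.card - 1)) (x := ρ)
      (by positivity) (by linarith) (fun N hN => by
        obtain ⟨hd, hc1, hc2⟩ := disj_step hv hAF hN
        have hz' : z * (1 - p + p * ρ) ^ (F \ N).card ≤ ρ := by
          refine le_trans ?_ h
          apply mul_le_mul_of_nonneg_left _ (by linarith)
          exact pow_le_pow_right₀ hq (by omega)
        have hi := ih _ _ hd (by omega) hz'
        have e1 : (A.erase v ∪ N).card = (A.card - 1) + N.card := by omega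
        rw [e1, pow_add] at hi
        simp only [pow_succ]
        have e2 : Ex (fun U : Ev n => z ^ (rch p U (A.erase v ∪ N) (F \ N)).card * z) =
            z * Ex (fun U : Ev n => z ^ (rch p U (A.erase v ∪ N) (F \ N)).card) := by
          rw [← Ex_const_mul]
          exact Ex_congr (fun U => by ring)
        rw [e2]
        calc z * Ex (fun U : Ev n => z ^ (rch p U (A.erase v ∪ N) (F \ N)).card) ≤
              z * (ρ ^ (A.card - 1) * ρ ^ N.card) := mul_le_mul_of_nonneg_left hi (by linarith)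
          _ = z * ρ ^ (A.card - 1) * ρ ^ N.card := by ring)
    refine hstep.trans ?_
    calc z * ρ ^ (A.card - 1) * (1 - p + p * ρ) ^ F.card =
          ρ ^ (A.card - 1) * (z * (1 - p + p * ρ) ^ F.card) := by ring
      _ ≤ ρ ^ (A.card - 1) * ρ := mul_le_mul_of_nonneg_left h (by positivity)
      _ = ρ ^ A.card := by
          rw [← pow_succ]
          congr 1
          omega

theorem lap_aux {p z ρ : ℝ} (h0 : 0 ≤ p) (h1 : p ≤ 1) (hz : 0 ≤ z) (hz1 : z ≤ 1) (hρ0 : 0 ≤ ρ)
    (hρ : ρ ≤ 1) (k : ℕ) :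
    ∀ (A F : Finset (Fin n)), Disjoint A F → A.card + F.card ≤ k →
      ρ ≤ z * (1 - p + p * ρ) ^ F.card →
      ρ ^ A.card ≤ Ex (fun U : Ev n => z ^ (rch p U A F).card) := by
  induction k with
  | zero =>
    intro A F hAF hk h
    have hA : A = ∅ := card_eq_zero.1 (by omega)
    subst hA
    simp only [rch_empty, card_empty, pow_zero, Ex_const, le_refl]
  | succ k ih =>
    intro A F hAF hk h
    rcases A.eq_empty_or_nonempty with hA | ⟨v, hv⟩
    · subst hA
      simp only [rch_empty, card_empty, pow_zero, Ex_const, le_refl]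
    have hq0 : 0 ≤ 1 - p + p * ρ := by nlinarith
    have hq : 1 - p + p * ρ ≤ 1 := by nlinarith
    have hApos : 0 < A.card := card_pos.2 ⟨v, hv⟩
    have hstep := step_ge h0 h1 hAF hv (fun j => z ^ j) (K := z * ρ ^ (A.card - 1)) (x := ρ)
      (by positivity) hρ0 (fun N hN => by
        obtain ⟨hd, hc1, hc2⟩ := disj_step hv hAF hN
        have hz' : ρ ≤ z * (1 - p + p * ρ) ^ (F \ N).card := by
          refine le_trans h ?_
          apply mul_le_mul_of_nonneg_left _ hz
          exact pow_le_pow_of_le_one hq0 hq (by omega)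
        have hi := ih _ _ hd (by omega) hz'
        have e1 : (A.erase v ∪ N).card = (A.card - 1) + N.card := by omega
        rw [e1, pow_add] at hi
        simp only [pow_succ]
        have e2 : Ex (fun U : Ev n => z ^ (rch p U (A.erase v ∪ N) (F \ N)).card * z) =
            z * Ex (fun U : Ev n => z ^ (rch p U (A.erase v ∪ N) (F \ N)).card) := by
          rw [← Ex_const_mul]
          exact Ex_congr (fun U => by ring)
        rw [e2]
        calc z * ρ ^ (A.card - 1) * ρ ^ N.card = z * (ρ ^ (A.card - 1) * ρ ^ N.card) := by ring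
          _ ≤ _ := mul_le_mul_of_nonneg_left hi hz)
    refine le_trans ?_ hstep
    calc ρ ^ A.card = ρ ^ (A.card - 1) * ρ := by
          rw [← pow_succ]
          congr 1
          omega
      _ ≤ ρ ^ (A.card - 1) * (z * (1 - p + p * ρ) ^ F.card) :=
          mul_le_mul_of_nonneg_left h (by positivity)
      _ = z * ρ ^ (A.card - 1) * (1 - p + p * ρ) ^ F.card := by ring

theorem lap'_aux {p z ρ : ℝ} (h0 : 0 ≤ p) (h1 : p ≤ 1) (hz : 0 ≤ z) (hz1 : z ≤ 1) (hρ0 : 0 < ρ)
    (hρ : ρ ≤ 1) (m : ℕ) (h : z * (1 - p + p * ρ) ^ m ≤ ρ) (k : ℕ) :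
    ∀ (A F : Finset (Fin n)) (c : ℕ), Disjoint A F → A.card + F.card ≤ k →
      m + c ≤ F.card + A.card →
      Ex (fun U : Ev n => z ^ (rch p U A F).card * ind ((rch p U A F).card ≤ c)) ≤
        ρ ^ A.card := by
  induction k with
  | zero =>
    intro A F c hAF hk hm
    have hA : A = ∅ := card_eq_zero.1 (by omega)
    subst hA
    simp only [rch_empty, card_empty, pow_zero, zero_le, one_mul]
    rw [ind_true trivial, Ex_const]
  | succ k ih =>
    intro A F c hAF hk hm
    rcases A.eq_empty_or_nonempty with hA | ⟨v, hv⟩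
    · subst hA
      simp only [rch_empty, card_empty, pow_zero, zero_le, one_mul]
      rw [ind_true trivial, Ex_const]
    by_cases hAc : c < A.card
    · have : ∀ U : Ev n, z ^ (rch p U A F).card * ind ((rch p U A F).card ≤ c) = 0 := by
        intro U
        rw [ind_false, mul_zero]
        have := card_le_card (subset_rch p U A F)
        omega
      rw [Ex_congr this, Ex_const]
      positivity
    rw [not_lt] at hAc
    have hq0 : 0 ≤ 1 - p + p * ρ := by nlinarith
    have hq : 1 - p + p * ρ ≤ 1 := by nlinarith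
    have hApos : 0 < A.card := card_pos.2 ⟨v, hv⟩
    have hstep := step_le h0 h1 hAF hv (fun j => z ^ j * ind (j ≤ c))
      (K := z * ρ ^ (A.card - 1)) (x := ρ)
      (by positivity) hρ0.le (fun N hN => by
        obtain ⟨hd, hc1, hc2⟩ := disj_step hv hAF hN
        have hi := ih _ _ (c - 1) hd (by omega) (by omega)
        have e1 : (A.erase v ∪ N).card = (A.card - 1) + N.card := by omega
        rw [e1, pow_add] at hi
        have e2 : Ex (fun U : Ev n => z ^ ((rch p U (A.erase v ∪ N) (F \ N)).card + 1) *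
              ind ((rch p U (A.erase v ∪ N) (F \ N)).card + 1 ≤ c)) =
            z * Ex (fun U : Ev n => z ^ (rch p U (A.erase v ∪ N) (F \ N)).card *
              ind ((rch p U (A.erase v ∪ N) (F \ N)).card ≤ c - 1)) := by
          rw [← Ex_const_mul]
          apply Ex_congr
          intro U
          have : ((rch p U (A.erase v ∪ N) (F \ N)).card + 1 ≤ c) =
              ((rch p U (A.erase v ∪ N) (F \ N)).card ≤ c - 1) := by
            apply propext
            omega
          rw [this]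
          ring
        rw [e2]
        calc _ ≤ z * (ρ ^ (A.card - 1) * ρ ^ N.card) := mul_le_mul_of_nonneg_left hi hz
          _ = z * ρ ^ (A.card - 1) * ρ ^ N.card := by ring)
    refine hstep.trans ?_
    have hpow : (1 - p + p * ρ) ^ F.card ≤ (1 - p + p * ρ) ^ m :=
      pow_le_pow_of_le_one hq0 hq (by omega)
    calc z * ρ ^ (A.card - 1) * (1 - p + p * ρ) ^ F.card ≤
          z * ρ ^ (A.card - 1) * (1 - p + p * ρ) ^ m :=
          mul_le_mul_of_nonneg_left hpow (by positivity)
      _ = ρ ^ (A.card - 1) * (z * (1 - p + p * ρ) ^ m) := by ring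
      _ ≤ ρ ^ (A.card - 1) * ρ := mul_le_mul_of_nonneg_left h (by positivity)
      _ = ρ ^ A.card := by
          rw [← pow_succ]
          congr 1
          omega

end Rch2

/-- exponential moments -/
theorem rch_exp {p z ρ : ℝ} (h0 : 0 ≤ p) (h1 : p ≤ 1) (A F : Finset (Fin n)) (hAF : Disjoint A F)
    (hz : 1 ≤ z) (hρ : 1 ≤ ρ) (h : z * (1 - p + p * ρ) ^ F.card ≤ ρ) :
    Ex (fun U : Ev n => z ^ (rch p U A F).card) ≤ ρ ^ A.card :=
  Rch2.exp_aux h0 h1 hz hρ _ A F hAF le_rfl h

/-- Laplace transform, lower bound -/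
theorem rch_lap {p z ρ : ℝ} (h0 : 0 ≤ p) (h1 : p ≤ 1) (A F : Finset (Fin n)) (hAF : Disjoint A F)
    (hz : 0 ≤ z) (hz1 : z ≤ 1) (hρ0 : 0 ≤ ρ) (hρ : ρ ≤ 1) (h : ρ ≤ z * (1 - p + p * ρ) ^ F.card) :
    ρ ^ A.card ≤ Ex (fun U : Ev n => z ^ (rch p U A F).card) :=
  Rch2.lap_aux h0 h1 hz hz1 hρ0 hρ _ A F hAF le_rfl h

/-- Laplace transform, upper bound up to size `c` -/
theorem rch_lap' {p z ρ : ℝ} (h0 : 0 ≤ p) (h1 : p ≤ 1) (A F : Finset (Fin n))
    (hAF : Disjoint A F) (hz : 0 ≤ z) (hz1 : z ≤ 1) (hρ0 : 0 < ρ) (hρ : ρ ≤ 1) (c : ℕ)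
    (h : z * (1 - p + p * ρ) ^ (F.card - c) ≤ ρ) :
    Ex (fun U : Ev n => z ^ (rch p U A F).card * ind ((rch p U A F).card ≤ c)) ≤ ρ ^ A.card := by
  by_cases hc : F.card - c + c ≤ F.card + A.card
  · exact Rch2.lap'_aux h0 h1 hz hz1 hρ0 hρ _ h _ A F c hAF le_rfl hc
  · have h' : z * (1 - p + p * ρ) ^ 0 ≤ ρ := by
      have : F.card - c = 0 := by omega
      rw [this] at h
      exact h
    have := Rch2.lap'_aux h0 h1 hz hz1 hρ0 hρ 0 h' _ A F (F.card + A.card) hAF le_rfl
      (by omega)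
    refine le_trans (le_of_eq ?_) this
    apply Ex_congr
    intro U
    have hle : (rch p U A F).card ≤ F.card + A.card := by
      have h1 := card_le_card (rch_subset p U A F)
      have h2 := card_union_le A F
      omega
    rw [ind_true hle, ind_true (by omega)]

/-- near-critical tail -/
theorem rch_tail {p g : ℝ} (h0 : 0 ≤ p) (h1 : p ≤ 1 / 16) (hg0 : 0 ≤ g) (hg1 : g ≤ 1)
    (A F : Finset (Fin n)) (hAF : Disjoint A F) (hp : F.card * p ≤ 1 + g) (s : ℕ) (hs : 1 ≤ s) :
    Ex (fun U : Ev n => ind (s ≤ (rch p U A F).card)) ≤ 7 * A.card * (g + 1 / Real.sqrt s) := by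
  have hs' : (1 : ℝ) ≤ s := by exact_mod_cast hs
  have hs0 : (0 : ℝ) < s := by linarith
  set t := Real.sqrt s with ht
  have ht1 : 1 ≤ t := by rw [ht]; exact Real.one_le_sqrt.2 hs'
  have ht2 : t ^ 2 = s := Real.sq_sqrt hs0.le
  have ht0 : 0 < t := by linarith
  rcases A.eq_empty_or_nonempty with hA | hA
  · subst hA
    have : ∀ U : Ev n, ind (s ≤ (rch p U ∅ F).card) = 0 := by
      intro U
      rw [Rch2.rch_empty, card_empty]
      exact ind_false (by omega)
    rw [Ex_congr this, Ex_const]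
    simp
  have hA1 : (1 : ℝ) ≤ A.card := by exact_mod_cast card_pos.2 hA
  set x := 4 * g + 2 / t with hx
  have hit : 0 < 1 / t := by positivity
  have hx' : x = 4 * g + 2 * (1 / t) := by rw [hx]; ring
  by_cases hx1 : 1 ≤ x
  · calc Ex (fun U : Ev n => ind (s ≤ (rch p U A F).card)) ≤ Ex (fun _ : Ev n => (1:ℝ)) :=
          Ex_mono (Rch2.bm p A F (fun j => ind (s ≤ j))) (BM.const 1) (fun U => ind_le_one _)
      _ = 1 := Ex_const 1
      _ ≤ 7 * A.card * (g + 1 / t) := by nlinarith
  rw [not_le] at hx1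
  have hx0 : 0 ≤ x := by rw [hx']; positivity
  -- the condition
  have hcond : 1 - x ≤ Real.exp (-(1 / s)) * (1 - p + p * (1 - x)) ^ F.card := by
    set y := p * x with hy
    have hy0 : 0 ≤ y := mul_nonneg h0 hx0
    have hy1 : y ≤ 1 / 16 := by
      calc y ≤ (1 / 16) * 1 := mul_le_mul h1 hx1.le hx0 (by norm_num)
        _ = 1 / 16 := by norm_num
    have e1 : 1 - p + p * (1 - x) = 1 - y := by rw [hy]; ring
    rw [e1]
    have e2 : Real.exp (-(y / (1 - y))) ≤ 1 - y := by
      have h1y : 0 < 1 - y := by linarith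
      have h2 : (1 - y)⁻¹ ≤ Real.exp (y / (1 - y)) := by
        have h3 := Real.add_one_le_exp (y / (1 - y))
        have h4 : y / (1 - y) + 1 = (1 - y)⁻¹ := by
          field_simp
          ring
        rw [h4] at h3
        exact h3
      rw [Real.exp_neg]
      exact inv_le_of_inv_le₀ h1y h2
    have e3 : Real.exp (-(F.card * (y / (1 - y)))) ≤ (1 - y) ^ F.card := by
      calc Real.exp (-(F.card * (y / (1 - y)))) = Real.exp (-(y / (1 - y))) ^ F.card := by
            rw [← Real.exp_nat_mul]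
            congr 1
            ring
        _ ≤ _ := pow_le_pow_left₀ (Real.exp_pos _).le e2 _
    have e4 : y / (1 - y) ≤ y * (1 + 1.07 * y) := by
      rw [div_le_iff₀ (by linarith)]
      have : 0 ≤ y * (0.07 * y - 1.07 * y ^ 2) := by
        apply mul_nonneg hy0
        nlinarith
      nlinarith
    have e5 : F.card * (y / (1 - y)) ≤ (1 + g) * (x * (1 + 1.07 * y)) := by
      calc F.card * (y / (1 - y)) ≤ F.card * (y * (1 + 1.07 * y)) :=
            mul_le_mul_of_nonneg_left e4 (Nat.cast_nonneg _)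
        _ = (F.card * p) * (x * (1 + 1.07 * y)) := by rw [hy]; ring
        _ ≤ _ := mul_le_mul_of_nonneg_right hp (by positivity)
    have e6 : 1 / (s : ℝ) + (1 + g) * (x * (1 + 1.07 * y)) ≤ x + x ^ 2 / 2 := by
      have hs1 : 1 / (s : ℝ) = (1 / t) ^ 2 := by
        rw [← ht2]; ring
      rw [hs1]
      have hyx : x * (1.07 * y) ≤ 1.07 / 16 * x ^ 2 := by
        have : y ≤ 1 / 16 * x := by rw [hy]; exact mul_le_mul_of_nonneg_right h1 hx0
        nlinarith
      have h2 : (1 + g) * (x * (1 + 1.07 * y)) ≤ x + g * x + 0.134 * x ^ 2 := by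
        have h3 : (1 + g) * (x * (1.07 * y)) ≤ 2 * (1.07 / 16 * x ^ 2) := by
          apply mul_le_mul (by linarith) hyx (by positivity) (by norm_num)
        have h5 : 2 * (1.07 / 16 * x ^ 2) ≤ 0.134 * x ^ 2 := by
          have := sq_nonneg x
          linarith
        calc (1 + g) * (x * (1 + 1.07 * y)) = x + g * x + (1 + g) * (x * (1.07 * y)) := by ring
          _ ≤ _ := by linarith
      have h4 : (1 / t) ^ 2 + g * x ≤ 0.366 * x ^ 2 := by
        rw [hx']
        have a1 := mul_nonneg hg0 hit.le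
        have a2 := sq_nonneg g
        have a3 := sq_nonneg (1 / t)
        have a4 : 0.366 * (4 * g + 2 * (1 / t)) ^ 2 - ((1 / t) ^ 2 + g * (4 * g + 2 * (1 / t))) =
          1.856 * g ^ 2 + 3.856 * (g * (1 / t)) + 0.464 * (1 / t) ^ 2 := by ring
        have a5 : 0 ≤ 1.856 * g ^ 2 + 3.856 * (g * (1 / t)) + 0.464 * (1 / t) ^ 2 := by positivity
        linarith
      linarith
    have e7 : 1 - x ≤ Real.exp (-(x + x ^ 2 / 2)) := by
      have h1x : 0 < 1 - x := by linarith
      have hs := Real.hasSum_pow_div_log_of_abs_lt_one (x := x) (by rw [abs_of_nonneg hx0]; exact hx1)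
      have h2 := sum_le_hasSum (Finset.range 2) (fun i _ => by positivity) hs
      rw [Finset.sum_range_succ, Finset.sum_range_one] at h2
      norm_num at h2
      calc 1 - x = Real.exp (Real.log (1 - x)) := (Real.exp_log h1x).symm
        _ ≤ _ := Real.exp_le_exp.2 (by linarith)
    calc 1 - x ≤ Real.exp (-(x + x ^ 2 / 2)) := e7
      _ ≤ Real.exp (-(1 / s) + -(F.card * (y / (1 - y)))) := Real.exp_le_exp.2 (by linarith)
      _ = Real.exp (-(1 / s)) * Real.exp (-(F.card * (y / (1 - y)))) := Real.exp_add _ _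
      _ ≤ Real.exp (-(1 / s)) * (1 - y) ^ F.card :=
          mul_le_mul_of_nonneg_left e3 (Real.exp_pos _).le
  set z := Real.exp (-(1 / (s:ℝ))) with hz
  have hz0 : 0 < z := Real.exp_pos _
  have hz1 : z ≤ 1 := by
    rw [hz]
    apply Real.exp_le_one_iff.2
    have : 0 < 1 / (s : ℝ) := by positivity
    linarith
  have hlap := rch_lap (n := n) h0 (by linarith) A F hAF hz0.le hz1 (by linarith : (0:ℝ) ≤ 1 - x)
    (by linarith) hcond
  have hbern : 1 - A.card * x ≤ (1 - x) ^ A.card := by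
    have := one_add_mul_le_pow (a := -x) (by linarith) A.card
    calc 1 - A.card * x = 1 + A.card * (-x) := by ring
      _ ≤ (1 + -x) ^ A.card := this
      _ = (1 - x) ^ A.card := by ring
  have hzs : z ^ s = Real.exp (-1) := by
    rw [hz, ← Real.exp_nat_mul]
    congr 1
    field_simp
  have hpt : ∀ U : Ev n, ind (s ≤ (rch p U A F).card) ≤
      1.6 * (1 - z ^ (rch p U A F).card) := by
    intro U
    by_cases hc : s ≤ (rch p U A F).card
    · rw [ind_true hc]
      have h2 : z ^ (rch p U A F).card ≤ Real.exp (-1) := by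
        rw [← hzs]
        exact pow_le_pow_of_le_one hz0.le hz1 hc
      have h3 : Real.exp (-1) ≤ 0.37 := by
        rw [Real.exp_neg]
        have := Real.exp_one_gt_d9
        rw [inv_le_comm₀ (Real.exp_pos 1) (by norm_num)]
        norm_num
        linarith
      linarith
    · rw [ind_false hc]
      have := pow_le_one₀ (n := (rch p U A F).card) hz0.le hz1
      linarith
  have hbm := Rch2.bm (n := n) p A F (fun j => z ^ j)
  calc Ex (fun U : Ev n => ind (s ≤ (rch p U A F).card)) ≤
        Ex (fun U : Ev n => 1.6 * (1 - z ^ (rch p U A F).card)) :=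
        Ex_mono (Rch2.bm p A F (fun j => ind (s ≤ j)))
          (Rch2.bm p A F (fun j => 1.6 * (1 - z ^ j))) hpt
    _ = 1.6 * (1 - Ex (fun U : Ev n => z ^ (rch p U A F).card)) := by
        rw [Ex_const_mul, Ex_sub (BM.const 1) hbm, Ex_const]
    _ ≤ 1.6 * (A.card * x) := by
        apply mul_le_mul_of_nonneg_left _ (by norm_num)
        linarith
    _ ≤ 7 * A.card * (g + 1 / t) := by
        rw [hx']
        have h2 : 1.6 * (4 * g + 2 * (1 / t)) ≤ 7 * (g + 1 / t) := by linarith
        nlinarith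

/-- subcritical exponential moment -/
theorem rch_sub {p g μ : ℝ} (h0 : 0 ≤ p) (h1 : p ≤ 1) (hg0 : 0 < g) (hg1 : g ≤ 1)
    (A F : Finset (Fin n)) (hAF : Disjoint A F) (hp : F.card * p ≤ 1 - g) (hμ0 : 0 ≤ μ)
    (hμ : μ ≤ g ^ 2 / 4) :
    Ex (fun U : Ev n => Real.exp (μ * (rch p U A F).card)) ≤ Real.exp (2 * μ / g * A.card) := by
  set β := 2 * μ / g with hβ
  have hβ0 : 0 ≤ β := by positivity
  have hβg : β ≤ g / 2 := by
    rw [hβ, div_le_iff₀ hg0]
    nlinarith
  have hβμ : μ = g * β / 2 := by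
    rw [hβ]; field_simp
  have hz : 1 ≤ Real.exp μ := Real.one_le_exp hμ0
  have hρ : 1 ≤ Real.exp β := Real.one_le_exp hβ0
  have hcond : Real.exp μ * (1 - p + p * Real.exp β) ^ F.card ≤ Real.exp β := by
    have e1 : 1 - p + p * Real.exp β ≤ Real.exp (p * (Real.exp β - 1)) := by
      have := Real.add_one_le_exp (p * (Real.exp β - 1))
      linarith
    have e0 : 0 ≤ 1 - p + p * Real.exp β := by
      have := Real.exp_pos β
      nlinarith
    have e2 : (1 - p + p * Real.exp β) ^ F.card ≤ Real.exp (F.card * (p * (Real.exp β - 1))) := by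
      rw [Real.exp_nat_mul]
      exact pow_le_pow_left₀ e0 e1 _
    have e3 : Real.exp β - 1 ≤ β + β ^ 2 := by
      have := Real.abs_exp_sub_one_sub_id_le (x := β) (by rw [abs_of_nonneg hβ0]; linarith)
      have := (abs_le.1 this).2
      linarith
    have e3' : 0 ≤ Real.exp β - 1 := by linarith
    have e4 : F.card * (p * (Real.exp β - 1)) ≤ (1 - g) * (β + β ^ 2) := by
      calc F.card * (p * (Real.exp β - 1)) = (F.card * p) * (Real.exp β - 1) := by ring
        _ ≤ (1 - g) * (Real.exp β - 1) := mul_le_mul_of_nonneg_right hp e3'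
        _ ≤ (1 - g) * (β + β ^ 2) := mul_le_mul_of_nonneg_left e3 (by linarith)
    calc Real.exp μ * (1 - p + p * Real.exp β) ^ F.card ≤
          Real.exp μ * Real.exp (F.card * (p * (Real.exp β - 1))) :=
          mul_le_mul_of_nonneg_left e2 (Real.exp_pos _).le
      _ = Real.exp (μ + F.card * (p * (Real.exp β - 1))) := (Real.exp_add _ _).symm
      _ ≤ Real.exp β := by
          apply Real.exp_le_exp.2
          have h5 : (1 - g) * (β + β ^ 2) ≤ β - g * β + β ^ 2 := by nlinarith [sq_nonneg β]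
          have h6 : β ^ 2 ≤ g / 2 * β := by nlinarith
          nlinarith
  have h := rch_exp (n := n) h0 h1 A F hAF hz hρ hcond
  calc Ex (fun U : Ev n => Real.exp (μ * (rch p U A F).card)) =
        Ex (fun U : Ev n => Real.exp μ ^ (rch p U A F).card) := by
        apply Ex_congr
        intro U
        rw [← Real.exp_nat_mul]
        congr 1
        ring
    _ ≤ Real.exp β ^ A.card := h
    _ = Real.exp (β * A.card) := by
        rw [← Real.exp_nat_mul]
        congr 1
        ring

namespace Rch2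

theorem sum_sqrt (m : ℕ) : ∑ k ∈ Finset.range m, 1 / Real.sqrt ((k + 1 : ℕ) : ℝ) ≤
    2 * Real.sqrt m := by
  induction m with
  | zero => simp
  | succ m ih =>
    rw [Finset.sum_range_succ]
    have h1 : 0 < Real.sqrt ((m + 1 : ℕ) : ℝ) := Real.sqrt_pos.2 (by positivity)
    have h2 : 0 ≤ Real.sqrt (m : ℝ) := Real.sqrt_nonneg _
    have h3 : Real.sqrt ((m + 1 : ℕ) : ℝ) ^ 2 = m + 1 := by
      rw [Real.sq_sqrt (by positivity)]; push_cast; ring
    have h4 : Real.sqrt (m : ℝ) ^ 2 = m := Real.sq_sqrt (by positivity)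
    have h5 : 1 / Real.sqrt ((m + 1 : ℕ) : ℝ) ≤
        2 * Real.sqrt ((m + 1 : ℕ) : ℝ) - 2 * Real.sqrt (m : ℝ) := by
      rw [div_le_iff₀ h1]
      nlinarith [sq_nonneg (Real.sqrt ((m + 1 : ℕ) : ℝ) - Real.sqrt (m : ℝ))]
    linarith

theorem count (m s : ℕ) (hs : 1 ≤ s) : (m : ℝ) * ind (m < s) ≤
    ∑ k ∈ Finset.range (s - 1), ind (k + 1 ≤ m) := by
  by_cases h : m < s
  · rw [ind_true h, mul_one]
    have h1 : ∑ k ∈ Finset.range m, ind (k + 1 ≤ m) ≤
        ∑ k ∈ Finset.range (s - 1), ind (k + 1 ≤ m) := by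
      apply Finset.sum_le_sum_of_subset_of_nonneg
      · intro k hk
        rw [Finset.mem_range] at hk ⊢
        omega
      · intro k _ _
        exact ind_nonneg _
    refine le_trans (le_of_eq ?_) h1
    have h2 : ∑ k ∈ Finset.range m, ind (k + 1 ≤ m) = ∑ k ∈ Finset.range m, (1:ℝ) := by
      apply Finset.sum_congr rfl
      intro k hk
      rw [Finset.mem_range] at hk
      exact ind_true (by omega)
    rw [h2, Finset.sum_const, Finset.card_range, nsmul_eq_mul, mul_one]
  · rw [ind_false h, mul_zero]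
    exact Finset.sum_nonneg (fun k _ => ind_nonneg _)

end Rch2

/-- near-critical lower tail -/
theorem rch_low {p g : ℝ} (h0 : 0 ≤ p) (h1 : p ≤ 1 / 16) (hg0 : 0 < g) (hg1 : g ≤ 1 / 100)
    (A F : Finset (Fin n)) (hAF : Disjoint A F) (s : ℕ) (hs : 1 ≤ s)
    (hp : F.card * p ≤ 1) (hp' : 1 - 2 * g ≤ ((F.card : ℝ) - s) * p) (hsg : s * g ^ 2 * 6400 ≤ 1) :
    1 - (1 - 1 / (112 * Real.sqrt s)) ^ A.card - A.card / (224 * Real.sqrt s) ≤
      Ex (fun U : Ev n => ind (s ≤ (rch p U A F).card)) := by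
  have hs' : (1 : ℝ) ≤ s := by exact_mod_cast hs
  have hs0 : (0 : ℝ) < s := by linarith
  set t := Real.sqrt s with ht
  have ht1 : 1 ≤ t := by rw [ht]; exact Real.one_le_sqrt.2 hs'
  have ht2 : t ^ 2 = s := Real.sq_sqrt hs0.le
  have ht0 : 0 < t := by linarith
  set x := 1 / (112 * t) with hx
  set l := 1 / (3136 * (s : ℝ)) with hl
  have hx0 : 0 < x := by positivity
  have hl0 : 0 < l := by positivity
  have hit : 1 / t ≤ 1 := by rw [div_le_one ht0]; exact ht1
  have hxt : x = 1 / 112 * (1 / t) := by rw [hx]; field_simp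
  have hlt : l = 1 / 3136 * (1 / t) ^ 2 := by rw [hl, ← ht2]; field_simp
  have hit0 : 0 < 1 / t := by positivity
  have hx1 : x ≤ 1 / 112 := by rw [hxt]; linarith
  have hgt : g ≤ 1 / 80 * (1 / t) := by
    have h2 : (80 * g * t) ^ 2 ≤ 1 := by
      calc (80 * g * t) ^ 2 = t ^ 2 * g ^ 2 * 6400 := by ring
        _ = s * g ^ 2 * 6400 := by rw [ht2]
        _ ≤ 1 := hsg
    have h3 : 80 * g * t ≤ 1 := by
      by_contra h
      rw [not_le] at h
      nlinarith
    rw [show 1 / 80 * (1 / t) = (1 / 80) / t by ring, le_div_iff₀ ht0]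
    linarith
  have hmain : 2 * g * x + x ^ 2 ≤ l := by
    rw [hxt, hlt]
    have a1 := mul_le_mul_of_nonneg_right hgt hit0.le
    have a2 : 0 ≤ (1 / t) ^ 2 := by positivity
    calc 2 * g * (1 / 112 * (1 / t)) + (1 / 112 * (1 / t)) ^ 2 =
          1 / 56 * (g * (1 / t)) + 1 / 12544 * (1 / t) ^ 2 := by ring
      _ ≤ 1 / 56 * (1 / 80 * (1 / t) * (1 / t)) + 1 / 12544 * (1 / t) ^ 2 := by linarith
      _ = (1 / 4480 + 1 / 12544) * (1 / t) ^ 2 := by ring
      _ ≤ 1 / 3136 * (1 / t) ^ 2 := mul_le_mul_of_nonneg_right (by norm_num) a2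
  -- the numbers
  have hFs : (s : ℝ) < F.card := by
    by_contra h
    rw [not_lt] at h
    have : ((F.card : ℝ) - s) * p ≤ 0 := mul_nonpos_of_nonpos_of_nonneg (by linarith) h0
    linarith
  have hFs' : s ≤ F.card := by exact_mod_cast hFs.le
  set z := Real.exp (-l) with hz
  have hz0 : 0 < z := Real.exp_pos _
  have hz1 : z ≤ 1 := by
    rw [hz]
    exact Real.exp_le_one_iff.2 (by linarith)
  have hcond : z * (1 - p + p * (1 - x)) ^ (F.card - s) ≤ 1 - x := by
    have e1 : 1 - p + p * (1 - x) = 1 - p * x := by ring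
    rw [e1]
    have e0 : 0 ≤ 1 - p * x := by nlinarith
    have e2 : 1 - p * x ≤ Real.exp (-(p * x)) := by
      have := Real.add_one_le_exp (-(p * x))
      linarith
    have e3 : (1 - p * x) ^ (F.card - s) ≤ Real.exp (-((1 - 2 * g) * x)) := by
      calc (1 - p * x) ^ (F.card - s) ≤ Real.exp (-(p * x)) ^ (F.card - s) :=
            pow_le_pow_left₀ e0 e2 _
        _ = Real.exp (((F.card - s : ℕ) : ℝ) * (-(p * x))) := by rw [Real.exp_nat_mul]
        _ ≤ _ := by
            apply Real.exp_le_exp.2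
            rw [Nat.cast_sub hFs']
            have := mul_le_mul_of_nonneg_right hp' hx0.le
            linarith
    have e4 : Real.exp (-(x + x ^ 2)) ≤ 1 - x := by
      have h2 : (1 - x)⁻¹ ≤ Real.exp (x + x ^ 2) := by
        have h3 := Real.quadratic_le_exp_of_nonneg (x := x + x ^ 2) (by positivity)
        refine le_trans ?_ h3
        rw [inv_le_iff_one_le_mul₀ (by linarith)]
        have : 0 ≤ x ^ 2 * ((1 - x) * (1 + x) ^ 2 / 2 - x) := by
          apply mul_nonneg (by positivity)
          nlinarith [mul_pos hx0 hx0]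
        nlinarith
      rw [Real.exp_neg]
      exact inv_le_of_inv_le₀ (by linarith) h2
    calc z * (1 - p * x) ^ (F.card - s) ≤ Real.exp (-l) * Real.exp (-((1 - 2 * g) * x)) :=
          mul_le_mul_of_nonneg_left e3 (Real.exp_pos _).le
      _ = Real.exp (-l + -((1 - 2 * g) * x)) := (Real.exp_add _ _).symm
      _ ≤ Real.exp (-(x + x ^ 2)) := Real.exp_le_exp.2 (by linarith)
      _ ≤ 1 - x := e4
  have hlap := rch_lap' (n := n) h0 (by linarith) A F hAF hz0.le hz1
    (by linarith : (0:ℝ) < 1 - x) (by linarith) s hcond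
  -- pointwise
  have hpt : ∀ U : Ev n, 1 - ind (s ≤ (rch p U A F).card) ≤
      z ^ (rch p U A F).card * ind ((rch p U A F).card ≤ s) +
        l * ∑ k ∈ Finset.range (s - 1), ind (k + 1 ≤ (rch p U A F).card) := by
    intro U
    set m := (rch p U A F).card with hm
    have hsum0 : 0 ≤ ∑ k ∈ Finset.range (s - 1), ind (k + 1 ≤ m) :=
      Finset.sum_nonneg (fun k _ => ind_nonneg _)
    by_cases hc : s ≤ m
    · rw [ind_true hc]
      have := mul_nonneg (pow_nonneg hz0.le m) (ind_nonneg (m ≤ s))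
      have := mul_nonneg hl0.le hsum0
      linarith
    · rw [ind_false hc, ind_true (by omega : m ≤ s), mul_one, sub_zero]
      have h2 := Rch2.count m s hs
      rw [ind_true (by omega : m < s), mul_one] at h2
      have h3 : 1 - l * m ≤ z ^ m := by
        rw [hz, ← Real.exp_nat_mul]
        have := Real.add_one_le_exp ((m : ℝ) * (-l))
        linarith
      have h4 := mul_le_mul_of_nonneg_left h2 hl0.le
      linarith
  have hbm1 := Rch2.bm (n := n) p A F (fun j => ind (s ≤ j))
  have hbm2 := Rch2.bm (n := n) p A F (fun j => z ^ j * ind (j ≤ s))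
  have hbm3 := Rch2.bm (n := n) p A F
    (fun j => l * ∑ k ∈ Finset.range (s - 1), ind (k + 1 ≤ j))
  have hE : 1 - Ex (fun U : Ev n => ind (s ≤ (rch p U A F).card)) ≤
      (1 - x) ^ A.card + l * ∑ k ∈ Finset.range (s - 1),
        Ex (fun U : Ev n => ind (k + 1 ≤ (rch p U A F).card)) := by
    calc 1 - Ex (fun U : Ev n => ind (s ≤ (rch p U A F).card)) =
          Ex (fun U : Ev n => 1 - ind (s ≤ (rch p U A F).card)) := by
          rw [Ex_sub (BM.const 1) hbm1, Ex_const]
      _ ≤ Ex (fun U : Ev n => z ^ (rch p U A F).card * ind ((rch p U A F).card ≤ s) +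
            l * ∑ k ∈ Finset.range (s - 1), ind (k + 1 ≤ (rch p U A F).card)) :=
          Ex_mono ((BM.const 1).sub hbm1) (hbm2.add hbm3) hpt
      _ = Ex (fun U : Ev n => z ^ (rch p U A F).card * ind ((rch p U A F).card ≤ s)) +
            l * ∑ k ∈ Finset.range (s - 1),
              Ex (fun U : Ev n => ind (k + 1 ≤ (rch p U A F).card)) := by
          rw [Ex_add hbm2 hbm3, Ex_const_mul, Ex_sum]
          intro k _
          exact Rch2.bm (n := n) p A F (fun j => ind (k + 1 ≤ j))
      _ ≤ _ := by linarith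
  have hsum : ∑ k ∈ Finset.range (s - 1),
      Ex (fun U : Ev n => ind (k + 1 ≤ (rch p U A F).card)) ≤ 7 * A.card * (2 * t) := by
    calc ∑ k ∈ Finset.range (s - 1), Ex (fun U : Ev n => ind (k + 1 ≤ (rch p U A F).card)) ≤
          ∑ k ∈ Finset.range (s - 1), 7 * A.card * (1 / Real.sqrt ((k + 1 : ℕ) : ℝ)) := by
          apply Finset.sum_le_sum
          intro k _
          have := rch_tail (n := n) h0 h1 (le_refl (0:ℝ)) zero_le_one A F hAF (by linarith)
            (k + 1) (by omega)
          rw [zero_add] at this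
          exact this
      _ = 7 * A.card * ∑ k ∈ Finset.range (s - 1), (1 / Real.sqrt ((k + 1 : ℕ) : ℝ)) := by
          rw [Finset.mul_sum]
      _ ≤ 7 * A.card * (2 * Real.sqrt ((s - 1 : ℕ) : ℝ)) :=
          mul_le_mul_of_nonneg_left (Rch2.sum_sqrt _) (by positivity)
      _ ≤ 7 * A.card * (2 * t) := by
          apply mul_le_mul_of_nonneg_left _ (by positivity)
          apply mul_le_mul_of_nonneg_left _ (by norm_num)
          apply Real.sqrt_le_sqrt
          exact_mod_cast Nat.sub_le s 1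
  have hfin : l * (7 * A.card * (2 * t)) = A.card / (224 * t) := by
    rw [hl, ← ht2]
    field_simp
    ring
  have h6 := mul_le_mul_of_nonneg_left hsum hl0.le
  rw [hfin] at h6
  linarith

end

end Pool.Agent.TH972.U
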