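import Pool.Agent.TH972.U.Bush2
import Pool.Agent.TH972.U.Rch2

/-!
# Numerics of the supercritical bush
(job RSTRE A2 of helper972, written by helper359; modelled on U/BNum)
-/

set_option autoImplicit false
set_option linter.unusedSectionVars false
set_option linter.unusedVariables false

namespace Pool.Agent.TH972.U

open Finset MeasureTheory Pool.Agent.W842.RST Pool.Agent.TH972

noncomputable section

variable {n : ℕ}

namespace BushA

theorem exp_up {z : ℝ} (h0 : 0 ≤ z) (h1 : z ≤ 1) : Real.exp z - 1 ≤ z + z ^ 2 := by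
  have := Real.abs_exp_sub_one_sub_id_le (x := z) (by rw [abs_of_nonneg h0]; exact h1)
  have h2 := (abs_le.1 this).2
  linarith

theorem exp_down {z : ℝ} (h0 : 0 ≤ z) : z - z ^ 2 / 2 ≤ 1 - Real.exp (-z) := by
  have h1 := Real.quadratic_le_exp_of_nonneg h0
  have h2 : Real.exp (-z) * Real.exp z = 1 := by rw [← Real.exp_add]; simp
  have h3 : Real.exp (-z) * (1 + z + z ^ 2 / 2) ≤ 1 := by
    calc Real.exp (-z) * (1 + z + z ^ 2 / 2) ≤ Real.exp (-z) * Real.exp z :=
          mul_le_mul_of_nonneg_left h1 (Real.exp_pos _).le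
      _ = 1 := h2
  have h4 : 1 ≤ (1 - z + z ^ 2 / 2) * (1 + z + z ^ 2 / 2) := by
    have : (1 - z + z ^ 2 / 2) * (1 + z + z ^ 2 / 2) = 1 + z ^ 4 / 4 := by ring
    rw [this]
    have : 0 ≤ z ^ 4 := by positivity
    linarith
  have h5 : 0 < 1 + z + z ^ 2 / 2 := by positivity
  have h6 : Real.exp (-z) ≤ 1 - z + z ^ 2 / 2 :=
    le_of_mul_le_mul_right (h3.trans h4) h5
  linarith

theorem card_le (F : Finset (Fin n)) : (F.card : ℝ) ≤ n := by
  have : F.card ≤ n := by simpa using Finset.card_le_univ F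
  exact_mod_cast this

theorem BM_bush {pl pt pb : ℝ} {s1 s0 J : ℕ} (v : Fin n) (F : Finset (Fin n))
    (g : Finset (Fin n) × Option (Fin n) → ℝ) :
    BM (fun U : Ev n => g (bush pl pt pb s1 s0 J U v F)) := by
  refine BM_lvl {pl, pt, pb} fun U U' h => ?_
  unfold bush
  rw [Bush.bsh_lvl (U := U) (U' := U') h]

theorem mk_one (pl pb : ℝ) (s0 : ℕ) (U : Ev n) (w : Fin n) (F : Finset (Fin n)) :
    mk pl pb 1 s0 U w F ↔ s0 ≤ (rch pb U {w} F).card := by
  unfold mk
  constructor
  · exact fun h => h.2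
  · intro h
    refine ⟨?_, h⟩
    have h1 : ({w} : Finset (Fin n)) ⊆ rch pl U {w} F := subset_rch pl U {w} F
    have h2 := Finset.card_le_card h1
    rwa [Finset.card_singleton] at h2

/-- the recursion for the failure probability -/
theorem fail_num {lam x : ℝ} (hl : 8 ≤ lam) (hx : 0 ≤ x) :
    min (0.6 * lam) (4 * x) ≤ lam * (1 - Real.exp (-(min (0.6 * lam) x))) := by
  by_cases h1 : 1 ≤ min (0.6 * lam) x
  · have h2 : Real.exp (-(min (0.6 * lam) x)) ≤ Real.exp (-1) := by
      rw [Real.exp_le_exp]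
      linarith
    have h3 := Real.exp_neg_one_lt_d9
    have h4 : 0.6 * lam ≤ lam * (1 - Real.exp (-(min (0.6 * lam) x))) := by nlinarith
    exact (min_le_left _ _).trans h4
  · rw [not_le] at h1
    have h2 : min (0.6 * lam) x = x := by
      rcases min_choice (0.6 * lam) x with h | h
      · rw [h] at h1
        linarith
      · exact h
    rw [h2] at h1 ⊢
    have h3 := exp_down hx
    refine (min_le_right _ _).trans ?_
    have h4 : x / 2 ≤ 1 - Real.exp (-x) := by nlinarith
    nlinarith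

end BushA

open BushA

theorem test_prob_A {pb gb : ℝ} {s0 : ℕ} (hpb : pb = (1 - gb) / n) (hgb : 0 < gb)
    (hgb1 : gb ≤ 1 / 100) (hn : 10 ^ 7 ≤ n * gb ^ 3) (hs0 : s0 * gb ^ 2 * 6400 ≤ 1)
    (hs0' : 1 ≤ s0) (pl : ℝ) (w : Fin n) (F : Finset (Fin n)) (hw : w ∉ F)
    (hF : n * (1 - gb / 4) ≤ F.card) :
    gb / 3 ≤ Ex (fun U : Ev n => ind (mk pl pb 1 s0 U w F)) := by
  have hn3 : (10 : ℝ) ^ 7 ≤ n * gb ^ 3 := hn
  have hgb3 : 0 < gb ^ 3 := by positivity
  have hn0 : (0 : ℝ) < n := by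
    by_contra h
    rw [not_lt] at h
    have : (n : ℝ) * gb ^ 3 ≤ 0 := mul_nonpos_of_nonpos_of_nonneg h hgb3.le
    norm_num at hn3
    linarith
  have hg3 : gb ^ 3 ≤ 1 / 1000000 := by
    have e : gb ^ 3 = gb * gb * gb := by ring
    rw [e]
    have h1 : gb * gb ≤ 1 / 100 * (1 / 100) := mul_le_mul hgb1 hgb1 hgb.le (by norm_num)
    have h2 : gb * gb * gb ≤ 1 / 100 * (1 / 100) * (1 / 100) :=
      mul_le_mul h1 hgb1 hgb.le (by norm_num)
    linarith
  have hn16 : (16 : ℝ) ≤ n := by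
    by_contra h
    rw [not_le] at h
    have : (n : ℝ) * gb ^ 3 ≤ 16 * (1 / 1000000) := mul_le_mul h.le hg3 hgb3.le (by norm_num)
    norm_num at hn3
    linarith
  have hpb0 : 0 ≤ pb := by
    rw [hpb]
    exact div_nonneg (by linarith) hn0.le
  have hnpb : n * pb = 1 - gb := by
    rw [hpb]
    field_simp
  have hpb16 : pb ≤ 1 / 16 := by
    rw [hpb, div_le_div_iff₀ hn0 (by norm_num)]
    linarith
  have hs : (1 : ℝ) ≤ s0 := by exact_mod_cast hs0'
  have hFn := card_le F
  have hsn : (s0 : ℝ) ≤ n * (gb / 2) := by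
    have h1 : (s0 : ℝ) * gb ^ 2 ≤ 1 := by
      have : 0 ≤ (s0 : ℝ) * gb ^ 2 := by positivity
      linarith
    have h2 : (s0 : ℝ) * gb ^ 2 ≤ n * (gb / 2) * gb ^ 2 := by
      have e : (n : ℝ) * (gb / 2) * gb ^ 2 = n * gb ^ 3 / 2 := by ring
      rw [e]
      norm_num at hn3
      linarith
    exact le_of_mul_le_mul_right h2 (by positivity)
  have key := rch_low (n := n) hpb0 hpb16 hgb hgb1 {w} F (by rwa [disjoint_singleton_left]) s0 hs0'
    (by
      calc (F.card : ℝ) * pb ≤ n * pb := mul_le_mul_of_nonneg_right hFn hpb0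
        _ ≤ 1 := by rw [hnpb]; linarith) (by
      have h1 : (n : ℝ) * (1 - gb / 4) - n * (gb / 2) ≤ (F.card : ℝ) - s0 := by linarith
      have h2 : ((n : ℝ) * (1 - gb / 4) - n * (gb / 2)) * pb ≤ ((F.card : ℝ) - s0) * pb :=
        mul_le_mul_of_nonneg_right h1 hpb0
      have e : ((n : ℝ) * (1 - gb / 4) - n * (gb / 2)) * pb = (1 - 3 / 4 * gb) * (n * pb) := by ring
      rw [e, hnpb] at h2
      nlinarith) hs0
  have hcongr : Ex (fun U : Ev n => ind (mk pl pb 1 s0 U w F)) =
      Ex (fun U : Ev n => ind (s0 ≤ (rch pb U {w} F).card)) := by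
    refine Ex_congr fun U => ?_
    by_cases h : mk pl pb 1 s0 U w F
    · rw [ind_true h, ind_true ((mk_one _ _ _ _ _ _).1 h)]
    · rw [ind_false h, ind_false (fun h' => h ((mk_one _ _ _ _ _ _).2 h'))]
  rw [hcongr]
  refine le_trans ?_ key
  have hsq0 : 0 < Real.sqrt s0 := Real.sqrt_pos.2 (by linarith)
  have hsq : 80 * gb * Real.sqrt s0 ≤ 1 := by
    have h2 : (80 * gb * Real.sqrt s0) ^ 2 ≤ (1 : ℝ) ^ 2 := by
      rw [mul_pow, Real.sq_sqrt (by linarith)]
      linarith
    exact le_of_sq_le_sq h2 (by norm_num)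
  rw [Finset.card_singleton, pow_one, Nat.cast_one]
  have e : 1 - (1 - 1 / (112 * Real.sqrt s0)) - 1 / (224 * Real.sqrt s0) =
      1 / (224 * Real.sqrt s0) := by
    field_simp
    norm_num
  rw [e, div_le_div_iff₀ (by norm_num) (by positivity)]
  nlinarith

theorem bush_exp_A {pb pt gb t a : ℝ} {s0 J : ℕ} (hn : 1 ≤ n) (hpb : pb = (1 - gb) / n)
    (hpt : pt = (1 + t) / n) (hgb : 0 < gb) (hgb1 : gb ≤ 1) (ht : 0 ≤ t) (h1 : pt ≤ 1)
    (ha : 0 ≤ a) (ha1 : 16 * a * (3 * (1 + t)) ^ J ≤ gb) (ha2 : a ≤ gb ^ 2 / 4)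
    (v : Fin n) (F : Finset (Fin n)) (hv : v ∉ F) :
    Ex (fun U : Ev n => Real.exp (a * (bush 0 pt pb 1 s0 J U v F).1.card)) ≤ 2 := by
  have hnpos : (0 : ℝ) < n := by exact_mod_cast hn
  set q : ℝ := 3 * (1 + t) with hq
  have hq1 : 1 ≤ q := by
    rw [hq]
    linarith
  set z : ℕ → ℝ := fun h => q ^ (J - h) * (2 * a / gb) with hz
  have hb0 : 0 ≤ 2 * a / gb := by positivity
  have hab : 2 * a ≤ 2 * a / gb := by
    rw [le_div_iff₀ hgb]
    nlinarith
  have hzlow : ∀ h, 2 * a / gb ≤ z h := fun h => by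
    rw [hz]
    exact le_mul_of_one_le_left hb0 (one_le_pow₀ hq1)
  have hz0 : z 0 ≤ 1 / 8 := by
    rw [hz]
    simp only [Nat.sub_zero]
    have e1 : q ^ J * (2 * a / gb) = (16 * a * q ^ J) / (8 * gb) := by field_simp; ring
    rw [e1, div_le_iff₀ (by positivity)]
    linarith
  have hzle : ∀ h, z h ≤ 1 / 8 := fun h => by
    refine le_trans ?_ hz0
    rw [hz]
    exact mul_le_mul_of_nonneg_right (pow_le_pow_right₀ hq1 (by omega)) hb0
  have hzz : ∀ h < J, z h = q * z (h + 1) := by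
    intro h hh
    rw [hz]
    simp only
    rw [show J - h = (J - (h + 1)) + 1 by omega, pow_succ]
    ring
  have hpt0 : 0 ≤ pt := by
    rw [hpt]
    exact div_nonneg (by linarith) hnpos.le
  have hpb0 : 0 ≤ pb := by
    rw [hpb]
    exact div_nonneg (by linarith) hnpos.le
  have hpb1 : pb ≤ 1 := by
    have hn1 : (1 : ℝ) ≤ n := by exact_mod_cast hn
    rw [hpb, div_le_one hnpos]
    linarith
  have hnpt : n * pt = 1 + t := by
    rw [hpt]
    field_simp
  have hFn := card_le F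
  have hkey := bush_size (s1 := 1) (s0 := s0) (J := J) le_rfl hpt0 hpb0 hpb1 h1 v F hv ha
    (fun h => z h - a) (fun h => by have := hzlow h; linarith) ?_ ?_
  · refine hkey.trans ?_
    have e1 : Real.exp (z 0 - a) ≤ Real.exp (1 / 8) := by
      rw [Real.exp_le_exp]
      linarith
    have e2 := exp_up (z := 1 / 8) (by norm_num) (by norm_num)
    linarith
  · intro h hh
    have e1 : a + (z h - a) = z h := by ring
    have e2 : a + (z (h + 1) - a) = z (h + 1) := by ring
    rw [e1, e2, zero_mul, zero_add, sub_zero]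
    have hzh' : 0 ≤ z (h + 1) := hb0.trans (hzlow (h + 1))
    have h2 := exp_up hzh' ((hzle (h + 1)).trans (by norm_num))
    have h3 : Real.exp (z (h + 1)) - 1 ≤ 1.125 * z (h + 1) := by
      have := hzle (h + 1)
      nlinarith
    have h4 : 0 ≤ Real.exp (z (h + 1)) - 1 := by
      have := Real.one_le_exp hzh'
      linarith
    calc (F.card : ℝ) * (pt * (Real.exp (z (h + 1)) - 1)) ≤
          n * (pt * (Real.exp (z (h + 1)) - 1)) :=
          mul_le_mul_of_nonneg_right hFn (mul_nonneg hpt0 h4)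
      _ = (1 + t) * (Real.exp (z (h + 1)) - 1) := by rw [← mul_assoc, hnpt]
      _ ≤ (1 + t) * (1.125 * z (h + 1)) := mul_le_mul_of_nonneg_left h3 (by linarith)
      _ ≤ z h - a := by
          rw [hzz h hh, hq]
          have h5 : a ≤ z (h + 1) := by
            have := hzlow (h + 1)
            linarith
          have h6 : z (h + 1) ≤ (1 + t) * z (h + 1) := by nlinarith
          nlinarith
  · intro w F' hw hF'
    have e1 : a + (z J - a) = 2 * a / gb := by
      rw [hz]
      simp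
    rw [e1]
    have hF'n := card_le F'
    have := rch_sub (p := pb) (g := gb) (μ := a) hpb0 hpb1 hgb hgb1 {w} F'
      (by rwa [disjoint_singleton_left]) (by
        rw [hpb]
        rw [mul_div_assoc', div_le_iff₀ hnpos]
        have : 0 ≤ 1 - gb := by linarith
        nlinarith) ha ha2
    rw [card_singleton, Nat.cast_one, mul_one] at this
    exact this

theorem bush_none_A {pb pt gb t a : ℝ} {s0 J : ℕ} (hpb : pb = (1 - gb) / n)
    (hpt : pt = (1 + t) / n) (hgb : 0 < gb) (hgb1 : gb ≤ 1 / 100) (hn : 10 ^ 7 ≤ n * gb ^ 3)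
    (hs0 : s0 * gb ^ 2 * 6400 ≤ 1) (hs0' : 1 ≤ s0) (ht : 30 ≤ t) (h1 : pt ≤ 1) (ha : 0 ≤ a)
    (ha1 : 16 * a * (3 * (1 + t)) ^ J ≤ gb) (ha2 : a ≤ gb ^ 2 / 4)
    (hJ : 1 + t ≤ 4 ^ J * gb) (v : Fin n) (F : Finset (Fin n)) (hv : v ∉ F) (cap : ℕ)
    (hF : n * (1 - gb / 4) + cap + 1 ≤ F.card) :
    Ex (fun U : Ev n => ind ((bush 0 pt pb 1 s0 J U v F).2 = none)) ≤
      Real.exp (-(0.3 * (1 + t))) + 2 * Real.exp (-(a * cap)) := by
  have hnat : 1 ≤ n := by
    rcases Nat.eq_zero_or_pos n with h | h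
    · exfalso
      rw [h] at hn
      norm_num at hn
    · exact h
  have hnpos : (0 : ℝ) < n := by exact_mod_cast hnat
  have hn1 : (1 : ℝ) ≤ n := by exact_mod_cast hnat
  have hpt0 : 0 ≤ pt := by
    rw [hpt]
    exact div_nonneg (by linarith) hnpos.le
  have hpb0 : 0 ≤ pb := by
    rw [hpb]
    exact div_nonneg (by linarith) hnpos.le
  have hpb1 : pb ≤ 1 := by
    rw [hpb, div_le_one hnpos]
    linarith
  have hnpt : n * pt = 1 + t := by
    rw [hpt]
    field_simp
  -- splitting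
  have hBM1 := BM_bush (pl := 0) (pt := pt) (pb := pb) (s1 := 1) (s0 := s0) (J := J) v F
    (fun R => ind (R.2 = none))
  have hBM2 := BM_bush (pl := 0) (pt := pt) (pb := pb) (s1 := 1) (s0 := s0) (J := J) v F
    (fun R => ind (R.2 = none ∧ R.1.card ≤ cap))
  have hBM3 := BM_bush (pl := 0) (pt := pt) (pb := pb) (s1 := 1) (s0 := s0) (J := J) v F
    (fun R => Real.exp (-(a * cap)) * Real.exp (a * R.1.card))
  have hsplit : Ex (fun U : Ev n => ind ((bush 0 pt pb 1 s0 J U v F).2 = none)) ≤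
      Ex (fun U : Ev n => ind ((bush 0 pt pb 1 s0 J U v F).2 = none ∧
        (bush 0 pt pb 1 s0 J U v F).1.card ≤ cap)) +
      Ex (fun U : Ev n => Real.exp (-(a * cap)) *
        Real.exp (a * (bush 0 pt pb 1 s0 J U v F).1.card)) := by
    rw [← Ex_add hBM2 hBM3]
    refine Ex_mono hBM1 (hBM2.add hBM3) fun U => ?_
    by_cases hc : (bush 0 pt pb 1 s0 J U v F).1.card ≤ cap
    · have e1 : ind ((bush 0 pt pb 1 s0 J U v F).2 = none) =
          ind ((bush 0 pt pb 1 s0 J U v F).2 = none ∧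
            (bush 0 pt pb 1 s0 J U v F).1.card ≤ cap) := by
        congr 1
        simp [hc]
      have : 0 ≤ Real.exp (-(a * cap)) *
        Real.exp (a * (bush 0 pt pb 1 s0 J U v F).1.card) := by positivity
      linarith
    · have e1 : 1 ≤ Real.exp (-(a * cap)) *
          Real.exp (a * (bush 0 pt pb 1 s0 J U v F).1.card) := by
        rw [← Real.exp_add]
        apply Real.one_le_exp
        have : (cap : ℝ) ≤ (bush 0 pt pb 1 s0 J U v F).1.card := by
          exact_mod_cast (not_le.1 hc).le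
        nlinarith
      have e2 := ind_le_one ((bush 0 pt pb 1 s0 J U v F).2 = none)
      have e3 := ind_nonneg ((bush 0 pt pb 1 s0 J U v F).2 = none ∧
            (bush 0 pt pb 1 s0 J U v F).1.card ≤ cap)
      linarith
  have hexp := bush_exp_A (s0 := s0) (J := J) hnat hpb hpt hgb (by linarith) (by linarith) h1 ha
    ha1 ha2 v F hv
  have hsecond : Ex (fun U : Ev n => Real.exp (-(a * cap)) *
        Real.exp (a * (bush 0 pt pb 1 s0 J U v F).1.card)) ≤ 2 * Real.exp (-(a * cap)) := by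
    rw [Ex_const_mul, mul_comm]
    exact mul_le_mul_of_nonneg_right hexp (Real.exp_pos _).le
  -- first term
  have hfmin : (n : ℝ) * (1 - gb / 4) ≤ ⌈(n : ℝ) * (1 - gb / 4)⌉₊ := Nat.le_ceil _
  have hfmin' : (⌈(n : ℝ) * (1 - gb / 4)⌉₊ : ℝ) < n * (1 - gb / 4) + 1 :=
    Nat.ceil_lt_add_one (by
      have : 0 ≤ 1 - gb / 4 := by linarith
      positivity)
  set fmin := ⌈(n : ℝ) * (1 - gb / 4)⌉₊ with hfm
  set lam : ℝ := (1 + t) / 2 with hlam
  have hl : 8 ≤ lam := by
    rw [hlam]
    linarith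
  have hfirst : Ex (fun U : Ev n => ind ((bush 0 pt pb 1 s0 J U v F).2 = none ∧
        (bush 0 pt pb 1 s0 J U v F).1.card ≤ cap)) ≤ Real.exp (-(0.3 * (1 + t))) := by
    have h3 := bush_fail (s1 := 1) (s0 := s0) (J := J) le_rfl hpt0 hpb0 hpb1 h1 v F hv
      (fun h => min (0.6 * lam) (4 ^ (J - h) * (gb / 3)))
      (fun h => le_min (by positivity) (by positivity)) cap fmin ?_ ?_ ?_
    · refine h3.trans ?_
      rw [Real.exp_le_exp, neg_le_neg_iff]
      refine le_min ?_ ?_
      · rw [hlam]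
        linarith
      · rw [Nat.sub_zero]
        linarith
    · have : ((fmin + cap : ℕ) : ℝ) ≤ F.card := by
        push_cast
        linarith
      exact_mod_cast this
    · intro h hh
      have e0 : (4 : ℝ) ^ (J - h) * (gb / 3) = 4 * (4 ^ (J - (h + 1)) * (gb / 3)) := by
        rw [show J - h = (J - (h + 1)) + 1 by omega, pow_succ]
        ring
      have h4 := fail_num hl (x := 4 ^ (J - (h + 1)) * (gb / 3)) (by positivity)
      rw [e0, zero_mul, zero_add, sub_zero]
      refine h4.trans ?_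
      have e3 : 0 ≤ 1 - Real.exp (-(min (0.6 * lam) (4 ^ (J - (h + 1)) * (gb / 3)))) := by
        have : Real.exp (-(min (0.6 * lam) (4 ^ (J - (h + 1)) * (gb / 3)))) ≤ 1 := by
          rw [Real.exp_le_one_iff, neg_nonpos]
          exact le_min (by positivity) (by positivity)
        linarith
      have e4 : lam ≤ fmin * pt := by
        have e5 : (n : ℝ) * (1 - gb / 4) * pt ≤ fmin * pt := mul_le_mul_of_nonneg_right hfmin hpt0
        have e6 : (n : ℝ) * (1 - gb / 4) * pt = (1 - gb / 4) * (1 + t) := by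
          rw [← hnpt]
          ring
        rw [e6] at e5
        rw [hlam]
        nlinarith
      rw [← mul_assoc]
      exact mul_le_mul_of_nonneg_right e4 e3
    · intro w F' hw hF1 hF2
      have hmk := test_prob_A hpb hgb hgb1 hn hs0 hs0' 0 w F' hw
        (hfmin.trans (by exact_mod_cast hF1))
      have hBMk : BM (fun U : Ev n => ind (mk 0 pb 1 s0 U w F')) := by
        refine BM_lvl {0, pb} fun U U' h => ?_
        have hr : ∀ p ∈ ({0, pb} : Finset ℝ), rch p U {w} F' = rch p U' {w} F' := by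
          intro p hp
          refine rch_lvl p {w} F' fun e q hq => ?_
          rw [mem_singleton] at hq
          rw [hq]
          exact h e p hp
        unfold mk
        rw [hr 0 (by simp), hr pb (by simp)]
      have e1 : Ex (fun U : Ev n => ind (¬ mk 0 pb 1 s0 U w F')) =
          1 - Ex (fun U : Ev n => ind (mk 0 pb 1 s0 U w F')) := by
        have : ∀ U : Ev n, ind (¬ mk 0 pb 1 s0 U w F') = 1 - ind (mk 0 pb 1 s0 U w F') := by
          intro U
          by_cases hc : mk 0 pb 1 s0 U w F'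
          · rw [ind_true hc, ind_false (by simpa using hc)]; ring
          · rw [ind_false hc, ind_true hc]; ring
        rw [Ex_congr this, Ex_sub (BM.const 1) hBMk, Ex_const]
      rw [e1]
      have e2 : min (0.6 * lam) (4 ^ (J - J) * (gb / 3)) ≤ gb / 3 := by
        refine (min_le_right _ _).trans ?_
        rw [Nat.sub_self, pow_zero, one_mul]
      have e4 : 1 - gb / 3 ≤ Real.exp (-(min (0.6 * lam) (4 ^ (J - J) * (gb / 3)))) := by
        have := Real.add_one_le_exp (-(min (0.6 * lam) (4 ^ (J - J) * (gb / 3))))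
        linarith
      linarith
  linarith

end

end Pool.Agent.TH972.U
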