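import Pool.Agent.TH972.U.Grn

/-!
# Survival probabilities, energy form, hitting bound
-/

set_option autoImplicit false
set_option linter.unusedSectionVars false

namespace Pool.Agent.TH972.U

open Finset

noncomputable section

variable {V : Type} [Fintype V] [DecidableEq V]

open Grn

/-- probability to be killed before hitting `D` -/
def surv (N : Net V) (D : Finset V) (x : V) : ℝ := ∑ y, grn N D x y * N.k y

theorem surv_nonneg (N : Net V) (D : Finset V) (x : V) : 0 ≤ surv N D x :=
  Finset.sum_nonneg fun y _ => mul_nonneg (grn_nonneg N D x y) (N.k_nonneg y)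

theorem surv_mem (N : Net V) {D : Finset V} {x : V} (hx : x ∈ D) : surv N D x = 0 := by
  unfold surv
  exact Finset.sum_eq_zero fun y _ => by rw [grn_left N y hx, zero_mul]

theorem surv_harm (N : Net V) {D : Finset V} {x : V} (hx : x ∉ D) :
    (cs N.κ x + N.k x) * surv N D x = N.k x + ∑ w, Kc N.κ x w * surv N D w := by
  unfold surv
  have h1 : ∀ y, (cs N.κ x + N.k x) * grn N D x y =
      (if x = y then 1 else 0) + ∑ w, Kc N.κ x w * grn N D w y := by
    intro y
    by_cases hy : y ∈ D
    · have hxy : x ≠ y := fun h => hx (h ▸ hy)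
      rw [grn_right N x hy, mul_zero, if_neg hxy, zero_add]
      exact (Finset.sum_eq_zero fun w _ => by rw [grn_right N w hy, mul_zero]).symm
    · exact grn_eq N hx hy
  have h2 : (cs N.κ x + N.k x) * ∑ y, grn N D x y * N.k y =
      ∑ y, ((if x = y then N.k y else 0) + ∑ w, Kc N.κ x w * (grn N D w y * N.k y)) := by
    rw [Finset.mul_sum]
    apply Finset.sum_congr rfl
    intro y _
    rw [← mul_assoc, h1, add_mul, Finset.sum_mul]
    congr 1
    · split_ifs <;> ring
    · exact Finset.sum_congr rfl fun w _ => by ring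
  rw [h2, Finset.sum_add_distrib, Finset.sum_ite_eq, if_pos (mem_univ x), Finset.sum_comm]
  congr 1
  apply Finset.sum_congr rfl
  intro w _
  rw [Finset.mul_sum]

namespace Grn2

lemma harm_one (N : Net V) {D : Finset V} {x : V} (hx : x ∉ D) :
    (cs N.κ x + N.k x) * (surv N D x - 1) = ∑ w, Kc N.κ x w * (surv N D w - 1) := by
  have h1 := surv_harm N hx
  have e : ∑ w, Kc N.κ x w * (surv N D w - 1) =
      ∑ w, Kc N.κ x w * surv N D w - cs N.κ x * 1 := by
    rw [cs_mul, ← Finset.sum_sub_distrib]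
    exact Finset.sum_congr rfl fun w _ => by ring
  rw [e]
  linear_combination h1

end Grn2

open Grn2

theorem surv_le_one (N : Net V) (D : Finset V) (x : V) : surv N D x ≤ 1 := by
  have h1 := max_pr N D (fun x => surv N D x - 1) (fun x hx => by
    rw [surv_mem N hx]
    norm_num) (fun x hx => (harm_one N hx).le) x
  linarith

theorem surv_empty (N : Net V) (x : V) : surv N ∅ x = 1 := by
  have h1 := uniq N ∅ (fun x => surv N ∅ x - 1) (fun x hx => by simp at hx)
    (fun x hx => harm_one N hx) x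
  linarith

theorem surv_anti (N : Net V) {D D' : Finset V} (h : D ⊆ D') (x : V) :
    surv N D' x ≤ surv N D x :=
  Finset.sum_le_sum fun y _ => mul_le_mul_of_nonneg_right (grn_anti N h x y) (N.k_nonneg y)

theorem surv_eq (N : Net V) {D : Finset V} {x : V} (hx : x ∉ D) :
    surv N D x = grn N D x x * (N.k x + ∑ w, Kc N.κ x w * surv N (insert x D) w) := by
  have hG := (grn_pos N hx).ne'
  have h1 : ∀ w, surv N (insert x D) w =
      surv N D w - grn N D w x * (surv N D x / grn N D x x) := by
    intro w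
    unfold surv
    rw [Finset.sum_div, Finset.mul_sum, ← Finset.sum_sub_distrib]
    apply Finset.sum_congr rfl
    intro y _
    rw [grn_insert N hx]
    ring
  have h2 : ∑ w, Kc N.κ x w * surv N (insert x D) w =
      ∑ w, Kc N.κ x w * surv N D w -
        (∑ w, Kc N.κ x w * grn N D w x) * (surv N D x / grn N D x x) := by
    rw [Finset.sum_mul, ← Finset.sum_sub_distrib]
    exact Finset.sum_congr rfl fun w _ => by rw [h1]; ring
  have h3 := surv_harm N hx
  have h4 := grn_eq N hx hx
  rw [if_pos rfl] at h4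
  have h5 : ∑ w, Kc N.κ x w * grn N D w x = (cs N.κ x + N.k x) * grn N D x x - 1 := by
    linarith
  have h6 : ∑ w, Kc N.κ x w * surv N D w = (cs N.κ x + N.k x) * surv N D x - N.k x := by
    linarith
  rw [h2, h5, h6]
  field_simp
  ring

/-- the energy form -/
def EB (N : Net V) (f g : V → ℝ) : ℝ :=
  (∑ x, ∑ y, Kc N.κ x y * (f x - f y) * (g x - g y)) / 2 + ∑ x, N.k x * f x * g x

theorem EB_self (N : Net V) (f : V → ℝ) : EB N f f = EK N f := by
  unfold EB EK En
  congr 1
  · congr 1
    apply Finset.sum_congr rfl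
    intro x _
    apply Finset.sum_congr rfl
    intro y _
    ring
  · apply Finset.sum_congr rfl
    intro x _
    ring

namespace Grn2

lemma EB_eq (N : Net V) (f g : V → ℝ) :
    EB N f g = ∑ x, f x * ((cs N.κ x + N.k x) * g x - ∑ w, Kc N.κ x w * g w) := by
  unfold EB
  have hswap : ∑ x, ∑ y, Kc N.κ x y * f y * (g x - g y) =
      - ∑ x, ∑ y, Kc N.κ x y * f x * (g x - g y) := by
    rw [Finset.sum_comm, ← Finset.sum_neg_distrib]
    apply Finset.sum_congr rfl
    intro x _
    rw [← Finset.sum_neg_distrib]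
    apply Finset.sum_congr rfl
    intro y _
    rw [Kc_symm N.κ y x]
    ring
  have h1 : ∑ x, ∑ y, Kc N.κ x y * (f x - f y) * (g x - g y) =
      2 * ∑ x, ∑ y, Kc N.κ x y * f x * (g x - g y) := by
    have e : ∀ x y, Kc N.κ x y * (f x - f y) * (g x - g y) =
        Kc N.κ x y * f x * (g x - g y) - Kc N.κ x y * f y * (g x - g y) := by
      intro x y
      ring
    simp only [e, Finset.sum_sub_distrib]
    rw [hswap]
    ring
  rw [h1, mul_div_cancel_left₀ _ (two_ne_zero), ← Finset.sum_add_distrib]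
  apply Finset.sum_congr rfl
  intro x _
  have h2 : ∑ y, Kc N.κ x y * f x * (g x - g y) =
      f x * (cs N.κ x * g x - ∑ w, Kc N.κ x w * g w) := by
    rw [cs_mul, ← Finset.sum_sub_distrib, Finset.mul_sum]
    exact Finset.sum_congr rfl fun w _ => by ring
  rw [h2]
  ring

lemma EB_symm (N : Net V) (f g : V → ℝ) : EB N f g = EB N g f := by
  unfold EB
  congr 1
  · congr 1
    apply Finset.sum_congr rfl
    intro x _
    apply Finset.sum_congr rfl
    intro y _
    ring
  · apply Finset.sum_congr rfl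
    intro x _
    ring

lemma EK_nonneg (N : Net V) (f : V → ℝ) : 0 ≤ EK N f := by
  unfold EK En
  apply add_nonneg
  · apply div_nonneg _ (by norm_num)
    exact Finset.sum_nonneg fun x _ => Finset.sum_nonneg fun y _ =>
      mul_nonneg (Kc_nn N x y) (sq_nonneg _)
  · exact Finset.sum_nonneg fun x _ => mul_nonneg (N.k_nonneg x) (sq_nonneg _)

lemma EK_sub (N : Net V) (f g : V → ℝ) (t : ℝ) :
    EK N (fun x => f x - t * g x) = EK N f - 2 * t * EB N f g + t ^ 2 * EK N g := by
  rw [← EB_self, ← EB_self, ← EB_self]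
  unfold EB
  have h1 : ∀ x y, Kc N.κ x y * (f x - t * g x - (f y - t * g y)) *
      (f x - t * g x - (f y - t * g y)) =
      Kc N.κ x y * (f x - f y) * (f x - f y) - 2 * t * (Kc N.κ x y * (f x - f y) * (g x - g y)) +
        t ^ 2 * (Kc N.κ x y * (g x - g y) * (g x - g y)) := by
    intro x y
    ring
  have h2 : ∀ x, N.k x * (f x - t * g x) * (f x - t * g x) =
      N.k x * f x * f x - 2 * t * (N.k x * f x * g x) + t ^ 2 * (N.k x * g x * g x) := by
    intro x
    ring
  simp only [h1, h2, Finset.sum_add_distrib, Finset.sum_sub_distrib, ← Finset.mul_sum]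
  ring

end Grn2

theorem EB_grn (N : Net V) {D : Finset V} (f : V → ℝ) (hf : ∀ x ∈ D, f x = 0) {a : V}
    (ha : a ∉ D) : EB N f (fun x => grn N D x a) = f a := by
  rw [EB_eq]
  have h1 : ∀ x, f x * ((cs N.κ x + N.k x) * grn N D x a - ∑ w, Kc N.κ x w * grn N D w a) =
      if x = a then f x else 0 := by
    intro x
    by_cases hx : x ∈ D
    · have hxa : x ≠ a := fun h => ha (h ▸ hx)
      rw [hf x hx, zero_mul, if_neg hxa]
    · rw [grn_eq N hx ha]
      split_ifs <;> ring
  simp only [h1]
  rw [Finset.sum_ite_eq' univ a, if_pos (mem_univ a)]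

theorem grn_var1 (N : Net V) {D : Finset V} (f : V → ℝ) (hf : ∀ x ∈ D, f x = 0) (a : V) :
    f a ^ 2 ≤ grn N D a a * EK N f := by
  by_cases ha : a ∈ D
  · rw [hf a ha, grn_left N a ha]
    norm_num
  · have hG := grn_pos N ha
    have h1 := EK_nonneg N (fun x => f x - (f a / grn N D a a) * grn N D x a)
    rw [EK_sub N f (fun x => grn N D x a), EB_grn N f hf ha, ← EB_self N (fun x => grn N D x a),
      EB_grn N (fun x => grn N D x a) (fun x hx => grn_left N a hx) ha] at h1
    have h2 : EK N f - 2 * (f a / grn N D a a) * f a + (f a / grn N D a a) ^ 2 * grn N D a a =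
        EK N f - f a ^ 2 / grn N D a a := by
      field_simp
      ring
    rw [h2] at h1
    have h3 : f a ^ 2 / grn N D a a ≤ EK N f := by linarith
    rw [div_le_iff₀ hG] at h3
    linarith

theorem grn_var2 (N : Net V) {D : Finset V} (a : V) {R : ℝ} (hR : 0 ≤ R)
    (h : ∀ f : V → ℝ, (∀ x ∈ D, f x = 0) → f a ^ 2 ≤ R * EK N f) : grn N D a a ≤ R := by
  by_cases ha : a ∈ D
  · rw [grn_left N a ha]
    exact hR
  · have hG := grn_pos N ha
    have h1 := h (fun x => grn N D x a) (fun x hx => grn_left N a hx)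
    rw [← EB_self, EB_grn N (fun x => grn N D x a) (fun x hx => grn_left N a hx) ha] at h1
    nlinarith

theorem grn_hit (N : Net V) {a r : ℝ} (ha : 0 < a) (hr : 0 < r) {u v : V} (huv : u ≠ v)
    (hc : 1 / r ≤ Kc N.κ u v) (hu : 1 / a ≤ grn N ∅ u u) :
    grn N ∅ v v ≤ (1 + a * r) * grn N ∅ u v := by
  have hv0 : v ∉ (∅ : Finset V) := Finset.notMem_empty v
  have hu0 : u ∉ (∅ : Finset V) := Finset.notMem_empty u
  have hGv := grn_pos N hv0
  have hGu := grn_pos N hu0
  set Gv : ℝ := grn N ∅ v v with hGvd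
  set Guv : ℝ := grn N ∅ u v with hGuvd
  have hsym : grn N ∅ v u = Guv := grn_symm N ∅ v u
  set h : ℝ := Guv / Gv with hh
  have hh0 : 0 ≤ h := div_nonneg (grn_nonneg N ∅ u v) hGv.le
  have hh1 : h ≤ 1 := by
    rw [hh, div_le_one hGv]
    exact grn_le_diag N ∅ u v
  have hGuv : Guv = h * Gv := by
    rw [hh]
    field_simp
  have hle : Guv ≤ grn N ∅ u u := by
    rw [← hsym]
    exact grn_le_diag N ∅ v u
  -- the Green function killed at `v`
  have hins : ∀ w, grn N (insert v ∅) u w = grn N ∅ u w - h * grn N ∅ v w := by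
    intro w
    rw [grn_insert N hv0, hh]
    ring
  have h1 : (1 - h) * (1 / a) ≤ grn N (insert v ∅) u u := by
    rw [hins, hsym]
    have e1 : h * Guv ≤ h * grn N ∅ u u := mul_le_mul_of_nonneg_left hle hh0
    have e2 : (1 - h) * (1 / a) ≤ (1 - h) * grn N ∅ u u :=
      mul_le_mul_of_nonneg_left hu (by linarith)
    nlinarith
  have h2 : ∑ w, Kc N.κ v w * grn N (insert v ∅) u w = h := by
    have e1 : ∑ w, Kc N.κ v w * grn N (insert v ∅) u w =
        ∑ w, Kc N.κ v w * grn N ∅ w u - h * ∑ w, Kc N.κ v w * grn N ∅ w v := by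
      rw [Finset.mul_sum, ← Finset.sum_sub_distrib]
      apply Finset.sum_congr rfl
      intro w _
      rw [hins, grn_symm N ∅ u w, grn_symm N ∅ v w]
      ring
    have e2 := grn_eq N hv0 hu0
    have e3 := grn_eq N hv0 hv0
    rw [if_neg (Ne.symm huv), zero_add, hsym] at e2
    rw [if_pos rfl] at e3
    rw [e1, ← e2]
    have e4 : ∑ w, Kc N.κ v w * grn N ∅ w v = (cs N.κ v + N.k v) * Gv - 1 := by linarith
    rw [e4, hGuv]
    ring
  have h3 : Kc N.κ v u * grn N (insert v ∅) u u ≤ h := by
    rw [← h2]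
    exact Finset.single_le_sum (f := fun w => Kc N.κ v w * grn N (insert v ∅) u w)
      (fun w _ => mul_nonneg (Kc_nn N v w) (grn_nonneg N _ u w)) (mem_univ u)
  have hK : 1 / r ≤ Kc N.κ v u := by
    rw [Kc_symm]
    exact hc
  have h4 : (1 / r) * ((1 - h) * (1 / a)) ≤ h := by
    have e0 : 0 ≤ (1 - h) * (1 / a) := mul_nonneg (by linarith) (by positivity)
    calc (1 / r) * ((1 - h) * (1 / a)) ≤ Kc N.κ v u * ((1 - h) * (1 / a)) :=
          mul_le_mul_of_nonneg_right hK e0
      _ ≤ Kc N.κ v u * grn N (insert v ∅) u u :=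
          mul_le_mul_of_nonneg_left h1 (Kc_nn N v u)
      _ ≤ h := h3
  have h5 : 1 - h ≤ h * (a * r) := by
    have e : (1 / r) * ((1 - h) * (1 / a)) = (1 - h) / (a * r) := by
      field_simp
    rw [e, div_le_iff₀ (by positivity)] at h4
    exact h4
  rw [hGuv]
  have h6 : 1 ≤ (1 + a * r) * h := by linarith
  nlinarith

/-- hitting probabilities multiply along intermediate vertices -/
theorem grn_chain (N : Net V) (D : Finset V) (x y z : V) :
    grn N D x y * grn N D y z ≤ grn N D x z * grn N D y y := by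
  by_cases hy : y ∈ D
  · rw [grn_right N x hy, grn_right N y hy]
    norm_num
  · have hG := grn_pos N hy
    have h1 := grn_nonneg N (insert y D) x z
    rw [grn_insert N hy] at h1
    have h2 : grn N D x y * grn N D y z / grn N D y y ≤ grn N D x z := by linarith
    rw [div_le_iff₀ hG] at h2
    exact h2

end

end Pool.Agent.TH972.U
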