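import Pool.Agent.TH972.U.GDef
import Pool.Agent.TH972.U.Rch
import Pool.Agent.TH972.U.Grn2

/-!
# Escape conductance
(job RSTRE Y1 of helper972, written by helper75)
-/

set_option autoImplicit false

namespace Pool.Agent.TH972.U

open Finset MeasureTheory Pool.Agent.W842.RST Pool.Agent.TH972

noncomputable section

variable {n : ℕ}

namespace Cap

lemma mem_cmp {G : SimpleGraph (Fin n)} {v u : Fin n} : u ∈ cmp G v ↔ G.Reachable v u := by
  classical
  unfold cmp
  simp only [mem_filter, mem_univ, true_and]

lemma cmp_closed {U : Ev n} {p : ℝ} {v x y : Fin n} (hx : x ∈ cmp (GU U p) v)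
    (h : U s(x, y) ≤ p) : y ∈ cmp (GU U p) v := by
  by_cases hxy : x = y
  · rwa [← hxy]
  · rw [mem_cmp] at hx ⊢
    exact hx.trans (SimpleGraph.Adj.reachable (GU_adj.2 ⟨h, hxy⟩))

lemma un_erase {T : Finset (Fin n)} {w : Fin n} (hw : w ∈ T) : {w} ∪ T.erase w = T := by
  rw [← insert_eq, insert_erase hw]

lemma K_sub {U : Ev n} {pt : ℝ} {T : Finset (Fin n)} {w y : Fin n} (hw : w ∈ T) (hy : y ∈ T)
    (h : U s(w, y) ≤ pt) : rch pt U {w} (T.erase w) ⊆ rch pt U {y} (T.erase y) := by
  apply Rch.least
  · intro a ha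
    rw [mem_singleton] at ha
    subst ha
    refine Rch.closed (subset_rch pt U {y} (T.erase y) (mem_singleton_self y)) ?_ (b := a) ?_
    · rwa [un_erase hy]
    · rwa [Sym2.eq_swap]
  · intro a ha b hb hab
    rw [un_erase hw] at hb
    exact Rch.closed ha (by rwa [un_erase hy]) hab

end Cap

/-- the escape conductance from every vertex is bounded by the number of arms -/
theorem cap_le (hn : 1 ≤ n) (U : Ev n) (N : Net (Fin n)) {pl pb pt smax A k : ℝ} {s1 s0 sa : ℕ}
    (hlb : pl ≤ pb) (hbt : pb ≤ pt) (hsa : sa ≤ s1)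
    (hk : ∀ x, x ∉ marks pl pb s1 s0 U → N.k x = 0) (hk' : ∀ x, N.k x ≤ k) (hk0 : 0 ≤ k)
    (h3 : ∀ e, pb < U e → N.κ e ≤ 3) (ht : ∀ e, pt < U e → N.κ e ≤ 1 / (n : ℝ) ^ 2)
    (hs : ∀ v, ((cmp (GU U pb) v).card : ℝ) ≤ smax) (hks : k * smax ≤ 1)
    (hA : ∀ v, arm pb pt sa U v ≤ A) (v : Fin n) :
    1 / (3 * A + 2) ≤ grn N ∅ v v := by
  classical
  set S := cmp (GU U pb) v with hS
  set T := univ \ S with hT
  set K : Fin n → Finset (Fin n) := fun w => rch pt U {w} (T.erase w) with hK
  set H : Finset (Fin n) := S ∪ T.filter (fun w => (K w).card < sa ∧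
    ∃ z ∈ K w, ∃ y ∈ S, U s(z, y) ≤ pt) with hH
  set f : Fin n → ℝ := fun x => if x ∈ H then 1 else 0 with hf
  have hvS : v ∈ S := Cap.mem_cmp.2 (SimpleGraph.Reachable.refl v)
  have hvH : v ∈ H := mem_union_left _ hvS
  have hn0 : (0 : ℝ) < n := by exact_mod_cast hn
  have hmT : ∀ x, x ∈ T ↔ x ∉ S := fun x => by simp [hT]
  -- the pairs counted by the arms
  set P : Finset (Fin n × Fin n) := (S ×ˢ T).filter (fun q => U s(q.1, q.2) ≤ pt ∧
    sa ≤ (K q.2).card) with hP
  have hPA : (P.card : ℝ) ≤ A := by
    refine le_trans (le_of_eq ?_) (hA v)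
    unfold arm
    rfl
  have hA0 : 0 ≤ A := le_trans (Nat.cast_nonneg _) hPA
  have hpair : ∀ x y, x ∈ H → y ∉ H → U s(x, y) ≤ pt → (x, y) ∈ P ∧ pb < U s(x, y) := by
    intro x y hx hy hxy
    have hyS : y ∉ S := fun h => hy (mem_union_left _ h)
    have hyT : y ∈ T := (hmT y).2 hyS
    have hxS : x ∈ S := by
      by_contra hxS
      have hxT : x ∈ T := (hmT x).2 hxS
      rw [hH, mem_union] at hx
      rcases hx with hx | hx
      · exact hxS hx
      · rw [mem_filter] at hx
        have hKK : K x = K y := Subset.antisymm (Cap.K_sub hxT hyT hxy)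
          (Cap.K_sub hyT hxT (by rwa [Sym2.eq_swap]))
        apply hy
        rw [hH, mem_union, mem_filter]
        right
        rw [← hKK]
        exact ⟨hyT, hx.2⟩
    refine ⟨?_, ?_⟩
    · rw [hP, mem_filter, mem_product]
      refine ⟨⟨hxS, hyT⟩, hxy, ?_⟩
      by_contra hcon
      apply hy
      rw [hH, mem_union, mem_filter]
      right
      refine ⟨hyT, not_le.1 hcon, y, subset_rch pt U {y} (T.erase y) (mem_singleton_self y), x,
        hxS, ?_⟩
      rwa [Sym2.eq_swap]
    · by_contra hcon
      exact hyS (Cap.cmp_closed hxS (not_lt.1 hcon))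
  -- the killing
  have hkill : ∑ x, N.k x * f x ^ 2 ≤ 1 := by
    have h1 : ∑ x, N.k x * f x ^ 2 ≤ ∑ x, (if x ∈ S then k else 0) := by
      refine sum_le_sum fun x _ => ?_
      by_cases hxH : x ∈ H
      · have hfx : f x = 1 := if_pos hxH
        rw [hfx, one_pow, mul_one]
        by_cases hxS : x ∈ S
        · rw [if_pos hxS]
          exact hk' x
        · rw [if_neg hxS]
          have hxT : x ∈ T := (hmT x).2 hxS
          refine le_of_eq (hk x ?_)
          intro hmk
          rw [hH, mem_union, mem_filter] at hxH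
          rcases hxH with h | h
          · exact hxS h
          · unfold marks at hmk
            rw [mem_filter] at hmk
            have h2 : cmp (GU U pl) x ⊆ K x := by
              rw [← rch_cmp]
              apply Rch.least
              · exact subset_rch pt U {x} (T.erase x)
              · intro a ha b _ hab
                have haT : a ∈ T := by
                  have := rch_subset pt U {x} (T.erase x) ha
                  rwa [Cap.un_erase hxT] at this
                refine Rch.closed ha ?_ ((hab.trans hlb).trans hbt)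
                rw [Cap.un_erase hxT, hmT]
                intro hbS
                refine (hmT a).1 haT (Cap.cmp_closed hbS ?_)
                rw [Sym2.eq_swap]
                exact hab.trans hlb
            have h3 := card_le_card h2
            have h4 := hmk.2.1
            have h5 := h.2.1
            omega
      · have hfx : f x = 0 := if_neg hxH
        rw [hfx]
        split_ifs
        · simpa using hk0
        · simp
    refine h1.trans ?_
    rw [sum_ite_mem, univ_inter, sum_const, nsmul_eq_mul]
    calc (S.card : ℝ) * k ≤ smax * k := mul_le_mul_of_nonneg_right (hs v) hk0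
      _ = k * smax := mul_comm _ _
      _ ≤ 1 := hks
  -- the energy
  have hen : En N.κ f ≤ 3 * A + 1 / 2 := by
    have h1 : ∀ x y, Kc N.κ x y * (f x - f y) ^ 2 ≤
        1 / (n : ℝ) ^ 2 + 3 * ((if (x, y) ∈ P then 1 else 0) + (if (y, x) ∈ P then 1 else 0)) := by
      intro x y
      have hpos1 : (0 : ℝ) ≤ 1 / (n : ℝ) ^ 2 := by positivity
      have hpos2 : ∀ (q : Prop) [Decidable q], (0 : ℝ) ≤ (if q then 1 else 0) := fun q _ => by
        split_ifs <;> norm_num
      have hrhs : (0 : ℝ) ≤ 1 / (n : ℝ) ^ 2 +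
          3 * ((if (x, y) ∈ P then 1 else 0) + (if (y, x) ∈ P then 1 else 0)) :=
        add_nonneg hpos1 (mul_nonneg (by norm_num) (add_nonneg (hpos2 _) (hpos2 _)))
      by_cases hxy : x = y
      · rw [hxy]
        rw [hxy] at hrhs
        simpa using hrhs
      have hKc : Kc N.κ x y = N.κ s(x, y) := if_neg hxy
      by_cases hx : x ∈ H <;> by_cases hy : y ∈ H
      · have e : f x - f y = 0 := by simp [hf, hx, hy]
        rw [e]
        simpa using hrhs
      · have e : f x - f y = 1 := by simp [hf, hx, hy]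
        rw [e, one_pow, mul_one, hKc]
        by_cases hU : U s(x, y) ≤ pt
        · obtain ⟨h4, h5⟩ := hpair x y hx hy hU
          rw [if_pos h4]
          have := h3 _ h5
          have := hpos2 ((y, x) ∈ P)
          linarith
        · have := ht _ (not_le.1 hU)
          have := hpos2 ((x, y) ∈ P)
          have := hpos2 ((y, x) ∈ P)
          linarith
      · have e : f x - f y = -1 := by simp [hf, hx, hy]
        rw [e, neg_one_sq, mul_one, hKc]
        by_cases hU : U s(x, y) ≤ pt
        · obtain ⟨h4, h5⟩ := hpair y x hy hx (by rwa [Sym2.eq_swap])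
          rw [if_pos h4]
          have := h3 s(x, y) (by rwa [Sym2.eq_swap])
          have := hpos2 ((x, y) ∈ P)
          linarith
        · have := ht _ (not_le.1 hU)
          have := hpos2 ((x, y) ∈ P)
          have := hpos2 ((y, x) ∈ P)
          linarith
      · have e : f x - f y = 0 := by simp [hf, hx, hy]
        rw [e]
        simpa using hrhs
    have h2 : ∑ x : Fin n, ∑ y : Fin n, (if (x, y) ∈ P then (1 : ℝ) else 0) = P.card := by
      rw [← sum_product' (f := fun x y => if (x, y) ∈ P then (1 : ℝ) else 0),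
        univ_product_univ, sum_boole]
      congr 2
      ext q
      simp
    have h4 : ∑ x : Fin n, ∑ y : Fin n, (if (y, x) ∈ P then (1 : ℝ) else 0) = P.card := by
      rw [sum_comm]
      exact h2
    unfold En
    have h5 : ∑ x, ∑ y, Kc N.κ x y * (f x - f y) ^ 2 ≤ 1 + 3 * ((P.card : ℝ) + P.card) := by
      refine (sum_le_sum fun x _ => sum_le_sum fun y _ => h1 x y).trans (le_of_eq ?_)
      simp only [sum_add_distrib, ← mul_sum]
      rw [h2, h4]
      simp only [sum_const, card_univ, Fintype.card_fin, nsmul_eq_mul]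
      field_simp
    linarith
  have hEK : EK N f ≤ 3 * A + 2 := by
    unfold EK
    linarith
  have h6 := grn_var1 N (D := ∅) f (fun x hx => absurd hx (notMem_empty x)) v
  have h7 : f v = 1 := if_pos hvH
  rw [h7, one_pow] at h6
  have h8 : 0 < grn N ∅ v v := grn_pos N (notMem_empty v)
  rw [div_le_iff₀ (by linarith)]
  calc (1 : ℝ) ≤ grn N ∅ v v * EK N f := h6
    _ ≤ grn N ∅ v v * (3 * A + 2) := mul_le_mul_of_nonneg_left hEK h8.le

end

end Pool.Agent.TH972.U
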