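import Pool.Agent.TH972.U.Kill
import Pool.Agent.TH972.U.Marks

/-!
# Reverse comparison of the path masses and the total gap of a set
-/

set_option autoImplicit false
set_option linter.unusedSectionVars false

namespace Pool.Agent.TH972.U

open Finset

noncomputable section

variable {V : Type} [Fintype V] [DecidableEq V]

namespace Rev

open Grn Kill Marks

lemma dG_kill1_rev (N N' : Net V) (hκ : N'.κ = N.κ) (h : V) (δ : ℝ) (hδ : 0 ≤ δ)
    (hk : ∀ x, N'.k x = N.k x + if x = h then δ else 0) (D : Finset V) (π : List V) (hπ : π.Nodup)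
    (hD : ∀ z ∈ π, z ∉ D) :
    dG N D π ≤ dG N' D π * Real.exp (δ * (grn N D h h - grn N (D ∪ π.toFinset) h h)) := by
  have h1 := dG_one N N' hκ h δ hδ hk D π hπ hD
  have hda := den_pos N D h hδ
  have hdb := den_pos N (D ∪ π.toFinset) h hδ
  have hba : grn N (D ∪ π.toFinset) h h ≤ grn N D h h := grn_anti N Finset.subset_union_left h h
  have hb0 := grn_nonneg N (D ∪ π.toFinset) h h
  set a := grn N D h h
  set b := grn N (D ∪ π.toFinset) h h
  have h2 : dG N D π = dG N' D π * ((1 + δ * a) / (1 + δ * b)) := by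
    rw [mul_div_assoc', h1]
    field_simp
  rw [h2]
  apply mul_le_mul_of_nonneg_left _ (dGnn N' D π)
  have h3 := Real.add_one_le_exp (δ * (a - b))
  refine le_trans ?_ h3
  have h5 : (1 + δ * a) / (1 + δ * b) = 1 + δ * (a - b) / (1 + δ * b) := by
    field_simp
    ring
  rw [h5]
  have h7 : 0 ≤ δ * (a - b) := mul_nonneg hδ (by linarith)
  have h6 : δ * (a - b) / (1 + δ * b) ≤ δ * (a - b) := by
    apply div_le_self h7
    have : 0 ≤ δ * b := mul_nonneg hδ hb0
    linarith
  linarith

lemma surv_insert (N : Net V) {D : Finset V} {x : V} (hx : x ∉ D) (w : V) :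
    surv N (insert x D) w = surv N D w - grn N D w x * (surv N D x / grn N D x x) := by
  unfold surv
  rw [Finset.sum_div, Finset.mul_sum, ← Finset.sum_sub_distrib]
  apply Finset.sum_congr rfl
  intro y _
  rw [grn_insert N hx]
  ring

lemma sum_net (E : BlkEnv V) {k : ℝ} (hk : 0 < k) (f : V → ℝ) :
    ∑ x, f x * (E.net k hk).k x = ∑ m ∈ E.M, k * f m := by
  have h : ∀ x, f x * (E.net k hk).k x = if x ∈ E.M then k * f x else 0 := by
    intro x
    show f x * (if x ∈ E.M then k else 0) = _
    split_ifs <;> ring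
  rw [Finset.sum_congr rfl fun x _ => h x, Finset.sum_ite_mem, Finset.univ_inter]

/-- square sum and variance -/
lemma var_le (M : Finset V) (hM : 0 < M.card) (u : V → ℝ) (c : ℝ) :
    ∑ m ∈ M, u m ^ 2 ≤ (∑ m ∈ M, u m) ^ 2 / M.card + ∑ m ∈ M, (u m - c) ^ 2 := by
  have hM' : (0 : ℝ) < M.card := by exact_mod_cast hM
  have e : ∑ m ∈ M, (u m - c) ^ 2 = ∑ m ∈ M, u m ^ 2 - 2 * c * ∑ m ∈ M, u m + M.card * c ^ 2 := by
    have : ∀ m, (u m - c) ^ 2 = u m ^ 2 - 2 * c * u m + c ^ 2 := fun m => by ring
    simp only [this, Finset.sum_add_distrib, Finset.sum_sub_distrib, ← Finset.mul_sum,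
      Finset.sum_const, nsmul_eq_mul]
  rw [e]
  set s := ∑ m ∈ M, u m
  have : 0 ≤ s ^ 2 / M.card - 2 * c * s + M.card * c ^ 2 := by
    have e2 : s ^ 2 / M.card - 2 * c * s + M.card * c ^ 2 = (s - M.card * c) ^ 2 / M.card := by
      field_simp
      ring
    rw [e2]
    positivity
  linarith

/-- one step -/
lemma step (E : BlkEnv V) {k : ℝ} (hk : 0 < k) {d : ℝ} (hd : ∀ v, cs E.κ v ≤ d)
    {S : Finset V} {v : V} (hv : v ∉ S) :
    ∑ g ∈ E.M, k * (grn (E.net k hk) S g g - grn (E.net k hk) (insert v S) g g) ≤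
      (1 / (k * E.M.card)) * (surv (E.net k hk) S v ^ 2 / grn (E.net k hk) S v v) +
        k * (E.smax * E.C) ∧
    ∑ g ∈ E.M, k * (surv (E.net k hk) S g - surv (E.net k hk) (insert v S) g) =
      surv (E.net k hk) S v ^ 2 / grn (E.net k hk) S v v ∧
    surv (E.net k hk) S v ^ 2 / grn (E.net k hk) S v v ≤ d + k := by
  have hM : (0 : ℝ) < (E.M.card : ℝ) := by exact_mod_cast E.hM0
  set N := E.net k hk with hN
  have hG := grn_pos N hv
  set G := grn N S v v with hGd
  set p := surv N S v with hpd
  have hp0 : 0 ≤ p := surv_nonneg N S v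
  have hp1 : p ≤ 1 := surv_le_one N S v
  -- the sum of the Green function over the marks
  have hsum : ∑ m ∈ E.M, k * grn N S m v = p := by
    have h1 : p = ∑ y, grn N S v y * N.k y := rfl
    rw [h1, sum_net E hk (fun y => grn N S v y)]
    exact Finset.sum_congr rfl fun m _ => by rw [grn_symm N S m v]
  have hkv : N.k v ≤ k := by
    show (if v ∈ E.M then k else 0) ≤ k
    split_ifs
    · exact le_refl _
    · exact hk.le
  refine ⟨?_, ?_, ?_⟩
  · have e1 : ∀ g, grn N S g g - grn N (insert v S) g g = grn N S g v ^ 2 / G := by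
      intro g
      rw [grn_insert N hv, grn_symm N S v g]
      ring
    simp only [e1]
    obtain ⟨c, hc⟩ := E.marks (fun x => grn N S x v)
    have hEn : En E.κ (fun x => grn N S x v) ≤ G := by
      have h1 := EB_grn N (fun x => grn N S x v) (fun x hx => grn_left N v hx) hv
      rw [EB_self] at h1
      rw [hGd, ← h1]
      unfold EK
      have : 0 ≤ ∑ x, N.k x * grn N S x v ^ 2 :=
        Finset.sum_nonneg fun x _ => mul_nonneg (N.k_nonneg x) (sq_nonneg _)
      have e : N.κ = E.κ := rfl
      rw [e]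
      linarith
    have h2 := var_le E.M E.hM0 (fun x => grn N S x v) c
    have h3 : ∑ m ∈ E.M, grn N S m v = p / k := by
      rw [eq_div_iff hk.ne', ← hsum, Finset.sum_mul]
      exact Finset.sum_congr rfl fun m _ => by ring
    rw [h3] at h2
    have hs := smax_nonneg E
    have h4 : E.smax * E.C * En E.κ (fun x => grn N S x v) ≤ E.smax * E.C * G :=
      mul_le_mul_of_nonneg_left hEn (mul_nonneg hs E.C_pos.le)
    have h5 : ∑ m ∈ E.M, grn N S m v ^ 2 ≤ (p / k) ^ 2 / E.M.card + E.smax * E.C * G := by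
      linarith
    have h6 : ∑ g ∈ E.M, k * (grn N S g v ^ 2 / G) = (k / G) * ∑ m ∈ E.M, grn N S m v ^ 2 := by
      rw [Finset.mul_sum]
      exact Finset.sum_congr rfl fun m _ => by ring
    rw [h6]
    calc (k / G) * ∑ m ∈ E.M, grn N S m v ^ 2
        ≤ (k / G) * ((p / k) ^ 2 / E.M.card + E.smax * E.C * G) :=
          mul_le_mul_of_nonneg_left h5 (by positivity)
      _ = _ := by
          field_simp
  · have e1 : ∀ g, surv N S g - surv N (insert v S) g = grn N S g v * (p / G) := by
      intro g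
      rw [surv_insert N hv]
      ring
    simp only [e1]
    have h6 : ∑ g ∈ E.M, k * (grn N S g v * (p / G)) = (∑ m ∈ E.M, k * grn N S m v) * (p / G) := by
      rw [Finset.sum_mul]
      exact Finset.sum_congr rfl fun m _ => by ring
    rw [h6, hsum]
    ring
  · rw [div_le_iff₀ hG]
    have h1 := grn_eq N hv hv
    rw [if_pos rfl] at h1
    have h2 : 0 ≤ ∑ w, Kc N.κ v w * grn N S w v :=
      Finset.sum_nonneg fun w _ => mul_nonneg (Kc_nn N v w) (grn_nonneg N S w v)
    have h3 : 1 ≤ (cs N.κ v + N.k v) * G := by linarith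
    have h4 : (cs N.κ v + N.k v) * G ≤ (d + k) * G := by
      apply mul_le_mul_of_nonneg_right _ hG.le
      have := hd v
      have e : cs N.κ v = cs E.κ v := rfl
      rw [e]
      linarith
    have h5 : p ^ 2 ≤ 1 := by nlinarith
    linarith

end Rev

open Grn Kill Marks Rev

/-- reverse of `dG_kill` -/
theorem dG_kill_rev (N N' : Net V) (hκ : N'.κ = N.κ) (hk : ∀ x, N.k x ≤ N'.k x) (D : Finset V)
    {π : List V} (hπ : π.Nodup) (hD : ∀ z ∈ π, z ∉ D) :
    dG N D π ≤ dG N' D π * Real.exp (∑ g, (N'.k g - N.k g) *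
      (grn N D g g - grn N (D ∪ π.toFinset) g g)) := by
  have key : ∀ S : Finset V, dG N D π ≤ dG (mix N N' S) D π * Real.exp (∑ g ∈ S,
      (N'.k g - N.k g) * (grn N D g g - grn N (D ∪ π.toFinset) g g)) := by
    intro S
    induction S using Finset.induction_on with
    | empty => rw [mix_empty, Finset.sum_empty, Real.exp_zero, mul_one]
    | insert x S hx ih =>
      refine ih.trans ?_
      have h1 := dG_kill1_rev (mix N N' S) (mix N N' (insert x S)) rfl x (N'.k x - N.k x)
        (sub_nonneg.2 (hk x)) (mix_step N N' hk hx) D π hπ hD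
      refine (mul_le_mul_of_nonneg_right h1 (Real.exp_pos _).le).trans ?_
      rw [mul_assoc, ← Real.exp_add]
      apply mul_le_mul_of_nonneg_left _ (dGnn (mix N N' (insert x S)) D π)
      apply Real.exp_le_exp.2
      rw [Finset.sum_insert hx]
      have h2 := gap_anti N (mix N N' S) rfl (fun y => by
        rw [mix_k N N' hk]
        split_ifs
        · exact hk y
        · exact le_refl _) (D := D) (D' := D ∪ π.toFinset) Finset.subset_union_left x
      have h3 := mul_le_mul_of_nonneg_left h2 (sub_nonneg.2 (hk x))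
      linarith
  have := key univ
  rwa [mix_univ N N' hκ hk] at this

/-- the total gap of a set -/
theorem BlkEnv.gap_sum (E : BlkEnv V) {k : ℝ} (hk : 0 < k) {d : ℝ} (hd : ∀ v, cs E.κ v ≤ d)
    (S : Finset V) :
    ∑ g ∈ E.M, k * (grn (E.net k hk) ∅ g g - grn (E.net k hk) S g g) ≤
      min 1 ((d + k) * S.card / (k * E.M.card)) + k * (E.smax * E.C) * S.card := by
  have hM : (0 : ℝ) < (E.M.card : ℝ) := by exact_mod_cast E.hM0
  have hkM : 0 < k * (E.M.card : ℝ) := mul_pos hk hM
  set N := E.net k hk with hN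
  have key : ∀ S : Finset V,
      ∑ g ∈ E.M, k * (grn N ∅ g g - grn N S g g) ≤
        (1 / (k * E.M.card)) * (∑ g ∈ E.M, k * (surv N ∅ g - surv N S g)) +
          k * (E.smax * E.C) * S.card ∧
      ∑ g ∈ E.M, k * (surv N ∅ g - surv N S g) ≤ (d + k) * S.card := by
    intro S
    induction S using Finset.induction_on with
    | empty => simp
    | insert v S hv ih =>
      obtain ⟨i1, i2⟩ := ih
      obtain ⟨s1, s2, s3⟩ := step E hk hd hv
      rw [← hN] at s1 s2 s3
      have e1 : ∑ g ∈ E.M, k * (grn N ∅ g g - grn N (insert v S) g g) =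
          ∑ g ∈ E.M, k * (grn N ∅ g g - grn N S g g) +
          ∑ g ∈ E.M, k * (grn N S g g - grn N (insert v S) g g) := by
        rw [← Finset.sum_add_distrib]
        exact Finset.sum_congr rfl fun g _ => by ring
      have e2 : ∑ g ∈ E.M, k * (surv N ∅ g - surv N (insert v S) g) =
          ∑ g ∈ E.M, k * (surv N ∅ g - surv N S g) +
          ∑ g ∈ E.M, k * (surv N S g - surv N (insert v S) g) := by
        rw [← Finset.sum_add_distrib]
        exact Finset.sum_congr rfl fun g _ => by ring
      have e3 : ((insert v S).card : ℝ) = S.card + 1 := by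
        rw [Finset.card_insert_of_notMem hv]
        push_cast
        ring
      rw [e1, e2, e3, s2]
      refine ⟨?_, ?_⟩
      · have : (1 / (k * (E.M.card : ℝ))) * (∑ g ∈ E.M, k * (surv N ∅ g - surv N S g) +
            surv N S v ^ 2 / grn N S v v) + k * (E.smax * E.C) * (S.card + 1) =
            ((1 / (k * (E.M.card : ℝ))) * (∑ g ∈ E.M, k * (surv N ∅ g - surv N S g)) +
              k * (E.smax * E.C) * S.card) + ((1 / (k * (E.M.card : ℝ))) *
              (surv N S v ^ 2 / grn N S v v) + k * (E.smax * E.C)) := by ring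
        rw [this]
        exact add_le_add i1 s1
      · have : (d + k) * ((S.card : ℝ) + 1) = (d + k) * S.card + (d + k) := by ring
        rw [this]
        exact add_le_add i2 s3
  obtain ⟨k1, k2⟩ := key S
  have k3 : ∑ g ∈ E.M, k * (surv N ∅ g - surv N S g) ≤ k * E.M.card := by
    have : ∑ g ∈ E.M, k * (surv N ∅ g - surv N S g) ≤ ∑ _g ∈ E.M, k := by
      apply Finset.sum_le_sum
      intro g _
      rw [surv_empty]
      have := surv_nonneg N S g
      nlinarith
    rw [Finset.sum_const, nsmul_eq_mul] at this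
    linarith
  refine k1.trans ?_
  apply add_le_add_left
  apply le_min
  · rw [one_div, inv_mul_eq_div, div_le_one hkM]
    exact k3
  · rw [one_div, inv_mul_eq_div]
    exact div_le_div_of_nonneg_right k2 hkM.le

end

end Pool.Agent.TH972.U
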