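import Pool.Agent.TH972.U.VDef
import Pool.Agent.TH972.U.Forest

/-!
# Expectations over rooted forests: linearity, and the law of the path of a vertex
-/

set_option autoImplicit false
set_option linter.unusedSectionVars false
set_option maxHeartbeats 4000000

namespace Pool.Agent.TH972.U

open Finset

noncomputable section

variable {V : Type} [Fintype V] [DecidableEq V]

namespace VBas

open Forest

lemma Zf_univ (N : Net V) : Zf N univ = 1 := by
  classical
  unfold Zf
  have h1 : (univ.filter (fun f : V → Option V => IsFor univ f)) = {fun _ => none} := by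
    ext f
    rw [Finset.mem_filter, Finset.mem_singleton]
    constructor
    · rintro ⟨_, h, _⟩
      funext x
      exact h x (mem_univ x)
    · rintro rfl
      refine ⟨mem_univ _, fun x _ => rfl, fun x => ⟨1, rfl⟩⟩
  rw [h1, Finset.sum_singleton]
  unfold wF
  rw [Finset.sdiff_self, Finset.prod_empty]

lemma Zf_pos (N : Net V) (D : Finset V) : 0 < Zf N D := by
  have key : ∀ n : ℕ, ∀ D : Finset V, (univ \ D).card = n → 0 < Zf N D := by
    intro n
    induction n using Nat.strong_induction_on with
    | _ n ih =>
      intro D hD
      by_cases hx : ∃ x, x ∉ D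
      · obtain ⟨x, hx⟩ := hx
        have h1 := ih _ (hD ▸ LEx.card_insert_lt hx) (insert x D) rfl
        rw [Zf_insert N hx] at h1
        exact (pos_iff_pos_of_mul_pos h1).1 (grn_pos N hx)
      · push Not at hx
        have h2 : D = univ := Finset.eq_univ_iff_forall.2 hx
        rw [h2, Zf_univ]
        exact one_pos
  exact key _ D rfl

omit [Fintype V] [DecidableEq V] in
lemma iter_none (f : V → Option V) (j : ℕ) :
    (fun o : Option V => o.bind f)^[j] none = none := by
  induction j with
  | zero => rfl
  | succ j ih =>
    rw [Function.iterate_succ_apply]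
    exact ih

lemma anc_none {f : V → Option V} {x : V} (h : f x = none) : anc f x = {x} := by
  classical
  ext z
  unfold anc
  rw [Finset.mem_filter, Finset.mem_singleton]
  constructor
  · rintro ⟨_, j, hj⟩
    cases j with
    | zero =>
      rw [Function.iterate_zero, id_eq, Option.some.injEq] at hj
      exact hj.symm
    | succ j =>
      rw [Function.iterate_succ_apply] at hj
      have h2 : (some x).bind f = none := h
      rw [h2, iter_none] at hj
      exact absurd hj (by simp)
  · rintro rfl
    exact ⟨mem_univ _, 0, rfl⟩

lemma anc_some {f : V → Option V} {x y : V} (h : f x = some y) :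
    anc f x = insert x (anc f y) := by
  classical
  have h2 : (some x).bind f = some y := h
  ext z
  rw [Finset.mem_insert]
  unfold anc
  rw [Finset.mem_filter, Finset.mem_filter]
  constructor
  · rintro ⟨_, j, hj⟩
    cases j with
    | zero =>
      rw [Function.iterate_zero, id_eq, Option.some.injEq] at hj
      exact Or.inl hj.symm
    | succ j =>
      rw [Function.iterate_succ_apply, h2] at hj
      exact Or.inr ⟨mem_univ _, j, hj⟩
  · rintro (rfl | ⟨_, j, hj⟩)
    · exact ⟨mem_univ _, 0, rfl⟩
    · refine ⟨mem_univ _, j + 1, ?_⟩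
      rw [Function.iterate_succ_apply, h2]
      exact hj

lemma anc_pth {f : V → Option V} {ζ : List V} (h : Pth f ζ) {x : V}
    (hx : ζ.head? = some x) : anc f x = ζ.toFinset := by
  induction ζ generalizing x with
  | nil => exact h.elim
  | cons z t ih =>
    rw [List.head?_cons, Option.some.injEq] at hx
    subst hx
    cases t with
    | nil =>
      have h1 : f z = none := h
      rw [anc_none h1]
      rfl
    | cons w t =>
      have h1 : f z = some w := h.1
      rw [anc_some h1, ih h.2 rfl]
      rw [List.toFinset_cons (a := z)]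

omit [Fintype V] [DecidableEq V] in
lemma pth_uniq {f : V → Option V} {ζ η : List V} (h : Pth f ζ) (h' : Pth f η)
    (hx : ζ.head? = η.head?) : ζ = η := by
  induction ζ generalizing η with
  | nil => exact h.elim
  | cons z t ih =>
    cases η with
    | nil => exact h'.elim
    | cons z' t' =>
      rw [List.head?_cons, List.head?_cons, Option.some.injEq] at hx
      subst hx
      cases t with
      | nil =>
        have h1 : f z = none := h
        cases t' with
        | nil => rfl
        | cons w' t' =>
          have h2 : f z = some w' := h'.1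
          rw [h1] at h2
          exact absurd h2 (by simp)
      | cons w t =>
        have h1 : f z = some w := h.1
        cases t' with
        | nil =>
          have h2 : f z = none := h'
          rw [h1] at h2
          exact absurd h2 (by simp)
        | cons w' t' =>
          have h2 : f z = some w' := h'.1
          rw [h1, Option.some.injEq] at h2
          subst h2
          rw [ih h.2 h'.2 rfl]

open Classical in
/-- partition of the forests by the path of `x` -/
lemma partition (N : Net V) (x : V) (F : Finset V → ℝ) :
    ∑ f ∈ univ.filter (fun f : V → Option V => IsFor ∅ f), wF N ∅ f * F (anc f x) =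
      ∑ j ∈ range (Fintype.card V), ∑ π ∈ spaths j x ∅,
        (∑ f ∈ univ.filter (fun f : V → Option V => IsFor ∅ f ∧ Pth f π), wF N ∅ f) *
          F π.toFinset := by
  have h1 : ∀ f ∈ univ.filter (fun f : V → Option V => IsFor ∅ f),
      wF N ∅ f * F (anc f x) = ∑ j ∈ range (Fintype.card V), ∑ π ∈ spaths j x ∅,
        (if Pth f π then wF N ∅ f * F π.toFinset else 0) := by
    intro f hf
    rw [Finset.mem_filter] at hf
    obtain ⟨t, ht, hnd⟩ := exists_pth hf.2.2 x
    have hlen : t.length < Fintype.card V := by
      have h2 : (x :: t).length ≤ Fintype.card V := hnd.length_le_card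
      rw [List.length_cons] at h2
      omega
    have hmem : (x :: t) ∈ spaths t.length x ∅ := by
      rw [mem_spaths]
      exact ⟨List.length_cons, hnd, rfl, fun z _ => Finset.notMem_empty z⟩
    have huniq : ∀ j, ∀ π ∈ spaths j x ∅, Pth f π → π = x :: t := by
      intro j π hπ hp
      rw [mem_spaths] at hπ
      exact pth_uniq hp ht hπ.2.2.1
    rw [Finset.sum_eq_single t.length]
    · rw [Finset.sum_eq_single (x :: t)]
      · rw [if_pos ht, anc_pth ht rfl]
      · intro π hπ hne
        exact if_neg (fun h => hne (huniq _ π hπ h))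
      · intro h
        exact absurd hmem h
    · intro j _ hj
      apply Finset.sum_eq_zero
      intro π hπ
      apply if_neg
      intro h
      have h3 := huniq _ π hπ h
      rw [mem_spaths, h3, List.length_cons] at hπ
      omega
    · intro h
      exact absurd (Finset.mem_range.2 hlen) h
  rw [Finset.sum_congr rfl h1, Finset.sum_comm]
  apply Finset.sum_congr rfl
  intro j _
  rw [Finset.sum_comm]
  apply Finset.sum_congr rfl
  intro π _
  rw [Finset.sum_mul, ← Finset.filter_filter, Finset.sum_filter (p := fun f => Pth f π)]

lemma Imass_lastf (N : Net V) (D : Finset V) (π : List V) :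
    Imass N D π = cpr N π * dG N D π * lastf N.k π := by
  unfold Imass lastf
  rcases π.getLast? with _ | z
  · simp
  · rfl

open Classical in
/-- the weight of the forests with a given path, exactly -/
lemma path_weight_eq (N : Net V) (x : V) : ∀ j ∈ range (Fintype.card V), ∀ π ∈ spaths j x ∅,
    ∑ f ∈ univ.filter (fun f : V → Option V => IsFor ∅ f ∧ Pth f π), wF N ∅ f =
      Imass N ∅ π * Zf N ∅ := by
  have hle : ∀ j ∈ range (Fintype.card V), ∀ π ∈ spaths j x ∅,
      ∑ f ∈ univ.filter (fun f : V → Option V => IsFor ∅ f ∧ Pth f π), wF N ∅ f ≤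
      Imass N ∅ π * Zf N ∅ := by
    intro j _ π hπ
    rw [mem_spaths] at hπ
    refine (path_weight N π hπ.2.1).trans (le_of_eq ?_)
    rw [Imass_lastf]
    ring
  have htot : ∑ j ∈ range (Fintype.card V), ∑ π ∈ spaths j x ∅,
      ∑ f ∈ univ.filter (fun f : V → Option V => IsFor ∅ f ∧ Pth f π), wF N ∅ f =
      ∑ j ∈ range (Fintype.card V), ∑ π ∈ spaths j x ∅, Imass N ∅ π * Zf N ∅ := by
    have h1 := partition N x (fun _ => 1)
    simp only [mul_one] at h1
    rw [← h1]
    have h2 : ∑ j ∈ range (Fintype.card V), ∑ π ∈ spaths j x ∅, Imass N ∅ π = 1 := by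
      rw [← psum_one N x, psum_eq_sum]
      refine Finset.sum_congr rfl fun j _ => Finset.sum_congr rfl fun π _ => ?_
      exact Imass_lastf N ∅ π
    simp only [← Finset.sum_mul]
    rw [h2, one_mul]
    rfl
  have h3 := (Finset.sum_eq_sum_iff_of_le (fun j hj => Finset.sum_le_sum (hle j hj))).1 htot
  intro j hj
  exact (Finset.sum_eq_sum_iff_of_le (hle j hj)).1 (h3 j hj)

end VBas

open VBas Forest

theorem EF_mono (N : Net V) (D : Finset V) {F G : (V → Option V) → ℝ}
    (h : ∀ f, IsFor D f → F f ≤ G f) : EF N D F ≤ EF N D G := by
  classical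
  unfold EF
  apply div_le_div_of_nonneg_right _ (Zf_pos N D).le
  apply Finset.sum_le_sum
  intro f hf
  rw [Finset.mem_filter] at hf
  exact mul_le_mul_of_nonneg_left (h f hf.2) (wF_nonneg N D f)

theorem EF_add (N : Net V) (D : Finset V) (F G : (V → Option V) → ℝ) :
    EF N D (fun f => F f + G f) = EF N D F + EF N D G := by
  unfold EF
  rw [← add_div, ← Finset.sum_add_distrib]
  simp only [mul_add]

theorem EF_mul (N : Net V) (D : Finset V) (c : ℝ) (F : (V → Option V) → ℝ) :
    EF N D (fun f => c * F f) = c * EF N D F := by
  unfold EF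
  rw [← mul_div_assoc, Finset.mul_sum]
  congr 1
  apply Finset.sum_congr rfl
  intro f _
  ring

theorem EF_sum (N : Net V) (D : Finset V) {ι : Type} (s : Finset ι)
    (F : ι → (V → Option V) → ℝ) :
    EF N D (fun f => ∑ i ∈ s, F i f) = ∑ i ∈ s, EF N D (F i) := by
  unfold EF
  rw [← Finset.sum_div, Finset.sum_comm]
  congr 1
  apply Finset.sum_congr rfl
  intro f _
  rw [Finset.mul_sum]

theorem EF_one (N : Net V) (D : Finset V) : EF N D (fun _ => 1) = 1 := by
  unfold EF
  simp only [mul_one]
  exact div_self (Zf_pos N D).ne'

/-- the law of the path of a vertex -/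
theorem EF_path (N : Net V) (x : V) (F : Finset V → ℝ) :
    EF N ∅ (fun f => F (anc f x)) =
      ∑ j ∈ range (Fintype.card V), ∑ π ∈ spaths j x ∅, Imass N ∅ π * F π.toFinset := by
  classical
  unfold EF
  rw [partition N x F, div_eq_iff (Zf_pos N ∅).ne', Finset.sum_mul]
  apply Finset.sum_congr rfl
  intro j hj
  rw [Finset.sum_mul]
  apply Finset.sum_congr rfl
  intro π hπ
  rw [path_weight_eq N x j hj π hπ]
  ring

end

end Pool.Agent.TH972.U
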