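import Pool.Agent.TH972.U.Gap2
import Pool.Agent.TH972.U.VBas
import Pool.Agent.TH972.U.Rev

/-!
# The loop-erased path of every vertex has a large capacity (helper811)
-/

set_option autoImplicit false
set_option linter.unusedSectionVars false

namespace Pool.Agent.TH972.U

open Finset

noncomputable section

variable {V : Type} [Fintype V] [DecidableEq V]

namespace CapLow

lemma cpr_congr (N N' : Net V) (h : N'.κ = N.κ) : ∀ π : List V, cpr N π = cpr N' π
  | [] => rfl
  | [_] => rfl
  | (v :: w :: t) => by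
      rw [cpr, cpr, h, cpr_congr N N' h (w :: t)]

lemma cpr_nonneg (N : Net V) : ∀ π : List V, 0 ≤ cpr N π
  | [] => zero_le_one
  | [_] => zero_le_one
  | (v :: w :: t) => by
      rw [cpr]
      exact mul_nonneg (Kc_nonneg (fun e => (N.κ_pos e).le) v w) (cpr_nonneg N (w :: t))

lemma Imass_nonneg (N : Net V) (D : Finset V) (π : List V) : 0 ≤ Imass N D π := by
  rw [VBas.Imass_lastf]
  exact mul_nonneg (mul_nonneg (cpr_nonneg N π) (dG_nonneg N D π)) (LEx.lastf_nonneg N.k_nonneg π)

lemma sum_Imass_one (N : Net V) (x : V) :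
    ∑ j ∈ range (Fintype.card V), ∑ π ∈ spaths j x ∅, Imass N ∅ π = 1 := by
  have h := EF_path N x (fun _ => 1)
  rw [EF_one] at h
  simpa using h.symm

end CapLow

open CapLow

/-- the path of every vertex has a large capacity -/
theorem PN.cap_low (P : PN V) {k1 k' k2 g c : ℝ} (hk1 : 0 < k1) (hk' : 0 < k') (hk2 : 0 < k2)
    (h1 : k1 ≤ k') (h2 : k' ≤ k2) (ht : k2 * P.t ≤ 1) (hg0 : 0 < g)
    (hg : ∀ y ∈ P.M, grn (P.net k2 hk2) ∅ y y ≤ g) (hc : 0 < c) (h3 : k' * (g * c) ≤ k2) (x : V) :
    PF (P.net k1 hk1) (fun f => P.cap k2 hk2 (anc f x) < c) ≤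
      k1 / k' * Real.exp (4 + k2 / (g * k1 ^ 2 * P.M.card)) := by
  classical
  have hm0 : (0 : ℝ) < P.M.card := by exact_mod_cast P.M_ne.card_pos
  have hR0 : 0 ≤ k1 / k' * Real.exp (4 + k2 / (g * k1 ^ 2 * P.M.card)) := by positivity
  have hterm : ∀ j ∈ range (Fintype.card V), ∀ π ∈ spaths j x (∅ : Finset V),
      Imass (P.net k1 hk1) ∅ π * (if P.cap k2 hk2 π.toFinset < c then 1 else 0) ≤
        k1 / k' * Real.exp (4 + k2 / (g * k1 ^ 2 * P.M.card)) * Imass (P.net k' hk') ∅ π := by
    intro j hj π hπ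
    split_ifs with hcap
    · rw [mem_spaths] at hπ
      rw [mul_one]
      have e1 := dG_kill_rev (P.net k1 hk1) (P.net k' hk') rfl (fun y => by
        show (if y ∈ P.M then k1 else 0) ≤ (if y ∈ P.M then k' else 0)
        split_ifs
        · exact h1
        · exact le_refl _) ∅ hπ.2.1 (fun z _ => Finset.notMem_empty z)
      have e2 : ∑ y, ((P.net k' hk').k y - (P.net k1 hk1).k y) *
          (grn (P.net k1 hk1) ∅ y y - grn (P.net k1 hk1) (∅ ∪ π.toFinset) y y) =
          (k' - k1) * ∑ y ∈ P.M,
            (grn (P.net k1 hk1) ∅ y y - grn (P.net k1 hk1) π.toFinset y y) := by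
        rw [Finset.empty_union, Finset.mul_sum]
        symm
        rw [← Finset.sum_subset (Finset.subset_univ P.M)]
        · apply Finset.sum_congr rfl
          intro y hy
          show _ = ((if y ∈ P.M then k' else 0) - (if y ∈ P.M then k1 else 0)) * _
          rw [if_pos hy, if_pos hy]
        · intro y _ hy
          show ((if y ∈ P.M then k' else 0) - (if y ∈ P.M then k1 else 0)) * _ = 0
          rw [if_neg hy, if_neg hy]
          ring
      rw [e2] at e1
      have g1 := P.gap_two hk1 hk2 (h1.trans h2) ht π.toFinset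
      have g2 := P.gap_cap hk2 hg π.toFinset
      have g3 := P.cap_mono_k hk1 hk2 (h1.trans h2) π.toFinset
      set T1 := ∑ y ∈ P.M, (grn (P.net k1 hk1) ∅ y y - grn (P.net k1 hk1) π.toFinset y y) with hT1
      have g4 : T1 ≤ 4 * (g * c / k2) + c / (k1 ^ 2 * P.M.card) := by
        have a1 : g * P.cap k2 hk2 π.toFinset / k2 ≤ g * c / k2 := by
          apply div_le_div_of_nonneg_right _ hk2.le
          exact mul_le_mul_of_nonneg_left hcap.le hg0.le
        have a2 : P.cap k1 hk1 π.toFinset / (k1 ^ 2 * P.M.card) ≤ c / (k1 ^ 2 * P.M.card) := by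
          apply div_le_div_of_nonneg_right _ (by positivity)
          exact g3.trans hcap.le
        linarith
      have g5 : (k' - k1) * T1 ≤ 4 + k2 / (g * k1 ^ 2 * P.M.card) := by
        have b0 : 0 ≤ 4 * (g * c / k2) + c / (k1 ^ 2 * P.M.card) := by positivity
        have b1 : (k' - k1) * T1 ≤ (k' - k1) * (4 * (g * c / k2) + c / (k1 ^ 2 * P.M.card)) :=
          mul_le_mul_of_nonneg_left g4 (by linarith)
        have b2 : (k' - k1) * (4 * (g * c / k2) + c / (k1 ^ 2 * P.M.card)) ≤
            k' * (4 * (g * c / k2) + c / (k1 ^ 2 * P.M.card)) :=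
          mul_le_mul_of_nonneg_right (by linarith) b0
        have b3 : k' * (4 * (g * c / k2)) ≤ 4 := by
          have : k' * (g * c) / k2 ≤ 1 := by
            rw [div_le_one hk2]
            exact h3
          have e : k' * (4 * (g * c / k2)) = 4 * (k' * (g * c) / k2) := by ring
          rw [e]
          linarith
        have b4 : k' * (c / (k1 ^ 2 * P.M.card)) ≤ k2 / (g * k1 ^ 2 * P.M.card) := by
          rw [mul_div_assoc', div_le_div_iff₀ (by positivity) (by positivity)]
          have e : k' * c * (g * k1 ^ 2 * P.M.card) = (k' * (g * c)) * (k1 ^ 2 * P.M.card) := by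
            ring
          rw [e]
          exact mul_le_mul_of_nonneg_right h3 (by positivity)
        have e : k' * (4 * (g * c / k2) + c / (k1 ^ 2 * P.M.card)) =
          k' * (4 * (g * c / k2)) + k' * (c / (k1 ^ 2 * P.M.card)) := by ring
        linarith
      have e3 : dG (P.net k1 hk1) ∅ π ≤
          dG (P.net k' hk') ∅ π * Real.exp (4 + k2 / (g * k1 ^ 2 * P.M.card)) :=
        e1.trans (mul_le_mul_of_nonneg_left (Real.exp_le_exp.2 g5) (dG_nonneg _ _ _))
      rw [VBas.Imass_lastf, VBas.Imass_lastf, cpr_congr (P.net k1 hk1) (P.net k' hk') rfl π]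
      have h9 : lastf (P.net k1 hk1).k π = (k1 / k') * lastf (P.net k' hk').k π := by
        unfold lastf
        cases π.getLast? with
        | none => simp
        | some z =>
          show (if z ∈ P.M then k1 else 0) = (k1 / k') * (if z ∈ P.M then k' else 0)
          split_ifs
          · field_simp
          · ring
      rw [h9]
      have c1 := cpr_nonneg (P.net k' hk') π
      have c2 := LEx.lastf_nonneg (P.net k' hk').k_nonneg π
      have c3 : 0 ≤ k1 / k' := (div_pos hk1 hk').le
      calc cpr (P.net k' hk') π * dG (P.net k1 hk1) ∅ π * (k1 / k' * lastf (P.net k' hk').k π)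
          = dG (P.net k1 hk1) ∅ π *
            (cpr (P.net k' hk') π * (k1 / k' * lastf (P.net k' hk').k π)) := by ring
        _ ≤ (dG (P.net k' hk') ∅ π * Real.exp (4 + k2 / (g * k1 ^ 2 * P.M.card))) *
            (cpr (P.net k' hk') π * (k1 / k' * lastf (P.net k' hk').k π)) :=
            mul_le_mul_of_nonneg_right e3 (mul_nonneg c1 (mul_nonneg c3 c2))
        _ = _ := by ring
    · rw [mul_zero]
      exact mul_nonneg hR0 (Imass_nonneg _ _ _)
  have hpath := EF_path (P.net k1 hk1) x (fun S => if P.cap k2 hk2 S < c then 1 else 0)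
  have hPF : PF (P.net k1 hk1) (fun f => P.cap k2 hk2 (anc f x) < c) =
      EF (P.net k1 hk1) ∅ (fun f => if P.cap k2 hk2 (anc f x) < c then 1 else 0) := by
    unfold PF
    congr 1
  rw [hPF, hpath]
  calc ∑ j ∈ range (Fintype.card V), ∑ π ∈ spaths j x ∅,
        Imass (P.net k1 hk1) ∅ π * (if P.cap k2 hk2 π.toFinset < c then 1 else 0)
      ≤ ∑ j ∈ range (Fintype.card V), ∑ π ∈ spaths j x ∅,
        k1 / k' * Real.exp (4 + k2 / (g * k1 ^ 2 * P.M.card)) * Imass (P.net k' hk') ∅ π :=
        Finset.sum_le_sum fun j hj => Finset.sum_le_sum fun π hπ => hterm j hj π hπ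
    _ = k1 / k' * Real.exp (4 + k2 / (g * k1 ^ 2 * P.M.card)) *
        ∑ j ∈ range (Fintype.card V), ∑ π ∈ spaths j x ∅, Imass (P.net k' hk') ∅ π := by
        rw [Finset.mul_sum]
        refine Finset.sum_congr rfl fun j _ => ?_
        rw [Finset.mul_sum]
    _ = _ := by rw [sum_Imass_one, mul_one]

end

end Pool.Agent.TH972.U
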