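import Pool.Agent.TH972.U.Rev

/-!
# Comparison of the products of Green functions for two killing rates
-/

set_option autoImplicit false
set_option linter.unusedSectionVars false

namespace Pool.Agent.TH972.U

open Finset

noncomputable section

variable {V : Type} [Fintype V] [DecidableEq V]

namespace Cmp

open Grn Kill Marks Rev

/-- the potential -/
def Psi (a x : ℝ) : ℝ := if x ≤ a then 1 + Real.log (a / x) else a / x

lemma Psi_step {a x y δ : ℝ} (_ha : 0 ≤ a) (hx : 0 < x) (hxy : x ≤ y) (hδ : y = (1 + δ) * x) :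
    δ * min 1 (a / x) ≤ (1 + δ) * (Psi a x - Psi a y) := by
  have hy : 0 < y := hx.trans_le hxy
  have hδ0 : 0 ≤ δ := by
    by_contra h
    push Not at h
    nlinarith
  have h1δ : 0 < 1 + δ := by linarith
  unfold Psi
  by_cases h1 : y ≤ a
  · have h2 : x ≤ a := hxy.trans h1
    have ha' : 0 < a := hx.trans_le h2
    rw [if_pos h1, if_pos h2]
    have e : 1 + Real.log (a / x) - (1 + Real.log (a / y)) = Real.log (1 + δ) := by
      rw [Real.log_div ha'.ne' hx.ne', Real.log_div ha'.ne' hy.ne', hδ,
        Real.log_mul h1δ.ne' hx.ne']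
      ring
    rw [e]
    have h3 : δ / (1 + δ) ≤ Real.log (1 + δ) := by
      have := Real.one_sub_inv_le_log_of_pos h1δ
      have e2 : δ / (1 + δ) = 1 - (1 + δ)⁻¹ := by field_simp; ring
      rw [e2]; exact this
    have h4 : δ ≤ (1 + δ) * Real.log (1 + δ) := by
      rw [div_le_iff₀ h1δ] at h3
      linarith
    have h5 : δ * min 1 (a / x) ≤ δ * 1 := mul_le_mul_of_nonneg_left (min_le_left _ _) hδ0
    linarith
  · rw [if_neg h1]
    push Not at h1
    by_cases h2 : x ≤ a
    · rw [if_pos h2]
      have ha' : 0 < a := hx.trans_le h2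
      set s := a / x with hs
      have hs1 : 1 ≤ s := by rw [hs, le_div_iff₀ hx]; linarith
      have hs2 : s ≤ 1 + δ := by
        rw [hs, div_le_iff₀ hx]
        linarith
      have hs0 : 0 < s := by linarith
      have e : a / y = s / (1 + δ) := by
        rw [hδ, hs]
        field_simp
      rw [e]
      have h3 := Real.one_sub_inv_le_log_of_pos hs0
      have h4 : δ / (1 + δ) ≤ 1 + (1 - s⁻¹) - s / (1 + δ) := by
        have e3 : 1 + (1 - s⁻¹) - s / (1 + δ) - δ / (1 + δ) =
            (s - 1) * (1 + δ - s) / (s * (1 + δ)) := by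
          field_simp
          ring
        have : 0 ≤ (s - 1) * (1 + δ - s) / (s * (1 + δ)) := by
          apply div_nonneg
          · exact mul_nonneg (by linarith) (by linarith)
          · positivity
        linarith
      have h5 : δ / (1 + δ) ≤ 1 + Real.log s - s / (1 + δ) := by linarith
      rw [div_le_iff₀ h1δ] at h5
      have h6 : δ * min 1 s ≤ δ * 1 := mul_le_mul_of_nonneg_left (min_le_left _ _) hδ0
      linarith
    · rw [if_neg h2]
      have e : (1 + δ) * (a / x - a / y) = δ * (a / x) := by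
        rw [hδ]
        field_simp
        ring
      rw [e]
      exact mul_le_mul_of_nonneg_left (min_le_right _ _) hδ0

lemma Psi_nonneg {a x : ℝ} (ha : 0 ≤ a) (hx : 0 < x) : 0 ≤ Psi a x := by
  unfold Psi
  split_ifs with h
  · have : 1 ≤ a / x := by rw [le_div_iff₀ hx]; linarith
    have := Real.log_nonneg this
    linarith
  · exact div_nonneg ha hx.le

lemma Psi_anti {a x y : ℝ} (ha : 0 ≤ a) (hx : 0 < x) (hxy : x ≤ y) : Psi a y ≤ Psi a x := by
  have hδ : y = (1 + (y / x - 1)) * x := by field_simp; ring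
  have h := Psi_step ha hx hxy hδ
  have h1 : 0 ≤ y / x - 1 := by
    rw [sub_nonneg, le_div_iff₀ hx]; linarith
  have h2 : 0 ≤ (y / x - 1) * min 1 (a / x) :=
    mul_nonneg h1 (le_min zero_le_one (div_nonneg ha hx.le))
  have h3 : 0 < 1 + (y / x - 1) := by linarith
  have h4 : 0 ≤ (1 + (y / x - 1)) * (Psi a x - Psi a y) := h2.trans h
  have := nonneg_of_mul_nonneg_right h4 h3
  linarith

lemma Psi_le {a x : ℝ} (hx : 0 < x) : Psi a x ≤ 1 + Real.log (max 1 (a / x)) := by
  unfold Psi
  split_ifs with h
  · have : 1 ≤ a / x := by rw [le_div_iff₀ hx]; linarith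
    rw [max_eq_right this]
  · push Not at h
    have h1 : a / x ≤ 1 := by rw [div_le_one hx]; exact h.le
    have := Real.log_nonneg (le_max_left 1 (a / x))
    linarith

/-- one step of the comparison -/
lemma one_step (E : BlkEnv V) {x y : ℝ} (hx : 0 < x) (hy : 0 < y) (hxy : x ≤ y) {d : ℝ}
    (hd : ∀ v, cs E.κ v ≤ d) {π : List V} (hπ : π.Nodup) :
    dG (E.net x hx) ∅ π ≤ dG (E.net y hy) ∅ π * Real.exp
      (((y - x) / x) * min 1 ((d + x) * π.length / (x * E.M.card)) +
        (y - x) * (E.smax * E.C) * π.length) := by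
  have h := dG_kill_rev (E.net x hx) (E.net y hy) rfl (fun v => by
    show (if v ∈ E.M then x else 0) ≤ (if v ∈ E.M then y else 0)
    split_ifs
    · exact hxy
    · exact le_refl _) ∅ hπ (fun z _ => Finset.notMem_empty z)
  refine h.trans ?_
  apply mul_le_mul_of_nonneg_left _ (dGnn _ _ _)
  apply Real.exp_le_exp.2
  rw [Finset.empty_union]
  have e : ∑ g, ((E.net y hy).k g - (E.net x hx).k g) *
      (grn (E.net x hx) ∅ g g - grn (E.net x hx) π.toFinset g g) =
      ((y - x) / x) * ∑ g ∈ E.M, x * (grn (E.net x hx) ∅ g g - grn (E.net x hx) π.toFinset g g) := by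
    have h1 : ∀ g, ((E.net y hy).k g - (E.net x hx).k g) *
        (grn (E.net x hx) ∅ g g - grn (E.net x hx) π.toFinset g g) =
        if g ∈ E.M then (y - x) * (grn (E.net x hx) ∅ g g - grn (E.net x hx) π.toFinset g g)
          else 0 := by
      intro g
      show ((if g ∈ E.M then y else 0) - (if g ∈ E.M then x else 0)) * _ = _
      split_ifs <;> ring
    rw [Finset.sum_congr rfl fun g _ => h1 g, Finset.sum_ite_mem, Finset.univ_inter,
      Finset.mul_sum]
    apply Finset.sum_congr rfl
    intro g _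
    field_simp
  rw [e]
  have h2 := E.gap_sum hx hd π.toFinset
  rw [List.toFinset_card_of_nodup hπ] at h2
  have h3 : 0 ≤ (y - x) / x := div_nonneg (by linarith) hx.le
  refine (mul_le_mul_of_nonneg_left h2 h3).trans (le_of_eq ?_)
  field_simp

lemma chain (E : BlkEnv V) {k k' : ℝ} (hk : 0 < k) (hk' : 0 < k') (hkk : k ≤ k') {d : ℝ}
    (hd0 : 0 ≤ d) (hd : ∀ v, cs E.κ v ≤ d) {π : List V} (hπ : π.Nodup) {δ : ℝ} (hδ : 0 < δ) :
    dG (E.net k hk) ∅ π ≤ dG (E.net k' hk') ∅ π * Real.exp
      ((1 + δ) * (Psi ((d + k') * π.length / E.M.card) k - Psi ((d + k') * π.length / E.M.card) k')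
        + (k' - k) * (E.smax * E.C) * π.length) := by
  have hM : (0 : ℝ) < (E.M.card : ℝ) := by exact_mod_cast E.hM0
  set a : ℝ := (d + k') * π.length / E.M.card with ha
  have ha0 : 0 ≤ a := by positivity
  -- the claim for one point
  have key : ∀ i : ℕ, ∀ x : ℝ, ∀ hx : 0 < x, x = min k' (k * (1 + δ) ^ i) →
      dG (E.net k hk) ∅ π ≤ dG (E.net x hx) ∅ π * Real.exp
        ((1 + δ) * (Psi a k - Psi a x) + (x - k) * (E.smax * E.C) * π.length) := by
    intro i
    induction i with
    | zero =>
      intro x hx hxe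
      rw [pow_zero, mul_one, min_eq_right hkk] at hxe
      subst hxe
      simp
    | succ i ih =>
      intro y hy hye
      have hp : 0 < k * (1 + δ) ^ i := by positivity
      have hx : 0 < min k' (k * (1 + δ) ^ i) := lt_min hk' hp
      have h1 := ih _ hx rfl
      set x := min k' (k * (1 + δ) ^ i) with hxd
      have hxk' : x ≤ k' := min_le_left _ _
      have hxy : x ≤ y := by
        rw [hye, hxd]
        apply min_le_min_left
        rw [pow_succ, ← mul_assoc]
        have : k * (1 + δ) ^ i * 1 ≤ k * (1 + δ) ^ i * (1 + δ) :=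
          mul_le_mul_of_nonneg_left (by linarith) hp.le
        linarith
      have hyx : y ≤ (1 + δ) * x := by
        rw [hye, hxd]
        rcases le_total k' (k * (1 + δ) ^ i) with h | h
        · rw [min_eq_left h]
          refine (min_le_left _ _).trans ?_
          have : 0 ≤ δ * k' := mul_nonneg hδ.le hk'.le
          linarith
        · rw [min_eq_right h]
          refine (min_le_right _ _).trans (le_of_eq ?_)
          rw [pow_succ]; ring
      have h2 := one_step E hx hy hxy hd hπ
      refine h1.trans ((mul_le_mul_of_nonneg_right h2 (Real.exp_pos _).le).trans ?_)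
      rw [mul_assoc, ← Real.exp_add]
      apply mul_le_mul_of_nonneg_left _ (dGnn _ _ _)
      apply Real.exp_le_exp.2
      have hδ' : y = (1 + (y / x - 1)) * x := by
        rw [add_sub_cancel, div_mul_cancel₀ _ hx.ne']
      have h3 := Psi_step ha0 hx hxy hδ'
      have h4 : y / x - 1 = (y - x) / x := by rw [sub_div, div_self hx.ne']
      have h5 : 0 ≤ (y - x) / x := div_nonneg (sub_nonneg.2 hxy) hx.le
      have h6 : 1 + (y / x - 1) ≤ 1 + δ := by
        have : y / x ≤ 1 + δ := by rw [div_le_iff₀ hx]; exact hyx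
        linarith
      have h7 : 0 ≤ Psi a x - Psi a y := by
        have := Psi_anti ha0 hx hxy
        linarith
      have h8 : (1 + (y / x - 1)) * (Psi a x - Psi a y) ≤ (1 + δ) * (Psi a x - Psi a y) :=
        mul_le_mul_of_nonneg_right h6 h7
      have h9 : min 1 ((d + x) * π.length / (x * E.M.card)) ≤ min 1 (a / x) := by
        apply min_le_min_left
        rw [ha, div_div, mul_comm (E.M.card : ℝ) x]
        apply div_le_div_of_nonneg_right _ (mul_pos hx hM).le
        apply mul_le_mul_of_nonneg_right _ (Nat.cast_nonneg _)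
        linarith
      have h10 := mul_le_mul_of_nonneg_left h9 h5
      rw [h4] at h3 h8
      have e : (y - k) * (E.smax * E.C) * π.length = (y - x) * (E.smax * E.C) * π.length +
          (x - k) * (E.smax * E.C) * π.length := by ring
      rw [e]
      linarith
  obtain ⟨i, hi⟩ := pow_unbounded_of_one_lt (k' / k) (by linarith : 1 < 1 + δ)
  have hle : k' ≤ k * (1 + δ) ^ i := by
    rw [div_lt_iff₀ hk] at hi
    linarith
  exact key i k' hk' (min_eq_left hle).symm

end Cmp

open Grn Kill Marks Rev Cmp

/-- comparison of the products of Green functions for two killing rates -/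
theorem BlkEnv.dG_cmp (E : BlkEnv V) {k k' : ℝ} (hk : 0 < k) (hk' : 0 < k') (hkk : k ≤ k') {d : ℝ}
    (hd : ∀ v, cs E.κ v ≤ d) {π : List V} (hπ : π.Nodup) :
    dG (E.net k hk) ∅ π ≤ Real.exp 5 * max 1 ((d + k') * π.length / (k * E.M.card)) *
      Real.exp (2 * k' * (E.smax * E.C) * π.length) * dG (E.net k' hk') ∅ π := by
  have hM : (0 : ℝ) < (E.M.card : ℝ) := by exact_mod_cast E.hM0
  obtain ⟨v0, hv0⟩ := Finset.card_pos.1 E.hM0
  have hd0 : 0 ≤ d := by
    refine le_trans ?_ (hd v0)
    exact cs_nn (E.net k hk) v0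
  set Λ : ℝ := max 1 ((d + k') * π.length / (k * E.M.card)) with hΛ
  have hΛ1 : 1 ≤ Λ := le_max_left _ _
  have hlog : 0 ≤ Real.log Λ := Real.log_nonneg hΛ1
  set a : ℝ := (d + k') * π.length / E.M.card with ha
  have ha0 : 0 ≤ a := by positivity
  have hδ : 0 < 1 / (1 + Real.log Λ) := by positivity
  have h1 := chain E hk hk' hkk hd0 hd hπ hδ
  rw [← ha] at h1
  have hs := smax_nonneg E
  have hC := E.C_pos
  have h2 : Psi a k ≤ 1 + Real.log Λ := by
    have := Psi_le (a := a) hk
    have e : a / k = (d + k') * π.length / (k * E.M.card) := by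
      rw [ha, div_div, mul_comm (E.M.card : ℝ) k]
    rwa [e, ← hΛ] at this
  have h3 := Psi_nonneg (a := a) ha0 hk'
  have h4 : (1 + 1 / (1 + Real.log Λ)) * (Psi a k - Psi a k') ≤ 2 + Real.log Λ := by
    calc (1 + 1 / (1 + Real.log Λ)) * (Psi a k - Psi a k')
        ≤ (1 + 1 / (1 + Real.log Λ)) * (1 + Real.log Λ) :=
          mul_le_mul_of_nonneg_left (by linarith) (by positivity)
      _ = 2 + Real.log Λ := by
          have : 1 + Real.log Λ ≠ 0 := by positivity
          field_simp
          ring
  have h5 : (k' - k) * (E.smax * E.C) * π.length ≤ 2 * k' * (E.smax * E.C) * π.length := by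
    apply mul_le_mul_of_nonneg_right _ (by positivity)
    apply mul_le_mul_of_nonneg_right _ (mul_nonneg hs hC.le)
    linarith
  have h6 := dGnn (E.net k' hk') ∅ π
  refine h1.trans ?_
  rw [mul_comm]
  apply mul_le_mul_of_nonneg_right _ h6
  have h7 : Real.exp 5 * Λ * Real.exp (2 * k' * (E.smax * E.C) * π.length) =
      Real.exp (5 + Real.log Λ + 2 * k' * (E.smax * E.C) * π.length) := by
    rw [Real.exp_add, Real.exp_add, Real.exp_log (by linarith)]
  rw [h7]
  apply Real.exp_le_exp.2
  linarith

end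

end Pool.Agent.TH972.U
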