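import Pool.Agent.TH972.U.Lift

/-!
# Lifting: union bounds
-/

set_option autoImplicit false
set_option linter.unusedSectionVars false

namespace Pool.Agent.TH972.U

open Finset MeasureTheory Pool.Agent.W842.RST Pool.Agent.TH972

noncomputable section

variable {n : ℕ}

/-- from expectations of indicators to probabilities -/
theorem env_of_Ex (L : Finset ℝ) {P : Ev n → Prop} (hP : ∀ U U', lvlEq L U U' → (P U ↔ P U'))
    {η : ℝ} (h : Ex (fun U => ind (P U)) ≤ η) : env n {U | P U} ≤ ENNReal.ofReal η := by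
  classical
  have hB : BM (fun U => ind (P U)) := BM_lvl L (fun U U' hU => by
    by_cases hp : P U
    · rw [ind_true hp, ind_true ((hP U U' hU).mp hp)]
    · rw [ind_false hp, ind_false (fun h => hp ((hP U U' hU).mpr h))])
  have hm : MeasurableSet {U : Ev n | P U} := by
    have h1 : {U : Ev n | P U} = (fun U => ind (P U)) ⁻¹' {1} := by
      ext U
      simp only [Set.mem_ofPred_eq, Set.mem_preimage, Set.mem_singleton_iff]
      by_cases hp : P U
      · rw [ind_true hp]; simp [hp]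
      · rw [ind_false hp]; simp [hp]
    rw [h1]
    exact hB.meas (measurableSet_singleton 1)
  have h2 : (fun U : Ev n => ind (P U)) = Set.indicator {U : Ev n | P U} 1 := by
    funext U
    by_cases hp : P U
    · rw [ind_true hp, Set.indicator_of_mem (show U ∈ {U : Ev n | P U} from hp)]; rfl
    · rw [ind_false hp, Set.indicator_of_notMem (show U ∉ {U : Ev n | P U} from hp)]
  have h3 : Ex (fun U => ind (P U)) = (env n).real {U | P U} := by
    unfold Ex
    rw [h2, integral_indicator_one hm]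
  rw [h3] at h
  rw [← ENNReal.ofReal_toReal (measure_ne_top (env n) {U | P U})]
  exact ENNReal.ofReal_le_ofReal h

/-- Markov inequality -/
theorem env_markov {F : Ev n → ℝ} (hF : BM F) (h0 : ∀ U, 0 ≤ F U) {A t : ℝ} (ht : 0 < t)
    (h : Ex F ≤ A) : env n {U | t ≤ F U} ≤ ENNReal.ofReal (A / t) := by
  have h1 := mul_meas_ge_le_integral_of_nonneg (μ := env n)
    (Filter.Eventually.of_forall h0) hF.integrable t
  have h2 : (env n).real {U | t ≤ F U} ≤ A / t := by
    rw [le_div_iff₀ ht, mul_comm]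
    exact h1.trans h
  rw [← ENNReal.ofReal_toReal (measure_ne_top (env n) {U | t ≤ F U})]
  exact ENNReal.ofReal_le_ofReal h2

namespace LiftU

open Classical in
/-- union bound over a family determined at the levels of `L` -/
theorem gen {p p' x : ℝ} (h0 : 0 ≤ p) (hpp : p ≤ p') (h1 : p' ≤ 1) (hp1 : p < 1) (hx : 0 ≤ x)
    (L : Finset ℝ) (hL : ∀ l ∈ L, l ≤ p) {ι : Type} (Fam : Ev n → Finset ι)
    (E : Ev n → ι → Finset (Sym2 (Fin n))) (t : Ev n → ι → ℕ)
    (hFam : ∀ U U', lvlEq L U U' → Fam U = Fam U') (hE : ∀ U U', lvlEq L U U' → E U = E U')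
    (ht : ∀ U U', lvlEq L U U' → t U = t U')
    (hEp : ∀ U, ∀ i ∈ Fam U, ∀ e ∈ E U i, p < U e) (κ : ℕ → ℕ → Prop) (w : ℕ → ℝ)
    (hw : ∀ s, 0 ≤ w s) (hκ : ∀ N s, κ N s → 1 ≤ w s * x ^ N) {b : ℝ}
    (hb : ∀ U, ∑ i ∈ Fam U, w (t U i) * (1 + (p' - p) / (1 - p) * (x - 1)) ^ (E U i).card ≤ b) :
    env n {U | ∃ i ∈ Fam U, κ ((E U i).filter (fun e => U e ≤ p')).card (t U i)} ≤
      ENNReal.ofReal b := by
  set P : Ev n → Prop := fun U =>
    ∃ i ∈ Fam U, κ ((E U i).filter (fun e => U e ≤ p')).card (t U i) with hPdef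
  have hsub : ∀ {U U' : Ev n}, lvlEq (insert p' L) U U' → lvlEq L U U' := by
    intro U U' h e l hl
    exact h e l (Finset.mem_insert_of_mem hl)
  have hfil : ∀ {U U' : Ev n}, lvlEq (insert p' L) U U' → ∀ S : Finset (Sym2 (Fin n)),
      S.filter (fun e => U e ≤ p') = S.filter (fun e => U' e ≤ p') := by
    intro U U' h S
    refine Finset.filter_congr fun e _ => h e p' (Finset.mem_insert_self _ _)
  have hP1 : ∀ U U', lvlEq (insert p' L) U U' → P U → P U' := by
    rintro U U' h ⟨i, hi, hk⟩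
    refine ⟨i, ?_, ?_⟩
    · rw [← hFam U U' (hsub h)]; exact hi
    · rw [← hE U U' (hsub h), ← ht U U' (hsub h), ← hfil h]; exact hk
  have hsymm : ∀ {M : Finset ℝ} {U U' : Ev n}, lvlEq M U U' → lvlEq M U' U := by
    intro M U U' h e l hl
    exact (h e l hl).symm
  have hP : ∀ U U', lvlEq (insert p' L) U U' → (P U ↔ P U') := fun U U' h =>
    ⟨hP1 U U' h, hP1 U' U (hsymm h)⟩
  refine env_of_Ex (insert p' L) hP ?_
  -- the classes
  have hkap : ∀ {U U' : Ev n}, lvlEq L U U' → Lvl.kap L U = Lvl.kap L U' := by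
    intro U U' h
    funext e l
    exact propext (h e l.1 l.2)
  have hBM : ∀ c : (Sym2 (Fin n) → L → Prop), BM (fun U : Ev n => ind (Lvl.kap L U = c)) := by
    intro c
    refine BM_lvl L fun U U' h => ?_
    rw [hkap h]
  have hBP : ∀ c : (Sym2 (Fin n) → L → Prop),
      BM (fun U : Ev n => ind (Lvl.kap L U = c) * ind (P U)) := by
    intro c
    refine BM_lvl (insert p' L) fun U U' h => ?_
    rw [hkap (hsub h)]
    by_cases hp : P U
    · rw [ind_true hp, ind_true ((hP U U' h).mp hp)]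
    · rw [ind_false hp, ind_false (fun h' => hp ((hP U U' h).mpr h'))]
  have hsum1 : ∀ U : Ev n, ∑ c : (Sym2 (Fin n) → L → Prop), ind (Lvl.kap L U = c) = 1 := by
    intro U
    rw [Finset.sum_eq_single (Lvl.kap L U)]
    · exact ind_true rfl
    · intro c _ hc
      exact ind_false (fun h => hc h.symm)
    · intro h
      exact absurd (Finset.mem_univ _) h
  have e1 : Ex (fun U => ind (P U)) =
      ∑ c : (Sym2 (Fin n) → L → Prop), Ex (fun U => ind (Lvl.kap L U = c) * ind (P U)) := by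
    rw [← Ex_sum _ (fun c _ => hBP c)]
    refine Ex_congr fun U => ?_
    rw [← Finset.sum_mul, hsum1, one_mul]
  have e2 : b = ∑ c : (Sym2 (Fin n) → L → Prop), Ex (fun U => ind (Lvl.kap L U = c)) * b := by
    rw [← Finset.sum_mul, ← Ex_sum _ (fun c _ => hBM c)]
    rw [Ex_congr (G := fun _ => 1) hsum1, Ex_const, one_mul]
  rw [e1, e2]
  refine Finset.sum_le_sum fun c _ => ?_
  by_cases hc : ∃ U : Ev n, Lvl.kap L U = c
  swap
  · have z : ∀ U : Ev n, ind (Lvl.kap L U = c) = 0 := fun U => ind_false (fun h => hc ⟨U, h⟩)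
    have z1 : Ex (fun U : Ev n => ind (Lvl.kap L U = c) * ind (P U)) = 0 := by
      rw [Ex_congr (G := fun _ => 0) (fun U => by rw [z, zero_mul]), Ex_const]
    have z2 : Ex (fun U : Ev n => ind (Lvl.kap L U = c)) = 0 := by
      rw [Ex_congr (G := fun _ => 0) z, Ex_const]
    rw [z1, z2, zero_mul]
  obtain ⟨U0, hU0⟩ := hc
  have hl : ∀ {U : Ev n}, Lvl.kap L U = c → lvlEq L U U0 := by
    intro U h
    exact Lvl.kap_eq (h.trans hU0.symm)
  have hB : ∀ U U' : Ev n, lvlEq L U U' → (Lvl.kap L U = c ↔ Lvl.kap L U' = c) := by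
    intro U U' h
    rw [hkap h]
  have hBE : ∀ i ∈ Fam U0, ∀ U : Ev n, Lvl.kap L U = c → ∀ e ∈ E U0 i, p < U e := by
    intro i hi U hU e he
    refine hEp U i ?_ e ?_
    · rw [hFam U U0 (hl hU)]; exact hi
    · rw [hE U U0 (hl hU)]; exact he
  have hbm : ∀ i ∈ Fam U0, BM (fun U : Ev n => w (t U0 i) * (ind (Lvl.kap L U = c) *
      ∏ e ∈ E U0 i, (if U e ≤ p' then x else 1))) := by
    intro i _
    refine BM_lvl (insert p' L) fun U U' h => ?_
    rw [hkap (hsub h)]
    congr 2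
    refine Finset.prod_congr rfl fun e _ => ?_
    have := h e p' (Finset.mem_insert_self _ _)
    by_cases hu : U e ≤ p'
    · rw [if_pos hu, if_pos (this.mp hu)]
    · rw [if_neg hu, if_neg (fun h' => hu (this.mpr h'))]
  have hle : ∀ U : Ev n, ind (Lvl.kap L U = c) * ind (P U) ≤
      ∑ i ∈ Fam U0, w (t U0 i) * (ind (Lvl.kap L U = c) *
        ∏ e ∈ E U0 i, (if U e ≤ p' then x else 1)) := by
    intro U
    have hnn : ∀ i ∈ Fam U0, 0 ≤ w (t U0 i) * (ind (Lvl.kap L U = c) *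
        ∏ e ∈ E U0 i, (if U e ≤ p' then x else 1)) := by
      intro i _
      refine mul_nonneg (hw _) (mul_nonneg (ind_nonneg _) (Finset.prod_nonneg fun e _ => ?_))
      split_ifs
      · exact hx
      · exact zero_le_one
    by_cases hU : Lvl.kap L U = c
    swap
    · rw [ind_false hU, zero_mul]
      simp
    by_cases hp : P U
    swap
    · rw [ind_false hp, mul_zero]
      exact Finset.sum_nonneg hnn
    obtain ⟨i, hi, hk⟩ := hp
    rw [hFam U U0 (hl hU)] at hi
    rw [hE U U0 (hl hU), ht U U0 (hl hU)] at hk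
    refine le_trans ?_ (Finset.single_le_sum hnn hi)
    rw [ind_true hU, one_mul, one_mul]
    refine (ind_le_one _).trans ?_
    have := hκ _ _ hk
    rw [Finset.prod_ite, Finset.prod_const, Finset.prod_const_one, mul_one]
    exact this
  refine (Ex_mono (hBP c) (BM.sum _ hbm) hle).trans ?_
  rw [Ex_sum _ hbm]
  have e3 : ∀ i ∈ Fam U0, Ex (fun U : Ev n => w (t U0 i) * (ind (Lvl.kap L U = c) *
      ∏ e ∈ E U0 i, (if U e ≤ p' then x else 1))) =
      Ex (fun U : Ev n => ind (Lvl.kap L U = c)) *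
        (w (t U0 i) * (1 + (p' - p) / (1 - p) * (x - 1)) ^ (E U0 i).card) := by
    intro i hi
    rw [Ex_const_mul, Ex_lift h0 hpp h1 hp1 L hL (E U0 i) _ hB (hBE i hi) x]
    ring
  rw [Finset.sum_congr rfl e3, ← Finset.mul_sum]
  exact mul_le_mul_of_nonneg_left (hb U0) (Ex_nonneg fun U => ind_nonneg _)

theorem exp_sub' (a b : ℝ) : Real.exp (a - b) = Real.exp a * Real.exp (-b) := by
  rw [← Real.exp_add, sub_eq_add_neg]

theorem q_bound {p p' : ℝ} (hpp : p ≤ p') (h1 : p' ≤ 1) (hp1 : p < 1) :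
    0 ≤ (p' - p) / (1 - p) ∧ (p' - p) / (1 - p) ≤ 1 := by
  have h : 0 < 1 - p := by linarith
  refine ⟨div_nonneg (by linarith) h.le, ?_⟩
  rw [div_le_one h]
  linarith

end LiftU

open Classical in
/-- too few new edges in one of the sets of a family determined at the levels of `L` -/
theorem lift_low {p p' : ℝ} (h0 : 0 ≤ p) (hpp : p ≤ p') (h1 : p' ≤ 1) (hp1 : p < 1)
    (L : Finset ℝ) (hL : ∀ l ∈ L, l ≤ p) {ι : Type} (Fam : Ev n → Finset ι)
    (E : Ev n → ι → Finset (Sym2 (Fin n))) (t : Ev n → ι → ℕ)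
    (hFam : ∀ U U', lvlEq L U U' → Fam U = Fam U') (hE : ∀ U U', lvlEq L U U' → E U = E U')
    (ht : ∀ U U', lvlEq L U U' → t U = t U')
    (hEp : ∀ U, ∀ i ∈ Fam U, ∀ e ∈ E U i, p < U e) {b : ℝ}
    (hb : ∀ U, ∑ i ∈ Fam U, Real.exp (t U i - 0.6 * ((p' - p) / (1 - p)) * (E U i).card) ≤ b) :
    env n {U | ∃ i ∈ Fam U, ((E U i).filter (fun e => U e ≤ p')).card ≤ t U i} ≤
      ENNReal.ofReal b := by
  obtain ⟨hq0, hq1⟩ := LiftU.q_bound hpp h1 hp1
  refine LiftU.gen h0 hpp h1 hp1 (Real.exp_pos (-1)).le L hL Fam E t hFam hE ht hEp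
    (fun N s => N ≤ s) (fun s => Real.exp s) (fun s => (Real.exp_pos _).le) ?_ (b := b) ?_
  · intro N s hNs
    rw [← Real.exp_nat_mul, ← Real.exp_add]
    apply Real.one_le_exp
    have : (N : ℝ) ≤ s := by exact_mod_cast hNs
    linarith
  · intro U
    refine le_trans (Finset.sum_le_sum fun i _ => ?_) (hb U)
    rw [LiftU.exp_sub']
    refine mul_le_mul_of_nonneg_left ?_ (Real.exp_pos _).le
    have hx : Real.exp (-1) ≤ 0.4 := by
      rw [Real.exp_neg, inv_le_comm₀ (Real.exp_pos 1) (by norm_num)]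
      have := Real.exp_one_gt_d9
      norm_num at this ⊢
      linarith
    have hx0 := Real.exp_pos (-1)
    have h2 : 0 ≤ 1 + (p' - p) / (1 - p) * (Real.exp (-1) - 1) := by nlinarith
    have h3 : 1 + (p' - p) / (1 - p) * (Real.exp (-1) - 1) ≤
        Real.exp (-(0.6 * ((p' - p) / (1 - p)))) := by
      have := Real.add_one_le_exp (-(0.6 * ((p' - p) / (1 - p))))
      nlinarith
    refine (pow_le_pow_left₀ h2 h3 _).trans (le_of_eq ?_)
    rw [← Real.exp_nat_mul]
    congr 1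
    ring

open Classical in
/-- too many new edges -/
theorem lift_up {p p' : ℝ} (h0 : 0 ≤ p) (hpp : p ≤ p') (h1 : p' ≤ 1) (hp1 : p < 1)
    (L : Finset ℝ) (hL : ∀ l ∈ L, l ≤ p) {ι : Type} (Fam : Ev n → Finset ι)
    (E : Ev n → ι → Finset (Sym2 (Fin n))) (t : Ev n → ι → ℕ)
    (hFam : ∀ U U', lvlEq L U U' → Fam U = Fam U') (hE : ∀ U U', lvlEq L U U' → E U = E U')
    (ht : ∀ U U', lvlEq L U U' → t U = t U')
    (hEp : ∀ U, ∀ i ∈ Fam U, ∀ e ∈ E U i, p < U e) {b : ℝ}
    (hb : ∀ U, ∑ i ∈ Fam U, Real.exp ((p' - p) / (1 - p) * (E U i).card - 0.69 * t U i) ≤ b) :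
    env n {U | ∃ i ∈ Fam U, t U i ≤ ((E U i).filter (fun e => U e ≤ p')).card} ≤
      ENNReal.ofReal b := by
  obtain ⟨hq0, hq1⟩ := LiftU.q_bound hpp h1 hp1
  refine LiftU.gen h0 hpp h1 hp1 (zero_le_two) L hL Fam E t hFam hE ht hEp
    (fun N s => s ≤ N) (fun s => (2⁻¹ : ℝ) ^ s) (fun s => by positivity) ?_ (b := b) ?_
  · intro N s hNs
    rw [inv_pow, ← div_eq_inv_mul, one_le_div (by positivity)]
    exact pow_le_pow_right₀ (by norm_num) hNs
  · intro U
    refine le_trans (Finset.sum_le_sum fun i _ => ?_) (hb U)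
    rw [LiftU.exp_sub', mul_comm]
    have h2 : (2⁻¹ : ℝ) ^ (t U i) ≤ Real.exp (-(0.69 * t U i)) := by
      have h3 : (2⁻¹ : ℝ) ≤ Real.exp (-0.69) := by
        rw [Real.exp_neg, inv_le_inv₀ (by norm_num) (Real.exp_pos _)]
        have h4 := Real.log_two_gt_d9
        rw [← Real.le_log_iff_exp_le (by norm_num)]
        linarith
      refine (pow_le_pow_left₀ (by norm_num) h3 _).trans (le_of_eq ?_)
      rw [← Real.exp_nat_mul]
      congr 1
      ring
    have h5 : (1 + (p' - p) / (1 - p) * (2 - 1)) ^ (E U i).card ≤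
        Real.exp ((p' - p) / (1 - p) * (E U i).card) := by
      have h6 : 1 + (p' - p) / (1 - p) * (2 - 1) ≤ Real.exp ((p' - p) / (1 - p)) := by
        have := Real.add_one_le_exp ((p' - p) / (1 - p))
        linarith
      refine (pow_le_pow_left₀ (by linarith) h6 _).trans (le_of_eq ?_)
      rw [← Real.exp_nat_mul]
      congr 1
      ring
    exact mul_le_mul h5 h2 (by positivity) (Real.exp_pos _).le

end

end Pool.Agent.TH972.U
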