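import Pool.Agent.TH972.U.Test
import Pool.Agent.TH972.U.LiftU
import Pool.Agent.TH972.U.GDef

/-!
# Number of marks
(job RSTRE X6 of helper972, written by helper267)
-/

set_option autoImplicit false
set_option linter.unusedVariables false
set_option linter.unusedSectionVars false

namespace Pool.Agent.TH972.U

open Finset MeasureTheory Pool.Agent.W842.RST Pool.Agent.TH972

noncomputable section

variable {n : ℕ}

namespace Count

/-- the cluster of `v` as a reach set -/
def C (p : ℝ) (U : Ev n) (v : Fin n) : Finset (Fin n) := rch p U {v} (univ.erase v)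

theorem C_cmp (p : ℝ) (U : Ev n) (v : Fin n) : C p U v = cmp (GU U p) v := rch_cmp p U v

theorem un (v : Fin n) : ({v} : Finset (Fin n)) ∪ univ.erase v = univ := by
  ext z
  simp only [mem_union, mem_singleton, mem_erase, mem_univ, and_true, iff_true]
  tauto

theorem dis (v : Fin n) : Disjoint ({v} : Finset (Fin n)) (univ.erase v) := by
  rw [disjoint_singleton_left]
  exact notMem_erase v univ

theorem self_C (p : ℝ) (U : Ev n) (v : Fin n) : v ∈ C p U v :=
  subset_rch p U _ _ (mem_singleton_self v)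

theorem C_closed {p : ℝ} {U : Ev n} {v a b : Fin n} (ha : a ∈ C p U v) (h : U s(a, b) ≤ p) :
    b ∈ C p U v := by
  apply Rch.closed ha _ h
  rw [un]
  exact mem_univ b

theorem lvl_sub {L L' : Finset ℝ} (h : L' ⊆ L) {U U' : Ev n} (hU : lvlEq L U U') :
    lvlEq L' U U' := fun e p hp => hU e p (h hp)

theorem C_lvl {L : Finset ℝ} {p : ℝ} (hp : p ∈ L) {U U' : Ev n} (hU : lvlEq L U U') (v : Fin n)
    (F : Finset (Fin n)) : rch p U {v} F = rch p U' {v} F :=
  rch_lvl p _ _ (lvl_sub (singleton_subset_iff.2 hp) hU)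

theorem card_erase (v : Fin n) : ((univ.erase v : Finset (Fin n)).card : ℝ) = n - 1 := by
  rw [card_erase_of_mem (mem_univ v), card_univ, Fintype.card_fin]
  have : 1 ≤ n := by
    have := v.2
    omega
  rw [Nat.cast_sub this, Nat.cast_one]

theorem card_erase_mul {p x : ℝ} (h0 : 0 ≤ p) (h : n * p ≤ x) (v : Fin n) :
    ((univ.erase v : Finset (Fin n)).card : ℝ) * p ≤ x := by
  rw [card_erase]
  linarith

/-- expected cluster size -/
theorem size {p g : ℝ} (h0 : 0 ≤ p) (h1 : p ≤ 1) (hg0 : 0 < g) (hg1 : g ≤ 1)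
    (hp : n * p ≤ 1 - g) (v : Fin n) :
    Ex (fun U : Ev n => ((C p U v).card : ℝ)) ≤ 4 / g := by
  have h := rch_sub (n := n) h0 h1 hg0 hg1 {v} (univ.erase v) (dis v)
    (card_erase_mul h0 hp v) (μ := g ^ 2 / 4) (by positivity) le_rfl
  rw [card_singleton, Nat.cast_one, mul_one] at h
  have e1 : 2 * (g ^ 2 / 4) / g = g / 2 := by
    field_simp
    norm_num
  rw [e1] at h
  have e2 : Real.exp (g / 2) ≤ 1 + g := by
    have := Real.abs_exp_sub_one_sub_id_le (x := g / 2) (by rw [abs_of_nonneg (by positivity)]; linarith)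
    have h3 := (abs_le.1 this).2
    nlinarith
  have hbm := Rch2.bm (n := n) p {v} (univ.erase v) (fun j => Real.exp (g ^ 2 / 4 * j))
  have hbm2 := Rch2.bm (n := n) p {v} (univ.erase v) (fun j => (j : ℝ))
  have hbm3 := Rch2.bm (n := n) p {v} (univ.erase v) (fun j => g ^ 2 / 4 * (j : ℝ))
  have h4 : 1 + g ^ 2 / 4 * Ex (fun U : Ev n => ((C p U v).card : ℝ)) ≤
      Ex (fun U : Ev n => Real.exp (g ^ 2 / 4 * (rch p U {v} (univ.erase v)).card)) := by
    calc 1 + g ^ 2 / 4 * Ex (fun U : Ev n => ((C p U v).card : ℝ)) =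
          Ex (fun U : Ev n => 1 + g ^ 2 / 4 * ((rch p U {v} (univ.erase v)).card : ℝ)) := by
          rw [Ex_add (BM.const 1) hbm3, Ex_const, Ex_const_mul]
          rfl
      _ ≤ _ := by
          apply Ex_mono ((BM.const 1).add hbm3) hbm
          intro U
          have := Real.add_one_le_exp (g ^ 2 / 4 * ((rch p U {v} (univ.erase v)).card : ℝ))
          linarith
  rw [le_div_iff₀ hg0]
  have h5 : g ^ 2 / 4 * Ex (fun U : Ev n => ((C p U v).card : ℝ)) ≤ g := by linarith
  have h6 : g * (g / 4 * Ex (fun U : Ev n => ((C p U v).card : ℝ))) ≤ g * 1 := by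
    calc g * (g / 4 * Ex (fun U : Ev n => ((C p U v).card : ℝ))) =
          g ^ 2 / 4 * Ex (fun U : Ev n => ((C p U v).card : ℝ)) := by ring
      _ ≤ g * 1 := by linarith
  have h7 := le_of_mul_le_mul_left h6 hg0
  linarith

section pairs

variable (pl pb : ℝ) (s1 s0 : ℕ)

/-- the indicator of a mark -/
def a (U : Ev n) (v : Fin n) : ℝ := ind (mk pl pb s1 s0 U v (univ.erase v))

/-- the indicator of a mark outside `S` -/
def b (S : Finset (Fin n)) (U : Ev n) (w : Fin n) : ℝ :=
  ind (mk pl pb s1 s0 U w ((univ \ S).erase w))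

/-- the part of `a` on which the cluster is `S` -/
def ph (S : Finset (Fin n)) (U : Ev n) (v : Fin n) : ℝ :=
  ind (C pb U v = S ∧ mk pl pb s1 s0 U v (univ.erase v))

variable {pl pb} {s1 s0}

theorem a_nn (U : Ev n) (v : Fin n) : 0 ≤ a pl pb s1 s0 U v := ind_nonneg _
theorem a_le (U : Ev n) (v : Fin n) : a pl pb s1 s0 U v ≤ 1 := ind_le_one _
theorem b_nn (S : Finset (Fin n)) (U : Ev n) (v : Fin n) : 0 ≤ b pl pb s1 s0 S U v := ind_nonneg _
theorem ph_nn (S : Finset (Fin n)) (U : Ev n) (v : Fin n) : 0 ≤ ph pl pb s1 s0 S U v :=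
  ind_nonneg _

theorem mk_lvl {U U' : Ev n} (hU : lvlEq {pl, pb} U U') (v : Fin n) (F : Finset (Fin n)) :
    mk pl pb s1 s0 U v F = mk pl pb s1 s0 U' v F := by
  unfold mk
  rw [C_lvl (L := {pl, pb}) (by simp) hU, C_lvl (L := {pl, pb}) (by simp) hU]

theorem a_bm (v : Fin n) : BM (fun U : Ev n => a pl pb s1 s0 U v) :=
  BM_lvl {pl, pb} (fun U U' hU => by unfold a; rw [mk_lvl hU])

theorem b_bm (S : Finset (Fin n)) (v : Fin n) : BM (fun U : Ev n => b pl pb s1 s0 S U v) :=
  BM_lvl {pl, pb} (fun U U' hU => by unfold b; rw [mk_lvl hU])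

theorem ph_bm (S : Finset (Fin n)) (v : Fin n) : BM (fun U : Ev n => ph pl pb s1 s0 S U v) :=
  BM_lvl {pl, pb} (fun U U' hU => by
    unfold ph C
    rw [mk_lvl hU, C_lvl (L := {pl, pb}) (by simp) hU])

theorem in_bm (v w : Fin n) : BM (fun U : Ev n => ind (w ∈ C pb U v)) :=
  BM_lvl {pb} (fun U U' hU => by
    unfold C
    rw [C_lvl (L := {pb}) (by simp) hU])

/-- the cluster of `w` lies in the complement of the cluster `S` of `v` -/
theorem C_compl {p : ℝ} (hp : p ≤ pb) {U : Ev n} {v w : Fin n} (hw : w ∉ C pb U v) :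
    rch p U {w} (univ.erase w) = rch p U {w} ((univ \ C pb U v).erase w) := by
  apply Subset.antisymm
  · apply Rch.least (subset_rch p U _ _)
    intro x hx y hy hxy
    have hxS : x ∉ C pb U v := by
      have h1 := rch_subset p U _ _ hx
      rcases mem_union.1 h1 with h2 | h2
      · rw [mem_singleton] at h2
        rw [h2]; exact hw
      · exact (mem_sdiff.1 (mem_of_mem_erase h2)).2
    have hyS : y ∉ C pb U v := by
      intro hyS
      apply hxS
      apply C_closed hyS
      rw [Sym2.eq_swap]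
      exact hxy.trans hp
    apply Rch.closed hx _ hxy
    by_cases hyw : y = w
    · rw [hyw]; exact mem_union_left _ (mem_singleton_self w)
    · exact mem_union_right _ (mem_erase.2 ⟨hyw, mem_sdiff.2 ⟨mem_univ y, hyS⟩⟩)
  · apply rch_mono le_rfl U (Subset.refl _)
    apply union_subset_union_right
    intro z hz
    rw [mem_erase] at hz ⊢
    exact ⟨hz.1, mem_univ z⟩

theorem mk_mono {F F' : Finset (Fin n)} (h : F ⊆ F') {U : Ev n} {w : Fin n}
    (hm : mk pl pb s1 s0 U w F) : mk pl pb s1 s0 U w F' := by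
  unfold mk at hm ⊢
  exact ⟨hm.1.trans (card_le_card (rch_mono le_rfl U (Subset.refl _)
      (union_subset_union_right h))),
    hm.2.trans (card_le_card (rch_mono le_rfl U (Subset.refl _)
      (union_subset_union_right h)))⟩

theorem b_le_a (S : Finset (Fin n)) (U : Ev n) (w : Fin n) :
    b pl pb s1 s0 S U w ≤ a pl pb s1 s0 U w := by
  apply ind_mono
  intro h
  exact mk_mono (erase_subset_erase w sdiff_subset) h

/-- pointwise bound -/
theorem point (hlb : pl ≤ pb) (U : Ev n) (v w : Fin n) :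
    a pl pb s1 s0 U v * a pl pb s1 s0 U w ≤ ind (w ∈ C pb U v) +
      ∑ S ∈ (univ : Finset (Finset (Fin n))).filter (fun S => w ∉ S),
        ph pl pb s1 s0 S U v * b pl pb s1 s0 S U w := by
  have hsum : 0 ≤ ∑ S ∈ (univ : Finset (Finset (Fin n))).filter (fun S => w ∉ S),
        ph pl pb s1 s0 S U v * b pl pb s1 s0 S U w :=
    sum_nonneg (fun S _ => mul_nonneg (ph_nn S U v) (b_nn S U w))
  by_cases hw : w ∈ C pb U v
  · rw [ind_true hw]
    have h1 : a pl pb s1 s0 U v * a pl pb s1 s0 U w ≤ 1 :=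
      mul_le_one₀ (a_le U v) (a_nn U w) (a_le U w)
    linarith
  · rw [ind_false hw, zero_add]
    have h1 : ph pl pb s1 s0 (C pb U v) U v * b pl pb s1 s0 (C pb U v) U w ≤
        ∑ S ∈ (univ : Finset (Finset (Fin n))).filter (fun S => w ∉ S),
          ph pl pb s1 s0 S U v * b pl pb s1 s0 S U w :=
      single_le_sum (f := fun S => ph pl pb s1 s0 S U v * b pl pb s1 s0 S U w)
        (fun S _ => mul_nonneg (ph_nn S U v) (b_nn S U w))
        (mem_filter.2 ⟨mem_univ _, hw⟩)
    refine le_trans (le_of_eq ?_) h1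
    congr 1
    · unfold a ph
      have : (C pb U v = C pb U v ∧ mk pl pb s1 s0 U v (univ.erase v)) =
          mk pl pb s1 s0 U v (univ.erase v) := by
        apply propext
        tauto
      rw [this]
    · unfold a b mk
      rw [C_compl hlb hw, C_compl le_rfl hw]

/-- independence -/
theorem indep (hlb : pl ≤ pb) (S : Finset (Fin n)) (v w : Fin n) (hw : w ∉ S) :
    Ex (fun U : Ev n => ph pl pb s1 s0 S U v * b pl pb s1 s0 S U w) =
      Ex (fun U : Ev n => ph pl pb s1 s0 S U v) * Ex (fun U : Ev n => b pl pb s1 s0 S U w) := by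
  apply Ex_indep {e : Sym2 (Fin n) | ∃ x ∈ S, x ∈ e}
  · intro U U' hU
    -- the event for `U` implies the event for `U'`
    have key : ∀ U U' : Ev n, (∀ e ∈ {e : Sym2 (Fin n) | ∃ x ∈ S, x ∈ e}, U e = U' e) →
        (C pb U v = S ∧ mk pl pb s1 s0 U v (univ.erase v)) →
        (C pb U' v = S ∧ mk pl pb s1 s0 U' v (univ.erase v)) := by
      intro U U' hU h
      have e1 : rch pb U' {v} (univ.erase v) = rch pb U {v} (univ.erase v) := by
        apply Rch.loc
        intro x hx y _
        have hxS : x ∈ S := by rw [← h.1]; exact hx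
        rw [hU s(x, y) ⟨x, hxS, Sym2.mem_mk_left x y⟩]
      have e2 : rch pl U' {v} (univ.erase v) = rch pl U {v} (univ.erase v) := by
        apply Rch.loc
        intro x hx y _
        have hxS : x ∈ S := by
          rw [← h.1]
          exact rch_mono hlb U (Subset.refl _) (Subset.refl _) hx
        rw [hU s(x, y) ⟨x, hxS, Sym2.mem_mk_left x y⟩]
      refine ⟨?_, ?_⟩
      · unfold C
        rw [e1]
        exact h.1
      · have h2 := h.2
        unfold mk at h2 ⊢
        rw [e1, e2]
        exact h2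
    unfold ph
    congr 1
    apply propext
    exact ⟨key U U' hU, key U' U (fun e he => (hU e he).symm)⟩
  · intro U U' hU
    have key : ∀ p : ℝ, rch p U {w} ((univ \ S).erase w) = rch p U' {w} ((univ \ S).erase w) := by
      intro p
      apply (Rch.loc p _).symm
      intro x hx y hy
      have hxS : x ∉ S := by
        rcases mem_union.1 (rch_subset p U _ _ hx) with h2 | h2
        · rw [mem_singleton] at h2
          rw [h2]; exact hw
        · exact (mem_sdiff.1 (mem_of_mem_erase h2)).2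
      have hyS : y ∉ S := (mem_sdiff.1 (mem_of_mem_erase hy)).2
      rw [hU s(x, y) (by
        rintro ⟨z, hz, hz'⟩
        rw [Sym2.mem_iff] at hz'
        rcases hz' with rfl | rfl
        · exact hxS hz
        · exact hyS hz)]
    unfold b mk
    rw [key, key]

theorem sum_ph (U : Ev n) (v : Fin n) : ∑ S : Finset (Fin n), ph pl pb s1 s0 S U v =
    a pl pb s1 s0 U v := by
  rw [Finset.sum_eq_single (C pb U v)]
  · unfold a ph
    have : (C pb U v = C pb U v ∧ mk pl pb s1 s0 U v (univ.erase v)) =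
        mk pl pb s1 s0 U v (univ.erase v) := by
      apply propext
      tauto
    rw [this]
  · intro S _ hS
    unfold ph
    rw [ind_false]
    rintro ⟨h, _⟩
    exact hS h.symm
  · intro h
    exact absurd (mem_univ _) h

/-- pair correlation -/
theorem corr (hlb : pl ≤ pb) (v w : Fin n) :
    Ex (fun U : Ev n => a pl pb s1 s0 U v * a pl pb s1 s0 U w) ≤
      Ex (fun U : Ev n => ind (w ∈ C pb U v)) +
        Ex (fun U : Ev n => a pl pb s1 s0 U v) * Ex (fun U : Ev n => a pl pb s1 s0 U w) := by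
  have hprod : ∀ S, BM (fun U : Ev n => ph pl pb s1 s0 S U v * b pl pb s1 s0 S U w) :=
    fun S => (ph_bm S v).mul (b_bm S w)
  calc Ex (fun U : Ev n => a pl pb s1 s0 U v * a pl pb s1 s0 U w) ≤
        Ex (fun U : Ev n => ind (w ∈ C pb U v) +
          ∑ S ∈ (univ : Finset (Finset (Fin n))).filter (fun S => w ∉ S),
            ph pl pb s1 s0 S U v * b pl pb s1 s0 S U w) :=
        Ex_mono ((a_bm v).mul (a_bm w)) ((in_bm v w).add (BM.sum _ (fun S _ => hprod S)))
          (fun U => point hlb U v w)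
    _ = Ex (fun U : Ev n => ind (w ∈ C pb U v)) +
          ∑ S ∈ (univ : Finset (Finset (Fin n))).filter (fun S => w ∉ S),
            Ex (fun U : Ev n => ph pl pb s1 s0 S U v * b pl pb s1 s0 S U w) := by
        rw [Ex_add (in_bm v w) (BM.sum _ (fun S _ => hprod S)), Ex_sum _ (fun S _ => hprod S)]
    _ = Ex (fun U : Ev n => ind (w ∈ C pb U v)) +
          ∑ S ∈ (univ : Finset (Finset (Fin n))).filter (fun S => w ∉ S),
            Ex (fun U : Ev n => ph pl pb s1 s0 S U v) *
              Ex (fun U : Ev n => b pl pb s1 s0 S U w) := by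
        congr 1
        apply Finset.sum_congr rfl
        intro S hS
        exact indep hlb S v w (mem_filter.1 hS).2
    _ ≤ Ex (fun U : Ev n => ind (w ∈ C pb U v)) +
          ∑ S ∈ (univ : Finset (Finset (Fin n))).filter (fun S => w ∉ S),
            Ex (fun U : Ev n => ph pl pb s1 s0 S U v) *
              Ex (fun U : Ev n => a pl pb s1 s0 U w) := by
        apply add_le_add le_rfl
        apply Finset.sum_le_sum
        intro S _
        apply mul_le_mul_of_nonneg_left _ (Ex_nonneg (fun U => ph_nn S U v))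
        exact Ex_mono (b_bm S w) (a_bm w) (fun U => b_le_a S U w)
    _ ≤ Ex (fun U : Ev n => ind (w ∈ C pb U v)) +
          ∑ S : Finset (Fin n), Ex (fun U : Ev n => ph pl pb s1 s0 S U v) *
              Ex (fun U : Ev n => a pl pb s1 s0 U w) := by
        apply add_le_add le_rfl
        apply Finset.sum_le_sum_of_subset_of_nonneg (Finset.filter_subset _ _)
        intro S _ _
        exact mul_nonneg (Ex_nonneg (fun U => ph_nn S U v)) (Ex_nonneg (fun U => a_nn U w))
    _ = _ := by
        rw [← Finset.sum_mul, ← Ex_sum _ (fun S _ => ph_bm S v)]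
        congr 2
        exact Ex_congr (fun U => sum_ph U v)

end pairs

theorem card_marks {pl pb : ℝ} {s1 s0 : ℕ} (U : Ev n) :
    ((marks pl pb s1 s0 U).card : ℝ) = ∑ v, a pl pb s1 s0 U v := by
  classical
  unfold marks
  rw [Finset.card_filter]
  push_cast
  apply Finset.sum_congr rfl
  intro v _
  unfold a mk
  rw [rch_cmp, rch_cmp]
  by_cases h : s1 ≤ (cmp (GU U pl) v).card ∧ s0 ≤ (cmp (GU U pb) v).card
  · rw [if_pos h, ind_true h]
  · rw [if_neg h, ind_false h]

theorem card_gd {p : ℝ} {s : ℕ} (U : Ev n) :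
    ((gd (GU U p) s).card : ℝ) = ∑ v, ind (s ≤ (rch p U {v} (univ.erase v)).card) := by
  classical
  unfold gd
  rw [Finset.card_filter]
  push_cast
  apply Finset.sum_congr rfl
  intro v _
  rw [rch_cmp]
  by_cases h : s ≤ (cmp (GU U p) v).card
  · rw [if_pos h, ind_true h]
  · rw [if_neg h, ind_false h]

end Count

open Pool.Agent.TH972.U.Count

/-- there are many marks -/
theorem marks_low {pl pb gl gb : ℝ} {s1 s0 : ℕ} (hpl : pl = (1 - gl) / n) (hpb : pb = (1 - gb) / n)
    (hgb : 0 < gb) (hgl : 2 * gb ≤ gl) (hgl1 : gl ≤ 1 / 100) (hn : 10 ^ 7 ≤ n * gb ^ 3)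
    (hs1 : s1 * gl ^ 2 * 6400 ≤ 1) (hs1' : 1 ≤ s1 * gl ^ 2 * 6500) (hs0 : s0 * gb ^ 2 * 6400 ≤ 1)
    (hs0' : 1 ≤ s0) :
    env n {U | ((marks pl pb s1 s0 U).card : ℝ) < n * gb / (2 * 10 ^ 8)} ≤
      ENNReal.ofReal (10 ^ 18 / (n * gb ^ 3)) := by
  have hgb1 : gb ≤ 1 / 200 := by linarith
  have hgb3 : 0 < gb ^ 3 := by positivity
  have hn0 : (0 : ℝ) < n := by
    by_contra h
    rw [not_lt] at h
    have := mul_nonpos_of_nonpos_of_nonneg h hgb3.le
    linarith
  have hngb : 4 ≤ n * gb := by
    have h1 : gb ^ 3 ≤ gb * 1 := by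
      have : gb ^ 2 ≤ 1 := by nlinarith
      calc gb ^ 3 = gb * gb ^ 2 := by ring
        _ ≤ gb * 1 := mul_le_mul_of_nonneg_left this hgb.le
    have h2 : n * gb ^ 3 ≤ n * (gb * 1) := mul_le_mul_of_nonneg_left h1 hn0.le
    linarith
  have hn1 : (1 : ℝ) ≤ n := by nlinarith
  have hpb0 : 0 ≤ pb := by rw [hpb]; apply div_nonneg <;> linarith
  have hnpb : n * pb = 1 - gb := by rw [hpb]; field_simp
  have hpb1 : pb ≤ 1 := by
    rw [hpb, div_le_one hn0]
    linarith
  have hlb : pl ≤ pb := by
    rw [hpl, hpb]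
    apply div_le_div_of_nonneg_right _ hn0.le
    linarith
  -- expectation
  have hE : ∀ v : Fin n, gb / 10 ^ 8 ≤ Ex (fun U : Ev n => a pl pb s1 s0 U v) := by
    intro v
    apply test_prob hpl hpb hgb hgl hgl1 hn hs1 hs1' hs0 hs0' v (univ.erase v) (notMem_erase v _)
    rw [card_erase]
    linarith
  set M : Ev n → ℝ := fun U => ∑ v, a pl pb s1 s0 U v with hM
  have hMbm : BM M := BM.sum _ (fun v _ => a_bm v)
  set m : ℝ := n * gb / 10 ^ 8 with hm
  have hm0 : 0 < m := by positivity
  have hEM : Ex M = ∑ v, Ex (fun U : Ev n => a pl pb s1 s0 U v) := Ex_sum _ (fun v _ => a_bm v)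
  have hmE : m ≤ Ex M := by
    rw [hEM]
    calc m = ∑ _v : Fin n, gb / 10 ^ 8 := by
          rw [Finset.sum_const, Finset.card_univ, Fintype.card_fin, nsmul_eq_mul, hm]
          ring
      _ ≤ _ := Finset.sum_le_sum (fun v _ => hE v)
  -- second moment
  have hM2 : Ex (fun U => M U * M U) ≤ n * (4 / gb) + Ex M * Ex M := by
    have e1 : Ex (fun U => M U * M U) =
        ∑ v, ∑ w, Ex (fun U : Ev n => a pl pb s1 s0 U v * a pl pb s1 s0 U w) := by
      rw [← Finset.sum_congr rfl (fun v _ => Ex_sum (n := n) (univ : Finset (Fin n))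
        (F := fun w U => a pl pb s1 s0 U v * a pl pb s1 s0 U w)
        (fun w _ => (a_bm v).mul (a_bm w)))]
      rw [← Ex_sum (n := n) (univ : Finset (Fin n))
        (F := fun v U => ∑ w, a pl pb s1 s0 U v * a pl pb s1 s0 U w)
        (fun v _ => BM.sum _ (fun w _ => (a_bm v).mul (a_bm w)))]
      apply Ex_congr
      intro U
      simp only [hM]
      rw [Finset.sum_mul_sum]
    have e2 : ∀ v : Fin n, ∑ w, Ex (fun U : Ev n => ind (w ∈ C pb U v)) =
        Ex (fun U : Ev n => ((C pb U v).card : ℝ)) := by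
      intro v
      rw [← Ex_sum _ (fun w _ => in_bm v w)]
      apply Ex_congr
      intro U
      rw [Finset.card_eq_sum_ones, ← Finset.sum_subset (Finset.subset_univ (C pb U v))
        (fun w _ hw => ind_false hw)]
      push_cast
      exact Finset.sum_congr rfl (fun w hw => ind_true hw)
    rw [e1]
    calc ∑ v, ∑ w, Ex (fun U : Ev n => a pl pb s1 s0 U v * a pl pb s1 s0 U w) ≤
          ∑ v, ∑ w, (Ex (fun U : Ev n => ind (w ∈ C pb U v)) +
            Ex (fun U : Ev n => a pl pb s1 s0 U v) * Ex (fun U : Ev n => a pl pb s1 s0 U w)) :=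
          Finset.sum_le_sum (fun v _ => Finset.sum_le_sum (fun w _ => corr hlb v w))
      _ = ∑ v, Ex (fun U : Ev n => ((C pb U v).card : ℝ)) + Ex M * Ex M := by
          simp only [Finset.sum_add_distrib, e2]
          rw [hEM, Finset.sum_mul_sum]
      _ ≤ ∑ _v : Fin n, (4 / gb) + Ex M * Ex M := by
          apply add_le_add _ le_rfl
          apply Finset.sum_le_sum
          intro v _
          exact size hpb0 hpb1 hgb (by linarith) (by linarith) v
      _ = n * (4 / gb) + Ex M * Ex M := by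
          rw [Finset.sum_const, Finset.card_univ, Fintype.card_fin, nsmul_eq_mul]
  -- Chebyshev
  set c := Ex M with hc
  have hDbm : BM (fun U : Ev n => (M U - c) * (M U - c)) :=
    (hMbm.sub (BM.const c)).mul (hMbm.sub (BM.const c))
  have hD : Ex (fun U : Ev n => (M U - c) * (M U - c)) ≤ n * (4 / gb) := by
    have e1 : Ex (fun U : Ev n => (M U - c) * (M U - c)) =
        Ex (fun U => M U * M U) - c * c := by
      have e2 : Ex (fun U : Ev n => (M U - c) * (M U - c)) =
          Ex (fun U : Ev n => (M U * M U + (-(2 * c)) * M U) + c * c) := by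
        apply Ex_congr
        intro U
        ring
      have b1 : BM (fun U : Ev n => (-(2 * c)) * M U) := (BM.const _).mul hMbm
      rw [e2, Ex_add ((hMbm.mul hMbm).add b1) (BM.const _), Ex_add (hMbm.mul hMbm) b1,
        Ex_const_mul, Ex_const]
      have : Ex (fun U => M U) = c := rfl
      rw [this]
      ring
    rw [e1]
    linarith
  have hmark := env_markov hDbm (fun U => mul_self_nonneg _) (t := (m / 2) * (m / 2))
    (by positivity) hD
  refine le_trans (measure_mono ?_) (hmark.trans ?_)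
  · intro U hU
    rw [Set.mem_ofPred_eq, card_marks] at hU
    rw [Set.mem_ofPred_eq]
    have h1 : M U < m / 2 := by
      refine lt_of_lt_of_eq hU ?_
      rw [hm]
      ring
    have h2 : m / 2 ≤ c - M U := by linarith
    calc (m / 2) * (m / 2) ≤ (c - M U) * (c - M U) :=
          mul_self_le_mul_self (by positivity) h2
      _ = (M U - c) * (M U - c) := by ring
  · apply ENNReal.ofReal_le_ofReal
    have e1 : n * (4 / gb) / ((m / 2) * (m / 2)) = 16 * 10 ^ 16 / (n * gb ^ 3) := by
      rw [hm]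
      field_simp
      norm_num
    rw [e1]
    apply div_le_div_of_nonneg_right _ (by positivity)
    norm_num

/-- there are not too many vertices in large clusters -/
theorem gd_up {p g t : ℝ} {s : ℕ} (h0 : 0 ≤ p) (h1 : p ≤ 1 / 16) (hg0 : 0 ≤ g) (hg1 : g ≤ 1)
    (hp : n * p ≤ 1 + g) (hs : 1 ≤ s) (ht : 0 < t) :
    env n {U : Ev n | t ≤ (gd (GU U p) s).card} ≤
      ENNReal.ofReal (7 * n * (g + 1 / Real.sqrt s) / t) := by
  have hbm : ∀ v : Fin n, BM (fun U : Ev n => ind (s ≤ (rch p U {v} (univ.erase v)).card)) :=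
    fun v => Rch2.bm p {v} (univ.erase v) (fun j => ind (s ≤ j))
  have hE : Ex (fun U : Ev n => ∑ v, ind (s ≤ (rch p U {v} (univ.erase v)).card)) ≤
      7 * n * (g + 1 / Real.sqrt s) := by
    rw [Ex_sum _ (fun v _ => hbm v)]
    calc ∑ v : Fin n, Ex (fun U : Ev n => ind (s ≤ (rch p U {v} (univ.erase v)).card)) ≤
          ∑ _v : Fin n, 7 * (g + 1 / Real.sqrt s) := by
          apply Finset.sum_le_sum
          intro v _
          have := rch_tail (n := n) h0 h1 hg0 hg1 {v} (univ.erase v) (dis v)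
            (card_erase_mul h0 hp v) s hs
          rw [card_singleton, Nat.cast_one, mul_one] at this
          exact this
      _ = 7 * n * (g + 1 / Real.sqrt s) := by
          rw [Finset.sum_const, Finset.card_univ, Fintype.card_fin, nsmul_eq_mul]
          ring
  have h := env_markov (BM.sum _ (fun v _ => hbm v))
    (fun U => Finset.sum_nonneg (fun v _ => ind_nonneg _)) ht hE
  refine le_trans (measure_mono ?_) h
  intro U hU
  rw [Set.mem_ofPred_eq] at hU ⊢
  rw [card_gd] at hU
  exact hU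

/-- the clusters of a subcritical level are not too large -/
theorem cmp_up {p g s : ℝ} (h0 : 0 ≤ p) (h1 : p ≤ 1) (hg0 : 0 < g) (hg1 : g ≤ 1)
    (hp : n * p ≤ 1 - g) :
    env n {U : Ev n | ∃ v, s < (cmp (GU U p) v).card} ≤
      ENNReal.ofReal (2 * n * Real.exp (-(g ^ 2 / 4 * s))) := by
  have hbm : ∀ v : Fin n, BM (fun U : Ev n =>
      Real.exp (g ^ 2 / 4 * (rch p U {v} (univ.erase v)).card)) :=
    fun v => Rch2.bm p {v} (univ.erase v) (fun j => Real.exp (g ^ 2 / 4 * j))
  have hE : Ex (fun U : Ev n => ∑ v, Real.exp (g ^ 2 / 4 * (rch p U {v} (univ.erase v)).card)) ≤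
      2 * n := by
    rw [Ex_sum _ (fun v _ => hbm v)]
    calc ∑ v : Fin n, Ex (fun U : Ev n =>
          Real.exp (g ^ 2 / 4 * (rch p U {v} (univ.erase v)).card)) ≤ ∑ _v : Fin n, (2 : ℝ) := by
          apply Finset.sum_le_sum
          intro v _
          have h := rch_sub (n := n) h0 h1 hg0 hg1 {v} (univ.erase v) (dis v)
            (card_erase_mul h0 hp v) (μ := g ^ 2 / 4) (by positivity) le_rfl
          rw [card_singleton, Nat.cast_one, mul_one] at h
          have e1 : 2 * (g ^ 2 / 4) / g = g / 2 := by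
            field_simp
            norm_num
          rw [e1] at h
          have e2 : Real.exp (g / 2) ≤ 1 + g := by
            have := Real.abs_exp_sub_one_sub_id_le (x := g / 2)
              (by rw [abs_of_nonneg (by positivity)]; linarith)
            have h3 := (abs_le.1 this).2
            nlinarith
          linarith
      _ = 2 * n := by
          rw [Finset.sum_const, Finset.card_univ, Fintype.card_fin, nsmul_eq_mul]
          ring
  have h := env_markov (BM.sum _ (fun v _ => hbm v))
    (fun U => Finset.sum_nonneg (fun v _ => (Real.exp_pos _).le))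
    (t := Real.exp (g ^ 2 / 4 * s)) (Real.exp_pos _) hE
  have e3 : 2 * (n : ℝ) / Real.exp (g ^ 2 / 4 * s) = 2 * n * Real.exp (-(g ^ 2 / 4 * s)) := by
    rw [Real.exp_neg, div_eq_mul_inv]
  rw [e3] at h
  refine le_trans (measure_mono ?_) h
  intro U hU
  rw [Set.mem_ofPred_eq] at hU ⊢
  obtain ⟨v, hv⟩ := hU
  rw [← rch_cmp] at hv
  calc Real.exp (g ^ 2 / 4 * s) ≤ Real.exp (g ^ 2 / 4 * (rch p U {v} (univ.erase v)).card) := by
        apply Real.exp_le_exp.2
        exact mul_le_mul_of_nonneg_left hv.le (by positivity)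
    _ ≤ _ := Finset.single_le_sum
        (f := fun v => Real.exp (g ^ 2 / 4 * (rch p U {v} (univ.erase v)).card))
        (fun w _ => (Real.exp_pos _).le) (mem_univ v)

end

end Pool.Agent.TH972.U
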