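import Pool.Agent.TH972.U.BushA
import Pool.Agent.TH972.U.Count

/-!
# Number of marks, supercritical version
(job RSTRE A3 of helper972, written by helper496 after `marks_low` of helper267)
-/

set_option autoImplicit false
set_option linter.unusedVariables false
set_option linter.unusedSectionVars false

namespace Pool.Agent.TH972.U

open Finset MeasureTheory Pool.Agent.W842.RST Pool.Agent.TH972

noncomputable section

variable {n : ℕ}

open Pool.Agent.TH972.U.Count

/-- there are many marks -/
theorem marks_low_A {pl pb gb : ℝ} {s0 : ℕ} (hlb : pl ≤ pb) (hpb : pb = (1 - gb) / n)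
    (hgb : 0 < gb) (hgb1 : gb ≤ 1 / 100) (hn : 10 ^ 7 ≤ n * gb ^ 3)
    (hs0 : s0 * gb ^ 2 * 6400 ≤ 1) (hs0' : 1 ≤ s0) :
    env n {U | ((marks pl pb 1 s0 U).card : ℝ) < n * gb / 6} ≤
      ENNReal.ofReal (1000 / (n * gb ^ 3)) := by
  have hgb3 : 0 < gb ^ 3 := by positivity
  have hn0 : (0 : ℝ) < n := by
    by_contra h
    rw [not_lt] at h
    have := mul_nonpos_of_nonpos_of_nonneg h hgb3.le
    linarith
  have hngb : 4 ≤ n * gb := by
    have h1 : gb ^ 3 ≤ gb * 1 := by
      have : gb ^ 2 ≤ 1 := by nlinarith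
      calc gb ^ 3 = gb * gb ^ 2 := by ring
        _ ≤ gb * 1 := mul_le_mul_of_nonneg_left this hgb.le
    have h2 : n * gb ^ 3 ≤ n * (gb * 1) := mul_le_mul_of_nonneg_left h1 hn0.le
    linarith
  have hn1 : (1 : ℝ) ≤ n := by nlinarith
  have hpb0 : 0 ≤ pb := by rw [hpb]; apply div_nonneg <;> linarith
  have hnpb : n * pb = 1 - gb := by rw [hpb]; field_simp
  have hpb1 : pb ≤ 1 := by
    rw [hpb, div_le_one hn0]
    linarith
  -- expectation
  have hE : ∀ v : Fin n, gb / 3 ≤ Ex (fun U : Ev n => a pl pb 1 s0 U v) := by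
    intro v
    apply test_prob_A hpb hgb hgb1 hn hs0 hs0' pl v (univ.erase v) (notMem_erase v _)
    rw [card_erase]
    linarith
  set M : Ev n → ℝ := fun U => ∑ v, a pl pb 1 s0 U v with hM
  have hMbm : BM M := BM.sum _ (fun v _ => a_bm v)
  set m : ℝ := n * gb / 3 with hm
  have hm0 : 0 < m := by positivity
  have hEM : Ex M = ∑ v, Ex (fun U : Ev n => a pl pb 1 s0 U v) := Ex_sum _ (fun v _ => a_bm v)
  have hmE : m ≤ Ex M := by
    rw [hEM]
    calc m = ∑ _v : Fin n, gb / 3 := by
          rw [Finset.sum_const, Finset.card_univ, Fintype.card_fin, nsmul_eq_mul, hm]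
          ring
      _ ≤ _ := Finset.sum_le_sum (fun v _ => hE v)
  -- second moment
  have hM2 : Ex (fun U => M U * M U) ≤ n * (4 / gb) + Ex M * Ex M := by
    have e1 : Ex (fun U => M U * M U) =
        ∑ v, ∑ w, Ex (fun U : Ev n => a pl pb 1 s0 U v * a pl pb 1 s0 U w) := by
      rw [← Finset.sum_congr rfl (fun v _ => Ex_sum (n := n) (univ : Finset (Fin n))
        (F := fun w U => a pl pb 1 s0 U v * a pl pb 1 s0 U w)
        (fun w _ => (a_bm v).mul (a_bm w)))]
      rw [← Ex_sum (n := n) (univ : Finset (Fin n))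
        (F := fun v U => ∑ w, a pl pb 1 s0 U v * a pl pb 1 s0 U w)
        (fun v _ => BM.sum _ (fun w _ => (a_bm v).mul (a_bm w)))]
      apply Ex_congr
      intro U
      simp only [hM]
      rw [Finset.sum_mul_sum]
    have e2 : ∀ v : Fin n, ∑ w, Ex (fun U : Ev n => ind (w ∈ C pb U v)) =
        Ex (fun U : Ev n => ((C pb U v).card : ℝ)) := by
      intro v
      rw [← Ex_sum _ (fun w _ => in_bm v w)]
      apply Ex_congr
      intro U
      rw [Finset.card_eq_sum_ones, ← Finset.sum_subset (Finset.subset_univ (C pb U v))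
        (fun w _ hw => ind_false hw)]
      push_cast
      exact Finset.sum_congr rfl (fun w hw => ind_true hw)
    rw [e1]
    calc ∑ v, ∑ w, Ex (fun U : Ev n => a pl pb 1 s0 U v * a pl pb 1 s0 U w) ≤
          ∑ v, ∑ w, (Ex (fun U : Ev n => ind (w ∈ C pb U v)) +
            Ex (fun U : Ev n => a pl pb 1 s0 U v) * Ex (fun U : Ev n => a pl pb 1 s0 U w)) :=
          Finset.sum_le_sum (fun v _ => Finset.sum_le_sum (fun w _ => corr hlb v w))
      _ = ∑ v, Ex (fun U : Ev n => ((C pb U v).card : ℝ)) + Ex M * Ex M := by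
          simp only [Finset.sum_add_distrib, e2]
          rw [hEM, Finset.sum_mul_sum]
      _ ≤ ∑ _v : Fin n, (4 / gb) + Ex M * Ex M := by
          apply add_le_add _ le_rfl
          apply Finset.sum_le_sum
          intro v _
          exact size hpb0 hpb1 hgb (by linarith) (by linarith) v
      _ = n * (4 / gb) + Ex M * Ex M := by
          rw [Finset.sum_const, Finset.card_univ, Fintype.card_fin, nsmul_eq_mul]
  -- Chebyshev
  set c := Ex M with hc
  have hDbm : BM (fun U : Ev n => (M U - c) * (M U - c)) :=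
    (hMbm.sub (BM.const c)).mul (hMbm.sub (BM.const c))
  have hD : Ex (fun U : Ev n => (M U - c) * (M U - c)) ≤ n * (4 / gb) := by
    have e1 : Ex (fun U : Ev n => (M U - c) * (M U - c)) =
        Ex (fun U => M U * M U) - c * c := by
      have e2 : Ex (fun U : Ev n => (M U - c) * (M U - c)) =
          Ex (fun U : Ev n => (M U * M U + (-(2 * c)) * M U) + c * c) := by
        apply Ex_congr
        intro U
        ring
      have b1 : BM (fun U : Ev n => (-(2 * c)) * M U) := (BM.const _).mul hMbm
      rw [e2, Ex_add ((hMbm.mul hMbm).add b1) (BM.const _), Ex_add (hMbm.mul hMbm) b1,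
        Ex_const_mul, Ex_const]
      have : Ex (fun U => M U) = c := rfl
      rw [this]
      ring
    rw [e1]
    linarith
  have hmark := env_markov hDbm (fun U => mul_self_nonneg _) (t := (m / 2) * (m / 2))
    (by positivity) hD
  refine le_trans (measure_mono ?_) (hmark.trans ?_)
  · intro U hU
    rw [Set.mem_ofPred_eq, card_marks] at hU
    rw [Set.mem_ofPred_eq]
    have h1 : M U < m / 2 := by
      refine lt_of_lt_of_eq hU ?_
      rw [hm]
      ring
    have h2 : m / 2 ≤ c - M U := by linarith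
    calc (m / 2) * (m / 2) ≤ (c - M U) * (c - M U) :=
          mul_self_le_mul_self (by positivity) h2
      _ = (M U - c) * (M U - c) := by ring
  · apply ENNReal.ofReal_le_ofReal
    have e1 : n * (4 / gb) / ((m / 2) * (m / 2)) = 144 / (n * gb ^ 3) := by
      rw [hm]
      field_simp
      norm_num
    rw [e1]
    apply div_le_div_of_nonneg_right _ (by positivity)
    norm_num


end

end Pool.Agent.TH972.U
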