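import Pool.Agent.TH972.U.Forest

/-!
# Short tree paths from short loop-erased paths
-/

set_option autoImplicit false
set_option linter.unusedSectionVars false
set_option maxHeartbeats 4000000

namespace Pool.Agent.TH972.U

open Finset

noncomputable section

variable {V : Type} [Fintype V] [DecidableEq V]

namespace Short

open Forest LEx

lemma imass_eq (N : Net V) (ζ : List V) :
    Imass N ∅ ζ = cpr N ζ * dG N ∅ ζ * lastf N.k ζ := by
  unfold Imass lastf
  cases ζ.getLast? with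
  | none => simp
  | some z => rfl

lemma cpr_nn' (N : Net V) (π : List V) : 0 ≤ cpr N π := by
  induction π with
  | nil => exact zero_le_one
  | cons z t ih =>
    cases t with
    | nil => exact zero_le_one
    | cons w t => exact mul_nonneg (Grn.Kc_nn N z w) ih

lemma imass_nonneg (N : Net V) (ζ : List V) : 0 ≤ Imass N ∅ ζ := by
  rw [imass_eq]
  exact mul_nonneg (mul_nonneg (cpr_nn' N ζ) (dG_nonneg N ∅ ζ)) (lastf_nonneg N.k_nonneg ζ)

open Classical in
/-- weight of the forests with a short path from a fixed vertex -/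
lemma forests_le (N : Net V) (x0 : V) (l : ℕ) :
    ∑ f ∈ univ.filter (fun f : V → Option V => IsFor ∅ f ∧
      ∃ x t, Pth f (x :: t) ∧ (x :: t).Nodup ∧ ((x :: t).head? = some x0 ∧ (x :: t).length ≤ l)),
      wF N ∅ f ≤ Zf N ∅ * ∑ j ∈ range l, ∑ ζ ∈ spaths j x0 ∅, Imass N ∅ ζ := by
  have h1 : ∀ f ∈ univ.filter (fun f : V → Option V => IsFor ∅ f ∧
      ∃ x t, Pth f (x :: t) ∧ (x :: t).Nodup ∧
        ((x :: t).head? = some x0 ∧ (x :: t).length ≤ l)),
      wF N ∅ f ≤ ∑ j ∈ range l, ∑ ζ ∈ spaths j x0 ∅,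
        (if IsFor ∅ f ∧ Pth f ζ then wF N ∅ f else 0) := by
    intro f hf
    rw [Finset.mem_filter] at hf
    obtain ⟨_, hfor, x, t, hp, hnd, hx, hl⟩ := hf
    have hxx : x = x0 := by
      rw [List.head?_cons, Option.some.injEq] at hx
      exact hx
    subst hxx
    have hw := wF_nonneg N ∅ f
    have hnn : ∀ ζ : List V, 0 ≤ (if IsFor ∅ f ∧ Pth f ζ then wF N ∅ f else 0) := by
      intro ζ
      split_ifs
      · exact hw
      · exact le_rfl
    have hlen : t.length < l := by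
      rw [List.length_cons] at hl
      omega
    have hmem : (x :: t) ∈ spaths t.length x ∅ := by
      rw [mem_spaths]
      exact ⟨List.length_cons, hnd, rfl, fun z _ => Finset.notMem_empty z⟩
    calc wF N ∅ f = (if IsFor ∅ f ∧ Pth f (x :: t) then wF N ∅ f else 0) := by
          rw [if_pos ⟨hfor, hp⟩]
      _ ≤ ∑ ζ ∈ spaths t.length x ∅, (if IsFor ∅ f ∧ Pth f ζ then wF N ∅ f else 0) :=
          Finset.single_le_sum (f := fun ζ =>
            (if IsFor ∅ f ∧ Pth f ζ then wF N ∅ f else 0)) (fun ζ _ => hnn ζ) hmem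
      _ ≤ _ :=
          Finset.single_le_sum (f := fun j => ∑ ζ ∈ spaths j x ∅,
            (if IsFor ∅ f ∧ Pth f ζ then wF N ∅ f else 0))
            (fun j _ => Finset.sum_nonneg (fun ζ _ => hnn ζ)) (Finset.mem_range.2 hlen)
  refine (Finset.sum_le_sum h1).trans ?_
  rw [Finset.mul_sum, Finset.sum_comm]
  apply Finset.sum_le_sum
  intro j _
  rw [Finset.mul_sum, Finset.sum_comm]
  apply Finset.sum_le_sum
  intro ζ hζ
  rw [mem_spaths] at hζ
  have h3 := path_weight N ζ hζ.2.1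
  have h4 : cpr N ζ * lastf N.k ζ * (dG N ∅ ζ * Zf N ∅) = Zf N ∅ * Imass N ∅ ζ := by
    rw [imass_eq]
    ring
  rw [h4] at h3
  refine le_trans ?_ h3
  rw [← Finset.sum_filter]
  apply Finset.sum_le_sum_of_subset_of_nonneg
  · intro f hf
    rw [Finset.mem_filter, Finset.mem_filter] at hf
    rw [Finset.mem_filter]
    exact ⟨mem_univ _, hf.2⟩
  · intro f _ _
    exact wF_nonneg N ∅ f

end Short

open Forest Short

/-- from short loop-erased paths to short paths in the weighted random tree -/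
theorem tree_short (N : Net V) (hroot : ∑ x, N.k x * grn N ∅ x x ≤ 3 / 2) (x : V) (l : ℕ)
    (A : SimpleGraph V → Prop)
    (hA : ∀ T : SimpleGraph V, T.IsTree → A T → ∀ ρ, N.k ρ ≠ 0 →
      ∃ p : T.Walk x ρ, p.IsPath ∧ p.length < l) :
    sumT N.κ A ≤ 2 * sumT N.κ (fun _ => True) *
      ∑ j ∈ range l, ∑ π ∈ spaths j x ∅, Imass N ∅ π := by
  classical
  have h1 := sumT_le_forests N A (fun ζ => ζ.head? = some x ∧ ζ.length ≤ l) (by
    intro T hT hAT ρ hρ
    obtain ⟨p, hp, hl⟩ := hA T hT hAT ρ hρ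
    refine ⟨x, p, hp, ?_, ?_⟩
    · rw [← SimpleGraph.Walk.cons_tail_support p]
      rfl
    · rw [SimpleGraph.Walk.length_support]
      omega)
  have h2 := forests_le N x l
  have h3 := Zf_le_S1 N hroot
  have h4 := S1_le N
  have h5 : 0 ≤ ∑ j ∈ range l, ∑ π ∈ spaths j x ∅, Imass N ∅ π :=
    Finset.sum_nonneg (fun j _ => Finset.sum_nonneg (fun π _ => imass_nonneg N π))
  have hK : 0 < ∑ ρ, N.k ρ := by
    obtain ⟨z, hz⟩ := N.k_pos
    exact lt_of_lt_of_le hz (Finset.single_le_sum (fun x _ => N.k_nonneg x) (mem_univ z))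
  have h6 : (∑ ρ, N.k ρ) * sumT N.κ A ≤
      (∑ ρ, N.k ρ) * (2 * sumT N.κ (fun _ => True) *
        ∑ j ∈ range l, ∑ π ∈ spaths j x ∅, Imass N ∅ π) := by
    calc (∑ ρ, N.k ρ) * sumT N.κ A
        ≤ Zf N ∅ * ∑ j ∈ range l, ∑ π ∈ spaths j x ∅, Imass N ∅ π := h1.trans h2
      _ ≤ (2 * ((∑ ρ, N.k ρ) * sumT N.κ (fun _ => True))) *
            ∑ j ∈ range l, ∑ π ∈ spaths j x ∅, Imass N ∅ π := by
          apply mul_le_mul_of_nonneg_right _ h5
          linarith
      _ = _ := by ring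
  exact le_of_mul_le_mul_left h6 hK

end

end Pool.Agent.TH972.U
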