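import Pool.Agent.TH972.U.Cmp
import Pool.Agent.TH972.U.Short
import Pool.Agent.TH972.GibbsK

/-!
# Lower bound for the diameter
-/

set_option autoImplicit false
set_option linter.unusedSectionVars false

namespace Pool.Agent.TH972.U
open Finset
noncomputable section

namespace DLow
variable {V : Type} [Fintype V] [DecidableEq V]

lemma cpr_congr (N N' : Net V) (h : N'.κ = N.κ) : ∀ π : List V, cpr N π = cpr N' π
  | [] => rfl
  | [_] => rfl
  | (v :: w :: t) => by
      rw [cpr, cpr, h, cpr_congr N N' h (w :: t)]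

lemma cpr_nonneg (N : Net V) : ∀ π : List V, 0 ≤ cpr N π
  | [] => zero_le_one
  | [_] => zero_le_one
  | (v :: w :: t) => by
      rw [cpr]
      exact mul_nonneg (Kc_nonneg (fun e => (N.κ_pos e).le) v w) (cpr_nonneg N (w :: t))

lemma Imass_eq (N : Net V) (D : Finset V) (π : List V) :
    Imass N D π = cpr N π * dG N D π * lastf N.k π := by
  unfold Imass lastf
  cases π.getLast? with
  | none => simp
  | some z => rfl

lemma sum_Imass_one (N : Net V) (x : V) :
    ∑ j ∈ range (Fintype.card V), ∑ π ∈ spaths j x ∅, Imass N ∅ π = 1 := by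
  rw [← psum_one N x, psum_eq_sum]
  refine Finset.sum_congr rfl fun j _ => Finset.sum_congr rfl fun π _ => ?_
  exact Imass_eq N ∅ π

lemma Imass_nonneg (N : Net V) (D : Finset V) (π : List V) : 0 ≤ Imass N D π := by
  rw [Imass_eq]
  exact mul_nonneg (mul_nonneg (cpr_nonneg N π) (dG_nonneg N D π)) (LEx.lastf_nonneg N.k_nonneg π)

lemma sum_Imass_le (N : Net V) (x : V) (l : ℕ) :
    ∑ j ∈ range l, ∑ π ∈ spaths j x ∅, Imass N ∅ π ≤ 1 := by
  rw [← sum_Imass_one N x]
  have hnn : ∀ j, 0 ≤ ∑ π ∈ spaths j x ∅, Imass N ∅ π := fun j =>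
    Finset.sum_nonneg fun π _ => Imass_nonneg N ∅ π
  rcases le_total l (Fintype.card V) with h | h
  · exact Finset.sum_le_sum_of_subset_of_nonneg (Finset.range_mono h) fun j _ _ => hnn j
  · apply le_of_eq
    symm
    apply Finset.sum_subset (Finset.range_mono h)
    intro j _ hj
    rw [Finset.mem_range, not_lt] at hj
    have : spaths j x (∅ : Finset V) = ∅ := LEx.spaths_big hj
    rw [this, Finset.sum_empty]

end DLow
variable {n : ℕ}

/-- lower bound for the diameter -/
theorem BlkEnv.diam_low [Nonempty (Fin n)] (E : BlkEnv (Fin n)) {k k' : ℝ} (hk : 0 < k)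
    (hk' : 0 < k') (hkk : k ≤ k') (hroot : k * E.M.card * (160 * (E.C + E.ρb)) ≤ 1) {d : ℝ}
    (hd : ∀ v, cs E.κ v ≤ d) (l : ℕ) :
    GG E.κ (fun T => T.diam < l) ≤ 2 * (k / k') * (Real.exp 5 *
      max 1 ((d + k') * l / (k * E.M.card)) * Real.exp (2 * k' * (E.smax * E.C) * l)) := by
  obtain ⟨x⟩ := ‹Nonempty (Fin n)›
  have hne : Nonempty (Fin n) := ⟨x⟩
  have hd0 : 0 ≤ d := by
    refine le_trans ?_ (hd x)
    unfold cs
    exact Finset.sum_nonneg fun y _ => Kc_nonneg (fun e => (E.κ_pos e).le) x y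
  have hM : (0 : ℝ) < E.M.card := by exact_mod_cast E.hM0
  have hs : 0 ≤ E.smax := le_trans (Nat.cast_nonneg _) (E.hsmax x)
  set R : ℝ := Real.exp 5 * max 1 ((d + k') * l / (k * E.M.card)) *
    Real.exp (2 * k' * (E.smax * E.C) * l) with hR
  have hR0 : 0 ≤ R := by
    rw [hR]
    have : 0 ≤ max 1 ((d + k') * l / (k * E.M.card)) := le_trans zero_le_one (le_max_left _ _)
    positivity
  have h1 := tree_short (E.net k hk) (E.roots hk hroot) x l (fun T => T.diam < l) (by
    intro T hT hA ρ _
    obtain ⟨p, hp, hlen⟩ := hT.1.exists_path_of_dist x ρ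
    refine ⟨p, hp, ?_⟩
    rw [hlen]
    exact lt_of_le_of_lt (SimpleGraph.dist_le_diam
      (SimpleGraph.connected_iff_ediam_ne_top.1 hT.1)) hA)
  have h2 : ∀ j ∈ range l, ∀ π ∈ spaths j x (∅ : Finset (Fin n)),
      Imass (E.net k hk) ∅ π ≤ (k / k') * R * Imass (E.net k' hk') ∅ π := by
    intro j hj π hπ
    rw [mem_spaths] at hπ
    rw [Finset.mem_range] at hj
    have hlen : (π.length : ℝ) ≤ l := by
      have : π.length ≤ l := by rw [hπ.1]; omega
      exact_mod_cast this
    have h3 := E.dG_cmp hk hk' hkk hd hπ.2.1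
    have h4 : dG (E.net k hk) ∅ π ≤ R * dG (E.net k' hk') ∅ π := by
      refine h3.trans ?_
      apply mul_le_mul_of_nonneg_right _ (dG_nonneg _ _ _)
      rw [hR]
      have h5 : max 1 ((d + k') * π.length / (k * E.M.card)) ≤
          max 1 ((d + k') * l / (k * E.M.card)) := by
        apply max_le_max le_rfl
        apply div_le_div_of_nonneg_right _ (by positivity)
        exact mul_le_mul_of_nonneg_left hlen (by positivity)
      have h6 : Real.exp (2 * k' * (E.smax * E.C) * π.length) ≤
          Real.exp (2 * k' * (E.smax * E.C) * l) := by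
        apply Real.exp_le_exp.2
        apply mul_le_mul_of_nonneg_left hlen
        have := E.C_pos
        positivity
      have h7 : 0 ≤ max 1 ((d + k') * π.length / (k * E.M.card)) :=
        le_trans zero_le_one (le_max_left _ _)
      have h8 : 0 ≤ max 1 ((d + k') * l / (k * E.M.card)) :=
        le_trans zero_le_one (le_max_left _ _)
      apply mul_le_mul _ h6 (Real.exp_pos _).le (by positivity)
      exact mul_le_mul_of_nonneg_left h5 (Real.exp_pos _).le
    rw [DLow.Imass_eq, DLow.Imass_eq,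
      DLow.cpr_congr (E.net k hk) (E.net k' hk') rfl π]
    have h9 : lastf (E.net k hk).k π = (k / k') * lastf (E.net k' hk').k π := by
      unfold lastf
      cases π.getLast? with
      | none => simp
      | some z =>
        show (if z ∈ E.M then k else 0) = (k / k') * (if z ∈ E.M then k' else 0)
        split_ifs
        · field_simp
        · ring
    rw [h9]
    have c1 := DLow.cpr_nonneg (E.net k' hk') π
    have c2 := LEx.lastf_nonneg (E.net k' hk').k_nonneg π
    have c3 : 0 ≤ k / k' := (div_pos hk hk').le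
    calc cpr (E.net k' hk') π * dG (E.net k hk) ∅ π * (k / k' * lastf (E.net k' hk').k π)
        = dG (E.net k hk) ∅ π * (cpr (E.net k' hk') π * (k / k' * lastf (E.net k' hk').k π)) := by
          ring
      _ ≤ (R * dG (E.net k' hk') ∅ π) *
          (cpr (E.net k' hk') π * (k / k' * lastf (E.net k' hk').k π)) :=
          mul_le_mul_of_nonneg_right h4 (mul_nonneg c1 (mul_nonneg c3 c2))
      _ = _ := by ring
  have h3 : ∑ j ∈ range l, ∑ π ∈ spaths j x (∅ : Finset (Fin n)), Imass (E.net k hk) ∅ π ≤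
      (k / k') * R := by
    calc ∑ j ∈ range l, ∑ π ∈ spaths j x (∅ : Finset (Fin n)), Imass (E.net k hk) ∅ π
        ≤ ∑ j ∈ range l, ∑ π ∈ spaths j x (∅ : Finset (Fin n)),
          (k / k') * R * Imass (E.net k' hk') ∅ π :=
          Finset.sum_le_sum fun j hj => Finset.sum_le_sum fun π hπ => h2 j hj π hπ
      _ = (k / k') * R * ∑ j ∈ range l, ∑ π ∈ spaths j x (∅ : Finset (Fin n)),
          Imass (E.net k' hk') ∅ π := by
          rw [Finset.mul_sum]
          refine Finset.sum_congr rfl fun j _ => ?_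
          rw [Finset.mul_sum]
      _ ≤ (k / k') * R * 1 :=
          mul_le_mul_of_nonneg_left (DLow.sum_Imass_le _ x l)
            (mul_nonneg (div_pos hk hk').le hR0)
      _ = _ := mul_one _
  have hZ : 0 < sumT E.κ (fun _ : SimpleGraph (Fin n) => True) := sumT_pos E.κ_pos
  unfold GG
  rw [div_le_iff₀ hZ]
  have h4 : sumT E.κ (fun T : SimpleGraph (Fin n) => T.diam < l) ≤
      2 * sumT E.κ (fun _ => True) * ((k / k') * R) :=
    h1.trans (mul_le_mul_of_nonneg_left h3 (by positivity))
  calc _ ≤ _ := h4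
    _ = _ := by ring

end
end Pool.Agent.TH972.U
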