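import Pool.Agent.TH972.U.SDef2
import Pool.Agent.TH972.U.Block
import Pool.Agent.TH972.U.Strong

/-!
# Blocks of an environment
(job RSTRE Z2 of helper972, written by helper359)
-/

set_option autoImplicit false
set_option linter.unusedVariables false
set_option linter.unusedSectionVars false

namespace Pool.Agent.TH972.U

open Finset MeasureTheory Pool.Agent.W842.RST Pool.Agent.TH972

noncomputable section

variable {n : ℕ}

namespace MkBlk

/-- the vertices of a block are joined -/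
theorem blk_reach {G : SimpleGraph (Fin n)} {s0 : ℕ} {S : Finset (Fin n)} (hS : S ∈ blks G s0)
    {x y : Fin n} (hx : x ∈ S) (hy : y ∈ S) : G.Reachable x y := by
  have h1 := Marks.cmp_eq_of_mem hS hx
  rw [← h1] at hy
  exact Marks.mem_cmp.1 hy

theorem blk_ne {G : SimpleGraph (Fin n)} {s0 : ℕ} {S S' : Finset (Fin n)} (hS : S ∈ blks G s0)
    (hS' : S' ∈ blks G s0) (h : S ≠ S') {x y : Fin n} (hx : x ∈ S) (hy : y ∈ S') : x ≠ y := by
  rintro rfl
  exact h ((Marks.cmp_eq_of_mem hS hx).symm.trans (Marks.cmp_eq_of_mem hS' hy))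

theorem nU_pos {p : ℝ} {U : Ev n} {S S' : Finset (Fin n)} (h : nU p U S S' ≠ 0) :
    ∃ x ∈ S, ∃ y ∈ S', U s(x, y) ≤ p := by
  unfold nU at h
  have h1 : (Finset.filter (fun q : Fin n × Fin n => U s(q.1, q.2) ≤ p) (S ×ˢ S')).Nonempty := by
    rw [Finset.nonempty_iff_ne_empty]
    intro h2
    apply h
    rw [Nat.cast_eq_zero, Finset.card_eq_zero]
    convert h2
  obtain ⟨⟨x, y⟩, hq⟩ := h1
  rw [Finset.mem_filter, Finset.mem_product] at hq
  exact ⟨x, hq.1.1, y, hq.1.2, hq.2⟩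

theorem iso_edge {U : Ev n} {pb pn : ℝ} {s0 : ℕ} (hIso : Iso pb pn s0 U)
    {A : Finset (Finset (Fin n))} (hA : A ⊆ blks (GU U pb) s0) (h1 : A.Nonempty)
    (h2 : 2 * A.card ≤ (blks (GU U pb) s0).card) :
    ∃ S ∈ A, ∃ S' ∈ blks (GU U pb) s0 \ A, ∃ x ∈ S, ∃ y ∈ S', U s(x, y) ≤ pn := by
  have he : (blks (GU U pb) s0).erase ∅ = blks (GU U pb) s0 :=
    Finset.erase_eq_of_notMem Marks.empty_notMem_blks
  have h3 := hIso ∅ (Or.inl rfl) A (by rw [he]; exact hA) h2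
  rw [he] at h3
  have h4 : (1 : ℝ) ≤ A.card := by
    exact_mod_cast Finset.card_pos.2 h1
  have h5 : ∑ S ∈ A, ∑ S' ∈ blks (GU U pb) s0 \ A, nU pn U S S' ≠ 0 := by
    intro h
    linarith
  obtain ⟨S, hS, h6⟩ := Finset.exists_ne_zero_of_sum_ne_zero h5
  obtain ⟨S', hS', h7⟩ := Finset.exists_ne_zero_of_sum_ne_zero h6
  obtain ⟨x, hx, y, hy, h8⟩ := nU_pos h7
  exact ⟨S, hS, S', hS', x, hx, y, hy, h8⟩

/-- between different blocks the two counts agree -/
theorem nE_nU {U : Ev n} {κ : Sym2 (Fin n) → ℝ} {cn pn : ℝ} (hcnU : ∀ e, cn ≤ κ e ↔ U e ≤ pn)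
    {S S' : Finset (Fin n)} (h : ∀ x ∈ S, ∀ y ∈ S', x ≠ y) : nE κ cn S S' = nU pn U S S' := by
  classical
  unfold nE nU
  congr 2
  apply Finset.filter_congr
  rintro ⟨x, y⟩ hq
  rw [Finset.mem_product] at hq
  have hxy := h x hq.1 y hq.2
  simp only
  unfold Kc
  rw [if_neg hxy]
  exact hcnU _

/-- the number of levels below `u` -/
theorem cnt_spec (P : SP n) (hmono : Monotone P.gam) (u : ℝ) :
    P.cnt u ≤ P.I0 + P.I + 1 ∧ (P.cnt u ≠ 0 → P.gam ((P.cnt u : ℤ) - 1 - P.I0) < u) ∧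
      (P.cnt u ≤ P.I0 + P.I → u ≤ P.gam ((P.cnt u : ℤ) - P.I0)) := by
  classical
  have hdef : P.cnt u =
      ((range (P.I0 + P.I + 1)).filter (fun i : ℕ => P.gam ((i : ℤ) - P.I0) < u)).card := by
    unfold SP.cnt
    congr
  set F := (range (P.I0 + P.I + 1)).filter (fun i : ℕ => P.gam ((i : ℤ) - P.I0) < u) with hF
  have hdown : ∀ i ∈ F, ∀ j ≤ i, j ∈ F := by
    intro i hi j hj
    rw [hF, Finset.mem_filter, Finset.mem_range] at hi ⊢
    refine ⟨by omega, lt_of_le_of_lt (hmono ?_) hi.2⟩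
    have : (j : ℤ) ≤ i := by exact_mod_cast hj
    linarith
  rw [hdef]
  refine ⟨?_, ?_, ?_⟩
  · have := Finset.card_filter_le (range (P.I0 + P.I + 1)) (fun i : ℕ => P.gam ((i : ℤ) - P.I0) < u)
    rw [Finset.card_range] at this
    exact this
  · intro h0
    have h1 : F.card - 1 ∈ F := by
      by_contra hc
      have hsub : F ⊆ range (F.card - 1) := by
        intro i hi
        rw [Finset.mem_range]
        by_contra hlt
        exact hc (hdown i hi _ (by omega))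
      have := Finset.card_le_card hsub
      rw [Finset.card_range] at this
      omega
    rw [hF, Finset.mem_filter] at h1
    have h2 : (((F.card - 1 : ℕ) : ℤ)) = (F.card : ℤ) - 1 := by
      have : 1 ≤ F.card := Nat.one_le_iff_ne_zero.2 h0
      omega
    have h3 := h1.2
    rw [← hF, h2] at h3
    exact h3
  · intro hle
    have h1 : F.card ∉ F := by
      intro hc
      have hsub : range (F.card + 1) ⊆ F := by
        intro i hi
        rw [Finset.mem_range] at hi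
        exact hdown _ hc i (by omega)
      have := Finset.card_le_card hsub
      rw [Finset.card_range] at this
      omega
    by_contra hlt
    apply h1
    rw [hF, Finset.mem_filter, Finset.mem_range, ← hF]
    exact ⟨by omega, not_le.1 hlt⟩

end MkBlk

/-- all good vertices are joined at the level `pn` -/
theorem gd_conn {U : Ev n} {pb pn : ℝ} {s0 : ℕ} (hs0 : 1 ≤ s0) (hbn : pb ≤ pn)
    (hIso : Iso pb pn s0 U) {u v : Fin n} (hu : u ∈ gd (GU U pb) s0) (hv : v ∈ gd (GU U pb) s0) :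
    (GU U pn).Reachable u v := by
  classical
  by_contra hcon
  set B := blks (GU U pb) s0 with hB
  set A := B.filter (fun S => ∃ x ∈ S, (GU U pn).Reachable u x) with hA
  have key : ∀ S ∈ A, ∀ S' ∈ B \ A, ∀ x ∈ S, ∀ y ∈ S', ¬ U s(x, y) ≤ pn := by
    intro S hS S' hS' x hx y hy hle
    rw [hA, Finset.mem_filter] at hS
    obtain ⟨hSB, x', hx', hr⟩ := hS
    rw [Finset.mem_sdiff] at hS'
    obtain ⟨hSB', hSA'⟩ := hS'
    have hne : S ≠ S' := by
      rintro rfl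
      exact hSA' (by rw [hA, Finset.mem_filter]; exact ⟨hSB, x', hx', hr⟩)
    have hxy := MkBlk.blk_ne hSB hSB' hne hx hy
    have h1 : (GU U pn).Reachable x' x := (MkBlk.blk_reach hSB hx' hx).mono (GU_mono hbn)
    have h2 : (GU U pn).Reachable u y :=
      (hr.trans h1).trans (SimpleGraph.Adj.reachable (GU_adj.2 ⟨hle, hxy⟩))
    apply hSA'
    rw [hA, Finset.mem_filter]
    exact ⟨hSB', y, hy, h2⟩
  have huA : cmp (GU U pb) u ∈ A := by
    rw [hA, Finset.mem_filter]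
    exact ⟨Marks.cmp_mem_blks hu, u, Marks.self_mem_cmp u, SimpleGraph.Reachable.refl u⟩
  have hvA : cmp (GU U pb) v ∈ B \ A := by
    rw [Finset.mem_sdiff]
    refine ⟨Marks.cmp_mem_blks hv, fun h => ?_⟩
    rw [hA, Finset.mem_filter] at h
    obtain ⟨-, x, hx, hr⟩ := h
    apply hcon
    exact hr.trans ((Marks.mem_cmp.1 hx).mono (GU_mono hbn)).symm
  have hAB : A ⊆ B := Finset.filter_subset _ _
  by_cases hcard : 2 * A.card ≤ B.card
  · obtain ⟨S, hS, S', hS', x, hx, y, hy, hle⟩ := MkBlk.iso_edge hIso hAB ⟨_, huA⟩ hcard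
    exact key S hS S' hS' x hx y hy hle
  · have hc2 : (B \ A).card = B.card - A.card := Finset.card_sdiff_of_subset hAB
    obtain ⟨S, hS, S', hS', x, hx, y, hy, hle⟩ :=
      MkBlk.iso_edge hIso (A := B \ A) Finset.sdiff_subset ⟨_, hvA⟩ (by
        rw [hc2, ← hB]
        omega)
    have hS'A : S' ∈ A := by
      rw [← hB, Finset.mem_sdiff, Finset.mem_sdiff] at hS'
      by_contra hn
      exact hS'.2 ⟨hS'.1, hn⟩
    exact key S' hS'A S hS y hy x hx (by rw [Sym2.eq_swap]; exact hle)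

theorem marks_sub {U : Ev n} {pl pb : ℝ} {s1 s0 : ℕ} :
    marks pl pb s1 s0 U ⊆ gd (GU U pb) s0 := by
  classical
  intro v hv
  unfold marks at hv
  rw [Finset.mem_filter] at hv
  rw [Marks.mem_gd]
  exact hv.2.2

/-- the blocks of an environment -/
theorem mk_blk {U : Ev n} {κ : Sym2 (Fin n) → ℝ} (hκ : ∀ e, 0 < κ e)
    {pl pb pn smax ρb cn Δ : ℝ} {s1 s0 : ℕ} (hbn : pb ≤ pn) (hs0 : 1 ≤ s0) (hρ : 0 < ρb)
    (hcn : 0 < cn) (hΔ : 0 ≤ Δ) (hcnU : ∀ e, cn ≤ κ e ↔ U e ≤ pn)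
    (hsm : ∀ v, ((cmp (GU U pb) v).card : ℝ) ≤ smax) (hIso : Iso pb pn s0 U)
    (hRob : Rob pb pn s0 U)
    (hdeg : ∀ S ∈ blks (GU U pb) s0, ∑ S' ∈ (blks (GU U pb) s0).erase S, nU pn U S S' ≤ Δ)
    (htail : ∀ (t : ℕ) (x : ℕ → Fin n), Set.InjOn x (Set.Iic t) →
      (∀ j < t, U s(x j, x (j + 1)) ≤ pb) → ∑ j ∈ range t, 1 / κ s(x j, x (j + 1)) ≤ ρb)
    (hM : 2 * smax ≤ (marks pl pb s1 s0 U).card) (hM0 : 0 < (marks pl pb s1 s0 U).card) :
    ∃ E : BlkEnv (Fin n), E.κ = κ ∧ E.Hb = GU U pb ∧ E.s0 = s0 ∧ E.M = marks pl pb s1 s0 U ∧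
      E.C = 2 * ρb + 12 * Δ * (Δ * ρb + 1 / cn) ∧ E.ρb = ρb ∧ E.cn = cn ∧ E.smax = smax := by
  classical
  have path : ∀ (W : Finset (Fin n)) (u v : Fin n), rin (GU U pb) W u v → ∀ f : Fin n → ℝ,
      (f u - f v) ^ 2 ≤ ρb * EnIn κ W f := by
    intro W u v h f
    obtain ⟨t, x, h0, ht, hinj, hW, hadj⟩ := Strong.rin_path h
    have h1 := Strong.path_in hκ f t x hinj hW
    rw [h0, ht] at h1
    have h2 := htail t x hinj (fun j hj => (GU_adj.1 (hadj j hj)).1)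
    simp only [one_div] at h2
    have h3 : (f u - f v) ^ 2 = (f v - f u) ^ 2 := by ring
    rw [h3]
    exact h1.trans (mul_le_mul_of_nonneg_right h2 (Marks.EnIn_nonneg hκ W f))
  have hnEU : ∀ S ∈ blks (GU U pb) s0, ∀ S' ∈ blks (GU U pb) s0, S ≠ S' →
      nE κ cn S S' = nU pn U S S' := fun S hS S' hS' hne =>
    MkBlk.nE_nU hcnU (fun x hx y hy => MkBlk.blk_ne hS hS' hne hx hy)
  have hdeg' : ∀ S ∈ blks (GU U pb) s0,
      ∑ S' ∈ (blks (GU U pb) s0).erase S, nE κ cn S S' ≤ Δ := by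
    intro S hS
    refine le_trans (le_of_eq ?_) (hdeg S hS)
    refine Finset.sum_congr rfl fun S' hS' => ?_
    rw [Finset.mem_erase] at hS'
    exact hnEU S hS S' hS'.2 (fun h => hS'.1 h.symm)
  have hiso' : ∀ bs : Finset (Fin n), (bs = ∅ ∨ bs ∈ blks (GU U pb) s0) →
      ∀ A ⊆ (blks (GU U pb) s0).erase bs, 2 * A.card ≤ (blks (GU U pb) s0).card →
        (A.card : ℝ) ≤ ∑ S ∈ A, ∑ S' ∈ ((blks (GU U pb) s0).erase bs) \ A, nE κ cn S S' := by
    intro bs hbs A hA hc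
    refine (hIso bs hbs A hA hc).trans (le_of_eq ?_)
    refine Finset.sum_congr rfl fun S hS => Finset.sum_congr rfl fun S' hS' => ?_
    rw [Finset.mem_sdiff] at hS'
    have h1 := Finset.mem_of_mem_erase (hA hS)
    have h2 := Finset.mem_of_mem_erase hS'.1
    refine (hnEU S h1 S' h2 ?_).symm
    rintro rfl
    exact hS'.2 hS
  refine ⟨{
    κ := κ
    κ_pos := hκ
    Hb := GU U pb
    s0 := s0
    s0_pos := hs0
    C := 2 * ρb + 12 * Δ * (Δ * ρb + 1 / cn)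
    ρb := ρb
    cn := cn
    C_pos := by positivity
    ρb_pos := hρ
    cn_pos := hcn
    M := marks pl pb s1 s0 U
    M_good := marks_sub
    smax := smax
    hsmax := hsm
    hM := hM
    hM0 := hM0
    path := path
    poinc := fun bs hbs f => block_poinc hκ (GU U pb) s0 hs0 hρ hcn hΔ path hdeg' hiso' bs hbs f
    rob := ?_ }, rfl, rfl, rfl, rfl, rfl, rfl, rfl, rfl⟩
  intro v K hv hK hcl hrin hex
  obtain ⟨x, hx, y, hy, hnr, hle⟩ := hRob v K hv hK hcl hrin hex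
  refine ⟨x, hx, y, hy, hnr, ?_⟩
  have hxy : x ≠ y := by
    rintro rfl
    obtain ⟨x', hx', hr⟩ := hex
    exact hnr (hr.trans (Marks.rin_reach (hrin x' hx' x hx)))
  unfold Kc
  rw [if_neg hxy]
  exact (hcnU _).2 hle

/-- the link between the environment, the blocks and the parameters of the path sum -/
theorem mk_lnk (P : SP n) {w : ℝ → ℝ} (hw : ∀ u, 0 < w u) (U : Ev n) (E : BlkEnv (Fin n))
    {pl pb : ℝ} {s1 J : ℕ} {Tl : ℝ} (hmono : Monotone P.gam)
    (hJ : 1 ≤ J) (hs1 : 1 ≤ s1) (hlb : pl ≤ pb) (hpl : pl ≤ P.gam 0)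
    (hbs : ∀ (j : ℕ) (v : Fin n) (F : Finset (Fin n)),
      P.bs j U v F = bush pl (P.gam j) pb s1 E.s0 J U v F)
    (hκ : E.κ = fun e => w (U e)) (hHb : E.Hb = GU U pb) (hM : E.M = marks pl pb s1 E.s0 U)
    (hup : ∀ i : ℤ, -(P.I0 : ℤ) ≤ i → ∀ u, u ≤ P.gam i → 1 / w u ≤ Real.exp i)
    (hdn : ∀ i : ℤ, -(P.I0 : ℤ) ≤ i → i ≤ P.I → ∀ u, P.gam i < u → Real.exp i ≤ 1 / w u)
    (htail : ∀ (t : ℕ) (x : ℕ → Fin n), Set.InjOn x (Set.Iic t) →
      (∀ j < t, U s(x j, x (j + 1)) ≤ pl) → ∑ j ∈ range t, 1 / w (U s(x j, x (j + 1))) ≤ Tl)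
    (hTl : Tl ≤ 1) (hlam : 1 ≤ P.lam) : Lnk P U E pl pb s1 J Tl where
  hJ := hJ
  hs1 := hs1
  hlb := hlb
  hplj := fun j => hpl.trans (hmono (by positivity))
  hbs := hbs
  hHb := hHb
  hM := hM
  hlo := by
    intro e
    obtain ⟨h1, h2, h3⟩ := MkBlk.cnt_spec P hmono (U e)
    unfold SP.rlo
    rw [hκ]
    simp only
    split_ifs with h0
    · exact (one_div_pos.2 (hw _)).le
    · have h4 := hdn ((P.cnt (U e) : ℤ) - 1 - P.I0) (by omega) (by omega) (U e) (h2 h0)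
      push_cast at h4
      exact h4
  hhi := by
    intro e hle
    obtain ⟨h1, h2, h3⟩ := MkBlk.cnt_spec P hmono (U e)
    unfold SP.rhi
    rw [hκ]
    simp only
    have h4 := hup ((P.cnt (U e) : ℤ) - P.I0) (by omega) (U e) (h3 hle)
    push_cast at h4
    exact h4
  hup := by
    intro j e hle
    rw [hκ]
    have h4 := hup (j : ℤ) (by omega) (U e) hle
    push_cast at h4
    exact h4
  htail := by
    intro t x hinj hlow
    rw [hκ]
    exact htail t x hinj hlow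
  hTl := hTl
  hlam := hlam

end

end Pool.Agent.TH972.U
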