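import Pool.Agent.TH972.U.OkDef
import Pool.Agent.TH972.U.Assem
import Pool.Agent.TH972.U.Cap
import Pool.Agent.TH972.U.MkBlk

/-!
# Good environments have few long paths
-/

set_option autoImplicit false

namespace Pool.Agent.TH972.U

open Finset MeasureTheory Pool.Agent.W842.RST Pool.Agent.TH972

noncomputable section

variable {n : ℕ}

namespace Det

theorem y_pos {P : Prm n} (H : P.Ok) : 0 < P.y := by
  have h1 := H.lvs.lo 0 (by omega) (by omega)
  have h2 := H.lvs.hi 0 (by omega) (by omega)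
  have h3 : 0.999 / P.y ≤ 1.001 / P.y := h1.trans h2
  have hy0 : P.y ≠ 0 := by
    intro h0
    have h4 := H.ngb
    unfold Prm.gb at h4
    rw [h0] at h4
    have h5 := H.hL
    norm_num at h4
    linarith
  by_contra hneg
  have hy : P.y < 0 := lt_of_le_of_ne (not_lt.1 hneg) hy0
  have h6 : 1 / P.y < 0 := one_div_neg.2 hy
  have h7 : 0.999 / P.y = 0.999 * (1 / P.y) := by ring
  have h8 : 1.001 / P.y = 1.001 * (1 / P.y) := by ring
  rw [h7, h8] at h3
  linarith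

theorem gb_pos {P : Prm n} (H : P.Ok) : 0 < P.gb := div_pos H.hη (y_pos H)

theorem n_pos {P : Prm n} (H : P.Ok) : (0 : ℝ) < n := by
  have := H.hn
  exact_mod_cast (by omega : 0 < n)

theorem I_le {P : Prm n} (H : P.Ok) : P.I ≤ P.K := by
  have h1 := H.hK
  have h2 := H.hb0
  have h3 : 0 ≤ Real.log (2 * P.m + 1) := Real.log_nonneg (by
    have : (0 : ℝ) ≤ P.m := Nat.cast_nonneg _
    linarith)
  have h4 : (0 : ℝ) ≤ P.I := Nat.cast_nonneg _
  have : (P.I : ℝ) ≤ P.K := by nlinarith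
  exact_mod_cast this

theorem I_ge {P : Prm n} (H : P.Ok) : 10 ^ 4 ≤ P.I := by
  have : (10 ^ 4 : ℝ) ≤ P.I := H.hlam.trans H.hlamI
  exact_mod_cast this

theorem K_ge {P : Prm n} (H : P.Ok) : 10 ^ 4 ≤ P.K := (I_ge H).trans (I_le H)

theorem one_sub {P : Prm n} (H : P.Ok) : (n : ℝ) * P.gam (-1) ≤ 1 - 0.999 / P.y := by
  have h1 := H.lvs.lo (-1) (by have := K_ge H; omega) (by omega)
  have h2 := H.lvs.g0
  norm_num at h1
  norm_num
  linarith

theorem pb_gt {P : Prm n} (H : P.Ok) : P.gam (-1) < P.pb := by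
  have hn := n_pos H
  have hy := y_pos H
  have h1 := one_sub H
  unfold Prm.pb Prm.gb
  rw [lt_div_iff₀ hn]
  have h2 : P.η / P.y < 0.999 / P.y := by
    apply div_lt_div_of_pos_right _ hy
    have := H.hη1
    linarith
  linarith

theorem pl_le {P : Prm n} (H : P.Ok) : P.pl ≤ P.gam (-1) := by
  unfold Prm.pl
  apply H.lvs.mono
  have := H.ha5
  omega

theorem gam0 {P : Prm n} (H : P.Ok) : P.gam 0 = 1 / n := by
  have hn := n_pos H
  rw [eq_div_iff hn.ne']
  linarith [H.lvs.g0]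

theorem pb_lt {P : Prm n} (H : P.Ok) : P.pb ≤ P.gam 0 := by
  rw [gam0 H]
  unfold Prm.pb
  apply div_le_div_of_nonneg_right _ (n_pos H).le
  linarith [gb_pos H]

theorem rho_pos {P : Prm n} (H : P.Ok) : 0 < P.ρb := by
  unfold Prm.ρb
  have := H.hL
  have := H.hη
  positivity

theorem Delta_nonneg {P : Prm n} (H : P.Ok) : 0 ≤ P.Δ := by
  unfold Prm.Δ
  have := H.hη
  positivity

theorem A_nonneg (P : Prm n) (H : P.Ok) : 0 ≤ P.A := by
  unfold Prm.A
  have := H.hL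
  have := H.hη
  positivity

theorem Cb_pos {P : Prm n} (H : P.Ok) : 0 < P.Cb := by
  unfold Prm.Cb
  have h1 := rho_pos H
  have h2 := Delta_nonneg H
  have h3 := H.lvs.wpos (P.gam 1)
  positivity

theorem smax_pos {P : Prm n} (H : P.Ok) : 0 < P.smax := by
  unfold Prm.smax
  have := H.hL
  have := gb_pos H
  positivity

theorem vmin_pos {P : Prm n} (H : P.Ok) : 0 < P.vmin := by
  unfold Prm.vmin
  have := n_pos H
  have := gb_pos H
  positivity

theorem vmax_pos {P : Prm n} (H : P.Ok) : 0 < P.vmax := by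
  unfold Prm.vmax
  have := n_pos H
  have := gb_pos H
  have := H.hL
  positivity

theorem smax_le {P : Prm n} (H : P.Ok) : 2 * P.smax ≤ P.vmin := by
  have hn := n_pos H
  have hg := gb_pos H
  have h1 := H.ngb
  have h2 := H.hL
  unfold Prm.smax Prm.vmin
  rw [← sub_nonneg]
  have h3 : n * P.gb / (2 * 10 ^ 8) - 2 * (16 * Real.log n / P.gb ^ 2) =
      (n * P.gb ^ 3 - 64 * 10 ^ 8 * Real.log n) / (2 * 10 ^ 8 * P.gb ^ 2) := by
    field_simp
    ring
  rw [h3]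
  apply div_nonneg _ (by positivity)
  nlinarith

theorem k0_pos {P : Prm n} (H : P.Ok) : 0 < P.k0 := by
  unfold Prm.k0
  have h1 := Cb_pos H
  have h2 := rho_pos H
  have h3 := vmax_pos H
  positivity

theorem cn_le {P : Prm n} (H : P.Ok) : 1 / P.w (P.gam 1) ≤ 3 := by
  have h1 := H.lvs.up 1 (by omega) (P.gam 1) le_rfl
  push_cast at h1
  have h2 := Real.exp_one_lt_d9
  linarith

theorem s1_pos {P : Prm n} (H : P.Ok) : 1 ≤ P.s1 := by
  by_contra h
  have h1 := H.hs1'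
  have h2 : P.s1 = 0 := by omega
  rw [h2] at h1
  norm_num at h1

theorem s0_pos {P : Prm n} (H : P.Ok) : 1 ≤ P.s0 := by
  by_contra h
  have h1 := H.hs0'
  have h2 : P.s0 = 0 := by omega
  rw [h2] at h1
  norm_num at h1

theorem Tl_nonneg {P : Prm n} (H : P.Ok) : 0 ≤ P.Tl := by
  unfold Prm.Tl
  have := H.hL
  positivity

theorem Tl_le {P : Prm n} (H : P.Ok) {θ0 k1 : ℝ} {N₀ : ℕ} (H2 : P.Ok2 θ0 k1 N₀) : P.Tl ≤ 1 := by
  have h1 := H2.haT
  have h2 := A_nonneg P H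
  have h3 := Tl_nonneg H
  unfold Prm.ac at h1
  nlinarith

/-- the final estimate -/
theorem fin_le {L sb Φ : ℝ} {N₀ k : ℕ} (hn : 2 ≤ n) (hL : L = Real.log n)
    (hΦ : 4 * L ≤ Φ) (hS : 20 ^ N₀ * sb ≤ 1 / (n : ℝ) ^ 3) (hk : 2 * L ≤ k) :
    4 / 3 * (n * (2 * n * Real.exp (-Φ) + 20 ^ N₀ * sb) + 20 ^ N₀ * sb) + n * (1 / 4) ^ k ≤
      6 / n := by
  have hn2 : (2 : ℝ) ≤ n := by exact_mod_cast hn
  have hn0 : (0 : ℝ) < n := by linarith
  have hexpL : Real.exp L = n := by rw [hL, Real.exp_log hn0]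
  have hL0 : 0 ≤ L := by rw [hL]; exact Real.log_nonneg (by linarith)
  have h1 : Real.exp (-Φ) ≤ 1 / (n : ℝ) ^ 4 := by
    calc Real.exp (-Φ) ≤ Real.exp (-(4 * L)) := Real.exp_le_exp.2 (by linarith)
      _ = 1 / (n : ℝ) ^ 4 := by
        rw [Real.exp_neg, ← hexpL, ← Real.exp_nat_mul]
        norm_num
  have h2 : ((1 : ℝ) / 4) ^ k ≤ 1 / (n : ℝ) ^ 2 := by
    have h3 : (1 : ℝ) / 4 ≤ Real.exp (-1) := by
      have := Real.exp_one_lt_d9
      rw [Real.exp_neg, one_div]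
      exact inv_anti₀ (Real.exp_pos 1) (by linarith)
    calc ((1 : ℝ) / 4) ^ k ≤ (Real.exp (-1)) ^ k := pow_le_pow_left₀ (by norm_num) h3 k
      _ = Real.exp (-k) := by rw [← Real.exp_nat_mul]; congr 1; ring
      _ ≤ Real.exp (-(2 * L)) := Real.exp_le_exp.2 (by linarith)
      _ = 1 / (n : ℝ) ^ 2 := by
        rw [Real.exp_neg, ← hexpL, ← Real.exp_nat_mul]
        norm_num
  have h4 : n * (2 * n * Real.exp (-Φ) + 20 ^ N₀ * sb) + 20 ^ N₀ * sb ≤
      n * (2 * n * (1 / (n : ℝ) ^ 4) + 1 / (n : ℝ) ^ 3) + 1 / (n : ℝ) ^ 3 := by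
    gcongr
  have h5 : n * ((1 : ℝ) / 4) ^ k ≤ n * (1 / (n : ℝ) ^ 2) := by gcongr
  have h6 : 4 / 3 * (n * (2 * n * (1 / (n : ℝ) ^ 4) + 1 / (n : ℝ) ^ 3) + 1 / (n : ℝ) ^ 3) +
      n * (1 / (n : ℝ) ^ 2) = (4 / 3 * (3 * n + 1) + n ^ 2) / (n : ℝ) ^ 3 := by
    field_simp
    ring
  have h7 : (4 / 3 * (3 * n + 1) + n ^ 2) / (n : ℝ) ^ 3 ≤ 6 / n := by
    rw [div_le_div_iff₀ (by positivity) hn0]
    nlinarith [mul_pos hn0 hn0, mul_nonneg (mul_pos hn0 hn0).le (by linarith : (0 : ℝ) ≤ n - 2)]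
  linarith

end Det

/-- in a good environment long loop-erased paths are rare -/
theorem Prm.Ok.det {P : Prm n} (H : P.Ok) {θ0 k1 : ℝ} {N₀ : ℕ} (H2 : P.Ok2 θ0 k1 N₀) {U : Ev n}
    (hG : P.Gd θ0 U) (hS : P.SS U ≤ P.sb) {k : ℕ} (hk : 2 * Real.log n ≤ k) :
    ∃ (E : BlkEnv (Fin n)) (k0 : ℝ) (hk0 : 0 < k0), E.κ = (fun e => P.w (U e)) ∧
      E.Hb = GU U P.pb ∧ E.s0 = P.s0 ∧ k0 * E.M.card * (160 * (E.C + E.ρb)) ≤ 1 ∧
      ∑ x, longQ (fun u v => U s(u, v) ≤ P.pt) (E.net k0 hk0) (P.m + k * P.m) x ≤ 6 / n := by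
  have hn := Det.n_pos H
  have hy := Det.y_pos H
  have hgb := Det.gb_pos H
  have hL := H.hL
  have hρ := Det.rho_pos H
  have hCb := Det.Cb_pos H
  have hvmin := Det.vmin_pos H
  have hvmax := Det.vmax_pos H
  have hsx := Det.smax_pos H
  have hk0 := Det.k0_pos H
  have hk1 : 0 < k1 := hk0.trans_le H2.hk
  have hbn : P.pb ≤ P.pn := (Det.pb_lt H).trans (H.lvs.mono (by norm_num))
  have hbt : P.pb ≤ P.pt := (Det.pb_lt H).trans (H.lvs.mono (by positivity))
  have hlb : P.pl ≤ P.pb := (Det.pl_le H).trans (Det.pb_gt H).le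
  have hA := Det.A_nonneg P H
  have hTl := Det.Tl_le H H2
  have hTl0 := Det.Tl_nonneg H
  have hM1 : P.vmin ≤ (marks P.pl P.pb P.s1 P.s0 U).card := hG.hvmin
  have hM0 : 0 < (marks P.pl P.pb P.s1 P.s0 U).card := by
    have : (0 : ℝ) < (marks P.pl P.pb P.s1 P.s0 U).card := hvmin.trans_le hM1
    exact_mod_cast this
  have hM2 : ((marks P.pl P.pb P.s1 P.s0 U).card : ℝ) ≤ P.vmax := by
    refine le_trans ?_ hG.hvmax
    exact_mod_cast Finset.card_le_card marks_sub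
  obtain ⟨E, hEκ, hEH, hEs, hEM, hEC, hEρ, hEcn, hEsm⟩ := mk_blk (U := U)
    (κ := fun e => P.w (U e)) (fun e => H.lvs.wpos _) (pl := P.pl) (pb := P.pb) (pn := P.pn)
    (smax := P.smax) (ρb := P.ρb) (cn := P.w (P.gam 1)) (Δ := P.Δ) (s1 := P.s1) (s0 := P.s0)
    hbn (Det.s0_pos H) hρ (H.lvs.wpos _) (Det.Delta_nonneg H) (fun e => H.lvs.st (U e))
    hG.hsm hG.iso hG.rob hG.deg hG.tb ((Det.smax_le H).trans hM1) hM0
  have hEC' : E.C = P.Cb := by rw [hEC]; rfl
  have hlnk : Lnk P.sp U E P.pl P.pb P.s1 P.J P.Tl := by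
    refine mk_lnk P.sp (w := P.w) H.lvs.wpos U E H.lvs.mono (by have := H.hJ; omega)
      (Det.s1_pos H) hlb ((Det.pl_le H).trans (H.lvs.mono (by norm_num))) ?_ hEκ hEH ?_ ?_ ?_
      hG.tl hTl ?_
    · intro j v F
      rw [hEs]
      rfl
    · rw [hEs]
      exact hEM
    · intro i hi u hu
      refine H.lvs.up i ?_ u hu
      have := H.hI0K
      have h : -(P.I0 : ℤ) ≤ i := hi
      omega
    · intro i hi hi' u hu
      have h1 := H.hI0K
      have h2 := Det.I_le H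
      have h3 : -(P.I0 : ℤ) ≤ i := hi
      have h4 : i ≤ (P.I : ℤ) := hi'
      exact H.lvs.dn i (by omega) (by omega) u hu
    · show (1 : ℝ) ≤ P.lam
      linarith [H.hlam]
  have hcardM : (E.M.card : ℝ) ≤ P.vmax := by rw [hEM]; exact hM2
  have hcardM' : P.vmin ≤ (E.M.card : ℝ) := by rw [hEM]; exact hM1
  have hMpos : (0 : ℝ) < E.M.card := hvmin.trans_le hcardM'
  have hcap : ∀ v, 1 / P.ac ≤ grn (E.net k1 hk1) ∅ v v := by
    intro v
    refine cap_le (by have := H.hn; omega) U (E.net k1 hk1) (pl := P.pl) (pb := P.pb)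
      (pt := P.pt) (smax := P.smax) (A := P.A) (k := k1) (s1 := P.s1) (s0 := P.s0) (sa := P.s1)
      hlb hbt le_rfl ?_ ?_ hk1.le ?_ ?_ hG.hsm H2.hks hG.arm v
    · intro x hx
      show (if x ∈ E.M then k1 else 0) = 0
      rw [if_neg (by rw [hEM]; exact hx)]
    · intro x
      show (if x ∈ E.M then k1 else 0) ≤ k1
      split_ifs
      · exact le_rfl
      · exact hk1.le
    · intro e he
      show E.κ e ≤ 3
      rw [hEκ]
      show P.w (U e) ≤ 3
      have h1 := H.lvs.dn (-1) (by have := Det.K_ge H; omega) (by omega) (U e)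
        ((Det.pb_gt H).trans he)
      push_cast at h1
      have h2 := H.lvs.wpos (U e)
      have h3 := Real.exp_one_lt_d9
      have h4 : P.w (U e) ≤ 1 / Real.exp (-1) := by
        rw [le_div_iff₀ (Real.exp_pos _)]
        rw [le_div_iff₀ h2] at h1
        linarith
      rw [Real.exp_neg, one_div, inv_inv] at h4
      linarith
    · intro e he
      show E.κ e ≤ 1 / (n : ℝ) ^ 2
      rw [hEκ]
      show P.w (U e) ≤ 1 / (n : ℝ) ^ 2
      have h1 := H.lvs.dn (P.I : ℤ) (by omega) (by have := Det.I_le H; omega) (U e) he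
      push_cast at h1
      have h2 := H.lvs.wpos (U e)
      have h3 : (n : ℝ) ^ 2 ≤ Real.exp P.I := by
        calc (n : ℝ) ^ 2 = Real.exp (2 * Real.log n) := by
              rw [mul_comm, Real.exp_mul, Real.exp_log hn]
              norm_num
          _ ≤ Real.exp P.I := Real.exp_le_exp.2 H.hI
      rw [le_div_iff₀ (by positivity)]
      rw [le_div_iff₀ h2] at h1
      nlinarith
  refine ⟨E, P.k0, hk0, hEκ, hEH, hEs, ?_, ?_⟩
  · rw [hEC', hEρ]
    have h1 : P.k0 * P.vmax * (160 * (P.Cb + P.ρb)) = 1 := by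
      unfold Prm.k0
      field_simp
    calc P.k0 * E.M.card * (160 * (P.Cb + P.ρb)) ≤ P.k0 * P.vmax * (160 * (P.Cb + P.ρb)) := by
          gcongr
      _ = 1 := h1
      _ ≤ 1 := le_rfl
  · have hac : 0 < P.ac := by unfold Prm.ac; positivity
    have hlong := long_le P.sp U E hlnk hk0 hk1 H2.hk (a := P.ac) (r := P.r) hac hcap H2.haT
      ?_ ?_ N₀ H2.hN ?_ ?_ ?_ P.m H.hm (Φ := P.Φ k1 N₀) (S := P.sb) le_rfl hS k
    · exact hlong.trans (Det.fin_le H.hn rfl H2.hΦ H2.hS hk)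
    · rw [hEC', hEρ, hEcn]
      unfold Prm.r
      have h1 := Det.cn_le H
      have h2 : 4 / (P.k0 * E.M.card) ≤ 4 / (P.k0 * P.vmin) := by
        apply div_le_div_of_nonneg_left (by norm_num) (by positivity)
        gcongr
      linarith
    · intro j
      show 2 * (P.J * Real.exp j + (P.J + 1) * P.Tl + P.r) ≤ Real.exp (max (j + P.b) P.lam)
      have h1 : Real.exp (j + P.b) ≤ Real.exp (max (j + P.b) P.lam) :=
        Real.exp_le_exp.2 (le_max_left _ _)
      have h2 : Real.exp P.lam ≤ Real.exp (max (j + P.b) P.lam) :=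
        Real.exp_le_exp.2 (le_max_right _ _)
      have h3 := H2.hr
      have h4 : 4 * P.J * Real.exp j ≤ Real.exp (j + P.b) := by
        rw [Real.exp_add, mul_comm (Real.exp j)]
        exact mul_le_mul_of_nonneg_right H.hbJ (Real.exp_pos _).le
      linarith
    · refine H2.hQ.trans ?_
      gcongr
    · rw [hEC', hEsm]
      refine le_trans ?_ H2.h1
      show 128 * (k1 * E.M.card) * (4 * (P.J + 2) * Real.exp P.lam + P.smax * P.Cb / P.s1) ≤ _
      gcongr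
    · rw [hEC', hEρ, hEsm]
      refine le_trans ?_ H2.h2
      gcongr

end

end Pool.Agent.TH972.U
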