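import Pool.Agent.TH972.U.NumDef

/-!
# Sub-polynomial quantities
(job RSTRE M1 of helper972, written by helper267)
-/

set_option autoImplicit false
set_option linter.unusedVariables false

namespace Pool.Agent.TH972.U

open Filter Topology

namespace M1

theorem log10 : (23 : ℝ) / 10 ≤ Real.log 10 := by
  have h1 : Real.exp 23 ≤ 10 ^ 10 := by
    have h2 : Real.exp 23 = Real.exp 1 ^ 23 := by
      rw [← Real.exp_nat_mul]; norm_num
    rw [h2]
    calc Real.exp 1 ^ 23 ≤ (2.7182818286 : ℝ) ^ 23 :=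
          pow_le_pow_left₀ (Real.exp_pos 1).le Real.exp_one_lt_d9.le _
      _ ≤ 10 ^ 10 := by norm_num
  have h3 : (23 : ℝ) ≤ Real.log (10 ^ 10) := (Real.le_log_iff_exp_le (by norm_num)).2 h1
  rw [Real.log_pow] at h3
  push_cast at h3
  linarith

theorem core {ε M L : ℝ} (hε : 0 < ε) (hM : 10 ^ 4 ≤ M) (hεM : 2000 ≤ ε * M) (hLM : L = M ^ 16)
    (hl : Real.log L ≤ M) (hL : 10 ^ 40 ≤ L) : Big L (Real.exp (ε * L)) := by
  have hM0 : 0 < M := by linarith
  have hM1 : 1 ≤ M := by linarith
  have hL0 : 0 < L := by linarith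
  set l := Real.log L with hldef
  have hexp : Real.exp l = L := Real.exp_log hL0
  have hl1 : 1 ≤ l := by
    rw [hldef, Real.le_log_iff_exp_le hL0]
    have := Real.exp_one_lt_d9
    linarith
  have hsq : Real.sqrt L = M ^ 8 := by
    rw [hLM, show M ^ 16 = (M ^ 8) ^ 2 by ring, Real.sqrt_sq (by positivity)]
  have hsq2 : Real.sqrt (Real.sqrt L) = M ^ 4 := by
    rw [hsq, show M ^ 8 = (M ^ 4) ^ 2 by ring, Real.sqrt_sq (by positivity)]
  have hLn : ∀ n : ℕ, L ^ n = Real.exp (n * l) := by
    intro n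
    rw [Real.exp_nat_mul, hexp]
  have hεL : 2000 * M ^ 15 ≤ ε * L := by
    rw [hLM]
    calc 2000 * M ^ 15 ≤ (ε * M) * M ^ 15 := mul_le_mul_of_nonneg_right hεM (by positivity)
      _ = ε * M ^ 16 := by ring
  have hp : ∀ n : ℕ, n ≤ 15 → M ^ n ≤ M ^ 15 := fun n hn => pow_le_pow_right₀ hM1 hn
  have hJ : (JL L : ℝ) ≤ 11 * M := by
    have h1 : (JL L : ℝ) < 10 * l + 1 := Nat.ceil_lt_add_one (by linarith)
    linarith
  have hJ' : 10 * l ≤ (JL L : ℝ) := Nat.le_ceil _
  have hJ0 : (0 : ℝ) ≤ JL L := Nat.cast_nonneg _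
  have hK : 5 * (KL L : ℝ) ≤ Real.exp (10 * M) := by
    have h1 : (KL L : ℝ) < L ^ 9 + 1 := Nat.ceil_lt_add_one (by positivity)
    have h2 : 1 ≤ L ^ 9 := one_le_pow₀ (by linarith)
    have h3 : 10 ≤ Real.exp M := by
      have := Real.add_one_le_exp M
      linarith
    have h4 : L ^ 9 ≤ Real.exp (9 * M) := by
      rw [hLn]
      apply Real.exp_le_exp.2
      push_cast
      linarith
    calc 5 * (KL L : ℝ) ≤ 10 * L ^ 9 := by linarith
      _ ≤ Real.exp M * Real.exp (9 * M) := mul_le_mul h3 h4 (by positivity) (Real.exp_pos _).le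
      _ = Real.exp (10 * M) := by
          rw [← Real.exp_add]
          congr 1
          ring
  have hL200 : L ^ 200 ≤ Real.exp (200 * M) := by
    rw [hLn]
    apply Real.exp_le_exp.2
    push_cast
    linarith
  refine ⟨hL, ?_, ?_, ?_, ?_, ?_, ?_, ?_, ?_, ?_⟩
  · refine hL200.trans (Real.exp_le_exp.2 ?_)
    have := hp 1 (by norm_num)
    rw [pow_one] at this
    linarith
  · rw [hsq]
    calc Real.exp (M ^ 8) * L ^ 200 ≤ Real.exp (M ^ 8) * Real.exp (200 * M) :=
          mul_le_mul_of_nonneg_left hL200 (Real.exp_pos _).le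
      _ = Real.exp (M ^ 8 + 200 * M) := (Real.exp_add _ _).symm
      _ ≤ _ := by
          apply Real.exp_le_exp.2
          have h1 := hp 1 (by norm_num)
          have h8 := hp 8 (by norm_num)
          rw [pow_one] at h1
          have : 0 ≤ M ^ 15 := by positivity
          linarith
  · calc (5 * (KL L : ℝ)) ^ JL L * L ^ 200 ≤ Real.exp (10 * M) ^ JL L * Real.exp (200 * M) := by
          apply mul_le_mul _ hL200 (by positivity) (by positivity)
          exact pow_le_pow_left₀ (by positivity) hK _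
      _ = Real.exp (JL L * (10 * M) + 200 * M) := by
          rw [← Real.exp_nat_mul, ← Real.exp_add]
      _ ≤ _ := by
          apply Real.exp_le_exp.2
          have h1 := hp 1 (by norm_num)
          have h2 := hp 2 (by norm_num)
          rw [pow_one] at h1
          have h3 : (JL L : ℝ) * (10 * M) ≤ 11 * M * (10 * M) :=
            mul_le_mul_of_nonneg_right hJ (by positivity)
          have h4 : 11 * M * (10 * M) = 110 * M ^ 2 := by ring
          have : 0 ≤ M ^ 15 := by positivity
          linarith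
  · rw [hsq]
    have hX : 1 + L ^ 30 * Real.exp (M ^ 8) ≤ Real.exp (31 * M + M ^ 8) := by
      have h1 : L ^ 30 ≤ Real.exp (30 * M) := by
        rw [hLn]
        apply Real.exp_le_exp.2
        push_cast
        linarith
      have h2 : L ^ 30 * Real.exp (M ^ 8) ≤ Real.exp (30 * M + M ^ 8) := by
        rw [Real.exp_add]
        exact mul_le_mul_of_nonneg_right h1 (Real.exp_pos _).le
      have h3 : 1 ≤ Real.exp (30 * M + M ^ 8) := Real.one_le_exp (by positivity)
      have h4 : 2 ≤ Real.exp M := by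
        have := Real.add_one_le_exp M
        linarith
      calc 1 + L ^ 30 * Real.exp (M ^ 8) ≤ 2 * Real.exp (30 * M + M ^ 8) := by linarith
        _ ≤ Real.exp M * Real.exp (30 * M + M ^ 8) :=
            mul_le_mul_of_nonneg_right h4 (Real.exp_pos _).le
        _ = Real.exp (31 * M + M ^ 8) := by
            rw [← Real.exp_add]
            congr 1
            ring
    have hX0 : 0 ≤ 1 + L ^ 30 * Real.exp (M ^ 8) := by positivity
    calc ((1 + L ^ 30 * Real.exp (M ^ 8)) ^ JL L * Real.exp (JL L)) ^ 2 * L ^ 200 ≤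
          (Real.exp (31 * M + M ^ 8) ^ JL L * Real.exp (JL L)) ^ 2 * Real.exp (200 * M) := by
          apply mul_le_mul _ hL200 (by positivity) (by positivity)
          apply pow_le_pow_left₀ (by positivity)
          apply mul_le_mul_of_nonneg_right _ (Real.exp_pos _).le
          exact pow_le_pow_left₀ hX0 hX _
      _ = Real.exp (2 * (JL L * (31 * M + M ^ 8) + JL L) + 200 * M) := by
          rw [← Real.exp_nat_mul, ← Real.exp_add, ← Real.exp_nat_mul, ← Real.exp_add]
          norm_num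
      _ ≤ _ := by
          apply Real.exp_le_exp.2
          have h1 := hp 1 (by norm_num)
          have h9 := hp 9 (by norm_num)
          rw [pow_one] at h1
          have h18 : M ≤ M ^ 8 := by
            calc M = M ^ 1 := (pow_one M).symm
              _ ≤ M ^ 8 := pow_le_pow_right₀ hM1 (by norm_num)
          have h08 : 1 ≤ M ^ 8 := one_le_pow₀ hM1
          have h3 : (JL L : ℝ) * (31 * M + M ^ 8 + 1) ≤ 11 * M * (33 * M ^ 8) :=
            mul_le_mul hJ (by linarith) (by positivity) (by positivity)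
          have h4 : 11 * M * (33 * M ^ 8) = 363 * M ^ 9 := by ring
          have : 0 ≤ M ^ 15 := by positivity
          linarith
  · rw [hsq2, hLn]
    apply Real.exp_le_exp.2
    have h1 : 40 * M ≤ M ^ 4 := by
      calc 40 * M ≤ M * M := mul_le_mul_of_nonneg_right (by linarith) hM0.le
        _ = M ^ 2 := by ring
        _ ≤ M ^ 4 := pow_le_pow_right₀ hM1 (by norm_num)
    push_cast
    linarith
  · refine hJ.trans ?_
    rw [hLM]
    calc 11 * M ≤ M * M := mul_le_mul_of_nonneg_right (by linarith) hM0.le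
      _ = M ^ 2 := by ring
      _ ≤ M ^ 16 := pow_le_pow_right₀ hM1 (by norm_num)
  · rw [hsq]
    have h1 : Real.log (8 * ((JL L : ℝ) + 1)) ≤ 8 * ((JL L : ℝ) + 1) :=
      (Real.log_le_sub_one_of_pos (by positivity)).trans (by linarith)
    have h2 : 8 * ((JL L : ℝ) + 1) ≤ 96 * M := by linarith
    have h3 : 96 * M ≤ M ^ 8 / 100 := by
      rw [le_div_iff₀ (by norm_num)]
      calc 96 * M * 100 ≤ M * M := by nlinarith
        _ = M ^ 2 := by ring
        _ ≤ M ^ 8 := pow_le_pow_right₀ hM1 (by norm_num)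
    linarith
  · have h1 : (10 : ℝ) ^ JL L = Real.exp (JL L * Real.log 10) := by
      rw [Real.exp_nat_mul, Real.exp_log (by norm_num)]
    rw [h1, hLn]
    apply Real.exp_le_exp.2
    have h2 : 10 * l * (23 / 10) ≤ (JL L : ℝ) * Real.log 10 :=
      mul_le_mul hJ' log10 (by norm_num) hJ0
    push_cast
    linarith
  · have h1 : (4 : ℝ) ≤ JL L := by linarith
    exact_mod_cast h1

end M1

theorem big_eventually {ε : ℝ} (hε : 0 < ε) : ∀ᶠ L : ℝ in atTop, Big L (Real.exp (ε * L)) := by
  have h1 : ∀ᶠ L : ℝ in atTop, max (10 ^ 4) (2000 / ε) ≤ L ^ (1 / 16 : ℝ) :=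
    (tendsto_rpow_atTop (by norm_num : (0 : ℝ) < 1 / 16)).eventually_ge_atTop _
  have h2 : ∀ᶠ L : ℝ in atTop, ‖Real.log L‖ ≤ 1 * ‖L ^ (1 / 16 : ℝ)‖ :=
    (isLittleO_log_rpow_atTop (by norm_num : (0 : ℝ) < 1 / 16)).bound one_pos
  filter_upwards [h1, h2, eventually_ge_atTop (10 ^ 40)] with L hL1 hL2 hL3
  have hL0 : 0 < L := by linarith
  have hM0 : 0 < L ^ (1 / 16 : ℝ) := Real.rpow_pos_of_pos hL0 _
  apply M1.core (M := L ^ (1 / 16 : ℝ)) hε ((le_max_left _ _).trans hL1) _ _ _ hL3
  · have := (le_max_right _ _).trans hL1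
    rw [div_le_iff₀ hε] at this
    linarith
  · rw [← Real.rpow_natCast, ← Real.rpow_mul hL0.le]
    norm_num
  · rw [one_mul, Real.norm_eq_abs, Real.norm_eq_abs, abs_of_pos hM0] at hL2
    exact (le_abs_self _).trans hL2

end Pool.Agent.TH972.U
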