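import Pool.Agent.TH972.U.BDef
import Pool.Agent.TH972.Expect
import Pool.Agent.W842.RST.Avoid

/-!
# Explorations in the random environment (definitions)
-/

set_option autoImplicit false
set_option linter.unusedSectionVars false

namespace Pool.Agent.TH972.U

open Finset MeasureTheory Pool.Agent.W842.RST Pool.Agent.TH972

noncomputable section

variable {n : ℕ}

/-- the two environments compare in the same way to the levels in `L` -/
def lvlEq (L : Finset ℝ) (U U' : Ev n) : Prop := ∀ e, ∀ p ∈ L, (U e ≤ p ↔ U' e ≤ p)

open Classical in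
/-- the vertices reached from `A` inside `A ∪ F` with edges of level at most `p` -/
def rch (p : ℝ) (U : Ev n) (A F : Finset (Fin n)) : Finset (Fin n) :=
  univ.filter (fun u => ∃ a ∈ A, rin (GU U p) (A ∪ F) a u)

/-- the vertex `v` is a mark inside `insert v F` -/
def mk (pl pb : ℝ) (s1 s0 : ℕ) (U : Ev n) (v : Fin n) (F : Finset (Fin n)) : Prop :=
  s1 ≤ (rch pl U {v} F).card ∧ s0 ≤ (rch pb U {v} F).card

open Classical in
/-- neighbours in `F` with level at most `p` -/
def nbr (p : ℝ) (U : Ev n) (v : Fin n) (F : Finset (Fin n)) : Finset (Fin n) :=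
  F.filter (fun u => U s(v, u) ≤ p)

open Classical in
/-- typed exploration: items `(v, h)` with `h < J` reveal their neighbours: low ones (level at most
`pl`) get the type `h`, high ones (level in `(pl, pt]`) the type `h + 1`; items with `J ≤ h` are
tested. The result: the set of explored vertices and the successful vertex, if any. -/
def bsh (pl pt pb : ℝ) (s1 s0 J : ℕ) (U : Ev n) :
    ℕ → List (Fin n × ℕ) → Finset (Fin n) → Finset (Fin n) × Option (Fin n)
  | 0, _, _ => (∅, none)
  | (_ + 1), [], _ => (∅, none)
  | (k + 1), ((v, h) :: rest), F =>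
    if J ≤ h then
      if mk pl pb s1 s0 U v F then ((rch pb U {v} F).erase v, some v)
      else
        (((rch pb U {v} F).erase v) ∪ (bsh pl pt pb s1 s0 J U k rest (F \ rch pb U {v} F)).1,
          (bsh pl pt pb s1 s0 J U k rest (F \ rch pb U {v} F)).2)
    else
      ((nbr pt U v F) ∪
        (bsh pl pt pb s1 s0 J U k ((nbr pl U v F).toList.map (fun u => (u, h)) ++
          (nbr pt U v F \ nbr pl U v F).toList.map (fun u => (u, h + 1)) ++ rest)
          (F \ nbr pt U v F)).1,
        (bsh pl pt pb s1 s0 J U k ((nbr pl U v F).toList.map (fun u => (u, h)) ++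
          (nbr pt U v F \ nbr pl U v F).toList.map (fun u => (u, h + 1)) ++ rest)
          (F \ nbr pt U v F)).2)

/-- the bush of `v` in the fresh set `F` -/
def bush (pl pt pb : ℝ) (s1 s0 J : ℕ) (U : Ev n) (v : Fin n) (F : Finset (Fin n)) :
    Finset (Fin n) × Option (Fin n) :=
  bsh pl pt pb s1 s0 J U (2 * n + 2) [(v, 0)] F

end

end Pool.Agent.TH972.U
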