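import Pool.Agent.TH972.U.Marks
import Pool.Agent.TH972.U.Forest
import Pool.Agent.TH972.U.XDef
import Pool.Agent.TH972.GibbsK
import Pool.Agent.W842.RST.Chain
import Pool.Agent.W842.RST.Levels

/-!
# Reduction of the diameter to long loop-erased paths (helper699, job RSTRE Z1)
-/

set_option autoImplicit false

namespace Pool.Agent.TH972.U

open Finset MeasureTheory Pool.Agent.W842.RST Pool.Agent.TH972

noncomputable section

variable {n : ℕ}

namespace Red

lemma lev_mono {a b : ℝ} (h : a ≤ b) : Pool.Agent.W842.RST.lev n a ≤ Pool.Agent.W842.RST.lev n b := by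
  unfold Pool.Agent.W842.RST.lev
  exact div_le_div_of_nonneg_right (by linarith) (Nat.cast_nonneg n)

/-- the bad event: two vertices joined to a mark with large distance -/
def Bad (U : Ev n) (M : Finset (Fin n)) (p p' : ℝ) (l : ℕ) (T : SimpleGraph (Fin n)) : Prop :=
  Good U p p' T ∧ ∃ ρ ∈ M, ∃ a b, (GU U p).Reachable ρ a ∧ (GU U p).Reachable ρ b ∧
    2 * l + 1 ≤ T.dist a b

/-- a long path in `T ⊓ GU U p'` -/
lemma okc_of_path {U : Ev n} {p' : ℝ} {l : ℕ} {T : SimpleGraph (Fin n)} {c ρ : Fin n}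
    (w : (T ⊓ GU U p').Walk c ρ) (hw : w.IsPath) (hl : l ≤ w.length) :
    ∃ (x : Fin n) (p : T.Walk x ρ), p.IsPath ∧ okc (fun u v => U s(u, v) ≤ p') l p.support := by
  refine ⟨c, w.mapLe (inf_le_left : T ⊓ GU U p' ≤ T), hw.mapLe _, ?_⟩
  have hs : (w.mapLe (inf_le_left : T ⊓ GU U p' ≤ T)).support = w.support := by
    rw [SimpleGraph.Walk.support_mapLe_eq_support]
  rw [hs]
  refine ⟨by rw [SimpleGraph.Walk.length_support]; omega, ?_⟩
  have h1 : w.support.IsChain (fun u v => U s(u, v) ≤ p') := by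
    refine w.isChain_adj_support.imp ?_
    intro a b hab
    rw [SimpleGraph.inf_adj, GU_adj] at hab
    exact hab.2.1
  exact h1.take _

lemma bad_long {U : Ev n} {M : Finset (Fin n)} {p p' : ℝ} {l : ℕ} {T : SimpleGraph (Fin n)}
    (hT : T.IsTree) (hA : Bad U M p p' l T) {ρ' : Fin n}
    (hρ : ∀ ρ ∈ M, (GU U p).Reachable ρ' ρ) :
    ∃ (x : Fin n) (q : T.Walk x ρ'), q.IsPath ∧
      okc (fun u v => U s(u, v) ≤ p') l q.support := by
  classical
  obtain ⟨hgood, ρ, hρM, a, b, ha, hb, hab⟩ := hA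
  have h1 := hρ ρ hρM
  obtain ⟨wa, hwa⟩ := (hgood a ρ' (h1.trans ha).symm).exists_isPath
  obtain ⟨wb, hwb⟩ := (hgood b ρ' (h1.trans hb).symm).exists_isPath
  have h3 : T.dist a ρ' ≤ (wa.mapLe (inf_le_left : T ⊓ GU U p' ≤ T)).length :=
    SimpleGraph.dist_le _
  have h4 : T.dist b ρ' ≤ (wb.mapLe (inf_le_left : T ⊓ GU U p' ≤ T)).length :=
    SimpleGraph.dist_le _
  rw [SimpleGraph.Walk.length_map] at h3 h4
  have h5 : T.dist a b ≤ T.dist a ρ' + T.dist ρ' b := hT.connected.dist_triangle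
  have h6 : T.dist ρ' b = T.dist b ρ' := SimpleGraph.dist_comm
  by_cases h : l ≤ wa.length
  · exact okc_of_path wa hwa h
  · exact okc_of_path wb hwb (by omega)

end Red

open Red

/-- the step from a level to the next one; the distances are controlled only in the component of `v` -/
theorem step1 {U : Ev n} {p₀ p₁ p₁' : ℝ} {m s D : ℕ} (T : SimpleGraph (Fin n)) (hT : T.IsTree)
    (hgood : Good U p₁ p₁' T) (hav : ¬ AvoidBad m s p₀ p₁' U) (v : Fin n)
    (hv : s ≤ (comp (GU U p₀) v).card)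
    (hD : ∀ x y, (GU U p₀).Reachable v x → (GU U p₀).Reachable v y → T.dist x y ≤ D) :
    ∀ x y, (GU U p₁).Reachable x y → T.dist x y ≤ D + 2 * m := by
  classical
  intro x y hxy
  obtain ⟨w, hw⟩ := (hgood x y hxy).exists_isPath
  have h1 := prefix_short T hav v hv w hw
  have h2 := prefix_short T hav v hv w.reverse hw.reverse
  have hshort : w.length < m → T.dist x y ≤ D + 2 * m := by
    intro h
    have h3 : T.dist x y ≤ (w.mapLe (inf_le_left : T ⊓ GU U p₁' ≤ T)).length :=
      SimpleGraph.dist_le _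
    rw [SimpleGraph.Walk.length_map] at h3
    omega
  rcases h1 with ⟨k, hk, hk'⟩ | ⟨_, h⟩
  · rcases h2 with ⟨l, hl, hl'⟩ | ⟨_, h⟩
    · have h3 := hD k l hk hl
      have h4 : T.dist x y ≤ T.dist x k + T.dist k y := hT.connected.dist_triangle
      have h5 : T.dist k y ≤ T.dist k l + T.dist l y := hT.connected.dist_triangle
      have h6 : T.dist l y = T.dist y l := SimpleGraph.dist_comm
      omega
    · rw [SimpleGraph.Walk.length_reverse] at h
      exact hshort h
  · exact hshort h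

/-- the diameter is small if long loop-erased paths are rare -/
theorem diam_red [Nonempty (Fin n)] (U : Ev n) (E : BlkEnv (Fin n)) {k : ℝ} (hk : 0 < k)
    (hroot : k * E.M.card * (160 * (E.C + E.ρb)) ≤ 1) {θ0 ε1 ε2 : ℝ} (hθ0 : 0 < θ0)
    (N m l : ℕ) (hN : 1 ≤ N)
    (hpc : (GU U (Pool.Agent.W842.RST.lev n (θ0 * (11 / 10) ^ N))).Preconnected)
    (hgi : ∀ i ≤ N, ∃ v, siz n (θ0 * (11 / 10) ^ i) ≤
      (comp (GU U (Pool.Agent.W842.RST.lev n (θ0 * (11 / 10) ^ i))) v).card)
    (hav : ∀ i < N, ¬ AvoidBad m (siz n (θ0 * (11 / 10) ^ i)) (Pool.Agent.W842.RST.lev n (θ0 * (11 / 10) ^ i))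
      (Pool.Agent.W842.RST.lev n (121 / 100 * (θ0 * (11 / 10) ^ i))) U)
    (hconn : ∀ u ∈ gd E.Hb E.s0, ∀ v ∈ gd E.Hb E.s0, (GU U (Pool.Agent.W842.RST.lev n (11 / 10 * θ0))).Reachable u v)
    (hcore : ∀ v, siz n θ0 ≤ (cmp (GU U (Pool.Agent.W842.RST.lev n θ0)) v).card →
      ∃ u ∈ gd E.Hb E.s0, (GU U (Pool.Agent.W842.RST.lev n (11 / 10 * θ0))).Reachable v u)
    (hbad : ∀ i ≤ N, GG E.κ (fun T => ¬ Good U (Pool.Agent.W842.RST.lev n (θ0 * (11 / 10) ^ i))
      (Pool.Agent.W842.RST.lev n (11 / 10 * (θ0 * (11 / 10) ^ i))) T) ≤ ε1)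
    (hlong : ∑ x, longQ (fun u v => U s(u, v) ≤ Pool.Agent.W842.RST.lev n (121 / 100 * θ0)) (E.net k hk) l x ≤ ε2) :
    1 - ((N + 1) * ε1 + 2 * ε2) ≤ GG E.κ (fun T => T.diam ≤ 2 * l + 2 * m * N) := by
  classical
  -- the bad event
  have hbadA : GG E.κ (fun T => Bad U E.M (Pool.Agent.W842.RST.lev n (11 / 10 * θ0)) (Pool.Agent.W842.RST.lev n (121 / 100 * θ0)) l T) ≤
      2 * ε2 := by
    have h1 := tree_long (E.net k hk) (E.roots hk hroot)
      (fun u v => U s(u, v) ≤ Pool.Agent.W842.RST.lev n (121 / 100 * θ0)) l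
      (fun T => Bad U E.M (Pool.Agent.W842.RST.lev n (11 / 10 * θ0)) (Pool.Agent.W842.RST.lev n (121 / 100 * θ0)) l T) (by
        intro T hT hA ρ' hρ'
        refine bad_long hT hA ?_
        have hM : ρ' ∈ E.M := by
          by_contra hcon
          apply hρ'
          show (if ρ' ∈ E.M then k else 0) = 0
          rw [if_neg hcon]
        intro ρ hρ
        exact hconn ρ' (E.M_good hM) ρ (E.M_good hρ))
    have hpos := sumT_pos (n := n) E.κ_pos
    unfold GG
    rw [div_le_iff₀ hpos]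
    have h2 : sumT (E.net k hk).κ = sumT E.κ := rfl
    rw [h2] at h1
    have h3 : 2 * sumT E.κ (fun _ => True) *
        ∑ x, longQ (fun u v => U s(u, v) ≤ Pool.Agent.W842.RST.lev n (121 / 100 * θ0)) (E.net k hk) l x ≤
        2 * sumT E.κ (fun _ => True) * ε2 := mul_le_mul_of_nonneg_left hlong (by linarith)
    linarith
  -- the union bound
  obtain ⟨B, hB⟩ : ∃ B : Option ℕ → SimpleGraph (Fin n) → Prop, B = fun o T =>
      match o with
      | none => ¬ Bad U E.M (Pool.Agent.W842.RST.lev n (11 / 10 * θ0)) (Pool.Agent.W842.RST.lev n (121 / 100 * θ0)) l T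
      | some i => Good U (Pool.Agent.W842.RST.lev n (θ0 * (11 / 10) ^ i)) (Pool.Agent.W842.RST.lev n (11 / 10 * (θ0 * (11 / 10) ^ i))) T :=
    ⟨_, rfl⟩
  have hunion := GG_ge E.κ_pos (insertNone (range (N + 1)))
    (fun T => T.diam ≤ 2 * l + 2 * m * N) B (by
      intro T hT hall
      have hnA : ¬ Bad U E.M (Pool.Agent.W842.RST.lev n (11 / 10 * θ0)) (Pool.Agent.W842.RST.lev n (121 / 100 * θ0)) l T := by
        have := hall none (by simp)
        rw [hB] at this
        exact this
      have hG : ∀ i ≤ N, Good U (Pool.Agent.W842.RST.lev n (θ0 * (11 / 10) ^ i))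
          (Pool.Agent.W842.RST.lev n (11 / 10 * (θ0 * (11 / 10) ^ i))) T := by
        intro i hi
        have := hall (some i) (by simp; omega)
        rw [hB] at this
        exact this
      have hG1 : Good U (Pool.Agent.W842.RST.lev n (11 / 10 * θ0)) (Pool.Agent.W842.RST.lev n (121 / 100 * θ0)) T := by
        have h := hG 1 hN
        have e1 : θ0 * (11 / 10) ^ 1 = 11 / 10 * θ0 := by ring
        have e2 : 11 / 10 * (θ0 * (11 / 10) ^ 1) = 121 / 100 * θ0 := by ring
        rw [e2, e1] at h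
        exact h
      -- the component of a vertex
      obtain ⟨v, hv⟩ := hgi 0 (Nat.zero_le N)
      rw [pow_zero, mul_one] at hv
      have hce : cmp (GU U (Pool.Agent.W842.RST.lev n θ0)) v =
          comp (GU U (Pool.Agent.W842.RST.lev n θ0)) v := by
        ext x
        rw [Marks.mem_cmp, mem_comp]
      obtain ⟨u, hu, hvu⟩ := hcore v (by rw [hce]; exact hv)
      obtain ⟨ρ, hρ⟩ := Finset.card_pos.1 E.hM0
      have hρv : (GU U (Pool.Agent.W842.RST.lev n (11 / 10 * θ0))).Reachable ρ v :=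
        (hconn ρ (E.M_good hρ) u hu).trans hvu.symm
      have hlev : GU U (Pool.Agent.W842.RST.lev n θ0) ≤ GU U (Pool.Agent.W842.RST.lev n (11 / 10 * θ0)) :=
        GU_mono (lev_mono (by linarith))
      have hD0 : ∀ x y, (GU U (Pool.Agent.W842.RST.lev n θ0)).Reachable v x → (GU U (Pool.Agent.W842.RST.lev n θ0)).Reachable v y →
          T.dist x y ≤ 2 * l := by
        intro x y hx hy
        by_contra hcon
        push Not at hcon
        exact hnA ⟨hG1, ρ, hρ, x, y, hρv.trans (hx.mono hlev), hρv.trans (hy.mono hlev),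
          by omega⟩
      have hav0 := hav 0 (by omega)
      rw [pow_zero, mul_one] at hav0
      have hD1 := step1 T hT hG1 hav0 v hv hD0
      -- the levels
      have key : ∀ i, 1 ≤ i → i ≤ N → ∀ x y, (GU U (Pool.Agent.W842.RST.lev n (θ0 * (11 / 10) ^ i))).Reachable x y →
          T.dist x y ≤ 2 * l + 2 * m * i := by
        intro i hi
        induction i, hi using Nat.le_induction with
        | base =>
          intro _ x y hxy
          have e1 : θ0 * (11 / 10) ^ 1 = 11 / 10 * θ0 := by ring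
          rw [e1] at hxy
          have := hD1 x y hxy
          omega
        | succ i hi ih =>
          intro hiN x y hxy
          have ih' := ih (by omega)
          have hg := hG (i + 1) hiN
          have e2 : 11 / 10 * (θ0 * (11 / 10) ^ (i + 1)) = 121 / 100 * (θ0 * (11 / 10) ^ i) := by
            ring
          rw [e2] at hg
          have h := step T hT hg (hav i (by omega)) (hgi i (by omega)) ih' x y hxy
          have e3 : 2 * m * (i + 1) = 2 * m * i + 2 * m := by ring
          omega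
      exact diam_le_of T hpc (key N hN le_rfl))
  rw [Finset.sum_insertNone] at hunion
  have h1 : GG E.κ (fun T => ¬ B none T) ≤ 2 * ε2 := by
    refine le_trans (le_of_eq ?_) hbadA
    congr 1
    funext T
    rw [hB]
    simp
  have h2 : ∑ i ∈ range (N + 1), GG E.κ (fun T => ¬ B (some i) T) ≤ (N + 1) * ε1 := by
    calc ∑ i ∈ range (N + 1), GG E.κ (fun T => ¬ B (some i) T) ≤ ∑ _i ∈ range (N + 1), ε1 := by
          refine Finset.sum_le_sum fun i hi => ?_
          rw [hB]
          exact hbad i (by rw [Finset.mem_range] at hi; omega)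
      _ = (N + 1) * ε1 := by
          rw [Finset.sum_const, card_range, nsmul_eq_mul]
          push_cast
          ring
  linarith

end

end Pool.Agent.TH972.U
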