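import Pool.Agent.TH972.U.ADef
import Pool.Agent.TH972.U.AssemZ
import Pool.Agent.TH972.U.Det
import Pool.Agent.TH972.U.Red
import Pool.Agent.TH972.U.DLow
import Pool.Agent.TH972.U.M1

set_option autoImplicit false
set_option linter.unusedVariables false

namespace Pool.Agent.TH972.U
open Finset MeasureTheory Pool.Agent.W842.RST Pool.Agent.TH972 Filter Topology
noncomputable section

namespace DetA

/-- numerical facts -/
structure NA (n : ℕ) (L l s Z W : ℝ) : Prop where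
  hn : 2 ≤ n
  hL : Real.log n = L
  hl : Real.log L = l
  hs : s ^ 2 = n
  hs0 : 0 < s
  hL6 : 10 ^ 6 ≤ L
  hl1 : 1 ≤ l
  hlL : 10 * l ≤ L
  hJ1 : 1 ≤ JA n
  hJ : (JA n : ℝ) ≤ L
  hWe : Real.exp (lamA n) = W
  hLW : L ^ 100 ≤ W
  hWZ : W ^ 4 ≤ Z
  hZs : Z ^ 10 ≤ s
  hPZ : ((1 + (3 * L ^ 20 + 2) * W) ^ JA n) ^ 2 ≤ Z

variable {n : ℕ} {L l s Z W : ℝ}

theorem NA.L0 (H : NA n L l s Z W) : 0 < L := by have := H.hL6; linarith
theorem NA.L1 (H : NA n L l s Z W) : 1 ≤ L := by have := H.hL6; linarith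
theorem NA.npos (H : NA n L l s Z W) : (0 : ℝ) < n := by
  have := H.hn; exact_mod_cast (by omega : 0 < n)
theorem NA.powL (H : NA n L l s Z W) {a b : ℕ} (h : a ≤ b) : L ^ a ≤ L ^ b :=
  pow_le_pow_right₀ H.L1 h
theorem NA.W1 (H : NA n L l s Z W) : 1 ≤ W := (one_le_pow₀ H.L1).trans H.hLW
theorem NA.Z1 (H : NA n L l s Z W) : 1 ≤ Z := (one_le_pow₀ H.W1).trans H.hWZ
theorem NA.WZ (H : NA n L l s Z W) : W ≤ Z :=
  (le_self_pow₀ H.W1 (by norm_num)).trans H.hWZ
theorem NA.Zs (H : NA n L l s Z W) : Z ≤ s :=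
  (le_self_pow₀ H.Z1 (by norm_num)).trans H.hZs
theorem NA.LW (H : NA n L l s Z W) {a : ℕ} (h : a ≤ 100) : L ^ a ≤ W := (H.powL h).trans H.hLW
theorem NA.LZ (H : NA n L l s Z W) {a : ℕ} (h : a ≤ 100) : L ^ a ≤ Z := (H.LW h).trans H.WZ
theorem NA.Ls (H : NA n L l s Z W) {a : ℕ} (h : a ≤ 100) : L ^ a ≤ s := (H.LZ h).trans H.Zs
theorem NA.sn (H : NA n L l s Z W) : s ≤ n := by
  have h1 : 1 ≤ s := H.Z1.trans H.Zs
  rw [← H.hs]; exact le_self_pow₀ h1 (by norm_num)

theorem gbA_eq (H : NA n L l s Z W) : gbA n = 1 / L ^ 3 := by unfold gbA; rw [H.hL]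
theorem smaxA_eq (H : NA n L l s Z W) : smaxA n = 16 * L ^ 7 := by
  unfold smaxA; rw [gbA_eq H, H.hL]
  have := H.L0
  field_simp
theorem vminA_eq (H : NA n L l s Z W) : vminA n = n / (6 * L ^ 3) := by
  unfold vminA; rw [gbA_eq H]
  have := H.L0
  field_simp
theorem ΔA_eq (H : NA n L l s Z W) : ΔA n = L ^ 12 := by unfold ΔA; rw [H.hL]
theorem AA_eq (H : NA n L l s Z W) : AA n = L ^ 20 := by unfold AA; rw [H.hL]
theorem dA_eq (H : NA n L l s Z W) : dA n = L ^ 5 := by unfold dA; rw [H.hL]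
theorem zA_eq (H : NA n L l s Z W) : zA n = 1 / L ^ 5 := by unfold zA; rw [H.hL]

theorem s0_pos (H : NA n L l s Z W) : 1 ≤ s0A n := by
  unfold s0A
  rw [gbA_eq H]
  apply Nat.le_floor
  have h0 := H.L0
  have h6 := H.hL6
  have e : 1 / (6400 * (1 / L ^ 3) ^ 2) = L ^ 6 / 6400 := by field_simp
  rw [e]
  push_cast
  rw [le_div_iff₀ (by norm_num)]
  have : L ^ 1 ≤ L ^ 6 := H.powL (by norm_num)
  rw [pow_one] at this
  linarith

/-- the constant of the blocks -/
def Cc (n : ℕ) : ℝ := 2 * smaxA n + 12 * ΔA n * (ΔA n * smaxA n + 1 / Real.exp (-1))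

theorem Cc_pos (H : NA n L l s Z W) : 0 < Cc n := by
  have h0 := H.L0
  unfold Cc
  rw [smaxA_eq H, ΔA_eq H]
  positivity

theorem Cc_le (H : NA n L l s Z W) : Cc n ≤ L ^ 33 := by
  have h0 := H.L0
  have h6 := H.hL6
  unfold Cc
  rw [smaxA_eq H, ΔA_eq H, Real.exp_neg, one_div, inv_inv]
  have he := Real.exp_one_lt_d9
  have e1 : L ^ 7 ≤ L ^ 31 := H.powL (by norm_num)
  have e2 : L ^ 12 ≤ L ^ 31 := H.powL (by norm_num)
  have e3 : 12 * L ^ 12 * (L ^ 12 * (16 * L ^ 7) + Real.exp 1) =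
      192 * L ^ 31 + 12 * L ^ 12 * Real.exp 1 := by ring
  rw [e3]
  have e4 : 12 * L ^ 12 * Real.exp 1 ≤ 12 * L ^ 12 * 3 :=
    mul_le_mul_of_nonneg_left (by linarith) (by positivity)
  have e5 : 1000 * L ^ 31 ≤ L ^ 33 := by
    have : L ^ 33 = L ^ 31 * L ^ 2 := by ring
    rw [this, mul_comm]
    apply mul_le_mul_of_nonneg_left _ (by positivity)
    nlinarith
  have e6 : 0 < L ^ 31 := by positivity
  linarith

theorem wA_pos (n : ℕ) (y u : ℝ) : 0 < wA n y u := Real.exp_pos _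

theorem inv_wA (n : ℕ) (y u : ℝ) : 1 / wA n y u = Real.exp (y * (n * u - 1)) := by
  unfold wA
  rw [Real.exp_neg, one_div, inv_inv]

theorem le_gA {n : ℕ} (hn : (0 : ℝ) < n) {y : ℝ} (hy : 0 < y) (i : ℤ) (u : ℝ) :
    u ≤ gA n y i ↔ y * (n * u - 1) ≤ i := by
  unfold gA
  rw [le_div_iff₀ hn]
  constructor
  · intro h
    have h2 : n * u - 1 ≤ i / y := by linarith
    rw [le_div_iff₀ hy] at h2
    linarith
  · intro h
    have h2 : n * u - 1 ≤ i / y := by
      rw [le_div_iff₀ hy]; linarith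
    linarith

theorem gA_mono {n : ℕ} (hn : (0 : ℝ) < n) {y : ℝ} (hy : 0 < y) : Monotone (gA n y) := by
  intro i j hij
  unfold gA
  apply div_le_div_of_nonneg_right _ hn.le
  have : (i : ℝ) ≤ j := by exact_mod_cast hij
  have := div_le_div_of_nonneg_right this hy.le
  linarith

/-- the number of edges of a path in a cluster -/
theorem path_len {U : Ev n} {p : ℝ} (t : ℕ) (x : ℕ → Fin n) (hx : Set.InjOn x (Set.Iic t))
    (h : ∀ j < t, U s(x j, x (j + 1)) ≤ p) : t + 1 ≤ (cmp (GU U p) (x 0)).card := by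
  classical
  have hr : ∀ j, j ≤ t → (GU U p).Reachable (x 0) (x j) := by
    intro j
    induction j with
    | zero => intro _; exact SimpleGraph.Reachable.refl _
    | succ j ih =>
      intro hj
      refine (ih (by omega)).trans (SimpleGraph.Adj.reachable (GU_adj.2 ⟨h j (by omega), ?_⟩))
      intro he
      have := hx (by simp; omega) (by simp; omega) he
      omega
  have h1 : (range (t + 1)).image x ⊆ cmp (GU U p) (x 0) := by
    intro v hv
    rw [Finset.mem_image] at hv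
    obtain ⟨j, hj, rfl⟩ := hv
    rw [Finset.mem_range] at hj
    exact Marks.mem_cmp.2 (hr j (by omega))
  have h2 : ((range (t + 1)).image x).card = t + 1 := by
    rw [Finset.card_image_of_injOn, Finset.card_range]
    intro a ha b hb hab
    apply hx _ _ hab
    · simp at ha ⊢; omega
    · simp at hb ⊢; omega
  rw [← h2]
  exact Finset.card_le_card h1


/-- the blocks -/
theorem blk (H : NA n L l s Z W) {y : ℝ} (hy0 : 0 < y) {U : Ev n} (hG : GdA n y U) :
    ∃ E : BlkEnv (Fin n), E.κ = (fun e => wA n y (U e)) ∧ E.Hb = GU U (pbA n) ∧ E.s0 = s0A n ∧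
      E.M = marks 0 (pbA n) 1 (s0A n) U ∧ E.C = Cc n ∧ E.ρb = smaxA n ∧
      E.cn = Real.exp (-1) ∧ E.smax = smaxA n := by
  have hn := H.npos
  have h0 := H.L0
  have hgb0 : 0 < gbA n := by rw [gbA_eq H]; positivity
  have hM1 : vminA n ≤ (marks 0 (pbA n) 1 (s0A n) U).card := hG.hvmin
  have hv : 2 * smaxA n ≤ vminA n := by
    rw [smaxA_eq H, vminA_eq H, le_div_iff₀ (by positivity)]
    have h1 : L ^ 11 ≤ s := H.Ls (by norm_num)
    have h2 := H.sn
    have h6 := H.hL6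
    have h3 : 192 * L ^ 10 ≤ L ^ 11 := by
      have : L ^ 11 = L ^ 10 * L := by ring
      rw [this, mul_comm]
      exact mul_le_mul_of_nonneg_left (by linarith) (by positivity)
    have e : 2 * (16 * L ^ 7) * (6 * L ^ 3) = 192 * L ^ 10 := by ring
    linarith
  have hvpos : 0 < vminA n := by rw [vminA_eq H]; positivity
  have hM0 : 0 < (marks 0 (pbA n) 1 (s0A n) U).card := by
    have : (0 : ℝ) < (marks 0 (pbA n) 1 (s0A n) U).card := hvpos.trans_le hM1
    exact_mod_cast this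
  have hnpb : n * pbA n = 1 - gbA n := by
    unfold pbA
    field_simp
  have hρ : 0 < smaxA n := by rw [smaxA_eq H]; positivity
  obtain ⟨E, e1, e2, e3, e4, e5, e6, e7, e8⟩ := mk_blk (U := U)
    (κ := fun e => wA n y (U e)) (fun e => wA_pos n y _) (pl := 0) (pb := pbA n)
    (pn := gA n y 1) (smax := smaxA n) (ρb := smaxA n) (cn := Real.exp (-1)) (Δ := ΔA n)
    (s1 := 1) (s0 := s0A n)
    (by
      rw [le_gA hn hy0, hnpb]
      have : 0 ≤ y * gbA n := mul_nonneg hy0.le hgb0.le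
      push_cast
      linarith)
    (s0_pos H) hρ (Real.exp_pos _)
    (by rw [ΔA_eq H]; positivity)
    (by
      intro e
      rw [le_gA hn hy0]
      unfold wA
      rw [Real.exp_le_exp]
      push_cast
      constructor <;> intro h <;> linarith)
    hG.hsm hG.iso hG.rob hG.deg
    (by
      intro t x hx h
      have h1 : ∑ j ∈ range t, 1 / wA n y (U s(x j, x (j + 1))) ≤ ∑ _j ∈ range t, (1 : ℝ) := by
        apply Finset.sum_le_sum
        intro j hj
        rw [inv_wA]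
        apply Real.exp_le_one_iff.2
        have h2 := h j (Finset.mem_range.1 hj)
        have h3 : n * U s(x j, x (j + 1)) ≤ n * pbA n := mul_le_mul_of_nonneg_left h2 hn.le
        rw [hnpb] at h3
        have h4 : n * U s(x j, x (j + 1)) - 1 ≤ 0 := by linarith
        exact mul_nonpos_of_nonneg_of_nonpos hy0.le h4
      rw [Finset.sum_const, Finset.card_range, nsmul_eq_mul, mul_one] at h1
      have h5 := path_len t x hx h
      have h6 : ((t + 1 : ℕ) : ℝ) ≤ ((cmp (GU U (pbA n)) (x 0)).card : ℝ) := by exact_mod_cast h5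
      push_cast at h6
      have h7 := hG.hsm (x 0)
      linarith)
    (hv.trans hM1) hM0
  exact ⟨E, e1, e2, e3, e4, e5, e6, e7, e8⟩

theorem lnk (H : NA n L l s Z W) {y : ℝ} (hy0 : 0 < y) {U : Ev n} (hG : GdA n y U)
    {E : BlkEnv (Fin n)} (e1 : E.κ = fun e => wA n y (U e)) (e2 : E.Hb = GU U (pbA n))
    (e3 : E.s0 = s0A n) (e4 : E.M = marks 0 (pbA n) 1 (s0A n) U) :
    Lnk (spA n y) U E 0 (pbA n) 1 (JA n) 0 := by
  have hn := H.npos
  have h0 := H.L0
  refine mk_lnk (spA n y) (w := wA n y) (wA_pos n y) U E (gA_mono hn hy0) H.hJ1 le_rfl ?_ ?_ ?_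
    e1 e2 ?_ ?_ ?_ ?_ zero_le_one ?_
  · unfold pbA
    apply div_nonneg _ hn.le
    rw [gbA_eq H, sub_nonneg, div_le_one (by positivity)]
    exact one_le_pow₀ H.L1
  · show 0 ≤ gA n y 0
    unfold gA
    push_cast
    rw [zero_div]
    positivity
  · intro j v F
    rw [e3]
    rfl
  · rw [e3]; exact e4
  · intro i _ u hu
    rw [inv_wA, Real.exp_le_exp]
    exact (le_gA hn hy0 i u).1 hu
  · intro i _ _ u hu
    rw [inv_wA, Real.exp_le_exp]
    have h1 : ¬ u ≤ gA n y i := not_le.2 hu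
    rw [le_gA hn hy0] at h1
    exact (not_le.1 h1).le
  · intro t x _ h
    rcases Nat.eq_zero_or_pos t with rfl | ht
    · simp
    · exact absurd (h 0 ht) (not_le.2 (hG.pos _))
  · show 1 ≤ lamA n
    unfold lamA
    rw [H.hL, H.hl]
    linarith [H.hl1]

/-- the capacity bound -/
theorem capl (H : NA n L l s Z W) {y : ℝ} (hy0 : 0 < y) (hyl : y ≤ l) {U : Ev n}
    (hG : GdA n y U) {E : BlkEnv (Fin n)} (e1 : E.κ = fun e => wA n y (U e))
    (e4 : E.M = marks 0 (pbA n) 1 (s0A n) U) {k1 : ℝ} (hk1 : 0 < k1) (hks : k1 * smaxA n ≤ 1)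
    (v : Fin n) : 1 / (3 * AA n + 2) ≤ grn (E.net k1 hk1) ∅ v v := by
  have hn := H.npos
  have h0 := H.L0
  have hgb0 : 0 < gbA n := by rw [gbA_eq H]; positivity
  have hnpb : n * pbA n = 1 - gbA n := by
    unfold pbA
    field_simp
  refine cap_le (by have := H.hn; omega) U (E.net k1 hk1) (pl := 0) (pb := pbA n)
    (pt := gA n y (IA n)) (smax := smaxA n) (A := AA n) (k := k1) (s1 := 1) (s0 := s0A n)
    (sa := 1) ?_ ?_ le_rfl ?_ ?_ hk1.le ?_ ?_ hG.hsm hks hG.arm v
  · unfold pbA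
    apply div_nonneg _ hn.le
    rw [gbA_eq H, sub_nonneg, div_le_one (by positivity)]
    exact one_le_pow₀ H.L1
  · rw [le_gA hn hy0, hnpb]
    have : 0 ≤ y * gbA n := mul_nonneg hy0.le hgb0.le
    have h2 : (0 : ℝ) ≤ ((IA n : ℤ) : ℝ) := by positivity
    linarith
  · intro x hx
    show (if x ∈ E.M then k1 else 0) = 0
    rw [if_neg (by rw [e4]; exact hx)]
  · intro x
    show (if x ∈ E.M then k1 else 0) ≤ k1
    split_ifs
    · exact le_rfl
    · exact hk1.le
  · intro e he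
    show E.κ e ≤ 3
    rw [e1]
    show wA n y (U e) ≤ 3
    unfold wA
    have h1 : n * pbA n ≤ n * U e := mul_le_mul_of_nonneg_left he.le hn.le
    rw [hnpb] at h1
    have h2 : -(y * (n * U e - 1)) ≤ y * gbA n := by
      have : y * (-gbA n) ≤ y * (n * U e - 1) := mul_le_mul_of_nonneg_left (by linarith) hy0.le
      linarith
    have h3 : y * gbA n ≤ 1 := by
      rw [gbA_eq H]
      have h4 : y ≤ L ^ 3 := by
        have h5 := H.hlL
        have h6 : L ^ 1 ≤ L ^ 3 := H.powL (by norm_num)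
        rw [pow_one] at h6
        have := H.hl1
        linarith
      rw [mul_one_div, div_le_one (by positivity)]
      exact h4
    have h4 : Real.exp (-(y * (n * U e - 1))) ≤ Real.exp 1 := Real.exp_le_exp.2 (h2.trans h3)
    have h5 := Real.exp_one_lt_d9
    linarith
  · intro e he
    show E.κ e ≤ 1 / (n : ℝ) ^ 2
    rw [e1]
    show wA n y (U e) ≤ 1 / (n : ℝ) ^ 2
    unfold wA
    have h1 : ¬ U e ≤ gA n y (IA n) := not_le.2 he
    rw [le_gA hn hy0] at h1
    push Not at h1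
    have h2 : 2 * L ≤ ((IA n : ℤ) : ℝ) := by
      have h3 : Real.log n ^ 2 ≤ (IA n : ℝ) := Nat.le_ceil _
      rw [H.hL] at h3
      have h6 := H.hL6
      have : ((IA n : ℤ) : ℝ) = (IA n : ℝ) := by push_cast; rfl
      rw [this]
      nlinarith
    have h3 : Real.exp (-(y * (n * U e - 1))) ≤ Real.exp (-(2 * L)) :=
      Real.exp_le_exp.2 (by linarith)
    refine h3.trans (le_of_eq ?_)
    rw [Real.exp_neg, one_div]
    congr 1
    rw [← H.hL, mul_comm, Real.exp_mul, Real.exp_log hn]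
    norm_num


/-- the killing rates -/
def k0A (n : ℕ) : ℝ := 1 / (160 * (Cc n + smaxA n) * n)

theorem k0_pos (H : NA n L l s Z W) : 0 < k0A n := by
  have hn := H.npos
  have h0 := H.L0
  have h1 := Cc_pos H
  have hρ : 0 < smaxA n := by rw [smaxA_eq H]; positivity
  unfold k0A
  positivity

theorem Cr_le (H : NA n L l s Z W) : Cc n + smaxA n ≤ 2 * L ^ 33 := by
  have h1 := Cc_le H
  have h0 := H.L0
  rw [smaxA_eq H]
  have h6 := H.hL6
  have h2 : 16 * L ^ 7 ≤ L ^ 8 := by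
    have : L ^ 8 = L ^ 7 * L := by ring
    rw [this, mul_comm]
    exact mul_le_mul_of_nonneg_left (by linarith) (by positivity)
  have h3 : L ^ 8 ≤ L ^ 33 := H.powL (by norm_num)
  linarith

/-- the root condition -/
theorem rootA (H : NA n L l s Z W) {M : ℝ} (hM : M ≤ n) :
    k0A n * M * (160 * (Cc n + smaxA n)) ≤ 1 := by
  have hn := H.npos
  have h0 := H.L0
  have h1 := Cc_pos H
  have hρ : 0 < smaxA n := by rw [smaxA_eq H]; positivity
  have e : k0A n * n * (160 * (Cc n + smaxA n)) = 1 := by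
    unfold k0A
    field_simp
  calc k0A n * M * (160 * (Cc n + smaxA n)) ≤ k0A n * n * (160 * (Cc n + smaxA n)) := by
        apply mul_le_mul_of_nonneg_right _ (by positivity)
        exact mul_le_mul_of_nonneg_left hM (k0_pos H).le
    _ = 1 := e

/-- the inverse of the total killing -/
theorem k0M (H : NA n L l s Z W) {M : ℝ} (hM : n / (6 * L ^ 3) ≤ M) :
    1 / (k0A n * M) ≤ 1920 * L ^ 36 := by
  have hn := H.npos
  have h0 := H.L0
  have h1 := Cc_pos H
  have hρ : 0 < smaxA n := by rw [smaxA_eq H]; positivity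
  have h2 := Cr_le H
  have hM0 : 0 < M := lt_of_lt_of_le (by positivity) hM
  have h3 : k0A n * (n / (6 * L ^ 3)) ≤ k0A n * M := mul_le_mul_of_nonneg_left hM (k0_pos H).le
  have h4 : 0 < k0A n * (n / (6 * L ^ 3)) := mul_pos (k0_pos H) (by positivity)
  have h5 : 1 / (k0A n * M) ≤ 1 / (k0A n * (n / (6 * L ^ 3))) := one_div_le_one_div_of_le h4 h3
  have e : 1 / (k0A n * (n / (6 * L ^ 3))) = 960 * L ^ 3 * (Cc n + smaxA n) := by
    unfold k0A
    field_simp
    ring
  rw [e] at h5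
  have h6 : 960 * L ^ 3 * (Cc n + smaxA n) ≤ 960 * L ^ 3 * (2 * L ^ 33) :=
    mul_le_mul_of_nonneg_left h2 (by positivity)
  have e2 : 960 * L ^ 3 * (2 * L ^ 33) = 1920 * L ^ 36 := by ring
  linarith

/-- the number of attachments -/
def N0A (n m : ℕ) : ℕ := ⌊(m : ℝ) / (20 * Real.log (Real.log n))⌋₊

theorem N0_spec (H : NA n L l s Z W) {m : ℕ} (hm : s * Z ^ 4 ≤ m) :
    s * Z ^ 4 / (40 * L) ≤ N0A n m ∧ (N0A n m : ℝ) * (20 * l) ≤ m ∧ 1 ≤ N0A n m := by
  have h0 := H.L0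
  have h6 := H.hL6
  have hl1 := H.hl1
  have hlL := H.hlL
  have hs0 := H.hs0
  have hZ1 := H.Z1
  have hb : (m : ℝ) / (20 * l) < N0A n m + 1 := by
    unfold N0A
    rw [H.hL, H.hl]
    exact Nat.lt_floor_add_one _
  have hb2 : (N0A n m : ℝ) ≤ (m : ℝ) / (20 * l) := by
    unfold N0A
    rw [H.hL, H.hl]
    exact Nat.floor_le (by positivity)
  have hsL : 40 * L ≤ s := by
    have h1 : L ^ 2 ≤ s := H.Ls (by norm_num)
    nlinarith
  have hmL : 40 * L ≤ m := by
    have : s * 1 ≤ s * Z ^ 4 := mul_le_mul_of_nonneg_left (one_le_pow₀ hZ1) hs0.le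
    linarith
  have hlow : (m : ℝ) / (40 * L) ≤ N0A n m := by
    have h1 : 1 ≤ (m : ℝ) / (40 * l) := by
      rw [le_div_iff₀ (by positivity)]
      nlinarith
    have h2 : (m : ℝ) / (20 * l) = (m : ℝ) / (40 * l) + (m : ℝ) / (40 * l) := by
      field_simp
      ring
    have h3 : (m : ℝ) / (40 * L) ≤ (m : ℝ) / (40 * l) := by
      apply div_le_div_of_nonneg_left (Nat.cast_nonneg _) (by positivity)
      nlinarith
    linarith
  refine ⟨?_, ?_, ?_⟩
  · refine le_trans ?_ hlow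
    exact div_le_div_of_nonneg_right hm (by positivity)
  · rw [le_div_iff₀ (by positivity)] at hb2
    exact hb2
  · have h1 : 1 ≤ (m : ℝ) / (40 * L) := by
      rw [le_div_iff₀ (by positivity)]
      linarith
    have h2 : (1 : ℝ) ≤ N0A n m := h1.trans hlow
    exact_mod_cast h2

theorem ten_log {m : ℕ} (H : NA n L l s Z W) (hm : s * Z ^ 4 ≤ m) : 12 * L ≤ m := by
  have h0 := H.L0
  have h6 := H.hL6
  have hs0 := H.hs0
  have hZ1 := H.Z1
  have hsL : 40 * L ≤ s := by
    have h1 : L ^ 2 ≤ s := H.Ls (by norm_num)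
    nlinarith
  have : s * 1 ≤ s * Z ^ 4 := mul_le_mul_of_nonneg_left (one_le_pow₀ hZ1) hs0.le
  linarith

/-- long paths are rare -/
theorem longA (H : NA n L l s Z W) {y : ℝ} (hy0 : 0 < y) (hyl : y ≤ l) {U : Ev n}
    (hG : GdA n y U) {E : BlkEnv (Fin n)} (e1 : E.κ = fun e => wA n y (U e))
    (e2 : E.Hb = GU U (pbA n)) (e3 : E.s0 = s0A n)
    (e4 : E.M = marks 0 (pbA n) 1 (s0A n) U) (e5 : E.C = Cc n) (e6 : E.ρb = smaxA n)
    (e7 : E.cn = Real.exp (-1)) (e8 : E.smax = smaxA n) {m : ℕ} (hm : s * Z ^ 4 ≤ m)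
    (hS : SSA n y m U ≤ Real.exp (-(m / 2 : ℝ))) {k : ℕ} (hk : 2 * L ≤ k) :
    ∑ x, longQ (fun u v => U s(u, v) ≤ gA n y (IA n)) (E.net (k0A n) (k0_pos H)) (m + k * m) x ≤
      6 / n := by
  have hn := H.npos
  have h0 := H.L0
  have h6 := H.hL6
  have hl1 := H.hl1
  have hs0 := H.hs0
  have hZ1 := H.Z1
  have hZ0 : 0 < Z := by linarith
  have hW1 := H.W1
  have hCc := Cc_pos H
  have hCle := Cc_le H
  have hCr := Cr_le H
  have hρ : 0 < smaxA n := by rw [smaxA_eq H]; positivity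
  have hk1 : 0 < 1 / (s * Z) := by positivity
  obtain ⟨N1, N2, N3⟩ := N0_spec H hm
  have hM1 : n / (6 * L ^ 3) ≤ (E.M.card : ℝ) := by
    rw [e4, ← vminA_eq H]; exact hG.hvmin
  have hM2 : (E.M.card : ℝ) ≤ n := by
    have := Finset.card_le_univ E.M
    rw [Fintype.card_fin] at this
    exact_mod_cast this
  have hMpos : (0 : ℝ) < E.M.card := lt_of_lt_of_le (by positivity) hM1
  have hks : 1 / (s * Z) * smaxA n ≤ 1 := by
    rw [one_div, inv_mul_eq_div, div_le_one (by positivity), smaxA_eq H]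
    have h1 : L ^ 8 ≤ s := H.Ls (by norm_num)
    have h2 : 16 * L ^ 7 ≤ L ^ 8 := by
      have : L ^ 8 = L ^ 7 * L := by ring
      rw [this, mul_comm]
      exact mul_le_mul_of_nonneg_left (by linarith) (by positivity)
    have h3 : s * 1 ≤ s * Z := mul_le_mul_of_nonneg_left hZ1 hs0.le
    linarith
  have hk01 : k0A n ≤ 1 / (s * Z) := by
    unfold k0A
    apply one_div_le_one_div_of_le (by positivity)
    have h1 : 1 ≤ Cc n + smaxA n := by
      rw [smaxA_eq H]
      have : 1 ≤ L ^ 7 := one_le_pow₀ H.L1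
      linarith
    have h2 : s * Z ≤ n := by
      have h3 : s * Z ≤ s * s := mul_le_mul_of_nonneg_left H.Zs hs0.le
      have h4 := H.hs
      nlinarith
    have h3 : 1 * (n : ℝ) ≤ 160 * (Cc n + smaxA n) * n := by
      apply mul_le_mul_of_nonneg_right _ hn.le
      linarith
    linarith
  have ha : 0 < 3 * AA n + 2 := by rw [AA_eq H]; positivity
  have hk1n : 1 / (s * Z) * n = s / Z := by
    rw [← H.hs]
    field_simp
  have hk1M : 1 / (s * Z) * E.M.card ≤ s / Z := by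
    rw [← hk1n]
    exact mul_le_mul_of_nonneg_left hM2 hk1.le
  have hLW2 : L ^ 3 * W ≤ Z := by
    have h1 : L ^ 3 ≤ W := H.LW (by norm_num)
    have h2 : L ^ 3 * W ≤ W * W := mul_le_mul_of_nonneg_right h1 (by linarith)
    have h3 : W * W ≤ W ^ 4 := by
      have : W * W = W ^ 2 := by ring
      rw [this]
      exact pow_le_pow_right₀ hW1 (by norm_num)
    exact h2.trans (h3.trans H.hWZ)
  have hlog : (1 / zA n) ^ N0A n m * Real.exp (-(m / 2 : ℝ)) ≤ Real.exp (-(m / 4 : ℝ)) := by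
    rw [zA_eq H]
    have e : (1 / (1 / L ^ 5)) = Real.exp (5 * l) := by
      rw [← H.hl, one_div_one_div, mul_comm, Real.exp_mul, Real.exp_log h0]
      norm_num
    rw [e, ← Real.exp_nat_mul, ← Real.exp_add]
    apply Real.exp_le_exp.2
    nlinarith
  have hlong := long_le_z (spA n y) U E (lnk H hy0 hG e1 e2 e3 e4) (k0_pos H) hk1 hk01
    (a := 3 * AA n + 2) (r := L ^ 40) ha (capl H hy0 hyl hG e1 e4 hk1 hks) (by norm_num)
    ?_ ?_ (z := zA n) ?_ ?_ (N0A n m) N3 ?_ ?_ ?_ m ?_ (Φ := 1 / (s * Z) * N0A n m * (1 : ℕ) /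
      (8 * (3 * AA n + 2) * ((1 + (3 * AA n + 2) * Real.exp (spA n y).lam) ^ JA n *
      Real.exp ((3 * AA n + 2) * ((JA n + 1) * 0))) ^ 2)) (S := Real.exp (-(m / 2 : ℝ)))
      le_rfl hS k
  · refine hlong.trans ?_
    set X := (1 / zA n) ^ N0A n m * Real.exp (-(m / 2 : ℝ)) with hX
    have hX3 : X ≤ 1 / (n : ℝ) ^ 3 := by
      refine hlog.trans ?_
      have h1 : Real.exp (-(m / 4 : ℝ)) ≤ Real.exp (-(3 * L)) := by
        apply Real.exp_le_exp.2
        have := ten_log H hm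
        linarith
      refine h1.trans (le_of_eq ?_)
      rw [Real.exp_neg, one_div]
      congr 1
      rw [← H.hL, mul_comm, Real.exp_mul, Real.exp_log hn]
      norm_num
    have e20 : (20 : ℝ) ^ N0A n m * (X / 20 ^ N0A n m) = X := by
      field_simp
    have := Det.fin_le (n := n) (L := L) (sb := X / 20 ^ N0A n m)
      (Φ := 1 / (s * Z) * N0A n m * (1 : ℕ) /
      (8 * (3 * AA n + 2) * ((1 + (3 * AA n + 2) * Real.exp (spA n y).lam) ^ JA n *
      Real.exp ((3 * AA n + 2) * ((JA n + 1) * 0))) ^ 2)) (N₀ := N0A n m) (k := k) H.hn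
      H.hL.symm ?_ (by rw [e20]; exact hX3) hk
    · rw [e20] at this
      exact this
    · -- the killing
      have e9 : Real.exp (spA n y).lam = W := H.hWe
      rw [e9, mul_zero, mul_zero, Real.exp_zero, mul_one, AA_eq H, Nat.cast_one, mul_one]
      have hP := H.hPZ
      set PP := ((1 + (3 * L ^ 20 + 2) * W) ^ JA n) ^ 2 with hPP
      have hPP0 : 0 < PP := by positivity
      rw [le_div_iff₀ (by positivity)]
      have h1 : 1 / (s * Z) * (s * Z ^ 4 / (40 * L)) ≤ 1 / (s * Z) * N0A n m :=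
        mul_le_mul_of_nonneg_left N1 hk1.le
      have h2 : 1 / (s * Z) * (s * Z ^ 4 / (40 * L)) = Z ^ 3 / (40 * L) := by
        field_simp
      rw [h2] at h1
      refine le_trans ?_ h1
      rw [le_div_iff₀ (by positivity)]
      have h3 : 8 * (3 * L ^ 20 + 2) * PP ≤ 8 * (3 * L ^ 20 + 2) * Z :=
        mul_le_mul_of_nonneg_left hP (by positivity)
      have h4 : 4 * L * (8 * (3 * L ^ 20 + 2) * PP) * (40 * L) ≤
          4 * L * (8 * (3 * L ^ 20 + 2) * Z) * (40 * L) := by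
        apply mul_le_mul_of_nonneg_right _ (by positivity)
        exact mul_le_mul_of_nonneg_left h3 (by positivity)
      refine h4.trans ?_
      have h5 : 4 * L * (8 * (3 * L ^ 20 + 2) * Z) * (40 * L) =
          (3840 * L ^ 22 + 2560 * L ^ 2) * Z := by ring
      rw [h5]
      have h6' : L ^ 2 ≤ L ^ 22 := H.powL (by norm_num)
      have h7 : 6400 * L ^ 22 ≤ L ^ 23 := by
        have : L ^ 23 = L ^ 22 * L := by ring
        rw [this, mul_comm]
        exact mul_le_mul_of_nonneg_left (by linarith) (by positivity)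
      have h8 : L ^ 23 ≤ Z := H.LZ (by norm_num)
      have h9 : 3840 * L ^ 22 + 2560 * L ^ 2 ≤ Z := by linarith
      calc (3840 * L ^ 22 + 2560 * L ^ 2) * Z ≤ Z * Z := mul_le_mul_of_nonneg_right h9 hZ0.le
        _ = Z ^ 2 := by ring
        _ ≤ Z ^ 3 := pow_le_pow_right₀ hZ1 (by norm_num)
  · rw [e5, e6, e7, Real.exp_neg, one_div, inv_inv]
    have he := Real.exp_one_lt_d9
    have h1 := k0M H hM1
    have h2 : 4 / (k0A n * E.M.card) = 4 * (1 / (k0A n * E.M.card)) := by ring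
    rw [h2, smaxA_eq H] at *
    have h3 : L ^ 7 ≤ L ^ 36 := H.powL (by norm_num)
    have h4 : 1 ≤ L ^ 36 := one_le_pow₀ H.L1
    have h5 : L ^ 33 ≤ L ^ 36 := H.powL (by norm_num)
    have h7 : 10 ^ 6 * L ^ 36 ≤ L ^ 37 := by
      have : L ^ 37 = L * L ^ 36 := by ring
      rw [this]
      exact mul_le_mul_of_nonneg_right h6 (by positivity)
    have h8 : L ^ 37 ≤ L ^ 40 := H.powL (by norm_num)
    linarith
  · intro j
    show 2 * ((JA n : ℝ) * Real.exp j + (JA n + 1) * 0 + L ^ 40) ≤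
      Real.exp (max (j + bA n) (lamA n))
    have h1 : Real.exp (j + bA n) ≤ Real.exp (max (j + bA n) (lamA n)) :=
      Real.exp_le_exp.2 (le_max_left _ _)
    have h2 : Real.exp (lamA n) ≤ Real.exp (max (j + bA n) (lamA n)) :=
      Real.exp_le_exp.2 (le_max_right _ _)
    have h3 : Real.exp (j + bA n) = Real.exp j * (8 * (JA n + 1)) := by
      unfold bA
      rw [Real.exp_add, Real.exp_log (by positivity)]
    have h4 : 4 * L ^ 40 ≤ W := by
      have h5 : L ^ 41 ≤ W := H.LW (by norm_num)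
      have h7 : 10 ^ 6 * L ^ 40 ≤ L ^ 41 := by
        have : L ^ 41 = L * L ^ 40 := by ring
        rw [this]
        exact mul_le_mul_of_nonneg_right h6 (by positivity)
      have : 0 < L ^ 40 := by positivity
      linarith
    rw [H.hWe] at h2
    rw [h3] at h1
    have h9 : 0 < Real.exp (j : ℝ) := Real.exp_pos _
    have h10 : (0 : ℝ) ≤ JA n * Real.exp j := by positivity
    nlinarith
  · rw [zA_eq H]; positivity
  · rw [zA_eq H, div_le_one (by positivity)]
    exact one_le_pow₀ H.L1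
  · have h1 : 1 / (s * Z) * (n / (6 * L ^ 3)) ≤ 1 / (s * Z) * E.M.card :=
      mul_le_mul_of_nonneg_left hM1 hk1.le
    refine le_trans ?_ h1
    have e : 1 / (s * Z) * (n / (6 * L ^ 3)) = s / (Z * (6 * L ^ 3)) := by
      rw [← H.hs]
      field_simp
    rw [e, le_div_iff₀ (by positivity), one_mul]
    have h2 : 6 * L ^ 3 ≤ Z := by
      have h5 : L ^ 4 ≤ Z := H.LZ (by norm_num)
      have h7 : 10 ^ 6 * L ^ 3 ≤ L ^ 4 := by
        have : L ^ 4 = L * L ^ 3 := by ring
        rw [this]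
        exact mul_le_mul_of_nonneg_right h6 (by positivity)
      have : 0 < L ^ 3 := by positivity
      linarith
    calc Z * (6 * L ^ 3) ≤ Z * Z := mul_le_mul_of_nonneg_left h2 hZ0.le
      _ = Z ^ 2 := by ring
      _ ≤ Z ^ 10 := pow_le_pow_right₀ hZ1 (by norm_num)
      _ ≤ s := H.hZs
  · show 128 * (1 / (s * Z) * E.M.card) * (4 * (JA n + 2) * Real.exp (lamA n) +
      E.smax * E.C / (1 : ℕ)) ≤ N0A n m
    rw [H.hWe, e8, e5, Nat.cast_one, div_one]
    have hJ := H.hJ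
    have hb : 4 * ((JA n : ℝ) + 2) * W + smaxA n * Cc n ≤ 9 * L * W := by
      have h1 : 4 * ((JA n : ℝ) + 2) * W ≤ 4 * (L + 2) * W := by
        apply mul_le_mul_of_nonneg_right _ (by linarith)
        linarith
      have h2 : smaxA n * Cc n ≤ 16 * L ^ 40 := by
        rw [smaxA_eq H]
        have : 16 * L ^ 7 * Cc n ≤ 16 * L ^ 7 * L ^ 33 :=
          mul_le_mul_of_nonneg_left hCle (by positivity)
        have e : 16 * L ^ 7 * L ^ 33 = 16 * L ^ 40 := by ring
        linarith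
      have h3 : L ^ 40 ≤ W := H.LW (by norm_num)
      nlinarith
    have h1 : 128 * (1 / (s * Z) * E.M.card) * (4 * ((JA n : ℝ) + 2) * W + smaxA n * Cc n) ≤
        128 * (s / Z) * (9 * L * W) := by
      apply mul_le_mul _ hb (by positivity) (by positivity)
      exact mul_le_mul_of_nonneg_left hk1M (by norm_num)
    refine h1.trans (le_trans ?_ N1)
    rw [le_div_iff₀ (by positivity)]
    have e : 128 * (s / Z) * (9 * L * W) * (40 * L) = s * (46080 * L ^ 2 * W) / Z := by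
      field_simp
      ring
    rw [e, div_le_iff₀ hZ0]
    have h2 : 46080 * L ^ 2 * W ≤ Z := by
      have h3 : 46080 * L ^ 2 ≤ L ^ 3 := by
        have : L ^ 3 = L * L ^ 2 := by ring
        rw [this]
        exact mul_le_mul_of_nonneg_right (by linarith) (by positivity)
      have h4 : 46080 * L ^ 2 * W ≤ L ^ 3 * W := mul_le_mul_of_nonneg_right h3 (by linarith)
      linarith
    have h3 : Z ≤ Z ^ 4 * Z := by
      have : 1 * Z ≤ Z ^ 4 * Z := mul_le_mul_of_nonneg_right (one_le_pow₀ hZ1) hZ0.le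
      linarith
    calc s * (46080 * L ^ 2 * W) ≤ s * Z := mul_le_mul_of_nonneg_left h2 hs0.le
      _ ≤ s * (Z ^ 4 * Z) := mul_le_mul_of_nonneg_left h3 hs0.le
      _ = s * Z ^ 4 * Z := by ring
  · rw [e5, e6, e8]
    have h1 : 1 + 40 * (Cc n + smaxA n) ≤ 81 * L ^ 33 := by
      have : 1 ≤ L ^ 33 := one_le_pow₀ H.L1
      linarith
    have h2 : smaxA n * Cc n ≤ 16 * L ^ 40 := by
      rw [smaxA_eq H]
      have : 16 * L ^ 7 * Cc n ≤ 16 * L ^ 7 * L ^ 33 :=
        mul_le_mul_of_nonneg_left hCle (by positivity)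
      have e : 16 * L ^ 7 * L ^ 33 = 16 * L ^ 40 := by ring
      linarith
    have h3 : 512 * (1 / (s * Z)) * (1 / (s * Z) * E.M.card) ≤ 512 * (1 / (s * Z)) * (s / Z) :=
      mul_le_mul_of_nonneg_left hk1M (by positivity)
    have h4 : 512 * (1 / (s * Z)) * (s / Z) = 512 / Z ^ 2 := by field_simp
    rw [h4] at h3
    calc 512 * (1 / (s * Z)) * (1 / (s * Z) * E.M.card) * (1 + 40 * (Cc n + smaxA n)) *
          (smaxA n * Cc n) ≤ 512 / Z ^ 2 * (81 * L ^ 33) * (16 * L ^ 40) := by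
          apply mul_le_mul _ h2 (by positivity) (by positivity)
          exact mul_le_mul h3 h1 (by positivity) (by positivity)
      _ = 663552 * L ^ 73 / Z ^ 2 := by ring
      _ ≤ 1 := by
          rw [div_le_one (by positivity)]
          have h5 : L ^ 74 ≤ Z := H.LZ (by norm_num)
          have h7 : 10 ^ 6 * L ^ 73 ≤ L ^ 74 := by
            have : L ^ 74 = L * L ^ 73 := by ring
            rw [this]
            exact mul_le_mul_of_nonneg_right h6 (by positivity)
          have h8 : Z ≤ Z ^ 2 := le_self_pow₀ hZ1 (by norm_num)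
          have : 0 < L ^ 73 := by positivity
          linarith
  · have := ten_log H hm
    have h1 : (1 : ℝ) ≤ m := by linarith
    exact_mod_cast h1


/-- upper bound for the diameter -/
theorem upperA (H : NA n L l s Z W) {y : ℝ} (hy0 : 0 < y) (hyl : y ≤ l) {U : Ev n}
    (hG : GdA n y U) {m : ℕ} (hm : s * Z ^ 4 ≤ m)
    (hS : SSA n y m U ≤ Real.exp (-(m / 2 : ℝ))) {E : BlkEnv (Fin n)}
    (e1 : E.κ = fun e => wA n y (U e))
    (e2 : E.Hb = GU U (pbA n)) (e3 : E.s0 = s0A n)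
    (e4 : E.M = marks 0 (pbA n) 1 (s0A n) U) (e5 : E.C = Cc n) (e6 : E.ρb = smaxA n)
    (e7 : E.cn = Real.exp (-1)) (e8 : E.smax = smaxA n) :
    GG E.κ (fun T => ¬ ((T.diam : ℝ) ≤ m * L ^ 2)) ≤ 12 / n + 1 / (n : ℝ) ^ 2 := by
  classical
  have hn := H.npos
  haveI : Nonempty (Fin n) := ⟨⟨0, by have := H.hn; omega⟩⟩
  have h0 := H.L0
  have h6 := H.hL6
  have hl1 := H.hl1
  have hlL := H.hlL
  obtain ⟨k, hkdef⟩ : ∃ k : ℕ, k = ⌈2 * L⌉₊ := ⟨_, rfl⟩
  have hk : 2 * L ≤ k := by rw [hkdef]; exact Nat.le_ceil _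
  have hk' : (k : ℝ) < 2 * L + 1 := by rw [hkdef]; exact Nat.ceil_lt_add_one (by positivity)
  obtain ⟨l', hl'⟩ : ∃ l' : ℕ, l' = m + k * m := ⟨_, rfl⟩
  have hlong := longA H hy0 hyl hG e1 e2 e3 e4 e5 e6 e7 e8 hm hS hk
  rw [← hl'] at hlong
  obtain ⟨p, hp⟩ : ∃ p : ℝ, p = Pool.Agent.W842.RST.lev n (5 * Real.log n) := ⟨_, rfl⟩
  have hnp : n * p = 1 + 5 * L := by
    rw [hp, H.hL]
    unfold Pool.Agent.W842.RST.lev
    field_simp
  have hIA : L ^ 2 ≤ (IA n : ℝ) := by
    have h3 : Real.log n ^ 2 ≤ (IA n : ℝ) := Nat.le_ceil _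
    rwa [H.hL] at h3
  have hIc : ((IA n : ℤ) : ℝ) = (IA n : ℝ) := by push_cast; rfl
  have hyp : y * (n * p - 1) ≤ L ^ 2 / 2 := by
    rw [hnp]
    have h1 : y * (5 * L) ≤ l * (5 * L) := mul_le_mul_of_nonneg_right hyl (by positivity)
    have h2 : l * (5 * L) ≤ L ^ 2 / 2 := by nlinarith
    have e : y * (1 + 5 * L - 1) = y * (5 * L) := by ring
    rw [e]; linarith
  have hpp : p ≤ gA n y (IA n) := by
    rw [le_gA hn hy0, hIc]
    have : 0 ≤ L ^ 2 := by positivity
    linarith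
  have hbadG : GG E.κ (fun T => ¬ Good U p (gA n y (IA n)) T) ≤
      (n : ℝ) ^ 4 * Real.exp (-(6 * L)) := by
    refine GG_bad_le E.κ_pos U hpp (Real.exp_pos _).le ?_
    intro e f he hf
    rw [e1]
    show wA n y (U f) ≤ Real.exp (-(6 * L)) * wA n y (U e)
    unfold wA
    rw [← Real.exp_add]
    apply Real.exp_le_exp.2
    have h1 : ¬ U f ≤ gA n y (IA n) := not_le.2 hf
    rw [le_gA hn hy0, hIc] at h1
    push Not at h1
    have h2 : n * U e ≤ n * p := mul_le_mul_of_nonneg_left he hn.le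
    have h3 : y * (n * U e - 1) ≤ y * (n * p - 1) :=
      mul_le_mul_of_nonneg_left (by linarith) hy0.le
    have h4 : 12 * L ≤ L ^ 2 := by nlinarith
    linarith
  have hM2 : (E.M.card : ℝ) ≤ n := by
    have := Finset.card_le_univ E.M
    rw [Fintype.card_fin] at this
    exact_mod_cast this
  have hroot : k0A n * E.M.card * (160 * (E.C + E.ρb)) ≤ 1 := by
    rw [e5, e6]; exact rootA H hM2
  have hconn := hG.conn
  rw [← hp] at hconn
  have hbadA : GG E.κ (fun T => Red.Bad U E.M p (gA n y (IA n)) l' T) ≤ 2 * (6 / n) := by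
    have h1 := tree_long (E.net (k0A n) (k0_pos H)) (E.roots (k0_pos H) hroot)
      (fun u v => U s(u, v) ≤ gA n y (IA n)) l'
      (fun T => Red.Bad U E.M p (gA n y (IA n)) l' T) (by
        intro T hT hA ρ' hρ'
        exact Red.bad_long hT hA (fun ρ _ => hconn ρ' ρ))
    have hpos := sumT_pos (n := n) E.κ_pos
    unfold GG
    rw [div_le_iff₀ hpos]
    have h2 : sumT (E.net (k0A n) (k0_pos H)).κ = sumT E.κ := rfl
    rw [h2] at h1
    have h3 : 2 * sumT E.κ (fun _ => True) *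
        ∑ x, longQ (fun u v => U s(u, v) ≤ gA n y (IA n)) (E.net (k0A n) (k0_pos H)) l' x ≤
        2 * sumT E.κ (fun _ => True) * (6 / n) := mul_le_mul_of_nonneg_left hlong (by linarith)
    linarith
  have hsplit := GG_add_ge E.κ_pos (A := fun T => Red.Bad U E.M p (gA n y (IA n)) l' T)
    (B := fun T => ¬ Good U p (gA n y (IA n)) T)
    (C := fun T => ¬ ((T.diam : ℝ) ≤ m * L ^ 2)) (by
      intro T hT hd
      by_cases hgd : Good U p (gA n y (IA n)) T
      · left
        obtain ⟨ρ, hρ⟩ := Finset.card_pos.1 E.hM0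
        obtain ⟨a, b, hab⟩ := T.exists_dist_eq_diam
        refine ⟨hgd, ρ, hρ, a, b, hconn ρ a, hconn ρ b, ?_⟩
        rw [hab]
        push Not at hd
        have hm12 := ten_log H hm
        have h1 : ((2 * l' + 1 : ℕ) : ℝ) ≤ m * L ^ 2 := by
          rw [hl']
          push_cast
          have hmk : (k : ℝ) * m ≤ (2 * L + 1) * m :=
            mul_le_mul_of_nonneg_right hk'.le (Nat.cast_nonneg _)
          have h2 : 2 * ((m : ℝ) + k * m) + 1 ≤ (4 * L + 5) * m := by
            have : (1 : ℝ) ≤ m := by linarith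
            nlinarith
          have h3 : (4 * L + 5) * m ≤ L ^ 2 * m := by
            apply mul_le_mul_of_nonneg_right _ (Nat.cast_nonneg _)
            nlinarith
          linarith
        have h2 : ((2 * l' + 1 : ℕ) : ℝ) ≤ (T.diam : ℝ) := h1.trans hd.le
        exact_mod_cast h2
      · right; exact hgd)
  have e9 : (n : ℝ) ^ 4 * Real.exp (-(6 * L)) = 1 / (n : ℝ) ^ 2 := by
    have : Real.exp (-(6 * L)) = 1 / (n : ℝ) ^ 6 := by
      rw [Real.exp_neg, one_div]
      congr 1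
      rw [← H.hL, mul_comm, Real.exp_mul, Real.exp_log hn]
      norm_num
    rw [this]
    field_simp
  rw [e9] at hbadG
  have e10 : (12 : ℝ) / n = 2 * (6 / n) := by ring
  rw [e10]
  linarith

/-- lower bound for the diameter -/
theorem lowerA (H : NA n L l s Z W) {y : ℝ} {U : Ev n}
    (hG : GdA n y U) {E : BlkEnv (Fin n)} (e1 : E.κ = fun e => wA n y (U e))
    (e4 : E.M = marks 0 (pbA n) 1 (s0A n) U) (e5 : E.C = Cc n) (e6 : E.ρb = smaxA n)
    (e8 : E.smax = smaxA n) :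
    GG E.κ (fun T => T.diam < ⌈s / Z⌉₊) ≤ 1 / (2 * L) := by
  classical
  have hn := H.npos
  haveI : Nonempty (Fin n) := ⟨⟨0, by have := H.hn; omega⟩⟩
  have h0 := H.L0
  have h6 := H.hL6
  have hs0 := H.hs0
  have hZ1 := H.Z1
  have hZ0 : 0 < Z := by linarith
  have hCc := Cc_pos H
  have hCle := Cc_le H
  have hρ : 0 < smaxA n := by rw [smaxA_eq H]; positivity
  obtain ⟨q, hq⟩ : ∃ q : ℕ, q = ⌈s / Z⌉₊ := ⟨_, rfl⟩
  rw [← hq]
  have hsZ : 1 ≤ s / Z := by rw [le_div_iff₀ hZ0, one_mul]; exact H.Zs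
  have hq1 : s / Z ≤ q := by rw [hq]; exact Nat.le_ceil _
  have hq2 : (q : ℝ) ≤ 2 * (s / Z) := by
    have : (q : ℝ) < s / Z + 1 := by rw [hq]; exact Nat.ceil_lt_add_one (by positivity)
    linarith
  have hq3 : (1 : ℝ) ≤ q := hsZ.trans hq1
  have hq0 : (0 : ℝ) < q := by linarith
  have hM1 : n / (6 * L ^ 3) ≤ (E.M.card : ℝ) := by
    rw [e4, ← vminA_eq H]; exact hG.hvmin
  have hMpos : (0 : ℝ) < E.M.card := lt_of_lt_of_le (by positivity) hM1
  have hM2 : (E.M.card : ℝ) ≤ n := by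
    have := Finset.card_le_univ E.M
    rw [Fintype.card_fin] at this
    exact_mod_cast this
  have hroot : k0A n * E.M.card * (160 * (E.C + E.ρb)) ≤ 1 := by
    rw [e5, e6]; exact rootA H hM2
  have hk0 := k0_pos H
  have hsc : 0 < smaxA n * Cc n := mul_pos hρ hCc
  have hk' : 0 < 1 / (2 * (smaxA n * Cc n) * q) := by positivity
  have hsc1 : 1 ≤ 2 * (smaxA n * Cc n) := by
    have h1 : 1 ≤ smaxA n := by
      rw [smaxA_eq H]
      have : 1 ≤ L ^ 7 := one_le_pow₀ H.L1
      linarith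
    have h2 : 1 ≤ Cc n := by
      unfold Cc
      have h3 : 0 ≤ 12 * ΔA n * (ΔA n * smaxA n + 1 / Real.exp (-1)) := by
        rw [ΔA_eq H]; positivity
      linarith
    nlinarith
  have hk'1 : 1 / (2 * (smaxA n * Cc n) * q) ≤ 1 := by
    rw [div_le_one (by positivity)]
    nlinarith
  have hratio : k0A n / (1 / (2 * (smaxA n * Cc n) * q)) ≤ L ^ 7 * q / (5 * n) := by
    have e : k0A n / (1 / (2 * (smaxA n * Cc n) * q)) =
        2 * smaxA n * q / (160 * n) * (Cc n / (Cc n + smaxA n)) := by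
      unfold k0A
      field_simp
    rw [e]
    have h1 : Cc n / (Cc n + smaxA n) ≤ 1 := by
      rw [div_le_one (by positivity)]; linarith
    have h2 : 2 * smaxA n * q / (160 * n) * (Cc n / (Cc n + smaxA n)) ≤
        2 * smaxA n * q / (160 * n) * 1 := mul_le_mul_of_nonneg_left h1 (by positivity)
    refine h2.trans (le_of_eq ?_)
    rw [smaxA_eq H]
    field_simp
    ring
  have hkk : k0A n ≤ 1 / (2 * (smaxA n * Cc n) * q) := by
    have h1 : L ^ 7 * q / (5 * n) ≤ 1 := by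
      rw [div_le_one (by positivity)]
      have h2 : L ^ 7 ≤ Z := H.LZ (by norm_num)
      have h3 : L ^ 7 * q ≤ Z * (2 * (s / Z)) := mul_le_mul h2 hq2 hq0.le hZ0.le
      have h4 : Z * (2 * (s / Z)) = 2 * s := by field_simp
      have h5 := H.sn
      linarith
    have h2 := hratio.trans h1
    rw [div_le_one hk'] at h2
    exact h2
  have hd : ∀ v, cs E.κ v ≤ dA n := by
    intro v; rw [e1]; exact hG.dmax v
  have h := E.diam_low hk0 hk' hkk hroot hd q
  refine h.trans ?_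
  rw [e5, e8]
  have hexp : 2 * (1 / (2 * (smaxA n * Cc n) * q)) * (smaxA n * Cc n) * q = 1 := by
    field_simp
  rw [hexp]
  have h36 := k0M H hM1
  have hmax : max 1 ((dA n + 1 / (2 * (smaxA n * Cc n) * q)) * q / (k0A n * E.M.card)) ≤
      3840 * L ^ 41 * q := by
    have h41 : 1 ≤ L ^ 41 := one_le_pow₀ H.L1
    apply max_le
    · nlinarith
    · rw [dA_eq H]
      have h5 : 1 ≤ L ^ 5 := one_le_pow₀ H.L1
      have e : (L ^ 5 + 1 / (2 * (smaxA n * Cc n) * q)) * q / (k0A n * E.M.card) =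
        ((L ^ 5 + 1 / (2 * (smaxA n * Cc n) * q)) * q) * (1 / (k0A n * E.M.card)) := by ring
      rw [e]
      have h7 : (L ^ 5 + 1 / (2 * (smaxA n * Cc n) * q)) * q ≤ (2 * L ^ 5) * q :=
        mul_le_mul_of_nonneg_right (by linarith) hq0.le
      calc ((L ^ 5 + 1 / (2 * (smaxA n * Cc n) * q)) * q) * (1 / (k0A n * E.M.card)) ≤
          ((2 * L ^ 5) * q) * (1920 * L ^ 36) := by
            apply mul_le_mul h7 h36 (by positivity) (by positivity)
        _ = 3840 * L ^ 41 * q := by ring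
  have he6 : Real.exp 5 * Real.exp 1 ≤ 729 := by
    rw [← Real.exp_add]
    have e : Real.exp (5 + 1) = Real.exp 1 ^ 6 := by
      rw [← Real.exp_nat_mul]; norm_num
    rw [e]
    have he := Real.exp_one_lt_d9
    calc Real.exp 1 ^ 6 ≤ (3 : ℝ) ^ 6 := pow_le_pow_left₀ (Real.exp_pos 1).le (by linarith) _
      _ = 729 := by norm_num
  calc 2 * (k0A n / (1 / (2 * (smaxA n * Cc n) * q))) * (Real.exp 5 *
        max 1 ((dA n + 1 / (2 * (smaxA n * Cc n) * q)) * q / (k0A n * E.M.card)) * Real.exp 1)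
      ≤ 2 * (L ^ 7 * q / (5 * n)) * (729 * (3840 * L ^ 41 * q)) := by
        apply mul_le_mul _ _ (by positivity) (by positivity)
        · exact mul_le_mul_of_nonneg_left hratio (by norm_num)
        · have e : Real.exp 5 * max 1 ((dA n + 1 / (2 * (smaxA n * Cc n) * q)) * q /
              (k0A n * E.M.card)) * Real.exp 1 = (Real.exp 5 * Real.exp 1) *
              max 1 ((dA n + 1 / (2 * (smaxA n * Cc n) * q)) * q / (k0A n * E.M.card)) := by ring
          rw [e]
          exact mul_le_mul he6 hmax (by positivity) (by norm_num)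
    _ = (5598720 / 5) * L ^ 48 * q ^ 2 / n := by
        field_simp
        ring
    _ ≤ (5598720 / 5) * L ^ 48 * (2 * (s / Z)) ^ 2 / n := by
        apply div_le_div_of_nonneg_right _ hn.le
        apply mul_le_mul_of_nonneg_left _ (by positivity)
        exact pow_le_pow_left₀ hq0.le hq2 2
    _ = (22394880 / 5) * L ^ 48 / Z ^ 2 := by
        rw [← H.hs]
        field_simp
        ring
    _ ≤ 1 / (2 * L) := by
        rw [div_le_div_iff₀ (by positivity) (by positivity)]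
        have h51 : L ^ 51 ≤ Z := H.LZ (by norm_num)
        have h8 : Z ≤ Z ^ 2 := le_self_pow₀ hZ1 (by norm_num)
        have e : (22394880 / 5) * L ^ 48 * (2 * L) = (44789760 / 5) * L ^ 49 := by ring
        rw [e, one_mul]
        have h9 : (44789760 / 5) * L ^ 49 ≤ L ^ 51 := by
          have e' : L ^ 51 = L ^ 2 * L ^ 49 := by ring
          rw [e']
          apply mul_le_mul_of_nonneg_right _ (by positivity)
          nlinarith
        linarith

theorem mainA (H : NA n L l s Z W) {y : ℝ} (hy0 : 0 < y) (hyl : y ≤ l) {U : Ev n}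
    (hG : GdA n y U) {m : ℕ} (hm : s * Z ^ 4 ≤ m)
    (hS : SSA n y m U ≤ Real.exp (-(m / 2 : ℝ))) :
    1 - 1 / L ≤ GG (fun e => wA n y (U e)) (fun T =>
      s / Z ≤ T.diam ∧ (T.diam : ℝ) ≤ m * L ^ 2) := by
  have hn := H.npos
  haveI : Nonempty (Fin n) := ⟨⟨0, by have := H.hn; omega⟩⟩
  have h0 := H.L0
  have h6 := H.hL6
  obtain ⟨E, e1, e2, e3, e4, e5, e6, e7, e8⟩ := blk H hy0 hG
  have hup := upperA H hy0 hyl hG hm hS e1 e2 e3 e4 e5 e6 e7 e8
  have hlo := lowerA H hG e1 e4 e5 e6 e8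
  have hc := GG_compl E.κ_pos (fun T => s / Z ≤ T.diam ∧ (T.diam : ℝ) ≤ m * L ^ 2)
  have hs := GG_add_ge E.κ_pos (A := fun T => T.diam < ⌈s / Z⌉₊)
    (B := fun T => ¬ ((T.diam : ℝ) ≤ m * L ^ 2))
    (C := fun T => ¬ (s / Z ≤ T.diam ∧ (T.diam : ℝ) ≤ m * L ^ 2)) (by
      intro T _ hT
      by_cases h : (T.diam : ℝ) ≤ m * L ^ 2
      · left
        by_contra hcon
        push Not at hcon
        apply hT
        refine ⟨?_, h⟩
        have : ((⌈s / Z⌉₊ : ℕ) : ℝ) ≤ T.diam := by exact_mod_cast hcon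
        exact (Nat.le_ceil _).trans this
      · right; exact h)
  rw [← e1]
  have hnum : 12 / (n : ℝ) + 1 / (n : ℝ) ^ 2 ≤ 1 / (2 * L) := by
    have h1 : 1 / (n : ℝ) ^ 2 ≤ 1 / n := by
      apply one_div_le_one_div_of_le hn
      apply le_self_pow₀ _ (by norm_num)
      have := H.hn
      exact_mod_cast (by omega : 1 ≤ n)
    have h2 : 12 / (n : ℝ) + 1 / n = 13 / n := by ring
    have h3 : 13 / (n : ℝ) ≤ 1 / (2 * L) := by
      rw [div_le_div_iff₀ hn (by positivity)]
      have h4 : L ^ 2 ≤ s := H.Ls (by norm_num)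
      have h5 := H.sn
      nlinarith
    linarith
  have e : 1 / L = 1 / (2 * L) + 1 / (2 * L) := by
    field_simp
    norm_num
  rw [e]
  linarith

theorem NA_of_big {ε : ℝ} (hε : 0 < ε) (hε1 : ε ≤ 1 / 20) {n : ℕ}
    (hB : Big (Real.log n) (Real.exp (ε / 20 * Real.log n))) :
    NA n (Real.log n) (Real.log (Real.log n)) (Real.exp (Real.log n / 2))
      (Real.exp (ε * Real.log n)) (Real.log n ^ 1000) := by
  obtain ⟨L, hL⟩ : ∃ L : ℝ, L = Real.log n := ⟨_, rfl⟩
  have hJ : JL L = JA n := by rw [hL]; rfl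
  rw [← hL] at hB ⊢
  have hL40 := hB.hL
  have h0 : 0 < L := lt_of_lt_of_le (by norm_num) hL40
  have h1 : 1 ≤ L := le_trans (by norm_num) hL40
  have hn2 : 2 ≤ n := by
    by_contra hcon
    have : n = 0 ∨ n = 1 := by omega
    rcases this with rfl | rfl
    · simp at hL; linarith
    · simp at hL; linarith
  have hnpos : (0 : ℝ) < n := by exact_mod_cast (by omega : 0 < n)
  obtain ⟨M, hM⟩ : ∃ M : ℝ, M = Real.sqrt (Real.sqrt L) := ⟨_, rfl⟩
  have hM0 : 0 ≤ M := by rw [hM]; positivity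
  have hM2 : M ^ 2 = Real.sqrt L := by rw [hM, Real.sq_sqrt (Real.sqrt_nonneg _)]
  have hM4 : M ^ 4 = L := by
    have : M ^ 4 = (M ^ 2) ^ 2 := by ring
    rw [this, hM2, Real.sq_sqrt h0.le]
  have hM25 : 25 ≤ M := by
    by_contra hcon
    push Not at hcon
    have : M ^ 4 < 25 ^ 4 := pow_lt_pow_left₀ hcon hM0 (by norm_num)
    rw [hM4] at this
    norm_num at this
    linarith
  have hML : M ≤ L := by
    rw [← hM4]
    exact le_self_pow₀ (by linarith) (by norm_num)
  have h5 := hB.h5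
  rw [← hM] at h5
  have hlogL : 40 * Real.log L ≤ M := by
    have h2 := Real.log_le_log (by positivity) h5
    rw [Real.log_exp, Real.log_pow] at h2
    push_cast at h2
    exact h2
  have hlog1 : 1 ≤ Real.log L := by
    rw [Real.le_log_iff_exp_le h0]
    have := Real.exp_one_lt_d9
    linarith
  have hZ20 : Real.exp (ε * L) = Real.exp (ε / 20 * L) ^ 20 := by
    rw [← Real.exp_nat_mul]
    congr 1
    push_cast
    ring
  have hZZ : Real.exp (ε / 20 * L) ≤ Real.exp (ε * L) := by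
    apply Real.exp_le_exp.2
    nlinarith
  have hW : L ^ 1000 ≤ Real.exp (Real.sqrt L) := by
    have e : L ^ 1000 = (L ^ 40) ^ 25 := by rw [← pow_mul]
    rw [e]
    calc (L ^ 40) ^ 25 ≤ Real.exp M ^ 25 := pow_le_pow_left₀ (by positivity) h5 _
      _ = Real.exp (25 * M) := by rw [← Real.exp_nat_mul]; norm_num
      _ ≤ Real.exp (Real.sqrt L) := by
          apply Real.exp_le_exp.2
          rw [← hM2]
          nlinarith
  refine ⟨hn2, hL.symm, rfl, ?_, Real.exp_pos _, le_trans (by norm_num) hL40, hlog1, by linarith,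
    ?_, ?_, ?_, pow_le_pow_right₀ h1 (by norm_num), ?_, ?_, ?_⟩
  · rw [← Real.exp_nat_mul, hL]
    have : ((2 : ℕ) : ℝ) * (Real.log n / 2) = Real.log n := by push_cast; ring
    rw [this, Real.exp_log hnpos]
  · rw [← hJ]; have := hB.h9; omega
  · rw [← hJ]; exact hB.h6
  · unfold lamA
    rw [← hL, mul_comm, Real.exp_mul, Real.exp_log h0]
    norm_num
  · rw [hZ20]
    have e : (L ^ 1000) ^ 4 = (L ^ 200) ^ 20 := by rw [← pow_mul, ← pow_mul]
    rw [e]
    exact pow_le_pow_left₀ (by positivity) hB.h1 _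
  · rw [← Real.exp_nat_mul]
    apply Real.exp_le_exp.2
    push_cast
    nlinarith
  · rw [← hJ]
    refine le_trans ?_ (hB.h4.trans hZZ)
    have h2 : (3 * L ^ 20 + 2) * L ^ 1000 ≤ L ^ 30 * Real.exp (Real.sqrt L) := by
      apply mul_le_mul _ hW (by positivity) (by positivity)
      have h3 : L ^ 20 * L ≤ L ^ 30 := by
        have : L ^ 20 * L = L ^ 21 := by ring
        rw [this]
        exact pow_le_pow_right₀ h1 (by norm_num)
      have h4 : 1 ≤ L ^ 20 := one_le_pow₀ h1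
      have h6 : L ^ 20 * 5 ≤ L ^ 20 * L := mul_le_mul_of_nonneg_left (by linarith) (by positivity)
      linarith
    have h3 : (1 + (3 * L ^ 20 + 2) * L ^ 1000) ^ JL L ≤
        (1 + L ^ 30 * Real.exp (Real.sqrt L)) ^ JL L :=
      pow_le_pow_left₀ (by positivity) (by linarith) _
    have h4 : 1 ≤ Real.exp (JL L : ℝ) := Real.one_le_exp (Nat.cast_nonneg _)
    have h7 : (1 + (3 * L ^ 20 + 2) * L ^ 1000) ^ JL L ≤
        (1 + L ^ 30 * Real.exp (Real.sqrt L)) ^ JL L * Real.exp (JL L : ℝ) := by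
      have : (1 + L ^ 30 * Real.exp (Real.sqrt L)) ^ JL L * 1 ≤
        (1 + L ^ 30 * Real.exp (Real.sqrt L)) ^ JL L * Real.exp (JL L : ℝ) :=
        mul_le_mul_of_nonneg_left h4 (by positivity)
      linarith
    have h8 : ((1 + (3 * L ^ 20 + 2) * L ^ 1000) ^ JL L) ^ 2 ≤
        ((1 + L ^ 30 * Real.exp (Real.sqrt L)) ^ JL L * Real.exp (JL L : ℝ)) ^ 2 :=
      pow_le_pow_left₀ (by positivity) h7 2
    have h9 : 1 ≤ L ^ 200 := one_le_pow₀ h1
    have h10 : ((1 + L ^ 30 * Real.exp (Real.sqrt L)) ^ JL L * Real.exp (JL L : ℝ)) ^ 2 * 1 ≤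
      ((1 + L ^ 30 * Real.exp (Real.sqrt L)) ^ JL L * Real.exp (JL L : ℝ)) ^ 2 * L ^ 200 :=
      mul_le_mul_of_nonneg_left h9 (by positivity)
    linarith

end DetA

open DetA

/-- the diameter in a good environment -/
theorem det_A {ε : ℝ} (hε : 0 < ε) (hε1 : ε ≤ 1 / 20) : ∀ᶠ n : ℕ in atTop, ∀ y : ℝ,
    1 / Real.log n ^ 3 ≤ y → y ≤ Real.log (Real.log n) → ∀ U : Ev n, GdA n y U →
    ∀ m : ℕ, (n : ℝ) ^ (1 / 2 + 4 * ε) ≤ m → (m : ℝ) ≤ (n : ℝ) ^ (3 / 4 : ℝ) →
    SSA n y m U ≤ Real.exp (-(m / 2 : ℝ)) →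
    1 - 1 / Real.log n ≤ GG (fun e => wA n y (U e)) (fun T =>
      (n : ℝ) ^ (1 / 2 - ε) ≤ T.diam ∧ (T.diam : ℝ) ≤ m * Real.log n ^ 2) := by
  have hlim : Tendsto (fun n : ℕ => Real.log (n : ℝ)) atTop atTop :=
    Real.tendsto_log_atTop.comp tendsto_natCast_atTop_atTop
  filter_upwards [hlim.eventually (big_eventually (by positivity : 0 < ε / 20))] with n hB
  have H := NA_of_big hε hε1 hB
  have hn := H.npos
  have hL0 := H.L0
  intro y hy1 hy2 U hG m hm _ hS
  have hy0 : 0 < y := lt_of_lt_of_le (by positivity) hy1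
  have e1 : (n : ℝ) ^ (1 / 2 + 4 * ε) = Real.exp (Real.log n / 2) *
      Real.exp (ε * Real.log n) ^ 4 := by
    rw [Real.rpow_def_of_pos hn, ← Real.exp_nat_mul, ← Real.exp_add]
    congr 1
    push_cast
    ring
  have e2 : (n : ℝ) ^ (1 / 2 - ε) = Real.exp (Real.log n / 2) / Real.exp (ε * Real.log n) := by
    rw [Real.rpow_def_of_pos hn, ← Real.exp_sub]
    congr 1
    ring
  rw [e1] at hm
  have := mainA H hy0 hy2 hG hm hS
  rw [e2]
  exact this

end
end Pool.Agent.TH972.U
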