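import Pool.Agent.TH972.U.LowC
import Pool.Agent.TH972.U.Dom
import Pool.Agent.TH972.GibbsK

/-!
# Lower bound of the diameter by capacity
(job 3384 of helper972, written by helper267)
-/

set_option autoImplicit false
set_option linter.unusedSectionVars false

namespace Pool.Agent.TH972.U

open Finset

noncomputable section

variable {n : ℕ}

namespace DiamG

variable {V : Type} [Fintype V] [DecidableEq V]

/-- the path property -/
def Lp (c : ℝ) (G : SimpleGraph V) : Prop :=
  ∃ u v : V, ∃ p : G.Walk u v, p.IsPath ∧ c ≤ p.length + 1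

lemma Lp_mono (c : ℝ) : ∀ G G' : SimpleGraph V, G ≤ G' → Lp c G → Lp c G' := by
  rintro G G' h ⟨u, v, p, hp, hc⟩
  refine ⟨u, v, p.mapLe h, hp.mapLe h, ?_⟩
  rw [SimpleGraph.Walk.length_map]
  exact hc

/-- the path of a vertex as a walk in the graph of the forest -/
lemma pth_walk (f : V → Option V) : ∀ (t : List V) (x : V), Forest.Pth f (x :: t) →
    (x :: t).Nodup → ∃ (v : V) (p : (grF f).Walk x v), p.support = x :: t := by
  intro t
  induction t with
  | nil =>
    intro x _ _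
    exact ⟨x, SimpleGraph.Walk.nil, rfl⟩
  | cons y t ih =>
    intro x hp hnd
    obtain ⟨h1, h2⟩ := hp
    obtain ⟨h3, h4⟩ := List.nodup_cons.1 hnd
    obtain ⟨v, q, hq⟩ := ih y h2 h4
    have hxy : x ≠ y := fun h => h3 (h ▸ List.mem_cons_self)
    have hadj : (grF f).Adj x y := by
      unfold grF
      rw [SimpleGraph.fromRel_adj]
      exact ⟨hxy, Or.inl h1⟩
    refine ⟨v, SimpleGraph.Walk.cons hadj q, ?_⟩
    rw [SimpleGraph.Walk.support_cons, hq]

lemma Lp_of_anc {f : V → Option V} (hf : IsFor ∅ f) (x : V) {c : ℝ}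
    (h : c ≤ (anc f x).card) : Lp c (grF f) := by
  obtain ⟨t, h1, h2⟩ := Forest.exists_pth hf.2 x
  obtain ⟨v, p, hp⟩ := pth_walk f t x h1 h2
  refine ⟨x, v, p, ?_, ?_⟩
  · rw [SimpleGraph.Walk.isPath_def, hp]
    exact h2
  · rw [VBas.anc_pth h1 rfl, List.toFinset_card_of_nodup h2, ← hp,
      SimpleGraph.Walk.length_support] at h
    push_cast at h
    exact h

lemma Lp_tree {T : SimpleGraph V} (hT : T.IsTree) {c : ℝ} (h : Lp c T) : c ≤ T.diam + 1 := by
  classical
  obtain ⟨u, v, p, hp, hc⟩ := h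
  have : Nonempty V := ⟨u⟩
  obtain ⟨q, hq⟩ := hT.connected.exists_walk_length_eq_dist u v
  have h1 : p = q := (hT.existsUnique_path u v).unique hp (q.isPath_of_length_eq_dist hq)
  have h2 : T.dist u v ≤ T.diam :=
    SimpleGraph.dist_le_diam (SimpleGraph.connected_iff_ediam_ne_top.1 hT.connected)
  rw [h1, hq] at hc
  have h3 : (T.dist u v : ℝ) ≤ T.diam := by exact_mod_cast h2
  linarith

/-- the equilibrium measure of a single vertex -/
lemma eqm_one (N : Net V) (z : V) : grn N ∅ z z * eqm N {z} z = 1 := by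
  have h1 := surv_eq N (Finset.notMem_empty z)
  rw [surv_empty] at h1
  unfold eqm
  exact h1.symm

lemma union2 (N : Net V) (A B : (V → Option V) → Prop)
    (h : ∀ f, IsFor ∅ f → A f ∨ B f) : 1 ≤ PF N A + PF N B := by
  classical
  unfold PF
  rw [← EF_add]
  refine le_trans (EF_one N ∅).ge ?_
  apply EF_mono
  intro f hf
  have nn : ∀ p : Prop, (0 : ℝ) ≤ (if p then (1 : ℝ) else 0) := by
    intro p
    split_ifs <;> norm_num
  have ha := nn (A f)
  have hb := nn (B f)
  rcases h f hf with h1 | h1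
  · have e : (if A f then (1 : ℝ) else 0) = 1 := if_pos h1
    linarith
  · have e : (if B f then (1 : ℝ) else 0) = 1 := if_pos h1
    linarith

lemma PF_le (N : Net V) (A B : (V → Option V) → Prop)
    (h : ∀ f, IsFor ∅ f → A f → B f) : PF N A ≤ PF N B := by
  classical
  unfold PF
  apply EF_mono
  intro f hf
  by_cases h1 : A f
  · have h2 := h f hf h1
    simp [h1, h2]
  · simp only [h1, if_false]
    split_ifs <;> norm_num

end DiamG

open DiamG

/-- lower bound of the diameter -/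
theorem PN.diam_gen (hn : 1 ≤ n) (P : PN (Fin n)) {k1 k2 g σ a : ℝ} (hk1 : 0 < k1) (hk2 : 0 < k2)
    (ht : k2 * P.t ≤ 1) (hg1 : 1 ≤ g) (hg : ∀ y ∈ P.M, grn (P.net k2 hk2) ∅ y y ≤ g)
    (hσ : 1 ≤ σ) (hk : k1 ^ 2 * P.M.card = σ ^ 2 * k2) (hk12 : k1 * σ ≤ k2) (ha0 : 0 < a)
    (ha : ∀ v, 1 ≤ a * grn (P.net k2 hk2) ∅ v v) :
    1 - Real.exp 17 / σ ≤ GG P.κ (fun T => k2 / (g * σ * k1) / a ≤ T.diam + 1) := by
  classical
  have : Nonempty (Fin n) := ⟨⟨0, hn⟩⟩
  have hg0 : 0 < g := lt_of_lt_of_le one_pos hg1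
  have hσ0 : 0 < σ := lt_of_lt_of_le one_pos hσ
  set c : ℝ := k2 / (g * σ * k1) with hcdef
  have hc : 0 < c := by positivity
  set x : Fin n := ⟨0, hn⟩ with hx
  have hlow := PN.low_cond P hk1 (k' := σ * k1) (mul_pos hσ0 hk1) hk2 (by nlinarith)
    (by linarith) ht hg0 hg hc (by rw [hcdef]; apply le_of_eq; field_simp) ∅ x
  have hmc : (0 : ℝ) < P.M.card := by exact_mod_cast P.M_ne.card_pos
  have hbound : k1 / (σ * k1) * Real.exp (8 + 9 * k2 / (g * k1 ^ 2 * P.M.card)) ≤
      Real.exp 17 / σ := by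
    have e1 : k1 / (σ * k1) = 1 / σ := by field_simp
    have e2 : 9 * k2 / (g * k1 ^ 2 * P.M.card) ≤ 9 := by
      rw [mul_assoc g, hk, div_le_iff₀ (by positivity)]
      have h1 : 1 ≤ g * σ ^ 2 := by nlinarith [mul_le_mul hg1 (one_le_pow₀ (n := 2) hσ) zero_le_one hg0.le]
      nlinarith
    rw [e1, div_mul_eq_mul_div, one_mul]
    apply div_le_div_of_nonneg_right _ hσ0.le
    apply Real.exp_le_exp.2
    linarith
  have hsk : ∀ f : Fin n → Option (Fin n), skel f ∅ = ∅ := fun f => Finset.biUnion_empty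
  have hMt : ∀ f : Fin n → Option (Fin n), ¬ Mt f x ∅ := by
    rintro f ⟨w, hw, _⟩
    exact Finset.notMem_empty w hw
  -- good forests
  have hgood : ∀ f : Fin n → Option (Fin n), IsFor ∅ f →
      Lp (c / a) (grF f) ∨ (¬ Mt f x ∅ ∧
        ∑ z ∈ anc f x, eqm (P.net k2 hk2) (skel f ∅ ∪ anc f x) z < c) := by
    intro f hf
    by_cases hlt : ∑ z ∈ anc f x, eqm (P.net k2 hk2) (skel f ∅ ∪ anc f x) z < c
    · exact Or.inr ⟨hMt f, hlt⟩
    · left
      apply Lp_of_anc hf x
      rw [not_lt, hsk f, Finset.empty_union] at hlt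
      rw [div_le_iff₀ ha0]
      refine hlt.trans ?_
      have h1 : ∀ z ∈ anc f x, eqm (P.net k2 hk2) (anc f x) z ≤ a := by
        intro z hz
        refine (eqm_anti (P.net k2 hk2) (Finset.singleton_subset_iff.2 hz) z).trans ?_
        have h2 := eqm_one (P.net k2 hk2) z
        have h3 := ha z
        have h4 : 0 < grn (P.net k2 hk2) ∅ z z := grn_pos _ (Finset.notMem_empty z)
        have h5 : grn (P.net k2 hk2) ∅ z z * eqm (P.net k2 hk2) {z} z ≤
            grn (P.net k2 hk2) ∅ z z * a := by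
          rw [h2, mul_comm]
          exact h3
        exact le_of_mul_le_mul_left h5 h4
      calc ∑ z ∈ anc f x, eqm (P.net k2 hk2) (anc f x) z ≤ ∑ z ∈ anc f x, a :=
            Finset.sum_le_sum h1
        _ = (anc f x).card * a := by rw [Finset.sum_const, nsmul_eq_mul]
  have h1 := union2 (P.net k1 hk1) _ _ hgood
  have h2 := forest_dom (P.net k1 hk1) (Lp (c / a)) (Lp_mono (c / a))
  have h3 : 0 < sumT P.κ (fun _ => True) := sumT_pos P.κ_pos
  have h4 : PF (P.net k1 hk1) (fun f => Lp (c / a) (grF f)) ≤ GG P.κ (Lp (c / a)) := by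
    unfold GG
    rw [le_div_iff₀ h3]
    exact h2
  have h5 : GG P.κ (Lp (c / a)) ≤ GG P.κ (fun T => c / a ≤ T.diam + 1) :=
    GG_mono P.κ_pos (fun T hT h => Lp_tree hT h)
  linarith

end

end Pool.Agent.TH972.U

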