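import Pool.Agent.TH972.U.Marks
import Pool.Agent.TH972.U.Cheeger

/-!
# The trivial blocks of a dense network
-/

set_option autoImplicit false
namespace Pool.Agent.TH972.U
open Finset
noncomputable section

namespace DnBlk

lemma reach_bot {V : Type} {u v : V} (h : (⊥ : SimpleGraph V).Reachable u v) : u = v := by
  obtain ⟨p⟩ := h
  cases p with
  | nil => rfl
  | cons h _ => exact absurd h (by simp)

lemma cmp_bot {V : Type} [Fintype V] [DecidableEq V] (v : V) :
    cmp (⊥ : SimpleGraph V) v = {v} := by
  ext u
  rw [Marks.mem_cmp, Finset.mem_singleton]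
  constructor
  · intro h; exact (reach_bot h).symm
  · rintro rfl; exact SimpleGraph.Reachable.refl _

lemma gd_bot {V : Type} [Fintype V] [DecidableEq V] :
    gd (⊥ : SimpleGraph V) 1 = univ := by
  ext v
  rw [Marks.mem_gd, cmp_bot]
  simp

/-- Poincare inequality on all but at most one vertex -/
lemma poinc_aux {n : ℕ} (hn : 10 ≤ n) (κ : Sym2 (Fin n) → ℝ) (hκ : ∀ e, 0 < κ e)
    (hd : ∀ v, cs κ v ≤ 2)
    (hc : ∀ A B : Finset (Fin n), Disjoint A B → n ≤ A.card + B.card + 1 → A.card ≤ B.card →
      1 / (2 * (n : ℝ)) * (A.card * B.card) ≤ ∑ x ∈ A, ∑ y ∈ B, Kc κ x y)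
    (I : Finset (Fin n)) (hI : n ≤ I.card + 1) (f : Fin n → ℝ) :
    ∃ c : ℝ, ∑ i ∈ I, (f i - c) ^ 2 ≤ 100 * EnIn κ I f := by
  have hK : ∀ i j, 0 ≤ Kc κ i j := fun i j => Kc_nonneg (fun e => (hκ e).le) i j
  obtain ⟨c, h⟩ := cheeger I (fun i j => 5 * Kc κ i j) (fun i j => by have := hK i j; positivity)
    (fun i j => by rw [Kc_symm]) (Δ := 10) (by norm_num)
    (by
      intro i _
      rw [← mul_sum]
      have h1 : ∑ j ∈ I, Kc κ i j ≤ ∑ j, Kc κ i j :=
        sum_le_sum_of_subset_of_nonneg (subset_univ I) fun j _ _ => hK i j
      have h2 : ∑ j, Kc κ i j ≤ 2 := hd i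
      linarith)
    (by
      intro A hA h2A
      have hcard : (I \ A).card + A.card = I.card := card_sdiff_add_card_eq_card hA
      have h1 := hc A (I \ A) disjoint_sdiff (by omega) (by omega)
      have e1 : ∑ i ∈ A, ∑ j ∈ I \ A, 5 * Kc κ i j = 5 * ∑ i ∈ A, ∑ j ∈ I \ A, Kc κ i j := by
        simp only [mul_sum]
      rw [e1]
      have hnpos : (0 : ℝ) < n := by
        have : 0 < n := by omega
        exact_mod_cast this
      have hB : (4 : ℝ) * n ≤ 10 * ((I \ A).card : ℝ) := by
        have : 4 * n ≤ 10 * (I \ A).card := by omega
        exact_mod_cast this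
      have hA0 : (0 : ℝ) ≤ (A.card : ℝ) := Nat.cast_nonneg _
      have h3 : (A.card : ℝ) ≤ 5 * (1 / (2 * (n : ℝ)) * (A.card * (I \ A).card)) := by
        have e2 : 5 * (1 / (2 * (n : ℝ)) * ((A.card : ℝ) * ((I \ A).card : ℝ))) =
            (A.card : ℝ) * (5 * ((I \ A).card : ℝ)) / (2 * n) := by
          field_simp
        rw [e2, le_div_iff₀ (by positivity)]
        nlinarith
      linarith)
    f
  refine ⟨c, h.trans ?_⟩
  have e : ∑ i ∈ I, ∑ j ∈ I, 5 * Kc κ i j * (f i - f j) ^ 2 =
      5 * ∑ i ∈ I, ∑ j ∈ I, Kc κ i j * (f i - f j) ^ 2 := by
    simp only [mul_sum, mul_assoc]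
  rw [e]
  unfold EnIn
  apply le_of_eq
  ring

end DnBlk

/-- the trivial blocks of a dense network -/
theorem dense_blk {n : ℕ} (hn : 10 ≤ n) (κ : Sym2 (Fin n) → ℝ) (hκ : ∀ e, 0 < κ e)
    (hd : ∀ v, cs κ v ≤ 2)
    (hc : ∀ A B : Finset (Fin n), Disjoint A B → n ≤ A.card + B.card + 1 → A.card ≤ B.card →
      1 / (2 * (n : ℝ)) * (A.card * B.card) ≤ ∑ x ∈ A, ∑ y ∈ B, Kc κ x y) :
    ∃ E : BlkEnv (Fin n), E.κ = κ ∧ E.M = univ ∧ E.C = 100 ∧ E.ρb = 1 ∧ E.smax = 1 := by
  have hn0 : 0 < n := by omega
  refine ⟨{ κ := κ
            κ_pos := hκ
            Hb := ⊥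
            s0 := 1
            s0_pos := le_rfl
            C := 100
            ρb := 1
            cn := 1
            C_pos := by norm_num
            ρb_pos := by norm_num
            cn_pos := by norm_num
            M := univ
            M_good := by rw [DnBlk.gd_bot]
            smax := 1
            hsmax := by
              intro v
              rw [DnBlk.cmp_bot]
              simp
            hM := by
              rw [card_univ, Fintype.card_fin]
              have : (10 : ℝ) ≤ n := by exact_mod_cast hn
              linarith
            hM0 := by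
              rw [card_univ, Fintype.card_fin]
              exact hn0
            path := by
              intro W u v h f
              have huv := DnBlk.reach_bot (Marks.rin_reach h)
              subst huv
              have := Marks.EnIn_nonneg hκ W f
              simpa using this
            poinc := by
              intro bs hbs f
              have hbcard : bs.card ≤ 1 := by
                rcases hbs with rfl | hbs
                · simp
                · obtain ⟨v, -, rfl⟩ := Marks.blks_spec hbs
                  rw [DnBlk.cmp_bot]; simp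
              have hcard : n ≤ ((univ : Finset (Fin n)) \ bs).card + 1 := by
                have := card_sdiff_add_card_eq_card (subset_univ bs)
                rw [card_univ, Fintype.card_fin] at this
                omega
              obtain ⟨c, hcc⟩ := DnBlk.poinc_aux hn κ hκ hd hc (univ \ bs) hcard f
              refine ⟨c, fun rep hrep => ?_⟩
              rw [DnBlk.gd_bot]
              refine le_trans ?_ hcc
              have hsub : (blks (⊥ : SimpleGraph (Fin n)) 1).erase bs ⊆
                  ((univ : Finset (Fin n)) \ bs).image (fun v => ({v} : Finset (Fin n))) := by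
                intro S hS
                rw [mem_erase] at hS
                obtain ⟨v, hv, rfl⟩ := Marks.blks_spec hS.2
                rw [DnBlk.cmp_bot] at hS ⊢
                rw [mem_image]
                refine ⟨v, ?_, rfl⟩
                rw [mem_sdiff]
                refine ⟨mem_univ _, fun hvb => ?_⟩
                rcases hbs with rfl | hbs
                · exact notMem_empty _ hvb
                · obtain ⟨w, -, rfl⟩ := Marks.blks_spec hbs
                  rw [DnBlk.cmp_bot, mem_singleton] at hvb
                  subst hvb
                  exact hS.1 (DnBlk.cmp_bot _).symm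
              calc ∑ S ∈ (blks (⊥ : SimpleGraph (Fin n)) 1).erase bs, (f (rep S) - c) ^ 2
                  ≤ ∑ S ∈ ((univ : Finset (Fin n)) \ bs).image (fun v => ({v} : Finset (Fin n))),
                      (f (rep S) - c) ^ 2 :=
                    sum_le_sum_of_subset_of_nonneg hsub fun S _ _ => sq_nonneg _
                _ = ∑ v ∈ (univ : Finset (Fin n)) \ bs, (f (rep {v}) - c) ^ 2 := by
                    rw [sum_image]
                    intro a _ b _ hab
                    exact singleton_injective hab
                _ = ∑ v ∈ (univ : Finset (Fin n)) \ bs, (f v - c) ^ 2 := by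
                    refine sum_congr rfl fun v _ => ?_
                    have hv : ({v} : Finset (Fin n)) ∈ blks (⊥ : SimpleGraph (Fin n)) 1 := by
                      have := Marks.cmp_mem_blks (G := (⊥ : SimpleGraph (Fin n))) (s0 := 1) (v := v)
                        (by rw [DnBlk.gd_bot]; exact mem_univ _)
                      rwa [DnBlk.cmp_bot] at this
                    have := hrep _ hv
                    rw [mem_singleton] at this
                    rw [this]
            rob := by
              rintro v K hv - - - ⟨x, hx, hvx⟩
              exfalso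
              have := DnBlk.reach_bot hvx
              subst this
              exact hv hx }, rfl, rfl, rfl, rfl, rfl⟩

end
end Pool.Agent.TH972.U
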