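import Pool.Agent.TH972.U.DnBlk
import Pool.Agent.TH972.U.DLow
import Pool.Agent.TH972.U.Hit
import Pool.Agent.TH972.U.Ticks
import Pool.Agent.TH972.U.Kill
import Pool.Agent.TH972.U.Forest
set_option autoImplicit false
set_option linter.unusedSectionVars false
namespace Pool.Agent.TH972.U
open Finset Filter Topology
noncomputable section

namespace DnDet

/-! ### scaling -/

lemma wT_scale {n : ℕ} (κ : Sym2 (Fin n) → ℝ) (c : ℝ) (T : SimpleGraph (Fin n)) (hT : T.IsTree) :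
    wT (fun e => c * κ e) T = c ^ (n - 1) * wT κ T := by
  classical
  unfold wT
  rw [Finset.prod_mul_distrib, Finset.prod_const]
  congr 2
  have h := hT.card_edgeFinset
  rw [Fintype.card_fin] at h
  have e : (univ.filter (fun e => e ∈ T.edgeSet)) = T.edgeFinset := by ext e; simp
  have e2 : (univ.filter (fun e => e ∈ T.edgeSet)).card = T.edgeFinset.card := by rw [e]
  have e3 : n - 1 = T.edgeFinset.card := by omega
  rw [e3, ← e2]

lemma sumT_scale {n : ℕ} (κ : Sym2 (Fin n) → ℝ) (c : ℝ) (A : SimpleGraph (Fin n) → Prop) :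
    sumT (fun e => c * κ e) A = c ^ (n - 1) * sumT κ A := by
  classical
  unfold sumT
  rw [Finset.mul_sum]
  refine Finset.sum_congr rfl fun T hT => wT_scale κ c T ?_
  rw [Finset.mem_filter] at hT
  exact hT.2.1

lemma Kc_scale {V : Type} [DecidableEq V] (κ : Sym2 V → ℝ) (c : ℝ) (x y : V) :
    Kc (fun e => c * κ e) x y = c * Kc κ x y := by
  unfold Kc
  split_ifs <;> simp

lemma cs_scale {V : Type} [Fintype V] [DecidableEq V] (κ : Sym2 V → ℝ) (c : ℝ) (x : V) :
    cs (fun e => c * κ e) x = c * cs κ x := by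
  unfold cs
  rw [Finset.mul_sum]
  exact Finset.sum_congr rfl fun y _ => Kc_scale κ c x y

/-! ### long paths pick up much killing -/

section net

variable {V : Type} [Fintype V] [DecidableEq V]

lemma grn_diag_ge (N : Net V) (x : V) {d : ℝ} (hd : cs N.κ x + N.k x ≤ d) (hd0 : 0 < d) :
    1 / d ≤ grn N ∅ x x := by
  have h := grn_eq N (D := ∅) (Finset.notMem_empty x) (Finset.notMem_empty x)
  rw [if_pos rfl] at h
  have h2 : 0 ≤ ∑ w, Kc N.κ x w * grn N ∅ w x :=
    Finset.sum_nonneg fun w _ =>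
      mul_nonneg (Kc_nonneg (fun e => (N.κ_pos e).le) x w) (grn_nonneg N ∅ w x)
  have h3 := grn_nonneg N ∅ x x
  rw [div_le_iff₀ hd0]
  nlinarith

lemma net_k (E : BlkEnv V) (hM : E.M = univ) {k : ℝ} (hk : 0 < k) (x : V) :
    (E.net k hk).k x = k := by
  show (if x ∈ E.M then k else 0) = k
  rw [hM, if_pos (mem_univ x)]

lemma longQ_small (E : BlkEnv V) (hM : E.M = univ) (hd : ∀ v, cs E.κ v ≤ 2) {k : ℝ} (hk : 0 < k)
    (hk1 : k ≤ 1) (m : ℕ) (v : V) :
    longQ (fun _ _ => True) (E.net k hk) m v ≤ 2 * Real.exp (-(m * k / 6)) := by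
  unfold longQ
  refine good_mass (E.net k hk) v (fun ζ => okc (fun _ _ => True) m ζ) (m * k / 6) ?_
  intro ζ hnd hζ
  have hlen : m + 1 ≤ ζ.toFinset.card := by
    rw [List.toFinset_card_of_nodup hnd]
    exact hζ.1
  have hlen' : (m : ℝ) + 1 ≤ (ζ.toFinset.card : ℝ) := by exact_mod_cast hlen
  have h1 : ∑ g ∈ ζ.toFinset, k * (1 / 3) ≤
      ∑ g, (E.net k hk).k g * (grn (E.net k hk) ∅ g g - grn (E.net k hk) ζ.toFinset g g) := by
    calc ∑ g ∈ ζ.toFinset, k * (1 / 3) ≤ ∑ g ∈ ζ.toFinset,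
          (E.net k hk).k g * (grn (E.net k hk) ∅ g g - grn (E.net k hk) ζ.toFinset g g) := by
          refine Finset.sum_le_sum fun g hg => ?_
          rw [net_k E hM hk g, grn_left _ g hg, sub_zero]
          refine mul_le_mul_of_nonneg_left ?_ hk.le
          refine grn_diag_ge _ g ?_ (by norm_num)
          rw [net_k E hM hk g]
          have := hd g
          show cs E.κ g + k ≤ 3
          linarith
      _ ≤ _ := by
          refine Finset.sum_le_sum_of_subset_of_nonneg (Finset.subset_univ _) fun g _ _ => ?_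
          rw [net_k E hM hk g]
          have := grn_anti (E.net k hk) (Finset.empty_subset ζ.toFinset) g g
          exact mul_nonneg hk.le (by linarith)
  rw [Finset.sum_const, nsmul_eq_mul] at h1
  nlinarith [mul_le_mul_of_nonneg_right hlen' hk.le]

lemma hit_all (E : BlkEnv V) (hM : E.M = univ) (hC : E.C = 100) (hρ : E.ρb = 1)
    (hs : E.smax = 1) {k : ℝ} (hk : 0 < k) (hQ : 1 ≤ k * (Fintype.card V : ℝ))
    (h2 : k * (k * (Fintype.card V : ℝ)) * 10 ^ 9 ≤ 1) (A : List V) (hA : A.Nodup)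
    (h1 : 12800 * (k * (Fintype.card V : ℝ)) ≤ A.length) (z : V) :
    surv (E.net k hk) A.toFinset z ≤ 1 / 4 := by
  have hcard : ((E.M.card : ℕ) : ℝ) = (Fintype.card V : ℝ) := by rw [hM, Finset.card_univ]
  have hlen : A.toFinset.card = A.length := List.toFinset_card_of_nodup hA
  have hpos : 0 < A.toFinset.card := by
    rw [hlen]
    have : (0:ℝ) < (A.length : ℝ) := by nlinarith
    exact_mod_cast this
  refine E.hit hk A.toFinset A.toFinset (fun i => {i}) (fun _ => ∅) (s1 := 1) (R := 0)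
    one_pos le_rfl hpos (fun i _ => by rw [hM]; exact Finset.subset_univ _)
    (fun i _ => by simp) ?_ ?_ ?_ (by rw [hcard]; exact hQ) ?_ ?_ z (by rw [hM]; exact mem_univ z)
  · intro i hi f hf g hg
    rw [Finset.mem_singleton] at hg
    rw [hg, hf i hi]
    simp
  · intro i _ j _ hij
    simpa using hij
  · intro f
    have h0 : ∀ i ∈ A.toFinset, EnIn E.κ (∅ : Finset V) f = 0 := by
      intro i _
      unfold EnIn
      simp
    rw [Finset.sum_eq_zero h0]
    have := Marks.EnIn_nonneg E.κ_pos univ f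
    rwa [Marks.EnIn_univ] at this
  · rw [hcard, hs, hC, hlen]
    linarith
  · rw [hcard, hs, hC, hρ]
    nlinarith [mul_pos hk (show 0 < k * (Fintype.card V : ℝ) by linarith)]

lemma longQ_ticks (E : BlkEnv V) (hM : E.M = univ) (hd : ∀ v, cs E.κ v ≤ 2) (hC : E.C = 100)
    (hρ : E.ρb = 1) (hs : E.smax = 1) {k0 k1 : ℝ} (hk0 : 0 < k0) (hk1 : 0 < k1) (h01 : k0 ≤ k1)
    (hk11 : k1 ≤ 1) (hQ : 1 ≤ k1 * (Fintype.card V : ℝ))
    (h2 : k1 * (k1 * (Fintype.card V : ℝ)) * 10 ^ 9 ≤ 1) (m k : ℕ) (hm : 1 ≤ m)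
    (h1 : 12800 * (k1 * (Fintype.card V : ℝ)) ≤ m) (x : V) :
    longQ (fun _ _ => True) (E.net k0 hk0) (m + k * m) x ≤
      4 / 3 * ((Fintype.card V : ℝ) * (2 * Real.exp (-(m * k1 / 6)))) + (1 / 4) ^ k := by
  have hδ : ∑ v, longQ (fun _ _ => True) (E.net k1 hk1) m v ≤
      (Fintype.card V : ℝ) * (2 * Real.exp (-(m * k1 / 6))) := by
    calc ∑ v, longQ (fun _ _ => True) (E.net k1 hk1) m v ≤
        ∑ _v : V, 2 * Real.exp (-(m * k1 / 6)) :=
          Finset.sum_le_sum fun v _ => longQ_small E hM hd hk1 hk11 m v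
      _ = _ := by rw [Finset.sum_const, Finset.card_univ, nsmul_eq_mul]
  have h := ticks (E.net k0 hk0) (E.net k1 hk1) rfl (q := k0 / k1) (by positivity)
    ((div_le_one hk1).mpr h01) (fun x => by
      rw [net_k E hM hk0, net_k E hM hk1]
      field_simp) (fun _ _ => True) x m m hm hδ (fun _ => False) (b := 0) ?_ ?_ k
  · simpa using h
  · intro A hA hnd _ z _
    refine hit_all E hM hC hρ hs hk1 hQ h2 A hnd ?_ z
    rw [hA]
    push_cast
    linarith
  · refine le_of_eq ((psum_congr _ _ _ fun π _ _ _ => ?_).trans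
      (psum_zero (E.net k0 hk0) ∅ x))
    rw [if_neg (fun h => h.2)]

end net

section diam

lemma chain_true {V : Type} : ∀ l : List V, l.IsChain (fun _ _ => True)
  | [] => List.IsChain.nil
  | [_] => List.IsChain.singleton _
  | _ :: b :: l => List.IsChain.cons_cons trivial (chain_true (b :: l))

variable {n : ℕ}

lemma diam_path (T : SimpleGraph (Fin n)) (hT : T.IsTree) (l : ℕ) (h : 2 * l + 1 ≤ T.diam)
    (ρ : Fin n) : ∃ (x : Fin n) (p : T.Walk x ρ), p.IsPath ∧ okc (fun _ _ => True) l p.support := by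
  have : Nonempty (Fin n) := ⟨ρ⟩
  obtain ⟨a, b, hab⟩ := T.exists_dist_eq_diam
  have key : ∀ c, l ≤ T.dist c ρ → ∃ (x : Fin n) (p : T.Walk x ρ), p.IsPath ∧
      okc (fun _ _ => True) l p.support := by
    intro c hc
    obtain ⟨p, hp, hpl⟩ := hT.connected.exists_path_of_dist c ρ
    refine ⟨c, p, hp, ?_, ?_⟩
    · rw [SimpleGraph.Walk.length_support]; omega
    · exact chain_true _
  have h5 : T.dist a b ≤ T.dist a ρ + T.dist ρ b := hT.connected.dist_triangle
  have h6 : T.dist ρ b = T.dist b ρ := SimpleGraph.dist_comm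
  by_cases h7 : l ≤ T.dist a ρ
  · exact key a h7
  · exact key b (by omega)

lemma diam_up [Nonempty (Fin n)] (E : BlkEnv (Fin n)) {k : ℝ} (hk : 0 < k)
    (hroot : k * E.M.card * (160 * (E.C + E.ρb)) ≤ 1) (l : ℕ) {ε : ℝ}
    (hlong : ∑ x, longQ (fun _ _ => True) (E.net k hk) l x ≤ ε) :
    GG E.κ (fun T => 2 * l + 1 ≤ T.diam) ≤ 2 * ε := by
  have h1 := tree_long (E.net k hk) (E.roots hk hroot) (fun _ _ => True) l
    (fun T => 2 * l + 1 ≤ T.diam) (fun T hT hA ρ _ => diam_path T hT l hA ρ)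
  have hpos := sumT_pos (n := n) E.κ_pos
  unfold GG
  rw [div_le_iff₀ hpos]
  have h2 : sumT (E.net k hk).κ = sumT E.κ := rfl
  rw [h2] at h1
  have h3 : 2 * sumT E.κ (fun _ => True) *
      ∑ x, longQ (fun _ _ => True) (E.net k hk) l x ≤
      2 * sumT E.κ (fun _ => True) * ε := mul_le_mul_of_nonneg_left hlong (by linarith)
  linarith

end diam

end DnDet

theorem GG_scale {n : ℕ} {κ : Sym2 (Fin n) → ℝ} {c : ℝ} (hc : 0 < c)
    (A : SimpleGraph (Fin n) → Prop) : GG (fun e => c * κ e) A = GG κ A := by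
  unfold GG
  rw [DnDet.sumT_scale, DnDet.sumT_scale, mul_div_mul_left _ _ (pow_ne_zero _ hc.ne')]

namespace DnDet
section det

lemma sqrt_ge {n : ℕ} (hn : 0 < n) {L : ℝ} (hL : L = Real.log n) (hL0 : 0 ≤ L) :
    L ^ 2 / 8 ≤ Real.sqrt n := by
  have h1 : Real.exp L = n := by rw [hL, Real.exp_log (by exact_mod_cast hn)]
  have h2 : Real.sqrt n = Real.exp (L / 2) := by rw [Real.exp_half, h1]
  have h3 := Real.quadratic_le_exp_of_nonneg (show 0 ≤ L / 2 by linarith)
  rw [h2]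
  nlinarith

lemma quarter_pow {L : ℝ} {k : ℕ} (hk : 2 * L ≤ k) : (1 / 4 : ℝ) ^ k ≤ Real.exp (-(2 * L)) := by
  have h1 : (1 / 4 : ℝ) ≤ Real.exp (-1) := by
    rw [Real.exp_neg, ← one_div]
    have := Real.exp_one_lt_d9
    have h0 := Real.exp_pos 1
    exact one_div_le_one_div_of_le h0 (by linarith)
  calc (1 / 4 : ℝ) ^ k ≤ Real.exp (-1) ^ k := pow_le_pow_left₀ (by norm_num) h1 k
    _ = Real.exp (-(k : ℝ)) := by
        rw [← Real.exp_nat_mul]
        congr 1
        ring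
    _ ≤ _ := Real.exp_le_exp.mpr (by linarith)

variable {n : ℕ}

/-- the upper bound for the diameter -/
lemma dense_up [Nonempty (Fin n)] (E : BlkEnv (Fin n)) (hM : E.M = univ)
    (hd : ∀ v, cs E.κ v ≤ 2) (hC : E.C = 100) (hρ : E.ρb = 1) (hs1 : E.smax = 1)
    (hn : 0 < n) {L s : ℝ} (hL : L = Real.log n) (hs : s = Real.sqrt n)
    (hL1 : 2 * 10 ^ 8 ≤ L) : ∃ l : ℕ, 2 * (l : ℝ) ≤ s * L ^ 3 ∧
      GG E.κ (fun T => 2 * l + 1 ≤ T.diam) ≤ 8 / n := by
  have hsL : L ^ 2 / 8 ≤ s := by rw [hs]; exact sqrt_ge hn hL (by linarith)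
  have hN : (n : ℝ) = s ^ 2 := by rw [hs, Real.sq_sqrt (by positivity)]
  have hL0 : 0 < L := by linarith
  have hs5 : 10 ^ 5 ≤ s := by nlinarith
  have hs0 : 0 < s := by linarith
  have hN0 : (0 : ℝ) < n := by exact_mod_cast hn
  have hexp : Real.exp L = n := by rw [hL, Real.exp_log hN0]
  have hcard : ((E.M.card : ℕ) : ℝ) = (n : ℝ) := by rw [hM, Finset.card_univ, Fintype.card_fin]
  have hV : (Fintype.card (Fin n) : ℝ) = n := by rw [Fintype.card_fin]
  set k0 : ℝ := 1 / (16160 * n) with hk0d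
  set k1 : ℝ := 1 / (10 ^ 5 * s) with hk1d
  have hk0 : 0 < k0 := by positivity
  have hk1 : 0 < k1 := by positivity
  set m : ℕ := ⌈10 ^ 7 * L * s⌉₊ with hmd
  set k : ℕ := ⌈2 * L⌉₊ with hkd
  have hm1 : 10 ^ 7 * L * s ≤ m := Nat.le_ceil _
  have hm2 : (m : ℝ) ≤ 10 ^ 7 * L * s + 1 := (Nat.ceil_lt_add_one (by positivity)).le
  have hkk1 : 2 * L ≤ k := Nat.le_ceil _
  have hkk2 : (k : ℝ) ≤ 2 * L + 1 := (Nat.ceil_lt_add_one (by positivity)).le
  have hLs : 1 ≤ L * s := by nlinarith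
  have h01 : k0 ≤ k1 := by
    rw [hk0d, hk1d, hN]
    exact one_div_le_one_div_of_le (by positivity) (by nlinarith)
  have hk11 : k1 ≤ 1 := by
    rw [hk1d, div_le_one (by positivity)]
    nlinarith
  have hkn : k1 * (n : ℝ) = s / 10 ^ 5 := by
    rw [hk1d, hN]
    field_simp
  have hQ : 1 ≤ k1 * (Fintype.card (Fin n) : ℝ) := by
    rw [hV, hkn, le_div_iff₀ (by norm_num)]
    linarith
  have h2 : k1 * (k1 * (Fintype.card (Fin n) : ℝ)) * 10 ^ 9 ≤ 1 := by
    rw [hV, hkn, hk1d]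
    rw [show 1 / (10 ^ 5 * s) * (s / 10 ^ 5) * 10 ^ 9 = (1 / 10 : ℝ) by field_simp]
    norm_num
  have hmpos : 1 ≤ m := by
    have : (1 : ℝ) ≤ m := by nlinarith
    exact_mod_cast this
  have h1 : 12800 * (k1 * (Fintype.card (Fin n) : ℝ)) ≤ m := by
    rw [hV, hkn]
    refine le_trans ?_ hm1
    have : s ≤ L * s := by nlinarith
    nlinarith
  have hmk : 3 * L ≤ m * k1 / 6 := by
    have : 10 ^ 7 * L * s * k1 ≤ m * k1 := mul_le_mul_of_nonneg_right hm1 hk1.le
    have e : 10 ^ 7 * L * s * k1 = 100 * L := by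
      rw [hk1d]
      field_simp
      ring
    rw [e] at this
    linarith
  have hx : ∀ x, longQ (fun _ _ => True) (E.net k0 hk0) (m + k * m) x ≤ 4 / (n : ℝ) ^ 2 := by
    intro x
    refine (longQ_ticks E hM hd hC hρ hs1 hk0 hk1 h01 hk11 hQ h2 m k hmpos h1 x).trans ?_
    have e1 : Real.exp (-(m * k1 / 6)) ≤ 1 / (n : ℝ) ^ 3 := by
      calc Real.exp (-(m * k1 / 6)) ≤ Real.exp (-(3 * L)) := Real.exp_le_exp.mpr (by linarith)
        _ = 1 / (n : ℝ) ^ 3 := by
            rw [Real.exp_neg, ← one_div, ← hexp, ← Real.exp_nat_mul]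
            norm_num
    have e2 : (1 / 4 : ℝ) ^ k ≤ 1 / (n : ℝ) ^ 2 := by
      refine (quarter_pow hkk1).trans (le_of_eq ?_)
      rw [Real.exp_neg, ← one_div, ← hexp, ← Real.exp_nat_mul]
      norm_num
    rw [hV]
    calc 4 / 3 * ((n : ℝ) * (2 * Real.exp (-(m * k1 / 6)))) + (1 / 4) ^ k ≤
          4 / 3 * ((n : ℝ) * (2 * (1 / (n : ℝ) ^ 3))) + 1 / (n : ℝ) ^ 2 := by
          gcongr
      _ = (11 / 3) * (1 / (n : ℝ) ^ 2) := by
          field_simp
          ring
      _ ≤ 4 / (n : ℝ) ^ 2 := by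
          rw [show (4 : ℝ) / (n : ℝ) ^ 2 = 4 * (1 / (n : ℝ) ^ 2) by ring]
          have : 0 ≤ 1 / (n : ℝ) ^ 2 := by positivity
          nlinarith
  refine ⟨m + k * m, ?_, ?_⟩
  · push_cast
    have a1 : (m : ℝ) ≤ 2 * 10 ^ 7 * (L * s) := by nlinarith
    have a2 : (1 + (k : ℝ)) ≤ 4 * L := by linarith
    have a3 : (m : ℝ) * (1 + k) ≤ 2 * 10 ^ 7 * (L * s) * (4 * L) :=
      mul_le_mul a1 a2 (by positivity) (by positivity)
    have a4 : 2 * 10 ^ 8 * (L ^ 2 * s) ≤ L * (L ^ 2 * s) :=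
      mul_le_mul_of_nonneg_right hL1 (by positivity)
    nlinarith [show 0 ≤ L ^ 2 * s by positivity]
  · have hroot : k0 * E.M.card * (160 * (E.C + E.ρb)) ≤ 1 := by
      rw [hcard, hC, hρ, hk0d]
      apply le_of_eq
      field_simp
      norm_num
    have := diam_up E hk0 hroot (m + k * m) (ε := 4 / n) (by
      calc ∑ x, longQ (fun _ _ => True) (E.net k0 hk0) (m + k * m) x ≤
          ∑ _x : Fin n, 4 / (n : ℝ) ^ 2 := Finset.sum_le_sum fun x _ => hx x
        _ = 4 / n := by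
          rw [Finset.sum_const, Finset.card_univ, Fintype.card_fin, nsmul_eq_mul]
          field_simp)
    refine this.trans (le_of_eq ?_)
    ring

/-- the lower bound for the diameter -/
lemma dense_low [Nonempty (Fin n)] (E : BlkEnv (Fin n)) (hM : E.M = univ)
    (hd : ∀ v, cs E.κ v ≤ 2) (hC : E.C = 100) (hρ : E.ρb = 1) (hs1 : E.smax = 1)
    (hn : 0 < n) {L s : ℝ} (hL : L = Real.log n) (hs : s = Real.sqrt n)
    (hL1 : 2 * 10 ^ 8 ≤ L) : ∃ l : ℕ, s / L ≤ (l : ℝ) ∧
      GG E.κ (fun T => T.diam < l) ≤ 3499200 / L ^ 2 := by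
  have hsL : L ^ 2 / 8 ≤ s := by rw [hs]; exact sqrt_ge hn hL (by linarith)
  have hN : (n : ℝ) = s ^ 2 := by rw [hs, Real.sq_sqrt (by positivity)]
  have hL0 : 0 < L := by linarith
  have hs5 : 10 ^ 5 ≤ s := by nlinarith
  have hs0 : 0 < s := by linarith
  have hN0 : (0 : ℝ) < n := by exact_mod_cast hn
  have hLs : L ≤ s := by nlinarith
  have hcard : ((E.M.card : ℕ) : ℝ) = (n : ℝ) := by rw [hM, Finset.card_univ, Fintype.card_fin]
  set l : ℕ := ⌈s / L⌉₊ with hld
  have hl1 : s / L ≤ l := Nat.le_ceil _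
  have hsL1 : 1 ≤ s / L := by rwa [le_div_iff₀ hL0, one_mul]
  have hl2 : (l : ℝ) ≤ 2 * (s / L) := by
    have := (Nat.ceil_lt_add_one (a := s / L) (by positivity)).le
    linarith
  have hl3 : (1 : ℝ) ≤ l := by linarith
  have hl0 : (0 : ℝ) < l := by linarith
  have hls : (l : ℝ) ≤ s := by
    refine hl2.trans ?_
    have : s / L ≤ s / 2 := div_le_div_of_nonneg_left hs0.le (by norm_num) (by linarith)
    linarith
  set k : ℝ := 1 / (16160 * n) with hkd
  set k' : ℝ := 1 / (200 * l) with hk'd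
  have hk : 0 < k := by positivity
  have hk' : 0 < k' := by positivity
  have hkk : k ≤ k' := by
    rw [hkd, hk'd, hN]
    exact one_div_le_one_div_of_le (by positivity) (by nlinarith)
  have hroot : k * E.M.card * (160 * (E.C + E.ρb)) ≤ 1 := by
    rw [hcard, hC, hρ, hkd]
    apply le_of_eq
    field_simp
    norm_num
  have h := E.diam_low hk hk' hkk hroot hd l
  refine ⟨l, hl1, h.trans ?_⟩
  rw [hcard, hs1, hC]
  have hk'1 : k' ≤ 1 := by
    rw [hk'd, div_le_one (by positivity)]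
    linarith
  have b1 : max 1 ((2 + k') * l / (k * n)) ≤ 48480 * l := by
    refine max_le (by linarith) ?_
    have : (2 + k') * l / (k * n) = (2 + k') * 16160 * l := by
      rw [hkd]
      field_simp
    rw [this]
    nlinarith
  have b2 : 2 * k' * (1 * 100) * l = 1 := by
    rw [hk'd]
    field_simp
    norm_num
  have b3 : k / k' = 200 * l / (16160 * n) := by
    rw [hkd, hk'd]
    field_simp
  rw [b2, b3]
  have b4 : Real.exp 5 * Real.exp 1 ≤ 729 := by
    rw [← Real.exp_add]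
    have : Real.exp 1 ^ 6 ≤ (3 : ℝ) ^ 6 :=
      pow_le_pow_left₀ (Real.exp_pos 1).le (by have := Real.exp_one_lt_d9; linarith) 6
    rw [← Real.exp_nat_mul] at this
    norm_num at this ⊢
    exact this
  have b5 : (l : ℝ) ^ 2 ≤ 4 * (s ^ 2 / L ^ 2) := by
    calc (l : ℝ) ^ 2 ≤ (2 * (s / L)) ^ 2 := pow_le_pow_left₀ hl0.le hl2 2
      _ = _ := by ring
  have b6 : 0 ≤ Real.exp 5 * Real.exp 1 := by positivity
  calc 2 * (200 * (l : ℝ) / (16160 * n)) *
        (Real.exp 5 * max 1 ((2 + k') * l / (k * n)) * Real.exp 1) =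
        (400 * (l : ℝ) / (16160 * n)) * (max 1 ((2 + k') * l / (k * n)) *
          (Real.exp 5 * Real.exp 1)) := by ring
    _ ≤ (400 * (l : ℝ) / (16160 * n)) * (48480 * l * 729) := by
        refine mul_le_mul_of_nonneg_left ?_ (by positivity)
        exact mul_le_mul b1 b4 b6 (by positivity)
    _ = 874800 * (l ^ 2 / s ^ 2) := by
        rw [hN]
        field_simp
        norm_num
    _ ≤ 874800 * (4 * (s ^ 2 / L ^ 2) / s ^ 2) := by
        refine mul_le_mul_of_nonneg_left ?_ (by norm_num)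
        exact div_le_div_of_nonneg_right b5 (by positivity)
    _ = 3499200 / L ^ 2 := by
        field_simp
        norm_num

end det
end DnDet

/-- the diameter of a random spanning tree of a dense weighted graph -/
theorem dense_det : ∀ᶠ n : ℕ in atTop, ∀ (κ : Sym2 (Fin n) → ℝ) (D : ℝ), 0 < D →
    (∀ e, 0 < κ e) → (∀ v, cs κ v ≤ 2 * D) →
    (∀ A B : Finset (Fin n), Disjoint A B → n ≤ A.card + B.card + 1 → A.card ≤ B.card →
      D / (2 * (n : ℝ)) * (A.card * B.card) ≤ ∑ x ∈ A, ∑ y ∈ B, Kc κ x y) →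
    1 - 1 / Real.log n ≤ GG κ (fun T => Real.sqrt n / Real.log n ≤ T.diam ∧
      (T.diam : ℝ) ≤ Real.sqrt n * Real.log n ^ 3) := by
  have hev : ∀ᶠ n : ℕ in atTop, 2 * 10 ^ 8 ≤ Real.log n :=
    (Real.tendsto_log_atTop.comp tendsto_natCast_atTop_atTop).eventually_ge_atTop _
  filter_upwards [hev, eventually_ge_atTop 10] with n hL1 hn κ D hD hκ hd hc
  have : Nonempty (Fin n) := ⟨⟨0, by omega⟩⟩
  have hn0 : 0 < n := by omega
  have hN0 : (0 : ℝ) < n := by exact_mod_cast hn0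
  have hD' : 0 < 1 / D := by positivity
  obtain ⟨E, hEκ, hM, hC, hρ, hs1⟩ := dense_blk hn (fun e => 1 / D * κ e)
    (fun e => mul_pos hD' (hκ e))
    (fun v => by
      rw [DnDet.cs_scale]
      have := mul_le_mul_of_nonneg_left (hd v) hD'.le
      refine this.trans (le_of_eq ?_)
      field_simp)
    (fun A B hAB h1 h2 => by
      have := mul_le_mul_of_nonneg_left (hc A B hAB h1 h2) hD'.le
      have e : ∑ x ∈ A, ∑ y ∈ B, Kc (fun e => 1 / D * κ e) x y =
          1 / D * ∑ x ∈ A, ∑ y ∈ B, Kc κ x y := by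
        rw [Finset.mul_sum]
        refine Finset.sum_congr rfl fun x _ => ?_
        rw [Finset.mul_sum]
        exact Finset.sum_congr rfl fun y _ => DnDet.Kc_scale κ _ x y
      rw [e]
      refine le_trans (le_of_eq ?_) this
      field_simp)
  have hdE : ∀ v, cs E.κ v ≤ 2 := by
    intro v
    rw [hEκ, DnDet.cs_scale]
    have := mul_le_mul_of_nonneg_left (hd v) hD'.le
    refine this.trans (le_of_eq ?_)
    field_simp
  obtain ⟨l1, hl1, hG1⟩ := DnDet.dense_up E hM hdE hC hρ hs1 hn0 rfl rfl hL1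
  obtain ⟨l2, hl2, hG2⟩ := DnDet.dense_low E hM hdE hC hρ hs1 hn0 rfl rfl hL1
  rw [← GG_scale hD', ← hEκ]
  have hsum := GG_compl E.κ_pos (fun T => Real.sqrt n / Real.log n ≤ T.diam ∧
      (T.diam : ℝ) ≤ Real.sqrt n * Real.log n ^ 3)
  have hsub : GG E.κ (fun T => ¬ (Real.sqrt n / Real.log n ≤ T.diam ∧
      (T.diam : ℝ) ≤ Real.sqrt n * Real.log n ^ 3)) ≤
      GG E.κ (fun T => 2 * l1 + 1 ≤ T.diam) + GG E.κ (fun T => T.diam < l2) := by
    refine GG_add_ge E.κ_pos fun T _ hT => ?_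
    by_contra hcon
    rw [not_or, not_le, not_lt] at hcon
    apply hT
    constructor
    · refine hl2.trans ?_
      exact_mod_cast hcon.2
    · refine le_trans ?_ hl1
      have : T.diam ≤ 2 * l1 := by omega
      exact_mod_cast this
  have hL0 : 0 < Real.log n := by linarith
  have hsq : (Real.log n) ^ 2 / 8 ≤ Real.sqrt n := DnDet.sqrt_ge hn0 rfl hL0.le
  have hN : (n : ℝ) = Real.sqrt n ^ 2 := by rw [Real.sq_sqrt (by positivity)]
  have c1 : 8 / (n : ℝ) ≤ 1 / 2 * (1 / Real.log n) := by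
    have h1 : 16 * Real.log n ≤ n := by
      have h3 : 1 ≤ Real.sqrt n := by nlinarith
      have h4 : Real.sqrt n ≤ n := by nlinarith
      nlinarith
    rw [div_le_iff₀ hN0]
    have : 1 / 2 * (1 / Real.log n) * (16 * Real.log n) ≤ 1 / 2 * (1 / Real.log n) * n :=
      mul_le_mul_of_nonneg_left h1 (by positivity)
    refine le_trans (le_of_eq ?_) this
    field_simp
    norm_num
  have c2 : 3499200 / Real.log n ^ 2 ≤ 1 / 2 * (1 / Real.log n) := by
    rw [div_le_iff₀ (by positivity)]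
    have : 1 / 2 * (1 / Real.log n) * Real.log n ^ 2 = Real.log n / 2 := by
      field_simp
    rw [this]
    linarith
  linarith

end
end Pool.Agent.TH972.U
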