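import Pool.Agent.TH972.RAsym
import Pool.Agent.TH972.U.LiftU

/-!
# Degrees and cuts of the environment for high temperatures
-/

set_option autoImplicit false
set_option linter.unusedSectionVars false

namespace Pool.Agent.TH972.U

open Finset MeasureTheory Pool.Agent.W842.RST Pool.Agent.TH972 Filter Topology

noncomputable section

namespace DnEnv

variable {n : ℕ}

/-- truncated weight -/
def tw (β u : ℝ) : ℝ := wexp β (max u 0)

theorem tw_pos (β u : ℝ) : 0 < tw β u := wexp_pos _ _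

theorem tw_le {β : ℝ} (hβ : 0 ≤ β) (u : ℝ) : tw β u ≤ 1 := by
  unfold tw wexp
  rw [Real.exp_le_one_iff]
  have := mul_nonneg hβ (le_max_right u 0)
  linarith

theorem tw_meas (β : ℝ) : Measurable (tw β) :=
  (wexp_meas β).comp (measurable_id.max measurable_const)

theorem tw_eq (β : ℝ) {u : ℝ} (hu : 0 ≤ u) : wexp β u = tw β u := by
  unfold tw; rw [max_eq_left hu]

/-- mean conductance -/
def mu (β : ℝ) : ℝ := ∫ x, tw β x ∂nu

theorem tw_int {β : ℝ} (hβ : 0 ≤ β) : Integrable (tw β) nu :=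
  Integrable.of_bound (tw_meas β).aestronglyMeasurable 1 (Eventually.of_forall fun u => by
    rw [Real.norm_eq_abs, abs_of_pos (tw_pos β u)]
    exact tw_le hβ u)

theorem exp_up {x : ℝ} (h0 : 0 ≤ x) (h1 : x ≤ 1) : Real.exp x ≤ 1 + 7 / 4 * x := by
  have h := convexOn_exp.2 (Set.mem_univ 0) (Set.mem_univ 1) (sub_nonneg.2 h1) h0 (by ring)
  simp only [smul_eq_mul, mul_zero, mul_one, zero_add, Real.exp_zero] at h
  have h2 := Real.exp_one_lt_d9
  nlinarith

theorem exp_dn {x : ℝ} (h0 : 0 ≤ x) (h1 : x ≤ 1) : Real.exp (-x) ≤ 1 - 5 / 8 * x := by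
  have h := convexOn_exp.2 (Set.mem_univ 0) (Set.mem_univ (-1)) (sub_nonneg.2 h1) h0 (by ring)
  simp only [smul_eq_mul, mul_zero, mul_one, mul_neg, zero_add, Real.exp_zero] at h
  have h2 : Real.exp (-1) ≤ 3 / 8 := by
    rw [Real.exp_neg]
    have := Real.exp_one_gt_d9
    rw [inv_le_comm₀ (Real.exp_pos 1) (by norm_num)]
    norm_num
    linarith
  nlinarith

theorem lap_up {β : ℝ} (hβ : 0 ≤ β) : ∫ x, Real.exp (tw β x) ∂nu ≤ Real.exp (7 / 4 * mu β) := by
  have h1 : ∫ x, Real.exp (tw β x) ∂nu ≤ ∫ x, (1 + 7 / 4 * tw β x) ∂nu := by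
    refine integral_mono ?_ ?_ fun x => exp_up (tw_pos β x).le (tw_le hβ x)
    · refine Integrable.of_bound (tw_meas β).exp.aestronglyMeasurable (Real.exp 1)
        (Eventually.of_forall fun u => ?_)
      rw [Real.norm_eq_abs, abs_of_pos (Real.exp_pos _)]
      exact Real.exp_le_exp.2 (tw_le hβ u)
    · exact (integrable_const 1).add ((tw_int hβ).const_mul _)
  have h2 : ∫ x, (1 + 7 / 4 * tw β x) ∂nu = 1 + 7 / 4 * mu β := by
    rw [integral_add (integrable_const 1) ((tw_int hβ).const_mul _), integral_const_mul]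
    simp [mu]
  rw [h2] at h1
  have := Real.add_one_le_exp (7 / 4 * mu β)
  linarith

theorem lap_dn {β : ℝ} (hβ : 0 ≤ β) :
    ∫ x, Real.exp (-tw β x) ∂nu ≤ Real.exp (-(5 / 8 * mu β)) := by
  have h1 : ∫ x, Real.exp (-tw β x) ∂nu ≤ ∫ x, (1 - 5 / 8 * tw β x) ∂nu := by
    refine integral_mono ?_ ?_ fun x => exp_dn (tw_pos β x).le (tw_le hβ x)
    · refine Integrable.of_bound (tw_meas β).neg.exp.aestronglyMeasurable 1
        (Eventually.of_forall fun u => ?_)
      rw [Real.norm_eq_abs, abs_of_pos (Real.exp_pos _), Real.exp_le_one_iff]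
      have := tw_pos β u
      linarith
    · exact (integrable_const 1).sub ((tw_int hβ).const_mul _)
  have h2 : ∫ x, (1 - 5 / 8 * tw β x) ∂nu = 1 - 5 / 8 * mu β := by
    rw [integral_sub (integrable_const 1) ((tw_int hβ).const_mul _), integral_const_mul]
    simp [mu]
  rw [h2] at h1
  have := Real.add_one_le_exp (-(5 / 8 * mu β))
  linarith

/-- Chernoff bound, upper tail -/
theorem prob_up {β : ℝ} (hβ : 0 ≤ β) (E0 : Finset (Sym2 (Fin n))) (t : ℝ) :
    env n {U | t ≤ ∑ e ∈ E0, tw β (U e)} ≤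
      ENNReal.ofReal (Real.exp (7 / 4 * mu β * E0.card - t)) := by
  set F : Ev n → ℝ := fun U => ∏ e ∈ E0, Real.exp (tw β (U e)) with hFdef
  have hF : BM F := by
    refine ⟨?_, Real.exp 1 ^ E0.card, fun U => ?_⟩
    · rw [hFdef]
      exact Finset.measurable_prod _ fun e _ => ((tw_meas β).comp (measurable_pi_apply e)).exp
    · rw [hFdef, abs_of_nonneg (Finset.prod_nonneg fun e _ => (Real.exp_pos _).le)]
      calc ∏ e ∈ E0, Real.exp (tw β (U e)) ≤ ∏ _e ∈ E0, Real.exp 1 :=
            Finset.prod_le_prod (fun e _ => (Real.exp_pos _).le)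
              fun e _ => Real.exp_le_exp.2 (tw_le hβ _)
        _ = Real.exp 1 ^ E0.card := by rw [Finset.prod_const]
  have hE : Ex F ≤ Real.exp (7 / 4 * mu β * E0.card) := by
    rw [hFdef, Lvl.Ex_prod E0 (fun x => Real.exp (tw β x)) (tw_meas β).exp]
    calc _ ≤ Real.exp (7 / 4 * mu β) ^ E0.card :=
          pow_le_pow_left₀ (integral_nonneg fun x => (Real.exp_pos _).le) (lap_up hβ) _
      _ = _ := by rw [← Real.exp_nat_mul]; ring_nf
  have h := env_markov hF (fun U => Finset.prod_nonneg fun e _ => (Real.exp_pos _).le)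
    (Real.exp_pos t) hE
  rw [← Real.exp_sub] at h
  refine (measure_mono ?_).trans h
  intro U hU
  simp only [Set.mem_ofPred_eq] at hU ⊢
  rw [hFdef]
  simp only
  rw [← Real.exp_sum]
  exact Real.exp_le_exp.2 hU

/-- Chernoff bound, lower tail -/
theorem prob_dn {β : ℝ} (hβ : 0 ≤ β) (E0 : Finset (Sym2 (Fin n))) (t : ℝ) :
    env n {U | ∑ e ∈ E0, tw β (U e) ≤ t} ≤
      ENNReal.ofReal (Real.exp (t - 5 / 8 * mu β * E0.card)) := by
  set F : Ev n → ℝ := fun U => ∏ e ∈ E0, Real.exp (-tw β (U e)) with hFdef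
  have hF : BM F := by
    refine ⟨?_, 1 ^ E0.card, fun U => ?_⟩
    · rw [hFdef]
      exact Finset.measurable_prod _ fun e _ => ((tw_meas β).comp (measurable_pi_apply e)).neg.exp
    · rw [hFdef, abs_of_nonneg (Finset.prod_nonneg fun e _ => (Real.exp_pos _).le)]
      calc ∏ e ∈ E0, Real.exp (-tw β (U e)) ≤ ∏ _e ∈ E0, (1 : ℝ) :=
            Finset.prod_le_prod (fun e _ => (Real.exp_pos _).le) fun e _ => by
              rw [Real.exp_le_one_iff]
              have := tw_pos β (U e)
              linarith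
        _ = 1 ^ E0.card := by rw [Finset.prod_const]
  have hE : Ex F ≤ Real.exp (-(5 / 8 * mu β * E0.card)) := by
    rw [hFdef, Lvl.Ex_prod E0 (fun x => Real.exp (-tw β x)) (tw_meas β).neg.exp]
    calc _ ≤ Real.exp (-(5 / 8 * mu β)) ^ E0.card :=
          pow_le_pow_left₀ (integral_nonneg fun x => (Real.exp_pos _).le) (lap_dn hβ) _
      _ = _ := by rw [← Real.exp_nat_mul]; ring_nf
  have h := env_markov hF (fun U => Finset.prod_nonneg fun e _ => (Real.exp_pos _).le)
    (Real.exp_pos (-t)) hE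
  rw [← Real.exp_sub, show -(5 / 8 * mu β * E0.card) - -t = t - 5 / 8 * mu β * E0.card by ring] at h
  refine (measure_mono ?_).trans h
  intro U hU
  simp only [Set.mem_ofPred_eq] at hU ⊢
  rw [hFdef]
  simp only
  rw [← Real.exp_sum, Finset.sum_neg_distrib]
  exact Real.exp_le_exp.2 (neg_le_neg hU)

theorem mu_ge {β p : ℝ} (hβ : 0 ≤ β) (hp0 : 0 ≤ p) (hp1 : p ≤ 1) (hβp : β * p ≤ 1) :
    p / 3 ≤ mu β := by
  have h1 : ∫ x, 1 / 3 * ind (x ≤ p) ∂nu ≤ mu β := by
    refine integral_mono ((Lvl.integrable_ind p).const_mul _) (tw_int hβ) fun x => ?_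
    by_cases hx : x ≤ p
    · simp only [ind_true hx]
      have h2 : Real.exp (-1) ≤ tw β x := by
        unfold tw wexp
        apply Real.exp_le_exp.2
        have : β * max x 0 ≤ β * p := mul_le_mul_of_nonneg_left (max_le hx hp0) hβ
        linarith
      have h3 : (1 : ℝ) / 3 ≤ Real.exp (-1) := by
        rw [Real.exp_neg, one_div]
        apply inv_anti₀ (Real.exp_pos 1)
        have := Real.exp_one_lt_d9
        linarith
      linarith
    · simp only [ind_false hx, mul_zero]
      exact (tw_pos β x).le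
  rw [integral_const_mul, Lvl.int_ind hp0 hp1] at h1
  linarith

/-! ### sums over stars and cuts -/

theorem star_sum (β : ℝ) {U : Ev n} (hU : ∀ e, 0 ≤ U e) (v : Fin n) :
    cs (kU β U) v = ∑ e ∈ (univ.erase v).image (fun y => s(v, y)), tw β (U e) := by
  rw [Finset.sum_image]
  · unfold cs
    rw [← Finset.add_sum_erase univ _ (Finset.mem_univ v), Kc_self, zero_add]
    refine Finset.sum_congr rfl fun y hy => ?_
    unfold Kc kU
    rw [if_neg (Finset.ne_of_mem_erase hy).symm]
    exact tw_eq β (hU _)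
  · intro y _ y' _ h
    exact Sym2.congr_right.1 h

theorem cut_sum (β : ℝ) {U : Ev n} (hU : ∀ e, 0 ≤ U e) {A B : Finset (Fin n)}
    (hAB : Disjoint A B) :
    ∑ x ∈ A, ∑ y ∈ B, Kc (kU β U) x y =
      ∑ e ∈ (A ×ˢ B).image (fun q => s(q.1, q.2)), tw β (U e) := by
  rw [Finset.sum_image, Finset.sum_product]
  · refine Finset.sum_congr rfl fun x hx => Finset.sum_congr rfl fun y hy => ?_
    unfold Kc kU
    rw [if_neg]
    · exact tw_eq β (hU _)
    · rintro rfl
      exact Finset.disjoint_left.1 hAB hx hy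
  · rintro ⟨x, y⟩ hxy ⟨x', y'⟩ hxy' h
    rw [Finset.mem_coe, Finset.mem_product] at hxy hxy'
    simp only at hxy hxy' h
    rcases Sym2.eq_iff.1 h with ⟨h1, h2⟩ | ⟨h1, h2⟩
    · rw [h1, h2]
    · exfalso
      rw [h1] at hxy
      exact Finset.disjoint_left.1 hAB hxy.1 hxy'.2

theorem cut_card {A B : Finset (Fin n)} (hAB : Disjoint A B) :
    ((A ×ˢ B).image (fun q : Fin n × Fin n => s(q.1, q.2))).card = A.card * B.card := by
  rw [Finset.card_image_of_injOn, Finset.card_product]
  rintro ⟨x, y⟩ hxy ⟨x', y'⟩ hxy' h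
  rw [Finset.mem_coe, Finset.mem_product] at hxy hxy'
  simp only at hxy hxy' h
  rcases Sym2.eq_iff.1 h with ⟨h1, h2⟩ | ⟨h1, h2⟩
  · rw [h1, h2]
  · exfalso
    rw [h1] at hxy
    exact Finset.disjoint_left.1 hAB hxy.1 hxy'.2

/-- the large parts -/
def Bz (A : Finset (Fin n)) (z : Option (Fin n)) : Finset (Fin n) := Aᶜ \ z.toFinset

theorem exists_Bz {A B : Finset (Fin n)} (hAB : Disjoint A B) (h : n ≤ A.card + B.card + 1) :
    ∃ z, B = Bz A z := by
  have hsub : B ⊆ Aᶜ := by
    intro x hx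
    rw [Finset.mem_compl]
    exact fun h => Finset.disjoint_left.1 hAB h hx
  have hc : (Aᶜ \ B).card ≤ 1 := by
    rw [Finset.card_sdiff_of_subset hsub, Finset.card_compl, Fintype.card_fin]
    omega
  rcases Nat.le_one_iff_eq_zero_or_eq_one.1 hc with h0 | h1
  · refine ⟨none, ?_⟩
    rw [Finset.card_eq_zero] at h0
    unfold Bz
    rw [Option.toFinset_none, Finset.sdiff_empty]
    exact (Finset.Subset.antisymm (Finset.sdiff_eq_empty_iff_subset.1 h0) hsub).symm
  · obtain ⟨z, hz⟩ := Finset.card_eq_one.1 h1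
    refine ⟨some z, ?_⟩
    unfold Bz
    rw [Option.toFinset_some, ← hz, Finset.sdiff_sdiff_eq_self hsub]

theorem disj_Bz (A : Finset (Fin n)) (z : Option (Fin n)) : Disjoint A (Bz A z) := by
  rw [Finset.disjoint_left]
  intro x hx h
  unfold Bz at h
  rw [Finset.mem_sdiff, Finset.mem_compl] at h
  exact h.1 hx

/-- bound for the bad environments -/
theorem bad_bound {β : ℝ} (hβ : 0 ≤ β) (hn : 2 ≤ n) :
    env n {U | ¬ ((∀ v, cs (kU β U) v ≤ 2 * (n * mu β)) ∧
      ∀ A B : Finset (Fin n), Disjoint A B → n ≤ A.card + B.card + 1 → A.card ≤ B.card →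
        mu β / 2 * (A.card * B.card) ≤ ∑ x ∈ A, ∑ y ∈ B, Kc (kU β U) x y)} ≤
      ENNReal.ofReal (n * Real.exp (-(n * mu β / 4)) +
        (n + 1) * ((1 + Real.exp (-(n * mu β / 32))) ^ n - 1)) := by
  classical
  have hμ0 : 0 ≤ mu β := integral_nonneg fun x => (tw_pos β x).le
  have hn1 : (2 : ℝ) ≤ n := by exact_mod_cast hn
  set q : ℝ := Real.exp (-(n * mu β / 32)) with hq
  have hq0 : 0 < q := Real.exp_pos _
  set E1 : Fin n → Set (Ev n) := fun v =>
    {U | 2 * (n * mu β) ≤ ∑ e ∈ (univ.erase v).image (fun y => s(v, y)), tw β (U e)} with hE1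
  set E2 : Finset (Fin n) → Option (Fin n) → Set (Ev n) := fun A z =>
    {U | (n ≤ A.card + (Bz A z).card + 1 ∧ A.card ≤ (Bz A z).card) ∧
      ∑ e ∈ (A ×ˢ (Bz A z)).image (fun q => s(q.1, q.2)), tw β (U e) ≤
        mu β / 2 * (A.card * (Bz A z).card)} with hE2
  have hsub : env n {U | ¬ ((∀ v, cs (kU β U) v ≤ 2 * (n * mu β)) ∧
      ∀ A B : Finset (Fin n), Disjoint A B → n ≤ A.card + B.card + 1 → A.card ≤ B.card →
        mu β / 2 * (A.card * B.card) ≤ ∑ x ∈ A, ∑ y ∈ B, Kc (kU β U) x y)} ≤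
      env n ((⋃ v ∈ (univ : Finset (Fin n)), E1 v) ∪
        ⋃ A ∈ ((univ : Finset (Fin n)).powerset.erase ∅), ⋃ z ∈ (univ : Finset (Option (Fin n))),
          E2 A z) := by
    apply measure_mono_ae
    filter_upwards [env_ae n] with U hU
    intro hbad
    have hU0 : ∀ e, 0 ≤ U e := fun e => (hU e).1
    have hbad' : ¬ ((∀ v, cs (kU β U) v ≤ 2 * (n * mu β)) ∧
      ∀ A B : Finset (Fin n), Disjoint A B → n ≤ A.card + B.card + 1 → A.card ≤ B.card →
        mu β / 2 * (A.card * B.card) ≤ ∑ x ∈ A, ∑ y ∈ B, Kc (kU β U) x y) := hbad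
    rw [not_and_or] at hbad'
    refine (Set.mem_union _ _ _).2 ?_
    rcases hbad' with h | h
    · left
      push Not at h
      obtain ⟨v, hv⟩ := h
      simp only [Set.mem_iUnion]
      refine ⟨v, Finset.mem_univ v, ?_⟩
      rw [hE1]
      simp only [Set.mem_ofPred_eq]
      rw [← star_sum β hU0 v]
      exact hv.le
    · right
      push Not at h
      obtain ⟨A, B, hAB, h1, h2, h3⟩ := h
      obtain ⟨z, rfl⟩ := exists_Bz hAB h1
      simp only [Set.mem_iUnion]
      refine ⟨A, ?_, z, Finset.mem_univ z, ?_⟩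
      · rw [Finset.mem_erase]
        refine ⟨?_, Finset.mem_powerset.2 (Finset.subset_univ _)⟩
        rintro rfl
        simp at h3
      · rw [hE2]
        simp only [Set.mem_ofPred_eq]
        refine ⟨⟨h1, h2⟩, ?_⟩
        rw [← cut_sum β hU0 hAB]
        exact h3.le
  have b1 : ∀ v, env n (E1 v) ≤ ENNReal.ofReal (Real.exp (-(n * mu β / 4))) := by
    intro v
    refine (prob_up hβ _ _).trans (ENNReal.ofReal_le_ofReal (Real.exp_le_exp.2 ?_))
    have hc : ((((univ : Finset (Fin n)).erase v).image (fun y => s(v, y))).card : ℝ) ≤ n := by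
      have h1 : (((univ : Finset (Fin n)).erase v).image (fun y => s(v, y))).card ≤ n := by
        refine Finset.card_image_le.trans ?_
        refine (Finset.card_le_card (Finset.erase_subset _ _)).trans ?_
        simp
      exact_mod_cast h1
    have h2 : 7 / 4 * mu β * ((((univ : Finset (Fin n)).erase v).image (fun y => s(v, y))).card : ℝ)
        ≤ 7 / 4 * mu β * n := mul_le_mul_of_nonneg_left hc (by positivity)
    linarith
  have b2 : ∀ A ∈ ((univ : Finset (Fin n)).powerset.erase ∅), ∀ z,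
      env n (E2 A z) ≤ ENNReal.ofReal (q ^ A.card) := by
    intro A hA z
    by_cases hc : n ≤ A.card + (Bz A z).card + 1 ∧ A.card ≤ (Bz A z).card
    · refine le_trans (measure_mono ?_) ((prob_dn hβ ((A ×ˢ (Bz A z)).image
        (fun q => s(q.1, q.2))) (mu β / 2 * (A.card * (Bz A z).card))).trans
        (ENNReal.ofReal_le_ofReal ?_))
      · intro U hU
        exact hU.2
      · rw [hq, ← Real.exp_nat_mul]
        apply Real.exp_le_exp.2
        rw [cut_card (disj_Bz A z)]
        push_cast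
        have h1 : (n : ℝ) / 4 ≤ (Bz A z).card := by
          have h2 : n ≤ 2 * (Bz A z).card + 1 := by omega
          have h3 : (n : ℝ) ≤ 2 * (Bz A z).card + 1 := by exact_mod_cast h2
          linarith
        have h4 : mu β * A.card * (n / 4) ≤ mu β * A.card * (Bz A z).card :=
          mul_le_mul_of_nonneg_left h1 (by positivity)
        nlinarith
    · have : E2 A z = ∅ := by
        rw [hE2]
        ext U
        simp only [Set.mem_ofPred_eq, Set.mem_empty_iff_false, iff_false]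
        exact fun h => hc h.1
      rw [this, measure_empty]
      exact bot_le
  refine hsub.trans ((measure_union_le _ _).trans ?_)
  have c1 : env n (⋃ v ∈ (univ : Finset (Fin n)), E1 v) ≤
      ENNReal.ofReal (n * Real.exp (-(n * mu β / 4))) := by
    refine (measure_biUnion_finset_le _ _).trans ((Finset.sum_le_sum fun v _ => b1 v).trans ?_)
    rw [Finset.sum_const, Finset.card_univ, Fintype.card_fin, nsmul_eq_mul,
      ENNReal.ofReal_mul (by positivity), ENNReal.ofReal_natCast]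
  have c2 : env n (⋃ A ∈ ((univ : Finset (Fin n)).powerset.erase ∅),
      ⋃ z ∈ (univ : Finset (Option (Fin n))), E2 A z) ≤
      ENNReal.ofReal ((n + 1) * ((1 + q) ^ n - 1)) := by
    refine (measure_biUnion_finset_le _ _).trans ?_
    have d1 : ∀ A ∈ ((univ : Finset (Fin n)).powerset.erase ∅),
        env n (⋃ z ∈ (univ : Finset (Option (Fin n))), E2 A z) ≤
          ENNReal.ofReal ((n + 1) * q ^ A.card) := by
      intro A hA
      refine (measure_biUnion_finset_le _ _).trans ((Finset.sum_le_sum fun z _ => b2 A hA z).trans ?_)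
      rw [Finset.sum_const, Finset.card_univ, Fintype.card_option, Fintype.card_fin, nsmul_eq_mul,
        ENNReal.ofReal_mul (by positivity)]
      refine le_of_eq ?_
      congr 1
      rw [← ENNReal.ofReal_natCast]
      push_cast
      rfl
    refine (Finset.sum_le_sum d1).trans ?_
    rw [← ENNReal.ofReal_sum_of_nonneg (fun A _ => by positivity)]
    apply ENNReal.ofReal_le_ofReal
    rw [← Finset.mul_sum]
    refine mul_le_mul_of_nonneg_left ?_ (by positivity)
    have d2 := Finset.sum_pow_mul_eq_add_pow q 1 (univ : Finset (Fin n))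
    simp only [one_pow, mul_one, Finset.card_univ, Fintype.card_fin] at d2
    have d3 := Finset.add_sum_erase (univ : Finset (Fin n)).powerset (fun A => q ^ A.card)
      (Finset.mem_powerset.2 (Finset.empty_subset _))
    simp only [Finset.card_empty, pow_zero] at d3
    have e0 : (1 + q) ^ n = (q + 1) ^ n := by rw [add_comm]
    rw [e0, ← d2, ← d3]
    linarith
  refine (add_le_add c1 c2).trans (le_of_eq ?_)
  rw [← ENNReal.ofReal_add (by positivity)]
  have : (1 : ℝ) ≤ (1 + q) ^ n := one_le_pow₀ (by linarith)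
  exact mul_nonneg (by positivity) (by linarith)

/-- numerical part -/
theorem num {N μ : ℝ} {n : ℕ} (hN : N = n) (hn : 2 ≤ n) (hL : 20 ≤ Real.log N)
    (hμ : Real.log N ^ 3 / 3 ≤ N * μ) :
    N * Real.exp (-(N * μ / 4)) + (N + 1) * ((1 + Real.exp (-(N * μ / 32))) ^ n - 1) ≤ 1 / N := by
  have hN2 : (2 : ℝ) ≤ N := by rw [hN]; exact_mod_cast hn
  have hN0 : 0 < N := by linarith
  set ℓ := Real.log N with hℓ
  set q := Real.exp (-(N * μ / 32)) with hq
  have hq0 : 0 < q := Real.exp_pos _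
  have hq1 : q ≤ 1 / (5 * N ^ 3) := by
    have h5 : Real.exp (3 * ℓ + 5) ≤ Real.exp (N * μ / 32) := by
      apply Real.exp_le_exp.2
      have h1 : 400 * ℓ ≤ ℓ ^ 3 := by nlinarith [mul_nonneg (by linarith : 0 ≤ ℓ) (by nlinarith : (0:ℝ) ≤ ℓ ^ 2 - 400)]
      linarith
    have h6 : 5 * N ^ 3 ≤ Real.exp (3 * ℓ + 5) := by
      rw [Real.exp_add, show 3 * ℓ = ((3 : ℕ) : ℝ) * ℓ by norm_num, Real.exp_nat_mul, hℓ,
        Real.exp_log hN0]
      have h7 : (5 : ℝ) ≤ Real.exp 5 := by
        have := Real.add_one_le_exp (5 : ℝ)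
        linarith
      nlinarith [pow_pos hN0 3]
    rw [hq, Real.exp_neg, one_div]
    exact inv_anti₀ (by positivity) (h6.trans h5)
  have hμ0 : 0 ≤ N * μ := le_trans (by positivity) hμ
  have h1 : Real.exp (-(N * μ / 4)) ≤ q := by
    apply Real.exp_le_exp.2
    linarith
  have hNq : N * q ≤ 1 := by
    calc N * q ≤ N * (1 / (5 * N ^ 3)) := by gcongr
      _ = 1 / (5 * N ^ 2) := by field_simp
      _ ≤ 1 := by
        rw [div_le_one (by positivity)]
        nlinarith
  have h2 : (1 + q) ^ n - 1 ≤ 7 / 4 * (N * q) := by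
    have h3 : (1 + q) ^ n ≤ Real.exp (N * q) := by
      rw [hN, Real.exp_nat_mul]
      apply pow_le_pow_left₀ (by positivity)
      have := Real.add_one_le_exp q
      linarith
    have h4 := exp_up (by positivity : 0 ≤ N * q) hNq
    linarith
  calc N * Real.exp (-(N * μ / 4)) + (N + 1) * ((1 + q) ^ n - 1)
      ≤ N * q + (N + 1) * (7 / 4 * (N * q)) := by gcongr
    _ ≤ 5 * N ^ 2 * q := by nlinarith [mul_pos hN0 hq0, mul_pos (mul_pos hN0 hN0) hq0]
    _ ≤ 5 * N ^ 2 * (1 / (5 * N ^ 3)) := by gcongr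
    _ = 1 / N := by field_simp

end DnEnv

open DnEnv in
/-- degrees and cuts for high temperatures -/
theorem dense_env : ∀ᶠ n : ℕ in atTop, ∀ β : ℝ, 0 ≤ β → β ≤ n / Real.log n ^ 3 →
    ∃ μ : ℝ, 0 < μ ∧ env n {U : Ev n | ¬ ((∀ v, cs (kU β U) v ≤ 2 * (n * μ)) ∧
      ∀ A B : Finset (Fin n), Disjoint A B → n ≤ A.card + B.card + 1 → A.card ≤ B.card →
        μ / 2 * (A.card * B.card) ≤ ∑ x ∈ A, ∑ y ∈ B, Kc (kU β U) x y)} ≤
      ENNReal.ofReal (1 / n) := by
  have h1 : ∀ᶠ n : ℕ in atTop, 20 ≤ Real.log n :=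
    (Real.tendsto_log_atTop.comp (tendsto_natCast_atTop_atTop (R := ℝ))).eventually
      (eventually_ge_atTop 20)
  have h2 : ∀ᶠ n : ℕ in atTop, Real.log n ^ 3 ≤ n := by
    have h3 := (Real.isLittleO_pow_log_id_atTop (n := 3)).bound one_pos
    have h4 := (tendsto_natCast_atTop_atTop (R := ℝ)).eventually h3
    filter_upwards [h4, h1] with n h4 h5
    simp only [id, one_mul] at h4
    rw [Real.norm_of_nonneg (by positivity), Real.norm_of_nonneg (by positivity)] at h4
    exact h4
  filter_upwards [h1, h2, eventually_ge_atTop 2] with n hL hp hn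
  intro β hβ hβn
  have hn0 : (0 : ℝ) < n := by
    have : 0 < n := by omega
    exact_mod_cast this
  have hl0 : 0 < Real.log n ^ 3 := by positivity
  have hmu := mu_ge (p := Real.log n ^ 3 / n) hβ (by positivity) (by rwa [div_le_one hn0]) (by
    calc β * (Real.log n ^ 3 / n) ≤ n / Real.log n ^ 3 * (Real.log n ^ 3 / n) := by gcongr
      _ = 1 := by field_simp)
  refine ⟨mu β, lt_of_lt_of_le (by positivity) hmu, ?_⟩
  refine (bad_bound hβ hn).trans (ENNReal.ofReal_le_ofReal ?_)
  refine num rfl hn hL ?_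
  have h5 : (n : ℝ) * (Real.log n ^ 3 / n / 3) ≤ n * mu β := mul_le_mul_of_nonneg_left hmu hn0.le
  have h6 : (n : ℝ) * (Real.log n ^ 3 / n / 3) = Real.log n ^ 3 / 3 := by field_simp
  linarith

end
end Pool.Agent.TH972.U
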