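import Pool.Agent.TH972.U.VBas
import Pool.Agent.TH972.U.Forest

/-!
# Number of vertices of the paths of the random forest
-/

set_option autoImplicit false
set_option linter.unusedSectionVars false

namespace Pool.Agent.TH972.U

open Finset

noncomputable section

variable {V : Type} [Fintype V] [DecidableEq V]

namespace Len

open Grn LEx

/-- sum of a functional over the nonempty suffixes of a list -/
def sfx (F : List V → ℝ) : List V → ℝ
  | [] => 0
  | (x :: t) => F (x :: t) + sfx F t

lemma psum_diag (N : Net V) {D : Finset V} {x : V} (hx : x ∉ D) (F : List V → ℝ) :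
    F [x] + ∑ w, Kc N.κ x w * psum N (insert x D) w (fun η => F (x :: η)) =
      psum N D x F / grn N D x x := by
  rw [psum_eq N hx, mul_div_cancel_left₀ _ (grn_pos N hx).ne']

/-- the sum over the suffixes: first choose a vertex, then the path from it -/
lemma psum_sfx (N : Net V) (F : List V → ℝ) (hF : ∀ π, 0 ≤ F π) : ∀ (D : Finset V) (x : V),
    psum N D x (sfx F) ≤ ∑ u, grn N D x u *
      (F [u] + ∑ w, Kc N.κ u w * psum N (insert u D) w (fun η => F (u :: η))) := by
  refine LEx.ind ?_
  intro D x ih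
  have hnn : ∀ (D : Finset V) (u : V), 0 ≤
      F [u] + ∑ w, Kc N.κ u w * psum N (insert u D) w (fun η => F (u :: η)) := by
    intro D u
    exact add_nonneg (hF _) (Finset.sum_nonneg fun w _ =>
      mul_nonneg (Kc_nn N u w) (psum_nonneg N _ _ fun π => hF _))
  by_cases hx : x ∈ D
  · rw [psum_mem N hx]
    exact Finset.sum_nonneg fun u _ => mul_nonneg (grn_nonneg N D x u) (hnn D u)
  · rw [psum_eq N hx]
    have h1 : ∀ w, psum N (insert x D) w (fun η => sfx F (x :: η)) =
        psum N (insert x D) w (fun η => F (x :: η)) + psum N (insert x D) w (sfx F) := by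
      intro w
      rw [← psum_add]
      rfl
    have h2 : ∑ w, Kc N.κ x w * psum N (insert x D) w (fun η => sfx F (x :: η)) =
        ∑ w, Kc N.κ x w * psum N (insert x D) w (fun η => F (x :: η)) +
        ∑ w, Kc N.κ x w * psum N (insert x D) w (sfx F) := by
      rw [← Finset.sum_add_distrib]
      exact Finset.sum_congr rfl fun w _ => by rw [h1 w]; ring
    have h3 : sfx F [x] = F [x] := add_zero _
    have hmono : ∀ u, F [u] + ∑ w, Kc N.κ u w *
          psum N (insert u (insert x D)) w (fun η => F (u :: η)) ≤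
        F [u] + ∑ w, Kc N.κ u w * psum N (insert u D) w (fun η => F (u :: η)) := by
      intro u
      refine add_le_add le_rfl (Finset.sum_le_sum fun w _ => mul_le_mul_of_nonneg_left
        (psum_anti N (Finset.insert_subset_insert u (Finset.subset_insert x D)) w
          fun π => hF _) (Kc_nn N u w))
    set ψ : V → ℝ := fun u => F [u] + ∑ w, Kc N.κ u w *
      psum N (insert u D) w (fun η => F (u :: η)) with hψ
    have h4 : ∑ w, Kc N.κ x w * psum N (insert x D) w (sfx F) ≤
        ∑ w, Kc N.κ x w * ∑ u, grn N (insert x D) w u * ψ u := by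
      refine Finset.sum_le_sum fun w _ => mul_le_mul_of_nonneg_left ?_ (Kc_nn N x w)
      refine (ih hx w).trans (Finset.sum_le_sum fun u _ => ?_)
      exact mul_le_mul_of_nonneg_left (hmono u) (grn_nonneg N _ _ _)
    have h5 : ∑ u, grn N D x u * ψ u = grn N D x x * (ψ x +
        ∑ w, Kc N.κ x w * ∑ u, grn N (insert x D) w u * ψ u) := by
      have e : ∀ u, grn N D x u * ψ u = grn N D x x *
          ((if x = u then ψ u else 0) + ∑ w, Kc N.κ x w * (grn N (insert x D) w u * ψ u)) := by
        intro u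
        rw [grn_step N hx u]
        have e2 : ∑ w, Kc N.κ x w * (grn N (insert x D) w u * ψ u) =
            (∑ w, Kc N.κ x w * grn N (insert x D) w u) * ψ u := by
          rw [Finset.sum_mul]
          exact Finset.sum_congr rfl fun w _ => by ring
        rw [e2]
        split_ifs <;> ring
      simp only [e]
      rw [← Finset.mul_sum, Finset.sum_add_distrib, Finset.sum_ite_eq, if_pos (mem_univ x),
        Finset.sum_comm]
      congr 2
      exact Finset.sum_congr rfl fun w _ => by rw [Finset.mul_sum]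
    rw [h5, h2, h3]
    refine mul_le_mul_of_nonneg_left ?_ (grn_nonneg N D x x)
    show F [x] + (_ + _) ≤ (F [x] + _) + _
    linarith

lemma psum_sfx' (N : Net V) (F : List V → ℝ) (hF : ∀ π, 0 ≤ F π) (x : V) :
    psum N ∅ x (sfx F) ≤ ∑ u, grn N ∅ x u / grn N ∅ u u * psum N ∅ u F := by
  refine (psum_sfx N F hF ∅ x).trans (le_of_eq ?_)
  apply Finset.sum_congr rfl
  intro u _
  rw [psum_diag N (Finset.notMem_empty u)]
  ring

/-- the functional of the moments -/
def Fj (N : Net V) (j : ℕ) (ζ : List V) : ℝ := lastf N.k ζ * (ζ.length.choose j : ℝ)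

def Gj (N : Net V) (j : ℕ) (ζ : List V) : ℝ := lastf N.k ζ * ((ζ.length - 1).choose j : ℝ)

lemma Gj_nonneg (N : Net V) (j : ℕ) (ζ : List V) : 0 ≤ Gj N j ζ :=
  mul_nonneg (lastf_nonneg N.k_nonneg ζ) (Nat.cast_nonneg _)

lemma Gj_le (N : Net V) (j : ℕ) (ζ : List V) : Gj N j ζ ≤ Fj N j ζ := by
  refine mul_le_mul_of_nonneg_left ?_ (lastf_nonneg N.k_nonneg ζ)
  exact_mod_cast Nat.choose_le_choose j (Nat.sub_le _ _)

lemma sfx_Gj (N : Net V) (j : ℕ) (ζ : List V) : sfx (Gj N j) ζ = Fj N (j + 1) ζ := by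
  induction ζ with
  | nil =>
    show (0 : ℝ) = 0 * _
    rw [zero_mul]
  | cons x t ih =>
    show Gj N j (x :: t) + sfx (Gj N j) t = _
    rw [ih]
    unfold Gj Fj
    rw [List.length_cons, Nat.add_sub_cancel, Nat.choose_succ_succ, Nat.cast_add]
    by_cases ht : t = []
    · subst ht
      have h0 : lastf N.k ([] : List V) = 0 := rfl
      rw [h0]
      simp
    · rw [lastf_cons N.k x ht]
      ring

lemma moment (N : Net V) {A : ℝ} (hA : ∀ x, ∑ u, grn N ∅ x u / grn N ∅ u u ≤ A) (j : ℕ) :
    ∀ x, psum N ∅ x (Fj N j) ≤ A ^ j := by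
  induction j with
  | zero =>
    intro x
    have e : psum N ∅ x (Fj N 0) = psum N ∅ x (lastf N.k) := by
      apply psum_congr
      intro π _ _ _
      unfold Fj
      rw [Nat.choose_zero_right, Nat.cast_one, mul_one]
    rw [e, psum_one, pow_zero]
  | succ j ih =>
    intro x
    have e : psum N ∅ x (Fj N (j + 1)) = psum N ∅ x (sfx (Gj N j)) := by
      apply psum_congr
      intro π _ _ _
      rw [sfx_Gj]
    have hh : ∀ u, 0 ≤ grn N ∅ x u / grn N ∅ u u := fun u =>
      div_nonneg (grn_nonneg N _ _ _) (grn_nonneg N _ _ _)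
    have hA0 : 0 ≤ A := (Finset.sum_nonneg fun u _ => hh u).trans (hA x)
    rw [e]
    calc psum N ∅ x (sfx (Gj N j))
        ≤ ∑ u, grn N ∅ x u / grn N ∅ u u * psum N ∅ u (Gj N j) :=
          psum_sfx' N _ (Gj_nonneg N j) x
      _ ≤ ∑ u, grn N ∅ x u / grn N ∅ u u * A ^ j := by
          refine Finset.sum_le_sum fun u _ => mul_le_mul_of_nonneg_left ?_ (hh u)
          exact (psum_mono N ∅ u fun π _ _ _ => Gj_le N j π).trans (ih u)
      _ = (∑ u, grn N ∅ x u / grn N ∅ u u) * A ^ j := by rw [Finset.sum_mul]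
      _ ≤ A * A ^ j := mul_le_mul_of_nonneg_right (hA x) (pow_nonneg hA0 j)
      _ = A ^ (j + 1) := by rw [pow_succ]; ring

lemma choose_big {c : ℝ} (hc : 1 ≤ c) (j : ℕ) : ∀ n : ℕ, c * j ≤ n → c ^ j ≤ (n.choose j : ℝ) := by
  induction j with
  | zero =>
    intro n _
    simp
  | succ j ih =>
    intro n hn
    rw [Nat.cast_add, Nat.cast_one] at hn
    have hj : (0 : ℝ) ≤ j := Nat.cast_nonneg j
    cases n with
    | zero =>
      exfalso
      rw [Nat.cast_zero] at hn
      nlinarith
    | succ m =>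
      rw [Nat.cast_add, Nat.cast_one] at hn
      have h1 : c * j ≤ m := by nlinarith
      have h2 := ih m h1
      have h3 : ((m + 1 : ℕ) : ℝ) * (m.choose j : ℝ) = ((m + 1).choose (j + 1) : ℝ) * ((j + 1 : ℕ) : ℝ) := by
        exact_mod_cast Nat.add_one_mul_choose_eq m j
      rw [Nat.cast_add, Nat.cast_one, Nat.cast_add, Nat.cast_one] at h3
      have hc0 : 0 ≤ c := by linarith
      have h4 : c * (j + 1) * c ^ j ≤ (m + 1 : ℝ) * (m.choose j : ℝ) :=
        mul_le_mul hn h2 (pow_nonneg hc0 j) (by linarith)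
      rw [h3] at h4
      have h5 : (0 : ℝ) < j + 1 := by linarith
      have h6 : c ^ (j + 1) * (j + 1) ≤ ((m + 1).choose (j + 1) : ℝ) * (j + 1) := by
        calc c ^ (j + 1) * ((j : ℝ) + 1) = c * (j + 1) * c ^ j := by rw [pow_succ]; ring
          _ ≤ _ := h4
      exact le_of_mul_le_mul_right h6 h5

/-- a decomposition at the last visit of `M` -/
lemma last_visit (N : Net V) (M : Finset V) {u : V} (hu : u ∉ M) (x : V) :
    grn N ∅ x u = grn N M x u +
      ∑ m ∈ M, ∑ v, grn N ∅ x m * (Kc N.κ m v * grn N M v u) := by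
  have key := uniq N ∅ (fun x => grn N ∅ x u - (grn N M x u +
      ∑ m ∈ M, ∑ v, grn N ∅ x m * (Kc N.κ m v * grn N M v u)))
    (fun x hx => absurd hx (Finset.notMem_empty x))
    (fun x _ => by
      have h1 := grn_eq N (Finset.notMem_empty x) (Finset.notMem_empty u)
      have h3 : ∀ y, ∑ m ∈ M, ∑ v, grn N ∅ y m * (Kc N.κ m v * grn N M v u) =
          ∑ m ∈ M, grn N ∅ y m * ∑ v, Kc N.κ m v * grn N M v u := by
        intro y
        exact Finset.sum_congr rfl fun m _ => by rw [Finset.mul_sum]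
      set g : V → ℝ := fun m => ∑ v, Kc N.κ m v * grn N M v u with hg
      have h4 : (cs N.κ x + N.k x) * ∑ m ∈ M, grn N ∅ x m * g m =
          (if x ∈ M then g x else 0) + ∑ w, Kc N.κ x w * ∑ m ∈ M, grn N ∅ w m * g m := by
        rw [Finset.mul_sum]
        have e1 : ∀ m, (cs N.κ x + N.k x) * (grn N ∅ x m * g m) =
            (if x = m then g m else 0) + ∑ w, Kc N.κ x w * (grn N ∅ w m * g m) := by
          intro m
          have h5 := grn_eq N (Finset.notMem_empty x) (Finset.notMem_empty m)
          rw [← mul_assoc, h5, add_mul, Finset.sum_mul]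
          congr 1
          · split_ifs <;> ring
          · exact Finset.sum_congr rfl fun w _ => by ring
        simp only [e1]
        rw [Finset.sum_add_distrib, Finset.sum_ite_eq, Finset.sum_comm]
        congr 1
        exact Finset.sum_congr rfl fun w _ => by rw [Finset.mul_sum]
      simp only [h3]
      have h6 : ∑ w, Kc N.κ x w * (grn N ∅ w u - (grn N M w u + ∑ m ∈ M, grn N ∅ w m * g m)) =
          ∑ w, Kc N.κ x w * grn N ∅ w u - g x - ∑ w, Kc N.κ x w * ∑ m ∈ M, grn N ∅ w m * g m := by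
        rw [hg, ← Finset.sum_sub_distrib, ← Finset.sum_sub_distrib]
        exact Finset.sum_congr rfl fun w _ => by ring
      rw [h6, mul_sub, mul_add, h4, h1]
      by_cases hxM : x ∈ M
      · have hxu : x ≠ u := fun h => hu (h ▸ hxM)
        rw [if_pos hxM, if_neg hxu, grn_left N u hxM]
        ring
      · have h2 := grn_eq N hxM hu
        rw [if_neg hxM, h2]
        ring) x
  linarith

end Len

open Len Grn LEx

/-- exponential tail of the number of vertices of a path -/
theorem len_tail (N : Net V) {A : ℝ} (hA : ∀ x, ∑ u, grn N ∅ x u / grn N ∅ u u ≤ A) (x : V)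
    (j : ℕ) : PF N (fun f => 2 * A * j + 1 ≤ (anc f x).card) ≤ (1 / 2) ^ j := by
  classical
  have hA1 : 1 ≤ A := by
    refine le_trans ?_ (hA x)
    have h1 : grn N ∅ x x / grn N ∅ x x = 1 := div_self (grn_pos N (Finset.notMem_empty x)).ne'
    rw [← h1]
    exact Finset.single_le_sum (f := fun u => grn N ∅ x u / grn N ∅ u u)
      (fun u _ => div_nonneg (grn_nonneg N _ _ _) (grn_nonneg N _ _ _)) (mem_univ x)
  have h1 : PF N (fun f => 2 * A * j + 1 ≤ (anc f x).card) =
      psum N ∅ x (fun ζ => lastf N.k ζ *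
        (if 2 * A * j + 1 ≤ (ζ.toFinset.card : ℝ) then 1 else 0)) := by
    unfold PF
    rw [psum_eq_sum]
    refine Eq.trans (EF_path N x (fun S => if 2 * A * j + 1 ≤ (S.card : ℝ) then 1 else 0)) ?_
    apply Finset.sum_congr rfl
    intro i _
    apply Finset.sum_congr rfl
    intro π hπ
    have e : Imass N ∅ π = cpr N π * dG N ∅ π * lastf N.k π := by
      unfold Imass lastf
      cases π.getLast? with
      | none =>
        show (0 : ℝ) = _ * 0
        rw [mul_zero]
      | some z => rfl
    rw [e, mul_assoc]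
  rw [h1]
  have hpos : (0 : ℝ) < (2 * A) ^ j := pow_pos (by linarith) j
  have h2 : psum N ∅ x (fun ζ => lastf N.k ζ *
        (if 2 * A * j + 1 ≤ (ζ.toFinset.card : ℝ) then 1 else 0)) ≤
      psum N ∅ x (fun ζ => (1 / (2 * A) ^ j) * Fj N j ζ) := by
    apply psum_mono
    intro ζ hnd _ _
    have hl := lastf_nonneg N.k_nonneg ζ
    have e : (1 / (2 * A) ^ j) * Fj N j ζ = lastf N.k ζ * ((ζ.length.choose j : ℝ) / (2 * A) ^ j) := by
      unfold Fj
      ring
    rw [e]
    apply mul_le_mul_of_nonneg_left _ hl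
    rw [List.toFinset_card_of_nodup hnd]
    split_ifs with hc
    · rw [le_div_iff₀ hpos, one_mul]
      exact choose_big (by linarith) j _ (by linarith)
    · exact div_nonneg (Nat.cast_nonneg _) hpos.le
  refine h2.trans ?_
  rw [psum_const_mul]
  have h3 := moment N hA j x
  have h4 : (1 / (2 * A) ^ j) * psum N ∅ x (Fj N j) ≤ (1 / (2 * A) ^ j) * A ^ j :=
    mul_le_mul_of_nonneg_left h3 (by positivity)
  refine h4.trans (le_of_eq ?_)
  have hA0 : A ≠ 0 := by linarith
  have e : A / (2 * A) = 1 / 2 := by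
    field_simp
  rw [one_div_mul_eq_div, ← div_pow, e]

/-- number of visited vertices -/
theorem PN.visit_le (P : PN V) {k a Kh l : ℝ} (hk : 0 < k) (ha : 0 ≤ a) (hKh : 0 ≤ Kh)
    (hl : 0 ≤ l) (h1 : ∀ m ∈ P.M, 1 ≤ a * grn (P.net k hk) ∅ m m)
    (h2 : ∀ m ∈ P.M, ∑ v ∈ univ \ P.M, Kc P.κ m v ≤ Kh)
    (h3 : ∀ v, v ∉ P.M → ∑ u ∈ univ \ P.M,
      grn (P.net k hk) P.M v u / grn (P.net k hk) P.M u u ≤ l) (x : V) :
    ∑ u, grn (P.net k hk) ∅ x u / grn (P.net k hk) ∅ u u ≤ (a + Kh * l) / k + l := by
  set N := P.net k hk with hN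
  have hsum : ∑ m ∈ P.M, grn N ∅ x m = 1 / k := by
    have h4 := surv_empty N x
    unfold surv at h4
    have e : ∀ y, grn N ∅ x y * N.k y = if y ∈ P.M then grn N ∅ x y * k else 0 := by
      intro y
      have e2 : N.k y = if y ∈ P.M then k else 0 := rfl
      rw [e2]
      split_ifs
      · rfl
      · rw [mul_zero]
    simp only [e] at h4
    rw [Finset.sum_ite_mem, Finset.univ_inter, ← Finset.sum_mul] at h4
    rw [eq_div_iff hk.ne']
    exact h4
  have hsplit : ∑ u, grn N ∅ x u / grn N ∅ u u =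
      ∑ u ∈ univ \ P.M, grn N ∅ x u / grn N ∅ u u + ∑ u ∈ P.M, grn N ∅ x u / grn N ∅ u u :=
    (Finset.sum_sdiff (Finset.subset_univ P.M)).symm
  have hM : ∑ u ∈ P.M, grn N ∅ x u / grn N ∅ u u ≤ a / k := by
    calc ∑ u ∈ P.M, grn N ∅ x u / grn N ∅ u u ≤ ∑ u ∈ P.M, a * grn N ∅ x u := by
          apply Finset.sum_le_sum
          intro u hu
          have h5 := h1 u hu
          have h6 := grn_pos N (Finset.notMem_empty u)
          rw [div_le_iff₀ h6]
          have h7 := grn_nonneg N ∅ x u
          nlinarith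
      _ = a / k := by rw [← Finset.mul_sum, hsum]; ring
  have hanti : ∀ u, u ∉ P.M → ∀ t : ℝ, 0 ≤ t → t / grn N ∅ u u ≤ t / grn N P.M u u := by
    intro u hu t ht
    exact div_le_div_of_nonneg_left ht (grn_pos N hu) (grn_anti N (Finset.empty_subset _) u u)
  have hout : ∑ u ∈ univ \ P.M, grn N ∅ x u / grn N ∅ u u ≤ l + Kh * l / k := by
    have e1 : ∀ u ∈ univ \ P.M, grn N ∅ x u / grn N ∅ u u ≤ grn N P.M x u / grn N P.M u u +
        ∑ m ∈ P.M, ∑ v ∈ univ \ P.M,
          grn N ∅ x m * (Kc N.κ m v * (grn N P.M v u / grn N P.M u u)) := by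
      intro u hu
      have hu' : u ∉ P.M := (Finset.mem_sdiff.1 hu).2
      refine (hanti u hu' _ (grn_nonneg N ∅ x u)).trans (le_of_eq ?_)
      rw [last_visit N P.M hu' x, add_div, Finset.sum_div]
      congr 1
      apply Finset.sum_congr rfl
      intro m _
      rw [Finset.sum_div]
      have e2 : ∑ v ∈ univ \ P.M, grn N ∅ x m * (Kc N.κ m v * (grn N P.M v u / grn N P.M u u)) =
          ∑ v, grn N ∅ x m * (Kc N.κ m v * (grn N P.M v u / grn N P.M u u)) := by
        apply Finset.sum_subset (Finset.subset_univ _)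
        intro v _ hv
        have hv' : v ∈ P.M := by
          by_contra hc
          exact hv (Finset.mem_sdiff.2 ⟨mem_univ v, hc⟩)
        rw [grn_left N u hv', zero_div, mul_zero, mul_zero]
      rw [e2]
      exact Finset.sum_congr rfl fun v _ => by ring
    refine (Finset.sum_le_sum e1).trans ?_
    rw [Finset.sum_add_distrib]
    refine add_le_add ?_ ?_
    · by_cases hx : x ∈ P.M
      · refine le_trans (le_of_eq ?_) hl
        exact Finset.sum_eq_zero fun u _ => by rw [grn_left N u hx, zero_div]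
      · exact h3 x hx
    · rw [Finset.sum_comm]
      calc ∑ m ∈ P.M, ∑ u ∈ univ \ P.M, ∑ v ∈ univ \ P.M,
            grn N ∅ x m * (Kc N.κ m v * (grn N P.M v u / grn N P.M u u))
          ≤ ∑ m ∈ P.M, grn N ∅ x m * (Kh * l) := by
            apply Finset.sum_le_sum
            intro m hm
            rw [Finset.sum_comm]
            have e3 : ∀ v ∈ univ \ P.M, ∑ u ∈ univ \ P.M,
                grn N ∅ x m * (Kc N.κ m v * (grn N P.M v u / grn N P.M u u)) ≤
                grn N ∅ x m * (Kc N.κ m v * l) := by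
              intro v hv
              rw [← Finset.mul_sum, ← Finset.mul_sum]
              exact mul_le_mul_of_nonneg_left (mul_le_mul_of_nonneg_left
                (h3 v (Finset.mem_sdiff.1 hv).2) (Kc_nn N m v)) (grn_nonneg N _ _ _)
            refine (Finset.sum_le_sum e3).trans ?_
            rw [← Finset.mul_sum, ← Finset.sum_mul]
            exact mul_le_mul_of_nonneg_left (mul_le_mul_of_nonneg_right (h2 m hm) hl)
              (grn_nonneg N _ _ _)
        _ = Kh * l / k := by rw [← Finset.sum_mul, hsum]; ring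
  rw [hsplit]
  have e4 : (a + Kh * l) / k + l = (l + Kh * l / k) + a / k := by ring
  rw [e4]
  exact add_le_add hout hM

end

end Pool.Agent.TH972.U
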