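import Pool.Agent.TH972.U.DnEnv
import Pool.Agent.TH972.U.DnDet
import Pool.Agent.TH972.U.Len
import Pool.Agent.TH972.U.BlkPN
import Pool.Agent.TH972.U.BallGen
import Pool.Agent.TH972.U.AvSum

/-!
# Typical balls in the dense regime (written by helper359, job 3480 of helper972)
-/

set_option autoImplicit false
set_option linter.unusedSectionVars false

namespace Pool.Agent.TH972.U

open Finset MeasureTheory Pool.Agent.W842.RST Pool.Agent.TH972 Filter Topology

noncomputable section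

namespace DnTyp

theorem ball_mono {n : ℕ} (G : SimpleGraph (Fin n)) (v : Fin n) {a b : ℕ} (h : a ≤ b) :
    (ball G v a).card ≤ (ball G v b).card := by
  classical
  apply Finset.card_le_card
  intro u hu
  unfold ball at hu ⊢
  rw [Finset.mem_filter] at hu ⊢
  obtain ⟨h1, p, hp⟩ := hu
  exact ⟨h1, p, hp.trans h⟩

/-- union bound for the lengths -/
theorem len_union {V : Type} [Fintype V] [DecidableEq V] (N : Net V) {A : ℝ}
    (hA : ∀ x, ∑ u, grn N ∅ x u / grn N ∅ u u ≤ A) (j m : ℕ) (hm : 2 * A * j + 1 ≤ m) :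
    PF N (fun f => ∃ x, m < (anc f x).card) ≤ (Fintype.card V : ℝ) * (1 / 2) ^ j := by
  classical
  have h1 : PF N (fun f => ∃ x, m < (anc f x).card) ≤
      ∑ x, PF N (fun f => 2 * A * j + 1 ≤ (anc f x).card) := by
    unfold PF
    rw [← EF_sum]
    apply EF_mono
    intro f _
    by_cases h : ∃ x, m < (anc f x).card
    · rw [if_pos h]
      obtain ⟨x, hx⟩ := h
      have h2 : 2 * A * j + 1 ≤ ((anc f x).card : ℝ) := by
        have : (m : ℝ) < (anc f x).card := by exact_mod_cast hx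
        linarith
      refine le_trans (le_of_eq ?_) (Finset.single_le_sum (f := fun x =>
        (open Classical in if 2 * A * j + 1 ≤ ((anc f x).card : ℝ) then (1 : ℝ) else 0))
        (fun i _ => by split_ifs <;> norm_num) (mem_univ x))
      rw [if_pos h2]
    · rw [if_neg h]
      exact Finset.sum_nonneg fun i _ => by split_ifs <;> norm_num
  refine h1.trans ?_
  calc ∑ x, PF N (fun f => 2 * A * j + 1 ≤ (anc f x).card) ≤ ∑ _x : V, ((1 : ℝ) / 2) ^ j :=
        Finset.sum_le_sum fun x _ => len_tail N hA x j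
    _ = _ := by rw [Finset.sum_const, Finset.card_univ, nsmul_eq_mul]

theorem half_pow {L : ℝ} {j : ℕ} (hj : 4 * L ≤ j) : (1 / 2 : ℝ) ^ j ≤ Real.exp (-(2 * L)) := by
  have h1 : (1 / 2 : ℝ) ≤ Real.exp (-(1 / 2)) := by
    have := Real.add_one_le_exp (-(1 / 2 : ℝ))
    linarith
  calc (1 / 2 : ℝ) ^ j ≤ Real.exp (-(1 / 2)) ^ j := pow_le_pow_left₀ (by norm_num) h1 j
    _ = Real.exp (-(j / 2 : ℝ)) := by
        rw [← Real.exp_nat_mul]
        congr 1
        ring
    _ ≤ _ := Real.exp_le_exp.mpr (by linarith)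

theorem exp17 : 1 + 2 * Real.exp 17 ≤ 3 * 10 ^ 8 := by
  have h1 : Real.exp 17 = Real.exp 1 ^ 17 := by
    rw [← Real.exp_nat_mul]
    norm_num
  have h2 : Real.exp 1 ^ 17 ≤ (3 : ℝ) ^ 17 :=
    pow_le_pow_left₀ (Real.exp_pos 1).le (by have := Real.exp_one_lt_d9; linarith) 17
  rw [h1]
  have h3 : (3 : ℝ) ^ 17 ≤ 1.3 * 10 ^ 8 := by norm_num
  linarith

/-- the error -/
theorem er_small {w L s N : ℝ} {K j : ℕ} (hL1 : 1 ≤ L) (hw : 10 ^ 12 * L ^ 2 ≤ w)
    (hs : w ^ 10 ≤ s) (hN : N = s ^ 2) (hK : 4100 * w ^ 10 ≤ K) (hK2 : Real.log K ≤ L)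
    (hj : (j : ℝ) ≤ 5 * L) (hj2 : (1 / 2 : ℝ) ^ j ≤ 1 / N ^ 2) :
    1 / N + erV (w ^ 2) K (w ^ 2 / (10 * s) / (1 / 100)) N j ≤ 2 / L := by
  have hL0 : 0 < L := by linarith
  have hw1 : 1 ≤ w := by nlinarith
  have hw0 : 0 < w := by linarith
  have hwp : ∀ k : ℕ, 1 ≤ k → w ≤ w ^ k := fun k hk => le_self_pow₀ hw1 (by omega)
  have hs1 : 1 ≤ s := (one_le_pow₀ hw1).trans hs
  have hs0 : 0 < s := by linarith
  have hsN : s ≤ N := by rw [hN]; nlinarith
  have hwN : w ≤ N := (hwp 10 (by norm_num)).trans (hs.trans hsN)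
  have hN0 : 0 < N := by linarith
  have hsq : Real.sqrt (w ^ 2) = w := Real.sqrt_sq hw0.le
  have hsqN : Real.sqrt N = s := by rw [hN, Real.sqrt_sq hs0.le]
  have t1 : (1 + 2 * Real.exp 17) / Real.sqrt (w ^ 2) ≤ 3 * 10 ^ 8 * L / w := by
    rw [hsq]
    refine div_le_div_of_nonneg_right ?_ hw0.le
    have := exp17
    nlinarith
  have t2 : 1 / (K : ℝ) ≤ L / w := by
    have h1 : w ≤ K := by
      have := hwp 10 (by norm_num)
      linarith [pow_pos hw0 10]
    calc 1 / (K : ℝ) ≤ 1 / w := one_div_le_one_div_of_le hw0 h1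
      _ ≤ L / w := div_le_div_of_nonneg_right hL1 hw0.le
  have t3 : 4 * (1 + Real.log K) / w ^ 2 ≤ 8 * L / w := by
    have h1 : 4 * (1 + Real.log K) ≤ 8 * L := by linarith
    calc 4 * (1 + Real.log K) / w ^ 2 ≤ 8 * L / w ^ 2 :=
          div_le_div_of_nonneg_right h1 (by positivity)
      _ ≤ 8 * L / w := div_le_div_of_nonneg_left (by positivity) hw0 (hwp 2 (by norm_num))
  have t4 : (j : ℝ) * (w ^ 2 / (10 * s) / (1 / 100)) ≤ 50 * L / w := by
    have h1 : w ^ 2 / (10 * s) / (1 / 100) ≤ 10 / w := by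
      have e : w ^ 2 / (10 * s) / (1 / 100) = 10 * w ^ 2 / s := by
        field_simp
        norm_num
      rw [e, div_le_div_iff₀ hs0 hw0]
      have h2 : w ^ 3 ≤ w ^ 10 := pow_le_pow_right₀ hw1 (by norm_num)
      nlinarith
    calc (j : ℝ) * (w ^ 2 / (10 * s) / (1 / 100)) ≤ (5 * L) * (10 / w) :=
          mul_le_mul hj h1 (by positivity) (by positivity)
      _ = 50 * L / w := by ring
  have t5 : (1 / 2 : ℝ) ^ j * Real.sqrt N ≤ L / w := by
    rw [hsqN]
    calc (1 / 2 : ℝ) ^ j * s ≤ 1 / N ^ 2 * N := mul_le_mul hj2 hsN hs0.le (by positivity)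
      _ = 1 / N := by field_simp
      _ ≤ 1 / w := one_div_le_one_div_of_le hw0 hwN
      _ ≤ L / w := div_le_div_of_nonneg_right hL1 hw0.le
  have t6 : 1 / N ≤ L / w := by
    calc 1 / N ≤ 1 / w := one_div_le_one_div_of_le hw0 hwN
      _ ≤ L / w := div_le_div_of_nonneg_right hL1 hw0.le
  have t7 : L / w ≤ 1 / (10 ^ 12 * L) := by
    rw [div_le_div_iff₀ hw0 (by positivity)]
    nlinarith
  have e1 : 3 * 10 ^ 8 * L / w = 3 * 10 ^ 8 * (L / w) := by ring
  have e2 : 8 * L / w = 8 * (L / w) := by ring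
  have e3 : 50 * L / w = 50 * (L / w) := by ring
  have e4 : 1 / (10 ^ 12 * L) = 1 / 10 ^ 12 * (1 / L) := by
    field_simp
  have e5 : 2 / L = 2 * (1 / L) := by ring
  have e6 : 0 < 1 / L := by positivity
  rw [e1] at t1
  rw [e2] at t3
  rw [e3] at t4
  rw [e4] at t7
  rw [e5]
  unfold erV
  generalize (1 + 2 * Real.exp 17) / Real.sqrt (w ^ 2) = a1 at *
  generalize 1 / (K : ℝ) = a2 at *
  generalize 4 * (1 + Real.log K) / w ^ 2 = a3 at *
  generalize (j : ℝ) * (w ^ 2 / (10 * s) / (1 / 100)) = a4 at *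
  generalize (1 / 2 : ℝ) ^ j * Real.sqrt N = a5 at *
  generalize 1 / N = a6 at *
  generalize L / w = q at *
  generalize 1 / L = q' at *
  norm_num at t7 ⊢
  linarith

/-- the deterministic part -/
theorem det {n : ℕ} (hn : 10 ≤ n) {w L : ℝ} (hL : L = Real.log n) (hL1 : 1 ≤ L)
    (hw : 10 ^ 12 * L ^ 2 ≤ w) (hwn : w ^ 20 ≤ n) (E : BlkEnv (Fin n)) (hM : E.M = univ)
    (hC : E.C = 100) (hρ : E.ρb = 1) (hs1 : E.smax = 1) (hd : ∀ v, cs E.κ v ≤ 2) :
    (1 - 2 / L) * n ≤ ∑ v, GG E.κ (fun T =>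
      (n : ℝ) / w ^ 15 ≤ (ball T v ⌊Real.sqrt n / w⌋₊).card) := by
  classical
  have hn0 : (0 : ℝ) < n := by
    have : 0 < n := by omega
    exact_mod_cast this
  have hn10 : (10 : ℝ) ≤ n := by exact_mod_cast hn
  have hexp : Real.exp L = n := by rw [hL, Real.exp_log hn0]
  have hw1 : 10 ^ 12 ≤ w := by nlinarith
  have hw1' : 1 ≤ w := by linarith
  have hw0 : 0 < w := by linarith
  obtain ⟨s, hs⟩ : ∃ s : ℝ, s = Real.sqrt n := ⟨_, rfl⟩
  have hN : (n : ℝ) = s ^ 2 := by rw [hs, Real.sq_sqrt hn0.le]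
  have hs0 : 0 < s := by rw [hs]; exact Real.sqrt_pos.2 hn0
  have hsw : w ^ 10 ≤ s := by
    rw [hs]
    refine Real.le_sqrt_of_sq_le ?_
    rw [← pow_mul]
    exact hwn
  have hwp : ∀ a b : ℕ, a ≤ b → w ^ a ≤ w ^ b := fun a b h => pow_le_pow_right₀ hw1' h
  rw [← hs]
  -- parameters
  obtain ⟨k1, hk1d⟩ : ∃ k1 : ℝ, k1 = w ^ 2 / (10 * s) := ⟨_, rfl⟩
  have hk1 : 0 < k1 := by rw [hk1d]; positivity
  have hk2 : (0 : ℝ) < 1 / 100 := by norm_num
  obtain ⟨K, hKd⟩ : ∃ K : ℕ, K = ⌈4100 * w ^ 10⌉₊ := ⟨_, rfl⟩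
  have hK1 : 4100 * w ^ 10 ≤ (K : ℝ) := by rw [hKd]; exact Nat.le_ceil _
  have hK2 : (K : ℝ) ≤ w ^ 11 := by
    have h1 : (K : ℝ) ≤ 4100 * w ^ 10 + 1 := by
      rw [hKd]; exact (Nat.ceil_lt_add_one (by positivity)).le
    have h2 : 1 ≤ w ^ 10 := one_le_pow₀ hw1'
    have h3 : w ^ 11 = w * w ^ 10 := by ring
    have h4 : 4101 * w ^ 10 ≤ w * w ^ 10 := mul_le_mul_of_nonneg_right (by linarith) (by positivity)
    linarith
  have hK0 : (0 : ℝ) < K := lt_of_lt_of_le (by positivity) hK1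
  obtain ⟨j, hjd⟩ : ∃ j : ℕ, j = ⌈4 * L⌉₊ := ⟨_, rfl⟩
  have hj1 : 4 * L ≤ (j : ℝ) := by rw [hjd]; exact Nat.le_ceil _
  have hj2 : (j : ℝ) ≤ 5 * L := by
    have h1 : (j : ℝ) ≤ 4 * L + 1 := by
      rw [hjd]; exact (Nat.ceil_lt_add_one (by linarith)).le
    linarith
  have hj3 : (1 / 2 : ℝ) ^ j ≤ 1 / (n : ℝ) ^ 2 := by
    refine (half_pow hj1).trans (le_of_eq ?_)
    rw [Real.exp_neg, ← one_div, ← hexp, ← Real.exp_nat_mul]
    norm_num
  obtain ⟨A, hAd⟩ : ∃ A : ℝ, A = 3 / k1 := ⟨_, rfl⟩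
  have hA0 : 0 < A := by rw [hAd]; positivity
  obtain ⟨m, hmd⟩ : ∃ m : ℕ, m = ⌈2 * A * j + 1⌉₊ := ⟨_, rfl⟩
  have hm1 : 2 * A * j + 1 ≤ (m : ℝ) := by rw [hmd]; exact Nat.le_ceil _
  have hm2 : (m : ℝ) ≤ 2 * A * j + 2 := by
    have : (m : ℝ) ≤ 2 * A * j + 1 + 1 := by
      rw [hmd]; exact (Nat.ceil_lt_add_one (by positivity)).le
    linarith
  -- the network
  have hnk : ∀ x, (E.net k1 hk1).k x = k1 := fun x => DnDet.net_k E hM hk1 x
  have hk11 : k1 ≤ 1 := by
    rw [hk1d, div_le_one (by positivity)]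
    have := hwp 2 10 (by norm_num)
    linarith
  have hA : ∀ x, ∑ u, grn (E.net k1 hk1) ∅ x u / grn (E.net k1 hk1) ∅ u u ≤ A := by
    intro x
    have h1 : ∀ u, grn (E.net k1 hk1) ∅ x u / grn (E.net k1 hk1) ∅ u u ≤
        3 / k1 * (grn (E.net k1 hk1) ∅ x u * (E.net k1 hk1).k u) := by
      intro u
      have h2 : 1 / 3 ≤ grn (E.net k1 hk1) ∅ u u := by
        refine DnDet.grn_diag_ge _ u ?_ (by norm_num)
        rw [hnk u]
        have := hd u
        show cs E.κ u + k1 ≤ 3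
        linarith
      have h3 : 0 ≤ grn (E.net k1 hk1) ∅ x u := grn_nonneg _ _ _ _
      have h4 : 0 < grn (E.net k1 hk1) ∅ u u := by linarith
      rw [hnk u, div_le_iff₀ h4]
      have e : 3 / k1 * (grn (E.net k1 hk1) ∅ x u * k1) * grn (E.net k1 hk1) ∅ u u =
          grn (E.net k1 hk1) ∅ x u * (3 * grn (E.net k1 hk1) ∅ u u) := by
        field_simp
      rw [e]
      exact le_mul_of_one_le_right h3 (by linarith)
    refine (Finset.sum_le_sum fun u _ => h1 u).trans (le_of_eq ?_)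
    rw [← Finset.mul_sum]
    have h5 := surv_empty (E.net k1 hk1) x
    unfold surv at h5
    rw [h5, mul_one, hAd]
  have hlen : PF (E.pn.net k1 hk1) (fun f => ∃ x, m < (anc f x).card) ≤ 1 / n := by
    refine (len_union (E.net k1 hk1) hA j m hm1).trans ?_
    rw [Fintype.card_fin]
    calc (n : ℝ) * (1 / 2) ^ j ≤ n * (1 / (n : ℝ) ^ 2) := mul_le_mul_of_nonneg_left hj3 hn0.le
      _ = 1 / n := by field_simp
  have hMc : (E.pn.M.card : ℝ) = n := by
    show (E.M.card : ℝ) = n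
    rw [hM, Finset.card_univ, Fintype.card_fin]
  have key := PN.ball_gen (by omega) E.pn (k1 := k1) (k2 := 1 / 100) (g := 4100) (σ := w ^ 2)
    hk1 hk2
    (by
      show 1 / 100 * (E.smax * E.C) ≤ 1
      rw [hs1, hC]
      norm_num)
    (by norm_num)
    (by
      intro y hy
      have h1 := E.grn_good hk2 (E.M_good hy)
      refine h1.trans ?_
      have hMc' : (E.M.card : ℝ) = n := hMc
      rw [hMc', hC, hρ]
      have h2 : 5 / (4 * (1 / 100 * (n : ℝ))) ≤ 60 := by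
        rw [div_le_iff₀ (by positivity)]
        linarith
      linarith)
    (one_le_pow₀ hw1')
    (by
      rw [hMc, hk1d, hN]
      field_simp
      norm_num)
    (by
      rw [hk1d, div_mul_eq_mul_div, div_le_div_iff₀ (by positivity) (by norm_num)]
      have h1 : w ^ 2 * w ^ 2 * 100 ≤ w ^ 10 := by
        calc w ^ 2 * w ^ 2 * 100 = 100 * w ^ 4 := by ring
          _ ≤ w * w ^ 4 := mul_le_mul_of_nonneg_right (by linarith) (by positivity)
          _ = w ^ 5 := by ring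
          _ ≤ w ^ 10 := hwp 5 10 (by norm_num)
      linarith)
    K
    (by
      refine le_trans (le_of_eq ?_) hK1
      ring)
    (by
      have h1 : (2 : ℝ) ≤ K := by
        have := one_le_pow₀ (n := 10) hw1'
        linarith
      exact_mod_cast h1)
    j m hlen
  rw [hMc] at key
  -- the error
  have her : 1 / (n : ℝ) + erV (w ^ 2) K (k1 / (1 / 100)) n j ≤ 2 / L := by
    rw [hk1d]
    refine er_small hL1 hw hsw hN hK1 ?_ hj2 hj3
    have h1 : (K : ℝ) ≤ n := hK2.trans ((hwp 11 20 (by norm_num)).trans hwn)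
    rw [hL]
    exact Real.log_le_log hK0 h1
  have h1 : (1 - 2 / L) * n ≤ (1 - 1 / n - erV (w ^ 2) K (k1 / (1 / 100)) n j) * n :=
    mul_le_mul_of_nonneg_right (by linarith) hn0.le
  refine h1.trans (key.trans ?_)
  refine Finset.sum_le_sum fun v _ => ?_
  refine GG_mono E.κ_pos fun T _ hT => ?_
  -- the radius
  have hr : 2 * m ≤ ⌊s / w⌋₊ := by
    refine Nat.le_floor ?_
    push_cast
    have e1 : A = 30 * s / w ^ 2 := by
      rw [hAd, hk1d]
      field_simp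
      norm_num
    have e2 : 2 * A * j ≤ 300 * L * (s / w ^ 2) := by
      rw [e1]
      calc 2 * (30 * s / w ^ 2) * (j : ℝ) ≤ 2 * (30 * s / w ^ 2) * (5 * L) :=
            mul_le_mul_of_nonneg_left hj2 (by positivity)
        _ = 300 * L * (s / w ^ 2) := by ring
    have e3 : 600 * L * (s / w ^ 2) ≤ s / w / 2 := by
      have e4 : 1200 * L ≤ w := by nlinarith
      have e5 : 600 * L * (s / w ^ 2) = (1200 * L) * (s / w ^ 2 / 2) := by ring
      have e6 : s / w / 2 = w * (s / w ^ 2 / 2) := by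
        field_simp
      rw [e5, e6]
      exact mul_le_mul_of_nonneg_right e4 (by positivity)
    have e7 : 8 ≤ s / w := by
      rw [le_div_iff₀ hw0]
      calc 8 * w ≤ w * w := mul_le_mul_of_nonneg_right (by linarith) hw0.le
        _ = w ^ 2 := by ring
        _ ≤ w ^ 10 := hwp 2 10 (by norm_num)
        _ ≤ s := hsw
    linarith
  have hb := ball_mono T v hr
  have hT' : n / K < (ball T v (2 * m)).card := hT
  have hKpos : 0 < K := by exact_mod_cast hK0
  have h2 : n < (ball T v (2 * m)).card * K := (Nat.div_lt_iff_lt_mul hKpos).1 hT'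
  have h3 : (n : ℝ) < (ball T v (2 * m)).card * K := by exact_mod_cast h2
  have h4 : ((ball T v (2 * m)).card : ℝ) ≤ (ball T v ⌊s / w⌋₊).card := by exact_mod_cast hb
  show (n : ℝ) / w ^ 15 ≤ (ball T v ⌊s / w⌋₊).card
  rw [div_le_iff₀ (by positivity)]
  calc (n : ℝ) ≤ (ball T v (2 * m)).card * K := h3.le
    _ ≤ (ball T v ⌊s / w⌋₊).card * w ^ 15 :=
      mul_le_mul h4 (hK2.trans (hwp 11 15 (by norm_num))) hK0.le (Nat.cast_nonneg _)

theorem ev {ε : ℝ} (hε : 0 < ε) : ∀ᶠ n : ℕ in atTop, 10 ^ 12 * Real.log n ^ 2 ≤ (n : ℝ) ^ ε := by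
  have h1 := (isLittleO_log_rpow_rpow_atTop (2 : ℝ) hε).bound
    (show (0 : ℝ) < 1 / 10 ^ 12 by norm_num)
  have h2 := (tendsto_natCast_atTop_atTop (R := ℝ)).eventually h1
  filter_upwards [h2, eventually_ge_atTop 1] with n hn hn1
  have hn0 : (0 : ℝ) < n := by exact_mod_cast hn1
  have hl : 0 ≤ Real.log n := Real.log_nonneg (by exact_mod_cast hn1)
  have e : Real.log n ^ (2 : ℝ) = Real.log n ^ 2 := by
    rw [← Real.rpow_natCast]
    norm_num
  rw [e, Real.norm_of_nonneg (by positivity), Real.norm_of_nonneg (by positivity)] at hn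
  have h3 : 10 ^ 12 * Real.log n ^ 2 ≤ 10 ^ 12 * (1 / 10 ^ 12 * (n : ℝ) ^ ε) :=
    mul_le_mul_of_nonneg_left hn (by norm_num)
  refine h3.trans (le_of_eq ?_)
  ring

end DnTyp

/-- the ball volume for very high temperatures -/
theorem dense_typ {ε : ℝ} (hε : 0 < ε) (hε1 : ε ≤ 1 / 20) : ∀ᶠ n : ℕ in atTop, ∀ β : ℝ,
    0 ≤ β → β ≤ n / Real.log n ^ 3 →
    (1 - 3 / Real.log n) * n ≤ ∑ v, avgw (wexp β) n (fun T =>
      (n : ℝ) ^ (1 - 15 * ε) ≤ (ball T v ⌊(n : ℝ) ^ (1 / 2 - ε)⌋₊).card) := by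
  have hlog : ∀ᶠ n : ℕ in atTop, 1 ≤ Real.log n :=
    (Real.tendsto_log_atTop.comp tendsto_natCast_atTop_atTop).eventually_ge_atTop _
  filter_upwards [dense_env, DnTyp.ev hε, hlog, eventually_ge_atTop 10] with n henv hw hL1 hn
  intro β hβ0 hβ1
  obtain ⟨μ, hμ, hbad⟩ := henv β hβ0 hβ1
  have hn0 : (0 : ℝ) < n := by
    have : 0 < n := by omega
    exact_mod_cast this
  have hn1 : (1 : ℝ) ≤ n := by
    have : 1 ≤ n := by omega
    exact_mod_cast this
  have hL0 : 0 < Real.log n := by linarith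
  have hle : (1 : ℝ) / n ≤ 1 / Real.log n :=
    one_div_le_one_div_of_le hL0 (Real.log_le_self hn0.le)
  -- powers
  have e15 : (n : ℝ) ^ (1 - 15 * ε) = n / ((n : ℝ) ^ ε) ^ 15 := by
    rw [Real.rpow_sub hn0, Real.rpow_one, ← Real.rpow_natCast, ← Real.rpow_mul hn0.le]
    congr 2
    push_cast
    ring
  have e12 : (n : ℝ) ^ (1 / 2 - ε) = Real.sqrt n / (n : ℝ) ^ ε := by
    rw [Real.rpow_sub hn0, Real.sqrt_eq_rpow]
  have e20 : ((n : ℝ) ^ ε) ^ 20 ≤ n := by
    rw [← Real.rpow_natCast, ← Real.rpow_mul hn0.le]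
    calc (n : ℝ) ^ (ε * ((20 : ℕ) : ℝ)) ≤ (n : ℝ) ^ (1 : ℝ) := by
          apply Real.rpow_le_rpow_of_exponent_le hn1
          push_cast
          linarith
      _ = n := Real.rpow_one _
  rw [e15, e12]
  have hkey := avgw_sum_ge (w := wexp β) (n := n) (wexp_pos β) (wexp_meas β)
    (fun v T => (n : ℝ) / ((n : ℝ) ^ ε) ^ 15 ≤
      (ball T v ⌊Real.sqrt n / (n : ℝ) ^ ε⌋₊).card)
    {U : Ev n | ¬ ((∀ v, cs (kU β U) v ≤ 2 * (n * μ)) ∧
      ∀ A B : Finset (Fin n), Disjoint A B → n ≤ A.card + B.card + 1 → A.card ≤ B.card →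
        μ / 2 * (A.card * B.card) ≤ ∑ x ∈ A, ∑ y ∈ B, Kc (kU β U) x y)}
    (η := 1 / n) (δ := 2 / Real.log n) (by positivity) (by positivity) hbad (by
      intro U hU
      have hU' : (∀ v, cs (kU β U) v ≤ 2 * (n * μ)) ∧
          ∀ A B : Finset (Fin n), Disjoint A B → n ≤ A.card + B.card + 1 → A.card ≤ B.card →
            μ / 2 * (A.card * B.card) ≤ ∑ x ∈ A, ∑ y ∈ B, Kc (kU β U) x y := by
        by_contra h
        exact hU h
      have hD : (0 : ℝ) < n * μ := by positivity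
      have hD' : 0 < 1 / ((n : ℝ) * μ) := by positivity
      obtain ⟨E, hEκ, hM, hC, hρ, hs1⟩ := dense_blk hn (fun e => 1 / ((n : ℝ) * μ) * kU β U e)
        (fun e => mul_pos hD' (kU_pos β U e))
        (fun v => by
          rw [DnDet.cs_scale]
          have := mul_le_mul_of_nonneg_left (hU'.1 v) hD'.le
          refine this.trans (le_of_eq ?_)
          field_simp)
        (fun A B hAB h1 h2 => by
          have := mul_le_mul_of_nonneg_left (hU'.2 A B hAB h1 h2) hD'.le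
          have e : ∑ x ∈ A, ∑ y ∈ B, Kc (fun e => 1 / ((n : ℝ) * μ) * kU β U e) x y =
              1 / ((n : ℝ) * μ) * ∑ x ∈ A, ∑ y ∈ B, Kc (kU β U) x y := by
            rw [Finset.mul_sum]
            refine Finset.sum_congr rfl fun x _ => ?_
            rw [Finset.mul_sum]
            exact Finset.sum_congr rfl fun y _ => DnDet.Kc_scale _ _ x y
          rw [e]
          refine le_trans (le_of_eq ?_) this
          field_simp)
      have hdE : ∀ v, cs E.κ v ≤ 2 := by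
        intro v
        rw [hEκ, DnDet.cs_scale]
        have := mul_le_mul_of_nonneg_left (hU'.1 v) hD'.le
        refine this.trans (le_of_eq ?_)
        field_simp
      have h := DnTyp.det hn rfl hL1 hw e20 E hM hC hρ hs1 hdE
      refine h.trans (le_of_eq ?_)
      refine Finset.sum_congr rfl fun v _ => ?_
      rw [hEκ]
      exact GG_scale hD' _)
  refine le_trans ?_ hkey
  refine mul_le_mul_of_nonneg_right ?_ hn0.le
  have e : (3 : ℝ) / Real.log n = 2 / Real.log n + 1 / Real.log n := by ring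
  rw [e]
  linarith

end

end Pool.Agent.TH972.U
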