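import Pool.Agent.TH972.U.VDef2

/-!
# Equilibrium measures
-/

set_option autoImplicit false
set_option linter.unusedSectionVars false

namespace Pool.Agent.TH972.U

open Finset

noncomputable section

variable {V : Type} [Fintype V] [DecidableEq V]

open Grn

namespace Eqm

/-- the total of the Laplacian is zero -/
lemma lap_sum (N : Net V) (f : V → ℝ) :
    ∑ x, (cs N.κ x * f x - ∑ w, Kc N.κ x w * f w) = 0 := by
  have h1 : ∑ x, ∑ w, Kc N.κ x w * f w = ∑ x, cs N.κ x * f x := by
    rw [Finset.sum_comm]
    apply Finset.sum_congr rfl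
    intro x _
    rw [cs_mul]
    apply Finset.sum_congr rfl
    intro w _
    rw [Kc_symm N.κ w x]
  rw [Finset.sum_sub_distrib, h1, sub_self]

lemma surv_mono_k (N N' : Net V) (hκ : N'.κ = N.κ) (hk : ∀ x, N.k x ≤ N'.k x) (A : Finset V)
    (w : V) : surv N A w ≤ surv N' A w := by
  have h1 := max_pr N A (fun x => surv N A x - surv N' A x)
    (fun x hx => by rw [surv_mem N hx, surv_mem N' hx, sub_self])
    (fun x hx => by
      have e : ∑ w, Kc N.κ x w * (surv N A w - surv N' A w) =
          ∑ w, Kc N.κ x w * surv N A w - ∑ w, Kc N.κ x w * surv N' A w := by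
        rw [← Finset.sum_sub_distrib]
        exact Finset.sum_congr rfl fun w _ => by ring
      have h2 := surv_harm N hx
      have h3 := surv_harm N' hx
      rw [hκ] at h3
      rw [e]
      have h4 := mul_nonneg (sub_nonneg.mpr (hk x)) (sub_nonneg.mpr (surv_le_one N' A x))
      nlinarith) w
  linarith

/-- the probability to leave through `S` (zero on the killed set) -/
def qf (N : Net V) (A S : Finset V) (x : V) : ℝ :=
  ∑ z ∈ S, ∑ w, grn N A x w * Kc N.κ w z

lemma qf_mem (N : Net V) {A S : Finset V} {x : V} (hx : x ∈ A) : qf N A S x = 0 := by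
  unfold qf
  exact Finset.sum_eq_zero fun z _ => Finset.sum_eq_zero fun w _ => by
    rw [grn_left N w hx, zero_mul]

lemma qf_harm (N : Net V) {A S : Finset V} {x : V} (hx : x ∉ A) :
    (cs N.κ x + N.k x) * qf N A S x =
      ∑ z ∈ S, Kc N.κ x z + ∑ v, Kc N.κ x v * qf N A S v := by
  have h1 : ∀ w, (cs N.κ x + N.k x) * grn N A x w =
      (if x = w then 1 else 0) + ∑ v, Kc N.κ x v * grn N A v w := by
    intro w
    by_cases hw : w ∈ A
    · have hxw : x ≠ w := fun h => hx (h ▸ hw)
      rw [grn_right N x hw, mul_zero, if_neg hxw, zero_add]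
      exact (Finset.sum_eq_zero fun v _ => by rw [grn_right N v hw, mul_zero]).symm
    · exact grn_eq N hx hw
  have h2 : ∀ z, (cs N.κ x + N.k x) * ∑ w, grn N A x w * Kc N.κ w z =
      Kc N.κ x z + ∑ v, Kc N.κ x v * ∑ w, grn N A v w * Kc N.κ w z := by
    intro z
    have h3 : (cs N.κ x + N.k x) * ∑ w, grn N A x w * Kc N.κ w z =
        ∑ w, ((if x = w then Kc N.κ w z else 0) +
          ∑ v, Kc N.κ x v * (grn N A v w * Kc N.κ w z)) := by
      rw [Finset.mul_sum]
      apply Finset.sum_congr rfl
      intro w _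
      rw [← mul_assoc, h1, add_mul, Finset.sum_mul]
      congr 1
      · split_ifs <;> ring
      · exact Finset.sum_congr rfl fun v _ => by ring
    rw [h3, Finset.sum_add_distrib, Finset.sum_ite_eq, if_pos (mem_univ x), Finset.sum_comm]
    congr 1
    apply Finset.sum_congr rfl
    intro v _
    rw [Finset.mul_sum]
  unfold qf
  rw [Finset.mul_sum, Finset.sum_congr rfl fun z _ => h2 z, Finset.sum_add_distrib,
    Finset.sum_comm]
  congr 1
  apply Finset.sum_congr rfl
  intro v _
  rw [Finset.mul_sum]

/-- the probability to hit `S` -/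
def pf (N : Net V) (A S : Finset V) (x : V) : ℝ := qf N A S x + if x ∈ S then 1 else 0

lemma pf_harm (N : Net V) {A S : Finset V} (hS : S ⊆ A) {x : V} (hx : x ∉ A) :
    (cs N.κ x + N.k x) * pf N A S x = ∑ v, Kc N.κ x v * pf N A S v := by
  have hxS : x ∉ S := fun h => hx (hS h)
  unfold pf
  rw [if_neg hxS, add_zero, qf_harm N hx]
  have h1 : ∑ v, Kc N.κ x v * (qf N A S v + if v ∈ S then 1 else 0) =
      ∑ v, Kc N.κ x v * qf N A S v + ∑ v, (if v ∈ S then Kc N.κ x v else 0) := by
    rw [← Finset.sum_add_distrib]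
    apply Finset.sum_congr rfl
    intro v _
    split_ifs <;> ring
  rw [h1, Finset.sum_ite_mem, Finset.univ_inter, add_comm]

/-- the mass of the equilibrium measure on `S` -/
lemma pf_sum (N : Net V) (A S : Finset V) :
    ∑ y, N.k y * pf N A S y = ∑ z ∈ S, eqm N A z := by
  unfold pf
  have h1 : ∑ y, N.k y * (qf N A S y + if y ∈ S then 1 else 0) =
      ∑ y, N.k y * qf N A S y + ∑ y, (if y ∈ S then N.k y else 0) := by
    rw [← Finset.sum_add_distrib]
    apply Finset.sum_congr rfl
    intro v _
    split_ifs <;> ring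
  have h2 : ∑ y, N.k y * qf N A S y = ∑ z ∈ S, ∑ w, Kc N.κ z w * surv N A w := by
    unfold qf surv
    simp only [Finset.mul_sum]
    rw [Finset.sum_comm]
    apply Finset.sum_congr rfl
    intro z _
    rw [Finset.sum_comm]
    apply Finset.sum_congr rfl
    intro w _
    apply Finset.sum_congr rfl
    intro y _
    rw [grn_symm N A y w, Kc_symm N.κ w z]
    ring
  rw [h1, h2, Finset.sum_ite_mem, Finset.univ_inter]
  unfold eqm
  rw [Finset.sum_add_distrib, add_comm]

end Eqm

open Eqm

theorem eqm_nonneg (N : Net V) (A : Finset V) (z : V) : 0 ≤ eqm N A z := by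
  unfold eqm
  exact add_nonneg (N.k_nonneg z) (Finset.sum_nonneg fun w _ =>
    mul_nonneg (Kc_nn N z w) (surv_nonneg N A w))

theorem eqm_anti (N : Net V) {A A' : Finset V} (h : A ⊆ A') (z : V) :
    eqm N A' z ≤ eqm N A z := by
  unfold eqm
  have h1 : ∑ w, Kc N.κ z w * surv N A' w ≤ ∑ w, Kc N.κ z w * surv N A w :=
    Finset.sum_le_sum fun w _ => mul_le_mul_of_nonneg_left (surv_anti N h w) (Kc_nn N z w)
  linarith

theorem eqm_mono_k (N N' : Net V) (hκ : N'.κ = N.κ) (hk : ∀ x, N.k x ≤ N'.k x) (A : Finset V)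
    (z : V) : eqm N A z ≤ eqm N' A z := by
  unfold eqm
  rw [hκ]
  have h1 : ∑ w, Kc N.κ z w * surv N A w ≤ ∑ w, Kc N.κ z w * surv N' A w :=
    Finset.sum_le_sum fun w _ =>
      mul_le_mul_of_nonneg_left (surv_mono_k N N' hκ hk A w) (Kc_nn N z w)
  have h2 := hk z
  linarith

/-- the total mass -/
theorem eqm_sum (N : Net V) (A : Finset V) :
    ∑ z ∈ A, eqm N A z = ∑ x, N.k x * (1 - surv N A x) := by
  have h1 : ∀ x, N.k x * (1 - surv N A x) = (if x ∈ A then eqm N A x else 0) +
      (cs N.κ x * surv N A x - ∑ w, Kc N.κ x w * surv N A w) := by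
    intro x
    by_cases hx : x ∈ A
    · rw [if_pos hx, surv_mem N hx]
      unfold eqm
      ring
    · rw [if_neg hx]
      have := surv_harm N hx
      linarith
  rw [Finset.sum_congr rfl fun x _ => h1 x, Finset.sum_add_distrib, lap_sum, add_zero,
    Finset.sum_ite_mem, Finset.univ_inter]

/-- the increment of the capacity -/
theorem eqm_inc (N : Net V) {D S : Finset V} (h : Disjoint D S) :
    ∑ x, N.k x * (surv N D x - surv N (D ∪ S) x) ≤ ∑ z ∈ S, eqm N (D ∪ S) z := by
  have h1 := eqm_sum N (D ∪ S)
  have h2 := eqm_sum N D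
  rw [Finset.sum_union h] at h1
  have h3 : ∑ z ∈ D, eqm N (D ∪ S) z ≤ ∑ z ∈ D, eqm N D z :=
    Finset.sum_le_sum fun z _ => eqm_anti N Finset.subset_union_left z
  have h4 : ∑ x, N.k x * (surv N D x - surv N (D ∪ S) x) =
      ∑ x, N.k x * (1 - surv N (D ∪ S) x) - ∑ x, N.k x * (1 - surv N D x) := by
    rw [← Finset.sum_sub_distrib]
    exact Finset.sum_congr rfl fun x _ => by ring
  linarith

/-- the gap is bounded by the equilibrium measure -/
theorem eqm_gap (P : PN V) {k g : ℝ} (hk : 0 < k)
    (hg : ∀ y ∈ P.M, grn (P.net k hk) ∅ y y ≤ g) {D S : Finset V} (h : Disjoint D S) :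
    ∑ y ∈ P.M, (grn (P.net k hk) D y y - grn (P.net k hk) (D ∪ S) y y) ≤
      g / k * ∑ z ∈ S, eqm (P.net k hk) (D ∪ S) z := by
  set N := P.net k hk with hN
  set A := D ∪ S with hA
  have hSA : S ⊆ A := Finset.subset_union_right
  have hDA : D ⊆ A := Finset.subset_union_left
  have key : ∀ y ∈ P.M, grn N D y y - grn N A y y ≤ g * pf N A S y := by
    intro y hy
    have h1 := max_pr N A (fun x => grn N D x y - grn N A x y - g * pf N A S x)
      (fun x hx => by
        rw [grn_left N y hx, sub_zero]
        unfold pf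
        rw [qf_mem N hx, zero_add]
        by_cases hxS : x ∈ S
        · rw [if_pos hxS]
          have h1 := grn_le_diag N D x y
          have h2 := grn_anti N (Finset.empty_subset D) y y
          have h3 := hg y hy
          linarith
        · have hxD : x ∈ D := by
            rcases Finset.mem_union.mp hx with h' | h'
            · exact h'
            · exact absurd h' hxS
          rw [if_neg hxS, grn_left N y hxD]
          linarith)
      (fun x hx => by
        have hxD : x ∉ D := fun h' => hx (hDA h')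
        have e : ∑ w, Kc N.κ x w * (grn N D w y - grn N A w y - g * pf N A S w) =
            ∑ w, Kc N.κ x w * grn N D w y - ∑ w, Kc N.κ x w * grn N A w y -
              g * ∑ w, Kc N.κ x w * pf N A S w := by
          rw [Finset.mul_sum, ← Finset.sum_sub_distrib, ← Finset.sum_sub_distrib]
          exact Finset.sum_congr rfl fun w _ => by ring
        have h4 : (cs N.κ x + N.k x) * (grn N D x y - grn N A x y) =
            ∑ w, Kc N.κ x w * grn N D w y - ∑ w, Kc N.κ x w * grn N A w y := by
          by_cases hyA : y ∈ A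
          · have hxy : x ≠ y := fun h' => hx (h' ▸ hyA)
            have h5 : ∑ w, Kc N.κ x w * grn N A w y = 0 :=
              Finset.sum_eq_zero fun w _ => by rw [grn_right N w hyA, mul_zero]
            rw [h5, grn_right N x hyA, sub_zero, sub_zero]
            by_cases hyD : y ∈ D
            · have h6 : ∑ w, Kc N.κ x w * grn N D w y = 0 :=
                Finset.sum_eq_zero fun w _ => by rw [grn_right N w hyD, mul_zero]
              rw [h6, grn_right N x hyD, mul_zero]
            · rw [grn_eq N hxD hyD, if_neg hxy, zero_add]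
          · have hyD : y ∉ D := fun h' => hyA (hDA h')
            have h2 := grn_eq N hx hyA
            have h3 := grn_eq N hxD hyD
            linarith
        have h5 := pf_harm N hSA hx
        rw [e, ← h4, ← h5]
        apply le_of_eq
        ring) y
    linarith
  have h1 : ∑ y ∈ P.M, (grn N D y y - grn N A y y) ≤ ∑ y ∈ P.M, g * pf N A S y :=
    Finset.sum_le_sum key
  have h2 : k * ∑ y ∈ P.M, pf N A S y = ∑ z ∈ S, eqm N A z := by
    rw [← pf_sum N A S, Finset.mul_sum]
    have h3 : ∀ y, N.k y * pf N A S y = if y ∈ P.M then k * pf N A S y else 0 := by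
      intro y
      have h4 : N.k y = if y ∈ P.M then k else 0 := rfl
      rw [h4]
      split_ifs <;> ring
    rw [Finset.sum_congr rfl fun y _ => h3 y, Finset.sum_ite_mem, Finset.univ_inter]
  rw [← Finset.mul_sum] at h1
  rw [← h2]
  have h3 : g / k * (k * ∑ y ∈ P.M, pf N A S y) = g * ∑ y ∈ P.M, pf N A S y := by
    field_simp
  rw [h3]
  exact h1

end

end Pool.Agent.TH972.U
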