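import Pool.Agent.TH972.U.BlkPN
import Pool.Agent.TH972.U.Forest
import Pool.Agent.TH972.U.GDef
import Pool.Agent.W842.RST.Chain
import Pool.Agent.W842.RST.Levels

/-!
# Bad forests (definition)
-/

set_option autoImplicit false
set_option linter.unusedSectionVars false

namespace Pool.Agent.TH972.U

open Finset Pool.Agent.W842.RST Pool.Agent.TH972

noncomputable section

variable {n : ℕ}

/-- the path of a vertex joined to a mark at the level `p` uses an edge above the level `p'` -/
def BadF (U : Ev n) (M : Finset (Fin n)) (p p' : ℝ) (f : Fin n → Option (Fin n)) : Prop :=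
  ∃ x, (∃ ρ ∈ M, (GU U p).Reachable ρ x) ∧ ∃ a ∈ anc f x, ∃ b, f a = some b ∧ p' < U s(a, b)

end

end Pool.Agent.TH972.U
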