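import Pool.Agent.TH972.U.LiftU

/-!
# Tail of the weight of simple paths
-/

set_option autoImplicit false
set_option linter.unusedSectionVars false

namespace Pool.Agent.TH972.U

open Finset MeasureTheory Pool.Agent.W842.RST Pool.Agent.TH972

noncomputable section

variable {n : ℕ}

namespace PTail

/-- extension of a finite path -/
def X {t : ℕ} (y : Fin (t + 1) → Fin n) (j : ℕ) : Fin n := y ⟨min j t, by omega⟩

theorem X_eq {t : ℕ} (x : ℕ → Fin n) {j : ℕ} (hj : j ≤ t) :
    X (fun i : Fin (t + 1) => x i) j = x j := by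
  unfold X
  simp only [min_eq_left hj]

theorem edge_inj {t : ℕ} {x : ℕ → Fin n} (hx : Set.InjOn x (Set.Iic t)) :
    Set.InjOn (fun j => s(x j, x (j + 1))) ((range t : Finset ℕ) : Set ℕ) := by
  intro i hi j hj h
  rw [Finset.mem_coe, Finset.mem_range] at hi hj
  simp only [Sym2.eq_iff] at h
  have mem : ∀ k, k ≤ t → k ∈ Set.Iic t := fun k hk => hk
  rcases h with ⟨h1, _⟩ | ⟨h1, h2⟩
  · exact hx (mem _ (by omega)) (mem _ (by omega)) h1
  · have h3 := hx (mem _ (by omega)) (mem _ (by omega)) h1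
    have h4 := hx (mem _ (by omega)) (mem _ (by omega)) h2
    omega

open Classical in
/-- one path -/
theorem one {p : ℝ} (ρ : ℝ → ℝ) (hρ : Measurable ρ)
    {θ T : ℝ} (hθ : 0 ≤ θ) (hb : ∃ C, ∀ x ≤ p, ρ x ≤ C) (t : ℕ) (x : ℕ → Fin n)
    (hx : Set.InjOn x (Set.Iic t)) :
    env n {U | (∀ j < t, U s(x j, x (j + 1)) ≤ p) ∧
      T < ∑ j ∈ range t, ρ (U s(x j, x (j + 1)))} ≤
      ENNReal.ofReal ((∫ x, (if x ≤ p then Real.exp (θ * ρ x) else 0) ∂nu) ^ t *
        Real.exp (-(θ * T))) := by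
  obtain ⟨C, hC⟩ := hb
  set φ : ℝ → ℝ := fun x => if x ≤ p then Real.exp (θ * ρ x) else 0 with hφd
  have hφ : Measurable φ :=
    Measurable.ite measurableSet_Iic (Real.measurable_exp.comp (hρ.const_mul θ)) measurable_const
  have hφ0 : ∀ z, 0 ≤ φ z := by
    intro z
    simp only [hφd]
    split_ifs
    · exact (Real.exp_pos _).le
    · exact le_refl _
  have hφC : ∀ z, |φ z| ≤ Real.exp (θ * C) := by
    intro z
    rw [abs_of_nonneg (hφ0 z)]
    simp only [hφd]
    split_ifs with h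
    · exact Real.exp_le_exp.2 (mul_le_mul_of_nonneg_left (hC z h) hθ)
    · exact (Real.exp_pos _).le
  set E0 : Finset (Sym2 (Fin n)) := (range t).image (fun j => s(x j, x (j + 1))) with hE0
  have hinj := edge_inj hx
  have hcard : E0.card = t := by
    rw [hE0, Finset.card_image_of_injOn hinj, Finset.card_range]
  have hBMe : ∀ e : Sym2 (Fin n), BM (fun U : Ev n => φ (U e)) := fun e =>
    ⟨hφ.comp (measurable_pi_apply e), Real.exp (θ * C), fun U => hφC _⟩
  have hBM : ∀ S : Finset (Sym2 (Fin n)), BM (fun U : Ev n => ∏ e ∈ S, φ (U e)) := by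
    intro S
    induction S using Finset.induction_on with
    | empty => simpa using BM.const 1
    | insert a S ha ih =>
      simp only [Finset.prod_insert ha]
      exact (hBMe a).mul ih
  have hEx : Ex (fun U : Ev n => ∏ e ∈ E0, φ (U e)) = (∫ x, φ x ∂nu) ^ t := by
    rw [Lvl.Ex_prod E0 φ hφ, hcard]
  have h1 := env_markov (hBM E0) (fun U => Finset.prod_nonneg fun e _ => hφ0 _)
    (Real.exp_pos (θ * T)) hEx.le
  have e1 : (∫ x, φ x ∂nu) ^ t / Real.exp (θ * T) = (∫ x, φ x ∂nu) ^ t * Real.exp (-(θ * T)) := by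
    rw [Real.exp_neg, div_eq_mul_inv]
  rw [e1] at h1
  refine le_trans (measure_mono ?_) h1
  rintro U ⟨h2, h3⟩
  show Real.exp (θ * T) ≤ ∏ e ∈ E0, φ (U e)
  rw [hE0, Finset.prod_image hinj]
  have h4 : ∀ j ∈ range t, φ (U s(x j, x (j + 1))) =
      Real.exp (θ * ρ (U s(x j, x (j + 1)))) := by
    intro j hj
    simp only [hφd]
    rw [if_pos (h2 j (Finset.mem_range.1 hj))]
  rw [Finset.prod_congr rfl h4, ← Real.exp_sum, ← Finset.mul_sum]
  exact Real.exp_le_exp.2 (mul_le_mul_of_nonneg_left h3.le hθ)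

end PTail

/-- tail of the total weight of the edges of a simple path of low level -/
theorem path_tail {p : ℝ} (ρ : ℝ → ℝ) (hρ : Measurable ρ) (hρ0 : ∀ x, 0 ≤ ρ x)
    {θ δ T : ℝ} (hθ : 0 ≤ θ) (hδ : 0 < δ) (hb : ∃ C, ∀ x ≤ p, ρ x ≤ C)
    (h : n * ∫ x, (if x ≤ p then Real.exp (θ * ρ x) else 0) ∂nu ≤ 1 - δ) :
    env n {U | ∃ (t : ℕ) (x : ℕ → Fin n), Set.InjOn x (Set.Iic t) ∧
      (∀ j < t, U s(x j, x (j + 1)) ≤ p) ∧ T < ∑ j ∈ range t, ρ (U s(x j, x (j + 1)))} ≤
      ENNReal.ofReal (n / δ * Real.exp (-(θ * T))) := by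
  classical
  set I : ℝ := ∫ x, (if x ≤ p then Real.exp (θ * ρ x) else 0) ∂nu with hI
  have hI0 : 0 ≤ I := by
    refine integral_nonneg fun z => ?_
    show (0 : ℝ) ≤ (if z ≤ p then Real.exp (θ * ρ z) else 0)
    split_ifs
    · exact (Real.exp_pos _).le
    · exact le_refl _
  have hn0 : (0 : ℝ) ≤ n := Nat.cast_nonneg n
  have hE := (Real.exp_pos (-(θ * T))).le
  set A : (t : ℕ) → (Fin (t + 1) → Fin n) → Set (Ev n) := fun t y =>
    {U | Set.InjOn (PTail.X y) (Set.Iic t) ∧ (∀ j < t, U s(PTail.X y j, PTail.X y (j + 1)) ≤ p) ∧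
      T < ∑ j ∈ range t, ρ (U s(PTail.X y j, PTail.X y (j + 1)))} with hA
  have hA1 : ∀ t y, env n (A t y) ≤ ENNReal.ofReal (I ^ t * Real.exp (-(θ * T))) := by
    intro t y
    by_cases hinj : Set.InjOn (PTail.X y) (Set.Iic t)
    · refine le_trans (measure_mono ?_) (PTail.one ρ hρ hθ hb t (PTail.X y) hinj)
      rintro U ⟨_, h2⟩
      exact h2
    · have : A t y = ∅ := by
        ext U
        simp only [hA, Set.mem_ofPred_eq, Set.mem_empty_iff_false, iff_false]
        exact fun h => hinj h.1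
      rw [this, measure_empty]
      exact zero_le
  have hsub : {U : Ev n | ∃ (t : ℕ) (x : ℕ → Fin n), Set.InjOn x (Set.Iic t) ∧
      (∀ j < t, U s(x j, x (j + 1)) ≤ p) ∧ T < ∑ j ∈ range t, ρ (U s(x j, x (j + 1)))} ⊆
      ⋃ t ∈ range n, ⋃ y ∈ (univ : Finset (Fin (t + 1) → Fin n)), A t y := by
    rintro U ⟨t, x, h1, h2, h3⟩
    have ht : t < n := by
      have h4 : (Finset.Iic t).card ≤ (univ : Finset (Fin n)).card :=
        Finset.card_le_card_of_injOn x (fun _ _ => Finset.mem_coe.2 (Finset.mem_univ _))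
          (by rw [Finset.coe_Iic]; exact h1)
      rw [Nat.card_Iic, Finset.card_univ, Fintype.card_fin] at h4
      omega
    simp only [Set.mem_iUnion, exists_prop]
    refine ⟨t, Finset.mem_range.2 ht, fun i : Fin (t + 1) => x i, Finset.mem_univ _, ?_, ?_, ?_⟩
    · intro i hi j hj hij
      rw [PTail.X_eq x hi, PTail.X_eq x hj] at hij
      exact h1 hi hj hij
    · intro j hj
      rw [PTail.X_eq x hj.le, PTail.X_eq x (by omega : j + 1 ≤ t)]
      exact h2 j hj
    · refine h3.trans_le (le_of_eq (Finset.sum_congr rfl fun j hj => ?_))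
      rw [Finset.mem_range] at hj
      rw [PTail.X_eq x hj.le, PTail.X_eq x (by omega : j + 1 ≤ t)]
  refine (measure_mono hsub).trans ?_
  refine (measure_biUnion_finset_le _ _).trans ?_
  have hB : ∀ t ∈ range n, env n (⋃ y ∈ (univ : Finset (Fin (t + 1) → Fin n)), A t y) ≤
      ENNReal.ofReal (n * (n * I) ^ t * Real.exp (-(θ * T))) := by
    intro t _
    refine (measure_biUnion_finset_le _ _).trans ?_
    refine (Finset.sum_le_sum fun y _ => hA1 t y).trans ?_
    rw [Finset.sum_const, Finset.card_univ, Fintype.card_fun, Fintype.card_fin, Fintype.card_fin,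
      ← ENNReal.ofReal_nsmul]
    refine ENNReal.ofReal_le_ofReal (le_of_eq ?_)
    rw [nsmul_eq_mul]
    push_cast
    ring
  refine (Finset.sum_le_sum hB).trans ?_
  rw [← ENNReal.ofReal_sum_of_nonneg (fun t _ => by positivity)]
  refine ENNReal.ofReal_le_ofReal ?_
  have hz0 : 0 ≤ n * I := mul_nonneg hn0 hI0
  have hz1 : n * I < 1 := by linarith
  have hgeo : ∑ t ∈ range n, (n * I) ^ t ≤ 1 / δ := by
    have h5 : (∑ t ∈ range n, (n * I) ^ t) * (1 - n * I) ≤ 1 := by
      rw [geom_sum_mul_neg]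
      have : 0 ≤ (n * I) ^ n := by positivity
      linarith
    have h6 : 0 ≤ ∑ t ∈ range n, (n * I) ^ t := Finset.sum_nonneg fun t _ => by positivity
    rw [le_div_iff₀ hδ]
    nlinarith
  calc ∑ t ∈ range n, n * (n * I) ^ t * Real.exp (-(θ * T)) =
      n * (∑ t ∈ range n, (n * I) ^ t) * Real.exp (-(θ * T)) := by
        rw [Finset.mul_sum, Finset.sum_mul]
    _ ≤ n * (1 / δ) * Real.exp (-(θ * T)) := by gcongr
    _ = n / δ * Real.exp (-(θ * T)) := by ring

end

end Pool.Agent.TH972.U
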