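import Pool.Agent.TH972.U.LvDef
import Pool.Agent.TH972.U.PTail

/-!
# Tails of low paths
-/

set_option autoImplicit false

namespace Pool.Agent.TH972.U

open Finset MeasureTheory Pool.Agent.W842.RST Pool.Agent.TH972

noncomputable section

variable {n : ℕ}

namespace Tail

theorem exp_one {z : ℝ} (h0 : 0 ≤ z) (h1 : z ≤ 1) : Real.exp z ≤ 1 + 1.72 * z := by
  have h := convexOn_exp.2 (Set.mem_univ (0 : ℝ)) (Set.mem_univ (1 : ℝ))
    (by linarith : (0 : ℝ) ≤ 1 - z) h0 (by ring)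
  simp only [smul_eq_mul, mul_zero, zero_add, mul_one, Real.exp_zero] at h
  have h2 := Real.exp_one_lt_d9
  nlinarith

theorem exp_small {z : ℝ} (h0 : 0 ≤ z) (h1 : z ≤ 1 / 14) : Real.exp z ≤ 1 + 1.08 * z := by
  have h := Real.exp_bound_div_one_sub_of_interval h0 (by linarith)
  refine h.trans ?_
  rw [div_le_iff₀ (by linarith)]
  nlinarith

/-- the truncated integral of `ρ` -/
def R (w : ℝ → ℝ) (p : ℝ) : ℝ := ∫ x, (if x ≤ p then 1 / w x else 0) ∂nu

theorem int_one {p : ℝ} (h0 : 0 ≤ p) (h1 : p ≤ 1) :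
    ∫ x, (if x ≤ p then (1 : ℝ) else 0) ∂nu = p := by
  have h : (fun x : ℝ => if x ≤ p then (1 : ℝ) else 0) =
      (Set.Iic p).indicator (fun _ => (1 : ℝ)) := by
    ext x
    by_cases hx : x ≤ p
    · rw [if_pos hx, Set.indicator_of_mem (Set.mem_Iic.2 hx)]
    · rw [if_neg hx, Set.indicator_of_notMem (fun h => hx (Set.mem_Iic.1 h))]
  rw [h, integral_indicator measurableSet_Iic, setIntegral_const, smul_eq_mul, mul_one,
    measureReal_def, nu_Iic h0 h1, ENNReal.toReal_ofReal h0]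

theorem integrable_bdd {F : ℝ → ℝ} (hF : Measurable F) {C : ℝ} (hC : ∀ x, |F x| ≤ C) :
    Integrable F nu :=
  Integrable.of_bound hF.aestronglyMeasurable C (Filter.Eventually.of_forall hC)

theorem meas_one (p : ℝ) : Measurable fun x : ℝ => if x ≤ p then (1 : ℝ) else 0 :=
  Measurable.ite measurableSet_Iic measurable_const measurable_const

theorem int_one' (p : ℝ) : Integrable (fun x : ℝ => if x ≤ p then (1 : ℝ) else 0) nu := by
  refine integrable_bdd (meas_one p) (C := 1) fun x => ?_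
  split_ifs <;> simp

variable {w : ℝ → ℝ} {gam : ℤ → ℝ} {y : ℝ} {K : ℕ}

theorem rho_nn (H : Lvs w gam n y K) (u : ℝ) : 0 ≤ 1 / w u := (one_div_pos.2 (H.wpos u)).le

theorem meas_rho (H : Lvs w gam n y K) : Measurable fun u => 1 / w u := measurable_const.div H.wmeas

theorem int_rho (H : Lvs w gam n y K) {p : ℝ} {i : ℤ} (hi : -(K : ℤ) ≤ i) (hp : p ≤ gam i) :
    Integrable (fun x : ℝ => if x ≤ p then 1 / w x else 0) nu := by
  refine integrable_bdd (Measurable.ite measurableSet_Iic (meas_rho H) measurable_const)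
    (C := Real.exp i) fun x => ?_
  split_ifs with hx
  · rw [abs_of_nonneg (rho_nn H x)]
    exact H.up i hi x (hx.trans hp)
  · rw [abs_zero]; exact (Real.exp_pos _).le

theorem gam_nn (H : Lvs w gam n y K) {i : ℤ} (hi : -(K : ℤ) ≤ i) : 0 ≤ gam i :=
  H.pos.trans (H.mono hi)

theorem gam_le (H : Lvs w gam n y K) {i : ℤ} (hi : i ≤ K + 1) : gam i ≤ 1 :=
  (H.mono hi).trans H.le1

theorem R_base (H : Lvs w gam n y K) : R w (gam (-(K : ℤ))) ≤ Real.exp (-(K : ℝ)) * gam (-(K : ℤ)) := by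
  have h1 : gam (-(K : ℤ)) = ∫ x, (if x ≤ gam (-(K : ℤ)) then (1 : ℝ) else 0) ∂nu :=
    (int_one H.pos (gam_le H (by omega))).symm
  have h2 : Real.exp (-(K : ℝ)) * gam (-(K : ℤ)) =
      ∫ x, Real.exp (-(K : ℝ)) * (if x ≤ gam (-(K : ℤ)) then (1 : ℝ) else 0) ∂nu := by
    rw [integral_const_mul, ← h1]
  rw [h2]
  unfold R
  refine integral_mono (int_rho H le_rfl le_rfl) ((int_one' _).const_mul _) fun x => ?_
  show (if x ≤ gam (-(K : ℤ)) then 1 / w x else 0) ≤
    Real.exp (-(K : ℝ)) * (if x ≤ gam (-(K : ℤ)) then (1 : ℝ) else 0)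
  split_ifs with hx
  · rw [mul_one]
    have := H.up (-(K : ℤ)) le_rfl x hx
    push_cast at this
    exact this
  · simp

theorem R_step (H : Lvs w gam n y K) {i : ℤ} (hi : -(K : ℤ) ≤ i) (hi' : i ≤ K) :
    R w (gam (i + 1)) ≤ R w (gam i) + Real.exp ((i : ℝ) + 1) * (gam (i + 1) - gam i) := by
  have h1 := int_one (gam_nn H (by omega : -(K : ℤ) ≤ i + 1)) (gam_le H (by omega))
  have h2 := int_one (gam_nn H hi) (gam_le H (by omega))
  have hd : Integrable (fun x : ℝ => (if x ≤ gam (i + 1) then (1 : ℝ) else 0) -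
      (if x ≤ gam i then (1 : ℝ) else 0)) nu := (int_one' _).sub (int_one' _)
  have h3 : R w (gam i) + Real.exp ((i : ℝ) + 1) * (gam (i + 1) - gam i) =
      ∫ x, ((if x ≤ gam i then 1 / w x else 0) + Real.exp ((i : ℝ) + 1) *
        ((if x ≤ gam (i + 1) then (1 : ℝ) else 0) - (if x ≤ gam i then (1 : ℝ) else 0))) ∂nu := by
    rw [integral_add (int_rho H hi le_rfl) (hd.const_mul _),
      integral_const_mul, integral_sub (int_one' _) (int_one' _), h1, h2]
    rfl
  rw [h3]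
  unfold R
  refine integral_mono (int_rho H (by omega) le_rfl)
    ((int_rho H hi le_rfl).add (hd.const_mul _)) fun x => ?_
  show (if x ≤ gam (i + 1) then 1 / w x else 0) ≤ (if x ≤ gam i then 1 / w x else 0) +
    Real.exp ((i : ℝ) + 1) *
        ((if x ≤ gam (i + 1) then (1 : ℝ) else 0) - (if x ≤ gam i then (1 : ℝ) else 0))
  have hm : gam i ≤ gam (i + 1) := H.mono (by omega)
  by_cases hx : x ≤ gam i
  · rw [if_pos hx, if_pos (hx.trans hm), if_pos hx, if_pos (hx.trans hm), sub_self, mul_zero,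
      add_zero]
  · by_cases hx' : x ≤ gam (i + 1)
    · rw [if_neg hx, if_pos hx', if_neg hx, if_pos hx', sub_zero, mul_one, zero_add]
      have := H.up (i + 1) (by omega) x hx'
      push_cast at this
      exact this
    · rw [if_neg hx, if_neg hx', if_neg hx, if_neg hx', sub_self, mul_zero, add_zero]

theorem R_le (H : Lvs w gam n y K) (hy : 1 ≤ y) (m : ℕ) (hm : m ≤ 2 * K + 1) :
    n * R w (gam (-(K : ℤ) + m)) ≤ Real.exp (-(K : ℝ)) + 1.6 * Real.exp (-(K : ℝ) + m) / y := by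
  have hn0 : (0 : ℝ) ≤ n := Nat.cast_nonneg n
  have hy0 : 0 < y := by linarith
  induction m with
  | zero =>
    simp only [Nat.cast_zero, add_zero]
    have h1 := R_base H
    have h2 : n * gam (-(K : ℤ)) ≤ 1 := by
      rw [← H.g0]
      exact mul_le_mul_of_nonneg_left (H.mono (by omega)) hn0
    have h3 : n * R w (gam (-(K : ℤ))) ≤ Real.exp (-(K : ℝ)) := by
      calc n * R w (gam (-(K : ℤ))) ≤ n * (Real.exp (-(K : ℝ)) * gam (-(K : ℤ))) :=
            mul_le_mul_of_nonneg_left h1 hn0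
        _ = Real.exp (-(K : ℝ)) * (n * gam (-(K : ℤ))) := by ring
        _ ≤ Real.exp (-(K : ℝ)) * 1 := mul_le_mul_of_nonneg_left h2 (Real.exp_pos _).le
        _ = _ := mul_one _
    have h4 : 0 ≤ 1.6 * Real.exp (-(K : ℝ)) / y := by positivity
    linarith
  | succ m ih =>
    have ih := ih (by omega)
    have h1 := R_step H (i := -(K : ℤ) + m) (by omega) (by omega)
    have h2 := H.hi (-(K : ℤ) + m) (by omega) (by omega)
    have e1 : (-(K : ℤ) + (m + 1 : ℕ)) = -(K : ℤ) + m + 1 := by push_cast; ring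
    rw [e1]
    push_cast at h1 ⊢
    set E := Real.exp (-(K : ℝ) + m + 1) with hE
    have hE0 : 0 < E := Real.exp_pos _
    have hE1 : Real.exp (-(K : ℝ) + m) = E * Real.exp (-1) := by
      rw [hE, ← Real.exp_add]; congr 1; ring
    have hE2 : Real.exp (-(K : ℝ) + (m + 1)) = E := by rw [hE]; congr 1; ring
    rw [hE2]
    rw [hE1] at ih
    have he : Real.exp (-1) ≤ 0.37 := by
      rw [Real.exp_neg]
      have := Real.exp_one_gt_d9
      rw [inv_le_comm₀ (Real.exp_pos _) (by norm_num)]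
      norm_num
      linarith
    have h3 : n * R w (gam (-(K : ℤ) + m + 1)) ≤ n * R w (gam (-(K : ℤ) + m)) +
        E * (n * (gam (-(K : ℤ) + m + 1) - gam (-(K : ℤ) + m))) := by
      have := mul_le_mul_of_nonneg_left h1 hn0
      calc _ ≤ _ := this
        _ = _ := by ring
    have h4 : E * (n * (gam (-(K : ℤ) + m + 1) - gam (-(K : ℤ) + m))) ≤ E * (1.001 / y) :=
      mul_le_mul_of_nonneg_left h2 hE0.le
    have h5 : 1.6 * (E * Real.exp (-1)) / y + E * (1.001 / y) ≤ 1.6 * E / y := by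
      have : 1.6 * (E * Real.exp (-1)) / y + E * (1.001 / y) =
          (1.6 * (E * Real.exp (-1)) + 1.001 * E) / y := by ring
      rw [this]
      apply div_le_div_of_nonneg_right _ hy0.le
      nlinarith [mul_le_mul_of_nonneg_left he hE0.le]
    linarith

/-- the exponential moment from the first moment -/
theorem moment (H : Lvs w gam n y K) {p θ c : ℝ} {i : ℤ} (hi : -(K : ℤ) ≤ i) (hi' : i ≤ K + 1)
    (hp0 : 0 ≤ p) (hp : p ≤ gam i) (hθ : 0 ≤ θ) (hc : 0 ≤ c)
    (h : ∀ z, 0 ≤ z → z ≤ θ * Real.exp i → Real.exp z ≤ 1 + c * z) :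
    n * ∫ x, (if x ≤ p then Real.exp (θ * (1 / w x)) else 0) ∂nu ≤
      n * p + c * θ * (n * R w (gam i)) := by
  have hn0 : (0 : ℝ) ≤ n := Nat.cast_nonneg n
  have h1 := int_one hp0 (hp.trans (gam_le H hi'))
  have key : ∫ x, (if x ≤ p then Real.exp (θ * (1 / w x)) else 0) ∂nu ≤
      p + c * θ * R w (gam i) := by
    have h3 : p + c * θ * R w (gam i) =
        ∫ x, ((if x ≤ p then (1 : ℝ) else 0) + c * θ * (if x ≤ gam i then 1 / w x else 0)) ∂nu := by
      rw [integral_add (int_one' _) ((int_rho H hi le_rfl).const_mul _), integral_const_mul, h1]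
      rfl
    rw [h3]
    refine integral_mono (integrable_bdd (Measurable.ite measurableSet_Iic
      (Real.measurable_exp.comp ((meas_rho H).const_mul θ)) measurable_const)
      (C := Real.exp (θ * Real.exp i)) fun x => ?_)
      ((int_one' _).add ((int_rho H hi le_rfl).const_mul _)) fun x => ?_
    · split_ifs with hx
      · rw [abs_of_pos (Real.exp_pos _)]
        exact Real.exp_le_exp.2 (mul_le_mul_of_nonneg_left (H.up i hi x (hx.trans hp)) hθ)
      · rw [abs_zero]; exact (Real.exp_pos _).le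
    · show (if x ≤ p then Real.exp (θ * (1 / w x)) else 0) ≤
        (if x ≤ p then (1 : ℝ) else 0) + c * θ * (if x ≤ gam i then 1 / w x else 0)
      by_cases hx : x ≤ p
      · rw [if_pos hx, if_pos hx, if_pos (hx.trans hp)]
        have := h (θ * (1 / w x)) (mul_nonneg hθ (rho_nn H x))
          (mul_le_mul_of_nonneg_left (H.up i hi x (hx.trans hp)) hθ)
        linarith
      · rw [if_neg hx, if_neg hx, zero_add]
        split_ifs
        · exact mul_nonneg (mul_nonneg hc hθ) (rho_nn H x)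
        · simp
  calc _ ≤ n * (p + c * θ * R w (gam i)) := mul_le_mul_of_nonneg_left key hn0
    _ = _ := by ring

theorem lo_sum (H : Lvs w gam n y K) (a : ℕ) (haK : a ≤ K) :
    n * gam (-(a : ℤ)) ≤ 1 - 0.999 * a / y := by
  induction a with
  | zero => simp [H.g0]
  | succ a ih =>
    have ih := ih (by omega)
    have h1 := H.lo (-((a + 1 : ℕ) : ℤ)) (by omega) (by omega)
    have e1 : -((a + 1 : ℕ) : ℤ) + 1 = -(a : ℤ) := by push_cast; ring
    rw [e1] at h1
    have e2 : 0.999 * ((a + 1 : ℕ) : ℝ) / y = 0.999 * a / y + 0.999 / y := by push_cast; ring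
    rw [e2]
    linarith

theorem exp_bd (h0 : 2 ≤ n) {θ T C : ℝ} (hT : θ * T = 4 * Real.log n) (_ : 0 ≤ C)
    (hC : C ≤ (n : ℝ) ^ 3) :
    ENNReal.ofReal (C * Real.exp (-(θ * T))) ≤ ENNReal.ofReal (1 / n) := by
  apply ENNReal.ofReal_le_ofReal
  have hn : (0 : ℝ) < n := by
    have : 0 < n := by omega
    exact_mod_cast this
  have e : Real.exp (-(θ * T)) = 1 / (n : ℝ) ^ 4 := by
    rw [hT, Real.exp_neg, one_div]
    congr 1
    have : (4 : ℝ) * Real.log n = Real.log ((n : ℝ) ^ 4) := by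
      rw [Real.log_pow]; norm_num
    rw [this, Real.exp_log (by positivity)]
  rw [e]
  calc C * (1 / (n : ℝ) ^ 4) ≤ (n : ℝ) ^ 3 * (1 / (n : ℝ) ^ 4) :=
        mul_le_mul_of_nonneg_right hC (by positivity)
    _ = 1 / n := by field_simp

end Tail

theorem tail_low {w : ℝ → ℝ} {gam : ℤ → ℝ} {y : ℝ} {K : ℕ} (H : Lvs w gam n y K) (hn : 2 ≤ n)
    (hy : 1 ≤ y) (hyn : y ≤ n) (a : ℕ) (ha : 13 ≤ a) (haK : a ≤ K)
    (hK : y * Real.exp a ≤ Real.exp K) :
    env n {U | ∃ (t : ℕ) (x : ℕ → Fin n), Set.InjOn x (Set.Iic t) ∧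
      (∀ j < t, U s(x j, x (j + 1)) ≤ gam (-(a : ℤ))) ∧
      4 * Real.log n * Real.exp (-a) < ∑ j ∈ range t, 1 / w (U s(x j, x (j + 1)))} ≤
      ENNReal.ofReal (1 / n) := by
  have hy0 : 0 < y := by linarith
  have ha0 : (13 : ℝ) ≤ a := by exact_mod_cast ha
  have hn0 : (2 : ℝ) ≤ n := by exact_mod_cast hn
  have hR := Tail.R_le H hy (K - a) (by omega)
  have e1 : (-(K : ℤ) + ((K - a : ℕ) : ℤ)) = -(a : ℤ) := by omega
  have e2 : (-(K : ℝ) + ((K - a : ℕ) : ℝ)) = -(a : ℝ) := by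
    rw [Nat.cast_sub haK]; ring
  rw [e1, e2] at hR
  have hm := Tail.moment H (p := gam (-(a : ℤ))) (θ := Real.exp a) (c := 1.72) (i := -(a : ℤ))
    (by omega) (by omega) (Tail.gam_nn H (by omega)) le_rfl (Real.exp_pos _).le (by norm_num) (by
      intro z hz0 hz1
      apply Tail.exp_one hz0
      refine hz1.trans (le_of_eq ?_)
      push_cast
      rw [← Real.exp_add, add_neg_cancel, Real.exp_zero])
  have hlo := Tail.lo_sum H a haK
  have hθR : Real.exp a * (n * Tail.R w (gam (-(a : ℤ)))) ≤ 2.6 / y := by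
    calc Real.exp a * (n * Tail.R w (gam (-(a : ℤ)))) ≤
        Real.exp a * (Real.exp (-(K : ℝ)) + 1.6 * Real.exp (-(a : ℝ)) / y) :=
          mul_le_mul_of_nonneg_left hR (Real.exp_pos _).le
      _ = Real.exp a * Real.exp (-(K : ℝ)) + 1.6 / y * (Real.exp a * Real.exp (-(a : ℝ))) := by
          ring
      _ = Real.exp a * Real.exp (-(K : ℝ)) + 1.6 / y := by
          rw [← Real.exp_add (a : ℝ) (-(a : ℝ)), add_neg_cancel, Real.exp_zero, mul_one]
      _ ≤ 1 / y + 1.6 / y := by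
          have : Real.exp a * Real.exp (-(K : ℝ)) ≤ 1 / y := by
            rw [le_div_iff₀ hy0, Real.exp_neg]
            have := (Real.exp_pos (K : ℝ))
            calc Real.exp a * (Real.exp (K : ℝ))⁻¹ * y = (y * Real.exp a) * (Real.exp (K : ℝ))⁻¹ := by
                  ring
              _ ≤ Real.exp K * (Real.exp (K : ℝ))⁻¹ :=
                  mul_le_mul_of_nonneg_right hK (inv_nonneg.2 this.le)
              _ = 1 := mul_inv_cancel₀ this.ne'
          linarith
      _ = 2.6 / y := by ring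
  have hI : n * ∫ x, (if x ≤ gam (-(a : ℤ)) then Real.exp (Real.exp a * (1 / w x)) else 0) ∂nu ≤
      1 - a / (2 * y) := by
    refine hm.trans ?_
    have e3 : 1.72 * Real.exp a * (n * Tail.R w (gam (-(a : ℤ)))) =
        1.72 * (Real.exp a * (n * Tail.R w (gam (-(a : ℤ))))) := by ring
    rw [e3]
    have h1 : 1.72 * (Real.exp a * (n * Tail.R w (gam (-(a : ℤ))))) ≤ 1.72 * (2.6 / y) :=
      mul_le_mul_of_nonneg_left hθR (by norm_num)
    have h2 : 1 - 0.999 * a / y + 1.72 * (2.6 / y) ≤ 1 - a / (2 * y) := by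
      have : 1 - a / (2 * y) - (1 - 0.999 * a / y + 1.72 * (2.6 / y)) =
          (0.499 * a - 1.72 * 2.6) / y := by field_simp; ring
      have h3 : 0 ≤ (0.499 * a - 1.72 * 2.6) / y := by
        apply div_nonneg _ hy0.le
        nlinarith
      linarith
    linarith
  refine (path_tail (p := gam (-(a : ℤ))) (fun u => 1 / w u) (Tail.meas_rho H) (Tail.rho_nn H)
    (Real.exp_pos (a : ℝ)).le (by positivity : 0 < a / (2 * y))
    ⟨Real.exp ((-(a : ℤ) : ℤ) : ℝ), fun x hx => H.up _ (by omega) x hx⟩ hI).trans ?_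
  apply Tail.exp_bd hn
  · rw [mul_comm (4 * Real.log n), ← mul_assoc, ← Real.exp_add, add_neg_cancel, Real.exp_zero,
      one_mul]
  · positivity
  · rw [div_le_iff₀ (by positivity)]
    have e4 : (n : ℝ) ^ 3 * (a / (2 * y)) = (n : ℝ) ^ 3 * a / (2 * y) := by ring
    rw [e4, le_div_iff₀ (by positivity)]
    have h5 : (n : ℝ) * (2 * y) ≤ n * (2 * n) := by
      apply mul_le_mul_of_nonneg_left _ (by linarith)
      linarith
    have h6 : (n : ℝ) * (2 * n) ≤ n ^ 3 * a := by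
      have h7 : (n : ℝ) ^ 3 * 13 ≤ n ^ 3 * a := mul_le_mul_of_nonneg_left ha0 (by positivity)
      nlinarith [mul_self_nonneg (n : ℝ), mul_nonneg (by linarith : (0 : ℝ) ≤ n)
        (mul_self_nonneg (n : ℝ))]
    linarith

theorem tail_blk {w : ℝ → ℝ} {gam : ℤ → ℝ} {y : ℝ} {K : ℕ} (H : Lvs w gam n y K) (hn : 2 ≤ n)
    (hy : 1 ≤ y) (hK : y ≤ Real.exp K) {gb : ℝ} (hgb : 0 < gb) (hgby : gb * y ≤ 1 / 2)
    (hgn : 2 / gb ≤ (n : ℝ) ^ 2) :
    env n {U | ∃ (t : ℕ) (x : ℕ → Fin n), Set.InjOn x (Set.Iic t) ∧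
      (∀ j < t, U s(x j, x (j + 1)) ≤ (1 - gb) / n) ∧
      28 * Real.log n / (gb * y) < ∑ j ∈ range t, 1 / w (U s(x j, x (j + 1)))} ≤
      ENNReal.ofReal (1 / n) := by
  have hy0 : 0 < y := by linarith
  have hn0 : (2 : ℝ) ≤ n := by exact_mod_cast hn
  have hnp : (0 : ℝ) < n := by linarith
  have hgb1 : gb ≤ 1 / 2 := by nlinarith
  have hR := Tail.R_le H hy K (by omega)
  have e1 : (-(K : ℤ) + (K : ℤ)) = 0 := by omega
  have e2 : (-(K : ℝ) + (K : ℝ)) = 0 := by ring
  rw [e1, e2, Real.exp_zero, mul_one] at hR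
  have hg0 : gam 0 = 1 / n := by
    rw [eq_div_iff hnp.ne', mul_comm]; exact H.g0
  have hp : (1 - gb) / n ≤ gam 0 := by
    rw [hg0]
    exact div_le_div_of_nonneg_right (by linarith) hnp.le
  have hm := Tail.moment H (p := (1 - gb) / n) (θ := gb * y / 7) (c := 1.08) (i := 0)
    (by omega) (by omega) (div_nonneg (by linarith) hnp.le) hp (by positivity) (by norm_num) (by
      intro z hz0 hz1
      apply Tail.exp_small hz0
      refine hz1.trans ?_
      push_cast
      rw [Real.exp_zero]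
      linarith)
  have hnp' : n * ((1 - gb) / n) = 1 - gb := by field_simp
  have hI : n * ∫ x, (if x ≤ (1 - gb) / n then Real.exp (gb * y / 7 * (1 / w x)) else 0) ∂nu ≤
      1 - gb / 2 := by
    refine hm.trans ?_
    rw [hnp']
    have h1 : y * Real.exp (-(K : ℝ)) ≤ 1 := by
      rw [Real.exp_neg]
      have := (Real.exp_pos (K : ℝ))
      calc y * (Real.exp (K : ℝ))⁻¹ ≤ Real.exp K * (Real.exp (K : ℝ))⁻¹ :=
            mul_le_mul_of_nonneg_right hK (inv_nonneg.2 this.le)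
        _ = 1 := mul_inv_cancel₀ this.ne'
    have h2 : 1.08 * (gb * y / 7) * (n * Tail.R w (gam 0)) ≤
        1.08 * (gb * y / 7) * (Real.exp (-(K : ℝ)) + 1.6 / y) :=
      mul_le_mul_of_nonneg_left hR (by positivity)
    have h3 : 1.08 * (gb * y / 7) * (Real.exp (-(K : ℝ)) + 1.6 / y) =
        1.08 / 7 * gb * (y * Real.exp (-(K : ℝ)) + 1.6) := by field_simp
    have h4 : 1.08 / 7 * gb * (y * Real.exp (-(K : ℝ)) + 1.6) ≤ 1.08 / 7 * gb * (1 + 1.6) :=
      mul_le_mul_of_nonneg_left (by linarith) (by positivity)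
    nlinarith
  refine (path_tail (p := (1 - gb) / n) (fun u => 1 / w u) (Tail.meas_rho H) (Tail.rho_nn H)
    (by positivity : 0 ≤ gb * y / 7) (by positivity : 0 < gb / 2)
    ⟨Real.exp ((0 : ℤ) : ℝ), fun x hx => H.up _ (by omega) x (hx.trans hp)⟩ hI).trans ?_
  apply Tail.exp_bd hn
  · field_simp
    ring
  · positivity
  · have e3 : (n : ℝ) / (gb / 2) = n * (2 / gb) := by field_simp
    rw [e3]
    calc (n : ℝ) * (2 / gb) ≤ n * (n : ℝ) ^ 2 := mul_le_mul_of_nonneg_left hgn hnp.le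
      _ = (n : ℝ) ^ 3 := by ring

end

end Pool.Agent.TH972.U
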