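import Pool.Agent.TH972.U.OkDef
import Pool.Agent.TH972.U.Graph
import Pool.Agent.TH972.U.Arm
import Pool.Agent.TH972.U.Count
import Pool.Agent.TH972.U.Tail

/-!
# Good environments
(job RSTRE Z4 of helper972, written by helper359)
-/

set_option autoImplicit false
set_option linter.unusedVariables false
set_option linter.unusedSectionVars false

namespace Pool.Agent.TH972.U

open Finset MeasureTheory Pool.Agent.W842.RST Pool.Agent.TH972

noncomputable section

variable {n : ℕ}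

namespace GEnv

/-! ### basic numerical facts -/

section basic

variable {P : Prm n}

theorem n0 (H : P.Ok) : (0 : ℝ) < n := by
  have := H.hn
  exact_mod_cast (by omega : 0 < n)

theorem y0 (H : P.Ok) : 0 < P.y := by
  have h1 := H.lvs.lo 0 (by omega) (by omega)
  have h2 := H.lvs.hi 0 (by omega) (by omega)
  have h3 : 0 ≤ 1 / P.y := by
    have e1 : 0.999 / P.y = 0.999 * (1 / P.y) := by ring
    have e2 : 1.001 / P.y = 1.001 * (1 / P.y) := by ring
    rw [e1] at h1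
    rw [e2] at h2
    linarith
  rcases lt_trichotomy P.y 0 with h | h | h
  · have := one_div_neg.2 h
    linarith
  · exfalso
    have h4 := H.ngb
    unfold Prm.gb at h4
    rw [h, div_zero] at h4
    have := H.hL
    norm_num at h4
    linarith
  · exact h

theorem gb0 (H : P.Ok) : 0 < P.gb := div_pos H.hη (y0 H)

theorem gby (H : P.Ok) : P.gb * P.y = P.η := by
  unfold Prm.gb
  exact div_mul_cancel₀ _ (y0 H).ne'

theorem gbt (H : P.Ok) : P.gb = P.η * (1 / P.y) := by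
  unfold Prm.gb
  ring

theorem K13 (H : P.Ok) : (13 : ℝ) ≤ P.K := by
  have h1 := H.ha5
  have h2 := H.ha5K
  have h3 := H.hI0K
  exact_mod_cast (by omega : 13 ≤ P.K)

theorem Kt (H : P.Ok) : (P.K : ℝ) * (1 / P.y) ≤ 1 / 1000 := by
  have := H.hKy
  rw [div_eq_mul_one_div] at this
  exact this

theorem t0 (H : P.Ok) : 0 < 1 / P.y := one_div_pos.2 (y0 H)

theorem tle (H : P.Ok) : 1 / P.y ≤ 1 / 13000 := by
  have h1 := Kt H
  have h2 := K13 H
  have h3 := t0 H
  nlinarith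

theorem y1 (H : P.Ok) : 1 ≤ P.y := by
  have h1 := tle H
  have h2 : 1 / P.y ≤ 1 := h1.trans (by norm_num)
  exact (one_div_le (y0 H) one_pos).1 (by simpa using h2) |>.trans_eq' (by norm_num)

theorem gble (H : P.Ok) : P.gb ≤ 1 / 13000000 := by
  rw [gbt H]
  have h1 := tle H
  have h2 := t0 H
  have h3 := H.hη1
  have h4 := H.hη
  nlinarith

theorem IK (H : P.Ok) : (P.I : ℝ) ≤ P.K := by
  have h1 := H.hK
  have h2 := H.hb0
  have h3 : 0 ≤ Real.log (2 * P.m + 1) := Real.log_nonneg (by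
    have : (0 : ℝ) ≤ P.m := Nat.cast_nonneg _
    linarith)
  have h4 : (0 : ℝ) ≤ P.I := Nat.cast_nonneg _
  linarith

theorem n18 (H : P.Ok) : (10 : ℝ) ^ 18 ≤ n * P.gb ^ 3 := by
  have h1 := H.ngb
  have h2 := H.hL
  nlinarith

theorem nbig (H : P.Ok) : (10 : ℝ) ^ 18 ≤ n * P.gb ^ 2 := by
  have h1 := n18 H
  have h2 := gble H
  have h3 := gb0 H
  have h4 := n0 H
  have h5 : n * P.gb ^ 3 ≤ n * P.gb ^ 2 := by
    apply mul_le_mul_of_nonneg_left _ h4.le
    have : P.gb ^ 3 = P.gb ^ 2 * P.gb := by ring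
    rw [this]
    have h6 : 0 < P.gb ^ 2 := by positivity
    nlinarith
  linarith

theorem nbig1 (H : P.Ok) : (10 : ℝ) ^ 18 ≤ n * P.gb := by
  have h1 := nbig H
  have h2 := gble H
  have h3 := gb0 H
  have h4 := n0 H
  have h5 : n * P.gb ^ 2 ≤ n * P.gb := by
    apply mul_le_mul_of_nonneg_left _ h4.le
    nlinarith
  linarith

theorem nbig0 (H : P.Ok) : (10 : ℝ) ^ 18 ≤ n := by
  have h1 := nbig1 H
  have h2 := gble H
  have h3 := gb0 H
  have h4 := n0 H
  nlinarith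

theorem nbig3 (H : P.Ok) : (1000 : ℝ) ≤ n :=
  le_trans (by norm_num) (nbig0 H)

theorem Ln (H : P.Ok) : Real.log n ≤ n := (Real.log_le_sub_one_of_pos (n0 H)).trans (by linarith)

theorem up {w : ℝ → ℝ} {gam : ℤ → ℝ} {y : ℝ} {K : ℕ} (H : Lvs w gam n y K) (a : ℕ) :
    a ≤ K + 1 → 0.999 * a * (1 / y) ≤ n * gam a - 1 ∧ n * gam a - 1 ≤ 1.001 * a * (1 / y) := by
  induction a with
  | zero =>
    intro _
    have := H.g0
    constructor
    · simp [this]
    · simp [this]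
  | succ a ih =>
    intro ha
    obtain ⟨h1, h2⟩ := ih (by omega)
    have h3 := H.lo a (by omega) (by omega)
    have h4 := H.hi a (by omega) (by omega)
    have e1 : 0.999 / y = 0.999 * (1 / y) := by ring
    have e2 : 1.001 / y = 1.001 * (1 / y) := by ring
    rw [e1] at h3
    rw [e2] at h4
    push_cast
    constructor
    · linarith
    · linarith

theorem down {w : ℝ → ℝ} {gam : ℤ → ℝ} {y : ℝ} {K : ℕ} (H : Lvs w gam n y K) (a : ℕ) :
    a ≤ K → 0.999 * a * (1 / y) ≤ 1 - n * gam (-(a : ℤ)) ∧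
      1 - n * gam (-(a : ℤ)) ≤ 1.001 * a * (1 / y) := by
  induction a with
  | zero =>
    intro _
    have := H.g0
    constructor
    · simp [this]
    · simp [this]
  | succ a ih =>
    intro ha
    obtain ⟨h1, h2⟩ := ih (by omega)
    have h3 := H.lo (-((a + 1 : ℕ) : ℤ)) (by omega) (by omega)
    have h4 := H.hi (-((a + 1 : ℕ) : ℤ)) (by omega) (by omega)
    have e0 : -((a + 1 : ℕ) : ℤ) + 1 = -(a : ℤ) := by omega
    rw [e0] at h3 h4
    have e1 : 0.999 / y = 0.999 * (1 / y) := by ring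
    have e2 : 1.001 / y = 1.001 * (1 / y) := by ring
    rw [e1] at h3
    rw [e2] at h4
    have e3 : (((a + 1 : ℕ) : ℝ)) = (a : ℝ) + 1 := by push_cast; ring
    rw [e3]
    constructor
    · linarith
    · linarith

theorem gl_bd (H : P.Ok) : 0.999 * P.a5 * (1 / P.y) ≤ P.gl ∧ P.gl ≤ 1.001 * P.a5 * (1 / P.y) := by
  have h1 := H.ha5K
  have h2 := H.hI0K
  exact down H.lvs P.a5 (h1.trans h2)

theorem npb (H : P.Ok) : n * P.pb = 1 - P.gb := by
  unfold Prm.pb
  exact mul_div_cancel₀ _ (n0 H).ne'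

theorem npn (H : P.Ok) : 0.999 * (1 / P.y) ≤ n * P.pn - 1 ∧ n * P.pn - 1 ≤ 1.001 * (1 / P.y) := by
  have h1 := up H.lvs 1 (by omega)
  unfold Prm.pn
  push_cast at h1
  simpa using h1

theorem npt (H : P.Ok) : 0.999 * P.I * (1 / P.y) ≤ n * P.pt - 1 ∧
    n * P.pt - 1 ≤ 1.001 * P.I * (1 / P.y) := by
  have h2 : P.I ≤ P.K := by exact_mod_cast IK H
  exact up H.lvs P.I (by omega)

theorem pb0 (H : P.Ok) : 0 ≤ P.pb := by
  unfold Prm.pb
  have := gble H
  exact div_nonneg (by linarith) (n0 H).le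

theorem pb_le (H : P.Ok) : P.pb ≤ 1 / 10 ^ 18 := by
  have h1 := npb H
  have h2 := nbig0 H
  have h3 := gb0 H
  have h4 := pb0 H
  rw [le_div_iff₀ (by positivity)]
  nlinarith

theorem pb_pn (H : P.Ok) : P.pb ≤ P.pn := by
  have h1 := npb H
  have h2 := (npn H).1
  have h3 := gb0 H
  have h4 := n0 H
  have h5 := t0 H
  have h6 : n * P.pb ≤ n * P.pn := by linarith
  exact le_of_mul_le_mul_left h6 h4

theorem pb_pt (H : P.Ok) : P.pb ≤ P.pt := by
  have h1 := npb H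
  have h2 := (npt H).1
  have h3 := gb0 H
  have h4 := n0 H
  have h5 := t0 H
  have h7 : 0 ≤ 0.999 * (P.I : ℝ) * (1 / P.y) := by positivity
  have h6 : n * P.pb ≤ n * P.pt := by linarith
  exact le_of_mul_le_mul_left h6 h4

theorem pn1 (H : P.Ok) : P.pn ≤ 1 := by
  refine (H.lvs.mono ?_).trans H.lvs.le1
  omega

theorem pt1 (H : P.Ok) : P.pt ≤ 1 := by
  refine (H.lvs.mono ?_).trans H.lvs.le1
  have h2 : P.I ≤ P.K := by exact_mod_cast IK H
  omega

theorem q_up (H : P.Ok) {p B : ℝ} (hp : n * p - 1 ≤ B) (hB : 0 ≤ B) :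
    (p - P.pb) / (1 - P.pb) ≤ 1.01 * (B + P.gb) / n := by
  have h1 := npb H
  have h2 := pb_le H
  have h3 := n0 H
  have h4 := gb0 H
  have h5 : 0 < 1 - P.pb := by norm_num at h2 ⊢; linarith
  rw [div_le_div_iff₀ h5 h3]
  have h6 : (p - P.pb) * n ≤ B + P.gb := by linarith
  have h7 : (1 : ℝ) ≤ 1.01 * (1 - P.pb) := by norm_num at h2 ⊢; linarith
  have h8 : 0 ≤ B + P.gb := by linarith
  nlinarith

theorem q_lo (H : P.Ok) : 0.999 * (1 / P.y) / n ≤ (P.pn - P.pb) / (1 - P.pb) := by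
  have h1 := npb H
  have h2 := pb_le H
  have h3 := n0 H
  have h4 := gb0 H
  have h5 : 0 < 1 - P.pb := by norm_num at h2 ⊢; linarith
  have h6 := (npn H).1
  have h7 := pb0 H
  have h8 := t0 H
  rw [div_le_div_iff₀ h3 h5]
  have h9 : 0.999 * (1 / P.y) ≤ (P.pn - P.pb) * n := by linarith
  nlinarith

theorem s0_pos (H : P.Ok) : 1 ≤ P.s0 := by
  have h := H.hs0'
  rcases Nat.eq_zero_or_pos P.s0 with h0 | h0
  · rw [h0] at h
    norm_num at h
  · exact h0

theorem s1_pos (H : P.Ok) : 1 ≤ P.s1 := by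
  have h := H.hs1'
  rcases Nat.eq_zero_or_pos P.s1 with h0 | h0
  · rw [h0] at h
    norm_num at h
  · exact h0

theorem L0 (H : P.Ok) : 0 < Real.log n := by
  have := H.hL
  linarith

theorem vmin0 (H : P.Ok) : 0 ≤ P.vmin := by
  unfold Prm.vmin
  have := n0 H
  have := gb0 H
  positivity

theorem smax0 (H : P.Ok) : 0 < P.smax := by
  unfold Prm.smax
  have := L0 H
  have := gb0 H
  positivity

theorem vmax0 (H : P.Ok) : 0 < P.vmax := by
  unfold Prm.vmax
  have := n0 H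
  have := gb0 H
  have := L0 H
  positivity

theorem I0' (H : P.Ok) : (10000 : ℝ) ≤ P.I := by
  have h := H.hlam.trans H.hlamI
  have e : (10 : ℝ) ^ 4 = 10000 := by norm_num
  rw [e] at h
  exact h

theorem KW0 (H : P.Ok) : 0 < P.KW := by
  unfold Prm.KW
  have := n0 H
  have := y0 H
  have := L0 H
  have h := I0' H
  have : (0 : ℝ) < P.I := by linarith
  positivity

theorem smax_vmin (H : P.Ok) : 8 * P.smax ≤ P.vmin := by
  unfold Prm.smax Prm.vmin
  have h1 := gb0 H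
  have h2 := H.ngb
  have h3 := L0 H
  have h4 : 0 < P.gb ^ 2 := by positivity
  have e : 8 * (16 * Real.log n / P.gb ^ 2) = 128 * Real.log n / P.gb ^ 2 := by ring
  rw [e, div_le_div_iff₀ h4 (by norm_num)]
  nlinarith

/-- `1 / sqrt s ≤ 81 g` if `s g^2 ≥ 1/6500` -/
theorem inv_sqrt {s : ℕ} {g : ℝ} (hg : 0 < g) (h : 1 ≤ s * g ^ 2 * 6500) :
    1 / Real.sqrt s ≤ 81 * g := by
  have hs : (0 : ℝ) < s := by
    rcases Nat.eq_zero_or_pos s with h0 | h0
    · rw [h0] at h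
      norm_num at h
    · exact_mod_cast h0
  have h1 : 0 < Real.sqrt s := Real.sqrt_pos.2 hs
  rw [div_le_iff₀ h1]
  have h2 : (1 : ℝ) ^ 2 ≤ (81 * g * Real.sqrt s) ^ 2 := by
    rw [mul_pow, Real.sq_sqrt hs.le]
    nlinarith
  exact le_of_sq_le_sq h2 (by positivity) |>.trans_eq rfl

end basic

/-! ### the bad events -/

section events

variable {P : Prm n} {θ0 k1 : ℝ} {N₀ : ℕ}

theorem inv_n_le (H : P.Ok) : 1 / (n : ℝ) ≤ 1 / Real.log n :=
  one_div_le_one_div_of_le (L0 H) (Ln H)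

theorem e1 (H : P.Ok) : env n {U : Ev n | ∃ v, P.smax < (cmp (GU U P.pb) v).card} ≤
    ENNReal.ofReal (1 / Real.log n) := by
  have hg := gble H
  have hg0 := gb0 H
  have h := cmp_up (n := n) (p := P.pb) (g := P.gb) (s := P.smax) (pb0 H)
    ((pb_le H).trans (by norm_num)) hg0 (hg.trans (by norm_num)) (npb H).le
  refine h.trans (ENNReal.ofReal_le_ofReal (le_trans ?_ (inv_n_le H)))
  have e : P.gb ^ 2 / 4 * P.smax = 4 * Real.log n := by
    unfold Prm.smax
    field_simp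
    norm_num
  have hn := n0 H
  have hn18 := nbig0 H
  rw [e]
  have e2 : Real.exp (-(4 * Real.log n)) = 1 / (n : ℝ) ^ 4 := by
    rw [Real.exp_neg, one_div]
    congr 1
    have : (4 : ℝ) * Real.log n = ((4 : ℕ) : ℝ) * Real.log n := by norm_num
    rw [this, Real.exp_nat_mul, Real.exp_log hn]
  rw [e2]
  have e3 : 2 * (n : ℝ) * (1 / (n : ℝ) ^ 4) = 2 / (n : ℝ) ^ 3 := by
    field_simp
  rw [e3, div_le_div_iff₀ (by positivity) hn]
  have h2 : (2 : ℝ) ≤ n := by linarith [hn18, (by norm_num : (2 : ℝ) ≤ 10 ^ 18)]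
  have h4 : (2 : ℝ) ≤ (n : ℝ) ^ 2 := by nlinarith
  have e4 : (n : ℝ) ^ 3 = (n : ℝ) ^ 2 * n := by ring
  rw [e4, one_mul]
  exact mul_le_mul_of_nonneg_right h4 hn.le

theorem e2 (H : P.Ok) : env n {U : Ev n | ((marks P.pl P.pb P.s1 P.s0 U).card : ℝ) < P.vmin} ≤
    ENNReal.ofReal (1 / Real.log n) := by
  have hn := n0 H
  have hpl : P.pl = (1 - P.gl) / n := by
    unfold Prm.gl
    field_simp
    ring
  have hg := gble H
  have hg0 := gb0 H
  have hgl := gl_bd H
  have ht := t0 H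
  have ha : (13 : ℝ) ≤ P.a5 := by exact_mod_cast H.ha5
  have hη := H.hη1
  have hη0 := H.hη
  have haK : (P.a5 : ℝ) ≤ P.K := by exact_mod_cast H.ha5K.trans H.hI0K
  have hKt := Kt H
  have h := marks_low (n := n) (pl := P.pl) (pb := P.pb) (gl := P.gl) (gb := P.gb) (s1 := P.s1)
    (s0 := P.s0) hpl rfl hg0 (by
      rw [gbt H]
      nlinarith [hgl.1]) (by
      refine hgl.2.trans ?_
      have : (P.a5 : ℝ) * (1 / P.y) ≤ P.K * (1 / P.y) := mul_le_mul_of_nonneg_right haK ht.le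
      nlinarith) (by
      have := n18 H
      norm_num at this ⊢
      linarith) H.hs1 H.hs1' H.hs0 (s0_pos H)
  refine h.trans (ENNReal.ofReal_le_ofReal ?_)
  rw [div_le_div_iff₀ (by positivity) (L0 H), one_mul]
  exact H.ngb

theorem e3 (H : P.Ok) : env n {U : Ev n | P.vmax ≤ (gd (GU U P.pb) P.s0).card} ≤
    ENNReal.ofReal (1 / Real.log n) := by
  have hn := n0 H
  have hg := gble H
  have hg0 := gb0 H
  have hL := L0 H
  have h := gd_up (n := n) (p := P.pb) (g := 0) (t := P.vmax) (s := P.s0) (pb0 H)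
    ((pb_le H).trans (by norm_num)) le_rfl (by norm_num) (by rw [npb H]; linarith) (s0_pos H)
    (vmax0 H)
  refine h.trans (ENNReal.ofReal_le_ofReal ?_)
  have h1 := inv_sqrt hg0 H.hs0'
  rw [zero_add, div_le_div_iff₀ (vmax0 H) hL, one_mul]
  unfold Prm.vmax
  have h2 : 7 * (n : ℝ) * (1 / Real.sqrt P.s0) ≤ 7 * n * (81 * P.gb) :=
    mul_le_mul_of_nonneg_left h1 (by positivity)
  have h3 : 7 * (n : ℝ) * (1 / Real.sqrt P.s0) * Real.log n ≤ 7 * n * (81 * P.gb) * Real.log n :=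
    mul_le_mul_of_nonneg_right h2 hL.le
  have h4 : 0 < (n : ℝ) * P.gb * Real.log n := by positivity
  nlinarith

theorem e4 (H : P.Ok) : env n {U : Ev n | P.KW ≤ (gd (GU U P.pt) P.s1).card} ≤
    ENNReal.ofReal (1 / Real.log n) := by
  have hn := n0 H
  have hL := L0 H
  have ht := t0 H
  have hI := I0' H
  have hI0 : (0 : ℝ) < P.I := by linarith
  have hgl := gl_bd H
  have ha : (13 : ℝ) ≤ P.a5 := by exact_mod_cast H.ha5
  have hgl0 : 0 < P.gl := by
    have : 0 < 0.999 * (P.a5 : ℝ) * (1 / P.y) := by positivity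
    linarith [hgl.1]
  have hIt : (P.I : ℝ) * (1 / P.y) ≤ 1 / 1000 :=
    (mul_le_mul_of_nonneg_right (IK H) ht.le).trans (Kt H)
  have hnpt := npt H
  have hn18 := nbig0 H
  have h := gd_up (n := n) (p := P.pt) (g := 1.001 * P.I * (1 / P.y)) (t := P.KW) (s := P.s1)
    ((pb0 H).trans (pb_pt H)) (by
      have h2 : (n : ℝ) * P.pt ≤ 2 := by nlinarith [hnpt.2]
      have h3 : 0 ≤ P.pt := (pb0 H).trans (pb_pt H)
      have hn3 := nbig3 H
      nlinarith) (by positivity) (by nlinarith) (by linarith [hnpt.2]) (s1_pos H) (KW0 H)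
  refine h.trans (ENNReal.ofReal_le_ofReal ?_)
  have h1 := inv_sqrt hgl0 H.hs1'
  have h5 : 81 * P.gl ≤ P.I * (1 / P.y) := by
    have h6 : 120 * (P.a5 : ℝ) ≤ P.I := H.ha5l.trans H.hlamI
    have h7 : 120 * (P.a5 : ℝ) * (1 / P.y) ≤ P.I * (1 / P.y) :=
      mul_le_mul_of_nonneg_right h6 ht.le
    have h8 : 0 < (P.a5 : ℝ) * (1 / P.y) := by positivity
    linarith [hgl.2]
  rw [div_le_div_iff₀ (KW0 H) hL, one_mul]
  unfold Prm.KW
  have h9 : 7 * (n : ℝ) * (1.001 * P.I * (1 / P.y) + 1 / Real.sqrt P.s1) * Real.log n ≤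
      7 * (n : ℝ) * (2.001 * (P.I * (1 / P.y))) * Real.log n := by
    apply mul_le_mul_of_nonneg_right _ hL.le
    apply mul_le_mul_of_nonneg_left _ (by positivity)
    linarith
  refine h9.trans ?_
  have e : 15 * (n : ℝ) * P.I * Real.log n / P.y = 15 * n * (P.I * (1 / P.y)) * Real.log n := by
    ring
  rw [e]
  have h10 : 0 < (n : ℝ) * (P.I * (1 / P.y)) * Real.log n := by positivity
  nlinarith

/-- lower bound of `s0` -/
theorem s0_lo (H : P.Ok) : 1 / (6500 * P.gb ^ 2) ≤ (P.s0 : ℝ) := by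
  have h := H.hs0'
  have hg0 := gb0 H
  rw [div_le_iff₀ (by positivity)]
  linarith

theorem s0_smax (H : P.Ok) : (P.s0 : ℝ) ≤ P.smax := by
  have h := H.hs0
  have hg0 := gb0 H
  have hL := H.hL
  unfold Prm.smax
  rw [le_div_iff₀ (by positivity)]
  linarith

theorem e5 (H : P.Ok) (H2 : P.Ok2 θ0 k1 N₀) :
    env n {U : Ev n | Std P.pb P.s0 P.smax P.vmin U ∧ ¬ Iso P.pb P.pn P.s0 U} ≤
      ENNReal.ofReal (1 / Real.log n) := by
  have hn := n0 H
  have hL := L0 H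
  have hg0 := gb0 H
  have hη := H.hη
  have hy := y0 H
  refine (iso_le (pb0 H) (pb_pn H) (pn1 H) ((pb_le H).trans_lt (by norm_num)) (s0_pos H)
    (s0_smax H) (smax_vmin H) H.hn ?_).trans (ENNReal.ofReal_le_ofReal (inv_n_le H))
  have h1 := q_lo H
  have h2 := s0_lo H
  have h3 : (1 / (6500 * P.gb ^ 2)) ^ 2 ≤ (P.s0 : ℝ) ^ 2 :=
    pow_le_pow_left₀ (by positivity) h2 2
  have h4 : 0 < P.vmin / (8 * P.smax) := by
    unfold Prm.vmin
    have := smax0 H
    positivity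
  have h5 : (1 / (6500 * P.gb ^ 2)) ^ 2 * (P.vmin / (8 * P.smax)) ≤
      (P.s0 : ℝ) ^ 2 * P.vmin / (8 * P.smax) := by
    rw [mul_div_assoc]
    exact mul_le_mul_of_nonneg_right h3 h4.le
  have h6 : 0.6 * (0.999 * (1 / P.y) / n) * ((1 / (6500 * P.gb ^ 2)) ^ 2 *
      (P.vmin / (8 * P.smax))) ≤ 0.6 * ((P.pn - P.pb) / (1 - P.pb)) *
      ((P.s0 : ℝ) ^ 2 * P.vmin / (8 * P.smax)) := by
    apply mul_le_mul (mul_le_mul_of_nonneg_left h1 (by norm_num)) h5 (by positivity)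
    have : 0 ≤ 0.999 * (1 / P.y) / n := by positivity
    have := this.trans h1
    positivity
  refine le_trans ?_ h6
  have e : 0.6 * (0.999 * (1 / P.y) / n) * ((1 / (6500 * P.gb ^ 2)) ^ 2 *
      (P.vmin / (8 * P.smax))) = 0.5994 / (42250000 * 25600000000 * (P.η * Real.log n)) := by
    have hy' : P.y = P.η / P.gb := by
      rw [← gby H]
      field_simp
    rw [hy']
    unfold Prm.vmin Prm.smax
    field_simp
    norm_num
  rw [e, le_div_iff₀ (by positivity)]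
  have h7 := H2.hηL
  nlinarith

theorem e6 (H : P.Ok) (H2 : P.Ok2 θ0 k1 N₀) :
    env n {U : Ev n | Std P.pb P.s0 P.smax P.vmin U ∧ ¬ Rob P.pb P.pn P.s0 U} ≤
      ENNReal.ofReal (1 / Real.log n) := by
  have hn := n0 H
  have hL := L0 H
  have hL1 := H.hL
  have hg0 := gb0 H
  have hη := H.hη
  have hy := y0 H
  have hsv := smax_vmin H
  have hsm := smax0 H
  refine (rob_le (pb0 H) (pb_pn H) (pn1 H) ((pb_le H).trans_lt (by norm_num)) (s0_pos H)
    (by linarith) H.hn ?_).trans (ENNReal.ofReal_le_ofReal (inv_n_le H))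
  have h1 := q_lo H
  have h2 := s0_lo H
  have h4 := vmin0 H
  have h5 : 1 / (6500 * P.gb ^ 2) * P.vmin / 2 ≤ (P.s0 : ℝ) * P.vmin / 2 := by
    have := mul_le_mul_of_nonneg_right h2 h4
    linarith
  have h6 : 0.6 * (0.999 * (1 / P.y) / n) * (1 / (6500 * P.gb ^ 2) * P.vmin / 2) ≤
      0.6 * ((P.pn - P.pb) / (1 - P.pb)) * ((P.s0 : ℝ) * P.vmin / 2) := by
    apply mul_le_mul (mul_le_mul_of_nonneg_left h1 (by norm_num)) h5 (by positivity)
    have : 0 ≤ 0.999 * (1 / P.y) / n := by positivity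
    have := this.trans h1
    positivity
  refine le_trans ?_ h6
  have e : 0.6 * (0.999 * (1 / P.y) / n) * (1 / (6500 * P.gb ^ 2) * P.vmin / 2) =
      0.5994 / (2600000000000 * P.η) := by
    have hy' : P.y = P.η / P.gb := by
      rw [← gby H]
      field_simp
    rw [hy']
    unfold Prm.vmin
    field_simp
    norm_num
  rw [e, le_div_iff₀ (by positivity)]
  have h7 := H2.hηL
  have h8 : P.η * Real.log n ≤ P.η * Real.log n ^ 2 := by
    apply mul_le_mul_of_nonneg_left _ hη.le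
    nlinarith
  nlinarith

theorem Lη (H : P.Ok) : 1000 * Real.log n ≤ Real.log n ^ 2 / P.η := by
  have hL1 := H.hL
  have hη := H.hη
  have hη1 := H.hη1
  rw [le_div_iff₀ hη]
  nlinarith

theorem e7 (H : P.Ok) (H2 : P.Ok2 θ0 k1 N₀) :
    env n {U : Ev n | (∀ v, ((cmp (GU U P.pb) v).card : ℝ) ≤ P.smax) ∧
      ((gd (GU U P.pb) P.s0).card : ℝ) ≤ P.vmax ∧ ∃ S ∈ blks (GU U P.pb) P.s0,
        P.Δ < ∑ S' ∈ (blks (GU U P.pb) P.s0).erase S, nU P.pn U S S'} ≤
      ENNReal.ofReal (1 / Real.log n) := by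
  have hn := n0 H
  have hL := L0 H
  have hL1 := H.hL
  have hg0 := gb0 H
  have hη := H.hη
  have hη1 := H.hη1
  have hy := y0 H
  have ht := t0 H
  have hsm := smax0 H
  have hvm := vmax0 H
  refine (deg_le (pb0 H) (pb_pn H) (pn1 H) ((pb_le H).trans_lt (by norm_num)) (s0_pos H)
    H.hn hsm.le hvm.le ?_).trans (ENNReal.ofReal_le_ofReal (inv_n_le H))
  have h1 := q_up H (npn H).2 (by positivity)
  have h2 : (P.pn - P.pb) / (1 - P.pb) ≤ 1.02 * (1 / P.y) / n := by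
    refine h1.trans ?_
    rw [div_le_div_iff_of_pos_right hn, gbt H]
    nlinarith
  have h3 : (P.pn - P.pb) / (1 - P.pb) * (P.smax * P.vmax) ≤
      1.02 * (1 / P.y) / n * (P.smax * P.vmax) :=
    mul_le_mul_of_nonneg_right h2 (by positivity)
  have e : 1.02 * (1 / P.y) / n * (P.smax * P.vmax) = 9792 * (Real.log n ^ 2 / P.η) := by
    have hy' : P.y = P.η / P.gb := by
      rw [← gby H]
      field_simp
    rw [hy']
    unfold Prm.smax Prm.vmax
    field_simp
    norm_num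
  rw [e] at h3
  have h4 := Lη H
  have e2 : P.Δ = 15000 * (Real.log n ^ 2 / P.η) := by
    unfold Prm.Δ
    ring
  rw [e2]
  linarith

theorem e8 (H : P.Ok) (H2 : P.Ok2 θ0 k1 N₀) :
    env n {U : Ev n | (∀ v, ((cmp (GU U P.pb) v).card : ℝ) ≤ P.smax) ∧
      ((gd (GU U P.pt) P.s1).card : ℝ) ≤ P.KW ∧ ∃ v, P.A < arm P.pb P.pt P.s1 U v} ≤
      ENNReal.ofReal (1 / Real.log n) := by
  have hn := n0 H
  have hL := L0 H
  have hL1 := H.hL
  have hg0 := gb0 H
  have hη := H.hη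
  have hη1 := H.hη1
  have hy := y0 H
  have ht := t0 H
  have hsm := smax0 H
  have hKW := KW0 H
  have hI := I0' H

  have hI0 : (0 : ℝ) < P.I := by linarith
  refine (arm_le (pb0 H) (pb_pt H) (pt1 H) ((pb_le H).trans_lt (by norm_num))
    H.hn hsm.le hKW.le ?_).trans (ENNReal.ofReal_le_ofReal (inv_n_le H))
  have h1 := q_up H (npt H).2 (by positivity)
  have h2 : (P.pt - P.pb) / (1 - P.pb) ≤ 1.02 * P.I * (1 / P.y) / n := by
    refine h1.trans ?_
    rw [div_le_div_iff_of_pos_right hn, gbt H]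
    have : (1 : ℝ) * (1 / P.y) ≤ P.I * (1 / P.y) :=
      mul_le_mul_of_nonneg_right (by linarith) ht.le
    nlinarith
  have h3 : (P.pt - P.pb) / (1 - P.pb) * (P.smax * P.KW) ≤
      1.02 * P.I * (1 / P.y) / n * (P.smax * P.KW) :=
    mul_le_mul_of_nonneg_right h2 (by positivity)
  have e : 1.02 * P.I * (1 / P.y) / n * (P.smax * P.KW) =
      244.8 * ((P.I : ℝ) ^ 2 * Real.log n ^ 2 / P.η ^ 2) := by
    have hy' : P.y = P.η / P.gb := by
      rw [← gby H]
      field_simp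
    unfold Prm.smax Prm.KW
    rw [hy']
    field_simp
    norm_num
  rw [e] at h3
  have e2 : P.A = 400 * ((P.I : ℝ) ^ 2 * Real.log n ^ 2 / P.η ^ 2) := by
    unfold Prm.A
    ring
  have h4 : 1000 * Real.log n ≤ (P.I : ℝ) ^ 2 * Real.log n ^ 2 / P.η ^ 2 := by
    rw [le_div_iff₀ (by positivity)]
    have h5 : P.η ^ 2 ≤ 1 := by nlinarith
    have h6 : (1000 : ℝ) ≤ (P.I : ℝ) ^ 2 := by nlinarith
    have h7 : Real.log n ≤ Real.log n ^ 2 := by nlinarith
    calc 1000 * Real.log n * P.η ^ 2 ≤ 1000 * Real.log n * 1 :=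
          mul_le_mul_of_nonneg_left h5 (by positivity)
      _ = 1000 * Real.log n := mul_one _
      _ ≤ (P.I : ℝ) ^ 2 * Real.log n ^ 2 :=
          mul_le_mul h6 h7 hL.le (by positivity)
  rw [e2]
  linarith

theorem e9 (H : P.Ok) : env n {U | ∃ (t : ℕ) (x : ℕ → Fin n), Set.InjOn x (Set.Iic t) ∧
      (∀ j < t, U s(x j, x (j + 1)) ≤ P.pl) ∧
      P.Tl < ∑ j ∈ range t, 1 / P.w (U s(x j, x (j + 1)))} ≤
      ENNReal.ofReal (1 / Real.log n) := by
  refine (tail_low H.lvs H.hn (y1 H) H.hyn P.a5 H.ha5 (H.ha5K.trans H.hI0K) ?_).trans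
    (ENNReal.ofReal_le_ofReal (inv_n_le H))
  refine H.hI0.trans (Real.exp_le_exp.2 ?_)
  exact_mod_cast H.hI0K

theorem e10 (H : P.Ok) : env n {U | ∃ (t : ℕ) (x : ℕ → Fin n), Set.InjOn x (Set.Iic t) ∧
      (∀ j < t, U s(x j, x (j + 1)) ≤ P.pb) ∧
      P.ρb < ∑ j ∈ range t, 1 / P.w (U s(x j, x (j + 1)))} ≤
      ENNReal.ofReal (1 / Real.log n) := by
  have hg := gble H
  have hg0 := gb0 H
  have hn := n0 H
  have hnb := nbig1 H
  have hn18 := nbig0 H
  have h := tail_blk H.lvs H.hn (y1 H) (by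
      have h1 : P.y * 1 ≤ P.y * Real.exp P.a5 :=
        mul_le_mul_of_nonneg_left (Real.one_le_exp (Nat.cast_nonneg _)) (y0 H).le
      rw [mul_one] at h1
      refine h1.trans (H.hI0.trans (Real.exp_le_exp.2 ?_))
      exact_mod_cast H.hI0K) hg0 (by
      rw [gby H]
      have := H.hη1
      linarith) (by
      rw [div_le_iff₀ hg0]
      norm_num at hnb hn18
      nlinarith)
  refine le_trans (measure_mono ?_) (h.trans (ENNReal.ofReal_le_ofReal (inv_n_le H)))
  rintro U ⟨t, x, h1, h2, h3⟩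
  refine ⟨t, x, h1, h2, ?_⟩
  rw [gby H]
  exact h3

theorem e11 (H : P.Ok) (H2 : P.Ok2 θ0 k1 N₀) :
    env n {U : Ev n | P.vmin ≤ (gd (GU U P.pb) P.s0).card ∧
      ∃ v, siz n θ0 ≤ (cmp (GU U (Pool.Agent.W842.RST.lev n θ0)) v).card ∧
      ∀ u ∈ gd (GU U P.pb) P.s0, ¬ (GU U (Pool.Agent.W842.RST.lev n (11 / 10 * θ0))).Reachable v u} ≤
      ENNReal.ofReal (1 / Real.log n) := by
  have hn := n0 H
  have hL := L0 H
  have hL1 := H.hL
  have hg0 := gb0 H
  have hg := gble H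
  have hη := H.hη
  have hη1 := H.hη1
  have hy := y0 H
  have ht := t0 H
  have hn18 := nbig3 H
  have hθt := H2.hθ
  have hθ1 := H2.hθ1
  have hθ : 0 < θ0 := by linarith
  have hnpb := npb H
  have hlev2 : Pool.Agent.W842.RST.lev n θ0 ≤ 2 / n := by
    unfold Pool.Agent.W842.RST.lev
    rw [div_le_div_iff_of_pos_right hn]
    linarith
  have hlev0 : 0 < Pool.Agent.W842.RST.lev n θ0 := by
    unfold Pool.Agent.W842.RST.lev
    positivity
  have h2n : (2 : ℝ) / n < 1 / 10 := by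
    rw [div_lt_div_iff₀ hn (by norm_num)]
    linarith
  refine (core_le (pb0 H) ?_ ?_ ?_ (by linarith) H.hn (vmin0 H) ?_).trans
    (ENNReal.ofReal_le_ofReal (inv_n_le H))
  · unfold Pool.Agent.W842.RST.lev
    rw [le_div_iff₀ hn]
    linarith
  · unfold Pool.Agent.W842.RST.lev
    rw [div_le_div_iff_of_pos_right hn]
    linarith
  · unfold Pool.Agent.W842.RST.lev
    rw [div_le_one hn]
    linarith
  · have hs : 0.2 * (n * θ0) ≤ (siz n θ0 : ℝ) := by
      have h1 : Real.log (1 + 3 / 2 * θ0) / Pool.Agent.W842.RST.lev n θ0 - 1 < (siz n θ0 : ℝ) := by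
        unfold siz
        exact Nat.sub_one_lt_floor _
      have h2 : 0.6 * θ0 ≤ Real.log (1 + 3 / 2 * θ0) := by
        have h3 := Real.one_sub_inv_le_log_of_pos (x := 1 + 3 / 2 * θ0) (by positivity)
        refine le_trans ?_ h3
        have h4 : 1 - (1 + 3 / 2 * θ0)⁻¹ = 3 / 2 * θ0 / (1 + 3 / 2 * θ0) := by
          field_simp
          ring
        rw [h4, le_div_iff₀ (by positivity)]
        nlinarith
      have h3 : 0.6 * θ0 / (2 / n) ≤ Real.log (1 + 3 / 2 * θ0) / Pool.Agent.W842.RST.lev n θ0 := by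
        apply div_le_div₀ _ h2 hlev0 hlev2
        exact (by positivity : (0 : ℝ) ≤ 0.6 * θ0).trans h2
      have e : 0.6 * θ0 / (2 / n) = 0.3 * (n * θ0) := by
        field_simp
        norm_num
      rw [e] at h3
      have h5 : (10 : ℝ) ≤ n * θ0 := by
        have h6 : (n : ℝ) * P.gb ≤ n * θ0 := by
          apply mul_le_mul_of_nonneg_left _ hn.le
          rw [gbt H]
          nlinarith
        have := nbig1 H
        norm_num at this
        linarith
      linarith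
    have hp2 : Pool.Agent.W842.RST.lev n θ0 < 1 := by linarith
    have hq : 0.1 * θ0 / n ≤ (Pool.Agent.W842.RST.lev n (11 / 10 * θ0) - Pool.Agent.W842.RST.lev n θ0) / (1 - Pool.Agent.W842.RST.lev n θ0) := by
      rw [le_div_iff₀ (by linarith)]
      have e : Pool.Agent.W842.RST.lev n (11 / 10 * θ0) - Pool.Agent.W842.RST.lev n θ0 = 0.1 * θ0 / n := by
        unfold Pool.Agent.W842.RST.lev
        ring
      rw [e]
      have : 0 ≤ 0.1 * θ0 / n := by positivity
      nlinarith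
    have hv := vmin0 H
    have h6 : 0.6 * (0.1 * θ0 / n) * (0.2 * (n * θ0) * P.vmin) ≤
        0.6 * ((Pool.Agent.W842.RST.lev n (11 / 10 * θ0) - Pool.Agent.W842.RST.lev n θ0) / (1 - Pool.Agent.W842.RST.lev n θ0)) * (siz n θ0 * P.vmin) := by
      apply mul_le_mul (mul_le_mul_of_nonneg_left hq (by norm_num))
        (mul_le_mul_of_nonneg_right hs hv) (by positivity)
      have : 0 ≤ 0.1 * θ0 / n := by positivity
      have := this.trans hq
      positivity
    refine le_trans ?_ h6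
    have e : 0.6 * (0.1 * θ0 / n) * (0.2 * (n * θ0) * P.vmin) =
        0.012 / (2 * 10 ^ 8) * (θ0 ^ 2 * (n * P.gb)) := by
      unfold Prm.vmin
      field_simp
      norm_num
    rw [e]
    have h7 : (P.gb / P.η) ^ 2 ≤ θ0 ^ 2 := by
      have e2 : P.gb / P.η = 1 / P.y := by
        rw [gbt H]
        field_simp
      rw [e2]
      exact pow_le_pow_left₀ ht.le hθt 2
    have h8 : (P.gb / P.η) ^ 2 * (n * P.gb) ≤ θ0 ^ 2 * (n * P.gb) :=
      mul_le_mul_of_nonneg_right h7 (by positivity)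
    have e3 : (P.gb / P.η) ^ 2 * (n * P.gb) = n * P.gb ^ 3 / P.η ^ 2 := by
      field_simp
    have h9 : n * P.gb ^ 3 ≤ n * P.gb ^ 3 / P.η ^ 2 := by
      rw [le_div_iff₀ (by positivity)]
      have h10 : P.η ^ 2 ≤ 1 := by nlinarith
      have h11 : 0 ≤ n * P.gb ^ 3 := by positivity
      nlinarith
    have h12 := H.ngb
    norm_num at h12 ⊢
    linarith

theorem un {A B : Set (Ev n)} {a b : ℝ} (ha : 0 ≤ a) (hb : 0 ≤ b)
    (hA : env n A ≤ ENNReal.ofReal a) (hB : env n B ≤ ENNReal.ofReal b) :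
    env n (A ∪ B) ≤ ENNReal.ofReal (a + b) := by
  rw [ENNReal.ofReal_add ha hb]
  exact (measure_union_le A B).trans (add_le_add hA hB)

end events

end GEnv

/-- most environments are good -/
theorem Prm.Ok.good_le {P : Prm n} (H : P.Ok) {θ0 k1 : ℝ} {N₀ : ℕ} (H2 : P.Ok2 θ0 k1 N₀) :
    env n {U | ¬ P.Gd θ0 U} ≤ ENNReal.ofReal (11 / Real.log n) := by
  have hL := GEnv.L0 H
  have hL1 : (0 : ℝ) ≤ 1 / Real.log n := by positivity
  have h2 := GEnv.un (by positivity) hL1 (GEnv.e1 H) (GEnv.e2 H)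
  have h3 := GEnv.un (by positivity) hL1 h2 (GEnv.e3 H)
  have h4 := GEnv.un (by positivity) hL1 h3 (GEnv.e4 H)
  have h5 := GEnv.un (by positivity) hL1 h4 (GEnv.e5 H H2)
  have h6 := GEnv.un (by positivity) hL1 h5 (GEnv.e6 H H2)
  have h7 := GEnv.un (by positivity) hL1 h6 (GEnv.e7 H H2)
  have h8 := GEnv.un (by positivity) hL1 h7 (GEnv.e8 H H2)
  have h9 := GEnv.un (by positivity) hL1 h8 (GEnv.e9 H)
  have h10 := GEnv.un (by positivity) hL1 h9 (GEnv.e10 H)
  have h11 := GEnv.un (by positivity) hL1 h10 (GEnv.e11 H H2)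
  refine le_trans (measure_mono ?_) (h11.trans (le_of_eq (by congr 1; ring)))
  intro U hU
  by_contra hc
  simp only [Set.mem_union, not_or] at hc
  obtain ⟨⟨⟨⟨⟨⟨⟨⟨⟨⟨c1, c2⟩, c3⟩, c4⟩, c5⟩, c6⟩, c7⟩, c8⟩, c9⟩, c10⟩, c11⟩ := hc
  apply hU
  have hsm : ∀ v, ((cmp (GU U P.pb) v).card : ℝ) ≤ P.smax := by
    intro v
    by_contra h
    exact c1 ⟨v, not_le.1 h⟩
  have hvmin : P.vmin ≤ (marks P.pl P.pb P.s1 P.s0 U).card := not_lt.1 c2
  have hvmax : ((gd (GU U P.pb) P.s0).card : ℝ) ≤ P.vmax := (not_le.1 c3).le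
  have hKW : ((gd (GU U P.pt) P.s1).card : ℝ) ≤ P.KW := (not_le.1 c4).le
  have hmg : marks P.pl P.pb P.s1 P.s0 U ⊆ gd (GU U P.pb) P.s0 := by
    classical
    intro v hv
    unfold marks at hv
    rw [Finset.mem_filter] at hv
    unfold gd
    rw [Finset.mem_filter]
    exact ⟨Finset.mem_univ _, hv.2.2⟩
  have hgd : P.vmin ≤ (gd (GU U P.pb) P.s0).card :=
    hvmin.trans (by exact_mod_cast Finset.card_le_card hmg)
  have hstd : Std P.pb P.s0 P.smax P.vmin U := ⟨hsm, hgd⟩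
  refine ⟨hsm, hvmin, hvmax, ?_, ?_, ?_, ?_, ?_, ?_, ?_⟩
  · by_contra h
    exact c5 ⟨hstd, h⟩
  · by_contra h
    exact c6 ⟨hstd, h⟩
  · intro S hS
    by_contra h
    exact c7 ⟨hsm, hvmax, S, hS, not_le.1 h⟩
  · intro v
    by_contra h
    exact c8 ⟨hsm, hKW, v, not_le.1 h⟩
  · intro t x hx hl
    by_contra h
    exact c9 ⟨t, x, hx, hl, not_le.1 h⟩
  · intro t x hx hl
    by_contra h
    exact c10 ⟨t, x, hx, hl, not_le.1 h⟩
  · intro v hv
    by_contra h
    push Not at h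
    exact c11 ⟨hgd, v, hv, h⟩

end

end Pool.Agent.TH972.U
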