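import Pool.Agent.TH972.U.PEnv
import Pool.Agent.TH972.U.GEnv
import Pool.Agent.TH972.U.Det
import Pool.Agent.TH972.U.Red
import Pool.Agent.TH972.Upper

/-!
# The final estimate with fixed parameters
-/

set_option autoImplicit false

namespace Pool.Agent.TH972.U

open Finset MeasureTheory Pool.Agent.W842.RST Pool.Agent.TH972

noncomputable section

variable {n : ℕ}

namespace FinA

/-- `longQ` is monotone in the allowed edges -/
theorem longQ_mono {V : Type} [Fintype V] [DecidableEq V] {ok ok' : V → V → Prop}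
    (h : ∀ u v, ok u v → ok' u v) (N : Net V) (m : ℕ) (x : V) :
    longQ ok N m x ≤ longQ ok' N m x := by
  classical
  unfold longQ
  refine psum_mono N ∅ x (fun π _ _ _ => ?_)
  have h0 : 0 ≤ lastf N.k π := LEx.lastf_nonneg (fun z => N.k_nonneg z) π
  by_cases hc : okc ok m π
  · have hc' : okc ok' m π := ⟨hc.1, hc.2.imp (fun a b => h a b)⟩
    rw [if_pos hc, if_pos hc']
  · rw [if_neg hc]
    split_ifs
    · exact h0
    · exact le_rfl

theorem gam_lo {P : Prm n} (H : P.Ok) : ∀ i : ℕ, i ≤ P.K + 1 →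
    1 + 0.999 * (i : ℝ) / P.y ≤ n * P.gam i := by
  intro i
  induction i with
  | zero =>
    intro _
    have := H.lvs.g0
    simp only [Nat.cast_zero, mul_zero, zero_div, add_zero]
    rw [this]
  | succ i ih =>
    intro hi
    have h1 := ih (by omega)
    have h2 := H.lvs.lo i (by omega) (by omega)
    have e : ((i + 1 : ℕ) : ℤ) = (i : ℤ) + 1 := by push_cast; ring
    rw [e]
    push_cast
    have e2 : 0.999 * ((i : ℝ) + 1) / P.y = 0.999 * (i : ℝ) / P.y + 0.999 / P.y := by ring
    rw [e2]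
    have e3 : (n : ℝ) * (P.gam ((i : ℤ) + 1) - P.gam i) = n * P.gam ((i : ℤ) + 1) - n * P.gam i := by
      ring
    rw [e3] at h2
    linarith

end FinA

/-- the diameter with fixed parameters -/
theorem Prm.Ok.final {P : Prm n} (H : P.Ok) {γ x k1 : ℝ} {N₀ : ℕ} (HP : Par γ n x P.y)
    (H2 : P.Ok2 (x / P.y) k1 N₀)
    (hth : ∀ θ : ℝ, x / P.y ≤ θ → θ ≤ 5 * Real.log n → ∀ u u' : ℝ,
      u ≤ Pool.Agent.W842.RST.lev n θ → Pool.Agent.W842.RST.lev n (11 / 10 * θ) < u' →
      P.w u' ≤ 1 / (n : ℝ) ^ 6 * P.w u)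
    {k : ℕ} (hk : 2 * Real.log n ≤ k) :
    1 - 40 / Real.log n ≤ avgw P.w n (fun T => (T.diam : ℝ) ≤
      2 * (P.m + k * P.m) + 984 * Real.log n ^ 2 * (P.y / x)) := by
  classical
  have hx := HP.x_pos
  have hy := HP.y_pos
  have hn := HP.n_pos
  have hL := HP.hL
  have hθ0 := HP.θ_pos
  have hθ1 := HP.θ_le
  have hxb := HP.x_big
  have hyn := HP.y_le
  have hxy := HP.hxy
  have hn0 : 0 < n := by
    by_contra hcon
    have : n = 0 := by omega
    rw [this] at hn
    simp at hn
  have : Nonempty (Fin n) := ⟨⟨0, hn0⟩⟩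
  obtain ⟨N, hN1, hN2, hN3⟩ := HP.levels
  have hNpos : 1 ≤ N := by
    by_contra hcon
    have h0 : N = 0 := by omega
    rw [h0, pow_zero, mul_one] at hN1
    linarith
  set θ : ℕ → ℝ := fun i => x / P.y * (11 / 10) ^ i with hθ
  have hθN : θ N = x / P.y * (11 / 10) ^ N := rfl
  rw [← hθN] at hN1 hN2
  have hθge : ∀ i, x / P.y ≤ θ i := by
    intro i
    have h1 : (1 : ℝ) ≤ (11 / 10) ^ i := one_le_pow₀ (by norm_num)
    exact le_mul_of_one_le_right hθ0.le h1
  have hθle : ∀ i ≤ N, θ i ≤ 5 * Real.log n := by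
    intro i hi
    refine le_trans ?_ hN2
    exact mul_le_mul_of_nonneg_left (pow_le_pow_right₀ (by norm_num) hi) hθ0.le
  have hnum : ∀ i ≤ N, Num n (θ i) := fun i hi => HP.num (hθge i) (hθle i hi)
  set m := ⌈16 * Real.log n * (1 + 3 / 2 * (x / P.y)) / (x / P.y)⌉₊ with hm
  have hm1 : 16 * Real.log n * (1 + 3 / 2 * (x / P.y)) / (x / P.y) ≤ m := Nat.le_ceil _
  have hmi : ∀ i, 16 * Real.log n * (1 + 3 / 2 * θ i) / θ i ≤ m := by
    intro i
    refine le_trans ?_ hm1
    have hi := hθge i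
    have hi0 : 0 < θ i := by linarith
    rw [div_le_div_iff₀ hi0 hθ0]
    have : 16 * Real.log n * (x / P.y) ≤ 16 * Real.log n * θ i :=
      mul_le_mul_of_nonneg_left hi (by linarith)
    nlinarith
  have hm2 : (m : ℝ) ≤ 41 * Real.log n * (P.y / x) := by
    have h1 : (m : ℝ) ≤ 16 * Real.log n * (1 + 3 / 2 * (x / P.y)) / (x / P.y) + 1 :=
      (Nat.ceil_lt_add_one (by positivity)).le
    have h2 : 16 * Real.log n * (1 + 3 / 2 * (x / P.y)) / (x / P.y) ≤ 40 * Real.log n * (P.y / x) := by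
      have e1 : 40 * Real.log n * (P.y / x) = 40 * Real.log n / (x / P.y) := by
        field_simp
      rw [e1]
      apply div_le_div_of_nonneg_right _ hθ0.le
      nlinarith
    have h3 : 1 ≤ Real.log n * (P.y / x) := by
      have : 1 ≤ P.y / x := by rw [le_div_iff₀ hx]; linarith
      nlinarith
    linarith
  set B1 : Set (Sym2 (Fin n) → ℝ) := ⋃ i ∈ range (N + 1),
    {U | ¬ ∃ v, siz n (θ i) ≤
      (comp (GU U (Pool.Agent.W842.RST.lev n (θ i))) v).card} with hB1
  set B2 : Set (Sym2 (Fin n) → ℝ) := ⋃ i ∈ range N,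
    {U | AvoidBad m (siz n (θ i)) (Pool.Agent.W842.RST.lev n (θ i))
      (Pool.Agent.W842.RST.lev n (121 / 100 * θ i)) U} with hB2
  set B3 : Set (Sym2 (Fin n) → ℝ) := {U | ¬ P.Gd (x / P.y) U} with hB3
  set B4 : Set (Sym2 (Fin n) → ℝ) :=
    {U | ¬ (GU U (Pool.Agent.W842.RST.lev n (θ N))).Preconnected} with hB4
  set B5 : Set (Sym2 (Fin n) → ℝ) := {U | P.sb ≤ P.SS U} with hB5
  have m1 : env n B1 ≤ ENNReal.ofReal ((N + 1) * (1 / (n : ℝ) ^ 2)) := by
    calc env n B1 ≤ ∑ i ∈ range (N + 1),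
          env n {U | ¬ ∃ v, siz n (θ i) ≤
            (comp (GU U (Pool.Agent.W842.RST.lev n (θ i))) v).card} :=
          measure_biUnion_finset_le _ _
      _ ≤ ∑ i ∈ range (N + 1), ENNReal.ofReal (1 / (n : ℝ) ^ 2) := by
          apply Finset.sum_le_sum
          intro i hi
          exact (hnum i (by have := Finset.mem_range.1 hi; omega)).env_giant
      _ = ENNReal.ofReal ((N + 1) * (1 / (n : ℝ) ^ 2)) := by
          rw [← ENNReal.ofReal_sum_of_nonneg (fun _ _ => by positivity), Finset.sum_const,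
            Finset.card_range, nsmul_eq_mul]
          push_cast
          rfl
  have m2 : env n B2 ≤ ENNReal.ofReal (N * (1 / (n : ℝ) ^ 2)) := by
    calc env n B2 ≤ ∑ i ∈ range N,
          env n {U | AvoidBad m (siz n (θ i)) (Pool.Agent.W842.RST.lev n (θ i))
            (Pool.Agent.W842.RST.lev n (121 / 100 * θ i)) U} :=
          measure_biUnion_finset_le _ _
      _ ≤ ∑ i ∈ range N, ENNReal.ofReal (1 / (n : ℝ) ^ 2) := by
          apply Finset.sum_le_sum
          intro i hi
          exact (hnum i (by have := Finset.mem_range.1 hi; omega)).env_avoid m (hmi i)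
      _ = ENNReal.ofReal (N * (1 / (n : ℝ) ^ 2)) := by
          rw [← ENNReal.ofReal_sum_of_nonneg (fun _ _ => by positivity), Finset.sum_const,
            Finset.card_range, nsmul_eq_mul]
  have m3 : env n B3 ≤ ENNReal.ofReal (11 / Real.log n) := H.good_le H2
  have m4 : env n B4 ≤ ENNReal.ofReal (2 / n) := HP.conn hN1 hN2
  have m5 : env n B5 ≤ ENNReal.ofReal (1 / n) := H.sum_le
  set Bad := B1 ∪ (B2 ∪ (B3 ∪ (B4 ∪ B5))) with hBad
  set η : ℝ := (N + 1) * (1 / (n : ℝ) ^ 2) + (N * (1 / (n : ℝ) ^ 2) + (11 / Real.log n +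
    (2 / n + 1 / n))) with hη
  have hmBad : env n Bad ≤ ENNReal.ofReal η := by
    have e1 : env n Bad ≤ (ENNReal.ofReal ((N + 1) * (1 / (n : ℝ) ^ 2)) +
        (ENNReal.ofReal (N * (1 / (n : ℝ) ^ 2)) + (ENNReal.ofReal (11 / Real.log n) +
          (ENNReal.ofReal (2 / n) + ENNReal.ofReal (1 / n))))) := by
      refine (measure_union_le _ _).trans (add_le_add m1 ?_)
      refine (measure_union_le _ _).trans (add_le_add m2 ?_)
      refine (measure_union_le _ _).trans (add_le_add m3 ?_)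
      exact (measure_union_le _ _).trans (add_le_add m4 m5)
    rw [← ENNReal.ofReal_add (by positivity) (by positivity),
      ← ENNReal.ofReal_add (by positivity) (by positivity),
      ← ENNReal.ofReal_add (by positivity) (by positivity),
      ← ENNReal.ofReal_add (by positivity) (by positivity)] at e1
    exact e1
  set δ : ℝ := ((N : ℝ) + 1) * (1 / (n : ℝ) ^ 2) + 2 * (6 / n) with hδd
  -- levels
  have hpn : P.gam 1 ≤ Pool.Agent.W842.RST.lev n (11 / 10 * (x / P.y)) := by
    unfold Pool.Agent.W842.RST.lev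
    rw [le_div_iff₀ hn]
    have h1 := H.lvs.hi 0 (by omega) (by omega)
    have h2 := H.lvs.g0
    rw [zero_add, mul_sub, h2] at h1
    have h3 : 1.001 / P.y = 1.001 * (1 / P.y) := by ring
    have h4 := H2.hθ
    have h5 : 0 < 1 / P.y := by positivity
    rw [h3] at h1
    linarith
  have hIK : P.I ≤ P.K := by
    have h1 := H.hK
    have h2 := H.hb0
    have h3 : 0 ≤ Real.log (2 * (P.m : ℝ) + 1) := Real.log_nonneg (by
      have : (0 : ℝ) ≤ P.m := by positivity
      linarith)
    have h4 : (0 : ℝ) ≤ P.I := by positivity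
    have h5 : (P.I : ℝ) ≤ P.K := by linarith
    exact_mod_cast h5
  have hpt : Pool.Agent.W842.RST.lev n (121 / 100 * (x / P.y)) ≤ P.pt := by
    unfold Pool.Agent.W842.RST.lev Prm.pt
    rw [div_le_iff₀ hn]
    have h1 := FinA.gam_lo H P.I (by omega)
    have h2 := H2.hθI
    have h3 : 1.22 * (x / P.y) ≤ (P.I : ℝ) / P.y := by
      rw [le_div_iff₀ hy]
      exact h2
    have h4 : 0.999 * (P.I : ℝ) / P.y = 0.999 * ((P.I : ℝ) / P.y) := by ring
    rw [h4] at h1
    linarith
  have hpb : P.pb ≤ P.gam 1 := by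
    have h1 : P.pb ≤ P.gam 0 := by
      unfold Prm.pb
      rw [div_le_iff₀ hn, mul_comm, H.lvs.g0]
      have : 0 ≤ P.gb := by
        unfold Prm.gb
        exact div_nonneg H.hη.le hy.le
      linarith
    exact h1.trans (H.lvs.mono (by omega))
  have hδ : ∀ U, U ∉ Bad → 1 - δ ≤ GG (fun e => P.w (U e))
      (fun T => (T.diam : ℝ) ≤ 2 * (P.m + k * P.m) + 984 * Real.log n ^ 2 * (P.y / x)) := by
    intro U hU
    rw [hBad] at hU
    simp only [Set.mem_union, not_or] at hU
    obtain ⟨u1, u2, u3, u4, u5⟩ := hU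
    have hgi : ∀ i ≤ N, ∃ v, siz n (θ i) ≤
        (comp (GU U (Pool.Agent.W842.RST.lev n (θ i))) v).card := by
      intro i hi
      by_contra hcon
      apply u1
      rw [hB1, Set.mem_iUnion₂]
      exact ⟨i, Finset.mem_range.2 (by omega), hcon⟩
    have hav : ∀ i < N, ¬ AvoidBad m (siz n (θ i)) (Pool.Agent.W842.RST.lev n (θ i))
        (Pool.Agent.W842.RST.lev n (121 / 100 * θ i)) U := by
      intro i hi hcon
      apply u2
      rw [hB2, Set.mem_iUnion₂]
      exact ⟨i, Finset.mem_range.2 hi, hcon⟩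
    have hpc : (GU U (Pool.Agent.W842.RST.lev n (θ N))).Preconnected := by
      by_contra hcon
      exact u4 hcon
    have hG : P.Gd (x / P.y) U := by
      by_contra hcon
      exact u3 hcon
    have hS : P.SS U ≤ P.sb := by
      by_contra hcon
      exact u5 (le_of_lt (not_le.mp hcon))
    obtain ⟨E, k0, hk0, hκ, hHb, hs0, hroot, hlong⟩ := H.det H2 hG hS hk
    have hs01 : 1 ≤ P.s0 := by rw [← hs0]; exact E.s0_pos
    have key := diam_red U E hk0 hroot (θ0 := x / P.y) (ε1 := 1 / (n : ℝ) ^ 2) (ε2 := 6 / n) hθ0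
      N m (P.m + k * P.m) hNpos hpc hgi hav ?_ ?_ ?_ ?_
    · have hmono := GG_mono (κ := fun e => P.w (U e)) (fun e => H.lvs.wpos _)
        (A := fun T => T.diam ≤ 2 * (P.m + k * P.m) + 2 * m * N)
        (B := fun T => (T.diam : ℝ) ≤ 2 * (P.m + k * P.m) + 984 * Real.log n ^ 2 * (P.y / x)) ?_
      · rw [hκ] at key
        refine le_trans ?_ hmono
        exact key
      · intro T _ hT
        have h1 : (T.diam : ℝ) ≤ ((2 * (P.m + k * P.m) + 2 * m * N : ℕ) : ℝ) := by exact_mod_cast hT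
        push_cast at h1
        refine h1.trans ?_
        have h2 : (m : ℝ) * N ≤ (41 * Real.log n * (P.y / x)) * (12 * Real.log n) :=
          mul_le_mul hm2 hN3 (by positivity) (by positivity)
        have h3 : (41 * Real.log n * (P.y / x)) * (12 * Real.log n) =
            492 * (Real.log n ^ 2 * (P.y / x)) := by ring
        rw [h3] at h2
        have h4 : 984 * Real.log n ^ 2 * (P.y / x) = 984 * (Real.log n ^ 2 * (P.y / x)) := by ring
        rw [h4]
        have h5 : 2 * (m : ℝ) * N = 2 * ((m : ℝ) * N) := by ring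
        rw [h5]
        linarith
    · intro u hu v hv
      rw [hHb, hs0] at hu hv
      exact (gd_conn hs01 hpb hG.iso hu hv).mono (GU_mono hpn)
    · intro v hv
      rw [hHb, hs0]
      exact hG.core v hv
    · intro i hi
      have hθi : 0 < θ i := (hnum i hi).hθ
      have hpp : Pool.Agent.W842.RST.lev n (θ i) ≤
          Pool.Agent.W842.RST.lev n (11 / 10 * θ i) := by
        unfold Pool.Agent.W842.RST.lev
        apply div_le_div_of_nonneg_right _ hn.le
        linarith
      have h1 := GG_bad_le (κ := E.κ) E.κ_pos U hpp (δ := 1 / (n : ℝ) ^ 6) (by positivity) (by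
        intro e f he hf
        rw [hκ]
        exact hth (θ i) (hθge i) (hθle i hi) _ _ he hf)
      refine h1.trans (le_of_eq ?_)
      field_simp
    · refine le_trans (Finset.sum_le_sum (fun x _ => ?_)) hlong
      exact FinA.longQ_mono (fun u v huv => le_trans huv hpt) _ _ _
  have hη0 : 0 ≤ η := by positivity
  have hδ0 : 0 ≤ δ := by positivity
  have key := avgw_ge H.lvs.wpos H.lvs.wmeas _ Bad hη0 hδ0 hmBad hδ
  refine le_trans ?_ key
  -- numerics
  have hA : 1 ≤ 1 + 8 * Real.log n := by linarith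
  have hLn : 1000000 * Real.log n ≤ n := by
    have h1 : 1 + 8 * Real.log n ≤ (1 + 8 * Real.log n) ^ 6 := le_self_pow₀ hA (by norm_num)
    have h2 := HP.hx
    linarith
  have hL0 : 0 < Real.log n := by linarith
  have h1 : (N : ℝ) * (1 / (n : ℝ) ^ 2) ≤ 12 / n := by
    rw [mul_one_div, div_le_div_iff₀ (by positivity) hn]
    have : (N : ℝ) ≤ 12 * n := by linarith
    calc (N : ℝ) * n ≤ 12 * n * n := mul_le_mul_of_nonneg_right this hn.le
      _ = 12 * (n : ℝ) ^ 2 := by ring
  have h2 : 1 * (1 / (n : ℝ) ^ 2) ≤ 1 / n := by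
    rw [one_mul]
    apply div_le_div_of_nonneg_left (by norm_num) hn
    have : (1 : ℝ) ≤ n := by exact_mod_cast hn0
    nlinarith
  have h3 : 1 / (n : ℝ) ≤ 1 / (1000000 * Real.log n) := by
    apply div_le_div_of_nonneg_left (by norm_num) (by positivity) hLn
  have h4 : 1 / (1000000 * Real.log n) = 1 / 1000000 * (1 / Real.log n) := by
    field_simp
  have h5 : 0 < 1 / Real.log n := by positivity
  have h6 : 40 / Real.log n = 40 * (1 / Real.log n) := by ring
  have h7 : 11 / Real.log n = 11 * (1 / Real.log n) := by ring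
  have h8 : 12 / (n : ℝ) = 12 * (1 / n) := by ring
  have h9 : 2 / (n : ℝ) = 2 * (1 / n) := by ring
  have h10 : 6 / (n : ℝ) = 6 * (1 / n) := by ring
  rw [h4] at h3
  rw [hη, hδd, h6, h7, h9, h10]
  rw [h8] at h1
  linarith

end

end Pool.Agent.TH972.U
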