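import Pool.Agent.TH972.U.LongF

/-!
# The paths of the random forest are short (helper626)
-/

set_option autoImplicit false
set_option linter.unusedSectionVars false

namespace Pool.Agent.TH972.U

open Finset Pool.Agent.W842.RST Pool.Agent.TH972

noncomputable section

variable {n : ℕ}

namespace ForLen

lemma pth_chain {V : Type} {f : V → Option V} {R : V → V → Prop} :
    ∀ ζ : List V, Forest.Pth f ζ → (∀ a ∈ ζ, ∀ b, f a = some b → R a b) → ζ.IsChain R
  | [], h, _ => h.elim
  | [z], _, _ => List.isChain_singleton z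
  | (z :: w :: t), h, hR => by
      rw [List.isChain_cons_cons]
      refine ⟨hR z (by simp) w h.1, pth_chain (w :: t) h.2 fun a ha b hb => ?_⟩
      exact hR a (List.mem_cons_of_mem _ ha) b hb

lemma pth_drop {V : Type} {f : V → Option V} :
    ∀ (k : ℕ) (ζ : List V), Forest.Pth f ζ → k < ζ.length → Forest.Pth f (ζ.drop k)
  | 0, ζ, h, _ => by rw [List.drop_zero]; exact h
  | (k + 1), [], h, _ => h.elim
  | (k + 1), [z], _, hk => by simp at hk
  | (k + 1), (z :: w :: t), h, hk => by
      rw [List.drop_succ_cons]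
      exact pth_drop k (w :: t) h.2 (by simpa using hk)

/-- the path of a vertex as a list -/
lemma path_list {V : Type} [Fintype V] [DecidableEq V] {f : V → Option V} (hf : IsFor ∅ f)
    (x : V) : ∃ π : List V, Forest.Pth f π ∧ π.head? = some x ∧ π.Nodup ∧
      anc f x = π.toFinset ∧ (anc f x).card = π.length := by
  obtain ⟨t, h1, h2⟩ := Forest.exists_pth hf.2 x
  have h3 := VBas.anc_pth h1 (x := x) rfl
  exact ⟨x :: t, h1, rfl, h2, h3, by rw [h3, List.toFinset_card_of_nodup h2]⟩

/-- the deterministic part -/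
lemma det (U : Ev n) (M : Finset (Fin n)) (hM : M.Nonempty) (p : ℕ → ℝ) (s : ℕ → ℕ)
    (hp : ∀ i, p i ≤ p (i + 1)) (N m l : ℕ) (hN : 1 ≤ N)
    (hpc : (GU U (p N)).Preconnected)
    (hgi : ∀ i ≤ N, ∃ v, s i ≤ (comp (GU U (p i)) v).card)
    (hav : ∀ i < N, ¬ AvoidBad m (s i) (p (i + 1)) (p (i + 3)) U)
    (hcore : ∀ i ≤ N, ∀ v, s i ≤ (comp (GU U (p i)) v).card →
      ∃ ρ ∈ M, (GU U (p (i + 1))).Reachable ρ v)
    (f : Fin n → Option (Fin n)) (hf : IsFor ∅ f)
    (hbad : ∀ i ≤ N, ¬ BadF U M (p i) (p (i + 1)) f)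
    (hlong : ¬ ∃ x, ∃ π : List (Fin n), Forest.Pth f π ∧ π.head? = some x ∧
      okc (fun u v => U s(u, v) ≤ p 2) l π) (x : Fin n) :
    (anc f x).card ≤ l + m * N := by
  classical
  have hedge : ∀ i ≤ N, ∀ x, (∃ ρ ∈ M, (GU U (p i)).Reachable ρ x) → ∀ π : List (Fin n),
      Forest.Pth f π → anc f x = π.toFinset → π.IsChain (fun u v => U s(u, v) ≤ p (i + 1)) := by
    intro i hi x hx π hπ hanc
    apply pth_chain π hπ
    intro a ha b hb
    by_contra hcon
    rw [not_le] at hcon
    apply hbad i hi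
    refine ⟨x, hx, a, ?_, b, hb, hcon⟩
    rw [hanc, List.mem_toFinset]
    exact ha
  have key : ∀ i, i + 1 ≤ N → ∀ x, (∃ ρ ∈ M, (GU U (p (i + 1))).Reachable ρ x) →
      (anc f x).card ≤ l + m * i := by
    intro i
    induction i with
    | zero =>
      intro hi x hx
      obtain ⟨π, h1, h2, h3, h4, h5⟩ := path_list hf x
      rw [h5]
      by_contra hcon
      apply hlong
      have h6 := hedge 1 hi x hx π h1 h4
      exact ⟨x, π, h1, h2, by omega, h6.take _⟩
    | succ i ih =>
      intro hi x hx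
      obtain ⟨π, h1, h2, h3, h4, h5⟩ := path_list hf x
      have h6 := hedge (i + 2) hi x hx π h1 h4
      rw [h5]
      have e3 : m * (i + 1) = m * i + m := by ring
      by_cases hm : π.length ≤ m
      · omega
      · rw [not_le] at hm
        obtain ⟨v, hv⟩ := hgi i (by omega)
        obtain ⟨ρ, hρM, hρ⟩ := hcore i (by omega) v hv
        have hv' : s i ≤ (comp (GU U (p (i + 1))) v).card := by
          refine hv.trans (Finset.card_le_card ?_)
          intro z hz
          rw [mem_comp] at hz ⊢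
          exact hz.mono (GU_mono (hp i))
        have hex : ∃ k : Fin (m + 1), (GU U (p (i + 1))).Reachable v
            (π.get ⟨k.val, by have := k.isLt; omega⟩) := by
          by_contra hcon
          push Not at hcon
          apply hav i (by omega)
          refine ⟨v, fun k => π.get ⟨k.val, by have := k.isLt; omega⟩, ?_, ?_, hcon, hv'⟩
          · intro a b hab
            have := (List.nodup_iff_injective_get.1 h3) hab
            exact Fin.ext (by simpa using congrArg Fin.val this)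
          · intro k
            have h7 := List.isChain_iff_getElem.1 h6
            have h8 := h7 k.val (by have := k.isLt; omega)
            simpa using h8
        obtain ⟨k, hk⟩ := hex
        have hkl : k.val < π.length := by have := k.isLt; omega
        have h9 := pth_drop k.val π h1 hkl
        have h10 : (π.drop k.val).head? = some (π.get ⟨k.val, hkl⟩) := by
          rw [List.head?_drop]
          simp
        have h11 := VBas.anc_pth h9 h10
        have h12 := ih (by omega) (π.get ⟨k.val, hkl⟩) ⟨ρ, hρM, hρ.trans hk⟩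
        rw [h11, List.toFinset_card_of_nodup (h3.sublist (List.drop_sublist _ _)),
          List.length_drop] at h12
        have := k.isLt
        omega
  obtain ⟨ρ, hρ⟩ := hM
  obtain ⟨N', rfl⟩ : ∃ N', N = N' + 1 := ⟨N - 1, by omega⟩
  have h := key N' le_rfl x ⟨ρ, hρ, hpc ρ x⟩
  have e3 : m * (N' + 1) = m * N' + m := by ring
  omega

lemma PF_union {V : Type} [Fintype V] [DecidableEq V] (N : Net V) {ι κ : Type} (s : Finset ι)
    (t : Finset κ) (A : (V → Option V) → Prop) (B : ι → (V → Option V) → Prop)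
    (C : κ → (V → Option V) → Prop)
    (h : ∀ f, IsFor ∅ f → A f → (∃ i ∈ s, B i f) ∨ ∃ j ∈ t, C j f) :
    PF N A ≤ ∑ i ∈ s, PF N (B i) + ∑ j ∈ t, PF N (C j) := by
  classical
  unfold PF
  rw [← EF_sum, ← EF_sum, ← EF_add]
  apply EF_mono
  intro f hf
  have n1 : 0 ≤ ∑ i ∈ s, (if B i f then (1 : ℝ) else 0) :=
    Finset.sum_nonneg fun i _ => by split_ifs <;> norm_num
  have n2 : 0 ≤ ∑ j ∈ t, (if C j f then (1 : ℝ) else 0) :=
    Finset.sum_nonneg fun j _ => by split_ifs <;> norm_num
  split_ifs with hA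
  · rcases h f hf hA with ⟨i, hi, hB⟩ | ⟨j, hj, hC⟩
    · have h1 := Finset.single_le_sum (f := fun i => (if B i f then (1 : ℝ) else 0))
        (fun i _ => by split_ifs <;> norm_num) hi
      simp only [if_pos hB] at h1
      linarith
    · have h1 := Finset.single_le_sum (f := fun j => (if C j f then (1 : ℝ) else 0))
        (fun j _ => by split_ifs <;> norm_num) hj
      simp only [if_pos hC] at h1
      linarith
  · linarith

end ForLen

/-- the paths of the random forest are short -/
theorem for_len (U : Ev n) (P : PN (Fin n)) {k : ℝ} (hk : 0 < k) {θ0 ε1 ε2 : ℝ} (hθ0 : 0 < θ0)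
    (N m l : ℕ) (hN : 1 ≤ N)
    (hpc : (GU U (Pool.Agent.W842.RST.lev n (θ0 * (11 / 10) ^ N))).Preconnected)
    (hgi : ∀ i ≤ N, ∃ v, siz n (θ0 * (11 / 10) ^ i) ≤
      (comp (GU U (Pool.Agent.W842.RST.lev n (θ0 * (11 / 10) ^ i))) v).card)
    (hav : ∀ i < N, ¬ AvoidBad m (siz n (θ0 * (11 / 10) ^ i))
      (Pool.Agent.W842.RST.lev n (θ0 * (11 / 10) ^ (i + 1)))
      (Pool.Agent.W842.RST.lev n (θ0 * (11 / 10) ^ (i + 3))) U)
    (hcore : ∀ i ≤ N, ∀ v, siz n (θ0 * (11 / 10) ^ i) ≤
      (comp (GU U (Pool.Agent.W842.RST.lev n (θ0 * (11 / 10) ^ i))) v).card →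
      ∃ ρ ∈ P.M, (GU U (Pool.Agent.W842.RST.lev n (θ0 * (11 / 10) ^ (i + 1)))).Reachable ρ v)
    (hbad : ∀ i ≤ N, PF (P.net k hk) (BadF U P.M
      (Pool.Agent.W842.RST.lev n (θ0 * (11 / 10) ^ i))
      (Pool.Agent.W842.RST.lev n (θ0 * (11 / 10) ^ (i + 1)))) ≤ ε1)
    (hlong : ∑ x, longQ (fun u v => U s(u, v) ≤ Pool.Agent.W842.RST.lev n (θ0 * (11 / 10) ^ 2))
      (P.net k hk) l x ≤ ε2) :
    PF (P.net k hk) (fun f => ∃ x, l + m * N < (anc f x).card) ≤ (N + 1) * ε1 + ε2 := by
  classical
  set p : ℕ → ℝ := fun i => Pool.Agent.W842.RST.lev n (θ0 * (11 / 10) ^ i) with hp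
  have hmono : ∀ i, p i ≤ p (i + 1) := by
    intro i
    show Pool.Agent.W842.RST.lev n (θ0 * (11 / 10) ^ i) ≤
      Pool.Agent.W842.RST.lev n (θ0 * (11 / 10) ^ (i + 1))
    unfold Pool.Agent.W842.RST.lev
    apply div_le_div_of_nonneg_right _ (Nat.cast_nonneg n)
    have h1 : (0 : ℝ) ≤ θ0 * (11 / 10) ^ i := by positivity
    have h2 : θ0 * (11 / 10) ^ (i + 1) = θ0 * (11 / 10) ^ i * (11 / 10) := by ring
    rw [h2]
    linarith
  have hun := ForLen.PF_union (P.net k hk) (range (N + 1)) (univ : Finset (Fin n))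
    (fun f => ∃ x, l + m * N < (anc f x).card)
    (fun i f => BadF U P.M (p i) (p (i + 1)) f)
    (fun x f => ∃ π : List (Fin n), Forest.Pth f π ∧ π.head? = some x ∧
      okc (fun u v => U s(u, v) ≤ p 2) l π) (by
    intro f hf hA
    by_contra hcon
    push Not at hcon
    obtain ⟨x, hx⟩ := hA
    have h1 := ForLen.det U P.M P.M_ne p (fun i => siz n (θ0 * (11 / 10) ^ i)) hmono N m l hN
      hpc hgi hav hcore f hf (fun i hi => hcon.1 i (by rw [Finset.mem_range]; omega)) (by
        rintro ⟨y, π, h1, h2, h3⟩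
        exact hcon.2 y (mem_univ _) π h1 h2 h3) x
    omega)
  refine hun.trans ?_
  have h1 : ∑ i ∈ range (N + 1), PF (P.net k hk) (fun f => BadF U P.M (p i) (p (i + 1)) f) ≤
      (N + 1) * ε1 := by
    calc _ ≤ ∑ _i ∈ range (N + 1), ε1 := by
          refine Finset.sum_le_sum fun i hi => ?_
          exact hbad i (by rw [Finset.mem_range] at hi; omega)
      _ = (N + 1) * ε1 := by
          rw [Finset.sum_const, card_range, nsmul_eq_mul]
          push_cast
          ring
  have h2 : ∑ x, PF (P.net k hk) (fun f => ∃ π : List (Fin n), Forest.Pth f π ∧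
      π.head? = some x ∧ okc (fun u v => U s(u, v) ≤ p 2) l π) ≤ ε2 := by
    refine le_trans (Finset.sum_le_sum fun x _ => ?_) hlong
    exact long_for (P.net k hk) (fun u v => U s(u, v) ≤ p 2) l x
  linarith

end

end Pool.Agent.TH972.U
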