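import Pool.Agent.TH972.U.PDef

/-!
# Weighted rooted forests: the matrix-tree theorem and forest paths
-/

set_option autoImplicit false
set_option linter.unusedSectionVars false
set_option maxHeartbeats 4000000

namespace Pool.Agent.TH972.U

open Finset

noncomputable section

variable {V : Type} [Fintype V] [DecidableEq V]

namespace Forest

/-- the iterates of `f` from `x` reach `none` -/
def Rch (f : V → Option V) (x : V) : Prop :=
  ∃ j : ℕ, (fun o : Option V => o.bind f)^[j] (some x) = none

omit [Fintype V] [DecidableEq V] in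
lemma rch_none {f : V → Option V} {x : V} (h : f x = none) : Rch f x :=
  ⟨1, by rw [Function.iterate_one]; exact h⟩

omit [Fintype V] [DecidableEq V] in
lemma rch_some {f : V → Option V} {x y : V} (h : f x = some y) : Rch f x ↔ Rch f y := by
  constructor
  · rintro ⟨j, hj⟩
    cases j with
    | zero => exact absurd hj (by simp)
    | succ j =>
      refine ⟨j, ?_⟩
      rw [Function.iterate_succ_apply] at hj
      rw [← h]
      exact hj
  · rintro ⟨j, hj⟩
    refine ⟨j + 1, ?_⟩
    rw [Function.iterate_succ_apply]
    show (fun o : Option V => o.bind f)^[j] (f x) = none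
    rw [h]
    exact hj

omit [Fintype V] [DecidableEq V] in
lemma rch_induction {f : V → Option V} {P : V → Prop} (h0 : ∀ x, f x = none → P x)
    (h1 : ∀ x y, f x = some y → P y → P x) {x : V} (hx : Rch f x) : P x := by
  obtain ⟨j, hj⟩ := hx
  induction j generalizing x with
  | zero => exact absurd hj (by simp)
  | succ j ih =>
    rw [Function.iterate_succ_apply] at hj
    rcases h : f x with _ | y
    · exact h0 x h
    · refine h1 x y h (ih ?_)
      have h2 : (some x).bind f = some y := h
      rw [h2] at hj
      exact hj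

/-- the depth -/
lemma exists_depth (f : V → Option V) (hf : ∀ x, Rch f x) :
    ∃ d : V → ℕ, ∀ x y, f x = some y → d x = d y + 1 := by
  classical
  have hf' : ∀ x, ∃ j : ℕ, (fun o : Option V => o.bind f)^[j] (some x) = none := hf
  refine ⟨fun x => Nat.find (hf' x), ?_⟩
  intro x y hxy
  have e : ∀ j, (fun o : Option V => o.bind f)^[j + 1] (some x) =
      (fun o : Option V => o.bind f)^[j] (some y) := by
    intro j
    rw [Function.iterate_succ_apply]
    show (fun o : Option V => o.bind f)^[j] (f x) = _
    rw [hxy]
  show Nat.find (hf' x) = Nat.find (hf' y) + 1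
  rw [Nat.find_eq_iff]
  refine ⟨?_, ?_⟩
  · rw [e]
    exact Nat.find_spec (hf' y)
  · intro n hn
    cases n with
    | zero => simp
    | succ n =>
      rw [e]
      exact Nat.find_min (hf' y) (by omega)

/-- the matrix of a function -/
def MF (f : V → Option V) : Matrix V V ℝ := fun x y =>
  (if x = y then 1 else 0) - (if f x = some y then 1 else 0)

lemma det_MF_one (f : V → Option V) (hf : ∀ x, Rch f x) : (MF f).det = 1 := by
  classical
  obtain ⟨d, hd⟩ := exists_depth f hf
  have hb : (MF f).BlockTriangular (fun x => OrderDual.toDual (d x)) := by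
    intro i j hij
    have hij' : d i < d j := OrderDual.toDual_lt_toDual.1 hij
    unfold MF
    rw [if_neg (by rintro rfl; exact lt_irrefl _ hij'), if_neg, sub_zero]
    intro h
    have := hd i j h
    omega
  rw [hb.det]
  apply Finset.prod_eq_one
  intro a _
  have h1 : (MF f).toSquareBlock (fun x => OrderDual.toDual (d x)) a = 1 := by
    ext ⟨i, hi⟩ ⟨j, hj⟩
    show MF f i j = _
    unfold MF
    rw [Matrix.one_apply]
    have h2 : ¬ f i = some j := by
      intro h
      have h3 := hd i j h
      have h4 : OrderDual.toDual (d i) = OrderDual.toDual (d j) := hi.trans hj.symm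
      have h5 : d i = d j := OrderDual.toDual_inj.1 h4
      omega
    rw [if_neg h2, sub_zero]
    simp only [Subtype.mk.injEq]
  rw [h1, Matrix.det_one]

lemma det_MF_zero (f : V → Option V) (hf : ¬ ∀ x, Rch f x) : (MF f).det = 0 := by
  classical
  push Not at hf
  obtain ⟨x0, hx0⟩ := hf
  rw [← Matrix.exists_mulVec_eq_zero_iff]
  refine ⟨fun x => if Rch f x then 0 else 1, ?_, ?_⟩
  · intro h
    have := congrFun h x0
    simp only [if_neg hx0, Pi.zero_apply] at this
    exact one_ne_zero this
  · funext x
    show ∑ y, MF f x y * (if Rch f y then 0 else 1) = 0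
    unfold MF
    simp only [sub_mul, Finset.sum_sub_distrib, ite_mul, one_mul, zero_mul]
    rw [Finset.sum_ite_eq, if_pos (mem_univ x)]
    rcases h : f x with _ | z
    · rw [if_pos (rch_none h)]
      simp
    · have h2 : ∀ y, (if some z = some y then (if Rch f y then (0:ℝ) else 1) else 0) =
          if z = y then (if Rch f y then (0:ℝ) else 1) else 0 := by
        intro y
        simp only [Option.some.injEq]
      simp only [h2]
      rw [Finset.sum_ite_eq, if_pos (mem_univ z)]
      have h3 := rch_some h
      by_cases hz : Rch f z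
      · rw [if_pos hz, if_pos (h3.2 hz), sub_zero]
      · rw [if_neg hz, if_neg (fun h4 => hz (h3.1 h4)), sub_self]

/-- weights -/
def wt (N : Net V) (D : Finset V) (x : V) (o : Option V) : ℝ :=
  if x ∈ D then (if o = none then 1 else 0)
  else (match o with
    | none => N.k x
    | some y => Kc N.κ x y)

/-- the Laplacian with the identity rows on `D` -/
def lapA (N : Net V) (D : Finset V) : Matrix V V ℝ := fun x y =>
  if x ∈ D then (if x = y then 1 else 0)
  else (if x = y then cs N.κ x + N.k x else 0) - Kc N.κ x y

/-- the rows -/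
def rw' (x : V) (o : Option V) : V → ℝ := fun y =>
  (if x = y then 1 else 0) - (if o = some y then 1 else 0)

lemma lapA_row (N : Net V) (D : Finset V) (x : V) :
    lapA N D x = ∑ o : Option V, wt N D x o • rw' x o := by
  classical
  funext y
  rw [Finset.sum_apply, Fintype.sum_option]
  simp only [Pi.smul_apply, smul_eq_mul]
  unfold lapA wt rw'
  by_cases hx : x ∈ D
  · simp [hx]
  · simp only [if_neg hx, reduceCtorEq, if_false, sub_zero, Option.some.injEq, mul_sub,
      Finset.sum_sub_distrib, mul_ite, mul_one, mul_zero]
    rw [Finset.sum_ite_eq', if_pos (mem_univ y)]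
    by_cases hxy : x = y
    · simp only [if_pos hxy]
      unfold cs
      ring
    · simp only [if_neg hxy, Finset.sum_const_zero]
      ring

/-- matrix-tree theorem -/
lemma det_lapA (N : Net V) (D : Finset V) : (lapA N D).det = Zf N D := by
  classical
  have h1 : (lapA N D).det = Matrix.detRowAlternating (fun x => ∑ o : Option V, wt N D x o • rw' x o) := by
    show Matrix.detRowAlternating (lapA N D) = _
    congr 1
    funext x
    exact lapA_row N D x
  have h2 : Matrix.detRowAlternating (fun x : V => ∑ o : Option V, wt N D x o • (rw' x o : V → ℝ)) =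
      ∑ f : V → Option V, Matrix.detRowAlternating (fun x : V => wt N D x (f x) • (rw' x (f x) : V → ℝ)) := by
    exact MultilinearMap.map_sum (Matrix.detRowAlternating (n := V) (R := ℝ)).toMultilinearMap _
  have h3 : ∀ f : V → Option V, Matrix.detRowAlternating (fun x : V => wt N D x (f x) • (rw' x (f x) : V → ℝ)) =
      (∏ x, wt N D x (f x)) * (MF f).det := by
    intro f
    have := MultilinearMap.map_smul_univ (Matrix.detRowAlternating (n := V) (R := ℝ)).toMultilinearMap
      (fun x => wt N D x (f x)) (fun x => (rw' x (f x) : V → ℝ))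
    exact this
  rw [h1, h2, Finset.sum_congr rfl (fun f _ => h3 f)]
  unfold Zf
  rw [Finset.sum_filter]
  apply Finset.sum_congr rfl
  intro f _
  by_cases hf : IsFor D f
  · rw [if_pos hf, det_MF_one f hf.2, mul_one]
    unfold wF
    rw [← Finset.prod_sdiff (Finset.subset_univ D)]
    have e1 : ∏ x ∈ D, wt N D x (f x) = 1 := by
      apply Finset.prod_eq_one
      intro x hx
      unfold wt
      rw [if_pos hx, if_pos (hf.1 x hx)]
    rw [e1, mul_one]
    apply Finset.prod_congr rfl
    intro x hx
    unfold wt
    rw [if_neg (Finset.mem_sdiff.1 hx).2]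
    rcases f x with _ | y <;> rfl
  · rw [if_neg hf]
    by_cases h : ∀ x, Rch f x
    · have h4 : ∃ x ∈ D, f x ≠ none := by
        by_contra h5
        push Not at h5
        exact hf ⟨h5, h⟩
      obtain ⟨x, hx, hfx⟩ := h4
      rw [Finset.prod_eq_zero (mem_univ x), zero_mul]
      unfold wt
      rw [if_pos hx, if_neg hfx]
    · rw [det_MF_zero f h, mul_zero]

lemma lapA_insert (N : Net V) (D : Finset V) (v : V) :
    lapA N (insert v D) = (lapA N D).updateRow v (Pi.single v 1) := by
  ext x y
  by_cases hx : x = v
  · subst hx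
    rw [Matrix.updateRow_self]
    unfold lapA
    rw [if_pos (mem_insert_self _ _), Pi.single_apply]
    by_cases hxy : x = y
    · rw [if_pos hxy, if_pos hxy.symm]
    · rw [if_neg hxy, if_neg (fun h => hxy h.symm)]
  · rw [Matrix.updateRow_ne hx]
    unfold lapA
    by_cases hxD : x ∈ D
    · rw [if_pos (mem_insert_of_mem hxD), if_pos hxD]
    · rw [if_neg (by rw [mem_insert]; tauto), if_neg hxD]

lemma lapA_grn (N : Net V) {D : Finset V} {v : V} (hv : v ∉ D) :
    (lapA N D).mulVec (fun x => grn N D x v) = Pi.single v 1 := by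
  funext x
  show ∑ y, lapA N D x y * grn N D y v = _
  rw [Pi.single_apply]
  unfold lapA
  by_cases hx : x ∈ D
  · have hxv : x ≠ v := fun h => hv (h ▸ hx)
    simp only [if_pos hx, if_neg hxv, ite_mul, one_mul, zero_mul]
    rw [Finset.sum_ite_eq, if_pos (mem_univ x), grn_left N v hx]
  · simp only [if_neg hx, sub_mul, Finset.sum_sub_distrib, ite_mul, zero_mul]
    rw [Finset.sum_ite_eq, if_pos (mem_univ x), grn_eq N hx hv]
    ring

/-- one more root -/
theorem Zf_insert (N : Net V) {D : Finset V} {v : V} (hv : v ∉ D) :
    Zf N (insert v D) = grn N D v v * Zf N D := by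
  have h1 := lapA_grn N hv
  have h2 : (lapA N D).adjugate.mulVec ((lapA N D).mulVec (fun x => grn N D x v)) =
      (lapA N D).det • (fun x => grn N D x v) := by
    rw [Matrix.mulVec_mulVec, Matrix.adjugate_mul, Matrix.smul_mulVec, Matrix.one_mulVec]
  rw [h1] at h2
  have h3 := congrFun h2 v
  rw [Pi.smul_apply, smul_eq_mul, Matrix.mulVec_single_one, Matrix.col_apply, Matrix.adjugate_apply,
    ← lapA_insert, det_lapA, det_lapA] at h3
  rw [h3, mul_comm]

lemma Zf_list (N : Net V) (ζ : List V) (h : ζ.Nodup) :
    Zf N ζ.toFinset = dG N ∅ ζ * Zf N ∅ := by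
  induction ζ with
  | nil => simp [dG]
  | cons v t ih =>
    rw [List.nodup_cons] at h
    rw [List.toFinset_cons, Zf_insert N (by rw [List.mem_toFinset]; exact h.1), ih h.2]
    show _ = (grn N (∅ ∪ t.toFinset) v v * dG N ∅ t) * Zf N ∅
    rw [Finset.empty_union]
    ring

end Forest

end

end Pool.Agent.TH972.U
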