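import Pool.Agent.TH972.U.ADef
import Pool.Agent.TH972.U.GEnv
import Pool.Agent.TH972.U.MkBlk
import Pool.Agent.TH972.U.CountA

/-!
# Good environments, the window
(job RSTRE A6 of helper972, written by helper73)
-/

set_option autoImplicit false
set_option linter.unusedVariables false
set_option linter.unusedSectionVars false

namespace Pool.Agent.TH972.U

open Finset MeasureTheory Pool.Agent.W842.RST Pool.Agent.TH972 Filter Topology

noncomputable section

namespace GEnvA

/-- the numerical facts which are used -/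
structure Nm (n : ℕ) (y : ℝ) : Prop where
  hL : 10 ^ 12 ≤ Real.log n
  hn : Real.log n ^ 40 ≤ n
  hy0 : 1 / Real.log n ^ 3 ≤ y
  hy1 : y * 10 ^ 12 ≤ Real.log n
  hy2 : Real.exp y ≤ Real.log n

theorem ev_nm : ∀ᶠ n : ℕ in atTop, ∀ y : ℝ, 1 / Real.log n ^ 3 ≤ y →
    y ≤ Real.log (Real.log n) → Nm n y := by
  have t1 : Tendsto (fun n : ℕ => Real.log (n : ℝ)) atTop atTop :=
    Real.tendsto_log_atTop.comp tendsto_natCast_atTop_atTop
  have h1 : ∀ᶠ n : ℕ in atTop, (10 : ℝ) ^ 12 ≤ Real.log n := t1.eventually_ge_atTop _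
  have h2 : ∀ᶠ n : ℕ in atTop, Real.log (n : ℝ) ^ 40 ≤ n := by
    have h := (isLittleO_log_rpow_rpow_atTop (40 : ℝ) (zero_lt_one)).bound (c := 1) one_pos
    have h' := tendsto_natCast_atTop_atTop (R := ℝ).eventually h
    filter_upwards [h', h1] with n hn hL
    have e1 : Real.log (n : ℝ) ^ (40 : ℝ) = Real.log (n : ℝ) ^ 40 := by
      rw [← Real.rpow_natCast]
      norm_num
    rw [e1, Real.rpow_one, one_mul, Real.norm_eq_abs, Real.norm_eq_abs,
      abs_of_nonneg (by positivity), abs_of_nonneg (by positivity)] at hn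
    exact hn
  have h3 : ∀ᶠ n : ℕ in atTop, Real.log (Real.log (n : ℝ)) * 10 ^ 12 ≤ Real.log n := by
    have h := Real.isLittleO_log_id_atTop.bound (c := 1 / 10 ^ 12) (by positivity)
    have h' := t1.eventually h
    filter_upwards [h', h1] with n hn hL
    simp only [id_eq, Real.norm_eq_abs] at hn
    have hL0 : 0 ≤ Real.log (n : ℝ) := le_trans (by positivity) hL
    rw [abs_of_nonneg hL0] at hn
    have := (le_abs_self _).trans hn
    norm_num at this ⊢
    linarith
  filter_upwards [h1, h2, h3] with n h1 h2 h3 y hy0 hy1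
  have hL0 : 0 < Real.log (n : ℝ) := lt_of_lt_of_le (by positivity) h1
  refine ⟨h1, h2, hy0, ?_, ?_⟩
  · refine le_trans ?_ h3
    exact mul_le_mul_of_nonneg_right hy1 (by positivity)
  · calc Real.exp y ≤ Real.exp (Real.log (Real.log n)) := Real.exp_le_exp.2 hy1
      _ = Real.log n := Real.exp_log hL0

section num

variable {n : ℕ} {y : ℝ}

theorem L0 (H : Nm n y) : 0 < Real.log n := lt_of_lt_of_le (by positivity) H.hL

theorem L1 (H : Nm n y) : 1 ≤ Real.log n := le_trans (by norm_num) H.hL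

theorem Lp (H : Nm n y) {a b : ℕ} (h : a ≤ b) : Real.log n ^ a ≤ Real.log n ^ b :=
  pow_le_pow_right₀ (L1 H) h

theorem nL (H : Nm n y) {a : ℕ} (h : a ≤ 40) : Real.log n ^ a ≤ n := (Lp H h).trans H.hn

theorem n1 (H : Nm n y) : (10 : ℝ) ^ 12 ≤ n := by
  have := nL H (a := 1) (by norm_num)
  rw [pow_one] at this
  exact H.hL.trans this

theorem n0 (H : Nm n y) : (0 : ℝ) < n := lt_of_lt_of_le (by positivity) (n1 H)

theorem n2 (H : Nm n y) : 2 ≤ n := by
  have h := n1 H
  have : (2 : ℝ) ≤ n := le_trans (by norm_num) h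
  exact_mod_cast this

theorem y0 (H : Nm n y) : 0 < y := lt_of_lt_of_le (by have := L0 H; positivity) H.hy0

theorem ty (H : Nm n y) : 1 / y ≤ Real.log n ^ 3 := by
  have h := H.hy0
  have hL := L0 H
  rw [div_le_iff₀ (by positivity)] at h
  rw [div_le_iff₀ (y0 H)]
  linarith

theorem ty0 (H : Nm n y) : 0 < 1 / y := one_div_pos.2 (y0 H)

theorem tyL (H : Nm n y) : 10 ^ 12 ≤ Real.log n * (1 / y) := by
  have h := H.hy1
  have hy := y0 H
  rw [mul_one_div, le_div_iff₀ hy]
  linarith

theorem gb_pos (H : Nm n y) : 0 < gbA n := by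
  have := L0 H
  unfold gbA
  positivity

theorem gb_le (H : Nm n y) : gbA n ≤ 1 / 100 := by
  have hL := L0 H
  unfold gbA
  rw [div_le_div_iff₀ (by positivity) (by norm_num)]
  have h1 := Lp H (a := 1) (b := 3) (by norm_num)
  rw [pow_one] at h1
  have := H.hL
  norm_num at this
  linarith

theorem gbL (H : Nm n y) : gbA n * Real.log n ^ 3 = 1 := by
  have hL := L0 H
  unfold gbA
  field_simp

theorem npb (H : Nm n y) : n * pbA n = 1 - gbA n := by
  unfold pbA
  have := n0 H
  field_simp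

theorem pb_nn (H : Nm n y) : 0 ≤ pbA n := by
  unfold pbA
  have := n0 H
  have := gb_le H
  apply div_nonneg (by linarith) (n0 H).le

theorem pb_half (H : Nm n y) : pbA n ≤ 1 / 2 := by
  have h1 := npb H
  have h2 : (2 : ℝ) ≤ n := le_trans (by norm_num) (n1 H)
  have h3 := gb_pos H
  have h4 := pb_nn H
  nlinarith

theorem gA_eq (H : Nm n y) (i : ℤ) : n * gA n y i = 1 + i * (1 / y) := by
  unfold gA
  have := n0 H
  field_simp

theorem gA_le (H : Nm n y) {i : ℤ} {B : ℝ} (hi : 0 ≤ i) (hB : (i : ℝ) ≤ B) :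
    n * gA n y i ≤ 1 + B * Real.log n ^ 3 := by
  rw [gA_eq H]
  have h1 := ty H
  have h2 := ty0 H
  have h3 : (0 : ℝ) ≤ i := by exact_mod_cast hi
  have h4 : (i : ℝ) * (1 / y) ≤ B * Real.log n ^ 3 :=
    mul_le_mul hB h1 h2.le (h3.trans hB)
  linarith

theorem pb_le_gA (H : Nm n y) {i : ℤ} (hi : 0 ≤ i) : pbA n ≤ gA n y i := by
  have h1 := npb H
  have h2 := gA_eq H i
  have h3 := gb_pos H
  have h4 : (0 : ℝ) ≤ i := by exact_mod_cast hi
  have h5 := ty0 H
  have h6 : n * pbA n ≤ n * gA n y i := by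
    rw [h1, h2]
    have : 0 ≤ (i : ℝ) * (1 / y) := by positivity
    linarith
  exact le_of_mul_le_mul_left h6 (n0 H)

theorem IA_le (H : Nm n y) : ((IA n : ℤ) : ℝ) ≤ 2 * Real.log n ^ 2 := by
  have h1 : (IA n : ℝ) < Real.log n ^ 2 + 1 := Nat.ceil_lt_add_one (by positivity)
  have h2 := one_le_pow₀ (L1 H) (n := 2)
  push_cast
  linarith

theorem pn1 (H : Nm n y) : gA n y 1 ≤ 1 := by
  have h1 := gA_le H (i := 1) (B := 1) (by norm_num) (by norm_num)
  have h2 := nL H (a := 4) (by norm_num)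
  have h3 : 1 + 1 * Real.log n ^ 3 ≤ Real.log n ^ 4 := by
    have h4 := one_le_pow₀ (L1 H) (n := 3)
    have h5 := H.hL
    norm_num at h5
    have : Real.log n ^ 4 = Real.log n * Real.log n ^ 3 := by ring
    nlinarith
  have h6 : n * gA n y 1 ≤ n * 1 := by linarith
  exact le_of_mul_le_mul_left h6 (n0 H)

theorem pt1 (H : Nm n y) : gA n y (IA n) ≤ 1 := by
  have h1 := gA_le H (i := IA n) (B := 2 * Real.log n ^ 2) (by positivity) (IA_le H)
  have h2 := nL H (a := 6) (by norm_num)
  have h3 : 1 + 2 * Real.log n ^ 2 * Real.log n ^ 3 ≤ Real.log n ^ 6 := by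
    have h4 := one_le_pow₀ (L1 H) (n := 5)
    have h5 := H.hL
    norm_num at h5
    have e1 : Real.log n ^ 6 = Real.log n * Real.log n ^ 5 := by ring
    have e2 : 2 * Real.log n ^ 2 * Real.log n ^ 3 = 2 * Real.log n ^ 5 := by ring
    nlinarith
  have h6 : n * gA n y (IA n) ≤ n * 1 := by linarith
  exact le_of_mul_le_mul_left h6 (n0 H)

/-- lower bound of the sprinkling probability -/
theorem q_lo (H : Nm n y) : 1 / y / n ≤ (gA n y 1 - pbA n) / (1 - pbA n) := by
  have h1 := npb H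
  have h2 := pb_half H
  have h3 := n0 H
  have h4 := gb_pos H
  have h5 : 0 < 1 - pbA n := by linarith
  have h6 := gA_eq H 1
  have h7 := pb_nn H
  have h8 := ty0 H
  push_cast at h6
  rw [div_le_div_iff₀ h3 h5]
  have h9 : 1 / y ≤ (gA n y 1 - pbA n) * n := by linarith
  nlinarith

/-- upper bound of the sprinkling probability -/
theorem q_up (H : Nm n y) {i : ℤ} {B : ℝ} (hB : n * gA n y i ≤ 1 + B) (hB1 : 1 ≤ B) :
    (gA n y i - pbA n) / (1 - pbA n) ≤ 4 * B / n := by
  have h1 := npb H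
  have h2 := pb_half H
  have h3 := n0 H
  have h4 := gb_pos H
  have h10 := gb_le H
  have h5 : 0 < 1 - pbA n := by linarith
  rw [div_le_div_iff₀ h5 h3]
  have h6 : (gA n y i - pbA n) * n ≤ 2 * B := by linarith
  nlinarith

theorem s0_eq (H : Nm n y) : (s0A n : ℝ) ≤ Real.log n ^ 6 / 6400 ∧
    Real.log n ^ 6 / 6500 ≤ (s0A n : ℝ) ∧ 1 ≤ s0A n := by
  have hL := L0 H
  have e : 1 / (6400 * gbA n ^ 2) = Real.log n ^ 6 / 6400 := by
    unfold gbA
    field_simp
  have h1 : (s0A n : ℝ) ≤ Real.log n ^ 6 / 6400 := by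
    unfold s0A
    rw [e]
    exact Nat.floor_le (by positivity)
  have h2 : Real.log n ^ 6 / 6400 < (s0A n : ℝ) + 1 := by
    unfold s0A
    rw [e]
    exact Nat.lt_floor_add_one _
  have h3 : (10 : ℝ) ^ 12 ≤ Real.log n ^ 6 := by
    have := Lp H (a := 1) (b := 6) (by norm_num)
    rw [pow_one] at this
    exact H.hL.trans this
  norm_num at h3
  have h4 : Real.log n ^ 6 / 6500 ≤ (s0A n : ℝ) := by linarith
  refine ⟨h1, h4, ?_⟩
  have : (1 : ℝ) ≤ s0A n := by linarith
  exact_mod_cast this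

theorem smax_eq (H : Nm n y) : smaxA n = 16 * Real.log n ^ 7 := by
  have hL := L0 H
  unfold smaxA gbA
  field_simp

theorem vmin_eq (H : Nm n y) : vminA n = n / (6 * Real.log n ^ 3) := by
  have hL := L0 H
  unfold vminA gbA
  field_simp

theorem inv_n (H : Nm n y) : 1 / (n : ℝ) ≤ 1 / Real.log n ^ 39 := by
  have hL := L0 H
  exact one_div_le_one_div_of_le (by positivity) (nL H (by norm_num))

/-! ### the bad events -/

theorem c2 (H : Nm n y) : env n {U : Ev n | ∃ v, smaxA n < (cmp (GU U (pbA n)) v).card} ≤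
    ENNReal.ofReal (1 / n) := by
  have hg := gb_le H
  have hg0 := gb_pos H
  have h := cmp_up (n := n) (p := pbA n) (g := gbA n) (s := smaxA n) (pb_nn H)
    ((pb_half H).trans (by norm_num)) hg0 (hg.trans (by norm_num)) (npb H).le
  refine h.trans (ENNReal.ofReal_le_ofReal ?_)
  have e : gbA n ^ 2 / 4 * smaxA n = 4 * Real.log n := by
    unfold smaxA
    field_simp
    norm_num
  have hn := n0 H
  have hn18 := n1 H
  rw [e]
  have e2 : Real.exp (-(4 * Real.log n)) = 1 / (n : ℝ) ^ 4 := by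
    rw [Real.exp_neg, one_div]
    congr 1
    have : (4 : ℝ) * Real.log n = ((4 : ℕ) : ℝ) * Real.log n := by norm_num
    rw [this, Real.exp_nat_mul, Real.exp_log hn]
  rw [e2]
  have e3 : 2 * (n : ℝ) * (1 / (n : ℝ) ^ 4) = 2 / (n : ℝ) ^ 3 := by
    field_simp
  rw [e3, div_le_div_iff₀ (by positivity) hn]
  have h2 : (2 : ℝ) ≤ n := le_trans (by norm_num) hn18
  have h4 : (2 : ℝ) ≤ (n : ℝ) ^ 2 := by nlinarith
  have e4 : (n : ℝ) ^ 3 = (n : ℝ) ^ 2 * n := by ring
  rw [e4, one_mul]
  exact mul_le_mul_of_nonneg_right h4 hn.le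

theorem c3 (H : Nm n y) :
    env n {U : Ev n | ((marks 0 (pbA n) 1 (s0A n) U).card : ℝ) < vminA n} ≤
      ENNReal.ofReal (1 / Real.log n ^ 2) := by
  have hn := n0 H
  have hL := L0 H
  have hL1 := L1 H
  obtain ⟨h1, h2, h3⟩ := s0_eq H
  have h := marks_low_A (n := n) (pl := 0) (pb := pbA n) (gb := gbA n) (s0 := s0A n) (pb_nn H)
    rfl (gb_pos H) (gb_le H) (by
      have h4 := nL H (a := 10) (by norm_num)
      unfold gbA
      rw [div_pow, ← pow_mul, one_pow, mul_one_div, le_div_iff₀ (by positivity)]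
      refine le_trans ?_ h4
      have h5 := H.hL
      norm_num at h5 ⊢
      have e : Real.log n ^ 10 = Real.log n * Real.log n ^ 9 := by ring
      rw [e]
      exact mul_le_mul_of_nonneg_right (by linarith) (by positivity)) (by
      have e : (s0A n : ℝ) * gbA n ^ 2 * 6400 = s0A n / (Real.log n ^ 6 / 6400) := by
        unfold gbA
        field_simp
      rw [e, div_le_one (by positivity)]
      exact h1) h3
  refine h.trans (ENNReal.ofReal_le_ofReal ?_)
  have e : (n : ℝ) * gbA n ^ 3 = n / Real.log n ^ 9 := by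
    unfold gbA
    field_simp
  rw [e, div_div_eq_mul_div, div_le_div_iff₀ hn (by positivity), one_mul]
  refine le_trans ?_ (nL H (a := 12) (by norm_num))
  have h5 := H.hL
  norm_num at h5
  have e : Real.log n ^ 12 = Real.log n * (Real.log n ^ 9 * Real.log n ^ 2) := by ring
  rw [e, mul_assoc]
  exact mul_le_mul_of_nonneg_right (by linarith) (by positivity)

theorem c4 (H : Nm n y) :
    env n {U : Ev n | Std (pbA n) (s0A n) (smaxA n) (vminA n) U ∧
      ¬ Iso (pbA n) (gA n y 1) (s0A n) U} ≤ ENNReal.ofReal (1 / n) := by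
  have hn := n0 H
  have hL := L0 H
  have hL1 := L1 H
  obtain ⟨h1, h2, h3⟩ := s0_eq H
  have hq := q_lo H
  have hty := ty0 H
  refine iso_le (pb_nn H) (pb_le_gA H (by norm_num)) (pn1 H)
    (lt_of_le_of_lt (pb_half H) (by norm_num)) h3 ?_ ?_ (n2 H) ?_
  · rw [smax_eq H]
    have := Lp H (a := 6) (b := 7) (by norm_num)
    have h0 : 0 ≤ Real.log n ^ 6 := by positivity
    linarith
  · rw [smax_eq H, vmin_eq H, le_div_iff₀ (by positivity)]
    refine le_trans ?_ (nL H (a := 11) (by norm_num))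
    have h5 := H.hL
    norm_num at h5
    have e : Real.log n ^ 11 = Real.log n * Real.log n ^ 10 := by ring
    have e2 : 8 * (16 * Real.log n ^ 7) * (6 * Real.log n ^ 3) = 768 * Real.log n ^ 10 := by ring
    rw [e, e2]
    exact mul_le_mul_of_nonneg_right (by linarith) (by positivity)
  · have h4 : (Real.log n ^ 6 / 6500) ^ 2 ≤ (s0A n : ℝ) ^ 2 :=
      pow_le_pow_left₀ (by positivity) h2 2
    have h5 : 0 < vminA n / (8 * smaxA n) := by
      rw [smax_eq H, vmin_eq H]
      positivity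
    have h6 : (Real.log n ^ 6 / 6500) ^ 2 * (vminA n / (8 * smaxA n)) ≤
        (s0A n : ℝ) ^ 2 * vminA n / (8 * smaxA n) := by
      rw [mul_div_assoc]
      exact mul_le_mul_of_nonneg_right h4 h5.le
    have h7 : 0.6 * (1 / y / n) * ((Real.log n ^ 6 / 6500) ^ 2 * (vminA n / (8 * smaxA n))) ≤
        0.6 * ((gA n y 1 - pbA n) / (1 - pbA n)) *
        ((s0A n : ℝ) ^ 2 * vminA n / (8 * smaxA n)) := by
      apply mul_le_mul (mul_le_mul_of_nonneg_left hq (by norm_num)) h6 (by positivity)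
      have : 0 ≤ 1 / y / n := by positivity
      have := this.trans hq
      positivity
    refine le_trans ?_ h7
    have e : 0.6 * (1 / y / n) * ((Real.log n ^ 6 / 6500) ^ 2 * (vminA n / (8 * smaxA n))) =
        0.6 / (6500 ^ 2 * 768) * (Real.log n * (1 / y)) * Real.log n := by
      rw [smax_eq H, vmin_eq H]
      have := y0 H
      field_simp
      norm_num
    rw [e]
    have h8 := tyL H
    norm_num at h8 ⊢
    nlinarith

theorem c5 (H : Nm n y) :
    env n {U : Ev n | Std (pbA n) (s0A n) (smaxA n) (vminA n) U ∧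
      ¬ Rob (pbA n) (gA n y 1) (s0A n) U} ≤ ENNReal.ofReal (1 / n) := by
  have hn := n0 H
  have hL := L0 H
  have hL1 := L1 H
  obtain ⟨h1, h2, h3⟩ := s0_eq H
  have hq := q_lo H
  have hty := ty0 H
  have hv0 : 0 < vminA n := by
    rw [vmin_eq H]
    positivity
  refine rob_le (smax := smaxA n) (pb_nn H) (pb_le_gA H (by norm_num)) (pn1 H)
    (lt_of_le_of_lt (pb_half H) (by norm_num)) h3 ?_ (n2 H) ?_
  · rw [smax_eq H, vmin_eq H, le_div_iff₀ (by positivity)]
    refine le_trans ?_ (nL H (a := 11) (by norm_num))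
    have h5 := H.hL
    norm_num at h5
    have e : Real.log n ^ 11 = Real.log n * Real.log n ^ 10 := by ring
    have e2 : 2 * (16 * Real.log n ^ 7) * (6 * Real.log n ^ 3) = 192 * Real.log n ^ 10 := by ring
    rw [e, e2]
    exact mul_le_mul_of_nonneg_right (by linarith) (by positivity)
  · have h6 : Real.log n ^ 6 / 6500 * vminA n / 2 ≤ (s0A n : ℝ) * vminA n / 2 := by
      have := mul_le_mul_of_nonneg_right h2 hv0.le
      linarith
    have h7 : 0.6 * (1 / y / n) * (Real.log n ^ 6 / 6500 * vminA n / 2) ≤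
        0.6 * ((gA n y 1 - pbA n) / (1 - pbA n)) * ((s0A n : ℝ) * vminA n / 2) := by
      apply mul_le_mul (mul_le_mul_of_nonneg_left hq (by norm_num)) h6 (by positivity)
      have : 0 ≤ 1 / y / n := by positivity
      have := this.trans hq
      positivity
    refine le_trans ?_ h7
    have e : 0.6 * (1 / y / n) * (Real.log n ^ 6 / 6500 * vminA n / 2) =
        0.6 / 78000 * (Real.log n * (1 / y)) * Real.log n ^ 2 := by
      rw [vmin_eq H]
      have := y0 H
      field_simp
      norm_num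
    rw [e]
    have h8 := tyL H
    have h9 : Real.log n ≤ Real.log n ^ 2 := by nlinarith
    norm_num at h8 ⊢
    have h10 : 0 ≤ Real.log n ^ 2 := by positivity
    nlinarith

theorem c6 (H : Nm n y) :
    env n {U : Ev n | (∀ v, ((cmp (GU U (pbA n)) v).card : ℝ) ≤ smaxA n) ∧
      ((gd (GU U (pbA n)) (s0A n)).card : ℝ) ≤ n ∧ ∃ S ∈ blks (GU U (pbA n)) (s0A n),
        ΔA n < ∑ S' ∈ (blks (GU U (pbA n)) (s0A n)).erase S, nU (gA n y 1) U S S'} ≤
      ENNReal.ofReal (1 / n) := by
  have hn := n0 H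
  have hL := L0 H
  have hL1 := L1 H
  obtain ⟨h1, h2, h3⟩ := s0_eq H
  have hs : 0 ≤ smaxA n := by
    rw [smax_eq H]
    positivity
  refine deg_le (pb_nn H) (pb_le_gA H (by norm_num)) (pn1 H)
    (lt_of_le_of_lt (pb_half H) (by norm_num)) h3 (n2 H) hs hn.le ?_
  have h4 := gA_le H (i := 1) (B := 1) (by norm_num) (by norm_num)
  rw [one_mul] at h4
  have h5 := q_up H (i := 1) h4 (one_le_pow₀ hL1)
  have h6 : (gA n y 1 - pbA n) / (1 - pbA n) * (smaxA n * n) ≤
      4 * Real.log n ^ 3 / n * (smaxA n * n) :=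
    mul_le_mul_of_nonneg_right h5 (by positivity)
  have e : 4 * Real.log n ^ 3 / n * (smaxA n * n) = 64 * Real.log n ^ 10 := by
    rw [smax_eq H]
    field_simp
    norm_num
  rw [e] at h6
  have e2 : ΔA n = Real.log n ^ 2 * Real.log n ^ 10 := by
    unfold ΔA
    ring
  have h7 := Lp H (a := 1) (b := 10) (by norm_num)
  rw [pow_one] at h7
  have h8 := H.hL
  norm_num at h8
  have h9 : (1000 : ℝ) ≤ Real.log n ^ 2 := by nlinarith
  have h10 : 1000 * Real.log n ^ 10 ≤ Real.log n ^ 2 * Real.log n ^ 10 :=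
    mul_le_mul_of_nonneg_right h9 (by positivity)
  rw [e2]
  linarith

theorem c7 (H : Nm n y) :
    env n {U : Ev n | (∀ v, ((cmp (GU U (pbA n)) v).card : ℝ) ≤ smaxA n) ∧
      ((gd (GU U (gA n y (IA n))) 1).card : ℝ) ≤ n ∧
        ∃ v, AA n < arm (pbA n) (gA n y (IA n)) 1 U v} ≤ ENNReal.ofReal (1 / n) := by
  have hn := n0 H
  have hL := L0 H
  have hL1 := L1 H
  have hs : 0 ≤ smaxA n := by
    rw [smax_eq H]
    positivity
  refine arm_le (pb_nn H) (pb_le_gA H (by positivity)) (pt1 H)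
    (lt_of_le_of_lt (pb_half H) (by norm_num)) (n2 H) hs hn.le ?_
  have h4 := gA_le H (i := IA n) (B := 2 * Real.log n ^ 2) (by positivity) (IA_le H)
  have h1 : 1 ≤ 2 * Real.log n ^ 2 * Real.log n ^ 3 := by
    have := one_le_pow₀ hL1 (n := 5)
    have e : 2 * Real.log n ^ 2 * Real.log n ^ 3 = 2 * Real.log n ^ 5 := by ring
    rw [e]
    linarith
  have h5 := q_up H (i := IA n) h4 h1
  have h6 : (gA n y (IA n) - pbA n) / (1 - pbA n) * (smaxA n * n) ≤
      4 * (2 * Real.log n ^ 2 * Real.log n ^ 3) / n * (smaxA n * n) :=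
    mul_le_mul_of_nonneg_right h5 (by positivity)
  have e : 4 * (2 * Real.log n ^ 2 * Real.log n ^ 3) / n * (smaxA n * n) =
      128 * Real.log n ^ 12 := by
    rw [smax_eq H]
    field_simp
    norm_num
  rw [e] at h6
  have e2 : AA n = Real.log n ^ 8 * Real.log n ^ 12 := by
    unfold AA
    ring
  have h7 := Lp H (a := 1) (b := 12) (by norm_num)
  rw [pow_one] at h7
  have h8 := H.hL
  norm_num at h8
  have h9 : (1000 : ℝ) ≤ Real.log n ^ 8 := by
    have := Lp H (a := 1) (b := 8) (by norm_num)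
    rw [pow_one] at this
    linarith
  have h10 : 1000 * Real.log n ^ 12 ≤ Real.log n ^ 8 * Real.log n ^ 12 :=
    mul_le_mul_of_nonneg_right h9 (by positivity)
  rw [e2]
  linarith

end num

/-! ### the total conductance at a vertex -/

theorem exp_le_two' {x : ℝ} (h0 : 0 ≤ x) (h1 : x ≤ 1) : Real.exp x ≤ 1 + 2 * x := by
  have h := Real.abs_exp_sub_one_sub_id_le (x := x) (by rw [abs_of_nonneg h0]; exact h1)
  have h2 := (abs_le.1 h).2
  nlinarith

/-- the truncated exponential -/
def phiA (c x : ℝ) : ℝ := Real.exp (min 1 (Real.exp (-(c * x))))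

theorem phiA_meas (c : ℝ) : Measurable (phiA c) := by
  unfold phiA
  exact Real.measurable_exp.comp (measurable_const.min (Real.measurable_exp.comp
    ((measurable_id.const_mul c).neg)))

theorem phiA_pos (c x : ℝ) : 0 < phiA c x := Real.exp_pos _

theorem phiA_le (c x : ℝ) : phiA c x ≤ Real.exp 1 := Real.exp_le_exp.2 (min_le_left _ _)

theorem one_le_phiA (c x : ℝ) : 1 ≤ phiA c x :=
  Real.one_le_exp (le_min zero_le_one (Real.exp_pos _).le)

theorem phiA_abs (c x : ℝ) : |phiA c x| ≤ Real.exp 1 := by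
  rw [abs_of_pos (phiA_pos c x)]
  exact phiA_le c x

theorem phiA_eq {c x : ℝ} (hc : 0 ≤ c) (hx : 0 ≤ x) :
    phiA c x = Real.exp (Real.exp (-(c * x))) := by
  unfold phiA
  rw [min_eq_right]
  rw [Real.exp_le_one_iff]
  have : 0 ≤ c * x := by positivity
  linarith

theorem int_exp {c : ℝ} (hc : 0 < c) : ∫ x, Real.exp (-(c * x)) ∂nu ≤ 1 / c := by
  have h1 : ∫ x, Real.exp (-(c * x)) ∂nu = ∫ x in (0 : ℝ)..1, Real.exp (-(c * x)) := by
    rw [intervalIntegral.integral_of_le zero_le_one, ← integral_Icc_eq_integral_Ioc]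
    rfl
  have h2 : ∀ x ∈ Set.uIcc (0 : ℝ) 1, HasDerivAt (fun x => -(1 / c) * Real.exp (-(c * x)))
      (Real.exp (-(c * x))) x := by
    intro x _
    have h3 : HasDerivAt (fun x : ℝ => -(c * x)) (-c) x := by
      have := (hasDerivAt_id' x).const_mul (-c)
      simpa only [neg_mul, mul_one] using this
    have h4 := (h3.exp).const_mul (-(1 / c))
    exact h4.congr_deriv (by field_simp)
  rw [h1, intervalIntegral.integral_eq_sub_of_hasDerivAt h2
    ((Continuous.intervalIntegrable (by fun_prop) _ _))]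
  simp only [mul_zero, neg_zero, Real.exp_zero, mul_one]
  have : 0 < 1 / c * Real.exp (-c) := by positivity
  linarith

theorem int_phiA {c : ℝ} (hc : 0 < c) : ∫ x, phiA c x ∂nu ≤ 1 + 2 / c := by
  have hi : Integrable (fun x : ℝ => Real.exp (-(c * x))) nu := by
    have : ContinuousOn (fun x : ℝ => Real.exp (-(c * x))) (Set.Icc 0 1) :=
      Continuous.continuousOn (by fun_prop)
    exact this.integrableOn_compact isCompact_Icc
  have hi2 : Integrable (fun x : ℝ => 1 + 2 * Real.exp (-(c * x))) nu :=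
    (integrable_const 1).add (hi.const_mul 2)
  have h1 : ∫ x, phiA c x ∂nu ≤ ∫ x, (1 + 2 * Real.exp (-(c * x))) ∂nu := by
    apply integral_mono_of_nonneg
    · exact Filter.Eventually.of_forall (fun x => (phiA_pos c x).le)
    · exact hi2
    · show ∀ᵐ x ∂nu, phiA c x ≤ 1 + 2 * Real.exp (-(c * x))
      unfold nu
      rw [ae_restrict_iff' measurableSet_Icc]
      refine Filter.Eventually.of_forall (fun x hx => ?_)
      rw [phiA_eq hc.le hx.1]
      apply exp_le_two' (Real.exp_pos _).le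
      rw [Real.exp_le_one_iff]
      have : 0 ≤ c * x := mul_nonneg hc.le hx.1
      linarith
  have h2 : ∫ x, (1 + 2 * Real.exp (-(c * x))) ∂nu = 1 + 2 * ∫ x, Real.exp (-(c * x)) ∂nu := by
    rw [integral_add (integrable_const 1) (hi.const_mul 2), integral_const_mul]
    simp
  have h3 := int_exp hc
  rw [h2] at h1
  have e : 2 / c = 2 * (1 / c) := by ring
  rw [e]
  linarith

section cond

variable {n : ℕ} {y : ℝ}

/-- the product over the star of a vertex -/
def PA (n : ℕ) (c : ℝ) (U : Ev n) (v : Fin n) : ℝ :=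
  ∏ u ∈ (univ : Finset (Fin n)).erase v, phiA c (U s(v, u))

theorem PA_pos (c : ℝ) (U : Ev n) (v : Fin n) : 0 < PA n c U v :=
  Finset.prod_pos (fun u _ => phiA_pos c _)

theorem PA_bm (c : ℝ) (v : Fin n) : BM (fun U : Ev n => PA n c U v) := by
  have hm : Measurable (fun U : Ev n => PA n c U v) := by
    unfold PA
    exact Finset.measurable_prod _ (fun u _ => (phiA_meas c).comp (measurable_pi_apply _))
  refine ⟨hm, Real.exp 1 ^ ((univ : Finset (Fin n)).erase v).card, fun U => ?_⟩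
  rw [abs_of_pos (PA_pos c U v)]
  unfold PA
  rw [← Finset.prod_const]
  exact Finset.prod_le_prod (fun u _ => (phiA_pos c _).le) (fun u _ => phiA_le c _)

theorem PA_ex {c : ℝ} (hc : 0 < c) (v : Fin n) :
    Ex (fun U : Ev n => PA n c U v) ≤ Real.exp (2 * n / c) := by
  have h := Ex_star (n := n) (v := v) (F := univ.erase v) (notMem_erase v univ) (phiA c)
    (phiA_meas c) ⟨Real.exp 1, phiA_abs c⟩
  have h0 : (0 : ℝ) ≤ ∫ x, phiA c x ∂nu :=
    integral_nonneg (fun x => (phiA_pos c x).le)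
  unfold PA
  rw [h]
  have h1 : ∫ x, phiA c x ∂nu ≤ Real.exp (2 / c) := by
    refine (int_phiA hc).trans ?_
    have := Real.add_one_le_exp (2 / c)
    linarith
  calc (∫ x, phiA c x ∂nu) ^ ((univ : Finset (Fin n)).erase v).card ≤
        Real.exp (2 / c) ^ ((univ : Finset (Fin n)).erase v).card :=
        pow_le_pow_left₀ h0 h1 _
    _ ≤ Real.exp (2 / c) ^ n := by
        apply pow_le_pow_right₀ (Real.one_le_exp (by positivity))
        calc ((univ : Finset (Fin n)).erase v).card ≤ (univ : Finset (Fin n)).card :=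
              card_le_card (erase_subset _ _)
          _ = n := by rw [card_univ, Fintype.card_fin]
    _ = Real.exp (2 * n / c) := by
        rw [← Real.exp_nat_mul]
        congr 1
        ring

theorem PA_sum {c : ℝ} (hc : 0 < c) {U : Ev n} (hU : ∀ e, 0 < U e) (v : Fin n) :
    PA n c U v = Real.exp (∑ u ∈ (univ : Finset (Fin n)).erase v, Real.exp (-(c * U s(v, u)))) := by
  unfold PA
  rw [Real.exp_sum]
  exact Finset.prod_congr rfl (fun u _ => phiA_eq hc.le (hU _).le)

theorem cs_eq (U : Ev n) (v : Fin n) :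
    cs (fun e => wA n y (U e)) v =
      Real.exp y * ∑ u ∈ (univ : Finset (Fin n)).erase v, Real.exp (-((y * n) * U s(v, u))) := by
  unfold cs
  rw [← Finset.add_sum_erase _ _ (mem_univ v)]
  have h0 : Kc (fun e => wA n y (U e)) v v = 0 := by
    unfold Kc
    rw [if_pos rfl]
  rw [h0, zero_add, Finset.mul_sum]
  refine Finset.sum_congr rfl (fun u hu => ?_)
  have hne : v ≠ u := (ne_of_mem_erase hu).symm
  unfold Kc
  rw [if_neg hne, ← Real.exp_add]
  show Real.exp (-(y * (n * U s(v, u) - 1))) = _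
  congr 1
  ring

theorem c8 (H : Nm n y) :
    env n {U : Ev n | (∀ e, 0 < U e) ∧ ∃ v, dA n < cs (fun e => wA n y (U e)) v} ≤
      ENNReal.ofReal (1 / n) := by
  have hn := n0 H
  have hL := L0 H
  have hL1 := L1 H
  have hy := y0 H
  have hc : 0 < y * n := by positivity
  have hE : Ex (fun U : Ev n => ∑ v, PA n (y * n) U v) ≤
      n * Real.exp (2 * Real.log n ^ 3) := by
    rw [Ex_sum _ (fun v _ => PA_bm (y * n) v)]
    calc ∑ v : Fin n, Ex (fun U : Ev n => PA n (y * n) U v) ≤
          ∑ _v : Fin n, Real.exp (2 * Real.log n ^ 3) := by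
          refine Finset.sum_le_sum (fun v _ => (PA_ex hc v).trans (Real.exp_le_exp.2 ?_))
          have e : 2 * (n : ℝ) / (y * n) = 2 * (1 / y) := by
            field_simp
          rw [e]
          have := ty H
          linarith
      _ = n * Real.exp (2 * Real.log n ^ 3) := by
          rw [Finset.sum_const, Finset.card_univ, Fintype.card_fin, nsmul_eq_mul]
  have h := env_markov (BM.sum _ (fun v _ => PA_bm (y * n) v))
    (fun U => Finset.sum_nonneg (fun v _ => (PA_pos (y * n) U v).le))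
    (Real.exp_pos (Real.log n ^ 4)) hE
  have h2 : n * Real.exp (2 * Real.log n ^ 3) / Real.exp (Real.log n ^ 4) ≤ 1 / n := by
    rw [div_le_div_iff₀ (Real.exp_pos _) hn, one_mul]
    have e : (n : ℝ) = Real.exp (Real.log n) := (Real.exp_log hn).symm
    calc (n : ℝ) * Real.exp (2 * Real.log n ^ 3) * n =
          Real.exp (Real.log n) * Real.exp (2 * Real.log n ^ 3) * Real.exp (Real.log n) := by
          rw [← e]
      _ = Real.exp (Real.log n + 2 * Real.log n ^ 3 + Real.log n) := by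
          rw [Real.exp_add, Real.exp_add]
      _ ≤ Real.exp (Real.log n ^ 4) := by
          apply Real.exp_le_exp.2
          have h5 := H.hL
          norm_num at h5
          have h6 := Lp H (a := 1) (b := 3) (by norm_num)
          rw [pow_one] at h6
          have h7 : 4 * Real.log n ^ 3 ≤ Real.log n * Real.log n ^ 3 :=
            mul_le_mul_of_nonneg_right (by linarith) (by positivity)
          have e2 : Real.log n ^ 4 = Real.log n * Real.log n ^ 3 := by ring
          rw [e2]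
          linarith
  refine le_trans (measure_mono ?_) (h.trans (ENNReal.ofReal_le_ofReal h2))
  rintro U ⟨hU, v, hv⟩
  rw [Set.mem_ofPred_eq]
  by_contra hcon
  push Not at hcon
  have h3 : PA n (y * n) U v < Real.exp (Real.log n ^ 4) :=
    lt_of_le_of_lt (Finset.single_le_sum (f := fun v => PA n (y * n) U v)
      (fun w _ => (PA_pos (y * n) U w).le) (mem_univ v)) hcon
  rw [PA_sum hc hU v, Real.exp_lt_exp] at h3
  rw [cs_eq] at hv
  have h4 : Real.exp y * ∑ u ∈ (univ : Finset (Fin n)).erase v,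
      Real.exp (-((y * n) * U s(v, u))) ≤ Real.log n * Real.log n ^ 4 :=
    mul_le_mul H.hy2 h3.le (Finset.sum_nonneg (fun u _ => (Real.exp_pos _).le)) hL.le
  have e : dA n = Real.log n * Real.log n ^ 4 := by
    unfold dA
    ring
  rw [e] at hv
  linarith

/-! ### connectivity -/

theorem c9 (H : Nm n y) :
    env n {U : Ev n | ¬ (GU U (Pool.Agent.W842.RST.lev n (5 * Real.log n))).Preconnected} ≤
      ENNReal.ofReal (2 / n) := by
  have hn := n0 H
  have hL := L0 H
  have hL1 := L1 H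
  have hbig := n1 H
  set θ : ℝ := 5 * Real.log n with hθ
  have hp : 0 < Pool.Agent.W842.RST.lev n θ := by
    unfold Pool.Agent.W842.RST.lev
    positivity
  have hp1 : Pool.Agent.W842.RST.lev n θ ≤ 1 := by
    unfold Pool.Agent.W842.RST.lev
    rw [div_le_one hn]
    refine le_trans ?_ (nL H (a := 2) (by norm_num))
    have h5 := H.hL
    norm_num at h5
    nlinarith
  refine (conn_le hp.le hp1).trans (ENNReal.ofReal_le_ofReal ?_)
  have h1 : (n : ℝ) * (1 - Pool.Agent.W842.RST.lev n θ) ^ ((n + 1) / 2) ≤ 1 / n := by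
    have h2 : 1 - Pool.Agent.W842.RST.lev n θ ≤ Real.exp (-Pool.Agent.W842.RST.lev n θ) := by
      have := Real.add_one_le_exp (-Pool.Agent.W842.RST.lev n θ); linarith
    have h3 : (1 - Pool.Agent.W842.RST.lev n θ) ^ ((n + 1) / 2) ≤
        Real.exp (-(2 * Real.log n)) := by
      calc (1 - Pool.Agent.W842.RST.lev n θ) ^ ((n + 1) / 2) ≤
            Real.exp (-Pool.Agent.W842.RST.lev n θ) ^ ((n + 1) / 2) :=
            pow_le_pow_left₀ (by linarith) h2 _
        _ = Real.exp (((n + 1) / 2 : ℕ) * (-Pool.Agent.W842.RST.lev n θ)) := by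
            rw [← Real.exp_nat_mul]
        _ ≤ Real.exp (-(2 * Real.log n)) := by
          apply Real.exp_le_exp.2
          have h4 : (n : ℝ) / 2 ≤ ((n + 1) / 2 : ℕ) := by
            have : n ≤ 2 * ((n + 1) / 2) := by omega
            have h5 : (n : ℝ) ≤ 2 * (((n + 1) / 2 : ℕ) : ℝ) := by exact_mod_cast this
            linarith
          have h5 : (n : ℝ) / 2 * Pool.Agent.W842.RST.lev n θ = (1 + θ) / 2 := by
            unfold Pool.Agent.W842.RST.lev
            field_simp
          have h6 : (n : ℝ) / 2 * Pool.Agent.W842.RST.lev n θ ≤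
              ((n + 1) / 2 : ℕ) * Pool.Agent.W842.RST.lev n θ :=
            mul_le_mul_of_nonneg_right h4 hp.le
          nlinarith
    have h4 : Real.exp (-(2 * Real.log n)) = 1 / (n : ℝ) ^ 2 := by
      rw [Real.exp_neg, one_div]
      congr 1
      rw [show 2 * Real.log (n : ℝ) = ((2 : ℕ) : ℝ) * Real.log n by norm_num,
            Real.exp_nat_mul, Real.exp_log hn]
    rw [h4] at h3
    calc (n : ℝ) * (1 - Pool.Agent.W842.RST.lev n θ) ^ ((n + 1) / 2) ≤ n * (1 / (n : ℝ) ^ 2) :=
          mul_le_mul_of_nonneg_left h3 hn.le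
      _ = 1 / n := by field_simp
  have h2 : (1 : ℝ) / n ≤ 1 / 2 := by
    apply one_div_le_one_div_of_le (by norm_num)
    exact le_trans (by norm_num) hbig
  have h0 : 0 < (1 : ℝ) / n := by positivity
  have h3 : Real.exp (n * (1 - Pool.Agent.W842.RST.lev n θ) ^ ((n + 1) / 2)) ≤
      Real.exp (1 / n) := Real.exp_le_exp.2 h1
  have h4 : Real.exp (1 / (n : ℝ)) ≤ 1 / (1 - 1 / n) :=
    Real.exp_bound_div_one_sub_of_interval h0.le (by linarith)
  have h5 : 1 / (1 - 1 / (n : ℝ)) ≤ 1 + 2 * (1 / n) := by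
    rw [div_le_iff₀ (by linarith)]
    nlinarith
  have h6 : 2 * (1 / (n : ℝ)) = 2 / n := by ring
  linarith

/-- the sum of the bounds -/
theorem total (H : Nm n y) :
    0 + 1 / (n : ℝ) + 1 / Real.log n ^ 2 + 1 / n + 1 / n + 1 / n + 1 / n + 1 / n + 2 / n ≤
      1 / Real.log n := by
  have hL := L0 H
  have h1 : 1 / (n : ℝ) ≤ 1 / Real.log n ^ 2 :=
    one_div_le_one_div_of_le (by positivity) (nL H (by norm_num))
  have h2 : 2 / (n : ℝ) = 2 * (1 / n) := by ring
  have h3 : 9 * (1 / Real.log n ^ 2) ≤ 1 / Real.log n := by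
    rw [mul_one_div, div_le_div_iff₀ (by positivity) hL]
    have h5 := H.hL
    norm_num at h5
    nlinarith
  rw [h2]
  linarith

theorem main (H : Nm n y) : env n {U : Ev n | ¬ GdA n y U} ≤ ENNReal.ofReal (1 / Real.log n) := by
  have hn := n0 H
  have hn1 : (0 : ℝ) ≤ 1 / n := by positivity
  have hL := L0 H
  have b1 : env n {U : Ev n | ∃ e, U e ≤ 0} ≤ ENNReal.ofReal 0 := by
    rw [env_nonpos]
    exact zero_le
  have b2 := GEnv.un le_rfl hn1 b1 (c2 H)
  have b3 := GEnv.un (by positivity) (by positivity) b2 (c3 H)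
  have b4 := GEnv.un (by positivity) hn1 b3 (c4 H)
  have b5 := GEnv.un (by positivity) hn1 b4 (c5 H)
  have b6 := GEnv.un (by positivity) hn1 b5 (c6 H)
  have b7 := GEnv.un (by positivity) hn1 b6 (c7 H)
  have b8 := GEnv.un (by positivity) hn1 b7 (c8 H)
  have b9 := GEnv.un (by positivity) (by positivity) b8 (c9 H)
  refine le_trans (measure_mono ?_) (b9.trans (ENNReal.ofReal_le_ofReal (total H)))
  intro U hU
  by_contra hc
  simp only [Set.mem_union, not_or] at hc
  obtain ⟨⟨⟨⟨⟨⟨⟨⟨d1, d2⟩, d3⟩, d4⟩, d5⟩, d6⟩, d7⟩, d8⟩, d9⟩ := hc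
  apply hU
  have hpos : ∀ e, 0 < U e := by
    intro e
    by_contra h
    exact d1 ⟨e, not_lt.1 h⟩
  have hsm : ∀ v, ((cmp (GU U (pbA n)) v).card : ℝ) ≤ smaxA n := by
    intro v
    by_contra h
    exact d2 ⟨v, not_le.1 h⟩
  have hvmin : vminA n ≤ (marks 0 (pbA n) 1 (s0A n) U).card := not_lt.1 d3
  have hmg : marks 0 (pbA n) 1 (s0A n) U ⊆ gd (GU U (pbA n)) (s0A n) := marks_sub
  have hgd : vminA n ≤ (gd (GU U (pbA n)) (s0A n)).card :=
    hvmin.trans (by exact_mod_cast Finset.card_le_card hmg)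
  have hstd : Std (pbA n) (s0A n) (smaxA n) (vminA n) U := ⟨hsm, hgd⟩
  have hcard : ∀ S : Finset (Fin n), (S.card : ℝ) ≤ n := by
    intro S
    have := Finset.card_le_univ S
    rw [Fintype.card_fin] at this
    exact_mod_cast this
  refine ⟨hpos, hsm, hvmin, ?_, ?_, ?_, ?_, ?_, ?_⟩
  · by_contra h
    exact d4 ⟨hstd, h⟩
  · by_contra h
    exact d5 ⟨hstd, h⟩
  · intro S hS
    by_contra h
    exact d6 ⟨hsm, hcard _, S, hS, not_le.1 h⟩
  · intro v
    by_contra h
    exact d7 ⟨hsm, hcard _, v, not_le.1 h⟩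
  · intro v
    by_contra h
    exact d8 ⟨hpos, v, not_le.1 h⟩
  · by_contra h
    exact d9 h

end cond

end GEnvA

/-- most environments are good -/
theorem genv_A : ∀ᶠ n : ℕ in atTop, ∀ y : ℝ, 1 / Real.log n ^ 3 ≤ y → y ≤ Real.log (Real.log n) →
    env n {U : Ev n | ¬ GdA n y U} ≤ ENNReal.ofReal (1 / Real.log n) := by
  filter_upwards [GEnvA.ev_nm] with n hn y h1 h2
  exact GEnvA.main (hn y h1 h2)

end

end Pool.Agent.TH972.U
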