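import Pool.Agent.TH972.U.VDef
import Pool.Agent.TH972.U.Kill

/-!
# Gaps of the Green function at two killing rates
-/

set_option autoImplicit false
set_option linter.unusedSectionVars false

namespace Pool.Agent.TH972.U

open Finset

noncomputable section

variable {V : Type} [Fintype V] [DecidableEq V]

open Grn Grn2

namespace Gap2

/-! ### potentials -/

/-- the potential of the charge `φ` -/
def gp (N : Net V) (φ : V → ℝ) (x : V) : ℝ := ∑ s, grn N ∅ x s * φ s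

lemma gp_eq (N : Net V) (φ : V → ℝ) (x : V) :
    (cs N.κ x + N.k x) * gp N φ x - ∑ w, Kc N.κ x w * gp N φ w = φ x := by
  unfold gp
  have h1 : ∀ s, (cs N.κ x + N.k x) * grn N ∅ x s =
      (if x = s then 1 else 0) + ∑ w, Kc N.κ x w * grn N ∅ w s :=
    fun s => grn_eq N (Finset.notMem_empty x) (Finset.notMem_empty s)
  have h2 : (cs N.κ x + N.k x) * ∑ s, grn N ∅ x s * φ s =
      ∑ s, ((if x = s then φ s else 0) + ∑ w, Kc N.κ x w * (grn N ∅ w s * φ s)) := by
    rw [Finset.mul_sum]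
    apply Finset.sum_congr rfl
    intro s _
    rw [← mul_assoc, h1, add_mul, Finset.sum_mul]
    congr 1
    · split_ifs <;> ring
    · exact Finset.sum_congr rfl fun w _ => by ring
  rw [h2, Finset.sum_add_distrib, Finset.sum_ite_eq, if_pos (mem_univ x), Finset.sum_comm]
  have h3 : ∑ w, Kc N.κ x w * ∑ s, grn N ∅ w s * φ s =
      ∑ w, ∑ s, Kc N.κ x w * (grn N ∅ w s * φ s) := by
    apply Finset.sum_congr rfl
    intro w _
    rw [Finset.mul_sum]
  rw [h3]
  ring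

lemma EB_gp (N : Net V) (f φ : V → ℝ) : EB N f (gp N φ) = ∑ x, f x * φ x := by
  rw [EB_eq]
  exact Finset.sum_congr rfl fun x _ => by rw [gp_eq]

lemma EK_gp (N : Net V) (φ : V → ℝ) : EK N (gp N φ) = ∑ x, gp N φ x * φ x := by
  rw [← EB_self, EB_gp]

lemma gp_symm (N : Net V) (φ ψ : V → ℝ) :
    ∑ x, φ x * gp N ψ x = ∑ x, ψ x * gp N φ x := by
  unfold gp
  simp only [Finset.mul_sum]
  rw [Finset.sum_comm]
  apply Finset.sum_congr rfl
  intro x _
  apply Finset.sum_congr rfl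
  intro y _
  rw [grn_symm N ∅ y x]
  ring

lemma EB_one (N : Net V) (g : V → ℝ) : EB N (fun _ => 1) g = ∑ x, N.k x * g x := by
  unfold EB
  have h1 : ∑ x, ∑ y, Kc N.κ x y * ((1 : ℝ) - 1) * (g x - g y) = 0 :=
    Finset.sum_eq_zero fun x _ => Finset.sum_eq_zero fun y _ => by ring
  rw [h1, zero_div, zero_add]
  exact Finset.sum_congr rfl fun x _ => by ring

lemma mass (N : Net V) (φ : V → ℝ) : ∑ x, N.k x * gp N φ x = ∑ x, φ x := by
  rw [← EB_one, EB_gp]
  exact Finset.sum_congr rfl fun x _ => by ring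

lemma gp_uniq (N : Net V) (φ f : V → ℝ)
    (h : ∀ x, (cs N.κ x + N.k x) * f x - ∑ w, Kc N.κ x w * f w = φ x) (x : V) :
    f x = gp N φ x := by
  have h1 := uniq N ∅ (fun x => f x - gp N φ x) (fun x hx => by simp at hx) (fun x _ => by
    have e : ∑ w, Kc N.κ x w * (f w - gp N φ w) =
        ∑ w, Kc N.κ x w * f w - ∑ w, Kc N.κ x w * gp N φ w := by
      rw [← Finset.sum_sub_distrib]
      exact Finset.sum_congr rfl fun w _ => by ring
    rw [e]
    linear_combination h x - gp_eq N φ x) x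
  linarith

lemma gp_lin (N : Net V) (S : Finset V) (c : V → ℝ) (φ : V → V → ℝ) (x : V) :
    gp N (fun s => ∑ j ∈ S, c j * φ j s) x = ∑ j ∈ S, c j * gp N (φ j) x := by
  unfold gp
  simp only [Finset.mul_sum]
  rw [Finset.sum_comm]
  apply Finset.sum_congr rfl
  intro j _
  apply Finset.sum_congr rfl
  intro s _
  ring

/-! ### orthogonal decomposition of the gap -/

lemma decomp (N : Net V) (S : Finset V) : ∃ φ : V → V → ℝ,
    (∀ j ∈ S, ∀ x, x ∉ S → φ j x = 0) ∧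
    (∀ x y, grn N ∅ x y - grn N S x y = ∑ j ∈ S, gp N (φ j) x * gp N (φ j) y) ∧
    (∀ j ∈ S, ∀ k ∈ S, ∑ x, φ j x * gp N (φ k) x = if j = k then 1 else 0) := by
  induction S using Finset.induction_on with
  | empty => exact ⟨fun _ _ => 0, by simp, by simp, by simp⟩
  | insert w S hw ih =>
    obtain ⟨φ, h1, h2, h3⟩ := ih
    have ha : 0 < grn N S w w := grn_pos N hw
    obtain ⟨s, hs0, hss⟩ : ∃ s : ℝ, 0 < s ∧ s * s = grn N S w w :=
      ⟨Real.sqrt (grn N S w w), Real.sqrt_pos.mpr ha, Real.mul_self_sqrt ha.le⟩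
    obtain ⟨ψ, hψ⟩ : ∃ ψ : V → ℝ, ∀ x, ψ x =
        ((if x = w then 1 else 0) - ∑ j ∈ S, gp N (φ j) w * φ j x) / s := ⟨_, fun _ => rfl⟩
    have hgψ : ∀ x, gp N ψ x = grn N S x w / s := by
      intro x
      have e1 : gp N ψ x = (grn N ∅ x w - ∑ j ∈ S, gp N (φ j) w * gp N (φ j) x) / s := by
        have e2 : ∑ j ∈ S, gp N (φ j) w * gp N (φ j) x =
            ∑ t, grn N ∅ x t * ∑ j ∈ S, gp N (φ j) w * φ j t := by
          rw [← gp_lin N S (fun j => gp N (φ j) w) φ x]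
          rfl
        have e3 : grn N ∅ x w = ∑ t, grn N ∅ x t * (if t = w then 1 else 0) := by
          simp
        rw [e2, e3, ← Finset.sum_sub_distrib, Finset.sum_div]
        unfold gp
        apply Finset.sum_congr rfl
        intro t _
        rw [hψ t]
        unfold gp
        ring
      rw [e1]
      congr 1
      have e4 := h2 x w
      have e5 : ∑ j ∈ S, gp N (φ j) w * gp N (φ j) x = ∑ j ∈ S, gp N (φ j) x * gp N (φ j) w :=
        Finset.sum_congr rfl fun j _ => mul_comm _ _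
      rw [e5]
      linarith
    have hjw : ∀ j ∈ S, ∑ x, φ j x * gp N ψ x = 0 := by
      intro j hj
      apply Finset.sum_eq_zero
      intro x _
      by_cases hx : x ∈ S
      · rw [hgψ, grn_left N w hx, zero_div, mul_zero]
      · rw [h1 j hj x hx, zero_mul]
    have hww : ∑ x, ψ x * gp N ψ x = 1 := by
      have e1 : ∑ x, ψ x * gp N ψ x =
          ((∑ x, (if x = w then 1 else 0) * gp N ψ x) -
            ∑ j ∈ S, gp N (φ j) w * ∑ x, φ j x * gp N ψ x) / s := by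
        have e2 : ∑ j ∈ S, gp N (φ j) w * ∑ x, φ j x * gp N ψ x =
            ∑ x, (∑ j ∈ S, gp N (φ j) w * φ j x) * gp N ψ x := by
          simp only [Finset.mul_sum, Finset.sum_mul]
          rw [Finset.sum_comm]
          apply Finset.sum_congr rfl
          intro x _
          apply Finset.sum_congr rfl
          intro j _
          ring
        rw [e2, ← Finset.sum_sub_distrib, Finset.sum_div]
        apply Finset.sum_congr rfl
        intro x _
        rw [hψ x]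
        ring
      have e3 : ∑ j ∈ S, gp N (φ j) w * ∑ x, φ j x * gp N ψ x = 0 :=
        Finset.sum_eq_zero fun j hj => by rw [hjw j hj, mul_zero]
      have e4 : ∑ x, (if x = w then 1 else 0) * gp N ψ x = grn N S w w / s := by
        rw [← hgψ w]
        simp
      rw [e1, e3, e4, ← hss, sub_zero]
      field_simp
    have hne : ∀ j ∈ S, j ≠ w := fun j hj h => hw (h ▸ hj)
    refine ⟨fun j => if j = w then ψ else φ j, ?_, ?_, ?_⟩
    · intro j hj x hx
      have hxS : x ∉ S := fun h => hx (Finset.mem_insert_of_mem h)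
      have hxw : x ≠ w := fun h => hx (h ▸ Finset.mem_insert_self w S)
      show (if j = w then ψ else φ j) x = 0
      rcases Finset.mem_insert.mp hj with rfl | hj
      · rw [if_pos rfl, hψ x, if_neg hxw]
        have e : ∑ i ∈ S, gp N (φ i) j * φ i x = 0 :=
          Finset.sum_eq_zero fun i hi => by rw [h1 i hi x hxS, mul_zero]
        rw [e]
        simp
      · rw [if_neg (hne j hj)]
        exact h1 j hj x hxS
    · intro x y
      rw [Finset.sum_insert hw, grn_insert N hw]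
      have e1 : ∑ j ∈ S, gp N (if j = w then ψ else φ j) x * gp N (if j = w then ψ else φ j) y =
          ∑ j ∈ S, gp N (φ j) x * gp N (φ j) y :=
        Finset.sum_congr rfl fun j hj => by rw [if_neg (hne j hj)]
      have e2 : gp N (if w = w then ψ else φ w) x * gp N (if w = w then ψ else φ w) y =
          grn N S x w * grn N S w y / grn N S w w := by
        rw [if_pos rfl, hgψ, hgψ, ← hss, grn_symm N S y w]
        field_simp
      show grn N ∅ x y - (grn N S x y - grn N S x w * grn N S w y / grn N S w w) =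
        gp N (if w = w then ψ else φ w) x * gp N (if w = w then ψ else φ w) y +
        ∑ j ∈ S, gp N (if j = w then ψ else φ j) x * gp N (if j = w then ψ else φ j) y
      rw [e1, e2, ← h2 x y]
      ring
    · intro j hj k hk
      show ∑ x, (if j = w then ψ else φ j) x * gp N (if k = w then ψ else φ k) x = _
      rcases Finset.mem_insert.mp hj with hjw' | hj'
      · rw [if_pos hjw']
        rcases Finset.mem_insert.mp hk with hkw' | hk'
        · rw [if_pos hkw', hww, if_pos (hjw'.trans hkw'.symm)]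
        · rw [if_neg (hne k hk'), if_neg (fun h => hne k hk' (h.symm.trans hjw')), gp_symm]
          exact hjw k hk'
      · rw [if_neg (hne j hj')]
        rcases Finset.mem_insert.mp hk with hkw' | hk'
        · rw [if_pos hkw', if_neg (fun h => hne j hj' (h.trans hkw'))]
          exact hjw j hj'
        · rw [if_neg (hne k hk')]
          exact h3 j hj' k hk'

end Gap2

open Gap2

namespace Gap2

/-! ### one charge at two killing rates -/

lemma net_κ (P : PN V) {k : ℝ} (hk : 0 < k) : (P.net k hk).κ = P.κ := rfl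

lemma net_k (P : PN V) {k : ℝ} (hk : 0 < k) (x : V) :
    (P.net k hk).k x = if x ∈ P.M then k else 0 := rfl

lemma sumM (P : PN V) {k : ℝ} (hk : 0 < k) (g : V → ℝ) :
    ∑ x, (P.net k hk).k x * g x = k * ∑ x ∈ P.M, g x := by
  have h1 : ∀ x, (P.net k hk).k x * g x = if x ∈ P.M then k * g x else 0 := by
    intro x
    rw [net_k]
    split_ifs <;> ring
  simp only [h1]
  rw [← Finset.sum_filter, Finset.mul_sum]
  congr 1
  ext x
  simp

lemma EK_net (P : PN V) {k : ℝ} (hk : 0 < k) (f : V → ℝ) :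
    EK (P.net k hk) f = En P.κ f + k * ∑ x ∈ P.M, f x ^ 2 := by
  unfold EK
  rw [sumM, net_κ]

lemma EK_mono (P : PN V) {k1 k2 : ℝ} (hk1 : 0 < k1) (hk2 : 0 < k2) (h12 : k1 ≤ k2) (f : V → ℝ) :
    EK (P.net k1 hk1) f ≤ EK (P.net k2 hk2) f := by
  rw [EK_net, EK_net]
  have : 0 ≤ ∑ x ∈ P.M, f x ^ 2 := Finset.sum_nonneg fun x _ => sq_nonneg _
  nlinarith

/-- contraction for charges of mean zero -/
lemma contr (P : PN V) {k : ℝ} (hk : 0 < k) (ht : k * P.t ≤ 1) (ψ : V → ℝ)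
    (hψ0 : ∀ x, x ∉ P.M → ψ x = 0) (hψ : ∑ x ∈ P.M, ψ x = 0) :
    4 * k ^ 2 * ∑ x ∈ P.M, gp (P.net k hk) ψ x ^ 2 ≤ ∑ x ∈ P.M, ψ x ^ 2 := by
  obtain ⟨v, hv⟩ : ∃ v, v = gp (P.net k hk) ψ := ⟨_, rfl⟩
  rw [← hv]
  have hsup : ∀ f : V → ℝ, ∑ x, f x * ψ x = ∑ x ∈ P.M, f x * ψ x := by
    intro f
    symm
    apply Finset.sum_subset (Finset.subset_univ _)
    intro x _ hx
    rw [hψ0 x hx, mul_zero]
  have hmean : ∑ x ∈ P.M, v x = 0 := by
    have h1 := mass (P.net k hk) ψ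
    rw [sumM, ← hv] at h1
    have h2 : ∑ x, ψ x = 0 := by
      have := hsup (fun _ => 1)
      simp only [one_mul] at this
      rw [this, hψ]
    rw [h2] at h1
    rcases mul_eq_zero.mp h1 with h | h
    · exact absurd h hk.ne'
    · exact h
  have hp := P.poinc v
  rw [hmean, zero_div] at hp
  simp only [sub_zero] at hp
  have hE : EK (P.net k hk) v = ∑ x ∈ P.M, v x * ψ x := by
    rw [hv, EK_gp, hsup]
  rw [EK_net] at hE
  have hA : 0 ≤ ∑ x ∈ P.M, v x ^ 2 := Finset.sum_nonneg fun x _ => sq_nonneg _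
  have hEn : k * ∑ x ∈ P.M, v x ^ 2 ≤ En P.κ v := by
    have hE0 : 0 ≤ En P.κ v := by
      by_contra hneg
      push Not at hneg
      have := mul_neg_of_pos_of_neg P.t_pos hneg
      linarith
    calc k * ∑ x ∈ P.M, v x ^ 2 ≤ k * (P.t * En P.κ v) := mul_le_mul_of_nonneg_left hp hk.le
      _ = (k * P.t) * En P.κ v := by ring
      _ ≤ 1 * En P.κ v := mul_le_mul_of_nonneg_right ht hE0
      _ = En P.κ v := one_mul _
  have hAG : ∑ x ∈ P.M, v x * ψ x ≤ (∑ x ∈ P.M, ψ x ^ 2) / (4 * k) + k * ∑ x ∈ P.M, v x ^ 2 := by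
    rw [Finset.sum_div, Finset.mul_sum, ← Finset.sum_add_distrib]
    apply Finset.sum_le_sum
    intro x _
    have h1 : ψ x ^ 2 / (4 * k) + k * v x ^ 2 - v x * ψ x = (ψ x - 2 * k * v x) ^ 2 / (4 * k) := by
      field_simp
      ring
    have h2 : 0 ≤ (ψ x - 2 * k * v x) ^ 2 / (4 * k) := by positivity
    linarith
  have h3 : k * ∑ x ∈ P.M, v x ^ 2 ≤ (∑ x ∈ P.M, ψ x ^ 2) / (4 * k) := by linarith
  rw [le_div_iff₀ (by positivity)] at h3
  linarith

/-- one charge -/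
lemma one (P : PN V) {k1 k2 : ℝ} (hk1 : 0 < k1) (hk2 : 0 < k2) (h12 : k1 ≤ k2)
    (ht : k2 * P.t ≤ 1) (φ : V → ℝ) :
    ∑ x ∈ P.M, gp (P.net k1 hk1) φ x ^ 2 ≤
      4 * ∑ x ∈ P.M, gp (P.net k2 hk2) φ x ^ 2 + (∑ x, φ x) ^ 2 / (k1 ^ 2 * P.M.card) := by
  obtain ⟨u1, hu1⟩ : ∃ u, u = gp (P.net k1 hk1) φ := ⟨_, rfl⟩
  obtain ⟨u2, hu2⟩ : ∃ u, u = gp (P.net k2 hk2) φ := ⟨_, rfl⟩
  obtain ⟨m, hm⟩ : ∃ m : ℝ, m = (P.M.card : ℝ) := ⟨_, rfl⟩
  obtain ⟨b, hb⟩ : ∃ b : ℝ, b = ∑ x, φ x := ⟨_, rfl⟩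
  have hm0 : 0 < m := by
    rw [hm]
    exact_mod_cast P.M_ne.card_pos
  rw [← hu1, ← hu2, ← hm, ← hb]
  -- masses
  have hs1 : k1 * ∑ x ∈ P.M, u1 x = b := by
    have := mass (P.net k1 hk1) φ
    rw [sumM, ← hu1] at this
    rw [this, hb]
  have hs2 : k2 * ∑ x ∈ P.M, u2 x = b := by
    have := mass (P.net k2 hk2) φ
    rw [sumM, ← hu2] at this
    rw [this, hb]
  obtain ⟨a1, ha1⟩ : ∃ a : ℝ, a = b / (k1 * m) := ⟨_, rfl⟩
  obtain ⟨ψ, hψ⟩ : ∃ ψ : V → ℝ, ∀ x, ψ x = if x ∈ P.M then u1 x - a1 else 0 := ⟨_, fun _ => rfl⟩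
  have hS1 : ∑ x ∈ P.M, u1 x = m * a1 := by
    rw [ha1]
    field_simp
    linarith
  have hconst : ∑ x ∈ P.M, a1 = m * a1 := by
    rw [Finset.sum_const, nsmul_eq_mul, hm]
  have hψM : ∀ x ∈ P.M, ψ x = u1 x - a1 := fun x hx => by rw [hψ, if_pos hx]
  have hψ0 : ∀ x, x ∉ P.M → ψ x = 0 := fun x hx => by rw [hψ, if_neg hx]
  have hψs : ∑ x ∈ P.M, ψ x = 0 := by
    rw [Finset.sum_congr rfl hψM, Finset.sum_sub_distrib, hconst, hS1, sub_self]
  have hc := contr P hk2 ht ψ hψ0 hψs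
  obtain ⟨v, hv⟩ : ∃ v, v = gp (P.net k2 hk2) ψ := ⟨_, rfl⟩
  rw [← hv] at hc
  -- the resolvent identity
  have hres : ∀ x, u1 x = u2 x + (k2 - k1) * v x + (k2 - k1) * a1 / k2 := by
    have h1 := gp_uniq (P.net k2 hk2) φ
      (fun x => u1 x - (k2 - k1) * v x - (k2 - k1) * a1 / k2) (fun x => by
      have e1 := gp_eq (P.net k1 hk1) φ x
      have e2 := gp_eq (P.net k2 hk2) ψ x
      rw [← hu1, net_κ] at e1
      rw [← hv, net_κ] at e2
      have e3 : ∑ w, Kc P.κ x w * (u1 w - (k2 - k1) * v w - (k2 - k1) * a1 / k2) =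
          ∑ w, Kc P.κ x w * u1 w - (k2 - k1) * ∑ w, Kc P.κ x w * v w -
            cs P.κ x * ((k2 - k1) * a1 / k2) := by
        have e4 : cs P.κ x * ((k2 - k1) * a1 / k2) =
            ∑ w, Kc P.κ x w * ((k2 - k1) * a1 / k2) := by
          unfold cs
          rw [Finset.sum_mul]
        rw [e4, Finset.mul_sum, ← Finset.sum_sub_distrib, ← Finset.sum_sub_distrib]
        exact Finset.sum_congr rfl fun w _ => by ring
      rw [net_κ, e3]
      by_cases hx : x ∈ P.M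
      · rw [net_k, if_pos hx] at e1 e2 ⊢
        rw [hψM x hx] at e2
        have e5 : k2 * ((k2 - k1) * a1 / k2) = (k2 - k1) * a1 := by field_simp
        linear_combination e1 - (k2 - k1) * e2 - e5
      · rw [net_k, if_neg hx] at e1 e2 ⊢
        rw [hψ0 x hx] at e2
        linear_combination e1 - (k2 - k1) * e2)
    intro x
    have := h1 x
    rw [← hu2] at this
    linarith
  -- the centred parts
  obtain ⟨a2, ha2⟩ : ∃ a : ℝ, a = b / (k2 * m) := ⟨_, rfl⟩
  have ha12 : a1 = a2 + (k2 - k1) * a1 / k2 := by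
    rw [ha1, ha2]
    field_simp
    ring
  have hS2 : ∑ x ∈ P.M, u2 x = m * a2 := by
    rw [ha2]
    field_simp
    linarith
  have hsq1 : ∑ x ∈ P.M, u1 x ^ 2 = ∑ x ∈ P.M, ψ x ^ 2 + m * a1 ^ 2 := by
    have e1 : ∑ x ∈ P.M, ψ x ^ 2 = ∑ x ∈ P.M, (u1 x ^ 2 - 2 * a1 * u1 x + a1 ^ 2) :=
      Finset.sum_congr rfl fun x hx => by rw [hψM x hx]; ring
    rw [e1, Finset.sum_add_distrib, Finset.sum_sub_distrib, ← Finset.mul_sum, hS1,
      Finset.sum_const, nsmul_eq_mul, ← hm]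
    ring
  have hsq2 : ∑ x ∈ P.M, (u2 x - a2) ^ 2 ≤ ∑ x ∈ P.M, u2 x ^ 2 := by
    have e1 : ∑ x ∈ P.M, (u2 x - a2) ^ 2 = ∑ x ∈ P.M, (u2 x ^ 2 - 2 * a2 * u2 x + a2 ^ 2) :=
      Finset.sum_congr rfl fun x _ => by ring
    rw [e1, Finset.sum_add_distrib, Finset.sum_sub_distrib, ← Finset.mul_sum, hS2,
      Finset.sum_const, nsmul_eq_mul, ← hm]
    have : 0 ≤ m * a2 ^ 2 := by positivity
    nlinarith
  have hsplit : ∑ x ∈ P.M, ψ x ^ 2 ≤
      2 * ∑ x ∈ P.M, (u2 x - a2) ^ 2 + 2 * (k2 - k1) ^ 2 * ∑ x ∈ P.M, v x ^ 2 := by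
    rw [Finset.mul_sum, Finset.mul_sum, ← Finset.sum_add_distrib]
    apply Finset.sum_le_sum
    intro x hx
    have e1 : ψ x = (u2 x - a2) + (k2 - k1) * v x := by
      rw [hψM x hx, hres x]
      linarith
    rw [e1]
    nlinarith [sq_nonneg ((u2 x - a2) - (k2 - k1) * v x)]
  have hv0 : 0 ≤ ∑ x ∈ P.M, v x ^ 2 := Finset.sum_nonneg fun x _ => sq_nonneg _
  have hkk : (k2 - k1) ^ 2 ≤ k2 ^ 2 := by nlinarith
  have h5 : (k2 - k1) ^ 2 * ∑ x ∈ P.M, v x ^ 2 ≤ k2 ^ 2 * ∑ x ∈ P.M, v x ^ 2 :=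
    mul_le_mul_of_nonneg_right hkk hv0
  have h6 : m * a1 ^ 2 = b ^ 2 / (k1 ^ 2 * m) := by
    rw [ha1]
    field_simp
  rw [hsq1, h6]
  linarith

/-- the energy of the gap -/
lemma EK_gap (N : Net V) (S : Finset V) (y : V) :
    EK N (fun x => grn N ∅ x y - grn N S x y) = grn N ∅ y y - grn N S y y := by
  have hy0 : y ∉ (∅ : Finset V) := Finset.notMem_empty y
  have hG : ∀ f : V → ℝ, EB N f (fun x => grn N ∅ x y) = f y :=
    fun f => EB_grn N f (fun x hx => by simp at hx) hy0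
  have h1 : EK N (fun x => grn N ∅ x y - grn N S x y) =
      EK N (fun x => grn N ∅ x y - 1 * grn N S x y) := by simp only [one_mul]
  rw [h1, EK_sub N (fun x => grn N ∅ x y) (fun x => grn N S x y) 1, ← EB_self, hG,
    EB_symm, hG]
  have h2 : EK N (fun x => grn N S x y) = grn N S y y := by
    by_cases hy : y ∈ S
    · have e : (fun x => grn N S x y) = fun _ => 0 := by
        funext x
        rw [grn_right N x hy]
      rw [e, grn_right N y hy]
      unfold EK En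
      simp
    · rw [← EB_self, EB_grn N _ (fun x hx => grn_left N y hx) hy]
  rw [h2]
  ring

/-- the decomposition at the smaller rate gives a lower bound for the gap at the larger rate -/
lemma low (P : PN V) {k1 k2 : ℝ} (hk1 : 0 < k1) (hk2 : 0 < k2) (h12 : k1 ≤ k2) (S : Finset V)
    (φ : V → V → ℝ) (h1 : ∀ j ∈ S, ∀ x, x ∉ S → φ j x = 0)
    (h3 : ∀ j ∈ S, ∀ k ∈ S, ∑ x, φ j x * gp (P.net k1 hk1) (φ k) x = if j = k then 1 else 0)
    (y : V) :
    ∑ j ∈ S, gp (P.net k2 hk2) (φ j) y ^ 2 ≤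
      grn (P.net k2 hk2) ∅ y y - grn (P.net k2 hk2) S y y := by
  obtain ⟨c, hc⟩ : ∃ c : V → ℝ, ∀ j, c j = gp (P.net k2 hk2) (φ j) y := ⟨_, fun _ => rfl⟩
  obtain ⟨Φ, hΦ⟩ : ∃ Φ : V → ℝ, Φ = fun s => ∑ j ∈ S, c j * φ j s := ⟨_, rfl⟩
  obtain ⟨q, hq⟩ : ∃ q : ℝ, q = ∑ j ∈ S, c j ^ 2 := ⟨_, rfl⟩
  have hlhs : ∑ j ∈ S, gp (P.net k2 hk2) (φ j) y ^ 2 = q := by
    rw [hq]
    exact Finset.sum_congr rfl fun j _ => by rw [hc]
  rw [hlhs]
  have hΦy : gp (P.net k2 hk2) Φ y = q := by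
    rw [hΦ, gp_lin, hq]
    exact Finset.sum_congr rfl fun j _ => by rw [← hc]; ring
  have hΦS : ∀ x, x ∉ S → Φ x = 0 := by
    intro x hx
    rw [hΦ]
    exact Finset.sum_eq_zero fun j hj => by rw [h1 j hj x hx, mul_zero]
  -- the form at the smaller rate
  have hB1 : ∑ x, Φ x * gp (P.net k1 hk1) Φ x = q := by
    have e1 : ∀ x, Φ x * gp (P.net k1 hk1) Φ x =
        ∑ j ∈ S, ∑ k ∈ S, c j * c k * (φ j x * gp (P.net k1 hk1) (φ k) x) := by
      intro x
      rw [hΦ, gp_lin]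
      show (∑ j ∈ S, c j * φ j x) * _ = _
      rw [Finset.sum_mul]
      apply Finset.sum_congr rfl
      intro j _
      rw [Finset.mul_sum]
      apply Finset.sum_congr rfl
      intro k _
      ring
    simp only [e1]
    rw [Finset.sum_comm, hq]
    apply Finset.sum_congr rfl
    intro j hj
    rw [Finset.sum_comm]
    have e2 : ∀ k ∈ S, ∑ x, c j * c k * (φ j x * gp (P.net k1 hk1) (φ k) x) =
        if j = k then c j * c k else 0 := by
      intro k hk
      rw [← Finset.mul_sum, h3 j hj k hk]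
      split_ifs <;> ring
    rw [Finset.sum_congr rfl e2, Finset.sum_ite_eq, if_pos hj]
    ring
  -- comparison of the two forms
  have hB2 : EK (P.net k2 hk2) (gp (P.net k2 hk2) Φ) ≤ q := by
    have e1 := EK_nonneg (P.net k1 hk1)
      (fun x => gp (P.net k2 hk2) Φ x - 1 * gp (P.net k1 hk1) Φ x)
    rw [EK_sub, EB_gp, EK_gp] at e1
    have e2 := EK_mono P hk1 hk2 h12 (gp (P.net k2 hk2) Φ)
    have e3 := EK_gp (P.net k2 hk2) Φ
    have e4 : ∑ x, gp (P.net k1 hk1) Φ x * Φ x = q := by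
      rw [← hB1]
      exact Finset.sum_congr rfl fun x _ => mul_comm _ _
    have e5 : EK (P.net k1 hk1) (fun x => gp (P.net k2 hk2) Φ x) =
        EK (P.net k1 hk1) (gp (P.net k2 hk2) Φ) := rfl
    rw [e4] at e1
    linarith
  -- test with the gap function
  obtain ⟨N, hN⟩ : ∃ N, N = P.net k2 hk2 := ⟨_, rfl⟩
  rw [← hN] at hB2 hΦy ⊢
  have e1 := EK_nonneg N (fun x => (grn N ∅ x y - grn N S x y) - 1 * gp N Φ x)
  have e2 : EB N (fun x => grn N ∅ x y - grn N S x y) (gp N Φ) = q := by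
    rw [EB_gp, ← hΦy]
    unfold gp
    apply Finset.sum_congr rfl
    intro x _
    by_cases hx : x ∈ S
    · rw [grn_left N y hx, sub_zero, grn_symm N ∅ x y]
    · rw [hΦS x hx, mul_zero, mul_zero]
  rw [EK_sub N (fun x => grn N ∅ x y - grn N S x y) (gp N Φ) 1, e2, EK_gap] at e1
  linarith

end Gap2

theorem PN.gap_two (P : PN V) {k1 k2 : ℝ} (hk1 : 0 < k1) (hk2 : 0 < k2) (h12 : k1 ≤ k2)
    (ht : k2 * P.t ≤ 1) (S : Finset V) :
    ∑ y ∈ P.M, (grn (P.net k1 hk1) ∅ y y - grn (P.net k1 hk1) S y y) ≤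
      4 * ∑ y ∈ P.M, (grn (P.net k2 hk2) ∅ y y - grn (P.net k2 hk2) S y y) +
        P.cap k1 hk1 S / (k1 ^ 2 * P.M.card) := by
  obtain ⟨φ, h1, h2, h3⟩ := decomp (P.net k1 hk1) S
  -- capacity
  have hcap : P.cap k1 hk1 S = ∑ j ∈ S, (∑ x, φ j x) ^ 2 := by
    have e1 : ∀ x, 1 - surv (P.net k1 hk1) S x =
        ∑ j ∈ S, gp (P.net k1 hk1) (φ j) x * ∑ y, φ j y := by
      intro x
      rw [← surv_empty (P.net k1 hk1) x]
      unfold surv
      rw [← Finset.sum_sub_distrib]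
      have e2 : ∀ y, grn (P.net k1 hk1) ∅ x y * (P.net k1 hk1).k y -
          grn (P.net k1 hk1) S x y * (P.net k1 hk1).k y =
          ∑ j ∈ S, gp (P.net k1 hk1) (φ j) x * ((P.net k1 hk1).k y * gp (P.net k1 hk1) (φ j) y) := by
        intro y
        rw [← sub_mul, h2, Finset.sum_mul]
        exact Finset.sum_congr rfl fun j _ => by ring
      simp only [e2]
      rw [Finset.sum_comm]
      apply Finset.sum_congr rfl
      intro j _
      rw [← Finset.mul_sum, mass]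
    have e3 : P.cap k1 hk1 S =
        ∑ x, (P.net k1 hk1).k x * (1 - surv (P.net k1 hk1) S x) := by
      rw [sumM]
      rfl
    rw [e3]
    have e4 : ∀ x, (P.net k1 hk1).k x * (1 - surv (P.net k1 hk1) S x) =
        ∑ j ∈ S, ((P.net k1 hk1).k x * gp (P.net k1 hk1) (φ j) x) * ∑ y, φ j y := by
      intro x
      rw [e1, Finset.mul_sum]
      exact Finset.sum_congr rfl fun j _ => by ring
    simp only [e4]
    rw [Finset.sum_comm]
    apply Finset.sum_congr rfl
    intro j _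
    rw [← Finset.sum_mul, mass]
    ring
  have hT1 : ∑ y ∈ P.M, (grn (P.net k1 hk1) ∅ y y - grn (P.net k1 hk1) S y y) =
      ∑ j ∈ S, ∑ y ∈ P.M, gp (P.net k1 hk1) (φ j) y ^ 2 := by
    rw [Finset.sum_comm]
    apply Finset.sum_congr rfl
    intro y _
    rw [h2]
    exact Finset.sum_congr rfl fun j _ => by ring
  have hT2 : ∑ j ∈ S, ∑ y ∈ P.M, gp (P.net k2 hk2) (φ j) y ^ 2 ≤
      ∑ y ∈ P.M, (grn (P.net k2 hk2) ∅ y y - grn (P.net k2 hk2) S y y) := by
    rw [Finset.sum_comm]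
    exact Finset.sum_le_sum fun y _ => low P hk1 hk2 h12 S φ h1 h3 y
  have hsum : ∑ j ∈ S, ∑ y ∈ P.M, gp (P.net k1 hk1) (φ j) y ^ 2 ≤
      ∑ j ∈ S, (4 * ∑ y ∈ P.M, gp (P.net k2 hk2) (φ j) y ^ 2 +
        (∑ x, φ j x) ^ 2 / (k1 ^ 2 * P.M.card)) :=
    Finset.sum_le_sum fun j _ => Gap2.one P hk1 hk2 h12 ht (φ j)
  rw [Finset.sum_add_distrib, ← Finset.mul_sum, ← Finset.sum_div] at hsum
  rw [hT1, hcap]
  linarith

namespace Gap2

/-- the hitting probability -/
def hp (N : Net V) (S : Finset V) (x : V) : ℝ := 1 - surv N S x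

lemma EB_hp0 (N : Net V) (S : Finset V) (h : V → ℝ) (hh : ∀ x ∈ S, h x = 0) :
    EB N h (hp N S) = 0 := by
  rw [EB_eq]
  apply Finset.sum_eq_zero
  intro x _
  by_cases hx : x ∈ S
  · rw [hh x hx, zero_mul]
  · have h1 := harm_one N hx
    have e : ∑ w, Kc N.κ x w * hp N S w = - ∑ w, Kc N.κ x w * (surv N S w - 1) := by
      unfold hp
      rw [← Finset.sum_neg_distrib]
      exact Finset.sum_congr rfl fun w _ => by ring
    rw [e, ← h1]
    unfold hp
    ring

lemma EB_add (N : Net V) (f g h : V → ℝ) :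
    EB N (fun x => f x + g x) h = EB N f h + EB N g h := by
  rw [EB_eq, EB_eq, EB_eq, ← Finset.sum_add_distrib]
  exact Finset.sum_congr rfl fun x _ => by ring

lemma EB_hp1 (N : Net V) (S : Finset V) (f : V → ℝ) (hf : ∀ x ∈ S, f x = 1) :
    EB N f (hp N S) = ∑ x, N.k x * hp N S x := by
  have h1 : f = fun x => (fun _ => (1 : ℝ)) x + (fun x => f x - 1) x := by
    funext x
    ring
  rw [h1, EB_add, EB_one, EB_hp0 N S _ (fun x hx => by rw [hf x hx, sub_self]), add_zero]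

lemma EK_hp (N : Net V) (S : Finset V) : EK N (hp N S) = ∑ x, N.k x * hp N S x := by
  rw [← EB_self]
  exact EB_hp1 N S _ (fun x hx => by unfold hp; rw [surv_mem N hx, sub_zero])

lemma hp_min (N : Net V) (S : Finset V) (f : V → ℝ) (hf : ∀ x ∈ S, f x = 1) :
    ∑ x, N.k x * hp N S x ≤ EK N f := by
  have h1 := EK_nonneg N (fun x => f x - 1 * hp N S x)
  rw [EK_sub N f (hp N S) 1, EB_hp1 N S f hf, EK_hp] at h1
  linarith

lemma cap_eq (P : PN V) {k : ℝ} (hk : 0 < k) (S : Finset V) :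
    P.cap k hk S = ∑ x, (P.net k hk).k x * hp (P.net k hk) S x := by
  rw [sumM]
  rfl

end Gap2

theorem PN.cap_mono_k (P : PN V) {k k' : ℝ} (hk : 0 < k) (hk' : 0 < k') (h : k ≤ k')
    (S : Finset V) : P.cap k hk S ≤ P.cap k' hk' S := by
  rw [cap_eq, cap_eq, ← EK_hp (P.net k' hk') S]
  refine (hp_min (P.net k hk) S (hp (P.net k' hk') S) (fun x hx => ?_)).trans
    (EK_mono P hk hk' h _)
  unfold hp
  rw [surv_mem _ hx, sub_zero]

theorem PN.gap_cap (P : PN V) {k g : ℝ} (hk : 0 < k)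
    (hg : ∀ y ∈ P.M, grn (P.net k hk) ∅ y y ≤ g) (S : Finset V) :
    ∑ y ∈ P.M, (grn (P.net k hk) ∅ y y - grn (P.net k hk) S y y) ≤ g * P.cap k hk S / k := by
  obtain ⟨N, hN⟩ : ∃ N, N = P.net k hk := ⟨_, rfl⟩
  have h1 : g * P.cap k hk S / k = ∑ y ∈ P.M, g * (1 - surv N S y) := by
    unfold PN.cap
    rw [← hN, ← Finset.mul_sum]
    field_simp
  rw [h1, ← hN]
  rw [← hN] at hg
  apply Finset.sum_le_sum
  intro y hy
  have hg0 : ∀ x, grn N ∅ x y ≤ g := fun x => (grn_le_diag N ∅ x y).trans (hg y hy)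
  have h2 := max_pr N S (fun x => grn N ∅ x y - grn N S x y - g * (1 - surv N S x))
    (fun x hx => by
      rw [grn_left N y hx, surv_mem N hx]
      have := hg0 x
      linarith)
    (fun x hx => by
      have e : ∑ w, Kc N.κ x w * (grn N ∅ w y - grn N S w y - g * (1 - surv N S w)) =
          ∑ w, Kc N.κ x w * grn N ∅ w y - ∑ w, Kc N.κ x w * grn N S w y +
            g * ∑ w, Kc N.κ x w * (surv N S w - 1) := by
        rw [Finset.mul_sum, ← Finset.sum_sub_distrib, ← Finset.sum_add_distrib]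
        exact Finset.sum_congr rfl fun w _ => by ring
      have e1 := grn_eq N (Finset.notMem_empty x) (Finset.notMem_empty y)
      have e2 := harm_one N hx
      rw [e, ← e2]
      by_cases hyS : y ∈ S
      · have hxy : x ≠ y := fun h => hx (h ▸ hyS)
        rw [if_neg hxy, zero_add] at e1
        have e3 : ∑ w, Kc N.κ x w * grn N S w y = 0 :=
          Finset.sum_eq_zero fun w _ => by rw [grn_right N w hyS, mul_zero]
        rw [e3, ← e1, grn_right N x hyS]
        apply le_of_eq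
        ring
      · have e3 := grn_eq N hx hyS
        apply le_of_eq
        linear_combination e1 - e3) y
  linarith

end

end Pool.Agent.TH972.U
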