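import Pool.Agent.TH972.U.Gap2

/-!
# Gaps of the Green function at two killing rates, network killed on a set
(job RSTRE V-Gap3, written by helper496)
-/

set_option autoImplicit false
set_option linter.unusedSectionVars false
set_option linter.unusedVariables false

namespace Pool.Agent.TH972.U

open Finset

noncomputable section

variable {V : Type} [Fintype V] [DecidableEq V]

open Grn Grn2

namespace Gap3

/-! ### potentials in the network killed on `D` -/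

/-- the potential of the charge `φ` in the network killed on `D` -/
def gd (N : Net V) (D : Finset V) (φ : V → ℝ) (x : V) : ℝ := ∑ s, grn N D x s * φ s

lemma gd_mem (N : Net V) {D : Finset V} (φ : V → ℝ) {x : V} (hx : x ∈ D) : gd N D φ x = 0 :=
  Finset.sum_eq_zero fun s _ => by rw [grn_left N s hx, zero_mul]

lemma gd_eq (N : Net V) {D : Finset V} (φ : V → ℝ) {x : V} (hx : x ∉ D) :
    (cs N.κ x + N.k x) * gd N D φ x - ∑ w, Kc N.κ x w * gd N D φ w = φ x := by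
  unfold gd
  have h1 : ∀ s, (cs N.κ x + N.k x) * grn N D x s =
      (if x = s then 1 else 0) + ∑ w, Kc N.κ x w * grn N D w s := by
    intro s
    by_cases hs : s ∈ D
    · have hxs : x ≠ s := fun h => hx (h ▸ hs)
      rw [grn_right N x hs, mul_zero, if_neg hxs, zero_add]
      exact (Finset.sum_eq_zero fun w _ => by rw [grn_right N w hs, mul_zero]).symm
    · exact grn_eq N hx hs
  have h2 : (cs N.κ x + N.k x) * ∑ s, grn N D x s * φ s =
      ∑ s, ((if x = s then φ s else 0) + ∑ w, Kc N.κ x w * (grn N D w s * φ s)) := by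
    rw [Finset.mul_sum]
    apply Finset.sum_congr rfl
    intro s _
    rw [← mul_assoc, h1, add_mul, Finset.sum_mul]
    congr 1
    · split_ifs <;> ring
    · exact Finset.sum_congr rfl fun w _ => by ring
  rw [h2, Finset.sum_add_distrib, Finset.sum_ite_eq, if_pos (mem_univ x), Finset.sum_comm]
  have h3 : ∑ w, Kc N.κ x w * ∑ s, grn N D w s * φ s =
      ∑ w, ∑ s, Kc N.κ x w * (grn N D w s * φ s) := by
    apply Finset.sum_congr rfl
    intro w _
    rw [Finset.mul_sum]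
  rw [h3]
  ring

lemma EB_gd (N : Net V) {D : Finset V} (f φ : V → ℝ) (hf : ∀ x ∈ D, f x = 0) :
    EB N f (gd N D φ) = ∑ x, f x * φ x := by
  rw [EB_eq]
  apply Finset.sum_congr rfl
  intro x _
  by_cases hx : x ∈ D
  · rw [hf x hx, zero_mul, zero_mul]
  · rw [gd_eq N φ hx]

lemma EK_gd (N : Net V) (D : Finset V) (φ : V → ℝ) :
    EK N (gd N D φ) = ∑ x, gd N D φ x * φ x := by
  rw [← EB_self, EB_gd N _ φ (fun x hx => gd_mem N φ hx)]

lemma gd_symm (N : Net V) (D : Finset V) (φ ψ : V → ℝ) :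
    ∑ x, φ x * gd N D ψ x = ∑ x, ψ x * gd N D φ x := by
  unfold gd
  simp only [Finset.mul_sum]
  rw [Finset.sum_comm]
  apply Finset.sum_congr rfl
  intro x _
  apply Finset.sum_congr rfl
  intro y _
  rw [grn_symm N D y x]
  ring

lemma gd_uniq (N : Net V) {D : Finset V} (φ f : V → ℝ) (hf : ∀ x ∈ D, f x = 0)
    (h : ∀ x, x ∉ D → (cs N.κ x + N.k x) * f x - ∑ w, Kc N.κ x w * f w = φ x) (x : V) :
    f x = gd N D φ x := by
  have h1 := uniq N D (fun x => f x - gd N D φ x)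
    (fun x hx => by
      show f x - gd N D φ x = 0
      rw [hf x hx, gd_mem N φ hx, sub_zero]) (fun x hx => by
    have e : ∑ w, Kc N.κ x w * (f w - gd N D φ w) =
        ∑ w, Kc N.κ x w * f w - ∑ w, Kc N.κ x w * gd N D φ w := by
      rw [← Finset.sum_sub_distrib]
      exact Finset.sum_congr rfl fun w _ => by ring
    rw [e]
    linear_combination h x hx - gd_eq N φ hx) x
  linarith

lemma gd_lin (N : Net V) (D S : Finset V) (c : V → ℝ) (φ : V → V → ℝ) (x : V) :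
    gd N D (fun s => ∑ j ∈ S, c j * φ j s) x = ∑ j ∈ S, c j * gd N D (φ j) x := by
  unfold gd
  simp only [Finset.mul_sum]
  rw [Finset.sum_comm]
  apply Finset.sum_congr rfl
  intro j _
  apply Finset.sum_congr rfl
  intro s _
  ring

lemma gd_empty (N : Net V) (φ : V → ℝ) : gd N ∅ φ = Gap2.gp N φ := rfl

/-! ### orthogonal decomposition of the gap -/

lemma decomp (N : Net V) (D S : Finset V) (hSD : ∀ s ∈ S, s ∉ D) : ∃ φ : V → V → ℝ,
    (∀ j ∈ S, ∀ x, x ∉ S → φ j x = 0) ∧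
    (∀ x y, grn N D x y - grn N (D ∪ S) x y = ∑ j ∈ S, gd N D (φ j) x * gd N D (φ j) y) ∧
    (∀ j ∈ S, ∀ k ∈ S, ∑ x, φ j x * gd N D (φ k) x = if j = k then 1 else 0) := by
  induction S using Finset.induction_on with
  | empty => exact ⟨fun _ _ => 0, by simp, by simp, by simp⟩
  | insert w S hw ih =>
    obtain ⟨φ, h1, h2, h3⟩ := ih (fun s hs => hSD s (Finset.mem_insert_of_mem hs))
    have hwD : w ∉ D := hSD w (Finset.mem_insert_self w S)
    have hwU : w ∉ D ∪ S := by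
      rw [Finset.mem_union]
      tauto
    have hU : D ∪ insert w S = insert w (D ∪ S) := Finset.union_insert w D S
    have ha : 0 < grn N (D ∪ S) w w := grn_pos N hwU
    obtain ⟨s, hs0, hss⟩ : ∃ s : ℝ, 0 < s ∧ s * s = grn N (D ∪ S) w w :=
      ⟨Real.sqrt (grn N (D ∪ S) w w), Real.sqrt_pos.mpr ha, Real.mul_self_sqrt ha.le⟩
    obtain ⟨ψ, hψ⟩ : ∃ ψ : V → ℝ, ∀ x, ψ x =
        ((if x = w then 1 else 0) - ∑ j ∈ S, gd N D (φ j) w * φ j x) / s := ⟨_, fun _ => rfl⟩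
    have hgψ : ∀ x, gd N D ψ x = grn N (D ∪ S) x w / s := by
      intro x
      have e1 : gd N D ψ x = (grn N D x w - ∑ j ∈ S, gd N D (φ j) w * gd N D (φ j) x) / s := by
        have e2 : ∑ j ∈ S, gd N D (φ j) w * gd N D (φ j) x =
            ∑ t, grn N D x t * ∑ j ∈ S, gd N D (φ j) w * φ j t := by
          rw [← gd_lin N D S (fun j => gd N D (φ j) w) φ x]
          rfl
        have e3 : grn N D x w = ∑ t, grn N D x t * (if t = w then 1 else 0) := by
          simp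
        rw [e2, e3, ← Finset.sum_sub_distrib, Finset.sum_div]
        unfold gd
        apply Finset.sum_congr rfl
        intro t _
        rw [hψ t]
        unfold gd
        ring
      rw [e1]
      congr 1
      have e4 := h2 x w
      have e5 : ∑ j ∈ S, gd N D (φ j) w * gd N D (φ j) x =
          ∑ j ∈ S, gd N D (φ j) x * gd N D (φ j) w :=
        Finset.sum_congr rfl fun j _ => mul_comm _ _
      rw [e5]
      linarith
    have hjw : ∀ j ∈ S, ∑ x, φ j x * gd N D ψ x = 0 := by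
      intro j hj
      apply Finset.sum_eq_zero
      intro x _
      by_cases hx : x ∈ S
      · rw [hgψ, grn_left N w (Finset.mem_union_right D hx), zero_div, mul_zero]
      · rw [h1 j hj x hx, zero_mul]
    have hww : ∑ x, ψ x * gd N D ψ x = 1 := by
      have e1 : ∑ x, ψ x * gd N D ψ x =
          ((∑ x, (if x = w then 1 else 0) * gd N D ψ x) -
            ∑ j ∈ S, gd N D (φ j) w * ∑ x, φ j x * gd N D ψ x) / s := by
        have e2 : ∑ j ∈ S, gd N D (φ j) w * ∑ x, φ j x * gd N D ψ x =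
            ∑ x, (∑ j ∈ S, gd N D (φ j) w * φ j x) * gd N D ψ x := by
          simp only [Finset.mul_sum, Finset.sum_mul]
          rw [Finset.sum_comm]
          apply Finset.sum_congr rfl
          intro x _
          apply Finset.sum_congr rfl
          intro j _
          ring
        rw [e2, ← Finset.sum_sub_distrib, Finset.sum_div]
        apply Finset.sum_congr rfl
        intro x _
        rw [hψ x]
        ring
      have e3 : ∑ j ∈ S, gd N D (φ j) w * ∑ x, φ j x * gd N D ψ x = 0 :=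
        Finset.sum_eq_zero fun j hj => by rw [hjw j hj, mul_zero]
      have e4 : ∑ x, (if x = w then 1 else 0) * gd N D ψ x = grn N (D ∪ S) w w / s := by
        rw [← hgψ w]
        simp
      rw [e1, e3, e4, ← hss, sub_zero]
      field_simp
    have hne : ∀ j ∈ S, j ≠ w := fun j hj h => hw (h ▸ hj)
    refine ⟨fun j => if j = w then ψ else φ j, ?_, ?_, ?_⟩
    · intro j hj x hx
      have hxS : x ∉ S := fun h => hx (Finset.mem_insert_of_mem h)
      have hxw : x ≠ w := fun h => hx (h ▸ Finset.mem_insert_self w S)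
      show (if j = w then ψ else φ j) x = 0
      rcases Finset.mem_insert.mp hj with rfl | hj
      · rw [if_pos rfl, hψ x, if_neg hxw]
        have e : ∑ i ∈ S, gd N D (φ i) j * φ i x = 0 :=
          Finset.sum_eq_zero fun i hi => by rw [h1 i hi x hxS, mul_zero]
        rw [e]
        simp
      · rw [if_neg (hne j hj)]
        exact h1 j hj x hxS
    · intro x y
      rw [Finset.sum_insert hw, hU, grn_insert N hwU]
      have e1 : ∑ j ∈ S, gd N D (if j = w then ψ else φ j) x *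
            gd N D (if j = w then ψ else φ j) y =
          ∑ j ∈ S, gd N D (φ j) x * gd N D (φ j) y :=
        Finset.sum_congr rfl fun j hj => by rw [if_neg (hne j hj)]
      have e2 : gd N D (if w = w then ψ else φ w) x * gd N D (if w = w then ψ else φ w) y =
          grn N (D ∪ S) x w * grn N (D ∪ S) w y / grn N (D ∪ S) w w := by
        rw [if_pos rfl, hgψ, hgψ, ← hss, grn_symm N (D ∪ S) y w]
        field_simp
      show grn N D x y - (grn N (D ∪ S) x y -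
          grn N (D ∪ S) x w * grn N (D ∪ S) w y / grn N (D ∪ S) w w) =
        gd N D (if w = w then ψ else φ w) x * gd N D (if w = w then ψ else φ w) y +
        ∑ j ∈ S, gd N D (if j = w then ψ else φ j) x * gd N D (if j = w then ψ else φ j) y
      rw [e1, e2, ← h2 x y]
      ring
    · intro j hj k hk
      show ∑ x, (if j = w then ψ else φ j) x * gd N D (if k = w then ψ else φ k) x = _
      rcases Finset.mem_insert.mp hj with hjw' | hj'
      · rw [if_pos hjw']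
        rcases Finset.mem_insert.mp hk with hkw' | hk'
        · rw [if_pos hkw', hww, if_pos (hjw'.trans hkw'.symm)]
        · rw [if_neg (hne k hk'), if_neg (fun h => hne k hk' (h.symm.trans hjw')), gd_symm]
          exact hjw k hk'
      · rw [if_neg (hne j hj')]
        rcases Finset.mem_insert.mp hk with hkw' | hk'
        · rw [if_pos hkw', if_neg (fun h => hne j hj' (h.trans hkw'))]
          exact hjw j hj'
        · rw [if_neg (hne k hk')]
          exact h3 j hj' k hk'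

/-! ### one charge at two killing rates -/

/-- contraction -/
lemma contrD (P : PN V) {k : ℝ} (hk : 0 < k) (D : Finset V) (ψ : V → ℝ)
    (hψ0 : ∀ x, x ∉ P.M → ψ x = 0) :
    k ^ 2 * ∑ x ∈ P.M, gd (P.net k hk) D ψ x ^ 2 ≤ ∑ x ∈ P.M, ψ x ^ 2 := by
  obtain ⟨v, hv⟩ : ∃ v, v = gd (P.net k hk) D ψ := ⟨_, rfl⟩
  rw [← hv]
  have hE : EK (P.net k hk) v = ∑ x ∈ P.M, v x * ψ x := by
    rw [hv, EK_gd]
    symm
    apply Finset.sum_subset (Finset.subset_univ _)
    intro x _ hx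
    rw [hψ0 x hx, mul_zero]
  rw [Gap2.EK_net] at hE
  have hE0 : 0 ≤ En P.κ v := by
    unfold En
    apply div_nonneg _ (by norm_num)
    exact Finset.sum_nonneg fun x _ => Finset.sum_nonneg fun y _ =>
      mul_nonneg (Kc_nn (P.net k hk) x y) (sq_nonneg _)
  have hAG : ∑ x ∈ P.M, v x * ψ x ≤
      (∑ x ∈ P.M, ψ x ^ 2) / (2 * k) + k / 2 * ∑ x ∈ P.M, v x ^ 2 := by
    rw [Finset.sum_div, Finset.mul_sum, ← Finset.sum_add_distrib]
    apply Finset.sum_le_sum
    intro x _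
    have h1 : ψ x ^ 2 / (2 * k) + k / 2 * v x ^ 2 - v x * ψ x = (ψ x - k * v x) ^ 2 / (2 * k) := by
      field_simp
      ring
    have h2 : 0 ≤ (ψ x - k * v x) ^ 2 / (2 * k) := by positivity
    linarith
  have h3 : k / 2 * ∑ x ∈ P.M, v x ^ 2 ≤ (∑ x ∈ P.M, ψ x ^ 2) / (2 * k) := by linarith
  rw [le_div_iff₀ (by positivity)] at h3
  linarith

/-- domain monotonicity and the Poincare inequality -/
lemma half (P : PN V) {k : ℝ} (hk : 0 < k) (ht : k * P.t ≤ 1) (D : Finset V) (ψ : V → ℝ)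
    (hψ0 : ∀ x, x ∉ P.M → ψ x = 0) (hψ : ∑ x ∈ P.M, ψ x = 0) :
    2 * k * ∑ x ∈ P.M, gd (P.net k hk) D ψ x * ψ x ≤ ∑ x ∈ P.M, ψ x ^ 2 := by
  obtain ⟨N, hN⟩ : ∃ N, N = P.net k hk := ⟨_, rfl⟩
  obtain ⟨v, hv⟩ : ∃ v, v = gd N D ψ := ⟨_, rfl⟩
  obtain ⟨u, hu⟩ : ∃ u, u = gd N ∅ ψ := ⟨_, rfl⟩
  have hsup : ∀ f : V → ℝ, ∑ x, f x * ψ x = ∑ x ∈ P.M, f x * ψ x := by
    intro f
    symm
    apply Finset.sum_subset (Finset.subset_univ _)
    intro x _ hx
    rw [hψ0 x hx, mul_zero]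
  have h1 := EK_nonneg N (fun x => v x - 1 * u x)
  have e1 : EB N v u = ∑ x ∈ P.M, v x * ψ x := by
    rw [hu, EB_gd N v ψ (fun x hx => by simp at hx), hsup]
  have e2 : EK N v = ∑ x ∈ P.M, v x * ψ x := by rw [hv, EK_gd, hsup]
  have e3 : EK N u = ∑ x ∈ P.M, u x * ψ x := by rw [hu, EK_gd, hsup]
  rw [EK_sub, e1, e2, e3] at h1
  have hc := Gap2.contr P hk ht ψ hψ0 hψ
  rw [← gd_empty, ← hN, ← hu] at hc
  have h2 : 2 * k * ∑ x ∈ P.M, u x * ψ x ≤ ∑ x ∈ P.M, ψ x ^ 2 := by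
    have h3 : ∑ x ∈ P.M, 2 * k * (u x * ψ x) ≤
        ∑ x ∈ P.M, ((ψ x ^ 2) / 2 + 2 * k ^ 2 * u x ^ 2) := by
      apply Finset.sum_le_sum
      intro x _
      nlinarith [sq_nonneg (ψ x - 2 * k * u x)]
    rw [← Finset.mul_sum, Finset.sum_add_distrib, ← Finset.sum_div, ← Finset.mul_sum] at h3
    linarith
  rw [← hN, ← hv]
  have h4 : ∑ x ∈ P.M, v x * ψ x ≤ ∑ x ∈ P.M, u x * ψ x := by linarith
  have h5 : 2 * k * ∑ x ∈ P.M, v x * ψ x ≤ 2 * k * ∑ x ∈ P.M, u x * ψ x :=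
    mul_le_mul_of_nonneg_left h4 (by positivity)
  linarith

/-- one charge -/
lemma one (P : PN V) {k1 k2 : ℝ} (hk1 : 0 < k1) (hk2 : 0 < k2) (h12 : k1 ≤ k2)
    (ht : k2 * P.t ≤ 1) (D : Finset V) (φ : V → ℝ) :
    ∑ x ∈ P.M, gd (P.net k1 hk1) D φ x ^ 2 ≤
      8 * ∑ x ∈ P.M, gd (P.net k2 hk2) D φ x ^ 2 +
        9 * (∑ x ∈ P.M, gd (P.net k1 hk1) D φ x) ^ 2 / P.M.card := by
  obtain ⟨u1, hu1⟩ : ∃ u, u = gd (P.net k1 hk1) D φ := ⟨_, rfl⟩
  obtain ⟨u2, hu2⟩ : ∃ u, u = gd (P.net k2 hk2) D φ := ⟨_, rfl⟩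
  obtain ⟨m, hm⟩ : ∃ m : ℝ, m = (P.M.card : ℝ) := ⟨_, rfl⟩
  have hm0 : 0 < m := by
    rw [hm]
    exact_mod_cast P.M_ne.card_pos
  rw [← hu1, ← hu2, ← hm]
  obtain ⟨c, hc⟩ : ∃ c : ℝ, c = (∑ x ∈ P.M, u1 x) / m := ⟨_, rfl⟩
  have hS1 : ∑ x ∈ P.M, u1 x = m * c := by
    rw [hc]
    field_simp
  obtain ⟨ψ, hψ⟩ : ∃ ψ : V → ℝ, ∀ x, ψ x = if x ∈ P.M then u1 x - c else 0 := ⟨_, fun _ => rfl⟩
  obtain ⟨ι, hι⟩ : ∃ ι : V → ℝ, ∀ x, ι x = if x ∈ P.M then 1 else 0 := ⟨_, fun _ => rfl⟩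
  have hconst : ∀ a : ℝ, ∑ x ∈ P.M, a = m * a := fun a => by
    rw [Finset.sum_const, nsmul_eq_mul, hm]
  have hψM : ∀ x ∈ P.M, ψ x = u1 x - c := fun x hx => by rw [hψ, if_pos hx]
  have hψ0 : ∀ x, x ∉ P.M → ψ x = 0 := fun x hx => by rw [hψ, if_neg hx]
  have hιM : ∀ x ∈ P.M, ι x = 1 := fun x hx => by rw [hι, if_pos hx]
  have hι0 : ∀ x, x ∉ P.M → ι x = 0 := fun x hx => by rw [hι, if_neg hx]
  have hψs : ∑ x ∈ P.M, ψ x = 0 := by
    rw [Finset.sum_congr rfl hψM, Finset.sum_sub_distrib, hconst, hS1, sub_self]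
  obtain ⟨v, hv⟩ : ∃ v, v = gd (P.net k2 hk2) D ψ := ⟨_, rfl⟩
  obtain ⟨i, hi⟩ : ∃ i, i = gd (P.net k2 hk2) D ι := ⟨_, rfl⟩
  have hhalf := half P hk2 ht D ψ hψ0 hψs
  have hone := contrD P hk2 D ι hι0
  rw [← hv] at hhalf
  rw [← hi] at hone
  have hι2 : ∑ x ∈ P.M, ι x ^ 2 = m := by
    rw [Finset.sum_congr rfl (fun x hx => by rw [hιM x hx, one_pow]), hconst, mul_one]
  rw [hι2] at hone
  -- the resolvent identity
  have hres : ∀ x, u1 x = u2 x + (k2 - k1) * v x + (k2 - k1) * c * i x := by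
    have h1 := gd_uniq (P.net k2 hk2) (D := D) φ
      (fun x => u1 x - (k2 - k1) * v x - (k2 - k1) * c * i x)
      (fun x hx => by
        show u1 x - (k2 - k1) * v x - (k2 - k1) * c * i x = 0
        rw [hu1, hv, hi, gd_mem _ _ hx, gd_mem _ _ hx, gd_mem _ _ hx]
        ring) (fun x hx => by
      have e1 := gd_eq (P.net k1 hk1) φ hx
      have e2 := gd_eq (P.net k2 hk2) ψ hx
      have e2' := gd_eq (P.net k2 hk2) ι hx
      rw [← hu1, Gap2.net_κ] at e1
      rw [← hv, Gap2.net_κ] at e2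
      rw [← hi, Gap2.net_κ] at e2'
      have e3 : ∑ w, Kc P.κ x w * (u1 w - (k2 - k1) * v w - (k2 - k1) * c * i w) =
          ∑ w, Kc P.κ x w * u1 w - (k2 - k1) * ∑ w, Kc P.κ x w * v w -
            (k2 - k1) * c * ∑ w, Kc P.κ x w * i w := by
        rw [Finset.mul_sum, Finset.mul_sum, ← Finset.sum_sub_distrib, ← Finset.sum_sub_distrib]
        exact Finset.sum_congr rfl fun w _ => by ring
      rw [Gap2.net_κ, e3]
      by_cases hxM : x ∈ P.M
      · rw [Gap2.net_k, if_pos hxM] at e1 e2 e2' ⊢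
        rw [hψM x hxM] at e2
        rw [hιM x hxM] at e2'
        linear_combination e1 - (k2 - k1) * e2 - (k2 - k1) * c * e2'
      · rw [Gap2.net_k, if_neg hxM] at e1 e2 e2' ⊢
        rw [hψ0 x hxM] at e2
        rw [hι0 x hxM] at e2'
        linear_combination e1 - (k2 - k1) * e2 - (k2 - k1) * c * e2')
    intro x
    have := h1 x
    rw [← hu2] at this
    linarith
  -- the centred part
  have hsq1 : ∑ x ∈ P.M, u1 x ^ 2 = ∑ x ∈ P.M, ψ x ^ 2 + m * c ^ 2 := by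
    have e1 : ∑ x ∈ P.M, ψ x ^ 2 = ∑ x ∈ P.M, (u1 x ^ 2 - 2 * c * u1 x + c ^ 2) :=
      Finset.sum_congr rfl fun x hx => by rw [hψM x hx]; ring
    rw [e1, Finset.sum_add_distrib, Finset.sum_sub_distrib, ← Finset.mul_sum, hS1, hconst]
    ring
  have hip : ∑ x ∈ P.M, ψ x ^ 2 = ∑ x ∈ P.M, u2 x * ψ x +
      (k2 - k1) * ∑ x ∈ P.M, v x * ψ x + (k2 - k1) * c * ∑ x ∈ P.M, i x * ψ x := by
    have e1 : ∑ x ∈ P.M, ψ x ^ 2 = ∑ x ∈ P.M, (u1 x * ψ x - c * ψ x) :=
      Finset.sum_congr rfl fun x hx => by rw [hψM x hx]; ring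
    have e2 : ∑ x ∈ P.M, u1 x * ψ x = ∑ x ∈ P.M, u2 x * ψ x +
        (k2 - k1) * ∑ x ∈ P.M, v x * ψ x + (k2 - k1) * c * ∑ x ∈ P.M, i x * ψ x := by
      rw [Finset.mul_sum, Finset.mul_sum, ← Finset.sum_add_distrib, ← Finset.sum_add_distrib]
      exact Finset.sum_congr rfl fun x hx => by rw [hres x]; ring
    rw [e1, Finset.sum_sub_distrib, ← Finset.mul_sum, hψs, e2]
    ring
  have hk21 : 0 ≤ k2 - k1 := by linarith
  have hvψ : (k2 - k1) * ∑ x ∈ P.M, v x * ψ x ≤ (∑ x ∈ P.M, ψ x ^ 2) / 2 := by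
    rcases le_or_gt 0 (∑ x ∈ P.M, v x * ψ x) with h | h
    · have h1 : (k2 - k1) * ∑ x ∈ P.M, v x * ψ x ≤ k2 * ∑ x ∈ P.M, v x * ψ x :=
        mul_le_mul_of_nonneg_right (by linarith) h
      linarith
    · have h1 : (k2 - k1) * ∑ x ∈ P.M, v x * ψ x ≤ 0 :=
        mul_nonpos_of_nonneg_of_nonpos hk21 h.le
      have h2 : 0 ≤ ∑ x ∈ P.M, ψ x ^ 2 := Finset.sum_nonneg fun x _ => sq_nonneg _
      linarith
  have hu2ψ : ∑ x ∈ P.M, u2 x * ψ x ≤ (∑ x ∈ P.M, ψ x ^ 2) / 8 + 2 * ∑ x ∈ P.M, u2 x ^ 2 := by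
    rw [Finset.sum_div, Finset.mul_sum, ← Finset.sum_add_distrib]
    apply Finset.sum_le_sum
    intro x _
    nlinarith [sq_nonneg (ψ x - 4 * u2 x)]
  have hiψ : (k2 - k1) * c * ∑ x ∈ P.M, i x * ψ x ≤ (∑ x ∈ P.M, ψ x ^ 2) / 8 +
      2 * c ^ 2 * m := by
    have h1 : (k2 - k1) * c * ∑ x ∈ P.M, i x * ψ x ≤ (∑ x ∈ P.M, ψ x ^ 2) / 8 +
        2 * c ^ 2 * ((k2 - k1) ^ 2 * ∑ x ∈ P.M, i x ^ 2) := by
      rw [Finset.sum_div, Finset.mul_sum, Finset.mul_sum, Finset.mul_sum,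
        ← Finset.sum_add_distrib]
      apply Finset.sum_le_sum
      intro x _
      nlinarith [sq_nonneg (ψ x - 4 * ((k2 - k1) * c * i x))]
    have hi0 : 0 ≤ ∑ x ∈ P.M, i x ^ 2 := Finset.sum_nonneg fun x _ => sq_nonneg _
    have hkk : (k2 - k1) ^ 2 ≤ k2 ^ 2 := by nlinarith
    have h2 : (k2 - k1) ^ 2 * ∑ x ∈ P.M, i x ^ 2 ≤ m :=
      (mul_le_mul_of_nonneg_right hkk hi0).trans hone
    have h3 : 2 * c ^ 2 * ((k2 - k1) ^ 2 * ∑ x ∈ P.M, i x ^ 2) ≤ 2 * c ^ 2 * m :=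
      mul_le_mul_of_nonneg_left h2 (by positivity)
    linarith
  have hfin : 9 * (∑ x ∈ P.M, u1 x) ^ 2 / m = 9 * (m * c ^ 2) := by
    rw [hS1]
    field_simp
  rw [hsq1, hfin]
  linarith

/-- the energy of the gap -/
lemma EK_gap (N : Net V) (D S : Finset V) (y : V) :
    EK N (fun x => grn N D x y - grn N (D ∪ S) x y) = grn N D y y - grn N (D ∪ S) y y := by
  have hz : EK N (fun _ => 0) = 0 := by
    unfold EK En
    simp
  by_cases hy : y ∈ D
  · have e : (fun x => grn N D x y - grn N (D ∪ S) x y) = fun _ => 0 := by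
      funext x
      rw [grn_right N x hy, grn_right N x (Finset.mem_union_left S hy), sub_zero]
    rw [e, hz, grn_right N y hy, grn_right N y (Finset.mem_union_left S hy), sub_zero]
  · have hG : ∀ f : V → ℝ, (∀ x ∈ D, f x = 0) → EB N f (fun x => grn N D x y) = f y :=
      fun f hf => EB_grn N f hf hy
    have h1 : EK N (fun x => grn N D x y - grn N (D ∪ S) x y) =
        EK N (fun x => grn N D x y - 1 * grn N (D ∪ S) x y) := by simp only [one_mul]
    rw [h1, EK_sub N (fun x => grn N D x y) (fun x => grn N (D ∪ S) x y) 1, ← EB_self,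
      hG _ (fun x hx => grn_left N y hx), EB_symm,
      hG _ (fun x hx => grn_left N y (Finset.mem_union_left S hx))]
    have h2 : EK N (fun x => grn N (D ∪ S) x y) = grn N (D ∪ S) y y := by
      by_cases hyS : y ∈ D ∪ S
      · have e : (fun x => grn N (D ∪ S) x y) = fun _ => 0 := by
          funext x
          rw [grn_right N x hyS]
        rw [e, grn_right N y hyS, hz]
      · rw [← EB_self, EB_grn N _ (fun x hx => grn_left N y hx) hyS]
    rw [h2]
    ring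

/-- the decomposition at the smaller rate gives a lower bound for the gap at the larger rate -/
lemma low (P : PN V) {k1 k2 : ℝ} (hk1 : 0 < k1) (hk2 : 0 < k2) (h12 : k1 ≤ k2) (D S : Finset V)
    (φ : V → V → ℝ) (h1 : ∀ j ∈ S, ∀ x, x ∉ S → φ j x = 0)
    (h3 : ∀ j ∈ S, ∀ k ∈ S, ∑ x, φ j x * gd (P.net k1 hk1) D (φ k) x = if j = k then 1 else 0)
    (y : V) :
    ∑ j ∈ S, gd (P.net k2 hk2) D (φ j) y ^ 2 ≤
      grn (P.net k2 hk2) D y y - grn (P.net k2 hk2) (D ∪ S) y y := by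
  obtain ⟨c, hc⟩ : ∃ c : V → ℝ, ∀ j, c j = gd (P.net k2 hk2) D (φ j) y := ⟨_, fun _ => rfl⟩
  obtain ⟨Φ, hΦ⟩ : ∃ Φ : V → ℝ, Φ = fun s => ∑ j ∈ S, c j * φ j s := ⟨_, rfl⟩
  obtain ⟨q, hq⟩ : ∃ q : ℝ, q = ∑ j ∈ S, c j ^ 2 := ⟨_, rfl⟩
  have hlhs : ∑ j ∈ S, gd (P.net k2 hk2) D (φ j) y ^ 2 = q := by
    rw [hq]
    exact Finset.sum_congr rfl fun j _ => by rw [hc]
  rw [hlhs]
  have hΦy : gd (P.net k2 hk2) D Φ y = q := by
    rw [hΦ, gd_lin, hq]
    exact Finset.sum_congr rfl fun j _ => by rw [← hc]; ring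
  have hΦS : ∀ x, x ∉ S → Φ x = 0 := by
    intro x hx
    rw [hΦ]
    exact Finset.sum_eq_zero fun j hj => by rw [h1 j hj x hx, mul_zero]
  -- the form at the smaller rate
  have hB1 : ∑ x, Φ x * gd (P.net k1 hk1) D Φ x = q := by
    have e1 : ∀ x, Φ x * gd (P.net k1 hk1) D Φ x =
        ∑ j ∈ S, ∑ k ∈ S, c j * c k * (φ j x * gd (P.net k1 hk1) D (φ k) x) := by
      intro x
      rw [hΦ, gd_lin]
      show (∑ j ∈ S, c j * φ j x) * _ = _
      rw [Finset.sum_mul]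
      apply Finset.sum_congr rfl
      intro j _
      rw [Finset.mul_sum]
      apply Finset.sum_congr rfl
      intro k _
      ring
    simp only [e1]
    rw [Finset.sum_comm, hq]
    apply Finset.sum_congr rfl
    intro j hj
    rw [Finset.sum_comm]
    have e2 : ∀ k ∈ S, ∑ x, c j * c k * (φ j x * gd (P.net k1 hk1) D (φ k) x) =
        if j = k then c j * c k else 0 := by
      intro k hk
      rw [← Finset.mul_sum, h3 j hj k hk]
      split_ifs <;> ring
    rw [Finset.sum_congr rfl e2, Finset.sum_ite_eq, if_pos hj]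
    ring
  -- comparison of the two forms
  have hB2 : EK (P.net k2 hk2) (gd (P.net k2 hk2) D Φ) ≤ q := by
    have e1 := EK_nonneg (P.net k1 hk1)
      (fun x => gd (P.net k2 hk2) D Φ x - 1 * gd (P.net k1 hk1) D Φ x)
    rw [EK_sub, EB_gd _ _ _ (fun x hx => gd_mem _ _ hx), EK_gd] at e1
    have e2 := Gap2.EK_mono P hk1 hk2 h12 (gd (P.net k2 hk2) D Φ)
    have e3 := EK_gd (P.net k2 hk2) D Φ
    have e4 : ∑ x, gd (P.net k1 hk1) D Φ x * Φ x = q := by
      rw [← hB1]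
      exact Finset.sum_congr rfl fun x _ => mul_comm _ _
    have e5 : EK (P.net k1 hk1) (fun x => gd (P.net k2 hk2) D Φ x) =
        EK (P.net k1 hk1) (gd (P.net k2 hk2) D Φ) := rfl
    rw [e4] at e1
    linarith
  -- test with the gap function
  obtain ⟨N, hN⟩ : ∃ N, N = P.net k2 hk2 := ⟨_, rfl⟩
  rw [← hN] at hB2 hΦy ⊢
  have e1 := EK_nonneg N (fun x => (grn N D x y - grn N (D ∪ S) x y) - 1 * gd N D Φ x)
  have e2 : EB N (fun x => grn N D x y - grn N (D ∪ S) x y) (gd N D Φ) = q := by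
    rw [EB_gd N _ Φ (fun x hx => by
      rw [grn_left N y hx, grn_left N y (Finset.mem_union_left S hx), sub_zero]), ← hΦy]
    unfold gd
    apply Finset.sum_congr rfl
    intro x _
    by_cases hx : x ∈ S
    · rw [grn_left N y (Finset.mem_union_right D hx), sub_zero, grn_symm N D x y]
    · rw [hΦS x hx, mul_zero, mul_zero]
  rw [EK_sub N (fun x => grn N D x y - grn N (D ∪ S) x y) (gd N D Φ) 1, e2, EK_gap] at e1
  linarith

/-- the case of a set disjoint from `D` -/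
lemma disj (P : PN V) {k1 k2 : ℝ} (hk1 : 0 < k1) (hk2 : 0 < k2) (h12 : k1 ≤ k2)
    (ht : k2 * P.t ≤ 1) (D S : Finset V) (hSD : ∀ s ∈ S, s ∉ D) :
    ∑ y ∈ P.M, (grn (P.net k1 hk1) D y y - grn (P.net k1 hk1) (D ∪ S) y y) ≤
      8 * ∑ y ∈ P.M, (grn (P.net k2 hk2) D y y - grn (P.net k2 hk2) (D ∪ S) y y) +
        9 / (k1 ^ 2 * P.M.card) *
          (k1 * ∑ y ∈ P.M, (surv (P.net k1 hk1) D y - surv (P.net k1 hk1) (D ∪ S) y)) := by
  obtain ⟨φ, h1, h2, h3⟩ := decomp (P.net k1 hk1) D S hSD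
  have hm0 : (0 : ℝ) < P.M.card := by exact_mod_cast P.M_ne.card_pos
  -- survival
  have hcap : k1 * ∑ y ∈ P.M, (surv (P.net k1 hk1) D y - surv (P.net k1 hk1) (D ∪ S) y) =
      ∑ j ∈ S, (k1 * ∑ x ∈ P.M, gd (P.net k1 hk1) D (φ j) x) ^ 2 := by
    have e1 : ∀ x, surv (P.net k1 hk1) D x - surv (P.net k1 hk1) (D ∪ S) x =
        ∑ j ∈ S, gd (P.net k1 hk1) D (φ j) x *
          (k1 * ∑ y ∈ P.M, gd (P.net k1 hk1) D (φ j) y) := by
      intro x
      unfold surv
      rw [← Finset.sum_sub_distrib]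
      have e2 : ∀ y, grn (P.net k1 hk1) D x y * (P.net k1 hk1).k y -
          grn (P.net k1 hk1) (D ∪ S) x y * (P.net k1 hk1).k y =
          ∑ j ∈ S, gd (P.net k1 hk1) D (φ j) x *
            ((P.net k1 hk1).k y * gd (P.net k1 hk1) D (φ j) y) := by
        intro y
        rw [← sub_mul, h2, Finset.sum_mul]
        exact Finset.sum_congr rfl fun j _ => by ring
      simp only [e2]
      rw [Finset.sum_comm]
      apply Finset.sum_congr rfl
      intro j _
      rw [← Finset.mul_sum, Gap2.sumM]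
    rw [Finset.sum_congr rfl (fun x _ => e1 x), Finset.sum_comm, Finset.mul_sum]
    apply Finset.sum_congr rfl
    intro j _
    rw [← Finset.sum_mul]
    ring
  have hT1 : ∑ y ∈ P.M, (grn (P.net k1 hk1) D y y - grn (P.net k1 hk1) (D ∪ S) y y) =
      ∑ j ∈ S, ∑ y ∈ P.M, gd (P.net k1 hk1) D (φ j) y ^ 2 := by
    rw [Finset.sum_comm]
    apply Finset.sum_congr rfl
    intro y _
    rw [h2]
    exact Finset.sum_congr rfl fun j _ => by ring
  have hT2 : ∑ j ∈ S, ∑ y ∈ P.M, gd (P.net k2 hk2) D (φ j) y ^ 2 ≤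
      ∑ y ∈ P.M, (grn (P.net k2 hk2) D y y - grn (P.net k2 hk2) (D ∪ S) y y) := by
    rw [Finset.sum_comm]
    exact Finset.sum_le_sum fun y _ => low P hk1 hk2 h12 D S φ h1 h3 y
  have hsum : ∑ j ∈ S, ∑ y ∈ P.M, gd (P.net k1 hk1) D (φ j) y ^ 2 ≤
      ∑ j ∈ S, (8 * ∑ y ∈ P.M, gd (P.net k2 hk2) D (φ j) y ^ 2 +
        9 * (∑ x ∈ P.M, gd (P.net k1 hk1) D (φ j) x) ^ 2 / P.M.card) :=
    Finset.sum_le_sum fun j _ => one P hk1 hk2 h12 ht D (φ j)
  have hlast : 9 / (k1 ^ 2 * P.M.card) *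
      ∑ j ∈ S, (k1 * ∑ x ∈ P.M, gd (P.net k1 hk1) D (φ j) x) ^ 2 =
      ∑ j ∈ S, 9 * (∑ x ∈ P.M, gd (P.net k1 hk1) D (φ j) x) ^ 2 / P.M.card := by
    rw [Finset.mul_sum]
    apply Finset.sum_congr rfl
    intro j _
    field_simp
  rw [Finset.sum_add_distrib, ← Finset.mul_sum] at hsum
  rw [hT1, hcap, hlast]
  linarith

end Gap3

/-- the total gap at the rates `k1 ≤ k2`, in the network killed on `D` -/
theorem PN.gap_three (P : PN V) {k1 k2 : ℝ} (hk1 : 0 < k1) (hk2 : 0 < k2) (h12 : k1 ≤ k2)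
    (ht : k2 * P.t ≤ 1) (D S : Finset V) :
    ∑ y ∈ P.M, (grn (P.net k1 hk1) D y y - grn (P.net k1 hk1) (D ∪ S) y y) ≤
      8 * ∑ y ∈ P.M, (grn (P.net k2 hk2) D y y - grn (P.net k2 hk2) (D ∪ S) y y) +
        9 / (k1 ^ 2 * P.M.card) *
          (k1 * ∑ y ∈ P.M, (surv (P.net k1 hk1) D y - surv (P.net k1 hk1) (D ∪ S) y)) := by
  have h := Gap3.disj P hk1 hk2 h12 ht D (S \ D) (fun s hs => (Finset.mem_sdiff.mp hs).2)
  rw [Finset.union_sdiff_self_eq_union] at h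
  exact h

end

end Pool.Agent.TH972.U
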