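import Pool.Agent.TH972.U.Net

/-!
# Green function of a killed network
-/

set_option autoImplicit false
set_option linter.unusedSectionVars false

namespace Pool.Agent.TH972.U

open Finset

noncomputable section

variable {V : Type} [Fintype V] [DecidableEq V]

namespace Grn

lemma Kc_nn (N : Net V) (x y : V) : 0 ≤ Kc N.κ x y := Kc_nonneg (fun e => (N.κ_pos e).le) x y

lemma Kc_pos (N : Net V) {x y : V} (h : x ≠ y) : 0 < Kc N.κ x y := by
  unfold Kc
  rw [if_neg h]
  exact N.κ_pos _

lemma cs_mul (N : Net V) (x : V) (M : ℝ) : cs N.κ x * M = ∑ w, Kc N.κ x w * M := by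
  unfold cs
  rw [Finset.sum_mul]

lemma cs_nn (N : Net V) (x : V) : 0 ≤ cs N.κ x := cs_nonneg (fun e => (N.κ_pos e).le) x

end Grn

open Grn

theorem max_pr (N : Net V) (D : Finset V) (f : V → ℝ) (hD : ∀ x ∈ D, f x ≤ 0)
    (h : ∀ x, x ∉ D → (cs N.κ x + N.k x) * f x ≤ ∑ w, Kc N.κ x w * f w) : ∀ x, f x ≤ 0 := by
  by_contra hcon
  push Not at hcon
  obtain ⟨x1, hx1⟩ := hcon
  obtain ⟨x0, _, hmax⟩ := Finset.exists_max_image univ f ⟨x1, mem_univ x1⟩
  have hM : 0 < f x0 := lt_of_lt_of_le hx1 (hmax x1 (mem_univ _))
  have hx0 : x0 ∉ D := fun hx => absurd (hD x0 hx) (not_le.mpr hM)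
  have h1 := h x0 hx0
  have h2 : ∀ w, 0 ≤ Kc N.κ x0 w * (f x0 - f w) := fun w =>
    mul_nonneg (Kc_nn N x0 w) (sub_nonneg.mpr (hmax w (mem_univ _)))
  have h3 : ∑ w, Kc N.κ x0 w * (f x0 - f w) ≤ 0 := by
    have e : ∑ w, Kc N.κ x0 w * (f x0 - f w) = cs N.κ x0 * f x0 - ∑ w, Kc N.κ x0 w * f w := by
      rw [cs_mul, ← Finset.sum_sub_distrib]
      exact Finset.sum_congr rfl fun w _ => by ring
    rw [e]
    have := mul_nonneg (N.k_nonneg x0) hM.le
    nlinarith
  have h4 : ∑ w, Kc N.κ x0 w * (f x0 - f w) = 0 :=
    le_antisymm h3 (Finset.sum_nonneg fun w _ => h2 w)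
  have h5 : ∀ w, f w = f x0 := by
    intro w
    by_cases hw : x0 = w
    · rw [hw]
    · have e := (Finset.sum_eq_zero_iff_of_nonneg fun w _ => h2 w).mp h4 w (mem_univ w)
      rcases mul_eq_zero.mp e with e | e
      · exact absurd e (Kc_pos N hw).ne'
      · linarith
  obtain ⟨z, hz⟩ := N.k_pos
  have hzD : z ∉ D := by
    intro hz'
    have := hD z hz'
    rw [h5 z] at this
    linarith
  have h6 := h z hzD
  have h7 : ∑ w, Kc N.κ z w * f w = cs N.κ z * f x0 := by
    rw [cs_mul]
    exact Finset.sum_congr rfl fun w _ => by rw [h5 w]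
  rw [h7, h5 z] at h6
  have := mul_pos hz hM
  nlinarith

namespace Grn

/-- uniqueness -/
lemma uniq (N : Net V) (D : Finset V) (f : V → ℝ) (hD : ∀ x ∈ D, f x = 0)
    (h : ∀ x, x ∉ D → (cs N.κ x + N.k x) * f x = ∑ w, Kc N.κ x w * f w) : ∀ x, f x = 0 := by
  have h1 := max_pr N D f (fun x hx => (hD x hx).le) (fun x hx => (h x hx).le)
  have h2 := max_pr N D (fun x => - f x) (fun x hx => by rw [hD x hx, neg_zero]) (fun x hx => by
    have e : ∑ w, Kc N.κ x w * - f w = - ∑ w, Kc N.κ x w * f w := by
      rw [← Finset.sum_neg_distrib]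
      exact Finset.sum_congr rfl fun w _ => by ring
    rw [e, ← h x hx]
    linarith)
  intro x
  have a1 := h1 x
  have a2 := h2 x
  linarith

lemma lap_mem (N : Net V) {D : Finset V} (f : V → ℝ) {x : V} (hx : x ∈ D) :
    (lap N D).mulVec f x = f x := by
  show ∑ y, lap N D x y * f y = f x
  have e : ∀ y, lap N D x y * f y = if x = y then f y else 0 := by
    intro y
    unfold lap
    rw [if_pos (Or.inl hx)]
    split_ifs <;> ring
  simp only [e]
  rw [Finset.sum_ite_eq, if_pos (mem_univ x)]

lemma lap_not_mem (N : Net V) {D : Finset V} (f : V → ℝ) {x : V} (hx : x ∉ D) :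
    (lap N D).mulVec f x = (cs N.κ x + N.k x) * f x -
      ∑ y, (if y ∈ D then 0 else Kc N.κ x y * f y) := by
  show ∑ y, lap N D x y * f y = _
  have e : ∀ y, lap N D x y * f y = (if x = y then (cs N.κ x + N.k x) * f y else 0) -
      (if y ∈ D then 0 else Kc N.κ x y * f y) := by
    intro y
    unfold lap
    by_cases hy : y ∈ D
    · have hxy : x ≠ y := fun h => hx (h ▸ hy)
      rw [if_pos (Or.inr hy), if_neg hxy, if_neg hxy, if_pos hy]
      ring
    · rw [if_neg (by tauto), if_neg hy]
      by_cases hxy : x = y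
      · subst hxy
        rw [if_pos rfl, if_pos rfl, Kc_self]
        ring
      · rw [if_neg hxy, if_neg hxy]
        ring
  simp only [e, Finset.sum_sub_distrib]
  rw [Finset.sum_ite_eq, if_pos (mem_univ x)]

lemma lap_unit (N : Net V) (D : Finset V) : IsUnit (lap N D).det := by
  rw [isUnit_iff_ne_zero]
  intro h0
  obtain ⟨v, hv, hv0⟩ := Matrix.exists_mulVec_eq_zero_iff.mpr h0
  apply hv
  have hD : ∀ x ∈ D, v x = 0 := by
    intro x hx
    rw [← lap_mem N v hx, hv0]
    rfl
  have h1 := uniq N D v hD (fun x hx => by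
    have h2 := congrFun hv0 x
    rw [lap_not_mem N v hx, Pi.zero_apply] at h2
    have e : ∑ y, (if y ∈ D then 0 else Kc N.κ x y * v y) = ∑ w, Kc N.κ x w * v w := by
      apply Finset.sum_congr rfl
      intro y _
      by_cases hy : y ∈ D
      · rw [if_pos hy, hD y hy, mul_zero]
      · rw [if_neg hy]
    rw [e] at h2
    linarith)
  funext x
  exact h1 x

end Grn

theorem grn_left (N : Net V) {D : Finset V} {x : V} (y : V) (hx : x ∈ D) : grn N D x y = 0 := by
  unfold grn
  rw [if_pos (Or.inl hx)]

theorem grn_right (N : Net V) {D : Finset V} (x : V) {y : V} (hy : y ∈ D) : grn N D x y = 0 := by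
  unfold grn
  rw [if_pos (Or.inr hy)]

theorem grn_eq (N : Net V) {D : Finset V} {x y : V} (hx : x ∉ D) (hy : y ∉ D) :
    (cs N.κ x + N.k x) * grn N D x y = (if x = y then 1 else 0) + ∑ w, Kc N.κ x w * grn N D w y := by
  have h1 : (lap N D).mulVec (fun w => (lap N D)⁻¹ w y) x = if x = y then 1 else 0 := by
    have h2 := congrFun (congrFun (Matrix.mul_nonsing_inv (lap N D) (lap_unit N D)) x) y
    rw [Matrix.mul_apply, Matrix.one_apply] at h2
    exact h2
  rw [lap_not_mem N _ hx] at h1
  have h3 : grn N D x y = (lap N D)⁻¹ x y := by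
    unfold grn
    rw [if_neg (by tauto)]
  have h4 : ∑ w, (if w ∈ D then 0 else Kc N.κ x w * (lap N D)⁻¹ w y) =
      ∑ w, Kc N.κ x w * grn N D w y := by
    apply Finset.sum_congr rfl
    intro w _
    by_cases hw : w ∈ D
    · rw [if_pos hw, grn_left N y hw, mul_zero]
    · rw [if_neg hw]
      unfold grn
      rw [if_neg (by tauto)]
  rw [h4] at h1
  rw [h3]
  linarith

theorem grn_symm (N : Net V) (D : Finset V) (x y : V) : grn N D x y = grn N D y x := by
  have hs : (lap N D).transpose = lap N D := by
    ext a b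
    rw [Matrix.transpose_apply]
    unfold lap
    by_cases hab : a = b
    · subst hab
      rfl
    · have hba : ¬ b = a := fun h => hab h.symm
      rw [if_neg hab, if_neg hba, if_neg hab, if_neg hba, Kc_symm N.κ a b]
      simp only [or_comm]
  have h1 : (lap N D)⁻¹ x y = (lap N D)⁻¹ y x := by
    have h2 := Matrix.transpose_nonsing_inv (lap N D)
    rw [hs] at h2
    have h3 := congrFun (congrFun h2 x) y
    rw [Matrix.transpose_apply] at h3
    exact h3.symm
  unfold grn
  rw [h1]
  simp only [or_comm]

theorem grn_nonneg (N : Net V) (D : Finset V) (x y : V) : 0 ≤ grn N D x y := by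
  by_cases hy : y ∈ D
  · rw [grn_right N x hy]
  · have h1 := max_pr N D (fun x => - grn N D x y)
      (fun x hx => by rw [grn_left N y hx, neg_zero]) (fun x hx => by
        have e : ∑ w, Kc N.κ x w * - grn N D w y = - ∑ w, Kc N.κ x w * grn N D w y := by
          rw [← Finset.sum_neg_distrib]
          exact Finset.sum_congr rfl fun w _ => by ring
        have h2 := grn_eq N hx hy
        rw [e, mul_neg, h2]
        split_ifs <;> linarith) x
    linarith

theorem grn_pos (N : Net V) {D : Finset V} {x : V} (hx : x ∉ D) : 0 < grn N D x x := by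
  have h1 := grn_eq N hx hx
  rw [if_pos rfl] at h1
  have h2 : 0 ≤ ∑ w, Kc N.κ x w * grn N D w x :=
    Finset.sum_nonneg fun w _ => mul_nonneg (Kc_nn N x w) (grn_nonneg N D w x)
  rcases (grn_nonneg N D x x).eq_or_lt with h3 | h3
  · rw [← h3, mul_zero] at h1
    linarith
  · exact h3

theorem grn_le_diag (N : Net V) (D : Finset V) (x y : V) : grn N D x y ≤ grn N D y y := by
  by_cases hy : y ∈ D
  · rw [grn_right N x hy, grn_right N y hy]
  · have h1 := max_pr N (insert y D) (fun x => grn N D x y - grn N D y y)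
      (fun x hx => by
        rcases Finset.mem_insert.mp hx with rfl | hx
        · rw [sub_self]
        · rw [grn_left N y hx]
          have := grn_nonneg N D y y
          linarith)
      (fun x hx => by
        have hx1 : x ≠ y := fun h => hx (h ▸ Finset.mem_insert_self y D)
        have hx2 : x ∉ D := fun h => hx (Finset.mem_insert_of_mem h)
        have e : ∑ w, Kc N.κ x w * (grn N D w y - grn N D y y) =
            ∑ w, Kc N.κ x w * grn N D w y - cs N.κ x * grn N D y y := by
          rw [cs_mul, ← Finset.sum_sub_distrib]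
          exact Finset.sum_congr rfl fun w _ => by ring
        have h2 := grn_eq N hx2 hy
        rw [if_neg hx1, zero_add] at h2
        rw [e, ← h2]
        have := mul_nonneg (N.k_nonneg x) (grn_nonneg N D y y)
        nlinarith) x
    linarith

theorem grn_anti (N : Net V) {D D' : Finset V} (h : D ⊆ D') (x y : V) :
    grn N D' x y ≤ grn N D x y := by
  by_cases hy : y ∈ D'
  · rw [grn_right N x hy]
    exact grn_nonneg N D x y
  · have hyD : y ∉ D := fun h' => hy (h h')
    have h1 := max_pr N D' (fun x => grn N D' x y - grn N D x y)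
      (fun x hx => by
        rw [grn_left N y hx]
        have := grn_nonneg N D x y
        linarith)
      (fun x hx => by
        have hxD : x ∉ D := fun h' => hx (h h')
        have e : ∑ w, Kc N.κ x w * (grn N D' w y - grn N D w y) =
            ∑ w, Kc N.κ x w * grn N D' w y - ∑ w, Kc N.κ x w * grn N D w y := by
          rw [← Finset.sum_sub_distrib]
          exact Finset.sum_congr rfl fun w _ => by ring
        have h2 := grn_eq N hx hy
        have h3 := grn_eq N hxD hyD
        rw [e]
        linarith) x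
    linarith

theorem grn_anti_k (N N' : Net V) (hκ : N'.κ = N.κ) (hk : ∀ x, N.k x ≤ N'.k x) (D : Finset V)
    (x y : V) : grn N' D x y ≤ grn N D x y := by
  by_cases hy : y ∈ D
  · rw [grn_right N' x hy, grn_right N x hy]
  · have h1 := max_pr N D (fun x => grn N' D x y - grn N D x y)
      (fun x hx => by rw [grn_left N' y hx, grn_left N y hx, sub_self])
      (fun x hx => by
        have e : ∑ w, Kc N.κ x w * (grn N' D w y - grn N D w y) =
            ∑ w, Kc N.κ x w * grn N' D w y - ∑ w, Kc N.κ x w * grn N D w y := by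
          rw [← Finset.sum_sub_distrib]
          exact Finset.sum_congr rfl fun w _ => by ring
        have h2 := grn_eq N' hx hy
        have h3 := grn_eq N hx hy
        rw [hκ] at h2
        rw [e]
        have h4 := mul_nonneg (sub_nonneg.mpr (hk x)) (grn_nonneg N' D x y)
        nlinarith) x
    linarith

theorem grn_insert (N : Net V) {D : Finset V} {w : V} (hw : w ∉ D) (x y : V) :
    grn N (insert w D) x y = grn N D x y - grn N D x w * grn N D w y / grn N D w w := by
  have hww : grn N D w w ≠ 0 := (grn_pos N hw).ne'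
  by_cases hy : y ∈ D
  · rw [grn_right N x (Finset.mem_insert_of_mem hy), grn_right N x hy, grn_right N w hy]
    ring
  by_cases hyw : y = w
  · subst hyw
    rw [grn_right N x (Finset.mem_insert_self y D)]
    field_simp
    ring
  have hy' : y ∉ insert w D := by
    rw [Finset.mem_insert]
    tauto
  have h1 := uniq N (insert w D) (fun x => grn N (insert w D) x y -
      (grn N D x y - grn N D x w * grn N D w y / grn N D w w))
    (fun x hx => by
      rw [grn_left N y hx]
      rcases Finset.mem_insert.mp hx with rfl | hx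
      · field_simp
        ring
      · rw [grn_left N y hx, grn_left N w hx]
        ring)
    (fun x hx => by
      have hx1 : x ≠ w := fun h => hx (h ▸ Finset.mem_insert_self w D)
      have hx2 : x ∉ D := fun h => hx (Finset.mem_insert_of_mem h)
      have e : ∑ v, Kc N.κ x v * (grn N (insert w D) v y -
          (grn N D v y - grn N D v w * grn N D w y / grn N D w w)) =
          ∑ v, Kc N.κ x v * grn N (insert w D) v y - ∑ v, Kc N.κ x v * grn N D v y +
            (∑ v, Kc N.κ x v * grn N D v w) * (grn N D w y / grn N D w w) := by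
        rw [Finset.sum_mul, ← Finset.sum_sub_distrib, ← Finset.sum_add_distrib]
        exact Finset.sum_congr rfl fun v _ => by ring
      have h2 := grn_eq N hx hy'
      have h3 := grn_eq N hx2 hy
      have h4 := grn_eq N hx2 hw
      rw [if_neg hx1, zero_add] at h4
      rw [e, ← h4]
      linear_combination h2 - h3) x
  linarith

end

end Pool.Agent.TH972.U
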