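import Pool.Agent.TH972.U.RsExp
import Pool.Agent.TH972.H.LowerHeavy

/-!
# The heavy-tailed weights: the exponent of the diameter
-/

set_option autoImplicit false

namespace Pool.Agent.TH972.U

open Finset MeasureTheory Pool.Agent.W842.RST Pool.Agent.TH972 Filter Topology

noncomputable section

namespace Heavy

/-- the increments of `(1 - j / N) ^ (-s)` -/
theorem incr {s N x : ℝ} {K : ℝ} (hs : 0 < s) (hN : 0 < N) (hK : 0 ≤ K)
    (hKN : (s + 1) * (K + 1) ≤ N / 2000) (h1 : -K ≤ x) (h2 : x ≤ K) :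
    0.999 * (s / N) ≤ (1 - (x + 1) / N) ^ (-s) - (1 - x / N) ^ (-s) ∧
      (1 - (x + 1) / N) ^ (-s) - (1 - x / N) ^ (-s) ≤ 1.001 * (s / N) := by
  have hKN2 : (s + 1) * ((K + 1) / N) ≤ 1 / 2000 := by
    rw [← mul_div_assoc, div_le_iff₀ hN]
    linarith
  have hq0 : 0 < (K + 1) / N := by positivity
  have hq1 : (K + 1) / N ≤ 1 / 2000 := by nlinarith
  obtain ⟨q, hq⟩ : ∃ q, q = (K + 1) / N := ⟨_, rfl⟩
  rw [← hq] at hKN2 hq0 hq1
  obtain ⟨b, hb⟩ : ∃ b, b = 1 - x / N := ⟨_, rfl⟩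
  obtain ⟨a, ha⟩ : ∃ a, a = 1 - (x + 1) / N := ⟨_, rfl⟩
  have hxN1 : x / N ≤ q := by
    rw [hq]
    exact div_le_div_of_nonneg_right (by linarith) hN.le
  have hxN2 : -q ≤ x / N := by
    rw [hq, ← neg_div]
    exact div_le_div_of_nonneg_right (by linarith) hN.le
  have hxN3 : (x + 1) / N ≤ q := by
    rw [hq]
    exact div_le_div_of_nonneg_right (by linarith) hN.le
  have hab : b - a = 1 / N := by rw [ha, hb]; ring
  have hN1 : 0 < 1 / N := by positivity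
  have hb1 : b ≤ 1 + q := by rw [hb]; linarith
  have ha1 : 1 - q ≤ a := by rw [ha]; linarith
  have ha0 : 0 < a := by linarith
  have hb0 : 0 < b := by linarith
  rw [← ha, ← hb]
  have hfa : a ^ (-s) / a = a ^ (-(s + 1)) := by
    rw [neg_add, Real.rpow_add ha0, Real.rpow_neg_one, div_eq_mul_inv]
  have hfb : b ^ (-s) / b = b ^ (-(s + 1)) := by
    rw [neg_add, Real.rpow_add hb0, Real.rpow_neg_one, div_eq_mul_inv]
  constructor
  · have t1 := H.Hv.tang hs.le hb0 ha0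
    have e1 : b ^ (-s) * (1 - s * (a / b - 1)) = b ^ (-s) + (b ^ (-s) / b) * (s * (b - a)) := by
      field_simp
      ring
    rw [e1, hab, hfb] at t1
    have t2 := H.Hv.tang (γ := s + 1) (by linarith) one_pos hb0
    rw [Real.one_rpow, one_mul, div_one] at t2
    have t3 : (s + 1) * (b - 1) ≤ (s + 1) * q := mul_le_mul_of_nonneg_left (by linarith) (by linarith)
    have t4 : 0.999 ≤ b ^ (-(s + 1)) := by linarith
    have t5 : 0.999 * (s * (1 / N)) ≤ b ^ (-(s + 1)) * (s * (1 / N)) :=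
      mul_le_mul_of_nonneg_right t4 (by positivity)
    have t6 : s * (1 / N) = s / N := by ring
    rw [t6] at t1 t5
    linarith
  · have t1 := H.Hv.tang hs.le ha0 hb0
    have e1 : a ^ (-s) * (1 - s * (b / a - 1)) = a ^ (-s) - (a ^ (-s) / a) * (s * (b - a)) := by
      field_simp
    rw [e1, hab, hfa] at t1
    have t2 := one_add_mul_self_le_rpow_one_add (s := a - 1) (by linarith) (p := s + 1)
      (by linarith)
    have t3 : -((s + 1) * q) ≤ (s + 1) * (a - 1) := by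
      have := mul_le_mul_of_nonneg_left (by linarith : -q ≤ a - 1) (by linarith : 0 ≤ s + 1)
      linarith
    have e2 : 1 + (a - 1) = a := by ring
    rw [e2] at t2
    have t4 : 1999 / 2000 ≤ a ^ (s + 1) := by linarith
    have t5 : a ^ (-(s + 1)) ≤ 1.001 := by
      rw [Real.rpow_neg ha0.le]
      rw [inv_le_comm₀ (by linarith) (by norm_num)]
      refine le_trans ?_ t4
      norm_num
    have t6 : a ^ (-(s + 1)) * (s * (1 / N)) ≤ 1.001 * (s * (1 / N)) :=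
      mul_le_mul_of_nonneg_right t5 (by positivity)
    have t7 : s * (1 / N) = s / N := by ring
    rw [t7] at t1 t6
    linarith

theorem gam_pow {γ m : ℝ} (h0 : 0 < γ) (hm : 1 ≤ m) : (m ^ (-1 / γ)) ^ (-γ) = m := by
  rw [← Real.rpow_mul (by linarith)]
  have : -1 / γ * -γ = 1 := by field_simp
  rw [this, Real.rpow_one]

/-- normalization of the levels -/
theorem gam_norm {γ n m : ℝ} (h0 : 0 < γ) (hn : 0 < n) (hm : 0 < m) :
    n * m ^ (-1 / γ) = (m / n ^ γ) ^ (-(1 / γ)) := by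
  have hN : 0 < n ^ γ := Real.rpow_pos_of_pos hn _
  rw [Real.div_rpow hm.le hN.le, Real.rpow_neg hN.le, ← Real.rpow_mul hn.le]
  have : γ * (1 / γ) = 1 := by field_simp
  rw [this, Real.rpow_one, neg_div]
  field_simp

end Heavy

/-- the levels of the truncated weight `exp (u ^ (-γ) - n ^ γ)` -/
theorem lvs_heavy {γ : ℝ} (h0 : 0 < γ) (h1 : γ < 1 / 3) : ∀ᶠ n : ℕ in atTop,
    Lvs (fun u => Real.exp (-(n : ℝ) ^ γ) * H.Hv.wt γ (1 / (n : ℝ) ^ 4) 0 u)
      (fun i : ℤ => (max ((n : ℝ) ^ γ - i) 1) ^ (-1 / γ)) n (γ * (n : ℝ) ^ γ)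
      (KL (Real.log n)) := by
  have hlog : Tendsto (fun n : ℕ => Real.log n) atTop atTop :=
    Real.tendsto_log_atTop.comp (tendsto_natCast_atTop_atTop (R := ℝ))
  have hC : 0 < 2000 * (1 / γ + 1) * 3 := by positivity
  have hnn : ∀ᶠ n : ℕ in atTop, (2 : ℝ) ^ (1 / γ) ≤ n := by
    have := (tendsto_natCast_atTop_atTop (R := ℝ)).eventually
      (eventually_ge_atTop ((2 : ℝ) ^ (1 / γ)))
    exact this
  filter_upwards [RsExp.log_pow_le 9 h0 hC, hlog.eventually (eventually_ge_atTop 1), hnn,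
    eventually_ge_atTop 2] with n hKN hL hn2 hn
  have hn1 : (2 : ℝ) ≤ n := by exact_mod_cast hn
  have hn0 : (0 : ℝ) < n := by linarith
  obtain ⟨N, hN⟩ : ∃ N : ℝ, N = (n : ℝ) ^ γ := ⟨_, rfl⟩
  obtain ⟨K, hK⟩ : ∃ K : ℕ, K = KL (Real.log n) := ⟨_, rfl⟩
  obtain ⟨δ, hδ⟩ : ∃ δ : ℝ, δ = 1 / (n : ℝ) ^ 4 := ⟨_, rfl⟩
  have hs : 0 < 1 / γ := by positivity
  have hN0 : 0 < N := by rw [hN]; positivity
  have hL9 : 1 ≤ Real.log n ^ 9 := one_le_pow₀ hL
  have hK1 : (K : ℝ) + 1 ≤ 3 * Real.log n ^ 9 := by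
    have h3 : (K : ℝ) ≤ Real.log n ^ 9 + 1 := by
      rw [hK]
      exact (Nat.ceil_lt_add_one (by positivity)).le
    linarith
  have hK0 : (0 : ℝ) ≤ K := Nat.cast_nonneg _
  have hKN1 : (1 / γ + 1) * ((K : ℝ) + 1) ≤ N / 2000 := by
    rw [← hN] at hKN
    have := mul_le_mul_of_nonneg_left hK1 (by positivity : 0 ≤ (1 / γ + 1))
    linarith
  have hKN2 : (K : ℝ) + 1 ≤ N / 2000 := by nlinarith
  have hNb : 2000 ≤ N := by linarith
  have hδ0 : 0 < δ := by rw [hδ]; positivity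
  rw [← hN, ← hK, ← hδ]
  have hsn : (-1 / γ) ≤ 0 := by
    rw [neg_div]
    linarith
  have hm1 : ∀ i : ℤ, 1 ≤ max (N - (i : ℝ)) 1 := fun i => le_max_right _ _
  have hmeq : ∀ i : ℤ, i ≤ K + 1 → max (N - (i : ℝ)) 1 = N - i := by
    intro i hi
    have h : (i : ℝ) ≤ K + 1 := by exact_mod_cast hi
    exact max_eq_left (by linarith)
  have hmono : Monotone (fun i : ℤ => (max (N - (i : ℝ)) 1) ^ (-1 / γ)) := by
    intro i j hij
    have h : (i : ℝ) ≤ j := by exact_mod_cast hij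
    exact Real.rpow_le_rpow_of_nonpos (lt_of_lt_of_le one_pos (hm1 j))
      (max_le_max (by linarith) le_rfl) hsn
  have hgpos : ∀ i : ℤ, 0 < (max (N - (i : ℝ)) 1) ^ (-1 / γ) := fun i =>
    Real.rpow_pos_of_pos (lt_of_lt_of_le one_pos (hm1 i)) _
  have hgδ : ∀ i : ℤ, -(K : ℤ) ≤ i → δ ≤ (max (N - (i : ℝ)) 1) ^ (-1 / γ) := by
    intro i hi
    refine le_trans ?_ (hmono hi)
    show δ ≤ (max (N - ((-(K : ℤ) : ℤ) : ℝ)) 1) ^ (-1 / γ)
    have e1 : max (N - ((-(K : ℤ) : ℤ) : ℝ)) 1 ≤ 2 * N := by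
      apply max_le
      · push_cast
        linarith
      · linarith
    have e2 : (2 * N) ^ (-1 / γ) ≤ (max (N - ((-(K : ℤ) : ℤ) : ℝ)) 1) ^ (-1 / γ) :=
      Real.rpow_le_rpow_of_nonpos (lt_of_lt_of_le one_pos (hm1 _)) e1 hsn
    refine le_trans ?_ e2
    have e3 : (2 * N) ^ (-1 / γ) = 1 / ((2 : ℝ) ^ (1 / γ) * n) := by
      rw [neg_div, Real.rpow_neg (by positivity), Real.mul_rpow (by norm_num) hN0.le, hN,
        ← Real.rpow_mul hn0.le]
      have : γ * (1 / γ) = 1 := by field_simp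
      rw [this, Real.rpow_one]
      exact (one_div _).symm
    rw [e3, hδ]
    apply one_div_le_one_div_of_le (by positivity)
    calc (2 : ℝ) ^ (1 / γ) * n ≤ n * n := mul_le_mul_of_nonneg_right hn2 hn0.le
      _ = (n : ℝ) ^ 2 := by ring
      _ ≤ (n : ℝ) ^ 4 := pow_le_pow_right₀ (by linarith) (by norm_num)
  have hgp : ∀ i : ℤ, ((max (N - (i : ℝ)) 1) ^ (-1 / γ)) ^ (-γ) = max (N - (i : ℝ)) 1 :=
    fun i => Heavy.gam_pow h0 (hm1 i)
  have hw : ∀ u, 1 / (Real.exp (-N) * H.Hv.wt γ δ 0 u) = Real.exp (N - max u δ ^ (-γ)) := by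
    intro u
    unfold H.Hv.wt
    rw [zero_mul, add_zero, ← Real.exp_add, one_div, ← Real.exp_neg]
    congr 1
    ring
  have hanti := H.Hv.wt_anti (b := 0) h0.le hδ0 le_rfl
  have hincr : ∀ i : ℤ, -(K : ℤ) ≤ i → i ≤ K →
      0.999 * ((1 / γ) / N) ≤ n * ((max (N - ((i + 1 : ℤ) : ℝ)) 1) ^ (-1 / γ) -
        (max (N - (i : ℝ)) 1) ^ (-1 / γ)) ∧
      n * ((max (N - ((i + 1 : ℤ) : ℝ)) 1) ^ (-1 / γ) -
        (max (N - (i : ℝ)) 1) ^ (-1 / γ)) ≤ 1.001 * ((1 / γ) / N) := by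
    intro i hi1 hi2
    have hi1' : -(K : ℝ) ≤ i := by exact_mod_cast hi1
    have hi2' : (i : ℝ) ≤ K := by exact_mod_cast hi2
    rw [hmeq (i + 1) (by omega), hmeq i (by omega)]
    have hp1 : 0 < N - ((i + 1 : ℤ) : ℝ) := by
      push_cast
      linarith
    have hp2 : 0 < N - (i : ℝ) := by linarith
    have e : (n : ℝ) * ((N - ((i + 1 : ℤ) : ℝ)) ^ (-1 / γ) - (N - (i : ℝ)) ^ (-1 / γ)) =
        (1 - ((i : ℝ) + 1) / N) ^ (-(1 / γ)) - (1 - (i : ℝ) / N) ^ (-(1 / γ)) := by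
      rw [mul_sub, Heavy.gam_norm h0 hn0 hp1, Heavy.gam_norm h0 hn0 hp2, ← hN]
      congr 2
      · push_cast
        field_simp
      · field_simp
    rw [e]
    exact Heavy.incr hs hN0 hK0 hKN1 hi1' hi2'
  have hyN : (1 / γ) / N = 1 / (γ * N) := by rw [div_div]
  constructor
  · intro u
    exact mul_pos (Real.exp_pos _) (H.Hv.wt_pos _ _ _ _)
  · exact measurable_const.mul hanti.measurable
  · exact hmono
  · show (n : ℝ) * (max (N - ((0 : ℤ) : ℝ)) 1) ^ (-1 / γ) = 1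
    rw [hmeq 0 (by omega)]
    push_cast
    rw [sub_zero, Heavy.gam_norm h0 hn0 hN0, ← hN, div_self hN0.ne', Real.one_rpow]
  · exact (hgpos _).le
  · exact Real.rpow_le_one_of_one_le_of_nonpos (hm1 _) hsn
  · intro i hi1 hi2
    refine le_trans (le_of_eq ?_) (hincr i hi1 hi2).1
    rw [hyN]
    ring
  · intro i hi1 hi2
    refine le_trans (hincr i hi1 hi2).2 (le_of_eq ?_)
    rw [hyN]
    ring
  · intro i hi u hu
    show 1 / (Real.exp (-N) * H.Hv.wt γ δ 0 u) ≤ _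
    rw [hw]
    apply Real.exp_le_exp.2
    have e1 : max u δ ≤ (max (N - (i : ℝ)) 1) ^ (-1 / γ) := max_le hu (hgδ i hi)
    have e2 := Real.rpow_le_rpow_of_nonpos (lt_max_of_lt_right hδ0) e1 (by linarith : -γ ≤ 0)
    rw [hgp] at e2
    have e3 := le_max_left (N - (i : ℝ)) 1
    linarith
  · intro i hi1 hi2 u hu
    show _ ≤ 1 / (Real.exp (-N) * H.Hv.wt γ δ 0 u)
    rw [hw]
    apply Real.exp_le_exp.2
    have e1 : (max (N - (i : ℝ)) 1) ^ (-1 / γ) ≤ max u δ := (le_of_lt hu).trans (le_max_left _ _)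
    have e2 := Real.rpow_le_rpow_of_nonpos (hgpos i) e1 (by linarith : -γ ≤ 0)
    rw [hgp, hmeq i (by omega)] at e2
    linarith
  · intro u
    show Real.exp (-N) * H.Hv.wt γ δ 0 ((max (N - ((1 : ℤ) : ℝ)) 1) ^ (-1 / γ)) ≤
      Real.exp (-N) * H.Hv.wt γ δ 0 u ↔ _
    rw [mul_le_mul_iff_right₀ (Real.exp_pos _)]
    constructor
    · intro h
      by_contra hcon
      rw [not_le] at hcon
      have hcon' : (max (N - ((1 : ℤ) : ℝ)) 1) ^ (-1 / γ) < u := hcon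
      have hg := hgδ 1 (by omega)
      have hlt := Real.rpow_lt_rpow_of_neg (hgpos 1) hcon' (by linarith : -γ < 0)
      have h3 : H.Hv.wt γ δ 0 u < H.Hv.wt γ δ 0 ((max (N - ((1 : ℤ) : ℝ)) 1) ^ (-1 / γ)) := by
        unfold H.Hv.wt
        rw [zero_mul, add_zero, zero_mul, add_zero, max_eq_left hg,
          max_eq_left (hg.trans hcon'.le)]
        exact Real.exp_lt_exp.2 hlt
      linarith
    · intro h
      exact hanti h

/-- upper bound of the diameter -/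
theorem upper_heavy (γ : ℝ) (h0 : 0 < γ) (h1 : γ < 1 / 3) (ε : ℝ) (hε : 0 < ε) :
    Tendsto (fun n : ℕ => avgw (fun u => Real.exp (u ^ (-γ))) n (fun T =>
      (T.diam : ℝ) ≤ (n : ℝ) ^ ((1 - γ) / 2 + ε))) atTop (𝓝 1) := by
  have hy : ∀ δ : ℝ, 0 < δ → ∀ᶠ n : ℕ in atTop,
      (n : ℝ) ^ (γ - δ) ≤ γ * (n : ℝ) ^ γ ∧ γ * (n : ℝ) ^ γ ≤ (n : ℝ) ^ (γ + δ) := by
    intro δ hδ
    have h2 : Tendsto (fun n : ℕ => (n : ℝ) ^ δ) atTop atTop :=
      (tendsto_rpow_atTop hδ).comp (tendsto_natCast_atTop_atTop (R := ℝ))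
    filter_upwards [h2.eventually (eventually_ge_atTop (1 / γ)), eventually_ge_atTop 1] with n hn
      hn1
    have hn1' : (1 : ℝ) ≤ n := by exact_mod_cast hn1
    have hn0 : (0 : ℝ) < n := by linarith
    have hδn : 0 < (n : ℝ) ^ δ := Real.rpow_pos_of_pos hn0 _
    have hγn : 0 < (n : ℝ) ^ γ := Real.rpow_pos_of_pos hn0 _
    constructor
    · rw [Real.rpow_sub hn0, div_le_iff₀ hδn]
      have : 1 ≤ γ * (n : ℝ) ^ δ := by
        rw [div_le_iff₀ h0] at hn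
        linarith
      calc (n : ℝ) ^ γ = (n : ℝ) ^ γ * 1 := (mul_one _).symm
        _ ≤ (n : ℝ) ^ γ * (γ * (n : ℝ) ^ δ) := mul_le_mul_of_nonneg_left this hγn.le
        _ = γ * (n : ℝ) ^ γ * (n : ℝ) ^ δ := by ring
    · calc γ * (n : ℝ) ^ γ ≤ 1 * (n : ℝ) ^ γ := mul_le_mul_of_nonneg_right (by linarith) hγn.le
        _ = (n : ℝ) ^ γ := one_mul _
        _ ≤ _ := Real.rpow_le_rpow_of_exponent_le hn1' (by linarith)
  have hPar : ∀ᶠ n : ℕ in atTop, Par γ n (Real.log n ^ 8) (γ * (n : ℝ) ^ γ) := by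
    apply RsExp.par_of h0 h1 h0 _ (by linarith) hy
    filter_upwards with n
    have : 0 ≤ (n : ℝ) ^ γ := Real.rpow_nonneg (Nat.cast_nonneg _) _
    nlinarith
  have hth : ∀ᶠ n : ℕ in atTop, ∀ θ : ℝ, Real.log n ^ 8 / (γ * (n : ℝ) ^ γ) ≤ θ →
      θ ≤ 5 * Real.log n →
      ∀ u u' : ℝ, u ≤ Pool.Agent.W842.RST.lev n θ →
        Pool.Agent.W842.RST.lev n (11 / 10 * θ) < u' →
        Real.exp (-(n : ℝ) ^ γ) * H.Hv.wt γ (1 / (n : ℝ) ^ 4) 0 u' ≤
          1 / (n : ℝ) ^ 6 * (Real.exp (-(n : ℝ) ^ γ) * H.Hv.wt γ (1 / (n : ℝ) ^ 4) 0 u) := by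
    filter_upwards [hPar] with n HP θ h2 h3 u u' hu hu'
    have hn0 := HP.n_pos
    have hθ := lt_of_lt_of_le HP.θ_pos h2
    have hyb := HP.y_big
    have hyn := HP.y_le
    have hL := HP.hL
    have ht := HP.thermal h2 h3
    have hn1 : (1 : ℝ) ≤ n := by linarith
    have hδ0 : 0 < 1 / (n : ℝ) ^ 4 := by positivity
    have hδ1 : 1 / (n : ℝ) ^ 4 ≤ 1 / n :=
      one_div_le_one_div_of_le hn0 (le_self_pow₀ hn1 (by norm_num))
    have hl1 : 1 / (n : ℝ) ≤ Pool.Agent.W842.RST.lev n θ := by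
      unfold Pool.Agent.W842.RST.lev
      apply div_le_div_of_nonneg_right _ hn0.le
      linarith
    have hl2 : 1 / (n : ℝ) ≤ Pool.Agent.W842.RST.lev n (11 / 10 * θ) := by
      unfold Pool.Agent.W842.RST.lev
      apply div_le_div_of_nonneg_right _ hn0.le
      linarith
    have hanti := H.Hv.wt_anti (b := 0) h0.le hδ0 le_rfl
    have e1 : H.Hv.wt γ (1 / (n : ℝ) ^ 4) 0 u' ≤
        Real.exp (Pool.Agent.W842.RST.lev n (11 / 10 * θ) ^ (-γ)) := by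
      rw [← H.Hv.wt_ge (b := 0) (by linarith [show 0 < 1 / (n:ℝ) by positivity])
        (hδ1.trans hl2)]
      exact hanti hu'.le
    have e2 : Real.exp (Pool.Agent.W842.RST.lev n θ ^ (-γ)) ≤
        H.Hv.wt γ (1 / (n : ℝ) ^ 4) 0 u := by
      rw [← H.Hv.wt_ge (b := 0) (by linarith [show 0 < 1 / (n:ℝ) by positivity])
        (hδ1.trans hl1)]
      exact hanti hu
    have e3 : 1 / (n : ℝ) ^ 6 = Real.exp (-(6 * Real.log n)) := by
      rw [Real.exp_neg, one_div]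
      congr 1
      rw [show 6 * Real.log (n : ℝ) = ((6 : ℕ) : ℝ) * Real.log n by norm_num,
        Real.exp_nat_mul, Real.exp_log hn0]
    have e4 : Real.exp (Pool.Agent.W842.RST.lev n (11 / 10 * θ) ^ (-γ)) ≤
        Real.exp (-(6 * Real.log n)) * Real.exp (Pool.Agent.W842.RST.lev n θ ^ (-γ)) := by
      rw [← Real.exp_add]
      apply Real.exp_le_exp.2
      linarith
    have e5 : H.Hv.wt γ (1 / (n : ℝ) ^ 4) 0 u' ≤
        Real.exp (-(6 * Real.log n)) * H.Hv.wt γ (1 / (n : ℝ) ^ 4) 0 u :=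
      e1.trans (e4.trans (mul_le_mul_of_nonneg_left e2 (Real.exp_pos _).le))
    rw [e3]
    calc Real.exp (-(n : ℝ) ^ γ) * H.Hv.wt γ (1 / (n : ℝ) ^ 4) 0 u' ≤
          Real.exp (-(n : ℝ) ^ γ) *
            (Real.exp (-(6 * Real.log n)) * H.Hv.wt γ (1 / (n : ℝ) ^ 4) 0 u) :=
          mul_le_mul_of_nonneg_left e5 (Real.exp_pos _).le
      _ = _ := by ring
  have key := upper_seq h0 h1
    (fun n u => Real.exp (-(n : ℝ) ^ γ) * H.Hv.wt γ (1 / (n : ℝ) ^ 4) 0 u)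
    (fun n i => (max ((n : ℝ) ^ γ - i) 1) ^ (-1 / γ)) (fun n => γ * (n : ℝ) ^ γ) hy
    (lvs_heavy h0 h1) hPar hth hε
  have key2 : Tendsto (fun n : ℕ => avgw (H.Hv.wt γ (1 / (n : ℝ) ^ 4) 0) n (fun T =>
      (T.diam : ℝ) ≤ (n : ℝ) ^ ((1 - γ) / 2 + ε))) atTop (𝓝 1) := by
    refine key.congr (fun n => ?_)
    exact avgw_scale (Real.exp_pos _) n _
  have hlim : Tendsto (fun n : ℕ => avgw (H.Hv.wt γ (1 / (n : ℝ) ^ 4) 0) n (fun T =>
      (T.diam : ℝ) ≤ (n : ℝ) ^ ((1 - γ) / 2 + ε)) - 1 / (n : ℝ)) atTop (𝓝 1) := by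
    have a3 := (tendsto_natCast_atTop_atTop (R := ℝ)).const_div_atTop 1
    have := key2.sub a3
    simpa using this
  refine tendsto_of_tendsto_of_tendsto_of_le_of_le' hlim tendsto_const_nhds ?_ ?_
  · filter_upwards [eventually_ge_atTop 1] with n hn
    have hn1 : (1 : ℝ) ≤ n := by exact_mod_cast hn
    have hn0 : (0 : ℝ) < n := by linarith
    have h2 := H.Hv.avg_ge (γ := γ) (n := n) hn (δ := 1 / (n : ℝ) ^ 4)
      (b := 0) (by positivity)
      (by rw [div_le_one (by positivity)]; exact one_le_pow₀ hn1) h0.le le_rfl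
      (fun T => (T.diam : ℝ) ≤ (n : ℝ) ^ ((1 - γ) / 2 + ε))
    have e0 : (n : ℝ) ^ 2 * (1 / (n : ℝ) ^ 4) ≤ 1 / (n : ℝ) := by
      have e1 : (n : ℝ) ^ 2 * (1 / (n : ℝ) ^ 4) = 1 / (n : ℝ) ^ 2 := by field_simp
      rw [e1]
      apply one_div_le_one_div_of_le hn0
      exact le_self_pow₀ hn1 (by norm_num)
    linarith
  · filter_upwards with n
    exact avgw_le_one (fun u => Real.exp_pos _) (by fun_prop) _

/-- the exponent of the diameter -/
theorem sharp_heavy (γ : ℝ) (h0 : 0 < γ) (h1 : γ < 1 / 3) : HasExponent γ ((1 - γ) / 2) := by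
  intro ε hε
  have h2 := H.heavy_two_sided γ h0 h1 ε hε
  have h3 := upper_heavy γ h0 h1 ε hε
  have e : 1 / 2 - γ / 2 - ε = (1 - γ) / 2 - ε := by ring
  rw [e] at h2
  simp_rw [H.Hv.avg_eq] at h2 ⊢
  exact RsExp.inter_tendsto (w := fun _ u => Real.exp (u ^ (-γ))) (fun _ u => Real.exp_pos _)
    (fun _ => by fun_prop) (fun n T _ ha hb => ⟨ha.1, hb⟩) h2 h3

end

end Pool.Agent.TH972.U
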