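import Pool.Agent.TH972.U.VDef

/-!
# Hitting sets of large capacity
-/

set_option autoImplicit false
set_option linter.unusedSectionVars false

namespace Pool.Agent.TH972.U

open Finset

noncomputable section

variable {V : Type} [Fintype V] [DecidableEq V]

open Grn Grn2

namespace HitP

/-- the potential of `g` -/
def pot (N : Net V) (D : Finset V) (g : V → ℝ) (x : V) : ℝ := ∑ y, grn N D x y * g y

theorem pot_eq (N : Net V) {D : Finset V} (g : V → ℝ) {x : V} (hx : x ∉ D) :
    (cs N.κ x + N.k x) * pot N D g x = g x + ∑ w, Kc N.κ x w * pot N D g w := by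
  unfold pot
  have h1 : ∀ y, (cs N.κ x + N.k x) * grn N D x y =
      (if x = y then 1 else 0) + ∑ w, Kc N.κ x w * grn N D w y := by
    intro y
    by_cases hy : y ∈ D
    · have hxy : x ≠ y := fun h => hx (h ▸ hy)
      rw [grn_right N x hy, mul_zero, if_neg hxy, zero_add]
      exact (Finset.sum_eq_zero fun w _ => by rw [grn_right N w hy, mul_zero]).symm
    · exact grn_eq N hx hy
  have h2 : (cs N.κ x + N.k x) * ∑ y, grn N D x y * g y =
      ∑ y, ((if x = y then g y else 0) + ∑ w, Kc N.κ x w * (grn N D w y * g y)) := by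
    rw [Finset.mul_sum]
    apply Finset.sum_congr rfl
    intro y _
    rw [← mul_assoc, h1, add_mul, Finset.sum_mul]
    congr 1
    · split_ifs <;> ring
    · exact Finset.sum_congr rfl fun w _ => by ring
  rw [h2, Finset.sum_add_distrib, Finset.sum_ite_eq, if_pos (mem_univ x), Finset.sum_comm]
  congr 1
  apply Finset.sum_congr rfl
  intro w _
  rw [Finset.mul_sum]

/-- the operator `P` -/
def T (N : Net V) (f : V → ℝ) (x : V) : ℝ := pot N ∅ (fun y => N.k y * f y) x

theorem T_def (N : Net V) (f : V → ℝ) (x : V) :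
    T N f x = ∑ y, grn N ∅ x y * (N.k y * f y) := rfl

theorem T_eq (N : Net V) (f : V → ℝ) (x : V) :
    (cs N.κ x + N.k x) * T N f x = N.k x * f x + ∑ w, Kc N.κ x w * T N f w :=
  pot_eq N _ (Finset.notMem_empty x)

theorem T_add_const (N : Net V) (f : V → ℝ) (a : ℝ) (x : V) :
    T N (fun y => a + f y) x = a + T N f x := by
  have h1 := surv_empty N x
  unfold surv at h1
  rw [T_def, T_def]
  have h2 : ∀ y, grn N ∅ x y * (N.k y * (a + f y)) =
      (grn N ∅ x y * N.k y) * a + grn N ∅ x y * (N.k y * f y) := fun y => by ring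
  rw [Finset.sum_congr rfl fun y _ => h2 y, Finset.sum_add_distrib, ← Finset.sum_mul, h1, one_mul]

theorem T_mono (N : Net V) {f g : V → ℝ} (h : ∀ y, N.k y ≠ 0 → f y ≤ g y) (x : V) :
    T N f x ≤ T N g x := by
  rw [T_def, T_def]
  refine Finset.sum_le_sum fun y _ => mul_le_mul_of_nonneg_left ?_ (grn_nonneg N ∅ x y)
  by_cases hy : N.k y = 0
  · rw [hy, zero_mul, zero_mul]
  · exact mul_le_mul_of_nonneg_left (h y hy) (N.k_nonneg y)

theorem T_nonneg (N : Net V) {f : V → ℝ} (h : ∀ y, N.k y ≠ 0 → 0 ≤ f y) (x : V) :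
    0 ≤ T N f x := by
  have h1 := T_mono N (f := fun _ => 0) (g := f) h x
  have h2 : T N (fun _ => (0 : ℝ)) x = 0 := by
    rw [T_def]
    exact Finset.sum_eq_zero fun y _ => by ring
  rwa [h2] at h1

theorem row (N : Net V) (y : V) : ∑ x, N.k x * grn N ∅ x y = 1 := by
  have h1 := surv_empty N y
  unfold surv at h1
  rw [← h1]
  refine Finset.sum_congr rfl fun x _ => ?_
  rw [grn_symm N ∅ x y]
  ring

theorem pot_sum (N : Net V) (g : V → ℝ) : ∑ x, N.k x * pot N ∅ g x = ∑ x, g x := by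
  unfold pot
  have h1 : ∀ x, N.k x * ∑ y, grn N ∅ x y * g y = ∑ y, (N.k x * grn N ∅ x y) * g y := by
    intro x
    rw [Finset.mul_sum]
    exact Finset.sum_congr rfl fun y _ => by ring
  rw [Finset.sum_congr rfl fun x _ => h1 x, Finset.sum_comm]
  refine Finset.sum_congr rfl fun y _ => ?_
  rw [← Finset.sum_mul, row, one_mul]

theorem pot_energy (N : Net V) (g : V → ℝ) :
    EK N (pot N ∅ g) = ∑ x, pot N ∅ g x * g x := by
  rw [← EB_self, EB_eq]
  refine Finset.sum_congr rfl fun x _ => ?_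
  rw [pot_eq N g (Finset.notMem_empty x)]
  ring

theorem EB_cs (N : Net V) (f g : V → ℝ) : EB N f g ^ 2 ≤ EK N f * EK N g := by
  have h : ∀ t : ℝ, 0 ≤ EK N g * (t * t) + (-2 * EB N f g) * t + EK N f := by
    intro t
    have h1 := EK_nonneg N (fun x => f x - t * g x)
    rw [EK_sub] at h1
    nlinarith
  have h2 := discrim_le_zero h
  unfold discrim at h2
  nlinarith

variable (P : PN V)

theorem ksum (k : ℝ) (hk : 0 < k) (F : V → ℝ) :
    ∑ y, (P.net k hk).k y * F y = k * ∑ y ∈ P.M, F y := by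
  show ∑ y, (if y ∈ P.M then k else 0) * F y = _
  rw [Finset.mul_sum, ← Finset.sum_subset (Finset.subset_univ P.M)]
  · exact Finset.sum_congr rfl fun y hy => by rw [if_pos hy]
  · intro y _ hy
    rw [if_neg hy, zero_mul]

theorem k_mem (k : ℝ) (hk : 0 < k) {x : V} (hx : x ∈ P.M) : (P.net k hk).k x = k := if_pos hx

theorem k_not_mem (k : ℝ) (hk : 0 < k) {x : V} (hx : x ∉ P.M) : (P.net k hk).k x = 0 :=
  if_neg hx

theorem mem_of_k (k : ℝ) (hk : 0 < k) {x : V} (hx : (P.net k hk).k x ≠ 0) : x ∈ P.M := by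
  by_contra h
  exact hx (k_not_mem P k hk h)

theorem card_pos' : (0 : ℝ) < P.M.card := by exact_mod_cast P.M_ne.card_pos

theorem En_nonneg' (f : V → ℝ) : 0 ≤ En P.κ f := by
  unfold En
  apply div_nonneg _ (by norm_num)
  exact Finset.sum_nonneg fun x _ => Finset.sum_nonneg fun y _ =>
    mul_nonneg (Kc_nonneg (fun e => (P.κ_pos e).le) x y) (sq_nonneg _)

theorem T_sum (k : ℝ) (hk : 0 < k) (f : V → ℝ) :
    ∑ y ∈ P.M, T (P.net k hk) f y = ∑ y ∈ P.M, f y := by
  have h1 := pot_sum (P.net k hk) (fun y => (P.net k hk).k y * f y)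
  rw [ksum P k hk f] at h1
  have h2 := ksum P k hk (fun x => pot (P.net k hk) ∅ (fun y => (P.net k hk).k y * f y) x)
  rw [h1] at h2
  exact (mul_left_cancel₀ hk.ne' h2).symm

/-- contraction on functions with mean zero -/
theorem contract {k : ℝ} (hk : 0 < k) (ht : k * P.t ≤ 1) (f : V → ℝ)
    (h0 : ∑ y ∈ P.M, f y = 0) :
    4 * ∑ y ∈ P.M, T (P.net k hk) f y ^ 2 ≤ ∑ y ∈ P.M, f y ^ 2 := by
  set N := P.net k hk with hN
  set a := ∑ y ∈ P.M, T N f y ^ 2 with ha
  set b := ∑ y ∈ P.M, f y ^ 2 with hb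
  set s := ∑ y ∈ P.M, T N f y * f y with hs
  set E := En P.κ (T N f) with hE
  have h1 : E + k * a = k * s := by
    have e1 := pot_energy N (fun y => N.k y * f y)
    have e2 : EK N (pot N ∅ (fun y => N.k y * f y)) = E + k * a := by
      unfold EK
      have := ksum P k hk (fun x => T N f x ^ 2)
      rw [← hN] at this
      have e3 : ∑ x, N.k x * pot N ∅ (fun y => N.k y * f y) x ^ 2 = k * a := this
      rw [e3]
      rfl
    have e4 : ∑ x, pot N ∅ (fun y => N.k y * f y) x * (N.k x * f x) = k * s := by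
      have := ksum P k hk (fun x => T N f x * f x)
      rw [← hN] at this
      rw [← this]
      exact Finset.sum_congr rfl fun x _ => by
        show T N f x * (N.k x * f x) = _
        ring
    rw [← e2, e1, e4]
  have h2 : a ≤ P.t * E := by
    have e1 := P.poinc (T N f)
    have e2 : ∑ m ∈ P.M, T N f m = 0 := by rw [hN, T_sum, h0]
    rw [e2, zero_div] at e1
    simpa using e1
  have h3 : s ^ 2 ≤ a * b := by
    rw [hs, ha, hb]
    exact Finset.sum_mul_sq_le_sq_mul_sq _ _ _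
  have ha0 : 0 ≤ a := Finset.sum_nonneg fun y _ => sq_nonneg _
  have hb0 : 0 ≤ b := Finset.sum_nonneg fun y _ => sq_nonneg _
  have hθ : 0 < P.t * k := mul_pos P.t_pos hk
  set θ := P.t * k with hθd
  have hθ1 : θ ≤ 1 := by rw [hθd, mul_comm]; exact ht
  have h4 : a * (1 + θ) ≤ θ * s := by
    have : a + P.t * (k * a) ≤ P.t * (E + k * a) := by nlinarith
    rw [h1] at this
    rw [hθd]
    linarith
  have h4b : 2 * a ≤ s := by
    -- a (1+θ) ≤ θ s and θ ≤ 1
    have hs0 : 0 ≤ s := by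
      by_contra hcon
      push Not at hcon
      have := mul_neg_of_pos_of_neg hθ hcon
      have := mul_nonneg ha0 (by linarith : (0 : ℝ) ≤ 1 + θ)
      linarith
    have h5 : a * (1 + θ) ≤ θ * s := h4
    have h6 : 2 * θ * a ≤ a * (1 + θ) := by nlinarith
    have h7 : θ * (2 * a) ≤ θ * s := by linarith
    exact le_of_mul_le_mul_left h7 hθ
  by_cases haz : a = 0
  · rw [haz]
    linarith
  · have hap : 0 < a := lt_of_le_of_ne ha0 (Ne.symm haz)
    have h5 : (2 * a) ^ 2 ≤ a * b := (pow_le_pow_left₀ (by linarith) h4b 2).trans h3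
    have h6 : a * (4 * a) ≤ a * b := by nlinarith
    exact le_of_mul_le_mul_left h6 hap

/-- the iterates -/
theorem iter {k : ℝ} (hk : 0 < k) (ht : k * P.t ≤ 1) (f : V → ℝ) (j : ℕ) {z : V}
    (hz : z ∈ P.M) :
    (T (P.net k hk))^[j] f z ≤ (∑ y ∈ P.M, f y) / P.M.card +
      (1 / 2) ^ j * Real.sqrt (∑ y ∈ P.M, f y ^ 2) := by
  set N := P.net k hk with hN
  set μ := (∑ y ∈ P.M, f y) / P.M.card with hμ
  have hm := card_pos' P
  have hsum : ∀ j, ∑ y ∈ P.M, (T N)^[j] f y = ∑ y ∈ P.M, f y := by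
    intro j
    induction j with
    | zero => rfl
    | succ j ih =>
      rw [Function.iterate_succ_apply', hN, T_sum, ← hN, ih]
  have hvar : ∀ j, ∑ y ∈ P.M, ((T N)^[j] f y - μ) ^ 2 ≤ (1 / 4) ^ j * ∑ y ∈ P.M, f y ^ 2 := by
    intro j
    induction j with
    | zero =>
      have e1 : ∑ y ∈ P.M, (f y - μ) ^ 2 = ∑ y ∈ P.M, f y ^ 2 - P.M.card * μ ^ 2 := by
        have e2 : ∀ y, (f y - μ) ^ 2 = f y ^ 2 - f y * (2 * μ) + μ ^ 2 := fun y => by ring
        rw [Finset.sum_congr rfl fun y _ => e2 y, Finset.sum_add_distrib, Finset.sum_sub_distrib,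
          ← Finset.sum_mul, Finset.sum_const, nsmul_eq_mul]
        have e3 : ∑ y ∈ P.M, f y = P.M.card * μ := by
          rw [hμ]
          field_simp
        rw [e3]
        ring
      have e4 : 0 ≤ P.M.card * μ ^ 2 := by positivity
      simp only [Function.iterate_zero, id_eq, pow_zero, one_mul]
      rw [e1]
      linarith
    | succ j ih =>
      have e1 : ∑ y ∈ P.M, ((T N)^[j] f y - μ) = 0 := by
        rw [Finset.sum_sub_distrib, hsum, Finset.sum_const, nsmul_eq_mul, hμ]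
        field_simp
        ring
      have e2 := contract P hk ht (fun y => (T N)^[j] f y - μ) e1
      have e3 : ∀ y, T N (fun y => (T N)^[j] f y - μ) y = (T N)^[j + 1] f y - μ := by
        intro y
        have := T_add_const N ((T N)^[j] f) (-μ) y
        rw [Function.iterate_succ_apply']
        have e5 : (fun y => (T N)^[j] f y - μ) = fun y => -μ + (T N)^[j] f y := by
          funext y
          ring
        rw [e5, this]
        ring
      rw [← hN] at e2
      simp only [e3] at e2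
      rw [pow_succ]
      linarith
  have h1 : ((T N)^[j] f z - μ) ^ 2 ≤ (1 / 4) ^ j * ∑ y ∈ P.M, f y ^ 2 :=
    (Finset.single_le_sum (f := fun y => ((T N)^[j] f y - μ) ^ 2)
      (fun y _ => sq_nonneg _) hz).trans (hvar j)
  have hb0 : 0 ≤ ∑ y ∈ P.M, f y ^ 2 := Finset.sum_nonneg fun y _ => sq_nonneg _
  have h2 : (1 / 4 : ℝ) ^ j * ∑ y ∈ P.M, f y ^ 2 =
      ((1 / 2) ^ j * Real.sqrt (∑ y ∈ P.M, f y ^ 2)) ^ 2 := by
    rw [mul_pow, Real.sq_sqrt hb0, ← pow_mul, mul_comm j 2, pow_mul]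
    norm_num
  rw [h2] at h1
  have h3 := abs_le_of_sq_le_sq h1 (by positivity)
  have := (abs_le.1 (abs_le_of_sq_le_sq h1 (by positivity))).2
  linarith

/-- iteration of an inequality -/
theorem iter2 {k α : ℝ} (hk : 0 < k) (ht : k * P.t ≤ 1) (u : V → ℝ)
    (h : ∀ z ∈ P.M, u z ≤ α + T (P.net k hk) u z) (j : ℕ) {z : V} (hz : z ∈ P.M) :
    u z ≤ j * α + (∑ y ∈ P.M, u y) / P.M.card +
      (1 / 2) ^ j * Real.sqrt (∑ y ∈ P.M, u y ^ 2) := by
  set N := P.net k hk with hN
  have h1 : ∀ j : ℕ, ∀ z ∈ P.M, u z ≤ j * α + (T N)^[j] u z := by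
    intro j
    induction j with
    | zero =>
      intro z _
      simp
    | succ j ih =>
      intro z hz
      have e1 : T N u z ≤ T N (fun y => j * α + (T N)^[j] u y) z :=
        T_mono N (fun y hy => ih y (mem_of_k P k hk hy)) z
      rw [T_add_const N ((T N)^[j] u) (j * α) z] at e1
      rw [Function.iterate_succ_apply']
      have e2 := h z hz
      push_cast
      linarith
  have h2 := iter P hk ht u j hz
  have h3 := h1 j z hz
  rw [← hN] at h2
  linarith

/-- extension of a bound from `M ∪ D` -/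
theorem extend {k : ℝ} (hk : 0 < k) (D : Finset V) (u : V → ℝ) {B : ℝ}
    (hM : ∀ x ∈ P.M, u x ≤ B) (hD : ∀ x ∈ D, u x ≤ B)
    (h : ∀ x, x ∉ P.M → x ∉ D → cs P.κ x * u x = ∑ w, Kc P.κ x w * u w) (x : V) : u x ≤ B := by
  have h1 := max_pr (P.net k hk) (P.M ∪ D) (fun x => u x - B)
    (fun x hx => by
      rcases Finset.mem_union.1 hx with hx | hx
      · linarith [hM x hx]
      · linarith [hD x hx])
    (fun x hx => by
      rw [Finset.mem_union, not_or] at hx
      have e : ∑ w, Kc (P.net k hk).κ x w * (u w - B) =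
          ∑ w, Kc (P.net k hk).κ x w * u w - cs (P.net k hk).κ x * B := by
        rw [cs_mul, ← Finset.sum_sub_distrib]
        exact Finset.sum_congr rfl fun w _ => by ring
      have e2 : cs (P.net k hk).κ x * u x = ∑ w, Kc (P.net k hk).κ x w * u w :=
        h x hx.1 hx.2
      rw [e, k_not_mem P k hk hx.1, ← e2]
      linarith) x
  linarith

end HitP

open HitP

/-- a set of large capacity is hit before the killing, from every vertex -/
theorem PN.hit (P : PN V) {k1 k2 c : ℝ} (hk1 : 0 < k1) (hk2 : 0 < k2) (h12 : k1 ≤ k2)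
    (ht : k2 * P.t ≤ 1) (D : Finset V) (hc : 0 < c) (hcap : c ≤ P.cap k2 hk2 D) (j : ℕ) (x : V) :
    surv (P.net k1 hk1) D x ≤
      2 * k1 * P.M.card / c + j * (k1 / k2) + (1 / 2) ^ j * Real.sqrt P.M.card := by
  set N1 := P.net k1 hk1 with hN1
  set N2 := P.net k2 hk2 with hN2
  set u := surv N1 D with hu
  set q := surv N2 D with hq
  set p : V → ℝ := fun x => 1 - q x with hp
  set m : ℝ := (P.M.card : ℝ) with hm
  have hm0 : 0 < m := card_pos' P
  have hu0 : ∀ x, 0 ≤ u x := surv_nonneg N1 D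
  have hu1 : ∀ x, u x ≤ 1 := surv_le_one N1 D
  have huD : ∀ x ∈ D, u x = 0 := fun x hx => surv_mem N1 hx
  have hqD : ∀ x ∈ D, q x = 0 := fun x hx => surv_mem N2 hx
  have huh : ∀ x, x ∉ D → (cs P.κ x + N1.k x) * u x = N1.k x + ∑ w, Kc P.κ x w * u w :=
    fun x hx => surv_harm N1 hx
  have hph : ∀ x, x ∉ D → (cs P.κ x + N2.k x) * p x = ∑ w, Kc P.κ x w * p w := by
    intro x hx
    have e1 := harm_one N2 hx
    have e2 : ∑ w, Kc N2.κ x w * (surv N2 D w - 1) = - ∑ w, Kc P.κ x w * p w := by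
      rw [← Finset.sum_neg_distrib]
      refine Finset.sum_congr rfl fun w _ => ?_
      show Kc P.κ x w * (q w - 1) = -(Kc P.κ x w * (1 - q w))
      ring
    rw [e2] at e1
    have e3 : (cs P.κ x + N2.k x) * (q x - 1) = - ∑ w, Kc P.κ x w * p w := e1
    show (cs P.κ x + N2.k x) * (1 - q x) = _
    linarith
  -- (C)
  have hC : ∀ x, u x ≤ k1 / k2 + T N2 u x := by
    have h1 := max_pr N2 D (fun x => u x - (k1 / k2 + T N2 u x))
      (fun x hx => by
        rw [huD x hx]
        have e1 := T_nonneg N2 (f := u) (fun y _ => hu0 y) x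
        have e2 : 0 < k1 / k2 := div_pos hk1 hk2
        linarith)
      (fun x hx => by
        have e1 := huh x hx
        have e2 := T_eq N2 u x
        have e3 : ∑ w, Kc N2.κ x w * (u w - (k1 / k2 + T N2 u w)) =
            ∑ w, Kc P.κ x w * u w - cs P.κ x * (k1 / k2) - ∑ w, Kc N2.κ x w * T N2 u w := by
          have e4 := cs_mul N2 x (k1 / k2)
          have e5 : cs P.κ x * (k1 / k2) = ∑ w, Kc N2.κ x w * (k1 / k2) := e4
          rw [e5, ← Finset.sum_sub_distrib, ← Finset.sum_sub_distrib]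
          refine Finset.sum_congr rfl fun w _ => ?_
          show Kc P.κ x w * _ = Kc P.κ x w * _ - Kc P.κ x w * _ - Kc P.κ x w * _
          ring
        have e6 : cs N2.κ x = cs P.κ x := rfl
        rw [e3]
        rw [e6] at e2 ⊢
        by_cases hx2 : x ∈ P.M
        · have a1 : N1.k x = k1 := k_mem P k1 hk1 hx2
          have a2 : N2.k x = k2 := k_mem P k2 hk2 hx2
          rw [a1] at e1
          rw [a2] at e2 ⊢
          have a3 : k2 * (k1 / k2) = k1 := by field_simp
          have a4 := mul_nonneg hk1.le (hu0 x)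
          nlinarith
        · have a1 : N1.k x = 0 := k_not_mem P k1 hk1 hx2
          have a2 : N2.k x = 0 := k_not_mem P k2 hk2 hx2
          rw [a1] at e1
          rw [a2] at e2 ⊢
          linarith)
    intro x
    linarith [h1 x]
  -- (B)
  set c0 := (∑ y ∈ P.M, u y) / m with hc0
  have hsumu : ∑ y ∈ P.M, u y = m * c0 := by
    rw [hc0]
    field_simp
  have hc00 : 0 ≤ c0 := div_nonneg (Finset.sum_nonneg fun y _ => hu0 y) hm0.le
  have hEu : En P.κ u ≤ k1 * (m * c0) := by
    have e1 : EK N1 u = k1 * ∑ y ∈ P.M, u y := by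
      rw [← EB_self, EB_eq, ← ksum P k1 hk1 u]
      refine Finset.sum_congr rfl fun x _ => ?_
      by_cases hx : x ∈ D
      · rw [huD x hx]
        ring
      · have e2 := huh x hx
        have e3 : (cs N1.κ x + N1.k x) * u x - ∑ w, Kc N1.κ x w * u w = N1.k x := by
          have : (cs N1.κ x + N1.k x) * u x = N1.k x + ∑ w, Kc N1.κ x w * u w := e2
          linarith
        rw [e3]
        ring
    rw [hsumu] at e1
    rw [← e1]
    show En P.κ u ≤ En P.κ u + ∑ x, N1.k x * u x ^ 2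
    have : 0 ≤ ∑ x, N1.k x * u x ^ 2 :=
      Finset.sum_nonneg fun x _ => mul_nonneg (N1.k_nonneg x) (sq_nonneg _)
    linarith
  set C := P.cap k2 hk2 D with hCd
  have hCp : C = k2 * ∑ y ∈ P.M, p y := rfl
  have hC0 : 0 < C := lt_of_lt_of_le hc hcap
  have hEp : EK N2 p = C := by
    have e1 : EB N2 p (fun _ => 1) = C := by
      rw [EB_eq, hCp, ← ksum P k2 hk2 p]
      refine Finset.sum_congr rfl fun x _ => ?_
      have e2 : cs N2.κ x = ∑ w, Kc N2.κ x w := rfl
      simp only [mul_one]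
      rw [e2, add_sub_cancel_left]
      ring
    have e3 : EB N2 q p = 0 := by
      rw [EB_eq]
      refine Finset.sum_eq_zero fun x _ => ?_
      by_cases hx : x ∈ D
      · rw [hqD x hx, zero_mul]
      · have e4 : (cs N2.κ x + N2.k x) * p x = ∑ w, Kc N2.κ x w * p w := hph x hx
        rw [e4, sub_self, mul_zero]
    have e5 : EB N2 p p = EB N2 p (fun _ => 1) - EB N2 q p := by
      rw [EB_symm N2 p (fun _ => 1), EB_eq, EB_eq, EB_eq, ← Finset.sum_sub_distrib]
      refine Finset.sum_congr rfl fun x _ => ?_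
      show (1 - q x) * _ = _
      ring
    rw [← EB_self, e5, e1, e3, sub_zero]
  have hup : EB N2 u p = 0 := by
    rw [EB_eq]
    refine Finset.sum_eq_zero fun x _ => ?_
    by_cases hx : x ∈ D
    · rw [huD x hx, zero_mul]
    · have e4 : (cs N2.κ x + N2.k x) * p x = ∑ w, Kc N2.κ x w * p w := hph x hx
      rw [e4, sub_self, mul_zero]
  have hut : EB N2 (fun x => u x - c0) p = - (c0 * C) := by
    have e1 : EB N2 (fun x => u x - c0) p = EB N2 u p - ∑ x, N2.k x * (c0 * p x) := by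
      unfold EB
      have e2 : ∀ x y, Kc N2.κ x y * (u x - c0 - (u y - c0)) * (p x - p y) =
          Kc N2.κ x y * (u x - u y) * (p x - p y) := fun x y => by ring
      have e3 : ∀ x, N2.k x * (u x - c0) * p x = N2.k x * u x * p x - N2.k x * (c0 * p x) :=
        fun x => by ring
      simp only [e2, e3, Finset.sum_sub_distrib]
      ring
    rw [e1, hup, hN2, ksum P k2 hk2 (fun x => c0 * p x), ← Finset.mul_sum, hCp]
    ring
  have hEut : EK N2 (fun x => u x - c0) ≤ 2 * (k1 * (m * c0)) := by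
    have e1 : EK N2 (fun x => u x - c0) = En P.κ u + k2 * ∑ y ∈ P.M, (u y - c0) ^ 2 := by
      unfold EK
      rw [hN2, ksum P k2 hk2 (fun x => (u x - c0) ^ 2)]
      congr 1
      show En P.κ _ = En P.κ u
      unfold En
      have : ∀ x y, Kc P.κ x y * (u x - c0 - (u y - c0)) ^ 2 = Kc P.κ x y * (u x - u y) ^ 2 :=
        fun x y => by ring
      simp only [this]
    have e2 := P.poinc u
    have e3 : k2 * ∑ y ∈ P.M, (u y - c0) ^ 2 ≤ En P.κ u := by
      have e4 : k2 * ∑ y ∈ P.M, (u y - c0) ^ 2 ≤ k2 * (P.t * En P.κ u) :=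
        mul_le_mul_of_nonneg_left e2 hk2.le
      have e5 : k2 * (P.t * En P.κ u) ≤ 1 * En P.κ u := by
        rw [← mul_assoc]
        exact mul_le_mul_of_nonneg_right ht (En_nonneg' P u)
      linarith
    rw [e1]
    linarith
  have hc0le : c0 ≤ 2 * k1 * m / c := by
    have e1 := EB_cs N2 (fun x => u x - c0) p
    rw [hut, hEp] at e1
    have e2 : (-(c0 * C)) ^ 2 ≤ 2 * (k1 * (m * c0)) * C :=
      e1.trans (mul_le_mul_of_nonneg_right hEut hC0.le)
    rw [le_div_iff₀ hc]
    rcases hc00.eq_or_lt with h0 | h0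
    · rw [← h0]
      have := mul_pos (mul_pos two_pos hk1) hm0
      linarith
    · have e3 : (c0 * C) * (c0 * C) ≤ (c0 * C) * (2 * k1 * m) := by nlinarith
      have e4 := le_of_mul_le_mul_left e3 (mul_pos h0 hC0)
      have e5 := mul_le_mul_of_nonneg_left hcap h0.le
      linarith
  set B : ℝ := 2 * k1 * m / c + j * (k1 / k2) + (1 / 2) ^ j * Real.sqrt m with hB
  have hB0 : 0 ≤ B := by
    have b1 : 0 ≤ 2 * k1 * m / c :=
      div_nonneg (mul_nonneg (mul_nonneg two_pos.le hk1.le) hm0.le) hc.le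
    have b2 : 0 ≤ (j : ℝ) * (k1 / k2) :=
      mul_nonneg (Nat.cast_nonneg j) (div_nonneg hk1.le hk2.le)
    have b3 : 0 ≤ (1 / 2 : ℝ) ^ j * Real.sqrt m :=
      mul_nonneg (pow_nonneg (by norm_num) j) (Real.sqrt_nonneg m)
    exact add_nonneg (add_nonneg b1 b2) b3
  have hMle : ∀ z ∈ P.M, u z ≤ B := by
    intro z hz
    have e1 := iter2 P hk2 ht u (fun z _ => hC z) j hz
    have e2 : Real.sqrt (∑ y ∈ P.M, u y ^ 2) ≤ Real.sqrt m := by
      apply Real.sqrt_le_sqrt
      calc ∑ y ∈ P.M, u y ^ 2 ≤ ∑ y ∈ P.M, (1 : ℝ) :=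
            Finset.sum_le_sum fun y _ => pow_le_one₀ (hu0 y) (hu1 y)
        _ = m := by rw [Finset.sum_const, nsmul_eq_mul, mul_one]
    have e3 : (1 / 2 : ℝ) ^ j * Real.sqrt (∑ y ∈ P.M, u y ^ 2) ≤ (1 / 2) ^ j * Real.sqrt m :=
      mul_le_mul_of_nonneg_left e2 (by positivity)
    have e4 : (∑ y ∈ P.M, u y) / (P.M.card : ℝ) = c0 := rfl
    rw [e4] at e1
    rw [hB]
    linarith
  exact extend P hk1 D u hMle (fun x hx => by rw [huD x hx]; exact hB0) (fun x hx1 hx2 => by
    have e1 := huh x hx2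
    have e2 : N1.k x = 0 := k_not_mem P k1 hk1 hx1
    rw [e2] at e1
    linarith) x

/-- the square of the Green function -/
theorem PN.green_sq (P : PN V) {k1 k2 g : ℝ} (hk1 : 0 < k1) (hk2 : 0 < k2) (h12 : k1 ≤ k2)
    (ht : k2 * P.t ≤ 1) (hg : ∀ y ∈ P.M, grn (P.net k1 hk1) ∅ y y ≤ g) (j : ℕ) (x x' : V) :
    ∑ y ∈ P.M, grn (P.net k1 hk1) ∅ x y * grn (P.net k1 hk1) ∅ x' y ≤
      j * (g / k2) + 1 / (k1 ^ 2 * P.M.card) + (1 / 2) ^ j / k1 ^ 2 := by
  set N1 := P.net k1 hk1 with hN1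
  set N2 := P.net k2 hk2 with hN2
  set m : ℝ := (P.M.card : ℝ) with hm
  have hm0 : 0 < m := card_pos' P
  set G : V → ℝ := fun y => if y ∈ P.M then grn N1 ∅ x' y else 0 with hG
  set v : V → ℝ := pot N1 ∅ G with hv
  have hvx : ∀ x, v x = ∑ y ∈ P.M, grn N1 ∅ x y * grn N1 ∅ x' y := by
    intro x
    show ∑ y, grn N1 ∅ x y * (if y ∈ P.M then grn N1 ∅ x' y else 0) = _
    rw [← Finset.sum_subset (Finset.subset_univ P.M)]
    · exact Finset.sum_congr rfl fun y hy => by rw [if_pos hy]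
    · intro y _ hy
      rw [if_neg hy, mul_zero]
  have hv0 : ∀ x, 0 ≤ v x := by
    intro x
    rw [hvx]
    exact Finset.sum_nonneg fun y _ => mul_nonneg (grn_nonneg _ _ _ _) (grn_nonneg _ _ _ _)
  have hg0 : 0 ≤ g := by
    obtain ⟨y, hy⟩ := P.M_ne
    exact (grn_nonneg N1 ∅ y y).trans (hg y hy)
  have hC : ∀ x, v x ≤ g / k2 + T N2 v x := by
    have h1 := max_pr N2 ∅ (fun x => v x - (g / k2 + T N2 v x))
      (fun x hx => by simp at hx)
      (fun x hx => by
        have e1 : (cs P.κ x + N1.k x) * v x = G x + ∑ w, Kc P.κ x w * v w :=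
          pot_eq N1 G (Finset.notMem_empty x)
        have e2 := T_eq N2 v x
        have e3 : ∑ w, Kc N2.κ x w * (v w - (g / k2 + T N2 v w)) =
            ∑ w, Kc P.κ x w * v w - cs P.κ x * (g / k2) - ∑ w, Kc N2.κ x w * T N2 v w := by
          have e5 : cs P.κ x * (g / k2) = ∑ w, Kc N2.κ x w * (g / k2) := cs_mul N2 x (g / k2)
          rw [e5, ← Finset.sum_sub_distrib, ← Finset.sum_sub_distrib]
          refine Finset.sum_congr rfl fun w _ => ?_
          show Kc P.κ x w * _ = Kc P.κ x w * _ - Kc P.κ x w * _ - Kc P.κ x w * _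
          ring
        have e6 : cs N2.κ x = cs P.κ x := rfl
        rw [e3]
        rw [e6] at e2 ⊢
        by_cases hx2 : x ∈ P.M
        · have a1 : N1.k x = k1 := k_mem P k1 hk1 hx2
          have a2 : N2.k x = k2 := k_mem P k2 hk2 hx2
          have a5 : G x ≤ g := by
            show (if x ∈ P.M then grn N1 ∅ x' x else 0) ≤ g
            rw [if_pos hx2]
            exact (grn_le_diag N1 ∅ x' x).trans (hg x hx2)
          rw [a1] at e1
          rw [a2] at e2 ⊢
          have a3 : k2 * (g / k2) = g := by field_simp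
          have a4 := mul_nonneg hk1.le (hv0 x)
          nlinarith
        · have a1 : N1.k x = 0 := k_not_mem P k1 hk1 hx2
          have a2 : N2.k x = 0 := k_not_mem P k2 hk2 hx2
          have a5 : G x = 0 := if_neg hx2
          rw [a1, a5] at e1
          rw [a2] at e2 ⊢
          linarith)
    intro x
    linarith [h1 x]
  have hsumG : k1 * ∑ y ∈ P.M, grn N1 ∅ x' y = 1 := by
    have e1 := surv_empty N1 x'
    unfold surv at e1
    have e2 := ksum P k1 hk1 (fun y => grn N1 ∅ x' y)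
    rw [← e2, ← e1]
    exact Finset.sum_congr rfl fun y _ => by
      show N1.k y * _ = _
      ring
  have hsumv : k1 ^ 2 * ∑ y ∈ P.M, v y = 1 := by
    have e1 := pot_sum N1 G
    have e2 := ksum P k1 hk1 v
    have e3 : ∑ x, N1.k x * v x = ∑ x, G x := e1
    have e4 : ∑ x, G x = ∑ y ∈ P.M, grn N1 ∅ x' y := by
      rw [← Finset.sum_subset (Finset.subset_univ P.M)]
      · exact Finset.sum_congr rfl fun y hy => if_pos hy
      · intro y _ hy
        exact if_neg hy
    have e5 : k1 * ∑ y ∈ P.M, v y = ∑ y ∈ P.M, grn N1 ∅ x' y := by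
      rw [← e2, ← e4]
      exact e3
    rw [pow_two, mul_assoc, e5, hsumG]
  have hk12 : 0 < k1 ^ 2 := by positivity
  have hsv : ∑ y ∈ P.M, v y = 1 / k1 ^ 2 := by
    rw [eq_div_iff hk12.ne', mul_comm]
    exact hsumv
  have hMle : ∀ z ∈ P.M, v z ≤ j * (g / k2) + 1 / (k1 ^ 2 * m) + (1 / 2) ^ j / k1 ^ 2 := by
    intro z hz
    have e1 := iter2 P hk2 ht v (fun z _ => hC z) j hz
    have e2 : Real.sqrt (∑ y ∈ P.M, v y ^ 2) ≤ 1 / k1 ^ 2 := by
      rw [← hsv]
      apply Real.sqrt_le_iff.2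
      refine ⟨Finset.sum_nonneg fun y _ => hv0 y, ?_⟩
      have e3 : ∀ y ∈ P.M, v y ^ 2 ≤ v y * ∑ w ∈ P.M, v w := by
        intro y hy
        rw [pow_two]
        exact mul_le_mul_of_nonneg_left
          (Finset.single_le_sum (f := v) (fun w _ => hv0 w) hy) (hv0 y)
      calc ∑ y ∈ P.M, v y ^ 2 ≤ ∑ y ∈ P.M, v y * ∑ w ∈ P.M, v w := Finset.sum_le_sum e3
        _ = (∑ y ∈ P.M, v y) ^ 2 := by rw [← Finset.sum_mul, pow_two]
    have e3 : (1 / 2 : ℝ) ^ j * Real.sqrt (∑ y ∈ P.M, v y ^ 2) ≤ (1 / 2) ^ j * (1 / k1 ^ 2) :=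
      mul_le_mul_of_nonneg_left e2 (by positivity)
    have e4 : (∑ y ∈ P.M, v y) / (P.M.card : ℝ) = 1 / (k1 ^ 2 * m) := by
      rw [hsv, ← hm]
      field_simp
    have e5 : (1 / 2 : ℝ) ^ j * (1 / k1 ^ 2) = (1 / 2) ^ j / k1 ^ 2 := by ring
    rw [e4] at e1
    rw [e5] at e3
    linarith
  have h1 := extend P hk1 ∅ v hMle (fun x hx => by simp at hx) (fun x hx1 _ => by
    have e1 : (cs P.κ x + N1.k x) * v x = G x + ∑ w, Kc P.κ x w * v w :=
      pot_eq N1 G (Finset.notMem_empty x)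
    have a1 : N1.k x = 0 := k_not_mem P k1 hk1 hx1
    have a5 : G x = 0 := if_neg hx1
    rw [a1, a5] at e1
    linarith) x
  rw [hvx] at h1
  exact h1

end

end Pool.Agent.TH972.U
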