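import Pool.Agent.TH972.U.PDef

/-!
# Loop-erased path expansions
-/

set_option autoImplicit false
set_option linter.unusedSectionVars false

namespace Pool.Agent.TH972.U

open Finset

noncomputable section

variable {V : Type} [Fintype V] [DecidableEq V]

namespace LEx

open Grn

lemma card_insert_lt {D : Finset V} {x : V} (hx : x ∉ D) :
    (univ \ insert x D).card < (univ \ D).card := by
  apply Finset.card_lt_card
  rw [Finset.ssubset_iff_of_subset (Finset.sdiff_subset_sdiff (Finset.Subset.refl _)
    (Finset.subset_insert x D))]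
  refine ⟨x, ?_, ?_⟩
  · rw [Finset.mem_sdiff]
    exact ⟨mem_univ x, hx⟩
  · rw [Finset.mem_sdiff]
    intro h
    exact h.2 (Finset.mem_insert_self x D)

/-- induction on the complement of `D` -/
lemma ind {P : Finset V → V → Prop}
    (h : ∀ D x, (x ∉ D → ∀ w, P (insert x D) w) → P D x) : ∀ D x, P D x := by
  have key : ∀ n : ℕ, ∀ D : Finset V, (univ \ D).card = n → ∀ x, P D x := by
    intro n
    induction n using Nat.strong_induction_on with
    | _ n ih =>
      intro D hD x
      refine h D x fun hx w => ?_
      exact ih _ (hD ▸ card_insert_lt hx) (insert x D) rfl w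
  intro D x
  exact key _ D rfl x

lemma fuel (N : Net V) : ∀ (s s' : ℕ) (D : Finset V) (x : V) (F : List V → ℝ),
    (univ \ D).card < s → (univ \ D).card < s' → psumF N s D x F = psumF N s' D x F := by
  intro s
  induction s with
  | zero => intro s' D x F h; exact absurd h (Nat.not_lt_zero _)
  | succ s ih =>
    intro s' D x F h h'
    cases s' with
    | zero => exact absurd h' (Nat.not_lt_zero _)
    | succ s' =>
      unfold psumF
      by_cases hx : x ∈ D
      · rw [if_pos hx, if_pos hx]
      · rw [if_neg hx, if_neg hx]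
        have hlt := card_insert_lt hx
        congr 2
        apply Finset.sum_congr rfl
        intro w _
        rw [ih s' (insert x D) w _ (by omega) (by omega)]

end LEx

open Grn LEx

theorem psum_mem (N : Net V) {D : Finset V} {x : V} (hx : x ∈ D) (F : List V → ℝ) :
    psum N D x F = 0 := by
  unfold psum psumF
  rw [if_pos hx]

theorem psum_eq (N : Net V) {D : Finset V} {x : V} (hx : x ∉ D) (F : List V → ℝ) :
    psum N D x F = grn N D x x *
      (F [x] + ∑ w, Kc N.κ x w * psum N (insert x D) w (fun η => F (x :: η))) := by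
  have hlt := card_insert_lt hx
  have hle : (univ \ D).card ≤ Fintype.card V := by
    rw [← Finset.card_univ]
    exact Finset.card_le_card (Finset.subset_univ _)
  have h1 : psum N D x F = grn N D x x *
      (F [x] + ∑ w, Kc N.κ x w * psumF N (Fintype.card V) (insert x D) w
        (fun η => F (x :: η))) := by
    unfold psum
    rw [psumF, if_neg hx]
  rw [h1]
  congr 2
  apply Finset.sum_congr rfl
  intro w _
  unfold psum
  rw [fuel N (Fintype.card V) (Fintype.card V + 1) (insert x D) w _ (by omega) (by omega)]

theorem psum_nonneg (N : Net V) (D : Finset V) (x : V) {F : List V → ℝ} (hF : ∀ π, 0 ≤ F π) :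
    0 ≤ psum N D x F := by
  revert F
  refine LEx.ind (P := fun D x => ∀ {F : List V → ℝ}, (∀ π, 0 ≤ F π) → 0 ≤ psum N D x F) ?_ D x
  intro D x ih F hF
  by_cases hx : x ∈ D
  · rw [psum_mem N hx]
  · rw [psum_eq N hx]
    refine mul_nonneg (grn_nonneg N D x x) (add_nonneg (hF _) (Finset.sum_nonneg fun w _ =>
      mul_nonneg (Kc_nn N x w) (ih hx w fun π => hF _)))

/-- monotone in the functional; only simple paths from `x` outside `D` matter -/
theorem psum_mono (N : Net V) (D : Finset V) (x : V) {F G : List V → ℝ}
    (h : ∀ π : List V, π.Nodup → (∀ z ∈ π, z ∉ D) → π.head? = some x → F π ≤ G π) :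
    psum N D x F ≤ psum N D x G := by
  revert F G
  refine LEx.ind (P := fun D x => ∀ {F G : List V → ℝ},
    (∀ π : List V, π.Nodup → (∀ z ∈ π, z ∉ D) → π.head? = some x → F π ≤ G π) →
      psum N D x F ≤ psum N D x G) ?_ D x
  intro D x ih F G h
  by_cases hx : x ∈ D
  · rw [psum_mem N hx, psum_mem N hx]
  · rw [psum_eq N hx, psum_eq N hx]
    refine mul_le_mul_of_nonneg_left (add_le_add ?_ (Finset.sum_le_sum fun w _ =>
      mul_le_mul_of_nonneg_left (ih hx w ?_) (Kc_nn N x w))) (grn_nonneg N D x x)
    · refine h [x] (List.nodup_singleton x) ?_ rfl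
      intro z hz
      rw [List.mem_singleton] at hz
      rwa [hz]
    · intro η hη1 hη2 hη3
      refine h (x :: η) ?_ ?_ rfl
      · rw [List.nodup_cons]
        exact ⟨fun hxη => hη2 x hxη (Finset.mem_insert_self x D), hη1⟩
      · intro z hz
        rcases List.mem_cons.1 hz with rfl | hz
        · exact hx
        · exact fun hzD => hη2 z hz (Finset.mem_insert_of_mem hzD)

theorem psum_congr (N : Net V) (D : Finset V) (x : V) {F G : List V → ℝ}
    (h : ∀ π : List V, π.Nodup → (∀ z ∈ π, z ∉ D) → π.head? = some x → F π = G π) :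
    psum N D x F = psum N D x G :=
  le_antisymm (psum_mono N D x fun π h1 h2 h3 => (h π h1 h2 h3).le)
    (psum_mono N D x fun π h1 h2 h3 => (h π h1 h2 h3).ge)

theorem psum_add (N : Net V) (D : Finset V) (x : V) (F G : List V → ℝ) :
    psum N D x (fun π => F π + G π) = psum N D x F + psum N D x G := by
  revert F G
  refine LEx.ind (P := fun D x => ∀ F G : List V → ℝ,
    psum N D x (fun π => F π + G π) = psum N D x F + psum N D x G) ?_ D x
  intro D x ih F G
  by_cases hx : x ∈ D
  · rw [psum_mem N hx, psum_mem N hx, psum_mem N hx, add_zero]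
  · rw [psum_eq N hx, psum_eq N hx F, psum_eq N hx G]
    have h1 : ∑ w, Kc N.κ x w * psum N (insert x D) w (fun η => F (x :: η) + G (x :: η)) =
        ∑ w, Kc N.κ x w * psum N (insert x D) w (fun η => F (x :: η)) +
        ∑ w, Kc N.κ x w * psum N (insert x D) w (fun η => G (x :: η)) := by
      rw [← Finset.sum_add_distrib]
      apply Finset.sum_congr rfl
      intro w _
      rw [ih hx w (fun η => F (x :: η)) (fun η => G (x :: η))]
      ring
    rw [h1]
    ring

theorem psum_const_mul (N : Net V) (D : Finset V) (x : V) (c : ℝ) (F : List V → ℝ) :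
    psum N D x (fun π => c * F π) = c * psum N D x F := by
  revert F
  refine LEx.ind (P := fun D x => ∀ F : List V → ℝ,
    psum N D x (fun π => c * F π) = c * psum N D x F) ?_ D x
  intro D x ih F
  by_cases hx : x ∈ D
  · rw [psum_mem N hx, psum_mem N hx, mul_zero]
  · rw [psum_eq N hx, psum_eq N hx F]
    have h1 : ∑ w, Kc N.κ x w * psum N (insert x D) w (fun η => c * F (x :: η)) =
        c * ∑ w, Kc N.κ x w * psum N (insert x D) w (fun η => F (x :: η)) := by
      rw [Finset.mul_sum]
      apply Finset.sum_congr rfl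
      intro w _
      rw [ih hx w (fun η => F (x :: η))]
      ring
    rw [h1]
    ring

theorem psum_zero (N : Net V) (D : Finset V) (x : V) : psum N D x (fun _ => 0) = 0 := by
  have h := psum_const_mul N D x 0 (fun _ => 0)
  simpa using h

theorem psum_sum (N : Net V) (D : Finset V) (x : V) {ι : Type} (s : Finset ι)
    (F : ι → List V → ℝ) :
    psum N D x (fun π => ∑ i ∈ s, F i π) = ∑ i ∈ s, psum N D x (F i) := by
  classical
  induction s using Finset.induction_on with
  | empty => simp only [Finset.sum_empty]; exact psum_zero N D x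
  | insert a s ha ih =>
    simp only [Finset.sum_insert ha]
    rw [psum_add N D x (F a) (fun π => ∑ i ∈ s, F i π), ih]

theorem psum_anti (N : Net V) {D D' : Finset V} (h : D ⊆ D') (x : V) {F : List V → ℝ}
    (hF : ∀ π, 0 ≤ F π) : psum N D' x F ≤ psum N D x F := by
  revert D' F
  refine LEx.ind (P := fun D x => ∀ {D' : Finset V}, D ⊆ D' → ∀ {F : List V → ℝ},
    (∀ π, 0 ≤ F π) → psum N D' x F ≤ psum N D x F) ?_ D x
  intro D x ih D' h F hF
  by_cases hx' : x ∈ D'
  · rw [psum_mem N hx']
    exact psum_nonneg N D x hF
  · have hx : x ∉ D := fun hx => hx' (h hx)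
    rw [psum_eq N hx, psum_eq N hx']
    refine mul_le_mul (grn_anti N h x x) (add_le_add le_rfl (Finset.sum_le_sum fun w _ =>
      mul_le_mul_of_nonneg_left (ih hx w (Finset.insert_subset_insert x h) fun π => hF _)
        (Kc_nn N x w))) ?_ (grn_nonneg N D x x)
    exact add_nonneg (hF _) (Finset.sum_nonneg fun w _ =>
      mul_nonneg (Kc_nn N x w) (psum_nonneg N _ _ fun π => hF _))

namespace LEx

lemma grn_step (N : Net V) {D : Finset V} {x : V} (hx : x ∉ D) (z : V) :
    grn N D x z = grn N D x x *
      ((if x = z then 1 else 0) + ∑ w, Kc N.κ x w * grn N (insert x D) w z) := by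
  have hG := (grn_pos N hx).ne'
  by_cases hzx : x = z
  · subst hzx
    have h0 : ∑ w, Kc N.κ x w * grn N (insert x D) w x = 0 :=
      Finset.sum_eq_zero fun w _ => by rw [grn_right N w (Finset.mem_insert_self x D), mul_zero]
    rw [if_pos rfl, h0, add_zero, mul_one]
  by_cases hz : z ∈ D
  · have h0 : ∑ w, Kc N.κ x w * grn N (insert x D) w z = 0 :=
      Finset.sum_eq_zero fun w _ => by
        rw [grn_right N w (Finset.mem_insert_of_mem hz), mul_zero]
    rw [if_neg hzx, h0, grn_right N x hz]
    ring
  have h2 : ∑ w, Kc N.κ x w * grn N (insert x D) w z =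
      ∑ w, Kc N.κ x w * grn N D w z -
        (∑ w, Kc N.κ x w * grn N D w x) * (grn N D x z / grn N D x x) := by
    rw [Finset.sum_mul, ← Finset.sum_sub_distrib]
    exact Finset.sum_congr rfl fun w _ => by rw [grn_insert N hx]; ring
  have h3 := grn_eq N hx hz
  have h4 := grn_eq N hx hx
  rw [if_neg hzx, zero_add] at h3
  rw [if_pos rfl] at h4
  have h5 : ∑ w, Kc N.κ x w * grn N D w x = (cs N.κ x + N.k x) * grn N D x x - 1 := by
    linarith
  rw [if_neg hzx, h2, ← h3, h5]
  field_simp
  ring

lemma lastf_cons (g : V → ℝ) (x : V) {η : List V} (hη : η ≠ []) :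
    lastf g (x :: η) = lastf g η := by
  cases η with
  | nil => exact absurd rfl hη
  | cons a t =>
    unfold lastf
    rw [List.getLast?_cons_cons]

lemma lastf_singleton (g : V → ℝ) (x : V) : lastf g [x] = g x := rfl

lemma lastf_nonneg {g : V → ℝ} (hg : ∀ x, 0 ≤ g x) (π : List V) : 0 ≤ lastf g π := by
  unfold lastf
  cases π.getLast? with
  | none => exact le_rfl
  | some z => exact hg z

lemma ne_nil_of_head {η : List V} {w : V} (h : η.head? = some w) : η ≠ [] := by
  rintro rfl
  simp at h

end LEx

/-- summing over the paths with a given tip gives the Green function -/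
theorem psum_tip (N : Net V) (D : Finset V) (x : V) (g : V → ℝ) :
    psum N D x (lastf g) = ∑ z, grn N D x z * g z := by
  refine LEx.ind (P := fun D x => psum N D x (lastf g) = ∑ z, grn N D x z * g z) ?_ D x
  intro D x ih
  by_cases hx : x ∈ D
  · rw [psum_mem N hx]
    exact (Finset.sum_eq_zero fun z _ => by rw [grn_left N z hx, zero_mul]).symm
  · rw [psum_eq N hx, lastf_singleton]
    have h1 : ∑ w, Kc N.κ x w * psum N (insert x D) w (fun η => lastf g (x :: η)) =
        ∑ w, Kc N.κ x w * ∑ z, grn N (insert x D) w z * g z := by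
      apply Finset.sum_congr rfl
      intro w _
      rw [← ih hx w]
      congr 1
    have h2 : ∀ z, grn N D x z * g z = grn N D x x *
        ((if x = z then g z else 0) + ∑ w, Kc N.κ x w * (grn N (insert x D) w z * g z)) := by
      intro z
      rw [grn_step N hx z]
      have e : ∑ w, Kc N.κ x w * (grn N (insert x D) w z * g z) =
          (∑ w, Kc N.κ x w * grn N (insert x D) w z) * g z := by
        rw [Finset.sum_mul]
        exact Finset.sum_congr rfl fun w _ => by ring
      rw [e]
      split_ifs <;> ring
    rw [h1]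
    simp only [h2]
    rw [← Finset.mul_sum, Finset.sum_add_distrib, Finset.sum_ite_eq, if_pos (mem_univ x),
      Finset.sum_comm]
    congr 2
    exact Finset.sum_congr rfl fun w _ => by rw [Finset.mul_sum]

theorem psum_surv (N : Net V) (D : Finset V) (x : V) : psum N D x (lastf N.k) = surv N D x :=
  psum_tip N D x N.k

theorem psum_one (N : Net V) (x : V) : psum N ∅ x (lastf N.k) = 1 := by
  rw [psum_surv, surv_empty]

namespace LEx

lemma exch (N : Net V) {S : Finset V} {u v : V} (hu : u ∉ S) (hv : v ∉ S) :
    grn N (insert u S) v v * grn N S u u = grn N (insert v S) u u * grn N S v v := by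
  have h1 := (grn_pos N hu).ne'
  have h2 := (grn_pos N hv).ne'
  rw [grn_insert N hu, grn_insert N hv, grn_symm N S u v]
  field_simp

end LEx

theorem dG_cons (N : Net V) {D : Finset V} {v : V} {t : List V} (hv : v ∉ D)
    (ht : (v :: t).Nodup) (htD : ∀ z ∈ t, z ∉ D) :
    dG N D (v :: t) = grn N D v v * dG N (insert v D) t := by
  induction t with
  | nil => simp [dG]
  | cons u t ih =>
    rw [List.nodup_cons, List.nodup_cons] at ht
    obtain ⟨h1, h2, h3⟩ := ht
    rw [List.mem_cons, not_or] at h1
    have hih := ih (List.nodup_cons.2 ⟨h1.2, h3⟩) fun z hz => htD z (List.mem_cons_of_mem u hz)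
    have huS : u ∉ D ∪ t.toFinset := by
      rw [Finset.mem_union, List.mem_toFinset, not_or]
      exact ⟨htD u List.mem_cons_self, h2⟩
    have hvS : v ∉ D ∪ t.toFinset := by
      rw [Finset.mem_union, List.mem_toFinset, not_or]
      exact ⟨hv, h1.2⟩
    have e1 : D ∪ (u :: t).toFinset = insert u (D ∪ t.toFinset) := by
      rw [List.toFinset_cons, Finset.union_insert]
    have e2 : insert v D ∪ t.toFinset = insert v (D ∪ t.toFinset) := by
      rw [Finset.insert_union]
    have d1 : dG N D (v :: u :: t) = grn N (D ∪ (u :: t).toFinset) v v * dG N D (u :: t) := rfl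
    have d2 : dG N D (u :: t) = grn N (D ∪ t.toFinset) u u * dG N D t := rfl
    have d3 : dG N (insert v D) (u :: t) =
      grn N (insert v D ∪ t.toFinset) u u * dG N (insert v D) t := rfl
    have d4 : dG N D (v :: t) = grn N (D ∪ t.toFinset) v v * dG N D t := rfl
    have hex := exch N huS hvS
    rw [d4] at hih
    rw [d1, d2, d3, e1, e2]
    calc grn N (insert u (D ∪ t.toFinset)) v v * (grn N (D ∪ t.toFinset) u u * dG N D t)
        = (grn N (insert u (D ∪ t.toFinset)) v v * grn N (D ∪ t.toFinset) u u) * dG N D t := by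
          ring
      _ = grn N (insert v (D ∪ t.toFinset)) u u * (grn N (D ∪ t.toFinset) v v * dG N D t) := by
          rw [hex]; ring
      _ = _ := by rw [hih]; ring

theorem dG_nonneg (N : Net V) (D : Finset V) (π : List V) : 0 ≤ dG N D π := by
  induction π with
  | nil => exact zero_le_one
  | cons v t ih =>
    show 0 ≤ grn N (D ∪ t.toFinset) v v * dG N D t
    exact mul_nonneg (grn_nonneg N _ _ _) ih

theorem mem_spaths {m : ℕ} {x : V} {D : Finset V} {π : List V} :
    π ∈ spaths m x D ↔ π.length = m + 1 ∧ π.Nodup ∧ π.head? = some x ∧ ∀ z ∈ π, z ∉ D := by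
  unfold spaths
  rw [Finset.mem_image]
  constructor
  · rintro ⟨p, hp, rfl⟩
    rw [Finset.mem_filter] at hp
    obtain ⟨-, h1, h2, h3⟩ := hp
    refine ⟨by simp, List.nodup_ofFn.2 h2, ?_, ?_⟩
    · rw [List.ofFn_succ, List.head?_cons, h1]
    · intro z hz
      rw [List.mem_ofFn] at hz
      obtain ⟨i, rfl⟩ := hz
      exact h3 i
  · rintro ⟨h1, h2, h3, h4⟩
    refine ⟨fun i => π.get (Fin.cast h1.symm i), ?_, ?_⟩
    · rw [Finset.mem_filter]
      refine ⟨mem_univ _, ?_, ?_, ?_⟩
      · cases π with
        | nil => simp at h3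
        | cons a t =>
          rw [List.head?_cons] at h3
          simpa using h3
      · intro i j hij
        have h5 := (List.nodup_iff_injective_get.1 h2) hij
        exact Fin.cast_injective _ h5
      · intro i
        exact h4 _ (List.get_mem π _)
    · apply List.ext_getElem
      · rw [List.length_ofFn, h1]
      · intro n h5 h6
        rw [List.getElem_ofFn]
        rfl

namespace LEx

lemma spaths_mem {m : ℕ} {x : V} {D : Finset V} (hx : x ∈ D) : spaths m x D = ∅ := by
  rw [Finset.eq_empty_iff_forall_notMem]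
  intro π hπ
  rw [mem_spaths] at hπ
  exact hπ.2.2.2 x (List.mem_of_mem_head? (Option.mem_def.2 hπ.2.2.1)) hx

lemma spaths_zero {x : V} {D : Finset V} (hx : x ∉ D) : spaths 0 x D = {[x]} := by
  ext π
  rw [mem_spaths, Finset.mem_singleton]
  constructor
  · rintro ⟨h1, -, h3, -⟩
    rw [zero_add, List.length_eq_one_iff] at h1
    obtain ⟨a, rfl⟩ := h1
    rw [List.head?_cons] at h3
    rw [Option.some.inj h3]
  · rintro rfl
    refine ⟨rfl, List.nodup_singleton x, rfl, ?_⟩
    intro z hz
    rw [List.mem_singleton] at hz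
    rwa [hz]

lemma spaths_succ {m : ℕ} {x : V} {D : Finset V} (hx : x ∉ D) (f : List V → ℝ) :
    ∑ π ∈ spaths (m + 1) x D, f π =
      ∑ w, ∑ η ∈ spaths m w (insert x D), f (x :: η) := by
  have hdis : ∀ w ∈ (univ : Finset V), ∀ w' ∈ (univ : Finset V), w ≠ w' →
      Disjoint (spaths m w (insert x D)) (spaths m w' (insert x D)) := by
    intro w _ w' _ hww
    rw [Finset.disjoint_left]
    intro η h1 h2
    rw [mem_spaths] at h1 h2
    apply hww
    have := h1.2.2.1.symm.trans h2.2.2.1
    exact Option.some.inj this
  rw [← Finset.sum_biUnion hdis]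
  symm
  apply Finset.sum_bij (fun η _ => x :: η)
  · intro η hη
    rw [Finset.mem_biUnion] at hη
    obtain ⟨w, -, hη⟩ := hη
    rw [mem_spaths] at hη
    obtain ⟨h1, h2, h3, h4⟩ := hη
    rw [mem_spaths]
    refine ⟨by rw [List.length_cons, h1], ?_, rfl, ?_⟩
    · rw [List.nodup_cons]
      exact ⟨fun hxη => h4 x hxη (Finset.mem_insert_self x D), h2⟩
    · intro z hz
      rcases List.mem_cons.1 hz with rfl | hz
      · exact hx
      · exact fun hzD => h4 z hz (Finset.mem_insert_of_mem hzD)
  · intro η _ η' _ h
    exact (List.cons.inj h).2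
  · intro π hπ
    rw [mem_spaths] at hπ
    obtain ⟨h1, h2, h3, h4⟩ := hπ
    cases π with
    | nil => simp at h3
    | cons a η =>
      rw [List.head?_cons] at h3
      have hax : a = x := Option.some.inj h3
      subst hax
      rw [List.nodup_cons] at h2
      rw [List.length_cons] at h1
      cases η with
      | nil => simp at h1
      | cons w t =>
        refine ⟨w :: t, ?_, rfl⟩
        rw [Finset.mem_biUnion]
        refine ⟨w, mem_univ w, ?_⟩
        rw [mem_spaths]
        refine ⟨by omega, h2.2, rfl, ?_⟩
        intro z hz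
        rw [Finset.mem_insert, not_or]
        refine ⟨fun hza => h2.1 (hza ▸ hz), h4 z (List.mem_cons_of_mem _ hz)⟩
  · intro η _
    rfl

lemma spaths_big {m : ℕ} {x : V} {D : Finset V} (hm : Fintype.card V ≤ m) :
    spaths m x D = ∅ := by
  rw [Finset.eq_empty_iff_forall_notMem]
  intro π hπ
  rw [mem_spaths] at hπ
  have h1 := hπ.2.1.length_le_card
  omega

lemma spaths_big' {m : ℕ} {x w : V} {D : Finset V} (hm : Fintype.card V ≤ m + 1) :
    spaths m w (insert x D) = ∅ := by
  rw [Finset.eq_empty_iff_forall_notMem]
  intro π hπ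
  rw [mem_spaths] at hπ
  have h1 : (x :: π).Nodup := by
    rw [List.nodup_cons]
    exact ⟨fun hxη => hπ.2.2.2 x hxη (Finset.mem_insert_self x D), hπ.2.1⟩
  have h2 := h1.length_le_card
  rw [List.length_cons] at h2
  omega

lemma cpr_cons (N : Net V) {x w : V} {η : List V} (h : η.head? = some w) :
    cpr N (x :: η) = Kc N.κ x w * cpr N η := by
  cases η with
  | nil => simp at h
  | cons a t =>
    rw [List.head?_cons] at h
    have haw : a = w := Option.some.inj h
    subst haw
    rfl

end LEx

/-- the sum as a sum over lists -/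
theorem psum_eq_sum (N : Net V) (D : Finset V) (x : V) (F : List V → ℝ) :
    psum N D x F =
      ∑ j ∈ range (Fintype.card V), ∑ π ∈ spaths j x D, cpr N π * dG N D π * F π := by
  revert F
  refine LEx.ind (P := fun D x => ∀ F : List V → ℝ, psum N D x F =
      ∑ j ∈ range (Fintype.card V), ∑ π ∈ spaths j x D, cpr N π * dG N D π * F π) ?_ D x
  intro D x ih F
  by_cases hx : x ∈ D
  · rw [psum_mem N hx]
    exact (Finset.sum_eq_zero fun j _ => by rw [spaths_mem hx, Finset.sum_empty]).symm
  · have hcard : 0 < Fintype.card V := Fintype.card_pos_iff.2 ⟨x⟩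
    obtain ⟨n, hn⟩ : ∃ n, Fintype.card V = n + 1 := ⟨Fintype.card V - 1, by omega⟩
    rw [psum_eq N hx, hn, Finset.sum_range_succ', spaths_zero hx, Finset.sum_singleton]
    have h0 : cpr N [x] * dG N D [x] * F [x] = grn N D x x * F [x] := by
      simp [cpr, dG]
    rw [h0, mul_add, add_comm]
    congr 1
    have h1 : ∀ w, psum N (insert x D) w (fun η => F (x :: η)) =
        ∑ j ∈ range n, ∑ π ∈ spaths j w (insert x D),
          cpr N π * dG N (insert x D) π * F (x :: π) := by
      intro w
      rw [ih hx w (fun η => F (x :: η)), hn, Finset.sum_range_succ, spaths_big' (by omega),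
        Finset.sum_empty, add_zero]
    simp only [h1]
    have h2 : ∀ j, ∑ π ∈ spaths (j + 1) x D, cpr N π * dG N D π * F π =
        ∑ w, ∑ η ∈ spaths j w (insert x D), grn N D x x *
          (Kc N.κ x w * (cpr N η * dG N (insert x D) η * F (x :: η))) := by
      intro j
      rw [spaths_succ hx]
      apply Finset.sum_congr rfl
      intro w _
      apply Finset.sum_congr rfl
      intro η hη
      rw [mem_spaths] at hη
      obtain ⟨-, h3, h4, h5⟩ := hη
      have h6 : (x :: η).Nodup := by
        rw [List.nodup_cons]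
        exact ⟨fun hxη => h5 x hxη (Finset.mem_insert_self x D), h3⟩
      rw [cpr_cons N h4, dG_cons N hx h6 fun z hz hzD => h5 z hz (Finset.mem_insert_of_mem hzD)]
      ring
    simp only [h2]
    rw [Finset.sum_comm, Finset.mul_sum]
    apply Finset.sum_congr rfl
    intro w _
    rw [Finset.mul_sum, Finset.mul_sum]
    apply Finset.sum_congr rfl
    intro j _
    rw [Finset.mul_sum, Finset.mul_sum]

theorem pref_nonneg (N : Net V) (π : List V) : 0 ≤ pref N π := by
  induction π with
  | nil => exact zero_le_one
  | cons v t ih =>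
    cases t with
    | nil => exact zero_le_one
    | cons w t =>
      show 0 ≤ Kc N.κ v w * grn N (insert w t.toFinset) v v * pref N (w :: t)
      exact mul_nonneg (mul_nonneg (Kc_nn N v w) (grn_nonneg N _ _ _)) ih

theorem pref_anti_k (N N' : Net V) (hκ : N'.κ = N.κ) (hk : ∀ x, N.k x ≤ N'.k x) (π : List V) :
    pref N' π ≤ pref N π := by
  induction π with
  | nil => exact le_rfl
  | cons v t ih =>
    cases t with
    | nil => exact le_rfl
    | cons w t =>
      show Kc N'.κ v w * grn N' (insert w t.toFinset) v v * pref N' (w :: t) ≤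
        Kc N.κ v w * grn N (insert w t.toFinset) v v * pref N (w :: t)
      rw [hκ]
      refine mul_le_mul (mul_le_mul_of_nonneg_left (grn_anti_k N N' hκ hk _ _ _) (Kc_nn N v w)) ih
        (pref_nonneg N' _) (mul_nonneg (Kc_nn N v w) (grn_nonneg N _ _ _))

namespace LEx

lemma surv_le (N : Net V) {D : Finset V} {z : V} (hz : z ∉ D) :
    surv N D z * grn N ∅ z z ≤ grn N D z z := by
  have h0 : z ∉ (∅ : Finset V) := Finset.notMem_empty z
  have hG := grn_pos N h0
  have h1 := surv_eq N hz
  have h2 := surv_eq N h0
  rw [surv_empty] at h2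
  have h3 : N.k z + ∑ w, Kc N.κ z w * surv N (insert z D) w ≤
      N.k z + ∑ w, Kc N.κ z w * surv N (insert z ∅) w := by
    refine add_le_add le_rfl (Finset.sum_le_sum fun w _ => mul_le_mul_of_nonneg_left
      (surv_anti N (Finset.insert_subset_insert z (Finset.empty_subset D)) w) (Kc_nn N z w))
  have h4 := mul_le_mul_of_nonneg_right h3 hG.le
  have h5 := mul_le_mul_of_nonneg_left h4 (grn_nonneg N D z z)
  rw [h1]
  calc grn N D z z * (N.k z + ∑ w, Kc N.κ z w * surv N (insert z D) w) * grn N ∅ z z
      = grn N D z z * ((N.k z + ∑ w, Kc N.κ z w * surv N (insert z D) w) * grn N ∅ z z) := by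
        ring
    _ ≤ grn N D z z * ((N.k z + ∑ w, Kc N.κ z w * surv N (insert z ∅) w) * grn N ∅ z z) := h5
    _ = grn N D z z := by
        have : (N.k z + ∑ w, Kc N.κ z w * surv N (insert z ∅) w) * grn N ∅ z z = 1 := by
          rw [mul_comm]; exact h2.symm
        rw [this, mul_one]

open Classical in
lemma prefix_bound (N : Net V) : ∀ (A : List V) (x : V) (D : Finset V) (hA0 : A ≠ []),
    A.Nodup → (∀ z ∈ A, z ∉ D) → A.head? = some x →
    psum N D x (fun ζ => if A <+: ζ then lastf N.k ζ else 0) *
      grn N ∅ (A.getLast hA0) (A.getLast hA0) ≤ cpr N A * dG N D A := by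
  intro A
  induction A with
  | nil => intro x D hA0; exact absurd rfl hA0
  | cons v t ih =>
    intro x D hA0 hnd hD hx
    rw [List.head?_cons] at hx
    have hvx : v = x := Option.some.inj hx
    subst hvx
    have hvD : v ∉ D := hD v List.mem_cons_self
    cases t with
    | nil =>
      have e1 : cpr N [v] * dG N D [v] = grn N D v v := by simp [cpr, dG]
      rw [e1]
      show psum N D v (fun ζ => if [v] <+: ζ then lastf N.k ζ else 0) * grn N ∅ v v ≤ _
      have h1 : psum N D v (fun ζ => if [v] <+: ζ then lastf N.k ζ else 0) ≤ surv N D v := by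
        rw [← psum_surv]
        refine psum_mono N D v fun π _ _ _ => ?_
        split_ifs
        · exact le_rfl
        · exact lastf_nonneg N.k_nonneg π
      exact le_trans (mul_le_mul_of_nonneg_right h1 (grn_nonneg N _ _ _)) (surv_le N hvD)
    | cons w t =>
      have h1 : psum N D v (fun ζ => if (v :: w :: t) <+: ζ then lastf N.k ζ else 0) =
          grn N D v v * (Kc N.κ v w * psum N (insert v D) w
            (fun ζ => if (w :: t) <+: ζ then lastf N.k ζ else 0)) := by
        rw [psum_eq N hvD]
        have h2 : ¬ ((v :: w :: t) <+: [v]) := by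
          intro h
          have := h.length_le
          simp at this
        rw [if_neg h2, zero_add, Finset.sum_eq_single w]
        · congr 2
          refine psum_congr N _ w fun π _ _ h3 => ?_
          rw [lastf_cons N.k v (ne_nil_of_head h3)]
          simp only [List.cons_prefix_cons, true_and]
        · intro w' _ hw'
          have h4 : psum N (insert v D) w'
              (fun η => if (v :: w :: t) <+: (v :: η) then lastf N.k (v :: η) else 0) =
              psum N (insert v D) w' (fun _ => 0) := by
            refine psum_congr N _ w' fun π _ _ h3 => ?_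
            rw [if_neg]
            intro h
            rw [List.cons_prefix_cons] at h
            obtain ⟨r, hr⟩ := h.2
            rw [← hr] at h3
            apply hw'
            simpa using h3.symm
          rw [h4, psum_zero, mul_zero]
        · intro h
          exact absurd (mem_univ w) h
      rw [List.nodup_cons] at hnd
      have h2 := ih w (insert v D) (by simp) hnd.2 (fun z hz => by
        rw [Finset.mem_insert, not_or]
        exact ⟨fun hzv => hnd.1 (hzv ▸ hz), hD z (List.mem_cons_of_mem _ hz)⟩) rfl
      have h3 : dG N D (v :: w :: t) = grn N D v v * dG N (insert v D) (w :: t) :=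
        dG_cons N hvD (List.nodup_cons.2 hnd) fun z hz => hD z (List.mem_cons_of_mem _ hz)
      have h4 : cpr N (v :: w :: t) = Kc N.κ v w * cpr N (w :: t) := rfl
      have h5 : (v :: w :: t).getLast hA0 = (w :: t).getLast (by simp) := by
        rw [List.getLast_cons]
      rw [h1, h3, h4, h5]
      have h6 := mul_le_mul_of_nonneg_left h2
        (mul_nonneg (grn_nonneg N D v v) (Kc_nn N v w))
      calc _ = grn N D v v * Kc N.κ v w * (psum N (insert v D) w
            (fun ζ => if (w :: t) <+: ζ then lastf N.k ζ else 0) *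
              grn N ∅ ((w :: t).getLast (by simp)) ((w :: t).getLast (by simp))) := by ring
        _ ≤ _ := h6
        _ = _ := by ring

lemma pref_eq (N : Net V) : ∀ (A : List V) (hA0 : A ≠ []),
    cpr N A * dG N ∅ A = pref N A * grn N ∅ (A.getLast hA0) (A.getLast hA0) := by
  intro A
  induction A with
  | nil => intro hA0; exact absurd rfl hA0
  | cons v t ih =>
    intro hA0
    cases t with
    | nil => simp [cpr, dG, pref]
    | cons w t =>
      have h1 := ih (by simp)
      have h3 : dG N ∅ (v :: w :: t) = grn N (∅ ∪ (w :: t).toFinset) v v * dG N ∅ (w :: t) := rfl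
      have h4 : cpr N (v :: w :: t) = Kc N.κ v w * cpr N (w :: t) := rfl
      have h6 : pref N (v :: w :: t) =
        Kc N.κ v w * grn N (insert w t.toFinset) v v * pref N (w :: t) := rfl
      have h5 : (v :: w :: t).getLast hA0 = (w :: t).getLast (by simp) := by
        rw [List.getLast_cons]
      rw [h3, h4, h5, h6, Finset.empty_union, List.toFinset_cons]
      linear_combination Kc N.κ v w * grn N (insert w t.toFinset) v v * h1

end LEx

open Classical in
/-- the probability that the loop-erased path starts with `A` is at most `pref N A` -/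
theorem psum_prefix (N : Net V) (x : V) (A : List V) (hA : A.Nodup) (hx : A.head? = some x) :
    psum N ∅ x (fun ζ => if A <+: ζ then lastf N.k ζ else 0) ≤ pref N A := by
  have hA0 := ne_nil_of_head hx
  have h1 := prefix_bound N A x ∅ hA0 hA (fun z _ => Finset.notMem_empty z) hx
  rw [pref_eq N A hA0] at h1
  exact le_of_mul_le_mul_right h1 (grn_pos N (Finset.notMem_empty _))

open Classical in
/-- splitting according to the first `m` edges -/
theorem psum_split (N : Net V) (x : V) (m : ℕ) (P : List V → Prop) :
    psum N ∅ x (fun ζ => if (m + 1 ≤ ζ.length ∧ P (ζ.take (m + 1))) then lastf N.k ζ else 0) ≤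
      ∑ A ∈ (spaths m x ∅).filter P, pref N A := by
  have h1 : ∑ A ∈ (spaths m x ∅).filter P,
      psum N ∅ x (fun ζ => if A <+: ζ then lastf N.k ζ else 0) ≤
      ∑ A ∈ (spaths m x ∅).filter P, pref N A := by
    apply Finset.sum_le_sum
    intro A hA
    rw [Finset.mem_filter, mem_spaths] at hA
    exact psum_prefix N x A hA.1.2.1 hA.1.2.2.1
  refine le_trans ?_ h1
  rw [← psum_sum N ∅ x ((spaths m x ∅).filter P)
    (fun A ζ => if A <+: ζ then lastf N.k ζ else 0)]
  refine psum_mono N ∅ x fun ζ hζ1 _ hζ3 => ?_
  have hnn : ∀ A ∈ (spaths m x ∅).filter P, 0 ≤ (if A <+: ζ then lastf N.k ζ else 0) := by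
    intro A _
    split_ifs
    · exact lastf_nonneg N.k_nonneg ζ
    · exact le_rfl
  split_ifs with hc
  · have hmem : ζ.take (m + 1) ∈ (spaths m x ∅).filter P := by
      rw [Finset.mem_filter, mem_spaths]
      refine ⟨⟨?_, ?_, ?_, fun z _ => Finset.notMem_empty z⟩, hc.2⟩
      · rw [List.length_take, min_eq_left hc.1]
      · exact hζ1.sublist (List.take_sublist _ _)
      · cases ζ with
        | nil => simp at hζ3
        | cons a t => simpa using hζ3
    have h2 := Finset.single_le_sum hnn hmem
    rwa [if_pos (List.take_prefix _ _)] at h2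
  · exact Finset.sum_nonneg hnn

open Classical in
theorem longQ_nonneg (ok : V → V → Prop) (N : Net V) (m : ℕ) (x : V) : 0 ≤ longQ ok N m x := by
  unfold longQ
  refine psum_nonneg N ∅ x fun π => ?_
  split_ifs
  · exact lastf_nonneg N.k_nonneg π
  · exact le_rfl

theorem longQ_anti (ok : V → V → Prop) (N : Net V) {m m' : ℕ} (h : m ≤ m') (x : V) :
    longQ ok N m' x ≤ longQ ok N m x := by
  unfold longQ
  refine psum_mono N ∅ x fun π _ _ _ => ?_
  split_ifs with h1 h2
  · exact le_rfl
  · exfalso
    apply h2
    obtain ⟨h3, h4⟩ := h1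
    refine ⟨by omega, ?_⟩
    have h5 : π.take (m + 1) = (π.take (m' + 1)).take (m + 1) := by
      rw [List.take_take, min_eq_left (by omega)]
    rw [h5]
    exact h4.take _
  · exact lastf_nonneg N.k_nonneg π
  · exact le_rfl

theorem longQ_le_one (ok : V → V → Prop) (N : Net V) (m : ℕ) (x : V) : longQ ok N m x ≤ 1 := by
  unfold longQ
  rw [← psum_one N x]
  refine psum_mono N ∅ x fun π _ _ _ => ?_
  split_ifs
  · exact le_rfl
  · exact lastf_nonneg N.k_nonneg π

end

end Pool.Agent.TH972.U
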