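import Pool.Agent.TH972.U.Wil

/-!
# Wilson's algorithm: the law of the next path
-/

set_option autoImplicit false
set_option linter.unusedSectionVars false
set_option maxHeartbeats 4000000

namespace Pool.Agent.TH972.U

open Finset

noncomputable section

variable {V : Type} [Fintype V] [DecidableEq V]

namespace SkP

open Forest LEx

/-- the forests for which the path of `x` avoids `D`, in terms of sums over simple paths -/
theorem AA_psum (N : Net V) (D : Finset V) (x : V) (G : Finset V → ℝ) :
    Wil.AA N D x G = Zf N D * psum N D x (fun π => lastf N.k π * G π.toFinset) := by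
  revert G
  refine LEx.ind (P := fun D x => ∀ G : Finset V → ℝ,
    Wil.AA N D x G = Zf N D * psum N D x (fun π => lastf N.k π * G π.toFinset)) ?_ D x
  intro D x ih G
  by_cases hx : x ∈ D
  · rw [Wil.AA_mem N hx, psum_mem N hx, mul_zero]
  · have h := ih hx
    rw [Wil.AA_step N hx, psum_eq N hx]
    have h1 : ∀ w, Wil.AA N (insert x D) w (fun P => G (insert x P)) =
        Zf N (insert x D) * psum N (insert x D) w (fun η => lastf N.k (x :: η) *
          G (x :: η).toFinset) := by
      intro w
      rw [h w]
      congr 1
      refine psum_congr N (insert x D) w fun π _ _ h3 => ?_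
      rw [lastf_cons N.k x (ne_nil_of_head h3), List.toFinset_cons]
    simp only [h1]
    rw [Zf_insert N hx]
    have e : ∑ w, Kc N.κ x w * (grn N D x x * Zf N D * psum N (insert x D) w
        (fun η => lastf N.k (x :: η) * G (x :: η).toFinset)) =
        grn N D x x * Zf N D * ∑ w, Kc N.κ x w * psum N (insert x D) w
        (fun η => lastf N.k (x :: η) * G (x :: η).toFinset) := by
      rw [mul_sum]
      exact sum_congr rfl fun w _ => by ring
    rw [e]
    have e2 : lastf N.k [x] * G [x].toFinset = N.k x * G {x} := rfl
    rw [e2]
    ring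

/-- sums over simple paths with `Imass` -/
theorem sum_Imass (N : Net V) (D : Finset V) (x : V) (F : List V → ℝ) :
    ∑ j ∈ range (Fintype.card V), ∑ π ∈ spaths j x D, Imass N D π * F π =
      psum N D x (fun π => lastf N.k π * F π) := by
  rw [psum_eq_sum]
  refine sum_congr rfl fun j _ => sum_congr rfl fun π _ => ?_
  rw [VBas.Imass_lastf]
  ring

/-- `b` follows `a` in the list -/
def foll (a b : V) : List V → Prop
  | [] => False
  | [_] => False
  | (v :: w :: t) => (v = a ∧ w = b) ∨ foll a b (w :: t)

omit [Fintype V] [DecidableEq V] in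
lemma pth_foll {f : V → Option V} {a b : V} {ζ : List V} (h : Pth f ζ) (ha : a ∈ ζ)
    (hb : f a = some b) : foll a b ζ := by
  induction ζ with
  | nil => exact h.elim
  | cons z t ih =>
    cases t with
    | nil =>
      have h1 : f z = none := h
      rw [List.mem_singleton] at ha
      subst ha
      rw [h1] at hb
      exact absurd hb (by simp)
    | cons w t =>
      have h1 : f z = some w := h.1
      rcases List.mem_cons.1 ha with rfl | ha
      · rw [h1, Option.some.injEq] at hb
        exact Or.inl ⟨rfl, hb⟩
      · exact Or.inr (ih h.2 ha)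

omit [Fintype V] [DecidableEq V] in
lemma foll_mem {a b : V} {ζ : List V} (h : foll a b ζ) : a ∈ ζ := by
  induction ζ with
  | nil => exact h.elim
  | cons z t ih =>
    cases t with
    | nil => exact h.elim
    | cons w t =>
      rcases h with h | h
      · rw [h.1]
        exact List.mem_cons_self
      · exact List.mem_cons_of_mem _ (ih h)

open Classical in
/-- the indicator of `foll` -/
def fi (a b : V) (ζ : List V) : ℝ := if foll a b ζ then 1 else 0

lemma fi_nonneg (a b : V) (ζ : List V) : 0 ≤ fi a b ζ := by
  unfold fi
  split_ifs <;> norm_num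

lemma fi_le_one (a b : V) (ζ : List V) : fi a b ζ ≤ 1 := by
  unfold fi
  split_ifs <;> norm_num

/-- the paths through the edge from `a` to `b` -/
theorem psum_fi (N : Net V) (D : Finset V) (x a b : V) :
    psum N D x (fun π => lastf N.k π * fi a b π) ≤ grn N D x a * Kc N.κ a b := by
  classical
  refine LEx.ind (P := fun D x =>
    psum N D x (fun π => lastf N.k π * fi a b π) ≤ grn N D x a * Kc N.κ a b) ?_ D x
  intro D x ih
  by_cases hx : x ∈ D
  · rw [psum_mem N hx]
    exact mul_nonneg (grn_nonneg N D x a) (Grn.Kc_nn N a b)
  · have h := ih hx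
    rw [psum_eq N hx]
    have e0 : lastf N.k [x] * fi a b [x] = 0 := by
      unfold fi
      rw [if_neg (fun h => h.elim), mul_zero]
    rw [e0, zero_add]
    by_cases hxa : x = a
    · subst hxa
      refine mul_le_mul_of_nonneg_left ?_ (grn_nonneg N D x x)
      have h1 : ∀ w, psum N (insert x D) w (fun η => lastf N.k (x :: η) * fi x b (x :: η)) ≤
          if w = b then 1 else 0 := by
        intro w
        by_cases hwb : w = b
        · rw [if_pos hwb]
          refine le_trans ?_ (surv_le_one N (insert x D) w)
          rw [← psum_surv]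
          refine psum_mono N (insert x D) w fun π _ _ h3 => ?_
          rw [lastf_cons N.k x (ne_nil_of_head h3)]
          have h5 := lastf_nonneg N.k_nonneg π
          have h6 := fi_le_one x b (x :: π)
          nlinarith
        · rw [if_neg hwb]
          refine le_of_eq (Eq.trans ?_ (psum_zero N (insert x D) w))
          refine psum_congr N (insert x D) w fun π _ h2 h3 => ?_
          have h4 : ¬ foll x b (x :: π) := by
            cases π with
            | nil => exact fun h => h.elim
            | cons z t =>
              rintro (h5 | h5)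
              · rw [List.head?_cons] at h3
                exact hwb ((Option.some.inj h3).symm.trans h5.2)
              · exact h2 x (foll_mem h5) (mem_insert_self x D)
          unfold fi
          rw [if_neg h4, mul_zero]
      calc ∑ w, Kc N.κ x w * psum N (insert x D) w
            (fun η => lastf N.k (x :: η) * fi x b (x :: η))
          ≤ ∑ w, Kc N.κ x w * (if w = b then 1 else 0) :=
            sum_le_sum fun w _ => mul_le_mul_of_nonneg_left (h1 w) (Grn.Kc_nn N x w)
        _ = Kc N.κ x b := by
            rw [sum_eq_single b]
            · rw [if_pos rfl, mul_one]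
            · intro w _ hw
              rw [if_neg hw, mul_zero]
            · intro h
              exact absurd (mem_univ b) h
    · rw [grn_step N hx a, if_neg hxa, zero_add, mul_assoc]
      refine mul_le_mul_of_nonneg_left ?_ (grn_nonneg N D x x)
      rw [sum_mul]
      refine sum_le_sum fun w _ => ?_
      rw [mul_assoc]
      refine mul_le_mul_of_nonneg_left ((le_of_eq ?_).trans (h w)) (Grn.Kc_nn N x w)
      refine psum_congr N (insert x D) w fun π _ _ h3 => ?_
      rw [lastf_cons N.k x (ne_nil_of_head h3)]
      congr 1
      unfold fi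
      have h4 : foll a b (x :: π) ↔ foll a b π := by
        cases π with
        | nil => exact Iff.rfl
        | cons z t =>
          constructor
          · rintro (h5 | h5)
            · exact absurd h5.1 hxa
            · exact h5
          · exact fun h5 => Or.inr h5
      simp only [h4]

open Classical in
/-- partition of the forests by the path of `x` -/
lemma partition_le (N : Net V) (x : V) (F : List V → ℝ) (Φ : (V → Option V) → ℝ)
    (hΦ : ∀ f π, Pth f π → π.head? = some x → Φ f ≤ F π) :
    ∑ f ∈ univ.filter (fun f : V → Option V => IsFor ∅ f), wF N ∅ f * Φ f ≤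
      ∑ j ∈ range (Fintype.card V), ∑ π ∈ spaths j x ∅,
        (∑ f ∈ univ.filter (fun f : V → Option V => IsFor ∅ f ∧ Pth f π), wF N ∅ f) *
          F π := by
  have h1 : ∀ f ∈ univ.filter (fun f : V → Option V => IsFor ∅ f),
      wF N ∅ f * Φ f ≤ ∑ j ∈ range (Fintype.card V), ∑ π ∈ spaths j x ∅,
        (if Pth f π then wF N ∅ f * F π else 0) := by
    intro f hf
    rw [Finset.mem_filter] at hf
    obtain ⟨t, ht, hnd⟩ := exists_pth hf.2.2 x
    have hlen : t.length < Fintype.card V := by
      have h2 : (x :: t).length ≤ Fintype.card V := hnd.length_le_card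
      rw [List.length_cons] at h2
      omega
    have hmem : (x :: t) ∈ spaths t.length x ∅ := by
      rw [mem_spaths]
      exact ⟨List.length_cons, hnd, rfl, fun z _ => Finset.notMem_empty z⟩
    have huniq : ∀ j, ∀ π ∈ spaths j x ∅, Pth f π → π = x :: t := by
      intro j π hπ hp
      rw [mem_spaths] at hπ
      exact VBas.pth_uniq hp ht hπ.2.2.1
    rw [Finset.sum_eq_single t.length]
    · rw [Finset.sum_eq_single (x :: t)]
      · rw [if_pos ht]
        exact mul_le_mul_of_nonneg_left (hΦ f _ ht rfl) (wF_nonneg N ∅ f)
      · intro π hπ hne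
        exact if_neg (fun h => hne (huniq _ π hπ h))
      · intro h
        exact absurd hmem h
    · intro j _ hj
      apply Finset.sum_eq_zero
      intro π hπ
      apply if_neg
      intro h
      have h3 := huniq _ π hπ h
      rw [mem_spaths, h3, List.length_cons] at hπ
      omega
    · intro h
      exact absurd (Finset.mem_range.2 hlen) h
  refine (Finset.sum_le_sum h1).trans (le_of_eq ?_)
  rw [Finset.sum_comm]
  apply Finset.sum_congr rfl
  intro j _
  rw [Finset.sum_comm]
  apply Finset.sum_congr rfl
  intro π _
  rw [Finset.sum_mul, ← Finset.filter_filter, Finset.sum_filter (p := fun f => Pth f π)]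

end SkP

open Wil Forest

/-- Wilson's algorithm: the law of the path of `x` given the paths of the vertices of `W` -/
theorem skel_path (N : Net V) (W : Finset V) (x : V) (F : Finset V → Finset V → ℝ) :
    EF N ∅ (fun f => (open Classical in if Mt f x W then 0 else F (skel f W) (anc f x))) =
      EF N ∅ (fun f => ∑ j ∈ range (Fintype.card V), ∑ π ∈ spaths j x (skel f W),
        Imass N (skel f W) π * F (skel f W) π.toFinset) := by
  classical
  unfold EF
  congr 1
  have hT : ∀ f, f ∈ univ.filter (fun f : V → Option V => IsFor ∅ f) ↔ IsFor ∅ f := fun f => by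
    simp
  have h : ∀ f₀ ∈ univ.filter (fun f : V → Option V => IsFor ∅ f),
      ∑ f ∈ (univ.filter (fun f : V → Option V => IsFor ∅ f)).filter
        (fun f => kap W f = kap W f₀),
        wF N ∅ f * (if Mt f x W then 0 else F (skel f W) (anc f x)) =
      ∑ f ∈ (univ.filter (fun f : V → Option V => IsFor ∅ f)).filter
        (fun f => kap W f = kap W f₀), wF N ∅ f *
        (∑ j ∈ range (Fintype.card V), ∑ π ∈ spaths j x (skel f W),
          Imass N (skel f W) π * F (skel f W) π.toFinset) := by
    intro f₀ hf₀
    have h1 := class_eval N W x (fun _ => 1) (F (skel f₀ W)) _ hT hf₀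
    have h2 := class_const N W (fun S => ∑ j ∈ range (Fintype.card V), ∑ π ∈ spaths j x S,
          Imass N S π * F S π.toFinset) _ hT hf₀
    rw [SkP.AA_psum, ← SkP.sum_Imass] at h1
    refine Eq.trans ?_ (h1.trans (Eq.trans ?_ h2.symm))
    · refine sum_congr rfl fun f hf => ?_
      have h3 : kap W f = kap W f₀ := (mem_filter.1 hf).2
      have h4 : skel f W = skel f₀ W := congrArg Prod.fst h3
      rw [h4, one_mul]
    · ring
  apply le_antisymm
  · exact class_le W _ _ _ fun f₀ hf₀ => (h f₀ hf₀).le
  · exact class_le W _ _ _ fun f₀ hf₀ => (h f₀ hf₀).ge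

theorem Imass_sum (N : Net V) (D : Finset V) (x : V) :
    ∑ j ∈ range (Fintype.card V), ∑ π ∈ spaths j x D, Imass N D π = surv N D x := by
  rw [← psum_surv]
  have h := SkP.sum_Imass N D x (fun _ => 1)
  simp only [mul_one] at h
  exact h

/-- an edge of the path -/
theorem anc_edge (N : Net V) (x a b : V) :
    PF N (fun f => a ∈ anc f x ∧ f a = some b) ≤ grn N ∅ x a * Kc N.κ a b := by
  classical
  unfold PF EF
  rw [div_le_iff₀ (Zf_pos N ∅)]
  refine (SkP.partition_le N x (SkP.fi a b) _ ?_).trans ?_
  · intro f π hp hh
    have h1 := SkP.fi_nonneg a b π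
    by_cases h2 : a ∈ anc f x ∧ f a = some b
    · rw [if_pos h2]
      have h3 : a ∈ π := by
        have h4 := h2.1
        rw [VBas.anc_pth hp hh, List.mem_toFinset] at h4
        exact h4
      unfold SkP.fi
      rw [if_pos (SkP.pth_foll hp h3 h2.2)]
    · rw [if_neg h2]
      exact h1
  · have h1 : ∑ j ∈ range (Fintype.card V), ∑ π ∈ spaths j x ∅,
        (∑ f ∈ univ.filter (fun f : V → Option V => IsFor ∅ f ∧ Pth f π), wF N ∅ f) *
          SkP.fi a b π = (∑ j ∈ range (Fintype.card V), ∑ π ∈ spaths j x ∅,
            Imass N ∅ π * SkP.fi a b π) * Zf N ∅ := by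
      rw [sum_mul]
      refine sum_congr rfl fun j hj => ?_
      rw [sum_mul]
      refine sum_congr rfl fun π hπ => ?_
      rw [VBas.path_weight_eq N x j hj π hπ]
      ring
    rw [h1, SkP.sum_Imass]
    exact mul_le_mul_of_nonneg_right (SkP.psum_fi N ∅ x a b) (Zf_pos N ∅).le

end

end Pool.Agent.TH972.U
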