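import Pool.Agent.TH972.U.FDef
import Pool.Agent.TH972.U.SkP

/-!
# Forest paths and high edges
-/

set_option autoImplicit false
set_option linter.unusedSectionVars false

namespace Pool.Agent.TH972.U

open Finset Pool.Agent.W842.RST Pool.Agent.TH972

noncomputable section

/-- the law of the path as a list -/
theorem long_for {V : Type} [Fintype V] [DecidableEq V] (N : Net V) (ok : V → V → Prop) (l : ℕ)
    (x : V) :
    PF N (fun f => ∃ π : List V, Forest.Pth f π ∧ π.head? = some x ∧ okc ok l π) ≤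
      longQ ok N l x := by
  classical
  unfold PF EF
  rw [div_le_iff₀ (VBas.Zf_pos N ∅)]
  refine (SkP.partition_le N x (fun π => if okc ok l π then 1 else 0) _ ?_).trans ?_
  · intro f π hp hh
    by_cases h2 : ∃ π : List V, Forest.Pth f π ∧ π.head? = some x ∧ okc ok l π
    · rw [if_pos h2]
      obtain ⟨η, h3, h4, h5⟩ := h2
      have h6 : π = η := VBas.pth_uniq hp h3 (hh.trans h4.symm)
      rw [h6, if_pos h5]
    · rw [if_neg h2]
      split_ifs <;> norm_num
  · have h1 : ∑ j ∈ range (Fintype.card V), ∑ π ∈ spaths j x ∅,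
        (∑ f ∈ univ.filter (fun f : V → Option V => IsFor ∅ f ∧ Forest.Pth f π), wF N ∅ f) *
          (if okc ok l π then (1 : ℝ) else 0) = (∑ j ∈ range (Fintype.card V), ∑ π ∈ spaths j x ∅,
            Imass N ∅ π * (if okc ok l π then (1 : ℝ) else 0)) * Zf N ∅ := by
      rw [sum_mul]
      refine sum_congr rfl fun j hj => ?_
      rw [sum_mul]
      refine sum_congr rfl fun π hπ => ?_
      rw [VBas.path_weight_eq N x j hj π hπ]
      ring
    rw [h1, SkP.sum_Imass]
    refine mul_le_mul_of_nonneg_right (le_of_eq ?_) (VBas.Zf_pos N ∅).le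
    unfold longQ
    congr 1
    funext ζ
    split_ifs <;> simp

namespace LongF

section Res

variable {V : Type} [Fintype V] [DecidableEq V]

/-- the energy of an edge -/
lemma edge_le (N : Net V) (f : V → ℝ) {x y : V} (hxy : x ≠ y) :
    Kc N.κ x y * (f x - f y) ^ 2 ≤ EK N f := by
  have h1 := Marks.term_le N.κ_pos (mem_univ x) (mem_univ y) hxy f
  rw [Marks.EnIn_univ] at h1
  unfold EK
  have h2 : 0 ≤ ∑ z, N.k z * f z ^ 2 :=
    Finset.sum_nonneg fun z _ => mul_nonneg (N.k_nonneg z) (sq_nonneg _)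
  linarith

/-- one edge -/
lemma step (N : Net V) {x y : V} (hxy : x ≠ y) :
    grn N ∅ x x ≤ grn N ∅ y y + 1 / Kc N.κ x y := by
  have hx0 : x ∉ (∅ : Finset V) := Finset.notMem_empty x
  have hy0 : y ∉ (∅ : Finset V) := Finset.notMem_empty y
  have hK := Grn.Kc_pos N hxy
  have hG : ∀ (f : V → ℝ) (a : V), EB N f (fun z => grn N ∅ z a) = f a :=
    fun f a => EB_grn N f (fun z hz => absurd hz (Finset.notMem_empty z)) (Finset.notMem_empty a)
  obtain ⟨R, hR⟩ : ∃ R : ℝ, R = grn N ∅ x x + grn N ∅ y y - 2 * grn N ∅ x y := ⟨_, rfl⟩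
  have h1 := edge_le N (fun z => grn N ∅ z x - 1 * grn N ∅ z y) hxy
  rw [Grn2.EK_sub N (fun z => grn N ∅ z x) (fun z => grn N ∅ z y) 1, ← EB_self, ← EB_self,
    hG, hG, hG, grn_symm N ∅ y x] at h1
  have h2 : Kc N.κ x y * R ^ 2 ≤ R := by
    rw [hR]
    refine le_trans (le_of_eq ?_) (h1.trans (le_of_eq ?_))
    · ring
    · ring
  have h3 : R ≤ 1 / Kc N.κ x y := by
    rw [le_div_iff₀ hK]
    by_contra hcon
    push Not at hcon
    have hR0 : 0 < R := by
      by_contra hneg
      push Not at hneg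
      have := mul_nonpos_of_nonpos_of_nonneg hneg hK.le
      linarith
    nlinarith
  have h4 := grn_le_diag N ∅ x y
  linarith

/-- along a walk -/
lemma along (N : Net V) (G : SimpleGraph V) {r : ℝ} (hr : ∀ u v, G.Adj u v → 1 / Kc N.κ u v ≤ r)
    {x y : V} (w : G.Walk x y) : grn N ∅ x x ≤ grn N ∅ y y + w.length * r := by
  induction w with
  | nil => simp
  | cons h w ih =>
    have h1 := step N h.ne
    have h2 := hr _ _ h
    rw [SimpleGraph.Walk.length_cons]
    push_cast
    linarith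

/-- a killed vertex -/
lemma killed (N : Net V) {k : ℝ} (hk : 0 < k) {x : V} (hx : N.k x = k) :
    grn N ∅ x x ≤ 1 / k := by
  have hG := grn_pos N (Finset.notMem_empty x)
  have h1 : N.k x * grn N ∅ x x ^ 2 ≤ EK N (fun z => grn N ∅ z x) := by
    unfold EK
    have h2 : 0 ≤ En N.κ (fun z => grn N ∅ z x) := by
      unfold En
      apply div_nonneg _ (by norm_num)
      exact Finset.sum_nonneg fun x _ => Finset.sum_nonneg fun y _ =>
        mul_nonneg (Grn.Kc_nn N x y) (sq_nonneg _)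
    have h3 : N.k x * grn N ∅ x x ^ 2 ≤ ∑ z, N.k z * grn N ∅ z x ^ 2 :=
      Finset.single_le_sum (f := fun z => N.k z * grn N ∅ z x ^ 2)
        (fun z _ => mul_nonneg (N.k_nonneg z) (sq_nonneg _)) (mem_univ x)
    linarith
  rw [← EB_self, EB_grn N _ (fun z hz => absurd hz (Finset.notMem_empty z))
    (Finset.notMem_empty x), hx] at h1
  rw [le_div_iff₀ hk]
  by_contra hcon
  push Not at hcon
  nlinarith

end Res

end LongF

variable {n : ℕ}

/-- high edges are rarely used -/
theorem bad_for (hn : 1 ≤ n) (U : Ev n) (P : PN (Fin n)) {k : ℝ} (hk : 0 < k)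
    (hkn : 1 / (n : ℝ) ≤ k) {p p' : ℝ}
    (hth : ∀ e f, U e ≤ p → p' < U f → P.κ f ≤ 1 / (n : ℝ) ^ 6 * P.κ e)
    (hκ : ∀ f, p' < U f → P.κ f ≤ 1 / (n : ℝ) ^ 6) :
    PF (P.net k hk) (BadF U P.M p p') ≤ 2 / (n : ℝ) ^ 2 := by
  classical
  have hn0 : (0 : ℝ) < n := by exact_mod_cast hn
  obtain ⟨N, hN⟩ : ∃ N, N = P.net k hk := ⟨_, rfl⟩
  have hNκ : N.κ = P.κ := by rw [hN]; rfl
  have hNk : ∀ x, N.k x = if x ∈ P.M then k else 0 := by intro x; rw [hN]; rfl
  rw [← hN]
  obtain ⟨C, hC⟩ : ∃ C : Fin n × Fin n × Fin n → Prop, ∀ i, C i ↔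
      ((∃ ρ ∈ P.M, (GU U p).Reachable ρ i.1) ∧ p' < U s(i.2.1, i.2.2)) :=
    ⟨fun i => ((∃ ρ ∈ P.M, (GU U p).Reachable ρ i.1) ∧ p' < U s(i.2.1, i.2.2)),
      fun _ => Iff.rfl⟩
  obtain ⟨F, hF⟩ : ∃ F : Fin n × Fin n × Fin n → (Fin n → Option (Fin n)) → ℝ, ∀ i f, F i f =
      if C i ∧ i.2.1 ∈ anc f i.1 ∧ f i.2.1 = some i.2.2 then 1 else 0 := ⟨_, fun _ _ => rfl⟩
  have hF0 : ∀ i f, 0 ≤ F i f := by
    intro i f
    rw [hF]
    split_ifs <;> norm_num
  -- union bound
  have h1 : PF N (BadF U P.M p p') ≤ ∑ i, EF N ∅ (F i) := by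
    rw [← EF_sum]
    unfold PF
    refine EF_mono N ∅ fun f _ => ?_
    by_cases hb : BadF U P.M p p' f
    · rw [if_pos hb]
      obtain ⟨x, hx, a, ha, b, hab, hU⟩ := hb
      have h2 : F (x, a, b) f = 1 := by
        rw [hF, if_pos]
        exact ⟨(hC _).mpr ⟨hx, hU⟩, ha, hab⟩
      rw [← h2]
      exact Finset.single_le_sum (f := fun i => F i f) (fun i _ => hF0 i f) (mem_univ (x, a, b))
    · rw [if_neg hb]
      exact Finset.sum_nonneg fun i _ => hF0 i f
  -- one term
  have h2 : ∀ i, EF N ∅ (F i) ≤ 2 / (n : ℝ) ^ 5 := by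
    rintro ⟨x, a, b⟩
    by_cases hCi : C (x, a, b)
    · have h3 : EF N ∅ (F (x, a, b)) = PF N (fun f => a ∈ anc f x ∧ f a = some b) := by
        unfold PF
        congr 1
        funext f
        rw [hF]
        by_cases h4 : a ∈ anc f x ∧ f a = some b
        · rw [if_pos ⟨hCi, h4⟩, if_pos h4]
        · rw [if_neg (fun h => h4 h.2), if_neg h4]
      rw [h3]
      refine (anc_edge N x a b).trans ?_
      rw [hC] at hCi
      obtain ⟨⟨ρ, hρ, hreach⟩, hU⟩ := hCi
      change p' < U s(a, b) at hU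
      change (GU U p).Reachable ρ x at hreach
      by_cases hab : a = b
      · have h4 : Kc N.κ a b = 0 := by
          unfold Kc
          rw [if_pos hab]
        rw [h4, mul_zero]
        positivity
      · have h4 : Kc N.κ a b = P.κ s(a, b) := by
          unfold Kc
          rw [if_neg hab, hNκ]
        obtain ⟨c, hc⟩ : ∃ c : ℝ, c = P.κ s(a, b) := ⟨_, rfl⟩
        have hc0 : 0 < c := by rw [hc]; exact P.κ_pos _
        have hc6 : c ≤ 1 / (n : ℝ) ^ 6 := by rw [hc]; exact hκ _ hU
        have hr : ∀ u v, (GU U p).Adj u v → 1 / Kc N.κ u v ≤ 1 / (n : ℝ) ^ 6 / c := by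
          intro u v huv
          rw [GU_adj] at huv
          have h5 : Kc N.κ u v = P.κ s(u, v) := by
            unfold Kc
            rw [if_neg huv.2, hNκ]
          have h6 := hth s(u, v) s(a, b) huv.1 hU
          have h7 := P.κ_pos s(u, v)
          rw [h5, div_le_div_iff₀ h7 hc0, one_mul, hc]
          exact h6
        obtain ⟨w⟩ := hreach.symm
        obtain ⟨q, hq⟩ : ∃ q : (GU U p).Walk x ρ, q.IsPath := ⟨w.bypass, w.bypass_isPath⟩
        have hlen : q.length + 1 ≤ n := by
          have := hq.length_lt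
          rw [Fintype.card_fin] at this
          exact this
        have h8 := LongF.along N (GU U p) hr q
        have h9 := LongF.killed N hk (x := ρ) (by rw [hNk, if_pos hρ])
        have h10 : grn N ∅ x a ≤ grn N ∅ x x := by
          rw [grn_symm N ∅ x a]
          exact grn_le_diag N ∅ a x
        have h11 : grn N ∅ x a ≤ 1 / k + q.length * (1 / (n : ℝ) ^ 6 / c) := by linarith
        rw [h4, ← hc]
        have h12 : grn N ∅ x a * c ≤ (1 / k + q.length * (1 / (n : ℝ) ^ 6 / c)) * c :=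
          mul_le_mul_of_nonneg_right h11 hc0.le
        have h13 : (1 / k + q.length * (1 / (n : ℝ) ^ 6 / c)) * c =
            c / k + q.length * (1 / (n : ℝ) ^ 6) := by
          field_simp
        have h14 : c / k ≤ n * (1 / (n : ℝ) ^ 6) := by
          have h15 : 1 / k ≤ n := by
            rw [div_le_iff₀ hk]
            rw [div_le_iff₀ hn0] at hkn
            linarith
          calc c / k = 1 / k * c := by ring
            _ ≤ n * c := mul_le_mul_of_nonneg_right h15 hc0.le
            _ ≤ n * (1 / (n : ℝ) ^ 6) := mul_le_mul_of_nonneg_left hc6 hn0.le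
        have h16 : (q.length : ℝ) * (1 / (n : ℝ) ^ 6) ≤ n * (1 / (n : ℝ) ^ 6) := by
          apply mul_le_mul_of_nonneg_right _ (by positivity)
          have : q.length ≤ n := by omega
          exact_mod_cast this
        have h17 : (n : ℝ) * (1 / (n : ℝ) ^ 6) = 1 / (n : ℝ) ^ 5 := by
          field_simp
        rw [h17] at h14 h16
        have h18 : 2 / (n : ℝ) ^ 5 = 1 / (n : ℝ) ^ 5 + 1 / (n : ℝ) ^ 5 := by ring
        rw [h18]
        linarith
    · have h3 : F (x, a, b) = fun _ => 0 := by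
        funext f
        rw [hF, if_neg]
        exact fun h => hCi h.1
      rw [h3]
      have h4 : EF N ∅ (fun _ => (0 : ℝ)) = 0 := by
        unfold EF
        simp
      rw [h4]
      positivity
  have h3 : ∑ i : Fin n × Fin n × Fin n, EF N ∅ (F i) ≤
      ∑ _i : Fin n × Fin n × Fin n, 2 / (n : ℝ) ^ 5 :=
    Finset.sum_le_sum fun i _ => h2 i
  refine (h1.trans h3).trans (le_of_eq ?_)
  rw [Finset.sum_const, Finset.card_univ, nsmul_eq_mul]
  simp only [Fintype.card_prod, Fintype.card_fin, Nat.cast_mul]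
  field_simp

end

end Pool.Agent.TH972.U
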