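import Pool.Agent.TH972.U.Gap3
import Pool.Agent.TH972.U.Eqm
import Pool.Agent.TH972.U.SkP
import Pool.Agent.TH972.U.Rev

/-!
# Conditional capacity bound for the path of a vertex (helper626)
-/

set_option autoImplicit false
set_option linter.unusedSectionVars false

namespace Pool.Agent.TH972.U

open Finset

noncomputable section

variable {V : Type} [Fintype V] [DecidableEq V]

namespace LowC

lemma cpr_congr (N N' : Net V) (h : N'.κ = N.κ) : ∀ π : List V, cpr N π = cpr N' π
  | [] => rfl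
  | [_] => rfl
  | (v :: w :: t) => by
      rw [cpr, cpr, h, cpr_congr N N' h (w :: t)]

lemma cpr_nonneg (N : Net V) : ∀ π : List V, 0 ≤ cpr N π
  | [] => zero_le_one
  | [_] => zero_le_one
  | (v :: w :: t) => by
      rw [cpr]
      exact mul_nonneg (Kc_nonneg (fun e => (N.κ_pos e).le) v w) (cpr_nonneg N (w :: t))

lemma Imass_nonneg (N : Net V) (D : Finset V) (π : List V) : 0 ≤ Imass N D π := by
  unfold Imass
  cases π.getLast? with
  | none => exact le_refl _
  | some z =>
    exact mul_nonneg (mul_nonneg (cpr_nonneg N π) (dG_nonneg N D π)) (N.k_nonneg z)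

/-- comparison of the masses of one path at two killing rates -/
lemma Imass_le (P : PN V) {k1 k' R : ℝ} (hk1 : 0 < k1) (hk' : 0 < k') (D : Finset V) (π : List V)
    (h : dG (P.net k1 hk1) D π ≤ dG (P.net k' hk') D π * R) :
    Imass (P.net k1 hk1) D π ≤ k1 / k' * R * Imass (P.net k' hk') D π := by
  unfold Imass
  cases π.getLast? with
  | none => simp
  | some z =>
    show cpr (P.net k1 hk1) π * dG (P.net k1 hk1) D π * (if z ∈ P.M then k1 else 0) ≤
      k1 / k' * R * (cpr (P.net k' hk') π * dG (P.net k' hk') D π * (if z ∈ P.M then k' else 0))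
    rw [cpr_congr (P.net k1 hk1) (P.net k' hk') rfl π]
    split_ifs
    · have e : k1 / k' * R * (cpr (P.net k' hk') π * dG (P.net k' hk') D π * k') =
          cpr (P.net k' hk') π * (dG (P.net k' hk') D π * R) * k1 := by
        field_simp
      rw [e]
      exact mul_le_mul_of_nonneg_right
        (mul_le_mul_of_nonneg_left h (cpr_nonneg _ π)) hk1.le
    · simp

/-- the contribution of one path -/
lemma term (P : PN V) {k1 k' k2 g c : ℝ} (hk1 : 0 < k1) (hk' : 0 < k') (hk2 : 0 < k2)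
    (h1 : k1 ≤ k') (h2 : k' ≤ k2) (ht : k2 * P.t ≤ 1) (hg0 : 0 < g)
    (hg : ∀ y ∈ P.M, grn (P.net k2 hk2) ∅ y y ≤ g) (hc : 0 < c) (h3 : k' * (g * c) ≤ k2)
    (D : Finset V) (π : List V) (hπ : π.Nodup) (hD : ∀ z ∈ π, z ∉ D)
    (hX : ∑ z ∈ π.toFinset, eqm (P.net k2 hk2) (D ∪ π.toFinset) z < c) :
    Imass (P.net k1 hk1) D π ≤
      k1 / k' * Real.exp (8 + 9 * k2 / (g * k1 ^ 2 * P.M.card)) * Imass (P.net k' hk') D π := by
  have hm0 : (0 : ℝ) < P.M.card := by exact_mod_cast P.M_ne.card_pos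
  have hdis : Disjoint D π.toFinset := by
    rw [Finset.disjoint_right]
    intro z hz
    exact hD z (List.mem_toFinset.1 hz)
  apply Imass_le
  have e1 := dG_kill_rev (P.net k1 hk1) (P.net k' hk') rfl (fun y => by
    show (if y ∈ P.M then k1 else 0) ≤ (if y ∈ P.M then k' else 0)
    split_ifs
    · exact h1
    · exact le_refl _) D hπ hD
  have e2 : ∑ y, ((P.net k' hk').k y - (P.net k1 hk1).k y) *
      (grn (P.net k1 hk1) D y y - grn (P.net k1 hk1) (D ∪ π.toFinset) y y) =
      (k' - k1) * ∑ y ∈ P.M,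
        (grn (P.net k1 hk1) D y y - grn (P.net k1 hk1) (D ∪ π.toFinset) y y) := by
    rw [Finset.mul_sum]
    symm
    rw [← Finset.sum_subset (Finset.subset_univ P.M)]
    · apply Finset.sum_congr rfl
      intro y hy
      show _ = ((if y ∈ P.M then k' else 0) - (if y ∈ P.M then k1 else 0)) * _
      rw [if_pos hy, if_pos hy]
    · intro y _ hy
      show ((if y ∈ P.M then k' else 0) - (if y ∈ P.M then k1 else 0)) * _ = 0
      rw [if_neg hy, if_neg hy]
      ring
  rw [e2] at e1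
  have g1 := P.gap_three hk1 hk2 (h1.trans h2) ht D π.toFinset
  have g2 := eqm_gap P hk2 hg hdis
  have g3 : k1 * ∑ y ∈ P.M, (surv (P.net k1 hk1) D y - surv (P.net k1 hk1) (D ∪ π.toFinset) y) ≤
      ∑ z ∈ π.toFinset, eqm (P.net k2 hk2) (D ∪ π.toFinset) z := by
    have i1 := eqm_inc (P.net k1 hk1) hdis
    have i2 : ∑ x, (P.net k1 hk1).k x *
        (surv (P.net k1 hk1) D x - surv (P.net k1 hk1) (D ∪ π.toFinset) x) =
        k1 * ∑ y ∈ P.M,
          (surv (P.net k1 hk1) D y - surv (P.net k1 hk1) (D ∪ π.toFinset) y) := by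
      rw [Finset.mul_sum]
      symm
      rw [← Finset.sum_subset (Finset.subset_univ P.M)]
      · apply Finset.sum_congr rfl
        intro y hy
        show _ = (if y ∈ P.M then k1 else 0) * _
        rw [if_pos hy]
      · intro y _ hy
        show (if y ∈ P.M then k1 else 0) * _ = 0
        rw [if_neg hy]
        ring
    rw [i2] at i1
    refine i1.trans (Finset.sum_le_sum fun z _ => ?_)
    apply eqm_mono_k (P.net k1 hk1) (P.net k2 hk2) rfl
    intro y
    show (if y ∈ P.M then k1 else 0) ≤ (if y ∈ P.M then k2 else 0)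
    split_ifs
    · exact h1.trans h2
    · exact le_refl _
  refine e1.trans (mul_le_mul_of_nonneg_left (Real.exp_le_exp.2 ?_) (dG_nonneg _ _ _))
  set X := ∑ z ∈ π.toFinset, eqm (P.net k2 hk2) (D ∪ π.toFinset) z with hXdef
  set T1 := ∑ y ∈ P.M,
    (grn (P.net k1 hk1) D y y - grn (P.net k1 hk1) (D ∪ π.toFinset) y y) with hT1
  have g4 : T1 ≤ 8 * (g / k2 * c) + 9 / (k1 ^ 2 * P.M.card) * c := by
    have a1 : g / k2 * X ≤ g / k2 * c := mul_le_mul_of_nonneg_left hX.le (by positivity)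
    have a2 : 9 / (k1 ^ 2 * P.M.card) * (k1 * ∑ y ∈ P.M,
        (surv (P.net k1 hk1) D y - surv (P.net k1 hk1) (D ∪ π.toFinset) y)) ≤
        9 / (k1 ^ 2 * P.M.card) * c :=
      mul_le_mul_of_nonneg_left (g3.trans hX.le) (by positivity)
    linarith
  have b0 : 0 ≤ 8 * (g / k2 * c) + 9 / (k1 ^ 2 * P.M.card) * c := by positivity
  have b1 : (k' - k1) * T1 ≤ (k' - k1) * (8 * (g / k2 * c) + 9 / (k1 ^ 2 * P.M.card) * c) :=
    mul_le_mul_of_nonneg_left g4 (by linarith)
  have b2 : (k' - k1) * (8 * (g / k2 * c) + 9 / (k1 ^ 2 * P.M.card) * c) ≤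
      k' * (8 * (g / k2 * c) + 9 / (k1 ^ 2 * P.M.card) * c) :=
    mul_le_mul_of_nonneg_right (by linarith) b0
  have b3 : k' * (8 * (g / k2 * c)) ≤ 8 := by
    have : k' * (g * c) / k2 ≤ 1 := by
      rw [div_le_one hk2]
      exact h3
    have e : k' * (8 * (g / k2 * c)) = 8 * (k' * (g * c) / k2) := by ring
    rw [e]
    linarith
  have b4 : k' * (9 / (k1 ^ 2 * P.M.card) * c) ≤ 9 * k2 / (g * k1 ^ 2 * P.M.card) := by
    have e5 : k' * (9 / (k1 ^ 2 * P.M.card) * c) = (9 * (k' * c)) / (k1 ^ 2 * P.M.card) := by ring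
    rw [e5, div_le_div_iff₀ (by positivity) (by positivity)]
    have e : 9 * (k' * c) * (g * k1 ^ 2 * P.M.card) =
        (9 * (k' * (g * c))) * (k1 ^ 2 * P.M.card) := by
      ring
    rw [e]
    exact mul_le_mul_of_nonneg_right (by linarith) (by positivity)
  have e : k' * (8 * (g / k2 * c) + 9 / (k1 ^ 2 * P.M.card) * c) =
    k' * (8 * (g / k2 * c)) + k' * (9 / (k1 ^ 2 * P.M.card) * c) := by ring
  linarith

end LowC

open LowC

/-- the path of `x` is seen well from outside, given the paths of the vertices of `W` -/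
theorem PN.low_cond (P : PN V) {k1 k' k2 g c : ℝ} (hk1 : 0 < k1) (hk' : 0 < k') (hk2 : 0 < k2)
    (h1 : k1 ≤ k') (h2 : k' ≤ k2) (ht : k2 * P.t ≤ 1) (hg0 : 0 < g)
    (hg : ∀ y ∈ P.M, grn (P.net k2 hk2) ∅ y y ≤ g) (hc : 0 < c) (h3 : k' * (g * c) ≤ k2)
    (W : Finset V) (x : V) :
    PF (P.net k1 hk1) (fun f => ¬ Mt f x W ∧
      ∑ z ∈ anc f x, eqm (P.net k2 hk2) (skel f W ∪ anc f x) z < c) ≤
      k1 / k' * Real.exp (8 + 9 * k2 / (g * k1 ^ 2 * P.M.card)) := by
  classical
  have hm0 : (0 : ℝ) < P.M.card := by exact_mod_cast P.M_ne.card_pos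
  set R := k1 / k' * Real.exp (8 + 9 * k2 / (g * k1 ^ 2 * P.M.card)) with hR
  have hR0 : 0 ≤ R := by rw [hR]; positivity
  have hpath := skel_path (P.net k1 hk1) W x (fun D A =>
    if ∑ z ∈ A, eqm (P.net k2 hk2) (D ∪ A) z < c then (1 : ℝ) else 0)
  have hPF : PF (P.net k1 hk1) (fun f => ¬ Mt f x W ∧
      ∑ z ∈ anc f x, eqm (P.net k2 hk2) (skel f W ∪ anc f x) z < c) =
      EF (P.net k1 hk1) ∅ (fun f => (if Mt f x W then 0 else
        (if ∑ z ∈ anc f x, eqm (P.net k2 hk2) (skel f W ∪ anc f x) z < c then (1 : ℝ) else 0))) := by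
    unfold PF
    congr 1
    funext f
    by_cases hM : Mt f x W
    · simp [hM]
    · by_cases hs : ∑ z ∈ anc f x, eqm (P.net k2 hk2) (skel f W ∪ anc f x) z < c
      · simp [hM, hs]
      · simp [hM, hs]
  have hpath' : EF (P.net k1 hk1) ∅ (fun f => (if Mt f x W then 0 else
        (if ∑ z ∈ anc f x, eqm (P.net k2 hk2) (skel f W ∪ anc f x) z < c then (1 : ℝ) else 0))) =
      EF (P.net k1 hk1) ∅ (fun f => ∑ j ∈ range (Fintype.card V), ∑ π ∈ spaths j x (skel f W),
        Imass (P.net k1 hk1) (skel f W) π *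
          (if ∑ z ∈ π.toFinset, eqm (P.net k2 hk2) (skel f W ∪ π.toFinset) z < c then
            (1 : ℝ) else 0)) := by
    rw [← hpath]
  rw [hPF, hpath']
  have hle : ∀ f : V → Option V, IsFor ∅ f →
      (∑ j ∈ range (Fintype.card V), ∑ π ∈ spaths j x (skel f W),
        Imass (P.net k1 hk1) (skel f W) π *
          (if ∑ z ∈ π.toFinset, eqm (P.net k2 hk2) (skel f W ∪ π.toFinset) z < c then
            (1 : ℝ) else 0)) ≤ R * 1 := by
    intro f _
    calc _ ≤ ∑ j ∈ range (Fintype.card V), ∑ π ∈ spaths j x (skel f W),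
          R * Imass (P.net k' hk') (skel f W) π := by
          refine Finset.sum_le_sum fun j _ => Finset.sum_le_sum fun π hπ => ?_
          rw [mem_spaths] at hπ
          split_ifs with hX
          · rw [mul_one]
            exact term P hk1 hk' hk2 h1 h2 ht hg0 hg hc h3 (skel f W) π hπ.2.1 hπ.2.2.2 hX
          · rw [mul_zero]
            exact mul_nonneg hR0 (Imass_nonneg _ _ _)
      _ = R * surv (P.net k' hk') (skel f W) x := by
          rw [← Imass_sum, Finset.mul_sum]
          refine Finset.sum_congr rfl fun j _ => ?_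
          rw [Finset.mul_sum]
      _ ≤ R * 1 := mul_le_mul_of_nonneg_left (surv_le_one _ _ _) hR0
  calc _ ≤ EF (P.net k1 hk1) ∅ (fun _ => R * 1) := EF_mono _ _ hle
    _ = R := by rw [EF_mul, EF_one, mul_one]

end

end Pool.Agent.TH972.U
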