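import Pool.Agent.TH972.U.SDef2
import Pool.Agent.TH972.GibbsK

/-!
# Weight functions and their levels (definition)
-/

set_option autoImplicit false
set_option linter.unusedSectionVars false

namespace Pool.Agent.TH972.U

/-- a weight function and its levels: the resistance is about `exp i` at the level `gam i` -/
structure Lvs (w : ℝ → ℝ) (gam : ℤ → ℝ) (n : ℕ) (y : ℝ) (K : ℕ) : Prop where
  wpos : ∀ u, 0 < w u
  wmeas : Measurable w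
  mono : Monotone gam
  g0 : (n : ℝ) * gam 0 = 1
  pos : 0 ≤ gam (-(K : ℤ))
  le1 : gam (K + 1) ≤ 1
  lo : ∀ i : ℤ, -(K : ℤ) ≤ i → i ≤ K → 0.999 / y ≤ n * (gam (i + 1) - gam i)
  hi : ∀ i : ℤ, -(K : ℤ) ≤ i → i ≤ K → n * (gam (i + 1) - gam i) ≤ 1.001 / y
  up : ∀ i : ℤ, -(K : ℤ) ≤ i → ∀ u, u ≤ gam i → 1 / w u ≤ Real.exp i
  dn : ∀ i : ℤ, -(K : ℤ) ≤ i → i ≤ K → ∀ u, gam i < u → Real.exp i ≤ 1 / w u
  st : ∀ u, w (gam 1) ≤ w u ↔ u ≤ gam 1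

end Pool.Agent.TH972.U
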