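import Pool.Agent.TH972.U.LvDef

/-!
# The numerical parameters (definitions)
-/

set_option autoImplicit false
set_option linter.unusedSectionVars false

namespace Pool.Agent.TH972.U

open Finset MeasureTheory Pool.Agent.W842.RST Pool.Agent.TH972

noncomputable section

/-- the free parameters -/
structure Prm (n : ℕ) where
  w : ℝ → ℝ
  gam : ℤ → ℝ
  y : ℝ
  /-- `gb y` -/
  η : ℝ
  K : ℕ
  I0 : ℕ
  I : ℕ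
  a5 : ℕ
  J : ℕ
  m : ℕ
  b : ℝ
  lam : ℝ
  /-- the rate in the exponential moments of the bushes -/
  aa : ℝ

namespace Prm

variable {n : ℕ} (P : Prm n)

def pl : ℝ := P.gam (-(P.a5 : ℤ))
def gl : ℝ := 1 - n * P.pl
def gb : ℝ := P.η / P.y
def pb : ℝ := (1 - P.gb) / n
def pn : ℝ := P.gam 1
def pt : ℝ := P.gam P.I
def s1 : ℕ := ⌊1 / (6400 * P.gl ^ 2)⌋₊
def s0 : ℕ := ⌊1 / (6400 * P.gb ^ 2)⌋₊
def smax : ℝ := 16 * Real.log n / P.gb ^ 2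
def vmin : ℝ := n * P.gb / (2 * 10 ^ 8)
def vmax : ℝ := 600 * n * P.gb * Real.log n
def X0 : ℝ := n * P.gb / 16
def Tl : ℝ := 4 * Real.log n * Real.exp (-P.a5)
def ρb : ℝ := 28 * Real.log n / P.η

/-- the parameters of the path sum -/
def sp : SP n where
  gam := P.gam
  I0 := P.I0
  I := P.I
  bs := fun j U v F => bush P.pl (P.gam j) P.pb P.s1 P.s0 P.J U v F
  b := P.b
  lam := P.lam
  X0 := P.X0

/-- the path sum of the environment -/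
def SS (U : Ev n) : ℝ :=
  ∑ x, ∑ π ∈ spaths P.m x ∅, P.sp.wsum (1 / 20) U π.toFinset π ∅ none

/-- basic numerical facts -/
structure Ok : Prop where
  lvs : Lvs P.w P.gam n P.y P.K
  hn : 2 ≤ n
  hL : 1 ≤ Real.log n
  hyn : P.y ≤ n
  hKy : (P.K : ℝ) / P.y ≤ 1 / 1000
  hη : 0 < P.η
  hη1 : 1000 * P.η ≤ 1
  hI0 : P.y * Real.exp P.a5 ≤ Real.exp P.I0
  hI0K : P.I0 ≤ P.K
  hI : 2 * Real.log n ≤ P.I
  ha5 : 13 ≤ P.a5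
  ha5l : 120 * (P.a5 : ℝ) ≤ P.lam
  ha5K : P.a5 ≤ P.I0
  hlam : 10 ^ 4 ≤ P.lam
  hlamI : P.lam ≤ P.I
  hb0 : 0 ≤ P.b
  hb : P.b ≤ P.lam / 100
  hbJ : 4 * (P.J : ℝ) ≤ Real.exp P.b
  hK : 1.15 * (P.I + P.b + Real.log (2 * P.m + 1)) ≤ P.K
  haa : 0 < P.aa
  haa1 : 8 * P.aa * (5 * (P.K : ℝ)) ^ P.J ≤ P.gb * P.gl
  haa2 : P.aa ≤ P.gb ^ 2 / 4
  hJ : 4 ≤ P.J
  hJ2 : 1.3 * 10 ^ 7 * (P.K : ℝ) ≤ P.η * 10 ^ (P.J - 4)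
  hcap : 2 * P.y ≤ Real.exp (P.aa * (n * P.gb / 16 - 1))
  hX : 3 * (P.K : ℝ) * P.m / P.y ≤ P.aa * P.X0
  hm : 1 ≤ P.m
  hm2 : (P.m : ℝ) + 3 ≤ n * P.gb / 8
  ngb : 10 ^ 18 * Real.log n ≤ n * P.gb ^ 3
  hs1 : P.s1 * P.gl ^ 2 * 6400 ≤ 1
  hs1' : 1 ≤ P.s1 * P.gl ^ 2 * 6500
  hs0 : P.s0 * P.gb ^ 2 * 6400 ≤ 1
  hs0' : 1 ≤ P.s0 * P.gb ^ 2 * 6500

end Prm

end

end Pool.Agent.TH972.U
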