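import Pool.Agent.TH972.U.NumDef
import Pool.Agent.TH972.U.PrDef

set_option autoImplicit false
set_option linter.unusedSectionVars false

namespace Pool.Agent.TH972.U

noncomputable section

namespace M2

theorem fl (g : ℝ) (hg : 0 < g) (hg1 : g ≤ 1 / 1000) :
    (⌊1 / (6400 * g ^ 2)⌋₊ : ℝ) * g ^ 2 * 6400 ≤ 1 ∧
      1 ≤ (⌊1 / (6400 * g ^ 2)⌋₊ : ℝ) * g ^ 2 * 6500 := by
  have hz : 0 ≤ 1 / (6400 * g ^ 2) := by positivity
  have h1 : (⌊1 / (6400 * g ^ 2)⌋₊ : ℝ) ≤ 1 / (6400 * g ^ 2) := Nat.floor_le hz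
  have h2 : 1 / (6400 * g ^ 2) < (⌊1 / (6400 * g ^ 2)⌋₊ : ℝ) + 1 := Nat.lt_floor_add_one _
  have h3 : 1 / (6400 * g ^ 2) * (g ^ 2 * 6400) = 1 := by
    have : g ≠ 0 := hg.ne'
    field_simp
  have hg2 : 0 < g ^ 2 := by positivity
  have hg3 : g ^ 2 ≤ (1 / 1000) ^ 2 := pow_le_pow_left₀ hg.le hg1 2
  constructor
  · nlinarith [mul_le_mul_of_nonneg_right h1 (by positivity : 0 ≤ g ^ 2 * 6400)]
  · have h4 := mul_lt_mul_of_pos_right h2 (by positivity : 0 < g ^ 2 * 6500)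
    have h5 : 1 / (6400 * g ^ 2) * (g ^ 2 * 6500) = 6500 / 6400 := by
      have : g ≠ 0 := hg.ne'
      field_simp
    rw [h5] at h4
    nlinarith

theorem lvl {w : ℝ → ℝ} {gam : ℤ → ℝ} {n : ℕ} {y : ℝ} {K : ℕ} (H : Lvs w gam n y K) (k : ℕ)
    (hk : k ≤ K) : 0.999 * k / y ≤ 1 - n * gam (-(k : ℤ)) ∧
      1 - n * gam (-(k : ℤ)) ≤ 1.001 * k / y := by
  induction k with
  | zero =>
    have := H.g0
    simp only [Nat.cast_zero, neg_zero, mul_zero, zero_div]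
    rw [this]
    simp
  | succ k ih =>
    obtain ⟨i1, i2⟩ := ih (by omega)
    have h1 := H.lo (-((k + 1 : ℕ) : ℤ)) (by omega) (by omega)
    have h2 := H.hi (-((k + 1 : ℕ) : ℤ)) (by omega) (by omega)
    have e : -((k + 1 : ℕ) : ℤ) + 1 = -(k : ℤ) := by push_cast; ring
    rw [e] at h1 h2
    have e1 : 0.999 * ((k + 1 : ℕ) : ℝ) / y = 0.999 * k / y + 0.999 / y := by push_cast; ring
    have e2 : 1.001 * ((k + 1 : ℕ) : ℝ) / y = 1.001 * k / y + 1.001 / y := by push_cast; ring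
    rw [e1, e2]
    constructor <;> linarith

theorem aux_q (q : ℝ) (h : 10 ^ 10 ≤ q) : q + 1 ≤ q ^ 4 ∧ q ^ 2 ≤ q ^ 4 ∧ 120 * (q + 1) ≤ q ^ 2 ∧
    10 ^ 4 ≤ q ^ 2 := by
  have h1 : (1:ℝ) ≤ q := by linarith [show (1:ℝ) ≤ 10 ^ 10 by norm_num]
  have h2 : 10 ^ 10 * q ≤ q * q := mul_le_mul_of_nonneg_right h (by linarith)
  have h3 : q ^ 2 = q * q := by ring
  have h4 : q ^ 4 = q ^ 2 * q ^ 2 := by ring
  have h5 : q ^ 2 * 1 ≤ q ^ 2 * q ^ 2 :=
    mul_le_mul_of_nonneg_left (by rw [h3]; linarith) (by positivity)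
  refine ⟨by linarith, by linarith, by linarith, by linarith⟩

theorem aux_X (r L Z D : ℝ) (hL : 0 < L) (hZ : 0 < Z) (hD : 0 < D)
    (h1 : 128 / 12 * L ^ 7 ≤ L ^ 200) (h2 : D * L ^ 200 ≤ Z) :
    r ^ 2 * L / Z ≤ 12 * r ^ 2 / (128 * (L ^ 6 * D)) := by
  rw [div_le_div_iff₀ hZ (by positivity)]
  have e7 : (128 / 12 * L ^ 7) * (12 * D) ≤ L ^ 200 * (12 * D) :=
    mul_le_mul_of_nonneg_right h1 (by positivity)
  have e8 : L * (128 * (L ^ 6 * D)) ≤ 12 * Z := by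
    calc L * (128 * (L ^ 6 * D)) = (128 / 12 * L ^ 7) * (12 * D) := by ring
      _ ≤ L ^ 200 * (12 * D) := e7
      _ = 12 * (D * L ^ 200) := by ring
      _ ≤ 12 * Z := by linarith
  calc r ^ 2 * L * (128 * (L ^ 6 * D)) = r ^ 2 * (L * (128 * (L ^ 6 * D))) := by ring
    _ ≤ r ^ 2 * (12 * Z) := mul_le_mul_of_nonneg_left e8 (by positivity)
    _ = 12 * r ^ 2 * Z := by ring

theorem aux_aa2 (gb gl D L y : ℝ) (hL : 1 ≤ L) (hy : 0 < y) (hgb : gb = 1 / L ^ 3 / y)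
    (hgl : gl ≤ 2 * L / y) (hD : 5 * L ^ 9 ≤ D) : gb * gl / (8 * D) ≤ gb ^ 2 / 4 := by
  have hL0 : 0 < L := by linarith
  have hD0 : 0 < D := lt_of_lt_of_le (by positivity) hD
  have hgb0 : 0 < gb := by rw [hgb]; positivity
  have e1 : gl ≤ 2 * gb * D := by
    refine hgl.trans ?_
    have e2 : 2 * gb * D = 2 * D / (L ^ 3 * y) := by
      rw [hgb]
      field_simp
    rw [e2, div_le_div_iff₀ hy (by positivity)]
    have e3 : L * L ^ 3 ≤ D := by
      have e4 : L ^ 4 ≤ L ^ 9 := pow_le_pow_right₀ hL (by norm_num)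
      have e5 : 0 ≤ L ^ 9 := by positivity
      calc L * L ^ 3 = L ^ 4 := by ring
        _ ≤ D := by linarith
    calc 2 * L * (L ^ 3 * y) = 2 * y * (L * L ^ 3) := by ring
      _ ≤ 2 * y * D := mul_le_mul_of_nonneg_left e3 (by positivity)
      _ = 2 * D * y := by ring
  rw [div_le_div_iff₀ (by positivity) (by norm_num)]
  have e6 : gb * gl ≤ gb * (2 * gb * D) := mul_le_mul_of_nonneg_left e1 hgb0.le
  calc gb * gl * 4 ≤ gb * (2 * gb * D) * 4 := by linarith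
    _ = gb ^ 2 * (8 * D) := by ring

end M2

open M2 in
theorem prm_ok {n : ℕ} {w : ℝ → ℝ} {gam : ℤ → ℝ} {y Z : ℝ} (hn : 2 ≤ n)
    (H : Lvs w gam n y (KL (Real.log n))) (HB : Big (Real.log n) Z) (hZy : Z ≤ y)
    (hZn : y ^ 3 * Z ^ 24 ≤ n) : (prm n w gam y Z).Ok := by
  have hn0 : (0 : ℝ) < n := by
    have : 0 < n := by omega
    exact_mod_cast this
  -- abbreviations
  obtain ⟨L, hLdef⟩ : ∃ L : ℝ, L = Real.log n := ⟨_, rfl⟩
  obtain ⟨hL, h1, h2, h3, h4, h5, h6, h7, h8, h9⟩ := HB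
  rw [← hLdef] at H hL h1 h2 h3 h4 h5 h6 h7 h8 h9
  have hexpL : Real.exp L = n := by rw [hLdef, Real.exp_log hn0]
  have hL0 : 0 < L := by linarith [show (0:ℝ) < 10 ^ 40 by norm_num]
  have hL1 : 1 ≤ L := by linarith [show (1:ℝ) ≤ 10 ^ 40 by norm_num]
  have hpow : ∀ (c : ℝ) (a b : ℕ), c ≤ 10 ^ 40 → a < b → c * L ^ a ≤ L ^ b := by
    intro c a b hc hab
    have e1 : c * L ^ a ≤ L * L ^ a := mul_le_mul_of_nonneg_right (hc.trans hL) (by positivity)
    have e2 : L * L ^ a = L ^ (a + 1) := by ring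
    have e3 : L ^ (a + 1) ≤ L ^ b := pow_le_pow_right₀ hL1 hab
    linarith
  have hpowZ : ∀ (c : ℝ) (a : ℕ), c ≤ 10 ^ 40 → a < 200 → c * L ^ a ≤ Z :=
    fun c a hc ha => (hpow c a 200 hc ha).trans h1
  have hZ1 : 1 ≤ Z := by
    have := hpowZ 1 0 (by norm_num) (by norm_num)
    simpa using this
  have hZ0 : 0 < Z := by linarith
  have hy1 : 1 ≤ y := by linarith
  have hy0 : 0 < y := by linarith
  -- `n = r² y³`
  obtain ⟨r, hr0, hr⟩ : ∃ r : ℝ, 0 < r ∧ (n : ℝ) = r ^ 2 * y ^ 3 := by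
    refine ⟨Real.sqrt (n / y ^ 3), Real.sqrt_pos.2 (by positivity), ?_⟩
    rw [Real.sq_sqrt (by positivity)]
    field_simp
  have hrZ : Z ^ 12 ≤ r := by
    have e1 : (Z ^ 12) ^ 2 ≤ r ^ 2 := by
      rw [hr] at hZn
      have e2 : 0 < y ^ 3 := by positivity
      have e3 : y ^ 3 * Z ^ 24 ≤ y ^ 3 * r ^ 2 := by linarith [mul_comm (r ^ 2) (y ^ 3)]
      have e4 := le_of_mul_le_mul_left e3 e2
      calc (Z ^ 12) ^ 2 = Z ^ 24 := by ring
        _ ≤ r ^ 2 := e4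
    exact le_of_sq_le_sq e1 hr0.le
  have hr1 : 1 ≤ r := (one_le_pow₀ hZ1).trans hrZ
  have hsq : Real.sqrt (n / y) = r * y := by
    rw [hr, show r ^ 2 * y ^ 3 / y = (r * y) ^ 2 by field_simp, Real.sqrt_sq (by positivity)]
  -- `m`
  obtain ⟨m, hm⟩ : ∃ m : ℕ, m = ⌈Real.sqrt (n / y) * Z ^ 8⌉₊ := ⟨_, rfl⟩
  have hmlo : r * y * Z ^ 8 ≤ m := by
    rw [hm, hsq]
    exact Nat.le_ceil _
  have hmhi : (m : ℝ) ≤ r * y * Z ^ 8 + 1 := by
    rw [hm, hsq]
    exact (Nat.ceil_lt_add_one (by positivity)).le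
  have hZ8 : 1 ≤ Z ^ 8 := one_le_pow₀ hZ1
  have hry : 1 ≤ r * y := one_le_mul_of_one_le_of_one_le hr1 hy1
  have hryZ : 1 ≤ r * y * Z ^ 8 := one_le_mul_of_one_le_of_one_le hry hZ8
  -- integers
  obtain ⟨K, hK⟩ : ∃ K : ℕ, K = KL L := ⟨_, rfl⟩
  have hKlo : L ^ 9 ≤ K := by rw [hK]; exact Nat.le_ceil _
  have hKhi : (K : ℝ) ≤ L ^ 9 + 1 := by
    rw [hK]; exact (Nat.ceil_lt_add_one (by positivity)).le
  obtain ⟨I0, hI0⟩ : ∃ I0 : ℕ, I0 = I0L L := ⟨_, rfl⟩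
  have hI0lo : L ^ 8 ≤ I0 := by rw [hI0]; exact Nat.le_ceil _
  have hI0hi : (I0 : ℝ) ≤ L ^ 8 + 1 := by
    rw [hI0]; exact (Nat.ceil_lt_add_one (by positivity)).le
  obtain ⟨I, hI⟩ : ∃ I : ℕ, I = IL L := ⟨_, rfl⟩
  have hIlo : 2 * L ^ 8 ≤ I := by rw [hI]; exact Nat.le_ceil _
  have hIhi : (I : ℝ) ≤ 2 * L ^ 8 + 1 := by
    rw [hI]; exact (Nat.ceil_lt_add_one (by positivity)).le
  obtain ⟨q, hq⟩ : ∃ q : ℝ, q = Real.sqrt (Real.sqrt L) := ⟨_, rfl⟩
  have hq2 : q ^ 2 = Real.sqrt L := by rw [hq, Real.sq_sqrt (Real.sqrt_nonneg _)]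
  have hq4 : q ^ 4 = L := by
    rw [show q ^ 4 = (q ^ 2) ^ 2 by ring, hq2, Real.sq_sqrt hL0.le]
  have hq0 : 0 ≤ q := by rw [hq]; exact Real.sqrt_nonneg _
  have hq10 : 10 ^ 10 ≤ q := by
    by_contra hcon
    push Not at hcon
    have e1 : q ^ 4 < (10 ^ 10) ^ 4 := pow_lt_pow_left₀ hcon hq0 (by norm_num)
    rw [hq4] at e1
    norm_num at e1 hL
    linarith
  obtain ⟨a, ha⟩ : ∃ a : ℕ, a = aL L := ⟨_, rfl⟩
  have halo : q ≤ a := by rw [ha, hq]; exact Nat.le_ceil _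
  have hahi : (a : ℝ) ≤ q + 1 := by
    rw [ha, hq]; exact (Nat.ceil_lt_add_one (Real.sqrt_nonneg _)).le
  obtain ⟨hqa, hqb, hqc, hqd⟩ := aux_q q hq10
  have hqL : q + 1 ≤ L := by
    rw [← hq4]
    exact hqa
  obtain ⟨J, hJ⟩ : ∃ J : ℕ, J = JL L := ⟨_, rfl⟩
  rw [← hJ] at h3 h4 h6 h7 h8 h9
  rw [← hK] at h3 H
  have hLL : ∀ a b : ℕ, a ≤ b → L ^ a ≤ L ^ b := fun a b h => pow_le_pow_right₀ hL1 h
  have haK : a ≤ K := by
    have e1 : (a : ℝ) ≤ K := by
      have := hLL 1 9 (by norm_num)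
      rw [pow_one] at this
      linarith
    exact_mod_cast e1
  obtain ⟨gl, hgl⟩ : ∃ gl : ℝ, gl = 1 - n * gam (-(a : ℤ)) := ⟨_, rfl⟩
  obtain ⟨hg1, hg2⟩ := lvl H a haK
  rw [← hgl] at hg1 hg2
  have ha13 : (13 : ℝ) ≤ a := by linarith [show (13:ℝ) ≤ 10 ^ 10 by norm_num]
  have hglo : 12 / y ≤ gl := by
    refine le_trans ?_ hg1
    rw [div_le_div_iff_of_pos_right hy0]
    linarith
  have hgl0 : 0 < gl := lt_of_lt_of_le (by positivity) hglo
  have hghi : gl ≤ 2 * L / y := by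
    refine hg2.trans ?_
    rw [div_le_div_iff_of_pos_right hy0]
    linarith
  have hgl1 : gl ≤ 1 / 1000 := by
    refine hghi.trans ?_
    rw [div_le_div_iff₀ hy0 (by norm_num)]
    have := hpowZ 2000 1 (by norm_num) (by norm_num)
    rw [pow_one] at this
    linarith
  -- `gb`
  obtain ⟨gb, hgb⟩ : ∃ gb : ℝ, gb = 1 / L ^ 3 / y := ⟨_, rfl⟩
  have hgb0 : 0 < gb := by rw [hgb]; positivity
  have hgb1 : gb ≤ 1 / 1000 := by
    rw [hgb, div_div]
    refine one_div_le_one_div_of_le (by norm_num) ?_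
    have e1 : (1000 : ℝ) ≤ y := by
      have := hpowZ 1000 0 (by norm_num) (by norm_num)
      rw [pow_zero, mul_one] at this
      linarith
    have e2 : 1 ≤ L ^ 3 := one_le_pow₀ hL1
    calc (1000 : ℝ) ≤ y := e1
      _ = 1 * y := by ring
      _ ≤ L ^ 3 * y := mul_le_mul_of_nonneg_right e2 hy0.le
  -- `D = (5K)^J`
  obtain ⟨D, hD⟩ : ∃ D : ℝ, D = (5 * (K : ℝ)) ^ J := ⟨_, rfl⟩
  rw [← hD] at h3
  have hK1 : 1 ≤ 5 * (K : ℝ) := by
    have := hLL 0 9 (by norm_num)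
    rw [pow_zero] at this
    linarith
  have hDlo : 5 * L ^ 9 ≤ D := by
    have e1 : 5 * (K : ℝ) ≤ D := by
      rw [hD]
      exact le_self_pow₀ hK1 (by omega)
    linarith
  have hD0 : 0 < D := lt_of_lt_of_le (by positivity) hDlo
  -- `aa`
  obtain ⟨aa, haa⟩ : ∃ aa : ℝ, aa = 1 / L ^ 3 / y * gl / (8 * D) := ⟨_, rfl⟩
  have haa' : aa = gb * gl / (8 * D) := by rw [haa, hgb]
  have haa0 : 0 < aa := by rw [haa']; positivity
  have haa1 : aa ≤ 1 := by
    rw [haa', div_le_one (by positivity)]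
    have e1 : gb * gl ≤ 1 * 1 := mul_le_mul (by linarith) (by linarith) hgl0.le (by norm_num)
    have e2 : 5 * L ^ 0 ≤ 5 * L ^ 9 := by
      have := hLL 0 9 (by norm_num)
      linarith
    rw [pow_zero] at e2
    linarith
  -- the main quantity
  have hX : r ^ 2 * L / Z ≤ aa * (n * gb / 16) := by
    have e1 : aa * (n * gb / 16) = n * gb ^ 2 * gl / (128 * D) := by
      rw [haa']
      field_simp
      ring
    have e2 : n * gb ^ 2 * (12 / y) / (128 * D) ≤ n * gb ^ 2 * gl / (128 * D) := by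
      gcongr
    have e3 : n * gb ^ 2 * (12 / y) / (128 * D) = 12 * r ^ 2 / (128 * (L ^ 6 * D)) := by
      rw [hgb, hr]
      field_simp
    have e4 : r ^ 2 * L / Z ≤ 12 * r ^ 2 / (128 * (L ^ 6 * D)) :=
      aux_X r L Z D hL0 hZ0 hD0 (hpow (128 / 12) 7 200 (by norm_num) (by norm_num)) h3
    rw [e1]
    exact e4.trans (e3.symm.le.trans e2)
  have hrZ11 : Z ^ 11 * r * L ≤ r ^ 2 * L / Z := by
    rw [le_div_iff₀ hZ0]
    have e1 : Z ^ 12 * (r * L) ≤ r * (r * L) := mul_le_mul_of_nonneg_right hrZ (by positivity)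
    calc Z ^ 11 * r * L * Z = Z ^ 12 * (r * L) := by ring
      _ ≤ r * (r * L) := e1
      _ = r ^ 2 * L := by ring
  have hm2 : (m : ℝ) + 3 ≤ n * gb / 8 := by
    have e1 : n * gb / 8 = r ^ 2 * y ^ 2 / (8 * L ^ 3) := by
      rw [hgb, hr]
      field_simp
    rw [e1, le_div_iff₀ (by positivity)]
    have e2 : (m : ℝ) + 3 ≤ 5 * (r * y * Z ^ 8) := by linarith
    have e3 : 40 * L ^ 3 ≤ Z := hpowZ 40 3 (by norm_num) (by norm_num)
    have e4 : Z ^ 9 ≤ r * y := by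
      have e5 : Z ^ 9 ≤ Z ^ 12 := pow_le_pow_right₀ hZ1 (by norm_num)
      calc Z ^ 9 ≤ r := e5.trans hrZ
        _ = r * 1 := by ring
        _ ≤ r * y := mul_le_mul_of_nonneg_left hy1 hr0.le
    calc ((m : ℝ) + 3) * (8 * L ^ 3) ≤ 5 * (r * y * Z ^ 8) * (8 * L ^ 3) :=
          mul_le_mul_of_nonneg_right e2 (by positivity)
      _ = (r * y * Z ^ 8) * (40 * L ^ 3) := by ring
      _ ≤ (r * y * Z ^ 8) * Z := mul_le_mul_of_nonneg_left e3 (by positivity)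
      _ = (r * y) * Z ^ 9 := by ring
      _ ≤ (r * y) * (r * y) := mul_le_mul_of_nonneg_left e4 (by positivity)
      _ = r ^ 2 * y ^ 2 := by ring
  have hmn : (m : ℝ) ≤ n := by
    have e1 : n * gb / 8 ≤ n := by
      have : n * gb ≤ n * 1 := mul_le_mul_of_nonneg_left (by linarith) hn0.le
      linarith
    linarith
  have hyn : y ≤ n := by
    have e1 : 1 ≤ Z ^ 24 := one_le_pow₀ hZ1
    have e2 : y ≤ y ^ 3 := le_self_pow₀ hy1 (by norm_num)
    have e3 : y ^ 3 * 1 ≤ y ^ 3 * Z ^ 24 := mul_le_mul_of_nonneg_left e1 (by positivity)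
    linarith
  have hb0 : 0 ≤ Real.log (8 * ((J : ℝ) + 1)) := by
    refine Real.log_nonneg ?_
    have : (0 : ℝ) ≤ J := by positivity
    linarith
  have hsqL : Real.sqrt L ≤ L := by
    rw [← hq2, ← hq4]
    exact hqb
  have hfl1 := fl gl hgl0 hgl1
  have hfl2 := fl gb hgb0 hgb1
  have hL8 : (1:ℝ) ≤ L ^ 8 := one_le_pow₀ hL1
  have hL18 : L ≤ L ^ 8 := le_self_pow₀ hL1 (by norm_num)
  have hL89 : 10 * L ^ 8 ≤ L ^ 9 := hpow 10 8 9 (by norm_num) (by norm_num)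
  -- values of the fields
  have eK : (prm n w gam y Z).K = K := by rw [hK, hLdef]; rfl
  have eI0 : (prm n w gam y Z).I0 = I0 := by rw [hI0, hLdef]; rfl
  have eI : (prm n w gam y Z).I = I := by rw [hI, hLdef]; rfl
  have ea : (prm n w gam y Z).a5 = a := by rw [ha, hLdef]; rfl
  have eJ : (prm n w gam y Z).J = J := by rw [hJ, hLdef]; rfl
  have em : (prm n w gam y Z).m = m := by rw [hm]; rfl
  have eη : (prm n w gam y Z).η = 1 / L ^ 3 := by rw [hLdef]; rfl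
  have eb : (prm n w gam y Z).b = Real.log (8 * ((J : ℝ) + 1)) := by rw [hJ, hLdef]; rfl
  have elam : (prm n w gam y Z).lam = Real.sqrt L := by rw [hLdef]; rfl
  have eaa : (prm n w gam y Z).aa = aa := by rw [haa, hgl, hD, hK, hJ, ha, hLdef]; rfl
  have ey : (prm n w gam y Z).y = y := rfl
  have egl : (prm n w gam y Z).gl = gl := by
    unfold Prm.gl Prm.pl
    rw [ea, hgl]
    rfl
  have egb : (prm n w gam y Z).gb = gb := by
    unfold Prm.gb
    rw [eη, ey, hgb]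
  have eX0 : (prm n w gam y Z).X0 = n * gb / 16 := by
    unfold Prm.X0
    rw [egb]
  have hK2 : (K : ℝ) ≤ 2 * L ^ 9 := by
    have := hLL 0 9 (by norm_num)
    rw [pow_zero] at this
    linarith
  have haL : (a : ℝ) ≤ L := hahi.trans hqL
  have hm1 : (1 : ℝ) ≤ m := hryZ.trans hmlo
  constructor
  case lvs => rw [eK]; exact H
  case hn => exact hn
  case hL => rw [← hLdef]; exact hL1
  case hyn => exact hyn
  case hKy =>
    rw [eK, ey, div_le_div_iff₀ hy0 (by norm_num)]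
    have := hpowZ 2000 9 (by norm_num) (by norm_num)
    linarith
  case hη => rw [eη]; positivity
  case hη1 =>
    rw [eη, mul_one_div, div_le_one (by positivity)]
    have := hpow 1000 0 3 (by norm_num) (by norm_num)
    linarith
  case hI0 =>
    rw [ea, eI0, ey]
    calc y * Real.exp a ≤ Real.exp L * Real.exp L := by
          rw [hexpL]
          refine mul_le_mul hyn ?_ (Real.exp_pos _).le hn0.le
          rw [← hexpL]
          exact Real.exp_le_exp.2 haL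
      _ = Real.exp (L + L) := (Real.exp_add _ _).symm
      _ ≤ Real.exp I0 := by
          refine Real.exp_le_exp.2 ?_
          have := hpow 2 1 8 (by norm_num) (by norm_num)
          rw [pow_one] at this
          linarith
  case hI0K =>
    rw [eI0, eK]
    have : (I0 : ℝ) ≤ K := by linarith
    exact_mod_cast this
  case hI =>
    rw [eI, ← hLdef]
    linarith
  case ha5 =>
    rw [ea]
    exact_mod_cast ha13
  case ha5l =>
    rw [ea, elam, ← hq2]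
    linarith
  case ha5K =>
    rw [ea, eI0]
    have : (a : ℝ) ≤ I0 := by linarith
    exact_mod_cast this
  case hlam =>
    rw [elam, ← hq2]
    exact hqd
  case hlamI =>
    rw [elam, eI]
    linarith
  case hb0 => rw [eb]; exact hb0
  case hb => rw [eb, elam]; exact h7
  case hbJ =>
    have hJ0 : (0 : ℝ) ≤ J := by positivity
    rw [eb, eJ, Real.exp_log (by positivity)]
    linarith
  case hK =>
    rw [eI, eb, em, eK]
    have e1 : Real.log (2 * (m : ℝ) + 1) ≤ L + 2 := by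
      have e2 : 2 * (m : ℝ) + 1 ≤ 3 * n := by linarith
      have e3 : Real.log (2 * (m : ℝ) + 1) ≤ Real.log (3 * n) := Real.log_le_log (by positivity) e2
      rw [Real.log_mul (by norm_num) hn0.ne', ← hLdef] at e3
      have e4 : Real.log 3 ≤ 3 - 1 := Real.log_le_sub_one_of_pos (by norm_num)
      linarith
    have e5 : Real.log (8 * ((J : ℝ) + 1)) ≤ L := by
      have : Real.sqrt L / 100 ≤ Real.sqrt L := by
        have := Real.sqrt_nonneg L
        linarith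
      linarith
    linarith
  case haa => rw [eaa]; exact haa0
  case haa1 =>
    rw [eaa, eK, eJ, egb, egl, ← hD, haa']
    refine le_of_eq ?_
    field_simp
  case haa2 =>
    rw [eaa, egb, haa']
    exact aux_aa2 gb gl D L y hL1 hy0 hgb hghi hDlo
  case hJ => rw [eJ]; exact h9
  case hJ2 =>
    rw [eK, eη, eJ]
    have e1 : (10 : ℝ) ^ J = 10 ^ (J - 4) * 10 ^ 4 := by
      rw [← pow_add]
      congr 1
      omega
    have e2 : L ^ 23 / 10 ^ 4 ≤ 10 ^ (J - 4) := by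
      rw [div_le_iff₀ (by norm_num), ← e1]
      exact h8
    have e3 : 1 / L ^ 3 * (L ^ 23 / 10 ^ 4) ≤ 1 / L ^ 3 * 10 ^ (J - 4) :=
      mul_le_mul_of_nonneg_left e2 (by positivity)
    have e4 : 1 / L ^ 3 * (L ^ 23 / 10 ^ 4) = L ^ 20 / 10 ^ 4 := by
      field_simp
    rw [e4] at e3
    have e5 := hpow (2.6 * 10 ^ 11) 9 20 (by norm_num) (by norm_num)
    have e6 : 2.6 * 10 ^ 7 * L ^ 9 ≤ L ^ 20 / 10 ^ 4 := by
      rw [le_div_iff₀ (by norm_num)]
      calc 2.6 * 10 ^ 7 * L ^ 9 * 10 ^ 4 = 2.6 * 10 ^ 11 * L ^ 9 := by ring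
        _ ≤ L ^ 20 := e5
    calc 1.3 * 10 ^ 7 * (K : ℝ) ≤ 1.3 * 10 ^ 7 * (2 * L ^ 9) :=
          mul_le_mul_of_nonneg_left hK2 (by norm_num)
      _ = 2.6 * 10 ^ 7 * L ^ 9 := by ring
      _ ≤ _ := e6.trans e3
  case hcap =>
    rw [eaa, egb, ey]
    have e1 : L + 1 ≤ aa * (n * gb / 16 - 1) := by
      have e2 : aa * (n * gb / 16 - 1) = aa * (n * gb / 16) - aa := by ring
      have e3 : 3 * L ≤ Z ^ 11 * r * L := by
        have e4 : (3:ℝ) ≤ Z := by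
          have := hpowZ 3 0 (by norm_num) (by norm_num)
          rw [pow_zero, mul_one] at this
          exact this
        have e5 : Z ≤ Z ^ 11 := le_self_pow₀ hZ1 (by norm_num)
        have e6 : (3:ℝ) * 1 ≤ Z ^ 11 * r := mul_le_mul (e4.trans e5) hr1 (by norm_num) (by positivity)
        rw [mul_one] at e6
        exact mul_le_mul_of_nonneg_right e6 hL0.le
      rw [e2]
      linarith
    have e7 : 2 * y ≤ Real.exp (L + 1) := by
      rw [Real.exp_add, hexpL]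
      have e8 : (2:ℝ) ≤ Real.exp 1 := by
        have := Real.add_one_le_exp (1:ℝ)
        linarith
      calc 2 * y ≤ 2 * n := by linarith
        _ = n * 2 := by ring
        _ ≤ n * Real.exp 1 := mul_le_mul_of_nonneg_left e8 hn0.le
    exact e7.trans (Real.exp_le_exp.2 e1)
  case hX =>
    rw [eK, em, eaa, eX0, ey]
    refine le_trans ?_ (hrZ11.trans hX)
    rw [div_le_iff₀ hy0]
    have e1 : (m : ℝ) ≤ 2 * (r * y * Z ^ 8) := by linarith
    have e2 : 3 * (K : ℝ) * m ≤ 3 * (2 * L ^ 9) * (2 * (r * y * Z ^ 8)) := by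
      refine mul_le_mul ?_ e1 (by positivity) (by positivity)
      linarith
    have e3 : 12 * L ^ 9 ≤ Z := hpowZ 12 9 (by norm_num) (by norm_num)
    have e4 : Z ^ 9 ≤ Z ^ 11 := pow_le_pow_right₀ hZ1 (by norm_num)
    calc 3 * (K : ℝ) * m ≤ (12 * L ^ 9) * (r * y * Z ^ 8) := by linarith
      _ ≤ Z * (r * y * Z ^ 8) := mul_le_mul_of_nonneg_right e3 (by positivity)
      _ = Z ^ 9 * (r * y) := by ring
      _ ≤ Z ^ 11 * (r * y) := mul_le_mul_of_nonneg_right e4 (by positivity)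
      _ = Z ^ 11 * r * 1 * y := by ring
      _ ≤ Z ^ 11 * r * L * y := by gcongr
  case hm =>
    rw [em]
    exact_mod_cast hm1
  case hm2 => rw [em, egb]; exact hm2
  case ngb =>
    rw [egb, ← hLdef]
    have e1 : n * gb ^ 3 = r ^ 2 / L ^ 9 := by
      rw [hgb, hr]
      field_simp
    rw [e1, le_div_iff₀ (by positivity)]
    have e2 : (10:ℝ) ^ 18 * L ^ 10 ≤ Z := hpowZ (10 ^ 18) 10 (by norm_num) (by norm_num)
    have e3 : Z ≤ Z ^ 12 := le_self_pow₀ hZ1 (by norm_num)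
    have e4 : r ≤ r ^ 2 := le_self_pow₀ hr1 (by norm_num)
    calc (10:ℝ) ^ 18 * L * L ^ 9 = 10 ^ 18 * L ^ 10 := by ring
      _ ≤ r ^ 2 := e2.trans (e3.trans (hrZ.trans e4))
  case hs1 => unfold Prm.s1; rw [egl]; exact hfl1.1
  case hs1' => unfold Prm.s1; rw [egl]; exact hfl1.2
  case hs0 => unfold Prm.s0; rw [egb]; exact hfl2.1
  case hs0' => unfold Prm.s0; rw [egb]; exact hfl2.2

end

end Pool.Agent.TH972.U
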