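import Pool.Agent.TH972.U.NumDef

/-!
# Numerical facts, part 2 (job RSTRE M3, helper416 for helper972)
-/

set_option autoImplicit false

namespace Pool.Agent.TH972.U

noncomputable section

namespace M3

/-- `c L ^ a ≤ L ^ b` -/
theorem pl {L c : ℝ} {a b : ℕ} (hL : 10 ^ 40 ≤ L) (hc : c ≤ 10 ^ 40) (hab : a + 1 ≤ b) :
    c * L ^ a ≤ L ^ b := by
  have h1 : (1 : ℝ) ≤ L := le_trans (by norm_num) hL
  calc c * L ^ a ≤ L * L ^ a := mul_le_mul_of_nonneg_right (hc.trans hL) (by positivity)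
    _ = L ^ (a + 1) := by rw [pow_succ, mul_comm]
    _ ≤ L ^ b := pow_le_pow_right₀ h1 hab

/-- the context -/
structure Cx (n : ℕ) (w : ℝ → ℝ) (gam : ℤ → ℝ) (y Z : ℝ) : Prop where
  hn : 2 ≤ n
  H : Lvs w gam n y (KL (Real.log n))
  HB : Big (Real.log n) Z
  hZy : Z ≤ y
  hZn : y ^ 3 * Z ^ 24 ≤ n

section
variable {n : ℕ} {w : ℝ → ℝ} {gam : ℤ → ℝ} {y Z : ℝ}

theorem Cx.L1 (c : Cx n w gam y Z) : 1 ≤ Real.log n := le_trans (by norm_num) c.HB.hL

theorem Cx.L0 (c : Cx n w gam y Z) : 0 < Real.log n := lt_of_lt_of_le one_pos c.L1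

theorem Cx.LZ (c : Cx n w gam y Z) {a : ℕ} (ha : a ≤ 200) : Real.log n ^ a ≤ Z :=
  (pow_le_pow_right₀ c.L1 ha).trans c.HB.h1

theorem Cx.Z0 (c : Cx n w gam y Z) : 0 < Z := lt_of_lt_of_le (pow_pos c.L0 200) c.HB.h1

theorem Cx.Z1 (c : Cx n w gam y Z) : 1 ≤ Z := (one_le_pow₀ c.L1).trans c.HB.h1

theorem Cx.Zb (c : Cx n w gam y Z) : 10 ^ 40 ≤ Z := by
  have := c.LZ (a := 1) (by norm_num)
  rw [pow_one] at this
  exact c.HB.hL.trans this

theorem Cx.y0 (c : Cx n w gam y Z) : 0 < y := lt_of_lt_of_le c.Z0 c.hZy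

theorem Cx.n0 (c : Cx n w gam y Z) : (0 : ℝ) < n := by
  have := c.hn
  have h2 : 0 < n := by omega
  exact_mod_cast h2

/-- `S` -/
def S (n : ℕ) (y : ℝ) : ℝ := Real.sqrt (n / y ^ 3)

theorem Cx.S0 (c : Cx n w gam y Z) : 0 < S n y :=
  Real.sqrt_pos.2 (div_pos c.n0 (pow_pos c.y0 3))

theorem Cx.Ssq (c : Cx n w gam y Z) : (n : ℝ) = S n y ^ 2 * y ^ 3 := by
  have h := c.y0
  unfold S
  rw [Real.sq_sqrt (div_pos c.n0 (pow_pos h 3)).le]
  field_simp

theorem Cx.SZ (c : Cx n w gam y Z) : Z ^ 12 ≤ S n y := by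
  unfold S
  refine Real.le_sqrt_of_sq_le ?_
  rw [le_div_iff₀ (pow_pos c.y0 3)]
  have e : (Z ^ 12) ^ 2 * y ^ 3 = y ^ 3 * Z ^ 24 := by ring
  rw [e]
  exact c.hZn

theorem Cx.S1 (c : Cx n w gam y Z) : 1 ≤ S n y := (one_le_pow₀ c.Z1).trans c.SZ

theorem Cx.exps (c : Cx n w gam y Z) : Real.log n ^ 40 ≤ Real.exp (Real.sqrt (Real.log n)) := by
  refine c.HB.h5.trans (Real.exp_le_exp.2 ?_)
  refine Real.sqrt_le_sqrt ?_
  rw [Real.sqrt_le_left c.L0.le]
  nlinarith [c.L1]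

/-! ### elementary identities -/

theorem Cx.gb (_c : Cx n w gam y Z) : (prm n w gam y Z).gb = 1 / (Real.log n ^ 3 * y) := by
  show 1 / Real.log n ^ 3 / y = _
  rw [div_div]

theorem Cx.rb (c : Cx n w gam y Z) : (prm n w gam y Z).ρb = 28 * Real.log n ^ 4 := by
  have h := c.L0
  show 28 * Real.log n / (1 / Real.log n ^ 3) = _
  field_simp

theorem Cx.Dl (c : Cx n w gam y Z) : (prm n w gam y Z).Δ = 15000 * Real.log n ^ 5 := by
  have h := c.L0
  show 15000 * Real.log n ^ 2 / (1 / Real.log n ^ 3) = _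
  field_simp

theorem Cx.Ilo (_c : Cx n w gam y Z) : 2 * Real.log n ^ 8 ≤ ((prm n w gam y Z).I : ℝ) :=
  Nat.le_ceil _

theorem Cx.Ihi (c : Cx n w gam y Z) : ((prm n w gam y Z).I : ℝ) ≤ 3 * Real.log n ^ 8 := by
  have h0 := c.L0
  have h1 : ((prm n w gam y Z).I : ℝ) < 2 * Real.log n ^ 8 + 1 := Nat.ceil_lt_add_one (by positivity)
  have h2 : 1 ≤ Real.log n ^ 8 := one_le_pow₀ c.L1
  linarith

theorem Cx.Khi (c : Cx n w gam y Z) : ((prm n w gam y Z).K : ℝ) ≤ Real.log n ^ 10 := by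
  have h0 := c.L0
  have h1 : ((prm n w gam y Z).K : ℝ) < Real.log n ^ 9 + 1 := Nat.ceil_lt_add_one (by positivity)
  have h2 : 1 ≤ Real.log n ^ 9 := one_le_pow₀ c.L1
  have h3 : 2 * Real.log n ^ 9 ≤ Real.log n ^ 10 := pl c.HB.hL (by norm_num) (by norm_num)
  linarith

theorem Cx.A0 (_c : Cx n w gam y Z) : 0 ≤ (prm n w gam y Z).A := by
  unfold Prm.A
  positivity

theorem Cx.A1 (c : Cx n w gam y Z) : (prm n w gam y Z).A ≤ 3600 * Real.log n ^ 24 := by
  have h := c.L0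
  have e : (prm n w gam y Z).A = 400 * ((prm n w gam y Z).I : ℝ) ^ 2 * Real.log n ^ 8 := by
    show 400 * ((prm n w gam y Z).I : ℝ) ^ 2 * Real.log n ^ 2 / (1 / Real.log n ^ 3) ^ 2 = _
    field_simp
  rw [e]
  have h1 : ((prm n w gam y Z).I : ℝ) ^ 2 ≤ (3 * Real.log n ^ 8) ^ 2 :=
    pow_le_pow_left₀ (by positivity) c.Ihi 2
  calc 400 * ((prm n w gam y Z).I : ℝ) ^ 2 * Real.log n ^ 8
      ≤ 400 * (3 * Real.log n ^ 8) ^ 2 * Real.log n ^ 8 := by gcongr
    _ = 3600 * Real.log n ^ 24 := by ring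

theorem Cx.ac2 (c : Cx n w gam y Z) : 2 ≤ (prm n w gam y Z).ac := by
  have := c.A0
  unfold Prm.ac
  linarith

theorem Cx.ac1 (c : Cx n w gam y Z) : (prm n w gam y Z).ac ≤ Real.log n ^ 30 := by
  have h1 := c.A1
  have h2 : 1 ≤ Real.log n ^ 24 := one_le_pow₀ c.L1
  have h3 : 20000 * Real.log n ^ 24 ≤ Real.log n ^ 30 := pl c.HB.hL (by norm_num) (by norm_num)
  unfold Prm.ac
  linarith

theorem Cx.wl (c : Cx n w gam y Z) : 1 / w (gam 1) ≤ 3 := by
  have h1 := c.H.up 1 (by omega) (gam 1) le_rfl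
  have h2 : Real.exp ((1 : ℤ) : ℝ) ≤ 3 := by
    have := Real.exp_one_lt_d9
    push_cast
    linarith
  exact h1.trans h2

theorem Cx.Cb0 (c : Cx n w gam y Z) : 0 < (prm n w gam y Z).Cb := by
  have h := c.L0
  have hw : 0 ≤ 1 / w (gam 1) := by
    have := c.H.wpos (gam 1)
    positivity
  have e : (prm n w gam y Z).Cb = 2 * (prm n w gam y Z).ρb +
      12 * (prm n w gam y Z).Δ * ((prm n w gam y Z).Δ * (prm n w gam y Z).ρb + 1 / w (gam 1)) := rfl
  rw [e, c.rb, c.Dl]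
  positivity

theorem Cx.Cb1 (c : Cx n w gam y Z) : (prm n w gam y Z).Cb ≤ 10 ^ 11 * Real.log n ^ 14 := by
  have h := c.L0
  have hw := c.wl
  have e : (prm n w gam y Z).Cb = 2 * (prm n w gam y Z).ρb +
      12 * (prm n w gam y Z).Δ * ((prm n w gam y Z).Δ * (prm n w gam y Z).ρb + 1 / w (gam 1)) := rfl
  rw [e, c.rb, c.Dl]
  have h1 : 12 * (15000 * Real.log n ^ 5) * (15000 * Real.log n ^ 5 * (28 * Real.log n ^ 4) +
      1 / w (gam 1)) ≤ 12 * (15000 * Real.log n ^ 5) *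
        (15000 * Real.log n ^ 5 * (28 * Real.log n ^ 4) + 3) := by gcongr
  have h2 : Real.log n ^ 4 ≤ Real.log n ^ 14 := pow_le_pow_right₀ c.L1 (by norm_num)
  have h3 : Real.log n ^ 5 ≤ Real.log n ^ 14 := pow_le_pow_right₀ c.L1 (by norm_num)
  have e2 : 12 * (15000 * Real.log n ^ 5) *
        (15000 * Real.log n ^ 5 * (28 * Real.log n ^ 4) + 3) =
      75600000000 * Real.log n ^ 14 + 540000 * Real.log n ^ 5 := by ring
  rw [e2] at h1
  have h4 : 0 ≤ Real.log n ^ 14 := by positivity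
  linarith

theorem Cx.smax (c : Cx n w gam y Z) : (prm n w gam y Z).smax = 16 * Real.log n ^ 7 * y ^ 2 := by
  have h := c.L0
  have hy := c.y0
  unfold Prm.smax
  rw [c.gb]
  field_simp

theorem Cx.vmin (c : Cx n w gam y Z) :
    (prm n w gam y Z).vmin = S n y ^ 2 * y ^ 2 / (2 * 10 ^ 8 * Real.log n ^ 3) := by
  have h := c.L0
  have hy := c.y0
  have e : (prm n w gam y Z).vmin = n * (prm n w gam y Z).gb / (2 * 10 ^ 8) := rfl
  rw [e, c.gb]
  have hN := c.Ssq
  generalize Real.log n = L at *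
  rw [hN]
  field_simp

theorem Cx.vmax (c : Cx n w gam y Z) :
    (prm n w gam y Z).vmax = 600 * S n y ^ 2 * y ^ 2 / Real.log n ^ 2 := by
  have h := c.L0
  have hy := c.y0
  have e : (prm n w gam y Z).vmax = 600 * n * (prm n w gam y Z).gb * Real.log n := rfl
  rw [e, c.gb]
  have hN := c.Ssq
  generalize Real.log n = L at *
  rw [hN]
  field_simp

theorem Cx.k1 (c : Cx n w gam y Z) :
    kk n y Z = Real.log n ^ 3 / (S n y * Z ^ 4 * y ^ 2) := by
  have h := c.L0
  have hy := c.y0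
  have hZ := c.Z0
  have hS := c.S0
  have e : kk n y Z = S n y / Z ^ 4 * (y * Real.log n ^ 3 / n) := rfl
  rw [e]
  have hN := c.Ssq
  generalize Real.log n = L at *
  generalize S n y = T at *
  rw [hN]
  field_simp

theorem Cx.k1p (c : Cx n w gam y Z) : 0 < kk n y Z := by
  have h := c.L0
  have hy := c.y0
  have hZ := c.Z0
  have hS := c.S0
  rw [c.k1]
  positivity

theorem Cx.ks (c : Cx n w gam y Z) :
    kk n y Z * (prm n w gam y Z).smax = 16 * Real.log n ^ 10 / (S n y * Z ^ 4) := by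
  have h := c.L0
  have hy := c.y0
  have hZ := c.Z0
  have hS := c.S0
  rw [c.k1, c.smax]
  generalize Real.log n = L at *
  generalize S n y = T at *
  field_simp

theorem Cx.kv (c : Cx n w gam y Z) :
    kk n y Z * (prm n w gam y Z).vmin = S n y / (2 * 10 ^ 8 * Z ^ 4) := by
  have h := c.L0
  have hy := c.y0
  have hZ := c.Z0
  have hS := c.S0
  rw [c.k1, c.vmin]
  generalize Real.log n = L at *
  generalize S n y = T at *
  field_simp

theorem Cx.kV (c : Cx n w gam y Z) :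
    kk n y Z * (prm n w gam y Z).vmax = 600 * Real.log n * S n y / Z ^ 4 := by
  have h := c.L0
  have hy := c.y0
  have hZ := c.Z0
  have hS := c.S0
  rw [c.k1, c.vmax]
  generalize Real.log n = L at *
  generalize S n y = T at *
  field_simp

theorem Cx.vv (c : Cx n w gam y Z) :
    (prm n w gam y Z).vmax = 12 * 10 ^ 10 * Real.log n * (prm n w gam y Z).vmin := by
  have h := c.L0
  have hy := c.y0
  have hZ := c.Z0
  have hS := c.S0
  rw [c.vmin, c.vmax]
  generalize Real.log n = L at *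
  generalize S n y = T at *
  field_simp
  ring

theorem Cx.vmin0 (c : Cx n w gam y Z) : 0 < (prm n w gam y Z).vmin := by
  have h := c.L0
  have hy := c.y0
  have hS := c.S0
  rw [c.vmin]
  positivity

theorem Cx.vmax0 (c : Cx n w gam y Z) : 0 < (prm n w gam y Z).vmax := by
  have h := c.L0
  have hy := c.y0
  have hS := c.S0
  rw [c.vmax]
  positivity

/-! ### the level `gl` -/

theorem sum_hi {K : ℕ} (H : Lvs w gam n y K) (i : ℤ) (hi : -(K : ℤ) ≤ i) :
    ∀ k : ℕ, i + k ≤ K + 1 → n * (gam (i + k) - gam i) ≤ 1.001 * k / y := by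
  intro k
  induction k with
  | zero => intro _; simp
  | succ k ih =>
    intro h
    push_cast at h
    have h1 := ih (by omega)
    have h2 := H.hi (i + k) (by omega) (by omega)
    have e1 : i + ((k + 1 : ℕ) : ℤ) = i + k + 1 := by push_cast; ring
    rw [e1]
    push_cast
    have e2 : 1.001 * ((k : ℝ) + 1) / y = 1.001 * k / y + 1.001 / y := by ring
    rw [e2]
    linarith

theorem sum_lo {K : ℕ} (H : Lvs w gam n y K) (i : ℤ) (hi : -(K : ℤ) ≤ i) :
    ∀ k : ℕ, i + k ≤ K + 1 → 0.999 * k / y ≤ n * (gam (i + k) - gam i) := by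
  intro k
  induction k with
  | zero => intro _; simp
  | succ k ih =>
    intro h
    push_cast at h
    have h1 := ih (by omega)
    have h2 := H.lo (i + k) (by omega) (by omega)
    have e1 : i + ((k + 1 : ℕ) : ℤ) = i + k + 1 := by push_cast; ring
    rw [e1]
    push_cast
    have e2 : 0.999 * ((k : ℝ) + 1) / y = 0.999 * k / y + 0.999 / y := by ring
    rw [e2]
    linarith

theorem Cx.sq1 (c : Cx n w gam y Z) : (10 : ℝ) ^ 20 ≤ Real.sqrt (Real.log n) := by
  refine Real.le_sqrt_of_sq_le ?_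
  have := c.HB.hL
  rw [← pow_mul]
  exact this

theorem Cx.sq2 (c : Cx n w gam y Z) : (10 : ℝ) ^ 10 ≤ Real.sqrt (Real.sqrt (Real.log n)) := by
  refine Real.le_sqrt_of_sq_le ?_
  have := c.sq1
  rw [← pow_mul]
  exact this

theorem Cx.aLlo (_c : Cx n w gam y Z) :
    Real.sqrt (Real.sqrt (Real.log n)) ≤ (aL (Real.log n) : ℝ) := Nat.le_ceil _

theorem Cx.aL1 (c : Cx n w gam y Z) : (1 : ℝ) ≤ (aL (Real.log n) : ℝ) :=
  le_trans (by norm_num) (c.sq2.trans c.aLlo)

theorem Cx.aLsq (c : Cx n w gam y Z) : (aL (Real.log n) : ℝ) ^ 2 ≤ Real.log n := by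
  have h1 : (aL (Real.log n) : ℝ) < Real.sqrt (Real.sqrt (Real.log n)) + 1 :=
    Nat.ceil_lt_add_one (Real.sqrt_nonneg _)
  have h2 := c.sq2
  have h3 := c.sq1
  have h4 : Real.sqrt (Real.sqrt (Real.log n)) ^ 2 = Real.sqrt (Real.log n) :=
    Real.sq_sqrt (Real.sqrt_nonneg _)
  have h5 : Real.sqrt (Real.log n) ^ 2 = Real.log n := Real.sq_sqrt c.L0.le
  have h6 := c.aL1
  have h7 : (aL (Real.log n) : ℝ) ≤ 2 * Real.sqrt (Real.sqrt (Real.log n)) := by linarith
  have h8 : (aL (Real.log n) : ℝ) ^ 2 ≤ (2 * Real.sqrt (Real.sqrt (Real.log n))) ^ 2 :=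
    pow_le_pow_left₀ (by linarith) h7 2
  have h9 : (2 * Real.sqrt (Real.sqrt (Real.log n))) ^ 2 = 4 * Real.sqrt (Real.log n) := by
    rw [mul_pow, h4]; norm_num
  rw [h9] at h8
  nlinarith

theorem Cx.aLK (c : Cx n w gam y Z) : aL (Real.log n) ≤ KL (Real.log n) := by
  have h1 := c.aLsq
  have h2 := c.aL1
  have h3 : (aL (Real.log n) : ℝ) ≤ (aL (Real.log n) : ℝ) ^ 2 := by nlinarith
  have h4 : Real.log n ≤ Real.log n ^ 9 := by
    have := pow_le_pow_right₀ c.L1 (show 1 ≤ 9 by norm_num)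
    rwa [pow_one] at this
  have h5 : Real.log n ^ 9 ≤ (KL (Real.log n) : ℝ) := Nat.le_ceil _
  have h6 : (aL (Real.log n) : ℝ) ≤ (KL (Real.log n) : ℝ) := by linarith
  exact_mod_cast h6

theorem Cx.gl_eq (c : Cx n w gam y Z) : (prm n w gam y Z).gl =
    n * (gam (-(aL (Real.log n) : ℤ) + (aL (Real.log n) : ℕ)) - gam (-(aL (Real.log n) : ℤ))) := by
  have e0 : (prm n w gam y Z).gl = 1 - n * gam (-(aL (Real.log n) : ℤ)) := rfl
  have e : -(aL (Real.log n) : ℤ) + (aL (Real.log n) : ℕ) = 0 := by simp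
  rw [e0, e, mul_sub, c.H.g0]

theorem Cx.gl_hi (c : Cx n w gam y Z) :
    (prm n w gam y Z).gl ≤ 1.001 * (aL (Real.log n) : ℝ) / y := by
  have h := c.aLK
  rw [c.gl_eq]
  exact sum_hi c.H _ (by omega) _ (by omega)

theorem Cx.gl_lo (c : Cx n w gam y Z) :
    0.999 * (aL (Real.log n) : ℝ) / y ≤ (prm n w gam y Z).gl := by
  have h := c.aLK
  rw [c.gl_eq]
  exact sum_lo c.H _ (by omega) _ (by omega)

theorem Cx.gl0 (c : Cx n w gam y Z) : 0 < (prm n w gam y Z).gl := by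
  have h1 := c.aL1
  have h2 := c.y0
  refine lt_of_lt_of_le ?_ c.gl_lo
  have : (0 : ℝ) < (aL (Real.log n) : ℝ) := by linarith
  positivity

theorem Cx.gl_sq (c : Cx n w gam y Z) :
    (prm n w gam y Z).gl ^ 2 ≤ 1.003 * Real.log n / y ^ 2 := by
  have h1 := pow_le_pow_left₀ c.gl0.le c.gl_hi 2
  have h2 := c.y0
  have h3 := c.aLsq
  have h4 := c.L0
  refine h1.trans ?_
  rw [div_pow]
  refine (div_le_div_iff_of_pos_right (by positivity)).2 ?_
  rw [mul_pow]
  have h5 : (1.001 : ℝ) ^ 2 ≤ 1.003 := by norm_num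
  exact mul_le_mul h5 h3 (by positivity) (by norm_num)

theorem Cx.s1 (c : Cx n w gam y Z) : y ^ 2 / (6520 * Real.log n) ≤ ((prm n w gam y Z).s1 : ℝ) := by
  have h0 := c.y0
  have h1 := c.gl_sq
  have h2 := c.L0
  have h3 := c.gl0
  have h4 : 1 / (6400 * (prm n w gam y Z).gl ^ 2) - 1 < ((prm n w gam y Z).s1 : ℝ) :=
    Nat.sub_one_lt_floor _
  have h5 : y ^ 2 / (6420 * Real.log n) ≤ 1 / (6400 * (prm n w gam y Z).gl ^ 2) := by
    rw [div_le_div_iff₀ (by positivity) (by positivity)]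
    rw [le_div_iff₀ (by positivity)] at h1
    nlinarith
  have h6 : 10 ^ 10 * Real.log n ≤ y ^ 2 := by
    have a1 : 10 ^ 10 * Real.log n ^ 1 ≤ Real.log n ^ 200 := pl c.HB.hL (by norm_num) (by norm_num)
    rw [pow_one] at a1
    have a2 : Z ≤ y := c.hZy
    have a3 := c.HB.h1
    have a4 := c.Z1
    nlinarith
  have h7 : y ^ 2 / (6520 * Real.log n) + 1 ≤ y ^ 2 / (6420 * Real.log n) := by
    have e : y ^ 2 / (6420 * Real.log n) - y ^ 2 / (6520 * Real.log n) =
        100 * y ^ 2 / (6420 * 6520 * Real.log n) := by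
      field_simp
      norm_num
    have : 1 ≤ 100 * y ^ 2 / (6420 * 6520 * Real.log n) := by
      rw [one_le_div₀ (by positivity)]
      nlinarith
    linarith
  linarith

/-! ### the remaining quantities -/

theorem Cx.a5e (c : Cx n w gam y Z) :
    Real.exp (-(aL (Real.log n) : ℝ)) ≤ 1 / Real.log n ^ 40 := by
  have h0 := c.L0
  rw [Real.exp_neg, ← one_div]
  refine one_div_le_one_div_of_le (by positivity) ?_
  exact c.HB.h5.trans (Real.exp_le_exp.2 c.aLlo)

theorem Cx.Tl0 (c : Cx n w gam y Z) : 0 ≤ (prm n w gam y Z).Tl := by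
  have h0 := c.L0
  show 0 ≤ 4 * Real.log n * Real.exp (-(aL (Real.log n) : ℝ))
  positivity

theorem Cx.Tl1 (c : Cx n w gam y Z) : (prm n w gam y Z).Tl ≤ 4 / Real.log n ^ 39 := by
  have h0 := c.L0
  show 4 * Real.log n * Real.exp (-(aL (Real.log n) : ℝ)) ≤ 4 / Real.log n ^ 39
  refine (mul_le_mul_of_nonneg_left c.a5e (by positivity)).trans (le_of_eq ?_)
  generalize Real.log n = L at *
  field_simp

theorem Cx.haT (c : Cx n w gam y Z) : 4 * (prm n w gam y Z).ac * (prm n w gam y Z).Tl ≤ 1 := by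
  have h0 := c.L0
  have h1 := c.ac1
  have h2 := c.Tl1
  have h3 := c.ac2
  have h4 : 4 * (prm n w gam y Z).ac * (prm n w gam y Z).Tl ≤
      4 * Real.log n ^ 30 * (4 / Real.log n ^ 39) := by
    refine mul_le_mul (by linarith) h2 c.Tl0 (by positivity)
  refine h4.trans ?_
  have h5 : 16 * Real.log n ^ 30 ≤ Real.log n ^ 39 := pl c.HB.hL (by norm_num) (by norm_num)
  rw [← mul_div_assoc, div_le_one (by positivity)]
  linarith

theorem Cx.J1 (c : Cx n w gam y Z) : ((prm n w gam y Z).J : ℝ) ≤ Real.log n := c.HB.h6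

theorem Cx.J4 (c : Cx n w gam y Z) : (4 : ℝ) ≤ ((prm n w gam y Z).J : ℝ) := by
  exact_mod_cast c.HB.h9

theorem Cx.C1 (c : Cx n w gam y Z) :
    (prm n w gam y Z).Cb + (prm n w gam y Z).ρb ≤ 2 * 10 ^ 11 * Real.log n ^ 14 := by
  have h1 := c.Cb1
  have h2 := c.rb
  have h3 : Real.log n ^ 4 ≤ Real.log n ^ 14 := pow_le_pow_right₀ c.L1 (by norm_num)
  have h4 : 0 ≤ Real.log n ^ 14 := pow_nonneg c.L0.le _
  rw [h2]
  linarith

theorem Cx.rb0 (c : Cx n w gam y Z) : 0 < (prm n w gam y Z).ρb := by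
  have h0 := c.L0
  rw [c.rb]
  positivity

theorem Cx.kvm (c : Cx n w gam y Z) : 4 / ((prm n w gam y Z).k0 * (prm n w gam y Z).vmin) =
    768 * 10 ^ 11 * Real.log n * ((prm n w gam y Z).Cb + (prm n w gam y Z).ρb) := by
  have h0 := c.L0
  have h1 : 0 < (prm n w gam y Z).Cb + (prm n w gam y Z).ρb := add_pos c.Cb0 c.rb0
  have h2 := c.vmin0
  have h3 := c.vv
  have e : (prm n w gam y Z).k0 =
    1 / (160 * ((prm n w gam y Z).Cb + (prm n w gam y Z).ρb) * (prm n w gam y Z).vmax) := rfl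
  rw [e, h3]
  generalize (prm n w gam y Z).Cb + (prm n w gam y Z).ρb = C at *
  generalize (prm n w gam y Z).vmin = v at *
  generalize Real.log n = L at *
  field_simp
  ring

theorem Cx.r1 (c : Cx n w gam y Z) : (prm n w gam y Z).r ≤ Real.log n ^ 16 := by
  have h0 := c.L0
  have h1 := c.C1
  have e : (prm n w gam y Z).r = 3 * ((prm n w gam y Z).ρb + 3 +
    4 / ((prm n w gam y Z).k0 * (prm n w gam y Z).vmin) +
      16 * ((prm n w gam y Z).Cb + (prm n w gam y Z).ρb)) := rfl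
  rw [e, c.kvm]
  have h2 : Real.log n * ((prm n w gam y Z).Cb + (prm n w gam y Z).ρb) ≤
      Real.log n * (2 * 10 ^ 11 * Real.log n ^ 14) := mul_le_mul_of_nonneg_left h1 h0.le
  have e2 : Real.log n * (2 * 10 ^ 11 * Real.log n ^ 14) = 2 * 10 ^ 11 * Real.log n ^ 15 := by ring
  rw [e2] at h2
  have h3 : Real.log n ^ 14 ≤ Real.log n ^ 15 := pow_le_pow_right₀ c.L1 (by norm_num)
  have h4 : Real.log n ^ 4 ≤ Real.log n ^ 15 := pow_le_pow_right₀ c.L1 (by norm_num)
  have h5 : 1 ≤ Real.log n ^ 15 := one_le_pow₀ c.L1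
  have h6 : 10 ^ 30 * Real.log n ^ 15 ≤ Real.log n ^ 16 :=
    pl c.HB.hL (by norm_num) (by norm_num)
  have h7 := c.rb
  generalize (prm n w gam y Z).Cb + (prm n w gam y Z).ρb = C at *
  rw [h7]
  linarith

theorem Cx.hr (c : Cx n w gam y Z) :
    4 * (((prm n w gam y Z).J + 1) * (prm n w gam y Z).Tl + (prm n w gam y Z).r) ≤
      Real.exp (prm n w gam y Z).lam := by
  have h0 := c.L0
  have h1 := c.r1
  have h2 := c.Tl1
  have h3 := c.J1
  have h4 := c.L1
  have h5 : (((prm n w gam y Z).J : ℝ) + 1) * (prm n w gam y Z).Tl ≤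
      (2 * Real.log n) * (4 / Real.log n ^ 39) :=
    mul_le_mul (by linarith) h2 c.Tl0 (by positivity)
  have h6 : (2 * Real.log n) * (4 / Real.log n ^ 39) ≤ 1 := by
    rw [← mul_div_assoc, div_le_one (by positivity)]
    have : 8 * Real.log n ^ 1 ≤ Real.log n ^ 39 := pl c.HB.hL (by norm_num) (by norm_num)
    rw [pow_one] at this
    linarith
  have h7 : Real.log n ^ 40 ≤ Real.exp (prm n w gam y Z).lam := c.exps
  have h8 : 8 * Real.log n ^ 16 ≤ Real.log n ^ 40 := pl c.HB.hL (by norm_num) (by norm_num)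
  have h9 : 1 ≤ Real.log n ^ 16 := one_le_pow₀ c.L1
  linarith

/-! ### the length -/

theorem Cx.sqny (c : Cx n w gam y Z) : Real.sqrt (n / y) = S n y * y := by
  have h := c.y0
  have hS := c.S0
  have e : (n : ℝ) / y = (S n y * y) ^ 2 := by
    have hN := c.Ssq
    generalize S n y = T at *
    rw [hN]
    field_simp
  rw [e, Real.sqrt_sq (by positivity)]

theorem Cx.mlo (c : Cx n w gam y Z) : S n y * y * Z ^ 8 ≤ ((prm n w gam y Z).m : ℝ) := by
  rw [← c.sqny]
  exact Nat.le_ceil _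

theorem Cx.Nhi (c : Cx n w gam y Z) :
    (nn n y Z : ℝ) ≤ Real.sqrt (Real.log n) * ((prm n w gam y Z).m : ℝ) / (60 * y) := by
  have h := c.y0
  refine Nat.floor_le ?_
  positivity

theorem Cx.Nlo (c : Cx n w gam y Z) : S n y * Z ^ 8 ≤ (nn n y Z : ℝ) := by
  have h := c.y0
  have hS := c.S0
  have hZ := c.Z0
  have h1 : Real.sqrt (Real.log n) * ((prm n w gam y Z).m : ℝ) / (60 * y) - 1 < (nn n y Z : ℝ) :=
    Nat.sub_one_lt_floor _
  have h2 := c.mlo
  have h3 := c.sq1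
  have h4 : 120 * (S n y * y * Z ^ 8) ≤ Real.sqrt (Real.log n) * ((prm n w gam y Z).m : ℝ) :=
    mul_le_mul (by linarith) h2 (by positivity) (by positivity)
  have h5 : 2 * (S n y * Z ^ 8) ≤
      Real.sqrt (Real.log n) * ((prm n w gam y Z).m : ℝ) / (60 * y) := by
    rw [le_div_iff₀ (by positivity)]
    linarith
  have h6 : 1 ≤ S n y * Z ^ 8 := one_le_mul_of_one_le_of_one_le c.S1 (one_le_pow₀ c.Z1)
  linarith

theorem Cx.N1 (c : Cx n w gam y Z) : 1 ≤ nn n y Z := by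
  have h6 : 1 ≤ S n y * Z ^ 8 := one_le_mul_of_one_le_of_one_le c.S1 (one_le_pow₀ c.Z1)
  have h7 : (1 : ℝ) ≤ (nn n y Z : ℝ) := h6.trans c.Nlo
  exact_mod_cast h7

theorem Cx.hks (c : Cx n w gam y Z) : kk n y Z * (prm n w gam y Z).smax ≤ 1 := by
  have hS := c.S0
  have hZ := c.Z0
  rw [c.ks, div_le_one (by positivity)]
  have h1 : 16 * Real.log n ^ 10 ≤ Real.log n ^ 200 := pl c.HB.hL (by norm_num) (by norm_num)
  have h2 := c.HB.h1
  have h3 : Z ≤ Z ^ 4 := by
    have := pow_le_pow_right₀ c.Z1 (show 1 ≤ 4 by norm_num)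
    rwa [pow_one] at this
  have h4 : Z ^ 4 ≤ S n y * Z ^ 4 := le_mul_of_one_le_left (by positivity) c.S1
  linarith

theorem Cx.hQ (c : Cx n w gam y Z) : 1 ≤ kk n y Z * (prm n w gam y Z).vmin := by
  have hZ := c.Z0
  have hS := c.SZ
  have hZb := c.Zb
  rw [c.kv, one_le_div₀ (by positivity)]
  have h1 : Z ≤ Z ^ 8 := by
    have := pow_le_pow_right₀ c.Z1 (show 1 ≤ 8 by norm_num)
    rwa [pow_one] at this
  have h2 : 2 * 10 ^ 8 * Z ^ 4 ≤ Z ^ 8 * Z ^ 4 :=
    mul_le_mul_of_nonneg_right (by linarith [show (2 : ℝ) * 10 ^ 8 ≤ 10 ^ 40 by norm_num])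
      (by positivity)
  have e : Z ^ 8 * Z ^ 4 = Z ^ 12 := by ring
  rw [e] at h2
  linarith

theorem Cx.sms (c : Cx n w gam y Z) :
    (prm n w gam y Z).smax / (prm n w gam y Z).s1 ≤ Real.log n ^ 9 := by
  have h0 := c.L0
  have hy := c.y0
  have h1 := c.s1
  have h2 : 0 < y ^ 2 / (6520 * Real.log n) := by positivity
  have h3 : (0 : ℝ) < (prm n w gam y Z).s1 := lt_of_lt_of_le h2 h1
  rw [c.smax, div_le_iff₀ h3]
  have h4 : Real.log n ^ 9 * (y ^ 2 / (6520 * Real.log n)) ≤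
      Real.log n ^ 9 * ((prm n w gam y Z).s1 : ℝ) := mul_le_mul_of_nonneg_left h1 (by positivity)
  refine le_trans ?_ h4
  have e : Real.log n ^ 9 * (y ^ 2 / (6520 * Real.log n)) = Real.log n ^ 8 / 6520 * y ^ 2 := by
    field_simp
  rw [e]
  refine mul_le_mul_of_nonneg_right ?_ (by positivity)
  have h5 : 10 ^ 6 * Real.log n ^ 7 ≤ Real.log n ^ 8 := pl c.HB.hL (by norm_num) (by norm_num)
  linarith [pow_nonneg h0.le 7]

theorem Cx.h1 (c : Cx n w gam y Z) :
    128 * (kk n y Z * (prm n w gam y Z).vmax) * (4 * ((prm n w gam y Z).J + 2) *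
      Real.exp (prm n w gam y Z).lam +
        (prm n w gam y Z).smax * (prm n w gam y Z).Cb / (prm n w gam y Z).s1) ≤ (nn n y Z : ℝ) := by
  have h0 := c.L0
  have hZ := c.Z0
  have hS := c.S0
  have hL1 := c.L1
  refine le_trans ?_ c.Nlo
  rw [c.kV]
  have e1 : Real.exp (prm n w gam y Z).lam = Real.exp (Real.sqrt (Real.log n)) := rfl
  have h1 : (prm n w gam y Z).smax * (prm n w gam y Z).Cb / (prm n w gam y Z).s1 ≤
      10 ^ 11 * Real.log n ^ 23 := by
    have e : (prm n w gam y Z).smax * (prm n w gam y Z).Cb / (prm n w gam y Z).s1 =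
        (prm n w gam y Z).smax / (prm n w gam y Z).s1 * (prm n w gam y Z).Cb := by ring
    rw [e]
    refine (mul_le_mul c.sms c.Cb1 c.Cb0.le (by positivity)).trans (le_of_eq ?_)
    ring
  have hE : 1 ≤ Real.exp (Real.sqrt (Real.log n)) := Real.one_le_exp (Real.sqrt_nonneg _)
  have h2 := c.HB.h2
  have h3 := c.J1
  rw [e1]
  generalize Real.exp (Real.sqrt (Real.log n)) = E at *
  have h4 : 4 * (((prm n w gam y Z).J : ℝ) + 2) * E ≤ Real.log n ^ 24 * E := by
    refine mul_le_mul_of_nonneg_right ?_ (by linarith)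
    have a1 : 12 * Real.log n ^ 1 ≤ Real.log n ^ 24 := pl c.HB.hL (by norm_num) (by norm_num)
    rw [pow_one] at a1
    linarith
  have h5 : 10 ^ 11 * Real.log n ^ 23 ≤ Real.log n ^ 24 * E := by
    have a1 : 10 ^ 11 * Real.log n ^ 23 ≤ Real.log n ^ 24 :=
      pl c.HB.hL (by norm_num) (by norm_num)
    exact a1.trans (le_mul_of_one_le_right (by positivity) hE)
  have h6 : 4 * (((prm n w gam y Z).J : ℝ) + 2) * E +
      (prm n w gam y Z).smax * (prm n w gam y Z).Cb / (prm n w gam y Z).s1 ≤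
        2 * (Real.log n ^ 24 * E) := by linarith
  have h7 : 0 ≤ 128 * (600 * Real.log n * S n y / Z ^ 4) := by positivity
  refine (mul_le_mul_of_nonneg_left h6 h7).trans ?_
  have e2 : 128 * (600 * Real.log n * S n y / Z ^ 4) * (2 * (Real.log n ^ 24 * E)) =
      (S n y / Z ^ 4) * (153600 * Real.log n ^ 25 * E) := by ring
  rw [e2]
  have h8 : 153600 * Real.log n ^ 25 * E ≤ Z := by
    refine le_trans ?_ h2
    rw [mul_comm E]
    refine mul_le_mul_of_nonneg_right ?_ (by linarith)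
    exact pl c.HB.hL (by norm_num) (by norm_num)
  refine (mul_le_mul_of_nonneg_left h8 (by positivity)).trans ?_
  have e3 : S n y / Z ^ 4 * Z = S n y * (1 / Z ^ 3) := by field_simp
  rw [e3]
  refine mul_le_mul_of_nonneg_left ?_ hS.le
  have h9 : 1 / Z ^ 3 ≤ 1 := by
    rw [div_le_one (by positivity)]
    exact one_le_pow₀ c.Z1
  exact h9.trans (one_le_pow₀ c.Z1)

theorem Cx.h2 (c : Cx n w gam y Z) :
    512 * kk n y Z * (kk n y Z * (prm n w gam y Z).vmax) *
      (1 + 40 * ((prm n w gam y Z).Cb + (prm n w gam y Z).ρb)) *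
        ((prm n w gam y Z).smax * (prm n w gam y Z).Cb) ≤ 1 := by
  have h0 := c.L0
  have hZ := c.Z0
  have hS := c.S0
  have hL1 := c.L1
  have e1 : 512 * kk n y Z * (kk n y Z * (prm n w gam y Z).vmax) *
      (1 + 40 * ((prm n w gam y Z).Cb + (prm n w gam y Z).ρb)) *
        ((prm n w gam y Z).smax * (prm n w gam y Z).Cb) =
      512 * (kk n y Z * (prm n w gam y Z).smax) * (kk n y Z * (prm n w gam y Z).vmax) *
      ((1 + 40 * ((prm n w gam y Z).Cb + (prm n w gam y Z).ρb)) * (prm n w gam y Z).Cb) := by ring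
  rw [e1, c.ks, c.kV]
  have h1 : (1 + 40 * ((prm n w gam y Z).Cb + (prm n w gam y Z).ρb)) * (prm n w gam y Z).Cb ≤
      (10 ^ 13 * Real.log n ^ 14) * (10 ^ 11 * Real.log n ^ 14) := by
    have a1 := c.C1
    have a2 := c.Cb0
    have a3 : 1 ≤ Real.log n ^ 14 := one_le_pow₀ hL1
    exact mul_le_mul (by linarith) c.Cb1 a2.le (by positivity)
  have e2 : 512 * (16 * Real.log n ^ 10 / (S n y * Z ^ 4)) * (600 * Real.log n * S n y / Z ^ 4) =
      4915200 * Real.log n ^ 11 / Z ^ 8 := by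
    generalize Real.log n = L at *
    generalize S n y = T at *
    field_simp
    ring
  rw [e2]
  refine (mul_le_mul_of_nonneg_left h1 (by positivity)).trans ?_
  have e3 : 4915200 * Real.log n ^ 11 / Z ^ 8 *
      ((10 ^ 13 * Real.log n ^ 14) * (10 ^ 11 * Real.log n ^ 14)) =
      (4915200 * 10 ^ 24 * Real.log n ^ 39) / Z ^ 8 := by ring
  rw [e3, div_le_one (by positivity)]
  have h2 : 4915200 * 10 ^ 24 * Real.log n ^ 39 ≤ Real.log n ^ 200 :=
    pl c.HB.hL (by norm_num) (by norm_num)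
  have h3 : Z ≤ Z ^ 8 := by
    have := pow_le_pow_right₀ c.Z1 (show 1 ≤ 8 by norm_num)
    rwa [pow_one] at this
  exact h2.trans (c.HB.h1.trans h3)

theorem Cx.hk (c : Cx n w gam y Z) : (prm n w gam y Z).k0 ≤ kk n y Z := by
  have h0 := c.L0
  have hV := c.vmax0
  have hv := c.vmin0
  have hL1 := c.L1
  have h1 := c.hQ
  have h2 := c.vv
  have e : (prm n w gam y Z).k0 =
    1 / (160 * ((prm n w gam y Z).Cb + (prm n w gam y Z).ρb) * (prm n w gam y Z).vmax) := rfl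
  have h3 := c.Cb0
  have h4 : 1 ≤ (prm n w gam y Z).ρb := by
    rw [c.rb]
    have := one_le_pow₀ (n := 4) hL1
    linarith
  rw [e, div_le_iff₀ (by positivity)]
  have h5 : (prm n w gam y Z).vmin ≤ (prm n w gam y Z).vmax := by
    rw [h2]
    refine le_mul_of_one_le_left hv.le ?_
    linarith
  have h6 : 1 ≤ kk n y Z * (prm n w gam y Z).vmax :=
    h1.trans (mul_le_mul_of_nonneg_left h5 c.k1p.le)
  have h7 : 1 ≤ 160 * ((prm n w gam y Z).Cb + (prm n w gam y Z).ρb) := by linarith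
  have e2 : kk n y Z * (160 * ((prm n w gam y Z).Cb + (prm n w gam y Z).ρb) *
      (prm n w gam y Z).vmax) = (160 * ((prm n w gam y Z).Cb + (prm n w gam y Z).ρb)) *
        (kk n y Z * (prm n w gam y Z).vmax) := by ring
  rw [e2]
  exact one_le_mul_of_one_le_of_one_le h7 h6

theorem Cx.hF (c : Cx n w gam y Z) :
    4 * Real.log n ≤ (prm n w gam y Z).Φ (kk n y Z) (nn n y Z) := by
  have h0 := c.L0
  have hZ := c.Z0
  have hS := c.S0
  have hy := c.y0
  have hL1 := c.L1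
  have hac := c.ac1
  have hac2 := c.ac2
  have hJ4 := c.J4
  have hTl := c.Tl0
  have haT := c.haT
  have e : (prm n w gam y Z).Φ (kk n y Z) (nn n y Z) = kk n y Z * (nn n y Z) *
      (prm n w gam y Z).s1 / (8 * (prm n w gam y Z).ac *
        ((1 + (prm n w gam y Z).ac * Real.exp (Real.sqrt (Real.log n))) ^ JL (Real.log n) *
        Real.exp ((prm n w gam y Z).ac * (((JL (Real.log n) : ℝ) + 1) *
          (prm n w gam y Z).Tl))) ^ 2) := rfl
  rw [e]
  have hJe : ((prm n w gam y Z).J : ℝ) = (JL (Real.log n) : ℝ) := rfl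
  rw [hJe] at hJ4
  set W : ℝ := ((1 + Real.log n ^ 30 * Real.exp (Real.sqrt (Real.log n))) ^ JL (Real.log n) *
    Real.exp (JL (Real.log n))) ^ 2 with hW
  have hW4 : W * Real.log n ^ 200 ≤ Z := c.HB.h4
  have d1 : (1 + (prm n w gam y Z).ac * Real.exp (Real.sqrt (Real.log n))) ^ JL (Real.log n) ≤
      (1 + Real.log n ^ 30 * Real.exp (Real.sqrt (Real.log n))) ^ JL (Real.log n) := by
    refine pow_le_pow_left₀ (by positivity) ?_ _
    have := mul_le_mul_of_nonneg_right hac (Real.exp_pos (Real.sqrt (Real.log n))).le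
    linarith
  have d2 : Real.exp ((prm n w gam y Z).ac * (((JL (Real.log n) : ℝ) + 1) *
          (prm n w gam y Z).Tl)) ≤ Real.exp (JL (Real.log n)) := by
    refine Real.exp_le_exp.2 ?_
    have a1 : (prm n w gam y Z).ac * (prm n w gam y Z).Tl ≤ 1 / 4 := by linarith
    have a2 : (prm n w gam y Z).ac * (((JL (Real.log n) : ℝ) + 1) * (prm n w gam y Z).Tl) =
      ((JL (Real.log n) : ℝ) + 1) * ((prm n w gam y Z).ac * (prm n w gam y Z).Tl) := by ring
    rw [a2]
    have a3 := mul_le_mul_of_nonneg_left a1 (show 0 ≤ (JL (Real.log n) : ℝ) + 1 by linarith)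
    linarith
  have d3 : ((1 + (prm n w gam y Z).ac * Real.exp (Real.sqrt (Real.log n))) ^ JL (Real.log n) *
        Real.exp ((prm n w gam y Z).ac * (((JL (Real.log n) : ℝ) + 1) *
          (prm n w gam y Z).Tl))) ^ 2 ≤ W := by
    rw [hW]
    refine pow_le_pow_left₀ (by positivity) ?_ 2
    exact mul_le_mul d1 d2 (Real.exp_pos _).le (by positivity)
  have d4 : 0 < ((1 + (prm n w gam y Z).ac * Real.exp (Real.sqrt (Real.log n))) ^
      JL (Real.log n) * Real.exp ((prm n w gam y Z).ac * (((JL (Real.log n) : ℝ) + 1) *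
          (prm n w gam y Z).Tl))) ^ 2 := by positivity
  generalize ((1 + (prm n w gam y Z).ac * Real.exp (Real.sqrt (Real.log n))) ^
      JL (Real.log n) * Real.exp ((prm n w gam y Z).ac * (((JL (Real.log n) : ℝ) + 1) *
          (prm n w gam y Z).Tl))) ^ 2 = V at *
  rw [le_div_iff₀ (by positivity)]
  have n1 : Real.log n ^ 3 / (S n y * Z ^ 4 * y ^ 2) * (S n y * Z ^ 8) *
      (y ^ 2 / (6520 * Real.log n)) ≤ kk n y Z * (nn n y Z) * (prm n w gam y Z).s1 := by
    rw [c.k1]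
    refine mul_le_mul ?_ c.s1 (by positivity) (by positivity)
    exact mul_le_mul_of_nonneg_left c.Nlo (by positivity)
  refine le_trans ?_ n1
  have e2 : Real.log n ^ 3 / (S n y * Z ^ 4 * y ^ 2) * (S n y * Z ^ 8) *
      (y ^ 2 / (6520 * Real.log n)) = Real.log n ^ 2 * Z ^ 4 / 6520 := by
    generalize Real.log n = L at *
    generalize S n y = T at *
    field_simp
  rw [e2]
  have m1 : 8 * (prm n w gam y Z).ac * V ≤ 8 * Real.log n ^ 30 * W :=
    mul_le_mul (by linarith) d3 d4.le (by positivity)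
  have m2 : 4 * Real.log n * (8 * (prm n w gam y Z).ac * V) ≤
      4 * Real.log n * (8 * Real.log n ^ 30 * W) := mul_le_mul_of_nonneg_left m1 (by positivity)
  have hW0 : 0 ≤ W := by rw [hW]; positivity
  have m3 : 4 * Real.log n * (8 * Real.log n ^ 30 * W) ≤ Z := by
    have e3 : 4 * Real.log n * (8 * Real.log n ^ 30 * W) = W * (32 * Real.log n ^ 31) := by ring
    rw [e3]
    refine le_trans (mul_le_mul_of_nonneg_left ?_ hW0) hW4
    exact pl c.HB.hL (by norm_num) (by norm_num)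
  refine m2.trans (m3.trans ?_)
  have m4 : 6520 ≤ Real.log n ^ 2 := by
    have := pow_le_pow_left₀ (by norm_num) c.HB.hL 2
    exact le_trans (by norm_num) this
  have m5 : Z ≤ Z ^ 4 := by
    have := pow_le_pow_right₀ c.Z1 (show 1 ≤ 4 by norm_num)
    rwa [pow_one] at this
  have m6 : 6520 * Z ^ 4 ≤ Real.log n ^ 2 * Z ^ 4 := mul_le_mul_of_nonneg_right m4 (by positivity)
  rw [le_div_iff₀ (by norm_num)]
  linarith

theorem Cx.hS (c : Cx n w gam y Z) :
    20 ^ nn n y Z * (prm n w gam y Z).sb ≤ 1 / (n : ℝ) ^ 3 := by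
  have h0 := c.L0
  have hZ := c.Z0
  have hS := c.S0
  have hy := c.y0
  have hn := c.n0
  have hL1 := c.L1
  have hlam := c.sq1
  have hK := c.Khi
  set T : ℝ := Real.sqrt (Real.log n) * ((prm n w gam y Z).m : ℝ) / (60 * y) with hT
  have hNT : (nn n y Z : ℝ) ≤ T := c.Nhi
  have hTlo : S n y * Z ^ 8 ≤ T := c.Nlo.trans hNT
  have e : (prm n w gam y Z).sb = 2 * (n : ℝ) ^ 2 *
    (((prm n w gam y Z).K : ℝ) / Real.sqrt (Real.log n)) ^ 20 *
      Real.exp (-(Real.sqrt (Real.log n) * ((prm n w gam y Z).m : ℝ) / (10 * y))) := rfl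
  have e1 : Real.sqrt (Real.log n) * ((prm n w gam y Z).m : ℝ) / (10 * y) = 6 * T := by
    rw [hT]
    field_simp
    ring
  rw [e, e1]
  have a1 : (20 : ℝ) ^ nn n y Z ≤ Real.exp (3 * T) := by
    have b1 : (20 : ℝ) ≤ Real.exp 3 := by
      have c1 := Real.exp_one_gt_d9
      have c2 : Real.exp 3 = Real.exp 1 ^ 3 := by
        rw [← Real.exp_nat_mul]; norm_num
      rw [c2]
      have c3 : (2.7182818283 : ℝ) ^ 3 ≤ Real.exp 1 ^ 3 :=
        pow_le_pow_left₀ (by norm_num) c1.le 3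
      exact le_trans (by norm_num) c3
    have b2 : (20 : ℝ) ^ nn n y Z ≤ Real.exp 3 ^ nn n y Z := pow_le_pow_left₀ (by norm_num) b1 _
    refine b2.trans ?_
    rw [← Real.exp_nat_mul]
    refine Real.exp_le_exp.2 ?_
    linarith
  have a2 : (((prm n w gam y Z).K : ℝ) / Real.sqrt (Real.log n)) ^ 20 ≤ Real.exp Z := by
    have b0 : (0 : ℝ) < Real.sqrt (Real.log n) := lt_of_lt_of_le (by norm_num) hlam
    have b1 : ((prm n w gam y Z).K : ℝ) / Real.sqrt (Real.log n) ≤ Real.log n ^ 10 := by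
      rw [div_le_iff₀ b0]
      refine hK.trans (le_mul_of_one_le_right (by positivity) ?_)
      exact le_trans (by norm_num) hlam
    have b2 : (((prm n w gam y Z).K : ℝ) / Real.sqrt (Real.log n)) ^ 20 ≤
        (Real.log n ^ 10) ^ 20 := pow_le_pow_left₀ (by positivity) b1 20
    rw [← pow_mul] at b2
    refine b2.trans (c.HB.h1.trans ?_)
    have := Real.add_one_le_exp Z
    linarith
  have a3 : (n : ℝ) = Real.exp (Real.log n) := (Real.exp_log hn).symm
  have a4 : (2 : ℝ) ≤ Real.exp 1 := by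
    have := Real.add_one_le_exp (1 : ℝ)
    linarith
  have e2 : (n : ℝ) ^ 2 = Real.exp (2 * Real.log n) := by
    conv_lhs => rw [a3]
    rw [← Real.exp_nat_mul]
    norm_num
  have e3 : 1 / (n : ℝ) ^ 3 = Real.exp (-(3 * Real.log n)) := by
    rw [Real.exp_neg, ← one_div]
    congr 1
    conv_lhs => rw [a3]
    rw [← Real.exp_nat_mul]
    norm_num
  rw [e3, e2]
  have k0 : 0 ≤ (((prm n w gam y Z).K : ℝ) / Real.sqrt (Real.log n)) ^ 20 := by positivity
  calc (20 : ℝ) ^ nn n y Z * (2 * Real.exp (2 * Real.log n) *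
      (((prm n w gam y Z).K : ℝ) / Real.sqrt (Real.log n)) ^ 20 * Real.exp (-(6 * T)))
      ≤ Real.exp (3 * T) * (Real.exp 1 * Real.exp (2 * Real.log n) * Real.exp Z *
        Real.exp (-(6 * T))) := by
        refine mul_le_mul a1 ?_ (by positivity) (Real.exp_pos _).le
        refine mul_le_mul_of_nonneg_right ?_ (Real.exp_pos _).le
        refine mul_le_mul ?_ a2 k0 (by positivity)
        exact mul_le_mul_of_nonneg_right a4 (Real.exp_pos _).le
    _ = Real.exp (3 * T + (1 + 2 * Real.log n + Z + -(6 * T))) := by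
        rw [← Real.exp_add, ← Real.exp_add, ← Real.exp_add, ← Real.exp_add]
    _ ≤ Real.exp (-(3 * Real.log n)) := by
        refine Real.exp_le_exp.2 ?_
        have b1 : Real.log n ≤ Z := by
          have := c.LZ (a := 1) (by norm_num)
          rwa [pow_one] at this
        have b2 : Z ^ 2 ≤ S n y * Z ^ 8 := by
          have c1 : Z ^ 2 ≤ Z ^ 8 := pow_le_pow_right₀ c.Z1 (by norm_num)
          exact c1.trans (le_mul_of_one_le_left (by positivity) c.S1)
        have b3 : 10 * Z ≤ Z ^ 2 := by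
          have := c.Zb
          nlinarith
        have b4 := c.Z1
        linarith

theorem Cx.hθ1 (c : Cx n w gam y Z) : Real.log n ^ 8 / y ≤ 1 := by
  rw [div_le_one c.y0]
  exact (c.LZ (by norm_num)).trans c.hZy

end

end M3

open M3

theorem prm_ok2 {n : ℕ} {w : ℝ → ℝ} {gam : ℤ → ℝ} {y Z : ℝ} (hn : 2 ≤ n)
    (H : Lvs w gam n y (KL (Real.log n))) (HB : Big (Real.log n) Z) (hZy : Z ≤ y)
    (hZn : y ^ 3 * Z ^ 24 ≤ n) :
    (prm n w gam y Z).Ok2 (Real.log n ^ 8 / y) (kk n y Z) (nn n y Z) := by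
  have c : Cx n w gam y Z := ⟨hn, H, HB, hZy, hZn⟩
  have h0 := c.L0
  have hy := c.y0
  refine ⟨?_, ?_, c.hθ1, ?_, c.hks, c.haT, c.hr, c.N1, c.hQ, c.h1, c.h2, c.hk, c.hF, c.hS⟩
  · show 10 ^ 20 * (1 / Real.log n ^ 3) * Real.log n ^ 2 ≤ 1
    have e : 10 ^ 20 * (1 / Real.log n ^ 3) * Real.log n ^ 2 = 10 ^ 20 / Real.log n := by
      field_simp
    rw [e, div_le_one h0]
    exact le_trans (by norm_num) HB.hL
  · show 1 / y ≤ Real.log n ^ 8 / y
    exact (div_le_div_iff_of_pos_right hy).2 (one_le_pow₀ c.L1)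
  · show 1.22 * (Real.log n ^ 8 / y) * y ≤ ((prm n w gam y Z).I : ℝ)
    have e : 1.22 * (Real.log n ^ 8 / y) * y = 1.22 * Real.log n ^ 8 := by field_simp
    rw [e]
    refine le_trans ?_ c.Ilo
    refine mul_le_mul_of_nonneg_right (by norm_num) (by positivity)

end

end Pool.Agent.TH972.U
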