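import Pool.Agent.TH972.U.MDef
import Pool.Agent.TH972.U.Blk2
import Pool.Agent.TH972.U.ForLen
import Pool.Agent.TH972.U.BallGen
import Pool.Agent.TH972.U.Fin

/-!
# Balls in a good environment, main regime
-/

set_option autoImplicit false
namespace Pool.Agent.TH972.U
open Finset MeasureTheory Pool.Agent.W842.RST Pool.Agent.TH972
noncomputable section
variable {n : ℕ}

namespace MBall

theorem exp_neg4 (hn : 2 ≤ n) {Φ : ℝ} (h : 4 * Real.log n ≤ Φ) :
    Real.exp (-Φ) ≤ 1 / (n : ℝ) ^ 4 := by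
  have hn2 : (2 : ℝ) ≤ n := by exact_mod_cast hn
  have hn0 : (0 : ℝ) < n := by linarith
  calc Real.exp (-Φ) ≤ Real.exp (-(4 * Real.log n)) := Real.exp_le_exp.2 (by linarith)
    _ = 1 / (n : ℝ) ^ 4 := by
      have h1 : (n : ℝ) ^ 4 = Real.exp (4 * Real.log n) := by
        rw [mul_comm, Real.exp_mul, Real.exp_log hn0]
        norm_num
      rw [Real.exp_neg, h1, one_div]

theorem half_pow (hn : 2 ≤ n) {j : ℕ} (hj : 4 * Real.log n ≤ j) :
    ((1 : ℝ) / 2) ^ j ≤ 1 / (n : ℝ) ^ 2 := by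
  have hn2 : (2 : ℝ) ≤ n := by exact_mod_cast hn
  have hn0 : (0 : ℝ) < n := by linarith
  have h1 : ((1 : ℝ) / 2) ^ j = Real.exp (-(j * Real.log 2)) := by
    rw [Real.exp_neg, mul_comm, Real.exp_mul, Real.exp_log (by norm_num : (0 : ℝ) < 2),
      Real.rpow_natCast, one_div, inv_pow]
  have h2 := Real.log_two_gt_d9
  have h3 : (n : ℝ) ^ 2 = Real.exp (2 * Real.log n) := by
    rw [mul_comm, Real.exp_mul, Real.exp_log hn0]
    norm_num
  rw [h1, h3, one_div, ← Real.exp_neg]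
  apply Real.exp_le_exp.2
  have hL : 0 ≤ Real.log n := Real.log_nonneg (by linarith)
  nlinarith

theorem gb_le {P : Prm n} (H : P.Ok) : P.gb ≤ 1 := by
  have hy := Det.y_pos H
  have h1 := H.hKy
  have h2 := H.hη1
  have h3 := Det.K_ge H
  have h4 : (10 ^ 4 : ℝ) ≤ P.K := by exact_mod_cast h3
  have h5 : 1 ≤ P.y := by
    rw [div_le_iff₀ hy] at h1
    linarith
  unfold Prm.gb
  rw [div_le_one hy]
  linarith

theorem n_big {P : Prm n} (H : P.Ok) : 10 ^ 18 * Real.log n ≤ n := by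
  have h1 := H.ngb
  have h2 := gb_le H
  have h3 := Det.gb_pos H
  have hn := Det.n_pos H
  have h4 : P.gb ^ 3 ≤ 1 := pow_le_one₀ h3.le h2
  nlinarith

theorem phi_mono {P : Prm n} (H : P.Ok) {k k' : ℝ} (h : k ≤ k') (N : ℕ) : P.Φ k N ≤ P.Φ k' N := by
  have hac : 0 < P.ac := by
    have := Det.A_nonneg P H
    unfold Prm.ac
    linarith
  unfold Prm.Φ
  have h1 : (0 : ℝ) < 8 * P.ac * ((1 + P.ac * Real.exp P.lam) ^ P.J *
    Real.exp (P.ac * ((P.J + 1) * P.Tl))) ^ 2 := by positivity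
  apply div_le_div_of_nonneg_right _ h1.le
  gcongr

end MBall

/-- balls in a good environment -/
theorem Prm.Ok.ball {P : Prm n} (H : P.Ok) {θ0 kk σ : ℝ} {N₀ m' N' K N m j : ℕ}
    (H2 : P.Ok2 θ0 kk N₀) (H3 : P.Ok3 σ m' N' K) (hN : 1 ≤ N) (hN2 : (N : ℝ) ≤ 12 * Real.log n)
    (hθN : θ0 * (11 / 10) ^ N ≤ 5 * Real.log n)
    (hth : ∀ θ : ℝ, θ0 ≤ θ → θ ≤ 5 * Real.log n → ∀ u u' : ℝ,
      u ≤ Pool.Agent.W842.RST.lev n θ → Pool.Agent.W842.RST.lev n (11 / 10 * θ) < u' →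
      P.w u' ≤ 1 / (n : ℝ) ^ 6 * P.w u)
    {U : Ev n} (hU : EnvM P θ0 N m m' U) (hj : 4 * Real.log n ≤ j) (hj2 : (j : ℝ) ≤ 5 * Real.log n) :
    (1 - 1 / Real.log n - 4 * (3 * Real.exp 17 / Real.sqrt σ + 1 / K + 4 * (1 + Real.log K) / σ +
      5 * Real.log n / σ + 1 / n)) * n ≤
      ∑ v, GG (fun e => P.w (U e)) (fun T => n / K < (ball T v (2 * (m' + m * N))).card) := by
  classical
  have hn := Det.n_pos H
  have hn2 := H.hn
  have hy := Det.y_pos H
  have hL := H.hL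
  have hL0 : 0 < Real.log n := by linarith
  have hρ := Det.rho_pos H
  have hCb := Det.Cb_pos H
  have hvmin := Det.vmin_pos H
  have hvmax := Det.vmax_pos H
  have hsx := Det.smax_pos H
  have hbig := MBall.n_big H
  have hσ := H3.hσ
  have hσ0 : 0 < σ := by linarith
  have hk2 : 0 < P.k2 := by
    unfold Prm.k2
    positivity
  obtain ⟨E, hEκ, hEH, hEs, hEM, hEC, hEρ, hEsm, hM1, hM2, hlong⟩ := H.blk H2 hU.gd
  have hM0 : (0 : ℝ) < E.M.card := hvmin.trans_le hM1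
  obtain ⟨k1, hk1⟩ : ∃ k1 : ℝ, k1 = σ * Real.sqrt (P.k2 / E.M.card) := ⟨_, rfl⟩
  have hk1p : 0 < k1 := by
    rw [hk1]
    positivity
  have hlo : P.klo σ ≤ k1 := by
    rw [hk1]
    unfold Prm.klo
    apply mul_le_mul_of_nonneg_left _ hσ0.le
    apply Real.sqrt_le_sqrt
    exact div_le_div_of_nonneg_left hk2.le hM0 hM2
  have hhi : k1 ≤ P.khi σ := by
    rw [hk1]
    unfold Prm.khi
    apply mul_le_mul_of_nonneg_left _ hσ0.le
    apply Real.sqrt_le_sqrt
    exact div_le_div_of_nonneg_left hk2.le hvmin hM1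
  have hsq : k1 ^ 2 * E.M.card = σ ^ 2 * P.k2 := by
    rw [hk1, mul_pow, Real.sq_sqrt (by positivity)]
    field_simp
  have ht : P.k2 * E.pn.t ≤ 1 := by
    show P.k2 * (E.smax * E.C) ≤ 1
    rw [hEC, hEsm]
    unfold Prm.k2
    rw [one_div, inv_mul_cancel₀ (by positivity)]
  have hg1 : 1 ≤ P.gg := by
    unfold Prm.gg
    linarith
  have hg : ∀ y ∈ E.pn.M, grn (E.pn.net P.k2 hk2) ∅ y y ≤ P.gg := by
    intro y hy'
    have hy2 : y ∈ E.M := hy'
    have h1 := E.grn_good hk2 (E.M_good hy2)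
    rw [BlkEnv.pn_net]
    refine h1.trans ?_
    unfold Prm.gg
    rw [hEC, hEρ]
    have h2 : 2 ≤ P.k2 * E.M.card :=
      H3.h1.trans (mul_le_mul_of_nonneg_left hM1 hk2.le)
    have h3 : 5 / (4 * (P.k2 * (E.M.card : ℝ))) ≤ 1 := by
      rw [div_le_one (by positivity)]
      linarith
    linarith
  have hθ00 : 0 < θ0 := lt_of_lt_of_le (by positivity) H2.hθ
  have hθge : ∀ i : ℕ, θ0 ≤ θ0 * (11 / 10) ^ i := by
    intro i
    have h1 : (1 : ℝ) ≤ (11 / 10) ^ i := one_le_pow₀ (by norm_num)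
    exact le_mul_of_one_le_right hθ00.le h1
  have hθle : ∀ i ≤ N, θ0 * (11 / 10) ^ i ≤ 5 * Real.log n := by
    intro i hi
    refine le_trans ?_ hθN
    exact mul_le_mul_of_nonneg_left (pow_le_pow_right₀ (by norm_num) hi) hθ00.le
  have hlen := for_len U E.pn hk1p hθ00 (ε1 := 2 / (n : ℝ) ^ 2)
    (ε2 := 2 / (n : ℝ) ^ 3 + 1 / (n : ℝ) ^ 2) N m m' hN hU.pc hU.gi hU.av ?_ ?_ ?_
  · have key := PN.ball_gen (by omega) E.pn hk1p hk2 ht hg1 hg hσ hsq
      ((mul_le_mul_of_nonneg_right hhi hσ0.le).trans H3.h5) K H3.hK H3.hK2 j (m' + m * N) hlen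
    have hκ : E.pn.κ = fun e => P.w (U e) := hEκ
    rw [hκ] at key
    refine le_trans ?_ key
    apply mul_le_mul_of_nonneg_right _ hn.le
    -- numerics
    have e1 : ((N : ℝ) + 1) * (2 / (n : ℝ) ^ 2) + (2 / (n : ℝ) ^ 3 + 1 / (n : ℝ) ^ 2) ≤
        1 / Real.log n := by
      have hn1 : (1 : ℝ) ≤ n := by
        have : (2 : ℝ) ≤ n := by exact_mod_cast hn2
        linarith
      have a1 : 2 / (n : ℝ) ^ 3 ≤ 2 / (n : ℝ) ^ 2 :=
        div_le_div_of_nonneg_left (by norm_num) (by positivity)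
          (pow_le_pow_right₀ hn1 (by norm_num))
      have a2 : ((N : ℝ) + 1) * (2 / (n : ℝ) ^ 2) + (2 / (n : ℝ) ^ 2 + 1 / (n : ℝ) ^ 2) =
          (2 * N + 5) / (n : ℝ) ^ 2 := by
        field_simp
        ring
      have a3 : (2 * (N : ℝ) + 5) / (n : ℝ) ^ 2 ≤ 1 / Real.log n := by
        rw [div_le_div_iff₀ (by positivity) hL0]
        have a4 : 2 * (N : ℝ) + 5 ≤ 29 * Real.log n := by linarith
        have a5 : (2 * (N : ℝ) + 5) * Real.log n ≤ 29 * Real.log n * Real.log n :=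
          mul_le_mul_of_nonneg_right a4 hL0.le
        have a6 : (10 ^ 18 * Real.log n) * (10 ^ 18 * Real.log n) ≤ (n : ℝ) * n :=
          mul_le_mul hbig hbig (by positivity) hn.le
        nlinarith [mul_pos hL0 hL0]
      linarith
    have hsσ : 0 < Real.sqrt σ := Real.sqrt_pos.2 hσ0
    have e2 : (1 + 2 * Real.exp 17) / Real.sqrt σ ≤ 3 * Real.exp 17 / Real.sqrt σ := by
      apply div_le_div_of_nonneg_right _ hsσ.le
      have := Real.add_one_le_exp (17 : ℝ)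
      linarith
    have e3 : (j : ℝ) * (k1 / P.k2) ≤ 5 * Real.log n / σ := by
      have b1 : k1 / P.k2 ≤ 1 / σ :=
        (div_le_div_of_nonneg_right hhi hk2.le).trans H3.h6
      calc (j : ℝ) * (k1 / P.k2) ≤ 5 * Real.log n * (1 / σ) :=
            mul_le_mul hj2 b1 (by positivity) (by positivity)
        _ = 5 * Real.log n / σ := by ring
    have e4 : ((1 : ℝ) / 2) ^ j * Real.sqrt (E.pn.M.card) ≤ 1 / n := by
      have b1 := MBall.half_pow hn2 hj
      have hn1 : (1 : ℝ) ≤ n := by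
        have : (2 : ℝ) ≤ n := by exact_mod_cast hn2
        linarith
      have b2 : Real.sqrt (E.pn.M.card : ℝ) ≤ n := by
        have b3 : (E.pn.M.card : ℝ) ≤ n := by
          have := Finset.card_le_univ E.pn.M
          rw [Fintype.card_fin] at this
          exact_mod_cast this
        rw [Real.sqrt_le_left hn.le]
        nlinarith
      calc ((1 : ℝ) / 2) ^ j * Real.sqrt (E.pn.M.card) ≤ 1 / (n : ℝ) ^ 2 * n :=
            mul_le_mul b1 b2 (Real.sqrt_nonneg _) (by positivity)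
        _ = 1 / n := by field_simp
    unfold erV
    linarith
  · intro i hi v hv
    obtain ⟨ρ, hρ', h1⟩ := hU.core i hi v hv
    refine ⟨ρ, ?_, h1⟩
    show ρ ∈ E.M
    rw [hEM]
    exact hρ'
  · intro i hi
    have hθi : 0 < θ0 * (11 / 10) ^ i := lt_of_lt_of_le hθ00 (hθge i)
    have e0 : θ0 * (11 / 10) ^ (i + 1) = 11 / 10 * (θ0 * (11 / 10) ^ i) := by ring
    have hκ : E.pn.κ = fun e => P.w (U e) := hEκ
    refine bad_for (by omega) U E.pn hk1p (H3.h3.trans hlo) ?_ ?_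
    · intro e f he hf
      rw [e0] at hf
      rw [hκ]
      exact hth _ (hθge i) (hθle i hi) _ _ he hf
    · intro f hf
      rw [e0] at hf
      rw [hκ]
      have h1 := hth _ (hθge i) (hθle i hi) _ _ le_rfl hf
      refine h1.trans ?_
      have h2 : P.gam 0 < Pool.Agent.W842.RST.lev n (θ0 * (11 / 10) ^ i) := by
        rw [Det.gam0 H]
        unfold Pool.Agent.W842.RST.lev
        exact div_lt_div_of_pos_right (by linarith) hn
      have h3 := H.lvs.dn 0 (by omega) (by omega) _ h2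
      have h4 := H.lvs.wpos (Pool.Agent.W842.RST.lev n (θ0 * (11 / 10) ^ i))
      have h5 : P.w (Pool.Agent.W842.RST.lev n (θ0 * (11 / 10) ^ i)) ≤ 1 := by
        norm_num at h3
        rw [← one_div, le_div_iff₀ h4] at h3
        linarith
      calc 1 / (n : ℝ) ^ 6 * P.w (Pool.Agent.W842.RST.lev n (θ0 * (11 / 10) ^ i)) ≤
            1 / (n : ℝ) ^ 6 * 1 := mul_le_mul_of_nonneg_left h5 (by positivity)
        _ = 1 / (n : ℝ) ^ 6 := mul_one _
  · have hpt : Pool.Agent.W842.RST.lev n (θ0 * (11 / 10) ^ 2) ≤ P.pt := by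
      unfold Pool.Agent.W842.RST.lev Prm.pt
      rw [div_le_iff₀ hn]
      have h1 := FinA.gam_lo H P.I (by have := Det.I_le H; omega)
      have h2 := H2.hθI
      have h3 : 1.22 * θ0 ≤ (P.I : ℝ) / P.y := by
        rw [le_div_iff₀ hy]
        exact h2
      have h4 : 0.999 * (P.I : ℝ) / P.y = 0.999 * ((P.I : ℝ) / P.y) := by ring
      rw [h4] at h1
      linarith
    have hks : k1 * P.smax ≤ 1 :=
      (mul_le_mul_of_nonneg_right hhi hsx.le).trans H3.h4
    have hx : ∀ x, longQ (fun u v => U s(u, v) ≤ Pool.Agent.W842.RST.lev n (θ0 * (11 / 10) ^ 2))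
        (E.pn.net k1 hk1p) m' x ≤ 2 / (n : ℝ) ^ 4 + 1 / (n : ℝ) ^ 3 := by
      intro x
      refine (FinA.longQ_mono (fun u v huv => le_trans huv hpt) _ _ _).trans ?_
      refine (hlong k1 hk1p N' m' (H3.h2.trans hlo) hks x).trans ?_
      have h1 := MBall.exp_neg4 hn2 (H3.hΦ.trans (MBall.phi_mono H hlo N'))
      have h2 : (20 : ℝ) ^ N' * ({P with m := m'} : Prm n).SS U ≤ 1 / (n : ℝ) ^ 3 :=
        (mul_le_mul_of_nonneg_left hU.ss (by positivity)).trans H3.hS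
      have h3 : 2 / (n : ℝ) ^ 4 = 2 * (1 / (n : ℝ) ^ 4) := by ring
      rw [h3]
      linarith
    refine (Finset.sum_le_sum fun x _ => hx x).trans (le_of_eq ?_)
    rw [Finset.sum_const, Finset.card_univ, Fintype.card_fin, nsmul_eq_mul]
    field_simp

end
end Pool.Agent.TH972.U
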