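import Pool.Agent.TH972.U.OkDef
import Pool.Agent.TH972.U.VDef
import Pool.Agent.W842.RST.Params
import Pool.Agent.W842.RST.Levels

/-!
# The ball volume in the intermediate regime (definitions)
-/

set_option autoImplicit false
set_option linter.unusedSectionVars false

namespace Pool.Agent.TH972.U

open Finset MeasureTheory Pool.Agent.W842.RST Pool.Agent.TH972

noncomputable section

variable {n : ℕ}

/-- good environments: levels `θ0 (11/10)^i`, `i ≤ N`, paths of `m` edges, parameters `P`, long paths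
of `m'` edges -/
structure EnvM (P : Prm n) (θ0 : ℝ) (N m m' : ℕ) (U : Ev n) : Prop where
  pc : (GU U (Pool.Agent.W842.RST.lev n (θ0 * (11 / 10) ^ N))).Preconnected
  gi : ∀ i ≤ N, ∃ v, siz n (θ0 * (11 / 10) ^ i) ≤
    (comp (GU U (Pool.Agent.W842.RST.lev n (θ0 * (11 / 10) ^ i))) v).card
  av : ∀ i < N, ¬ AvoidBad m (siz n (θ0 * (11 / 10) ^ i))
    (Pool.Agent.W842.RST.lev n (θ0 * (11 / 10) ^ (i + 1)))
    (Pool.Agent.W842.RST.lev n (θ0 * (11 / 10) ^ (i + 3))) U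
  core : ∀ i ≤ N, ∀ v, siz n (θ0 * (11 / 10) ^ i) ≤
    (comp (GU U (Pool.Agent.W842.RST.lev n (θ0 * (11 / 10) ^ i))) v).card →
    ∃ ρ ∈ marks P.pl P.pb P.s1 P.s0 U,
      (GU U (Pool.Agent.W842.RST.lev n (θ0 * (11 / 10) ^ (i + 1)))).Reachable ρ v
  gd : P.Gd θ0 U
  ss : ({P with m := m'} : Prm n).SS U ≤ ({P with m := m'} : Prm n).sb

namespace Prm

variable (P : Prm n)

/-- the rate of the local walk -/
def k2 : ℝ := 1 / (P.smax * P.Cb)

/-- bounds for the killing rate -/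
def klo (σ : ℝ) : ℝ := σ * Real.sqrt (P.k2 / P.vmax)
def khi (σ : ℝ) : ℝ := σ * Real.sqrt (P.k2 / P.vmin)

/-- bound of the Green function on the marks -/
def gg : ℝ := 1 + 40 * (P.Cb + P.ρb)

/-- numerical facts for the ball volume -/
structure Ok3 (σ : ℝ) (m' N' K : ℕ) : Prop where
  hm : ({P with m := m'} : Prm n).Ok
  hσ : 1 ≤ σ
  h1 : 2 ≤ P.k2 * P.vmin
  h2 : P.k0 ≤ P.klo σ
  h3 : 1 / (n : ℝ) ≤ P.klo σ
  h4 : P.khi σ * P.smax ≤ 1
  h5 : P.khi σ * σ ≤ P.k2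
  h6 : P.khi σ / P.k2 ≤ 1 / σ
  hK : P.gg * σ ^ 5 ≤ K
  hK2 : 2 ≤ K
  hΦ : 4 * Real.log n ≤ P.Φ (P.klo σ) N'
  hS : 20 ^ N' * ({P with m := m'} : Prm n).sb ≤ 1 / (n : ℝ) ^ 3

end Prm

end

end Pool.Agent.TH972.U
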