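import Pool.Agent.TH972.U.MDef
import Pool.Agent.TH972.U.Fin

/-!
# Good environments in the intermediate regime
(job RSTRE V-MEnv of helper972, written by helper367)
-/

set_option autoImplicit false

namespace Pool.Agent.TH972.U

open Finset MeasureTheory Pool.Agent.W842.RST Pool.Agent.TH972

noncomputable section

variable {n : ℕ}

namespace MEnv

/-- the level is small compared with `θ / r` -/
theorem lev_small {θ : ℝ} (N : Num n θ) :
    Pool.Agent.W842.RST.lev n θ ≤ 4 / 100 * θ / (1 + 3 / 2 * θ) := by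
  have hn := N.n_pos
  have hθ := N.hθ
  have hL := N.hL
  have hr0 : 0 < 1 + 3 / 2 * θ := by linarith
  rw [le_div_iff₀ hr0]
  unfold Pool.Agent.W842.RST.lev
  rw [div_mul_eq_mul_div, div_le_iff₀ hn]
  have h6 := N.h1
  have h7 := N.r_le
  set A : ℝ := 1 + 8 * Real.log n with hA
  have h8 : (1 + θ) * (1 + 3 / 2 * θ) ≤ A ^ 2 := by
    rw [sq]
    apply mul_le_mul (by linarith) h7 hr0.le (by linarith)
  nlinarith

/-- avoid estimate: components at the next level -/
theorem avoid {θ : ℝ} (N : Num n θ) (m : ℕ)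
    (hm : 32 * Real.log n * (1 + 3 / 2 * θ) / θ ≤ m) :
    env n {U | AvoidBad m (siz n θ) (Pool.Agent.W842.RST.lev n (11 / 10 * θ))
      (Pool.Agent.W842.RST.lev n (1331 / 1000 * θ)) U} ≤ ENNReal.ofReal (1 / (n : ℝ) ^ 2) := by
  have hn := N.n_pos
  have hθ := N.hθ
  have hL := N.hL
  have hq0 := N.lev_pos
  have hql := N.lev_lt
  have hqp : Pool.Agent.W842.RST.lev n θ ≤ Pool.Agent.W842.RST.lev n (11 / 10 * θ) := by
    unfold Pool.Agent.W842.RST.lev
    apply div_le_div_of_nonneg_right _ hn.le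
    linarith
  have hpq : Pool.Agent.W842.RST.lev n (11 / 10 * θ) ≤
      11 / 10 * Pool.Agent.W842.RST.lev n θ := by
    unfold Pool.Agent.W842.RST.lev
    rw [← mul_div_assoc]
    apply div_le_div_of_nonneg_right _ hn.le
    linarith
  have hp' : Pool.Agent.W842.RST.lev n (1331 / 1000 * θ) ≤
      1331 / 1000 * Pool.Agent.W842.RST.lev n θ := by
    unfold Pool.Agent.W842.RST.lev
    rw [← mul_div_assoc]
    apply div_le_div_of_nonneg_right _ hn.le
    linarith
  have hp'0 : 0 ≤ Pool.Agent.W842.RST.lev n (1331 / 1000 * θ) := by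
    unfold Pool.Agent.W842.RST.lev
    positivity
  have hp0 : 0 ≤ Pool.Agent.W842.RST.lev n (11 / 10 * θ) := hq0.le.trans hqp
  have hp1 : Pool.Agent.W842.RST.lev n (11 / 10 * θ) ≤ 1 := by linarith
  refine (avoid_le hp0 hp1 hp'0 (by linarith)).trans (ENNReal.ofReal_le_ofReal ?_)
  have h5 := lev_small N
  have hps := N.p_siz_ge
  have hnp' : (n : ℝ) * Pool.Agent.W842.RST.lev n (1331 / 1000 * θ) = 1 + 1331 / 1000 * θ := by
    unfold Pool.Agent.W842.RST.lev
    field_simp
  set q := Pool.Agent.W842.RST.lev n θ with hqd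
  set p := Pool.Agent.W842.RST.lev n (11 / 10 * θ) with hpd
  set p' := Pool.Agent.W842.RST.lev n (1331 / 1000 * θ) with hp'd
  set s := siz n θ with hs
  set r : ℝ := 1 + 3 / 2 * θ with hr
  have hr0 : 0 < r := by rw [hr]; linarith
  have hs0 : (0 : ℝ) ≤ s := Nat.cast_nonneg _
  have h1 : (1 - p) ^ s ≤ Real.exp q / r := by
    have h2 : 1 - p ≤ Real.exp (-p) := by have := Real.add_one_le_exp (-p); linarith
    have h3 : q * s ≤ p * s := mul_le_mul_of_nonneg_right hqp hs0
    calc (1 - p) ^ s ≤ Real.exp (-p) ^ s := pow_le_pow_left₀ (by linarith) h2 _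
      _ = Real.exp (-(p * s)) := by rw [← Real.exp_nat_mul]; ring_nf
      _ ≤ Real.exp (q - Real.log r) := Real.exp_le_exp.2 (by linarith)
      _ = Real.exp q / r := by rw [Real.exp_sub, Real.exp_log hr0]
  have h2 : (1 + 1331 / 1000 * θ) * (1 - p) ^ s ≤ Real.exp (-(θ / (8 * r))) := by
    have h3 : (1 + 1331 / 1000 * θ) / r ≤ Real.exp (-(169 / 1000 * θ / r)) := by
      have h4 : (1 + 1331 / 1000 * θ) / r = 1 - 169 / 1000 * θ / r := by
        rw [hr]; field_simp; ring
      rw [h4]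
      have := Real.add_one_le_exp (-(169 / 1000 * θ / r))
      linarith
    calc (1 + 1331 / 1000 * θ) * (1 - p) ^ s ≤ (1 + 1331 / 1000 * θ) * (Real.exp q / r) := by
          apply mul_le_mul_of_nonneg_left h1 (by positivity)
      _ = (1 + 1331 / 1000 * θ) / r * Real.exp q := by ring
      _ ≤ Real.exp (-(169 / 1000 * θ / r)) * Real.exp (4 / 100 * θ / r) := by
          apply mul_le_mul h3 (Real.exp_le_exp.2 h5) (Real.exp_pos _).le (Real.exp_pos _).le
      _ ≤ Real.exp (-(θ / (8 * r))) := by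
          rw [← Real.exp_add]
          apply Real.exp_le_exp.2
          have e1 : 169 / 1000 * θ / r = 169 / 1000 * (θ / r) := by ring
          have e2 : 4 / 100 * θ / r = 4 / 100 * (θ / r) := by ring
          have e3 : θ / (8 * r) = 1 / 8 * (θ / r) := by field_simp
          have e4 : 0 < θ / r := by positivity
          rw [e1, e2, e3]
          linarith
  have h3 : (n : ℝ) ^ (m + 2) * (p' ^ m * (1 - p) ^ (s * (m + 1))) =
      (n : ℝ) ^ 2 * ((1 + 1331 / 1000 * θ) * (1 - p) ^ s) ^ m * (1 - p) ^ s := by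
    rw [← hnp', mul_pow, mul_pow, pow_add, pow_mul, pow_succ ((1 - p) ^ s) m]
    ring
  rw [h3]
  have h4 : (1 - p) ^ s ≤ 1 := pow_le_one₀ (by linarith) (by linarith)
  have h5 : ((1 + 1331 / 1000 * θ) * (1 - p) ^ s) ^ m ≤ 1 / (n : ℝ) ^ 4 := by
    have hnn : 0 ≤ (1 + 1331 / 1000 * θ) * (1 - p) ^ s := by
      have : 0 ≤ 1 - p := by linarith
      positivity
    calc ((1 + 1331 / 1000 * θ) * (1 - p) ^ s) ^ m ≤ Real.exp (-(θ / (8 * r))) ^ m :=
          pow_le_pow_left₀ hnn h2 m
      _ = Real.exp (-(m * (θ / (8 * r)))) := by rw [← Real.exp_nat_mul]; ring_nf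
      _ ≤ Real.exp (-(4 * Real.log n)) := by
          apply Real.exp_le_exp.2
          apply neg_le_neg
          have h6 : 4 * Real.log n = 32 * Real.log n * r / θ * (θ / (8 * r)) := by
            field_simp
            ring
          rw [h6]
          apply mul_le_mul_of_nonneg_right hm (by positivity)
      _ = 1 / (n : ℝ) ^ 4 := by
          rw [Real.exp_neg, one_div]
          congr 1
          rw [show 4 * Real.log (n : ℝ) = ((4 : ℕ) : ℝ) * Real.log n by norm_num,
            Real.exp_nat_mul, Real.exp_log hn]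
  calc (n : ℝ) ^ 2 * ((1 + 1331 / 1000 * θ) * (1 - p) ^ s) ^ m * (1 - p) ^ s
      ≤ (n : ℝ) ^ 2 * (1 / (n : ℝ) ^ 4) * 1 := by
        apply mul_le_mul _ h4 (pow_nonneg (by linarith) _) (by positivity)
        exact mul_le_mul_of_nonneg_left h5 (by positivity)
    _ = 1 / (n : ℝ) ^ 2 := by field_simp

/-- lower bound for the size of the components -/
theorem siz_lo {θ : ℝ} (N : Num n θ) :
    0.96 * (n * θ / ((1 + 3 / 2 * θ) * (1 + θ))) ≤ (siz n θ : ℝ) := by
  have hn := N.n_pos
  have hθ := N.hθ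
  have hps := N.p_siz_ge
  have hlr := N.log_r_ge
  have h5 := lev_small N
  have hr0 : 0 < 1 + 3 / 2 * θ := by linarith
  have h6 : 0.96 * (θ / (1 + 3 / 2 * θ)) ≤ Pool.Agent.W842.RST.lev n θ * siz n θ := by
    have : 4 / 100 * θ / (1 + 3 / 2 * θ) = 0.04 * (θ / (1 + 3 / 2 * θ)) := by ring
    linarith
  have e : Pool.Agent.W842.RST.lev n θ * siz n θ = (1 + θ) * siz n θ / n := by
    unfold Pool.Agent.W842.RST.lev
    ring
  rw [e, le_div_iff₀ hn] at h6
  have e2 : 0.96 * (n * θ / ((1 + 3 / 2 * θ) * (1 + θ))) =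
      0.96 * (θ / (1 + 3 / 2 * θ)) * n / (1 + θ) := by field_simp
  rw [e2, div_le_iff₀ (by linarith)]
  linarith

/-- large components at the level `θ` meet the good vertices one level higher -/
theorem core1 {P : Prm n} (H : P.Ok) {θ : ℝ} (N : Num n θ) (hθt : 1 / P.y ≤ θ) :
    env n {U : Ev n | P.vmin ≤ (gd (GU U P.pb) P.s0).card ∧
      ∃ v, siz n θ ≤ (cmp (GU U (Pool.Agent.W842.RST.lev n θ)) v).card ∧
      ∀ u ∈ gd (GU U P.pb) P.s0,
        ¬ (GU U (Pool.Agent.W842.RST.lev n (11 / 10 * θ))).Reachable v u} ≤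
      ENNReal.ofReal (1 / n) := by
  have hn := GEnv.n0 H
  have hL := GEnv.L0 H
  have hL1 := H.hL
  have hg0 := GEnv.gb0 H
  have hg := GEnv.gble H
  have hη := H.hη
  have hη1 := H.hη1
  have hy := GEnv.y0 H
  have ht := GEnv.t0 H
  have htl := GEnv.tle H
  have hθ := N.hθ
  have hnpb := GEnv.npb H
  have hlev0 := N.lev_pos
  have hlev1 := N.lev_lt
  have hp3 : Pool.Agent.W842.RST.lev n (11 / 10 * θ) ≤
      11 / 10 * Pool.Agent.W842.RST.lev n θ := by
    unfold Pool.Agent.W842.RST.lev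
    rw [← mul_div_assoc]
    apply div_le_div_of_nonneg_right _ hn.le
    linarith
  refine core_le (GEnv.pb0 H) ?_ ?_ ?_ (by linarith) H.hn (GEnv.vmin0 H) ?_
  · unfold Pool.Agent.W842.RST.lev
    rw [le_div_iff₀ hn]
    linarith
  · unfold Pool.Agent.W842.RST.lev
    rw [div_le_div_iff_of_pos_right hn]
    linarith
  · linarith
  · have hs := siz_lo N
    have hp2 : Pool.Agent.W842.RST.lev n θ < 1 := by linarith
    have hq : 0.1 * θ / n ≤ (Pool.Agent.W842.RST.lev n (11 / 10 * θ) -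
        Pool.Agent.W842.RST.lev n θ) / (1 - Pool.Agent.W842.RST.lev n θ) := by
      rw [le_div_iff₀ (by linarith)]
      have e : Pool.Agent.W842.RST.lev n (11 / 10 * θ) - Pool.Agent.W842.RST.lev n θ =
          0.1 * θ / n := by
        unfold Pool.Agent.W842.RST.lev
        ring
      rw [e]
      have : 0 ≤ 0.1 * θ / n := by positivity
      nlinarith
    have hv := GEnv.vmin0 H
    have h6 : 0.6 * (0.1 * θ / n) * (0.96 * (n * θ / ((1 + 3 / 2 * θ) * (1 + θ))) * P.vmin) ≤
        0.6 * ((Pool.Agent.W842.RST.lev n (11 / 10 * θ) - Pool.Agent.W842.RST.lev n θ) /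
          (1 - Pool.Agent.W842.RST.lev n θ)) * (siz n θ * P.vmin) := by
      apply mul_le_mul (mul_le_mul_of_nonneg_left hq (by norm_num))
        (mul_le_mul_of_nonneg_right hs hv) (by positivity)
      have : 0 ≤ 0.1 * θ / n := by positivity
      have := this.trans hq
      positivity
    refine le_trans ?_ h6
    have e : 0.6 * (0.1 * θ / n) * (0.96 * (n * θ / ((1 + 3 / 2 * θ) * (1 + θ))) * P.vmin) =
        0.0576 / (2 * 10 ^ 8) * (θ ^ 2 / ((1 + 3 / 2 * θ) * (1 + θ)) * (n * P.gb)) := by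
      unfold Prm.vmin
      field_simp
      norm_num
    rw [e]
    have h7 : (1 / P.y) ^ 2 / 5 ≤ θ ^ 2 / ((1 + 3 / 2 * θ) * (1 + θ)) := by
      rw [div_le_div_iff₀ (by norm_num) (by positivity)]
      rcases le_total θ 1 with h | h
      · have h8 : (1 + 3 / 2 * θ) * (1 + θ) ≤ 5 := by nlinarith
        have h9 : (1 / P.y) ^ 2 ≤ θ ^ 2 := pow_le_pow_left₀ ht.le hθt 2
        exact mul_le_mul h9 h8 (by positivity) (by positivity)
      · have h8 : (1 + 3 / 2 * θ) * (1 + θ) ≤ θ ^ 2 * 5 := by nlinarith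
        have h9 : (1 / P.y) ^ 2 ≤ 1 := pow_le_one₀ ht.le (by linarith)
        have h10 : 0 ≤ (1 + 3 / 2 * θ) * (1 + θ) := by positivity
        nlinarith
    have h8 : (1 / P.y) ^ 2 / 5 * (n * P.gb) ≤
        θ ^ 2 / ((1 + 3 / 2 * θ) * (1 + θ)) * (n * P.gb) :=
      mul_le_mul_of_nonneg_right h7 (by positivity)
    have e2 : 1 / P.y = P.gb / P.η := by
      rw [GEnv.gbt H]
      field_simp
    have e3 : (1 / P.y) ^ 2 / 5 * (n * P.gb) = n * P.gb ^ 3 / P.η ^ 2 / 5 := by
      rw [e2]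
      field_simp
    rw [e3] at h8
    have h9 : n * P.gb ^ 3 ≤ n * P.gb ^ 3 / P.η ^ 2 := by
      rw [le_div_iff₀ (by positivity)]
      have h10 : P.η ^ 2 ≤ 1 := by nlinarith
      have h11 : 0 ≤ n * P.gb ^ 3 := by positivity
      nlinarith
    have h12 := H.ngb
    norm_num at h12 ⊢
    linarith

end MEnv

/-- good environments are typical -/
theorem Prm.Ok.env_main {P : Prm n} (H : P.Ok) {γ x k1 : ℝ} {N₀ : ℕ} (HP : Par γ n x P.y)
    (H2 : P.Ok2 (x / P.y) k1 N₀) {m' : ℕ} (H' : ({P with m := m'} : Prm n).Ok) :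
    ∃ N m : ℕ, 1 ≤ N ∧ ((m * N : ℕ) : ℝ) ≤ 3000 * Real.log n ^ 2 * (P.y / x) ∧
      (N : ℝ) ≤ 12 * Real.log n ∧ x / P.y * (11 / 10) ^ N ≤ 5 * Real.log n ∧
      env n {U : Ev n | ¬ EnvM P (x / P.y) N m m' U} ≤ ENNReal.ofReal (40 / Real.log n) := by
  classical
  have hx := HP.x_pos
  have hy := HP.y_pos
  have hn := HP.n_pos
  have hL := HP.hL
  have hθ0 := HP.θ_pos
  have hθ1 := HP.θ_le
  have hxb := HP.x_big
  have hyn := HP.y_le
  have hxy := HP.hxy
  obtain ⟨N, hN1, hN2, hN3⟩ := HP.levels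
  have hNpos : 1 ≤ N := by
    by_contra hcon
    have h0 : N = 0 := by omega
    rw [h0, pow_zero, mul_one] at hN1
    linarith
  set θ : ℕ → ℝ := fun i => x / P.y * (11 / 10) ^ i with hθ
  have hθN : θ N = x / P.y * (11 / 10) ^ N := rfl
  have hN2' := hN2
  rw [← hθN] at hN1 hN2
  have hθge : ∀ i, x / P.y ≤ θ i := by
    intro i
    have h1 : (1 : ℝ) ≤ (11 / 10) ^ i := one_le_pow₀ (by norm_num)
    exact le_mul_of_one_le_right hθ0.le h1
  have hθle : ∀ i ≤ N, θ i ≤ 5 * Real.log n := by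
    intro i hi
    refine le_trans ?_ hN2
    exact mul_le_mul_of_nonneg_left (pow_le_pow_right₀ (by norm_num) hi) hθ0.le
  have hnum : ∀ i ≤ N, Num n (θ i) := fun i hi => HP.num (hθge i) (hθle i hi)
  have hsucc : ∀ i, x / P.y * (11 / 10) ^ (i + 1) = 11 / 10 * θ i := by
    intro i
    simp only [hθ]
    rw [pow_succ]
    ring
  have hsucc3 : ∀ i, x / P.y * (11 / 10) ^ (i + 3) = 1331 / 1000 * θ i := by
    intro i
    simp only [hθ]
    rw [pow_add]
    ring
  set m := ⌈32 * Real.log n * (1 + 3 / 2 * (x / P.y)) / (x / P.y)⌉₊ with hm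
  have hm1 : 32 * Real.log n * (1 + 3 / 2 * (x / P.y)) / (x / P.y) ≤ m := Nat.le_ceil _
  have hmi : ∀ i, 32 * Real.log n * (1 + 3 / 2 * θ i) / θ i ≤ m := by
    intro i
    refine le_trans ?_ hm1
    have hi := hθge i
    have hi0 : 0 < θ i := by linarith
    rw [div_le_div_iff₀ hi0 hθ0]
    have : 32 * Real.log n * (x / P.y) ≤ 32 * Real.log n * θ i :=
      mul_le_mul_of_nonneg_left hi (by linarith)
    nlinarith
  have hm2 : (m : ℝ) ≤ 81 * Real.log n * (P.y / x) := by
    have h1 : (m : ℝ) ≤ 32 * Real.log n * (1 + 3 / 2 * (x / P.y)) / (x / P.y) + 1 :=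
      (Nat.ceil_lt_add_one (by positivity)).le
    have h2 : 32 * Real.log n * (1 + 3 / 2 * (x / P.y)) / (x / P.y) ≤
        80 * Real.log n * (P.y / x) := by
      have e1 : 80 * Real.log n * (P.y / x) = 80 * Real.log n / (x / P.y) := by
        field_simp
      rw [e1]
      apply div_le_div_of_nonneg_right _ hθ0.le
      nlinarith
    have h3 : 1 ≤ Real.log n * (P.y / x) := by
      have : 1 ≤ P.y / x := by rw [le_div_iff₀ hx]; linarith
      nlinarith
    linarith
  refine ⟨N, m, hNpos, ?_, hN3, hN2', ?_⟩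
  · push_cast
    have h2 : (m : ℝ) * N ≤ (81 * Real.log n * (P.y / x)) * (12 * Real.log n) :=
      mul_le_mul hm2 hN3 (by positivity) (by positivity)
    have h3 : (81 * Real.log n * (P.y / x)) * (12 * Real.log n) =
        972 * (Real.log n ^ 2 * (P.y / x)) := by ring
    rw [h3] at h2
    have h4 : 3000 * Real.log n ^ 2 * (P.y / x) = 3000 * (Real.log n ^ 2 * (P.y / x)) := by ring
    rw [h4]
    have h5 : 0 < Real.log n ^ 2 * (P.y / x) := by positivity
    linarith
  set B1 : Set (Sym2 (Fin n) → ℝ) := ⋃ i ∈ range (N + 1),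
    {U | ¬ ∃ v, siz n (θ i) ≤
      (comp (GU U (Pool.Agent.W842.RST.lev n (θ i))) v).card} with hB1
  set B2 : Set (Sym2 (Fin n) → ℝ) := ⋃ i ∈ range N,
    {U | AvoidBad m (siz n (θ i)) (Pool.Agent.W842.RST.lev n (11 / 10 * θ i))
      (Pool.Agent.W842.RST.lev n (1331 / 1000 * θ i)) U} with hB2
  set B3 : Set (Sym2 (Fin n) → ℝ) := {U | ¬ P.Gd (x / P.y) U} with hB3
  set B4 : Set (Sym2 (Fin n) → ℝ) :=
    {U | ¬ (GU U (Pool.Agent.W842.RST.lev n (θ N))).Preconnected} with hB4
  set B5 : Set (Sym2 (Fin n) → ℝ) :=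
    {U | ({P with m := m'} : Prm n).sb ≤ ({P with m := m'} : Prm n).SS U} with hB5
  set B6 : Set (Sym2 (Fin n) → ℝ) := ⋃ i ∈ range (N + 1),
    {U | P.vmin ≤ (gd (GU U P.pb) P.s0).card ∧
      ∃ v, siz n (θ i) ≤ (cmp (GU U (Pool.Agent.W842.RST.lev n (θ i))) v).card ∧
      ∀ u ∈ gd (GU U P.pb) P.s0,
        ¬ (GU U (Pool.Agent.W842.RST.lev n (11 / 10 * θ i))).Reachable v u} with hB6
  have m1 : env n B1 ≤ ENNReal.ofReal ((N + 1) * (1 / (n : ℝ) ^ 2)) := by
    calc env n B1 ≤ ∑ i ∈ range (N + 1),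
          env n {U | ¬ ∃ v, siz n (θ i) ≤
            (comp (GU U (Pool.Agent.W842.RST.lev n (θ i))) v).card} :=
          measure_biUnion_finset_le _ _
      _ ≤ ∑ i ∈ range (N + 1), ENNReal.ofReal (1 / (n : ℝ) ^ 2) := by
          apply Finset.sum_le_sum
          intro i hi
          exact (hnum i (by have := Finset.mem_range.1 hi; omega)).env_giant
      _ = ENNReal.ofReal ((N + 1) * (1 / (n : ℝ) ^ 2)) := by
          rw [← ENNReal.ofReal_sum_of_nonneg (fun _ _ => by positivity), Finset.sum_const,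
            Finset.card_range, nsmul_eq_mul]
          push_cast
          rfl
  have m2 : env n B2 ≤ ENNReal.ofReal (N * (1 / (n : ℝ) ^ 2)) := by
    calc env n B2 ≤ ∑ i ∈ range N,
          env n {U | AvoidBad m (siz n (θ i)) (Pool.Agent.W842.RST.lev n (11 / 10 * θ i))
            (Pool.Agent.W842.RST.lev n (1331 / 1000 * θ i)) U} :=
          measure_biUnion_finset_le _ _
      _ ≤ ∑ i ∈ range N, ENNReal.ofReal (1 / (n : ℝ) ^ 2) := by
          apply Finset.sum_le_sum
          intro i hi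
          exact MEnv.avoid (hnum i (by have := Finset.mem_range.1 hi; omega)) m (hmi i)
      _ = ENNReal.ofReal (N * (1 / (n : ℝ) ^ 2)) := by
          rw [← ENNReal.ofReal_sum_of_nonneg (fun _ _ => by positivity), Finset.sum_const,
            Finset.card_range, nsmul_eq_mul]
  have m3 : env n B3 ≤ ENNReal.ofReal (11 / Real.log n) := H.good_le H2
  have m4 : env n B4 ≤ ENNReal.ofReal (2 / n) := HP.conn hN1 hN2
  have m5 : env n B5 ≤ ENNReal.ofReal (1 / n) := H'.sum_le
  have m6 : env n B6 ≤ ENNReal.ofReal ((N + 1) * (1 / (n : ℝ))) := by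
    calc env n B6 ≤ ∑ i ∈ range (N + 1),
          env n {U | P.vmin ≤ (gd (GU U P.pb) P.s0).card ∧
            ∃ v, siz n (θ i) ≤ (cmp (GU U (Pool.Agent.W842.RST.lev n (θ i))) v).card ∧
            ∀ u ∈ gd (GU U P.pb) P.s0,
              ¬ (GU U (Pool.Agent.W842.RST.lev n (11 / 10 * θ i))).Reachable v u} :=
          measure_biUnion_finset_le _ _
      _ ≤ ∑ i ∈ range (N + 1), ENNReal.ofReal (1 / (n : ℝ)) := by
          apply Finset.sum_le_sum
          intro i hi
          exact MEnv.core1 H (hnum i (by have := Finset.mem_range.1 hi; omega))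
            (H2.hθ.trans (hθge i))
      _ = ENNReal.ofReal ((N + 1) * (1 / (n : ℝ))) := by
          rw [← ENNReal.ofReal_sum_of_nonneg (fun _ _ => by positivity), Finset.sum_const,
            Finset.card_range, nsmul_eq_mul]
          push_cast
          rfl
  have hsub : {U : Ev n | ¬ EnvM P (x / P.y) N m m' U} ⊆
      B1 ∪ (B2 ∪ (B3 ∪ (B4 ∪ (B5 ∪ B6)))) := by
    intro U hU
    by_contra hc
    simp only [Set.mem_union, not_or] at hc
    obtain ⟨u1, u2, u3, u4, u5, u6⟩ := hc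
    apply hU
    have hG : P.Gd (x / P.y) U := by
      by_contra hcon
      exact u3 hcon
    have hs01 : 1 ≤ P.s0 := GEnv.s0_pos H
    have hgd : P.vmin ≤ (gd (GU U P.pb) P.s0).card :=
      hG.hvmin.trans (by exact_mod_cast Finset.card_le_card marks_sub)
    have hvm : 0 < P.vmin := by
      unfold Prm.vmin
      have := GEnv.n0 H
      have := GEnv.gb0 H
      positivity
    have hM0 : 0 < (marks P.pl P.pb P.s1 P.s0 U).card := by
      have := hvm.trans_le hG.hvmin
      exact_mod_cast this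
    obtain ⟨ρ, hρ⟩ := Finset.card_pos.1 hM0
    have hpn : ∀ i, P.pn ≤ Pool.Agent.W842.RST.lev n (11 / 10 * θ i) := by
      intro i
      unfold Pool.Agent.W842.RST.lev
      rw [le_div_iff₀ hn]
      have h1 := (GEnv.npn H).2
      have h4 := H2.hθ
      have h5 := GEnv.t0 H
      have h6 := hθge i
      linarith
    refine ⟨?_, ?_, ?_, ?_, hG, ?_⟩
    · by_contra hcon
      exact u4 hcon
    · intro i hi
      by_contra hcon
      apply u1
      rw [hB1, Set.mem_iUnion₂]
      exact ⟨i, Finset.mem_range.2 (by omega), hcon⟩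
    · intro i hi hcon
      apply u2
      rw [hB2, Set.mem_iUnion₂]
      rw [hsucc, hsucc3] at hcon
      exact ⟨i, Finset.mem_range.2 hi, hcon⟩
    · intro i hi v hv
      rw [hsucc]
      have hce : cmp (GU U (Pool.Agent.W842.RST.lev n (θ i))) v =
          comp (GU U (Pool.Agent.W842.RST.lev n (θ i))) v := by
        ext x
        rw [Marks.mem_cmp, mem_comp]
      have hex : ∃ u ∈ gd (GU U P.pb) P.s0,
          (GU U (Pool.Agent.W842.RST.lev n (11 / 10 * θ i))).Reachable v u := by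
        by_contra hcon
        push Not at hcon
        apply u6
        rw [hB6, Set.mem_iUnion₂]
        refine ⟨i, Finset.mem_range.2 (by omega), hgd, v, ?_, hcon⟩
        rw [hce]
        exact hv
      obtain ⟨u, hu, hvu⟩ := hex
      refine ⟨ρ, hρ, ?_⟩
      exact ((gd_conn hs01 (GEnv.pb_pn H) hG.iso (marks_sub hρ) hu).mono
        (GU_mono (hpn i))).trans hvu.symm
    · by_contra hcon
      exact u5 (le_of_lt (not_le.mp hcon))
  refine (measure_mono hsub).trans ?_
  have e1 : env n (B1 ∪ (B2 ∪ (B3 ∪ (B4 ∪ (B5 ∪ B6))))) ≤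
      (ENNReal.ofReal ((N + 1) * (1 / (n : ℝ) ^ 2)) +
      (ENNReal.ofReal (N * (1 / (n : ℝ) ^ 2)) + (ENNReal.ofReal (11 / Real.log n) +
        (ENNReal.ofReal (2 / n) + (ENNReal.ofReal (1 / n) +
          ENNReal.ofReal ((N + 1) * (1 / (n : ℝ)))))))) := by
    refine (measure_union_le _ _).trans (add_le_add m1 ?_)
    refine (measure_union_le _ _).trans (add_le_add m2 ?_)
    refine (measure_union_le _ _).trans (add_le_add m3 ?_)
    refine (measure_union_le _ _).trans (add_le_add m4 ?_)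
    exact (measure_union_le _ _).trans (add_le_add m5 m6)
  rw [← ENNReal.ofReal_add (by positivity) (by positivity),
    ← ENNReal.ofReal_add (by positivity) (by positivity),
    ← ENNReal.ofReal_add (by positivity) (by positivity),
    ← ENNReal.ofReal_add (by positivity) (by positivity),
    ← ENNReal.ofReal_add (by positivity) (by positivity)] at e1
  refine e1.trans (ENNReal.ofReal_le_ofReal ?_)
  -- numerics
  have hL0 : 0 < Real.log n := by linarith
  have hx2 := HP.x_big2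
  have hLn : 1000000 * Real.log n ^ 2 ≤ n := by
    have h1 : Real.log n ^ 2 ≤ (1 + 8 * Real.log n) ^ 2 :=
      pow_le_pow_left₀ hL0.le (by linarith) 2
    linarith
  have hn1 : (1 : ℝ) ≤ n := by linarith
  have hi : 1 / (n : ℝ) ≤ 1 / (1000000 * Real.log n ^ 2) :=
    div_le_div_of_nonneg_left (by norm_num) (by positivity) hLn
  have hi0 : 0 < 1 / (n : ℝ) := by positivity
  have hLi : Real.log n * (1 / n) ≤ 1 / 1000000 * (1 / Real.log n) := by
    refine (mul_le_mul_of_nonneg_left hi hL0.le).trans (le_of_eq ?_)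
    field_simp
  have hLi1 : 1 / (n : ℝ) ≤ Real.log n * (1 / n) := by nlinarith
  have hNi : (N : ℝ) * (1 / n) ≤ 12 * (Real.log n * (1 / n)) := by
    have := mul_le_mul_of_nonneg_right hN3 hi0.le
    linarith
  have hsq : 1 / (n : ℝ) ^ 2 ≤ 1 / n := by
    apply div_le_div_of_nonneg_left (by norm_num) hn
    nlinarith
  have hNsq : (N : ℝ) * (1 / (n : ℝ) ^ 2) ≤ N * (1 / n) :=
    mul_le_mul_of_nonneg_left hsq (Nat.cast_nonneg _)
  have h5 : 0 < 1 / Real.log n := by positivity
  have h6 : 40 / Real.log n = 40 * (1 / Real.log n) := by ring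
  have h7 : 11 / Real.log n = 11 * (1 / Real.log n) := by ring
  have h9 : 2 / (n : ℝ) = 2 * (1 / n) := by ring
  rw [h6, h7, h9]
  have e2 : ((N : ℝ) + 1) * (1 / (n : ℝ) ^ 2) = N * (1 / (n : ℝ) ^ 2) + 1 / (n : ℝ) ^ 2 := by ring
  have e3 : ((N : ℝ) + 1) * (1 / (n : ℝ)) = N * (1 / (n : ℝ)) + 1 / (n : ℝ) := by ring
  rw [e2, e3]
  linarith

end

end Pool.Agent.TH972.U
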