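import Pool.Agent.TH972.U.MDef
import Pool.Agent.TH972.U.M2
import Pool.Agent.TH972.U.M3

/-!
# Numerical facts for the ball volume (written by helper359, job 3340 of helper972)
-/

set_option autoImplicit false
set_option linter.unusedSectionVars false

namespace Pool.Agent.TH972.U

open Finset MeasureTheory Pool.Agent.W842.RST Pool.Agent.TH972

noncomputable section

namespace MOk3

open M3

variable {n : ℕ} {w : ℝ → ℝ} {gam : ℤ → ℝ} {y Z : ℝ}

theorem SZ24 (c : Cx n w gam y Z) (h : y ^ 3 * Z ^ 48 ≤ n) : Z ^ 24 ≤ M3.S n y := by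
  unfold M3.S
  refine Real.le_sqrt_of_sq_le ?_
  rw [le_div_iff₀ (pow_pos c.y0 3)]
  have e : (Z ^ 24) ^ 2 * y ^ 3 = y ^ 3 * Z ^ 48 := by ring
  rw [e]
  exact h

theorem Zpow (c : Cx n w gam y Z) {a b : ℕ} (hab : a ≤ b) : Z ^ a ≤ Z ^ b :=
  pow_le_pow_right₀ c.Z1 hab

theorem pZ (c : Cx n w gam y Z) {k : ℝ} {a : ℕ} (hk : k ≤ 10 ^ 40) (ha : a < 200) :
    k * Real.log n ^ a ≤ Z := (pl c.HB.hL hk (by omega)).trans c.HB.h1

theorem Cb1' (c : Cx n w gam y Z) : 1 ≤ (prm n w gam y Z).Cb := by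
  have h := c.L0
  have hw : 0 ≤ 1 / w (gam 1) := by
    have := c.H.wpos (gam 1)
    positivity
  have e : (prm n w gam y Z).Cb = 2 * (prm n w gam y Z).ρb +
      12 * (prm n w gam y Z).Δ * ((prm n w gam y Z).Δ * (prm n w gam y Z).ρb + 1 / w (gam 1)) := rfl
  have h1 : 0 ≤ 12 * (prm n w gam y Z).Δ *
      ((prm n w gam y Z).Δ * (prm n w gam y Z).ρb + 1 / w (gam 1)) := by
    rw [c.rb, c.Dl]
    positivity
  have h2 : 1 ≤ (prm n w gam y Z).ρb := by
    rw [c.rb]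
    have := one_le_pow₀ (n := 4) c.L1
    linarith
  rw [e]
  linarith

theorem sC (c : Cx n w gam y Z) :
    (prm n w gam y Z).smax * (prm n w gam y Z).Cb ≤ Z * y ^ 2 := by
  have h0 := c.L0
  have hy := c.y0
  rw [c.smax]
  calc 16 * Real.log n ^ 7 * y ^ 2 * (prm n w gam y Z).Cb ≤
        16 * Real.log n ^ 7 * y ^ 2 * (10 ^ 11 * Real.log n ^ 14) :=
        mul_le_mul_of_nonneg_left c.Cb1 (by positivity)
    _ = (16 * 10 ^ 11 * Real.log n ^ 21) * y ^ 2 := by ring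
    _ ≤ Z * y ^ 2 := mul_le_mul_of_nonneg_right (pZ c (by norm_num) (by norm_num)) (by positivity)

theorem smax0 (c : Cx n w gam y Z) : 0 < (prm n w gam y Z).smax := by
  have h0 := c.L0
  have hy := c.y0
  rw [c.smax]
  positivity

theorem sC0 (c : Cx n w gam y Z) : 0 < (prm n w gam y Z).smax * (prm n w gam y Z).Cb :=
  mul_pos (smax0 c) c.Cb0

theorem k2lo (c : Cx n w gam y Z) : 1 / (Z * y ^ 2) ≤ (prm n w gam y Z).k2 := by
  unfold Prm.k2
  exact one_div_le_one_div_of_le (sC0 c) (sC c)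

theorem k20 (c : Cx n w gam y Z) : 0 < (prm n w gam y Z).k2 := by
  have hy := c.y0
  have hZ := c.Z0
  exact lt_of_lt_of_le (by positivity) (k2lo c)

theorem vmaxle (c : Cx n w gam y Z) : (prm n w gam y Z).vmax ≤ M3.S n y ^ 2 * y ^ 2 := by
  have h0 := c.L0
  have hy := c.y0
  have hS := c.S0
  rw [c.vmax, div_le_iff₀ (by positivity)]
  have h1 : 600 ≤ Real.log n ^ 2 := by
    have := pow_le_pow_left₀ (by norm_num) c.HB.hL 2
    exact le_trans (by norm_num) this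
  calc 600 * M3.S n y ^ 2 * y ^ 2 = M3.S n y ^ 2 * y ^ 2 * 600 := by ring
    _ ≤ M3.S n y ^ 2 * y ^ 2 * Real.log n ^ 2 := mul_le_mul_of_nonneg_left h1 (by positivity)

theorem klo (c : Cx n w gam y Z) :
    Z ^ 6 / (M3.S n y * y ^ 2) ≤ (prm n w gam y Z).klo (Z ^ 7) := by
  have h0 := c.L0
  have hy := c.y0
  have hS := c.S0
  have hZ := c.Z0
  have hv := c.vmax0
  have h1 : 1 / (Z * (M3.S n y * y ^ 2)) ≤
      Real.sqrt ((prm n w gam y Z).k2 / (prm n w gam y Z).vmax) := by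
    refine Real.le_sqrt_of_sq_le ?_
    rw [le_div_iff₀ hv]
    refine le_trans ?_ (k2lo c)
    have h2 : (1 / (Z * (M3.S n y * y ^ 2))) ^ 2 * (prm n w gam y Z).vmax ≤
        (1 / (Z * (M3.S n y * y ^ 2))) ^ 2 * (M3.S n y ^ 2 * y ^ 2) :=
      mul_le_mul_of_nonneg_left (vmaxle c) (by positivity)
    refine h2.trans ?_
    have e : (1 / (Z * (M3.S n y * y ^ 2))) ^ 2 * (M3.S n y ^ 2 * y ^ 2) =
        1 / (Z * (Z * y ^ 2)) := by
      field_simp
    rw [e]
    refine one_div_le_one_div_of_le (by positivity) ?_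
    exact le_mul_of_one_le_left (by positivity) c.Z1
  unfold Prm.klo
  calc Z ^ 6 / (M3.S n y * y ^ 2) = Z ^ 7 * (1 / (Z * (M3.S n y * y ^ 2))) := by field_simp
    _ ≤ _ := mul_le_mul_of_nonneg_left h1 (by positivity)

theorem khi (c : Cx n w gam y Z) :
    (prm n w gam y Z).khi (Z ^ 7) ≤ Z ^ 7 / (M3.S n y * y ^ 2) := by
  have h0 := c.L0
  have hy := c.y0
  have hS := c.S0
  have hZ := c.Z0
  have hv := c.vmin0
  have h1 : Real.sqrt ((prm n w gam y Z).k2 / (prm n w gam y Z).vmin) ≤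
      1 / (M3.S n y * y ^ 2) := by
    rw [Real.sqrt_le_left (by positivity)]
    have e1 : (prm n w gam y Z).k2 / (prm n w gam y Z).vmin =
        1 / ((prm n w gam y Z).smax * (prm n w gam y Z).vmin * (prm n w gam y Z).Cb) := by
      unfold Prm.k2
      rw [div_div]
      congr 1
      ring
    have e2 : (1 / (M3.S n y * y ^ 2)) ^ 2 = 1 / (M3.S n y * y ^ 2) ^ 2 := by
      rw [one_div_pow]
    rw [e1, e2]
    refine one_div_le_one_div_of_le (by positivity) ?_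
    have e3 : (prm n w gam y Z).smax * (prm n w gam y Z).vmin =
        (Real.log n ^ 4 / (10 ^ 8 / 8)) * (M3.S n y * y ^ 2) ^ 2 := by
      rw [c.smax, c.vmin]
      generalize Real.log n = L at *
      generalize M3.S n y = T at *
      field_simp
      norm_num
    have h2 : 1 ≤ Real.log n ^ 4 / (10 ^ 8 / 8) := by
      rw [le_div_iff₀ (by norm_num)]
      have := pow_le_pow_left₀ (by norm_num) c.HB.hL 4
      exact le_trans (by norm_num) this
    have h3 : (M3.S n y * y ^ 2) ^ 2 ≤ (prm n w gam y Z).smax * (prm n w gam y Z).vmin := by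
      rw [e3]
      exact le_mul_of_one_le_left (by positivity) h2
    refine h3.trans (le_mul_of_one_le_right ?_ (Cb1' c))
    exact (mul_pos (smax0 c) hv).le
  unfold Prm.khi
  calc Z ^ 7 * Real.sqrt ((prm n w gam y Z).k2 / (prm n w gam y Z).vmin) ≤
        Z ^ 7 * (1 / (M3.S n y * y ^ 2)) := mul_le_mul_of_nonneg_left h1 (by positivity)
    _ = _ := by ring

theorem khi0 (c : Cx n w gam y Z) : 0 ≤ (prm n w gam y Z).khi (Z ^ 7) := by
  have hZ := c.Z0
  unfold Prm.khi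
  exact mul_nonneg (by positivity) (Real.sqrt_nonneg _)

theorem g1 (c : Cx n w gam y Z) : 2 ≤ (prm n w gam y Z).k2 * (prm n w gam y Z).vmin := by
  have h0 := c.L0
  have hy := c.y0
  have hS := c.S0
  have hZ := c.Z0
  have hv := c.vmin0
  refine le_trans ?_ (mul_le_mul_of_nonneg_right (k2lo c) hv.le)
  have e : 1 / (Z * y ^ 2) * (prm n w gam y Z).vmin =
      M3.S n y ^ 2 / (2 * 10 ^ 8 * Real.log n ^ 3 * Z) := by
    rw [c.vmin]
    generalize Real.log n = L at *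
    generalize M3.S n y = T at *
    field_simp
  rw [e, le_div_iff₀ (by positivity)]
  have h1 : 4 * 10 ^ 8 * Real.log n ^ 3 ≤ Z := pZ c (by norm_num) (by norm_num)
  have h2 : Z ^ 12 ≤ M3.S n y := c.SZ
  have h3 : M3.S n y ≤ M3.S n y ^ 2 := le_self_pow₀ c.S1 (by norm_num)
  calc 2 * (2 * 10 ^ 8 * Real.log n ^ 3 * Z) = (4 * 10 ^ 8 * Real.log n ^ 3) * Z := by ring
    _ ≤ Z * Z := mul_le_mul_of_nonneg_right h1 hZ.le
    _ = Z ^ 2 := by ring
    _ ≤ Z ^ 12 := Zpow c (by norm_num)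
    _ ≤ _ := h2.trans h3

theorem kkle (c : Cx n w gam y Z) : kk n y Z ≤ Z ^ 6 / (M3.S n y * y ^ 2) := by
  have h0 := c.L0
  have hy := c.y0
  have hS := c.S0
  have hZ := c.Z0
  rw [c.k1, div_le_div_iff₀ (by positivity) (by positivity)]
  have h1 : Real.log n ^ 3 ≤ Z := c.LZ (by norm_num)
  have h2 : Z ≤ Z ^ 10 := le_self_pow₀ c.Z1 (by norm_num)
  calc Real.log n ^ 3 * (M3.S n y * y ^ 2) ≤ Z ^ 10 * (M3.S n y * y ^ 2) :=
        mul_le_mul_of_nonneg_right (h1.trans h2) (by positivity)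
    _ = Z ^ 6 * (M3.S n y * Z ^ 4 * y ^ 2) := by ring

theorem g3 (c : Cx n w gam y Z) : 1 / (n : ℝ) ≤ Z ^ 6 / (M3.S n y * y ^ 2) := by
  have hy := c.y0
  have hS := c.S0
  have hZ := c.Z0
  have hn := c.n0
  have hy1 : 1 ≤ y := c.Z1.trans c.hZy
  rw [div_le_div_iff₀ hn (by positivity), c.Ssq, one_mul]
  have h1 : 1 ≤ Z ^ 6 * (M3.S n y * y) :=
    one_le_mul_of_one_le_of_one_le (one_le_pow₀ c.Z1) (one_le_mul_of_one_le_of_one_le c.S1 hy1)
  calc M3.S n y * y ^ 2 = 1 * (M3.S n y * y ^ 2) := by ring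
    _ ≤ Z ^ 6 * (M3.S n y * y) * (M3.S n y * y ^ 2) := mul_le_mul_of_nonneg_right h1 (by positivity)
    _ = Z ^ 6 * (M3.S n y ^ 2 * y ^ 3) := by ring

theorem g4 (c : Cx n w gam y Z) :
    (prm n w gam y Z).khi (Z ^ 7) * (prm n w gam y Z).smax ≤ 1 := by
  have h0 := c.L0
  have hy := c.y0
  have hS := c.S0
  have hZ := c.Z0
  refine (mul_le_mul_of_nonneg_right (khi c) (smax0 c).le).trans ?_
  rw [c.smax]
  have e : Z ^ 7 / (M3.S n y * y ^ 2) * (16 * Real.log n ^ 7 * y ^ 2) =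
      Z ^ 7 * (16 * Real.log n ^ 7) / M3.S n y := by
    generalize Real.log n = L at *
    generalize M3.S n y = T at *
    field_simp
  rw [e, div_le_one hS]
  calc Z ^ 7 * (16 * Real.log n ^ 7) ≤ Z ^ 7 * Z :=
        mul_le_mul_of_nonneg_left (pZ c (by norm_num) (by norm_num)) (by positivity)
    _ = Z ^ 8 := by ring
    _ ≤ Z ^ 12 := Zpow c (by norm_num)
    _ ≤ _ := c.SZ

theorem g5 (c : Cx n w gam y Z) (h : y ^ 3 * Z ^ 48 ≤ n) :
    (prm n w gam y Z).khi (Z ^ 7) * Z ^ 7 ≤ (prm n w gam y Z).k2 := by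
  have hy := c.y0
  have hS := c.S0
  have hZ := c.Z0
  refine le_trans (mul_le_mul_of_nonneg_right (khi c) (by positivity)) (le_trans ?_ (k2lo c))
  have e : Z ^ 7 / (M3.S n y * y ^ 2) * Z ^ 7 = Z ^ 14 / (M3.S n y * y ^ 2) := by ring
  rw [e, div_le_div_iff₀ (by positivity) (by positivity)]
  have h1 : Z ^ 15 ≤ M3.S n y := (Zpow c (by norm_num)).trans (SZ24 c h)
  calc Z ^ 14 * (Z * y ^ 2) = Z ^ 15 * y ^ 2 := by ring
    _ ≤ M3.S n y * y ^ 2 := mul_le_mul_of_nonneg_right h1 (by positivity)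
    _ = _ := by ring

theorem g6 (c : Cx n w gam y Z) (h : y ^ 3 * Z ^ 48 ≤ n) :
    (prm n w gam y Z).khi (Z ^ 7) / (prm n w gam y Z).k2 ≤ 1 / Z ^ 7 := by
  have hZ := c.Z0
  rw [div_le_div_iff₀ (k20 c) (by positivity), one_mul]
  exact g5 c h

theorem ggle (c : Cx n w gam y Z) : (prm n w gam y Z).gg ≤ Z := by
  have h1 := c.C1
  have h2 : 1 ≤ Real.log n ^ 14 := one_le_pow₀ c.L1
  have h3 : 10 ^ 14 * Real.log n ^ 14 ≤ Z := pZ c (by norm_num) (by norm_num)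
  unfold Prm.gg
  linarith

theorem ggK (c : Cx n w gam y Z) : (prm n w gam y Z).gg * (Z ^ 7) ^ 5 ≤ (⌈Z ^ 40⌉₊ : ℝ) := by
  have hZ := c.Z0
  refine le_trans ?_ (Nat.le_ceil _)
  calc (prm n w gam y Z).gg * (Z ^ 7) ^ 5 ≤ Z * (Z ^ 7) ^ 5 :=
        mul_le_mul_of_nonneg_right (ggle c) (by positivity)
    _ = Z ^ 36 := by ring
    _ ≤ Z ^ 40 := Zpow c (by norm_num)

theorem K2 (c : Cx n w gam y Z) : 2 ≤ ⌈Z ^ 40⌉₊ := by
  have h1 : (2 : ℝ) ≤ Z ^ 40 :=
    le_trans (le_trans (by norm_num) c.Zb) (le_self_pow₀ c.Z1 (by norm_num))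
  have h2 : (2 : ℝ) ≤ (⌈Z ^ 40⌉₊ : ℝ) := h1.trans (Nat.le_ceil _)
  exact_mod_cast h2

/-! ### the length -/

/-- the new length -/
def mm (n : ℕ) (y Z : ℝ) : ℕ := ⌈Real.sqrt (n / y) / Z ^ 2⌉₊

/-- the new number of attachments -/
def NN (n : ℕ) (y Z : ℝ) : ℕ :=
  ⌊Real.sqrt (Real.log n) * mm n y Z / (60 * y)⌋₊

theorem mmlo (c : Cx n w gam y Z) : M3.S n y * y / Z ^ 2 ≤ (mm n y Z : ℝ) := by
  rw [← c.sqny]
  exact Nat.le_ceil _

theorem SZ2 (c : Cx n w gam y Z) (h : y ^ 3 * Z ^ 48 ≤ n) : Z ^ 22 ≤ M3.S n y / Z ^ 2 := by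
  have hZ := c.Z0
  rw [le_div_iff₀ (by positivity)]
  calc Z ^ 22 * Z ^ 2 = Z ^ 24 := by ring
    _ ≤ _ := SZ24 c h

theorem mm1 (c : Cx n w gam y Z) (h : y ^ 3 * Z ^ 48 ≤ n) : 1 ≤ mm n y Z := by
  have hZ := c.Z0
  have hy1 : 1 ≤ y := c.Z1.trans c.hZy
  have h1 : 1 ≤ M3.S n y / Z ^ 2 := (one_le_pow₀ c.Z1).trans (SZ2 c h)
  have h2 : 1 ≤ M3.S n y * y / Z ^ 2 := by
    have e : M3.S n y * y / Z ^ 2 = M3.S n y / Z ^ 2 * y := by ring
    rw [e]
    exact one_le_mul_of_one_le_of_one_le h1 hy1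
  have h3 : (1 : ℝ) ≤ (mm n y Z : ℝ) := h2.trans (mmlo c)
  exact_mod_cast h3

theorem mmhi (c : Cx n w gam y Z) : mm n y Z ≤ (prm n w gam y Z).m := by
  have hZ := c.Z0
  show ⌈Real.sqrt (n / y) / Z ^ 2⌉₊ ≤ ⌈Real.sqrt (n / y) * Z ^ 8⌉₊
  refine Nat.ceil_le_ceil ?_
  have h0 := Real.sqrt_nonneg ((n : ℝ) / y)
  have h1 : Real.sqrt (n / y) / Z ^ 2 ≤ Real.sqrt (n / y) := div_le_self h0 (one_le_pow₀ c.Z1)
  exact h1.trans (le_mul_of_one_le_right h0 (one_le_pow₀ c.Z1))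

theorem Tlo (c : Cx n w gam y Z) :
    2 * (M3.S n y / Z ^ 2) ≤ Real.sqrt (Real.log n) * (mm n y Z : ℝ) / (60 * y) := by
  have hy := c.y0
  have hS := c.S0
  have hZ := c.Z0
  have h2 := mmlo c
  have h3 := c.sq1
  have h4 : 120 * (M3.S n y * y / Z ^ 2) ≤ Real.sqrt (Real.log n) * (mm n y Z : ℝ) :=
    mul_le_mul (le_trans (by norm_num) h3) h2 (by positivity) (by positivity)
  rw [le_div_iff₀ (by positivity)]
  calc 2 * (M3.S n y / Z ^ 2) * (60 * y) = 120 * (M3.S n y * y / Z ^ 2) := by ring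
    _ ≤ _ := h4

theorem NNlo (c : Cx n w gam y Z) (h : y ^ 3 * Z ^ 48 ≤ n) : M3.S n y / Z ^ 2 ≤ (NN n y Z : ℝ) := by
  have h1 : Real.sqrt (Real.log n) * (mm n y Z : ℝ) / (60 * y) - 1 < (NN n y Z : ℝ) :=
    Nat.sub_one_lt_floor _
  have h2 := Tlo c
  have h3 : 1 ≤ M3.S n y / Z ^ 2 := (one_le_pow₀ c.Z1).trans (SZ2 c h)
  linarith

theorem NNhi (c : Cx n w gam y Z) :
    (NN n y Z : ℝ) ≤ Real.sqrt (Real.log n) * (mm n y Z : ℝ) / (60 * y) := by
  have h := c.y0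
  refine Nat.floor_le ?_
  positivity

theorem gΦ (c : Cx n w gam y Z) (h : y ^ 3 * Z ^ 48 ≤ n) :
    4 * Real.log n ≤ (prm n w gam y Z).Φ ((prm n w gam y Z).klo (Z ^ 7)) (NN n y Z) := by
  have h0 := c.L0
  have hZ := c.Z0
  have hS := c.S0
  have hy := c.y0
  have hL1 := c.L1
  have hac := c.ac1
  have hac2 := c.ac2
  have hJ4 := c.J4
  have hTl := c.Tl0
  have haT := c.haT
  have e : (prm n w gam y Z).Φ ((prm n w gam y Z).klo (Z ^ 7)) (NN n y Z) =
      (prm n w gam y Z).klo (Z ^ 7) * (NN n y Z) *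
      (prm n w gam y Z).s1 / (8 * (prm n w gam y Z).ac *
        ((1 + (prm n w gam y Z).ac * Real.exp (Real.sqrt (Real.log n))) ^ JL (Real.log n) *
        Real.exp ((prm n w gam y Z).ac * (((JL (Real.log n) : ℝ) + 1) *
          (prm n w gam y Z).Tl))) ^ 2) := rfl
  rw [e]
  have hJe : ((prm n w gam y Z).J : ℝ) = (JL (Real.log n) : ℝ) := rfl
  rw [hJe] at hJ4
  set W : ℝ := ((1 + Real.log n ^ 30 * Real.exp (Real.sqrt (Real.log n))) ^ JL (Real.log n) *
    Real.exp (JL (Real.log n))) ^ 2 with hW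
  have hW4 : W * Real.log n ^ 200 ≤ Z := c.HB.h4
  have d1 : (1 + (prm n w gam y Z).ac * Real.exp (Real.sqrt (Real.log n))) ^ JL (Real.log n) ≤
      (1 + Real.log n ^ 30 * Real.exp (Real.sqrt (Real.log n))) ^ JL (Real.log n) := by
    refine pow_le_pow_left₀ (by positivity) ?_ _
    have := mul_le_mul_of_nonneg_right hac (Real.exp_pos (Real.sqrt (Real.log n))).le
    linarith
  have d2 : Real.exp ((prm n w gam y Z).ac * (((JL (Real.log n) : ℝ) + 1) *
          (prm n w gam y Z).Tl)) ≤ Real.exp (JL (Real.log n)) := by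
    refine Real.exp_le_exp.2 ?_
    have a1 : (prm n w gam y Z).ac * (prm n w gam y Z).Tl ≤ 1 / 4 := by linarith
    have a2 : (prm n w gam y Z).ac * (((JL (Real.log n) : ℝ) + 1) * (prm n w gam y Z).Tl) =
      ((JL (Real.log n) : ℝ) + 1) * ((prm n w gam y Z).ac * (prm n w gam y Z).Tl) := by ring
    rw [a2]
    have a3 := mul_le_mul_of_nonneg_left a1 (show 0 ≤ (JL (Real.log n) : ℝ) + 1 by linarith)
    linarith
  have d3 : ((1 + (prm n w gam y Z).ac * Real.exp (Real.sqrt (Real.log n))) ^ JL (Real.log n) *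
        Real.exp ((prm n w gam y Z).ac * (((JL (Real.log n) : ℝ) + 1) *
          (prm n w gam y Z).Tl))) ^ 2 ≤ W := by
    rw [hW]
    refine pow_le_pow_left₀ (by positivity) ?_ 2
    exact mul_le_mul d1 d2 (Real.exp_pos _).le (by positivity)
  have d4 : 0 < ((1 + (prm n w gam y Z).ac * Real.exp (Real.sqrt (Real.log n))) ^
      JL (Real.log n) * Real.exp ((prm n w gam y Z).ac * (((JL (Real.log n) : ℝ) + 1) *
          (prm n w gam y Z).Tl))) ^ 2 := by positivity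
  generalize ((1 + (prm n w gam y Z).ac * Real.exp (Real.sqrt (Real.log n))) ^
      JL (Real.log n) * Real.exp ((prm n w gam y Z).ac * (((JL (Real.log n) : ℝ) + 1) *
          (prm n w gam y Z).Tl))) ^ 2 = V at *
  rw [le_div_iff₀ (by positivity)]
  have hk := klo c
  have hk0 : 0 ≤ (prm n w gam y Z).klo (Z ^ 7) := le_trans (by positivity) hk
  have n1 : Z ^ 6 / (M3.S n y * y ^ 2) * (M3.S n y / Z ^ 2) *
      (y ^ 2 / (6520 * Real.log n)) ≤ (prm n w gam y Z).klo (Z ^ 7) * (NN n y Z) *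
        (prm n w gam y Z).s1 := by
    refine mul_le_mul ?_ c.s1 (by positivity) (by positivity)
    exact mul_le_mul hk (NNlo c h) (by positivity) hk0
  refine le_trans ?_ n1
  have e2 : Z ^ 6 / (M3.S n y * y ^ 2) * (M3.S n y / Z ^ 2) *
      (y ^ 2 / (6520 * Real.log n)) = Z ^ 4 / (6520 * Real.log n) := by
    generalize Real.log n = L at *
    generalize M3.S n y = T at *
    field_simp
  rw [e2, le_div_iff₀ (by positivity)]
  have m1 : 8 * (prm n w gam y Z).ac * V ≤ 8 * Real.log n ^ 30 * W :=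
    mul_le_mul (by linarith) d3 d4.le (by positivity)
  have m2 : 4 * Real.log n * (8 * (prm n w gam y Z).ac * V) * (6520 * Real.log n) ≤
      4 * Real.log n * (8 * Real.log n ^ 30 * W) * (6520 * Real.log n) :=
    mul_le_mul_of_nonneg_right (mul_le_mul_of_nonneg_left m1 (by positivity)) (by positivity)
  have hW0 : 0 ≤ W := by rw [hW]; positivity
  have m3 : 4 * Real.log n * (8 * Real.log n ^ 30 * W) * (6520 * Real.log n) ≤ Z := by
    have e3 : 4 * Real.log n * (8 * Real.log n ^ 30 * W) * (6520 * Real.log n) =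
        W * (208640 * Real.log n ^ 32) := by ring
    rw [e3]
    refine le_trans (mul_le_mul_of_nonneg_left ?_ hW0) hW4
    exact pl c.HB.hL (by norm_num) (by norm_num)
  exact m2.trans (m3.trans (le_self_pow₀ c.Z1 (by norm_num)))

theorem gS (c : Cx n w gam y Z) (h : y ^ 3 * Z ^ 48 ≤ n) :
    20 ^ NN n y Z * ({prm n w gam y Z with m := mm n y Z} : Prm n).sb ≤ 1 / (n : ℝ) ^ 3 := by
  have h0 := c.L0
  have hZ := c.Z0
  have hS := c.S0
  have hy := c.y0
  have hn := c.n0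
  have hL1 := c.L1
  have hlam := c.sq1
  have hK := c.Khi
  set T : ℝ := Real.sqrt (Real.log n) * (mm n y Z : ℝ) / (60 * y) with hT
  have hNT : (NN n y Z : ℝ) ≤ T := NNhi c
  have hTlo : 2 * (M3.S n y / Z ^ 2) ≤ T := Tlo c
  have e : ({prm n w gam y Z with m := mm n y Z} : Prm n).sb = 2 * (n : ℝ) ^ 2 *
    (((prm n w gam y Z).K : ℝ) / Real.sqrt (Real.log n)) ^ 20 *
      Real.exp (-(Real.sqrt (Real.log n) * (mm n y Z : ℝ) / (10 * y))) := rfl
  have e1 : Real.sqrt (Real.log n) * (mm n y Z : ℝ) / (10 * y) = 6 * T := by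
    rw [hT]
    field_simp
    ring
  rw [e, e1]
  have a1 : (20 : ℝ) ^ NN n y Z ≤ Real.exp (3 * T) := by
    have b1 : (20 : ℝ) ≤ Real.exp 3 := by
      have c1 := Real.exp_one_gt_d9
      have c2 : Real.exp 3 = Real.exp 1 ^ 3 := by
        rw [← Real.exp_nat_mul]; norm_num
      rw [c2]
      have c3 : (2.7182818283 : ℝ) ^ 3 ≤ Real.exp 1 ^ 3 :=
        pow_le_pow_left₀ (by norm_num) c1.le 3
      exact le_trans (by norm_num) c3
    have b2 : (20 : ℝ) ^ NN n y Z ≤ Real.exp 3 ^ NN n y Z := pow_le_pow_left₀ (by norm_num) b1 _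
    refine b2.trans ?_
    rw [← Real.exp_nat_mul]
    refine Real.exp_le_exp.2 ?_
    linarith
  have a2 : (((prm n w gam y Z).K : ℝ) / Real.sqrt (Real.log n)) ^ 20 ≤ Real.exp Z := by
    have b0 : (0 : ℝ) < Real.sqrt (Real.log n) := lt_of_lt_of_le (by norm_num) hlam
    have b1 : ((prm n w gam y Z).K : ℝ) / Real.sqrt (Real.log n) ≤ Real.log n ^ 10 := by
      rw [div_le_iff₀ b0]
      refine hK.trans (le_mul_of_one_le_right (by positivity) ?_)
      exact le_trans (by norm_num) hlam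
    have b2 : (((prm n w gam y Z).K : ℝ) / Real.sqrt (Real.log n)) ^ 20 ≤
        (Real.log n ^ 10) ^ 20 := pow_le_pow_left₀ (by positivity) b1 20
    rw [← pow_mul] at b2
    refine b2.trans (c.HB.h1.trans ?_)
    have := Real.add_one_le_exp Z
    linarith
  have a3 : (n : ℝ) = Real.exp (Real.log n) := (Real.exp_log hn).symm
  have a4 : (2 : ℝ) ≤ Real.exp 1 := by
    have := Real.add_one_le_exp (1 : ℝ)
    linarith
  have e2 : (n : ℝ) ^ 2 = Real.exp (2 * Real.log n) := by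
    conv_lhs => rw [a3]
    rw [← Real.exp_nat_mul]
    norm_num
  have e3 : 1 / (n : ℝ) ^ 3 = Real.exp (-(3 * Real.log n)) := by
    rw [Real.exp_neg, ← one_div]
    congr 1
    conv_lhs => rw [a3]
    rw [← Real.exp_nat_mul]
    norm_num
  rw [e3, e2]
  have k0 : 0 ≤ (((prm n w gam y Z).K : ℝ) / Real.sqrt (Real.log n)) ^ 20 := by positivity
  calc (20 : ℝ) ^ NN n y Z * (2 * Real.exp (2 * Real.log n) *
      (((prm n w gam y Z).K : ℝ) / Real.sqrt (Real.log n)) ^ 20 * Real.exp (-(6 * T)))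
      ≤ Real.exp (3 * T) * (Real.exp 1 * Real.exp (2 * Real.log n) * Real.exp Z *
        Real.exp (-(6 * T))) := by
        refine mul_le_mul a1 ?_ (by positivity) (Real.exp_pos _).le
        refine mul_le_mul_of_nonneg_right ?_ (Real.exp_pos _).le
        refine mul_le_mul ?_ a2 k0 (by positivity)
        exact mul_le_mul_of_nonneg_right a4 (Real.exp_pos _).le
    _ = Real.exp (3 * T + (1 + 2 * Real.log n + Z + -(6 * T))) := by
        rw [← Real.exp_add, ← Real.exp_add, ← Real.exp_add, ← Real.exp_add]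
    _ ≤ Real.exp (-(3 * Real.log n)) := by
        refine Real.exp_le_exp.2 ?_
        have b1 : Real.log n ≤ Z := by
          have := c.LZ (a := 1) (by norm_num)
          rwa [pow_one] at this
        have b2 : Z ^ 2 ≤ M3.S n y / Z ^ 2 := (Zpow c (by norm_num)).trans (SZ2 c h)
        have b3 : 10 * Z ≤ Z ^ 2 := by
          have := c.Zb
          nlinarith
        have b4 := c.Z1
        linarith

theorem gOk (c : Cx n w gam y Z) (h : y ^ 3 * Z ^ 48 ≤ n) (O : (prm n w gam y Z).Ok) :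
    ({prm n w gam y Z with m := mm n y Z} : Prm n).Ok := by
  have hy := c.y0
  have hm : (mm n y Z : ℝ) ≤ ((prm n w gam y Z).m : ℝ) := by exact_mod_cast mmhi c
  have hK0 : (0 : ℝ) ≤ ((prm n w gam y Z).K : ℝ) := Nat.cast_nonneg _
  exact
  { lvs := O.lvs
    hn := O.hn
    hL := O.hL
    hyn := O.hyn
    hKy := O.hKy
    hη := O.hη
    hη1 := O.hη1
    hI0 := O.hI0
    hI0K := O.hI0K
    hI := O.hI
    ha5 := O.ha5
    ha5l := O.ha5l
    ha5K := O.ha5K
    hlam := O.hlam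
    hlamI := O.hlamI
    hb0 := O.hb0
    hb := O.hb
    hbJ := O.hbJ
    hK := by
      refine le_trans ?_ O.hK
      have h1 : Real.log (2 * (mm n y Z : ℝ) + 1) ≤
          Real.log (2 * ((prm n w gam y Z).m : ℝ) + 1) :=
        Real.log_le_log (by positivity) (by linarith)
      show 1.15 * (((prm n w gam y Z).I : ℝ) + (prm n w gam y Z).b +
        Real.log (2 * (mm n y Z : ℝ) + 1)) ≤ _
      linarith
    haa := O.haa
    haa1 := O.haa1
    haa2 := O.haa2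
    hJ := O.hJ
    hJ2 := O.hJ2
    hcap := O.hcap
    hX := by
      refine le_trans ?_ O.hX
      show 3 * ((prm n w gam y Z).K : ℝ) * (mm n y Z : ℝ) / y ≤
        3 * ((prm n w gam y Z).K : ℝ) * ((prm n w gam y Z).m : ℝ) / y
      refine div_le_div_of_nonneg_right ?_ hy.le
      exact mul_le_mul_of_nonneg_left hm (by positivity)
    hm := mm1 c h
    hm2 := by
      refine le_trans ?_ O.hm2
      show (mm n y Z : ℝ) + 3 ≤ _
      linarith
    ngb := O.ngb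
    hs1 := O.hs1
    hs1' := O.hs1'
    hs0 := O.hs0
    hs0' := O.hs0' }

end MOk3

theorem prm_ok3 {n : ℕ} {w : ℝ → ℝ} {gam : ℤ → ℝ} {y Z : ℝ} (hn : 2 ≤ n)
    (H : Lvs w gam n y (KL (Real.log n))) (HB : Big (Real.log n) Z) (hZy : Z ≤ y)
    (hZn : y ^ 3 * Z ^ 48 ≤ n) :
    (prm n w gam y Z).Ok3 (Z ^ 7) ⌈Real.sqrt (n / y) / Z ^ 2⌉₊
      ⌊Real.sqrt (Real.log n) * ⌈Real.sqrt (n / y) / Z ^ 2⌉₊ / (60 * y)⌋₊ ⌈Z ^ 40⌉₊ := by
  have hL1 : 1 ≤ Real.log n := le_trans (by norm_num) HB.hL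
  have hZ1 : 1 ≤ Z := (one_le_pow₀ hL1).trans HB.h1
  have hy0 : 0 < y := by linarith
  have hZn' : y ^ 3 * Z ^ 24 ≤ n := by
    refine le_trans ?_ hZn
    exact mul_le_mul_of_nonneg_left (pow_le_pow_right₀ hZ1 (by norm_num)) (by positivity)
  have c : M3.Cx n w gam y Z := ⟨hn, H, HB, hZy, hZn'⟩
  exact
  { hm := MOk3.gOk c hZn (prm_ok hn H HB hZy hZn')
    hσ := one_le_pow₀ hZ1
    h1 := MOk3.g1 c
    h2 := c.hk.trans ((MOk3.kkle c).trans (MOk3.klo c))
    h3 := (MOk3.g3 c).trans (MOk3.klo c)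
    h4 := MOk3.g4 c
    h5 := MOk3.g5 c hZn
    h6 := MOk3.g6 c hZn
    hK := MOk3.ggK c
    hK2 := MOk3.K2 c
    hΦ := MOk3.gΦ c hZn
    hS := MOk3.gS c hZn }

end

end Pool.Agent.TH972.U
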