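import Pool.Agent.TH972.U.MEnv
import Pool.Agent.TH972.U.MBall
import Pool.Agent.TH972.U.MOk3
import Pool.Agent.TH972.U.AvSum
import Pool.Agent.TH972.U.RsExp

/-!
# Typical balls in the intermediate regime (written by helper521, job 3481 of helper972)
-/

set_option autoImplicit false

namespace Pool.Agent.TH972.U

open Finset MeasureTheory Pool.Agent.W842.RST Pool.Agent.TH972 Filter Topology

noncomputable section

namespace MTyp

theorem par {n : ℕ} {y Z : ℝ} (hn : 2 ≤ n) (HB : Big (Real.log n) Z)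
    (hLy : Real.log n ^ 8 ≤ y) (hy3 : y ^ 3 ≤ n) :
    Par 1 n (Real.log n ^ 8) y := by
  have hL := HB.hL
  obtain ⟨L, hLd⟩ : ∃ L, L = Real.log n := ⟨_, rfl⟩
  have hn1 : (1 : ℝ) ≤ n := by
    have : 1 ≤ n := by omega
    exact_mod_cast this
  rw [← hLd] at hL hLy ⊢
  have hLb : 10 ^ 6 ≤ L := le_trans (by norm_num) hL
  have hL0 : 0 < L := by linarith
  have hy1 : 1 ≤ y := le_trans (one_le_pow₀ (by linarith)) hLy
  refine ⟨one_pos, by rw [← hLd]; linarith, ?_, hLy, hy3, ?_, ?_⟩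
  · rw [← hLd]
    have e2 : (1 + 8 * L) ^ 6 ≤ (9 * L) ^ 6 :=
      pow_le_pow_left₀ (by linarith) (by linarith) 6
    have e3 : (1000000 : ℝ) * 9 ^ 6 ≤ L ^ 2 := by
      calc (1000000 : ℝ) * 9 ^ 6 ≤ (10 ^ 6) ^ 2 := by norm_num
        _ ≤ L ^ 2 := pow_le_pow_left₀ (by norm_num) hLb 2
    calc 1000000 * (1 + 8 * L) ^ 6 ≤ 1000000 * (9 * L) ^ 6 := by linarith
      _ = 1000000 * 9 ^ 6 * L ^ 6 := by ring
      _ ≤ L ^ 2 * L ^ 6 := mul_le_mul_of_nonneg_right e3 (by positivity)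
      _ = L ^ 8 := by ring
  · rw [Real.rpow_one]
    exact (le_self_pow₀ hy1 (by norm_num)).trans hy3
  · rw [← hLd, Real.rpow_one]
    have e3 : 126 * (1 + 1) * L * (1 + 5 * L) ≤ 1512 * L ^ 2 := by nlinarith
    have e4 : (1512 : ℝ) ≤ L ^ 6 := by
      calc (1512 : ℝ) ≤ (10 ^ 6) ^ 6 := by norm_num
        _ ≤ L ^ 6 := pow_le_pow_left₀ (by norm_num) hLb 6
    calc 126 * (1 + 1) * L * (1 + 5 * L) ≤ 1512 * L ^ 2 := e3
      _ ≤ L ^ 6 * L ^ 2 := mul_le_mul_of_nonneg_right e4 (by positivity)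
      _ = 1 * L ^ 8 := by ring

theorem hth {n : ℕ} {y : ℝ} (HP : Par 1 n (Real.log n ^ 8) y) : ∀ θ : ℝ,
    Real.log n ^ 8 / y ≤ θ → θ ≤ 5 * Real.log n →
      ∀ u u' : ℝ, u ≤ Pool.Agent.W842.RST.lev n θ →
        Pool.Agent.W842.RST.lev n (11 / 10 * θ) < u' →
        Real.exp (-(y * (n * u' - 1))) ≤
          1 / (n : ℝ) ^ 6 * Real.exp (-(y * (n * u - 1))) := by
  intro θ h1 h2 u u' hu hu'
  have hy0 := HP.y_pos
  have hn0 := HP.n_pos
  have hx := HP.x_big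
  have hL := HP.hL
  unfold Pool.Agent.W842.RST.lev at hu hu'
  rw [le_div_iff₀ hn0] at hu
  rw [div_lt_iff₀ hn0] at hu'
  rw [div_le_iff₀ hy0] at h1
  have e1 : 1 / (n : ℝ) ^ 6 = Real.exp (-(6 * Real.log n)) := by
    rw [Real.exp_neg, one_div]
    congr 1
    rw [show 6 * Real.log (n : ℝ) = ((6 : ℕ) : ℝ) * Real.log n by norm_num,
      Real.exp_nat_mul, Real.exp_log hn0]
  rw [e1, ← Real.exp_add]
  apply Real.exp_le_exp.2
  have e2 : 60 * Real.log n ≤ Real.log n ^ 8 := by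
    have h3 := HP.hx
    have h4 : (1 + 8 * Real.log n) ≤ (1 + 8 * Real.log n) ^ 6 :=
      le_self_pow₀ (by linarith) (by norm_num)
    linarith
  have e3 : 1 / 10 * θ ≤ n * u' - n * u := by linarith
  have e4 : y * (1 / 10 * θ) ≤ y * (n * u' - n * u) :=
    mul_le_mul_of_nonneg_left e3 hy0.le
  have e5 : y * (1 / 10 * θ) = 1 / 10 * (θ * y) := by ring
  have e6 : y * (n * u' - n * u) = y * (n * u' - 1) - y * (n * u - 1) := by
    ring
  linarith

theorem exp17 : Real.exp 17 ≤ 2 * 10 ^ 8 := by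
  have h1 : Real.exp 17 = Real.exp 1 ^ 17 := by
    rw [← Real.exp_nat_mul]
    norm_num
  rw [h1]
  calc Real.exp 1 ^ 17 ≤ (3 : ℝ) ^ 17 :=
        pow_le_pow_left₀ (Real.exp_pos 1).le (Real.exp_one_lt_d9.le.trans (by norm_num)) _
    _ ≤ 2 * 10 ^ 8 := by norm_num

/-- the loss -/
theorem loss {n L Z : ℝ} {K : ℕ} (hL : 10 ^ 40 ≤ L) (hZ : L ^ 200 ≤ Z) (hZn : Z ≤ n)
    (hZL : Real.log Z ≤ L / 100) (hK1 : Z ^ 40 ≤ K) (hK2 : (K : ℝ) ≤ 2 * Z ^ 40) :
    4 * (3 * Real.exp 17 / Real.sqrt (Z ^ 7) + 1 / K + 4 * (1 + Real.log K) / Z ^ 7 +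
      5 * L / Z ^ 7 + 1 / n) ≤ 1 / L := by
  have hL1 : 1 ≤ L := le_trans (by norm_num) hL
  have hL0 : 0 < L := by linarith
  have hZ3 : L ^ 3 ≤ Z := (pow_le_pow_right₀ hL1 (by norm_num)).trans hZ
  have hZ1 : 1 ≤ Z := (one_le_pow₀ hL1).trans hZ3
  have hZ0 : 0 < Z := by linarith
  have h7 : Z ≤ Z ^ 7 := le_self_pow₀ hZ1 (by norm_num)
  have h70 : 0 < Z ^ 7 := by positivity
  have hs : Z ≤ Real.sqrt (Z ^ 7) := by
    rw [Real.le_sqrt' hZ0]
    exact pow_le_pow_right₀ hZ1 (by norm_num)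
  have a1 : 3 * Real.exp 17 / Real.sqrt (Z ^ 7) ≤ 6 * 10 ^ 8 / Z := by
    have := exp17
    exact div_le_div₀ (by norm_num) (by linarith) hZ0 hs
  have hK0 : Z ≤ K := (le_self_pow₀ hZ1 (by norm_num)).trans hK1
  have a2 : 1 / (K : ℝ) ≤ 1 / Z := one_div_le_one_div_of_le hZ0 hK0
  have hlK : Real.log K ≤ L := by
    have h1 : Real.log K ≤ Real.log (2 * Z ^ 40) := Real.log_le_log (by linarith) hK2
    rw [Real.log_mul (by norm_num) (by positivity), Real.log_pow] at h1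
    have h2 : Real.log 2 ≤ 1 := by
      have := Real.log_two_lt_d9
      linarith
    push_cast at h1
    have h3 : (10 : ℝ) ^ 40 ≥ 10 := by norm_num
    linarith
  have a3 : 4 * (1 + Real.log K) / Z ^ 7 ≤ 8 * L / Z :=
    div_le_div₀ (by positivity) (by linarith) hZ0 h7
  have a4 : 5 * L / Z ^ 7 ≤ 5 * L / Z := div_le_div₀ (by positivity) le_rfl hZ0 h7
  have a5 : 1 / n ≤ 1 / Z := one_div_le_one_div_of_le hZ0 hZn
  have e : 4 * (6 * 10 ^ 8 / Z + 1 / Z + 8 * L / Z + 5 * L / Z + 1 / Z) =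
      (4 * (6 * 10 ^ 8 + 2 + 13 * L)) / Z := by ring
  have a6 : 4 * (6 * 10 ^ 8 + 2 + 13 * L) / Z ≤ 1 / L := by
    rw [div_le_div_iff₀ hZ0 hL0, one_mul]
    refine le_trans ?_ hZ3
    have b1 : 4 * (6 * 10 ^ 8 + 2 + 13 * L) ≤ L ^ 2 := by nlinarith
    calc 4 * (6 * 10 ^ 8 + 2 + 13 * L) * L ≤ L ^ 2 * L :=
          mul_le_mul_of_nonneg_right b1 hL0.le
      _ = L ^ 3 := by ring
  linarith

/-- the radius -/
theorem radius {n y L Z : ℝ} {m' m N : ℕ} (hL : 10 ^ 40 ≤ L) (hZ : L ^ 200 ≤ Z) (hZy : Z ≤ y)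
    (hZn : y ^ 3 * Z ^ 48 ≤ n) (hm' : m' = ⌈Real.sqrt (n / y) / Z ^ 2⌉₊)
    (hmN : ((m * N : ℕ) : ℝ) ≤ 3000 * L ^ 2 * (y / L ^ 8)) :
    2 * (m' + m * N) ≤ ⌊Real.sqrt (n / y) / Z⌋₊ := by
  have hL1 : 1 ≤ L := le_trans (by norm_num) hL
  have hL0 : 0 < L := by linarith
  have hLZ : L ≤ Z := (le_self_pow₀ hL1 (by norm_num)).trans hZ
  have hZ1 : 1 ≤ Z := by linarith
  have hZ0 : 0 < Z := by linarith
  have hy0 : 0 < y := by linarith
  have hy1 : 1 ≤ y := by linarith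
  set S := Real.sqrt (n / y) with hS
  have hS1 : y * Z ^ 24 ≤ S := by
    rw [hS, Real.le_sqrt' (by positivity), le_div_iff₀ hy0]
    calc (y * Z ^ 24) ^ 2 * y = y ^ 3 * Z ^ 48 := by ring
      _ ≤ n := hZn
  have hS0 : 0 < S := lt_of_lt_of_le (by positivity) hS1
  refine Nat.le_floor ?_
  have h1 : (m' : ℝ) ≤ S / Z ^ 2 + 1 := by
    rw [hm']
    exact (Nat.ceil_lt_add_one (by positivity)).le
  have h2 : ((m * N : ℕ) : ℝ) ≤ y := by
    refine hmN.trans ?_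
    have e1 : 3000 * L ^ 2 * (y / L ^ 8) = 3000 / L ^ 6 * y := by field_simp
    rw [e1]
    have e2 : 3000 / L ^ 6 ≤ 1 := by
      rw [div_le_one (by positivity)]
      calc (3000 : ℝ) ≤ 10 ^ 40 := by norm_num
        _ ≤ L := hL
        _ ≤ L ^ 6 := le_self_pow₀ hL1 (by norm_num)
    calc 3000 / L ^ 6 * y ≤ 1 * y := mul_le_mul_of_nonneg_right e2 hy0.le
      _ = y := one_mul y
  push_cast at h2 ⊢
  have h3 : y * Z ^ 2 ≤ S := by
    refine le_trans (mul_le_mul_of_nonneg_left ?_ hy0.le) hS1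
    exact pow_le_pow_right₀ hZ1 (by norm_num)
  have h4 : y ≤ S / Z ^ 2 := by
    rw [le_div_iff₀ (by positivity)]
    exact h3
  have h5 : 2 * ((m' : ℝ) + m * N) ≤ 6 * (S / Z ^ 2) := by linarith
  refine h5.trans ?_
  have e : 6 * (S / Z ^ 2) = 6 * S / Z ^ 2 := by ring
  rw [e, div_le_div_iff₀ (by positivity) hZ0]
  have h6 : 6 * Z ≤ Z ^ 2 := by
    have : (6 : ℝ) ≤ Z := le_trans (by norm_num) (hL.trans hLZ)
    nlinarith
  calc 6 * S * Z = S * (6 * Z) := by ring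
    _ ≤ S * Z ^ 2 := mul_le_mul_of_nonneg_left h6 hS0.le

/-- the number of vertices -/
theorem vol {n c K : ℕ} {Z : ℝ} (hZ : 2 ≤ Z) (hK0 : 0 < K) (hK : (K : ℝ) ≤ 2 * Z ^ 40)
    (h : n / K < c) : (n : ℝ) / Z ^ 41 ≤ c := by
  have hZ0 : 0 < Z := by linarith
  have h1 : n < c * K := (Nat.div_lt_iff_lt_mul hK0).1 h
  have h2 : (n : ℝ) ≤ c * K := by exact_mod_cast h1.le
  rw [div_le_iff₀ (by positivity)]
  refine h2.trans (mul_le_mul_of_nonneg_left (hK.trans ?_) (Nat.cast_nonneg c))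
  calc 2 * Z ^ 40 ≤ Z * Z ^ 40 := mul_le_mul_of_nonneg_right hZ (by positivity)
    _ = Z ^ 41 := by ring

theorem ball_mono {V : Type} [Fintype V] (G : SimpleGraph V) (v : V) {r r' : ℕ} (h : r ≤ r') :
    (ball G v r).card ≤ (ball G v r').card := by
  classical
  refine Finset.card_le_card ?_
  intro u hu
  unfold ball at hu ⊢
  rw [Finset.mem_filter] at hu ⊢
  obtain ⟨hu1, p, hp⟩ := hu
  exact ⟨hu1, p, hp.trans h⟩

end MTyp

open MTyp

/-- the ball volume in the intermediate regime -/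
theorem main_typ {ε δ : ℝ} (hε : 0 < ε) (hδ : 0 < δ) (hδε : 48 * δ ≤ 3 * ε) (hε1 : ε ≤ 1 / 100) :
    ∀ᶠ n : ℕ in atTop, ∀ y : ℝ, (n : ℝ) ^ ε ≤ y → y ≤ (n : ℝ) ^ (1 / 3 - ε) →
    (1 - 50 / Real.log n) * n ≤ ∑ v, avgw (wexp (n * y)) n (fun T =>
      (n : ℝ) ^ (1 - 41 * δ) ≤ (ball T v ⌊Real.sqrt (n / y) / (n : ℝ) ^ δ⌋₊).card) := by
  have hlog : Tendsto (fun n : ℕ => Real.log n) atTop atTop :=
    Real.tendsto_log_atTop.comp (tendsto_natCast_atTop_atTop (R := ℝ))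
  have hbig := hlog.eventually (big_eventually hδ)
  filter_upwards [hbig, RsExp.log_pow_le 9 hε (C := 3) (by norm_num), eventually_ge_atTop 2]
    with n HB h9 hn y hy1 hy2
  have hL := HB.hL
  have hL1 : 1 ≤ Real.log n := le_trans (by norm_num) hL
  have hL0 : 0 < Real.log n := by linarith
  have hn1 : (1 : ℝ) ≤ n := by
    have : 1 ≤ n := by omega
    exact_mod_cast this
  have hn0 : (0 : ℝ) < n := by linarith
  have hZ : Real.exp (δ * Real.log n) = (n : ℝ) ^ δ := by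
    rw [Real.rpow_def_of_pos hn0, mul_comm]
  have hlZ : Real.log ((n : ℝ) ^ δ) ≤ Real.log n / 100 := by
    rw [Real.log_rpow hn0]
    have : δ ≤ 1 / 100 := by linarith
    calc δ * Real.log n ≤ 1 / 100 * Real.log n := mul_le_mul_of_nonneg_right this hL0.le
      _ = Real.log n / 100 := by ring
  rw [hZ] at HB
  have hZ48 : y ^ 3 * ((n : ℝ) ^ δ) ^ 48 ≤ n := by
    have hy0 : 0 ≤ y := le_trans (by positivity) hy1
    calc y ^ 3 * ((n : ℝ) ^ δ) ^ 48 ≤ ((n : ℝ) ^ (1 / 3 - ε)) ^ 3 * ((n : ℝ) ^ δ) ^ 48 := by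
          apply mul_le_mul_of_nonneg_right _ (by positivity)
          exact pow_le_pow_left₀ hy0 hy2 3
      _ = (n : ℝ) ^ (1 - 3 * ε + 48 * δ) := by
          rw [← Real.rpow_natCast, ← Real.rpow_mul hn0.le, ← Real.rpow_natCast (_ ^ δ),
            ← Real.rpow_mul hn0.le, ← Real.rpow_add hn0]
          congr 1
          push_cast
          ring
      _ ≤ (n : ℝ) ^ (1 : ℝ) := Real.rpow_le_rpow_of_exponent_le hn1 (by linarith)
      _ = n := Real.rpow_one _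
  have hZy : (n : ℝ) ^ δ ≤ y :=
    (Real.rpow_le_rpow_of_exponent_le hn1 (by linarith)).trans hy1
  have hvol : (n : ℝ) ^ (1 - 41 * δ) = n / ((n : ℝ) ^ δ) ^ 41 := by
    rw [← Real.rpow_natCast, ← Real.rpow_mul hn0.le, Real.rpow_sub hn0, Real.rpow_one]
    congr 2
    push_cast
    ring
  rw [hvol]
  generalize (n : ℝ) ^ δ = Z at HB hlZ hZ48 hZy ⊢
  have hZ200 := HB.h1
  have hLZ : Real.log n ≤ Z := (le_self_pow₀ hL1 (by norm_num)).trans hZ200
  have hZ1 : 1 ≤ Z := by linarith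
  have hZ0 : 0 < Z := by linarith
  have hZ2 : 2 ≤ Z := le_trans (le_trans (by norm_num) hL) hLZ
  have hy0 : 0 < y := by linarith
  have hyge1 : 1 ≤ y := by linarith
  have hy3 : y ^ 3 ≤ n := by
    refine le_trans ?_ hZ48
    exact le_mul_of_one_le_right (by positivity) (one_le_pow₀ hZ1)
  have hZ24 : y ^ 3 * Z ^ 24 ≤ n := by
    refine le_trans ?_ hZ48
    exact mul_le_mul_of_nonneg_left (pow_le_pow_right₀ hZ1 (by norm_num)) (by positivity)
  have hyn : y ≤ n := (le_self_pow₀ hyge1 (by norm_num)).trans hy3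
  have hK1 : (KL (Real.log n) : ℝ) + 1 ≤ y := by
    have h3 : (KL (Real.log n) : ℝ) ≤ Real.log n ^ 9 + 1 :=
      (Nat.ceil_lt_add_one (by positivity)).le
    have h4 : 1 ≤ Real.log n ^ 9 := one_le_pow₀ hL1
    linarith
  have hLy : Real.log n ^ 8 ≤ y := by
    refine le_trans ?_ hZy
    exact (pow_le_pow_right₀ hL1 (by norm_num)).trans hZ200
  have H := lvs_exp hn hK1
  have HP := par hn HB hLy hy3
  have hOk := prm_ok hn H HB hZy hZ24
  have hOk2 := prm_ok2 hn H HB hZy hZ24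
  have hOk3 := prm_ok3 hn H HB hZy hZ48
  obtain ⟨N, m, hN1, hmN, hN12, hNθ, hBad⟩ := hOk.env_main (γ := 1) (x := Real.log n ^ 8)
    (k1 := kk n y Z) (N₀ := nn n y Z) HP hOk2 hOk3.hm
  have hKc1 : Z ^ 40 ≤ (⌈Z ^ 40⌉₊ : ℝ) := Nat.le_ceil _
  have hKc2 : (⌈Z ^ 40⌉₊ : ℝ) ≤ 2 * Z ^ 40 := by
    have h1 := (Nat.ceil_lt_add_one (by positivity : 0 ≤ Z ^ 40)).le
    have h2 : 1 ≤ Z ^ 40 := one_le_pow₀ hZ1
    linarith
  have hKc0 : 0 < ⌈Z ^ 40⌉₊ := Nat.ceil_pos.2 (by positivity)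
  have hloss := loss hL hZ200 (hZy.trans hyn) hlZ hKc1 hKc2
  have hmain := avgw_sum_ge (n := n) (w := fun u => Real.exp (-(y * (n * u - 1))))
    (fun u => Real.exp_pos _) (by fun_prop)
    (fun v T => n / ⌈Z ^ 40⌉₊ < (ball T v (2 * (⌈Real.sqrt (n / y) / Z ^ 2⌉₊ + m * N))).card)
    _ (η := 40 / Real.log n) (δ := 2 / Real.log n) (by positivity) (by positivity) hBad (by
      intro U hU
      have hU' : EnvM (prm n (fun u => Real.exp (-(y * (n * u - 1))))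
          (fun i : ℤ => (1 + i / y) / n) y Z) (Real.log n ^ 8 / y) N m
          ⌈Real.sqrt (n / y) / Z ^ 2⌉₊ U := by
        by_contra hc
        exact hU hc
      have hj2 : ((⌈4 * Real.log n⌉₊ : ℕ) : ℝ) ≤ 5 * Real.log n := by
        have h1 := (Nat.ceil_lt_add_one (by positivity : 0 ≤ 4 * Real.log n)).le
        linarith
      have key := hOk.ball (θ0 := Real.log n ^ 8 / y) hOk2 hOk3 hN1 hN12 hNθ (hth HP) hU'
        (j := ⌈4 * Real.log n⌉₊) (Nat.le_ceil _) hj2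
      refine le_trans ?_ key
      refine mul_le_mul_of_nonneg_right ?_ hn0.le
      have e : 2 / Real.log n = 1 / Real.log n + 1 / Real.log n := by ring
      rw [e]
      linarith)
  have h42 : (1 - 50 / Real.log n) * n ≤ (1 - 2 / Real.log n - 40 / Real.log n) * n := by
    refine mul_le_mul_of_nonneg_right ?_ hn0.le
    have e : 50 / Real.log n = 2 / Real.log n + 40 / Real.log n + 8 / Real.log n := by ring
    have e2 : 0 ≤ 8 / Real.log n := by positivity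
    rw [e]
    linarith
  refine h42.trans (hmain.trans (Finset.sum_le_sum fun v _ => ?_))
  have e : (fun u : ℝ => Real.exp (-(y * (n * u - 1)))) =
      fun u => Real.exp y * wexp (n * y) u := by
    funext u
    unfold wexp
    rw [← Real.exp_add]
    congr 1
    ring
  rw [e, avgw_scale (Real.exp_pos _)]
  refine avgw_mono (wexp_pos _) (wexp_meas _) ?_
  intro T _ hT
  have h1 := vol hZ2 hKc0 hKc2 hT
  refine h1.trans ?_
  have h2 := ball_mono T v (radius hL hZ200 hZy hZ48 rfl hmN)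
  exact_mod_cast h2

end

end Pool.Agent.TH972.U
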