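import Pool.Agent.TH972.U.MsDef
import Pool.Agent.TH972.U.Count
import Pool.Agent.TH972.U.BushA

/-!
# Exponential moment of the number of vertices in large clusters
(job RSTRE V-MsBig of helper972, written by helper643)
-/

set_option autoImplicit false

namespace Pool.Agent.TH972.U
open Finset MeasureTheory Pool.Agent.W842.RST Pool.Agent.TH972
noncomputable section
variable {n : ℕ}

namespace MsBig

theorem bm_of (pm : ℝ) (v : Fin n) (F : Finset (Fin n)) (a : Finset (Fin n) → ℝ) :
    BM (fun U : Ev n => a (rch pm U {v} F)) := by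
  apply BM_lvl {pm}
  intro U U' h
  rw [rch_lvl pm {v} F h]

theorem bigV_lvl {pm : ℝ} {s : ℕ} {U U' : Ev n} (F : Finset (Fin n)) (h : lvlEq {pm} U U') :
    bigV pm s U F = bigV pm s U' F := by
  unfold bigV
  apply Finset.filter_congr
  intro v _
  rw [rch_lvl pm {v} F h]

theorem bm_big (pm μ : ℝ) (s : ℕ) (F : Finset (Fin n)) :
    BM (fun U : Ev n => Real.exp (-(μ * (bigV pm s U F).card))) := by
  apply BM_lvl {pm}
  intro U U' h
  rw [bigV_lvl F h]

theorem sum_ph (pm : ℝ) (v : Fin n) (F : Finset (Fin n)) (a : Finset (Fin n) → ℝ) :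
    ∑ C0 : Finset (Fin n), a C0 * Ex (fun U : Ev n => ind (rch pm U {v} F = C0)) =
      Ex (fun U : Ev n => a (rch pm U {v} F)) := by
  have hb : ∀ C0 : Finset (Fin n), BM (fun U : Ev n => a C0 * ind (rch pm U {v} F = C0)) :=
    fun C0 => bm_of pm v F (fun C => a C0 * ind (C = C0))
  have e1 : ∀ C0 : Finset (Fin n), a C0 * Ex (fun U : Ev n => ind (rch pm U {v} F = C0)) =
      Ex (fun U : Ev n => a C0 * ind (rch pm U {v} F = C0)) := fun C0 => (Ex_const_mul _ _).symm
  rw [Finset.sum_congr rfl fun C0 _ => e1 C0, ← Ex_sum _ (fun C0 _ => hb C0)]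
  apply Ex_congr
  intro U
  rw [Finset.sum_eq_single (rch pm U {v} F)]
  · rw [ind_true rfl, mul_one]
  · intro C0 _ hC
    rw [ind_false (fun h => hC h.symm), mul_zero]
  · intro h
    exact absurd (mem_univ _) h

/-- inside `F` the vertex `w` of the cluster of `v` has the same cluster -/
theorem sub_of_mem {pm : ℝ} {U : Ev n} {F : Finset (Fin n)} {v w : Fin n} (hv : v ∈ F)
    (hw : w ∈ rch pm U {v} (F.erase v)) : rch pm U {v} (F.erase v) ⊆ rch pm U {w} F := by
  have hF : ({v} : Finset (Fin n)) ∪ F.erase v = F := by
    ext z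
    simp only [mem_union, mem_singleton, mem_erase]
    constructor
    · rintro (rfl | h)
      · exact hv
      · exact h.2
    · intro h
      by_cases hz : z = v
      · exact Or.inl hz
      · exact Or.inr ⟨hz, h⟩
  have hwF : w ∈ F := by
    have := rch_subset pm U _ _ hw
    rwa [hF] at this
  have hvw : v ∈ rch pm U {w} F := by
    obtain ⟨a, ha, q, hq⟩ := Rch.mem_rch.1 hw
    rw [mem_singleton] at ha
    subst ha
    refine Rch.mem_rch.2 ⟨w, mem_singleton_self w, q.reverse, ?_⟩
    intro z hz
    rw [SimpleGraph.Walk.support_reverse, List.mem_reverse] at hz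
    have := hq z hz
    rw [hF] at this
    exact mem_union_right _ this
  apply Rch.least
  · intro z hz
    rw [mem_singleton] at hz
    rw [hz]
    exact hvw
  · intro a ha b hb hab
    rw [hF] at hb
    exact Rch.closed ha (mem_union_right _ hb) hab

theorem card_ge (pm : ℝ) (s : ℕ) (U : Ev n) {F : Finset (Fin n)} {v : Fin n} (hv : v ∈ F) :
    (if s ≤ (rch pm U {v} (F.erase v)).card then (rch pm U {v} (F.erase v)).card else 0) +
      (bigV pm s U (F \ rch pm U {v} (F.erase v))).card ≤ (bigV pm s U F).card := by
  classical
  set C := rch pm U {v} (F.erase v) with hC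
  have hCF : C ⊆ F := by
    intro z hz
    have := rch_subset pm U _ _ hz
    rcases mem_union.1 this with h | h
    · rw [mem_singleton] at h
      rw [h]; exact hv
    · exact mem_of_mem_erase h
  have h1 : bigV pm s U (F \ C) ⊆ bigV pm s U F := by
    intro w hw
    unfold bigV at hw ⊢
    rw [mem_filter] at hw ⊢
    refine ⟨(mem_sdiff.1 hw.1).1, hw.2.trans (card_le_card ?_)⟩
    exact rch_mono le_rfl U (Subset.refl _) (union_subset_union_right sdiff_subset)
  have h2 : bigV pm s U (F \ C) ⊆ F \ C := by
    intro w hw
    unfold bigV at hw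
    exact (mem_filter.1 hw).1
  split_ifs with h
  · have h3 : C ⊆ bigV pm s U F := by
      intro w hw
      unfold bigV
      rw [mem_filter]
      exact ⟨hCF hw, h.trans (card_le_card (sub_of_mem hv hw))⟩
    have h4 : Disjoint C (bigV pm s U (F \ C)) := by
      apply Disjoint.mono_right h2
      exact disjoint_sdiff
    rw [← card_union_of_disjoint h4]
    exact card_le_card (union_subset h3 h1)
  · rw [zero_add]
    exact card_le_card h1

theorem indep (pm μ : ℝ) (s : ℕ) (F : Finset (Fin n)) (v : Fin n) (C0 : Finset (Fin n)) :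
    Ex (fun U : Ev n => ind (rch pm U {v} (F.erase v) = C0) *
      Real.exp (-(μ * (bigV pm s U (F \ C0)).card))) =
    Ex (fun U : Ev n => ind (rch pm U {v} (F.erase v) = C0)) *
      Ex (fun U : Ev n => Real.exp (-(μ * (bigV pm s U (F \ C0)).card))) := by
  apply Ex_indep {e : Sym2 (Fin n) | ∃ x ∈ C0, x ∈ e}
  · intro U U' hU
    have key : ∀ U U' : Ev n, (∀ e ∈ {e : Sym2 (Fin n) | ∃ x ∈ C0, x ∈ e}, U e = U' e) →
        rch pm U {v} (F.erase v) = C0 → rch pm U' {v} (F.erase v) = C0 := by
      intro U U' hU h
      rw [← h]
      apply Rch.loc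
      intro x hx y _
      have hxS : x ∈ C0 := by rw [← h]; exact hx
      rw [hU s(x, y) ⟨x, hxS, Sym2.mem_mk_left x y⟩]
    congr 1
    apply propext
    exact ⟨key U U' hU, key U' U (fun e he => (hU e he).symm)⟩
  · intro U U' hU
    have key : bigV pm s U (F \ C0) = bigV pm s U' (F \ C0) := by
      unfold bigV
      apply Finset.filter_congr
      intro w hw
      have : rch pm U {w} (F \ C0) = rch pm U' {w} (F \ C0) := by
        apply (Rch.loc pm _).symm
        intro x hx y hy
        have hxS : x ∉ C0 := by
          rcases mem_union.1 (rch_subset pm U _ _ hx) with h2 | h2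
          · rw [mem_singleton] at h2
            rw [h2]; exact (mem_sdiff.1 hw).2
          · exact (mem_sdiff.1 h2).2
        have hyS : y ∉ C0 := (mem_sdiff.1 hy).2
        rw [hU s(x, y) (by
          rintro ⟨z, hz, hz'⟩
          rw [Sym2.mem_iff] at hz'
          rcases hz' with rfl | rfl
          · exact hxS hz
          · exact hyS hz)]
      rw [this]
    rw [key]

end MsBig

open MsBig

/-- exponential moment of the number of vertices in large clusters -/
theorem big_exp {pm lam gb μ X : ℝ} {s : ℕ} (hpm : pm = (1 - lam) / n) (hlam : 0 < lam)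
    (hlg : lam ≤ gb) (hgb1 : gb ≤ 1 / 100) (hn : 10 ^ 7 ≤ n * gb ^ 3)
    (hs : s * gb ^ 2 * 6400 ≤ 1) (hs1 : 1 ≤ s) (hX : X + 1 ≤ n * gb / 4) (hμ : 0 ≤ μ)
    (F : Finset (Fin n)) (r : ℕ) :
    Ex (fun U : Ev n => Real.exp (-(μ * (bigV pm s U F).card))) ≤
      (1 - gb / 3 * (1 - Real.exp (-(μ * s)))) ^ r +
        Real.exp (lam ^ 2 / 4 * (n - F.card - X) + r * lam) := by
  have hgb : 0 < gb := hlam.trans_le hlg
  have hgb3 : 0 < gb ^ 3 := by positivity
  have hn0 : (0 : ℝ) < n := by
    by_contra h
    have : (n : ℝ) * gb ^ 3 ≤ 0 := mul_nonpos_of_nonpos_of_nonneg (not_lt.1 h) hgb3.le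
    norm_num at hn
    linarith
  have hn1 : (1 : ℝ) ≤ n := by
    have : 0 < n := by exact_mod_cast hn0
    exact_mod_cast this
  have hpm0 : 0 ≤ pm := by rw [hpm]; exact div_nonneg (by linarith) hn0.le
  have hpm1 : pm ≤ 1 := by
    rw [hpm, div_le_one hn0]
    linarith
  have hnpm : n * pm = 1 - lam := by
    rw [hpm]; field_simp
  have hes : Real.exp (-(μ * s)) ≤ 1 := by
    rw [Real.exp_le_one_iff]
    have : 0 ≤ μ * s := by positivity
    linarith
  have hes0 : 0 < Real.exp (-(μ * s)) := Real.exp_pos _
  set q : ℝ := 1 - gb / 3 * (1 - Real.exp (-(μ * s))) with hq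
  have hq0 : 0 ≤ q := by
    have h1 : gb / 3 * (1 - Real.exp (-(μ * s))) ≤ gb / 3 * 1 :=
      mul_le_mul_of_nonneg_left (by linarith) (by positivity)
    rw [hq]
    linarith
  have hLHS : ∀ F : Finset (Fin n), Ex (fun U : Ev n => Real.exp (-(μ * (bigV pm s U F).card))) ≤ 1 := by
    intro F
    have h1 := Ex_mono (bm_big pm μ s F) (BM.const (n := n) 1) (fun U => by
      rw [Real.exp_le_one_iff]
      have : 0 ≤ μ * ((bigV pm s U F).card : ℝ) := by positivity
      linarith)
    rwa [Ex_const] at h1
  induction r generalizing F with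
  | zero =>
    rw [pow_zero]
    have := Real.exp_pos (lam ^ 2 / 4 * (n - F.card - X) + ((0 : ℕ) : ℝ) * lam)
    linarith [hLHS F]
  | succ r ih =>
    by_cases hF : (F.card : ℝ) < n - X
    · have h1 : 1 ≤ Real.exp (lam ^ 2 / 4 * (n - F.card - X) + ((r + 1 : ℕ) : ℝ) * lam) := by
        apply Real.one_le_exp
        have h2 : 0 ≤ lam ^ 2 / 4 * (n - F.card - X) := mul_nonneg (by positivity) (by linarith)
        have h3 : 0 ≤ ((r + 1 : ℕ) : ℝ) * lam := by positivity
        linarith
      have h2 : 0 ≤ q ^ (r + 1) := by positivity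
      linarith [hLHS F]
    · rw [not_lt] at hF
      have hne : F.Nonempty := by
        rw [← card_pos]
        have h1 : (n : ℝ) * gb / 4 ≤ n * (1 / 100) / 4 := by
          have := mul_le_mul_of_nonneg_left hgb1 hn0.le
          linarith
        have h2 : (0 : ℝ) < F.card := by linarith
        exact_mod_cast h2
      obtain ⟨v, hv⟩ := hne
      have hcard : ((F.erase v).card : ℝ) = F.card - 1 := by
        rw [card_erase_of_mem hv, Nat.cast_sub (card_pos.2 ⟨v, hv⟩), Nat.cast_one]
      have hcardn : ((F.erase v).card : ℝ) ≤ n := BushA.card_le _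
      set B : ℝ := Real.exp (lam ^ 2 / 4 * (n - F.card - X) + r * lam) with hB
      set w : Finset (Fin n) → ℝ := fun C0 =>
        Real.exp (-(μ * ((if s ≤ C0.card then C0.card else 0 : ℕ) : ℝ))) with hw
      have hw0 : ∀ C0, 0 ≤ w C0 := fun C0 => (Real.exp_pos _).le
      have hw1 : ∀ C0, w C0 ≤ 1 := by
        intro C0
        simp only [hw]
        rw [Real.exp_le_one_iff]
        have : 0 ≤ μ * ((if s ≤ C0.card then C0.card else 0 : ℕ) : ℝ) := by positivity
        linarith
      have hbt : ∀ C0 : Finset (Fin n), BM (fun U : Ev n => w C0 *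
          (ind (rch pm U {v} (F.erase v) = C0) *
            Real.exp (-(μ * (bigV pm s U (F \ C0)).card)))) := by
        intro C0
        exact (BM.const _).mul ((bm_of pm v (F.erase v) (fun C => ind (C = C0))).mul
          (bm_big pm μ s (F \ C0)))
      -- decomposition
      have step1 : Ex (fun U : Ev n => Real.exp (-(μ * (bigV pm s U F).card))) ≤
          ∑ C0 : Finset (Fin n), w C0 * (Ex (fun U : Ev n => ind (rch pm U {v} (F.erase v) = C0)) *
            Ex (fun U : Ev n => Real.exp (-(μ * (bigV pm s U (F \ C0)).card)))) := by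
        calc Ex (fun U : Ev n => Real.exp (-(μ * (bigV pm s U F).card))) ≤
              Ex (fun U : Ev n => ∑ C0 : Finset (Fin n), w C0 *
                (ind (rch pm U {v} (F.erase v) = C0) *
                  Real.exp (-(μ * (bigV pm s U (F \ C0)).card)))) := by
              refine Ex_mono (bm_big pm μ s F) (BM.sum _ fun C0 _ => hbt C0) fun U => ?_
              have h1 : w (rch pm U {v} (F.erase v)) *
                  (ind (rch pm U {v} (F.erase v) = rch pm U {v} (F.erase v)) *
                  Real.exp (-(μ * (bigV pm s U (F \ rch pm U {v} (F.erase v))).card))) ≤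
                  ∑ C0 : Finset (Fin n), w C0 * (ind (rch pm U {v} (F.erase v) = C0) *
                    Real.exp (-(μ * (bigV pm s U (F \ C0)).card))) :=
                single_le_sum (f := fun C0 : Finset (Fin n) => w C0 *
                  (ind (rch pm U {v} (F.erase v) = C0) *
                    Real.exp (-(μ * (bigV pm s U (F \ C0)).card))))
                  (fun C0 _ => mul_nonneg (hw0 C0) (mul_nonneg (ind_nonneg _) (Real.exp_pos _).le))
                  (mem_univ _)
              refine le_trans ?_ h1
              rw [ind_true rfl, one_mul]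
              simp only [hw]
              rw [← Real.exp_add, Real.exp_le_exp]
              have h2 := card_ge pm s U hv
              have h3 : (((if s ≤ (rch pm U {v} (F.erase v)).card then
                  (rch pm U {v} (F.erase v)).card else 0 : ℕ) : ℝ) +
                  ((bigV pm s U (F \ rch pm U {v} (F.erase v))).card : ℝ)) ≤
                  ((bigV pm s U F).card : ℝ) := by exact_mod_cast h2
              have h4 := mul_le_mul_of_nonneg_left h3 hμ
              linarith
          _ = _ := by
              rw [Ex_sum _ (fun C0 _ => hbt C0)]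
              refine Finset.sum_congr rfl fun C0 _ => ?_
              rw [Ex_const_mul, indep]
      have step2 : ∀ C0 : Finset (Fin n),
          Ex (fun U : Ev n => Real.exp (-(μ * (bigV pm s U (F \ C0)).card))) ≤
            q ^ r + B * Real.exp (lam ^ 2 / 4 * C0.card) := by
        intro C0
        refine (ih (F \ C0)).trans ?_
        rw [hB, ← Real.exp_add]
        refine add_le_add le_rfl (Real.exp_le_exp.2 ?_)
        have h1 : (F.card : ℝ) ≤ (F \ C0).card + C0.card := by
          have : F.card ≤ (F \ C0).card + C0.card := by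
            have := le_card_sdiff C0 F
            omega
          exact_mod_cast this
        have h2 : lam ^ 2 / 4 * (n - (F \ C0).card - X) ≤
            lam ^ 2 / 4 * (n - F.card - X + C0.card) :=
          mul_le_mul_of_nonneg_left (by linarith) (by positivity)
        linarith
      have hφ : ∀ C0 : Finset (Fin n),
          0 ≤ Ex (fun U : Ev n => ind (rch pm U {v} (F.erase v) = C0)) :=
        fun C0 => Ex_nonneg fun U => ind_nonneg _
      have hB0 : 0 ≤ B := (Real.exp_pos _).le
      have step3 : Ex (fun U : Ev n => Real.exp (-(μ * (bigV pm s U F).card))) ≤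
          q ^ r * Ex (fun U : Ev n => w (rch pm U {v} (F.erase v))) +
            B * Ex (fun U : Ev n => Real.exp (lam ^ 2 / 4 * (rch pm U {v} (F.erase v)).card)) := by
        refine step1.trans ?_
        rw [← sum_ph pm v (F.erase v) w,
          ← sum_ph pm v (F.erase v) (fun C => Real.exp (lam ^ 2 / 4 * C.card)), Finset.mul_sum,
          Finset.mul_sum, ← Finset.sum_add_distrib]
        refine Finset.sum_le_sum fun C0 _ => ?_
        have h1 := mul_le_mul_of_nonneg_left (step2 C0) (mul_nonneg (hw0 C0) (hφ C0))
        have h2 : w C0 * Ex (fun U : Ev n => ind (rch pm U {v} (F.erase v) = C0)) *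
            (B * Real.exp (lam ^ 2 / 4 * C0.card)) ≤
            1 * Ex (fun U : Ev n => ind (rch pm U {v} (F.erase v) = C0)) *
            (B * Real.exp (lam ^ 2 / 4 * C0.card)) :=
          mul_le_mul_of_nonneg_right (mul_le_mul_of_nonneg_right (hw1 C0) (hφ C0))
            (mul_nonneg hB0 (Real.exp_pos _).le)
        calc w C0 * (Ex (fun U : Ev n => ind (rch pm U {v} (F.erase v) = C0)) *
              Ex (fun U : Ev n => Real.exp (-(μ * (bigV pm s U (F \ C0)).card)))) =
              w C0 * Ex (fun U : Ev n => ind (rch pm U {v} (F.erase v) = C0)) *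
              Ex (fun U : Ev n => Real.exp (-(μ * (bigV pm s U (F \ C0)).card))) := by ring
          _ ≤ w C0 * Ex (fun U : Ev n => ind (rch pm U {v} (F.erase v) = C0)) *
              (q ^ r + B * Real.exp (lam ^ 2 / 4 * C0.card)) := h1
          _ = w C0 * Ex (fun U : Ev n => ind (rch pm U {v} (F.erase v) = C0)) * q ^ r +
              w C0 * Ex (fun U : Ev n => ind (rch pm U {v} (F.erase v) = C0)) *
              (B * Real.exp (lam ^ 2 / 4 * C0.card)) := by ring
          _ ≤ w C0 * Ex (fun U : Ev n => ind (rch pm U {v} (F.erase v) = C0)) * q ^ r +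
              1 * Ex (fun U : Ev n => ind (rch pm U {v} (F.erase v) = C0)) *
              (B * Real.exp (lam ^ 2 / 4 * C0.card)) := by linarith
          _ = _ := by ring
      -- the two expectations
      have hE1 : Ex (fun U : Ev n => w (rch pm U {v} (F.erase v))) ≤ q := by
        have hP : gb / 3 ≤ Ex (fun U : Ev n => ind (s ≤ (rch pm U {v} (F.erase v)).card)) := by
          refine (test_prob_A (pb := (1 - gb) / n) rfl hgb hgb1 hn hs hs1 0 v (F.erase v)
            (notMem_erase v F) ?_).trans ?_
          · rw [hcard]
            linarith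
          · have hbm : BM (fun U : Ev n => ind (mk 0 ((1 - gb) / n) 1 s U v (F.erase v))) := by
              refine BM_lvl {0, (1 - gb) / n} fun U U' h => ?_
              have hr : ∀ p ∈ ({0, (1 - gb) / n} : Finset ℝ),
                  rch p U {v} (F.erase v) = rch p U' {v} (F.erase v) := by
                intro p hp
                refine rch_lvl p {v} (F.erase v) fun e q hq => ?_
                rw [mem_singleton] at hq
                rw [hq]
                exact h e p hp
              unfold mk
              rw [hr 0 (by simp), hr ((1 - gb) / n) (by simp)]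
            refine Ex_mono hbm (bm_of pm v (F.erase v) (fun C => ind (s ≤ C.card))) fun U => ?_
            apply ind_mono
            intro h
            refine ((BushA.mk_one _ _ _ _ _ _).1 h).trans (card_le_card ?_)
            refine rch_mono ?_ U (Subset.refl _) (Subset.refl _)
            rw [hpm]
            exact div_le_div_of_nonneg_right (by linarith) hn0.le
        have hbm1 : BM (fun U : Ev n => (1 - Real.exp (-(μ * s))) *
            ind (s ≤ (rch pm U {v} (F.erase v)).card)) :=
          (BM.const _).mul (bm_of pm v (F.erase v) (fun C => ind (s ≤ C.card)))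
        have h1 : Ex (fun U : Ev n => w (rch pm U {v} (F.erase v))) ≤
            Ex (fun U : Ev n => 1 - (1 - Real.exp (-(μ * s))) *
              ind (s ≤ (rch pm U {v} (F.erase v)).card)) := by
          refine Ex_mono (bm_of pm v (F.erase v) w) ((BM.const 1).sub hbm1) fun U => ?_
          by_cases h : s ≤ (rch pm U {v} (F.erase v)).card
          · rw [ind_true h, mul_one]
            simp only [hw]
            rw [if_pos h]
            have h2 : Real.exp (-(μ * (rch pm U {v} (F.erase v)).card)) ≤ Real.exp (-(μ * s)) := by
              rw [Real.exp_le_exp]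
              have h3 : (s : ℝ) ≤ (rch pm U {v} (F.erase v)).card := by exact_mod_cast h
              have h4 := mul_le_mul_of_nonneg_left h3 hμ
              linarith
            linarith
          · rw [ind_false h, mul_zero, sub_zero]
            exact hw1 _
        rw [Ex_sub (BM.const 1) hbm1, Ex_const, Ex_const_mul] at h1
        refine h1.trans ?_
        rw [hq]
        have h2 := mul_le_mul_of_nonneg_left hP (show 0 ≤ 1 - Real.exp (-(μ * s)) by linarith)
        linarith
      have hE2 : Ex (fun U : Ev n => Real.exp (lam ^ 2 / 4 * (rch pm U {v} (F.erase v)).card)) ≤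
          Real.exp lam := by
        have h := rch_sub (n := n) hpm0 hpm1 hlam (by linarith) {v} (F.erase v)
          (by rw [disjoint_singleton_left]; exact notMem_erase v F)
          (by
            rw [← hnpm]
            exact mul_le_mul_of_nonneg_right hcardn hpm0) (μ := lam ^ 2 / 4) (by positivity) le_rfl
        rw [card_singleton, Nat.cast_one, mul_one] at h
        refine h.trans (Real.exp_le_exp.2 ?_)
        have e1 : 2 * (lam ^ 2 / 4) / lam = lam / 2 := by
          field_simp
          norm_num
        rw [e1]
        linarith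
      refine step3.trans ?_
      refine add_le_add ?_ ?_
      · rw [pow_succ]
        exact mul_le_mul_of_nonneg_left hE1 (by positivity)
      · refine (mul_le_mul_of_nonneg_left hE2 hB0).trans (le_of_eq ?_)
        rw [hB, ← Real.exp_add]
        congr 1
        push_cast
        ring

end
end Pool.Agent.TH972.U
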