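import Pool.Agent.TH972.U.VDef
import Pool.Agent.TH972.U.GDef
import Pool.Agent.TH972.U.XDef
import Pool.Agent.W842.RST.Params
import Pool.Agent.W842.RST.Levels

/-!
# Low temperatures (definitions)
-/

set_option autoImplicit false
set_option linter.unusedSectionVars false

namespace Pool.Agent.TH972.U

open Finset MeasureTheory Pool.Agent.W842.RST Pool.Agent.TH972

noncomputable section

variable {n : ℕ}

open Classical in
/-- the vertices of the large clusters inside `F` -/
def bigV (pm : ℝ) (s : ℕ) (U : Ev n) (F : Finset (Fin n)) : Finset (Fin n) :=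
  F.filter (fun v => s ≤ (rch pm U {v} F).card)

/-- there is a simple path with `l` edges of level at most `p` whose vertices have small clusters
at the level `pm` -/
def SmallPath (pm p : ℝ) (s l : ℕ) (U : Ev n) : Prop :=
  ∃ x : Fin (l + 1) → Fin n, Function.Injective x ∧
    (∀ i : Fin l, U s(x i.castSucc, x i.succ) ≤ p) ∧ ∀ i, (cmp (GU U pm) (x i)).card < s

/-- there is a simple path with `l` edges of level at most `p` -/
def LongPath (p : ℝ) (l : ℕ) (U : Ev n) : Prop :=
  ∃ x : Fin (l + 1) → Fin n, Function.Injective x ∧ ∀ i : Fin l, U s(x i.castSucc, x i.succ) ≤ p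

/-- good environments -/
structure EnvT (pm pm' θ0 : ℝ) (s N m l l1 Nb : ℕ) (U : Ev n) : Prop where
  pc : (GU U (Pool.Agent.W842.RST.lev n (θ0 * (11 / 10) ^ N))).Preconnected
  gi : ∀ i ≤ N, ∃ v, siz n (θ0 * (11 / 10) ^ i) ≤
    (comp (GU U (Pool.Agent.W842.RST.lev n (θ0 * (11 / 10) ^ i))) v).card
  av : ∀ i < N, ¬ AvoidBad m (siz n (θ0 * (11 / 10) ^ i))
    (Pool.Agent.W842.RST.lev n (θ0 * (11 / 10) ^ i))
    (Pool.Agent.W842.RST.lev n (121 / 100 * (θ0 * (11 / 10) ^ i))) U
  big : (blks (GU U pm) s).card ≤ Nb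
  path : ¬ SmallPath pm (Pool.Agent.W842.RST.lev n (11 / 10 * θ0)) s l U
  low : ¬ LongPath pm' l1 U

end

end Pool.Agent.TH972.U
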