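import Pool.Agent.TH972.U.MsDef
import Pool.Agent.TH972.U.Red

/-!
# Deterministic covering argument at low temperatures
-/

set_option autoImplicit false

namespace Pool.Agent.TH972.U

open Finset MeasureTheory Pool.Agent.W842.RST Pool.Agent.TH972

noncomputable section

variable {n : ℕ}

namespace MsDet

/-- the prefix of a walk bounds the distance in the tree -/
lemma dist_getVert {U : Ev n} {p' : ℝ} {T : SimpleGraph (Fin n)} {x y : Fin n}
    (w : (T ⊓ GU U p').Walk x y) (i : ℕ) : T.dist x (w.getVert i) ≤ i := by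
  have h1 : T.dist x (w.getVert i) ≤ ((w.take i).mapLe (inf_le_left : T ⊓ GU U p' ≤ T)).length :=
    SimpleGraph.dist_le _
  rw [SimpleGraph.Walk.length_map, SimpleGraph.Walk.take_length] at h1
  exact h1.trans (min_le_left _ _)

lemma dist_le_walk {U : Ev n} {p' : ℝ} {T : SimpleGraph (Fin n)} {x y : Fin n}
    (w : (T ⊓ GU U p').Walk x y) : T.dist x y ≤ w.length := by
  have h1 : T.dist x y ≤ (w.mapLe (inf_le_left : T ⊓ GU U p' ≤ T)).length :=
    SimpleGraph.dist_le _
  rwa [SimpleGraph.Walk.length_map] at h1

/-- the first vertices of a path form a simple path of low level -/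
lemma prefix_inj {U : Ev n} {p' : ℝ} {T : SimpleGraph (Fin n)} {x y : Fin n} {l : ℕ}
    (w : (T ⊓ GU U p').Walk x y) (hw : w.IsPath) (hl : l ≤ w.length) :
    Function.Injective (fun i : Fin (l + 1) => w.getVert i) ∧
      ∀ i : Fin l, U s(w.getVert (i.castSucc : Fin (l + 1)), w.getVert (i.succ : Fin (l + 1))) ≤ p' := by
  constructor
  · intro a b hab
    have := hw.getVert_injOn (x₁ := a.val) (x₂ := b.val) (by
      simp only [Set.mem_ofPred_eq]; omega) (by simp only [Set.mem_ofPred_eq]; omega) hab
    exact Fin.ext this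
  · intro i
    have := w.adj_getVert_succ (i := i.val) (by omega)
    rw [SimpleGraph.inf_adj, GU_adj] at this
    simp only [Fin.val_castSucc, Fin.val_succ]
    exact this.2.1

/-- the claims -/
lemma claim {pm pm' θ0 : ℝ} {s N m l l1 Nb : ℕ} {U : Ev n}
    (H : EnvT pm pm' θ0 s N m l l1 Nb U) (T : SimpleGraph (Fin n)) (hT : T.IsTree)
    (hgood : ∀ i ≤ N, Good U (Pool.Agent.W842.RST.lev n (θ0 * (11 / 10) ^ i))
      (Pool.Agent.W842.RST.lev n (11 / 10 * (θ0 * (11 / 10) ^ i))) T) :
    ∀ i ≤ N, ∀ x y, (GU U (Pool.Agent.W842.RST.lev n (θ0 * (11 / 10) ^ i))).Reachable x y →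
      l + 2 * m * i < T.dist x y →
      ∃ c ∈ gd (GU U pm) s, T.dist x c ≤ l + m * i := by
  classical
  intro i
  induction i with
  | zero =>
    intro hi x y hxy hd
    have hg := hgood 0 hi
    obtain ⟨w, hw⟩ := (hg x y hxy).exists_isPath
    have hlen := dist_le_walk w
    have hl : l ≤ w.length := by omega
    have e1 : 11 / 10 * (θ0 * (11 / 10) ^ 0) = 11 / 10 * θ0 := by ring
    have hpre := prefix_inj w hw hl
    by_contra hcon
    push Not at hcon
    apply H.path
    refine ⟨fun i => w.getVert i, hpre.1, fun i => ?_, fun i => ?_⟩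
    · have h5 := hpre.2 i
      exact h5.trans (le_of_eq (congrArg _ e1))
    · by_contra hbig
      push Not at hbig
      have h2 := hcon (w.getVert i) (Marks.mem_gd.2 hbig)
      have h3 := dist_getVert w (i : ℕ)
      have h4 := i.isLt
      omega
  | succ i ih =>
    intro hi x y hxy hd
    have hg := hgood (i + 1) hi
    have e2 : 11 / 10 * (θ0 * (11 / 10) ^ (i + 1)) = 121 / 100 * (θ0 * (11 / 10) ^ i) := by
      ring
    rw [e2] at hg
    obtain ⟨v, hv⟩ := H.gi i (by omega)
    have hav := H.av i (by omega)
    obtain ⟨w, hw⟩ := (hg x y hxy).exists_isPath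
    have hlen := dist_le_walk w
    have h1 := prefix_short T hav v hv w hw
    have h2 := prefix_short T hav v hv w.reverse hw.reverse
    have e3 : 2 * m * (i + 1) = 2 * m * i + 2 * m := by ring
    have e4 : m * (i + 1) = m * i + m := by ring
    rw [e3] at hd
    rw [e4]
    rcases h1 with ⟨k, hk, hk'⟩ | ⟨_, h⟩
    · rcases h2 with ⟨k2, hk2, hk2'⟩ | ⟨_, h⟩
      · have h4 : T.dist x y ≤ T.dist x k + T.dist k y := hT.connected.dist_triangle
        have h5 : T.dist k y ≤ T.dist k k2 + T.dist k2 y := hT.connected.dist_triangle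
        have h6 : T.dist k2 y = T.dist y k2 := SimpleGraph.dist_comm
        obtain ⟨c, hc, hc'⟩ := ih (by omega) k k2 (hk.symm.trans hk2) (by omega)
        refine ⟨c, hc, ?_⟩
        have h7 : T.dist x c ≤ T.dist x k + T.dist k c := hT.connected.dist_triangle
        omega
      · rw [SimpleGraph.Walk.length_reverse] at h
        omega
    · omega

/-- two vertices of the same large cluster are near -/
lemma near {pm pm' θ0 : ℝ} {s N m l l1 Nb : ℕ} {U : Ev n}
    (H : EnvT pm pm' θ0 s N m l l1 Nb U) (T : SimpleGraph (Fin n))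
    (hg : Good U pm pm' T) {c c' : Fin n} (hc : (GU U pm).Reachable c c') : T.dist c c' < l1 := by
  classical
  obtain ⟨w, hw⟩ := (hg c c' hc).exists_isPath
  have hlen := dist_le_walk w
  by_contra hcon
  push Not at hcon
  have hpre := prefix_inj w hw (hcon.trans hlen)
  exact H.low ⟨fun i => w.getVert i, hpre.1, hpre.2⟩

end MsDet

open MsDet

/-- most balls are large in a good environment -/
theorem mst_cover {pm pm' θ0 : ℝ} {s N m l l1 Nb : ℕ} {U : Ev n}
    (H : EnvT pm pm' θ0 s N m l l1 Nb U) (hNb : 1 ≤ Nb) (T : SimpleGraph (Fin n)) (hT : T.IsTree)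
    (hgood : ∀ i ≤ N, Good U (Pool.Agent.W842.RST.lev n (θ0 * (11 / 10) ^ i))
      (Pool.Agent.W842.RST.lev n (11 / 10 * (θ0 * (11 / 10) ^ i))) T)
    (hg : Good U pm pm' T) (t : ℕ) :
    (univ.filter (fun v => Nb * t * (ball T v (4 * (l + 2 * m * N) + l1)).card < n)).card * t ≤
      n := by
  classical
  set R : ℕ := 4 * (l + 2 * m * N) + l1 with hR
  have hball : ∀ x y, T.dist x y ≤ R → y ∈ ball T x R := by
    intro x y hxy
    obtain ⟨p, hp⟩ := hT.connected.exists_walk_length_eq_dist x y
    unfold ball
    rw [Finset.mem_filter]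
    exact ⟨Finset.mem_univ _, p, by omega⟩
  have hmul : 2 * m * N = 2 * (m * N) := by ring
  by_cases hall : ∀ x y, T.dist x y ≤ 2 * (l + 2 * m * N)
  · -- all balls are everything
    rcases Nat.eq_zero_or_pos t with ht | ht
    · subst ht
      simp
    · have hempty : univ.filter (fun v => Nb * t * (ball T v R).card < n) = ∅ := by
        rw [Finset.filter_eq_empty_iff]
        intro v _
        have hb : ball T v R = univ := by
          rw [Finset.eq_univ_iff_forall]
          intro y
          exact hball v y ((hall v y).trans (by omega))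
        rw [hb, Finset.card_univ, Fintype.card_fin]
        push Not
        have h1 : 1 ≤ Nb * t := Nat.mul_pos hNb ht
        calc n = 1 * n := (one_mul n).symm
          _ ≤ Nb * t * n := Nat.mul_le_mul_right n h1
      rw [hempty]
      simp
  · push Not at hall
    obtain ⟨a, b, hab⟩ := hall
    set D : ℕ := l + m * N with hD
    have hnear : ∀ x, ∃ c ∈ gd (GU U pm) s, T.dist x c ≤ D := by
      intro x
      have h1 : T.dist a b ≤ T.dist a x + T.dist x b := hT.connected.dist_triangle
      have h2 : T.dist a x = T.dist x a := SimpleGraph.dist_comm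
      have hcl := claim H T hT hgood N le_rfl x
      rcases Nat.lt_or_ge (l + 2 * m * N) (T.dist x a) with h | h
      · exact hcl a (H.pc x a) h
      · exact hcl b (H.pc x b) (by omega)
    -- the sets `A_C`
    set A : Finset (Fin n) → Finset (Fin n) := fun C =>
      univ.filter (fun x => ∃ c ∈ C, T.dist x c ≤ D) with hA
    have hcover : ∀ x, ∃ C ∈ blks (GU U pm) s, x ∈ A C := by
      intro x
      obtain ⟨c, hc, hxc⟩ := hnear x
      refine ⟨cmp (GU U pm) c, Marks.cmp_mem_blks hc, ?_⟩
      rw [hA]
      simp only [Finset.mem_filter, Finset.mem_univ, true_and]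
      exact ⟨c, Marks.self_mem_cmp c, hxc⟩
    have hsub : ∀ C ∈ blks (GU U pm) s, ∀ x ∈ A C, A C ⊆ ball T x R := by
      intro C hC x hx y hy
      rw [hA] at hx hy
      simp only [Finset.mem_filter, Finset.mem_univ, true_and] at hx hy
      obtain ⟨c, hc, hxc⟩ := hx
      obtain ⟨c', hc', hyc⟩ := hy
      have hcc : (GU U pm).Reachable c c' := by
        have h1 := Marks.cmp_eq_of_mem hC hc
        rw [← h1, Marks.mem_cmp] at hc'
        exact hc'
      have h2 := near H T hg hcc
      have h3 : T.dist x y ≤ T.dist x c + T.dist c y := hT.connected.dist_triangle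
      have h4 : T.dist c y ≤ T.dist c c' + T.dist c' y := hT.connected.dist_triangle
      have h5 : T.dist c' y = T.dist y c' := SimpleGraph.dist_comm
      exact hball x y (by omega)
    set S := univ.filter (fun v => Nb * t * (ball T v R).card < n) with hS
    have hSsub : S ⊆ ((blks (GU U pm) s).filter (fun C => Nb * t * (A C).card < n)).biUnion A := by
      intro v hv
      rw [hS, Finset.mem_filter] at hv
      obtain ⟨C, hC, hvC⟩ := hcover v
      rw [Finset.mem_biUnion]
      refine ⟨C, ?_, hvC⟩
      rw [Finset.mem_filter]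
      refine ⟨hC, lt_of_le_of_lt ?_ hv.2⟩
      exact Nat.mul_le_mul_left _ (Finset.card_le_card (hsub C hC v hvC))
    have h1 : S.card ≤ ∑ C ∈ (blks (GU U pm) s).filter (fun C => Nb * t * (A C).card < n),
        (A C).card := (Finset.card_le_card hSsub).trans Finset.card_biUnion_le
    have h2 : Nb * t * S.card ≤ Nb * n := by
      calc Nb * t * S.card
          ≤ Nb * t * ∑ C ∈ (blks (GU U pm) s).filter (fun C => Nb * t * (A C).card < n),
              (A C).card := Nat.mul_le_mul_left _ h1
        _ = ∑ C ∈ (blks (GU U pm) s).filter (fun C => Nb * t * (A C).card < n),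
              Nb * t * (A C).card := by rw [Finset.mul_sum]
        _ ≤ ∑ _C ∈ (blks (GU U pm) s).filter (fun C => Nb * t * (A C).card < n), n :=
            Finset.sum_le_sum fun C hC => (Finset.mem_filter.1 hC).2.le
        _ = ((blks (GU U pm) s).filter (fun C => Nb * t * (A C).card < n)).card * n := by
            rw [Finset.sum_const, smul_eq_mul]
        _ ≤ Nb * n := Nat.mul_le_mul_right n ((Finset.card_filter_le _ _).trans H.big)
    have h3 : Nb * (S.card * t) ≤ Nb * n := by
      calc Nb * (S.card * t) = Nb * t * S.card := by ring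
        _ ≤ Nb * n := h2
    exact Nat.le_of_mul_le_mul_left h3 hNb

end

end Pool.Agent.TH972.U
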