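import Pool.Agent.TH972.U.MsPath
import Pool.Agent.TH972.U.MsBig
import Pool.Agent.TH972.R3

/-!
# Good environments are typical, low temperatures
(job RSTRE V-MsEnv of helper972, written by helper429)
-/

set_option autoImplicit false

namespace Pool.Agent.TH972.U
open Finset MeasureTheory Pool.Agent.W842.RST Pool.Agent.TH972 Filter Topology
noncomputable section

namespace MsEnv

/-- floors of large numbers -/
theorem half_le_floor {x : ℝ} (hx : 1 ≤ x) : x / 2 ≤ (⌊x⌋₊ : ℝ) := by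
  have h1 := Nat.lt_floor_add_one x
  have h2 : (1 : ℝ) ≤ (⌊x⌋₊ : ℝ) := by
    exact_mod_cast Nat.le_floor (show ((1 : ℕ) : ℝ) ≤ x by simpa using hx)
  linarith

/-- ceilings of large numbers -/
theorem ceil_le_two {x : ℝ} (hx : 1 ≤ x) : (⌈x⌉₊ : ℝ) ≤ 2 * x := by
  have h1 := Nat.ceil_lt_add_one (show 0 ≤ x by linarith)
  linarith

/-- the standing numerical assumptions -/
structure Nm (n : ℕ) (b t L : ℝ) : Prop where
  hn : (n : ℝ) = b ^ 3
  hL : L = Real.log n
  hL1 : 1 ≤ L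
  ht : 10 ^ 12 * L ^ 2 ≤ t
  hbt : t ^ 33 ≤ b

namespace Nm

variable {n : ℕ} {b t L : ℝ} (H : Nm n b t L)

include H

theorem tL : 10 ^ 12 * L ≤ t := by
  have h := H.ht
  have h1 := H.hL1
  have : L ≤ L ^ 2 := by nlinarith
  linarith

theorem t_big : 10 ^ 12 ≤ t := by
  have h := H.tL
  have h1 := H.hL1
  linarith

theorem t1 : 1 ≤ t := by have := H.t_big; linarith

theorem t0 : 0 < t := by have := H.t_big; linarith

theorem tk (k : ℕ) (hk : k ≤ 33) : t ^ k ≤ b := by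
  refine le_trans ?_ H.hbt
  exact pow_le_pow_right₀ H.t1 hk

theorem b_big : 10 ^ 12 ≤ b := by
  have := H.tk 1 (by norm_num)
  rw [pow_one] at this
  exact H.t_big.trans this

theorem b0 : 0 < b := by have := H.b_big; linarith

theorem L0 : 0 < L := by have := H.hL1; linarith

theorem n0 : (0 : ℝ) < n := by
  rw [H.hn]; have := H.b0; positivity

theorem n1 : (1 : ℝ) ≤ n := by
  rw [H.hn]; exact one_le_pow₀ (by have := H.b_big; linarith)

theorem expL : Real.exp L = n := by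
  rw [H.hL, Real.exp_log H.n0]

/-- `exp (- k L) = 1 / n ^ k` -/
theorem exp_neg (k : ℕ) : Real.exp (-(k * L)) = 1 / (n : ℝ) ^ k := by
  rw [Real.exp_neg, Real.exp_nat_mul, H.expL, one_div]

theorem s_big : 1 ≤ b ^ 2 / (6400 * t ^ 8) := by
  have h9 := H.tk 9 (by norm_num)
  have ht := H.t_big
  have ht0 := H.t0
  have hb := H.b_big
  rw [le_div_iff₀ (by positivity), one_mul]
  have h1 : 6400 * t ^ 8 ≤ t ^ 9 := by
    have : t ^ 9 = t * t ^ 8 := by ring
    rw [this]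
    exact mul_le_mul_of_nonneg_right (by linarith) (by positivity)
  have h2 : b ≤ b ^ 2 := by nlinarith
  linarith

theorem c_big : 1 ≤ b / t ^ 3 := by
  have h3 := H.tk 3 (by norm_num)
  have ht0 := H.t0
  rw [le_div_iff₀ (by positivity), one_mul]
  exact h3

/-- the size of `μ s` -/
theorem mus_le {pm s l : ℝ} (hpm1 : pm ≤ 1 / n) (hs : s ≤ b ^ 2 / (6400 * t ^ 8))
    (hs0 : 0 ≤ s) (hl0 : 0 ≤ l) (hl : l ≤ 2 * (10 ^ 8 * L * (b / t ^ 3))) :
    pm * (l + 1) * s ≤ 1 := by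
  have ht0 := H.t0
  have hb0 := H.b0
  have hL0 := H.L0
  have hc := H.c_big
  have htL := H.tL
  have hL1 := H.hL1
  have ht1 := H.t1
  have h1 : l + 1 ≤ 3 * (10 ^ 8 * L * (b / t ^ 3)) := by
    have : 1 * 1 ≤ (10 ^ 8 * L) * (b / t ^ 3) := mul_le_mul (by linarith) hc zero_le_one (by positivity)
    linarith
  have h2 : pm * (l + 1) ≤ 1 / n * (3 * (10 ^ 8 * L * (b / t ^ 3))) :=
    mul_le_mul hpm1 h1 (by linarith) (by have := H.n0; positivity)
  have h3 : pm * (l + 1) * s ≤ 1 / n * (3 * (10 ^ 8 * L * (b / t ^ 3))) * (b ^ 2 / (6400 * t ^ 8)) :=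
    mul_le_mul h2 hs hs0 (by have := H.n0; positivity)
  refine h3.trans ?_
  rw [H.hn]
  have h4 : 1 / b ^ 3 * (3 * (10 ^ 8 * L * (b / t ^ 3))) * (b ^ 2 / (6400 * t ^ 8)) =
      (46875 * L) / t ^ 11 := by
    field_simp
    norm_num
  rw [h4, div_le_one (by positivity)]
  have h5 : t ≤ t ^ 11 := le_self_pow₀ ht1 (by norm_num)
  linarith

theorem mus_ge {pm s l : ℝ} (hpm1 : 1 / (2 * n) ≤ pm) (hs : b ^ 2 / (12800 * t ^ 8) ≤ s)
    (hl : 10 ^ 8 * L * (b / t ^ 3) ≤ l) :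
    3906 * L / t ^ 11 ≤ pm * (l + 1) * s := by
  have ht0 := H.t0
  have hb0 := H.b0
  have hL0 := H.L0
  have hn0 := H.n0
  have hA : 0 ≤ 10 ^ 8 * L * (b / t ^ 3) := by positivity
  have h2 : 1 / (2 * n) * (10 ^ 8 * L * (b / t ^ 3)) ≤ pm * (l + 1) :=
    mul_le_mul hpm1 (by linarith) hA (le_trans (by positivity) hpm1)
  have h3 : 1 / (2 * n) * (10 ^ 8 * L * (b / t ^ 3)) * (b ^ 2 / (12800 * t ^ 8)) ≤
      pm * (l + 1) * s :=
    mul_le_mul h2 hs (by positivity) (le_trans (by positivity) h2)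
  refine le_trans ?_ h3
  rw [H.hn]
  have h4 : 1 / (2 * b ^ 3) * (10 ^ 8 * L * (b / t ^ 3)) * (b ^ 2 / (12800 * t ^ 8)) =
      (7812.5 / 2 * L) / t ^ 11 := by
    field_simp
    norm_num
  rw [h4]
  apply div_le_div_of_nonneg_right _ (by positivity)
  linarith

/-- first term -/
theorem term1 {pm : ℝ} {s r l : ℕ} (hpm1 : pm ≤ 1 / n) (hpm2 : 1 / (2 * n) ≤ pm)
    (hs : b ^ 2 / (12800 * t ^ 8) ≤ s) (hs' : s ≤ b ^ 2 / (6400 * t ^ 8))
    (hr : b * t ^ 7 / 80 ≤ r)
    (hl : 10 ^ 8 * L * (b / t ^ 3) ≤ l) (hl' : l ≤ 2 * (10 ^ 8 * L * (b / t ^ 3))) :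
    (1 - (t ^ 4 / b) / 3 * (1 - Real.exp (-((pm * (l + 1)) * s)))) ^ r ≤ 1 / (n : ℝ) ^ 5 := by
  have ht0 := H.t0
  have hb0 := H.b0
  have hL0 := H.L0
  have hn0 := H.n0
  have h4 := H.tk 4 (by norm_num)
  set u : ℝ := (pm * (l + 1)) * s with hu
  have hu1 : u ≤ 1 := H.mus_le hpm1 hs' (by positivity) (by positivity) hl'
  have hu2 : 3906 * L / t ^ 11 ≤ u := H.mus_ge hpm2 hs hl
  have hu0 : 0 ≤ u := le_trans (by positivity) hu2
  have he : Real.exp (-u) ≤ 1 - u / 2 := by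
    have h1 : Real.exp (-u) ≤ 1 / (1 + u) := by
      rw [Real.exp_neg, ← one_div]
      apply one_div_le_one_div_of_le (by positivity)
      have := Real.add_one_le_exp u
      linarith
    refine h1.trans ?_
    rw [div_le_iff₀ (by positivity)]
    nlinarith
  have hg0 : 0 < t ^ 4 / b := by positivity
  have hg1 : t ^ 4 / b ≤ 1 := by rw [div_le_one hb0]; exact h4
  have he0 := Real.exp_pos (-u)
  have h5 : 1 - (t ^ 4 / b) / 3 * (1 - Real.exp (-u)) ≤ Real.exp (-((t ^ 4 / b) * u / 6)) := by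
    have h6 := Real.add_one_le_exp (-((t ^ 4 / b) * u / 6))
    have h7 : (t ^ 4 / b) / 3 * (u / 2) ≤ (t ^ 4 / b) / 3 * (1 - Real.exp (-u)) :=
      mul_le_mul_of_nonneg_left (by linarith) (by positivity)
    linarith
  have h8 : 0 ≤ 1 - (t ^ 4 / b) / 3 * (1 - Real.exp (-u)) := by
    have h9 : (t ^ 4 / b) / 3 * (1 - Real.exp (-u)) ≤ 1 * 1 :=
      mul_le_mul (by linarith) (by linarith) (by
        have : Real.exp (-u) ≤ 1 := by rw [Real.exp_le_one_iff]; linarith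
        linarith) zero_le_one
    linarith
  calc (1 - (t ^ 4 / b) / 3 * (1 - Real.exp (-u))) ^ r ≤
        (Real.exp (-((t ^ 4 / b) * u / 6))) ^ r := pow_le_pow_left₀ h8 h5 r
    _ = Real.exp (r * (-((t ^ 4 / b) * u / 6))) := by rw [← Real.exp_nat_mul]
    _ ≤ Real.exp (-((5 : ℕ) * L)) := by
        apply Real.exp_le_exp.2
        have h10 : (b * t ^ 7 / 80) * ((t ^ 4 / b) * (3906 * L / t ^ 11) / 6) ≤
            r * ((t ^ 4 / b) * u / 6) := by
          apply mul_le_mul hr _ (by positivity) (by positivity)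
          apply div_le_div_of_nonneg_right _ (by norm_num)
          exact mul_le_mul_of_nonneg_left hu2 hg0.le
        have h11 : (b * t ^ 7 / 80) * ((t ^ 4 / b) * (3906 * L / t ^ 11) / 6) = 8.1375 * L := by
          field_simp
          norm_num
        rw [h11] at h10
        push_cast
        linarith
    _ = 1 / (n : ℝ) ^ 5 := H.exp_neg 5

/-- second term -/
theorem term2 {f : ℝ} {r l : ℕ} (hf : n - f ≤ l + 1)
    (hr : r ≤ b * t ^ 7 / 40) (hl' : l ≤ 2 * (10 ^ 8 * L * (b / t ^ 3))) :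
    Real.exp ((t ^ 3 / b) ^ 2 / 4 * (n - f - b ^ 2 * t ^ 4 / 5) + r * (t ^ 3 / b)) ≤
      1 / (n : ℝ) ^ 5 := by
  have ht0 := H.t0
  have hb0 := H.b0
  have hL0 := H.L0
  have hn0 := H.n0
  have hc := H.c_big
  have ht1 := H.t1
  have htL := H.tL
  have hL1 := H.hL1
  rw [← H.exp_neg 5]
  apply Real.exp_le_exp.2
  have h1 : (n : ℝ) - f ≤ 3 * (10 ^ 8 * L * (b / t ^ 3)) := by
    have : 1 * 1 ≤ (10 ^ 8 * L) * (b / t ^ 3) := mul_le_mul (by linarith) hc zero_le_one (by positivity)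
    linarith
  have h2 : (t ^ 3 / b) ^ 2 / 4 * (n - f - b ^ 2 * t ^ 4 / 5) ≤
      (t ^ 3 / b) ^ 2 / 4 * (3 * (10 ^ 8 * L * (b / t ^ 3)) - b ^ 2 * t ^ 4 / 5) :=
    mul_le_mul_of_nonneg_left (by linarith) (by positivity)
  have h3 : (r : ℝ) * (t ^ 3 / b) ≤ b * t ^ 7 / 40 * (t ^ 3 / b) :=
    mul_le_mul_of_nonneg_right hr (by positivity)
  have h4 : (t ^ 3 / b) ^ 2 / 4 * (3 * (10 ^ 8 * L * (b / t ^ 3)) - b ^ 2 * t ^ 4 / 5) +
      b * t ^ 7 / 40 * (t ^ 3 / b) = 75000000 * L * (t ^ 3 / b) - t ^ 10 / 40 := by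
    field_simp
    ring
  have h5 : t ^ 3 / b ≤ 1 / t := by
    rw [div_le_div_iff₀ hb0 ht0]
    have := H.tk 4 (by norm_num)
    have e : t ^ 4 = t ^ 3 * t := by ring
    linarith
  have h6 : 75000000 * L * (t ^ 3 / b) ≤ 1 := by
    calc 75000000 * L * (t ^ 3 / b) ≤ 75000000 * L * (1 / t) :=
          mul_le_mul_of_nonneg_left h5 (by positivity)
      _ = 75000000 * L / t := by ring
      _ ≤ 1 := by rw [div_le_one ht0]; linarith
  have h7 : t ≤ t ^ 10 := le_self_pow₀ ht1 (by norm_num)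
  push_cast
  linarith

/-- paths slightly above the critical level -/
theorem term3 {l : ℕ} (hl' : l ≤ 2 * (10 ^ 8 * L * (b / t ^ 3))) :
    ((n : ℝ) * Pool.Agent.W842.RST.lev n (11 / 10 * (t ^ 2 / b))) ^ l ≤ 3 := by
  have ht0 := H.t0
  have hb0 := H.b0
  have hL0 := H.L0
  have hn0 := H.n0
  have htL := H.tL
  have hL1 := H.hL1
  have h1 : (n : ℝ) * Pool.Agent.W842.RST.lev n (11 / 10 * (t ^ 2 / b)) =
      1 + 11 / 10 * (t ^ 2 / b) := by
    unfold Pool.Agent.W842.RST.lev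
    field_simp
  rw [h1]
  have h2 : 1 + 11 / 10 * (t ^ 2 / b) ≤ Real.exp (11 / 10 * (t ^ 2 / b)) := by
    have := Real.add_one_le_exp (11 / 10 * (t ^ 2 / b))
    linarith
  calc (1 + 11 / 10 * (t ^ 2 / b)) ^ l ≤ (Real.exp (11 / 10 * (t ^ 2 / b))) ^ l :=
        pow_le_pow_left₀ (by positivity) h2 l
    _ = Real.exp (l * (11 / 10 * (t ^ 2 / b))) := by rw [← Real.exp_nat_mul]
    _ ≤ Real.exp 1 := by
        apply Real.exp_le_exp.2
        calc (l : ℝ) * (11 / 10 * (t ^ 2 / b)) ≤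
              2 * (10 ^ 8 * L * (b / t ^ 3)) * (11 / 10 * (t ^ 2 / b)) :=
              mul_le_mul_of_nonneg_right hl' (by positivity)
          _ = 220000000 * L / t := by field_simp; norm_num
          _ ≤ 1 := by rw [div_le_one ht0]; linarith
    _ ≤ 3 := by have := Real.exp_one_lt_d9; linarith

/-- paths below the critical level -/
theorem term4 {l1 : ℕ} (hl : 6 * L * (b / t ^ 3) ≤ l1) :
    (n : ℝ) * ((n : ℝ) * ((1 - t ^ 3 / b / 2) / n)) ^ l1 ≤ 1 / (n : ℝ) ^ 2 := by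
  have ht0 := H.t0
  have hb0 := H.b0
  have hL0 := H.L0
  have hn0 := H.n0
  have h3 := H.tk 3 (by norm_num)
  have hg1 : t ^ 3 / b ≤ 1 := by rw [div_le_one hb0]; exact h3
  have h1 : (n : ℝ) * ((1 - t ^ 3 / b / 2) / n) = 1 - t ^ 3 / b / 2 := by field_simp
  rw [h1]
  have h2 : 1 - t ^ 3 / b / 2 ≤ Real.exp (-(t ^ 3 / b / 2)) := by
    have := Real.add_one_le_exp (-(t ^ 3 / b / 2))
    linarith
  have h4 : (1 - t ^ 3 / b / 2) ^ l1 ≤ Real.exp (-((3 : ℕ) * L)) := by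
    calc (1 - t ^ 3 / b / 2) ^ l1 ≤ (Real.exp (-(t ^ 3 / b / 2))) ^ l1 :=
          pow_le_pow_left₀ (by linarith) h2 l1
      _ = Real.exp (l1 * (-(t ^ 3 / b / 2))) := by rw [← Real.exp_nat_mul]
      _ ≤ Real.exp (-((3 : ℕ) * L)) := by
          apply Real.exp_le_exp.2
          have h5 : 6 * L * (b / t ^ 3) * (t ^ 3 / b / 2) ≤ l1 * (t ^ 3 / b / 2) :=
            mul_le_mul_of_nonneg_right hl (by positivity)
          have h6 : 6 * L * (b / t ^ 3) * (t ^ 3 / b / 2) = 3 * L := by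
            field_simp
            norm_num
          rw [h6] at h5
          push_cast
          linarith
  rw [H.exp_neg 3] at h4
  calc (n : ℝ) * (1 - t ^ 3 / b / 2) ^ l1 ≤ n * (1 / (n : ℝ) ^ 3) :=
        mul_le_mul_of_nonneg_left h4 hn0.le
    _ = 1 / (n : ℝ) ^ 2 := by field_simp

/-- the number of large clusters -/
theorem nb_le {s : ℕ} (hs : b ^ 2 / (12800 * t ^ 8) ≤ s) :
    4 * n * L / ((t ^ 3 / b) * (s : ℝ) ^ 2) + 1 ≤ t ^ 14 := by
  have ht0 := H.t0
  have hb0 := H.b0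
  have hL0 := H.L0
  have ht1 := H.t1
  have htL := H.tL
  have hL1 := H.hL1
  have h0 : 0 < b ^ 2 / (12800 * t ^ 8) := by positivity
  have h1 : (b ^ 2 / (12800 * t ^ 8)) ^ 2 ≤ (s : ℝ) ^ 2 := pow_le_pow_left₀ h0.le hs 2
  have h2 : 4 * n * L / ((t ^ 3 / b) * (s : ℝ) ^ 2) ≤
      4 * n * L / ((t ^ 3 / b) * (b ^ 2 / (12800 * t ^ 8)) ^ 2) := by
    apply div_le_div_of_nonneg_left (by have := H.n0; positivity) (by positivity)
    exact mul_le_mul_of_nonneg_left h1 (by positivity)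
  have h3 : 4 * (n : ℝ) * L / ((t ^ 3 / b) * (b ^ 2 / (12800 * t ^ 8)) ^ 2) =
      655360000 * L * t ^ 13 := by
    rw [H.hn]
    field_simp
    norm_num
  have h4 : (1 : ℝ) ≤ t ^ 13 := one_le_pow₀ ht1
  have h5 : (655360000 * L + 1) * t ^ 13 ≤ t * t ^ 13 :=
    mul_le_mul_of_nonneg_right (by linarith) (by positivity)
  have h6 : t * t ^ 13 = t ^ 14 := by ring
  nlinarith

/-- the radius -/
theorem radius {l m N l1 : ℝ} (hl' : l ≤ 2 * (10 ^ 8 * L * (b / t ^ 3)))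
    (hm0 : 0 ≤ m) (hm : m ≤ 41 * L * (b / t / t)) (hN : N ≤ 12 * L)
    (hl1 : l1 ≤ 2 * (6 * L * (b / t ^ 3))) :
    4 * (l + 2 * m * N) + l1 ≤ b / t - 1 := by
  have ht0 := H.t0
  have hb0 := H.b0
  have hL0 := H.L0
  have ht1 := H.t1
  have htL := H.tL
  have hL1 := H.hL1
  have htt := H.ht
  set w : ℝ := b / t with hw
  have hw0 : 0 < w := by positivity
  have hw1 : 2 ≤ w := by
    rw [hw, le_div_iff₀ ht0]
    have h2 := H.tk 2 (by norm_num)
    have := H.t_big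
    nlinarith
  have e1 : b / t ^ 3 = w / t ^ 2 := by rw [hw]; field_simp
  have e2 : w / t ^ 2 ≤ w / t := by
    apply div_le_div_of_nonneg_left hw0.le ht0
    nlinarith
  have hmN : m * N ≤ 41 * L * (w / t) * (12 * L) := by
    rcases le_or_gt 0 N with h | h
    · exact mul_le_mul hm hN h (by positivity)
    · have h1 : m * N ≤ 0 := mul_nonpos_of_nonneg_of_nonpos hm0 h.le
      have h2 : 0 ≤ 41 * L * (w / t) * (12 * L) := by positivity
      linarith
  rw [e1] at hl' hl1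
  have h1 : l ≤ 2 * (10 ^ 8 * L * (w / t)) := by
    refine hl'.trans ?_
    have : 10 ^ 8 * L * (w / t ^ 2) ≤ 10 ^ 8 * L * (w / t) :=
      mul_le_mul_of_nonneg_left e2 (by positivity)
    linarith
  have h2 : l1 ≤ 2 * (6 * L * (w / t)) := by
    refine hl1.trans ?_
    have : 6 * L * (w / t ^ 2) ≤ 6 * L * (w / t) := mul_le_mul_of_nonneg_left e2 (by positivity)
    linarith
  have h3 : 4 * (l + 2 * m * N) + l1 ≤ (800000012 * L + 3936 * L ^ 2) * (w / t) := by
    nlinarith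
  have hLL : L ≤ L ^ 2 := by nlinarith
  have h4 : (800000012 * L + 3936 * L ^ 2) * (w / t) ≤ w / 2 := by
    have h5 : (800000012 * L + 3936 * L ^ 2) ≤ t / 2 := by linarith
    calc (800000012 * L + 3936 * L ^ 2) * (w / t) ≤ t / 2 * (w / t) :=
          mul_le_mul_of_nonneg_right h5 (by positivity)
      _ = w / 2 := by field_simp
  linarith

end Nm

/-- auxiliary inequalities -/
theorem aux_mul {a q : ℝ} (ha : 0 ≤ a) (hq : 1 ≤ q) : a ≤ a * q := le_mul_of_one_le_right ha hq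

theorem aux_m {L a c : ℝ} (h : 16 * L * a ≤ 16 * L * c) :
    16 * L * (1 + 3 / 2 * c) * a ≤ 16 * L * (1 + 3 / 2 * a) * c := by
  nlinarith

theorem aux_m2 {L a : ℝ} (hL : 0 ≤ L) (h : a ≤ 1) : 16 * L * (1 + 3 / 2 * a) ≤ 40 * L := by
  nlinarith

theorem aux_one {a c : ℝ} (ha : 1 ≤ a) (hc : 1 ≤ c) : 1 ≤ a * c := by
  nlinarith

theorem aux_sq {t b : ℝ} (h : t ^ 2 ≤ b) : t * t ≤ b := by nlinarith

theorem aux_pm {n x : ℝ} (hn : 0 < n) (hx : x ≤ 1 / 2) : 1 * n ≤ (1 - x) * (2 * n) := by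
  nlinarith

theorem aux_b {b : ℝ} (hb : 1 ≤ b) : b ≤ b ^ 2 := by nlinarith

theorem sum_le {n N L : ℝ} (hn : 1 ≤ n) (hL : 1 ≤ L) (hN : N ≤ 12 * L) (hnL : 10 ^ 12 * L ^ 2 ≤ n) :
    (N + 1) * (1 / n ^ 2) + (N * (1 / n ^ 2) + (2 / n + (1 / L +
        (6 / n ^ 4 + 1 / n ^ 2)))) ≤ 10 / L := by
  have hL0 : 0 < L := by linarith
  have hn0 : 0 < n := by linarith
  have hLL : L ≤ L ^ 2 := aux_b hL
  have hn2 : n ≤ n ^ 2 := aux_b hn
  have hn4 : n ≤ n ^ 4 := le_self_pow₀ hn (by norm_num)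
  have g0 : (N + 1) * L ≤ 13 * L ^ 2 := by
    have : (N + 1) * L ≤ (13 * L) * L := mul_le_mul_of_nonneg_right (by linarith) hL0.le
    linarith [this, (by ring : (13 * L) * L = 13 * L ^ 2)]
  have g0' : N * L ≤ 13 * L ^ 2 := by linarith
  have g1 : (N + 1) * (1 / n ^ 2) ≤ 1 / L := by
    rw [mul_one_div, div_le_div_iff₀ (by positivity) hL0]
    linarith
  have g2 : N * (1 / n ^ 2) ≤ 1 / L := by
    rw [mul_one_div, div_le_div_iff₀ (by positivity) hL0]
    linarith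
  have g3 : 2 / n ≤ 1 / L := by
    rw [div_le_div_iff₀ hn0 hL0]
    linarith
  have g4 : 6 / n ^ 4 ≤ 1 / L := by
    rw [div_le_div_iff₀ (by positivity) hL0]
    linarith
  have g5 : 1 / n ^ 2 ≤ 1 / L := by
    rw [div_le_div_iff₀ (by positivity) hL0]
    linarith
  have g6 : 10 / L = 10 * (1 / L) := by ring
  have g7 : 0 < 1 / L := by positivity
  rw [g6]
  linarith

theorem core {n : ℕ} {b t L : ℝ} (H : Nm n b t L) (P : Par 1 n t (b / t)) :
    ∃ N m l l1 Nb s : ℕ, 1 ≤ Nb ∧ (N : ℝ) ≤ 12 * Real.log n ∧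
      (t ^ 2 / b) * (11 / 10) ^ N ≤ 5 * Real.log n ∧
      ((4 * (l + 2 * m * N) + l1 : ℕ) : ℝ) ≤ b / t - 1 ∧
      (Nb : ℝ) ≤ t ^ 14 ∧
      env n {U : Ev n | ¬ EnvT ((1 - t ^ 3 / b) / n)
        ((1 - t ^ 3 / b / 2) / n) (t ^ 2 / b) s N m l l1 Nb U} ≤
        ENNReal.ofReal (10 / Real.log n) := by
  classical
  have ht0 := H.t0
  have ht1 := H.t1
  have htb := H.t_big
  have hb0 := H.b0
  have hbb := H.b_big
  have hL0 := H.L0
  have hL1 := H.hL1
  have hn0 := H.n0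
  have hn1 := H.n1
  have htL := H.tL
  have htt := H.ht
  have hLn := H.hL
  have htb1 : t ≤ b := by have := H.tk 1 (by norm_num); rwa [pow_one] at this
  have hbn : b ≤ n := by
    rw [H.hn]
    exact le_self_pow₀ (by linarith) (by norm_num)
  have hθe : t / (b / t) = t ^ 2 / b := by field_simp
  obtain ⟨N, hN1, hN2, hN3⟩ := P.levels
  rw [hθe] at hN1 hN2
  set θ : ℕ → ℝ := fun i => t ^ 2 / b * (11 / 10) ^ i with hθ
  have hθ0 : 0 < t ^ 2 / b := by positivity
  have hθ1 : t ^ 2 / b ≤ 1 := by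
    rw [div_le_one hb0]; exact H.tk 2 (by norm_num)
  have hθge : ∀ i, t ^ 2 / b ≤ θ i := by
    intro i
    rw [hθ]
    simp only
    exact aux_mul hθ0.le (one_le_pow₀ (by norm_num))
  have hθle : ∀ i ≤ N, θ i ≤ 5 * Real.log n := by
    intro i hi
    refine le_trans ?_ hN2
    rw [hθ]
    simp only
    apply mul_le_mul_of_nonneg_left _ hθ0.le
    exact pow_le_pow_right₀ (by norm_num) hi
  have hnum : ∀ i ≤ N, Num n (θ i) := fun i hi => P.num (by rw [hθe]; exact hθge i) (hθle i hi)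
  set m := ⌈16 * Real.log n * (1 + 3 / 2 * (t ^ 2 / b)) / (t ^ 2 / b)⌉₊ with hm
  have hm1 : 16 * Real.log n * (1 + 3 / 2 * (t ^ 2 / b)) / (t ^ 2 / b) ≤ m := Nat.le_ceil _
  have hLlog : 0 < Real.log n := by rw [← hLn]; exact hL0
  have hmi : ∀ i, 16 * Real.log n * (1 + 3 / 2 * θ i) / θ i ≤ m := by
    intro i
    refine le_trans ?_ hm1
    have hi := hθge i
    have hi0 : 0 < θ i := by linarith
    rw [div_le_div_iff₀ hi0 hθ0]
    have : 16 * Real.log n * (t ^ 2 / b) ≤ 16 * Real.log n * θ i :=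
      mul_le_mul_of_nonneg_left hi (by linarith)
    exact aux_m this
  have hm2 : (m : ℝ) ≤ 41 * L * (b / t / t) := by
    have h1 : (m : ℝ) ≤ 16 * Real.log n * (1 + 3 / 2 * (t ^ 2 / b)) / (t ^ 2 / b) + 1 :=
      (Nat.ceil_lt_add_one (by positivity)).le
    rw [← hLn] at h1
    have e1 : 40 * L * (b / t / t) = 40 * L / (t ^ 2 / b) := by
      field_simp
    have h2 : 16 * L * (1 + 3 / 2 * (t ^ 2 / b)) / (t ^ 2 / b) ≤ 40 * L * (b / t / t) := by
      rw [e1]
      apply div_le_div_of_nonneg_right _ hθ0.le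
      exact aux_m2 hL0.le hθ1
    have h3 : 1 ≤ L * (b / t / t) := by
      have h4 : 1 ≤ b / t / t := by
        rw [le_div_iff₀ ht0, one_mul, le_div_iff₀ ht0]
        exact aux_sq (H.tk 2 (by norm_num))
      exact aux_one hL1 h4
    linarith
  -- the other parameters
  obtain ⟨s, hs⟩ : ∃ s : ℕ, s = ⌊b ^ 2 / (6400 * t ^ 8)⌋₊ := ⟨_, rfl⟩
  have hsb := H.s_big
  have hs1 : (s : ℝ) ≤ b ^ 2 / (6400 * t ^ 8) := by rw [hs]; exact Nat.floor_le (by positivity)
  have hs2 : b ^ 2 / (12800 * t ^ 8) ≤ s := by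
    have := half_le_floor hsb
    rw [← hs] at this
    refine le_trans (le_of_eq ?_) this
    field_simp
    norm_num
  have hs3 : 1 ≤ s := by rw [hs]; exact Nat.le_floor (by simpa using hsb)
  obtain ⟨r, hr⟩ : ∃ r : ℕ, r = ⌊b * t ^ 7 / 40⌋₊ := ⟨_, rfl⟩
  have hrb : 1 ≤ b * t ^ 7 / 40 := by
    have h1 : (1 : ℝ) ≤ t ^ 7 := one_le_pow₀ ht1
    have h2 : b * 1 ≤ b * t ^ 7 := mul_le_mul_of_nonneg_left h1 hb0.le
    linarith
  have hr1 : (r : ℝ) ≤ b * t ^ 7 / 40 := by rw [hr]; exact Nat.floor_le (by positivity)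
  have hr2 : b * t ^ 7 / 80 ≤ r := by
    have := half_le_floor hrb
    rw [← hr] at this
    linarith
  have hcb := H.c_big
  obtain ⟨l, hl⟩ : ∃ l : ℕ, l = ⌈10 ^ 8 * L * (b / t ^ 3)⌉₊ := ⟨_, rfl⟩
  have hlb : 1 ≤ 10 ^ 8 * L * (b / t ^ 3) := by
    have : 1 * 1 ≤ (10 ^ 8 * L) * (b / t ^ 3) :=
      mul_le_mul (by linarith) hcb zero_le_one (by positivity)
    linarith
  have hl1 : 10 ^ 8 * L * (b / t ^ 3) ≤ l := by rw [hl]; exact Nat.le_ceil _
  have hl2 : (l : ℝ) ≤ 2 * (10 ^ 8 * L * (b / t ^ 3)) := by rw [hl]; exact ceil_le_two hlb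
  obtain ⟨l1, hll⟩ : ∃ l1 : ℕ, l1 = ⌈6 * L * (b / t ^ 3)⌉₊ := ⟨_, rfl⟩
  have hllb : 1 ≤ 6 * L * (b / t ^ 3) := by
    have : 1 * 1 ≤ (6 * L) * (b / t ^ 3) :=
      mul_le_mul (by linarith) hcb zero_le_one (by positivity)
    linarith
  have hll1 : 6 * L * (b / t ^ 3) ≤ l1 := by rw [hll]; exact Nat.le_ceil _
  have hll2 : (l1 : ℝ) ≤ 2 * (6 * L * (b / t ^ 3)) := by rw [hll]; exact ceil_le_two hllb
  have hsR : (1 : ℝ) ≤ s := by exact_mod_cast hs3
  obtain ⟨Nb, hNb⟩ : ∃ Nb : ℕ, Nb = ⌈4 * n * L / ((t ^ 3 / b) * (s : ℝ) ^ 2)⌉₊ := ⟨_, rfl⟩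
  have hq0 : 0 < 4 * n * L / ((t ^ 3 / b) * (s : ℝ) ^ 2) := by positivity
  have hNb1 : 4 * n * L / ((t ^ 3 / b) * (s : ℝ) ^ 2) ≤ Nb := by rw [hNb]; exact Nat.le_ceil _
  have hNb2 : 1 ≤ Nb := by
    rw [hNb]; exact Nat.one_le_ceil_iff.2 hq0
  have hNb3 : (Nb : ℝ) ≤ t ^ 14 := by
    have h1 := (Nat.ceil_lt_add_one hq0.le).le
    rw [← hNb] at h1
    exact h1.trans (H.nb_le hs2)
  have hlam0 : 0 < t ^ 3 / b := by positivity
  have hlam1 : t ^ 3 / b ≤ 1 / 2 := by
    rw [div_le_div_iff₀ hb0 (by norm_num)]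
    have h4 := H.tk 4 (by norm_num)
    have e : t ^ 4 = t ^ 3 * t := by ring
    have h5 : t ^ 3 * 2 ≤ t ^ 3 * t := mul_le_mul_of_nonneg_left (by linarith) (by positivity)
    linarith
  have hpm0 : 0 ≤ (1 - t ^ 3 / b) / n := div_nonneg (by linarith) hn0.le
  have hpm1 : (1 - t ^ 3 / b) / n ≤ 1 / n := div_le_div_of_nonneg_right (by linarith) hn0.le
  have hpm2 : 1 / (2 * n) ≤ (1 - t ^ 3 / b) / n := by
    rw [div_le_div_iff₀ (by positivity) hn0]
    exact aux_pm hn0 hlam1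
  have h1n : 1 / (n : ℝ) ≤ 1 := by rw [div_le_one hn0]; exact hn1
  refine ⟨N, m, l, l1, Nb, s, hNb2, hN3, hN2, ?_, hNb3, ?_⟩
  · push_cast
    exact H.radius hl2 (by positivity) hm2 (by rw [hLn]; exact hN3) hll2
  · set pm : ℝ := (1 - t ^ 3 / b) / n with hpm
    set p : ℝ := Pool.Agent.W842.RST.lev n (11 / 10 * (t ^ 2 / b)) with hp
    set B1 : Set (Ev n) := ⋃ i ∈ range (N + 1),
      {U | ¬ ∃ v, siz n (θ i) ≤ (comp (GU U (Pool.Agent.W842.RST.lev n (θ i))) v).card} with hB1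
    set B2 : Set (Ev n) := ⋃ i ∈ range N,
      {U | AvoidBad m (siz n (θ i)) (Pool.Agent.W842.RST.lev n (θ i))
        (Pool.Agent.W842.RST.lev n (121 / 100 * θ i)) U} with hB2
    set B3 : Set (Ev n) := {U | ¬ (GU U (Pool.Agent.W842.RST.lev n (θ N))).Preconnected} with hB3
    set B4 : Set (Ev n) := {U | Nb < (blks (GU U pm) s).card} with hB4
    set B5 : Set (Ev n) := {U | SmallPath pm p s l U} with hB5
    set B6 : Set (Ev n) := {U | LongPath ((1 - t ^ 3 / b / 2) / n) l1 U} with hB6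
    have m1 : env n B1 ≤ ENNReal.ofReal ((N + 1) * (1 / (n : ℝ) ^ 2)) := by
      calc env n B1 ≤ ∑ i ∈ range (N + 1),
            env n {U | ¬ ∃ v, siz n (θ i) ≤ (comp (GU U (Pool.Agent.W842.RST.lev n (θ i))) v).card} :=
            measure_biUnion_finset_le _ _
        _ ≤ ∑ i ∈ range (N + 1), ENNReal.ofReal (1 / (n : ℝ) ^ 2) := by
            apply Finset.sum_le_sum
            intro i hi
            exact (hnum i (by have := Finset.mem_range.1 hi; omega)).env_giant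
        _ = ENNReal.ofReal ((N + 1) * (1 / (n : ℝ) ^ 2)) := by
            rw [← ENNReal.ofReal_sum_of_nonneg (fun _ _ => by positivity), Finset.sum_const,
              Finset.card_range, nsmul_eq_mul]
            push_cast
            rfl
    have m2 : env n B2 ≤ ENNReal.ofReal (N * (1 / (n : ℝ) ^ 2)) := by
      calc env n B2 ≤ ∑ i ∈ range N,
            env n {U | AvoidBad m (siz n (θ i)) (Pool.Agent.W842.RST.lev n (θ i))
              (Pool.Agent.W842.RST.lev n (121 / 100 * θ i)) U} :=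
            measure_biUnion_finset_le _ _
        _ ≤ ∑ i ∈ range N, ENNReal.ofReal (1 / (n : ℝ) ^ 2) := by
            apply Finset.sum_le_sum
            intro i hi
            exact (hnum i (by have := Finset.mem_range.1 hi; omega)).env_avoid m (hmi i)
        _ = ENNReal.ofReal (N * (1 / (n : ℝ) ^ 2)) := by
            rw [← ENNReal.ofReal_sum_of_nonneg (fun _ _ => by positivity), Finset.sum_const,
              Finset.card_range, nsmul_eq_mul]
    have m3 : env n B3 ≤ ENNReal.ofReal (2 / n) := P.conn hN1 hN2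
    have m4 : env n B4 ≤ ENNReal.ofReal (1 / L) := by
      have h := num_big (n := n) (pm := pm) (lam := t ^ 3 / b) (s := s) (Nb := Nb) hpm hlam0
        (by linarith) hs3 (by exact_mod_cast hn1) hNb2
      refine h.trans (ENNReal.ofReal_le_ofReal ?_)
      have hNbR : (1 : ℝ) ≤ Nb := by exact_mod_cast hNb2
      rw [div_le_div_iff₀ (by positivity) hL0]
      rw [div_le_iff₀ (by positivity)] at hNb1
      linarith
    have hp0 : 0 ≤ p := by rw [hp]; unfold Pool.Agent.W842.RST.lev; positivity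
    have hp1 : p ≤ 1 := by
      rw [hp]; unfold Pool.Agent.W842.RST.lev
      rw [div_le_one hn0]
      linarith
    have m5 : env n B5 ≤ ENNReal.ofReal (6 / (n : ℝ) ^ 4) := by
      have h := small_path (n := n) (pm := pm) (p := p) (a := 2 / (n : ℝ) ^ 5) (s := s) (l := l)
        hpm0 (hpm1.trans h1n) hp0 hp1 (by
          intro F hF
          have hFR : (n : ℝ) - F.card ≤ l + 1 := by
            have : (n : ℝ) ≤ F.card + (l + 1) := by exact_mod_cast hF
            linarith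
          have hb := big_exp (n := n) (pm := pm) (lam := t ^ 3 / b) (gb := t ^ 4 / b)
            (μ := pm * (l + 1)) (X := b ^ 2 * t ^ 4 / 5) (s := s) hpm hlam0
            (by
              apply div_le_div_of_nonneg_right _ hb0.le
              exact pow_le_pow_right₀ ht1 (by norm_num))
            (by
              rw [div_le_div_iff₀ hb0 (by norm_num)]
              have h5 := H.tk 5 (by norm_num)
              have e : t ^ 5 = t ^ 4 * t := by ring
              have h6 : t ^ 4 * 100 ≤ t ^ 4 * t :=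
                mul_le_mul_of_nonneg_left (by linarith) (by positivity)
              linarith)
            (by
              have e : (n : ℝ) * (t ^ 4 / b) ^ 3 = t ^ 12 := by
                rw [H.hn]; field_simp
              rw [e]
              have : t ≤ t ^ 12 := le_self_pow₀ ht1 (by norm_num)
              linarith)
            (by
              have h1 : (s : ℝ) * (t ^ 4 / b) ^ 2 * 6400 ≤
                  b ^ 2 / (6400 * t ^ 8) * (t ^ 4 / b) ^ 2 * 6400 := by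
                apply mul_le_mul_of_nonneg_right _ (by norm_num)
                exact mul_le_mul_of_nonneg_right hs1 (by positivity)
              have h2 : b ^ 2 / (6400 * t ^ 8) * (t ^ 4 / b) ^ 2 * 6400 = 1 := by
                field_simp
              linarith)
            hs3
            (by
              have e : (n : ℝ) * (t ^ 4 / b) / 4 = b ^ 2 * t ^ 4 / 4 := by
                rw [H.hn]; field_simp
              rw [e]
              have h1 : (1 : ℝ) ≤ t ^ 4 := one_le_pow₀ ht1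
              have h2 : b ≤ b ^ 2 := aux_b (by linarith)
              have h3 : b ^ 2 * 1 ≤ b ^ 2 * t ^ 4 := mul_le_mul_of_nonneg_left h1 (by positivity)
              linarith)
            (by positivity) F r
          refine hb.trans ?_
          have t1 := H.term1 (pm := pm) (s := s) (r := r) (l := l) hpm1 hpm2 hs2 hs1 hr2 hl1 hl2
          have t2 := H.term2 (f := (F.card : ℝ)) (r := r) (l := l) hFR hr1 hl2
          have e : 2 / (n : ℝ) ^ 5 = 1 / (n : ℝ) ^ 5 + 1 / (n : ℝ) ^ 5 := by ring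
          rw [e]
          exact add_le_add t1 t2)
      refine h.trans (ENNReal.ofReal_le_ofReal ?_)
      have t3 := H.term3 hl2
      rw [← hp] at t3
      calc (n : ℝ) * (n * p) ^ l * (2 / (n : ℝ) ^ 5) ≤ n * 3 * (2 / (n : ℝ) ^ 5) := by
            apply mul_le_mul_of_nonneg_right _ (by positivity)
            exact mul_le_mul_of_nonneg_left t3 hn0.le
        _ = 6 / (n : ℝ) ^ 4 := by field_simp; norm_num
    have m6 : env n B6 ≤ ENNReal.ofReal (1 / (n : ℝ) ^ 2) := by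
      have h := long_path (n := n) (p := (1 - t ^ 3 / b / 2) / n) (l := l1)
        (div_nonneg (by linarith) hn0.le) (by
          rw [div_le_one hn0]
          linarith)
      exact h.trans (ENNReal.ofReal_le_ofReal (H.term4 hll1))
    have hsub : {U : Ev n | ¬ EnvT pm ((1 - t ^ 3 / b / 2) / n) (t ^ 2 / b) s N m l l1 Nb U} ⊆
        B1 ∪ (B2 ∪ (B3 ∪ (B4 ∪ (B5 ∪ B6)))) := by
      intro U hU
      by_contra hcon
      simp only [Set.mem_union, not_or] at hcon
      obtain ⟨u1, u2, u3, u4, u5, u6⟩ := hcon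
      apply hU
      refine ⟨?_, ?_, ?_, ?_, ?_, ?_⟩
      · by_contra h
        exact u3 h
      · intro i hi
        by_contra h
        apply u1
        rw [hB1, Set.mem_iUnion₂]
        exact ⟨i, Finset.mem_range.2 (by omega), h⟩
      · intro i hi h
        apply u2
        rw [hB2, Set.mem_iUnion₂]
        exact ⟨i, Finset.mem_range.2 hi, h⟩
      · by_contra h
        exact u4 (not_le.1 h)
      · exact u5
      · exact u6
    have hfin : (N + 1) * (1 / (n : ℝ) ^ 2) + (N * (1 / (n : ℝ) ^ 2) + (2 / n + (1 / L +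
        (6 / (n : ℝ) ^ 4 + 1 / (n : ℝ) ^ 2)))) ≤ 10 / Real.log n := by
      rw [← hLn]
      exact sum_le hn1 hL1 (by rw [hLn]; exact hN3) (by linarith)
    calc env n {U : Ev n | ¬ EnvT pm ((1 - t ^ 3 / b / 2) / n) (t ^ 2 / b) s N m l l1 Nb U} ≤
          env n (B1 ∪ (B2 ∪ (B3 ∪ (B4 ∪ (B5 ∪ B6))))) := measure_mono hsub
      _ ≤ ENNReal.ofReal ((N + 1) * (1 / (n : ℝ) ^ 2)) + (ENNReal.ofReal (N * (1 / (n : ℝ) ^ 2)) +
          (ENNReal.ofReal (2 / n) + (ENNReal.ofReal (1 / L) + (ENNReal.ofReal (6 / (n : ℝ) ^ 4) +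
            ENNReal.ofReal (1 / (n : ℝ) ^ 2))))) := by
          refine (measure_union_le _ _).trans (add_le_add m1 ?_)
          refine (measure_union_le _ _).trans (add_le_add m2 ?_)
          refine (measure_union_le _ _).trans (add_le_add m3 ?_)
          refine (measure_union_le _ _).trans (add_le_add m4 ?_)
          exact (measure_union_le _ _).trans (add_le_add m5 m6)
      _ = ENNReal.ofReal ((N + 1) * (1 / (n : ℝ) ^ 2) + (N * (1 / (n : ℝ) ^ 2) + (2 / n + (1 / L +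
        (6 / (n : ℝ) ^ 4 + 1 / (n : ℝ) ^ 2))))) := by
          rw [← ENNReal.ofReal_add (by positivity) (by positivity),
            ← ENNReal.ofReal_add (by positivity) (by positivity),
            ← ENNReal.ofReal_add (by positivity) (by positivity),
            ← ENNReal.ofReal_add (by positivity) (by positivity),
            ← ENNReal.ofReal_add (by positivity) (by positivity)]
      _ ≤ _ := ENNReal.ofReal_le_ofReal hfin

end MsEnv

/-- good environments are typical -/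
theorem mst_env {ε : ℝ} (hε : 0 < ε) (hε1 : ε ≤ 1 / 100) : ∀ᶠ n : ℕ in atTop,
    ∃ N m l l1 Nb s : ℕ, 1 ≤ Nb ∧ (N : ℝ) ≤ 12 * Real.log n ∧
      (n : ℝ) ^ (-(1 / 3) + 2 * ε) * (11 / 10) ^ N ≤ 5 * Real.log n ∧
      ((4 * (l + 2 * m * N) + l1 : ℕ) : ℝ) ≤ (n : ℝ) ^ (1 / 3 - ε) - 1 ∧
      (Nb : ℝ) ≤ (n : ℝ) ^ (14 * ε) ∧
      env n {U : Ev n | ¬ EnvT ((1 - (n : ℝ) ^ (-(1 / 3) + 3 * ε)) / n)
        ((1 - (n : ℝ) ^ (-(1 / 3) + 3 * ε) / 2) / n) ((n : ℝ) ^ (-(1 / 3) + 2 * ε)) s N m l l1 Nb U} ≤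
        ENNReal.ofReal (10 / Real.log n) := by
  have hpar := eventually_Par (γ := 1) (g := 1 / 3 - ε) (ε := ε) one_pos (by linarith) (by linarith) hε
    (by linarith)
  have hlog := eventually_log 2 hε (C := 10 ^ 12) (by norm_num)
  filter_upwards [hpar, hlog, eventually_ge_atTop 1] with n P hl hn
  have hn1 : (1 : ℝ) ≤ n := by exact_mod_cast hn
  have hn0 : (0 : ℝ) < n := by linarith
  have hL1 := P.hL
  set b : ℝ := (n : ℝ) ^ (1 / 3 : ℝ) with hb
  set t : ℝ := (n : ℝ) ^ ε with ht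
  have hb0 : 0 < b := Real.rpow_pos_of_pos hn0 _
  have ht0 : 0 < t := Real.rpow_pos_of_pos hn0 _
  have ep : ∀ k : ℕ, t ^ k = (n : ℝ) ^ (ε * k) := by
    intro k
    rw [ht, ← Real.rpow_natCast, ← Real.rpow_mul hn0.le]
  have H : MsEnv.Nm n b t (Real.log n) := by
    refine ⟨?_, rfl, hL1, ?_, ?_⟩
    · rw [hb, ← Real.rpow_natCast, ← Real.rpow_mul hn0.le]
      norm_num
    · rw [← Real.rpow_natCast (Real.log n) 2]
      exact_mod_cast hl
    · rw [ep, hb]
      apply Real.rpow_le_rpow_of_exponent_le hn1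
      push_cast
      linarith
  have e1 : (n : ℝ) ^ (1 / 3 - ε) = b / t := by rw [Real.rpow_sub hn0]
  have e2 : (n : ℝ) ^ (-(1 / 3) + 2 * ε) = t ^ 2 / b := by
    rw [Real.rpow_add hn0, Real.rpow_neg hn0.le, ep, ← hb]
    push_cast
    rw [mul_comm ε 2]
    field_simp
  have e3 : (n : ℝ) ^ (-(1 / 3) + 3 * ε) = t ^ 3 / b := by
    rw [Real.rpow_add hn0, Real.rpow_neg hn0.le, ep, ← hb]
    push_cast
    rw [mul_comm ε 3]
    field_simp
  have e4 : (n : ℝ) ^ (14 * ε) = t ^ 14 := by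
    rw [ep]
    push_cast
    rw [mul_comm ε 14]
  rw [e1] at P
  rw [e1, e2, e3, e4]
  exact MsEnv.core H P

end
end Pool.Agent.TH972.U
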