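import Pool.Agent.TH972.U.MsDef
import Pool.Agent.TH972.U.Count
import Pool.Agent.TH972.U.Graph
import Pool.Agent.TH972.U.Rch

/-!
# Paths through small clusters, number of large clusters
(job RSTRE V-MsPath of helper972, written by helper576)
-/

set_option autoImplicit false
set_option linter.unusedSectionVars false

namespace Pool.Agent.TH972.U

open Finset MeasureTheory Pool.Agent.W842.RST Pool.Agent.TH972

noncomputable section

variable {n : ℕ}

namespace MsPath

/-- expectation of an indicator as a probability -/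
theorem Ex_ind (L : Finset ℝ) {P : Ev n → Prop} (hP : ∀ U U', lvlEq L U U' → (P U ↔ P U')) :
    Ex (fun U => ind (P U)) = (env n).real {U | P U} := by
  classical
  have hB : BM (fun U => ind (P U)) := BM_lvl L (fun U U' hU => by
    by_cases hp : P U
    · rw [ind_true hp, ind_true ((hP U U' hU).mp hp)]
    · rw [ind_false hp, ind_false (fun h => hp ((hP U U' hU).mpr h))])
  have hm : MeasurableSet {U : Ev n | P U} := by
    have h1 : {U : Ev n | P U} = (fun U => ind (P U)) ⁻¹' {1} := by
      ext U
      simp only [Set.mem_ofPred_eq, Set.mem_preimage, Set.mem_singleton_iff]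
      by_cases hp : P U
      · rw [ind_true hp]; simp [hp]
      · rw [ind_false hp]; simp [hp]
    rw [h1]
    exact hB.meas (measurableSet_singleton 1)
  have h2 : (fun U : Ev n => ind (P U)) = Set.indicator {U : Ev n | P U} 1 := by
    funext U
    by_cases hp : P U
    · rw [ind_true hp, Set.indicator_of_mem (show U ∈ {U : Ev n | P U} from hp)]; rfl
    · rw [ind_false hp, Set.indicator_of_notMem (show U ∉ {U : Ev n | P U} from hp)]
  unfold Ex
  rw [h2, integral_indicator_one hm]

/-- the edges of the path -/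
def pe {l : ℕ} (x : Fin (l + 1) → Fin n) : Finset (Sym2 (Fin n)) :=
  (univ : Finset (Fin l)).image (fun i => s(x i.castSucc, x i.succ))

theorem bigV_sub (pm : ℝ) (s : ℕ) (U : Ev n) (F : Finset (Fin n)) : bigV pm s U F ⊆ F := by
  classical
  unfold bigV
  exact Finset.filter_subset _ _

theorem mem_bigV {pm : ℝ} {s : ℕ} {U : Ev n} {F : Finset (Fin n)} {v : Fin n} :
    v ∈ bigV pm s U F ↔ v ∈ F ∧ s ≤ (rch pm U {v} F).card := by
  classical
  unfold bigV
  rw [Finset.mem_filter]

theorem bigV_lvl {L : Finset ℝ} {pm : ℝ} (hp : pm ∈ L) {U U' : Ev n} (h : lvlEq L U U') (s : ℕ)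
    (F : Finset (Fin n)) : bigV pm s U F = bigV pm s U' F := by
  ext v
  rw [mem_bigV, mem_bigV, rch_lvl pm {v} F (Count.lvl_sub (Finset.singleton_subset_iff.2 hp) h)]

theorem bigV_dep {pm : ℝ} {U U' : Ev n} (s : ℕ) (F : Finset (Fin n))
    (h : ∀ e ∈ {e : Sym2 (Fin n) | ∀ a ∈ e, a ∈ F}, U e = U' e) :
    bigV pm s U F = bigV pm s U' F := by
  ext v
  rw [mem_bigV, mem_bigV]
  refine and_congr_right fun hv => ?_
  have h1 : rch pm U' {v} F = rch pm U {v} F := by
    apply Rch.loc
    intro a ha b hb
    have ha' : a ∈ F := by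
      rcases mem_union.1 (Rch.sub pm U {v} F ha) with h2 | h2
      · rw [mem_singleton] at h2
        rw [h2]; exact hv
      · exact h2
    rw [h s(a, b) (by
      intro c hc
      rw [Sym2.mem_iff] at hc
      rcases hc with rfl | rfl
      · exact ha'
      · exact hb)]
  rw [h1]

/-- the event of a given path, and the cross edges -/
def QB {l : ℕ} (pm p : ℝ) (x : Fin (l + 1) → Fin n) (B : Finset (Fin n)) (U : Ev n) : Prop :=
  (∀ e ∈ pe x, U e ≤ p) ∧ ∀ e ∈ Graph.cross B (univ.image x), pm < U e

theorem QB_lvl {l : ℕ} {pm p : ℝ} (x : Fin (l + 1) → Fin n) (B : Finset (Fin n)) {U U' : Ev n}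
    (h : lvlEq {pm, p} U U') : QB pm p x B U ↔ QB pm p x B U' := by
  have key : ∀ {U U' : Ev n}, lvlEq {pm, p} U U' → QB pm p x B U → QB pm p x B U' := by
    rintro U U' h ⟨h1, h2⟩
    refine ⟨fun e he => (h e p (by simp)).1 (h1 e he), fun e he => ?_⟩
    by_contra hc
    exact absurd ((h e pm (by simp)).2 (not_lt.1 hc)) (not_le.2 (h2 e he))
  exact ⟨key h, key (fun e q hq => (h e q hq).symm)⟩

/-- the probability of the event -/
theorem QB_le {l : ℕ} {pm p : ℝ} (h0 : 0 ≤ pm) (h1 : pm ≤ 1) (h0' : 0 ≤ p) (h1' : p ≤ 1)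
    (x : Fin (l + 1) → Fin n) (hx : Function.Injective x) (B : Finset (Fin n))
    (hB : B ⊆ univ \ univ.image x) :
    Ex (fun U : Ev n => ind (QB pm p x B U)) ≤
      p ^ l * Real.exp (-(pm * (l + 1) * B.card)) := by
  classical
  rw [Ex_ind {pm, p} (fun U U' h => QB_lvl x B h)]
  have hd : Disjoint B (univ.image x) := by
    rw [Finset.disjoint_left]
    intro a ha ha'
    exact (Finset.mem_sdiff.1 (hB ha)).2 ha'
  have hTR : Disjoint (pe x) (Graph.cross B (univ.image x)) := by
    rw [Finset.disjoint_left]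
    intro e he he'
    unfold pe at he
    obtain ⟨i, _, rfl⟩ := Finset.mem_image.1 he
    unfold Graph.cross at he'
    obtain ⟨⟨a, b⟩, hab, hi⟩ := Finset.mem_image.1 he'
    rw [Finset.mem_product] at hab
    simp only at hab hi
    have ha := Finset.disjoint_left.1 hd hab.1
    rw [Sym2.eq_iff] at hi
    rcases hi with ⟨h3, _⟩ | ⟨h3, _⟩
    · exact ha (h3 ▸ Finset.mem_image_of_mem _ (Finset.mem_univ _))
    · exact ha (h3 ▸ Finset.mem_image_of_mem _ (Finset.mem_univ _))
  have h2 := env_box3 (n := n) h0 h1 h0' h1' ∅ (pe x) (Graph.cross B (univ.image x))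
    (Finset.disjoint_empty_left _) (Finset.disjoint_empty_left _) hTR
  have c1 : (pe x).card = l := card_path_edges x hx
  have c2 : (Graph.cross B (univ.image x)).card = B.card * (l + 1) := by
    rw [Graph.cross_card hd, Finset.card_image_of_injective _ hx, Finset.card_univ,
      Fintype.card_fin]
  rw [c1, c2, Finset.card_empty, pow_zero, one_mul] at h2
  have h3 : (env n).real {U | QB pm p x B U} ≤ p ^ l * (1 - pm) ^ (B.card * (l + 1)) := by
    rw [measureReal_def]
    apply ENNReal.toReal_le_of_le_ofReal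
    · have : 0 ≤ 1 - pm := by linarith
      positivity
    · refine (measure_mono ?_).trans h2
      rintro U ⟨hU1, hU2⟩
      exact ⟨by simp, hU1, hU2⟩
  refine h3.trans (mul_le_mul_of_nonneg_left ?_ (by positivity))
  have h4 : 1 - pm ≤ Real.exp (-pm) := by
    have := Real.add_one_le_exp (-pm)
    linarith
  calc (1 - pm) ^ (B.card * (l + 1)) ≤ (Real.exp (-pm)) ^ (B.card * (l + 1)) :=
        pow_le_pow_left₀ (by linarith) h4 _
    _ = Real.exp (-(pm * (l + 1) * B.card)) := by
        rw [← Real.exp_nat_mul]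
        congr 1
        push_cast
        ring

/-- the event for a given path -/
def PE {l : ℕ} (pm p : ℝ) (s : ℕ) (x : Fin (l + 1) → Fin n) (U : Ev n) : Prop :=
  (∀ i : Fin l, U s(x i.castSucc, x i.succ) ≤ p) ∧ ∀ i, (cmp (GU U pm) (x i)).card < s

theorem PE_lvl {l : ℕ} {pm p : ℝ} {s : ℕ} (x : Fin (l + 1) → Fin n) {U U' : Ev n}
    (h : lvlEq {pm, p} U U') : PE pm p s x U ↔ PE pm p s x U' := by
  have key : ∀ {U U' : Ev n}, lvlEq {pm, p} U U' → PE pm p s x U → PE pm p s x U' := by
    rintro U U' h ⟨h1, h2⟩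
    refine ⟨fun i => (h _ p (by simp)).1 (h1 i), fun i => ?_⟩
    rw [← Graph.GU_lvl (L := {pm, p}) (by simp) h]
    exact h2 i
  exact ⟨key h, key (fun e q hq => (h e q hq).symm)⟩

theorem PE_QB {l : ℕ} {pm p : ℝ} {s : ℕ} (x : Fin (l + 1) → Fin n) {U : Ev n}
    (h : PE pm p s x U) : QB pm p x (bigV pm s U (univ \ univ.image x)) U := by
  classical
  obtain ⟨h1, h2⟩ := h
  constructor
  · intro e he
    unfold pe at he
    obtain ⟨i, _, rfl⟩ := Finset.mem_image.1 he
    exact h1 i
  · intro e he
    unfold Graph.cross at he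
    obtain ⟨⟨a, b⟩, hab, rfl⟩ := Finset.mem_image.1 he
    rw [Finset.mem_product] at hab
    simp only at hab ⊢
    by_contra hc
    push Not at hc
    obtain ⟨i, _, hi⟩ := Finset.mem_image.1 hab.2
    obtain ⟨haF, hs⟩ := mem_bigV.1 hab.1
    have hne : a ≠ b := by
      rintro rfl
      exact (Finset.mem_sdiff.1 haF).2 hab.2
    have h3 : rch pm U {a} (univ \ univ.image x) ⊆ cmp (GU U pm) (x i) := by
      rw [← rch_cmp]
      have h4 : rch pm U {a} (univ \ univ.image x) ⊆ rch pm U {a} (univ.erase a) := by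
        apply rch_mono le_rfl U (Finset.Subset.refl _)
        rw [Count.un]
        exact Finset.subset_univ _
      refine h4.trans ?_
      rw [rch_cmp, rch_cmp]
      intro u hu
      unfold cmp at hu ⊢
      rw [Finset.mem_filter] at hu ⊢
      refine ⟨Finset.mem_univ _, ?_⟩
      have h5 : (GU U pm).Adj a b := GU_adj.2 ⟨hc, hne⟩
      rw [hi]
      exact h5.symm.reachable.trans hu.2
    have := (Finset.card_le_card h3).trans_lt (h2 i)
    omega

/-- the event for a given path is unlikely -/
theorem one {l : ℕ} {pm p : ℝ} {s : ℕ} (h0 : 0 ≤ pm) (h1 : pm ≤ 1) (h0' : 0 ≤ p) (h1' : p ≤ 1)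
    (x : Fin (l + 1) → Fin n) (hx : Function.Injective x) :
    Ex (fun U : Ev n => ind (PE pm p s x U)) ≤
      p ^ l * Ex (fun U : Ev n => Real.exp (-(pm * (l + 1) *
        (bigV pm s U (univ \ univ.image x)).card))) := by
  classical
  set F : Finset (Fin n) := univ \ univ.image x with hF
  have hbP : BM (fun U : Ev n => ind (PE pm p s x U)) := BM_lvl {pm, p} fun U U' h => by
    rw [propext (PE_lvl x h)]
  have hbB : ∀ B : Finset (Fin n), BM (fun U : Ev n => ind (bigV pm s U F = B)) := fun B =>
    BM_lvl {pm} fun U U' h => by rw [bigV_lvl (by simp) h]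
  have hbQ : ∀ B : Finset (Fin n), BM (fun U : Ev n => ind (QB pm p x B U)) := fun B =>
    BM_lvl {pm, p} fun U U' h => by rw [propext (QB_lvl x B h)]
  have h2 : Ex (fun U : Ev n => ind (PE pm p s x U)) ≤
      Ex (fun U : Ev n => ∑ B ∈ F.powerset, ind (bigV pm s U F = B) * ind (QB pm p x B U)) := by
    apply Ex_mono hbP (BM.sum _ fun B _ => (hbB B).mul (hbQ B))
    intro U
    have hnn : ∀ B ∈ F.powerset, 0 ≤ ind (bigV pm s U F = B) * ind (QB pm p x B U) :=
      fun B _ => mul_nonneg (ind_nonneg _) (ind_nonneg _)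
    by_cases hP : PE pm p s x U
    · refine le_trans ?_ (Finset.single_le_sum hnn (Finset.mem_powerset.2 (bigV_sub pm s U F)))
      rw [ind_true hP, ind_true rfl, ind_true (PE_QB x hP), one_mul]
    · rw [ind_false hP]
      exact Finset.sum_nonneg hnn
  have h3 : ∀ B ∈ F.powerset, Ex (fun U : Ev n => ind (bigV pm s U F = B) * ind (QB pm p x B U)) ≤
      p ^ l * Ex (fun U : Ev n => Real.exp (-(pm * (l + 1) * B.card)) *
        ind (bigV pm s U F = B)) := by
    intro B hB
    rw [Ex_indep {e : Sym2 (Fin n) | ∀ a ∈ e, a ∈ F}]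
    · rw [Ex_const_mul]
      have h4 := QB_le h0 h1 h0' h1' x hx B (Finset.mem_powerset.1 hB)
      have h5 : 0 ≤ Ex (fun U : Ev n => ind (bigV pm s U F = B)) := Ex_nonneg fun U => ind_nonneg _
      calc Ex (fun U : Ev n => ind (bigV pm s U F = B)) *
            Ex (fun U : Ev n => ind (QB pm p x B U)) ≤
            Ex (fun U : Ev n => ind (bigV pm s U F = B)) *
              (p ^ l * Real.exp (-(pm * (l + 1) * B.card))) := mul_le_mul_of_nonneg_left h4 h5
        _ = _ := by ring
    · intro U U' h
      rw [bigV_dep s F h]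
    · intro U U' h
      have hout : ∀ e ∈ pe x ∪ Graph.cross B (univ.image x), U e = U' e := by
        intro e he
        apply h
        rw [Set.mem_ofPred_eq]
        push Not
        rcases Finset.mem_union.1 he with he | he
        · unfold pe at he
          obtain ⟨i, _, rfl⟩ := Finset.mem_image.1 he
          refine ⟨x i.castSucc, Sym2.mem_mk_left _ _, ?_⟩
          rw [hF, Finset.mem_sdiff]
          exact fun hc => hc.2 (Finset.mem_image_of_mem _ (Finset.mem_univ _))
        · unfold Graph.cross at he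
          obtain ⟨⟨a, b⟩, hab, rfl⟩ := Finset.mem_image.1 he
          refine ⟨b, Sym2.mem_mk_right _ _, ?_⟩
          rw [hF, Finset.mem_sdiff]
          exact fun hc => hc.2 (Finset.mem_product.1 hab).2
      have : QB pm p x B U ↔ QB pm p x B U' := by
        unfold QB
        constructor
        · rintro ⟨a1, a2⟩
          refine ⟨fun e he => ?_, fun e he => ?_⟩
          · rw [← hout e (Finset.mem_union_left _ he)]; exact a1 e he
          · rw [← hout e (Finset.mem_union_right _ he)]; exact a2 e he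
        · rintro ⟨a1, a2⟩
          refine ⟨fun e he => ?_, fun e he => ?_⟩
          · rw [hout e (Finset.mem_union_left _ he)]; exact a1 e he
          · rw [hout e (Finset.mem_union_right _ he)]; exact a2 e he
      rw [propext this]
  have hbE : ∀ B : Finset (Fin n), BM (fun U : Ev n => Real.exp (-(pm * (l + 1) * B.card)) *
      ind (bigV pm s U F = B)) := fun B => (BM.const _).mul (hbB B)
  calc Ex (fun U : Ev n => ind (PE pm p s x U)) ≤ _ := h2
    _ = ∑ B ∈ F.powerset, Ex (fun U : Ev n => ind (bigV pm s U F = B) * ind (QB pm p x B U)) :=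
        Ex_sum _ fun B _ => (hbB B).mul (hbQ B)
    _ ≤ ∑ B ∈ F.powerset, p ^ l * Ex (fun U : Ev n => Real.exp (-(pm * (l + 1) * B.card)) *
        ind (bigV pm s U F = B)) := Finset.sum_le_sum h3
    _ = p ^ l * Ex (fun U : Ev n => ∑ B ∈ F.powerset, Real.exp (-(pm * (l + 1) * B.card)) *
        ind (bigV pm s U F = B)) := by
        rw [Ex_sum _ fun B _ => hbE B, Finset.mul_sum]
    _ = _ := by
        congr 1
        apply Ex_congr
        intro U
        rw [Finset.sum_eq_single (bigV pm s U F)]
        · rw [ind_true rfl, mul_one]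
        · intro B _ hB
          rw [ind_false (fun h => hB h.symm), mul_zero]
        · intro h
          exact absurd (Finset.mem_powerset.2 (bigV_sub pm s U F)) h

/-- union bound over the paths -/
theorem union {l : ℕ} (P : (Fin (l + 1) → Fin n) → Ev n → Prop) {b : ℝ} (hb : 0 ≤ b)
    (h : ∀ x, Function.Injective x → env n {U : Ev n | P x U} ≤ ENNReal.ofReal b) :
    env n {U : Ev n | ∃ x, Function.Injective x ∧ P x U} ≤
      ENNReal.ofReal ((n : ℝ) ^ (l + 1) * b) := by
  classical
  have hsub : {U : Ev n | ∃ x, Function.Injective x ∧ P x U} ⊆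
      ⋃ x ∈ (univ : Finset (Fin (l + 1) → Fin n)).filter (fun x => Function.Injective x),
        {U : Ev n | P x U} := by
    rintro U ⟨x, hx, hU⟩
    rw [Set.mem_iUnion₂]
    exact ⟨x, by simp [hx], hU⟩
  calc _ ≤ _ := measure_mono hsub
    _ ≤ _ := measure_biUnion_finset_le _ _
    _ ≤ ∑ _x ∈ (univ : Finset (Fin (l + 1) → Fin n)).filter (fun x => Function.Injective x),
          ENNReal.ofReal b := by
        apply Finset.sum_le_sum
        intro x hx
        exact h x (Finset.mem_filter.1 hx).2
    _ ≤ ∑ _x ∈ (univ : Finset (Fin (l + 1) → Fin n)), ENNReal.ofReal b :=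
        Finset.sum_le_sum_of_subset (Finset.filter_subset _ _)
    _ = ENNReal.ofReal (∑ _x ∈ (univ : Finset (Fin (l + 1) → Fin n)), b) := by
        rw [ENNReal.ofReal_sum_of_nonneg]
        intro _ _
        exact hb
    _ = _ := by
        congr 1
        rw [Finset.sum_const, Finset.card_univ, Fintype.card_fun,
          Fintype.card_fin, Fintype.card_fin, nsmul_eq_mul]
        push_cast
        ring

end MsPath

/-- paths through small clusters are short -/
theorem small_path {pm p a : ℝ} {s l : ℕ} (h0 : 0 ≤ pm) (h1 : pm ≤ 1) (h0' : 0 ≤ p) (h1' : p ≤ 1)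
    (ha : ∀ F : Finset (Fin n), n ≤ F.card + (l + 1) →
      Ex (fun U : Ev n => Real.exp (-(pm * (l + 1) * (bigV pm s U F).card))) ≤ a) :
    env n {U : Ev n | SmallPath pm p s l U} ≤ ENNReal.ofReal (n * (n * p) ^ l * a) := by
  classical
  have ha0 : 0 ≤ a := by
    refine le_trans (Ex_nonneg fun U => (Real.exp_pos _).le) (ha univ ?_)
    rw [Finset.card_univ, Fintype.card_fin]
    omega
  have h := MsPath.union (n := n) (l := l) (fun x U => MsPath.PE pm p s x U)
    (b := p ^ l * a) (by positivity) (fun x hx => by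
      apply env_of_Ex {pm, p} (fun U U' hU => MsPath.PE_lvl x hU)
      refine (MsPath.one h0 h1 h0' h1' x hx).trans ?_
      apply mul_le_mul_of_nonneg_left _ (by positivity)
      apply ha
      have hc : (univ.image x).card = l + 1 := by
        rw [Finset.card_image_of_injective _ hx, Finset.card_univ, Fintype.card_fin]
      have := Finset.le_card_sdiff (univ.image x) (univ : Finset (Fin n))
      rw [hc, Finset.card_univ, Fintype.card_fin] at this
      omega)
  have e : (n : ℝ) * (n * p) ^ l * a = (n : ℝ) ^ (l + 1) * (p ^ l * a) := by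
    rw [mul_pow]; ring
  rw [e]
  exact h

/-- long paths below the critical level -/
theorem long_path {p : ℝ} {l : ℕ} (h0 : 0 ≤ p) (h1 : p ≤ 1) :
    env n {U : Ev n | LongPath p l U} ≤ ENNReal.ofReal (n * (n * p) ^ l) := by
  classical
  have h := MsPath.union (n := n) (l := l)
    (fun x U => ∀ i : Fin l, U s(x i.castSucc, x i.succ) ≤ p)
    (b := p ^ l) (by positivity) (fun x hx => by
      have h2 := env_box3 (n := n) h0 h1 h0 h1 ∅ (MsPath.pe x) ∅
        (Finset.disjoint_empty_left _) (Finset.disjoint_empty_left _)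
        (Finset.disjoint_empty_right _)
      have c1 : (MsPath.pe x).card = l := card_path_edges x hx
      rw [c1, Finset.card_empty, pow_zero, one_mul, pow_zero, mul_one] at h2
      refine (measure_mono ?_).trans h2
      intro U hU
      refine ⟨by simp, ?_, by simp⟩
      intro e he
      unfold MsPath.pe at he
      obtain ⟨i, _, rfl⟩ := Finset.mem_image.1 he
      exact hU i)
  have e : (n : ℝ) * (n * p) ^ l = (n : ℝ) ^ (l + 1) * p ^ l := by
    rw [mul_pow]; ring
  rw [e]
  exact h

/-- the number of large clusters -/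
theorem num_big {pm lam : ℝ} {s Nb : ℕ} (hpm : pm = (1 - lam) / n) (hlam : 0 < lam)
    (hlam1 : lam ≤ 1) (hs : 1 ≤ s) (hn : 1 ≤ n) (hNb : 1 ≤ Nb) :
    env n {U : Ev n | Nb < (blks (GU U pm) s).card} ≤
      ENNReal.ofReal (4 * n / (lam * s ^ 2 * Nb)) := by
  classical
  have hn0 : (1 : ℝ) ≤ n := by exact_mod_cast hn
  have hs0 : (1 : ℝ) ≤ s := by exact_mod_cast hs
  have hN0 : (1 : ℝ) ≤ Nb := by exact_mod_cast hNb
  have h0 : 0 ≤ pm := by
    rw [hpm]; exact div_nonneg (by linarith) (by linarith)
  have h1 : pm ≤ 1 := by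
    rw [hpm, div_le_one (by linarith)]; linarith
  have hp : n * pm ≤ 1 - lam := by
    rw [hpm, mul_div_cancel₀ _ (by linarith : (n : ℝ) ≠ 0)]
  have hbm : ∀ v : Fin n, BM (fun U : Ev n => ind (s ≤ (rch pm U {v} (univ.erase v)).card)) :=
    fun v => Rch2.bm pm {v} (univ.erase v) (fun j => ind (s ≤ j))
  have hbc : ∀ v : Fin n, BM (fun U : Ev n =>
      1 / (s : ℝ) * ((rch pm U {v} (univ.erase v)).card : ℝ)) :=
    fun v => Rch2.bm pm {v} (univ.erase v) (fun j => 1 / (s : ℝ) * (j : ℝ))
  have hE : Ex (fun U : Ev n => ∑ v, ind (s ≤ (rch pm U {v} (univ.erase v)).card)) ≤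
      n * (1 / s * (4 / lam)) := by
    rw [Ex_sum _ (fun v _ => hbm v)]
    calc ∑ v : Fin n, Ex (fun U : Ev n => ind (s ≤ (rch pm U {v} (univ.erase v)).card)) ≤
          ∑ _v : Fin n, 1 / (s : ℝ) * (4 / lam) := by
          apply Finset.sum_le_sum
          intro v _
          have h2 := Count.size (n := n) h0 h1 hlam hlam1 hp v
          refine (Ex_mono (hbm v) (hbc v) ?_).trans ?_
          · intro U
            by_cases hc : s ≤ (rch pm U {v} (univ.erase v)).card
            · rw [ind_true hc, one_div, inv_mul_eq_div, le_div_iff₀ (by linarith), one_mul]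
              exact_mod_cast hc
            · rw [ind_false hc]; positivity
          · rw [Ex_const_mul]
            exact mul_le_mul_of_nonneg_left h2 (by positivity)
      _ = _ := by
          rw [Finset.sum_const, Finset.card_univ, Fintype.card_fin, nsmul_eq_mul]
  have h := env_markov (BM.sum _ (fun v _ => hbm v))
    (fun U => Finset.sum_nonneg (fun v _ => ind_nonneg _)) (t := (Nb : ℝ) * s) (by positivity) hE
  have e : (n : ℝ) * (1 / s * (4 / lam)) / (Nb * s) = 4 * n / (lam * s ^ 2 * Nb) := by
    field_simp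
  rw [e] at h
  refine le_trans (measure_mono ?_) h
  intro U hU
  rw [Set.mem_ofPred_eq] at hU ⊢
  rw [← Count.card_gd]
  have h3 := Graph.union_card (G := GU U pm) (s0 := s) (Finset.Subset.refl (blks (GU U pm) s))
  have h4 : (blks (GU U pm) s).biUnion id ⊆ gd (GU U pm) s := by
    intro u hu
    rw [Finset.mem_biUnion] at hu
    obtain ⟨S, hS, hu⟩ := hu
    exact Graph.blk_sub hS hu
  have h5 : Nb * s ≤ (gd (GU U pm) s).card :=
    (Nat.mul_le_mul_right s hU.le).trans (h3.trans (Finset.card_le_card h4))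
  exact_mod_cast h5

end

end Pool.Agent.TH972.U
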