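import Pool.Agent.TH972.U.MsEnv
import Pool.Agent.TH972.U.MsDet
import Pool.Agent.TH972.U.AvSum

/-!
# Typical balls, low temperatures
(job RSTRE V-MsTyp of helper972, written by helper576)
-/

set_option autoImplicit false
set_option linter.unusedSectionVars false

namespace Pool.Agent.TH972.U

open Finset MeasureTheory Pool.Agent.W842.RST Pool.Agent.TH972 Filter Topology

noncomputable section

namespace MsTyp

variable {n : ℕ}

/-- expected number of the vertices with a property -/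
theorem sum_GG_ge {κ : Sym2 (Fin n) → ℝ} (hκ : ∀ e, 0 < κ e)
    (A : Fin n → SimpleGraph (Fin n) → Prop) (G : SimpleGraph (Fin n) → Prop) {c : ℝ}
    (h : ∀ T : SimpleGraph (Fin n), T.IsTree → G T →
      c ≤ ((open Classical in univ.filter (fun v => A v T)).card : ℝ)) :
    c * GG κ G ≤ ∑ v, GG κ (A v) := by
  classical
  unfold GG
  rw [← Finset.sum_div, ← mul_div_assoc]
  apply div_le_div_of_nonneg_right _ (sumT_nonneg hκ _)
  have e1 : ∀ B : SimpleGraph (Fin n) → Prop, sumT κ B =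
      ∑ T : SimpleGraph (Fin n), if T.IsTree ∧ B T then wT κ T else 0 := by
    intro B
    unfold sumT
    rw [Finset.sum_filter]
  simp only [e1]
  rw [Finset.sum_comm, Finset.mul_sum]
  apply Finset.sum_le_sum
  intro T _
  by_cases hT : T.IsTree
  · have e2 : ∑ v : Fin n, (if T.IsTree ∧ A v T then wT κ T else 0) =
        ((univ.filter (fun v => A v T)).card : ℝ) * wT κ T := by
      rw [← nsmul_eq_mul, ← Finset.sum_const, Finset.sum_filter]
      apply Finset.sum_congr rfl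
      intro v _
      simp only [hT, true_and]
    rw [e2]
    by_cases hG : G T
    · rw [if_pos ⟨hT, hG⟩]
      have h1 := h T hT hG
      refine mul_le_mul_of_nonneg_right ?_ (wT_pos hκ T).le
      refine h1.trans (le_of_eq ?_)
      congr 2
    · rw [if_neg (fun h => hG h.2), mul_zero]
      have := (wT_pos hκ T).le
      positivity
  · rw [if_neg (fun h => hT h.1), mul_zero]
    apply Finset.sum_nonneg
    intro v _
    rw [if_neg (fun h => hT h.1)]

/-- the exponential weights at two levels -/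
theorem bad_exp {β : ℝ} (hβ : 0 ≤ β) (U : Ev n) {p p' : ℝ} (hpp : p ≤ p') (hn : (1 : ℝ) ≤ n)
    (h : 7 * Real.log n ≤ β * (p' - p)) :
    GG (fun e => wexp β (U e)) (fun T => ¬ Good U p p' T) ≤ 1 / (n : ℝ) ^ 3 := by
  have hn0 : (0 : ℝ) < n := by linarith
  have h1 := GG_bad_le (n := n) (κ := fun e => wexp β (U e)) (fun e => wexp_pos _ _) U hpp
    (δ := 1 / (n : ℝ) ^ 7) (by positivity) (by
      intro e f he hf
      have e7 : 1 / (n : ℝ) ^ 7 = Real.exp (-(7 * Real.log n)) := by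
        rw [Real.exp_neg, one_div]
        congr 1
        rw [show 7 * Real.log (n : ℝ) = ((7 : ℕ) : ℝ) * Real.log n by norm_num,
          Real.exp_nat_mul, Real.exp_log hn0]
      rw [e7]
      unfold wexp
      rw [← Real.exp_add]
      apply Real.exp_le_exp.2
      have h2 : β * (p' - p) ≤ β * (U f - U e) := mul_le_mul_of_nonneg_left (by linarith) hβ
      linarith [mul_sub β (U f) (U e)])
  refine h1.trans (le_of_eq ?_)
  field_simp

open Classical in
theorem ball_mono (T : SimpleGraph (Fin n)) (v : Fin n) {r r' : ℕ} (h : r ≤ r') :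
    ball T v r ⊆ ball T v r' := by
  intro u hu
  unfold ball at hu ⊢
  rw [Finset.mem_filter] at hu ⊢
  obtain ⟨_, p, hp⟩ := hu
  exact ⟨Finset.mem_univ _, p, hp.trans h⟩

end MsTyp

open MsTyp

/-- the ball volume for low temperatures -/
theorem mst_typ {ε : ℝ} (hε : 0 < ε) (hε1 : ε ≤ 1 / 100) : ∀ᶠ n : ℕ in atTop, ∀ β : ℝ,
    (n : ℝ) ^ (4 / 3 - ε) ≤ β →
    (1 - 20 / Real.log n) * n ≤ ∑ v, avgw (wexp β) n (fun T =>
      (n : ℝ) ^ (1 - 15 * ε) ≤ (ball T v ⌊(n : ℝ) ^ (1 / 3 - ε)⌋₊).card) := by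
  classical
  have hlog : ∀ᶠ n : ℕ in atTop, 70 * Real.log n ≤ (n : ℝ) ^ ε := by
    have h1 := (isLittleO_log_rpow_atTop hε).bound (c := 1 / 70) (by norm_num)
    have h2 := (tendsto_natCast_atTop_atTop (R := ℝ)).eventually h1
    filter_upwards [h2, eventually_ge_atTop 1] with n hn hn1
    have hn1' : (1 : ℝ) ≤ n := by exact_mod_cast hn1
    have hl : 0 ≤ Real.log n := Real.log_nonneg hn1'
    rw [Real.norm_of_nonneg hl, Real.norm_of_nonneg (by positivity)] at hn
    linarith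
  filter_upwards [mst_env hε hε1, hlog, eventually_ge_atTop 20] with n henv hL70 hn20 β hβ
  obtain ⟨N, m, l, l1, Nb, s, hNb1, hN, hlev, hr, hNb, hbad⟩ := henv
  have hn20' : (20 : ℝ) ≤ n := by exact_mod_cast hn20
  have hn0 : (0 : ℝ) < n := by linarith
  have hn1 : (1 : ℝ) ≤ n := by linarith
  have hne : Nonempty (Fin n) := ⟨⟨0, by omega⟩⟩
  obtain ⟨L, hLd⟩ : ∃ L : ℝ, L = Real.log n := ⟨_, rfl⟩
  rw [← hLd] at hL70 hN hlev hbad ⊢
  have hL1 : 1 ≤ L := by
    rw [hLd, Real.le_log_iff_exp_le hn0]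
    have := Real.exp_one_lt_d9
    linarith
  have hLn : L ≤ n := by
    rw [hLd]
    have := Real.log_le_sub_one_of_pos hn0
    linarith
  have hL0 : 0 < L := by linarith
  have hβ0 : 0 ≤ β := le_trans (by positivity) hβ
  set θ0 : ℝ := (n : ℝ) ^ (-(1 / 3) + 2 * ε) with hθ0
  have hθ0p : 0 < θ0 := Real.rpow_pos_of_pos hn0 _
  obtain ⟨t, htd⟩ : ∃ t : ℕ, t = ⌈L⌉₊ := ⟨_, rfl⟩
  have ht1 : L ≤ t := by rw [htd]; exact Nat.le_ceil _
  have ht2 : (t : ℝ) ≤ L + 1 := by rw [htd]; exact (Nat.ceil_lt_add_one hL0.le).le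
  have ht0 : (0 : ℝ) < t := by linarith
  obtain ⟨r, hrd⟩ : ∃ r : ℕ, r = 4 * (l + 2 * m * N) + l1 := ⟨_, rfl⟩
  rw [← hrd] at hr
  have hrR : r ≤ ⌊(n : ℝ) ^ (1 / 3 - ε)⌋₊ := Nat.le_floor (by linarith)
  have hε0 : (0 : ℝ) < (n : ℝ) ^ ε := Real.rpow_pos_of_pos hn0 _
  have key := avgw_sum_ge (n := n) (w := wexp β) (wexp_pos _) (wexp_meas _)
    (fun v T => (n : ℝ) ^ (1 - 15 * ε) ≤ (ball T v ⌊(n : ℝ) ^ (1 / 3 - ε)⌋₊).card)
    {U : Ev n | ¬ EnvT ((1 - (n : ℝ) ^ (-(1 / 3) + 3 * ε)) / n)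
        ((1 - (n : ℝ) ^ (-(1 / 3) + 3 * ε) / 2) / n) θ0 s N m l l1 Nb U}
    (η := 10 / L) (δ := 2 / L) (by positivity) (by positivity) hbad ?_
  · refine le_trans ?_ key
    apply mul_le_mul_of_nonneg_right _ hn0.le
    have e1 : 20 / L = 2 / L + 10 / L + 8 / L := by ring
    have e2 : 0 ≤ 8 / L := by positivity
    linarith
  -- a good environment
  intro U hU
  have H : EnvT ((1 - (n : ℝ) ^ (-(1 / 3) + 3 * ε)) / n)
        ((1 - (n : ℝ) ^ (-(1 / 3) + 3 * ε) / 2) / n) θ0 s N m l l1 Nb U := by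
    by_contra hcon
    exact hU hcon
  set pm : ℝ := (1 - (n : ℝ) ^ (-(1 / 3) + 3 * ε)) / n with hpm
  set pm' : ℝ := (1 - (n : ℝ) ^ (-(1 / 3) + 3 * ε) / 2) / n with hpm'
  obtain ⟨lam, hlam⟩ : ∃ lam : ℝ, lam = (n : ℝ) ^ (-(1 / 3) + 3 * ε) := ⟨_, rfl⟩
  have hlam0 : 0 < lam := by rw [hlam]; exact Real.rpow_pos_of_pos hn0 _
  rw [← hlam] at hpm hpm'
  -- the products of `β` and the distances of the levels
  have hb1 : 7 * Real.log n ≤ β * (θ0 / 10 / n) := by
    have e1 : (n : ℝ) ^ (4 / 3 - ε) * (θ0 / 10 / n) = (n : ℝ) ^ ε / 10 := by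
      have e2 : (n : ℝ) ^ (4 / 3 - ε) * θ0 = (n : ℝ) ^ ε * n := by
        rw [hθ0, ← Real.rpow_add hn0]
        conv_rhs => rw [← Real.rpow_one (n : ℝ), ← Real.rpow_mul hn0.le]
        rw [← Real.rpow_add hn0]
        congr 1
        ring
      have e3 : (n : ℝ) ^ (4 / 3 - ε) * (θ0 / 10 / n) =
          ((n : ℝ) ^ (4 / 3 - ε) * θ0) / 10 / n := by ring
      rw [e3, e2, mul_div_right_comm, mul_div_assoc, div_self hn0.ne', mul_one]
    have h1 : (n : ℝ) ^ (4 / 3 - ε) * (θ0 / 10 / n) ≤ β * (θ0 / 10 / n) :=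
      mul_le_mul_of_nonneg_right hβ (by positivity)
    rw [← hLd]
    linarith
  have hb2 : 7 * Real.log n ≤ β * (lam / 2 / n) := by
    refine hb1.trans (mul_le_mul_of_nonneg_left ?_ hβ0)
    apply div_le_div_of_nonneg_right _ hn0.le
    have h1 : θ0 ≤ lam := by
      rw [hθ0, hlam]
      exact Real.rpow_le_rpow_of_exponent_le hn1 (by linarith)
    linarith
  -- all levels are good with large probability
  obtain ⟨B, hB⟩ : ∃ B : ℕ → SimpleGraph (Fin n) → Prop, B = fun i T =>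
      if i ≤ N then Good U (Pool.Agent.W842.RST.lev n (θ0 * (11 / 10) ^ i))
        (Pool.Agent.W842.RST.lev n (11 / 10 * (θ0 * (11 / 10) ^ i))) T else Good U pm pm' T :=
    ⟨_, rfl⟩
  have hBi : ∀ i, GG (fun e => wexp β (U e)) (fun T => ¬ B i T) ≤ 1 / (n : ℝ) ^ 3 := by
    intro i
    by_cases hi : i ≤ N
    · have e1 : (fun T : SimpleGraph (Fin n) => ¬ B i T) = fun T =>
          ¬ Good U (Pool.Agent.W842.RST.lev n (θ0 * (11 / 10) ^ i))
            (Pool.Agent.W842.RST.lev n (11 / 10 * (θ0 * (11 / 10) ^ i))) T := by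
        funext T
        rw [hB]
        simp only [if_pos hi]
      rw [e1]
      have h11 : (1 : ℝ) ≤ (11 / 10) ^ i := one_le_pow₀ (by norm_num)
      have hd : Pool.Agent.W842.RST.lev n (11 / 10 * (θ0 * (11 / 10) ^ i)) -
          Pool.Agent.W842.RST.lev n (θ0 * (11 / 10) ^ i) = θ0 * (11 / 10) ^ i / 10 / n := by
        unfold Pool.Agent.W842.RST.lev
        field_simp
        ring
      have hd2 : θ0 / 10 / n ≤ θ0 * (11 / 10) ^ i / 10 / n := by
        apply div_le_div_of_nonneg_right _ hn0.le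
        apply div_le_div_of_nonneg_right _ (by norm_num)
        nlinarith
      have hd3 : 0 ≤ θ0 / 10 / n := by positivity
      apply bad_exp hβ0 U _ hn1
      · rw [hd]
        exact hb1.trans (mul_le_mul_of_nonneg_left hd2 hβ0)
      · linarith
    · have e1 : (fun T : SimpleGraph (Fin n) => ¬ B i T) = fun T => ¬ Good U pm pm' T := by
        funext T
        rw [hB]
        simp only [if_neg hi]
      rw [e1]
      have hd : pm' - pm = lam / 2 / n := by
        rw [hpm, hpm']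
        ring
      have hd3 : 0 ≤ lam / 2 / n := by positivity
      apply bad_exp hβ0 U _ hn1
      · rw [hd]; exact hb2
      · linarith
  obtain ⟨G, hG⟩ : ∃ G : SimpleGraph (Fin n) → Prop, G = fun T => ∀ i ∈ range (N + 2), B i T :=
    ⟨_, rfl⟩
  have hGG : 1 - 1 / L ≤ GG (fun e => wexp β (U e)) G := by
    have h1 := GG_ge (n := n) (κ := fun e => wexp β (U e)) (fun e => wexp_pos _ _) (range (N + 2)) G B
      (fun T _ hT => by rw [hG]; exact hT)
    refine le_trans ?_ h1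
    have h2 : ∑ i ∈ range (N + 2), GG (fun e => wexp β (U e)) (fun T => ¬ B i T) ≤
        ∑ _i ∈ range (N + 2), 1 / (n : ℝ) ^ 3 := Finset.sum_le_sum fun i _ => hBi i
    rw [Finset.sum_const, Finset.card_range, nsmul_eq_mul] at h2
    push_cast at h2
    have h3 : ((N : ℝ) + 2) * (1 / (n : ℝ) ^ 3) ≤ 1 / L := by
      rw [mul_one_div, div_le_div_iff₀ (by positivity) hL0, one_mul]
      have h4 : (N : ℝ) + 2 ≤ 14 * n := by linarith
      have h5 : ((N : ℝ) + 2) * L ≤ 14 * n * n := mul_le_mul h4 hLn hL0.le (by linarith)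
      have h6 : 14 * (n : ℝ) * n ≤ n * (n * n) := by nlinarith [mul_pos hn0 hn0]
      calc ((N : ℝ) + 2) * L ≤ n * (n * n) := h5.trans h6
        _ = (n : ℝ) ^ 3 := by ring
    linarith
  -- the covering
  have hcov : ∀ T : SimpleGraph (Fin n), T.IsTree → G T → (n : ℝ) * (1 - 1 / L) ≤
      ((univ.filter (fun v =>
        (n : ℝ) ^ (1 - 15 * ε) ≤ (ball T v ⌊(n : ℝ) ^ (1 / 3 - ε)⌋₊).card)).card : ℝ) := by
    intro T hT hGT
    rw [hG] at hGT
    have hgood : ∀ i ≤ N, Good U (Pool.Agent.W842.RST.lev n (θ0 * (11 / 10) ^ i))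
        (Pool.Agent.W842.RST.lev n (11 / 10 * (θ0 * (11 / 10) ^ i))) T := by
      intro i hi
      have := hGT i (Finset.mem_range.2 (by omega))
      rw [hB] at this
      simpa only [if_pos hi] using this
    have hg : Good U pm pm' T := by
      have := hGT (N + 1) (Finset.mem_range.2 (by omega))
      rw [hB] at this
      simpa only [if_neg (by omega : ¬ N + 1 ≤ N)] using this
    have hc := mst_cover H hNb1 T hT hgood hg t
    rw [← hrd] at hc
    have hc' : ((univ.filter (fun v => Nb * t * (ball T v r).card < n)).card : ℝ) * t ≤ n := by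
      exact_mod_cast hc
    have hc2 : ((univ.filter (fun v => Nb * t * (ball T v r).card < n)).card : ℝ) ≤ n / L := by
      rw [le_div_iff₀ hL0]
      refine le_trans ?_ hc'
      exact mul_le_mul_of_nonneg_left ht1 (Nat.cast_nonneg _)
    have hsub : univ.filter (fun v => ¬ (Nb * t * (ball T v r).card < n)) ⊆
        univ.filter (fun v =>
          (n : ℝ) ^ (1 - 15 * ε) ≤ (ball T v ⌊(n : ℝ) ^ (1 / 3 - ε)⌋₊).card) := by
      intro v hv
      rw [Finset.mem_filter] at hv ⊢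
      refine ⟨Finset.mem_univ _, ?_⟩
      have h1 : n ≤ Nb * t * (ball T v r).card := not_lt.1 hv.2
      have h2 : (n : ℝ) ≤ Nb * t * (ball T v r).card := by exact_mod_cast h1
      have h3 : ((ball T v r).card : ℝ) ≤ (ball T v ⌊(n : ℝ) ^ (1 / 3 - ε)⌋₊).card := by
        exact_mod_cast Finset.card_le_card (ball_mono T v hrR)
      refine le_trans ?_ h3
      have h4 : (Nb : ℝ) * t ≤ (n : ℝ) ^ (15 * ε) := by
        have e1 : (n : ℝ) ^ (15 * ε) = (n : ℝ) ^ (14 * ε) * (n : ℝ) ^ ε := by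
          rw [← Real.rpow_add hn0]
          congr 1
          ring
        rw [e1]
        apply mul_le_mul hNb _ ht0.le (by positivity)
        linarith
      have h5 : (n : ℝ) ≤ (n : ℝ) ^ (15 * ε) * (ball T v r).card := by
        refine h2.trans ?_
        exact mul_le_mul_of_nonneg_right h4 (Nat.cast_nonneg _)
      have h6 : (n : ℝ) ^ (1 - 15 * ε) = n / (n : ℝ) ^ (15 * ε) := by
        rw [Real.rpow_sub hn0, Real.rpow_one]
      rw [h6, div_le_iff₀ (by positivity)]
      linarith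
    have hcard := Finset.card_le_card hsub
    have hadd := Finset.card_filter_add_card_filter_not (s := (univ : Finset (Fin n)))
      (fun v => Nb * t * (ball T v r).card < n)
    rw [Finset.card_univ, Fintype.card_fin] at hadd
    have hadd' : ((univ.filter (fun v => Nb * t * (ball T v r).card < n)).card : ℝ) +
        ((univ.filter (fun v => ¬ (Nb * t * (ball T v r).card < n))).card : ℝ) = n := by
      exact_mod_cast hadd
    have hcard' : ((univ.filter (fun v => ¬ (Nb * t * (ball T v r).card < n))).card : ℝ) ≤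
        ((univ.filter (fun v =>
          (n : ℝ) ^ (1 - 15 * ε) ≤ (ball T v ⌊(n : ℝ) ^ (1 / 3 - ε)⌋₊).card)).card : ℝ) := by
      exact_mod_cast hcard
    have e1 : (n : ℝ) * (1 - 1 / L) = n - n / L := by ring
    rw [e1]
    linarith
  have hL11 : 1 / L ≤ 1 := by rw [div_le_one hL0]; exact hL1
  have hfin := sum_GG_ge (κ := fun e => wexp β (U e)) (fun e => wexp_pos _ _)
    (fun v T => (n : ℝ) ^ (1 - 15 * ε) ≤ (ball T v ⌊(n : ℝ) ^ (1 / 3 - ε)⌋₊).card) G
    (c := (n : ℝ) * (1 - 1 / L)) (fun T hT hGT => by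
      refine (hcov T hT hGT).trans (le_of_eq ?_)
      congr 2)
  refine le_trans ?_ hfin
  have h7 : (n : ℝ) * (1 - 1 / L) * (1 - 1 / L) ≤
      (n : ℝ) * (1 - 1 / L) * GG (fun e => wexp β (U e)) G :=
    mul_le_mul_of_nonneg_left hGG (mul_nonneg hn0.le (by linarith))
  refine le_trans ?_ h7
  have e2 : (1 - 2 / L) * (n : ℝ) = (n : ℝ) * (1 - 1 / L) * (1 - 1 / L) - n * (1 / L) ^ 2 := by
    ring
  rw [e2]
  have : 0 ≤ (n : ℝ) * (1 / L) ^ 2 := by positivity
  linarith

end

end Pool.Agent.TH972.U
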