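import Pool.Agent.TH972.U.Wil

/-!
# Many random vertices (written by helper359, job 3263 of helper972)
-/

set_option autoImplicit false
set_option linter.unusedSectionVars false

namespace Pool.Agent.TH972.U

open Finset

noncomputable section

variable {V : Type} [Fintype V] [DecidableEq V]

namespace Multi

theorem conn_symm {f : V → Option V} {x y : V} (h : Conn f x y) : Conn f y x := by
  obtain ⟨z, hz, hz'⟩ := h
  exact ⟨z, hz', hz⟩

theorem mt_image {K : ℕ} (f : V → Option V) (x : V) (W : Fin K → V) :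
    Mt f x (univ.image W) ↔ ∃ j, Conn f x (W j) := by
  unfold Mt
  constructor
  · rintro ⟨w, hw, h⟩
    obtain ⟨j, -, rfl⟩ := mem_image.1 hw
    exact ⟨j, h⟩
  · rintro ⟨j, h⟩
    exact ⟨W j, mem_image_of_mem _ (mem_univ _), h⟩

/-- index `i` is isolated -/
def Iso {K : ℕ} (f : V → Option V) (W : Fin K → V) (i : Fin K) : Prop :=
  ∀ j, j ≠ i → ¬ Conn f (W i) (W j)

open Classical in
theorem isoN_sum {K : ℕ} (f : V → Option V) (W : Fin K → V) :
    (isoN f W : ℝ) = ∑ i, if Iso f W i then (1 : ℝ) else 0 := by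
  rw [Finset.sum_boole]
  unfold isoN Iso
  congr

theorem iso_perm {K : ℕ} (f : V → Option V) (W : Fin K → V) (σ : Equiv.Perm (Fin K))
    (i : Fin K) : Iso f (W ∘ σ) i ↔ Iso f W (σ i) := by
  unfold Iso
  constructor
  · intro h j hj
    have h1 := h (σ.symm j) (by
      intro e
      apply hj
      rw [← e, Equiv.apply_symm_apply])
    simpa using h1
  · intro h j hj
    exact h (σ j) (fun e => hj (σ.injective e))

theorem isoN_perm {K : ℕ} (f : V → Option V) (W : Fin K → V) (σ : Equiv.Perm (Fin K)) :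
    (isoN f (W ∘ σ) : ℝ) = isoN f W := by
  classical
  rw [isoN_sum, isoN_sum]
  simp only [iso_perm]
  exact Equiv.sum_comp σ (fun i => if Iso f W i then (1 : ℝ) else 0)

theorem iso_cons_zero {K : ℕ} (f : V → Option V) (x : V) (W : Fin K → V) :
    Iso f (Fin.cons x W : Fin (K + 1) → V) 0 ↔ ¬ Mt f x (univ.image W) := by
  rw [mt_image]
  unfold Iso
  constructor
  · rintro h ⟨j, hj⟩
    have := h j.succ (Fin.succ_ne_zero j)
    rw [Fin.cons_zero, Fin.cons_succ] at this
    exact this hj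
  · intro h j hj
    obtain ⟨k, rfl⟩ := Fin.exists_succ_eq.2 hj
    rw [Fin.cons_zero, Fin.cons_succ]
    exact fun e => h ⟨k, e⟩

theorem iso_cons_succ {K : ℕ} (f : V → Option V) (x : V) (W : Fin K → V)
    (h : ¬ Mt f x (univ.image W)) (i : Fin K) :
    Iso f (Fin.cons x W : Fin (K + 1) → V) i.succ ↔ Iso f W i := by
  rw [mt_image] at h
  unfold Iso
  constructor
  · intro h1 j hj
    have := h1 j.succ (fun e => hj (Fin.succ_injective _ e))
    rw [Fin.cons_succ, Fin.cons_succ] at this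
    exact this
  · intro h1 j hj
    rw [Fin.cons_succ]
    rcases Fin.eq_zero_or_eq_succ j with rfl | ⟨k, rfl⟩
    · rw [Fin.cons_zero]
      exact fun e => h ⟨i, conn_symm e⟩
    · rw [Fin.cons_succ]
      exact h1 k (fun e => hj (e ▸ rfl))

theorem isoN_cons {K : ℕ} (f : V → Option V) (x : V) (W : Fin K → V)
    (h : ¬ Mt f x (univ.image W)) :
    (isoN f (Fin.cons x W : Fin (K + 1) → V) : ℝ) = isoN f W + 1 := by
  classical
  rw [isoN_sum, isoN_sum, Fin.sum_univ_succ, if_pos ((iso_cons_zero f x W).2 h), add_comm]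
  congr 1
  apply sum_congr rfl
  intro i _
  simp only [iso_cons_succ f x W h]

theorem mem_pi {K : ℕ} {B : Finset V} {W : Fin K → V} :
    W ∈ Fintype.piFinset (fun _ : Fin K => B) ↔ ∀ i, W i ∈ B := by
  rw [Fintype.mem_piFinset]

theorem sum_cons {K : ℕ} (B : Finset V) (F : (Fin (K + 1) → V) → ℝ) :
    ∑ W ∈ Fintype.piFinset (fun _ : Fin K => B), ∑ x ∈ B, F (Fin.cons x W : Fin (K + 1) → V) =
      ∑ W ∈ Fintype.piFinset (fun _ : Fin (K + 1) => B), F W := by
  rw [← Finset.sum_product']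
  refine Finset.sum_bij' (fun p _ => (Fin.cons p.2 p.1 : Fin (K + 1) → V))
    (fun W _ => (Fin.tail W, W 0)) ?_ ?_ ?_ ?_ ?_
  · intro p hp
    rw [mem_product] at hp
    rw [mem_pi]
    intro i
    rcases Fin.eq_zero_or_eq_succ i with rfl | ⟨k, rfl⟩
    · rw [Fin.cons_zero]
      exact hp.2
    · rw [Fin.cons_succ]
      exact mem_pi.1 hp.1 k
  · intro W hW
    rw [mem_product]
    exact ⟨mem_pi.2 fun i => mem_pi.1 hW i.succ, mem_pi.1 hW 0⟩
  · intro p _
    simp
  · intro W _
    simp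
  · intro p _
    rfl

open Classical in
theorem sum_swap {K : ℕ} (B : Finset V) (f : V → Option V) (c : ℝ) (i : Fin (K + 1)) :
    ∑ W ∈ Fintype.piFinset (fun _ : Fin (K + 1) => B),
      (if Iso f W i ∧ (isoN f W : ℝ) < c then (1 : ℝ) else 0) =
    ∑ W ∈ Fintype.piFinset (fun _ : Fin (K + 1) => B),
      (if Iso f W 0 ∧ (isoN f W : ℝ) < c then (1 : ℝ) else 0) := by
  have hss : ∀ W : Fin (K + 1) → V, (W ∘ Equiv.swap 0 i) ∘ Equiv.swap 0 i = W := by
    intro W
    funext j
    simp
  refine Finset.sum_bij' (fun W _ => W ∘ Equiv.swap 0 i) (fun W _ => W ∘ Equiv.swap 0 i)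
    ?_ ?_ ?_ ?_ ?_
  · intro W hW
    exact mem_pi.2 fun j => mem_pi.1 hW _
  · intro W hW
    exact mem_pi.2 fun j => mem_pi.1 hW _
  · intro W _
    exact hss W
  · intro W _
    exact hss W
  · intro W _
    rw [iso_perm, isoN_perm, Equiv.swap_apply_left]

theorem card_pi (B : Finset V) (K : ℕ) :
    ((Fintype.piFinset (fun _ : Fin K => B)).card : ℝ) = (B.card : ℝ) ^ K := by
  rw [Fintype.card_piFinset_const]
  push_cast
  rfl

open Classical in
theorem count_iso (B : Finset V) (K : ℕ) (f : V → Option V) {η : ℝ} (hη : 0 ≤ η) :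
    ∑ W ∈ Fintype.piFinset (fun _ : Fin K => B), ∑ x ∈ B,
      (if ¬ Mt f x (univ.image W) ∧ (isoN f W : ℝ) < η * K then (1 : ℝ) else 0) ≤
      (η + 1 / (K + 1)) * (B.card : ℝ) ^ (K + 1) := by
  have hK : (0 : ℝ) < (K : ℝ) + 1 := by positivity
  have e1 : ∑ W ∈ Fintype.piFinset (fun _ : Fin K => B), ∑ x ∈ B,
      (if ¬ Mt f x (univ.image W) ∧ (isoN f W : ℝ) < η * K then (1 : ℝ) else 0) =
      ∑ W ∈ Fintype.piFinset (fun _ : Fin (K + 1) => B),
      (if Iso f W 0 ∧ (isoN f W : ℝ) < η * K + 1 then (1 : ℝ) else 0) := by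
    rw [← sum_cons]
    apply sum_congr rfl
    intro W _
    apply sum_congr rfl
    intro x _
    by_cases h : Mt f x (univ.image W)
    · rw [if_neg (fun e => e.1 h), if_neg (fun e => (iso_cons_zero f x W).1 e.1 h)]
    · have e := isoN_cons f x W h
      have e2 : (¬ Mt f x (univ.image W) ∧ (isoN f W : ℝ) < η * K) ↔
          (Iso f (Fin.cons x W : Fin (K + 1) → V) 0 ∧
            (isoN f (Fin.cons x W : Fin (K + 1) → V) : ℝ) < η * K + 1) := by
        rw [iso_cons_zero, e, add_lt_add_iff_right]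
      by_cases h2 : ¬ Mt f x (univ.image W) ∧ (isoN f W : ℝ) < η * K
      · rw [if_pos h2, if_pos (e2.1 h2)]
      · rw [if_neg h2, if_neg (fun e3 => h2 (e2.2 e3))]
  rw [e1]
  set S := ∑ W ∈ Fintype.piFinset (fun _ : Fin (K + 1) => B),
      (if Iso f W 0 ∧ (isoN f W : ℝ) < η * K + 1 then (1 : ℝ) else 0) with hS
  have e2 : ((K : ℝ) + 1) * S = ∑ W ∈ Fintype.piFinset (fun _ : Fin (K + 1) => B),
      ∑ i, (if Iso f W i ∧ (isoN f W : ℝ) < η * K + 1 then (1 : ℝ) else 0) := by
    rw [sum_comm]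
    have : ∀ i : Fin (K + 1), ∑ W ∈ Fintype.piFinset (fun _ : Fin (K + 1) => B),
        (if Iso f W i ∧ (isoN f W : ℝ) < η * K + 1 then (1 : ℝ) else 0) = S := fun i =>
      sum_swap B f _ i
    rw [sum_congr rfl (fun i _ => this i), sum_const, card_univ, Fintype.card_fin, nsmul_eq_mul]
    push_cast
    ring
  have e3 : ((K : ℝ) + 1) * S ≤ (η * K + 1) * (B.card : ℝ) ^ (K + 1) := by
    rw [e2, ← card_pi, mul_comm (η * K + 1), ← nsmul_eq_mul, ← sum_const]
    apply sum_le_sum
    intro W _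
    by_cases h : (isoN f W : ℝ) < η * K + 1
    · have : ∑ i, (if Iso f W i ∧ (isoN f W : ℝ) < η * K + 1 then (1 : ℝ) else 0) =
          isoN f W := by
        refine Eq.trans (sum_congr rfl fun i _ => ?_) (isoN_sum f W).symm
        by_cases hi : Iso f W i
        · rw [if_pos ⟨hi, h⟩, if_pos hi]
        · rw [if_neg (fun e => hi e.1), if_neg hi]
      rw [this]
      exact h.le
    · have : ∑ i, (if Iso f W i ∧ (isoN f W : ℝ) < η * K + 1 then (1 : ℝ) else 0) = 0 := by
        apply sum_eq_zero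
        intro i _
        rw [if_neg (fun e => h e.2)]
      rw [this]
      positivity
  have e4 : S ≤ (η * K + 1) * (B.card : ℝ) ^ (K + 1) / (K + 1) := by
    rw [le_div_iff₀ hK]
    linarith
  refine e4.trans ?_
  rw [div_le_iff₀ hK]
  have e5 : (η + 1 / ((K : ℝ) + 1)) * (B.card : ℝ) ^ (K + 1) * (K + 1) =
      (η * (K + 1) + 1) * (B.card : ℝ) ^ (K + 1) := by
    field_simp
  rw [e5]
  apply mul_le_mul_of_nonneg_right _ (by positivity)
  nlinarith

open Classical in
theorem count_not (B : Finset V) (K : ℕ) (p : V → Prop) :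
    ∑ W ∈ Fintype.piFinset (fun _ : Fin K => B), (if ∀ j, ¬ p (W j) then (1 : ℝ) else 0) =
      ((B.filter (fun u => ¬ p u)).card : ℝ) ^ K := by
  rw [Finset.sum_boole, ← card_pi]
  congr 2
  ext W
  rw [mem_filter, mem_pi, mem_pi]
  constructor
  · intro h i
    exact mem_filter.2 ⟨h.1 i, h.2 i⟩
  · intro h
    exact ⟨fun i => (mem_filter.1 (h i)).1, fun i => (mem_filter.1 (h i)).2⟩

open Classical in
/-- indicator -/
def ind (p : Prop) : ℝ := if p then 1 else 0

theorem ind_pos {p : Prop} (h : p) : ind p = 1 := if_pos h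

theorem ind_neg {p : Prop} (h : ¬ p) : ind p = 0 := if_neg h

theorem ind_nonneg (p : Prop) : 0 ≤ ind p := by
  unfold ind
  split_ifs <;> norm_num

theorem PF_ind (N : Net V) (A : (V → Option V) → Prop) :
    PF N A = EF N ∅ (fun f => ind (A f)) := rfl

theorem EF_const (N : Net V) (c : ℝ) : EF N ∅ (fun _ => c) = c := by
  have h := EF_mul N ∅ c (fun _ => 1)
  rw [EF_one] at h
  simpa using h

end Multi

/-- a random vertex is in the tree of one of `K` random vertices -/
theorem multi (N : Net V) (B : Finset V) (hB : B.Nonempty) (K : ℕ) (Φ : Finset V → ℝ)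
    {L ε1 ε2 η : ℝ} (h0 : 0 ≤ ε1) (hη : 0 ≤ η)
    (h1 : ∀ D : Finset V, L ≤ Φ D → ∑ x ∈ B, surv N D x ≤ ε1 * B.card)
    (h2 : ∑ W ∈ Fintype.piFinset (fun _ : Fin K => B),
      PF N (fun f => η * K ≤ isoN f W ∧ Φ (skel f (univ.image W)) < L) ≤ ε2 * (B.card : ℝ) ^ K) :
    ∑ W ∈ Fintype.piFinset (fun _ : Fin K => B), ∑ x ∈ B,
      PF N (fun f => ¬ Mt f x (univ.image W)) ≤
      (η + 1 / (K + 1) + ε1 + ε2) * (B.card : ℝ) ^ (K + 1) := by
  -- the three parts
  have hpt : ∀ (W : Fin K → V) (x : V), PF N (fun f => ¬ Mt f x (univ.image W)) ≤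
      PF N (fun f => ¬ Mt f x (univ.image W) ∧ (isoN f W : ℝ) < η * K) +
      (PF N (fun f => η * K ≤ isoN f W ∧ Φ (skel f (univ.image W)) < L) +
      EF N ∅ (fun f => Multi.ind (L ≤ Φ (skel f (univ.image W))) *
        (open Classical in if Mt f x (univ.image W) then 0 else 1))) := by
    intro W x
    rw [Multi.PF_ind, Multi.PF_ind, Multi.PF_ind, ← EF_add, ← EF_add]
    apply EF_mono
    intro f _
    have a1 := Multi.ind_nonneg (η * K ≤ isoN f W ∧ Φ (skel f (univ.image W)) < L)
    have a2 : (0 : ℝ) ≤ Multi.ind (L ≤ Φ (skel f (univ.image W))) *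
        (open Classical in if Mt f x (univ.image W) then 0 else 1) := by
      apply mul_nonneg (Multi.ind_nonneg _)
      split_ifs <;> norm_num
    by_cases h : Mt f x (univ.image W)
    · rw [Multi.ind_neg (not_not.2 h), Multi.ind_neg (fun e => e.1 h)]
      linarith
    · rw [Multi.ind_pos h]
      by_cases h3 : (isoN f W : ℝ) < η * K
      · rw [Multi.ind_pos ⟨h, h3⟩]
        linarith
      · rw [Multi.ind_neg (fun e => h3 e.2), if_neg h]
        by_cases h4 : L ≤ Φ (skel f (univ.image W))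
        · rw [Multi.ind_pos h4]
          linarith
        · rw [Multi.ind_neg h4, Multi.ind_pos ⟨not_lt.1 h3, not_le.1 h4⟩]
          linarith
  refine (sum_le_sum fun W _ => sum_le_sum fun x _ => hpt W x).trans ?_
  simp only [sum_add_distrib]
  -- part a
  have ha : ∑ W ∈ Fintype.piFinset (fun _ : Fin K => B), ∑ x ∈ B,
      PF N (fun f => ¬ Mt f x (univ.image W) ∧ (isoN f W : ℝ) < η * K) ≤
      (η + 1 / (K + 1)) * (B.card : ℝ) ^ (K + 1) := by
    have e : ∑ W ∈ Fintype.piFinset (fun _ : Fin K => B), ∑ x ∈ B,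
      PF N (fun f => ¬ Mt f x (univ.image W) ∧ (isoN f W : ℝ) < η * K) =
      EF N ∅ (fun f => ∑ W ∈ Fintype.piFinset (fun _ : Fin K => B), ∑ x ∈ B,
        Multi.ind (¬ Mt f x (univ.image W) ∧ (isoN f W : ℝ) < η * K)) := by
      rw [EF_sum]
      apply sum_congr rfl
      intro W _
      rw [EF_sum]
      rfl
    rw [e, ← Multi.EF_const N ((η + 1 / (K + 1)) * (B.card : ℝ) ^ (K + 1))]
    apply EF_mono
    intro f _
    have h3 := Multi.count_iso B K f hη
    refine le_trans (le_of_eq ?_) h3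
    apply sum_congr rfl
    intro W _
    apply sum_congr rfl
    intro x _
    unfold Multi.ind
    congr
  -- part b
  have hb : ∑ W ∈ Fintype.piFinset (fun _ : Fin K => B), ∑ _x ∈ B,
      PF N (fun f => η * K ≤ isoN f W ∧ Φ (skel f (univ.image W)) < L) ≤
      ε2 * (B.card : ℝ) ^ (K + 1) := by
    simp only [sum_const, nsmul_eq_mul]
    rw [← mul_sum]
    calc _ ≤ (B.card : ℝ) * (ε2 * (B.card : ℝ) ^ K) :=
          mul_le_mul_of_nonneg_left h2 (by positivity)
      _ = _ := by ring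
  -- part c
  have hc : ∑ W ∈ Fintype.piFinset (fun _ : Fin K => B), ∑ x ∈ B,
      EF N ∅ (fun f => Multi.ind (L ≤ Φ (skel f (univ.image W))) *
        (open Classical in if Mt f x (univ.image W) then 0 else 1)) ≤
      ε1 * (B.card : ℝ) ^ (K + 1) := by
    have hW : ∀ W : Fin K → V, ∑ x ∈ B,
        EF N ∅ (fun f => Multi.ind (L ≤ Φ (skel f (univ.image W))) *
          (open Classical in if Mt f x (univ.image W) then 0 else 1)) ≤ ε1 * B.card := by
      intro W
      have e : ∀ x, EF N ∅ (fun f => Multi.ind (L ≤ Φ (skel f (univ.image W))) *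
          (open Classical in if Mt f x (univ.image W) then 0 else 1)) =
          EF N ∅ (fun f => Multi.ind (L ≤ Φ (skel f (univ.image W))) *
            surv N (skel f (univ.image W)) x) := fun x =>
        skel_markov N (univ.image W) x (fun S => Multi.ind (L ≤ Φ S))
      rw [sum_congr rfl (fun x _ => e x), ← EF_sum, ← Multi.EF_const N (ε1 * B.card)]
      apply EF_mono
      intro f _
      rw [← mul_sum]
      by_cases h4 : L ≤ Φ (skel f (univ.image W))
      · rw [Multi.ind_pos h4, one_mul]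
        exact h1 _ h4
      · rw [Multi.ind_neg h4, zero_mul]
        positivity
    refine (sum_le_sum fun W _ => hW W).trans ?_
    rw [sum_const, nsmul_eq_mul, Multi.card_pi]
    apply le_of_eq
    ring
  have e : (η + 1 / ((K : ℝ) + 1) + ε1 + ε2) * (B.card : ℝ) ^ (K + 1) =
      (η + 1 / (K + 1)) * (B.card : ℝ) ^ (K + 1) + (ε2 * (B.card : ℝ) ^ (K + 1) +
        ε1 * (B.card : ℝ) ^ (K + 1)) := by ring
  rw [e]
  exact add_le_add ha (add_le_add hb hc)

open Classical in
/-- lower bound for the volume of the tree of `v` -/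
theorem vol_low (N : Net V) (B : Finset V) (hB : B.Nonempty) (K : ℕ) (v : V) (s : ℕ)
    (hs : s ≤ B.card) :
    PF N (fun f => (B.filter (fun u => Conn f v u)).card ≤ s) * ((1 - s / B.card) ^ K *
      (B.card : ℝ) ^ K) ≤
      ∑ W ∈ Fintype.piFinset (fun _ : Fin K => B), PF N (fun f => ¬ Mt f v (univ.image W)) := by
  have e0 : ∑ W ∈ Fintype.piFinset (fun _ : Fin K => B), PF N (fun f => ¬ Mt f v (univ.image W)) =
      EF N ∅ (fun f => ∑ W ∈ Fintype.piFinset (fun _ : Fin K => B),
        Multi.ind (¬ Mt f v (univ.image W))) := by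
    rw [EF_sum]
    rfl
  rw [e0, Multi.PF_ind, mul_comm, ← EF_mul]
  apply EF_mono
  intro f _
  have hB0 : (0 : ℝ) < B.card := by exact_mod_cast card_pos.2 hB
  have e : ∑ W ∈ Fintype.piFinset (fun _ : Fin K => B),
      Multi.ind (¬ Mt f v (univ.image W)) =
      ((B.filter (fun u => ¬ Conn f v u)).card : ℝ) ^ K := by
    rw [← Multi.count_not]
    apply sum_congr rfl
    intro W _
    have : ¬ Mt f v (univ.image W) ↔ ∀ j, ¬ Conn f v (W j) := by
      rw [Multi.mt_image, not_exists]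
    by_cases h : ∀ j, ¬ Conn f v (W j)
    · rw [if_pos h, Multi.ind_pos (this.2 h)]
    · rw [if_neg h, Multi.ind_neg (fun e => h (this.1 e))]
  rw [e, ← mul_pow]
  by_cases h : (B.filter (fun u => Conn f v u)).card ≤ s
  · rw [Multi.ind_pos h, mul_one]
    have e2 : (1 - (s : ℝ) / B.card) * B.card = B.card - s := by
      field_simp
    rw [e2]
    have h3 : (B.filter (fun u => Conn f v u)).card + (B.filter (fun u => ¬ Conn f v u)).card =
        B.card := Finset.card_filter_add_card_filter_not (fun u => Conn f v u)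
    have h4 : (s : ℝ) ≤ B.card := by exact_mod_cast hs
    apply pow_le_pow_left₀ (by linarith)
    have h5 : ((B.filter (fun u => Conn f v u)).card : ℝ) +
        (B.filter (fun u => ¬ Conn f v u)).card = B.card := by exact_mod_cast h3
    have h6 : ((B.filter (fun u => Conn f v u)).card : ℝ) ≤ s := by exact_mod_cast h
    linarith
  · rw [Multi.ind_neg h, mul_zero]
    positivity

end

end Pool.Agent.TH972.U
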