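import Pool.Agent.TH972.Trees
import Pool.Agent.TH972.Potential

/-!
# Networks with killing: Green function, path masses, forests (definitions)
-/

set_option autoImplicit false
set_option linter.unusedSectionVars false

namespace Pool.Agent.TH972.U

open Finset

noncomputable section

variable {V : Type} [Fintype V] [DecidableEq V]

/-- a network: conductances `κ` and killing rates `k` -/
structure Net (V : Type) where
  κ : Sym2 V → ℝ
  k : V → ℝ
  κ_pos : ∀ e, 0 < κ e
  k_nonneg : ∀ v, 0 ≤ k v
  k_pos : ∃ v, 0 < k v

/-- the energy with killing -/
def EK (N : Net V) (f : V → ℝ) : ℝ := En N.κ f + ∑ x, N.k x * f x ^ 2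

/-- the killed Laplacian outside `D` (and the identity on `D`) -/
def lap (N : Net V) (D : Finset V) : Matrix V V ℝ := fun x y =>
  if x ∈ D ∨ y ∈ D then (if x = y then 1 else 0)
  else if x = y then cs N.κ x + N.k x else - Kc N.κ x y

/-- the Green function of the network, killed on `D` -/
def grn (N : Net V) (D : Finset V) (x y : V) : ℝ :=
  if x ∈ D ∨ y ∈ D then 0 else (lap N D)⁻¹ x y

/-- product of the Green functions along a list, each killed on `D` and on the later vertices -/
def dG (N : Net V) (D : Finset V) : List V → ℝ
  | [] => 1
  | (v :: t) => grn N (D ∪ t.toFinset) v v * dG N D t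

/-- product of the conductances along a list -/
def cpr (N : Net V) : List V → ℝ
  | [] => 1
  | [_] => 1
  | (v :: w :: t) => Kc N.κ v w * cpr N (w :: t)

/-- mass of the simple path `π` from its head to the cemetery, in the network killed on `D` -/
def Imass (N : Net V) (D : Finset V) (π : List V) : ℝ :=
  match π.getLast? with
  | none => 0
  | some z => cpr N π * dG N D π * N.k z

/-- simple paths with `m` edges from `x` outside `D` -/
def spaths (m : ℕ) (x : V) (D : Finset V) : Finset (List V) :=
  ((univ : Finset (Fin (m + 1) → V)).filter (fun p => p 0 = x ∧ Function.Injective p ∧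
    ∀ i, p i ∉ D)).image List.ofFn

/-- probability that the loop-erased path from `x` to the cemetery (in the network killed on `D`)
has at least `m` edges -/
def longP (N : Net V) (D : Finset V) (m : ℕ) (x : V) : ℝ :=
  ∑ j ∈ Finset.Ico m (Fintype.card V), ∑ π ∈ spaths j x D, Imass N D π

/-- rooted spanning forests as functions: `f x = none` iff `x` is a root -/
def IsFor (D : Finset V) (f : V → Option V) : Prop :=
  (∀ x ∈ D, f x = none) ∧ ∀ x, ∃ j : ℕ, (fun o : Option V => o.bind f)^[j] (some x) = none

/-- weight of a forest -/
def wF (N : Net V) (D : Finset V) (f : V → Option V) : ℝ :=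
  ∏ x ∈ univ \ D, (match f x with
    | none => N.k x
    | some y => Kc N.κ x y)

open Classical in
/-- total weight of the forests (with roots on `D`) -/
def Zf (N : Net V) (D : Finset V) : ℝ :=
  ∑ f ∈ univ.filter (fun f : V → Option V => IsFor D f), wF N D f

end

end Pool.Agent.TH972.U
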