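import Pool.Agent.TH972.U.OkDef

/-!
# The choice of the parameters (definitions)
-/

set_option autoImplicit false
set_option linter.unusedSectionVars false

namespace Pool.Agent.TH972.U

noncomputable section

def KL (L : ℝ) : ℕ := ⌈L ^ 9⌉₊
def I0L (L : ℝ) : ℕ := ⌈L ^ 8⌉₊
def IL (L : ℝ) : ℕ := ⌈2 * L ^ 8⌉₊
def aL (L : ℝ) : ℕ := ⌈Real.sqrt (Real.sqrt L)⌉₊
def JL (L : ℝ) : ℕ := ⌈10 * Real.log L⌉₊

/-- the parameters; `L = log n`, and `Z` is a small power of `n` -/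
def prm (n : ℕ) (w : ℝ → ℝ) (gam : ℤ → ℝ) (y Z : ℝ) : Prm n where
  w := w
  gam := gam
  y := y
  η := 1 / Real.log n ^ 3
  K := KL (Real.log n)
  I0 := I0L (Real.log n)
  I := IL (Real.log n)
  a5 := aL (Real.log n)
  J := JL (Real.log n)
  m := ⌈Real.sqrt (n / y) * Z ^ 8⌉₊
  b := Real.log (8 * (JL (Real.log n) + 1))
  lam := Real.sqrt (Real.log n)
  aa := 1 / Real.log n ^ 3 / y * (1 - n * gam (-(aL (Real.log n) : ℤ))) /
    (8 * (5 * (KL (Real.log n) : ℝ)) ^ JL (Real.log n))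

/-- the killing rate -/
def kk (n : ℕ) (y Z : ℝ) : ℝ :=
  Real.sqrt (n / y ^ 3) / Z ^ 4 * (y * Real.log n ^ 3 / n)

/-- the number of attachments -/
def nn (n : ℕ) (y Z : ℝ) : ℕ :=
  ⌊Real.sqrt (Real.log n) * ⌈Real.sqrt (n / y) * Z ^ 8⌉₊ / (60 * y)⌋₊

/-- numerical facts: `L` is large, powers of `L` and related quantities are at most `Z` -/
structure Big (L Z : ℝ) : Prop where
  hL : 10 ^ 40 ≤ L
  h1 : L ^ 200 ≤ Z
  h2 : Real.exp (Real.sqrt L) * L ^ 200 ≤ Z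
  h3 : (5 * (KL L : ℝ)) ^ JL L * L ^ 200 ≤ Z
  h4 : ((1 + L ^ 30 * Real.exp (Real.sqrt L)) ^ JL L * Real.exp (JL L)) ^ 2 * L ^ 200 ≤ Z
  h5 : L ^ 40 ≤ Real.exp (Real.sqrt (Real.sqrt L))
  h6 : (JL L : ℝ) ≤ L
  h7 : Real.log (8 * (JL L + 1)) ≤ Real.sqrt L / 100
  h8 : L ^ 23 ≤ 10 ^ JL L
  h9 : 4 ≤ JL L

end

end Pool.Agent.TH972.U
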