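import Pool.Agent.TH972.U.PrDef
import Pool.Agent.W842.RST.Levels

/-!
# Good environments (definitions)
-/

set_option autoImplicit false
set_option linter.unusedSectionVars false

namespace Pool.Agent.TH972.U

open Finset MeasureTheory Pool.Agent.W842.RST Pool.Agent.TH972

noncomputable section

namespace Prm

variable {n : ℕ} (P : Prm n)

def KW : ℝ := 15 * n * P.I * Real.log n / P.y
def Δ : ℝ := 15000 * Real.log n ^ 2 / P.η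
def A : ℝ := 400 * (P.I : ℝ) ^ 2 * Real.log n ^ 2 / P.η ^ 2
def ac : ℝ := 3 * P.A + 2
def Cb : ℝ := 2 * P.ρb + 12 * P.Δ * (P.Δ * P.ρb + 1 / P.w (P.gam 1))
def k0 : ℝ := 1 / (160 * (P.Cb + P.ρb) * P.vmax)
def r : ℝ := 3 * (P.ρb + 3 + 4 / (P.k0 * P.vmin) + 16 * (P.Cb + P.ρb))
/-- the bound of the path sum -/
def sb : ℝ := 2 * (n : ℝ) ^ 2 * (P.K / P.lam) ^ 20 * Real.exp (-(P.lam * P.m / (10 * P.y)))
/-- the killing picked up by a path -/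
def Φ (k1 : ℝ) (N₀ : ℕ) : ℝ :=
  k1 * N₀ * P.s1 / (8 * P.ac * ((1 + P.ac * Real.exp P.lam) ^ P.J *
    Real.exp (P.ac * ((P.J + 1) * P.Tl))) ^ 2)

/-- the properties of the environment that are used -/
structure Gd (θ0 : ℝ) (U : Ev n) : Prop where
  hsm : ∀ v, ((cmp (GU U P.pb) v).card : ℝ) ≤ P.smax
  hvmin : P.vmin ≤ (marks P.pl P.pb P.s1 P.s0 U).card
  hvmax : ((gd (GU U P.pb) P.s0).card : ℝ) ≤ P.vmax
  iso : Iso P.pb P.pn P.s0 U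
  rob : Rob P.pb P.pn P.s0 U
  deg : ∀ S ∈ blks (GU U P.pb) P.s0, ∑ S' ∈ (blks (GU U P.pb) P.s0).erase S, nU P.pn U S S' ≤ P.Δ
  arm : ∀ v, arm P.pb P.pt P.s1 U v ≤ P.A
  tl : ∀ (t : ℕ) (x : ℕ → Fin n), Set.InjOn x (Set.Iic t) →
    (∀ j < t, U s(x j, x (j + 1)) ≤ P.pl) → ∑ j ∈ range t, 1 / P.w (U s(x j, x (j + 1))) ≤ P.Tl
  tb : ∀ (t : ℕ) (x : ℕ → Fin n), Set.InjOn x (Set.Iic t) →
    (∀ j < t, U s(x j, x (j + 1)) ≤ P.pb) → ∑ j ∈ range t, 1 / P.w (U s(x j, x (j + 1))) ≤ P.ρb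
  core : ∀ v, siz n θ0 ≤ (cmp (GU U (Pool.Agent.W842.RST.lev n θ0)) v).card →
    ∃ u ∈ gd (GU U P.pb) P.s0, (GU U (Pool.Agent.W842.RST.lev n (11 / 10 * θ0))).Reachable v u

/-- further numerical facts -/
structure Ok2 (θ0 k1 : ℝ) (N₀ : ℕ) : Prop where
  hηL : 10 ^ 20 * P.η * Real.log n ^ 2 ≤ 1
  hθ : 1 / P.y ≤ θ0
  hθ1 : θ0 ≤ 1
  hθI : 1.22 * θ0 * P.y ≤ P.I
  hks : k1 * P.smax ≤ 1
  haT : 4 * P.ac * P.Tl ≤ 1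
  hr : 4 * ((P.J + 1) * P.Tl + P.r) ≤ Real.exp P.lam
  hN : 1 ≤ N₀
  hQ : 1 ≤ k1 * P.vmin
  h1 : 128 * (k1 * P.vmax) * (4 * (P.J + 2) * Real.exp P.lam + P.smax * P.Cb / P.s1) ≤ N₀
  h2 : 512 * k1 * (k1 * P.vmax) * (1 + 40 * (P.Cb + P.ρb)) * (P.smax * P.Cb) ≤ 1
  hk : P.k0 ≤ k1
  hΦ : 4 * Real.log n ≤ P.Φ k1 N₀
  hS : 20 ^ N₀ * P.sb ≤ 1 / (n : ℝ) ^ 3

end Prm

end

end Pool.Agent.TH972.U
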