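import Mathlib

/-!
# The annealed path sum: the edge sum
-/

set_option autoImplicit false

namespace Pool.Agent.TH972.U

open Finset

namespace PSum

theorem geom_half (M : ℕ) : ∑ j ∈ range M, ((1 : ℝ) / 2) ^ j ≤ 2 := by
  rw [geom_sum_eq (by norm_num)]
  have : (0 : ℝ) ≤ (1 / 2) ^ M := by positivity
  rw [div_le_iff_of_neg (by norm_num)]
  linarith

theorem exp_neg_le_half {x : ℝ} (hx : 0.998 ≤ x) : Real.exp (-x) ≤ 1 / 2 := by
  have h1 := Real.quadratic_le_exp_of_nonneg (x := 0.998) (by norm_num)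
  have h2 : (2 : ℝ) ≤ Real.exp x := by
    have h3 := Real.exp_le_exp.2 hx
    norm_num at h1
    linarith
  rw [Real.exp_neg, inv_le_comm₀ (Real.exp_pos x) (by norm_num)]
  linarith

theorem geo_small (κ : ℝ) (hκ : 0 ≤ κ) (N : ℕ) :
    ∑ c ∈ (range N).filter (fun c : ℕ => (c : ℝ) ≤ κ), Real.exp ((c : ℝ) - κ) ≤ 2 := by
  set M := ⌊κ⌋₊ with hM
  have hMκ : (M : ℝ) ≤ κ := Nat.floor_le hκ
  calc ∑ c ∈ (range N).filter (fun c : ℕ => (c : ℝ) ≤ κ), Real.exp ((c : ℝ) - κ)
      ≤ ∑ c ∈ range (M + 1), Real.exp ((c : ℝ) - κ) := by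
        refine Finset.sum_le_sum_of_subset_of_nonneg ?_ fun c _ _ => (Real.exp_pos _).le
        intro c hc
        rw [mem_filter] at hc
        rw [mem_range]
        have := Nat.le_floor hc.2
        omega
    _ ≤ ∑ c ∈ range (M + 1), ((1 : ℝ) / 2) ^ (M - c) := by
        refine Finset.sum_le_sum fun c hc => ?_
        rw [mem_range] at hc
        have h1 : (c : ℝ) - κ ≤ ((M - c : ℕ) : ℝ) * (-1) := by
          rw [Nat.cast_sub (by omega)]
          linarith
        calc Real.exp ((c : ℝ) - κ) ≤ Real.exp (((M - c : ℕ) : ℝ) * (-1)) := Real.exp_le_exp.2 h1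
          _ = Real.exp (-1) ^ (M - c) := by rw [Real.exp_nat_mul]
          _ ≤ (1 / 2) ^ (M - c) :=
            pow_le_pow_left₀ (Real.exp_pos _).le (exp_neg_le_half (by norm_num)) _
    _ = ∑ j ∈ range (M + 1), ((1 : ℝ) / 2) ^ j := by
        rw [← Finset.sum_range_reflect]
        refine Finset.sum_congr rfl fun c hc => ?_
        rw [mem_range] at hc
        congr 1
        omega
    _ ≤ 2 := geom_half _

theorem geo_big (κ : ℝ) (hκ : 0 ≤ κ) (N : ℕ) :
    ∑ c ∈ (range N).filter (fun c : ℕ => ¬ (c : ℝ) ≤ κ), Real.exp (-(0.998 * ((c : ℝ) - κ))) ≤ 2 := by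
  set M := ⌊κ⌋₊ + 1 with hM
  have hMκ : κ ≤ (M : ℝ) := by
    rw [hM]; push_cast; exact (Nat.lt_floor_add_one κ).le
  calc ∑ c ∈ (range N).filter (fun c : ℕ => ¬ (c : ℝ) ≤ κ), Real.exp (-(0.998 * ((c : ℝ) - κ)))
      ≤ ∑ c ∈ (range N).filter (fun c : ℕ => ¬ (c : ℝ) ≤ κ), Real.exp (-0.998) ^ (c - M) := by
        refine Finset.sum_le_sum fun c hc => ?_
        rw [mem_filter, mem_range] at hc
        have h1 : M ≤ c := by
          rw [hM]
          have := (Nat.floor_lt hκ).2 (not_le.1 hc.2)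
          omega
        rw [← Real.exp_nat_mul, Nat.cast_sub h1]
        refine Real.exp_le_exp.2 ?_
        nlinarith
    _ ≤ ∑ c ∈ Ico M N, Real.exp (-0.998) ^ (c - M) := by
        refine Finset.sum_le_sum_of_subset_of_nonneg ?_ fun c _ _ => by positivity
        intro c hc
        rw [mem_filter, mem_range] at hc
        rw [mem_Ico]
        have := (Nat.floor_lt hκ).2 (not_le.1 hc.2)
        omega
    _ = ∑ j ∈ range (N - M), Real.exp (-0.998) ^ j := by
        rw [Finset.sum_Ico_eq_sum_range]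
        refine Finset.sum_congr rfl fun j _ => ?_
        congr 1
        omega
    _ ≤ ∑ j ∈ range (N - M), ((1 : ℝ) / 2) ^ j := by
        refine Finset.sum_le_sum fun j _ => ?_
        exact pow_le_pow_left₀ (Real.exp_pos _).le (exp_neg_le_half le_rfl) _
    _ ≤ 2 := geom_half _

theorem exp_le_two {x : ℝ} (h0 : 0 ≤ x) (h1 : x ≤ 1 / 2) : Real.exp x ≤ 1 + 2 * x := by
  have h2 := Real.add_one_le_exp (-x)
  have h3 : Real.exp x * Real.exp (-x) = 1 := by rw [← Real.exp_add]; simp
  have h4 := Real.exp_pos x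
  have h5 : Real.exp x * (1 - x) ≤ 1 := by
    rw [← h3]
    exact mul_le_mul_of_nonneg_left (by linarith) h4.le
  have h6 : 0 < 1 - x := by linarith
  rw [← le_div_iff₀ h6] at h5
  refine h5.trans ?_
  rw [div_le_iff₀ h6]
  nlinarith

theorem one_add_pow_le {t : ℝ} (h0 : 0 ≤ t) (N : ℕ) : (1 + t) ^ N ≤ Real.exp (N * t) := by
  rw [Real.exp_nat_mul]
  refine pow_le_pow_left₀ (by linarith) ?_ N
  have := Real.add_one_le_exp t
  linarith

/-- small classes -/
theorem small_term {r h k lam : ℝ} (hk : k = Real.log r) (hk4 : 10 ^ 4 ≤ k) (hlam : 0 < lam)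
    (hr : 0 < r) (hh : 0 ≤ h) (hhr : h ≤ r) :
    (Real.log (r + 2 * h) / lam) ^ 20 ≤ (k / lam) ^ 20 * (1 + 80 / k * (h / r)) := by
  have hk0 : 0 < k := by linarith
  have h1 : Real.log (r + 2 * h) ≤ k + 2 * (h / r) := by
    have e : r + 2 * h = r * (1 + 2 * (h / r)) := by field_simp
    have h2 : 0 ≤ h / r := by positivity
    rw [e, Real.log_mul hr.ne' (by positivity), ← hk]
    have := Real.log_le_sub_one_of_pos (show 0 < 1 + 2 * (h / r) by positivity)
    linarith
  have h0 : 0 ≤ Real.log (r + 2 * h) := by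
    have : Real.log r ≤ Real.log (r + 2 * h) := Real.log_le_log hr (by linarith)
    linarith
  have h3 : h / r ≤ 1 := by rw [div_le_one hr]; exact hhr
  have h3' : 0 ≤ h / r := by positivity
  have h4 : (Real.log (r + 2 * h) / lam) ^ 20 ≤ ((k / lam) * (1 + 2 * (h / r) / k)) ^ 20 := by
    refine pow_le_pow_left₀ (by positivity) ?_ 20
    have e : (k / lam) * (1 + 2 * (h / r) / k) = (k + 2 * (h / r)) / lam := by field_simp
    rw [e]
    exact div_le_div_of_nonneg_right h1 hlam.le
  rw [mul_pow] at h4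
  refine h4.trans (mul_le_mul_of_nonneg_left ?_ (by positivity))
  refine (one_add_pow_le (by positivity) 20).trans ?_
  have h5 : ((20 : ℕ) : ℝ) * (2 * (h / r) / k) = 40 / k * (h / r) := by push_cast; ring
  rw [h5]
  have h6 : 40 / k * (h / r) ≤ 1 / 2 := by
    have : 40 / k ≤ 1 / 2 := by
      rw [div_le_iff₀ hk0]; linarith
    nlinarith [show (0 : ℝ) ≤ 40 / k by positivity]
  refine (exp_le_two (by positivity) h6).trans ?_
  have e : 2 * (40 / k * (h / r)) = 80 / k * (h / r) := by ring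
  rw [e]

/-- big classes -/
theorem big_term {r k lam s : ℝ} (hk : k = Real.log r) (hk4 : 10 ^ 4 ≤ k) (hlam : 0 < lam)
    (hr : 0 < r) (hs : k < s) :
    (r / (r + Real.exp (s - 1))) * (Real.log (r + 2 * Real.exp s) / lam) ^ 20 ≤
      (k / lam) ^ 20 * (Real.exp 1.0022 * Real.exp (-(0.998 * (s - k)))) := by
  have hk0 : 0 < k := by linarith
  have hrk : r = Real.exp k := by rw [hk, Real.exp_log hr]
  have h1 : r / (r + Real.exp (s - 1)) ≤ Real.exp (k - (s - 1)) := by
    rw [Real.exp_sub k (s - 1), ← hrk]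
    exact div_le_div_of_nonneg_left hr.le (Real.exp_pos _) (by linarith)
  have hrs : r ≤ Real.exp s := by rw [hrk]; exact Real.exp_le_exp.2 hs.le
  have h2 : Real.log (r + 2 * Real.exp s) ≤ s + 1.1 := by
    have h3 : r + 2 * Real.exp s ≤ 3 * Real.exp s := by linarith
    calc Real.log (r + 2 * Real.exp s) ≤ Real.log (3 * Real.exp s) :=
          Real.log_le_log (by positivity) h3
      _ = Real.log 3 + s := by rw [Real.log_mul (by norm_num) (Real.exp_pos s).ne', Real.log_exp]
      _ ≤ s + 1.1 := by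
          have h4 : Real.log 3 ≤ 1.1 := by
            rw [Real.log_le_iff_le_exp (by norm_num)]
            have h5 : (3 : ℝ) ≤ Real.exp 1 * Real.exp 0.1 := by
              have h6 := Real.exp_one_gt_d9
              have h7 := Real.quadratic_le_exp_of_nonneg (x := 0.1) (by norm_num)
              have h8 : (1.105 : ℝ) ≤ Real.exp 0.1 := by norm_num at h7 ⊢; linarith
              nlinarith
            calc (3 : ℝ) ≤ Real.exp 1 * Real.exp 0.1 := h5
              _ = Real.exp 1.1 := by rw [← Real.exp_add]; norm_num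
          linarith
  have h0 : 0 ≤ Real.log (r + 2 * Real.exp s) := by
    have : Real.log r ≤ Real.log (r + 2 * Real.exp s) :=
      Real.log_le_log hr (by have := Real.exp_pos s; linarith)
    linarith
  have h3 : (Real.log (r + 2 * Real.exp s) / lam) ^ 20 ≤
      (k / lam) ^ 20 * Real.exp ((s - k + 1.1) / 500) := by
    have h4 : (Real.log (r + 2 * Real.exp s) / lam) ^ 20 ≤
        ((k / lam) * (1 + (s - k + 1.1) / k)) ^ 20 := by
      refine pow_le_pow_left₀ (by positivity) ?_ 20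
      have e : (k / lam) * (1 + (s - k + 1.1) / k) = (s + 1.1) / lam := by
        field_simp
        ring
      rw [e]
      exact div_le_div_of_nonneg_right h2 hlam.le
    rw [mul_pow] at h4
    refine h4.trans (mul_le_mul_of_nonneg_left ?_ (by positivity))
    have hsk : 0 ≤ s - k + 1.1 := by linarith
    refine (one_add_pow_le (by positivity) 20).trans (Real.exp_le_exp.2 ?_)
    push_cast
    rw [mul_div_assoc', div_le_div_iff₀ hk0 (by norm_num)]
    nlinarith
  calc (r / (r + Real.exp (s - 1))) * (Real.log (r + 2 * Real.exp s) / lam) ^ 20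
      ≤ Real.exp (k - (s - 1)) * ((k / lam) ^ 20 * Real.exp ((s - k + 1.1) / 500)) :=
        mul_le_mul h1 h3 (by positivity) (Real.exp_pos _).le
    _ = (k / lam) ^ 20 * Real.exp (k - (s - 1) + (s - k + 1.1) / 500) := by
        rw [Real.exp_add]; ring
    _ ≤ (k / lam) ^ 20 * (Real.exp 1.0022 * Real.exp (-(0.998 * (s - k)))) := by
        refine mul_le_mul_of_nonneg_left ?_ (by positivity)
        rw [← Real.exp_add]
        refine Real.exp_le_exp.2 ?_
        linarith

theorem exp_const : Real.exp 1.0022 * 2 * 1.001 ≤ 5.5 := by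
  have h1 : Real.exp 1.0022 = Real.exp 1 * Real.exp 0.0022 := by
    rw [← Real.exp_add]; norm_num
  have h2 := Real.exp_one_lt_d9
  have h3 := exp_le_two (x := 0.0022) (by norm_num) (by norm_num)
  have h4 := Real.exp_pos (0.0022 : ℝ)
  rw [h1]
  have h5 : Real.exp 1 * Real.exp 0.0022 ≤ 2.7182818286 * 1.0044 :=
    mul_le_mul h2.le (by linarith) h4.le (by norm_num)
  norm_num at h5 ⊢
  linarith

/-- the edge sum in a state which is known -/
theorem edge_sum {n : ℕ} (hn : 0 < n) {y : ℝ} (hy : 0 < y) (I0 I : ℕ) (hI0 : y ≤ Real.exp I0)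
    (q : ℕ → ℝ) (hq0 : ∀ c, 0 ≤ q c) (hq1 : ∑ c ∈ range (I0 + 1), q c ≤ 1 / n)
    (hq2 : ∀ c, 1 ≤ c → c ≤ I0 + I → q c ≤ 1.001 / (n * y)) {lam : ℝ} (hlam : 0 < lam)
    {r k : ℝ} (hr : 0 < r) (hk : k = Real.log r) (hk4 : 10 ^ 4 ≤ k) (rlo rhi : ℕ → ℝ)
    (hrlo : ∀ c : ℕ, rlo c = if c = 0 then 0 else Real.exp ((c : ℝ) - 1 - I0))
    (hrhi : ∀ c : ℕ, rhi c = Real.exp ((c : ℝ) - I0)) :
    ∑ c ∈ range (I0 + I + 1), q c * (r / (r + rlo c)) * (Real.log (r + 2 * rhi c) / lam) ^ 20 ≤
      (k / lam) ^ 20 * ((1 + 1.01 * k / y) / n) := by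
  have hk0 : 0 < k := by linarith
  have hn' : (0 : ℝ) < n := by exact_mod_cast hn
  set κ := k + I0 with hκ
  have hκ0 : 0 ≤ κ := by positivity
  have hrk : r = Real.exp k := by rw [hk, Real.exp_log hr]
  have hr1 : 1 ≤ r := by rw [hrk]; exact Real.one_le_exp hk0.le
  have hrlo0 : ∀ c, 0 ≤ rlo c := by
    intro c; rw [hrlo]; split_ifs
    · exact le_rfl
    · exact (Real.exp_pos _).le
  set A := k / lam with hA
  have hA0 : 0 ≤ A ^ 20 := by positivity
  -- termwise
  have hsmall : ∀ c ∈ (range (I0 + I + 1)).filter (fun c : ℕ => (c : ℝ) ≤ κ),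
      q c * (r / (r + rlo c)) * (Real.log (r + 2 * rhi c) / lam) ^ 20 ≤
        A ^ 20 * (q c + 80 / k * (q c * Real.exp ((c : ℝ) - κ))) := by
    intro c hc
    rw [mem_filter] at hc
    have e : rhi c / r = Real.exp ((c : ℝ) - κ) := by
      rw [hrhi, hrk, ← Real.exp_sub]; congr 1; rw [hκ]; ring
    have h1 : rhi c ≤ r := by
      rw [hrhi, hrk]
      exact Real.exp_le_exp.2 (by linarith [hc.2])
    have h2 := small_term hk hk4 hlam hr (by rw [hrhi]; exact (Real.exp_pos _).le) h1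
    rw [e] at h2
    have h3 : r / (r + rlo c) ≤ 1 := by
      rw [div_le_one (by have := hrlo0 c; linarith)]
      have := hrlo0 c
      linarith
    have h3' : 0 ≤ r / (r + rlo c) := by have := hrlo0 c; positivity
    calc q c * (r / (r + rlo c)) * (Real.log (r + 2 * rhi c) / lam) ^ 20
        ≤ q c * 1 * (A ^ 20 * (1 + 80 / k * Real.exp ((c : ℝ) - κ))) := by
          refine mul_le_mul (mul_le_mul_of_nonneg_left h3 (hq0 c)) h2 ?_ ?_
          · exact Even.pow_nonneg (by decide) _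
          · have := hq0 c; linarith
      _ = _ := by ring
  have hbig : ∀ c ∈ (range (I0 + I + 1)).filter (fun c : ℕ => ¬ (c : ℝ) ≤ κ),
      q c * (r / (r + rlo c)) * (Real.log (r + 2 * rhi c) / lam) ^ 20 ≤
        A ^ 20 * (1.001 / (n * y) * (Real.exp 1.0022 * Real.exp (-(0.998 * ((c : ℝ) - κ))))) := by
    intro c hc
    rw [mem_filter, mem_range] at hc
    have hc1 : 1 ≤ c := by
      by_contra h
      have : c = 0 := by omega
      rw [this] at hc
      exact hc.2 (by simpa using hκ0)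
    have h1 := hq2 c hc1 (by omega)
    have h2 := big_term (s := (c : ℝ) - I0) hk hk4 hlam hr (by
      have := hc.2
      rw [hκ] at this
      linarith [not_le.1 this])
    have e1 : rlo c = Real.exp ((c : ℝ) - I0 - 1) := by
      rw [hrlo, if_neg (by omega)]; congr 1; ring
    have e2 : (c : ℝ) - I0 - k = (c : ℝ) - κ := by rw [hκ]; ring
    rw [e2, ← e1, ← hrhi] at h2
    calc q c * (r / (r + rlo c)) * (Real.log (r + 2 * rhi c) / lam) ^ 20
        = q c * ((r / (r + rlo c)) * (Real.log (r + 2 * rhi c) / lam) ^ 20) := by ring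
      _ ≤ 1.001 / (n * y) * (A ^ 20 * (Real.exp 1.0022 * Real.exp (-(0.998 * ((c : ℝ) - κ))))) := by
          refine mul_le_mul h1 h2 ?_ (by positivity)
          have := hrlo0 c
          exact mul_nonneg (by positivity) (Even.pow_nonneg (by decide) _)
      _ = _ := by ring
  -- the sum of the small probabilities
  have hq1' : ∑ c ∈ (range (I0 + I + 1)).filter (fun c : ℕ => (c : ℝ) ≤ κ), q c ≤
      1 / n + k * (1.001 / (n * y)) := by
    have hsub : (range (I0 + I + 1)).filter (fun c : ℕ => (c : ℝ) ≤ κ) ⊆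
        range (I0 + 1) ∪ (Ioc I0 ⌊κ⌋₊).filter (fun c => c ≤ I0 + I) := by
      intro c hc
      rw [mem_filter, mem_range] at hc
      rw [mem_union, mem_range, mem_filter, mem_Ioc]
      have := Nat.le_floor hc.2
      omega
    calc ∑ c ∈ (range (I0 + I + 1)).filter (fun c : ℕ => (c : ℝ) ≤ κ), q c
        ≤ ∑ c ∈ range (I0 + 1) ∪ (Ioc I0 ⌊κ⌋₊).filter (fun c => c ≤ I0 + I), q c :=
          Finset.sum_le_sum_of_subset_of_nonneg hsub fun c _ _ => hq0 c
      _ ≤ ∑ c ∈ range (I0 + 1), q c + ∑ c ∈ (Ioc I0 ⌊κ⌋₊).filter (fun c => c ≤ I0 + I), q c := by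
          rw [← Finset.sum_union_inter]
          have : 0 ≤ ∑ c ∈ range (I0 + 1) ∩ (Ioc I0 ⌊κ⌋₊).filter (fun c => c ≤ I0 + I), q c :=
            Finset.sum_nonneg fun c _ => hq0 c
          linarith
      _ ≤ 1 / n + k * (1.001 / (n * y)) := by
          refine add_le_add hq1 ?_
          have h1 : ∑ c ∈ (Ioc I0 ⌊κ⌋₊).filter (fun c => c ≤ I0 + I), q c ≤
              ∑ _c ∈ (Ioc I0 ⌊κ⌋₊).filter (fun c => c ≤ I0 + I), (1.001 / (n * y)) := by
            refine Finset.sum_le_sum fun c hc => ?_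
            rw [mem_filter, mem_Ioc] at hc
            exact hq2 c (by omega) hc.2
          refine h1.trans ?_
          rw [Finset.sum_const, nsmul_eq_mul]
          refine mul_le_mul_of_nonneg_right ?_ (by positivity)
          have h2 : ((Ioc I0 ⌊κ⌋₊).filter (fun c => c ≤ I0 + I)).card ≤ ⌊κ⌋₊ - I0 := by
            refine (Finset.card_filter_le _ _).trans ?_
            rw [Nat.card_Ioc]
          have h3 : (((⌊κ⌋₊ - I0 : ℕ)) : ℝ) ≤ k := by
            by_cases h : I0 ≤ ⌊κ⌋₊
            · rw [Nat.cast_sub h]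
              have := Nat.floor_le hκ0
              rw [hκ] at this ⊢
              linarith
            · have : ⌊κ⌋₊ - I0 = 0 := by omega
              rw [this]; simpa using hk0.le
          exact le_trans (by exact_mod_cast h2) h3
  have hq3 : ∑ c ∈ (range (I0 + I + 1)).filter (fun c : ℕ => (c : ℝ) ≤ κ),
      q c * Real.exp ((c : ℝ) - κ) ≤ 3.01 / (n * y) := by
    have hterm : ∀ c ∈ (range (I0 + I + 1)).filter (fun c : ℕ => (c : ℝ) ≤ κ),
        q c * Real.exp ((c : ℝ) - κ) ≤ (if c = 0 then 1 / (n * y) else 0) +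
          1.001 / (n * y) * Real.exp ((c : ℝ) - κ) := by
      intro c hc
      rw [mem_filter, mem_range] at hc
      by_cases hc0 : c = 0
      · rw [if_pos hc0, hc0]
        have h1 : q 0 ≤ 1 / n := by
          refine le_trans ?_ hq1
          exact Finset.single_le_sum (f := q) (fun c _ => hq0 c) (by simp)
        have h2 : Real.exp (((0 : ℕ) : ℝ) - κ) ≤ 1 / y := by
          rw [Nat.cast_zero, zero_sub, Real.exp_neg, ← one_div]
          refine one_div_le_one_div_of_le hy (hI0.trans (Real.exp_le_exp.2 ?_))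
          rw [hκ]; linarith
        have h3 : q 0 * Real.exp (((0 : ℕ) : ℝ) - κ) ≤ 1 / n * (1 / y) :=
          mul_le_mul h1 h2 (Real.exp_pos _).le (by positivity)
        have h4 : (1 : ℝ) / n * (1 / y) = 1 / (n * y) := by
          field_simp
        have h5 : 0 ≤ 1.001 / (n * y) * Real.exp (((0 : ℕ) : ℝ) - κ) := by positivity
        linarith
      · rw [if_neg hc0, zero_add]
        exact mul_le_mul_of_nonneg_right (hq2 c (by omega) (by omega)) (Real.exp_pos _).le
    refine (Finset.sum_le_sum hterm).trans ?_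
    rw [Finset.sum_add_distrib, ← Finset.mul_sum]
    have h1 := geo_small κ hκ0 (I0 + I + 1)
    have h2 : ∑ c ∈ (range (I0 + I + 1)).filter (fun c : ℕ => (c : ℝ) ≤ κ),
        (if c = 0 then 1 / ((n : ℝ) * y) else 0) ≤ 1 / (n * y) := by
      rw [Finset.sum_ite_eq']
      split_ifs
      · exact le_rfl
      · positivity
    have h3 := mul_le_mul_of_nonneg_left h1 (show 0 ≤ 1.001 / ((n : ℝ) * y) by positivity)
    have h4 : (3.01 : ℝ) / (n * y) = 1 / (n * y) + 2.01 / (n * y) := by ring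
    have h5 : 1.001 / ((n : ℝ) * y) * 2 ≤ 2.01 / (n * y) := by
      rw [div_mul_eq_mul_div]
      exact div_le_div_of_nonneg_right (by norm_num) (by positivity)
    linarith
  -- conclusion
  rw [← Finset.sum_filter_add_sum_filter_not (range (I0 + I + 1)) (fun c : ℕ => (c : ℝ) ≤ κ)]
  have h1 := Finset.sum_le_sum hsmall
  have h2 := Finset.sum_le_sum hbig
  rw [← Finset.mul_sum, Finset.sum_add_distrib, ← Finset.mul_sum] at h1
  rw [← Finset.mul_sum, ← Finset.mul_sum, ← Finset.mul_sum] at h2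
  have h3 := geo_big κ hκ0 (I0 + I + 1)
  have h4 : 1.001 / ((n : ℝ) * y) * (Real.exp 1.0022 *
      ∑ c ∈ (range (I0 + I + 1)).filter (fun c : ℕ => ¬ (c : ℝ) ≤ κ),
        Real.exp (-(0.998 * ((c : ℝ) - κ)))) ≤ 5.5 / (n * y) := by
    calc 1.001 / ((n : ℝ) * y) * (Real.exp 1.0022 *
        ∑ c ∈ (range (I0 + I + 1)).filter (fun c : ℕ => ¬ (c : ℝ) ≤ κ),
          Real.exp (-(0.998 * ((c : ℝ) - κ)))) ≤
        1.001 / ((n : ℝ) * y) * (Real.exp 1.0022 * 2) := by
          refine mul_le_mul_of_nonneg_left ?_ (by positivity)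
          exact mul_le_mul_of_nonneg_left h3 (Real.exp_pos _).le
      _ = (Real.exp 1.0022 * 2 * 1.001) / (n * y) := by ring
      _ ≤ 5.5 / (n * y) := div_le_div_of_nonneg_right exp_const (by positivity)
  have h5 : 80 / k * (∑ c ∈ (range (I0 + I + 1)).filter (fun c : ℕ => (c : ℝ) ≤ κ),
      q c * Real.exp ((c : ℝ) - κ)) ≤ 0.03 / (n * y) := by
    calc 80 / k * (∑ c ∈ (range (I0 + I + 1)).filter (fun c : ℕ => (c : ℝ) ≤ κ),
        q c * Real.exp ((c : ℝ) - κ)) ≤ 80 / 10 ^ 4 * (3.01 / (n * y)) := by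
          refine mul_le_mul ?_ hq3 (Finset.sum_nonneg fun c _ =>
            mul_nonneg (hq0 c) (Real.exp_pos _).le) (by norm_num)
          exact div_le_div_of_nonneg_left (by norm_num) (by norm_num) hk4
      _ = (80 / 10 ^ 4 * 3.01) / (n * y) := by ring
      _ ≤ 0.03 / (n * y) := div_le_div_of_nonneg_right (by norm_num) (by positivity)
  have h6 : A ^ 20 * (∑ c ∈ (range (I0 + I + 1)).filter (fun c : ℕ => (c : ℝ) ≤ κ), q c +
      80 / k * ∑ c ∈ (range (I0 + I + 1)).filter (fun c : ℕ => (c : ℝ) ≤ κ),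
        q c * Real.exp ((c : ℝ) - κ)) + A ^ 20 * (1.001 / ((n : ℝ) * y) * (Real.exp 1.0022 *
      ∑ c ∈ (range (I0 + I + 1)).filter (fun c : ℕ => ¬ (c : ℝ) ≤ κ),
        Real.exp (-(0.998 * ((c : ℝ) - κ))))) ≤
      A ^ 20 * (1 / n + k * (1.001 / (n * y)) + 0.03 / (n * y) + 5.5 / (n * y)) := by
    rw [← mul_add]
    exact mul_le_mul_of_nonneg_left (by linarith) hA0
  have h7 : (1 : ℝ) / n + k * (1.001 / (n * y)) + 0.03 / (n * y) + 5.5 / (n * y) ≤
      (1 + 1.01 * k / y) / n := by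
    have e : (1 + 1.01 * k / y) / n - (1 / n + k * (1.001 / (n * y)) + 0.03 / (n * y) +
        5.5 / (n * y)) = (0.009 * k - 5.53) / (n * y) := by
      field_simp
      ring
    have : 0 ≤ (0.009 * k - 5.53) / (n * y) := div_nonneg (by linarith) (by positivity)
    linarith
  have h8 := mul_le_mul_of_nonneg_left h7 hA0
  linarith

end PSum

end Pool.Agent.TH972.U
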