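import Pool.Agent.TH972.U.SDef
import Pool.Agent.TH972.U.Lvl
import Pool.Agent.TH972.U.PSum0

/-!
# The annealed path sum: classes, locality, expansion
-/

set_option autoImplicit false
set_option linter.unusedSectionVars false

namespace Pool.Agent.TH972.U

open Finset MeasureTheory Pool.Agent.W842.RST Pool.Agent.TH972

noncomputable section

variable {n : ℕ}

namespace PSum

open Classical in
/-- the levels of the classes -/
def Lg (P : SP n) : Finset ℝ := (range (P.I0 + P.I + 1)).image (fun i : ℕ => P.gam ((i : ℤ) - P.I0))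

theorem cnt_lvl (P : SP n) {U U' : Ev n} (h : lvlEq (Lg P) U U') (e : Sym2 (Fin n)) :
    P.cnt (U e) = P.cnt (U' e) := by
  classical
  unfold SP.cnt
  congr 1
  refine Finset.filter_congr fun i hi => ?_
  have := h e (P.gam ((i : ℤ) - P.I0)) (mem_image_of_mem _ hi)
  rw [← not_le, ← not_le, this]

theorem cnt_le {P : SP n} (hmono : Monotone P.gam) {u : ℝ} {c : ℕ} (hc : c ≤ P.I0 + P.I)
    (h : P.cnt u ≤ c) : u ≤ P.gam ((c : ℤ) - P.I0) := by
  classical
  by_contra hlt
  push Not at hlt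
  have hsub : range (c + 1) ⊆
      (range (P.I0 + P.I + 1)).filter (fun i : ℕ => P.gam ((i : ℤ) - P.I0) < u) := by
    intro i hi
    rw [mem_range] at hi
    rw [mem_filter, mem_range]
    refine ⟨by omega, lt_of_le_of_lt (hmono ?_) hlt⟩
    have : (i : ℤ) ≤ c := by exact_mod_cast Nat.le_of_lt_succ hi
    linarith
  have := Finset.card_le_card hsub
  rw [card_range] at this
  unfold SP.cnt at h
  omega

theorem cnt_gt {P : SP n} (hmono : Monotone P.gam) {u : ℝ} {c : ℕ} (hc1 : 1 ≤ c)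
    (h : P.cnt u = c) : P.gam ((c : ℤ) - 1 - P.I0) < u := by
  classical
  by_contra hlt
  push Not at hlt
  have hsub : (range (P.I0 + P.I + 1)).filter (fun i : ℕ => P.gam ((i : ℤ) - P.I0) < u) ⊆
      range (c - 1) := by
    intro i hi
    rw [mem_filter, mem_range] at hi
    rw [mem_range]
    by_contra hge
    have h1 : (c : ℤ) - 1 ≤ i := by omega
    have h2 : P.gam ((c : ℤ) - 1 - P.I0) ≤ P.gam ((i : ℤ) - P.I0) := hmono (by linarith)
    linarith [hi.2]
  have := Finset.card_le_card hsub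
  rw [card_range] at this
  unfold SP.cnt at h
  omega

/-- probability of a class -/
def qc (P : SP n) (e : Sym2 (Fin n)) (c : ℕ) : ℝ := Ex (fun U : Ev n => ind (P.cnt (U e) = c))

theorem BM_cnt (P : SP n) (e : Sym2 (Fin n)) (c : ℕ) :
    BM (fun U : Ev n => ind (P.cnt (U e) = c)) := by
  refine BM_lvl (Lg P) fun U U' h => ?_
  rw [cnt_lvl P h e]

theorem BM_le (e : Sym2 (Fin n)) (p : ℝ) : BM (fun U : Ev n => ind (U e ≤ p)) := by
  refine BM_lvl {p} fun U U' h => ?_
  have := h e p (mem_singleton_self p)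
  simp only [this]

theorem qc_nonneg (P : SP n) (e : Sym2 (Fin n)) (c : ℕ) : 0 ≤ qc P e c :=
  Ex_nonneg fun _ => ind_nonneg _

/-- sum of the first classes -/
theorem sum_qc {P : SP n} (hmono : Monotone P.gam) (hg0 : 0 ≤ P.gam (-(P.I0 : ℤ)))
    (hg1 : P.gam P.I ≤ 1) (e : Sym2 (Fin n)) {N : ℕ} (hN : N ≤ P.I0 + P.I) :
    ∑ c ∈ range (N + 1), qc P e c ≤ P.gam ((N : ℤ) - P.I0) := by
  unfold qc
  rw [← Ex_sum _ fun c _ => BM_cnt P e c]
  have h0 : 0 ≤ P.gam ((N : ℤ) - P.I0) := hg0.trans (hmono (by omega))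
  have h1 : P.gam ((N : ℤ) - P.I0) ≤ 1 := (hmono (by omega)).trans hg1
  rw [← Ex_le h0 h1 e]
  refine Ex_mono (BM.sum _ fun c _ => BM_cnt P e c) (BM_le e _) fun U => ?_
  by_cases hc : P.cnt (U e) ≤ N
  · rw [ind_true (cnt_le hmono hN hc), Finset.sum_eq_single_of_mem (P.cnt (U e))
      (mem_range.2 (by omega))]
    · rw [ind_true rfl]
    · intro c _ hne
      exact ind_false (Ne.symm hne)
  · rw [Finset.sum_eq_zero]
    · exact ind_nonneg _
    · intro c hcm
      rw [mem_range] at hcm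
      exact ind_false (by omega)

theorem qc_le {P : SP n} (hmono : Monotone P.gam) (hg0 : 0 ≤ P.gam (-(P.I0 : ℤ)))
    (hg1 : P.gam P.I ≤ 1) (e : Sym2 (Fin n)) {c : ℕ} (hc1 : 1 ≤ c) (hc : c ≤ P.I0 + P.I) :
    qc P e c ≤ P.gam ((c : ℤ) - P.I0) - P.gam ((c : ℤ) - 1 - P.I0) := by
  have h0 : 0 ≤ P.gam ((c : ℤ) - P.I0) := hg0.trans (hmono (by omega))
  have h1 : P.gam ((c : ℤ) - P.I0) ≤ 1 := (hmono (by omega)).trans hg1
  have h0' : 0 ≤ P.gam ((c : ℤ) - 1 - P.I0) := hg0.trans (hmono (by omega))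
  have h1' : P.gam ((c : ℤ) - 1 - P.I0) ≤ 1 := (hmono (by omega)).trans hg1
  have e1 : P.gam ((c : ℤ) - P.I0) - P.gam ((c : ℤ) - 1 - P.I0) =
      Ex (fun U : Ev n => ind (U e ≤ P.gam ((c : ℤ) - P.I0)) -
        ind (U e ≤ P.gam ((c : ℤ) - 1 - P.I0))) := by
    rw [Ex_sub (BM_le e _) (BM_le e _), Ex_le h0 h1 e, Ex_le h0' h1' e]
  rw [e1]
  refine Ex_mono (BM_cnt P e c) ((BM_le e _).sub (BM_le e _)) fun U => ?_
  by_cases h : P.cnt (U e) = c
  · rw [ind_true h, ind_true (cnt_le hmono hc h.le), ind_false (not_le.2 (cnt_gt hmono hc1 h))]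
    norm_num
  · rw [ind_false h]
    have : ind (U e ≤ P.gam ((c : ℤ) - 1 - P.I0)) ≤ ind (U e ≤ P.gam ((c : ℤ) - P.I0)) :=
      ind_mono fun h2 => h2.trans (hmono (by omega))
    linarith

/-- growth of the levels -/
theorem gam_le {P : SP n} {y : ℝ} (hn : 0 < n) (h0 : n * P.gam 0 = 1)
    (hgd : ∀ i : ℤ, -(P.I0 : ℤ) ≤ i → i < P.I → n * (P.gam (i + 1) - P.gam i) ≤ 1.001 / y) :
    ∀ N : ℕ, N ≤ P.I → n * P.gam N ≤ 1 + N * (1.001 / y) := by
  intro N
  induction N with
  | zero => intro _; simp [h0]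
  | succ N ih =>
    intro hN
    have h1 := ih (by omega)
    have h2 := hgd N (by omega) (by omega)
    push_cast at h2 ⊢
    linarith

theorem qc_le' {P : SP n} {y : ℝ} (hn : 0 < n) (hy : 0 < y) (hmono : Monotone P.gam)
    (hg0 : 0 ≤ P.gam (-(P.I0 : ℤ))) (hg1 : P.gam P.I ≤ 1)
    (hgd : ∀ i : ℤ, -(P.I0 : ℤ) ≤ i → i < P.I → n * (P.gam (i + 1) - P.gam i) ≤ 1.001 / y)
    (e : Sym2 (Fin n)) {c : ℕ} (hc1 : 1 ≤ c) (hc : c ≤ P.I0 + P.I) :
    qc P e c ≤ 1.001 / (n * y) := by
  have h1 := qc_le hmono hg0 hg1 e hc1 hc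
  have h2 := hgd ((c : ℤ) - 1 - P.I0) (by omega) (by omega)
  have e1 : (c : ℤ) - 1 - P.I0 + 1 = (c : ℤ) - P.I0 := by ring
  rw [e1] at h2
  have hn' : (0 : ℝ) < n := by exact_mod_cast hn
  have h3 : P.gam ((c : ℤ) - P.I0) - P.gam ((c : ℤ) - 1 - P.I0) ≤ 1.001 / (n * y) := by
    rw [← div_div, div_right_comm, le_div_iff₀ hn', mul_comm]
    exact h2
  exact h1.trans h3

/-! ### structure of the path sum -/

/-- the state after the exploration, by success -/
def staB (P : SP n) (R : Option ℝ) (fl : Bool) : Option ℝ :=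
  if fl then some (P.Rs (P.idx R)) else R

theorem sta_eq (P : SP n) (R : Option ℝ) (r : Finset (Fin n) × Option (Fin n)) :
    P.sta R r = staB P R r.2.isSome := rfl

open Classical in
/-- the factor of a success -/
def zet (P : SP n) (z : ℝ) (R : Option ℝ) (fl : Bool) : ℝ := if fl = true ∧ P.low R then z else 1

theorem wsum_cons (P : SP n) (z : ℝ) (U : Ev n) (Q : Finset (Fin n)) (v w : Fin n)
    (t : List (Fin n)) (X : Finset (Fin n)) (R : Option ℝ) :
    P.wsum z U Q (v :: w :: t) X R =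
      if P.cnt (U s(v, w)) ≤ P.I0 + P.I then
        zet P z R (P.ebs U Q X R v).2.isSome *
        P.wst (staB P R (P.ebs U Q X R v).2.isSome) (P.cnt (U s(v, w))) *
        P.wsum z U Q (w :: t) (X ∪ (P.ebs U Q X R v).1)
          (P.nst (staB P R (P.ebs U Q X R v).2.isSome) (P.cnt (U s(v, w))))
      else 0 := by
  conv_lhs => unfold SP.wsum
  rfl

/-- the hypotheses on the exploration -/
structure HB (P : SP n) : Prop where
  sub : ∀ (j : ℕ) (U : Ev n) (v : Fin n) (F : Finset (Fin n)), v ∉ F → (P.bs j U v F).1 ⊆ F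
  loc : ∀ (j : ℕ) (U U' : Ev n) (v : Fin n) (F : Finset (Fin n)), v ∉ F →
      (∀ c ∈ insert v (P.bs j U v F).1, ∀ d ∈ F, U s(c, d) = U' s(c, d)) →
      P.bs j U' v F = P.bs j U v F
  lvl : ∀ j : ℕ, ∃ L : Finset ℝ, ∀ (U U' : Ev n) (v : Fin n) (F : Finset (Fin n)),
      lvlEq L U U' → P.bs j U v F = P.bs j U' v F

open Classical in
theorem ebs_sub {P : SP n} (H : HB P) (U : Ev n) {Q X : Finset (Fin n)} (R : Option ℝ) {v : Fin n}
    (hv : v ∈ Q) : (P.ebs U Q X R v).1 ⊆ univ \ (Q ∪ X) := by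
  unfold SP.ebs
  split_ifs
  · exact H.sub _ U v _ (by simp [hv])
  · exact empty_subset _

open Classical in
theorem ebs_loc {P : SP n} (H : HB P) {U U' : Ev n} {Q X : Finset (Fin n)} (R : Option ℝ)
    {v : Fin n} (hv : v ∈ Q)
    (h : ∀ c ∈ insert v (P.ebs U Q X R v).1, ∀ d ∈ univ \ (Q ∪ X), U s(c, d) = U' s(c, d)) :
    P.ebs U' Q X R v = P.ebs U Q X R v := by
  unfold SP.ebs at h ⊢
  split_ifs with hX
  · rw [if_pos hX] at h
    exact H.loc _ U U' v _ (by simp [hv]) h
  · rfl

theorem ebs_lvl {P : SP n} (H : HB P) (Q X : Finset (Fin n)) (R : Option ℝ) :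
    ∃ L : Finset ℝ, ∀ (U U' : Ev n) (v : Fin n), lvlEq L U U' →
      P.ebs U Q X R v = P.ebs U' Q X R v := by
  obtain ⟨L, hL⟩ := H.lvl (P.idx R)
  refine ⟨L, fun U U' v h => ?_⟩
  unfold SP.ebs
  rw [hL U U' v _ h]

theorem lvlEq_mono {L L' : Finset ℝ} (h : L ⊆ L') {U U' : Ev n} (hU : lvlEq L' U U') :
    lvlEq L U U' := fun e p hp => hU e p (h hp)

/-- the path sum depends on finitely many comparisons -/
theorem wsum_lvl {P : SP n} (H : HB P) (z : ℝ) (Q : Finset (Fin n)) :
    ∀ (l : List (Fin n)) (X : Finset (Fin n)) (R : Option ℝ), ∃ L : Finset ℝ,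
      ∀ U U' : Ev n, lvlEq L U U' → P.wsum z U Q l X R = P.wsum z U' Q l X R := by
  classical
  intro l
  induction l with
  | nil => intro X R; exact ⟨∅, fun _ _ _ => rfl⟩
  | cons v l ih =>
    cases l with
    | nil => intro X R; exact ⟨∅, fun _ _ _ => rfl⟩
    | cons w t =>
      intro X R
      choose Lf hLf using ih
      obtain ⟨Lb, hLb⟩ := ebs_lvl H Q X R
      refine ⟨Lb ∪ Lg P ∪ (univ : Finset (Finset (Fin n))).biUnion (fun Y =>
        (univ : Finset Bool).biUnion fun fl => (range (P.I0 + P.I + 1)).biUnion fun c =>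
          Lf (X ∪ Y) (P.nst (staB P R fl) c)), fun U U' h => ?_⟩
      have h1 : lvlEq Lb U U' := lvlEq_mono (by
        intro p hp
        rw [mem_union, mem_union]; exact Or.inl (Or.inl hp)) h
      have h2 : lvlEq (Lg P) U U' := lvlEq_mono (by
        intro p hp
        rw [mem_union, mem_union]; exact Or.inl (Or.inr hp)) h
      rw [wsum_cons, wsum_cons, ← hLb U U' v h1, ← cnt_lvl P h2]
      split_ifs with hc
      · congr 1
        refine hLf _ _ U U' (lvlEq_mono ?_ h)
        intro p hp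
        rw [mem_union]
        refine Or.inr ?_
        simp only [mem_biUnion, mem_univ, true_and, mem_range]
        exact ⟨_, _, _, by omega, hp⟩
      · rfl

theorem BM_wsum {P : SP n} (H : HB P) (z : ℝ) (Q : Finset (Fin n)) (l : List (Fin n))
    (X : Finset (Fin n)) (R : Option ℝ) : BM (fun U : Ev n => P.wsum z U Q l X R) := by
  obtain ⟨L, hL⟩ := wsum_lvl H z Q l X R
  exact BM_lvl L hL

/-- the path sum depends on the edges inside the rest of the path and the fresh vertices -/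
theorem wsum_loc {P : SP n} (H : HB P) (z : ℝ) (Q : Finset (Fin n)) (U U' : Ev n) :
    ∀ (l : List (Fin n)) (X : Finset (Fin n)) (R : Option ℝ), (∀ v ∈ l, v ∈ Q) →
      (∀ c d : Fin n, (c ∈ l ∨ c ∉ Q ∪ X) → (d ∈ l ∨ d ∉ Q ∪ X) → U s(c, d) = U' s(c, d)) →
      P.wsum z U Q l X R = P.wsum z U' Q l X R := by
  classical
  intro l
  induction l with
  | nil => intro X R _ _; rfl
  | cons v l ih =>
    cases l with
    | nil => intro X R _ _; rfl
    | cons w t =>
      intro X R hl h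
      have hv : v ∈ Q := hl v (by simp)
      have hsub := ebs_sub H U (X := X) R hv
      have h1 : P.ebs U' Q X R v = P.ebs U Q X R v := by
        refine ebs_loc H R hv fun c hc d hd => ?_
        refine h c d ?_ ?_
        · rw [mem_insert] at hc
          rcases hc with rfl | hc
          · exact Or.inl (by simp)
          · have := hsub hc
            rw [mem_sdiff] at this
            exact Or.inr this.2
        · rw [mem_sdiff] at hd
          exact Or.inr hd.2
      have h2 : U s(v, w) = U' s(v, w) := h v w (Or.inl (by simp)) (Or.inl (by simp))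
      rw [wsum_cons, wsum_cons, h1, ← h2]
      split_ifs with hc
      · congr 1
        refine ih _ _ (fun u hu => hl u (List.mem_cons_of_mem _ hu)) fun c d hc hd => ?_
        refine h c d ?_ ?_
        · rcases hc with hc | hc
          · exact Or.inl (List.mem_cons_of_mem _ hc)
          · refine Or.inr fun h3 => hc ?_
            rw [mem_union] at h3 ⊢
            rcases h3 with h3 | h3
            · exact Or.inl h3
            · exact Or.inr (mem_union_left _ h3)
        · rcases hd with hd | hd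
          · exact Or.inl (List.mem_cons_of_mem _ hd)
          · refine Or.inr fun h3 => hd ?_
            rw [mem_union] at h3 ⊢
            rcases h3 with h3 | h3
            · exact Or.inl h3
            · exact Or.inr (mem_union_left _ h3)
      · rfl

/-- the event of the result of an exploration -/
def evt (P : SP n) (U : Ev n) (Q X : Finset (Fin n)) (R : Option ℝ) (v : Fin n)
    (Y : Finset (Fin n)) (fl : Bool) : Prop :=
  (P.ebs U Q X R v).1 = Y ∧ (P.ebs U Q X R v).2.isSome = fl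

theorem BM_evt {P : SP n} (H : HB P) (Q X : Finset (Fin n)) (R : Option ℝ) (v : Fin n)
    (Y : Finset (Fin n)) (fl : Bool) : BM (fun U : Ev n => ind (evt P U Q X R v Y fl)) := by
  obtain ⟨L, hL⟩ := ebs_lvl H Q X R
  refine BM_lvl L fun U U' h => ?_
  unfold evt
  rw [hL U U' v h]

open Classical in
/-- expansion over the results -/
theorem wsum_expand {P : SP n} (H : HB P) (z : ℝ) (U : Ev n) {Q : Finset (Fin n)} {v : Fin n}
    (w : Fin n) (t : List (Fin n)) (X : Finset (Fin n)) (R : Option ℝ) (hv : v ∈ Q) :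
    P.wsum z U Q (v :: w :: t) X R =
      ∑ Y ∈ (univ \ (Q ∪ X)).powerset, ∑ fl : Bool, ∑ c ∈ range (P.I0 + P.I + 1),
        ind (evt P U Q X R v Y fl) * (ind (P.cnt (U s(v, w)) = c) *
          (zet P z R fl * P.wst (staB P R fl) c *
            P.wsum z U Q (w :: t) (X ∪ Y) (P.nst (staB P R fl) c))) := by
  rw [Finset.sum_eq_single_of_mem (P.ebs U Q X R v).1 (mem_powerset.2 (ebs_sub H U R hv))]
  · rw [Finset.sum_eq_single_of_mem (P.ebs U Q X R v).2.isSome (mem_univ _)]
    · have h1 : evt P U Q X R v (P.ebs U Q X R v).1 (P.ebs U Q X R v).2.isSome := ⟨rfl, rfl⟩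
      simp only [ind_true h1, one_mul]
      rw [wsum_cons]
      split_ifs with hc
      · rw [Finset.sum_eq_single_of_mem (P.cnt (U s(v, w))) (mem_range.2 (by omega))]
        · rw [ind_true rfl, one_mul]
        · intro c _ hne
          rw [ind_false (Ne.symm hne), zero_mul]
      · rw [Finset.sum_eq_zero]
        intro c hcm
        rw [mem_range] at hcm
        rw [ind_false (by omega), zero_mul]
    · intro fl _ hne
      refine Finset.sum_eq_zero fun c _ => ?_
      rw [ind_false (fun h => hne h.2.symm), zero_mul]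
  · intro Y _ hne
    refine Finset.sum_eq_zero fun fl _ => Finset.sum_eq_zero fun c _ => ?_
    rw [ind_false (fun h => hne h.1.symm), zero_mul]

open Classical in
/-- expectation of the path sum -/
theorem Ex_wsum {P : SP n} (H : HB P) (z : ℝ) {Q : Finset (Fin n)} {v w : Fin n}
    {t : List (Fin n)} (X : Finset (Fin n)) (R : Option ℝ) (hl : ∀ u ∈ v :: w :: t, u ∈ Q)
    (hnd : (v :: w :: t).Nodup) :
    Ex (fun U : Ev n => P.wsum z U Q (v :: w :: t) X R) =
      ∑ Y ∈ (univ \ (Q ∪ X)).powerset, ∑ fl : Bool,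
        Ex (fun U : Ev n => ind (evt P U Q X R v Y fl)) * ∑ c ∈ range (P.I0 + P.I + 1),
          (qc P s(v, w) c * (zet P z R fl * P.wst (staB P R fl) c *
            Ex (fun U : Ev n => P.wsum z U Q (w :: t) (X ∪ Y) (P.nst (staB P R fl) c)))) := by
  have hv : v ∈ Q := hl v (by simp)
  have hw : w ∈ Q := hl w (by simp)
  have hBM : ∀ Y fl c, BM (fun U : Ev n => ind (evt P U Q X R v Y fl) *
      (ind (P.cnt (U s(v, w)) = c) * (zet P z R fl * P.wst (staB P R fl) c *
        P.wsum z U Q (w :: t) (X ∪ Y) (P.nst (staB P R fl) c)))) := fun Y fl c =>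
    (BM_evt H Q X R v Y fl).mul ((BM_cnt P _ c).mul ((BM.const _).mul (BM_wsum H z Q _ _ _)))
  rw [Ex_congr fun U => wsum_expand H z U w t X R hv,
    Ex_sum _ fun Y _ => BM.sum _ fun fl _ => BM.sum _ fun c _ => hBM Y fl c]
  refine Finset.sum_congr rfl fun Y hY => ?_
  rw [Ex_sum _ fun fl _ => BM.sum _ fun c _ => hBM Y fl c]
  refine Finset.sum_congr rfl fun fl _ => ?_
  rw [Ex_sum _ fun c _ => hBM Y fl c, Finset.mul_sum]
  refine Finset.sum_congr rfl fun c _ => ?_
  rw [mem_powerset] at hY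
  -- the set of the revealed edges
  rw [Ex_indep (F := fun U : Ev n => ind (evt P U Q X R v Y fl))
    {e | ∃ c ∈ insert v Y, ∃ d ∈ univ \ (Q ∪ X), e = s(c, d)}]
  · congr 1
    rw [Ex_indep (F := fun U : Ev n => ind (P.cnt (U s(v, w)) = c)) {s(v, w)}]
    · rw [Ex_const_mul]
      rfl
    · intro U U' h
      rw [h _ (Set.mem_singleton _)]
    · intro U U' h
      congr 1
      refine wsum_loc H z Q U U' (w :: t) (X ∪ Y) _
        (fun u hu => hl u (List.mem_cons_of_mem _ hu)) fun c' d hc' hd => ?_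
      refine h _ ?_
      rw [Set.mem_singleton_iff]
      intro he
      have hvt : v ∉ w :: t := (List.nodup_cons.1 hnd).1
      have hvX : ¬ (v ∈ w :: t ∨ v ∉ Q ∪ (X ∪ Y)) := by
        rintro (h1 | h1)
        · exact hvt h1
        · exact h1 (mem_union_left _ hv)
      rw [Sym2.eq_iff] at he
      rcases he with ⟨h1, _⟩ | ⟨_, h1⟩
      · exact hvX (h1 ▸ hc')
      · exact hvX (h1 ▸ hd)
  · have key : ∀ U U' : Ev n, (∀ e ∈ {e | ∃ c ∈ insert v Y, ∃ d ∈ univ \ (Q ∪ X), e = s(c, d)},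
        U e = U' e) → evt P U Q X R v Y fl → evt P U' Q X R v Y fl := by
      intro U U' h hU
      have h1 : P.ebs U' Q X R v = P.ebs U Q X R v := by
        refine ebs_loc H R hv fun c' hc' d hd => ?_
        rw [hU.1] at hc'
        exact h _ ⟨c', hc', d, hd, rfl⟩
      unfold evt
      rw [h1]
      exact hU
    intro U U' h
    by_cases hU : evt P U Q X R v Y fl
    · rw [ind_true hU, ind_true (key U U' h hU)]
    · rw [ind_false hU, ind_false fun hU' => hU (key U' U (fun e he => (h e he).symm) hU')]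
  · intro U U' h
    have h1 : U s(v, w) = U' s(v, w) := by
      refine h _ ?_
      rintro ⟨c', hc', d, hd, he⟩
      rw [mem_sdiff] at hd
      have hdQ : d ∉ Q := fun h2 => hd.2 (mem_union_left _ h2)
      rw [Sym2.eq_iff] at he
      rcases he with ⟨_, h2⟩ | ⟨h2, _⟩
      · exact hdQ (h2 ▸ hw)
      · exact hdQ (h2 ▸ hv)
    rw [h1]
    congr 2
    refine wsum_loc H z Q U U' (w :: t) (X ∪ Y) _
      (fun u hu => hl u (List.mem_cons_of_mem _ hu)) fun c' d hc' hd => ?_
    refine h _ ?_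
    rintro ⟨c1, hc1, d1, hd1, he⟩
    have hvt : v ∉ w :: t := (List.nodup_cons.1 hnd).1
    have hbad : ¬ (c1 ∈ w :: t ∨ c1 ∉ Q ∪ (X ∪ Y)) := by
      rw [mem_insert] at hc1
      rcases hc1 with rfl | hc1
      · rintro (h1 | h1)
        · exact hvt h1
        · exact h1 (mem_union_left _ hv)
      · have hcF := hY hc1
        rw [mem_sdiff] at hcF
        rintro (h1 | h1)
        · exact hcF.2 (mem_union_left _ (hl c1 (List.mem_cons_of_mem _ h1)))
        · exact h1 (mem_union_right _ (mem_union_right _ hc1))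
    rw [Sym2.eq_iff] at he
    rcases he with ⟨h1, _⟩ | ⟨_, h1⟩
    · exact hbad (h1 ▸ hc')
    · exact hbad (h1 ▸ hd)

end PSum

end

end Pool.Agent.TH972.U
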