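import Pool.Agent.TH972.U.SDef
import Pool.Agent.TH972.U.Lvl
import Pool.Agent.TH972.U.PSum1

/-!
# The annealed path sum
-/

set_option autoImplicit false
set_option linter.unusedSectionVars false

namespace Pool.Agent.TH972.U

open Finset MeasureTheory Pool.Agent.W842.RST Pool.Agent.TH972

noncomputable section

variable {n : ℕ}

namespace PSum

/-- the potential of a state -/
def Psi (P : SP n) (K : ℝ) (R : Option ℝ) : ℝ :=
  match R with
  | none => (K / P.lam) ^ 20
  | some r => (Real.log r / P.lam) ^ 20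

/-- the size of a state -/
def kk (P : SP n) (R : Option ℝ) : ℝ :=
  match R with
  | none => P.I
  | some r => Real.log r

/-- the states which occur -/
def St (P : SP n) (M : ℝ) (R : Option ℝ) : Prop :=
  match R with
  | none => True
  | some r => 0 < r ∧ P.lam ≤ Real.log r ∧ r ≤ Real.exp (P.I + P.b) * (2 * M + 1)

/-- the edge sum -/
def SS (P : SP n) (K : ℝ) (e : Sym2 (Fin n)) (R : Option ℝ) : ℝ :=
  ∑ c ∈ range (P.I0 + P.I + 1), qc P e c * (P.wst R c * Psi P K (P.nst R c))

/-- the hypotheses -/
structure Hyp (P : SP n) (y K a : ℝ) (m : ℕ) : Prop where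
  hn : 0 < n
  hy : 0 < y
  hmono : Monotone P.gam
  h0 : n * P.gam 0 = 1
  hg0 : 0 ≤ P.gam (-(P.I0 : ℤ))
  hg1 : P.gam P.I ≤ 1
  hgd : ∀ i : ℤ, -(P.I0 : ℤ) ≤ i → i < P.I → n * (P.gam (i + 1) - P.gam i) ≤ 1.001 / y
  hI0 : y ≤ Real.exp P.I0
  hlam : 10 ^ 4 ≤ P.lam
  hlamI : P.lam ≤ P.I
  hb0 : 0 ≤ P.b
  hb : P.b ≤ P.lam / 100
  hK : 1.15 * (P.I + P.b + Real.log (2 * m + 1)) ≤ K
  hKy : K / y ≤ 1 / 1000
  ha : 0 ≤ a
  hX0 : 0 ≤ P.X0
  hH : HB P
  hfail : ∀ (j : ℕ) (v : Fin n) (F : Finset (Fin n)), 0.84 * P.lam ≤ j → (j : ℝ) ≤ K → v ∉ F →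
      (n : ℝ) - P.X0 - (m + 1) ≤ F.card →
      Ex (fun U : Ev n => ind ((P.bs j U v F).2 = none)) ≤ Real.exp (-(1.5 * j / y))
  hsize : ∀ (j : ℕ) (v : Fin n) (F : Finset (Fin n)), 0.84 * P.lam ≤ j → (j : ℝ) ≤ K → v ∉ F →
      Ex (fun U : Ev n => Real.exp (a * (P.bs j U v F).1.card)) ≤ 1 + P.lam / (100 * y)

variable {P : SP n} {y K a : ℝ} {m : ℕ}

theorem Hyp.nR (h : Hyp P y K a m) : (0 : ℝ) < n := by exact_mod_cast h.hn

theorem Hyp.lam0 (h : Hyp P y K a m) : 0 < P.lam := by have := h.hlam; linarith

theorem Hyp.log0 (_h : Hyp P y K a m) : 0 ≤ Real.log (2 * m + 1) := by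
  refine Real.log_nonneg ?_
  have : (0 : ℝ) ≤ m := by positivity
  linarith

theorem Hyp.IK (h : Hyp P y K a m) : 1.15 * (P.I + P.b) ≤ K := by
  have h1 := h.hK
  have h2 := h.log0
  linarith

theorem Hyp.lamK (h : Hyp P y K a m) : P.lam ≤ K := by
  have h1 := h.IK
  have h2 := h.hlamI
  have h3 := h.hb0
  have h4 := h.lam0
  linarith

theorem wst_nonneg {R : Option ℝ} (hR : ∀ r, R = some r → 0 < r) (c : ℕ) : 0 ≤ P.wst R c := by
  cases R with
  | none => exact zero_le_one
  | some r =>
    have hr := hR r rfl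
    unfold SP.wst SP.rlo
    split_ifs
    · positivity
    · positivity

theorem wst_le_one {R : Option ℝ} (hR : ∀ r, R = some r → 0 < r) (c : ℕ) : P.wst R c ≤ 1 := by
  cases R with
  | none => exact le_rfl
  | some r =>
    have hr := hR r rfl
    have h0 : 0 ≤ P.rlo c := by
      unfold SP.rlo
      split_ifs
      · exact le_rfl
      · exact (Real.exp_pos _).le
    unfold SP.wst
    rw [div_le_one (by linarith)]
    linarith

theorem zet_nonneg (R : Option ℝ) (fl : Bool) : 0 ≤ zet P (1 / 20) R fl := by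
  unfold zet
  split_ifs <;> norm_num

theorem zet_le_one (R : Option ℝ) (fl : Bool) : zet P (1 / 20) R fl ≤ 1 := by
  unfold zet
  split_ifs <;> norm_num

theorem Psi_nonneg (R : Option ℝ) : 0 ≤ Psi P K R := by
  cases R with
  | none => exact Even.pow_nonneg (by decide) _
  | some r => exact Even.pow_nonneg (by decide) _

/-- the edge sum in a known state -/
theorem SS_some (h : Hyp P y K a m) (e : Sym2 (Fin n)) {r : ℝ} (hr : 0 < r)
    (hk : 10 ^ 4 ≤ Real.log r) :
    SS P K e (some r) ≤ (Real.log r / P.lam) ^ 20 * ((1 + 1.01 * Real.log r / y) / n) := by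
  have h1 := edge_sum h.hn h.hy P.I0 P.I h.hI0 (qc P e) (qc_nonneg P e) (by
      have h2 := sum_qc h.hmono h.hg0 h.hg1 e (N := P.I0) (by omega)
      rw [sub_self] at h2
      have h3 : P.gam 0 = 1 / n := by
        rw [eq_div_iff h.nR.ne', mul_comm]; exact h.h0
      rw [h3] at h2
      exact h2)
    (fun c hc1 hc => qc_le' h.hn h.hy h.hmono h.hg0 h.hg1 h.hgd e hc1 hc) h.lam0 hr rfl hk
    P.rlo P.rhi (fun c => rfl) (fun c => rfl)
  refine le_trans (le_of_eq ?_) h1
  unfold SS
  refine Finset.sum_congr rfl fun c _ => ?_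
  unfold SP.wst SP.nst Psi
  ring

/-- the total probability of the classes -/
theorem sum_all (h : Hyp P y K a m) (e : Sym2 (Fin n)) :
    ∑ c ∈ range (P.I0 + P.I + 1), qc P e c ≤ P.gam P.I := by
  have h2 := sum_qc h.hmono h.hg0 h.hg1 e (N := P.I0 + P.I) le_rfl
  have e1 : (((P.I0 + P.I : ℕ) : ℤ)) - P.I0 = P.I := by push_cast; ring
  rw [e1] at h2
  exact h2

theorem gamI_le (h : Hyp P y K a m) : P.gam P.I ≤ (1 + 1.01 * P.I / y) / n := by
  have h3 := gam_le h.hn h.h0 h.hgd P.I le_rfl
  rw [le_div_iff₀ h.nR, mul_comm]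
  refine h3.trans ?_
  have hy := h.hy
  have : (P.I : ℝ) * (1.001 / y) ≤ 1.01 * P.I / y := by
    rw [mul_div_assoc', mul_comm (P.I : ℝ)]
    have : (0 : ℝ) ≤ P.I := by positivity
    exact div_le_div_of_nonneg_right (by linarith) hy.le
  linarith

theorem gamI_nonneg (h : Hyp P y K a m) : 0 ≤ P.gam P.I :=
  h.hg0.trans (h.hmono (by omega))

theorem SS_none (h : Hyp P y K a m) (e : Sym2 (Fin n)) :
    SS P K e none ≤ (K / P.lam) ^ 20 * ((1 + 1.01 * P.I / y) / n) := by
  have e1 : SS P K e none = (K / P.lam) ^ 20 * ∑ c ∈ range (P.I0 + P.I + 1), qc P e c := by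
    unfold SS
    rw [Finset.mul_sum]
    refine Finset.sum_congr rfl fun c _ => ?_
    show qc P e c * (1 * (K / P.lam) ^ 20) = _
    ring
  rw [e1]
  exact mul_le_mul_of_nonneg_left ((sum_all h e).trans (gamI_le h))
    (Even.pow_nonneg (by decide) _)

theorem exp_neg_bound {u x : ℝ} (hu0 : 0 ≤ u) (hu : u ≤ 1 / 1000) (hx : 1.27 * u ≤ x) :
    Real.exp (-x) ≤ 1 - 1.25 * u := by
  have h1 : Real.exp (-x) ≤ Real.exp (-(1.27 * u)) := Real.exp_le_exp.2 (by linarith)
  refine h1.trans ?_
  have h2 := Real.add_one_le_exp (1.27 * u)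
  have h3 : Real.exp (1.27 * u) * Real.exp (-(1.27 * u)) = 1 := by
    rw [← Real.exp_add]; simp
  have h4 := Real.exp_pos (-(1.27 * u))
  have h5 : (1 + 1.27 * u) * Real.exp (-(1.27 * u)) ≤ 1 := by
    rw [← h3]
    exact mul_le_mul_of_nonneg_right (by linarith) h4.le
  have h6 : 0 < 1 + 1.27 * u := by linarith
  have h7 : Real.exp (-(1.27 * u)) ≤ 1 / (1 + 1.27 * u) := by
    rw [le_div_iff₀ h6, mul_comm]; exact h5
  refine h7.trans ?_
  rw [div_le_iff₀ h6]
  nlinarith

/-- the first term of the step -/
theorem termA {u pf ps S0 S1 Ps N : ℝ} (hu0 : 0 ≤ u) (hu : u ≤ 1 / 1000) (hpf0 : 0 ≤ pf)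
    (hps0 : 0 ≤ ps) (hp : pf + ps = 1) (hpf : pf ≤ 1 - 1.25 * u) (hPs : 0 ≤ Ps) (hN : 0 < N)
    (h0 : S0 ≤ Ps * ((1 + 1.03 * u) / N)) (h1 : S1 ≤ 0.062 * Ps * ((1 + 1.03 * u) / N)) :
    pf * S0 + ps * S1 ≤ Ps * ((1 - 0.1 * u) / N) := by
  have h2 : pf * S0 + ps * S1 ≤ pf * (Ps * ((1 + 1.03 * u) / N)) +
      ps * (0.062 * Ps * ((1 + 1.03 * u) / N)) :=
    add_le_add (mul_le_mul_of_nonneg_left h0 hpf0) (mul_le_mul_of_nonneg_left h1 hps0)
  refine h2.trans ?_
  have e1 : pf * (Ps * ((1 + 1.03 * u) / N)) + ps * (0.062 * Ps * ((1 + 1.03 * u) / N)) =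
      Ps * ((1 + 1.03 * u) * (pf + 0.062 * ps) / N) := by ring
  rw [e1]
  refine mul_le_mul_of_nonneg_left (div_le_div_of_nonneg_right ?_ hN.le) hPs
  have h3 : pf + 0.062 * ps ≤ 1 - 1.1725 * u := by
    have : ps = 1 - pf := by linarith
    rw [this]
    linarith
  have h4 : 0 ≤ 1 + 1.03 * u := by linarith
  calc (1 + 1.03 * u) * (pf + 0.062 * ps) ≤ (1 + 1.03 * u) * (1 - 1.1725 * u) :=
        mul_le_mul_of_nonneg_left h3 h4
    _ ≤ 1 - 0.1 * u := by nlinarith

/-- facts on a state -/
structure Fac (P : SP n) (y K : ℝ) (e : Sym2 (Fin n)) (R : Option ℝ) : Prop where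
  lamk : P.lam ≤ kk P R
  kK : 1.15 * kk P R ≤ K
  idx_ge : 0.8499 * kk P R ≤ P.idx R
  idx_le : (P.idx R : ℝ) ≤ kk P R
  S0 : SS P K e R ≤ Psi P K R * ((1 + 1.03 * (kk P R / y)) / n)
  S1 : zet P (1 / 20) R true * SS P K e (some (P.Rs (P.idx R))) ≤
    0.062 * Psi P K R * ((1 + 1.03 * (kk P R / y)) / n)
  one : 1 ≤ Psi P K R

theorem pow_bound {x : ℝ} (h0 : 0 ≤ x) (h1 : x ≤ 0.87) : x ^ 20 ≤ 0.062 := by
  refine (pow_le_pow_left₀ h0 h1 20).trans ?_
  norm_num

theorem log_Rs (P : SP n) (j : ℕ) : Real.log (P.Rs j) = max (j + P.b) P.lam := by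
  unfold SP.Rs
  rw [Real.log_exp]

theorem Rs_pos (P : SP n) (j : ℕ) : 0 < P.Rs j := Real.exp_pos _

theorem fac_none (h : Hyp P y K a m) (e : Sym2 (Fin n)) : Fac P y K e none := by
  have hlam := h.hlam
  have hlam0 := h.lam0
  have hI := h.hlamI
  have hb := h.hb
  have hb0 := h.hb0
  have hIK := h.IK
  have hy := h.hy
  have hn := h.nR
  have hKlam := h.lamK
  have hk : kk P none = P.I := rfl
  have hidx : P.idx none = P.I := rfl
  have hPsi : Psi P K none = (K / P.lam) ^ 20 := rfl
  have hI0 : (0 : ℝ) ≤ P.I := by positivity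
  have hle : (1.01 * (P.I : ℝ)) / y ≤ 1.03 * (P.I / y) := by
    rw [mul_div_assoc']
    exact div_le_div_of_nonneg_right (by linarith) hy.le
  refine ⟨by rw [hk]; exact hI, by rw [hk]; linarith, by rw [hk, hidx]; linarith,
    by rw [hk, hidx], ?_, ?_, ?_⟩
  · rw [hk, hPsi]
    refine (SS_none h e).trans (mul_le_mul_of_nonneg_left ?_ (Even.pow_nonneg (by decide) _))
    exact div_le_div_of_nonneg_right (by linarith) hn.le
  · rw [hk, hPsi, hidx]
    have hz : zet P (1 / 20) none true = 1 := by
      unfold zet SP.low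
      simp
    rw [hz, one_mul]
    have hlog : Real.log (P.Rs P.I) = P.I + P.b := by
      rw [log_Rs, max_eq_left (by linarith)]
    have h1 := SS_some h e (Rs_pos P P.I) (by rw [hlog]; linarith)
    rw [hlog] at h1
    refine h1.trans ?_
    have h2 : ((P.I + P.b) / P.lam) ^ 20 ≤ 0.062 * (K / P.lam) ^ 20 := by
      have h3 : (P.I + P.b) / P.lam = ((P.I + P.b) / K) * (K / P.lam) := by
        have : K ≠ 0 := by linarith
        field_simp
      rw [h3, mul_pow]
      refine mul_le_mul_of_nonneg_right (pow_bound ?_ ?_) (Even.pow_nonneg (by decide) _)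
      · exact div_nonneg (by linarith) (by linarith)
      · rw [div_le_iff₀ (by linarith)]
        linarith
    have h3 : 1.01 * ((P.I : ℝ) + P.b) / y ≤ 1.03 * (P.I / y) := by
      rw [mul_div_assoc']
      exact div_le_div_of_nonneg_right (by linarith) hy.le
    refine mul_le_mul h2 (div_le_div_of_nonneg_right (by linarith) hn.le) ?_ ?_
    · exact div_nonneg (by
        have : 0 ≤ 1.01 * ((P.I : ℝ) + P.b) / y := by positivity
        linarith) hn.le
    · exact mul_nonneg (by norm_num) (Even.pow_nonneg (by decide) _)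
  · rw [hPsi]
    refine one_le_pow₀ ?_
    rw [le_div_iff₀ hlam0]
    linarith

theorem fac_some (h : Hyp P y K a m) (e : Sym2 (Fin n)) {r M : ℝ} (hM0 : 0 ≤ M) (hM : M ≤ m)
    (hst : St P M (some r)) : Fac P y K e (some r) := by
  obtain ⟨hr, hlk, hrM⟩ := hst
  have hlam := h.hlam
  have hlam0 := h.lam0
  have hI := h.hlamI
  have hb := h.hb
  have hb0 := h.hb0
  have hy := h.hy
  have hn := h.nR
  set k := Real.log r with hk
  have hkk : kk P (some r) = k := rfl
  have hidx : P.idx (some r) = ⌊0.85 * k⌋₊ := rfl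
  have hPsi : Psi P K (some r) = (k / P.lam) ^ 20 := rfl
  have hk0 : 0 < k := by linarith
  have hkK : 1.15 * k ≤ K := by
    have h1 : k ≤ P.I + P.b + Real.log (2 * m + 1) := by
      rw [hk]
      have h2 : Real.log r ≤ Real.log (Real.exp (P.I + P.b) * (2 * M + 1)) :=
        Real.log_le_log hr hrM
      rw [Real.log_mul (Real.exp_pos _).ne' (by linarith), Real.log_exp] at h2
      have h3 : Real.log (2 * M + 1) ≤ Real.log (2 * m + 1) :=
        Real.log_le_log (by linarith) (by linarith)
      linarith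
    have := h.hK
    linarith
  have hj1 : 0.85 * k - 1 ≤ (⌊0.85 * k⌋₊ : ℝ) := by
    have := Nat.lt_floor_add_one (0.85 * k)
    linarith
  have hj2 : (⌊0.85 * k⌋₊ : ℝ) ≤ 0.85 * k := Nat.floor_le (by linarith)
  have hlog : Real.log (P.Rs (P.idx (some r))) = max ((⌊0.85 * k⌋₊ : ℝ) + P.b) P.lam := by
    rw [log_Rs, hidx]
  set k' := max ((⌊0.85 * k⌋₊ : ℝ) + P.b) P.lam with hk'
  have hk'k : k' ≤ k := max_le (by linarith) hlk
  have hk'lam : P.lam ≤ k' := le_max_right _ _
  refine ⟨by rw [hkk]; exact hlk, by rw [hkk]; exact hkK, by rw [hkk, hidx]; linarith,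
    by rw [hkk, hidx]; linarith, ?_, ?_, ?_⟩
  · rw [hkk, hPsi]
    refine (SS_some h e hr (by linarith)).trans (mul_le_mul_of_nonneg_left ?_
      (Even.pow_nonneg (by decide) _))
    refine div_le_div_of_nonneg_right ?_ hn.le
    have : 1.01 * k / y ≤ 1.03 * (k / y) := by
      rw [mul_div_assoc']
      exact div_le_div_of_nonneg_right (by linarith) hy.le
    linarith
  · rw [hkk, hPsi]
    have h1 := SS_some h e (Rs_pos P (P.idx (some r))) (by rw [hlog]; linarith)
    rw [hlog] at h1
    have h2 : zet P (1 / 20) (some r) true * (k' / P.lam) ^ 20 ≤ 0.062 * (k / P.lam) ^ 20 := by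
      by_cases hl : P.low (some r)
      · have hz : zet P (1 / 20) (some r) true = 1 / 20 := by
          unfold zet
          rw [if_pos ⟨rfl, hl⟩]
        rw [hz]
        have h3 : (k' / P.lam) ^ 20 ≤ (k / P.lam) ^ 20 :=
          pow_le_pow_left₀ (by positivity) (div_le_div_of_nonneg_right hk'k hlam0.le) 20
        have h4 : 0 ≤ (k / P.lam) ^ 20 := Even.pow_nonneg (by decide) _
        linarith
      · have hz : zet P (1 / 20) (some r) true = 1 := by
          unfold zet
          rw [if_neg (fun h5 => hl h5.2)]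
        rw [hz, one_mul]
        have hl' : 1.15 * P.lam < k := not_le.1 hl
        have h3 : k' ≤ 0.87 * k := max_le (by linarith) (by linarith)
        have h5 : k' / P.lam = (k' / k) * (k / P.lam) := by field_simp
        rw [h5, mul_pow]
        refine mul_le_mul_of_nonneg_right (pow_bound (by positivity) ?_)
          (Even.pow_nonneg (by decide) _)
        rw [div_le_iff₀ hk0]
        exact h3
    have h3 : (1 + 1.01 * k' / y) / n ≤ (1 + 1.03 * (k / y)) / n := by
      refine div_le_div_of_nonneg_right ?_ hn.le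
      have : 1.01 * k' / y ≤ 1.03 * (k / y) := by
        rw [mul_div_assoc']
        exact div_le_div_of_nonneg_right (by linarith) hy.le
      linarith
    calc zet P (1 / 20) (some r) true * SS P K e (some (P.Rs (P.idx (some r))))
        ≤ zet P (1 / 20) (some r) true * ((k' / P.lam) ^ 20 * ((1 + 1.01 * k' / y) / n)) :=
          mul_le_mul_of_nonneg_left h1 (zet_nonneg _ _)
      _ = (zet P (1 / 20) (some r) true * (k' / P.lam) ^ 20) * ((1 + 1.01 * k' / y) / n) := by ring
      _ ≤ (0.062 * (k / P.lam) ^ 20) * ((1 + 1.03 * (k / y)) / n) := by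
          refine mul_le_mul h2 h3 (by positivity) (by positivity)
  · rw [hPsi]
    refine one_le_pow₀ ?_
    rw [le_div_iff₀ hlam0]
    linarith

theorem fac (h : Hyp P y K a m) (e : Sym2 (Fin n)) {R : Option ℝ} {M : ℝ} (hM0 : 0 ≤ M)
    (hM : M ≤ m) (hst : St P M R) : Fac P y K e R := by
  cases R with
  | none => exact fac_none h e
  | some r => exact fac_some h e hM0 hM hst

/-- the next state -/
theorem st_next (h : Hyp P y K a m) {R : Option ℝ} {M : ℝ} (hM0 : 0 ≤ M) (hst : St P M R)
    (fl : Bool) {c : ℕ} (hc : c ≤ P.I0 + P.I) : St P (M + 1) (P.nst (staB P R fl) c) := by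
  have hI := h.hlamI
  have hb := h.hb
  have hb0 := h.hb0
  have hlam := h.hlam
  have hlam0 := h.lam0
  have hrhi : P.rhi c ≤ Real.exp (P.I + P.b) := by
    unfold SP.rhi
    refine Real.exp_le_exp.2 ?_
    have : (c : ℝ) ≤ P.I0 + P.I := by exact_mod_cast hc
    linarith
  have hrhi0 : 0 < P.rhi c := Real.exp_pos _
  -- known state
  have key : ∀ r : ℝ, St P M (some r) → St P (M + 1) (P.nst (some r) c) := by
    intro r hr
    obtain ⟨h1, h2, h3⟩ := hr
    refine ⟨by positivity, ?_, ?_⟩
    · exact h2.trans (Real.log_le_log h1 (by linarith))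
    · have : Real.exp (P.I + P.b) * (2 * (M + 1) + 1) =
          Real.exp (P.I + P.b) * (2 * M + 1) + 2 * Real.exp (P.I + P.b) := by ring
      rw [this]
      linarith
  have hE := Real.exp_pos ((P.I : ℝ) + P.b)
  cases fl with
  | false =>
    cases R with
    | none => trivial
    | some r => exact key r hst
  | true =>
    refine key _ ⟨Rs_pos P _, ?_, ?_⟩
    · rw [log_Rs]; exact le_max_right _ _
    · cases R with
      | none =>
        have : P.Rs (P.idx none) = Real.exp (P.I + P.b) := by
          unfold SP.Rs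
          have : P.idx none = P.I := rfl
          rw [this, max_eq_left (by linarith)]
        rw [this]
        nlinarith
      | some r =>
        obtain ⟨h1, h2, h3⟩ := hst
        refine le_trans ?_ h3
        have hj2 : (⌊0.85 * Real.log r⌋₊ : ℝ) ≤ 0.85 * Real.log r := Nat.floor_le (by linarith)
        have : P.Rs (P.idx (some r)) ≤ Real.exp (Real.log r) := by
          unfold SP.Rs
          refine Real.exp_le_exp.2 (max_le ?_ h2)
          show (⌊0.85 * Real.log r⌋₊ : ℝ) + P.b ≤ Real.log r
          linarith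
        rwa [Real.exp_log h1] at this

theorem st_pos {R : Option ℝ} {M : ℝ} (hst : St P M R) : ∀ r, R = some r → 0 < r := by
  intro r hr
  subst hr
  exact hst.1

theorem staB_pos {R : Option ℝ} (hR : ∀ r, R = some r → 0 < r) (fl : Bool) :
    ∀ r, staB P R fl = some r → 0 < r := by
  intro r hr
  cases fl with
  | false => exact hR r hr
  | true =>
    have : some (P.Rs (P.idx R)) = some r := hr
    rw [← Option.some.inj this]
    exact Rs_pos P _

theorem nst_pos {R : Option ℝ} (hR : ∀ r, R = some r → 0 < r) (c : ℕ) :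
    ∀ r, P.nst R c = some r → 0 < r := by
  intro r hr
  cases R with
  | none => exact absurd hr (by simp [SP.nst])
  | some r' =>
    have h1 := hR r' rfl
    have : some (r' + 2 * P.rhi c) = some r := hr
    rw [← Option.some.inj this]
    have h2 : 0 < P.rhi c := Real.exp_pos _
    linarith

/-- the case of a large explored set -/
theorem wsum_big (h : Hyp P y K a m) {Q : Finset (Fin n)} :
    ∀ (i : ℕ) (l : List (Fin n)), l.length = i + 1 → l.Nodup → (∀ u ∈ l, u ∈ Q) →
      ∀ (X : Finset (Fin n)) (R : Option ℝ), P.X0 < X.card → (∀ r, R = some r → 0 < r) →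
      Ex (fun U : Ev n => P.wsum (1 / 20) U Q l X R) ≤ P.gam P.I ^ i := by
  classical
  intro i
  induction i with
  | zero =>
    intro l hl _ _ X R _ _
    obtain ⟨v, rfl⟩ := List.length_eq_one_iff.1 hl
    have : (fun U : Ev n => P.wsum (1 / 20) U Q [v] X R) = fun _ => 1 := rfl
    rw [this, Ex_const, pow_zero]
  | succ i ih =>
    intro l hl hnd hQ X R hX hR
    match l, hl, hnd, hQ with
    | v :: w :: t, hl, hnd, hQ =>
      rw [Ex_wsum h.hH (1 / 20) X R hQ hnd]
      have hebs : ∀ U : Ev n, P.ebs U Q X R v = (∅, none) := by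
        intro U
        unfold SP.ebs
        rw [if_neg (not_le.2 hX)]
      have hevt : ∀ (Y : Finset (Fin n)) (fl : Bool), ¬ (Y = ∅ ∧ fl = false) →
          Ex (fun U : Ev n => ind (evt P U Q X R v Y fl)) = 0 := by
        intro Y fl hne
        rw [Ex_congr (G := fun _ => 0), Ex_const]
        intro U
        refine ind_false ?_
        unfold evt
        rw [hebs U]
        rintro ⟨h1, h2⟩
        exact hne ⟨h1.symm, h2.symm⟩
      rw [Finset.sum_eq_single_of_mem ∅ (mem_powerset.2 (empty_subset _))]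
      · rw [Finset.sum_eq_single_of_mem false (mem_univ _)]
        · have h1 : Ex (fun U : Ev n => ind (evt P U Q X R v ∅ false)) = 1 := by
            rw [Ex_congr (G := fun _ => 1), Ex_const]
            intro U
            refine ind_true ?_
            unfold evt
            rw [hebs U]
            exact ⟨rfl, rfl⟩
          rw [h1, one_mul, pow_succ, mul_comm]
          refine le_trans ?_ (mul_le_mul_of_nonneg_right (sum_all h s(v, w))
            (pow_nonneg (gamI_nonneg h) i))
          rw [Finset.sum_mul]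
          refine Finset.sum_le_sum fun c _ => mul_le_mul_of_nonneg_left ?_ (qc_nonneg _ _ _)
          have hR' := staB_pos (P := P) hR false
          have h2 := ih (w :: t) (by simpa using hl) (List.nodup_cons.1 hnd).2
            (fun u hu => hQ u (List.mem_cons_of_mem _ hu)) (X ∪ ∅)
            (P.nst (staB P R false) c) (by simpa using hX) (nst_pos hR' c)
          have h3 : 0 ≤ zet P (1 / 20) R false * P.wst (staB P R false) c :=
            mul_nonneg (zet_nonneg _ _) (wst_nonneg hR' c)
          have h4 : zet P (1 / 20) R false * P.wst (staB P R false) c ≤ 1 :=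
            mul_le_one₀ (zet_le_one _ _) (wst_nonneg hR' c) (wst_le_one hR' c)
          calc zet P (1 / 20) R false * P.wst (staB P R false) c *
                Ex (fun U : Ev n => P.wsum (1 / 20) U Q (w :: t) (X ∪ ∅)
                  (P.nst (staB P R false) c))
              ≤ zet P (1 / 20) R false * P.wst (staB P R false) c * P.gam P.I ^ i :=
                mul_le_mul_of_nonneg_left h2 h3
            _ ≤ P.gam P.I ^ i :=
                mul_le_of_le_one_left (pow_nonneg (gamI_nonneg h) i) h4
        · intro fl _ hne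
          rw [hevt ∅ fl (fun h5 => hne h5.2), zero_mul]
      · intro Y _ hne
        refine Finset.sum_eq_zero fun fl _ => ?_
        rw [hevt Y fl (fun h5 => hne h5.1), zero_mul]

open Classical in
/-- summation over the explored sets -/
theorem sum_evt (h : HB P) {Q X : Finset (Fin n)} {R : Option ℝ} {v : Fin n} (hv : v ∈ Q)
    (f : Finset (Fin n) → Bool → ℝ) :
    ∑ Y ∈ (univ \ (Q ∪ X)).powerset, ∑ fl : Bool,
      Ex (fun U : Ev n => ind (evt P U Q X R v Y fl)) * f Y fl =
      Ex (fun U : Ev n => f (P.ebs U Q X R v).1 (P.ebs U Q X R v).2.isSome) := by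
  have e1 : ∀ U : Ev n, f (P.ebs U Q X R v).1 (P.ebs U Q X R v).2.isSome =
      ∑ Y ∈ (univ \ (Q ∪ X)).powerset, ∑ fl : Bool, f Y fl * ind (evt P U Q X R v Y fl) := by
    intro U
    rw [Finset.sum_eq_single_of_mem (P.ebs U Q X R v).1 (mem_powerset.2 (ebs_sub h U R hv))]
    · rw [Finset.sum_eq_single_of_mem (P.ebs U Q X R v).2.isSome (mem_univ _)]
      · have h1 : evt P U Q X R v (P.ebs U Q X R v).1 (P.ebs U Q X R v).2.isSome := ⟨rfl, rfl⟩
        rw [ind_true h1, mul_one]
      · intro fl _ hne
        rw [ind_false (fun h => hne h.2.symm), mul_zero]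
    · intro Y _ hne
      refine Finset.sum_eq_zero fun fl _ => ?_
      rw [ind_false (fun h => hne h.1.symm), mul_zero]
  rw [Ex_congr e1, Ex_sum _ fun Y _ => BM.sum _ fun fl _ => (BM.const _).mul (BM_evt h Q X R v Y fl)]
  refine Finset.sum_congr rfl fun Y _ => ?_
  rw [Ex_sum _ fun fl _ => (BM.const _).mul (BM_evt h Q X R v Y fl)]
  refine Finset.sum_congr rfl fun fl _ => ?_
  rw [Ex_const_mul, mul_comm]

/-- the induction along the path -/
theorem main_ind (h : Hyp P y K a m) {Q : Finset (Fin n)} (hQc : Q.card ≤ m + 1) :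
    ∀ (i : ℕ) (l : List (Fin n)), l.length = i + 1 → l.Nodup → (∀ u ∈ l, u ∈ Q) → i ≤ m →
      ∀ (X : Finset (Fin n)) (R : Option ℝ), St P ((m : ℝ) - i) R →
      Ex (fun U : Ev n => P.wsum (1 / 20) U Q l X R) ≤ (1 / (n : ℝ)) ^ i * (Psi P K R *
        ((1 - P.lam / (10 * y)) ^ i + Real.exp (a * (X.card - P.X0)) * (1 + 2 * K / y) ^ i)) := by
  classical
  intro i
  induction i with
  | zero =>
    intro l hl _ _ _ X R hst
    obtain ⟨v, rfl⟩ := List.length_eq_one_iff.1 hl
    have h1 : (fun U : Ev n => P.wsum (1 / 20) U Q [v] X R) = fun _ => 1 := rfl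
    rw [h1, Ex_const, pow_zero, pow_zero, pow_zero, one_mul, mul_one]
    have h2 := (fac h s(v, v) (M := (m : ℝ) - (0 : ℕ)) (by simp) (by simp) hst).one
    have h3 := Real.exp_pos (a * (X.card - P.X0))
    nlinarith
  | succ i ih =>
    intro l hl hnd hQ him X R hst
    match l, hl, hnd, hQ with
    | v :: w :: t, hl, hnd, hQ =>
      have hy := h.hy
      have hn := h.nR
      have hlam0 := h.lam0
      have hlamK := h.lamK
      have hKy := h.hKy
      have hKy0 : 0 ≤ K / y := div_nonneg (by linarith) hy.le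
      have hv : v ∈ Q := hQ v (by simp)
      have hM0 : (0 : ℝ) ≤ (m : ℝ) - ((i + 1 : ℕ) : ℝ) := by
        have : ((i + 1 : ℕ) : ℝ) ≤ m := by exact_mod_cast him
        linarith
      have hM : (m : ℝ) - ((i + 1 : ℕ) : ℝ) ≤ m := by
        have : (0 : ℝ) ≤ ((i + 1 : ℕ) : ℝ) := by positivity
        linarith
      have hF := fac h s(v, w) hM0 hM hst
      have hPsi1 := hF.one
      have hPsi0 : 0 ≤ Psi P K R := by linarith
      set D := 1 + 2 * K / y with hD
      set A := 1 - P.lam / (10 * y) with hA
      have hD1 : 1 ≤ D := by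
        rw [hD]
        have : 0 ≤ 2 * K / y := div_nonneg (by linarith) hy.le
        linarith
      have hA0 : 0 ≤ A := by
        have h1 : P.lam / (10 * y) ≤ K / y := by
          rw [div_le_div_iff₀ (by positivity) hy]
          nlinarith
        linarith
      by_cases hX : (X.card : ℝ) ≤ P.X0
      · -- the exploration is made
        set B := Real.exp (a * (X.card - P.X0)) with hB
        have hB0 : 0 < B := Real.exp_pos _
        rw [Ex_wsum h.hH (1 / 20) X R hQ hnd]
        have hterm : ∀ (Y : Finset (Fin n)) (fl : Bool),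
            ∑ c ∈ range (P.I0 + P.I + 1), (qc P s(v, w) c * (zet P (1 / 20) R fl *
              P.wst (staB P R fl) c * Ex (fun U : Ev n => P.wsum (1 / 20) U Q (w :: t) (X ∪ Y)
                (P.nst (staB P R fl) c)))) ≤
            (zet P (1 / 20) R fl * SS P K s(v, w) (staB P R fl)) *
              ((1 / (n : ℝ)) ^ i * (A ^ i + (B * Real.exp (a * Y.card)) * D ^ i)) := by
          intro Y fl
          have hR' := staB_pos (P := P) (st_pos hst) fl
          unfold SS
          rw [mul_assoc, Finset.sum_mul, Finset.mul_sum]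
          refine Finset.sum_le_sum fun c hc => ?_
          rw [mem_range] at hc
          have hst' : St P ((m : ℝ) - i) (P.nst (staB P R fl) c) := by
            have h1 := st_next h hM0 hst fl (c := c) (by omega)
            have e1 : (m : ℝ) - ((i + 1 : ℕ) : ℝ) + 1 = (m : ℝ) - i := by push_cast; ring
            rwa [e1] at h1
          have h2 := ih (w :: t) (by simpa using hl) (List.nodup_cons.1 hnd).2
            (fun u hu => hQ u (List.mem_cons_of_mem _ hu)) (by omega) (X ∪ Y) _ hst'
          have h3 : Real.exp (a * ((X ∪ Y).card - P.X0)) ≤ B * Real.exp (a * Y.card) := by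
            rw [hB, ← Real.exp_add]
            refine Real.exp_le_exp.2 ?_
            have h4 : (((X ∪ Y).card : ℕ) : ℝ) ≤ X.card + Y.card := by
              exact_mod_cast Finset.card_union_le X Y
            have := mul_le_mul_of_nonneg_left h4 h.ha
            linarith
          have h5 : (1 / (n : ℝ)) ^ i * (Psi P K (P.nst (staB P R fl) c) *
              (A ^ i + Real.exp (a * ((X ∪ Y).card - P.X0)) * D ^ i)) ≤
              (1 / (n : ℝ)) ^ i * (Psi P K (P.nst (staB P R fl) c) *
              (A ^ i + (B * Real.exp (a * Y.card)) * D ^ i)) := by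
            refine mul_le_mul_of_nonneg_left (mul_le_mul_of_nonneg_left ?_ (Psi_nonneg _))
              (by positivity)
            have := mul_le_mul_of_nonneg_right h3 (pow_nonneg (by linarith : 0 ≤ D) i)
            linarith
          have h6 : 0 ≤ zet P (1 / 20) R fl * P.wst (staB P R fl) c :=
            mul_nonneg (zet_nonneg _ _) (wst_nonneg hR' c)
          have h7 := mul_le_mul_of_nonneg_left (mul_le_mul_of_nonneg_left (h2.trans h5) h6)
            (qc_nonneg P s(v, w) c)
          refine h7.trans (le_of_eq ?_)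
          ring
        have hp0 : ∀ Y fl, 0 ≤ Ex (fun U : Ev n => ind (evt P U Q X R v Y fl)) :=
          fun Y fl => Ex_nonneg fun U => ind_nonneg _
        refine (Finset.sum_le_sum fun Y _ => Finset.sum_le_sum fun fl _ =>
          mul_le_mul_of_nonneg_left (hterm Y fl) (hp0 Y fl)).trans ?_
        -- the exploration
        have hebs : ∀ U : Ev n, P.ebs U Q X R v = P.bs (P.idx R) U v (univ \ (Q ∪ X)) := by
          intro U
          unfold SP.ebs
          rw [if_pos hX]
        have hvF : v ∉ univ \ (Q ∪ X) := by simp [hv]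
        have hFcard : (n : ℝ) - P.X0 - (m + 1) ≤ ((univ \ (Q ∪ X)).card : ℝ) := by
          rw [Finset.card_sdiff_of_subset (Finset.subset_univ _), Finset.card_univ, Fintype.card_fin]
          have h1 : (Q ∪ X).card ≤ Q.card + X.card := Finset.card_union_le _ _
          have h2 : (Q ∪ X).card ≤ n := by
            have := Finset.card_le_univ (Q ∪ X)
            rwa [Fintype.card_fin] at this
          rw [Nat.cast_sub h2]
          have h3 : (((Q ∪ X).card : ℕ) : ℝ) ≤ (m + 1) + X.card := by
            have : (Q ∪ X).card ≤ (m + 1) + X.card := by omega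
            exact_mod_cast this
          linarith
        have hj1 : 0.84 * P.lam ≤ (P.idx R : ℝ) := by
          have h1 := hF.idx_ge
          have h2 := hF.lamk
          linarith
        have hj2 : (P.idx R : ℝ) ≤ K := by
          have h1 := hF.idx_le
          have h2 := hF.kK
          have h3 := hF.lamk
          linarith
        have hfail := h.hfail (P.idx R) v (univ \ (Q ∪ X)) hj1 hj2 hvF hFcard
        have hsize := h.hsize (P.idx R) v (univ \ (Q ∪ X)) hj1 hj2 hvF
        set u := kk P R / y with hu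
        have hkk0 : 0 ≤ kk P R := by have := hF.lamk; linarith
        have hu0 : 0 ≤ u := div_nonneg hkk0 hy.le
        have huK : 1.15 * u ≤ K / y := by
          rw [hu, mul_div_assoc']
          exact div_le_div_of_nonneg_right hF.kK hy.le
        have hu1 : u ≤ 1 / 1000 := by linarith
        have hulam : P.lam / (10 * y) ≤ 0.1 * u := by
          rw [hu, mul_div_assoc', div_le_div_iff₀ (by positivity) hy]
          have := hF.lamk
          nlinarith
        -- the two sums
        have hsumA : ∑ Y ∈ (univ \ (Q ∪ X)).powerset, ∑ fl : Bool,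
            Ex (fun U : Ev n => ind (evt P U Q X R v Y fl)) *
              (zet P (1 / 20) R fl * SS P K s(v, w) (staB P R fl)) ≤
            Psi P K R * (A / n) := by
          rw [sum_evt h.hH hv (fun _ fl => zet P (1 / 20) R fl * SS P K s(v, w) (staB P R fl))]
          have e1 : ∀ U : Ev n, zet P (1 / 20) R (P.ebs U Q X R v).2.isSome *
              SS P K s(v, w) (staB P R (P.ebs U Q X R v).2.isSome) =
              SS P K s(v, w) R * ind ((P.bs (P.idx R) U v (univ \ (Q ∪ X))).2 = none) +
              (zet P (1 / 20) R true * SS P K s(v, w) (some (P.Rs (P.idx R)))) *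
                (1 - ind ((P.bs (P.idx R) U v (univ \ (Q ∪ X))).2 = none)) := by
            intro U
            rw [hebs U]
            cases hbs : (P.bs (P.idx R) U v (univ \ (Q ∪ X))).2 with
            | none =>
              rw [ind_true rfl]
              have hz : zet P (1 / 20) R false = 1 := by
                unfold zet
                simp
              show zet P (1 / 20) R false * SS P K s(v, w) R = _
              rw [hz]
              ring
            | some x =>
              rw [ind_false (by simp)]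
              show zet P (1 / 20) R true * SS P K s(v, w) (some (P.Rs (P.idx R))) = _
              ring
          rw [Ex_congr e1]
          have hBM : BM (fun U : Ev n => ind ((P.bs (P.idx R) U v (univ \ (Q ∪ X))).2 = none)) := by
            obtain ⟨L, hL⟩ := h.hH.lvl (P.idx R)
            refine BM_lvl L fun U U' hU => ?_
            rw [hL U U' v _ hU]
          rw [Ex_add ((BM.const _).mul hBM) ((BM.const _).mul ((BM.const _).sub hBM)),
            Ex_const_mul, Ex_const_mul, Ex_sub (BM.const _) hBM, Ex_const]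
          set pf := Ex (fun U : Ev n => ind ((P.bs (P.idx R) U v (univ \ (Q ∪ X))).2 = none))
            with hpf
          have hpf0 : 0 ≤ pf := Ex_nonneg fun U => ind_nonneg _
          have hpf1 : pf ≤ 1 - 1.25 * u := by
            refine hfail.trans (exp_neg_bound hu0 hu1 ?_)
            have h1 : 1.27 * u ≤ 1.5 * (P.idx R / y) := by
              rw [hu]
              have h2 : 0.8499 * (kk P R / y) ≤ P.idx R / y := by
                rw [mul_div_assoc']
                exact div_le_div_of_nonneg_right hF.idx_ge hy.le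
              linarith
            rw [mul_div_assoc]
            exact h1
          have hA' := termA (u := u) (pf := pf) (ps := 1 - pf) (Ps := Psi P K R) (N := n) hu0 hu1
            hpf0 (by linarith) (by ring) hpf1 hPsi0 hn hF.S0 hF.S1
          have h2 : Psi P K R * ((1 - 0.1 * u) / n) ≤ Psi P K R * (A / n) := by
            refine mul_le_mul_of_nonneg_left (div_le_div_of_nonneg_right ?_ hn.le) hPsi0
            rw [hA]
            linarith
          linarith
        have hSmax : ∀ fl : Bool, zet P (1 / 20) R fl * SS P K s(v, w) (staB P R fl) ≤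
            Psi P K R * ((1 + K / y) / n) := by
          intro fl
          have h1 : Psi P K R * ((1 + 1.03 * u) / n) ≤ Psi P K R * ((1 + K / y) / n) := by
            refine mul_le_mul_of_nonneg_left (div_le_div_of_nonneg_right ?_ hn.le) hPsi0
            linarith
          cases fl with
          | false =>
            have hz : zet P (1 / 20) R false = 1 := by
              unfold zet
              simp
            rw [hz, one_mul]
            exact hF.S0.trans h1
          | true =>
            refine hF.S1.trans (le_trans ?_ h1)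
            have h2 : 0 ≤ Psi P K R * ((1 + 1.03 * u) / n) := by positivity
            have e1 : 0.062 * Psi P K R * ((1 + 1.03 * (kk P R / y)) / n) =
                0.062 * (Psi P K R * ((1 + 1.03 * u) / n)) := by rw [hu]; ring
            rw [e1]
            linarith
        have hsumB : ∑ Y ∈ (univ \ (Q ∪ X)).powerset, ∑ fl : Bool,
            Ex (fun U : Ev n => ind (evt P U Q X R v Y fl)) *
              ((zet P (1 / 20) R fl * SS P K s(v, w) (staB P R fl)) * Real.exp (a * Y.card)) ≤
            Psi P K R * (D / n) := by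
          have h1 : ∑ Y ∈ (univ \ (Q ∪ X)).powerset, ∑ fl : Bool,
              Ex (fun U : Ev n => ind (evt P U Q X R v Y fl)) *
                ((zet P (1 / 20) R fl * SS P K s(v, w) (staB P R fl)) * Real.exp (a * Y.card)) ≤
              ∑ Y ∈ (univ \ (Q ∪ X)).powerset, ∑ fl : Bool,
              Ex (fun U : Ev n => ind (evt P U Q X R v Y fl)) *
                ((Psi P K R * ((1 + K / y) / n)) * Real.exp (a * Y.card)) := by
            refine Finset.sum_le_sum fun Y _ => Finset.sum_le_sum fun fl _ =>
              mul_le_mul_of_nonneg_left ?_ (hp0 Y fl)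
            exact mul_le_mul_of_nonneg_right (hSmax fl) (Real.exp_pos _).le
          refine h1.trans ?_
          rw [sum_evt h.hH hv (fun Y _ => (Psi P K R * ((1 + K / y) / n)) * Real.exp (a * Y.card)),
            Ex_const_mul]
          have h2 : Ex (fun U : Ev n => Real.exp (a * (P.ebs U Q X R v).1.card)) ≤
              1 + P.lam / (100 * y) := by
            refine le_trans (le_of_eq (Ex_congr fun U => ?_)) hsize
            rw [hebs U]
          have h3 : 0 ≤ Psi P K R * ((1 + K / y) / n) := by positivity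
          refine (mul_le_mul_of_nonneg_left h2 h3).trans ?_
          have h4 : (1 + K / y) * (1 + P.lam / (100 * y)) ≤ D := by
            have h5 : P.lam / (100 * y) ≤ 0.01 * (K / y) := by
              rw [mul_div_assoc', div_le_div_iff₀ (by positivity) hy]
              nlinarith
            have h6 : (1 + K / y) * (1 + P.lam / (100 * y)) ≤ (1 + K / y) * (1 + 0.01 * (K / y)) :=
              mul_le_mul_of_nonneg_left (by linarith) (by linarith)
            refine h6.trans ?_
            rw [hD, mul_div_assoc]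
            nlinarith
          have e1 : Psi P K R * ((1 + K / y) / n) * (1 + P.lam / (100 * y)) =
              Psi P K R * (((1 + K / y) * (1 + P.lam / (100 * y))) / n) := by ring
          rw [e1]
          exact mul_le_mul_of_nonneg_left (div_le_div_of_nonneg_right h4 hn.le) hPsi0
        -- conclusion
        have e1 : ∑ Y ∈ (univ \ (Q ∪ X)).powerset, ∑ fl : Bool,
            Ex (fun U : Ev n => ind (evt P U Q X R v Y fl)) *
              ((zet P (1 / 20) R fl * SS P K s(v, w) (staB P R fl)) *
                ((1 / (n : ℝ)) ^ i * (A ^ i + (B * Real.exp (a * Y.card)) * D ^ i))) =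
            (1 / (n : ℝ)) ^ i * A ^ i * (∑ Y ∈ (univ \ (Q ∪ X)).powerset, ∑ fl : Bool,
              Ex (fun U : Ev n => ind (evt P U Q X R v Y fl)) *
                (zet P (1 / 20) R fl * SS P K s(v, w) (staB P R fl))) +
            (1 / (n : ℝ)) ^ i * B * D ^ i * (∑ Y ∈ (univ \ (Q ∪ X)).powerset, ∑ fl : Bool,
              Ex (fun U : Ev n => ind (evt P U Q X R v Y fl)) *
                ((zet P (1 / 20) R fl * SS P K s(v, w) (staB P R fl)) *
                  Real.exp (a * Y.card))) := by
          simp only [Finset.mul_sum, ← Finset.sum_add_distrib]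
          refine Finset.sum_congr rfl fun Y _ => Finset.sum_congr rfl fun fl _ => ?_
          ring
        rw [e1]
        have g1 := mul_le_mul_of_nonneg_left hsumA
          (show 0 ≤ (1 / (n : ℝ)) ^ i * A ^ i by positivity)
        have g2 := mul_le_mul_of_nonneg_left hsumB
          (show 0 ≤ (1 / (n : ℝ)) ^ i * B * D ^ i by positivity)
        refine (add_le_add g1 g2).trans (le_of_eq ?_)
        rw [pow_succ, pow_succ, pow_succ]
        ring
      · -- no exploration
        push Not at hX
        refine (wsum_big h (i + 1) (v :: w :: t) hl hnd hQ X R hX (st_pos hst)).trans ?_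
        have h1 : P.gam P.I ≤ (1 / (n : ℝ)) * D := by
          refine (gamI_le h).trans ?_
          rw [div_eq_mul_one_div, mul_comm]
          refine mul_le_mul_of_nonneg_left ?_ (by positivity)
          rw [hD]
          have h2 : 1.01 * (P.I : ℝ) / y ≤ 2 * K / y := by
            refine div_le_div_of_nonneg_right ?_ hy.le
            have := h.IK
            have := h.hb0
            have : (0 : ℝ) ≤ P.I := by positivity
            linarith
          linarith
        have h2 : P.gam P.I ^ (i + 1) ≤ (1 / (n : ℝ)) ^ (i + 1) * D ^ (i + 1) := by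
          rw [← mul_pow]
          exact pow_le_pow_left₀ (gamI_nonneg h) h1 _
        refine h2.trans (mul_le_mul_of_nonneg_left ?_ (by positivity))
        have h3 : 1 ≤ Real.exp (a * (X.card - P.X0)) := by
          refine Real.one_le_exp (mul_nonneg h.ha ?_)
          linarith
        have h4 : 0 ≤ D ^ (i + 1) := by positivity
        have h5 : 0 ≤ A ^ (i + 1) := by positivity
        calc D ^ (i + 1) ≤ Real.exp (a * (X.card - P.X0)) * D ^ (i + 1) :=
              le_mul_of_one_le_left h4 h3
          _ ≤ A ^ (i + 1) + Real.exp (a * (X.card - P.X0)) * D ^ (i + 1) := by linarith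
          _ ≤ Psi P K R * (A ^ (i + 1) + Real.exp (a * (X.card - P.X0)) * D ^ (i + 1)) := by
              refine le_mul_of_one_le_left ?_ hPsi1
              have := Real.exp_pos (a * (X.card - P.X0))
              positivity

end PSum

/-- the annealed path sum -/
theorem path_sum (P : SP n) (y K a : ℝ) (m : ℕ) (hn : 0 < n) (hy : 0 < y)
    (hmono : Monotone P.gam) (h0 : n * P.gam 0 = 1) (hg0 : 0 ≤ P.gam (-(P.I0 : ℤ)))
    (hg1 : P.gam P.I ≤ 1)
    (hgd : ∀ i : ℤ, -(P.I0 : ℤ) ≤ i → i < P.I → n * (P.gam (i + 1) - P.gam i) ≤ 1.001 / y)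
    (hI0 : y ≤ Real.exp P.I0) (hlam : 10 ^ 4 ≤ P.lam) (hlamI : P.lam ≤ P.I) (hb0 : 0 ≤ P.b)
    (hb : P.b ≤ P.lam / 100) (hK : 1.15 * (P.I + P.b + Real.log (2 * m + 1)) ≤ K)
    (hKy : K / y ≤ 1 / 1000) (ha : 0 ≤ a) (hX0 : 0 ≤ P.X0)
    (hsub : ∀ (j : ℕ) (U : Ev n) (v : Fin n) (F : Finset (Fin n)), v ∉ F → (P.bs j U v F).1 ⊆ F)
    (hloc : ∀ (j : ℕ) (U U' : Ev n) (v : Fin n) (F : Finset (Fin n)), v ∉ F →
      (∀ c ∈ insert v (P.bs j U v F).1, ∀ d ∈ F, U s(c, d) = U' s(c, d)) →
      P.bs j U' v F = P.bs j U v F)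
    (hlvl : ∀ j : ℕ, ∃ L : Finset ℝ, ∀ (U U' : Ev n) (v : Fin n) (F : Finset (Fin n)),
      lvlEq L U U' → P.bs j U v F = P.bs j U' v F)
    (hfail : ∀ (j : ℕ) (v : Fin n) (F : Finset (Fin n)), 0.84 * P.lam ≤ j → (j : ℝ) ≤ K → v ∉ F →
      (n : ℝ) - P.X0 - (m + 1) ≤ F.card →
      Ex (fun U : Ev n => ind ((P.bs j U v F).2 = none)) ≤ Real.exp (-(1.5 * j / y)))
    (hsize : ∀ (j : ℕ) (v : Fin n) (F : Finset (Fin n)), 0.84 * P.lam ≤ j → (j : ℝ) ≤ K → v ∉ F →
      Ex (fun U : Ev n => Real.exp (a * (P.bs j U v F).1.card)) ≤ 1 + P.lam / (100 * y))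
    (π : List (Fin n)) (hπ : π.Nodup) (hm : π.length = m + 1) :
    Ex (fun U : Ev n => P.wsum (1 / 20) U π.toFinset π ∅ none) ≤
      (K / P.lam) ^ 20 * (1 / (n : ℝ) ^ m) *
        ((1 - P.lam / (10 * y)) ^ m + Real.exp (-(a * P.X0)) * (1 + 2 * K / y) ^ m) := by
  have h : PSum.Hyp P y K a m := ⟨hn, hy, hmono, h0, hg0, hg1, hgd, hI0, hlam, hlamI, hb0, hb, hK,
    hKy, ha, hX0, ⟨hsub, hloc, hlvl⟩, hfail, hsize⟩
  have h1 := PSum.main_ind h (Q := π.toFinset)
    (by rw [← hm]; exact List.toFinset_card_le π) m π hm hπ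
    (fun u hu => List.mem_toFinset.2 hu) le_rfl ∅ none trivial
  refine h1.trans (le_of_eq ?_)
  have e1 : PSum.Psi P K none = (K / P.lam) ^ 20 := rfl
  rw [e1, one_div, inv_pow, ← one_div]
  have e2 : a * (((∅ : Finset (Fin n)).card : ℝ) - P.X0) = -(a * P.X0) := by
    simp
  rw [e2]
  ring

end

end Pool.Agent.TH972.U
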