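import Pool.Agent.TH972.U.PrDef
import Pool.Agent.TH972.U.PSum
import Pool.Agent.TH972.U.BNum
import Pool.Agent.TH972.U.LiftU
import Pool.Agent.TH972.U.Bush

/-!
# The path sum of the environment (job RSTRE N2, helper416 for helper972)
-/

set_option autoImplicit false
set_option linter.unusedSectionVars false

namespace Pool.Agent.TH972.U

open Finset MeasureTheory Pool.Agent.W842.RST Pool.Agent.TH972

noncomputable section

variable {n : ℕ}

namespace PEnv

variable {P : Prm n}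

theorem nR (H : P.Ok) : (0 : ℝ) < n := by
  have := H.hn
  have h2 : 0 < n := by omega
  exact_mod_cast h2

theorem IK (H : P.Ok) : 1.15 * (P.I : ℝ) ≤ P.K := by
  have h1 := H.hK
  have h2 := H.hb0
  have h3 : 0 ≤ Real.log (2 * P.m + 1) := by
    refine Real.log_nonneg ?_
    have : (0 : ℝ) ≤ P.m := by positivity
    linarith
  linarith

theorem I_le (H : P.Ok) : P.I ≤ P.K := by
  have h1 := IK H
  have h2 : (0 : ℝ) ≤ P.I := by positivity
  have h3 : (P.I : ℝ) ≤ P.K := by linarith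
  exact_mod_cast h3

theorem lamK (H : P.Ok) : P.lam ≤ P.K := by
  have h1 := IK H
  have h2 := H.hlamI
  have h3 := H.hlam
  linarith

theorem Kbig (H : P.Ok) : (10 : ℝ) ^ 4 ≤ P.K := H.hlam.trans (lamK H)

/-- sums of the increments -/
theorem sum_hi (H : P.Ok) (i : ℤ) (hi : -(P.K : ℤ) ≤ i) :
    ∀ k : ℕ, i + k ≤ P.K + 1 → n * (P.gam (i + k) - P.gam i) ≤ 1.001 * k / P.y := by
  intro k
  induction k with
  | zero => intro _; simp
  | succ k ih =>
    intro h
    push_cast at h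
    have h1 := ih (by omega)
    have h2 := H.lvs.hi (i + k) (by omega) (by omega)
    have e1 : i + ((k + 1 : ℕ) : ℤ) = i + k + 1 := by push_cast; ring
    rw [e1]
    push_cast
    have e2 : 1.001 * ((k : ℝ) + 1) / P.y = 1.001 * k / P.y + 1.001 / P.y := by ring
    rw [e2]
    linarith

theorem sum_lo (H : P.Ok) (i : ℤ) (hi : -(P.K : ℤ) ≤ i) :
    ∀ k : ℕ, i + k ≤ P.K + 1 → 0.999 * k / P.y ≤ n * (P.gam (i + k) - P.gam i) := by
  intro k
  induction k with
  | zero => intro _; simp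
  | succ k ih =>
    intro h
    push_cast at h
    have h1 := ih (by omega)
    have h2 := H.lvs.lo (i + k) (by omega) (by omega)
    have e1 : i + ((k + 1 : ℕ) : ℤ) = i + k + 1 := by push_cast; ring
    rw [e1]
    push_cast
    have e2 : 0.999 * ((k : ℝ) + 1) / P.y = 0.999 * k / P.y + 0.999 / P.y := by ring
    rw [e2]
    linarith

theorem ypos (H : P.Ok) : 0 < P.y := by
  have h1 := H.lvs.lo 0 (by omega) (by omega)
  have h2 := H.lvs.hi 0 (by omega) (by omega)
  have h3 : 0.999 / P.y ≤ 1.001 / P.y := h1.trans h2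
  have h4 : 0 ≤ 0.002 / P.y := by
    have e : 0.002 / P.y = 1.001 / P.y - 0.999 / P.y := by ring
    rw [e]; linarith
  rcases lt_trichotomy P.y 0 with h | h | h
  · exfalso
    have : 0.002 / P.y < 0 := div_neg_of_pos_of_neg (by norm_num) h
    linarith
  · exfalso
    have h5 := H.haa1
    have h6 : P.gb = 0 := by unfold Prm.gb; rw [h, div_zero]
    rw [h6, zero_mul] at h5
    have h7 := Kbig H
    have h8 : 0 < (P.K : ℝ) := by linarith [h7, show (0 : ℝ) < 10 ^ 4 by norm_num]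
    have h9 := H.haa
    have : 0 < 8 * P.aa * (5 * (P.K : ℝ)) ^ P.J := by positivity
    linarith
  · exact h

theorem gb_pos (H : P.Ok) : 0 < P.gb := by
  unfold Prm.gb
  exact div_pos H.hη (ypos H)

theorem a5K (H : P.Ok) : P.a5 ≤ P.K := H.ha5K.trans H.hI0K

theorem gl_eq (H : P.Ok) : P.gl = n * (P.gam (-(P.a5 : ℤ) + (P.a5 : ℕ)) - P.gam (-(P.a5 : ℤ))) := by
  unfold Prm.gl Prm.pl
  have e : -(P.a5 : ℤ) + (P.a5 : ℕ) = 0 := by simp
  rw [e, mul_sub, H.lvs.g0]

theorem gl_hi (H : P.Ok) : P.gl ≤ 1.001 * P.a5 / P.y := by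
  have h := a5K H
  rw [gl_eq H]
  exact sum_hi H _ (by omega) P.a5 (by omega)

theorem gl_lo (H : P.Ok) : 0.999 * P.a5 / P.y ≤ P.gl := by
  have h := a5K H
  rw [gl_eq H]
  exact sum_lo H _ (by omega) P.a5 (by omega)

theorem t_hi (H : P.Ok) {j : ℕ} (hj : j ≤ P.K) : n * P.gam j - 1 ≤ 1.001 * j / P.y := by
  have h := sum_hi H 0 (by omega) j (by omega)
  rw [zero_add, mul_sub, H.lvs.g0] at h
  exact h

theorem t_lo (H : P.Ok) {j : ℕ} (hj : j ≤ P.K) : 0.999 * j / P.y ≤ n * P.gam j - 1 := by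
  have h := sum_lo H 0 (by omega) j (by omega)
  rw [zero_add, mul_sub, H.lvs.g0] at h
  exact h

/-- the numerical facts used for the bushes -/
structure Num (P : Prm n) (j : ℕ) (t : ℝ) : Prop where
  hpl : P.pl = (1 - P.gl) / n
  hpb : P.pb = (1 - P.gb) / n
  hpt : P.gam j = (1 + t) / n
  hgb : 0 < P.gb
  hgl : 100 * P.gb ≤ P.gl
  hgl1 : P.gl ≤ 1 / 100
  ht : 100 * P.gl ≤ t
  ht1 : t ≤ 1 / 500
  h1 : P.gam j ≤ 1
  ha : 0 ≤ P.aa
  ha1 : 8 * P.aa * (4 * (t + P.gl) / P.gl) ^ P.J ≤ P.gb * P.gl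

theorem gl_gb (H : P.Ok) : 100 * P.gb ≤ P.gl := by
  refine le_trans ?_ (gl_lo H)
  unfold Prm.gb
  rw [← mul_div_assoc]
  refine (div_le_div_iff_of_pos_right (ypos H)).2 ?_
  have h1 := H.hη1
  have h2 : (13 : ℝ) ≤ P.a5 := by exact_mod_cast H.ha5
  linarith

theorem gl_le (H : P.Ok) : P.gl ≤ 1 / 100 := by
  refine (gl_hi H).trans ?_
  have hy := ypos H
  have h1 := H.hKy
  rw [div_le_iff₀ hy] at h1 ⊢
  have h2 : (P.a5 : ℝ) ≤ P.K := by exact_mod_cast a5K H
  linarith

theorem pl_eq (H : P.Ok) : P.pl = (1 - P.gl) / n := by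
  have h := nR H
  unfold Prm.gl
  field_simp
  ring

theorem num (H : P.Ok) {j : ℕ} (hj : 0.84 * P.lam ≤ j) (hjK : (j : ℝ) ≤ P.K) :
    Num P j (n * P.gam j - 1) := by
  have hy := ypos H
  have hn := nR H
  have hjK' : j ≤ P.K := by exact_mod_cast hjK
  have hgb := gb_pos H
  have hgl := gl_gb H
  have hglp : 0 < P.gl := by linarith
  have t1 := t_hi H hjK'
  have t2 := t_lo H hjK'
  have g1 := gl_hi H
  have g2 := gl_lo H
  have h13 : (13 : ℝ) ≤ P.a5 := by exact_mod_cast H.ha5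
  have hKb := Kbig H
  have hKy := H.hKy
  rw [div_le_iff₀ hy] at hKy
  refine ⟨pl_eq H, rfl, ?_, hgb, hgl, gl_le H, ?_, ?_, ?_, H.haa.le, ?_⟩
  · field_simp; ring
  · have h1 : 100 * P.gl ≤ 100 * (1.001 * P.a5 / P.y) := by linarith
    refine h1.trans (le_trans ?_ t2)
    rw [← mul_div_assoc]
    refine (div_le_div_iff_of_pos_right hy).2 ?_
    have h2 := H.ha5l
    linarith
  · refine t1.trans ?_
    rw [div_le_iff₀ hy]
    linarith
  · refine le_trans (H.lvs.mono ?_) H.lvs.le1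
    omega
  · refine le_trans ?_ H.haa1
    have h3 : 4 * (n * P.gam j - 1 + P.gl) / P.gl ≤ 5 * P.K := by
      rw [div_le_iff₀ hglp]
      have h4 : n * P.gam j - 1 ≤ 1.001 * P.K / P.y := by
        refine t1.trans ((div_le_div_iff_of_pos_right hy).2 ?_)
        linarith
      have h5 : 0.999 * 13 / P.y ≤ P.gl := by
        refine le_trans ((div_le_div_iff_of_pos_right hy).2 ?_) g2
        linarith
      have h6 : 4 * (1.001 * P.K / P.y) ≤ 4 * (P.K : ℝ) * (0.999 * 13 / P.y) := by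
        rw [← mul_div_assoc, ← mul_div_assoc]
        refine (div_le_div_iff_of_pos_right hy).2 ?_
        linarith
      have h7 : 4 * (P.K : ℝ) * (0.999 * 13 / P.y) ≤ 4 * (P.K : ℝ) * P.gl :=
        mul_le_mul_of_nonneg_left h5 (by positivity)
      have h8 : 4 * P.gl ≤ P.K * P.gl := by
        refine mul_le_mul_of_nonneg_right ?_ hglp.le
        linarith
      linarith
    have h0 : 0 ≤ 4 * (n * P.gam j - 1 + P.gl) / P.gl := by
      refine div_nonneg ?_ hglp.le
      have : 0 ≤ 0.999 * (j : ℝ) / P.y := by positivity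
      linarith
    refine mul_le_mul_of_nonneg_left ?_ (by have := H.haa; positivity)
    exact pow_le_pow_left₀ h0 h3 _

theorem fail_num {y z t c : ℝ} (hy : 0 < y) (hz : 8400 / y ≤ z) (hz1 : z ≤ 1 / 1000)
    (ht : 0.999 * z ≤ t) (hc : 2 * y ≤ Real.exp c) :
    Real.exp (-(1.55 * t)) + 2 * Real.exp (-c) ≤ Real.exp (-(1.5 * z)) := by
  have hz0 : 0 ≤ z := le_trans (by positivity) hz
  have h1 : Real.exp (-(1.55 * t)) ≤ Real.exp (-(1.548 * z)) := by
    refine Real.exp_le_exp.2 ?_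
    linarith
  have h2 : 2 * Real.exp (-c) ≤ 1 / y := by
    rw [Real.exp_neg, ← div_eq_mul_inv, div_le_div_iff₀ (Real.exp_pos _) hy]
    linarith
  have h3 : 1 / y ≤ z / 8400 := by
    rw [div_le_iff₀ hy] at hz
    rw [div_le_div_iff₀ hy (by norm_num)]
    linarith
  have h4 : Real.exp (-(1.5 * z)) = Real.exp (-(1.548 * z)) * Real.exp (0.048 * z) := by
    rw [← Real.exp_add]
    congr 1
    ring
  have h5 : 1 + 0.048 * z ≤ Real.exp (0.048 * z) := by
    have := Real.add_one_le_exp (0.048 * z)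
    linarith
  have h6 : 0.99 ≤ Real.exp (-(1.548 * z)) := by
    have := Real.add_one_le_exp (-(1.548 * z))
    linarith
  have h7 : Real.exp (-(1.548 * z)) * (1 + 0.048 * z) ≤
      Real.exp (-(1.548 * z)) * Real.exp (0.048 * z) :=
    mul_le_mul_of_nonneg_left h5 (Real.exp_pos _).le
  have h8 : 0.99 * (0.048 * z) ≤ Real.exp (-(1.548 * z)) * (0.048 * z) :=
    mul_le_mul_of_nonneg_right h6 (by positivity)
  rw [h4]
  linarith

theorem fail (H : P.Ok) {j : ℕ} {v : Fin n} {F : Finset (Fin n)} (hj : 0.84 * P.lam ≤ j)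
    (hjK : (j : ℝ) ≤ P.K) (hv : v ∉ F) (hF : (n : ℝ) - P.X0 - (P.m + 1) ≤ F.card) :
    Ex (fun U : Ev n => ind ((bush P.pl (P.gam j) P.pb P.s1 P.s0 P.J U v F).2 = none)) ≤
      Real.exp (-(1.5 * j / P.y)) := by
  have N := num H hj hjK
  have hy := ypos H
  have hn := nR H
  have hgb := gb_pos H
  have hjK' : j ≤ P.K := by exact_mod_cast hjK
  have hcap0 : 0 ≤ n * P.gb / 16 := by positivity
  have hcap : ((⌊n * P.gb / 16⌋₊ : ℕ) : ℝ) ≤ n * P.gb / 16 := Nat.floor_le hcap0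
  have hcap2 : n * P.gb / 16 - 1 < (⌊n * P.gb / 16⌋₊ : ℕ) := Nat.sub_one_lt_floor _
  have c1 : (10 : ℝ) ^ 7 ≤ n * P.gb ^ 3 := by
    have h1 := H.ngb
    have h2 := H.hL
    linarith
  have c2 : 1 ≤ P.s0 := by
    rcases Nat.eq_zero_or_pos P.s0 with h | h
    · exfalso
      have h1 := H.hs0'
      rw [h] at h1
      norm_num at h1
    · exact h
  have hKy := H.hKy
  rw [div_le_iff₀ hy] at hKy
  have c3 : 0.12 * (n * P.gam j - 1) * 10 ^ 8 ≤ P.gb * 10 ^ (P.J - 4) := by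
    have h1 := t_hi H hjK'
    have h2 : n * P.gam j - 1 ≤ 1.001 * P.K / P.y := by
      refine h1.trans ((div_le_div_iff_of_pos_right hy).2 ?_)
      linarith
    have h3 : 0.12 * (1.001 * P.K / P.y) * 10 ^ 8 ≤ P.gb * 10 ^ (P.J - 4) := by
      unfold Prm.gb
      have e1 : 0.12 * (1.001 * P.K / P.y) * 10 ^ 8 = 1.2012 * 10 ^ 7 * P.K / P.y := by ring
      have e2 : P.η / P.y * 10 ^ (P.J - 4) = P.η * 10 ^ (P.J - 4) / P.y := by ring
      rw [e1, e2]
      refine (div_le_div_iff_of_pos_right hy).2 ?_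
      have h4 := H.hJ2
      have h5 : (0 : ℝ) ≤ P.K := by positivity
      linarith
    linarith
  have c4 : n * (1 - P.gb / 4) + (⌊n * P.gb / 16⌋₊ : ℕ) + 1 ≤ (F.card : ℝ) := by
    refine le_trans ?_ hF
    have h1 := H.hm2
    have e1 : P.X0 = n * P.gb / 16 := rfl
    rw [e1]
    have e2 : (n : ℝ) * (1 - P.gb / 4) = n - n * P.gb / 4 := by ring
    rw [e2]
    linarith
  have h := bush_none (s1 := P.s1) (s0 := P.s0) N.hpl N.hpb N.hpt N.hgb N.hgl N.hgl1 c1 H.hs1
    H.hs1' H.hs0 c2 N.ht N.ht1 N.h1 N.ha N.ha1 H.haa2 H.hJ c3 v F hv ⌊n * P.gb / 16⌋₊ c4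
  refine h.trans ?_
  have e : 1.5 * (j : ℝ) / P.y = 1.5 * (j / P.y) := by ring
  rw [e]
  refine fail_num hy ?_ ?_ ?_ ?_
  · refine (div_le_div_iff_of_pos_right hy).2 ?_
    have := H.hlam
    linarith
  · rw [div_le_iff₀ hy]
    linarith
  · have h1 := t_lo H hjK'
    rw [← mul_div_assoc]
    exact h1
  · refine H.hcap.trans (Real.exp_le_exp.2 ?_)
    exact mul_le_mul_of_nonneg_left hcap2.le H.haa.le

theorem size (H : P.Ok) {j : ℕ} {v : Fin n} {F : Finset (Fin n)} (hj : 0.84 * P.lam ≤ j)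
    (hjK : (j : ℝ) ≤ P.K) (hv : v ∉ F) :
    Ex (fun U : Ev n =>
      Real.exp (P.aa * (bush P.pl (P.gam j) P.pb P.s1 P.s0 P.J U v F).1.card)) ≤
      1 + P.lam / (100 * P.y) := by
  have N := num H hj hjK
  have hy := ypos H
  have h1 : 2 * P.gb ≤ P.gl := by have := N.hgl; have := N.hgb; linarith
  have hn1 : 1 ≤ n := by have := H.hn; omega
  have h := bush_exp (s1 := P.s1) (s0 := P.s0) hn1 N.hpl N.hpb N.hpt N.hgb h1 N.hgl1 N.ht
    N.ht1 N.h1 N.ha N.ha1 H.haa2 v F hv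
  refine h.trans ?_
  have h2 := gl_hi H
  have h3 : 1.001 * P.a5 / P.y / 2 ≤ P.lam / (100 * P.y) := by
    rw [div_div, div_le_div_iff₀ (by positivity) (by positivity)]
    have h4 := H.ha5l
    have h5 : (0 : ℝ) ≤ P.a5 := by positivity
    nlinarith
  linarith

theorem hb0 (H : P.Ok) : PSum.HB P.sp := by
  have hl : ∀ j : ℕ, P.pl ≤ P.gam j := fun j => H.lvs.mono (by omega)
  have hlb : P.pl ≤ P.pb := by
    rw [pl_eq H]
    have e : P.pb = (1 - P.gb) / n := rfl
    rw [e]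
    refine (div_le_div_iff_of_pos_right (nR H)).2 ?_
    have h1 := gl_gb H
    have h2 := gb_pos H
    linarith
  refine ⟨?_, ?_, ?_⟩
  · intro j U v F hv
    exact bush_subset hv
  · intro j U U' v F hv h
    refine bush_local (hl j) hlb hv fun a ha b hb p _ => ?_
    rw [h a ha b hb]
  · intro j
    refine ⟨{P.pl, P.gam j, P.pb}, fun U U' v F h => ?_⟩
    exact (Bush.bsh_lvl h _ _ _).symm

theorem one_path (H : P.Ok) (π : List (Fin n)) (hπ : π.Nodup) (hm : π.length = P.m + 1) :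
    Ex (fun U : Ev n => P.sp.wsum (1 / 20) U π.toFinset π ∅ none) ≤
      (P.K / P.lam) ^ 20 * (1 / (n : ℝ) ^ P.m) *
        (2 * Real.exp (-(P.lam * P.m / (10 * P.y)))) := by
  have hy := ypos H
  have hn := nR H
  have hgb := gb_pos H
  have hKb := Kbig H
  have hK0 : (0 : ℝ) < P.K := by linarith [hKb, show (0 : ℝ) < 10 ^ 4 by norm_num]
  have hlamK := lamK H
  have hlam := H.hlam
  have hlam0 : 0 < P.lam := by linarith [hlam, show (0 : ℝ) < 10 ^ 4 by norm_num]
  have hIK := I_le H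
  have hI0K := H.hI0K
  have hHB := PEnv.hb0 H
  have h := path_sum P.sp P.y P.K P.aa P.m (by have := H.hn; omega) hy H.lvs.mono H.lvs.g0
    (H.lvs.pos.trans (H.lvs.mono (by show -(P.K : ℤ) ≤ -(P.I0 : ℤ); omega)))
    ((H.lvs.mono (by show (P.I : ℤ) ≤ (P.K : ℤ) + 1; omega)).trans H.lvs.le1)
    (fun i hi1 hi2 => H.lvs.hi i
      (by have : -(P.I0 : ℤ) ≤ i := hi1; omega) (by have : i < (P.I : ℤ) := hi2; omega))
    (by
      have h1 := H.hI0
      have h2 : 1 ≤ Real.exp P.a5 := Real.one_le_exp (by positivity)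
      have h3 : P.y * 1 ≤ P.y * Real.exp P.a5 := mul_le_mul_of_nonneg_left h2 hy.le
      rw [mul_one] at h3
      exact h3.trans h1)
    H.hlam H.hlamI H.hb0 H.hb H.hK H.hKy H.haa.le
    (by
      show 0 ≤ P.X0
      unfold Prm.X0
      positivity)
    hHB.sub hHB.loc hHB.lvl
    (fun j v F hj hjK hv hF => fail H hj hjK hv hF)
    (fun j v F hj hjK hv => size H hj hjK hv) π hπ hm
  refine h.trans ?_
  have h0 : 0 ≤ (P.K / P.lam) ^ 20 * (1 / (n : ℝ) ^ P.m) := by positivity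
  refine mul_le_mul_of_nonneg_left ?_ h0
  have hKy := H.hKy
  rw [div_le_iff₀ hy] at hKy
  have e1 : P.sp.lam = P.lam := rfl
  have e2 : P.sp.X0 = P.X0 := rfl
  rw [e1, e2]
  have a1 : (1 - P.lam / (10 * P.y)) ^ P.m ≤ Real.exp (-(P.lam * P.m / (10 * P.y))) := by
    have h1 : 0 ≤ 1 - P.lam / (10 * P.y) := by
      have : P.lam / (10 * P.y) ≤ 1 := by
        rw [div_le_one (by positivity)]
        linarith
      linarith
    have h2 : 1 - P.lam / (10 * P.y) ≤ Real.exp (-(P.lam / (10 * P.y))) := by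
      have := Real.add_one_le_exp (-(P.lam / (10 * P.y)))
      linarith
    refine (pow_le_pow_left₀ h1 h2 _).trans (le_of_eq ?_)
    rw [← Real.exp_nat_mul]
    congr 1
    ring
  have a2 : Real.exp (-(P.aa * P.X0)) * (1 + 2 * P.K / P.y) ^ P.m ≤
      Real.exp (-(P.lam * P.m / (10 * P.y))) := by
    have h1 : 1 + 2 * P.K / P.y ≤ Real.exp (2 * P.K / P.y) := by
      have := Real.add_one_le_exp (2 * (P.K : ℝ) / P.y)
      linarith
    have h2 : (1 + 2 * (P.K : ℝ) / P.y) ^ P.m ≤ Real.exp (2 * P.K / P.y) ^ P.m :=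
      pow_le_pow_left₀ (by positivity) h1 _
    refine (mul_le_mul_of_nonneg_left h2 (Real.exp_pos _).le).trans ?_
    rw [← Real.exp_nat_mul, ← Real.exp_add]
    refine Real.exp_le_exp.2 ?_
    have h3 := H.hX
    have e3 : (P.m : ℝ) * (2 * P.K / P.y) = 2 * (P.K * P.m / P.y) := by ring
    have e4 : 3 * (P.K : ℝ) * P.m / P.y = 3 * (P.K * P.m / P.y) := by ring
    have h4 : P.lam * P.m / (10 * P.y) ≤ P.K * P.m / P.y := by
      rw [div_le_div_iff₀ (by positivity) hy]
      have h5 : P.lam * P.m ≤ P.K * P.m := mul_le_mul_of_nonneg_right hlamK (by positivity)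
      have h6 : 0 ≤ (P.K : ℝ) * P.m := by positivity
      nlinarith [mul_le_mul_of_nonneg_right h5 hy.le, mul_nonneg h6 hy.le]
    rw [e3]
    rw [e4] at h3
    linarith
  linarith

theorem wsum_nonneg {S : SP n} {U : Ev n} {Q : Finset (Fin n)} :
    ∀ (l : List (Fin n)) (X : Finset (Fin n)) (R : Option ℝ), (∀ r, R = some r → 0 < r) →
      0 ≤ S.wsum (1 / 20) U Q l X R := by
  classical
  intro l
  induction l with
  | nil => intro X R _; exact zero_le_one
  | cons v l ih =>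
    cases l with
    | nil => intro X R _; exact zero_le_one
    | cons w t =>
      intro X R hR
      rw [PSum.wsum_cons]
      split_ifs
      · refine mul_nonneg (mul_nonneg (PSum.zet_nonneg _ _) ?_) ?_
        · exact PSum.wst_nonneg (PSum.staB_pos hR _) _
        · exact ih _ _ (PSum.nst_pos (PSum.staB_pos hR _) _)
      · exact le_rfl

theorem spaths_card (m : ℕ) :
    ∑ x : Fin n, ((spaths m x ∅).card : ℝ) ≤ (n : ℝ) ^ (m + 1) := by
  classical
  have h1 : ∀ x : Fin n, (spaths m x ∅).card ≤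
      ((univ : Finset (Fin (m + 1) → Fin n)).filter (fun p => p 0 = x)).card := by
    intro x
    unfold spaths
    refine Finset.card_image_le.trans (Finset.card_le_card ?_)
    intro p hp
    rw [mem_filter] at hp ⊢
    exact ⟨hp.1, hp.2.1⟩
  have h2 : (univ : Finset (Fin (m + 1) → Fin n)).card =
      ∑ x : Fin n, ((univ : Finset (Fin (m + 1) → Fin n)).filter (fun p => p 0 = x)).card :=
    Finset.card_eq_sum_card_fiberwise (fun p _ => mem_univ (p 0))
  have h3 : ∑ x : Fin n, (spaths m x ∅).card ≤ n ^ (m + 1) := by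
    refine (Finset.sum_le_sum fun x _ => h1 x).trans (le_of_eq ?_)
    rw [← h2, Finset.card_univ, Fintype.card_fun, Fintype.card_fin, Fintype.card_fin]
  exact_mod_cast h3

theorem mem_spaths {m : ℕ} {x : Fin n} {π : List (Fin n)} (h : π ∈ spaths m x ∅) :
    π.Nodup ∧ π.length = m + 1 := by
  classical
  unfold spaths at h
  rw [mem_image] at h
  obtain ⟨p, hp, rfl⟩ := h
  rw [mem_filter] at hp
  exact ⟨List.nodup_ofFn.2 hp.2.2.1, List.length_ofFn⟩

end PEnv

open PEnv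

/-- the path sum of the environment is small -/
theorem Prm.Ok.sum_le {P : Prm n} (H : P.Ok) :
    env n {U | 2 * (n : ℝ) ^ 2 * (P.K / P.lam) ^ 20 * Real.exp (-(P.lam * P.m / (10 * P.y))) ≤
      P.SS U} ≤ ENNReal.ofReal (1 / n) := by
  classical
  have hn := nR H
  have hKb := Kbig H
  have hK0 : (0 : ℝ) < P.K := by linarith [hKb, show (0 : ℝ) < 10 ^ 4 by norm_num]
  have hlam := H.hlam
  have hlam0 : 0 < P.lam := by linarith [hlam, show (0 : ℝ) < 10 ^ 4 by norm_num]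
  have hHB := PEnv.hb0 H
  have hB1 : ∀ (x : Fin n), ∀ π ∈ spaths P.m x ∅,
      BM (fun U : Ev n => P.sp.wsum (1 / 20) U π.toFinset π ∅ none) :=
    fun x π _ => PSum.BM_wsum hHB _ _ _ _ _
  have hB2 : ∀ x ∈ (univ : Finset (Fin n)),
      BM (fun U : Ev n => ∑ π ∈ spaths P.m x ∅, P.sp.wsum (1 / 20) U π.toFinset π ∅ none) :=
    fun x _ => BM.sum _ (hB1 x)
  have hB : BM P.SS := by
    have := BM.sum _ hB2
    exact this
  have h0 : ∀ U, 0 ≤ P.SS U := by
    intro U
    unfold Prm.SS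
    refine Finset.sum_nonneg fun x _ => Finset.sum_nonneg fun π _ => ?_
    exact wsum_nonneg _ _ _ (fun r hr => by cases hr)
  set b : ℝ := (P.K / P.lam) ^ 20 * (1 / (n : ℝ) ^ P.m) *
        (2 * Real.exp (-(P.lam * P.m / (10 * P.y)))) with hbdef
  have hb0 : 0 ≤ b := by rw [hbdef]; positivity
  have hE : Ex P.SS ≤ 2 * n * (P.K / P.lam) ^ 20 * Real.exp (-(P.lam * P.m / (10 * P.y))) := by
    have e1 : Ex P.SS = ∑ x : Fin n, ∑ π ∈ spaths P.m x ∅,
        Ex (fun U : Ev n => P.sp.wsum (1 / 20) U π.toFinset π ∅ none) := by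
      have h1 := Ex_sum (univ : Finset (Fin n)) hB2
      refine h1.trans (Finset.sum_congr rfl fun x _ => ?_)
      exact Ex_sum _ (hB1 x)
    rw [e1]
    have h2 : ∑ x : Fin n, ∑ π ∈ spaths P.m x ∅,
        Ex (fun U : Ev n => P.sp.wsum (1 / 20) U π.toFinset π ∅ none) ≤
        ∑ x : Fin n, ((spaths P.m x ∅).card : ℝ) * b := by
      refine Finset.sum_le_sum fun x _ => ?_
      rw [← nsmul_eq_mul]
      refine Finset.sum_le_card_nsmul _ _ _ fun π hπ => ?_
      obtain ⟨h3, h4⟩ := mem_spaths hπ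
      exact one_path H π h3 h4
    refine h2.trans ?_
    rw [← Finset.sum_mul]
    refine (mul_le_mul_of_nonneg_right (spaths_card P.m) hb0).trans (le_of_eq ?_)
    rw [hbdef, pow_succ]
    field_simp
  have ht : 0 < 2 * (n : ℝ) ^ 2 * (P.K / P.lam) ^ 20 *
      Real.exp (-(P.lam * P.m / (10 * P.y))) := by positivity
  refine (env_markov hB h0 ht hE).trans (le_of_eq ?_)
  congr 1
  have h5 : (0 : ℝ) < (P.K / P.lam) ^ 20 := by positivity
  have h6 := Real.exp_pos (-(P.lam * P.m / (10 * P.y)))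
  generalize (P.K / P.lam) ^ 20 = A at *
  generalize Real.exp (-(P.lam * P.m / (10 * P.y))) = B at *
  field_simp

end

end Pool.Agent.TH972.U
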