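import Pool.Agent.TH972.U.SDef
import Pool.Agent.TH972.U.Lvl
import Pool.Agent.TH972.U.PSum

/-!
# The annealed path sum, supercritical explorations
-/

set_option autoImplicit false
set_option linter.unusedSectionVars false
set_option maxHeartbeats 4000000

namespace Pool.Agent.TH972.U

open Finset MeasureTheory Pool.Agent.W842.RST Pool.Agent.TH972

noncomputable section

variable {n : ℕ}

namespace PSumA

open _root_.Pool.Agent.TH972.U.PSum

/-! ### Numbers -/

theorem half_log3 : Real.exp (Real.log 3 / 2) ≤ 2 := by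
  have h1 : Real.log 3 / 2 ≤ Real.log 2 := by
    have h2 : Real.log 3 ≤ Real.log (2 ^ 2) := Real.log_le_log (by norm_num) (by norm_num)
    rw [Real.log_pow] at h2
    push_cast at h2
    linarith
  calc Real.exp (Real.log 3 / 2) ≤ Real.exp (Real.log 2) := Real.exp_le_exp.2 h1
    _ = 2 := Real.exp_log (by norm_num)

theorem exp_half : Real.exp (-(1 / 2)) ≤ 2 / 3 := by
  have h1 : (3 : ℝ) / 2 ≤ Real.exp (1 / 2) := by
    have := Real.add_one_le_exp (1 / 2 : ℝ)
    linarith
  rw [Real.exp_neg, inv_le_comm₀ (Real.exp_pos _) (by norm_num)]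
  linarith

theorem geom_23 (M : ℕ) : ∑ j ∈ range M, ((2 : ℝ) / 3) ^ j ≤ 3 := by
  rw [geom_sum_eq (by norm_num)]
  have : (0 : ℝ) ≤ (2 / 3) ^ M := by positivity
  rw [div_le_iff_of_neg (by norm_num)]
  linarith

theorem geo_big (κ : ℝ) (hκ : 0 ≤ κ) (N : ℕ) :
    ∑ c ∈ (range N).filter (fun c : ℕ => ¬ (c : ℝ) ≤ κ), Real.exp (-(((c : ℝ) - κ) / 2)) ≤ 3 := by
  set M := ⌊κ⌋₊ + 1 with hM
  have hMκ : κ ≤ (M : ℝ) := by
    rw [hM]; push_cast; exact (Nat.lt_floor_add_one κ).le
  calc ∑ c ∈ (range N).filter (fun c : ℕ => ¬ (c : ℝ) ≤ κ), Real.exp (-(((c : ℝ) - κ) / 2))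
      ≤ ∑ c ∈ (range N).filter (fun c : ℕ => ¬ (c : ℝ) ≤ κ), Real.exp (-(1 / 2)) ^ (c - M) := by
        refine Finset.sum_le_sum fun c hc => ?_
        rw [mem_filter, mem_range] at hc
        have h1 : M ≤ c := by
          rw [hM]
          have := (Nat.floor_lt hκ).2 (not_le.1 hc.2)
          omega
        rw [← Real.exp_nat_mul, Nat.cast_sub h1]
        refine Real.exp_le_exp.2 ?_
        nlinarith
    _ ≤ ∑ c ∈ Ico M N, Real.exp (-(1 / 2)) ^ (c - M) := by
        refine Finset.sum_le_sum_of_subset_of_nonneg ?_ fun c _ _ => by positivity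
        intro c hc
        rw [mem_filter, mem_range] at hc
        rw [mem_Ico]
        have := (Nat.floor_lt hκ).2 (not_le.1 hc.2)
        omega
    _ = ∑ j ∈ range (N - M), Real.exp (-(1 / 2)) ^ j := by
        rw [Finset.sum_Ico_eq_sum_range]
        refine Finset.sum_congr rfl fun j _ => ?_
        congr 1
        omega
    _ ≤ ∑ j ∈ range (N - M), ((2 : ℝ) / 3) ^ j := by
        refine Finset.sum_le_sum fun j _ => ?_
        exact pow_le_pow_left₀ (Real.exp_pos _).le exp_half _
    _ ≤ 3 := geom_23 _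

/-- the edge sum in a state which is known -/
theorem edge_sum (hn : 0 < n) {y : ℝ} (hy : 0 < y) (I : ℕ)
    (q : ℕ → ℝ) (hq0 : ∀ c, 0 ≤ q c) (hq1 : q 0 ≤ 1 / n)
    (hq2 : ∀ c, 1 ≤ c → c ≤ I → q c ≤ 1 / (n * y)) {lam : ℝ}
    {r k : ℝ} (hr : 0 < r) (hk : k = Real.log r) (hk4 : 10 ^ 4 ≤ k) (hky : 1000 * y ≤ k)
    (rlo rhi : ℕ → ℝ)
    (hrlo : ∀ c : ℕ, rlo c = if c = 0 then 0 else Real.exp ((c : ℝ) - 1))
    (hrhi : ∀ c : ℕ, rhi c = Real.exp (c : ℝ)) :
    ∑ c ∈ range (I + 1), q c * (r / (r + rlo c)) *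
      Real.exp ((Real.log (r + 2 * rhi c) - lam) / 2) ≤
      Real.exp ((k - lam) / 2) * ((5 * (k / y)) / n) := by
  have hk0 : 0 < k := by linarith
  have hn' : (0 : ℝ) < n := by exact_mod_cast hn
  have hrk : r = Real.exp k := by rw [hk, Real.exp_log hr]
  have hrlo0 : ∀ c, 0 ≤ rlo c := by
    intro c; rw [hrlo]; split_ifs
    · exact le_rfl
    · exact (Real.exp_pos _).le
  set A := Real.exp ((k - lam) / 2) with hA
  have hA0 : 0 < A := Real.exp_pos _
  have hw1 : ∀ c, r / (r + rlo c) ≤ 1 := by
    intro c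
    have := hrlo0 c
    rw [div_le_one (by linarith)]
    linarith
  have hw0 : ∀ c, 0 ≤ r / (r + rlo c) := by
    intro c
    have := hrlo0 c
    positivity
  have hsmall : ∀ c ∈ (range (I + 1)).filter (fun c : ℕ => (c : ℝ) ≤ k),
      q c * (r / (r + rlo c)) * Real.exp ((Real.log (r + 2 * rhi c) - lam) / 2) ≤
        2 * A * q c := by
    intro c hc
    rw [mem_filter] at hc
    have h1 : rhi c ≤ r := by
      rw [hrhi, hrk]
      exact Real.exp_le_exp.2 hc.2
    have hrhi0 : 0 < rhi c := by rw [hrhi]; exact Real.exp_pos _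
    have h2 : Real.log (r + 2 * rhi c) ≤ Real.log 3 + k := by
      rw [hk, ← Real.log_mul (by norm_num) hr.ne']
      exact Real.log_le_log (by positivity) (by linarith)
    have h3 : Real.exp ((Real.log (r + 2 * rhi c) - lam) / 2) ≤ 2 * A := by
      calc Real.exp ((Real.log (r + 2 * rhi c) - lam) / 2)
          ≤ Real.exp (Real.log 3 / 2 + (k - lam) / 2) := Real.exp_le_exp.2 (by linarith)
        _ = Real.exp (Real.log 3 / 2) * A := by rw [Real.exp_add]
        _ ≤ 2 * A := mul_le_mul_of_nonneg_right half_log3 hA0.le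
    calc q c * (r / (r + rlo c)) * Real.exp ((Real.log (r + 2 * rhi c) - lam) / 2)
        ≤ q c * 1 * (2 * A) :=
          mul_le_mul (mul_le_mul_of_nonneg_left (hw1 c) (hq0 c)) h3 (Real.exp_pos _).le
            (by have := hq0 c; linarith)
      _ = _ := by ring
  have hbig : ∀ c ∈ (range (I + 1)).filter (fun c : ℕ => ¬ (c : ℝ) ≤ k),
      q c * (r / (r + rlo c)) * Real.exp ((Real.log (r + 2 * rhi c) - lam) / 2) ≤
        (2 * A * Real.exp 1 / (n * y)) * Real.exp (-(((c : ℝ) - k) / 2)) := by
    intro c hc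
    rw [mem_filter, mem_range] at hc
    have hck : k < (c : ℝ) := not_le.1 hc.2
    have hc1 : 1 ≤ c := by
      by_contra h
      have : c = 0 := by omega
      rw [this] at hck
      push_cast at hck
      linarith
    have h1 := hq2 c hc1 (by omega)
    have hrc : r ≤ Real.exp (c : ℝ) := by rw [hrk]; exact Real.exp_le_exp.2 hck.le
    have e1 : rlo c = Real.exp ((c : ℝ) - 1) := by
      rw [hrlo, if_neg (by omega)]
    have h2 : r / (r + rlo c) ≤ Real.exp (k - ((c : ℝ) - 1)) := by
      rw [Real.exp_sub k, ← hrk, e1]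
      exact div_le_div_of_nonneg_left hr.le (Real.exp_pos _) (by linarith)
    have h3 : Real.log (r + 2 * rhi c) ≤ Real.log 3 + c := by
      have h4 : Real.log (3 * Real.exp (c : ℝ)) = Real.log 3 + c := by
        rw [Real.log_mul (by norm_num) (Real.exp_pos _).ne', Real.log_exp]
      rw [← h4, hrhi]
      exact Real.log_le_log (by positivity) (by linarith)
    have h4 : Real.exp ((Real.log (r + 2 * rhi c) - lam) / 2) ≤
        2 * (A * Real.exp (((c : ℝ) - k) / 2)) := by
      calc Real.exp ((Real.log (r + 2 * rhi c) - lam) / 2)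
          ≤ Real.exp (Real.log 3 / 2 + ((k - lam) / 2 + ((c : ℝ) - k) / 2)) :=
            Real.exp_le_exp.2 (by linarith)
        _ = Real.exp (Real.log 3 / 2) * (A * Real.exp (((c : ℝ) - k) / 2)) := by
            rw [Real.exp_add, Real.exp_add]
        _ ≤ 2 * (A * Real.exp (((c : ℝ) - k) / 2)) :=
            mul_le_mul_of_nonneg_right half_log3 (by positivity)
    calc q c * (r / (r + rlo c)) * Real.exp ((Real.log (r + 2 * rhi c) - lam) / 2)
        ≤ (1 / (n * y) * Real.exp (k - ((c : ℝ) - 1))) *
          (2 * (A * Real.exp (((c : ℝ) - k) / 2))) :=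
          mul_le_mul (mul_le_mul h1 h2 (hw0 c) (by positivity)) h4 (Real.exp_pos _).le
            (by positivity)
      _ = (2 * A / (n * y)) * (Real.exp (k - ((c : ℝ) - 1)) * Real.exp (((c : ℝ) - k) / 2)) := by
          ring
      _ = (2 * A / (n * y)) * (Real.exp 1 * Real.exp (-(((c : ℝ) - k) / 2))) := by
          rw [← Real.exp_add, ← Real.exp_add]
          congr 2
          ring
      _ = _ := by ring
  have hqs : ∑ c ∈ (range (I + 1)).filter (fun c : ℕ => (c : ℝ) ≤ k), q c ≤
      1 / n + k * (1 / (n * y)) := by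
    have hsub : (range (I + 1)).filter (fun c : ℕ => (c : ℝ) ≤ k) ⊆
        insert 0 ((Ioc 0 ⌊k⌋₊).filter (fun c => c ≤ I)) := by
      intro c hc
      rw [mem_filter, mem_range] at hc
      rw [mem_insert, mem_filter, mem_Ioc]
      have := Nat.le_floor hc.2
      omega
    calc ∑ c ∈ (range (I + 1)).filter (fun c : ℕ => (c : ℝ) ≤ k), q c
        ≤ ∑ c ∈ insert 0 ((Ioc 0 ⌊k⌋₊).filter (fun c => c ≤ I)), q c :=
          Finset.sum_le_sum_of_subset_of_nonneg hsub fun c _ _ => hq0 c
      _ = q 0 + ∑ c ∈ (Ioc 0 ⌊k⌋₊).filter (fun c => c ≤ I), q c := by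
          rw [Finset.sum_insert]
          simp
      _ ≤ 1 / n + k * (1 / (n * y)) := by
          refine add_le_add hq1 ?_
          have h1 : ∑ c ∈ (Ioc 0 ⌊k⌋₊).filter (fun c => c ≤ I), q c ≤
              ∑ _c ∈ (Ioc 0 ⌊k⌋₊).filter (fun c => c ≤ I), (1 / (n * y)) := by
            refine Finset.sum_le_sum fun c hc => ?_
            rw [mem_filter, mem_Ioc] at hc
            exact hq2 c (by omega) hc.2
          refine h1.trans ?_
          rw [Finset.sum_const, nsmul_eq_mul]
          refine mul_le_mul_of_nonneg_right ?_ (by positivity)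
          have h2 : ((Ioc 0 ⌊k⌋₊).filter (fun c => c ≤ I)).card ≤ ⌊k⌋₊ := by
            refine (Finset.card_filter_le _ _).trans ?_
            rw [Nat.card_Ioc]
            omega
          exact le_trans (by exact_mod_cast h2) (Nat.floor_le hk0.le)
  rw [← Finset.sum_filter_add_sum_filter_not (range (I + 1)) (fun c : ℕ => (c : ℝ) ≤ k)]
  have h1 := Finset.sum_le_sum hsmall
  have h2 := Finset.sum_le_sum hbig
  rw [← Finset.mul_sum] at h1 h2
  have h3 := geo_big k hk0.le (I + 1)
  have h4 : 2 * A * ∑ c ∈ (range (I + 1)).filter (fun c : ℕ => (c : ℝ) ≤ k), q c ≤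
      2 * A * (1 / n + k * (1 / (n * y))) := mul_le_mul_of_nonneg_left hqs (by positivity)
  have h5 : (2 * A * Real.exp 1 / (n * y)) *
      ∑ c ∈ (range (I + 1)).filter (fun c : ℕ => ¬ (c : ℝ) ≤ k), Real.exp (-(((c : ℝ) - k) / 2)) ≤
      (2 * A * Real.exp 1 / (n * y)) * 3 := mul_le_mul_of_nonneg_left h3 (by positivity)
  have h6 : (2 * A * Real.exp 1 / (n * y)) * 3 ≤ A * (17 / (n * y)) := by
    have he := Real.exp_one_lt_d9
    have e1 : (2 * A * Real.exp 1 / (n * y)) * 3 = A * ((6 * Real.exp 1) / (n * y)) := by ring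
    rw [e1]
    refine mul_le_mul_of_nonneg_left (div_le_div_of_nonneg_right ?_ (by positivity)) hA0.le
    linarith
  have h7 : 2 * A * (1 / n + k * (1 / (n * y))) + A * (17 / (n * y)) ≤
      A * ((5 * (k / y)) / n) := by
    have e1 : A * ((5 * (k / y)) / n) - (2 * A * (1 / n + k * (1 / (n * y))) +
        A * (17 / (n * y))) = A * ((3 * k - 2 * y - 17) / (n * y)) := by
      field_simp
      ring
    have : 0 ≤ A * ((3 * k - 2 * y - 17) / (n * y)) := by
      refine mul_nonneg hA0.le (div_nonneg ?_ (by positivity))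
      linarith
    linarith
  linarith

/-- the potential of a state -/
def Psi (P : SP n) (y : ℝ) (R : Option ℝ) : ℝ :=
  match R with
  | none => 20 * (1 + (P.I + P.b) / y) * Real.exp ((P.I + P.b - P.lam) / 2)
  | some r => Real.exp ((Real.log r - P.lam) / 2)

/-- the edge sum -/
def SS (P : SP n) (y : ℝ) (e : Sym2 (Fin n)) (R : Option ℝ) : ℝ :=
  ∑ c ∈ range (P.I0 + P.I + 1), qc P e c * (P.wst R c * Psi P y (P.nst R c))

/-- the hypotheses -/
structure Hyp (P : SP n) (y K a z : ℝ) (m : ℕ) : Prop where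
  hn : 0 < n
  hy : 0 < y
  hgam : ∀ i : ℤ, P.gam i = (1 + i / y) / n
  hI0 : P.I0 = 0
  hg1 : P.gam P.I ≤ 1
  hlam : 10 ^ 4 ≤ P.lam
  hlamy : 1000 * y ≤ P.lam
  hlamI : P.lam ≤ P.I
  hb0 : 0 ≤ P.b
  hb : P.b ≤ P.lam / 100
  hK : P.I + P.b + Real.log (2 * m + 1) ≤ K
  hd : 23 * (P.lam / y) ≤ Real.exp (0.07 * P.lam)
  hz : 0 < z
  hz1 : z ≤ 1
  hzy : 23 * z * (P.lam / y) ≤ 1
  ha : 0 ≤ a
  hX0 : 0 ≤ P.X0
  hH : HB P
  hfail : ∀ (j : ℕ) (v : Fin n) (F : Finset (Fin n)), 0.84 * P.lam ≤ j → (j : ℝ) ≤ K → v ∉ F →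
      (n : ℝ) - P.X0 - (m + 1) ≤ F.card →
      Ex (fun U : Ev n => ind ((P.bs j U v F).2 = none)) ≤ Real.exp (-(0.3 * j / y))
  hsize : ∀ (j : ℕ) (v : Fin n) (F : Finset (Fin n)), 0.84 * P.lam ≤ j → (j : ℝ) ≤ K → v ∉ F →
      Ex (fun U : Ev n => Real.exp (a * (P.bs j U v F).1.card)) ≤ 2

variable {P : SP n} {y K a z : ℝ} {m : ℕ}

theorem Hyp.nR (h : Hyp P y K a z m) : (0 : ℝ) < n := by exact_mod_cast h.hn

theorem Hyp.lam0 (h : Hyp P y K a z m) : 0 < P.lam := by have := h.hlam; linarith

theorem Hyp.log0 (_h : Hyp P y K a z m) : 0 ≤ Real.log (2 * m + 1) := by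
  refine Real.log_nonneg ?_
  have : (0 : ℝ) ≤ m := by positivity
  linarith

theorem Hyp.IK (h : Hyp P y K a z m) : P.I + P.b ≤ K := by
  have h1 := h.hK
  have h2 := h.log0
  linarith

theorem Hyp.lamK (h : Hyp P y K a z m) : P.lam ≤ K := by
  have h1 := h.IK
  have h2 := h.hlamI
  have h3 := h.hb0
  linarith

theorem Hyp.mono (h : Hyp P y K a z m) : Monotone P.gam := by
  intro i j hij
  rw [h.hgam, h.hgam]
  have hn := h.nR
  have hy := h.hy
  have h1 : (i : ℝ) ≤ j := by exact_mod_cast hij
  have h2 : (i : ℝ) / y ≤ j / y := div_le_div_of_nonneg_right h1 hy.le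
  exact div_le_div_of_nonneg_right (by linarith) hn.le

theorem Hyp.g0 (h : Hyp P y K a z m) : P.gam 0 = 1 / n := by
  rw [h.hgam]
  simp

theorem Hyp.hg0 (h : Hyp P y K a z m) : 0 ≤ P.gam (-(P.I0 : ℤ)) := by
  rw [h.hI0]
  have h1 := h.g0
  have hn := h.nR
  simp only [Nat.cast_zero, neg_zero]
  rw [h1]
  positivity

theorem zet_nonneg (h : Hyp P y K a z m) (R : Option ℝ) (fl : Bool) : 0 ≤ zet P z R fl := by
  unfold zet
  split_ifs
  · exact h.hz.le
  · norm_num

theorem zet_le_one (h : Hyp P y K a z m) (R : Option ℝ) (fl : Bool) : zet P z R fl ≤ 1 := by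
  unfold zet
  split_ifs
  · exact h.hz1
  · norm_num

theorem Psi_nonneg (h : Hyp P y K a z m) (R : Option ℝ) : 0 ≤ Psi P y R := by
  cases R with
  | none =>
    have hy := h.hy
    have hb := h.hb0
    show 0 ≤ 20 * (1 + (P.I + P.b) / y) * Real.exp ((P.I + P.b - P.lam) / 2)
    positivity
  | some r => exact (Real.exp_pos _).le

theorem SS_nonneg (h : Hyp P y K a z m) (e : Sym2 (Fin n)) {R : Option ℝ}
    (hR : ∀ r, R = some r → 0 < r) : 0 ≤ SS P y e R := by
  unfold SS
  exact Finset.sum_nonneg fun c _ => mul_nonneg (qc_nonneg P e c)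
    (mul_nonneg (PSum.wst_nonneg hR c) (Psi_nonneg h _))

/-- the edge sum in a known state -/
theorem SS_some (h : Hyp P y K a z m) (e : Sym2 (Fin n)) {r : ℝ} (hr : 0 < r)
    (hk : P.lam ≤ Real.log r) :
    SS P y e (some r) ≤ Real.exp ((Real.log r - P.lam) / 2) * ((5 * (Real.log r / y)) / n) := by
  have hlam := h.hlam
  have hlamy := h.hlamy
  have hn := h.nR
  have hy := h.hy
  have h1 := edge_sum h.hn h.hy P.I (qc P e) (qc_nonneg P e) (by
      have h2 := sum_qc h.mono h.hg0 h.hg1 e (N := 0) (by omega)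
      rw [h.hI0] at h2
      simp only [zero_add, Finset.sum_range_one, Nat.cast_zero, sub_self] at h2
      rw [h.g0] at h2
      exact h2)
    (fun c hc1 hc => by
      have h2 := qc_le h.mono h.hg0 h.hg1 e hc1 (by rw [h.hI0]; omega)
      refine h2.trans (le_of_eq ?_)
      rw [h.hI0, h.hgam, h.hgam]
      push_cast
      field_simp
      ring) (lam := P.lam) hr rfl (by linarith) (by linarith)
    P.rlo P.rhi (fun c => by unfold SP.rlo; rw [h.hI0]; simp)
    (fun c => by unfold SP.rhi; rw [h.hI0]; simp)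
  refine le_trans (le_of_eq ?_) h1
  unfold SS
  rw [h.hI0, zero_add]
  refine Finset.sum_congr rfl fun c _ => ?_
  unfold SP.wst SP.nst Psi
  ring

/-- the total probability of the classes -/
theorem sum_all (h : Hyp P y K a z m) (e : Sym2 (Fin n)) :
    ∑ c ∈ range (P.I0 + P.I + 1), qc P e c ≤ P.gam P.I := by
  have h2 := sum_qc h.mono h.hg0 h.hg1 e (N := P.I0 + P.I) le_rfl
  have e1 : (((P.I0 + P.I : ℕ) : ℤ)) - P.I0 = P.I := by push_cast; ring
  rw [e1] at h2
  exact h2

theorem gamI (h : Hyp P y K a z m) : P.gam P.I = (1 + P.I / y) / n := by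
  rw [h.hgam]
  push_cast
  rfl

theorem gamI_nonneg (h : Hyp P y K a z m) : 0 ≤ P.gam P.I :=
  h.hg0.trans (h.mono (by omega))

theorem SS_none (h : Hyp P y K a z m) (e : Sym2 (Fin n)) :
    SS P y e none ≤ Psi P y none * ((1 + P.I / y) / n) := by
  have e1 : SS P y e none = Psi P y none * ∑ c ∈ range (P.I0 + P.I + 1), qc P e c := by
    unfold SS
    rw [Finset.mul_sum]
    refine Finset.sum_congr rfl fun c _ => ?_
    show qc P e c * (1 * Psi P y none) = _
    ring
  rw [e1]
  exact mul_le_mul_of_nonneg_left ((sum_all h e).trans (gamI h).le) (Psi_nonneg h _)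

theorem exp_big {s c : ℝ} (hs : 1000 ≤ s) (hc : 0.25 ≤ c) :
    Real.exp (-(c * s)) * (5 * s) ≤ 1 / 4 := by
  have h1 := Real.quadratic_le_exp_of_nonneg (x := 0.25 * s) (by linarith)
  have h2 : Real.exp (0.25 * s) * Real.exp (-(0.25 * s)) = 1 := by
    rw [← Real.exp_add]; simp
  have h3 : Real.exp (-(c * s)) ≤ Real.exp (-(0.25 * s)) :=
    Real.exp_le_exp.2 (by nlinarith)
  have h4 := Real.exp_pos (-(0.25 * s))
  have h5 : 20 * s ≤ Real.exp (0.25 * s) := by nlinarith
  have h6 : 20 * s * Real.exp (-(0.25 * s)) ≤ 1 := by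
    rw [← h2]
    exact mul_le_mul_of_nonneg_right h5 h4.le
  have h7 : Real.exp (-(c * s)) * (5 * s) ≤ Real.exp (-(0.25 * s)) * (5 * s) :=
    mul_le_mul_of_nonneg_right h3 (by linarith)
  linarith

/-- facts on a state -/
structure Fac (P : SP n) (y K z : ℝ) (e : Sym2 (Fin n)) (R : Option ℝ) : Prop where
  j1 : 0.84 * P.lam ≤ P.idx R
  j2 : (P.idx R : ℝ) ≤ K
  S0 : SS P y e R ≤ Psi P y R * ((5 + 5 * K / y) / n)
  F0 : Real.exp (-(0.3 * P.idx R / y)) * SS P y e R ≤ Psi P y R * (1 / 4 / n)
  S1 : zet P z R true * SS P y e (some (P.Rs (P.idx R))) ≤ Psi P y R * (1 / 4 / n)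
  one : 1 ≤ Psi P y R

theorem fac_none (h : Hyp P y K a z m) (e : Sym2 (Fin n)) : Fac P y K z e none := by
  have hlam := h.hlam
  have hlamy := h.hlamy
  have hlam0 := h.lam0
  have hI := h.hlamI
  have hb := h.hb
  have hb0 := h.hb0
  have hIK := h.IK
  have hy := h.hy
  have hn := h.nR
  have hKlam := h.lamK
  have hidx : P.idx none = P.I := rfl
  have hPsi : Psi P y none = 20 * (1 + (P.I + P.b) / y) * Real.exp ((P.I + P.b - P.lam) / 2) := rfl
  have hPsi0 := Psi_nonneg h none
  have hI0 : (0 : ℝ) ≤ P.I := by positivity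
  have hs : 1000 ≤ (P.I : ℝ) / y := by
    rw [le_div_iff₀ hy]; linarith
  refine ⟨by rw [hidx]; linarith, by rw [hidx]; linarith, ?_, ?_, ?_, ?_⟩
  · refine (SS_none h e).trans (mul_le_mul_of_nonneg_left ?_ hPsi0)
    refine div_le_div_of_nonneg_right ?_ hn.le
    have : (P.I : ℝ) / y ≤ 5 * K / y := div_le_div_of_nonneg_right (by linarith) hy.le
    linarith
  · rw [hidx]
    have h1 := mul_le_mul_of_nonneg_left (SS_none h e) (Real.exp_pos (-(0.3 * P.I / y))).le
    refine h1.trans ?_
    have h2 := exp_big (s := (P.I : ℝ) / y) (c := 0.3) hs (by norm_num)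
    have e1 : 0.3 * ((P.I : ℝ) / y) = 0.3 * P.I / y := by ring
    rw [e1] at h2
    have h3 := Real.exp_pos (-(0.3 * P.I / y))
    calc Real.exp (-(0.3 * P.I / y)) * (Psi P y none * ((1 + P.I / y) / n))
        = Psi P y none * ((Real.exp (-(0.3 * P.I / y)) * (1 + P.I / y)) / n) := by ring
      _ ≤ Psi P y none * (1 / 4 / n) := by
          refine mul_le_mul_of_nonneg_left (div_le_div_of_nonneg_right ?_ hn.le) hPsi0
          refine le_trans (mul_le_mul_of_nonneg_left ?_ h3.le) h2
          linarith
  · rw [hidx]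
    have hz : zet P z none true = 1 := by
      unfold zet SP.low
      simp
    rw [hz, one_mul]
    have hlog : Real.log (P.Rs P.I) = P.I + P.b := by
      rw [PSum.log_Rs, max_eq_left (by linarith)]
    have h1 := SS_some h e (PSum.Rs_pos P P.I) (by rw [hlog]; linarith)
    rw [hlog] at h1
    refine h1.trans ?_
    rw [hPsi]
    set E := Real.exp ((P.I + P.b - P.lam) / 2) with hE
    have hE0 : 0 < E := Real.exp_pos _
    have e1 : E * (5 * ((P.I + P.b) / y) / n) = (5 * ((P.I + P.b) / y) * E) / n := by ring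
    have e2 : 20 * (1 + (P.I + P.b) / y) * E * (1 / 4 / n) =
      (5 * (1 + (P.I + P.b) / y) * E) / n := by ring
    rw [e1, e2]
    refine div_le_div_of_nonneg_right ?_ hn.le
    refine mul_le_mul_of_nonneg_right ?_ hE0.le
    linarith
  · rw [hPsi]
    have h1 : 1 ≤ Real.exp ((P.I + P.b - P.lam) / 2) := Real.one_le_exp (by linarith)
    have h2 : 0 ≤ ((P.I : ℝ) + P.b) / y := div_nonneg (by linarith) hy.le
    nlinarith

theorem fac_some (h : Hyp P y K a z m) (e : Sym2 (Fin n)) {r M : ℝ} (hM0 : 0 ≤ M) (hM : M ≤ m)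
    (hst : St P M (some r)) : Fac P y K z e (some r) := by
  obtain ⟨hr, hlk, hrM⟩ := hst
  have hlam := h.hlam
  have hlamy := h.hlamy
  have hlam0 := h.lam0
  have hI := h.hlamI
  have hb := h.hb
  have hb0 := h.hb0
  have hy := h.hy
  have hn := h.nR
  set k := Real.log r with hk
  have hidx : P.idx (some r) = ⌊0.85 * k⌋₊ := rfl
  have hPsi : Psi P y (some r) = Real.exp ((k - P.lam) / 2) := rfl
  have hk0 : 0 < k := by linarith
  have hkK : k ≤ K := by
    have h1 : k ≤ P.I + P.b + Real.log (2 * m + 1) := by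
      rw [hk]
      have h2 : Real.log r ≤ Real.log (Real.exp (P.I + P.b) * (2 * M + 1)) :=
        Real.log_le_log hr hrM
      rw [Real.log_mul (Real.exp_pos _).ne' (by linarith), Real.log_exp] at h2
      have h3 : Real.log (2 * M + 1) ≤ Real.log (2 * m + 1) :=
        Real.log_le_log (by linarith) (by linarith)
      linarith
    have := h.hK
    linarith
  have hj1 : 0.85 * k - 1 ≤ (⌊0.85 * k⌋₊ : ℝ) := by
    have := Nat.lt_floor_add_one (0.85 * k)
    linarith
  have hj2 : (⌊0.85 * k⌋₊ : ℝ) ≤ 0.85 * k := Nat.floor_le (by linarith)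
  have hlog : Real.log (P.Rs (P.idx (some r))) = max ((⌊0.85 * k⌋₊ : ℝ) + P.b) P.lam := by
    rw [PSum.log_Rs, hidx]
  set k' := max ((⌊0.85 * k⌋₊ : ℝ) + P.b) P.lam with hk'
  have hk'k : k' ≤ k := max_le (by linarith) hlk
  have hk'lam : P.lam ≤ k' := le_max_right _ _
  have hk'0 : 0 < k' := by linarith
  set s := k / y with hs
  have hs1 : 1000 ≤ s := by rw [hs, le_div_iff₀ hy]; linarith
  have hE0 : 0 < Real.exp ((k - P.lam) / 2) := Real.exp_pos _
  have hS := SS_some h e hr hlk
  rw [← hk, ← hs] at hS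
  refine ⟨by rw [hidx]; linarith, by rw [hidx]; linarith, ?_, ?_, ?_, ?_⟩
  · rw [hPsi]
    refine hS.trans (mul_le_mul_of_nonneg_left (div_le_div_of_nonneg_right ?_ hn.le) hE0.le)
    have : s ≤ K / y := div_le_div_of_nonneg_right hkK hy.le
    rw [mul_div_assoc]
    linarith
  · rw [hPsi, hidx]
    have h3 := Real.exp_pos (-(0.3 * (⌊0.85 * k⌋₊ : ℝ) / y))
    have h1 := mul_le_mul_of_nonneg_left hS h3.le
    refine h1.trans ?_
    have h2 := exp_big (s := s) (c := 0.25) hs1 le_rfl
    have h4 : Real.exp (-(0.3 * (⌊0.85 * k⌋₊ : ℝ) / y)) ≤ Real.exp (-(0.25 * s)) := by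
      refine Real.exp_le_exp.2 (neg_le_neg ?_)
      rw [hs, mul_div_assoc', div_le_div_iff_of_pos_right hy]
      linarith
    calc Real.exp (-(0.3 * (⌊0.85 * k⌋₊ : ℝ) / y)) *
          (Real.exp ((k - P.lam) / 2) * (5 * s / n))
        = Real.exp ((k - P.lam) / 2) *
          ((Real.exp (-(0.3 * (⌊0.85 * k⌋₊ : ℝ) / y)) * (5 * s)) / n) := by ring
      _ ≤ Real.exp ((k - P.lam) / 2) * (1 / 4 / n) := by
          refine mul_le_mul_of_nonneg_left (div_le_div_of_nonneg_right ?_ hn.le) hE0.le
          exact le_trans (mul_le_mul_of_nonneg_right h4 (by linarith)) h2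
  · rw [hPsi]
    have h1 := SS_some h e (PSum.Rs_pos P (P.idx (some r))) (by rw [hlog]; exact hk'lam)
    rw [hlog] at h1
    have key : zet P z (some r) true * (Real.exp ((k' - P.lam) / 2) * (5 * (k' / y))) ≤
        Real.exp ((k - P.lam) / 2) * (1 / 4) := by
      by_cases hl : P.low (some r)
      · have hz : zet P z (some r) true = z := by
          unfold zet
          rw [if_pos ⟨rfl, hl⟩]
        rw [hz]
        have hl' : k ≤ 1.15 * P.lam := hl
        have h3 : Real.exp ((k' - P.lam) / 2) ≤ Real.exp ((k - P.lam) / 2) :=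
          Real.exp_le_exp.2 (by linarith)
        have h4 : z * (5 * (k' / y)) ≤ 1 / 4 := by
          have h5 : k' / y ≤ 1.15 * (P.lam / y) := by
            rw [mul_div_assoc']
            exact div_le_div_of_nonneg_right (by linarith) hy.le
          have h6 := h.hzy
          have h7 := h.hz
          nlinarith
        have h8 : 0 ≤ z * (5 * (k' / y)) := by
          have := h.hz
          positivity
        calc z * (Real.exp ((k' - P.lam) / 2) * (5 * (k' / y)))
            = Real.exp ((k' - P.lam) / 2) * (z * (5 * (k' / y))) := by ring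
          _ ≤ Real.exp ((k - P.lam) / 2) * (1 / 4) := mul_le_mul h3 h4 h8 hE0.le
      · have hz : zet P z (some r) true = 1 := by
          unfold zet
          rw [if_neg (fun h5 => hl h5.2)]
        rw [hz, one_mul]
        have hl' : 1.15 * P.lam < k := not_le.1 hl
        have h3 : k' ≤ 0.87 * k := max_le (by linarith) (by linarith)
        set x0 := 1.15 * P.lam with hx0
        have hx00 : 0 < x0 := by linarith
        have h4 : k ≤ x0 * Real.exp (0.065 * (k - x0)) := by
          have h5 : k / x0 ≤ Real.exp ((k - x0) / x0) := by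
            have h6 := Real.add_one_le_exp ((k - x0) / x0)
            have e1 : (k - x0) / x0 + 1 = k / x0 := by field_simp; ring
            rwa [e1] at h6
          have h6 : Real.exp ((k - x0) / x0) ≤ Real.exp (0.065 * (k - x0)) := by
            refine Real.exp_le_exp.2 ?_
            rw [div_le_iff₀ hx00]
            have : 0 ≤ k - x0 := by linarith
            nlinarith
          rw [div_le_iff₀ hx00] at h5
          calc k ≤ Real.exp ((k - x0) / x0) * x0 := h5
            _ ≤ Real.exp (0.065 * (k - x0)) * x0 := mul_le_mul_of_nonneg_right h6 hx00.le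
            _ = _ := mul_comm _ _
        have h5 : Real.exp ((k' - P.lam) / 2) ≤
            Real.exp ((k - P.lam) / 2) * Real.exp (-(0.065 * k)) := by
          rw [← Real.exp_add]
          exact Real.exp_le_exp.2 (by linarith)
        have h6 : 5 * (k' / y) * Real.exp (-(0.065 * k)) ≤ 1 / 4 := by
          have h7 : k' / y ≤ 0.87 * x0 / y * Real.exp (0.065 * (k - x0)) := by
            rw [div_mul_eq_mul_div]
            refine div_le_div_of_nonneg_right ?_ hy.le
            calc k' ≤ 0.87 * k := h3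
              _ ≤ 0.87 * (x0 * Real.exp (0.065 * (k - x0))) := by linarith
              _ = _ := by ring
          have h8 := h.hd
          have h9 : Real.exp (0.065 * (k - x0)) * Real.exp (-(0.065 * k)) ≤
              Real.exp (-(0.07 * P.lam)) := by
            rw [← Real.exp_add]
            refine Real.exp_le_exp.2 ?_
            rw [hx0]
            linarith
          have h10 : Real.exp (0.07 * P.lam) * Real.exp (-(0.07 * P.lam)) = 1 := by
            rw [← Real.exp_add]; simp
          have h11 : 23 * (P.lam / y) * Real.exp (-(0.07 * P.lam)) ≤ 1 := by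
            rw [← h10]
            exact mul_le_mul_of_nonneg_right h8 (Real.exp_pos _).le
          calc 5 * (k' / y) * Real.exp (-(0.065 * k))
              ≤ 5 * (0.87 * x0 / y * Real.exp (0.065 * (k - x0))) * Real.exp (-(0.065 * k)) :=
                mul_le_mul_of_nonneg_right (by linarith) (Real.exp_pos _).le
            _ = 5 * (0.87 * x0 / y) *
                (Real.exp (0.065 * (k - x0)) * Real.exp (-(0.065 * k))) := by ring
            _ ≤ 5 * (0.87 * x0 / y) * Real.exp (-(0.07 * P.lam)) :=
                mul_le_mul_of_nonneg_left h9 (by positivity)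
            _ = 5.0025 * (P.lam / y * Real.exp (-(0.07 * P.lam))) := by rw [hx0]; ring
            _ ≤ 1 / 4 := by
                have h12 : 0 ≤ P.lam / y * Real.exp (-(0.07 * P.lam)) := by positivity
                have h13 : P.lam / y * Real.exp (-(0.07 * P.lam)) ≤ 1 / 23 := by linarith
                linarith
        calc Real.exp ((k' - P.lam) / 2) * (5 * (k' / y))
            ≤ (Real.exp ((k - P.lam) / 2) * Real.exp (-(0.065 * k))) * (5 * (k' / y)) :=
              mul_le_mul_of_nonneg_right h5 (by positivity)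
          _ = Real.exp ((k - P.lam) / 2) * (5 * (k' / y) * Real.exp (-(0.065 * k))) := by ring
          _ ≤ Real.exp ((k - P.lam) / 2) * (1 / 4) := mul_le_mul_of_nonneg_left h6 hE0.le
    calc zet P z (some r) true * SS P y e (some (P.Rs (P.idx (some r))))
        ≤ zet P z (some r) true * (Real.exp ((k' - P.lam) / 2) * (5 * (k' / y) / n)) :=
          mul_le_mul_of_nonneg_left h1 (zet_nonneg h _ _)
      _ = (zet P z (some r) true * (Real.exp ((k' - P.lam) / 2) * (5 * (k' / y)))) / n := by ring
      _ ≤ (Real.exp ((k - P.lam) / 2) * (1 / 4)) / n := div_le_div_of_nonneg_right key hn.le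
      _ = _ := by ring
  · rw [hPsi]
    exact Real.one_le_exp (by linarith)

theorem fac (h : Hyp P y K a z m) (e : Sym2 (Fin n)) {R : Option ℝ} {M : ℝ} (hM0 : 0 ≤ M)
    (hM : M ≤ m) (hst : St P M R) : Fac P y K z e R := by
  cases R with
  | none => exact fac_none h e
  | some r => exact fac_some h e hM0 hM hst

/-- the next state -/
theorem st_next (h : Hyp P y K a z m) {R : Option ℝ} {M : ℝ} (hM0 : 0 ≤ M) (hst : St P M R)
    (fl : Bool) {c : ℕ} (hc : c ≤ P.I0 + P.I) : St P (M + 1) (P.nst (staB P R fl) c) := by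
  have hI := h.hlamI
  have hb := h.hb
  have hb0 := h.hb0
  have hlam := h.hlam
  have hlam0 := h.lam0
  have hrhi : P.rhi c ≤ Real.exp (P.I + P.b) := by
    unfold SP.rhi
    refine Real.exp_le_exp.2 ?_
    have : (c : ℝ) ≤ P.I0 + P.I := by exact_mod_cast hc
    linarith
  have hrhi0 : 0 < P.rhi c := Real.exp_pos _
  have key : ∀ r : ℝ, St P M (some r) → St P (M + 1) (P.nst (some r) c) := by
    intro r hr
    obtain ⟨h1, h2, h3⟩ := hr
    refine ⟨by positivity, ?_, ?_⟩
    · exact h2.trans (Real.log_le_log h1 (by linarith))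
    · have : Real.exp (P.I + P.b) * (2 * (M + 1) + 1) =
          Real.exp (P.I + P.b) * (2 * M + 1) + 2 * Real.exp (P.I + P.b) := by ring
      rw [this]
      linarith
  have hE := Real.exp_pos ((P.I : ℝ) + P.b)
  cases fl with
  | false =>
    cases R with
    | none => trivial
    | some r => exact key r hst
  | true =>
    refine key _ ⟨PSum.Rs_pos P _, ?_, ?_⟩
    · rw [PSum.log_Rs]; exact le_max_right _ _
    · cases R with
      | none =>
        have : P.Rs (P.idx none) = Real.exp (P.I + P.b) := by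
          unfold SP.Rs
          have : P.idx none = P.I := rfl
          rw [this, max_eq_left (by linarith)]
        rw [this]
        nlinarith
      | some r =>
        obtain ⟨h1, h2, h3⟩ := hst
        refine le_trans ?_ h3
        have hj2 : (⌊0.85 * Real.log r⌋₊ : ℝ) ≤ 0.85 * Real.log r := Nat.floor_le (by linarith)
        have : P.Rs (P.idx (some r)) ≤ Real.exp (Real.log r) := by
          unfold SP.Rs
          refine Real.exp_le_exp.2 (max_le ?_ h2)
          show (⌊0.85 * Real.log r⌋₊ : ℝ) + P.b ≤ Real.log r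
          linarith
        rwa [Real.exp_log h1] at this

/-- the case of a large explored set -/
theorem wsum_big (h : Hyp P y K a z m) {Q : Finset (Fin n)} :
    ∀ (i : ℕ) (l : List (Fin n)), l.length = i + 1 → l.Nodup → (∀ u ∈ l, u ∈ Q) →
      ∀ (X : Finset (Fin n)) (R : Option ℝ), P.X0 < X.card → (∀ r, R = some r → 0 < r) →
      Ex (fun U : Ev n => P.wsum z U Q l X R) ≤ P.gam P.I ^ i := by
  classical
  intro i
  induction i with
  | zero =>
    intro l hl _ _ X R _ _
    obtain ⟨v, rfl⟩ := List.length_eq_one_iff.1 hl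
    have : (fun U : Ev n => P.wsum z U Q [v] X R) = fun _ => 1 := rfl
    rw [this, Ex_const, pow_zero]
  | succ i ih =>
    intro l hl hnd hQ X R hX hR
    match l, hl, hnd, hQ with
    | v :: w :: t, hl, hnd, hQ =>
      rw [Ex_wsum h.hH z X R hQ hnd]
      have hebs : ∀ U : Ev n, P.ebs U Q X R v = (∅, none) := by
        intro U
        unfold SP.ebs
        rw [if_neg (not_le.2 hX)]
      have hevt : ∀ (Y : Finset (Fin n)) (fl : Bool), ¬ (Y = ∅ ∧ fl = false) →
          Ex (fun U : Ev n => ind (evt P U Q X R v Y fl)) = 0 := by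
        intro Y fl hne
        rw [Ex_congr (G := fun _ => 0), Ex_const]
        intro U
        refine ind_false ?_
        unfold evt
        rw [hebs U]
        rintro ⟨h1, h2⟩
        exact hne ⟨h1.symm, h2.symm⟩
      rw [Finset.sum_eq_single_of_mem ∅ (mem_powerset.2 (empty_subset _))]
      · rw [Finset.sum_eq_single_of_mem false (mem_univ _)]
        · have h1 : Ex (fun U : Ev n => ind (evt P U Q X R v ∅ false)) = 1 := by
            rw [Ex_congr (G := fun _ => 1), Ex_const]
            intro U
            refine ind_true ?_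
            unfold evt
            rw [hebs U]
            exact ⟨rfl, rfl⟩
          rw [h1, one_mul, pow_succ, mul_comm]
          refine le_trans ?_ (mul_le_mul_of_nonneg_right (sum_all h s(v, w))
            (pow_nonneg (gamI_nonneg h) i))
          rw [Finset.sum_mul]
          refine Finset.sum_le_sum fun c _ => mul_le_mul_of_nonneg_left ?_ (qc_nonneg _ _ _)
          have hR' := PSum.staB_pos (P := P) hR false
          have h2 := ih (w :: t) (by simpa using hl) (List.nodup_cons.1 hnd).2
            (fun u hu => hQ u (List.mem_cons_of_mem _ hu)) (X ∪ ∅)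
            (P.nst (staB P R false) c) (by simpa using hX) (PSum.nst_pos hR' c)
          have h3 : 0 ≤ zet P z R false * P.wst (staB P R false) c :=
            mul_nonneg (zet_nonneg h _ _) (PSum.wst_nonneg hR' c)
          have h4 : zet P z R false * P.wst (staB P R false) c ≤ 1 :=
            mul_le_one₀ (zet_le_one h _ _) (PSum.wst_nonneg hR' c) (PSum.wst_le_one hR' c)
          calc zet P z R false * P.wst (staB P R false) c *
                Ex (fun U : Ev n => P.wsum z U Q (w :: t) (X ∪ ∅)
                  (P.nst (staB P R false) c))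
              ≤ zet P z R false * P.wst (staB P R false) c * P.gam P.I ^ i :=
                mul_le_mul_of_nonneg_left h2 h3
            _ ≤ P.gam P.I ^ i :=
                mul_le_of_le_one_left (pow_nonneg (gamI_nonneg h) i) h4
        · intro fl _ hne
          rw [hevt ∅ fl (fun h5 => hne h5.2), zero_mul]
      · intro Y _ hne
        refine Finset.sum_eq_zero fun fl _ => ?_
        rw [hevt Y fl (fun h5 => hne h5.1), zero_mul]

/-- the induction along the path -/
theorem main_ind (h : Hyp P y K a z m) {Q : Finset (Fin n)} (hQc : Q.card ≤ m + 1) :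
    ∀ (i : ℕ) (l : List (Fin n)), l.length = i + 1 → l.Nodup → (∀ u ∈ l, u ∈ Q) → i ≤ m →
      ∀ (X : Finset (Fin n)) (R : Option ℝ), St P ((m : ℝ) - i) R →
      Ex (fun U : Ev n => P.wsum z U Q l X R) ≤ (1 / (n : ℝ)) ^ i * (Psi P y R *
        ((1 / 2) ^ i + Real.exp (a * (X.card - P.X0)) * (10 + 10 * K / y) ^ i)) := by
  classical
  intro i
  induction i with
  | zero =>
    intro l hl _ _ _ X R hst
    obtain ⟨v, rfl⟩ := List.length_eq_one_iff.1 hl
    have h1 : (fun U : Ev n => P.wsum z U Q [v] X R) = fun _ => 1 := rfl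
    rw [h1, Ex_const, pow_zero, pow_zero, pow_zero, one_mul, mul_one]
    have h2 := (fac h s(v, v) (M := (m : ℝ) - (0 : ℕ)) (by simp) (by simp) hst).one
    have h3 := Real.exp_pos (a * (X.card - P.X0))
    nlinarith
  | succ i ih =>
    intro l hl hnd hQ him X R hst
    match l, hl, hnd, hQ with
    | v :: w :: t, hl, hnd, hQ =>
      have hy := h.hy
      have hn := h.nR
      have hlam0 := h.lam0
      have hlamK := h.lamK
      have hv : v ∈ Q := hQ v (by simp)
      have hM0 : (0 : ℝ) ≤ (m : ℝ) - ((i + 1 : ℕ) : ℝ) := by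
        have : ((i + 1 : ℕ) : ℝ) ≤ m := by exact_mod_cast him
        linarith
      have hM : (m : ℝ) - ((i + 1 : ℕ) : ℝ) ≤ m := by
        have : (0 : ℝ) ≤ ((i + 1 : ℕ) : ℝ) := by positivity
        linarith
      have hF := fac h s(v, w) hM0 hM hst
      have hPsi1 := hF.one
      have hPsi0 : 0 ≤ Psi P y R := by linarith
      have hKy0 : 0 ≤ K / y := div_nonneg (by linarith) hy.le
      set D := 10 + 10 * K / y with hD
      have hD1 : 10 ≤ D := by
        rw [hD, mul_div_assoc]
        linarith
      by_cases hX : (X.card : ℝ) ≤ P.X0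
      · -- the exploration is made
        set B := Real.exp (a * (X.card - P.X0)) with hB
        have hB0 : 0 < B := Real.exp_pos _
        rw [Ex_wsum h.hH z X R hQ hnd]
        have hterm : ∀ (Y : Finset (Fin n)) (fl : Bool),
            ∑ c ∈ range (P.I0 + P.I + 1), (qc P s(v, w) c * (zet P z R fl *
              P.wst (staB P R fl) c * Ex (fun U : Ev n => P.wsum z U Q (w :: t) (X ∪ Y)
                (P.nst (staB P R fl) c)))) ≤
            (zet P z R fl * SS P y s(v, w) (staB P R fl)) *
              ((1 / (n : ℝ)) ^ i * ((1 / 2) ^ i + (B * Real.exp (a * Y.card)) * D ^ i)) := by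
          intro Y fl
          have hR' := PSum.staB_pos (P := P) (PSum.st_pos hst) fl
          unfold SS
          rw [mul_assoc, Finset.sum_mul, Finset.mul_sum]
          refine Finset.sum_le_sum fun c hc => ?_
          rw [mem_range] at hc
          have hst' : St P ((m : ℝ) - i) (P.nst (staB P R fl) c) := by
            have h1 := st_next h hM0 hst fl (c := c) (by omega)
            have e1 : (m : ℝ) - ((i + 1 : ℕ) : ℝ) + 1 = (m : ℝ) - i := by push_cast; ring
            rwa [e1] at h1
          have h2 := ih (w :: t) (by simpa using hl) (List.nodup_cons.1 hnd).2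
            (fun u hu => hQ u (List.mem_cons_of_mem _ hu)) (by omega) (X ∪ Y) _ hst'
          have h3 : Real.exp (a * ((X ∪ Y).card - P.X0)) ≤ B * Real.exp (a * Y.card) := by
            rw [hB, ← Real.exp_add]
            refine Real.exp_le_exp.2 ?_
            have h4 : (((X ∪ Y).card : ℕ) : ℝ) ≤ X.card + Y.card := by
              exact_mod_cast Finset.card_union_le X Y
            have := mul_le_mul_of_nonneg_left h4 h.ha
            linarith
          have h5 : (1 / (n : ℝ)) ^ i * (Psi P y (P.nst (staB P R fl) c) *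
              ((1 / 2) ^ i + Real.exp (a * ((X ∪ Y).card - P.X0)) * D ^ i)) ≤
              (1 / (n : ℝ)) ^ i * (Psi P y (P.nst (staB P R fl) c) *
              ((1 / 2) ^ i + (B * Real.exp (a * Y.card)) * D ^ i)) := by
            refine mul_le_mul_of_nonneg_left (mul_le_mul_of_nonneg_left ?_ (Psi_nonneg h _))
              (by positivity)
            have := mul_le_mul_of_nonneg_right h3 (pow_nonneg (by linarith : 0 ≤ D) i)
            linarith
          have h6 : 0 ≤ zet P z R fl * P.wst (staB P R fl) c :=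
            mul_nonneg (zet_nonneg h _ _) (PSum.wst_nonneg hR' c)
          have h7 := mul_le_mul_of_nonneg_left (mul_le_mul_of_nonneg_left (h2.trans h5) h6)
            (qc_nonneg P s(v, w) c)
          refine h7.trans (le_of_eq ?_)
          ring
        have hp0 : ∀ Y fl, 0 ≤ Ex (fun U : Ev n => ind (evt P U Q X R v Y fl)) :=
          fun Y fl => Ex_nonneg fun U => ind_nonneg _
        refine (Finset.sum_le_sum fun Y _ => Finset.sum_le_sum fun fl _ =>
          mul_le_mul_of_nonneg_left (hterm Y fl) (hp0 Y fl)).trans ?_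
        -- the exploration
        have hebs : ∀ U : Ev n, P.ebs U Q X R v = P.bs (P.idx R) U v (univ \ (Q ∪ X)) := by
          intro U
          unfold SP.ebs
          rw [if_pos hX]
        have hvF : v ∉ univ \ (Q ∪ X) := by simp [hv]
        have hFcard : (n : ℝ) - P.X0 - (m + 1) ≤ ((univ \ (Q ∪ X)).card : ℝ) := by
          rw [Finset.card_sdiff_of_subset (Finset.subset_univ _), Finset.card_univ, Fintype.card_fin]
          have h1 : (Q ∪ X).card ≤ Q.card + X.card := Finset.card_union_le _ _
          have h2 : (Q ∪ X).card ≤ n := by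
            have := Finset.card_le_univ (Q ∪ X)
            rwa [Fintype.card_fin] at this
          rw [Nat.cast_sub h2]
          have h3 : (((Q ∪ X).card : ℕ) : ℝ) ≤ (m + 1) + X.card := by
            have : (Q ∪ X).card ≤ (m + 1) + X.card := by omega
            exact_mod_cast this
          linarith
        have hfail := h.hfail (P.idx R) v (univ \ (Q ∪ X)) hF.j1 hF.j2 hvF hFcard
        have hsize := h.hsize (P.idx R) v (univ \ (Q ∪ X)) hF.j1 hF.j2 hvF
        have hSR0 : 0 ≤ SS P y s(v, w) R := SS_nonneg h _ (PSum.st_pos hst)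
        have hSs0 : 0 ≤ SS P y s(v, w) (some (P.Rs (P.idx R))) := by
          refine SS_nonneg h _ fun r hr => ?_
          rw [← Option.some.inj hr]
          exact PSum.Rs_pos P _
        -- the two sums
        have hsumA : ∑ Y ∈ (univ \ (Q ∪ X)).powerset, ∑ fl : Bool,
            Ex (fun U : Ev n => ind (evt P U Q X R v Y fl)) *
              (zet P z R fl * SS P y s(v, w) (staB P R fl)) ≤
            Psi P y R * (1 / 2 / n) := by
          rw [PSum.sum_evt h.hH hv (fun _ fl => zet P z R fl * SS P y s(v, w) (staB P R fl))]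
          have e1 : ∀ U : Ev n, zet P z R (P.ebs U Q X R v).2.isSome *
              SS P y s(v, w) (staB P R (P.ebs U Q X R v).2.isSome) =
              SS P y s(v, w) R * ind ((P.bs (P.idx R) U v (univ \ (Q ∪ X))).2 = none) +
              (zet P z R true * SS P y s(v, w) (some (P.Rs (P.idx R)))) *
                (1 - ind ((P.bs (P.idx R) U v (univ \ (Q ∪ X))).2 = none)) := by
            intro U
            rw [hebs U]
            cases hbs : (P.bs (P.idx R) U v (univ \ (Q ∪ X))).2 with
            | none =>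
              rw [ind_true rfl]
              have hz : zet P z R false = 1 := by
                unfold zet
                simp
              show zet P z R false * SS P y s(v, w) R = _
              rw [hz]
              ring
            | some x =>
              rw [ind_false (by simp)]
              show zet P z R true * SS P y s(v, w) (some (P.Rs (P.idx R))) = _
              ring
          rw [Ex_congr e1]
          have hBM : BM (fun U : Ev n => ind ((P.bs (P.idx R) U v (univ \ (Q ∪ X))).2 = none)) := by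
            obtain ⟨L, hL⟩ := h.hH.lvl (P.idx R)
            refine BM_lvl L fun U U' hU => ?_
            rw [hL U U' v _ hU]
          rw [Ex_add ((BM.const _).mul hBM) ((BM.const _).mul ((BM.const _).sub hBM)),
            Ex_const_mul, Ex_const_mul, Ex_sub (BM.const _) hBM, Ex_const]
          set pf := Ex (fun U : Ev n => ind ((P.bs (P.idx R) U v (univ \ (Q ∪ X))).2 = none))
            with hpf
          have hpf0 : 0 ≤ pf := Ex_nonneg fun U => ind_nonneg _
          have g1 : SS P y s(v, w) R * pf ≤ Psi P y R * (1 / 4 / n) := by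
            refine le_trans ?_ hF.F0
            rw [mul_comm]
            exact mul_le_mul_of_nonneg_right hfail hSR0
          have g2 : zet P z R true * SS P y s(v, w) (some (P.Rs (P.idx R))) * (1 - pf) ≤
              Psi P y R * (1 / 4 / n) := by
            refine le_trans ?_ hF.S1
            exact mul_le_of_le_one_right (mul_nonneg (zet_nonneg h _ _) hSs0) (by linarith)
          have e2 : Psi P y R * (1 / 2 / n) = Psi P y R * (1 / 4 / n) + Psi P y R * (1 / 4 / n) := by
            ring
          rw [e2]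
          exact add_le_add g1 g2
        have hSmax : ∀ fl : Bool, zet P z R fl * SS P y s(v, w) (staB P R fl) ≤
            Psi P y R * ((5 + 5 * K / y) / n) := by
          intro fl
          cases fl with
          | false =>
            have hz : zet P z R false = 1 := by
              unfold zet
              simp
            rw [hz, one_mul]
            exact hF.S0
          | true =>
            refine hF.S1.trans (mul_le_mul_of_nonneg_left (div_le_div_of_nonneg_right ?_ hn.le)
              hPsi0)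
            rw [mul_div_assoc]
            linarith
        have hsumB : ∑ Y ∈ (univ \ (Q ∪ X)).powerset, ∑ fl : Bool,
            Ex (fun U : Ev n => ind (evt P U Q X R v Y fl)) *
              ((zet P z R fl * SS P y s(v, w) (staB P R fl)) * Real.exp (a * Y.card)) ≤
            Psi P y R * (D / n) := by
          have h1 : ∑ Y ∈ (univ \ (Q ∪ X)).powerset, ∑ fl : Bool,
              Ex (fun U : Ev n => ind (evt P U Q X R v Y fl)) *
                ((zet P z R fl * SS P y s(v, w) (staB P R fl)) * Real.exp (a * Y.card)) ≤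
              ∑ Y ∈ (univ \ (Q ∪ X)).powerset, ∑ fl : Bool,
              Ex (fun U : Ev n => ind (evt P U Q X R v Y fl)) *
                ((Psi P y R * ((5 + 5 * K / y) / n)) * Real.exp (a * Y.card)) := by
            refine Finset.sum_le_sum fun Y _ => Finset.sum_le_sum fun fl _ =>
              mul_le_mul_of_nonneg_left ?_ (hp0 Y fl)
            exact mul_le_mul_of_nonneg_right (hSmax fl) (Real.exp_pos _).le
          refine h1.trans ?_
          rw [PSum.sum_evt h.hH hv
            (fun Y _ => (Psi P y R * ((5 + 5 * K / y) / n)) * Real.exp (a * Y.card)),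
            Ex_const_mul]
          have h2 : Ex (fun U : Ev n => Real.exp (a * (P.ebs U Q X R v).1.card)) ≤ 2 := by
            refine le_trans (le_of_eq (Ex_congr fun U => ?_)) hsize
            rw [hebs U]
          have h3 : 0 ≤ Psi P y R * ((5 + 5 * K / y) / n) := by
            refine mul_nonneg hPsi0 (div_nonneg ?_ hn.le)
            rw [mul_div_assoc]
            linarith
          refine (mul_le_mul_of_nonneg_left h2 h3).trans (le_of_eq ?_)
          rw [hD]
          ring
        -- conclusion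
        have e1 : ∑ Y ∈ (univ \ (Q ∪ X)).powerset, ∑ fl : Bool,
            Ex (fun U : Ev n => ind (evt P U Q X R v Y fl)) *
              ((zet P z R fl * SS P y s(v, w) (staB P R fl)) *
                ((1 / (n : ℝ)) ^ i * ((1 / 2) ^ i + (B * Real.exp (a * Y.card)) * D ^ i))) =
            (1 / (n : ℝ)) ^ i * (1 / 2) ^ i * (∑ Y ∈ (univ \ (Q ∪ X)).powerset, ∑ fl : Bool,
              Ex (fun U : Ev n => ind (evt P U Q X R v Y fl)) *
                (zet P z R fl * SS P y s(v, w) (staB P R fl))) +
            (1 / (n : ℝ)) ^ i * B * D ^ i * (∑ Y ∈ (univ \ (Q ∪ X)).powerset, ∑ fl : Bool,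
              Ex (fun U : Ev n => ind (evt P U Q X R v Y fl)) *
                ((zet P z R fl * SS P y s(v, w) (staB P R fl)) *
                  Real.exp (a * Y.card))) := by
          simp only [Finset.mul_sum, ← Finset.sum_add_distrib]
          refine Finset.sum_congr rfl fun Y _ => Finset.sum_congr rfl fun fl _ => ?_
          ring
        rw [e1]
        have g1 := mul_le_mul_of_nonneg_left hsumA
          (show 0 ≤ (1 / (n : ℝ)) ^ i * (1 / 2) ^ i by positivity)
        have g2 := mul_le_mul_of_nonneg_left hsumB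
          (show 0 ≤ (1 / (n : ℝ)) ^ i * B * D ^ i by positivity)
        refine (add_le_add g1 g2).trans (le_of_eq ?_)
        rw [pow_succ, pow_succ, pow_succ]
        ring
      · -- no exploration
        push Not at hX
        refine (wsum_big h (i + 1) (v :: w :: t) hl hnd hQ X R hX (PSum.st_pos hst)).trans ?_
        have h1 : P.gam P.I ≤ (1 / (n : ℝ)) * D := by
          rw [gamI h, div_eq_mul_one_div, mul_comm]
          refine mul_le_mul_of_nonneg_left ?_ (by positivity)
          rw [hD]
          have h2 : (P.I : ℝ) / y ≤ 10 * K / y := by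
            refine div_le_div_of_nonneg_right ?_ hy.le
            have := h.IK
            have := h.hb0
            linarith
          linarith
        have h2 : P.gam P.I ^ (i + 1) ≤ (1 / (n : ℝ)) ^ (i + 1) * D ^ (i + 1) := by
          rw [← mul_pow]
          exact pow_le_pow_left₀ (gamI_nonneg h) h1 _
        refine h2.trans (mul_le_mul_of_nonneg_left ?_ (by positivity))
        have h3 : 1 ≤ Real.exp (a * (X.card - P.X0)) := by
          refine Real.one_le_exp (mul_nonneg h.ha ?_)
          linarith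
        have h4 : 0 ≤ D ^ (i + 1) := by positivity
        have h5 : (0 : ℝ) ≤ (1 / 2) ^ (i + 1) := by positivity
        calc D ^ (i + 1) ≤ Real.exp (a * (X.card - P.X0)) * D ^ (i + 1) :=
              le_mul_of_one_le_left h4 h3
          _ ≤ (1 / 2) ^ (i + 1) + Real.exp (a * (X.card - P.X0)) * D ^ (i + 1) := by linarith
          _ ≤ Psi P y R * ((1 / 2) ^ (i + 1) +
              Real.exp (a * (X.card - P.X0)) * D ^ (i + 1)) := by
              refine le_mul_of_one_le_left ?_ hPsi1
              have := Real.exp_pos (a * (X.card - P.X0))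
              positivity

end PSumA

/-- the annealed path sum, supercritical explorations -/
theorem path_sum_A (P : SP n) (y K a z : ℝ) (m : ℕ) (hn : 0 < n) (hy : 0 < y)
    (hgam : ∀ i : ℤ, P.gam i = (1 + i / y) / n) (hI0 : P.I0 = 0) (hg1 : P.gam P.I ≤ 1)
    (hlam : 10 ^ 4 ≤ P.lam) (hlamy : 1000 * y ≤ P.lam) (hlamI : P.lam ≤ P.I) (hb0 : 0 ≤ P.b)
    (hb : P.b ≤ P.lam / 100) (hK : P.I + P.b + Real.log (2 * m + 1) ≤ K)
    (hd : 23 * (P.lam / y) ≤ Real.exp (0.07 * P.lam)) (hz : 0 < z) (hz1 : z ≤ 1)
    (hzy : 23 * z * (P.lam / y) ≤ 1) (ha : 0 ≤ a) (hX0 : 0 ≤ P.X0)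
    (hsub : ∀ (j : ℕ) (U : Ev n) (v : Fin n) (F : Finset (Fin n)), v ∉ F → (P.bs j U v F).1 ⊆ F)
    (hloc : ∀ (j : ℕ) (U U' : Ev n) (v : Fin n) (F : Finset (Fin n)), v ∉ F →
      (∀ c ∈ insert v (P.bs j U v F).1, ∀ d ∈ F, U s(c, d) = U' s(c, d)) →
      P.bs j U' v F = P.bs j U v F)
    (hlvl : ∀ j : ℕ, ∃ L : Finset ℝ, ∀ (U U' : Ev n) (v : Fin n) (F : Finset (Fin n)),
      lvlEq L U U' → P.bs j U v F = P.bs j U' v F)
    (hfail : ∀ (j : ℕ) (v : Fin n) (F : Finset (Fin n)), 0.84 * P.lam ≤ j → (j : ℝ) ≤ K → v ∉ F →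
      (n : ℝ) - P.X0 - (m + 1) ≤ F.card →
      Ex (fun U : Ev n => ind ((P.bs j U v F).2 = none)) ≤ Real.exp (-(0.3 * j / y)))
    (hsize : ∀ (j : ℕ) (v : Fin n) (F : Finset (Fin n)), 0.84 * P.lam ≤ j → (j : ℝ) ≤ K → v ∉ F →
      Ex (fun U : Ev n => Real.exp (a * (P.bs j U v F).1.card)) ≤ 2)
    (π : List (Fin n)) (hπ : π.Nodup) (hm : π.length = m + 1) :
    Ex (fun U : Ev n => P.wsum z U π.toFinset π ∅ none) ≤
      100 * (1 + K / y) * Real.exp K * (1 / (n : ℝ) ^ m) *
        ((1 / 2) ^ m + Real.exp (-(a * P.X0)) * (10 + 10 * K / y) ^ m) := by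
  have h : PSumA.Hyp P y K a z m := ⟨hn, hy, hgam, hI0, hg1, hlam, hlamy, hlamI, hb0, hb, hK, hd,
    hz, hz1, hzy, ha, hX0, ⟨hsub, hloc, hlvl⟩, hfail, hsize⟩
  have h1 := PSumA.main_ind h (Q := π.toFinset)
    (by rw [← hm]; exact List.toFinset_card_le π) m π hm hπ
    (fun u hu => List.mem_toFinset.2 hu) le_rfl ∅ none trivial
  refine h1.trans ?_
  have e1 : PSumA.Psi P y none =
      20 * (1 + (P.I + P.b) / y) * Real.exp ((P.I + P.b - P.lam) / 2) := rfl
  have e2 : a * (((∅ : Finset (Fin n)).card : ℝ) - P.X0) = -(a * P.X0) := by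
    simp
  have hIK := h.IK
  have hlam0 := h.lam0
  have hlamK := h.lamK
  have hKy : 0 ≤ K / y := div_nonneg (by linarith) hy.le
  have hn' := h.nR
  have h2 : PSumA.Psi P y none ≤ 100 * (1 + K / y) * Real.exp K := by
    rw [e1]
    have h3 : Real.exp ((P.I + P.b - P.lam) / 2) ≤ Real.exp K :=
      Real.exp_le_exp.2 (by linarith)
    have h4 : ((P.I : ℝ) + P.b) / y ≤ K / y := div_le_div_of_nonneg_right hIK hy.le
    refine mul_le_mul ?_ h3 (Real.exp_pos _).le (by positivity)
    linarith
  rw [e2, one_div, inv_pow, ← one_div]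
  have h3 : (0 : ℝ) ≤ (1 / 2) ^ m + Real.exp (-(a * P.X0)) * (10 + 10 * K / y) ^ m := by
    have h4 : 0 ≤ 10 + 10 * K / y := by
      rw [mul_div_assoc]
      linarith
    have := Real.exp_pos (-(a * P.X0))
    positivity
  calc 1 / (n : ℝ) ^ m * (PSumA.Psi P y none *
        ((1 / 2) ^ m + Real.exp (-(a * P.X0)) * (10 + 10 * K / y) ^ m))
      ≤ 1 / (n : ℝ) ^ m * ((100 * (1 + K / y) * Real.exp K) *
        ((1 / 2) ^ m + Real.exp (-(a * P.X0)) * (10 + 10 * K / y) ^ m)) :=
        mul_le_mul_of_nonneg_left (mul_le_mul_of_nonneg_right h2 h3) (by positivity)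
    _ = _ := by ring

end

end Pool.Agent.TH972.U
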