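import Pool.Agent.TH972.U.ADef
import Pool.Agent.TH972.U.PSumA
import Pool.Agent.TH972.U.BushA
import Pool.Agent.TH972.U.PEnv

/-!
# The path sum of the environment in the window
-/

set_option autoImplicit false
set_option linter.unusedSectionVars false

namespace Pool.Agent.TH972.U

open Finset MeasureTheory Pool.Agent.W842.RST Pool.Agent.TH972 Filter Topology

noncomputable section

namespace PEnvA

/-- numerical facts -/
structure Nm (n : ℕ) (L l : ℝ) : Prop where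
  hL : L = Real.log n
  hl : l = Real.log L
  h10 : 10 ≤ l
  hb : 1000 * l ^ 2 ≤ L

theorem Nm.ev : ∀ᶠ n : ℕ in atTop, Nm n (Real.log n) (Real.log (Real.log n)) := by
  have hlog : Tendsto (fun n : ℕ => Real.log n) atTop atTop :=
    Real.tendsto_log_atTop.comp (tendsto_natCast_atTop_atTop (R := ℝ))
  have h1 : ∀ᶠ x : ℝ in atTop, 1000 * Real.log x ^ 2 ≤ x := by
    have h := (Real.isLittleO_pow_log_id_atTop (n := 2)).def (c := 1 / 1000) (by norm_num)
    filter_upwards [h, eventually_ge_atTop 1] with x hx h1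
    rw [Real.norm_eq_abs, Real.norm_eq_abs, abs_of_nonneg (by positivity), id,
      abs_of_nonneg (by linarith)] at hx
    linarith
  have h2 : ∀ᶠ x : ℝ in atTop, 10 ≤ Real.log x :=
    Real.tendsto_log_atTop.eventually (eventually_ge_atTop 10)
  filter_upwards [hlog.eventually h1, hlog.eventually h2] with n h3 h4
  exact ⟨rfl, rfl, h4, h3⟩

namespace Nm

variable {n : ℕ} {L l : ℝ} (H : Nm n L l)

include H

theorem l0 : 0 < l := by have := H.h10; linarith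

theorem Lb : 10 ^ 5 ≤ L := by
  have h1 := H.h10
  have h2 := H.hb
  have h3 : (10 : ℝ) ^ 2 ≤ l ^ 2 := pow_le_pow_left₀ (by norm_num) h1 2
  linarith

theorem L0 : 0 < L := by
  have := H.Lb
  have h : (0 : ℝ) < 10 ^ 5 := by norm_num
  linarith

theorem L1 : 1 ≤ L := by
  have := H.Lb
  have h : (1 : ℝ) ≤ 10 ^ 5 := by norm_num
  linarith

theorem expl : Real.exp l = L := by rw [H.hl, Real.exp_log H.L0]

theorem n0 : (0 : ℝ) < n := by
  rcases Nat.eq_zero_or_pos n with h | h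
  · exfalso
    have h1 := H.hL
    have h2 := H.L0
    rw [h] at h1
    simp at h1
    linarith
  · exact_mod_cast h

theorem npos : 0 < n := by exact_mod_cast H.n0

theorem expL : Real.exp L = n := by rw [H.hL, Real.exp_log H.n0]

theorem lL : 10000 * l ≤ L := by
  have h1 := H.h10
  have h2 := H.hb
  nlinarith

theorem Lpow (k : ℕ) : L ^ k = Real.exp (k * l) := by
  rw [Real.exp_nat_mul, H.expl]

theorem JA_le : (JA n : ℝ) ≤ 11 * l := by
  unfold JA
  rw [← H.hL, ← H.hl]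
  have h1 := H.h10
  have := (Nat.ceil_lt_add_one (by linarith : 0 ≤ 10 * l)).le
  linarith

theorem JA_ge : 10 * l ≤ (JA n : ℝ) := by
  unfold JA
  rw [← H.hL, ← H.hl]
  exact Nat.le_ceil _

theorem LL : 6 * L ^ 6 ≤ L ^ 7 := by
  have h1 := H.Lb
  have h2 : 0 ≤ L ^ 6 := by have := H.L0; positivity
  have h3 : 6 * L ^ 6 ≤ L * L ^ 6 := by
    apply mul_le_mul_of_nonneg_right _ h2
    have : (6 : ℝ) ≤ 10 ^ 5 := by norm_num
    linarith
  calc 6 * L ^ 6 ≤ L * L ^ 6 := h3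
    _ = L ^ 7 := by ring

theorem Q1 : 1 ≤ (6 * L ^ 6) ^ JA n := by
  apply one_le_pow₀
  have h1 : 1 ≤ L ^ 6 := one_le_pow₀ H.L1
  linarith

theorem q : 256 * L ^ 10 * (6 * L ^ 6) ^ JA n ≤ (n : ℝ) ^ (1 / 4 : ℝ) := by
  have hl := H.l0
  have hLb := H.Lb
  have hL0 := H.L0
  have h1 : (6 * L ^ 6) ^ JA n ≤ Real.exp (77 * l ^ 2) := by
    calc (6 * L ^ 6) ^ JA n ≤ (L ^ 7) ^ JA n := pow_le_pow_left₀ (by positivity) H.LL _
      _ = Real.exp (JA n * (7 * l)) := by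
          rw [H.Lpow 7, ← Real.exp_nat_mul]
          push_cast
          rfl
      _ ≤ Real.exp (77 * l ^ 2) := by
          apply Real.exp_le_exp.2
          have := mul_le_mul_of_nonneg_right H.JA_le (by positivity : 0 ≤ 7 * l)
          calc (JA n : ℝ) * (7 * l) ≤ 11 * l * (7 * l) := this
            _ = 77 * l ^ 2 := by ring
  have h2 : 256 * L ^ 10 ≤ Real.exp (11 * l) := by
    have e : Real.exp (11 * l) = L ^ 11 := by
      rw [H.Lpow 11]
      push_cast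
      rfl
    rw [e]
    have : (256 : ℝ) ≤ L := by
      have : (256 : ℝ) ≤ 10 ^ 5 := by norm_num
      linarith
    calc 256 * L ^ 10 ≤ L * L ^ 10 := mul_le_mul_of_nonneg_right this (by positivity)
      _ = L ^ 11 := by ring
  have h3 : (n : ℝ) ^ (1 / 4 : ℝ) = Real.exp (L / 4) := by
    rw [← H.expL, ← Real.exp_mul]
    congr 1
    ring
  rw [h3]
  calc 256 * L ^ 10 * (6 * L ^ 6) ^ JA n ≤ Real.exp (11 * l) * Real.exp (77 * l ^ 2) :=
        mul_le_mul h2 h1 (by positivity) (Real.exp_pos _).le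
    _ = Real.exp (11 * l + 77 * l ^ 2) := (Real.exp_add _ _).symm
    _ ≤ Real.exp (L / 4) := by
        apply Real.exp_le_exp.2
        have h4 := H.hb
        have h5 := H.h10
        nlinarith

theorem n14 : 256 * L ^ 10 ≤ (n : ℝ) ^ (1 / 4 : ℝ) := by
  refine le_trans ?_ H.q
  have h1 := H.Q1
  have h2 : 0 ≤ 256 * L ^ 10 := by have := H.L0; positivity
  calc 256 * L ^ 10 = 256 * L ^ 10 * 1 := (mul_one _).symm
    _ ≤ _ := mul_le_mul_of_nonneg_left h1 h2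

theorem nsplit : (n : ℝ) ^ (1 / 4 : ℝ) * (n : ℝ) ^ (3 / 4 : ℝ) = n := by
  rw [← Real.rpow_add H.n0]
  norm_num

theorem n1 : (1 : ℝ) ≤ n := by
  have := H.npos
  exact_mod_cast this

theorem n34 : 256 * L ^ 10 ≤ (n : ℝ) ^ (3 / 4 : ℝ) :=
  H.n14.trans (Real.rpow_le_rpow_of_exponent_le H.n1 (by norm_num))

theorem gb_eq : gbA n = 1 / L ^ 3 := by unfold gbA; rw [← H.hL]

theorem aa_eq : aaA n = 1 / (16 * L ^ 6 * (6 * L ^ 6) ^ JA n) := by
  unfold aaA
  rw [H.gb_eq, ← H.hL]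
  have := H.L0
  have hQ : 0 < (6 * L ^ 6) ^ JA n := by positivity
  field_simp

theorem X0_eq : X0A n = n / (16 * L ^ 3) := by
  unfold X0A
  rw [H.gb_eq]
  have := H.L0
  field_simp

theorem aa_pos : 0 < aaA n := by
  rw [H.aa_eq]
  have := H.L0
  positivity

theorem aa_le : aaA n ≤ 1 := by
  rw [H.aa_eq]
  have hL := H.L1
  have h1 : 1 ≤ L ^ 6 := one_le_pow₀ hL
  have h2 := H.Q1
  rw [div_le_one (by have := H.L0; positivity)]
  calc (1 : ℝ) ≤ (6 * L ^ 6) ^ JA n := h2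
    _ = 1 * (6 * L ^ 6) ^ JA n := (one_mul _).symm
    _ ≤ 16 * L ^ 6 * (6 * L ^ 6) ^ JA n :=
        mul_le_mul_of_nonneg_right (by linarith) (by linarith)

/-- the main numerical fact -/
theorem aX : L * (n : ℝ) ^ (3 / 4 : ℝ) ≤ aaA n * X0A n := by
  have hL0 := H.L0
  have hQ : 0 < (6 * L ^ 6) ^ JA n := by positivity
  rw [H.aa_eq, H.X0_eq]
  have e : 1 / (16 * L ^ 6 * (6 * L ^ 6) ^ JA n) * (n / (16 * L ^ 3)) =
      n / (256 * L ^ 9 * (6 * L ^ 6) ^ JA n) := by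
    field_simp
    ring
  rw [e, le_div_iff₀ (by positivity)]
  have h := mul_le_mul_of_nonneg_right H.q
    (Real.rpow_nonneg H.n0.le (3 / 4 : ℝ))
  rw [H.nsplit] at h
  refine le_trans (le_of_eq ?_) h
  ring

end Nm

/-- the parameters -/
structure Pr (n : ℕ) (L l y : ℝ) (m : ℕ) : Prop where
  H : Nm n L l
  hy1 : 1 / L ^ 3 ≤ y
  hy2 : y ≤ l
  hm1 : Real.sqrt n ≤ m
  hm2 : (m : ℝ) ≤ (n : ℝ) ^ (3 / 4 : ℝ)

namespace Pr

variable {n : ℕ} {L l y : ℝ} {m : ℕ} (P : Pr n L l y m)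

include P

theorem y0 : 0 < y := by
  have h1 := P.hy1
  have h2 : 0 < 1 / L ^ 3 := by have := P.H.L0; positivity
  linarith

theorem yinv : 1 / y ≤ L ^ 3 := by
  have h1 := P.hy1
  have hL := P.H.L0
  rw [div_le_iff₀ (by positivity)] at h1
  rw [div_le_iff₀ P.y0]
  linarith

theorem div_le {x : ℝ} (hx : 0 ≤ x) : x / y ≤ x * L ^ 3 := by
  have h := mul_le_mul_of_nonneg_left P.yinv hx
  rwa [mul_one_div] at h

theorem J1 : JA n + 1 ≤ L / 80 := by
  have h1 := P.H.JA_le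
  have h2 := P.H.lL
  have h3 := P.H.h10
  linarith

theorem b0 : 0 ≤ bA n := by
  unfold bA
  apply Real.log_nonneg
  have : (0 : ℝ) ≤ JA n := Nat.cast_nonneg _
  linarith

theorem b_le : bA n ≤ l := by
  unfold bA
  rw [P.H.hl]
  have h0 : (0 : ℝ) ≤ JA n := Nat.cast_nonneg _
  apply Real.log_le_log (by linarith)
  have := P.J1
  have := P.H.L0
  linarith

theorem I_le : (IA n : ℝ) ≤ L ^ 2 + 1 := by
  unfold IA
  rw [← P.H.hL]
  exact (Nat.ceil_lt_add_one (by positivity)).le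

theorem I_ge : L ^ 2 ≤ (IA n : ℝ) := by
  unfold IA
  rw [← P.H.hL]
  exact Nat.le_ceil _

theorem m2 : 2 * (m : ℝ) + 1 ≤ n := by
  have h1 := P.hm2
  have h2 := P.H.n14
  have h3 := P.H.nsplit
  have h4 := P.H.n34
  have h5 : 1 ≤ L ^ 10 := one_le_pow₀ P.H.L1
  nlinarith

theorem logm : Real.log (2 * m + 1) ≤ L := by
  rw [P.H.hL]
  apply Real.log_le_log _ P.m2
  positivity

theorem K_eq : KA n = L ^ 3 := by unfold KA; rw [← P.H.hL]

theorem L6n : 1 + L ^ 6 ≤ n := by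
  have h2 := P.H.n34
  have h3 : (n : ℝ) ^ (3 / 4 : ℝ) ≤ n := by
    calc (n : ℝ) ^ (3 / 4 : ℝ) ≤ (n : ℝ) ^ (1 : ℝ) :=
          Real.rpow_le_rpow_of_exponent_le P.H.n1 (by norm_num)
      _ = n := Real.rpow_one _
  have h4 : L ^ 6 ≤ L ^ 10 := pow_le_pow_right₀ P.H.L1 (by norm_num)
  have h5 : 1 ≤ L ^ 10 := one_le_pow₀ P.H.L1
  linarith

theorem gam_le {j : ℕ} (hj : (j : ℝ) ≤ L ^ 3) : gA n y j ≤ 1 := by
  unfold gA
  rw [div_le_one P.H.n0]
  refine le_trans ?_ P.L6n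
  have h1 : (((j : ℕ) : ℤ) : ℝ) = (j : ℝ) := by push_cast; rfl
  rw [h1]
  have h2 := P.div_le (x := (j : ℝ)) (Nat.cast_nonneg _)
  have h3 : (j : ℝ) * L ^ 3 ≤ L ^ 3 * L ^ 3 :=
    mul_le_mul_of_nonneg_right hj (by have := P.H.L0; positivity)
  have h4 : L ^ 3 * L ^ 3 = L ^ 6 := by ring
  linarith

theorem I3 : (IA n : ℝ) ≤ L ^ 3 := by
  have h1 := P.I_le
  have h2 := P.H.L1
  have h3 := P.H.Lb
  have h4 : 1 ≤ L ^ 2 := one_le_pow₀ h2
  have h5 : L ^ 3 = L * L ^ 2 := by ring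
  have h6 : 10 ^ 5 * L ^ 2 ≤ L * L ^ 2 := mul_le_mul_of_nonneg_right h3 (by linarith)
  linarith

theorem hb0 : PSum.HB (spA n y) := by
  have hn := P.H.n0
  have hy := P.y0
  have hl : ∀ j : ℕ, 0 ≤ gA n y j := by
    intro j
    unfold gA
    have : (0 : ℝ) ≤ (((j : ℕ) : ℤ) : ℝ) := by positivity
    positivity
  have hlb : 0 ≤ pbA n := by
    unfold pbA
    apply div_nonneg _ hn.le
    rw [P.H.gb_eq, sub_nonneg, div_le_one (by have := P.H.L0; positivity)]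
    exact one_le_pow₀ P.H.L1
  refine ⟨?_, ?_, ?_⟩
  · intro j U v F hv
    exact bush_subset hv
  · intro j U U' v F hv h
    refine bush_local (hl j) hlb hv fun a ha b hb p _ => ?_
    rw [h a ha b hb]
  · intro j
    refine ⟨{0, gA n y j, pbA n}, fun U U' v F h => ?_⟩
    exact (Bush.bsh_lvl h _ _ _).symm

theorem cap_ge : L * (n : ℝ) ^ (3 / 4 : ℝ) - 1 ≤ aaA n * (⌊n * gbA n / 16⌋₊ : ℕ) := by
  have h1 : n * gbA n / 16 - 1 < (⌊n * gbA n / 16⌋₊ : ℕ) := Nat.sub_one_lt_floor _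
  have h2 := mul_le_mul_of_nonneg_left h1.le P.H.aa_pos.le
  have h3 := P.H.aX
  have h4 := P.H.aa_le
  have e : X0A n = n * gbA n / 16 := rfl
  rw [e] at h3
  have e2 : aaA n * (n * gbA n / 16 - 1) = aaA n * (n * gbA n / 16) - aaA n := by ring
  rw [e2] at h2
  linarith

theorem t_le {j : ℕ} (hj : (j : ℝ) ≤ L ^ 3) : (j : ℝ) / y ≤ L ^ 6 := by
  refine (P.div_le (Nat.cast_nonneg _)).trans ?_
  calc (j : ℝ) * L ^ 3 ≤ L ^ 3 * L ^ 3 :=
        mul_le_mul_of_nonneg_right hj (by have := P.H.L0; positivity)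
    _ = L ^ 6 := by ring

theorem t0 {j : ℕ} : 0 ≤ (j : ℝ) / y := div_nonneg (Nat.cast_nonneg _) P.y0.le

theorem ha1 {j : ℕ} (hj : (j : ℝ) ≤ L ^ 3) : 16 * aaA n * (3 * (1 + (j : ℝ) / y)) ^ JA n ≤ gbA n := by
  have hL0 := P.H.L0
  have hQ : 0 < (6 * L ^ 6) ^ JA n := by positivity
  have h1 : 1 ≤ L ^ 6 := one_le_pow₀ P.H.L1
  have h2 : (3 * (1 + (j : ℝ) / y)) ^ JA n ≤ (6 * L ^ 6) ^ JA n := by
    apply pow_le_pow_left₀ (by have := P.t0 (j := j); positivity)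
    have := P.t_le hj
    linarith
  calc 16 * aaA n * (3 * (1 + (j : ℝ) / y)) ^ JA n ≤ 16 * aaA n * (6 * L ^ 6) ^ JA n :=
        mul_le_mul_of_nonneg_left h2 (by have := P.H.aa_pos; positivity)
    _ = 1 / L ^ 6 := by
        rw [P.H.aa_eq]
        field_simp
    _ ≤ 1 / L ^ 3 := one_div_le_one_div_of_le (by positivity)
        (pow_le_pow_right₀ P.H.L1 (by norm_num))
    _ = gbA n := P.H.gb_eq.symm

theorem ha2 : aaA n ≤ gbA n ^ 2 / 4 := by
  have hL0 := P.H.L0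
  rw [P.H.aa_eq, P.H.gb_eq]
  have e : (1 / L ^ 3) ^ 2 / 4 = 1 / (4 * L ^ 6) := by field_simp
  rw [e]
  apply one_div_le_one_div_of_le (by positivity)
  have h1 := P.H.Q1
  have h2 : 0 < L ^ 6 := by positivity
  calc 4 * L ^ 6 ≤ 16 * L ^ 6 * 1 := by linarith
    _ ≤ 16 * L ^ 6 * (6 * L ^ 6) ^ JA n := mul_le_mul_of_nonneg_left h1 (by positivity)

theorem gb0 : 0 < gbA n := by
  rw [P.H.gb_eq]
  have := P.H.L0
  positivity

theorem gb100 : gbA n ≤ 1 / 100 := by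
  rw [P.H.gb_eq]
  apply one_div_le_one_div_of_le (by norm_num)
  have h1 := P.H.Lb
  have h2 : L ≤ L ^ 3 := le_self_pow₀ P.H.L1 (by norm_num)
  have : (100 : ℝ) ≤ 10 ^ 5 := by norm_num
  linarith

theorem s0a : (s0A n : ℝ) * gbA n ^ 2 * 6400 ≤ 1 := by
  have h0 := P.gb0
  have h1 : (s0A n : ℝ) ≤ 1 / (6400 * gbA n ^ 2) := Nat.floor_le (by positivity)
  rw [le_div_iff₀ (by positivity)] at h1
  linarith

theorem s0b : 1 ≤ s0A n := by
  have h0 := P.gb0
  apply Nat.le_floor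
  rw [P.H.gb_eq]
  have hL0 := P.H.L0
  have e : 1 / (6400 * (1 / L ^ 3) ^ 2) = L ^ 6 / 6400 := by field_simp
  rw [e, le_div_iff₀ (by norm_num)]
  have h1 := P.H.Lb
  have h2 : L ≤ L ^ 6 := le_self_pow₀ P.H.L1 (by norm_num)
  have : (6400 : ℝ) ≤ 10 ^ 5 := by norm_num
  push_cast
  linarith

theorem ngb : 10 ^ 7 ≤ n * gbA n ^ 3 := by
  rw [P.H.gb_eq]
  have hL0 := P.H.L0
  have e : (n : ℝ) * (1 / L ^ 3) ^ 3 = n / L ^ 9 := by field_simp
  rw [e, le_div_iff₀ (by positivity)]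
  have h2 := P.H.n14
  have h3 := P.H.nsplit
  have h4 := P.H.n34
  have h5 := P.H.Lb
  have h6 : L ≤ L ^ 10 := le_self_pow₀ P.H.L1 (by norm_num)
  have h7 : L ^ 9 ≤ L ^ 10 := pow_le_pow_right₀ P.H.L1 (by norm_num)
  calc (10 : ℝ) ^ 7 * L ^ 9 ≤ 256 * 10 ^ 5 * L ^ 10 := by
        have : (10 : ℝ) ^ 7 ≤ 256 * 10 ^ 5 := by norm_num
        calc (10 : ℝ) ^ 7 * L ^ 9 ≤ 256 * 10 ^ 5 * L ^ 9 :=
              mul_le_mul_of_nonneg_right this (by positivity)
          _ ≤ _ := mul_le_mul_of_nonneg_left h7 (by norm_num)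
    _ = (256 * L ^ 10) * 10 ^ 5 := by ring
    _ ≤ (n : ℝ) ^ (1 / 4 : ℝ) * (n : ℝ) ^ (3 / 4 : ℝ) := by
        apply mul_le_mul h2 _ (by norm_num) (Real.rpow_nonneg P.H.n0.le _)
        linarith
    _ = n := h3

theorem hJ {j : ℕ} (hj : (j : ℝ) ≤ L ^ 3) : 1 + (j : ℝ) / y ≤ 4 ^ JA n * gbA n := by
  have hL0 := P.H.L0
  have h1 : L ^ 10 ≤ (4 : ℝ) ^ JA n := by
    have e1 : Real.exp (JA n * Real.log 4) = (4 : ℝ) ^ JA n := by
      rw [Real.exp_nat_mul, Real.exp_log (by norm_num)]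
    rw [← e1, P.H.Lpow 10]
    apply Real.exp_le_exp.2
    have h2 := P.H.JA_ge
    have h3 : 1 ≤ Real.log 4 := by
      rw [Real.le_log_iff_exp_le (by norm_num)]
      have := Real.exp_one_lt_d9
      linarith
    have h4 : (0 : ℝ) ≤ JA n := Nat.cast_nonneg _
    push_cast
    nlinarith
  rw [P.H.gb_eq, mul_one_div, le_div_iff₀ (by positivity)]
  have h2 := P.t_le hj
  have h3 : 1 ≤ L ^ 6 := one_le_pow₀ P.H.L1
  have h4 : 2 ≤ L := by
    have := P.H.Lb
    have h : (2 : ℝ) ≤ 10 ^ 5 := by norm_num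
    linarith
  calc (1 + (j : ℝ) / y) * L ^ 3 ≤ (2 * L ^ 6) * L ^ 3 :=
        mul_le_mul_of_nonneg_right (by linarith) (by positivity)
    _ = 2 * L ^ 9 := by ring
    _ ≤ L * L ^ 9 := mul_le_mul_of_nonneg_right h4 (by positivity)
    _ = L ^ 10 := by ring
    _ ≤ _ := h1

theorem fail {j : ℕ} {v : Fin n} {F : Finset (Fin n)} (hj : 0.84 * lamA n ≤ j)
    (hjK : (j : ℝ) ≤ L ^ 3) (hv : v ∉ F) (hF : (n : ℝ) - X0A n - (m + 1) ≤ F.card) :
    Ex (fun U : Ev n => ind ((bush 0 (gA n y j) (pbA n) 1 (s0A n) (JA n) U v F).2 = none)) ≤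
      Real.exp (-(0.3 * j / y)) := by
  have hn := P.H.n0
  have hgb := P.gb0
  have hy := P.y0
  obtain ⟨t, ht⟩ : ∃ t, t = (j : ℝ) / y := ⟨_, rfl⟩
  have ht30 : 30 ≤ t := by
    rw [ht, le_div_iff₀ hy]
    unfold lamA at hj
    rw [← P.H.hL, ← P.H.hl] at hj
    have h1 := P.hy2
    have h2 := P.H.h10
    linarith
  have hcap0 : 0 ≤ n * gbA n / 16 := by positivity
  have hcap : ((⌊n * gbA n / 16⌋₊ : ℕ) : ℝ) ≤ n * gbA n / 16 := Nat.floor_le hcap0
  have hm2 : (m : ℝ) + 2 ≤ n * gbA n / 8 := by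
    have h1 := P.hm2
    have h2 := P.H.n14
    have h3 := P.H.nsplit
    have h4 := P.H.n34
    have h5 : 1 ≤ L ^ 10 := one_le_pow₀ P.H.L1
    have hL0 := P.H.L0
    rw [P.H.gb_eq, mul_one_div, div_div, le_div_iff₀ (by positivity)]
    have h6 : L ^ 3 ≤ L ^ 10 := pow_le_pow_right₀ P.H.L1 (by norm_num)
    calc ((m : ℝ) + 2) * (L ^ 3 * 8) ≤ (2 * (n : ℝ) ^ (3 / 4 : ℝ)) * (L ^ 10 * 8) := by
          apply mul_le_mul (by linarith) (by linarith) (by positivity)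
          have := Real.rpow_nonneg hn.le (3 / 4 : ℝ)
          linarith
      _ = (16 * L ^ 10) * (n : ℝ) ^ (3 / 4 : ℝ) := by ring
      _ ≤ (n : ℝ) ^ (1 / 4 : ℝ) * (n : ℝ) ^ (3 / 4 : ℝ) :=
          mul_le_mul_of_nonneg_right (by linarith) (Real.rpow_nonneg hn.le _)
      _ = n := h3
  have c4 : n * (1 - gbA n / 4) + (⌊n * gbA n / 16⌋₊ : ℕ) + 1 ≤ (F.card : ℝ) := by
    refine le_trans ?_ hF
    have e1 : X0A n = n * gbA n / 16 := rfl
    rw [e1]
    have e2 : (n : ℝ) * (1 - gbA n / 4) = n - n * gbA n / 4 := by ring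
    rw [e2]
    linarith
  have hpt : gA n y j = (1 + t) / n := by
    rw [ht]
    unfold gA
    push_cast
    rfl
  have h := bush_none_A (s0 := s0A n) (J := JA n) (gb := gbA n) (t := t) (a := aaA n)
    (pb := pbA n) (pt := gA n y j) rfl hpt hgb P.gb100 P.ngb P.s0a P.s0b ht30 (P.gam_le hjK)
    P.H.aa_pos.le (by rw [ht]; exact P.ha1 hjK) P.ha2 (by rw [ht]; exact P.hJ hjK) v F hv
    ⌊n * gbA n / 16⌋₊ c4
  refine h.trans ?_
  have e : 0.3 * (j : ℝ) / y = 0.3 * t := by rw [ht]; ring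
  rw [e]
  have h1 : Real.exp (-(0.3 * (1 + t))) = Real.exp (-(0.3 * t)) * Real.exp (-0.3) := by
    rw [← Real.exp_add]
    congr 1
    ring
  have h2 : Real.exp (-0.3) ≤ 3 / 4 + 1 / 20 := by
    have h3 := Real.add_one_le_exp (0.3 : ℝ)
    rw [Real.exp_neg, inv_le_comm₀ (Real.exp_pos _) (by norm_num)]
    refine le_trans ?_ h3
    norm_num
  have h3 : Real.exp (-(aaA n * (⌊n * gbA n / 16⌋₊ : ℕ))) ≤ Real.exp (-(0.3 * t)) * (1 / 11) := by
    have h4 : Real.exp (-(3 : ℝ)) ≤ 1 / 11 := by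
      rw [Real.exp_neg, inv_le_comm₀ (Real.exp_pos _) (by norm_num)]
      have h5 := Real.exp_one_gt_d9
      have h6 : Real.exp 3 = Real.exp 1 ^ 3 := by
        rw [← Real.exp_nat_mul]
        norm_num
      rw [h6]
      calc (1 / 11 : ℝ)⁻¹ ≤ 2.7 ^ 3 := by norm_num
        _ ≤ _ := pow_le_pow_left₀ (by norm_num) (by linarith) 3
    calc Real.exp (-(aaA n * (⌊n * gbA n / 16⌋₊ : ℕ))) ≤
          Real.exp (-(0.3 * t) + -3) := by
          apply Real.exp_le_exp.2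
          have h5 := P.cap_ge
          have h6 : t ≤ L ^ 6 := by rw [ht]; exact P.t_le hjK
          have h7 := P.H.n34
          have h8 : L ^ 6 ≤ L ^ 10 := pow_le_pow_right₀ P.H.L1 (by norm_num)
          have h9 : 1 ≤ L ^ 10 := one_le_pow₀ P.H.L1
          have h10 : 1 * (n : ℝ) ^ (3 / 4 : ℝ) ≤ L * (n : ℝ) ^ (3 / 4 : ℝ) :=
            mul_le_mul_of_nonneg_right P.H.L1 (Real.rpow_nonneg hn.le _)
          linarith
      _ = Real.exp (-(0.3 * t)) * Real.exp (-3) := Real.exp_add _ _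
      _ ≤ _ := mul_le_mul_of_nonneg_left h4 (Real.exp_pos _).le
  rw [h1]
  have h4 := mul_le_mul_of_nonneg_left h2 (Real.exp_pos (-(0.3 * t))).le
  have h5 := Real.exp_pos (-(0.3 * t))
  linarith

theorem size {j : ℕ} {v : Fin n} {F : Finset (Fin n)} (hjK : (j : ℝ) ≤ L ^ 3) (hv : v ∉ F) :
    Ex (fun U : Ev n =>
      Real.exp (aaA n * (bush 0 (gA n y j) (pbA n) 1 (s0A n) (JA n) U v F).1.card)) ≤ 2 := by
  have hpt : gA n y j = (1 + (j : ℝ) / y) / n := by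
    unfold gA
    push_cast
    rfl
  exact bush_exp_A (gb := gbA n) (t := (j : ℝ) / y) P.H.npos rfl hpt P.gb0
    (P.gb100.trans (by norm_num)) P.t0 (P.gam_le hjK) P.H.aa_pos.le (P.ha1 hjK) P.ha2 v F hv

theorem lam_eq : lamA n = 1000 * l := by unfold lamA; rw [← P.H.hL, ← P.H.hl]

theorem one_path (π : List (Fin n)) (hπ : π.Nodup) (hm : π.length = m + 1) :
    Ex (fun U : Ev n => (spA n y).wsum (zA n) U π.toFinset π ∅ none) ≤
      L ^ 8 * Real.exp (L ^ 3) * (1 / (n : ℝ) ^ m) * (1 / 2) ^ m := by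
  have hy := P.y0
  have hn := P.H.n0
  have hL0 := P.H.L0
  have hLb := P.H.Lb
  have hL1 := P.H.L1
  have hl := P.H.l0
  have hl10 := P.H.h10
  have hlL := P.H.lL
  have hHB := P.hb0
  have hz : zA n = 1 / L ^ 5 := by unfold zA; rw [← P.H.hL]
  have hLb2 : (23000 : ℝ) ≤ L := by
    have : (23000 : ℝ) ≤ 10 ^ 5 := by norm_num
    linarith
  have hlam_y : lamA n / y ≤ 1000 * l * L ^ 3 := by
    rw [P.lam_eq]
    exact P.div_le (by positivity)
  have hll : 23000 * l ≤ L * L := mul_le_mul hLb2 (by linarith) hl.le hL0.le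
  have h := path_sum_A (spA n y) y (KA n) (aaA n) (zA n) m P.H.npos hy (fun i => rfl) rfl
    (P.gam_le P.I3)
    (by show (10 : ℝ) ^ 4 ≤ lamA n; rw [P.lam_eq]; linarith)
    (by show 1000 * y ≤ lamA n; rw [P.lam_eq]; have := P.hy2; linarith)
    (by
      show lamA n ≤ (IA n : ℝ)
      rw [P.lam_eq]
      refine le_trans ?_ P.I_ge
      have : L * 1 ≤ L * L := mul_le_mul_of_nonneg_left hL1 hL0.le
      nlinarith)
    P.b0
    (by show bA n ≤ lamA n / 100; rw [P.lam_eq]; have := P.b_le; linarith)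
    (by
      show (IA n : ℝ) + bA n + Real.log (2 * m + 1) ≤ KA n
      rw [P.K_eq]
      have h1 := P.I_le
      have h2 := P.b_le
      have h3 := P.logm
      have h4 : L ≤ L ^ 2 := le_self_pow₀ hL1 (by norm_num)
      have h5 : L ^ 3 = L * L ^ 2 := by ring
      have h6 : 23000 * L ^ 2 ≤ L * L ^ 2 := mul_le_mul_of_nonneg_right hLb2 (by positivity)
      linarith)
    (by
      show 23 * (lamA n / y) ≤ Real.exp (0.07 * lamA n)
      have e : Real.exp (0.07 * lamA n) = L ^ 70 := by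
        rw [P.lam_eq, P.H.Lpow 70]
        congr 1
        push_cast
        ring
      rw [e]
      calc 23 * (lamA n / y) ≤ 23 * (1000 * l * L ^ 3) := by linarith
        _ = (23000 * l) * L ^ 3 := by ring
        _ ≤ (L * L) * L ^ 3 := mul_le_mul_of_nonneg_right hll (by positivity)
        _ = L ^ 5 := by ring
        _ ≤ L ^ 70 := pow_le_pow_right₀ hL1 (by norm_num))
    (by rw [hz]; positivity)
    (by rw [hz, div_le_one (by positivity)]; exact one_le_pow₀ hL1)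
    (by
      show 23 * zA n * (lamA n / y) ≤ 1
      rw [hz]
      calc 23 * (1 / L ^ 5) * (lamA n / y) ≤ 23 * (1 / L ^ 5) * (1000 * l * L ^ 3) :=
            mul_le_mul_of_nonneg_left hlam_y (by positivity)
        _ = (23000 * l) / (L * L) := by field_simp; norm_num
        _ ≤ 1 := by rw [div_le_one (by positivity)]; exact hll)
    P.H.aa_pos.le
    (by show 0 ≤ X0A n; rw [P.H.X0_eq]; positivity)
    hHB.sub hHB.loc hHB.lvl
    (fun j v F hj hjK hv hF => P.fail hj (by rwa [P.K_eq] at hjK) hv hF)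
    (fun j v F hj hjK hv => P.size (by rwa [P.K_eq] at hjK) hv) π hπ hm
  refine h.trans ?_
  rw [P.K_eq]
  have e2 : (spA n y).X0 = X0A n := rfl
  rw [e2]
  have hK1 : L ^ 3 / y ≤ L ^ 6 := by
    refine (P.div_le (by positivity)).trans (le_of_eq ?_)
    ring
  have hK0 : 0 ≤ L ^ 3 / y := by positivity
  have hL6 : 1 ≤ L ^ 6 := one_le_pow₀ hL1
  have a1 : Real.exp (-(aaA n * X0A n)) * (10 + 10 * L ^ 3 / y) ^ m ≤ (1 / 2) ^ m := by
    have h1 : 10 + 10 * L ^ 3 / y ≤ Real.exp (7 * l) := by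
      have e3 : Real.exp (7 * l) = L ^ 7 := by
        rw [P.H.Lpow 7]
        push_cast
        rfl
      have e4 : 10 * L ^ 3 / y = 10 * (L ^ 3 / y) := by ring
      rw [e3, e4]
      have h2 : 20 * L ^ 6 ≤ L * L ^ 6 := mul_le_mul_of_nonneg_right (by linarith) (by linarith)
      have e5 : L ^ 7 = L * L ^ 6 := by ring
      rw [e5]
      linarith
    have h0 : 0 ≤ 10 + 10 * L ^ 3 / y := by positivity
    have h2 : (10 + 10 * L ^ 3 / y) ^ m ≤ Real.exp (7 * l) ^ m := pow_le_pow_left₀ h0 h1 m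
    have h3 : Real.exp (-1) ≤ (1 / 2 : ℝ) := by
      rw [Real.exp_neg, inv_le_comm₀ (Real.exp_pos _) (by norm_num)]
      have := Real.add_one_le_exp (1 : ℝ)
      linarith
    calc Real.exp (-(aaA n * X0A n)) * (10 + 10 * L ^ 3 / y) ^ m ≤
          Real.exp (-(aaA n * X0A n)) * Real.exp (7 * l) ^ m :=
          mul_le_mul_of_nonneg_left h2 (Real.exp_pos _).le
      _ = Real.exp (-(aaA n * X0A n) + m * (7 * l)) := by
          rw [← Real.exp_nat_mul, Real.exp_add]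
      _ ≤ Real.exp (m * (-1)) := by
          apply Real.exp_le_exp.2
          have h4 := P.H.aX
          have h5 : L * (m : ℝ) ≤ L * (n : ℝ) ^ (3 / 4 : ℝ) :=
            mul_le_mul_of_nonneg_left P.hm2 hL0.le
          have h6 : (m : ℝ) * (7 * l + 1) ≤ m * L :=
            mul_le_mul_of_nonneg_left (by linarith) (Nat.cast_nonneg _)
          linarith
      _ = Real.exp (-1) ^ m := Real.exp_nat_mul _ _
      _ ≤ (1 / 2) ^ m := pow_le_pow_left₀ (Real.exp_pos _).le h3 m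
  have a2 : 100 * (1 + L ^ 3 / y) * 2 ≤ L ^ 8 := by
    have e3 : L ^ 8 = L ^ 2 * L ^ 6 := by ring
    have h4 : 23000 ≤ L ^ 2 := hLb2.trans (le_self_pow₀ hL1 (by norm_num))
    have h5 : 23000 * L ^ 6 ≤ L ^ 2 * L ^ 6 := mul_le_mul_of_nonneg_right h4 (by linarith)
    rw [e3]
    linarith
  have hE : 0 ≤ Real.exp (L ^ 3) * (1 / (n : ℝ) ^ m) * (1 / 2) ^ m := by positivity
  calc 100 * (1 + L ^ 3 / y) * Real.exp (L ^ 3) * (1 / (n : ℝ) ^ m) *
        ((1 / 2) ^ m + Real.exp (-(aaA n * X0A n)) * (10 + 10 * L ^ 3 / y) ^ m) ≤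
        100 * (1 + L ^ 3 / y) * Real.exp (L ^ 3) * (1 / (n : ℝ) ^ m) *
        ((1 / 2) ^ m + (1 / 2) ^ m) := by
        apply mul_le_mul_of_nonneg_left _ (by positivity)
        linarith
    _ = (100 * (1 + L ^ 3 / y) * 2) * (Real.exp (L ^ 3) * (1 / (n : ℝ) ^ m) * (1 / 2) ^ m) := by
        ring
    _ ≤ L ^ 8 * (Real.exp (L ^ 3) * (1 / (n : ℝ) ^ m) * (1 / 2) ^ m) :=
        mul_le_mul_of_nonneg_right a2 hE
    _ = _ := by ring

end Pr

theorem wsum_nonneg {n : ℕ} {S : SP n} {U : Ev n} {Q : Finset (Fin n)} {z : ℝ} (hz : 0 ≤ z) :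
    ∀ (l : List (Fin n)) (X : Finset (Fin n)) (R : Option ℝ), (∀ r, R = some r → 0 < r) →
      0 ≤ S.wsum z U Q l X R := by
  classical
  intro l
  induction l with
  | nil => intro X R _; exact zero_le_one
  | cons v l ih =>
    cases l with
    | nil => intro X R _; exact zero_le_one
    | cons w t =>
      intro X R hR
      rw [PSum.wsum_cons]
      split_ifs
      · refine mul_nonneg (mul_nonneg ?_ ?_) ?_
        · unfold PSum.zet
          split_ifs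
          · exact hz
          · exact zero_le_one
        · exact PSum.wst_nonneg (PSum.staB_pos hR _) _
        · exact ih _ _ (PSum.nst_pos (PSum.staB_pos hR _) _)
      · exact le_rfl

end PEnvA

open PEnvA

/-- the path sum of the environment is small -/
theorem penv_A : ∀ᶠ n : ℕ in atTop, ∀ y : ℝ, 1 / Real.log n ^ 3 ≤ y → y ≤ Real.log (Real.log n) →
    ∀ m : ℕ, Real.sqrt n ≤ m → (m : ℝ) ≤ (n : ℝ) ^ (3 / 4 : ℝ) →
    env n {U : Ev n | Real.exp (-(m / 2 : ℝ)) ≤ SSA n y m U} ≤ ENNReal.ofReal (1 / n) := by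
  classical
  filter_upwards [Nm.ev] with n H y hy1 hy2 m hm1 hm2
  obtain ⟨L, hLd⟩ : ∃ L, L = Real.log n := ⟨_, rfl⟩
  obtain ⟨l, hld⟩ : ∃ l, l = Real.log L := ⟨_, rfl⟩
  rw [← hLd] at H hy1 hy2
  rw [← hld] at H hy2
  have P : Pr n L l y m := ⟨H, hy1, hy2, hm1, hm2⟩
  have hn := H.n0
  have hL0 := H.L0
  have hL1 := H.L1
  have hz : 0 ≤ zA n := by
    unfold zA
    rw [← hLd]
    positivity
  have hHB := P.hb0
  have hB1 : ∀ (x : Fin n), ∀ π ∈ spaths m x ∅,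
      BM (fun U : Ev n => (spA n y).wsum (zA n) U π.toFinset π ∅ none) :=
    fun x π _ => PSum.BM_wsum hHB _ _ _ _ _
  have hB2 : ∀ x ∈ (univ : Finset (Fin n)),
      BM (fun U : Ev n => ∑ π ∈ spaths m x ∅, (spA n y).wsum (zA n) U π.toFinset π ∅ none) :=
    fun x _ => BM.sum _ (hB1 x)
  have hB : BM (SSA n y m) := by
    have := BM.sum _ hB2
    exact this
  have h0 : ∀ U, 0 ≤ SSA n y m U := by
    intro U
    unfold SSA
    refine Finset.sum_nonneg fun x _ => Finset.sum_nonneg fun π _ => ?_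
    exact wsum_nonneg hz _ _ _ (fun r hr => by cases hr)
  obtain ⟨b, hbdef⟩ : ∃ b : ℝ, b = L ^ 8 * Real.exp (L ^ 3) * (1 / (n : ℝ) ^ m) * (1 / 2) ^ m :=
    ⟨_, rfl⟩
  have hb0 : 0 ≤ b := by rw [hbdef]; positivity
  have hE : Ex (SSA n y m) ≤ n * L ^ 8 * Real.exp (L ^ 3) * (1 / 2) ^ m := by
    have e1 : Ex (SSA n y m) = ∑ x : Fin n, ∑ π ∈ spaths m x ∅,
        Ex (fun U : Ev n => (spA n y).wsum (zA n) U π.toFinset π ∅ none) := by
      have h1 := Ex_sum (univ : Finset (Fin n)) hB2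
      refine h1.trans (Finset.sum_congr rfl fun x _ => ?_)
      exact Ex_sum _ (hB1 x)
    rw [e1]
    have h2 : ∑ x : Fin n, ∑ π ∈ spaths m x ∅,
        Ex (fun U : Ev n => (spA n y).wsum (zA n) U π.toFinset π ∅ none) ≤
        ∑ x : Fin n, ((spaths m x ∅).card : ℝ) * b := by
      refine Finset.sum_le_sum fun x _ => ?_
      rw [← nsmul_eq_mul]
      refine Finset.sum_le_card_nsmul _ _ _ fun π hπ => ?_
      obtain ⟨h3, h4⟩ := PEnv.mem_spaths hπ
      rw [hbdef]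
      exact P.one_path π h3 h4
    refine h2.trans ?_
    rw [← Finset.sum_mul]
    refine (mul_le_mul_of_nonneg_right (PEnv.spaths_card m) hb0).trans (le_of_eq ?_)
    rw [hbdef, pow_succ]
    have hnm : (n : ℝ) ^ m ≠ 0 := (pow_pos hn m).ne'
    field_simp
  have ht : 0 < Real.exp (-(m / 2 : ℝ)) := Real.exp_pos _
  refine (env_markov hB h0 ht hE).trans (ENNReal.ofReal_le_ofReal ?_)
  rw [div_le_div_iff₀ ht hn, one_mul]
  -- exponents
  have e1 : L ^ 8 = Real.exp (8 * l) := by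
    rw [H.Lpow 8]
    push_cast
    rfl
  have e2 : ((1 : ℝ) / 2) ^ m = Real.exp (m * (-Real.log 2)) := by
    rw [Real.exp_nat_mul, Real.exp_neg, Real.exp_log (by norm_num), one_div]
  have e3 : (n : ℝ) * L ^ 8 * Real.exp (L ^ 3) * (1 / 2) ^ m * n =
      Real.exp (L + 8 * l + L ^ 3 + m * (-Real.log 2) + L) := by
    rw [Real.exp_add, Real.exp_add, Real.exp_add, Real.exp_add, H.expL, ← e1, ← e2]
  rw [e3]
  apply Real.exp_le_exp.2
  have h2 := Real.log_two_gt_d9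
  have h3 := H.n14
  have h4 : (n : ℝ) ^ (1 / 4 : ℝ) ≤ m := by
    refine le_trans ?_ hm1
    rw [Real.sqrt_eq_rpow]
    exact Real.rpow_le_rpow_of_exponent_le H.n1 (by norm_num)
  have h5 : L ^ 3 ≤ L ^ 10 := pow_le_pow_right₀ hL1 (by norm_num)
  have h6 : L ≤ L ^ 10 := le_self_pow₀ hL1 (by norm_num)
  have h7 := H.lL
  have h8 : (0 : ℝ) ≤ m := Nat.cast_nonneg _
  have h9 : (m : ℝ) * 0.69 ≤ m * Real.log 2 := mul_le_mul_of_nonneg_left (by linarith) h8
  linarith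

end

end Pool.Agent.TH972.U
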