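import Pool.Agent.TH972.U.DnEnv
import Pool.Agent.TH972.U.DnDet

/-!
# Region B: high temperature, uniformly in the inverse temperature
-/

set_option autoImplicit false
namespace Pool.Agent.TH972.U
open Finset MeasureTheory Pool.Agent.W842.RST Pool.Agent.TH972 Filter Topology
noncomputable section

/-- high temperature, uniformly in the inverse temperature -/
theorem region_B : ∀ᶠ n : ℕ in atTop, ∀ β : ℝ, 0 ≤ β → β ≤ n / Real.log n ^ 3 →
    1 - 2 / Real.log n ≤ avgw (wexp β) n (fun T => Real.sqrt n / Real.log n ≤ T.diam ∧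
      (T.diam : ℝ) ≤ Real.sqrt n * Real.log n ^ 3) := by
  filter_upwards [dense_env, dense_det, eventually_ge_atTop 2] with n henv hdet hn
  intro β hβ0 hβ1
  obtain ⟨μ, hμ, hbad⟩ := henv β hβ0 hβ1
  have hn0 : (0 : ℝ) < n := by
    have : 0 < n := by omega
    exact_mod_cast this
  have hn1 : (1 : ℝ) < n := by
    have : 1 < n := by omega
    exact_mod_cast this
  have hlog : 0 < Real.log n := Real.log_pos hn1
  have hle : (1 : ℝ) / n ≤ 1 / Real.log n :=
    one_div_le_one_div_of_le hlog (Real.log_le_self hn0.le)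
  have hkey := avgw_ge (w := wexp β) (n := n) (wexp_pos β) (wexp_meas β)
    (fun T => Real.sqrt n / Real.log n ≤ T.diam ∧ (T.diam : ℝ) ≤ Real.sqrt n * Real.log n ^ 3)
    {U : Ev n | ¬ ((∀ v, cs (kU β U) v ≤ 2 * (n * μ)) ∧
      ∀ A B : Finset (Fin n), Disjoint A B → n ≤ A.card + B.card + 1 → A.card ≤ B.card →
        μ / 2 * (A.card * B.card) ≤ ∑ x ∈ A, ∑ y ∈ B, Kc (kU β U) x y)}
    (η := 1 / n) (δ := 1 / Real.log n) (by positivity) (by positivity) hbad (by
      intro U hU
      have hU' : (∀ v, cs (kU β U) v ≤ 2 * (n * μ)) ∧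
          ∀ A B : Finset (Fin n), Disjoint A B → n ≤ A.card + B.card + 1 → A.card ≤ B.card →
            μ / 2 * (A.card * B.card) ≤ ∑ x ∈ A, ∑ y ∈ B, Kc (kU β U) x y := by
        by_contra h
        exact hU h
      refine hdet (kU β U) (n * μ) (by positivity) (fun e => kU_pos β U e) hU'.1 ?_
      intro A B h1 h2 h3
      have e : n * μ / (2 * (n : ℝ)) = μ / 2 := by field_simp
      rw [e]
      exact hU'.2 A B h1 h2 h3)
  refine le_trans ?_ hkey
  have e : (2 : ℝ) / Real.log n = 1 / Real.log n + 1 / Real.log n := by ring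
  rw [e]
  linarith

end
end Pool.Agent.TH972.U
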