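import Pool.Agent.TH972.RAsym
import Pool.Agent.TH972.U.PEnvA
import Pool.Agent.TH972.U.GEnvA
import Pool.Agent.TH972.U.DetA
import Pool.Agent.TH972.U.RegB

/-!
# Region A, and the high temperature theorem
-/

set_option autoImplicit false
namespace Pool.Agent.TH972.U
open Finset MeasureTheory Pool.Agent.W842.RST Pool.Agent.TH972 Filter Topology
noncomputable section

namespace RegA

theorem log_lim : Tendsto (fun n : ℕ => Real.log (n : ℝ)) atTop atTop :=
  Real.tendsto_log_atTop.comp tendsto_natCast_atTop_atTop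

/-- a power of the logarithm is beaten by every power of `n` -/
theorem pow_ev {a b : ℝ} (ha : 0 < a) (c : ℝ) (k : ℕ) (_hb : 0 ≤ b) :
    ∀ᶠ n : ℕ in atTop, c * Real.log n ^ k ≤ (n : ℝ) ^ a := by
  have h1 : Tendsto (fun x : ℝ => x ^ k * Real.exp (-a * x)) atTop (𝓝 0) := by
    have := Real.tendsto_pow_mul_exp_neg_atTop_nhds_zero k
    have h2 := isLittleO_pow_exp_pos_mul_atTop k ha
    have h3 := h2.tendsto_div_nhds_zero
    refine h3.congr (fun x => ?_)
    rw [neg_mul, Real.exp_neg, div_eq_mul_inv]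
  have h2 : ∀ᶠ x : ℝ in atTop, x ^ k * Real.exp (-a * x) < 1 / (|c| + 1) :=
    h1.eventually (gt_mem_nhds (by positivity))
  filter_upwards [log_lim.eventually h2, log_lim.eventually (eventually_ge_atTop 1),
    eventually_ge_atTop 2] with n h hL hn
  have hn0 : (0 : ℝ) < n := by
    have : 0 < n := by omega
    exact_mod_cast this
  have hc : (0 : ℝ) < |c| + 1 := by positivity
  have e : (n : ℝ) ^ a = Real.exp (a * Real.log n) := by
    rw [Real.rpow_def_of_pos hn0, mul_comm]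
  rw [e]
  have hE := Real.exp_pos (a * Real.log n)
  have h3 : Real.exp (-a * Real.log n) * Real.exp (a * Real.log n) = 1 := by
    rw [← Real.exp_add]; simp
  have h4 : Real.log n ^ k = Real.log n ^ k * Real.exp (-a * Real.log n) *
      Real.exp (a * Real.log n) := by
    rw [mul_assoc, h3, mul_one]
  have hLk : 0 ≤ Real.log n ^ k := by positivity
  have h5 : Real.log n ^ k ≤ 1 / (|c| + 1) * Real.exp (a * Real.log n) := by
    rw [h4]
    exact mul_le_mul_of_nonneg_right h.le hE.le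
  calc c * Real.log n ^ k ≤ (|c| + 1) * Real.log n ^ k := by
        apply mul_le_mul_of_nonneg_right _ hLk
        linarith [le_abs_self c]
    _ ≤ (|c| + 1) * (1 / (|c| + 1) * Real.exp (a * Real.log n)) :=
        mul_le_mul_of_nonneg_left h5 hc.le
    _ = Real.exp (a * Real.log n) := by
        field_simp

end RegA

theorem region_A {ε : ℝ} (hε : 0 < ε) : ∀ᶠ n : ℕ in atTop, ∀ y : ℝ,
    1 / Real.log n ^ 3 ≤ y → y ≤ Real.log (Real.log n) →
    1 - 3 / Real.log n ≤ avgw (wexp (n * y)) n (fun T =>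
      (n : ℝ) ^ (1 / 2 - ε) ≤ T.diam ∧ (T.diam : ℝ) ≤ (n : ℝ) ^ (1 / 2 + ε)) := by
  obtain ⟨δ, hδ⟩ : ∃ δ : ℝ, δ = min (ε / 8) (1 / 20) := ⟨_, rfl⟩
  have hδ0 : 0 < δ := by rw [hδ]; positivity
  have hδ1 : δ ≤ 1 / 20 := by rw [hδ]; exact min_le_right _ _
  have hδ2 : δ ≤ ε / 8 := by rw [hδ]; exact min_le_left _ _
  filter_upwards [penv_A, genv_A, det_A hδ0 hδ1, eventually_ge_atTop 2,
    RegA.log_lim.eventually (eventually_ge_atTop 20),
    RegA.pow_ev (a := ε / 2) (b := 0) (by positivity) 2 2 le_rfl] with n hP hG hD hn hL hpow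
  intro y hy1 hy2
  have hn0 : (0 : ℝ) < n := by
    have : 0 < n := by omega
    exact_mod_cast this
  have hn1 : (1 : ℝ) < n := by
    have : 1 < n := by omega
    exact_mod_cast this
  have hlog : 0 < Real.log n := Real.log_pos hn1
  have hle : (1 : ℝ) / n ≤ 1 / Real.log n :=
    one_div_le_one_div_of_le hlog (Real.log_le_self hn0.le)
  -- the number `m`
  obtain ⟨X, hX⟩ : ∃ X : ℝ, X = (n : ℝ) ^ (1 / 2 + 4 * δ) := ⟨_, rfl⟩
  have hX1 : 1 ≤ X := by
    rw [hX]; exact Real.one_le_rpow hn1.le (by positivity)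
  obtain ⟨m, hm⟩ : ∃ m : ℕ, m = ⌈X⌉₊ := ⟨_, rfl⟩
  have hm1 : X ≤ m := by rw [hm]; exact Nat.le_ceil X
  have hm2 : (m : ℝ) ≤ 2 * X := by
    have := Nat.ceil_lt_add_one (by linarith : 0 ≤ X)
    rw [← hm] at this
    linarith
  have hsq : Real.sqrt n ≤ m := by
    refine le_trans ?_ hm1
    rw [hX, Real.sqrt_eq_rpow]
    exact Real.rpow_le_rpow_of_exponent_le hn1.le (by linarith)
  have h2 : (2 : ℝ) ≤ (n : ℝ) ^ (1 / 20 : ℝ) := by
    rw [Real.rpow_def_of_pos hn0]
    have : 1 + Real.log n * (1 / 20) ≤ Real.exp (Real.log n * (1 / 20)) := by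
      linarith [Real.add_one_le_exp (Real.log n * (1 / 20))]
    linarith
  have hm34 : (m : ℝ) ≤ (n : ℝ) ^ (3 / 4 : ℝ) := by
    have e1 : X ≤ (n : ℝ) ^ (7 / 10 : ℝ) := by
      rw [hX]
      exact Real.rpow_le_rpow_of_exponent_le hn1.le (by linarith)
    have e2 : (n : ℝ) ^ (3 / 4 : ℝ) = (n : ℝ) ^ (1 / 20 : ℝ) * (n : ℝ) ^ (7 / 10 : ℝ) := by
      rw [← Real.rpow_add hn0]; norm_num
    rw [e2]
    refine hm2.trans ?_
    apply mul_le_mul h2 e1 (by linarith) (by positivity)
  have hup : (m : ℝ) * Real.log n ^ 2 ≤ (n : ℝ) ^ (1 / 2 + ε) := by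
    have e1 : X ≤ (n : ℝ) ^ (1 / 2 + ε / 2) := by
      rw [hX]
      exact Real.rpow_le_rpow_of_exponent_le hn1.le (by linarith)
    have e2 : (n : ℝ) ^ (1 / 2 + ε) = (n : ℝ) ^ (1 / 2 + ε / 2) * (n : ℝ) ^ (ε / 2) := by
      rw [← Real.rpow_add hn0]; ring_nf
    rw [e2]
    calc (m : ℝ) * Real.log n ^ 2 ≤ (2 * X) * Real.log n ^ 2 :=
          mul_le_mul_of_nonneg_right hm2 (by positivity)
      _ = X * (2 * Real.log n ^ 2) := by ring
      _ ≤ (n : ℝ) ^ (1 / 2 + ε / 2) * (n : ℝ) ^ (ε / 2) :=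
          mul_le_mul e1 hpow (by positivity) (by positivity)
  have hlow : (n : ℝ) ^ (1 / 2 - ε) ≤ (n : ℝ) ^ (1 / 2 - δ) :=
    Real.rpow_le_rpow_of_exponent_le hn1.le (by linarith)
  have hP' := hP y hy1 hy2 m hsq hm34
  have hG' := hG y hy1 hy2
  have hD' := hD y hy1 hy2
  have hw : ∀ u, 0 < wexp (n * y) u := wexp_pos _
  have hbad : env n ({U : Ev n | ¬ GdA n y U} ∪ {U : Ev n | Real.exp (-(m / 2 : ℝ)) ≤ SSA n y m U})
      ≤ ENNReal.ofReal (1 / Real.log n + 1 / n) := by
    refine (measure_union_le _ _).trans ?_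
    rw [ENNReal.ofReal_add (by positivity) (by positivity)]
    exact add_le_add hG' hP'
  have hkey := avgw_ge (w := wexp (n * y)) (n := n) hw (wexp_meas _)
    (fun T => (n : ℝ) ^ (1 / 2 - ε) ≤ T.diam ∧ (T.diam : ℝ) ≤ (n : ℝ) ^ (1 / 2 + ε))
    ({U : Ev n | ¬ GdA n y U} ∪ {U : Ev n | Real.exp (-(m / 2 : ℝ)) ≤ SSA n y m U})
    (η := 1 / Real.log n + 1 / n) (δ := 1 / Real.log n) (by positivity) (by positivity) hbad (by
      intro U hU
      have hU1 : GdA n y U := by
        by_contra h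
        exact hU (Or.inl h)
      have hU2 : SSA n y m U ≤ Real.exp (-(m / 2 : ℝ)) := by
        by_contra h
        exact hU (Or.inr (not_le.1 h).le)
      have h := hD' U hU1 m (by rw [← hX]; exact hm1) hm34 hU2
      have e : (fun e => wA n y (U e)) = fun e => Real.exp y * wexp (n * y) (U e) := by
        funext e
        unfold wA wexp
        rw [← Real.exp_add]
        congr 1
        ring
      rw [e, GG_scale (Real.exp_pos y)] at h
      refine h.trans (GG_mono (fun e => hw _) ?_)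
      rintro T _ ⟨h1, h2⟩
      exact ⟨hlow.trans h1, h2.trans hup⟩)
  refine le_trans ?_ hkey
  have e : (3 : ℝ) / Real.log n = 1 / Real.log n + 1 / Real.log n + 1 / Real.log n := by ring
  rw [e]
  linarith

/-- high temperature: the diameter is `n ^ (1/2 + o(1))` -/
theorem high_temp (C : ℝ) (β : ℕ → ℝ) (hβ0 : ∀ n, 0 ≤ β n)
    (hβ : ∀ᶠ n : ℕ in atTop, β n ≤ C * n) (ε : ℝ) (hε : 0 < ε) :
    Tendsto (fun n : ℕ => RSTRE.avg (β n) n (fun T =>
      (n : ℝ) ^ (1 / 2 - ε) ≤ (T.diam : ℝ) ∧ (T.diam : ℝ) ≤ (n : ℝ) ^ (1 / 2 + ε)))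
      atTop (𝓝 1) := by
  have hlow : Tendsto (fun n : ℕ => 1 - 3 / Real.log (n : ℝ)) atTop (𝓝 1) := by
    have h1 : Tendsto (fun n : ℕ => 3 / Real.log (n : ℝ)) atTop (𝓝 0) :=
      RegA.log_lim.const_div_atTop 3
    simpa using h1.const_sub 1
  refine tendsto_of_tendsto_of_tendsto_of_le_of_le' hlow tendsto_const_nhds ?_ ?_
  · have hll : ∀ᶠ n : ℕ in atTop, C ≤ Real.log (Real.log n) :=
      (Real.tendsto_log_atTop.comp RegA.log_lim).eventually (eventually_ge_atTop C)
    filter_upwards [hβ, hll, region_A hε, region_B, eventually_ge_atTop 2,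
      RegA.pow_ev (a := ε) (b := 0) hε 1 1 le_rfl, RegA.pow_ev (a := ε) (b := 0) hε 1 3 le_rfl]
      with n hb hC hA hB hn hp1 hp3
    have hn0 : (0 : ℝ) < n := by
      have : 0 < n := by omega
      exact_mod_cast this
    have hn1 : (1 : ℝ) < n := by
      have : 1 < n := by omega
      exact_mod_cast this
    have hlog : 0 < Real.log n := Real.log_pos hn1
    rw [avg_eq]
    by_cases hc : β n ≤ n / Real.log n ^ 3
    · have h := hB (β n) (hβ0 n) hc
      have h23 : 1 - 3 / Real.log (n : ℝ) ≤ 1 - 2 / Real.log n := by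
        have : (2 : ℝ) / Real.log n ≤ 3 / Real.log n :=
          div_le_div_of_nonneg_right (by norm_num) hlog.le
        linarith
      refine h23.trans (h.trans (avgw_mono (wexp_pos _) (wexp_meas _) ?_))
      rintro T _ ⟨h1, h2⟩
      rw [one_mul, pow_one] at hp1
      rw [one_mul] at hp3
      constructor
      · refine le_trans ?_ h1
        rw [Real.sqrt_eq_rpow, le_div_iff₀ hlog, Real.rpow_sub hn0]
        have hpos : 0 < (n : ℝ) ^ ε := by positivity
        rw [div_mul_eq_mul_div, div_le_iff₀ hpos]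
        exact mul_le_mul_of_nonneg_left hp1 (by positivity)
      · refine h2.trans ?_
        rw [Real.sqrt_eq_rpow, Real.rpow_add hn0]
        exact mul_le_mul_of_nonneg_left hp3 (by positivity)
    · have hc' := not_le.1 hc
      have hy1 : 1 / Real.log n ^ 3 ≤ β n / n := by
        rw [le_div_iff₀ hn0, one_div_mul_eq_div]
        exact hc'.le
      have hy2 : β n / n ≤ Real.log (Real.log n) := by
        refine le_trans ?_ hC
        rw [div_le_iff₀ hn0]
        exact hb
      have h := hA (β n / n) hy1 hy2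
      have e : (n : ℝ) * (β n / n) = β n := by field_simp
      rw [e] at h
      exact h
  · refine Filter.Eventually.of_forall (fun n => ?_)
    show RSTRE.avg (β n) n _ ≤ 1
    rw [avg_eq]
    exact avgw_le_one (wexp_pos _) (wexp_meas _) _

end
end Pool.Agent.TH972.U
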