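import Pool.Agent.TH972.U.SDef2
import Pool.Agent.TH972.U.Bush
import Pool.Agent.TH972.U.Marks

/-!
# The weight of a list is bounded by the path sum
-/

set_option autoImplicit false
set_option linter.unusedSectionVars false
set_option linter.unusedVariables false

namespace Pool.Agent.TH972.U

open Finset MeasureTheory Pool.Agent.W842.RST Pool.Agent.TH972

noncomputable section

variable {n : ℕ}

namespace Run

open Marks

/-! ### Signs -/

theorem rlo_nonneg (P : SP n) (c : ℕ) : 0 ≤ P.rlo c := by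
  unfold SP.rlo
  split_ifs
  · exact le_rfl
  · exact (Real.exp_pos _).le

theorem rhi_pos (P : SP n) (c : ℕ) : 0 < P.rhi c := Real.exp_pos _

theorem Rs_pos (P : SP n) (j : ℕ) : 0 < P.Rs j := Real.exp_pos _

/-- positive states -/
def ok (R : Option ℝ) : Prop := ∀ r, R = some r → 0 < r

theorem ok_none : ok none := fun r h => by simp at h

theorem ok_sta (P : SP n) {R : Option ℝ} (h : ok R) (e : Finset (Fin n) × Option (Fin n)) :
    ok (P.sta R e) := by
  unfold SP.sta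
  split_ifs
  · intro r hr
    rw [Option.some.injEq] at hr
    rw [← hr]
    exact Rs_pos P _
  · exact h

theorem ok_nst (P : SP n) {R : Option ℝ} (h : ok R) (c : ℕ) : ok (P.nst R c) := by
  rcases R with _ | r
  · exact ok_none
  · intro s hs
    have hs' : r + 2 * P.rhi c = s := by
      have : P.nst (some r) c = some (r + 2 * P.rhi c) := rfl
      rw [this, Option.some.injEq] at hs
      exact hs
    have h1 := h r rfl
    have h2 := rhi_pos P c
    rw [← hs']
    linarith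

theorem wst_nonneg (P : SP n) {R : Option ℝ} (h : ok R) (c : ℕ) : 0 ≤ P.wst R c := by
  rcases R with _ | r
  · exact zero_le_one
  · have h1 := h r rfl
    have h2 := rlo_nonneg P c
    show 0 ≤ r / (r + P.rlo c)
    exact div_nonneg h1.le (by linarith)

theorem wsum_nn (P : SP n) {z : ℝ} (hz : 0 ≤ z) (U : Ev n) (Q : Finset (Fin n)) :
    ∀ (π : List (Fin n)) (X : Finset (Fin n)) (R : Option ℝ), ok R → 0 ≤ P.wsum z U Q π X R
  | [], X, R, _ => by rw [SP.wsum]; exact zero_le_one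
  | [_], X, R, _ => by rw [SP.wsum]; exact zero_le_one
  | (v :: w :: t), X, R, h => by
    rw [SP.wsum]
    by_cases h1 : P.cnt (U s(v, w)) ≤ P.I0 + P.I
    · rw [if_pos h1]
      have h2 := ok_sta P h (P.ebs U Q X R v)
      refine mul_nonneg (mul_nonneg ?_ (wst_nonneg P h2 _))
        (wsum_nn P hz U Q (w :: t) _ _ (ok_nst P h2 _))
      split_ifs
      · exact hz
      · exact zero_le_one
    · rw [if_neg h1]

theorem pref_nn {V : Type} [Fintype V] [DecidableEq V] (N : Net V) :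
    ∀ π : List V, 0 ≤ pref N π
  | [] => by rw [pref]; exact zero_le_one
  | [_] => by rw [pref]; exact zero_le_one
  | (v :: w :: t) => by
    rw [pref]
    exact mul_nonneg (mul_nonneg (Kc_nonneg (fun e => (N.κ_pos e).le) _ _)
      (grn_nonneg N _ _ _)) (pref_nn N (w :: t))

/-! ### Energy -/

theorem cs2 {a b A B x y : ℝ} (hA : 0 ≤ A) (hB : 0 ≤ B) (hx : 0 ≤ x) (hy : 0 ≤ y)
    (ha : a ^ 2 ≤ A * x) (hb : b ^ 2 ≤ B * y) : (a + b) ^ 2 ≤ (A + B) * (x + y) := by
  have h0 : 0 ≤ A * y + B * x := by positivity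
  have h1 : (2 * (a * b)) ^ 2 ≤ (A * y + B * x) ^ 2 := by
    have h2 : a ^ 2 * b ^ 2 ≤ (A * x) * (B * y) :=
      mul_le_mul ha hb (sq_nonneg _) (by positivity)
    nlinarith [sq_nonneg (A * y - B * x)]
  have h3 : 2 * (a * b) ≤ A * y + B * x := le_trans (le_abs_self _) (abs_le_of_sq_le_sq' h1 h0 |> abs_le.2)
  nlinarith

theorem EnIn_ins {κ : Sym2 (Fin n) → ℝ} (h : ∀ e, 0 < κ e) {W : Finset (Fin n)} {v w : Fin n}
    (hv : v ∈ W) (hw : w ∉ W) (f : Fin n → ℝ) :
    EnIn κ W f + Kc κ v w * (f v - f w) ^ 2 ≤ EnIn κ (insert w W) f := by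
  have e1 : ∑ x ∈ insert w W, ∑ y ∈ insert w W, Kc κ x y * (f x - f y) ^ 2 =
      (∑ x ∈ W, ∑ y ∈ W, Kc κ x y * (f x - f y) ^ 2) +
        2 * ∑ x ∈ W, Kc κ x w * (f x - f w) ^ 2 := by
    rw [sum_insert hw, sum_insert hw]
    have e2 : ∀ x ∈ W, ∑ y ∈ insert w W, Kc κ x y * (f x - f y) ^ 2 =
        Kc κ x w * (f x - f w) ^ 2 + ∑ y ∈ W, Kc κ x y * (f x - f y) ^ 2 := fun x _ => by
      rw [sum_insert hw]
    rw [sum_congr rfl e2, sum_add_distrib]
    have e3 : ∑ y ∈ W, Kc κ w y * (f w - f y) ^ 2 = ∑ x ∈ W, Kc κ x w * (f x - f w) ^ 2 := by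
      refine sum_congr rfl fun y _ => ?_
      rw [Kc_symm κ w y]
      ring
    rw [e3]
    ring
  have e4 : Kc κ v w * (f v - f w) ^ 2 ≤ ∑ x ∈ W, Kc κ x w * (f x - f w) ^ 2 :=
    single_le_sum (f := fun x => Kc κ x w * (f x - f w) ^ 2) (fun x _ => term_nonneg h f x w) hv
  unfold EnIn
  rw [e1]
  linarith

theorem Kc_ne {κ : Sym2 (Fin n) → ℝ} {v w : Fin n} (h : v ≠ w) : Kc κ v w = κ s(v, w) := by
  unfold Kc
  rw [if_neg h]

theorem estep {κ : Sym2 (Fin n) → ℝ} (h : ∀ e, 0 < κ e) {W : Finset (Fin n)} {v w d : Fin n}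
    {A : ℝ} (hA : 0 ≤ A) (hv : v ∈ W) (hw : w ∉ W) (f : Fin n → ℝ)
    (hf : (f v - f d) ^ 2 ≤ A * EnIn κ W f) :
    (f w - f d) ^ 2 ≤ (A + 1 / κ s(v, w)) * EnIn κ (insert w W) f := by
  have hne : v ≠ w := fun e => hw (e ▸ hv)
  have hκ := h s(v, w)
  have h1 := EnIn_ins h hv hw f
  rw [Kc_ne hne] at h1
  have h2 : (f v - f d + (f w - f v)) ^ 2 ≤
      (A + 1 / κ s(v, w)) * (EnIn κ W f + κ s(v, w) * (f v - f w) ^ 2) := by
    refine cs2 hA (by positivity) (EnIn_nonneg h W f) (by positivity) hf ?_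
    have : 1 / κ s(v, w) * (κ s(v, w) * (f v - f w) ^ 2) = (f v - f w) ^ 2 := by
      field_simp
    rw [this]
    exact le_of_eq (by ring)
  have h3 : f v - f d + (f w - f v) = f w - f d := by ring
  rw [h3] at h2
  exact h2.trans (mul_le_mul_of_nonneg_left h1 (by positivity))

theorem epath {κ : Sym2 (Fin n) → ℝ} (h : ∀ e, 0 < κ e) (x : ℕ → Fin n) (f : Fin n → ℝ) :
    ∀ t : ℕ, Set.InjOn x (Set.Iic t) →
      (f (x t) - f (x 0)) ^ 2 ≤ (∑ j ∈ range t, 1 / κ s(x j, x (j + 1))) *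
        EnIn κ ((range (t + 1)).image x) f := by
  intro t
  induction t with
  | zero => intro _; simp
  | succ t ih =>
    intro hinj
    have h1 := ih (hinj.mono fun i hi => by
      rw [Set.mem_Iic] at hi ⊢
      omega)
    have h2 : x t ∈ (range (t + 1)).image x := mem_image_of_mem _ (mem_range.2 (by omega))
    have h3 : x (t + 1) ∉ (range (t + 1)).image x := by
      intro hm
      obtain ⟨i, hi, hxi⟩ := mem_image.1 hm
      rw [mem_range] at hi
      have := hinj (show i ∈ Set.Iic (t + 1) by rw [Set.mem_Iic]; omega)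
        (show t + 1 ∈ Set.Iic (t + 1) by rw [Set.mem_Iic]) hxi
      omega
    have h4 := estep h (A := ∑ j ∈ range t, 1 / κ s(x j, x (j + 1)))
      (sum_nonneg fun j _ => by have := h s(x j, x (j + 1)); positivity) h2 h3 f h1
    rw [sum_range_succ, range_add_one, image_insert]
    exact h4

/-! ### Resistance of a path with few high edges -/

theorem tail_sum (c : Sym2 (Fin n) → ℝ) (U : Ev n) (pl Tl M : ℝ)
    (htail : ∀ (t : ℕ) (x : ℕ → Fin n), Set.InjOn x (Set.Iic t) →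
      (∀ j < t, U s(x j, x (j + 1)) ≤ pl) → ∑ j ∈ range t, c s(x j, x (j + 1)) ≤ Tl)
    (x : ℕ → Fin n) : ∀ t : ℕ, Set.InjOn x (Set.Iic t) →
      (∀ j < t, c s(x j, x (j + 1)) ≤ M) →
      ∃ b ≤ t, (∀ j, b ≤ j → j < t → U s(x j, x (j + 1)) ≤ pl) ∧
        ∑ j ∈ range b, c s(x j, x (j + 1)) ≤
          ((open Classical in (range b).filter (fun j => pl < U s(x j, x (j + 1)))).card : ℝ) *
            (M + Tl) := by
  classical
  have hlow : ∀ b t : ℕ, b ≤ t → Set.InjOn x (Set.Iic t) →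
      (∀ j, b ≤ j → j < t → U s(x j, x (j + 1)) ≤ pl) →
      ∑ j ∈ Ico b t, c s(x j, x (j + 1)) ≤ Tl := by
    intro b t hbt hinj hl
    rw [sum_Ico_eq_sum_range]
    refine htail (t - b) (fun i => x (b + i)) ?_ ?_
    · intro i hi j hj hij
      rw [Set.mem_Iic] at hi hj
      have := hinj (show b + i ∈ Set.Iic t by rw [Set.mem_Iic]; omega)
        (show b + j ∈ Set.Iic t by rw [Set.mem_Iic]; omega) hij
      omega
    · intro j hj
      exact hl (b + j) (by omega) (by omega)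
  intro t
  induction t with
  | zero =>
    intro _ _
    exact ⟨0, le_rfl, fun j _ hj => absurd hj (Nat.not_lt_zero _), by simp⟩
  | succ t ih =>
    intro hinj hM
    have hinj' : Set.InjOn x (Set.Iic t) := hinj.mono fun i hi => by
      rw [Set.mem_Iic] at hi ⊢
      omega
    obtain ⟨b, hbt, hl, hs⟩ := ih hinj' fun j hj => hM j (by omega)
    by_cases hc : U s(x t, x (t + 1)) ≤ pl
    · refine ⟨b, by omega, fun j hj hjt => ?_, hs⟩
      by_cases hjt' : j = t
      · rw [hjt']; exact hc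
      · exact hl j hj (by omega)
    · rw [not_le] at hc
      refine ⟨t + 1, le_rfl, fun j hj hjt => by omega, ?_⟩
      have h1 := hlow b t hbt hinj' hl
      have h2 : ∑ j ∈ range t, c s(x j, x (j + 1)) =
          ∑ j ∈ range b, c s(x j, x (j + 1)) + ∑ j ∈ Ico b t, c s(x j, x (j + 1)) :=
        (sum_range_add_sum_Ico _ hbt).symm
      have h3 : ((range (t + 1)).filter (fun j => pl < U s(x j, x (j + 1)))).card =
          ((range b).filter (fun j => pl < U s(x j, x (j + 1)))).card + 1 := by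
        rw [range_add_one, filter_insert, if_pos hc, card_insert_of_notMem (by simp)]
        congr 2
        ext j
        simp only [mem_filter, mem_range]
        constructor
        · rintro ⟨h4, h5⟩
          refine ⟨?_, h5⟩
          by_contra h6
          exact absurd (hl j (by omega) h4) (not_le.2 h5)
        · rintro ⟨h4, h5⟩
          exact ⟨by omega, h5⟩
      have h4 := hM t (by omega)
      rw [sum_range_succ, h2]
      have h5 : ((((range (t + 1)).filter (fun j => pl < U s(x j, x (j + 1)))).card : ℕ) : ℝ) =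
          (((range b).filter (fun j => pl < U s(x j, x (j + 1)))).card : ℝ) + 1 := by
        rw [h3]; push_cast; rfl
      have h6 : ∑ j ∈ range b, c s(x j, x (j + 1)) ≤
          (((range b).filter (fun j => pl < U s(x j, x (j + 1)))).card : ℝ) * (M + Tl) := by
        convert hs using 4
      have h7 : ∑ j ∈ range b, c s(x j, x (j + 1)) + ∑ j ∈ Ico b t, c s(x j, x (j + 1)) +
          c s(x t, x (t + 1)) ≤
          (((range (t + 1)).filter (fun j => pl < U s(x j, x (j + 1)))).card : ℝ) * (M + Tl) := by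
        rw [h5]
        linarith
      convert h7 using 4

/-- resistance of a path with few high edges -/
theorem path_sum (c : Sym2 (Fin n) → ℝ) (U : Ev n) (pl Tl M : ℝ) (hM0 : 0 ≤ M) (J : ℕ)
    (htail : ∀ (t : ℕ) (x : ℕ → Fin n), Set.InjOn x (Set.Iic t) →
      (∀ j < t, U s(x j, x (j + 1)) ≤ pl) → ∑ j ∈ range t, c s(x j, x (j + 1)) ≤ Tl)
    (x : ℕ → Fin n) (t : ℕ) (hinj : Set.InjOn x (Set.Iic t))
    (hM : ∀ j < t, c s(x j, x (j + 1)) ≤ M)
    (hJ : (open Classical in (range t).filter (fun j => pl < U s(x j, x (j + 1)))).card ≤ J) :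
    ∑ j ∈ range t, c s(x j, x (j + 1)) ≤ J * M + (J + 1) * Tl := by
  classical
  have hTl : 0 ≤ Tl := by
    have := htail 0 x (fun i hi j hj _ => by
      rw [Set.mem_Iic] at hi hj
      omega) (fun j hj => absurd hj (Nat.not_lt_zero _))
    simpa using this
  obtain ⟨b, hbt, hl, hs⟩ := tail_sum c U pl Tl M htail x t hinj hM
  have h1 : ∑ j ∈ Ico b t, c s(x j, x (j + 1)) ≤ Tl := by
    rw [sum_Ico_eq_sum_range]
    refine htail (t - b) (fun i => x (b + i)) ?_ ?_
    · intro i hi j hj hij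
      rw [Set.mem_Iic] at hi hj
      have := hinj (show b + i ∈ Set.Iic t by rw [Set.mem_Iic]; omega)
        (show b + j ∈ Set.Iic t by rw [Set.mem_Iic]; omega) hij
      omega
    · intro j hj
      exact hl (b + j) (by omega) (by omega)
  have h2 : ∑ j ∈ range t, c s(x j, x (j + 1)) =
      ∑ j ∈ range b, c s(x j, x (j + 1)) + ∑ j ∈ Ico b t, c s(x j, x (j + 1)) :=
    (sum_range_add_sum_Ico _ hbt).symm
  have h3 : (open Classical in (range b).filter (fun j => pl < U s(x j, x (j + 1)))).card ≤ J := by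
    refine (card_le_card ?_).trans hJ
    exact filter_subset_filter _ (range_mono hbt)
  have h4 : ((open Classical in (range b).filter
      (fun j => pl < U s(x j, x (j + 1)))).card : ℝ) * (M + Tl) ≤ J * (M + Tl) :=
    mul_le_mul_of_nonneg_right (by exact_mod_cast h3) (by linarith)
  rw [h2]
  linarith

/-! ### The invariant -/

/-- the state `R` at the vertex `v` is justified by an attachment away from the later vertices -/
def Inv (E : BlkEnv (Fin n)) (Q : Finset (Fin n)) (r0 : ℝ) (v : Fin n) (L : Finset (Fin n))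
    (R : Option ℝ) : Prop :=
  ∀ r, R = some r → 0 < r ∧ ∃ (Rl : ℝ) (d : Fin n) (D W : Finset (Fin n)),
    0 ≤ Rl ∧ 2 * (Rl + r0) ≤ r ∧ d ∈ D ∧ Disjoint D Q ∧ E.s0 ≤ D.card ∧
    (∀ x ∈ D, rin E.Hb D d x) ∧ v ∈ W ∧ Disjoint W L ∧
    ∀ f : Fin n → ℝ, (f v - f d) ^ 2 ≤ Rl * EnIn E.κ W f

theorem inv_none (E : BlkEnv (Fin n)) (Q : Finset (Fin n)) (r0 : ℝ) (v : Fin n)
    (L : Finset (Fin n)) : Inv E Q r0 v L none := fun r h => by simp at h

theorem Kc_pos' (E : BlkEnv (Fin n)) {v w : Fin n} (h : v ≠ w) : 0 < Kc E.κ v w := by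
  rw [Kc_ne h]
  exact E.κ_pos _

/-- energy of an edge at a vertex where the function vanishes -/
theorem EK_ge (E : BlkEnv (Fin n)) {k : ℝ} (hk : 0 < k) {v w : Fin n} (hvw : v ≠ w)
    (f : Fin n → ℝ) (hf : f w = 0) :
    EnIn E.κ (univ.erase w) f + (∑ m ∈ E.M, k * f m ^ 2) + Kc E.κ v w * f v ^ 2 ≤
      EK (E.net k hk) f := by
  rw [EK_net]
  have h1 := EnIn_ins E.κ_pos (W := univ.erase w) (v := v) (w := w)
    (mem_erase.2 ⟨hvw, mem_univ v⟩) (by simp) f
  rw [insert_erase (mem_univ w), EnIn_univ, hf, sub_zero] at h1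
  linarith

/-- the factor in the state `none` -/
theorem fac_none (E : BlkEnv (Fin n)) {k : ℝ} (hk : 0 < k) {v w : Fin n} (hvw : v ≠ w)
    (D : Finset (Fin n)) (hw : w ∈ D) :
    Kc E.κ v w * grn (E.net k hk) D v v ≤ 1 := by
  have hK := Kc_pos' E hvw
  have h : grn (E.net k hk) D v v ≤ 1 / Kc E.κ v w := by
    refine grn_var2 _ v (by positivity) fun f hf => ?_
    have h1 := EK_ge E hk hvw f (hf w hw)
    have h2 : 0 ≤ EnIn E.κ (univ.erase w) f := EnIn_nonneg E.κ_pos _ f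
    have h3 : 0 ≤ ∑ m ∈ E.M, k * f m ^ 2 :=
      sum_nonneg fun m _ => mul_nonneg hk.le (sq_nonneg _)
    rw [one_div, inv_mul_eq_div, le_div_iff₀ hK]
    linarith
  calc Kc E.κ v w * grn (E.net k hk) D v v ≤ Kc E.κ v w * (1 / Kc E.κ v w) :=
        mul_le_mul_of_nonneg_left h hK.le
    _ = 1 := by field_simp

/-- the factor in the state `some r` -/
theorem fac_some (E : BlkEnv (Fin n)) {k : ℝ} (hk : 0 < k) {v w : Fin n} (hvw : v ≠ w)
    (D : Finset (Fin n)) (hw : w ∈ D) {r : ℝ} (hr : 0 < r)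
    (h : ∀ f : Fin n → ℝ, f v ^ 2 ≤ r * (EnIn E.κ (univ.erase w) f + ∑ m ∈ E.M, k * f m ^ 2))
    {q : ℝ} (hq : 0 ≤ q) (hq' : q ≤ 1 / E.κ s(v, w)) :
    Kc E.κ v w * grn (E.net k hk) D v v ≤ r / (r + q) := by
  have hK := Kc_pos' E hvw
  have h1 : grn (E.net k hk) D v v ≤ r / (1 + r * Kc E.κ v w) := by
    refine grn_var2 _ v (by positivity) fun f hf => ?_
    have h1 := EK_ge E hk hvw f (hf w hw)
    have h2 := h f
    rw [div_mul_eq_mul_div, le_div_iff₀ (by positivity)]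
    have h3 : r * (EnIn E.κ (univ.erase w) f + (∑ m ∈ E.M, k * f m ^ 2) + Kc E.κ v w * f v ^ 2) ≤
        r * EK (E.net k hk) f := mul_le_mul_of_nonneg_left h1 hr.le
    nlinarith
  have h2 : Kc E.κ v w * grn (E.net k hk) D v v ≤
      Kc E.κ v w * (r / (1 + r * Kc E.κ v w)) := mul_le_mul_of_nonneg_left h1 hK.le
  refine h2.trans ?_
  rw [← Kc_ne (κ := E.κ) hvw] at hq'
  have h3 : Kc E.κ v w * q ≤ 1 := by
    rw [le_div_iff₀ hK] at hq'
    linarith
  rw [mul_div_assoc', div_le_div_iff₀ (by positivity) (by positivity)]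
  nlinarith

/-- the state justifies the factor -/
theorem fac_inv (P : SP n) (U : Ev n) (E : BlkEnv (Fin n)) {pl pb : ℝ} {s1 J : ℕ} {Tl : ℝ}
    (H : Lnk P U E pl pb s1 J Tl) {k : ℝ} (hk : 0 < k) {r0 : ℝ}
    (hr0 : 3 * (E.ρb + 1 / E.cn + 4 / (k * E.M.card) + 16 * (E.C + E.ρb)) ≤ r0)
    {Q : Finset (Fin n)} {v w : Fin n} {L : Finset (Fin n)} (hvw : v ≠ w) (hwL : w ∈ L)
    (hwQ : w ∈ Q) {R : Option ℝ} (hinv : Inv E Q r0 v L R) :
    Kc E.κ v w * grn (E.net k hk) L v v ≤ P.wst R (P.cnt (U s(v, w))) := by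
  rcases R with _ | r
  · exact fac_none E hk hvw L hwL
  · obtain ⟨hr, Rl, d, D, W, h1, h2, h3, h4, h5, h6, h7, h8, h9⟩ := hinv r rfl
    show _ ≤ r / (r + P.rlo (P.cnt (U s(v, w))))
    refine fac_some E hk hvw L hwL hr (fun f => ?_) (rlo_nonneg P _) (H.hlo _)
    have hwD : w ∉ D := fun hwD => disjoint_left.1 h4 hwD hwQ
    have hwW : w ∉ W := fun hwW => disjoint_left.1 h8 hwW hwL
    have g1 := E.rho hk h3 hwD h6 h5 f
    have hE' : 0 ≤ EnIn E.κ (univ.erase w) f := EnIn_nonneg E.κ_pos _ f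
    have hS2 : 0 ≤ ∑ m ∈ E.M, k * f m ^ 2 :=
      sum_nonneg fun x _ => mul_nonneg hk.le (sq_nonneg _)
    have g2 : f d ^ 2 ≤ r0 * (EnIn E.κ (univ.erase w) f + ∑ m ∈ E.M, k * f m ^ 2) :=
      g1.trans (mul_le_mul_of_nonneg_right hr0 (by linarith))
    have g3 : (f v - f d) ^ 2 ≤ Rl * EnIn E.κ (univ.erase w) f := by
      refine (h9 f).trans (mul_le_mul_of_nonneg_left (EnIn_mono E.κ_pos ?_ f) h1)
      intro z hz
      exact mem_erase.2 ⟨fun e => hwW (e ▸ hz), mem_univ z⟩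
    have g4 : Rl * EnIn E.κ (univ.erase w) f ≤
        Rl * (EnIn E.κ (univ.erase w) f + ∑ m ∈ E.M, k * f m ^ 2) :=
      mul_le_mul_of_nonneg_left (by linarith) h1
    have g5 : f v ^ 2 ≤ 2 * (f v - f d) ^ 2 + 2 * f d ^ 2 := by
      nlinarith [sq_nonneg (f v - 2 * f d)]
    have g6 : 2 * (Rl + r0) * (EnIn E.κ (univ.erase w) f + ∑ m ∈ E.M, k * f m ^ 2) ≤
        r * (EnIn E.κ (univ.erase w) f + ∑ m ∈ E.M, k * f m ^ 2) :=
      mul_le_mul_of_nonneg_right h2 (by linarith)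
    linarith

/-- the next vertex -/
theorem inv_next (P : SP n) (U : Ev n) (E : BlkEnv (Fin n)) {pl pb : ℝ} {s1 J : ℕ} {Tl : ℝ}
    (H : Lnk P U E pl pb s1 J Tl) {r0 : ℝ}
    {Q : Finset (Fin n)} {v w : Fin n} {L L' : Finset (Fin n)} (hwL : w ∈ L)
    (hL' : L' ⊆ L) (hwL' : w ∉ L') {R : Option ℝ} (hinv : Inv E Q r0 v L R)
    (hc : P.cnt (U s(v, w)) ≤ P.I0 + P.I) :
    Inv E Q r0 w L' (P.nst R (P.cnt (U s(v, w)))) := by
  rcases R with _ | r
  · exact inv_none E Q r0 w L'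
  · obtain ⟨hr, Rl, d, D, W, h1, h2, h3, h4, h5, h6, h7, h8, h9⟩ := hinv r rfl
    intro s hs
    have hs' : r + 2 * P.rhi (P.cnt (U s(v, w))) = s := by
      have : P.nst (some r) (P.cnt (U s(v, w))) = some (r + 2 * P.rhi (P.cnt (U s(v, w)))) := rfl
      rw [this, Option.some.injEq] at hs
      exact hs
    have g1 := rhi_pos P (P.cnt (U s(v, w)))
    have g2 := H.hhi s(v, w) hc
    have hκ := E.κ_pos s(v, w)
    have hκ' : 0 < 1 / E.κ s(v, w) := by positivity
    have hwW : w ∉ W := fun hwW => disjoint_left.1 h8 hwW hwL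
    refine ⟨by rw [← hs']; linarith, Rl + 1 / E.κ s(v, w), d, D, insert w W, by linarith,
      by rw [← hs']; linarith, h3, h4, h5, h6, mem_insert_self _ _, ?_, fun f => ?_⟩
    · rw [disjoint_insert_left]
      exact ⟨hwL', h8.mono_right hL'⟩
    · exact estep E.κ_pos h1 h7 hwW f (h9 f)

/-- the exploration -/
theorem inv_exp (P : SP n) (U : Ev n) (E : BlkEnv (Fin n)) {pl pb : ℝ} {s1 J : ℕ} {Tl : ℝ}
    (H : Lnk P U E pl pb s1 J Tl) {r0 : ℝ} (hr0 : 0 ≤ r0)
    (hRs : ∀ j : ℕ, 2 * (J * Real.exp j + (J + 1) * Tl + r0) ≤ P.Rs j)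
    {Q X : Finset (Fin n)} {v : Fin n} {L : Finset (Fin n)} (hvQ : v ∈ Q) (hL : L ⊆ Q)
    (hvL : v ∉ L) {R : Option ℝ} (hinv : Inv E Q r0 v L R) :
    Inv E Q r0 v L (P.sta R (P.ebs U Q X R v)) := by
  classical
  unfold SP.sta
  split_ifs with hsome
  · intro r hr
    rw [Option.some.injEq] at hr
    obtain ⟨u, hu⟩ := Option.isSome_iff_exists.1 hsome
    have hX : (X.card : ℝ) ≤ P.X0 := by
      by_contra hX
      unfold SP.ebs at hu
      rw [if_neg hX] at hu
      simp at hu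
    have hbs : P.ebs U Q X R v =
        bush pl (P.gam (P.idx R : ℕ)) pb s1 E.s0 J U v (univ \ (Q ∪ X)) := by
      unfold SP.ebs
      rw [if_pos hX, H.hbs]
    rw [hbs] at hu
    have hvF : v ∉ univ \ (Q ∪ X) := by
      rw [mem_sdiff]
      rintro ⟨-, h⟩
      exact h (mem_union_left _ hvQ)
    obtain ⟨B, D, t, x, h1, h2, h3, h4, h5, h6, h7, h8, a1, a2, a3, a4, a5, a6⟩ :=
      bush_some (H.hplj (P.idx R)) H.hlb H.hJ hvF hu
    have hsub := bush_subset (pl := pl) (pt := P.gam (P.idx R : ℕ)) (pb := pb) (s1 := s1)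
      (s0 := E.s0) (J := J) (U := U) hvF
    have hFQ : Disjoint (univ \ (Q ∪ X)) Q := by
      rw [disjoint_left]
      intro z hz hzQ
      exact (mem_sdiff.1 hz).2 (mem_union_left _ hzQ)
    have hsum : ∑ j ∈ range t, 1 / E.κ s(x j, x (j + 1)) ≤
        J * Real.exp (P.idx R : ℕ) + (J + 1) * Tl := by
      refine path_sum (fun e => 1 / E.κ e) U pl Tl _ (Real.exp_pos _).le J H.htail x t a3
        (fun j hj => H.hup _ _ (a5 j hj)) ?_
      convert a6 using 2
    refine ⟨by rw [← hr]; exact Rs_pos P _, ∑ j ∈ range t, 1 / E.κ s(x j, x (j + 1)), u, D,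
      insert v (bush pl (P.gam (P.idx R : ℕ)) pb s1 E.s0 J U v (univ \ (Q ∪ X))).1,
      sum_nonneg fun j _ => ?_, ?_, h2, ?_, h4, ?_, mem_insert_self _ _, ?_, fun f => ?_⟩
    · have := E.κ_pos s(x j, x (j + 1))
      positivity
    · have := hRs (P.idx R)
      rw [← hr]
      linarith
    · exact hFQ.mono_left (h6.trans hsub)
    · rw [H.hHb]
      exact h8
    · rw [disjoint_insert_left]
      exact ⟨hvL, (hFQ.mono_left hsub).mono_right hL⟩
    · have g1 := epath E.κ_pos x f t a3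
      rw [a1, a2] at g1
      have g2 : (f v - f u) ^ 2 = (f u - f v) ^ 2 := by ring
      rw [g2]
      refine g1.trans (mul_le_mul_of_nonneg_left (EnIn_mono E.κ_pos ?_ f) ?_)
      · intro z hz
        obtain ⟨i, hi, rfl⟩ := mem_image.1 hz
        rw [mem_range] at hi
        rcases Nat.eq_zero_or_pos i with h0 | h0
        · rw [h0, a1]
          exact mem_insert_self _ _
        · exact mem_insert_of_mem (a4 i h0 (by omega))
      · refine sum_nonneg fun j _ => ?_
        have := E.κ_pos s(x j, x (j + 1))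
        positivity
  · exact hinv

theorem cnt_le (P : SP n) {u : ℝ} (h : u ≤ P.gam P.I) : P.cnt u ≤ P.I0 + P.I := by
  classical
  unfold SP.cnt
  have h1 : ((range (P.I0 + P.I + 1)).filter (fun i : ℕ => P.gam ((i : ℤ) - P.I0) < u)) ⊆
      range (P.I0 + P.I) := by
    intro i hi
    rw [mem_filter, mem_range] at hi
    rw [mem_range]
    by_contra h2
    have h3 : i = P.I0 + P.I := by omega
    have h4 := hi.2
    rw [h3] at h4
    have h5 : (((P.I0 + P.I : ℕ) : ℤ) - P.I0) = (P.I : ℤ) := by push_cast; ring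
    rw [h5] at h4
    exact absurd h (not_le.2 h4)
  have h2 := card_le_card h1
  rw [card_range] at h2
  exact h2

theorem main (P : SP n) (U : Ev n) (E : BlkEnv (Fin n)) {pl pb : ℝ} {s1 J : ℕ} {Tl : ℝ}
    (H : Lnk P U E pl pb s1 J Tl) {k : ℝ} (hk : 0 < k) {r : ℝ}
    (hr : 3 * (E.ρb + 1 / E.cn + 4 / (k * E.M.card) + 16 * (E.C + E.ρb)) ≤ r) (hr0 : 0 ≤ r)
    (hRs : ∀ j : ℕ, 2 * (J * Real.exp j + (J + 1) * Tl + r) ≤ P.Rs j) (Q : Finset (Fin n)) :
    ∀ (π : List (Fin n)) (X : Finset (Fin n)) (R : Option ℝ), π.Nodup → (∀ v ∈ π, v ∈ Q) →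
      π.IsChain (fun u v => U s(u, v) ≤ P.gam P.I) → ok R →
      (∀ v t, π = v :: t → Inv E Q r v t.toFinset R) →
      pref (E.net k hk) π ≤ P.wsum 1 U Q π X R
  | [], X, R, _, _, _, _, _ => by rw [SP.wsum, pref]
  | [_], X, R, _, _, _, _, _ => by rw [SP.wsum, pref]
  | (v :: w :: t), X, R, hnd, hQ, hch, hok, hinv => by
    rw [SP.wsum, pref]
    rw [List.isChain_cons_cons] at hch
    have hc := cnt_le P hch.1
    rw [if_pos hc]
    have hnd' := List.nodup_cons.1 hnd
    have hnd'' := List.nodup_cons.1 hnd'.2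
    have hvw : v ≠ w := fun e => hnd'.1 (e ▸ List.mem_cons_self)
    have h0 := hinv v (w :: t) rfl
    have h1 : Inv E Q r v (w :: t).toFinset (P.sta R (P.ebs U Q X R v)) :=
      inv_exp P U E H hr0 hRs (hQ v List.mem_cons_self)
        (fun z hz => hQ z (List.mem_cons_of_mem _ (List.mem_toFinset.1 hz)))
        (fun hz => hnd'.1 (List.mem_toFinset.1 hz)) h0
    have h2 := fac_inv P U E H hk hr hvw (by simp : w ∈ (w :: t).toFinset)
      (hQ w (by simp)) h1
    have h3 : Inv E Q r w t.toFinset (P.nst (P.sta R (P.ebs U Q X R v)) (P.cnt (U s(v, w)))) :=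
      inv_next P U E H (by simp : w ∈ (w :: t).toFinset)
        (fun z hz => by
          rw [List.mem_toFinset] at hz ⊢
          exact List.mem_cons_of_mem _ hz)
        (fun hz => hnd''.1 (List.mem_toFinset.1 hz)) h1 hc
    have hok' := ok_sta P hok (P.ebs U Q X R v)
    have h4 := main P U E H hk hr hr0 hRs Q (w :: t) (X ∪ (P.ebs U Q X R v).1)
      (P.nst (P.sta R (P.ebs U Q X R v)) (P.cnt (U s(v, w)))) hnd'.2
      (fun z hz => hQ z (List.mem_cons_of_mem _ hz)) hch.2 (ok_nst P hok' _)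
      (fun v' t' e => by
        rw [List.cons.injEq] at e
        rw [← e.1, ← e.2]
        exact h3)
    rw [List.toFinset_cons] at h2
    rw [ite_self, one_mul]
    exact mul_le_mul h2 h4 (pref_nn _ _) (wst_nonneg P hok' _)

end Run

theorem wsum_eq (P : SP n) (z : ℝ) (U : Ev n) (Q : Finset (Fin n)) (π : List (Fin n))
    (X : Finset (Fin n)) (R : Option ℝ) :
    P.wsum z U Q π X R = z ^ (P.nss U Q π X R) * P.wsum 1 U Q π X R := by
  induction π generalizing X R with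
  | nil => simp [SP.wsum, SP.nss]
  | cons v t ih =>
    rcases t with _ | ⟨w, t⟩
    · simp [SP.wsum, SP.nss]
    · rw [SP.wsum, SP.wsum, SP.nss]
      by_cases h1 : P.cnt (U s(v, w)) ≤ P.I0 + P.I
      · rw [if_pos h1, if_pos h1, ih]
        by_cases h2 : (P.ebs U Q X R v).2.isSome ∧ P.low R
        · rw [if_pos h2, if_pos h2, if_pos h2, pow_add]
          ring
        · rw [if_neg h2, if_neg h2, if_neg h2, zero_add]
          ring
      · rw [if_neg h1, if_neg h1, mul_zero]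

theorem wsum_nonneg (P : SP n) {z : ℝ} (hz : 0 ≤ z) (U : Ev n) (Q : Finset (Fin n))
    (π : List (Fin n)) : 0 ≤ P.wsum z U Q π ∅ none :=
  Run.wsum_nn P hz U Q π ∅ none Run.ok_none

theorem pref_le_wsum (P : SP n) (U : Ev n) (E : BlkEnv (Fin n)) {pl pb : ℝ} {s1 J : ℕ} {Tl : ℝ}
    (H : Lnk P U E pl pb s1 J Tl) {k : ℝ} (hk : 0 < k) {r : ℝ}
    (hr : 3 * (E.ρb + 1 / E.cn + 4 / (k * E.M.card) + 16 * (E.C + E.ρb)) ≤ r)
    (hRs : ∀ j : ℕ, 2 * (J * Real.exp j + (J + 1) * Tl + r) ≤ P.Rs j) (π : List (Fin n))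
    (hπ : π.Nodup) (hok : π.IsChain (fun u v => U s(u, v) ≤ P.gam P.I)) :
    pref (E.net k hk) π ≤ P.wsum 1 U π.toFinset π ∅ none := by
  have h1 := E.ρb_pos
  have h2 := E.cn_pos
  have h3 := E.C_pos
  have h4 : 0 ≤ 4 / (k * (E.M.card : ℝ)) := by positivity
  have h5 : 0 < 1 / E.cn := by positivity
  exact Run.main P U E H hk hr (by linarith) hRs π.toFinset π ∅ none hπ
    (fun v hv => List.mem_toFinset.2 hv) hok Run.ok_none (fun v t _ => Run.inv_none E _ _ _ _)

end

end Pool.Agent.TH972.U
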