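import Pool.Agent.TH972.U.XDef

/-!
# The annealed path sum (definitions)
-/

set_option autoImplicit false
set_option linter.unusedSectionVars false

namespace Pool.Agent.TH972.U

open Finset MeasureTheory Pool.Agent.W842.RST Pool.Agent.TH972

noncomputable section

variable {n : ℕ}

/-- the parameters of the path sum -/
structure SP (n : ℕ) where
  /-- levels: the resistance of an edge of level at most `gam i` is at most `exp i`, and at least
  `exp i` for an edge above `gam i` -/
  gam : ℤ → ℝ
  I0 : ℕ
  I : ℕ
  /-- the exploration at the level `gam j` from a vertex in a fresh set -/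
  bs : ℕ → Ev n → Fin n → Finset (Fin n) → Finset (Fin n) × Option (Fin n)
  /-- additive loss (in the exponent) of a successful exploration -/
  b : ℝ
  /-- the base state -/
  lam : ℝ
  /-- maximal number of explored vertices -/
  X0 : ℝ

namespace SP

variable (P : SP n)

open Classical in
/-- the class of an edge -/
def cnt (u : ℝ) : ℕ := ((range (P.I0 + P.I + 1)).filter (fun i : ℕ => P.gam ((i : ℤ) - P.I0) < u)).card

/-- lower bound of the resistance in the class -/
def rlo (c : ℕ) : ℝ := if c = 0 then 0 else Real.exp ((c : ℝ) - 1 - P.I0)

/-- upper bound of the resistance in the class -/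
def rhi (c : ℕ) : ℝ := Real.exp ((c : ℝ) - P.I0)

/-- the factor of an edge; the state `none` means that nothing is known -/
def wst (R : Option ℝ) (c : ℕ) : ℝ :=
  match R with
  | none => 1
  | some r => r / (r + P.rlo c)

/-- the state after an edge -/
def nst (R : Option ℝ) (c : ℕ) : Option ℝ :=
  match R with
  | none => none
  | some r => some (r + 2 * P.rhi c)

/-- the level of the exploration in a given state -/
def idx (R : Option ℝ) : ℕ :=
  match R with
  | none => P.I
  | some r => ⌊0.85 * Real.log r⌋₊

/-- the state after a successful exploration at the level `j` -/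
def Rs (j : ℕ) : ℝ := Real.exp (max (j + P.b) P.lam)

/-- states in which a success is strong -/
def low (R : Option ℝ) : Prop :=
  match R with
  | none => False
  | some r => Real.log r ≤ 1.15 * P.lam

open Classical in
/-- the exploration made at `v` when the explored set is `X` -/
def ebs (U : Ev n) (Q : Finset (Fin n)) (X : Finset (Fin n)) (R : Option ℝ) (v : Fin n) :
    Finset (Fin n) × Option (Fin n) :=
  if (X.card : ℝ) ≤ P.X0 then P.bs (P.idx R) U v (univ \ (Q ∪ X)) else (∅, none)

/-- the state after the exploration -/
def sta (R : Option ℝ) (r : Finset (Fin n) × Option (Fin n)) : Option ℝ :=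
  if r.2.isSome then some (P.Rs (P.idx R)) else R

open Classical in
/-- the path sum: `Q` the set of all the vertices of the path -/
def wsum (z : ℝ) (U : Ev n) (Q : Finset (Fin n)) :
    List (Fin n) → Finset (Fin n) → Option ℝ → ℝ
  | [], _, _ => 1
  | [_], _, _ => 1
  | (v :: w :: t), X, R =>
    if P.cnt (U s(v, w)) ≤ P.I0 + P.I then
      (if (P.ebs U Q X R v).2.isSome ∧ P.low R then z else 1) *
        P.wst (P.sta R (P.ebs U Q X R v)) (P.cnt (U s(v, w))) *
        wsum z U Q (w :: t) (X ∪ (P.ebs U Q X R v).1)
          (P.nst (P.sta R (P.ebs U Q X R v)) (P.cnt (U s(v, w))))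
    else 0

end SP

end

end Pool.Agent.TH972.U
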