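import Pool.Agent.TH972.U.SDef
import Pool.Agent.TH972.U.GDef

/-!
# Strong successes along a path (definitions)
-/

set_option autoImplicit false
set_option linter.unusedSectionVars false

namespace Pool.Agent.TH972.U

open Finset MeasureTheory Pool.Agent.W842.RST Pool.Agent.TH972

noncomputable section

variable {n : ℕ}

namespace SP

variable (P : SP n)

open Classical in
/-- number of strong successes along the path -/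
def nss (U : Ev n) (Q : Finset (Fin n)) : List (Fin n) → Finset (Fin n) → Option ℝ → ℕ
  | [], _, _ => 0
  | [_], _, _ => 0
  | (v :: w :: t), X, R =>
    (if (P.ebs U Q X R v).2.isSome ∧ P.low R then 1 else 0) +
      nss U Q (w :: t) (X ∪ (P.ebs U Q X R v).1)
        (P.nst (P.sta R (P.ebs U Q X R v)) (P.cnt (U s(v, w))))

end SP

/-- the hypotheses linking the environment `U`, the blocks `E` and the parameters `P` -/
structure Lnk (P : SP n) (U : Ev n) (E : BlkEnv (Fin n)) (pl pb : ℝ) (s1 J : ℕ) (Tl : ℝ) : Prop where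
  hJ : 1 ≤ J
  hs1 : 1 ≤ s1
  hlb : pl ≤ pb
  hplj : ∀ j : ℕ, pl ≤ P.gam j
  hbs : ∀ (j : ℕ) (v : Fin n) (F : Finset (Fin n)),
    P.bs j U v F = bush pl (P.gam j) pb s1 E.s0 J U v F
  hHb : E.Hb = GU U pb
  hM : E.M = marks pl pb s1 E.s0 U
  hlo : ∀ e, P.rlo (P.cnt (U e)) ≤ 1 / E.κ e
  hhi : ∀ e, P.cnt (U e) ≤ P.I0 + P.I → 1 / E.κ e ≤ P.rhi (P.cnt (U e))
  hup : ∀ j : ℕ, ∀ e, U e ≤ P.gam j → 1 / E.κ e ≤ Real.exp j
  htail : ∀ (t : ℕ) (x : ℕ → Fin n), Set.InjOn x (Set.Iic t) →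
    (∀ j < t, U s(x j, x (j + 1)) ≤ pl) → ∑ j ∈ range t, 1 / E.κ s(x j, x (j + 1)) ≤ Tl
  hTl : Tl ≤ 1
  hlam : 1 ≤ P.lam

/-- a family of attachments to the set `A` -/
structure Att (E : BlkEnv (Fin n)) (A : Finset (Fin n)) (s1 J : ℕ) (Tl lam : ℝ) (N : ℕ) where
  I : Finset ℕ
  B : ℕ → Finset (Fin n)
  Z : ℕ → Finset (Fin n)
  u : ℕ → Fin n
  w : ℕ → Fin n
  card : I.card = N
  hB : ∀ i ∈ I, B i ⊆ E.M
  hBs : ∀ i ∈ I, s1 ≤ (B i).card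
  hw : ∀ i ∈ I, w i ∈ A
  hdisj : ∀ i ∈ I, ∀ j ∈ I, i ≠ j → Disjoint (B i) (B j)
  hZ : ∀ f : Fin n → ℝ, ∑ i ∈ I, EnIn E.κ (Z i) f ≤ En E.κ f
  hatt : ∀ i ∈ I, ∀ f : Fin n → ℝ, (∀ x ∈ A, f x = 0) → ∀ g ∈ B i,
    f g ^ 2 ≤ 4 * (J + 2) * Real.exp lam * EnIn E.κ (Z i) f
  hlow : ∀ i ∈ I, ∀ g ∈ B i, ∀ f : Fin n → ℝ, (f g - f (u i)) ^ 2 ≤ Tl * En E.κ f
  hpath : ∀ i ∈ I, ∃ (t : ℕ) (x : ℕ → Fin n), x 0 = w i ∧ x t = u i ∧ (∀ j < t, x j ≠ x (j + 1)) ∧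
    ∀ a : ℝ, 0 < a → ∏ j ∈ range t, (1 + a / Kc E.κ (x j) (x (j + 1))) ≤
      (1 + a * Real.exp lam) ^ J * Real.exp (a * ((J + 1) * Tl))

end

end Pool.Agent.TH972.U
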