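import Pool.Agent.TH972.U.Fin
import Pool.Agent.TH972.U.M1
import Pool.Agent.TH972.U.M2
import Pool.Agent.TH972.U.M3

/-!
# Upper bound for sequences of weight functions
-/

set_option autoImplicit false

namespace Pool.Agent.TH972.U

open Finset MeasureTheory Pool.Agent.W842.RST Pool.Agent.TH972 Filter Topology

noncomputable section

namespace Sq

/-- bounds for the number `m` -/
theorem m_le {n y Z : ℝ} (hy : 0 < y) (hyn : y ≤ n) (hZ : 1 ≤ Z) :
    (⌈Real.sqrt (n / y) * Z ^ 8⌉₊ : ℝ) ≤ 2 * (Real.sqrt (n / y) * Z ^ 8) := by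
  have h1 : 1 ≤ Real.sqrt (n / y) := by
    rw [Real.one_le_sqrt, le_div_iff₀ hy]
    linarith
  have h2 : 1 ≤ Z ^ 8 := one_le_pow₀ hZ
  have h3 : 1 ≤ Real.sqrt (n / y) * Z ^ 8 := one_le_mul_of_one_le_of_one_le h1 h2
  have h4 := (Nat.ceil_lt_add_one (by linarith : 0 ≤ Real.sqrt (n / y) * Z ^ 8)).le
  linarith

/-- the numerical part -/
theorem num {n y Z g ε δ L : ℝ} (hn : 1 ≤ n) (hL : 32 ≤ L) (hLZ : L ^ 2 ≤ Z) (hδ : 0 < δ)
    (hZ : Z = n ^ δ) (hy0 : 0 < y) (hyn : y ≤ n)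
    (hg : g < 1 / 3) (hδε : 10 * δ ≤ ε)
    (hy1 : n ^ (g - δ) ≤ y) (hy2 : y ≤ n ^ (g + δ)) :
    2 * ((⌈Real.sqrt (n / y) * Z ^ 8⌉₊ : ℝ) + (⌈2 * L⌉₊ : ℝ) * (⌈Real.sqrt (n / y) * Z ^ 8⌉₊ : ℝ)) +
      984 * L ^ 2 * (y / L ^ 8) ≤ n ^ ((1 - g) / 2 + ε) := by
  have hn0 : 0 < n := by linarith
  have hL0 : 0 < L := by linarith
  have hZ1 : 1 ≤ Z := by
    have : 1 ≤ L ^ 2 := one_le_pow₀ (by linarith)
    linarith
  have hm := m_le hy0 hyn hZ1
  obtain ⟨m, hmd⟩ : ∃ m : ℝ, m = (⌈Real.sqrt (n / y) * Z ^ 8⌉₊ : ℝ) := ⟨_, rfl⟩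
  rw [← hmd] at hm ⊢
  have hk : (⌈2 * L⌉₊ : ℝ) ≤ 2 * L + 1 := (Nat.ceil_lt_add_one (by linarith)).le
  have hs0 : 0 ≤ Real.sqrt (n / y) := Real.sqrt_nonneg _
  have hm0 : 0 ≤ m := by rw [hmd]; positivity
  -- the square root
  have hs : Real.sqrt (n / y) ≤ n ^ ((1 - g + δ) / 2) := by
    rw [Real.sqrt_le_left (by positivity)]
    rw [← Real.rpow_natCast, ← Real.rpow_mul hn0.le, div_le_iff₀ hy0]
    calc n = n ^ ((1 - g + δ) / 2 * ((2 : ℕ) : ℝ)) * n ^ (g - δ) := by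
          rw [← Real.rpow_add hn0]
          conv_lhs => rw [← Real.rpow_one n]
          congr 1
          push_cast
          ring
      _ ≤ _ := mul_le_mul_of_nonneg_left hy1 (by positivity)
  have h1 : 2 * (m + (⌈2 * L⌉₊ : ℝ) * m) ≤ n ^ ((1 - g) / 2 + ε) / 2 := by
    have e1 : 2 * (m + (⌈2 * L⌉₊ : ℝ) * m) ≤ 2 * (m + (2 * L + 1) * m) := by
      have := mul_le_mul_of_nonneg_right hk hm0
      linarith
    have e2 : 2 * (m + (2 * L + 1) * m) = 4 * (L + 1) * m := by ring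
    have e3 : 4 * (L + 1) * m ≤ 4 * (L + 1) * (2 * (Real.sqrt (n / y) * Z ^ 8)) :=
      mul_le_mul_of_nonneg_left hm (by positivity)
    have e4 : 4 * (L + 1) * (2 * (Real.sqrt (n / y) * Z ^ 8)) =
      8 * (L + 1) * (Real.sqrt (n / y) * Z ^ 8) := by ring
    have e5 : 8 * (L + 1) ≤ Z / 2 := by nlinarith
    have e6 : 8 * (L + 1) * (Real.sqrt (n / y) * Z ^ 8) ≤ Z / 2 * (Real.sqrt (n / y) * Z ^ 8) :=
      mul_le_mul_of_nonneg_right e5 (by positivity)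
    have e7 : Z / 2 * (Real.sqrt (n / y) * Z ^ 8) = Real.sqrt (n / y) * Z ^ 9 / 2 := by ring
    have e8 : Real.sqrt (n / y) * Z ^ 9 ≤ n ^ ((1 - g) / 2 + ε) := by
      calc Real.sqrt (n / y) * Z ^ 9 ≤ n ^ ((1 - g + δ) / 2) * Z ^ 9 :=
            mul_le_mul_of_nonneg_right hs (by positivity)
        _ = n ^ ((1 - g + δ) / 2 + δ * ((9 : ℕ) : ℝ)) := by
            rw [hZ, ← Real.rpow_natCast, ← Real.rpow_mul hn0.le, ← Real.rpow_add hn0]
        _ ≤ _ := by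
            apply Real.rpow_le_rpow_of_exponent_le hn
            push_cast
            linarith
    linarith
  have h2 : 984 * L ^ 2 * (y / L ^ 8) ≤ n ^ ((1 - g) / 2 + ε) / 2 := by
    have e1 : 984 * L ^ 2 * (y / L ^ 8) = 984 / L ^ 6 * y := by
      field_simp
    have e2 : 984 / L ^ 6 ≤ 1 := by
      rw [div_le_one (by positivity)]
      calc (984 : ℝ) ≤ 32 ^ 6 := by norm_num
        _ ≤ L ^ 6 := pow_le_pow_left₀ (by norm_num) hL 6
    have e3 : 984 / L ^ 6 * y ≤ 1 * y := mul_le_mul_of_nonneg_right e2 hy0.le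
    have e4 : 2 ≤ Z := by nlinarith
    have e5 : 2 * y ≤ Z * n ^ (g + δ) := mul_le_mul e4 hy2 hy0.le (by linarith)
    have e6 : Z * n ^ (g + δ) ≤ n ^ ((1 - g) / 2 + ε) := by
      rw [hZ, ← Real.rpow_add hn0]
      apply Real.rpow_le_rpow_of_exponent_le hn
      linarith
    linarith
  linarith

end Sq

/-- upper bound of the diameter for a sequence of weight functions -/
theorem upper_seq {g γ : ℝ} (hg0 : 0 < g) (hg3 : g < 1 / 3) (w : ℕ → ℝ → ℝ) (gam : ℕ → ℤ → ℝ)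
    (y : ℕ → ℝ)
    (hy : ∀ δ : ℝ, 0 < δ → ∀ᶠ n : ℕ in atTop, (n : ℝ) ^ (g - δ) ≤ y n ∧ y n ≤ (n : ℝ) ^ (g + δ))
    (hlv : ∀ᶠ n : ℕ in atTop, Lvs (w n) (gam n) n (y n) (KL (Real.log n)))
    (hP : ∀ᶠ n : ℕ in atTop, Par γ n (Real.log n ^ 8) (y n))
    (hth : ∀ᶠ n : ℕ in atTop, ∀ θ : ℝ, Real.log n ^ 8 / y n ≤ θ → θ ≤ 5 * Real.log n →
      ∀ u u' : ℝ, u ≤ Pool.Agent.W842.RST.lev n θ →
        Pool.Agent.W842.RST.lev n (11 / 10 * θ) < u' → w n u' ≤ 1 / (n : ℝ) ^ 6 * w n u)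
    {ε : ℝ} (hε : 0 < ε) :
    Tendsto (fun n : ℕ => avgw (w n) n (fun T => (T.diam : ℝ) ≤ (n : ℝ) ^ ((1 - g) / 2 + ε)))
      atTop (𝓝 1) := by
  obtain ⟨δ, hδ, hδ1, hδ2, hδ3⟩ : ∃ δ : ℝ, 0 < δ ∧ 4 * δ ≤ g ∧ 3 * g + 27 * δ ≤ 1 ∧
      10 * δ ≤ ε := by
    refine ⟨min (min (g / 4) ((1 - 3 * g) / 27)) (ε / 10),
      lt_min (lt_min (by linarith) (by linarith)) (by linarith), ?_, ?_, ?_⟩
    · have := (min_le_left (min (g / 4) ((1 - 3 * g) / 27)) (ε / 10)).trans (min_le_left _ _)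
      linarith
    · have := (min_le_left (min (g / 4) ((1 - 3 * g) / 27)) (ε / 10)).trans (min_le_right _ _)
      linarith
    · have := min_le_right (min (g / 4) ((1 - 3 * g) / 27)) (ε / 10)
      linarith
  have hlog : Tendsto (fun n : ℕ => Real.log n) atTop atTop :=
    Real.tendsto_log_atTop.comp (tendsto_natCast_atTop_atTop (R := ℝ))
  have hbig := hlog.eventually (big_eventually hδ)
  have hlim : Tendsto (fun n : ℕ => 1 - 40 / Real.log n) atTop (𝓝 1) := by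
    have h4 := hlog.const_div_atTop 40
    simpa using (tendsto_const_nhds (x := (1 : ℝ))).sub h4
  refine tendsto_of_tendsto_of_tendsto_of_le_of_le' hlim tendsto_const_nhds ?_ ?_
  · filter_upwards [hbig, hy δ hδ, hlv, hP, hth, eventually_ge_atTop 2] with n HB hyn H HP Hth hn
    have hn1 : (1 : ℝ) ≤ n := by
      have : 1 ≤ n := by omega
      exact_mod_cast this
    have hn0 : (0 : ℝ) < n := by linarith
    have hZ : Real.exp (δ * Real.log n) = (n : ℝ) ^ δ := by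
      rw [Real.rpow_def_of_pos hn0, mul_comm]
    have hy0 := HP.y_pos
    have hZy : Real.exp (δ * Real.log n) ≤ y n := by
      rw [hZ]
      refine le_trans ?_ hyn.1
      exact Real.rpow_le_rpow_of_exponent_le hn1 (by linarith)
    have hZn : (y n) ^ 3 * Real.exp (δ * Real.log n) ^ 24 ≤ n := by
      rw [hZ]
      calc (y n) ^ 3 * ((n : ℝ) ^ δ) ^ 24 ≤ ((n : ℝ) ^ (g + δ)) ^ 3 * ((n : ℝ) ^ δ) ^ 24 := by
            apply mul_le_mul_of_nonneg_right _ (by positivity)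
            exact pow_le_pow_left₀ hy0.le hyn.2 3
        _ = (n : ℝ) ^ (3 * g + 27 * δ) := by
            rw [← Real.rpow_natCast, ← Real.rpow_mul hn0.le, ← Real.rpow_natCast (_ ^ δ),
              ← Real.rpow_mul hn0.le, ← Real.rpow_add hn0]
            congr 1
            push_cast
            ring
        _ ≤ (n : ℝ) ^ (1 : ℝ) := Real.rpow_le_rpow_of_exponent_le hn1 hδ2
        _ = n := Real.rpow_one _
    have hOk := prm_ok hn H HB hZy hZn
    have hOk2 := prm_ok2 hn H HB hZy hZn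
    have hL := HB.hL
    have key := hOk.final (γ := γ) (x := Real.log n ^ 8) (k1 := kk n (y n) _)
      (N₀ := nn n (y n) _) HP hOk2 Hth (k := ⌈2 * Real.log n⌉₊) (Nat.le_ceil _)
    refine le_trans key ?_
    apply avgw_mono H.wpos H.wmeas
    intro T _ hT
    refine le_trans hT ?_
    have hLZ : Real.log n ^ 2 ≤ Real.exp (δ * Real.log n) := by
      refine le_trans ?_ HB.h1
      apply pow_le_pow_right₀ _ (by norm_num)
      have : (1 : ℝ) ≤ 10 ^ 40 := by norm_num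
      linarith
    have h32 : 32 ≤ Real.log n := by
      have : (32 : ℝ) ≤ 10 ^ 40 := by norm_num
      linarith
    exact Sq.num hn1 h32 hLZ hδ hZ hy0 HP.y_le hg3 hδ3 hyn.1 hyn.2
  · filter_upwards [hlv] with n H
    exact avgw_le_one H.wpos H.wmeas _

end

end Pool.Agent.TH972.U
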