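import Pool.Agent.TH972.U.SoDef
import Pool.Agent.TH972.U.Count

/-!
# Annealed exploration bound
-/

set_option autoImplicit false
set_option linter.unusedSectionVars false

namespace Pool.Agent.TH972.U

open Finset MeasureTheory Pool.Agent.W842.RST Pool.Agent.TH972

noncomputable section

variable {n : ℕ}

namespace SoAnn

/-- the edges touching `S` -/
def tch (S : Finset (Fin n)) : Set (Sym2 (Fin n)) := {e | ∃ a ∈ S, a ∈ e}

theorem tch_mono {S T : Finset (Fin n)} (h : S ⊆ T) : tch S ⊆ tch T := by
  rintro e ⟨a, ha, hae⟩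
  exact ⟨a, h ha, hae⟩

theorem dep_mono {F : Ev n → ℝ} {A B : Set (Sym2 (Fin n))} (h : A ⊆ B) (hF : DependsOn F A) :
    DependsOn F B := fun _ _ hU => hF fun e he => hU e (h he)

theorem dep_mul {F G : Ev n → ℝ} {A : Set (Sym2 (Fin n))} (hF : DependsOn F A)
    (hG : DependsOn G A) : DependsOn (fun U => F U * G U) A := fun U U' hU => by
  show F U * G U = F U' * G U'
  rw [hF hU, hG hU]

/-- the event that the reached set is `C` depends on the edges touching `C` -/
theorem dep_C (pb : ℝ) (A F C : Finset (Fin n)) :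
    DependsOn (fun U : Ev n => ind (rch pb U A F = C)) (tch C) := by
  have key : ∀ U U' : Ev n, (∀ e ∈ tch C, U e = U' e) → rch pb U A F = C → rch pb U' A F = C := by
    intro U U' hU h
    rw [← h]
    apply Rch.loc
    intro a ha b _
    rw [h] at ha
    rw [hU s(a, b) ⟨a, ha, Sym2.mem_mk_left a b⟩]
  intro U U' hU
  show ind (rch pb U A F = C) = ind (rch pb U' A F = C)
  congr 1
  apply propext
  exact ⟨key U U' hU, key U' U fun e he => (hU e he).symm⟩

/-- the size of the reached set inside the complement of `S` depends on the other edges -/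
theorem dep_small (pb : ℝ) (s0 : ℕ) (S : Finset (Fin n)) {w : Fin n} (hw : w ∉ S) :
    DependsOn (fun U : Ev n => ind ((rch pb U {w} (univ \ S)).card < s0)) (tch S)ᶜ := by
  intro U U' hU
  have e : rch pb U {w} (univ \ S) = rch pb U' {w} (univ \ S) := by
    apply (Rch.loc pb _).symm
    intro x hx y hy
    have hxS : x ∉ S := by
      rcases mem_union.1 (rch_subset pb U _ _ hx) with h2 | h2
      · rw [mem_singleton] at h2
        rw [h2]; exact hw
      · exact (mem_sdiff.1 h2).2
    have hyS : y ∉ S := (mem_sdiff.1 hy).2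
    rw [hU s(x, y) (by
      rintro ⟨z, hz, hz'⟩
      rw [Sym2.mem_iff] at hz'
      rcases hz' with rfl | rfl
      · exact hxS hz
      · exact hyS hz)]
  show ind ((rch pb U {w} (univ \ S)).card < s0) = ind ((rch pb U' {w} (univ \ S)).card < s0)
  rw [e]

theorem bm_C (pb : ℝ) (A F C : Finset (Fin n)) : BM (fun U : Ev n => ind (rch pb U A F = C)) :=
  BM_lvl {pb} fun U U' hU => by rw [rch_lvl pb A F hU]

theorem bm_small (pb : ℝ) (s0 : ℕ) (A F : Finset (Fin n)) :
    BM (fun U : Ev n => ind ((rch pb U A F).card < s0)) :=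
  BM_lvl {pb} fun U U' hU => by rw [rch_lvl pb A F hU]

/-- decomposition over the value of the reached set -/
theorem decomp (pb : ℝ) (s0 : ℕ) (A F : Finset (Fin n)) (Φ : Finset (Fin n) → ℝ) (U : Ev n) :
    ind ((rch pb U A F).card < s0) * Φ (rch pb U A F) =
      ∑ C ∈ univ.filter (fun C : Finset (Fin n) => C.card < s0), ind (rch pb U A F = C) * Φ C := by
  by_cases h : (rch pb U A F).card < s0
  · rw [ind_true h, Finset.sum_eq_single_of_mem (rch pb U A F)
      (Finset.mem_filter.2 ⟨Finset.mem_univ _, h⟩), ind_true rfl]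
    intro C _ hC
    rw [ind_false (fun h => hC h.symm), zero_mul]
  · rw [ind_false h, zero_mul]
    symm
    refine Finset.sum_eq_zero fun C hC => ?_
    rw [ind_false, zero_mul]
    intro h'
    rw [h'] at h
    exact h (Finset.mem_filter.1 hC).2

variable {h : Finset (Fin n) → Fin n → Fin n → Ev n → ℝ}

theorem vq_succ (pb : ℝ) (s0 : ℕ) (U : Ev n) (j : ℕ) (S : Finset (Fin n)) (x : Fin n) :
    vq h pb s0 U (j + 1) S x = ∑ w ∈ univ \ S, h S x w U *
      ∑ C ∈ univ.filter (fun C : Finset (Fin n) => C.card < s0),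
        ind (rch pb U {w} (univ \ S) = C) * vq h pb s0 U j (S ∪ C) w := by
  show ∑ w ∈ univ \ S, h S x w U * ind ((rch pb U {w} (univ \ S)).card < s0) *
      vq h pb s0 U j (S ∪ rch pb U {w} (univ \ S)) w = _
  refine Finset.sum_congr rfl fun w _ => ?_
  rw [mul_assoc, decomp pb s0 {w} (univ \ S) (fun C => vq h pb s0 U j (S ∪ C) w) U]

theorem vq_bm (H : ExitH h) (pb : ℝ) (s0 : ℕ) (j : ℕ) : ∀ (S : Finset (Fin n)) (x : Fin n),
    BM (fun U => vq h pb s0 U j S x) := by
  induction j with
  | zero =>
    intro S x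
    exact BM.const 1
  | succ j ih =>
    intro S x
    simp only [vq_succ]
    refine BM.sum _ fun w hw => ?_
    refine (H.bm S x w (mem_sdiff.1 hw).2).mul (BM.sum _ fun C _ => ?_)
    exact (bm_C pb {w} (univ \ S) C).mul (ih (S ∪ C) w)

theorem main (H : ExitH h) {pb q : ℝ} {s0 X : ℕ} (hq0 : 0 ≤ q)
    (hq : ∀ (w : Fin n) (F : Finset (Fin n)), w ∉ F → n ≤ F.card + X →
      Ex (fun U : Ev n => ind ((rch pb U {w} F).card < s0)) ≤ q) (j : ℕ) :
    ∀ (S : Finset (Fin n)) (x : Fin n) (G : Ev n → ℝ), S.card + (j + 1) * s0 + 1 ≤ X →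
      BM G → (∀ U, 0 ≤ G U) → DependsOn G (tch S) →
      Ex (fun U => G U * vq h pb s0 U j S x) ≤ q ^ j * Ex G := by
  induction j with
  | zero =>
    intro S x G _ _ _ _
    rw [pow_zero, one_mul]
    refine le_of_eq (Ex_congr fun U => ?_)
    show G U * 1 = G U
    rw [mul_one]
  | succ j ih =>
    intro S x G hS hG hG0 hGd
    -- expand
    have e1 : Ex (fun U => G U * vq h pb s0 U (j + 1) S x) =
        ∑ w ∈ univ \ S, ∑ C ∈ univ.filter (fun C : Finset (Fin n) => C.card < s0),
          Ex (fun U => G U * h S x w U * ind (rch pb U {w} (univ \ S) = C) *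
            vq h pb s0 U j (S ∪ C) w) := by
      have hbm : ∀ w ∈ univ \ S, ∀ C : Finset (Fin n),
          BM (fun U => G U * h S x w U * ind (rch pb U {w} (univ \ S) = C) *
            vq h pb s0 U j (S ∪ C) w) := fun w hw C =>
        ((hG.mul (H.bm S x w (mem_sdiff.1 hw).2)).mul (bm_C pb {w} (univ \ S) C)).mul
          (vq_bm H pb s0 j (S ∪ C) w)
      have e2 : ∀ w ∈ univ \ S, ∑ C ∈ univ.filter (fun C : Finset (Fin n) => C.card < s0),
          Ex (fun U => G U * h S x w U * ind (rch pb U {w} (univ \ S) = C) *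
            vq h pb s0 U j (S ∪ C) w) =
          Ex (fun U => ∑ C ∈ univ.filter (fun C : Finset (Fin n) => C.card < s0),
            G U * h S x w U * ind (rch pb U {w} (univ \ S) = C) *
            vq h pb s0 U j (S ∪ C) w) := fun w hw =>
        (Ex_sum _ (fun C _ => hbm w hw C)).symm
      rw [Finset.sum_congr rfl e2, ← Ex_sum _ (fun w hw => BM.sum _ (fun C _ => hbm w hw C))]
      refine Ex_congr fun U => ?_
      rw [vq_succ, Finset.mul_sum]
      refine Finset.sum_congr rfl fun w _ => ?_
      rw [Finset.mul_sum, Finset.mul_sum]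
      refine Finset.sum_congr rfl fun C _ => ?_
      ring
    rw [e1]
    -- the bound for one `w`
    have h1 : ∀ w ∈ univ \ S, ∑ C ∈ univ.filter (fun C : Finset (Fin n) => C.card < s0),
          Ex (fun U => G U * h S x w U * ind (rch pb U {w} (univ \ S) = C) *
            vq h pb s0 U j (S ∪ C) w) ≤ q ^ (j + 1) * Ex (fun U => G U * h S x w U) := by
      intro w hw
      have hwS : w ∉ S := (mem_sdiff.1 hw).2
      have hb := H.bm S x w hwS
      have h2 : ∀ C ∈ univ.filter (fun C : Finset (Fin n) => C.card < s0),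
          Ex (fun U => G U * h S x w U * ind (rch pb U {w} (univ \ S) = C) *
            vq h pb s0 U j (S ∪ C) w) ≤
          q ^ j * Ex (fun U => G U * h S x w U * ind (rch pb U {w} (univ \ S) = C)) := by
        intro C hC
        have hCc : C.card < s0 := (Finset.mem_filter.1 hC).2
        refine ih (S ∪ C) w _ ?_ ((hG.mul hb).mul (bm_C pb {w} (univ \ S) C)) ?_ ?_
        · have := Finset.card_union_le S C
          have e : (j + 1 + 1) * s0 = (j + 1) * s0 + s0 := by ring
          rw [e] at hS
          omega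
        · intro U
          exact mul_nonneg (mul_nonneg (hG0 U) (H.nonneg S x w U)) (ind_nonneg _)
        · refine dep_mul (dep_mul ?_ ?_) ?_
          · exact dep_mono (tch_mono Finset.subset_union_left) hGd
          · exact dep_mono (tch_mono Finset.subset_union_left) (H.loc S x w)
          · exact dep_mono (tch_mono Finset.subset_union_right) (dep_C pb {w} (univ \ S) C)
      refine (Finset.sum_le_sum h2).trans ?_
      rw [← Finset.mul_sum, ← Ex_sum _ (fun C _ => (hG.mul hb).mul (bm_C pb {w} (univ \ S) C))]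
      have e3 : Ex (fun U => ∑ C ∈ univ.filter (fun C : Finset (Fin n) => C.card < s0),
          G U * h S x w U * ind (rch pb U {w} (univ \ S) = C)) =
          Ex (fun U => (G U * h S x w U) * ind ((rch pb U {w} (univ \ S)).card < s0)) := by
        refine Ex_congr fun U => ?_
        have h3 := decomp pb s0 {w} (univ \ S) (fun _ => 1) U
        simp only [mul_one] at h3
        rw [h3, Finset.mul_sum]
      rw [e3, Ex_mul_of_dependsOn (tch S) (dep_mul hGd (H.loc S x w)) (dep_small pb s0 S hwS)]
      have h4 : Ex (fun U : Ev n => ind ((rch pb U {w} (univ \ S)).card < s0)) ≤ q := by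
        have h5 := hq w ((univ \ S).erase w) (notMem_erase w _) (by
          rw [Finset.card_erase_of_mem hw, Finset.card_sdiff_of_subset (Finset.subset_univ _),
            Finset.card_univ, Fintype.card_fin]
          omega)
        refine le_trans (le_of_eq (Ex_congr fun U => ?_)) h5
        have e4 : rch pb U {w} (univ \ S) = rch pb U {w} ((univ \ S).erase w) := by
          have e5 : ({w} : Finset (Fin n)) ∪ (univ \ S).erase w = {w} ∪ (univ \ S) := by
            ext z
            simp only [mem_union, mem_singleton, mem_erase]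
            tauto
          unfold rch
          rw [e5]
        rw [e4]
      have h6 : 0 ≤ Ex (fun U => G U * h S x w U) :=
        Ex_nonneg fun U => mul_nonneg (hG0 U) (H.nonneg S x w U)
      calc q ^ j * (Ex (fun U => G U * h S x w U) *
            Ex (fun U : Ev n => ind ((rch pb U {w} (univ \ S)).card < s0))) ≤
            q ^ j * (Ex (fun U => G U * h S x w U) * q) :=
            mul_le_mul_of_nonneg_left (mul_le_mul_of_nonneg_left h4 h6) (pow_nonneg hq0 j)
        _ = q ^ (j + 1) * Ex (fun U => G U * h S x w U) := by ring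
    refine (Finset.sum_le_sum h1).trans ?_
    rw [← Finset.mul_sum, ← Ex_sum _ (fun w hw => hG.mul (H.bm S x w (mem_sdiff.1 hw).2))]
    refine mul_le_mul_of_nonneg_left ?_ (pow_nonneg hq0 _)
    refine Ex_mono (BM.sum _ fun w hw => hG.mul (H.bm S x w (mem_sdiff.1 hw).2)) hG fun U => ?_
    rw [← Finset.mul_sum]
    have := H.sum_le S x U
    have h7 := hG0 U
    nlinarith

end SoAnn

open SoAnn in
/-- the annealed bound -/
theorem vis_ann {h : Finset (Fin n) → Fin n → Fin n → Ev n → ℝ} (H : ExitH h) {pb q : ℝ}
    {s0 X : ℕ} (hq0 : 0 ≤ q)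
    (hq : ∀ (w : Fin n) (F : Finset (Fin n)), w ∉ F → n ≤ F.card + X →
      Ex (fun U : Ev n => ind ((rch pb U {w} F).card < s0)) ≤ q)
    (j : ℕ) (hj : (j + 2) * s0 + 1 ≤ X) (x : Fin n) :
    Ex (fun U : Ev n => ind ((cmp (GU U pb) x).card < s0) *
      vq h pb s0 U j (cmp (GU U pb) x) x) ≤ q ^ j := by
  have e1 : Ex (fun U : Ev n => ind ((cmp (GU U pb) x).card < s0) *
      vq h pb s0 U j (cmp (GU U pb) x) x) =
      ∑ C ∈ univ.filter (fun C : Finset (Fin n) => C.card < s0),
        Ex (fun U => ind (rch pb U {x} (univ.erase x) = C) * vq h pb s0 U j C x) := by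
    rw [← Ex_sum _ (fun C _ => (bm_C pb {x} (univ.erase x) C).mul (vq_bm H pb s0 j C x))]
    refine Ex_congr fun U => ?_
    rw [← rch_cmp]
    exact decomp pb s0 {x} (univ.erase x) (fun C => vq h pb s0 U j C x) U
  rw [e1]
  have h1 : ∀ C ∈ univ.filter (fun C : Finset (Fin n) => C.card < s0),
      Ex (fun U => ind (rch pb U {x} (univ.erase x) = C) * vq h pb s0 U j C x) ≤
        q ^ j * Ex (fun U => ind (rch pb U {x} (univ.erase x) = C)) := by
    intro C hC
    have hCc : C.card < s0 := (Finset.mem_filter.1 hC).2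
    refine main H hq0 hq j C x _ ?_ (bm_C pb {x} (univ.erase x) C) (fun U => ind_nonneg _)
      (dep_C pb {x} (univ.erase x) C)
    have e : (j + 2) * s0 = (j + 1) * s0 + s0 := by ring
    rw [e] at hj
    omega
  refine (Finset.sum_le_sum h1).trans ?_
  rw [← Finset.mul_sum, ← Ex_sum _ (fun C _ => bm_C pb {x} (univ.erase x) C)]
  have h2 : Ex (fun U : Ev n => ∑ C ∈ univ.filter (fun C : Finset (Fin n) => C.card < s0),
      ind (rch pb U {x} (univ.erase x) = C)) ≤ 1 := by
    rw [← Ex_const (n := n) 1]
    refine Ex_mono (BM.sum _ fun C _ => bm_C pb {x} (univ.erase x) C) (BM.const 1) fun U => ?_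
    have h3 := decomp pb s0 {x} (univ.erase x) (fun _ => 1) U
    simp only [mul_one] at h3
    rw [← h3]
    exact ind_le_one _
  exact mul_le_of_le_one_right (pow_nonneg hq0 j) h2

namespace SoAnn

section exit

variable {V : Type} [Fintype V] [DecidableEq V]

theorem exitP_eq {κ : Sym2 V → ℝ} (hκ : ∀ e, 0 < κ e) {S : Finset V} (hS : (univ \ S).Nonempty)
    (x w : V) : exitP κ S x w =
      ∑ u ∈ S, grn (exN κ hκ (univ \ S) hS) (univ \ S) x u * Kc κ u w := by
  unfold exitP
  rw [dif_pos ⟨hκ, hS⟩]

theorem exitP_zero (κ : Sym2 V → ℝ) {S : Finset V} (hS : ¬ (univ \ S).Nonempty) (x w : V) :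
    exitP κ S x w = 0 := by
  unfold exitP
  rw [dif_neg fun h => hS h.2]

theorem exitP_nonneg {κ : Sym2 V → ℝ} (hκ : ∀ e, 0 < κ e) (S : Finset V) (x w : V) :
    0 ≤ exitP κ S x w := by
  by_cases hS : (univ \ S).Nonempty
  · rw [exitP_eq hκ hS]
    exact Finset.sum_nonneg fun u _ => mul_nonneg (grn_nonneg _ _ _ _)
      (Kc_nonneg (fun e => (hκ e).le) u w)
  · rw [exitP_zero κ hS]

theorem exitP_sum {κ : Sym2 V → ℝ} (hκ : ∀ e, 0 < κ e) (S : Finset V) (x : V) :
    ∑ w ∈ univ \ S, exitP κ S x w ≤ 1 := by
  by_cases hS : (univ \ S).Nonempty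
  · set A := univ \ S with hA
    set N := exN κ hκ A hS with hN
    have hNκ : N.κ = κ := rfl
    have hNk : ∀ v, v ∉ A → N.k v = 0 := fun v hv => if_neg hv
    set f : V → ℝ := fun v => ∑ w ∈ A, ∑ u ∈ S, grn N A v u * Kc κ u w with hf
    have hSA : ∀ u, u ∈ S → u ∉ A := fun u hu hu' => (mem_sdiff.1 hu').2 hu
    have hAS : ∀ u, u ∉ A → u ∈ S := fun u hu => by
      by_contra h
      exact hu (mem_sdiff.2 ⟨mem_univ u, h⟩)
    have hfx : ∑ w ∈ A, exitP κ S x w = f x := by
      rw [hf]
      exact Finset.sum_congr rfl fun w _ => exitP_eq hκ hS x w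
    rw [hfx]
    have hf0 : ∀ v ∈ A, f v = 0 := by
      intro v hv
      rw [hf]
      refine Finset.sum_eq_zero fun w _ => Finset.sum_eq_zero fun u _ => ?_
      rw [grn_left N u hv, zero_mul]
    have h1 := max_pr N A (fun v => f v - (if v ∈ A then 0 else 1))
      (fun v hv => by rw [hf0 v hv, if_pos hv, sub_zero]) (fun v hv => by
        apply le_of_eq
        have hv' := hAS v hv
        have e1 : (cs N.κ v + N.k v) * f v = ∑ w ∈ A, Kc κ v w + ∑ z, Kc κ v z * f z := by
          have e2 : (cs N.κ v + N.k v) * f v = ∑ w ∈ A, ∑ u ∈ S,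
              ((if v = u then Kc κ u w else 0) + ∑ z, Kc κ v z * (grn N A z u * Kc κ u w)) := by
            rw [hf]
            simp only
            rw [Finset.mul_sum]
            refine Finset.sum_congr rfl fun w _ => ?_
            rw [Finset.mul_sum]
            refine Finset.sum_congr rfl fun u hu => ?_
            rw [← mul_assoc, grn_eq N hv (hSA u hu), add_mul, Finset.sum_mul]
            congr 1
            · split_ifs <;> ring
            · refine Finset.sum_congr rfl fun z _ => ?_
              rw [hNκ]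
              ring
          rw [e2]
          simp only [Finset.sum_add_distrib]
          congr 1
          · refine Finset.sum_congr rfl fun w _ => ?_
            rw [Finset.sum_ite_eq, if_pos hv']
          · have e3 : ∀ z, Kc κ v z * f z =
                ∑ w ∈ A, ∑ u ∈ S, Kc κ v z * (grn N A z u * Kc κ u w) := by
              intro z
              rw [hf]
              simp only [Finset.mul_sum]
            symm
            rw [Finset.sum_congr rfl fun z _ => e3 z, Finset.sum_comm]
            refine Finset.sum_congr rfl fun w _ => ?_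
            rw [Finset.sum_comm]
        have e4 : ∑ z, Kc N.κ v z * (f z - (if z ∈ A then 0 else 1)) =
            ∑ z, Kc κ v z * f z - (cs κ v - ∑ w ∈ A, Kc κ v w) := by
          have e5 : ∑ w ∈ A, Kc κ v w = ∑ z, if z ∈ A then Kc κ v z else 0 := by
            rw [Finset.sum_ite_mem, Finset.univ_inter]
          unfold cs
          rw [e5, ← Finset.sum_sub_distrib, ← Finset.sum_sub_distrib]
          refine Finset.sum_congr rfl fun z _ => ?_
          rw [hNκ]
          split_ifs <;> ring
        rw [mul_sub, e1, e4, if_neg hv, hNk v hv, hNκ]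
        ring) x
    by_cases hx : x ∈ A
    · rw [hf0 x hx]
      norm_num
    · rw [if_neg hx] at h1
      linarith
  · rw [Finset.not_nonempty_iff_eq_empty] at hS
    rw [hS, Finset.sum_empty]
    norm_num

/-- the exit distribution depends on the edges at `S` -/
theorem exitP_loc {κ κ' : Sym2 V → ℝ} (hκ : ∀ e, 0 < κ e) (hκ' : ∀ e, 0 < κ' e) (S : Finset V)
    (h : ∀ e : Sym2 V, (∃ a ∈ S, a ∈ e) → κ e = κ' e) (x w : V) :
    exitP κ S x w = exitP κ' S x w := by
  by_cases hS : (univ \ S).Nonempty
  · rw [exitP_eq hκ hS, exitP_eq hκ' hS]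
    have hK : ∀ u ∈ S, ∀ z, Kc κ u z = Kc κ' u z := by
      intro u hu z
      unfold Kc
      split_ifs
      · rfl
      · exact h _ ⟨u, hu, Sym2.mem_mk_left u z⟩
    have hlap : lap (exN κ hκ (univ \ S) hS) (univ \ S) =
        lap (exN κ' hκ' (univ \ S) hS) (univ \ S) := by
      ext a b
      unfold lap
      by_cases hab : a ∈ univ \ S ∨ b ∈ univ \ S
      · rw [if_pos hab, if_pos hab]
      · rw [if_neg hab, if_neg hab]
        have ha : a ∈ S := by
          by_contra ha
          exact hab (Or.inl (mem_sdiff.2 ⟨mem_univ a, ha⟩))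
        have hcs : cs κ a = cs κ' a := by
          unfold cs
          exact Finset.sum_congr rfl fun z _ => hK a ha z
        show (if a = b then cs κ a + (exN κ hκ (univ \ S) hS).k a else - Kc κ a b) =
          (if a = b then cs κ' a + (exN κ' hκ' (univ \ S) hS).k a else - Kc κ' a b)
        rw [hcs, hK a ha b]
        rfl
    refine Finset.sum_congr rfl fun u hu => ?_
    rw [hK u hu w]
    congr 1
    unfold grn
    rw [hlap]
  · rw [exitP_zero κ hS, exitP_zero κ' hS]

end exit

theorem meas_det {M : Ev n → Matrix (Fin n) (Fin n) ℝ} (h : ∀ i j, Measurable fun U => M U i j) :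
    Measurable fun U => (M U).det := by
  simp only [Matrix.det_apply]
  refine Finset.measurable_sum _ fun σ _ => ?_
  refine Measurable.const_smul ?_ _
  exact Finset.measurable_prod _ fun i _ => h _ _

theorem meas_inv {M : Ev n → Matrix (Fin n) (Fin n) ℝ} (h : ∀ i j, Measurable fun U => M U i j)
    (a b : Fin n) : Measurable fun U => (M U)⁻¹ a b := by
  simp only [Matrix.inv_def, Matrix.smul_apply, smul_eq_mul, Ring.inverse_eq_inv']
  refine (meas_det h).inv.mul ?_
  simp only [Matrix.adjugate_apply]
  refine meas_det fun i j => ?_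
  by_cases hi : i = b
  · subst hi
    simp only [Matrix.updateRow_self]
    exact measurable_const
  · simp only [Matrix.updateRow_ne hi]
    exact h i j

theorem wA_pos (y u : ℝ) : 0 < wA n y u := Real.exp_pos _

theorem wA_meas (y : ℝ) (e : Sym2 (Fin n)) : Measurable fun U : Ev n => wA n y (U e) := by
  have h1 : Measurable fun U : Ev n => U e := measurable_pi_apply e
  have h2 : Measurable fun U : Ev n => -(y * ((n : ℝ) * U e - 1)) :=
    (((h1.const_mul (n : ℝ)).sub measurable_const).const_mul y).neg
  exact Real.measurable_exp.comp h2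

theorem Kc_meas (y : ℝ) (a b : Fin n) :
    Measurable fun U : Ev n => Kc (fun e => wA n y (U e)) a b := by
  unfold Kc
  by_cases hab : a = b
  · simp only [if_pos hab]
    exact measurable_const
  · simp only [if_neg hab]
    exact wA_meas y _

theorem exitP_meas (y : ℝ) (S : Finset (Fin n)) (x w : Fin n) :
    Measurable fun U : Ev n => exitP (fun e => wA n y (U e)) S x w := by
  by_cases hS : (univ \ S).Nonempty
  · have e1 : (fun U : Ev n => exitP (fun e => wA n y (U e)) S x w) = fun U : Ev n =>
        ∑ u ∈ S, grn (exN (fun e => wA n y (U e)) (fun e => wA_pos y (U e)) (univ \ S) hS)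
          (univ \ S) x u * Kc (fun e => wA n y (U e)) u w := by
      funext U
      exact exitP_eq (fun e => wA_pos y (U e)) hS x w
    rw [e1]
    refine Finset.measurable_sum _ fun u _ => Measurable.mul ?_ (Kc_meas y u w)
    unfold grn
    by_cases hxu : x ∈ univ \ S ∨ u ∈ univ \ S
    · simp only [if_pos hxu]
      exact measurable_const
    · simp only [if_neg hxu]
      refine meas_inv (fun i j => ?_) x u
      unfold lap
      by_cases hij : i ∈ univ \ S ∨ j ∈ univ \ S
      · simp only [if_pos hij]
        exact measurable_const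
      · simp only [if_neg hij]
        by_cases h' : i = j
        · simp only [if_pos h']
          refine Measurable.add ?_ measurable_const
          show Measurable fun U : Ev n => cs (fun e => wA n y (U e)) i
          unfold cs
          exact Finset.measurable_sum _ fun z _ => Kc_meas y i z
        · simp only [if_neg h']
          exact (Kc_meas y i j).neg
  · have e1 : (fun U : Ev n => exitP (fun e => wA n y (U e)) S x w) = fun _ => 0 := by
      funext U
      exact exitP_zero _ hS x w
    rw [e1]
    exact measurable_const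

end SoAnn

open SoAnn in
/-- the exit distributions of the environment -/
theorem exit_ok (y : ℝ) : ExitH (n := n)
    (fun S x w U => exitP (fun e => wA n y (U e)) S x w) where
  nonneg := fun S x w U => exitP_nonneg (fun e => wA_pos y (U e)) S x w
  sum_le := fun S x U => exitP_sum (fun e => wA_pos y (U e)) S x
  loc := fun S x w U U' hU => exitP_loc (fun e => wA_pos y (U e)) (fun e => wA_pos y (U' e)) S
    (fun e he => by rw [hU e he]) x w
  bm := fun S x w hw => ⟨exitP_meas y S x w, 1, fun U => by
    have h0 := exitP_nonneg (fun e => wA_pos (n := n) y (U e)) S x w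
    rw [abs_of_nonneg h0]
    refine le_trans ?_ (exitP_sum (fun e => wA_pos (n := n) y (U e)) S x)
    exact Finset.single_le_sum (f := fun w => exitP (fun e => wA n y (U e)) S x w)
      (fun w _ => exitP_nonneg (fun e => wA_pos y (U e)) S x w)
      (mem_sdiff.2 ⟨mem_univ w, hw⟩)⟩

end

end Pool.Agent.TH972.U
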