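import Pool.Agent.TH972.U.VDef
import Pool.Agent.TH972.U.ADef
import Pool.Agent.TH972.U.XDef

/-!
# The soft regime (definitions)
-/

set_option autoImplicit false
set_option linter.unusedSectionVars false

namespace Pool.Agent.TH972.U

open Finset MeasureTheory Pool.Agent.W842.RST Pool.Agent.TH972

noncomputable section

section exit

variable {V : Type} [Fintype V] [DecidableEq V]

/-- killing at rate one on `A` -/
def exN (κ : Sym2 V → ℝ) (hκ : ∀ e, 0 < κ e) (A : Finset V) (hA : A.Nonempty) : Net V where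
  κ := κ
  k := fun x => if x ∈ A then 1 else 0
  κ_pos := hκ
  k_nonneg := fun x => by split_ifs <;> norm_num
  k_pos := by
    obtain ⟨v, hv⟩ := hA
    exact ⟨v, by rw [if_pos hv]; norm_num⟩

open Classical in
/-- the probability that the walk from `x ∈ S` leaves `S` at `w` -/
def exitP (κ : Sym2 V → ℝ) (S : Finset V) (x w : V) : ℝ :=
  if h : (∀ e, 0 < κ e) ∧ (univ \ S).Nonempty then
    ∑ u ∈ S, grn (exN κ h.1 (univ \ S) h.2) (univ \ S) x u * Kc κ u w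
  else 0

end exit

variable {n : ℕ}

/-- the walk discovers `j` small clusters outside `S` -/
def vq (h : Finset (Fin n) → Fin n → Fin n → Ev n → ℝ) (pb : ℝ) (s0 : ℕ) (U : Ev n) :
    ℕ → Finset (Fin n) → Fin n → ℝ
  | 0, _, _ => 1
  | (j + 1), S, x => ∑ w ∈ univ \ S, h S x w U *
      ind ((rch pb U {w} (univ \ S)).card < s0) *
      vq h pb s0 U j (S ∪ rch pb U {w} (univ \ S)) w

/-- exit distributions which depend on the edges at `S` only -/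
structure ExitH (h : Finset (Fin n) → Fin n → Fin n → Ev n → ℝ) : Prop where
  nonneg : ∀ S x w U, 0 ≤ h S x w U
  sum_le : ∀ S x U, ∑ w ∈ univ \ S, h S x w U ≤ 1
  loc : ∀ S x w, DependsOn (h S x w) {e : Sym2 (Fin n) | ∃ a ∈ S, a ∈ e}
  bm : ∀ S x w, w ∉ S → BM (h S x w)

def gbS (n : ℕ) (Z : ℝ) : ℝ := 1 / (Real.log n ^ 3 * Z)
def pbS (n : ℕ) (Z : ℝ) : ℝ := (1 - gbS n Z) / n
def pnS (n : ℕ) (Z : ℝ) : ℝ := (1 + 1 / Z) / n
def s0S (n : ℕ) (Z : ℝ) : ℕ := ⌊1 / (6400 * gbS n Z ^ 2)⌋₊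
def smaxS (n : ℕ) (Z : ℝ) : ℝ := 16 * Real.log n / gbS n Z ^ 2
def vminS (n : ℕ) (Z : ℝ) : ℝ := n * gbS n Z / (2 * 10 ^ 8)
def ΔS (n : ℕ) : ℝ := 15000 * Real.log n ^ 5
def jS (n : ℕ) (Z : ℝ) : ℕ := ⌈Real.log n ^ 5 * Z⌉₊
def KhS (n : ℕ) : ℝ := Real.log n ^ 5

/-- good environments -/
structure EnvS (n : ℕ) (Z y : ℝ) (U : Ev n) : Prop where
  hsm : ∀ v, ((cmp (GU U (pbS n Z)) v).card : ℝ) ≤ smaxS n Z
  hv : vminS n Z ≤ (gd (GU U (pbS n Z)) (s0S n Z)).card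
  iso : Iso (pbS n Z) (pnS n Z) (s0S n Z) U
  rob : Rob (pbS n Z) (pnS n Z) (s0S n Z) U
  deg : ∀ S ∈ blks (GU U (pbS n Z)) (s0S n Z),
    ∑ S' ∈ (blks (GU U (pbS n Z)) (s0S n Z)).erase S, nU (pnS n Z) U S S' ≤ ΔS n
  kh : ∀ v, ∑ w ∈ univ.erase v, (if pbS n Z < U s(v, w) then wA n y (U s(v, w)) else 0) ≤ KhS n
  vis : ∀ v, (cmp (GU U (pbS n Z)) v).card < s0S n Z →
    vq (fun S x w U => exitP (fun e => wA n y (U e)) S x w) (pbS n Z) (s0S n Z) U (jS n Z)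
      (cmp (GU U (pbS n Z)) v) v ≤ 1 / n

end

end Pool.Agent.TH972.U
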