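import Pool.Agent.TH972.U.SoVis
import Pool.Agent.TH972.U.MkBlk
import Pool.Agent.TH972.U.Len
import Pool.Agent.TH972.U.BlkPN
import Pool.Agent.TH972.U.BallGen
import Pool.Agent.TH972.U.DiamG

/-!
# Balls and diameter in a good environment, soft regime
(job RSTRE V-SoDet of helper972, written by helper615)
-/

set_option autoImplicit false
set_option linter.unusedVariables false
set_option linter.unusedSectionVars false

namespace Pool.Agent.TH972.U

open Finset MeasureTheory Pool.Agent.W842.RST Pool.Agent.TH972 Filter Topology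

noncomputable section

namespace SoDet

/-! ### numbers -/

/-- the numerical facts: `L = log n`, `exp δ = n ^ (ε / 100)` -/
structure Nm (n : ℕ) (δ L : ℝ) : Prop where
  hL : L = Real.log n
  hnL : (n : ℝ) = Real.exp L
  hL1 : 10 ^ 12 ≤ L
  hLδ : L ^ 60 ≤ Real.exp δ
  hδL : 10000 * δ ≤ L

section num

variable {n : ℕ} {δ L : ℝ}

theorem Nm.L1 (H : Nm n δ L) : 1 ≤ L := le_trans (by norm_num) H.hL1

theorem Nm.L0 (H : Nm n δ L) : 0 < L := lt_of_lt_of_le one_pos H.L1

theorem Nm.n0 (H : Nm n δ L) : (0 : ℝ) < n := by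
  rw [H.hnL]
  exact Real.exp_pos _

theorem Nm.n1 (H : Nm n δ L) : 1 ≤ n := by
  have h := H.n0
  have h1 : 0 < n := by exact_mod_cast h
  omega

theorem Nm.LW (H : Nm n δ L) {a : ℕ} (ha : a ≤ 60) : L ^ a ≤ Real.exp δ :=
  (pow_le_pow_right₀ H.L1 ha).trans H.hLδ

theorem Nm.Lδ (H : Nm n δ L) : L ≤ Real.exp δ := by
  have h := H.LW (a := 1) (by norm_num)
  rwa [pow_one] at h

theorem Nm.δ0 (H : Nm n δ L) : 0 ≤ δ := by
  have h := H.LW (a := 0) (by norm_num)
  rw [pow_zero] at h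
  rw [← Real.exp_zero] at h
  exact Real.exp_le_exp.1 h

/-- large constants -/
theorem Nm.cW (H : Nm n δ L) {c : ℝ} (hc : c ≤ 10 ^ 12) : c ≤ Real.exp δ :=
  (hc.trans H.hL1).trans H.Lδ

theorem e17 : 1 + 2 * Real.exp 17 ≤ 10 ^ 12 := by
  have h1 : Real.exp 17 = Real.exp 1 ^ 17 := by
    rw [← Real.exp_nat_mul]
    norm_num
  have h2 : Real.exp 1 ≤ 3 := by
    have := Real.exp_one_lt_d9
    linarith
  have h3 : Real.exp 1 ^ 17 ≤ 3 ^ 17 := pow_le_pow_left₀ (Real.exp_pos _).le h2 17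
  rw [h1]
  norm_num at h3
  linarith

end num

/-- union bound -/
theorem PF_ex {V : Type} [Fintype V] [DecidableEq V] (N : Net V)
    (A : V → (V → Option V) → Prop) : PF N (fun f => ∃ x, A x f) ≤ ∑ x, PF N (A x) := by
  classical
  have h1 : ∀ x, PF N (A x) = EF N ∅ (fun f => if A x f then 1 else 0) := fun x =>
    UnGen.PF_eq N (A x)
  rw [UnGen.PF_eq N (fun f => ∃ x, A x f), Finset.sum_congr rfl fun x _ => h1 x, ← EF_sum]
  refine EF_mono N ∅ fun f _ => ?_
  have h0 : ∀ x ∈ (univ : Finset V), (0 : ℝ) ≤ if A x f then 1 else 0 := fun x _ => by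
    split_ifs <;> norm_num
  by_cases h : ∃ x, A x f
  · obtain ⟨x, hx⟩ := h
    have h2 := Finset.single_le_sum h0 (mem_univ x)
    rw [if_pos ⟨x, hx⟩]
    simp only [if_pos hx] at h2
    exact h2
  · rw [if_neg h]
    exact Finset.sum_nonneg h0

/-- the Dirichlet principle on a closed set -/
theorem grn_low {V : Type} [Fintype V] [DecidableEq V] (N : Net V) {S : Finset V} {v : V}
    (hv : v ∈ S) {smax Kh : ℝ} (hS : (S.card : ℝ) ≤ smax) (hk : ∀ x, N.k x ≤ 1)
    (hKh0 : 0 ≤ Kh) (hKh : ∀ u ∈ S, ∑ w ∈ univ \ S, Kc N.κ u w ≤ Kh) :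
    1 ≤ smax * (Kh + 1) * grn N ∅ v v := by
  classical
  obtain ⟨f, hf⟩ : ∃ f : V → ℝ, f = fun x => if x ∈ S then 1 else 0 := ⟨_, rfl⟩
  have hf1 : ∀ x ∈ S, f x = 1 := fun x hx => by rw [hf]; exact if_pos hx
  have hf0 : ∀ x, x ∉ S → f x = 0 := fun x hx => by rw [hf]; exact if_neg hx
  have hKn := Grn.Kc_nn N
  obtain ⟨T, hT⟩ : ∃ T : ℝ, T = ∑ u ∈ S, ∑ w ∈ univ \ S, Kc N.κ u w := ⟨_, rfl⟩
  have hTle : T ≤ S.card * Kh := by
    rw [hT]
    calc ∑ u ∈ S, ∑ w ∈ univ \ S, Kc N.κ u w ≤ ∑ u ∈ S, Kh := Finset.sum_le_sum hKh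
      _ = S.card * Kh := by rw [Finset.sum_const, nsmul_eq_mul]
  have hsplit : ∀ g : V → ℝ, ∑ x, g x = ∑ x ∈ univ \ S, g x + ∑ x ∈ S, g x := fun g =>
    (Finset.sum_sdiff (Finset.subset_univ S)).symm
  have hen : En N.κ f ≤ T := by
    unfold En
    have e1 : ∀ x ∈ S, ∑ y, Kc N.κ x y * (f x - f y) ^ 2 = ∑ y ∈ univ \ S, Kc N.κ x y := by
      intro x hx
      rw [hsplit]
      have h2 : ∑ y ∈ S, Kc N.κ x y * (f x - f y) ^ 2 = 0 :=
        Finset.sum_eq_zero fun y hy => by rw [hf1 x hx, hf1 y hy]; ring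
      rw [h2, add_zero]
      refine Finset.sum_congr rfl fun y hy => ?_
      rw [hf1 x hx, hf0 y (Finset.mem_sdiff.1 hy).2]
      ring
    have e2 : ∀ x ∈ univ \ S, ∑ y, Kc N.κ x y * (f x - f y) ^ 2 = ∑ y ∈ S, Kc N.κ x y := by
      intro x hx
      have hx' := (Finset.mem_sdiff.1 hx).2
      rw [hsplit]
      have h2 : ∑ y ∈ univ \ S, Kc N.κ x y * (f x - f y) ^ 2 = 0 :=
        Finset.sum_eq_zero fun y hy => by
          rw [hf0 x hx', hf0 y (Finset.mem_sdiff.1 hy).2]; ring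
      rw [h2, zero_add]
      refine Finset.sum_congr rfl fun y hy => ?_
      rw [hf0 x hx', hf1 y hy]
      ring
    rw [hsplit, Finset.sum_congr rfl e1, Finset.sum_congr rfl e2, Finset.sum_comm]
    have e3 : ∑ y ∈ S, ∑ x ∈ univ \ S, Kc N.κ x y = T := by
      rw [hT]
      refine Finset.sum_congr rfl fun y _ => Finset.sum_congr rfl fun x _ => ?_
      exact Kc_symm N.κ x y
    rw [e3, ← hT]
    linarith
  have hkill : ∑ x, N.k x * f x ^ 2 ≤ S.card := by
    rw [hsplit]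
    have h1 : ∑ x ∈ univ \ S, N.k x * f x ^ 2 = 0 :=
      Finset.sum_eq_zero fun x hx => by rw [hf0 x (Finset.mem_sdiff.1 hx).2]; ring
    rw [h1, zero_add]
    calc ∑ x ∈ S, N.k x * f x ^ 2 ≤ ∑ x ∈ S, (1 : ℝ) := Finset.sum_le_sum fun x hx => by
          rw [hf1 x hx]
          have := hk x
          linarith
      _ = S.card := by rw [Finset.sum_const, nsmul_eq_mul, mul_one]
  have hEK : EK N f ≤ smax * (Kh + 1) := by
    unfold EK
    have h3 : (S.card : ℝ) * (Kh + 1) ≤ smax * (Kh + 1) :=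
      mul_le_mul_of_nonneg_right hS (by linarith)
    linarith
  have h6 := grn_var1 N (D := ∅) f (fun x hx => absurd hx (notMem_empty x)) v
  rw [hf1 v hv, one_pow] at h6
  have h8 : 0 < grn N ∅ v v := grn_pos N (notMem_empty v)
  calc (1 : ℝ) ≤ grn N ∅ v v * EK N f := h6
    _ ≤ grn N ∅ v v * (smax * (Kh + 1)) := mul_le_mul_of_nonneg_left hEK h8.le
    _ = _ := by ring

theorem Nm.cmul {n : ℕ} {δ L : ℝ} (H : Nm n δ L) {c x y : ℝ} (hc : c ≤ 10 ^ 12)
    (h : x + δ ≤ y) : c * Real.exp x ≤ Real.exp y := by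
  calc c * Real.exp x ≤ Real.exp δ * Real.exp x :=
        mul_le_mul_of_nonneg_right (H.cW hc) (Real.exp_pos _).le
    _ = Real.exp (δ + x) := (Real.exp_add _ _).symm
    _ ≤ Real.exp y := Real.exp_le_exp.2 (by linarith)

theorem half_pow {j : ℕ} {L : ℝ} (hL : 0 ≤ L) (hj : 4 * L ≤ j) :
    ((1 : ℝ) / 2) ^ j ≤ Real.exp (-(2 * L)) := by
  have h1 : (1 / 2 : ℝ) = Real.exp (-Real.log 2) := by
    rw [Real.exp_neg, Real.exp_log two_pos]
    norm_num
  rw [h1, ← Real.exp_nat_mul]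
  apply Real.exp_le_exp.2
  have h2 := Real.log_two_gt_d9
  have h3 : 4 * L * (1 / 2) ≤ j * Real.log 2 := mul_le_mul hj (by linarith) (by norm_num)
    (Nat.cast_nonneg j)
  linarith

theorem ball_mono {V : Type} [Fintype V] [DecidableEq V] (G : SimpleGraph V) (v : V)
    {m m' : ℕ} (h : m ≤ m') : ball G v m ⊆ ball G v m' := by
  classical
  intro u hu
  unfold ball at hu ⊢
  rw [Finset.mem_filter] at hu ⊢
  obtain ⟨h1, p, hp⟩ := hu
  exact ⟨h1, p, hp.trans h⟩

/-- the main estimates for a network with a Poincare inequality -/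
theorem core {n : ℕ} {δ L : ℝ} (H : Nm n δ L) (P : PN (Fin n)) {g a Kh l : ℝ}
    (ht1 : Real.exp (400 * δ) ≤ P.t) (ht2 : P.t ≤ Real.exp (402 * δ))
    (hM1 : Real.exp (L - 101 * δ) ≤ P.M.card)
    (hg : ∀ (k : ℝ) (hk : 0 < k), k = 1 / P.t → ∀ y ∈ P.M, grn (P.net k hk) ∅ y y ≤ g)
    (hg1 : 1 ≤ g) (hg2 : g ≤ Real.exp (202 * δ))
    (ha : ∀ (k : ℝ) (hk : 0 < k), k ≤ 1 → ∀ v, 1 ≤ a * grn (P.net k hk) ∅ v v)
    (ha0 : 0 < a) (ha2 : a ≤ Real.exp (202 * δ))
    (hKh : ∀ m ∈ P.M, ∑ v ∈ univ \ P.M, Kc P.κ m v ≤ Kh) (hKh0 : 0 ≤ Kh)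
    (hKh2 : Kh ≤ Real.exp δ)
    (hvis : ∀ (k : ℝ) (hk : 0 < k) (v : Fin n), v ∉ P.M → ∑ u ∈ univ \ P.M,
      grn (P.net k hk) P.M v u / grn (P.net k hk) P.M u u ≤ l)
    (hl0 : 0 ≤ l) (hl : l ≤ Real.exp (303 * δ)) :
    (1 - 1 / L) * n ≤ ∑ v, GG P.κ (fun T =>
      Real.exp (L - 6000 * δ) ≤ (ball T v ⌊Real.exp (L / 2 - 500 * δ)⌋₊).card) ∧
    1 - 1 / L ≤ GG P.κ (fun T => Real.exp (L / 2 - 3000 * δ) ≤ T.diam) := by
  classical
  have hδ0 := H.δ0
  have hδL := H.hδL
  have hL0 := H.L0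
  have hL1 := H.L1
  have hn0 := H.n0
  have hexp : ∀ x : ℝ, 0 < Real.exp x := Real.exp_pos
  have hMn : (P.M.card : ℝ) ≤ Real.exp L := by
    rw [← H.hnL]
    have h : P.M.card ≤ Fintype.card (Fin n) := Finset.card_le_univ _
    rw [Fintype.card_fin] at h
    exact_mod_cast h
  have hMpos : (0 : ℝ) < P.M.card := lt_of_lt_of_le (hexp _) hM1
  -- the killing rates
  obtain ⟨k2, hk2e⟩ : ∃ k2 : ℝ, k2 = 1 / P.t := ⟨_, rfl⟩
  have hk2 : 0 < k2 := by
    rw [hk2e]
    exact one_div_pos.2 P.t_pos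
  have hk2u : k2 ≤ Real.exp (-(400 * δ)) := by
    rw [hk2e, Real.exp_neg, ← one_div]
    exact one_div_le_one_div_of_le (hexp _) ht1
  have hk2l : Real.exp (-(402 * δ)) ≤ k2 := by
    rw [hk2e, Real.exp_neg, ← one_div]
    exact one_div_le_one_div_of_le P.t_pos ht2
  have hk21 : k2 ≤ 1 := hk2u.trans (Real.exp_le_one_iff.2 (by linarith))
  have ht : k2 * P.t ≤ 1 := by
    rw [hk2e, one_div, inv_mul_cancel₀ P.t_pos.ne']
  obtain ⟨q, hq⟩ : ∃ q : ℝ, q = k2 / P.M.card := ⟨_, rfl⟩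
  have hq0 : 0 < q := by
    rw [hq]
    exact div_pos hk2 hMpos
  have hql : Real.exp (-(402 * δ) - L) ≤ q := by
    rw [hq, Real.exp_sub]
    exact div_le_div₀ hk2.le hk2l hMpos hMn
  have hqu : q ≤ Real.exp (-(400 * δ) - (L - 101 * δ)) := by
    rw [hq, Real.exp_sub]
    exact div_le_div₀ (hexp _).le hk2u (hexp _) hM1
  have hsl : Real.exp (-(201 * δ) - L / 2) ≤ Real.sqrt q := by
    have h := Real.sqrt_le_sqrt hql
    rw [← Real.exp_half] at h
    refine le_trans (le_of_eq ?_) h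
    congr 1
    ring
  have hsu : Real.sqrt q ≤ Real.exp (-(149 * δ) - L / 2) := by
    have h := Real.sqrt_le_sqrt hqu
    rw [← Real.exp_half] at h
    refine h.trans (Real.exp_le_exp.2 ?_)
    linarith
  obtain ⟨σ, hσe⟩ : ∃ σ : ℝ, σ = Real.exp (1100 * δ) := ⟨_, rfl⟩
  have hσ0 : 0 < σ := by rw [hσe]; exact hexp _
  have hσ1 : 1 ≤ σ := by
    rw [hσe]
    exact Real.one_le_exp (by linarith)
  obtain ⟨k1, hk1e⟩ : ∃ k1 : ℝ, k1 = σ * Real.sqrt q := ⟨_, rfl⟩
  have hk1 : 0 < k1 := by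
    rw [hk1e]
    exact mul_pos hσ0 (Real.sqrt_pos.2 hq0)
  have hk1l : Real.exp (899 * δ - L / 2) ≤ k1 := by
    rw [hk1e, hσe]
    calc Real.exp (899 * δ - L / 2) = Real.exp (1100 * δ) * Real.exp (-(201 * δ) - L / 2) := by
          rw [← Real.exp_add]
          congr 1
          ring
      _ ≤ _ := mul_le_mul_of_nonneg_left hsl (hexp _).le
  have hk1u : k1 ≤ Real.exp (951 * δ - L / 2) := by
    rw [hk1e, hσe]
    calc Real.exp (1100 * δ) * Real.sqrt q ≤
          Real.exp (1100 * δ) * Real.exp (-(149 * δ) - L / 2) :=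
          mul_le_mul_of_nonneg_left hsu (hexp _).le
      _ = _ := by
          rw [← Real.exp_add]
          congr 1
          ring
  have hk : k1 ^ 2 * P.M.card = σ ^ 2 * k2 := by
    rw [hk1e, mul_pow, Real.sq_sqrt hq0.le, hq]
    field_simp
  have hk12 : k1 * σ ≤ k2 := by
    calc k1 * σ ≤ Real.exp (951 * δ - L / 2) * Real.exp (1100 * δ) := by
          rw [hσe]
          exact mul_le_mul_of_nonneg_right hk1u (hexp _).le
      _ = Real.exp (951 * δ - L / 2 + 1100 * δ) := (Real.exp_add _ _).symm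
      _ ≤ Real.exp (-(402 * δ)) := Real.exp_le_exp.2 (by linarith)
      _ ≤ k2 := hk2l
  have hk11 : k1 ≤ 1 := hk1u.trans (Real.exp_le_one_iff.2 (by linarith))
  -- visits
  obtain ⟨A, hAe⟩ : ∃ A : ℝ, A = (a + Kh * l) / k1 + l := ⟨_, rfl⟩
  have hvisit : ∀ x, ∑ u, grn (P.net k1 hk1) ∅ x u / grn (P.net k1 hk1) ∅ u u ≤ A := by
    intro x
    rw [hAe]
    exact PN.visit_le P hk1 ha0.le hKh0 hl0 (fun m _ => ha k1 hk1 hk11 m) hKh (hvis k1 hk1) x
  have hA0 : 0 ≤ A := by
    rw [hAe]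
    have : 0 ≤ Kh * l := mul_nonneg hKh0 hl0
    positivity
  have hAu : A ≤ Real.exp (L / 2 - 593 * δ) := by
    have h1 : a + Kh * l ≤ Real.exp (305 * δ) := by
      have h2 : Kh * l ≤ Real.exp (304 * δ) := by
        calc Kh * l ≤ Real.exp δ * Real.exp (303 * δ) := mul_le_mul hKh2 hl hl0 (hexp _).le
          _ = Real.exp (304 * δ) := by
              rw [← Real.exp_add]
              congr 1
              ring
      have h3 : a ≤ Real.exp (304 * δ) := ha2.trans (Real.exp_le_exp.2 (by linarith))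
      have h4 := H.cmul (c := 2) (x := 304 * δ) (y := 305 * δ) (by norm_num) (by linarith)
      linarith
    have h2 : (a + Kh * l) / k1 ≤ Real.exp (L / 2 - 594 * δ) := by
      calc (a + Kh * l) / k1 ≤ Real.exp (305 * δ) / Real.exp (899 * δ - L / 2) :=
            div_le_div₀ (hexp _).le h1 (hexp _) hk1l
        _ = Real.exp (L / 2 - 594 * δ) := by
            rw [← Real.exp_sub]
            congr 1
            ring
    have h3 : l ≤ Real.exp (L / 2 - 594 * δ) := hl.trans (Real.exp_le_exp.2 (by linarith))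
    have h4 := H.cmul (c := 2) (x := L / 2 - 594 * δ) (y := L / 2 - 593 * δ) (by norm_num)
      (by linarith)
    rw [hAe]
    linarith
  -- lengths
  obtain ⟨j, hje⟩ : ∃ j : ℕ, j = ⌈4 * L⌉₊ := ⟨_, rfl⟩
  have hj1 : 4 * L ≤ j := by
    rw [hje]
    exact Nat.le_ceil _
  have hj2 : (j : ℝ) ≤ 5 * L := by
    have h := Nat.ceil_lt_add_one (show 0 ≤ 4 * L by positivity)
    rw [hje]
    linarith
  have hpow := half_pow hL0.le hj1
  have hj3 : 20 * L ≤ Real.exp δ := by
    have h := H.LW (a := 2) (by norm_num)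
    have h2 := H.hL1
    nlinarith
  obtain ⟨m, hme⟩ : ∃ m : ℕ, m = ⌈2 * A * j + 1⌉₊ := ⟨_, rfl⟩
  have hm1 : 2 * A * j + 1 ≤ m := by
    rw [hme]
    exact Nat.le_ceil _
  have hm2 : 2 * m ≤ ⌊Real.exp (L / 2 - 500 * δ)⌋₊ := by
    apply Nat.le_floor
    push_cast
    have h0 : (0 : ℝ) ≤ 2 * A * j + 1 := by positivity
    have h := Nat.ceil_lt_add_one h0
    rw [← hme] at h
    have h1 : A * j ≤ Real.exp (L / 2 - 593 * δ) * (5 * L) :=
      mul_le_mul hAu hj2 (Nat.cast_nonneg j) (hexp _).le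
    have h2 : 4 * (A * j) ≤ Real.exp (L / 2 - 592 * δ) := by
      calc 4 * (A * j) ≤ Real.exp (L / 2 - 593 * δ) * (20 * L) := by linarith
        _ ≤ Real.exp (L / 2 - 593 * δ) * Real.exp δ := mul_le_mul_of_nonneg_left hj3 (hexp _).le
        _ = Real.exp (L / 2 - 592 * δ) := by
            rw [← Real.exp_add]
            congr 1
            ring
    have h3 : (4 : ℝ) ≤ Real.exp (L / 2 - 592 * δ) := by
      have h4 := H.cW (c := 4) (by norm_num)
      exact h4.trans (Real.exp_le_exp.2 (by linarith))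
    have h5 := H.cmul (c := 2) (x := L / 2 - 592 * δ) (y := L / 2 - 500 * δ) (by norm_num)
      (by linarith)
    linarith
  have hlen : PF (P.net k1 hk1) (fun f => ∃ x, m < (anc f x).card) ≤ Real.exp (-L) := by
    refine (PF_ex (P.net k1 hk1) (fun x f => m < (anc f x).card)).trans ?_
    have h1 : ∀ x ∈ (univ : Finset (Fin n)), PF (P.net k1 hk1) (fun f => m < (anc f x).card) ≤
        Real.exp (-(2 * L)) := by
      intro x _
      refine le_trans ?_ ((len_tail (P.net k1 hk1) hvisit x j).trans hpow)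
      refine UnGen.PF_mono _ fun f hf => ?_
      have h2 : (m : ℝ) ≤ (anc f x).card := by exact_mod_cast hf.le
      linarith
    refine (Finset.sum_le_sum h1).trans ?_
    rw [Finset.sum_const, nsmul_eq_mul, Finset.card_univ, Fintype.card_fin, H.hnL,
      ← Real.exp_add]
    exact Real.exp_le_exp.2 (by linarith)
  -- the size of the ball
  obtain ⟨K, hKe⟩ : ∃ K : ℕ, K = ⌈g * σ ^ 5⌉₊ := ⟨_, rfl⟩
  have hK : g * σ ^ 5 ≤ K := by
    rw [hKe]
    exact Nat.le_ceil _
  have hσ5 : σ ^ 5 = Real.exp (5500 * δ) := by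
    rw [hσe, ← Real.exp_nat_mul]
    congr 1
    push_cast
    ring
  have hKσ : Real.exp (5500 * δ) ≤ K := by
    refine le_trans ?_ hK
    rw [hσ5]
    exact le_mul_of_one_le_left (hexp _).le hg1
  have hKu : (K : ℝ) ≤ Real.exp (5703 * δ) := by
    have h0 : (0 : ℝ) ≤ g * σ ^ 5 := by positivity
    have h := Nat.ceil_lt_add_one h0
    rw [← hKe] at h
    have h1 : g * σ ^ 5 ≤ Real.exp (5702 * δ) := by
      rw [hσ5]
      calc g * Real.exp (5500 * δ) ≤ Real.exp (202 * δ) * Real.exp (5500 * δ) :=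
            mul_le_mul_of_nonneg_right hg2 (hexp _).le
        _ = _ := by
            rw [← Real.exp_add]
            congr 1
            ring
    have h2 : 1 ≤ Real.exp (5702 * δ) := Real.one_le_exp (by linarith)
    have h5 := H.cmul (c := 2) (x := 5702 * δ) (y := 5703 * δ) (by norm_num) (by linarith)
    linarith
  have hK2 : 2 ≤ K := by
    have h1 := H.cW (c := 2) (by norm_num)
    have h2 : Real.exp δ ≤ Real.exp (5500 * δ) := Real.exp_le_exp.2 (by linarith)
    have h3 : (2 : ℝ) ≤ K := by linarith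
    exact_mod_cast h3
  have hKpos : (0 : ℝ) < K := lt_of_lt_of_le (hexp _) hKσ
  have hball := PN.ball_gen H.n1 P hk1 hk2 ht hg1 (hg k2 hk2 hk2e) hσ1 hk hk12 K hK hK2 j m hlen
  -- errors
  have hB : 40 * L ≤ Real.exp δ := by
    have h := H.LW (a := 2) (by norm_num)
    have h2 := H.hL1
    nlinarith
  have hneg : Real.exp (-δ) ≤ 1 / (40 * L) := by
    rw [Real.exp_neg, ← one_div]
    exact one_div_le_one_div_of_le (by positivity) hB
  have her : erV σ K (k1 / k2) P.M.card j ≤ 1 / (2 * L) := by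
    have g1 : (1 + 2 * Real.exp 17) / Real.sqrt σ ≤ Real.exp (-δ) := by
      rw [div_le_iff₀ (Real.sqrt_pos.2 hσ0), hσe, ← Real.exp_half, ← Real.exp_add]
      refine (H.cW e17).trans (Real.exp_le_exp.2 (by linarith))
    have g2 : 1 / (K : ℝ) ≤ Real.exp (-δ) := by
      rw [Real.exp_neg, ← one_div]
      apply one_div_le_one_div_of_le (hexp _)
      exact le_trans (Real.exp_le_exp.2 (by linarith)) hKσ
    have g3 : 4 * (1 + Real.log K) / σ ≤ Real.exp (-δ) := by
      have h1 : Real.log K ≤ 5703 * δ := by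
        rw [Real.log_le_iff_le_exp hKpos]
        exact hKu
      rw [div_le_iff₀ hσ0, hσe, ← Real.exp_add]
      have h2 : 4 * (1 + Real.log K) ≤ 20 * L := by linarith
      exact h2.trans (hj3.trans (Real.exp_le_exp.2 (by linarith)))
    have g4 : j * (k1 / k2) ≤ Real.exp (-δ) := by
      have h1 : k1 / k2 ≤ Real.exp (951 * δ - L / 2) / Real.exp (-(402 * δ)) :=
        div_le_div₀ (hexp _).le hk1u (hexp _) hk2l
      rw [← Real.exp_sub] at h1
      have h2 : (j : ℝ) ≤ Real.exp δ := by linarith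
      calc j * (k1 / k2) ≤ Real.exp δ * Real.exp (951 * δ - L / 2 - -(402 * δ)) :=
            mul_le_mul h2 h1 (div_pos hk1 hk2).le (hexp _).le
        _ = Real.exp (δ + (951 * δ - L / 2 - -(402 * δ))) := (Real.exp_add _ _).symm
        _ ≤ Real.exp (-δ) := Real.exp_le_exp.2 (by linarith)
    have g5 : (1 / 2 : ℝ) ^ j * Real.sqrt P.M.card ≤ Real.exp (-δ) := by
      have h1 : Real.sqrt P.M.card ≤ Real.exp (L / 2) := by
        rw [Real.exp_half]
        exact Real.sqrt_le_sqrt hMn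
      calc (1 / 2 : ℝ) ^ j * Real.sqrt P.M.card ≤ Real.exp (-(2 * L)) * Real.exp (L / 2) :=
            mul_le_mul hpow h1 (Real.sqrt_nonneg _) (hexp _).le
        _ = Real.exp (-(2 * L) + L / 2) := (Real.exp_add _ _).symm
        _ ≤ Real.exp (-δ) := Real.exp_le_exp.2 (by linarith)
    unfold erV
    have h6 : (20 : ℝ) * (1 / (40 * L)) = 1 / (2 * L) := by
      field_simp
      norm_num
    linarith
  have hε' : Real.exp (-L) ≤ 1 / (2 * L) := by
    have h1 : Real.exp (-L) ≤ Real.exp (-δ) := Real.exp_le_exp.2 (by linarith)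
    have h2 : 1 / (40 * L) ≤ 1 / (2 * L) :=
      one_div_le_one_div_of_le (by positivity) (by linarith)
    linarith
  have hhalf : 1 / (2 * L) + 1 / (2 * L) = 1 / L := by
    field_simp
    norm_num
  refine ⟨?_, ?_⟩
  · calc (1 - 1 / L) * n ≤ (1 - Real.exp (-L) - erV σ K (k1 / k2) P.M.card j) * n :=
          mul_le_mul_of_nonneg_right (by linarith) hn0.le
      _ ≤ _ := hball
      _ ≤ _ := by
          refine Finset.sum_le_sum fun v _ => GG_mono P.κ_pos ?_
          intro T _ hT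
          have h1 : n < (ball T v (2 * m)).card * K :=
            (Nat.div_lt_iff_lt_mul (by omega)).1 hT
          have h2 : (n : ℝ) ≤ (ball T v (2 * m)).card * K := by exact_mod_cast h1.le
          have h3 : ((ball T v (2 * m)).card : ℝ) ≤
              (ball T v ⌊Real.exp (L / 2 - 500 * δ)⌋₊).card := by
            exact_mod_cast Finset.card_le_card (ball_mono T v hm2)
          refine le_trans ?_ h3
          rw [H.hnL] at h2
          have h4 : Real.exp L ≤ (ball T v (2 * m)).card * Real.exp (5703 * δ) :=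
            h2.trans (mul_le_mul_of_nonneg_left hKu (Nat.cast_nonneg _))
          have h5 : Real.exp (L - 5703 * δ) ≤ (ball T v (2 * m)).card := by
            rw [Real.exp_sub, div_le_iff₀ (hexp _)]
            exact h4
          exact le_trans (Real.exp_le_exp.2 (by linarith)) h5
  · have hd := PN.diam_gen H.n1 P hk1 hk2 ht hg1 (hg k2 hk2 hk2e) hσ1 hk hk12 ha0
      (ha k2 hk2 hk21)
    have h1 : Real.exp 17 / σ ≤ 1 / L := by
      rw [div_le_div_iff₀ hσ0 hL0, one_mul]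
      have h2 : Real.exp 17 ≤ Real.exp δ := by
        have h3 := H.cW e17
        have h4 := hexp 17
        linarith
      calc Real.exp 17 * L ≤ Real.exp δ * Real.exp δ :=
            mul_le_mul h2 H.Lδ hL0.le (hexp _).le
        _ = Real.exp (δ + δ) := (Real.exp_add _ _).symm
        _ ≤ σ := by
            rw [hσe]
            exact Real.exp_le_exp.2 (by linarith)
    have h2 : Real.exp (L / 2 - 2857 * δ) ≤ k2 / (g * σ * k1) / a := by
      rw [div_div]
      have h3 : g * σ * k1 * a ≤ Real.exp (2455 * δ - L / 2) := by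
        calc g * σ * k1 * a ≤ Real.exp (202 * δ) * Real.exp (1100 * δ) *
              Real.exp (951 * δ - L / 2) * Real.exp (202 * δ) := by
              rw [hσe]
              have hg0 : 0 ≤ g := by linarith
              refine mul_le_mul (mul_le_mul (mul_le_mul_of_nonneg_right hg2 (hexp _).le) hk1u
                hk1.le (by positivity)) ha2 ha0.le (by positivity)
          _ = _ := by
              rw [← Real.exp_add, ← Real.exp_add, ← Real.exp_add]
              congr 1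
              ring
      have hpos : 0 < g * σ * k1 * a := by
        have hg0 : 0 < g := by linarith
        positivity
      calc Real.exp (L / 2 - 2857 * δ) =
            Real.exp (-(402 * δ)) / Real.exp (2455 * δ - L / 2) := by
            rw [← Real.exp_sub]
            congr 1
            ring
        _ ≤ k2 / (g * σ * k1 * a) := div_le_div₀ hk2.le hk2l hpos h3
    refine le_trans (by linarith) (hd.trans (GG_mono P.κ_pos ?_))
    intro T _ hT
    have h4 := H.cmul (c := 2) (x := L / 2 - 3000 * δ) (y := L / 2 - 2857 * δ) (by norm_num)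
      (by linarith)
    have h5 : 1 ≤ Real.exp (L / 2 - 3000 * δ) := Real.one_le_exp (by linarith)
    linarith

/-! ### the environment -/

section env

variable {n : ℕ} {δ L : ℝ}

/-- eventually in `n` -/
theorem ev_nm {ε : ℝ} (hε : 0 < ε) (hε1 : ε ≤ 1 / 100) :
    ∀ᶠ n : ℕ in atTop, Nm n (ε / 100 * Real.log n) (Real.log n) := by
  have t1 : Tendsto (fun n : ℕ => Real.log (n : ℝ)) atTop atTop :=
    Real.tendsto_log_atTop.comp tendsto_natCast_atTop_atTop
  have h1 : ∀ᶠ x : ℝ in atTop, x ^ 60 ≤ Real.exp (ε / 100 * x) := by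
    have h := isLittleO_pow_exp_pos_mul_atTop (k := 60) (b := ε / 100) (by positivity)
    filter_upwards [h.bound one_pos, eventually_ge_atTop 0] with x hx hx0
    rw [one_mul, Real.norm_of_nonneg (by positivity), Real.norm_of_nonneg (Real.exp_pos _).le]
      at hx
    exact hx
  filter_upwards [t1.eventually h1, t1.eventually_ge_atTop ((10 : ℝ) ^ 12),
    eventually_ge_atTop 1] with n h2 h3 hn
  have hn0 : (0 : ℝ) < n := by exact_mod_cast hn
  refine ⟨rfl, (Real.exp_log hn0).symm, h3, h2, ?_⟩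
  have hL : 0 < Real.log n := lt_of_lt_of_le (by positivity) h3
  nlinarith

theorem npow (H : Nm n δ L) (c : ℝ) : (n : ℝ) ^ c = Real.exp (c * L) := by
  rw [Real.rpow_def_of_pos H.n0, ← H.hL, mul_comm]

theorem Zpos : 0 < Real.exp (100 * δ) := Real.exp_pos _

theorem Z1 (H : Nm n δ L) : 1 ≤ Real.exp (100 * δ) :=
  Real.one_le_exp (by have := H.δ0; linarith)

theorem Zsq : Real.exp (100 * δ) ^ 2 = Real.exp (200 * δ) := by
  rw [← Real.exp_nat_mul]
  congr 1
  push_cast
  ring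

theorem gb_eq (H : Nm n δ L) :
    gbS n (Real.exp (100 * δ)) = 1 / (L ^ 3 * Real.exp (100 * δ)) := by
  unfold gbS
  rw [← H.hL]

theorem gb_pos (H : Nm n δ L) : 0 < gbS n (Real.exp (100 * δ)) := by
  rw [gb_eq H]
  have := H.L0
  positivity

theorem smax_eq (H : Nm n δ L) :
    smaxS n (Real.exp (100 * δ)) = 16 * L ^ 7 * Real.exp (200 * δ) := by
  unfold smaxS
  rw [gb_eq H, ← H.hL, ← Zsq]
  have := H.L0
  have := Real.exp_pos (100 * δ)
  field_simp

theorem smax_lo (H : Nm n δ L) : Real.exp (200 * δ) ≤ smaxS n (Real.exp (100 * δ)) := by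
  rw [smax_eq H]
  have h : (1 : ℝ) ≤ L ^ 7 := one_le_pow₀ H.L1
  exact le_mul_of_one_le_left (Real.exp_pos _).le (by linarith)

/-- polynomial factors -/
theorem poly (H : Nm n δ L) {p : ℝ} {k : ℕ} (hk : k ≤ 60) (hp : p ≤ L ^ k) {c d : ℝ}
    (h : c + δ ≤ d) : p * Real.exp c ≤ Real.exp d := by
  calc p * Real.exp c ≤ Real.exp δ * Real.exp c :=
        mul_le_mul_of_nonneg_right (hp.trans (H.LW hk)) (Real.exp_pos _).le
    _ = Real.exp (δ + c) := (Real.exp_add _ _).symm
    _ ≤ Real.exp d := Real.exp_le_exp.2 (by linarith)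

theorem smax_hi (H : Nm n δ L) : smaxS n (Real.exp (100 * δ)) ≤ Real.exp (201 * δ) := by
  rw [smax_eq H]
  refine poly H (k := 8) (by norm_num) ?_ (by linarith)
  have h1 := H.hL1
  have h2 : 0 < L ^ 7 := pow_pos H.L0 7
  have h3 : (16 : ℝ) ≤ L := le_trans (by norm_num) h1
  calc 16 * L ^ 7 ≤ L * L ^ 7 := mul_le_mul_of_nonneg_right h3 h2.le
    _ = L ^ 8 := by ring

theorem s0_arg (H : Nm n δ L) : 1 / (6400 * gbS n (Real.exp (100 * δ)) ^ 2) =
    L ^ 6 / 6400 * Real.exp (200 * δ) := by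
  rw [gb_eq H, ← Zsq]
  have := H.L0
  have := Real.exp_pos (100 * δ)
  field_simp

theorem s0_one (H : Nm n δ L) : 1 ≤ s0S n (Real.exp (100 * δ)) := by
  unfold s0S
  apply Nat.le_floor
  rw [s0_arg H, Nat.cast_one]
  have h1 := H.hL1
  have h3 : L ≤ L ^ 6 := by
    calc L = L ^ 1 := (pow_one L).symm
      _ ≤ L ^ 6 := pow_le_pow_right₀ H.L1 (by norm_num)
  have h4 : (1 : ℝ) ≤ L ^ 6 / 6400 := by
    rw [le_div_iff₀ (by norm_num)]
    norm_num at h1
    linarith
  have h5 : 1 ≤ Real.exp (200 * δ) := Real.one_le_exp (by have := H.δ0; linarith)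
  nlinarith

theorem s0_hi (H : Nm n δ L) : (s0S n (Real.exp (100 * δ)) : ℝ) ≤ Real.exp (201 * δ) := by
  unfold s0S
  have h0 : 0 ≤ 1 / (6400 * gbS n (Real.exp (100 * δ)) ^ 2) := by
    have := gb_pos H
    positivity
  refine (Nat.floor_le h0).trans ?_
  rw [s0_arg H]
  refine poly H (k := 6) (by norm_num) ?_ (by linarith)
  have h2 : 0 < L ^ 6 := pow_pos H.L0 6
  linarith

theorem j_hi (H : Nm n δ L) :
    (jS n (Real.exp (100 * δ)) : ℝ) + 1 ≤ Real.exp (101 * δ) := by
  unfold jS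
  rw [← H.hL]
  have hL := H.L0
  have hZ := Z1 H
  have h := Nat.ceil_lt_add_one (show 0 ≤ L ^ 5 * Real.exp (100 * δ) by positivity)
  have h5 : (1 : ℝ) ≤ L ^ 5 := one_le_pow₀ H.L1
  have h6 : 1 ≤ L ^ 5 * Real.exp (100 * δ) := by nlinarith
  have h7 : 3 * L ^ 5 * Real.exp (100 * δ) ≤ Real.exp (101 * δ) := by
    refine poly H (k := 6) (by norm_num) ?_ (by linarith)
    have h1 := H.hL1
    have h3 : (3 : ℝ) ≤ L := le_trans (by norm_num) h1
    calc 3 * L ^ 5 ≤ L * L ^ 5 := mul_le_mul_of_nonneg_right h3 (by positivity)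
      _ = L ^ 6 := by ring
  linarith

theorem Kh_hi (H : Nm n δ L) : KhS n ≤ Real.exp δ := by
  unfold KhS
  rw [← H.hL]
  exact H.LW (by norm_num)

theorem Kh_nn (H : Nm n δ L) : 0 ≤ KhS n := by
  unfold KhS
  rw [← H.hL]
  have := H.L0
  positivity

theorem v_lo (H : Nm n δ L) : Real.exp (L - 101 * δ) ≤ vminS n (Real.exp (100 * δ)) := by
  unfold vminS
  rw [gb_eq H, H.hnL]
  have hL := H.L0
  have hZ := Real.exp_pos (100 * δ)
  have e : Real.exp L * (1 / (L ^ 3 * Real.exp (100 * δ))) / (2 * 10 ^ 8) =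
      Real.exp L / (2 * 10 ^ 8 * L ^ 3 * Real.exp (100 * δ)) := by
    field_simp
  rw [e, Real.exp_sub]
  apply div_le_div_of_nonneg_left (Real.exp_pos _).le (by positivity)
  refine poly H (k := 4) (by norm_num) ?_ (by linarith)
  have h1 := H.hL1
  have h3 : (2 * 10 ^ 8 : ℝ) ≤ L := le_trans (by norm_num) h1
  calc 2 * 10 ^ 8 * L ^ 3 ≤ L * L ^ 3 := mul_le_mul_of_nonneg_right h3 (by positivity)
    _ = L ^ 4 := by ring

theorem Δ_one (H : Nm n δ L) : 1 ≤ ΔS n := by
  unfold ΔS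
  rw [← H.hL]
  have h : (1 : ℝ) ≤ L ^ 5 := one_le_pow₀ H.L1
  linarith

/-- the constant of the Poincare inequality of the blocks -/
theorem C_hi (H : Nm n δ L) {cn : ℝ} (hcn0 : 0 < cn) (hcn : 1 / cn ≤ 3) :
    2 * smaxS n (Real.exp (100 * δ)) + 12 * ΔS n * (ΔS n * smaxS n (Real.exp (100 * δ)) +
      1 / cn) ≤ Real.exp (201 * δ) := by
  have hΔ := Δ_one H
  have hs : 1 ≤ smaxS n (Real.exp (100 * δ)) :=
    le_trans (Real.one_le_exp (by have := H.δ0; linarith)) (smax_lo H)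
  have h1 : 2 * smaxS n (Real.exp (100 * δ)) + 12 * ΔS n *
      (ΔS n * smaxS n (Real.exp (100 * δ)) + 1 / cn) ≤
      50 * ΔS n ^ 2 * smaxS n (Real.exp (100 * δ)) := by
    generalize smaxS n (Real.exp (100 * δ)) = s at hs ⊢
    generalize ΔS n = D at hΔ ⊢
    have h2 : 1 ≤ D ^ 2 := one_le_pow₀ hΔ
    have h3 : D ≤ D ^ 2 := by nlinarith
    have h4 : s ≤ D ^ 2 * s := le_mul_of_one_le_left (by linarith) h2
    have h5 : D ≤ D ^ 2 * s := by
      calc D ≤ D ^ 2 := h3
        _ ≤ D ^ 2 * s := le_mul_of_one_le_right (by positivity) hs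
    have h6 : 12 * D * (1 / cn) ≤ 12 * D * 3 := mul_le_mul_of_nonneg_left hcn (by linarith)
    nlinarith
  refine h1.trans ?_
  rw [smax_eq H]
  unfold ΔS
  rw [← H.hL]
  have e : 50 * (15000 * L ^ 5) ^ 2 * (16 * L ^ 7 * Real.exp (200 * δ)) =
      (180000000000 * L ^ 17) * Real.exp (200 * δ) := by ring
  rw [e]
  refine poly H (k := 18) (by norm_num) ?_ (by linarith)
  have hL1 := H.hL1
  have h3 : (180000000000 : ℝ) ≤ L := le_trans (by norm_num) hL1
  have hL := H.L0
  calc 180000000000 * L ^ 17 ≤ L * L ^ 17 := mul_le_mul_of_nonneg_right h3 (by positivity)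
    _ = L ^ 18 := by ring

theorem vq_congr {h h' : Finset (Fin n) → Fin n → Fin n → Ev n → ℝ} {pb : ℝ} {s0 : ℕ}
    {U : Ev n} (hh : ∀ S x w, h S x w U = h' S x w U) :
    ∀ (j : ℕ) (S : Finset (Fin n)) (x : Fin n), vq h pb s0 U j S x = vq h' pb s0 U j S x
  | 0, _, _ => rfl
  | (j + 1), S, x => by
      have h1 : vq h pb s0 U (j + 1) S x = ∑ w ∈ univ \ S, h S x w U *
          ind ((rch pb U {w} (univ \ S)).card < s0) *
          vq h pb s0 U j (S ∪ rch pb U {w} (univ \ S)) w := rfl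
      have h2 : vq h' pb s0 U (j + 1) S x = ∑ w ∈ univ \ S, h' S x w U *
          ind ((rch pb U {w} (univ \ S)).card < s0) *
          vq h' pb s0 U j (S ∪ rch pb U {w} (univ \ S)) w := rfl
      rw [h1, h2]
      refine Finset.sum_congr rfl fun w _ => ?_
      rw [hh, vq_congr hh j]

/-- a closed set -/
theorem close (U : Ev n) {pb y Kh : ℝ}
    (hkh : ∀ v, ∑ w ∈ univ.erase v, (if pb < U s(v, w) then wA n y (U s(v, w)) else 0) ≤ Kh)
    {S : Finset (Fin n)} (hS : ∀ u ∈ S, ∀ w, w ≠ u → U s(u, w) ≤ pb → w ∈ S) (u : Fin n)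
    (hu : u ∈ S) : ∑ w ∈ univ \ S, Kc (fun e => wA n y (U e)) u w ≤ Kh := by
  refine le_trans ?_ (hkh u)
  have hsub : univ \ S ⊆ univ.erase u := by
    intro w hw
    rw [Finset.mem_erase]
    refine ⟨?_, mem_univ w⟩
    rintro rfl
    exact (Finset.mem_sdiff.1 hw).2 hu
  have h0 : ∀ w, (0 : ℝ) ≤ if pb < U s(u, w) then wA n y (U s(u, w)) else 0 := by
    intro w
    unfold wA
    split_ifs
    · exact (Real.exp_pos _).le
    · exact le_rfl
  refine le_trans (Finset.sum_le_sum (g := fun w =>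
    if pb < U s(u, w) then wA n y (U s(u, w)) else 0) fun w hw => ?_)
    (Finset.sum_le_sum_of_subset_of_nonneg hsub fun w _ _ => h0 w)
  have hwS := (Finset.mem_sdiff.1 hw).2
  have hne : w ≠ u := by
    rintro rfl
    exact hwS hu
  have hlt : pb < U s(u, w) := by
    by_contra hcon
    exact hwS (hS u hu w hne (not_lt.1 hcon))
  unfold Kc
  rw [if_neg (Ne.symm hne), if_pos hlt]

theorem cmp_closed {U : Ev n} {pb : ℝ} {v u w : Fin n} (hu : u ∈ cmp (GU U pb) v)
    (hne : w ≠ u) (h : U s(u, w) ≤ pb) : w ∈ cmp (GU U pb) v := by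
  rw [Marks.mem_cmp] at hu ⊢
  exact hu.trans (SimpleGraph.Adj.reachable (GU_adj.2 ⟨h, Ne.symm hne⟩))

/-- a simple path of low level is not longer than the clusters -/
theorem tail {U : Ev n} {pb smax y : ℝ} (hn : 0 < (n : ℝ)) (hy : 0 < y) (hpb : n * pb ≤ 1)
    (hsm : ∀ v, ((cmp (GU U pb) v).card : ℝ) ≤ smax) (t : ℕ) (x : ℕ → Fin n)
    (hinj : Set.InjOn x (Set.Iic t)) (hlow : ∀ j < t, U s(x j, x (j + 1)) ≤ pb) :
    ∑ j ∈ range t, 1 / wA n y (U s(x j, x (j + 1))) ≤ smax := by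
  have hreach : ∀ j ≤ t, x j ∈ cmp (GU U pb) (x 0) := by
    intro j
    induction j with
    | zero =>
      intro _
      exact Marks.self_mem_cmp (x 0)
    | succ j ih =>
      intro hj
      refine cmp_closed (ih (by omega)) ?_ (hlow j (by omega))
      intro he
      have := hinj (show j + 1 ∈ Set.Iic t from hj) (show j ∈ Set.Iic t by
        show j ≤ t
        omega) he
      omega
  have hcard : t ≤ (cmp (GU U pb) (x 0)).card := by
    have h1 : ((range t).image x).card = t := by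
      rw [Finset.card_image_of_injOn, Finset.card_range]
      intro a ha b hb hab
      have ha' : a < t := by simpa using ha
      have hb' : b < t := by simpa using hb
      exact hinj (show a ∈ Set.Iic t from ha'.le) (show b ∈ Set.Iic t from hb'.le) hab
    calc t = ((range t).image x).card := h1.symm
      _ ≤ _ := by
          apply Finset.card_le_card
          intro z hz
          obtain ⟨j, hj, rfl⟩ := Finset.mem_image.1 hz
          exact hreach j (Finset.mem_range.1 hj).le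
  have h2 : ∑ j ∈ range t, 1 / wA n y (U s(x j, x (j + 1))) ≤ ∑ j ∈ range t, (1 : ℝ) := by
    refine Finset.sum_le_sum fun j hj => ?_
    have hj' := hlow j (Finset.mem_range.1 hj)
    unfold wA
    rw [div_le_one (Real.exp_pos _)]
    apply Real.one_le_exp
    have h3 : n * U s(x j, x (j + 1)) ≤ n * pb := mul_le_mul_of_nonneg_left hj' hn.le
    have h4 : y * (n * U s(x j, x (j + 1)) - 1) ≤ 0 :=
      mul_nonpos_of_nonneg_of_nonpos hy.le (by linarith)
    linarith
  refine h2.trans ?_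
  rw [Finset.sum_const, Finset.card_range, nsmul_eq_mul, mul_one]
  exact le_trans (by exact_mod_cast hcard) (hsm (x 0))

theorem marks_eq (U : Ev n) (pl pb : ℝ) (s0 : ℕ) :
    marks pl pb 1 s0 U = gd (GU U pb) s0 := by
  classical
  ext v
  rw [Marks.mem_gd]
  unfold marks
  rw [Finset.mem_filter]
  constructor
  · exact fun h => h.2.2
  · intro h
    refine ⟨mem_univ v, ?_, h⟩
    exact Finset.card_pos.2 ⟨v, Marks.self_mem_cmp v⟩

end env

/-- the estimates in a good environment -/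
theorem main {n : ℕ} {δ L : ℝ} (H : Nm n δ L) {y : ℝ} (hy : 0 < y)
    (hyZ : y ≤ Real.exp (100 * δ)) (U : Ev n) (HE : EnvS n (Real.exp (100 * δ)) y U) :
    (1 - 1 / L) * n ≤ ∑ v, GG (fun e => wA n y (U e)) (fun T =>
      Real.exp (L - 6000 * δ) ≤ (ball T v ⌊Real.exp (L / 2 - 500 * δ)⌋₊).card) ∧
    1 - 1 / L ≤ GG (fun e => wA n y (U e)) (fun T =>
      Real.exp (L / 2 - 3000 * δ) ≤ T.diam) := by
  classical
  have hδ0 := H.δ0
  have hδL := H.hδL
  have hn0 := H.n0
  have hZ0 : 0 < Real.exp (100 * δ) := Real.exp_pos _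
  have hgb := gb_pos H
  have hslo := smax_lo H
  have hshi := smax_hi H
  have hspos : 0 < smaxS n (Real.exp (100 * δ)) := lt_of_lt_of_le (Real.exp_pos _) hslo
  have hΔ := Δ_one H
  have hvlo := v_lo H
  have hs0 := s0_one H
  have hs0u := s0_hi H
  have hju := j_hi H
  have hKh0 := Kh_nn H
  have hKhu := Kh_hi H
  have hcnb : 1 / Real.exp (-(y / Real.exp (100 * δ))) ≤ 3 := by
    rw [Real.exp_neg, one_div, inv_inv]
    have h1 : y / Real.exp (100 * δ) ≤ 1 := (div_le_one hZ0).2 hyZ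
    have h2 := Real.exp_le_exp.2 h1
    have h3 := Real.exp_one_lt_d9
    linarith
  have hCu := C_hi H (Real.exp_pos (-(y / Real.exp (100 * δ)))) hcnb
  have hpb1 : n * pbS n (Real.exp (100 * δ)) ≤ 1 := by
    unfold pbS
    rw [mul_div_cancel₀ _ hn0.ne']
    linarith
  have hMeq : marks 0 (pbS n (Real.exp (100 * δ))) 1 (s0S n (Real.exp (100 * δ))) U =
      gd (GU U (pbS n (Real.exp (100 * δ)))) (s0S n (Real.exp (100 * δ))) := marks_eq U _ _ _
  have hMlo : Real.exp (L - 101 * δ) ≤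
      (gd (GU U (pbS n (Real.exp (100 * δ)))) (s0S n (Real.exp (100 * δ)))).card :=
    hvlo.trans HE.hv
  obtain ⟨E, h1, h2, h3, h4, h5, h6, -, h8⟩ := mk_blk (U := U)
    (κ := fun e => wA n y (U e)) (fun e => Real.exp_pos _) (pl := 0)
    (pb := pbS n (Real.exp (100 * δ))) (pn := pnS n (Real.exp (100 * δ)))
    (smax := smaxS n (Real.exp (100 * δ))) (ρb := smaxS n (Real.exp (100 * δ)))
    (cn := Real.exp (-(y / Real.exp (100 * δ)))) (Δ := ΔS n) (s1 := 1)
    (s0 := s0S n (Real.exp (100 * δ)))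
    (by
      unfold pbS pnS
      apply div_le_div_of_nonneg_right _ hn0.le
      have : 0 < 1 / Real.exp (100 * δ) := by positivity
      linarith)
    hs0 hspos (Real.exp_pos _) (by linarith)
    (by
      intro e
      unfold wA pnS
      rw [Real.exp_le_exp, neg_le_neg_iff, le_div_iff₀ hn0]
      constructor
      · intro h
        have e1 : y / Real.exp (100 * δ) = y * (1 / Real.exp (100 * δ)) := by ring
        rw [e1] at h
        have := le_of_mul_le_mul_left h hy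
        linarith
      · intro h
        have e1 : y / Real.exp (100 * δ) = y * (1 / Real.exp (100 * δ)) := by ring
        rw [e1]
        exact mul_le_mul_of_nonneg_left (by linarith) hy.le)
    HE.hsm HE.iso HE.rob HE.deg (tail hn0 hy hpb1 HE.hsm)
    (by
      rw [hMeq]
      have e1 := H.cmul (c := 2) (x := 201 * δ) (y := L - 101 * δ) (by norm_num) (by linarith)
      linarith)
    (by
      rw [hMeq]
      have e1 : (0 : ℝ) < (gd (GU U (pbS n (Real.exp (100 * δ))))
        (s0S n (Real.exp (100 * δ)))).card := lt_of_lt_of_le (Real.exp_pos _) hMlo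
      exact_mod_cast e1)
  have hPκ : E.pn.κ = fun e => wA n y (U e) := h1
  have hPM : E.pn.M = gd (GU U (pbS n (Real.exp (100 * δ)))) (s0S n (Real.exp (100 * δ))) :=
    h4.trans hMeq
  have hPt : E.pn.t = E.smax * E.C := rfl
  have hCl : Real.exp (200 * δ) ≤ E.C := by
    rw [h5]
    have e1 : 0 ≤ 12 * ΔS n * (ΔS n * smaxS n (Real.exp (100 * δ)) +
        1 / Real.exp (-(y / Real.exp (100 * δ)))) := by positivity
    linarith
  have hCu' : E.C ≤ Real.exp (201 * δ) := by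
    rw [h5]
    exact hCu
  have hsl' : Real.exp (200 * δ) ≤ E.smax := by rw [h8]; exact hslo
  have hsu' : E.smax ≤ Real.exp (201 * δ) := by rw [h8]; exact hshi
  have ht1 : Real.exp (400 * δ) ≤ E.pn.t := by
    rw [hPt]
    calc Real.exp (400 * δ) = Real.exp (200 * δ) * Real.exp (200 * δ) := by
          rw [← Real.exp_add]
          congr 1
          ring
      _ ≤ _ := mul_le_mul hsl' hCl (Real.exp_pos _).le (le_trans (Real.exp_pos _).le hsl')
  have ht2 : E.pn.t ≤ Real.exp (402 * δ) := by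
    rw [hPt]
    calc E.smax * E.C ≤ Real.exp (201 * δ) * Real.exp (201 * δ) :=
          mul_le_mul hsu' hCu' (le_trans (Real.exp_pos _).le hCl) (Real.exp_pos _).le
      _ = Real.exp (402 * δ) := by
          rw [← Real.exp_add]
          congr 1
          ring
  have hMlo' : Real.exp (L - 101 * δ) ≤ E.pn.M.card := by
    rw [hPM]
    exact hMlo
  have hρ' : E.ρb ≤ Real.exp (201 * δ) := by rw [h6]; exact hshi
  have hg : ∀ (k : ℝ) (hk : 0 < k), k = 1 / E.pn.t → ∀ z ∈ E.pn.M,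
      grn (E.pn.net k hk) ∅ z z ≤ 1 + 40 * (E.C + E.ρb) := by
    intro k hk hke z hz
    have e1 := BlkEnv.grn_good E hk (E.M_good hz)
    refine le_trans e1 ?_
    have e2 : Real.exp (-(402 * δ)) ≤ k := by
      rw [hke, Real.exp_neg, ← one_div]
      exact one_div_le_one_div_of_le E.pn.t_pos ht2
    have e3 : Real.exp (-(402 * δ)) * Real.exp (L - 101 * δ) ≤ k * E.M.card :=
      mul_le_mul e2 hMlo' (Real.exp_pos _).le hk.le
    rw [← Real.exp_add] at e3
    have e4 : (2 : ℝ) ≤ Real.exp (-(402 * δ) + (L - 101 * δ)) :=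
      (H.cW (by norm_num)).trans (Real.exp_le_exp.2 (by linarith))
    have e5 : 5 / (4 * (k * E.M.card)) ≤ 1 := by
      rw [div_le_one (by linarith)]
      linarith
    linarith
  have hg1 : 1 ≤ 1 + 40 * (E.C + E.ρb) := by
    have := E.C_pos
    have := E.ρb_pos
    linarith
  have hg2 : 1 + 40 * (E.C + E.ρb) ≤ Real.exp (202 * δ) := by
    have e1 := H.cmul (c := 81) (x := 201 * δ) (y := 202 * δ) (by norm_num) (by linarith)
    have e2 : 1 ≤ Real.exp (201 * δ) := Real.one_le_exp (by linarith)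
    linarith
  have hclv : ∀ v : Fin n, ∀ u ∈ cmp (GU U (pbS n (Real.exp (100 * δ)))) v, ∀ w, w ≠ u →
      U s(u, w) ≤ pbS n (Real.exp (100 * δ)) → w ∈ cmp (GU U (pbS n (Real.exp (100 * δ)))) v :=
    fun v u hu w hne hle => cmp_closed hu hne hle
  have ha : ∀ (k : ℝ) (hk : 0 < k), k ≤ 1 → ∀ v, 1 ≤ (smaxS n (Real.exp (100 * δ)) *
      (KhS n + 1)) * grn (E.pn.net k hk) ∅ v v := by
    intro k hk hk1 v
    refine grn_low (E.pn.net k hk) (S := cmp (GU U (pbS n (Real.exp (100 * δ)))) v)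
      (Marks.self_mem_cmp v) (HE.hsm v) ?_ hKh0 ?_
    · intro x
      show (if x ∈ E.pn.M then k else 0) ≤ 1
      split_ifs <;> linarith
    · intro u hu
      show ∑ w ∈ univ \ cmp (GU U (pbS n (Real.exp (100 * δ)))) v, Kc E.pn.κ u w ≤ KhS n
      rw [hPκ]
      exact close U HE.kh (hclv v) u hu
  have ha0 : 0 < smaxS n (Real.exp (100 * δ)) * (KhS n + 1) := by positivity
  have ha2 : smaxS n (Real.exp (100 * δ)) * (KhS n + 1) ≤ Real.exp (202 * δ) := by
    rw [smax_eq H]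
    unfold KhS
    rw [← H.hL]
    have e : 16 * L ^ 7 * Real.exp (200 * δ) * (L ^ 5 + 1) =
        (16 * L ^ 7 * (L ^ 5 + 1)) * Real.exp (200 * δ) := by ring
    rw [e]
    refine poly H (k := 13) (by norm_num) ?_ (by linarith)
    have hL1 := H.hL1
    have hL := H.L0
    have e1 : (1 : ℝ) ≤ L ^ 5 := one_le_pow₀ H.L1
    have e2 : (32 : ℝ) ≤ L := le_trans (by norm_num) hL1
    calc 16 * L ^ 7 * (L ^ 5 + 1) ≤ 16 * L ^ 7 * (L ^ 5 + L ^ 5) :=
          mul_le_mul_of_nonneg_left (by linarith) (by positivity)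
      _ = 32 * L ^ 12 := by ring
      _ ≤ L * L ^ 12 := mul_le_mul_of_nonneg_right e2 (by positivity)
      _ = L ^ 13 := by ring
  have hKh : ∀ m ∈ E.pn.M, ∑ v ∈ univ \ E.pn.M, Kc E.pn.κ m v ≤ KhS n := by
    intro m hm
    rw [hPκ]
    refine close U HE.kh ?_ m hm
    intro u hu w hne hle
    rw [hPM] at hu ⊢
    exact Marks.gd_of_cmp (cmp_closed (Marks.self_mem_cmp u) hne hle) hu
  have hvis : ∀ (k : ℝ) (hk : 0 < k) (v : Fin n), v ∉ E.pn.M → ∑ u ∈ univ \ E.pn.M,
      grn (E.pn.net k hk) E.pn.M v u / grn (E.pn.net k hk) E.pn.M u u ≤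
      (s0S n (Real.exp (100 * δ)) : ℝ) * ((jS n (Real.exp (100 * δ)) : ℝ) + 1) + 1 := by
    intro k hk v hv
    refine (vis_net U E.pn hPM hk (jS n (Real.exp (100 * δ))) v hv).trans ?_
    have e1 : (cmp (GU U (pbS n (Real.exp (100 * δ)))) v).card < s0S n (Real.exp (100 * δ)) := by
      by_contra hcon
      apply hv
      rw [hPM]
      exact Marks.mem_gd.2 (not_lt.1 hcon)
    have e2 := HE.vis v e1
    rw [hPκ, vq_congr (h' := fun S x w U => exitP (fun e => wA n y (U e)) S x w)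
      (fun S x w => rfl)]
    have e3 := mul_le_mul_of_nonneg_left e2 hn0.le
    rw [mul_one_div_cancel hn0.ne'] at e3
    linarith
  have hl0 : 0 ≤ (s0S n (Real.exp (100 * δ)) : ℝ) *
      ((jS n (Real.exp (100 * δ)) : ℝ) + 1) + 1 := by positivity
  have hl : (s0S n (Real.exp (100 * δ)) : ℝ) * ((jS n (Real.exp (100 * δ)) : ℝ) + 1) + 1 ≤
      Real.exp (303 * δ) := by
    have e1 : (s0S n (Real.exp (100 * δ)) : ℝ) * ((jS n (Real.exp (100 * δ)) : ℝ) + 1) ≤
        Real.exp (302 * δ) := by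
      calc (s0S n (Real.exp (100 * δ)) : ℝ) * ((jS n (Real.exp (100 * δ)) : ℝ) + 1) ≤
            Real.exp (201 * δ) * Real.exp (101 * δ) :=
            mul_le_mul hs0u hju (by positivity) (Real.exp_pos _).le
        _ = _ := by
            rw [← Real.exp_add]
            congr 1
            ring
    have e2 : 1 ≤ Real.exp (302 * δ) := Real.one_le_exp (by linarith)
    have e3 := H.cmul (c := 2) (x := 302 * δ) (y := 303 * δ) (by norm_num) (by linarith)
    linarith
  have hfin := core H E.pn ht1 ht2 hMlo' hg hg1 hg2 ha ha0 ha2 hKh hKh0 hKhu hvis hl0 hl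
  rw [hPκ] at hfin
  exact hfin

end SoDet

/-- balls and diameter in a good environment, soft regime -/
theorem soft_det {ε : ℝ} (hε : 0 < ε) (hε1 : ε ≤ 1 / 100) : ∀ᶠ n : ℕ in atTop, ∀ y : ℝ,
    1 / Real.log n ^ 3 ≤ y → y ≤ (n : ℝ) ^ ε → ∀ U : Ev n, EnvS n ((n : ℝ) ^ ε) y U →
    (1 - 1 / Real.log n) * n ≤ ∑ v, GG (fun e => wA n y (U e)) (fun T =>
      (n : ℝ) ^ (1 - 60 * ε) ≤ (ball T v ⌊(n : ℝ) ^ (1 / 2 - 5 * ε)⌋₊).card) ∧
    1 - 1 / Real.log n ≤ GG (fun e => wA n y (U e)) (fun T =>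
      (n : ℝ) ^ (1 / 2 - 30 * ε) ≤ T.diam) := by
  filter_upwards [SoDet.ev_nm hε hε1] with n H y hy1 hy2 U HE
  have eZ : (n : ℝ) ^ ε = Real.exp (100 * (ε / 100 * Real.log n)) := by
    rw [SoDet.npow H]
    congr 1
    ring
  have e1 : (n : ℝ) ^ (1 - 60 * ε) =
      Real.exp (Real.log n - 6000 * (ε / 100 * Real.log n)) := by
    rw [SoDet.npow H]
    congr 1
    ring
  have e2 : (n : ℝ) ^ (1 / 2 - 5 * ε) =
      Real.exp (Real.log n / 2 - 500 * (ε / 100 * Real.log n)) := by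
    rw [SoDet.npow H]
    congr 1
    ring
  have e3 : (n : ℝ) ^ (1 / 2 - 30 * ε) =
      Real.exp (Real.log n / 2 - 3000 * (ε / 100 * Real.log n)) := by
    rw [SoDet.npow H]
    congr 1
    ring
  rw [e1, e2, e3]
  rw [eZ] at hy2 HE
  have hy : 0 < y := lt_of_lt_of_le (by
    have := H.L0
    positivity) hy1
  exact SoDet.main H hy hy2 U HE

end

end Pool.Agent.TH972.U
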