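import Pool.Agent.TH972.U.SoAnn
import Pool.Agent.TH972.U.GEnvA
import Pool.Agent.TH972.U.RsExp
import Pool.Agent.TH972.U.BushA

/-!
# Good environments, soft regime
(job RSTRE V-SoEnv of helper972, written by helper113)
-/

set_option autoImplicit false
set_option linter.unusedVariables false
set_option linter.unusedSectionVars false

namespace Pool.Agent.TH972.U

open Finset MeasureTheory Pool.Agent.W842.RST Pool.Agent.TH972 Filter Topology

noncomputable section

namespace SoEnv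

/-- the numerical facts which are used -/
structure Nm (n : ℕ) (Z Z0 : ℝ) : Prop where
  hn : 2 ≤ n
  big : Big (Real.log n) Z0
  hZZ : Z0 ≤ Z
  hZn : Z ^ 3 * Z0 ^ 24 ≤ n
  hZ5 : Z ^ 5 ≤ n

theorem ev_nm {ε : ℝ} (hε : 0 < ε) (hε1 : ε ≤ 1 / 100) : ∀ᶠ n : ℕ in atTop,
    Nm n ((n : ℝ) ^ ε) (Real.exp (ε / 2 * Real.log n)) := by
  have t1 : Tendsto (fun n : ℕ => Real.log (n : ℝ)) atTop atTop :=
    Real.tendsto_log_atTop.comp tendsto_natCast_atTop_atTop
  filter_upwards [t1.eventually (big_eventually (half_pos hε)), eventually_ge_atTop 2] with n hb hn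
  have hn0 : (0 : ℝ) < n := by
    have : 0 < n := by omega
    exact_mod_cast this
  have hL : 0 < Real.log n := by
    have h := hb.hL
    exact lt_of_lt_of_le (by positivity) h
  have hZ : (n : ℝ) ^ ε = Real.exp (ε * Real.log n) := by
    rw [Real.rpow_def_of_pos hn0, mul_comm]
  have hnL : Real.exp (Real.log n) = n := Real.exp_log hn0
  refine ⟨hn, hb, ?_, ?_, ?_⟩
  · rw [hZ]
    apply Real.exp_le_exp.2
    have : 0 < ε * Real.log n := by positivity
    linarith
  · rw [hZ, ← Real.exp_nat_mul, ← Real.exp_nat_mul, ← Real.exp_add]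
    conv_rhs => rw [← hnL]
    apply Real.exp_le_exp.2
    have h1 : ε * Real.log n ≤ 1 / 100 * Real.log n := mul_le_mul_of_nonneg_right hε1 hL.le
    push_cast
    linarith
  · rw [hZ, ← Real.exp_nat_mul]
    conv_rhs => rw [← hnL]
    apply Real.exp_le_exp.2
    have h1 : ε * Real.log n ≤ 1 / 100 * Real.log n := mul_le_mul_of_nonneg_right hε1 hL.le
    push_cast
    linarith

section num

variable {n : ℕ} {Z Z0 : ℝ}

theorem Lbig (H : Nm n Z Z0) : (10 : ℝ) ^ 12 ≤ Real.log n :=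
  le_trans (by norm_num) H.big.hL

theorem L0 (H : Nm n Z Z0) : 0 < Real.log n := lt_of_lt_of_le (by positivity) (Lbig H)

theorem L1 (H : Nm n Z Z0) : 1 ≤ Real.log n := le_trans (by norm_num) (Lbig H)

theorem n0 (H : Nm n Z Z0) : (0 : ℝ) < n := by
  have := H.hn
  exact_mod_cast (by omega : 0 < n)

theorem LZ (H : Nm n Z Z0) {a : ℕ} (ha : a ≤ 200) : Real.log n ^ a ≤ Z :=
  (pow_le_pow_right₀ (L1 H) ha).trans (H.big.h1.trans H.hZZ)

theorem Z1 (H : Nm n Z Z0) : 1 ≤ Z := by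
  have := LZ H (a := 0) (by norm_num)
  simpa using this

theorem Z0' (H : Nm n Z Z0) : 0 < Z := lt_of_lt_of_le one_pos (Z1 H)

theorem LZn (H : Nm n Z Z0) {a b : ℕ} (ha : a ≤ 200) (hb : b ≤ 4) :
    Real.log n ^ a * Z ^ b ≤ n := by
  have h1 : Z ^ b ≤ Z ^ 4 := pow_le_pow_right₀ (Z1 H) hb
  have hZ := Z0' H
  calc Real.log n ^ a * Z ^ b ≤ Z * Z ^ 4 :=
        mul_le_mul (LZ H ha) h1 (by positivity) hZ.le
    _ = Z ^ 5 := by ring
    _ ≤ n := H.hZ5

theorem Ln (H : Nm n Z Z0) : Real.log n ^ 2 ≤ n := by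
  have := LZn H (a := 2) (b := 0) (by norm_num) (by norm_num)
  simpa using this

/-! ### the parameters -/

/-- the parameters of the level `Z` -/
def P0 (n : ℕ) (Z Z0 : ℝ) : Prm n :=
  prm n (fun u => Real.exp (-(Z * (n * u - 1)))) (fun i : ℤ => (1 + i / Z) / n) Z Z0

theorem gb_eq : (P0 n Z Z0).gb = gbS n Z := by
  unfold gbS
  show 1 / Real.log n ^ 3 / Z = _
  rw [div_div]

theorem pb_eq : (P0 n Z Z0).pb = pbS n Z := by
  unfold pbS
  rw [← gb_eq (Z0 := Z0)]
  rfl

theorem s0_eq : (P0 n Z Z0).s0 = s0S n Z := by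
  unfold s0S
  rw [← gb_eq (Z0 := Z0)]
  rfl

theorem smax_eq : (P0 n Z Z0).smax = smaxS n Z := by
  unfold smaxS
  rw [← gb_eq (Z0 := Z0)]
  rfl

theorem vmin_eq : (P0 n Z Z0).vmin = vminS n Z := by
  unfold vminS
  rw [← gb_eq (Z0 := Z0)]
  rfl

theorem pn_eq : (P0 n Z Z0).pn = pnS n Z := by
  show (1 + ((1 : ℤ) : ℝ) / Z) / n = (1 + 1 / Z) / n
  rw [Int.cast_one]

theorem Δ_eq (H : Nm n Z Z0) : (P0 n Z Z0).Δ = ΔS n := by
  have := L0 H
  show 15000 * Real.log n ^ 2 / (1 / Real.log n ^ 3) = 15000 * Real.log n ^ 5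
  field_simp

theorem gd_le (H : Nm n Z Z0) :
    env n {U | ¬ (P0 n Z Z0).Gd (Real.log n ^ 8 / Z) U} ≤ ENNReal.ofReal (11 / Real.log n) := by
  have hlv : Lvs (fun u => Real.exp (-(Z * (n * u - 1)))) (fun i : ℤ => (1 + i / Z) / n) n Z
      (KL (Real.log n)) := by
    apply lvs_exp H.hn
    have hL := L1 H
    have hLb := Lbig H
    have h1 : (KL (Real.log n) : ℝ) ≤ Real.log n ^ 9 + 1 :=
      (Nat.ceil_lt_add_one (by positivity)).le
    have h2 : Real.log n ^ 10 ≤ Z := LZ H (by norm_num)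
    have h3 : (1 : ℝ) ≤ Real.log n ^ 9 := one_le_pow₀ hL
    have h4 : 3 * Real.log n ^ 9 ≤ Real.log n * Real.log n ^ 9 :=
      mul_le_mul_of_nonneg_right (le_trans (by norm_num) hLb) (by positivity)
    have h5 : Real.log n * Real.log n ^ 9 = Real.log n ^ 10 := by ring
    linarith
  exact (prm_ok H.hn hlv H.big H.hZZ H.hZn).good_le (prm_ok2 H.hn hlv H.big H.hZZ H.hZn)

theorem gbS_pos (H : Nm n Z Z0) : 0 < gbS n Z := by
  have := L0 H
  have := Z0' H
  unfold gbS
  positivity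

theorem gbS_le (H : Nm n Z Z0) : gbS n Z ≤ 1 / 100 := by
  have hL := L0 H
  have hZ := Z1 H
  have hLb := Lbig H
  have h1 : Real.log n ≤ Real.log n ^ 3 := by
    calc Real.log n = Real.log n ^ 1 := (pow_one _).symm
      _ ≤ Real.log n ^ 3 := pow_le_pow_right₀ (L1 H) (by norm_num)
  have h2 : Real.log n ^ 3 * 1 ≤ Real.log n ^ 3 * Z :=
    mul_le_mul_of_nonneg_left hZ (by positivity)
  unfold gbS
  rw [div_le_div_iff₀ (by positivity) (by norm_num)]
  norm_num at hLb
  linarith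

theorem npb (H : Nm n Z Z0) : n * pbS n Z = 1 - gbS n Z := by
  unfold pbS
  have := n0 H
  field_simp

/-! ### the conductances above the level `pb` -/

/-- the conductance above the level `pb` -/
def psi (n : ℕ) (Z y x : ℝ) : ℝ := if pbS n Z < x then wA n y x else 0

theorem psi_meas (y : ℝ) : Measurable (psi n Z y) := by
  unfold psi wA
  exact Measurable.ite measurableSet_Ioi (by fun_prop) measurable_const

theorem psi_nn (y x : ℝ) : 0 ≤ psi n Z y x := by
  unfold psi wA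
  split_ifs
  · exact (Real.exp_pos _).le
  · exact le_rfl

theorem ygb (H : Nm n Z Z0) {y : ℝ} (hy : 0 < y) (hyZ : y ≤ Z) : y * gbS n Z ≤ 1 := by
  have hL := L1 H
  have hZ := Z0' H
  have h3 : (1 : ℝ) ≤ Real.log n ^ 3 := one_le_pow₀ hL
  unfold gbS
  rw [mul_one_div, div_le_one (by positivity)]
  have : 1 * Z ≤ Real.log n ^ 3 * Z := mul_le_mul_of_nonneg_right h3 hZ.le
  linarith

theorem psi_le (H : Nm n Z Z0) {y : ℝ} (hy : 0 < y) (hyZ : y ≤ Z) (x : ℝ) :
    psi n Z y x ≤ Real.exp 1 := by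
  have hn := n0 H
  unfold psi wA
  split_ifs with h
  · apply Real.exp_le_exp.2
    have h1 := npb H
    have h2 : (n : ℝ) * pbS n Z ≤ n * x := mul_le_mul_of_nonneg_left h.le hn.le
    have h3 := ygb H hy hyZ
    have h4 : y * (1 - n * x) ≤ y * gbS n Z := mul_le_mul_of_nonneg_left (by linarith) hy.le
    linarith
  · exact (Real.exp_pos 1).le

theorem int_psi (H : Nm n Z Z0) {y : ℝ} (hy : 0 < y) (hyZ : y ≤ Z) :
    ∫ x, psi n Z y x ∂nu ≤ Real.exp 1 / (y * n) := by
  have hn := n0 H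
  have hyn : 0 < y * n := by positivity
  have e1 : psi n Z y = (Set.Ioi (pbS n Z)).indicator (wA n y) := by
    funext x
    unfold psi
    by_cases h : pbS n Z < x
    · rw [if_pos h, Set.indicator_of_mem (show x ∈ Set.Ioi (pbS n Z) from h)]
    · rw [if_neg h, Set.indicator_of_notMem (show x ∉ Set.Ioi (pbS n Z) from h)]
  have e2 : wA n y = fun x => Real.exp y * Real.exp (-(y * n) * x) := by
    funext x
    unfold wA
    rw [← Real.exp_add]
    congr 1
    ring
  have hint : IntegrableOn (wA n y) (Set.Ioi (pbS n Z)) := by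
    rw [e2]
    exact (integrableOn_exp_mul_Ioi (by linarith) _).const_mul _
  have h1 : ∫ x, psi n Z y x ∂nu ≤ ∫ x in Set.Ioi (pbS n Z), wA n y x := by
    unfold nu
    rw [e1, setIntegral_indicator measurableSet_Ioi]
    refine setIntegral_mono_set hint ?_ ?_
    · exact Filter.Eventually.of_forall fun x => (Real.exp_pos _).le
    · exact Set.inter_subset_right.eventuallyLE
  refine h1.trans ?_
  rw [e2, integral_const_mul, integral_exp_mul_Ioi (by linarith)]
  have e3 : Real.exp y * (-Real.exp (-(y * n) * pbS n Z) / -(y * n)) =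
      Real.exp (y * gbS n Z) / (y * n) := by
    rw [neg_div_neg_eq, ← mul_div_assoc, ← Real.exp_add]
    congr 2
    have h2 := npb H
    have h3 : -(y * n) * pbS n Z = -(y * (n * pbS n Z)) := by ring
    rw [h3, h2]
    ring
  rw [e3]
  apply div_le_div_of_nonneg_right _ hyn.le
  exact Real.exp_le_exp.2 (ygb H hy hyZ)

/-- the exponential of the conductance -/
def phi (n : ℕ) (Z y x : ℝ) : ℝ := Real.exp (psi n Z y x)

theorem phi_meas (y : ℝ) : Measurable (phi n Z y) := Real.measurable_exp.comp (psi_meas y)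

theorem phi_pos (y x : ℝ) : 0 < phi n Z y x := Real.exp_pos _

theorem phi_le (H : Nm n Z Z0) {y : ℝ} (hy : 0 < y) (hyZ : y ≤ Z) (x : ℝ) :
    phi n Z y x ≤ Real.exp (Real.exp 1) := Real.exp_le_exp.2 (psi_le H hy hyZ x)

theorem phi_abs (H : Nm n Z Z0) {y : ℝ} (hy : 0 < y) (hyZ : y ≤ Z) (x : ℝ) :
    |phi n Z y x| ≤ Real.exp (Real.exp 1) := by
  rw [abs_of_pos (phi_pos y x)]
  exact phi_le H hy hyZ x

theorem cst_le : Real.exp (Real.exp 1) * Real.exp 1 ≤ 100 := by
  have h1 : Real.exp 1 ≤ 3 := by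
    have := Real.exp_one_lt_d9
    linarith
  have h2 : Real.exp (Real.exp 1) ≤ Real.exp 3 := Real.exp_le_exp.2 h1
  have h3 : Real.exp 3 ≤ 2.72 ^ 3 := by
    have e : Real.exp 3 = Real.exp 1 ^ 3 := by
      rw [← Real.exp_nat_mul]
      norm_num
    rw [e]
    apply pow_le_pow_left₀ (Real.exp_pos 1).le
    have := Real.exp_one_lt_d9
    linarith
  have h4 : Real.exp (Real.exp 1) ≤ 21 := by
    norm_num at h3 ⊢
    linarith
  calc Real.exp (Real.exp 1) * Real.exp 1 ≤ 21 * 3 :=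
        mul_le_mul h4 h1 (Real.exp_pos 1).le (by norm_num)
    _ ≤ 100 := by norm_num

theorem int_phi (H : Nm n Z Z0) {y : ℝ} (hy : 0 < y) (hyZ : y ≤ Z) :
    ∫ x, phi n Z y x ∂nu ≤ Real.exp (100 / (y * n)) := by
  have hn := n0 H
  have hyn : 0 < y * n := by positivity
  have hip : Integrable (psi n Z y) nu :=
    Integrable.of_bound (psi_meas y).aestronglyMeasurable (Real.exp 1)
      (Filter.Eventually.of_forall fun x => by
        rw [Real.norm_of_nonneg (psi_nn y x)]
        exact psi_le H hy hyZ x)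
  have hiq : Integrable (phi n Z y) nu :=
    Integrable.of_bound (phi_meas y).aestronglyMeasurable (Real.exp (Real.exp 1))
      (Filter.Eventually.of_forall fun x => by
        rw [Real.norm_eq_abs]
        exact phi_abs H hy hyZ x)
  have h1 : ∫ x, phi n Z y x ∂nu ≤ ∫ x, (1 + Real.exp (Real.exp 1) * psi n Z y x) ∂nu := by
    refine integral_mono hiq ((integrable_const 1).add (hip.const_mul _)) fun x => ?_
    show Real.exp (psi n Z y x) ≤ 1 + Real.exp (Real.exp 1) * psi n Z y x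
    have h2 := psi_nn (n := n) (Z := Z) y x
    have h3 := psi_le H hy hyZ x
    have h4 : Real.exp (psi n Z y x) ≤ 1 + psi n Z y x * Real.exp (psi n Z y x) := by
      have h5 := Real.add_one_le_exp (-(psi n Z y x))
      have h6 : Real.exp (-(psi n Z y x)) * Real.exp (psi n Z y x) = 1 := by
        rw [← Real.exp_add]
        simp
      nlinarith [Real.exp_pos (psi n Z y x)]
    have h5 : psi n Z y x * Real.exp (psi n Z y x) ≤ psi n Z y x * Real.exp (Real.exp 1) :=
      mul_le_mul_of_nonneg_left (Real.exp_le_exp.2 h3) h2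
    linarith
  have h2 : ∫ x, (1 + Real.exp (Real.exp 1) * psi n Z y x) ∂nu =
      1 + Real.exp (Real.exp 1) * ∫ x, psi n Z y x ∂nu := by
    rw [integral_add (integrable_const 1) (hip.const_mul _), integral_const_mul]
    simp
  have h3 := int_psi H hy hyZ
  have h4 : Real.exp (Real.exp 1) * ∫ x, psi n Z y x ∂nu ≤
      Real.exp (Real.exp 1) * (Real.exp 1 / (y * n)) :=
    mul_le_mul_of_nonneg_left h3 (Real.exp_pos _).le
  have h5 : Real.exp (Real.exp 1) * (Real.exp 1 / (y * n)) ≤ 100 / (y * n) := by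
    rw [← mul_div_assoc]
    exact div_le_div_of_nonneg_right cst_le hyn.le
  have h6 := Real.add_one_le_exp (100 / (y * n))
  rw [h2] at h1
  linarith

/-- the product over the star of a vertex -/
def PB (n : ℕ) (Z y : ℝ) (U : Ev n) (v : Fin n) : ℝ :=
  ∏ u ∈ (univ : Finset (Fin n)).erase v, phi n Z y (U s(v, u))

theorem PB_pos (y : ℝ) (U : Ev n) (v : Fin n) : 0 < PB n Z y U v :=
  Finset.prod_pos (fun u _ => phi_pos y _)

theorem PB_bm (H : Nm n Z Z0) {y : ℝ} (hy : 0 < y) (hyZ : y ≤ Z) (v : Fin n) :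
    BM (fun U : Ev n => PB n Z y U v) := by
  have hm : Measurable (fun U : Ev n => PB n Z y U v) := by
    unfold PB
    exact Finset.measurable_prod _ (fun u _ => (phi_meas y).comp (measurable_pi_apply _))
  refine ⟨hm, Real.exp (Real.exp 1) ^ ((univ : Finset (Fin n)).erase v).card, fun U => ?_⟩
  rw [abs_of_pos (PB_pos y U v)]
  unfold PB
  rw [← Finset.prod_const]
  exact Finset.prod_le_prod (fun u _ => (phi_pos y _).le) (fun u _ => phi_le H hy hyZ _)

theorem PB_ex (H : Nm n Z Z0) {y : ℝ} (hy : 0 < y) (hyZ : y ≤ Z) (v : Fin n) :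
    Ex (fun U : Ev n => PB n Z y U v) ≤ Real.exp (100 / y) := by
  have hn := n0 H
  have h := Ex_star (n := n) (v := v) (F := univ.erase v) (notMem_erase v univ) (phi n Z y)
    (phi_meas y) ⟨Real.exp (Real.exp 1), phi_abs H hy hyZ⟩
  have h0 : (0 : ℝ) ≤ ∫ x, phi n Z y x ∂nu := integral_nonneg (fun x => (phi_pos y x).le)
  unfold PB
  rw [h]
  have h1 := int_phi H hy hyZ
  calc (∫ x, phi n Z y x ∂nu) ^ ((univ : Finset (Fin n)).erase v).card ≤
        Real.exp (100 / (y * n)) ^ ((univ : Finset (Fin n)).erase v).card :=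
        pow_le_pow_left₀ h0 h1 _
    _ ≤ Real.exp (100 / (y * n)) ^ n := by
        apply pow_le_pow_right₀ (Real.one_le_exp (by positivity))
        calc ((univ : Finset (Fin n)).erase v).card ≤ (univ : Finset (Fin n)).card :=
              card_le_card (erase_subset _ _)
          _ = n := by rw [card_univ, Fintype.card_fin]
    _ = Real.exp (100 / y) := by
        rw [← Real.exp_nat_mul]
        congr 1
        field_simp

theorem PB_sum (y : ℝ) (U : Ev n) (v : Fin n) :
    PB n Z y U v = Real.exp (∑ w ∈ univ.erase v,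
      (if pbS n Z < U s(v, w) then wA n y (U s(v, w)) else 0)) := by
  unfold PB
  rw [Real.exp_sum]
  rfl

theorem kh_le (H : Nm n Z Z0) {y : ℝ} (hyL : 1 / Real.log n ^ 3 ≤ y) (hyZ : y ≤ Z) :
    env n {U : Ev n | ∃ v, KhS n < ∑ w ∈ univ.erase v,
      (if pbS n Z < U s(v, w) then wA n y (U s(v, w)) else 0)} ≤ ENNReal.ofReal (1 / n) := by
  have hn := n0 H
  have hL := L0 H
  have hL1 := L1 H
  have hLb := Lbig H
  have hy : 0 < y := lt_of_lt_of_le (by positivity) hyL
  have hy2 : 100 / y ≤ 100 * Real.log n ^ 3 := by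
    rw [div_le_iff₀ hy]
    rw [div_le_iff₀ (by positivity)] at hyL
    linarith
  have hE : Ex (fun U : Ev n => ∑ v, PB n Z y U v) ≤ n * Real.exp (100 * Real.log n ^ 3) := by
    rw [Ex_sum _ (fun v _ => PB_bm H hy hyZ v)]
    calc ∑ v : Fin n, Ex (fun U : Ev n => PB n Z y U v) ≤
          ∑ _v : Fin n, Real.exp (100 * Real.log n ^ 3) :=
          Finset.sum_le_sum (fun v _ => (PB_ex H hy hyZ v).trans (Real.exp_le_exp.2 hy2))
      _ = n * Real.exp (100 * Real.log n ^ 3) := by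
          rw [Finset.sum_const, Finset.card_univ, Fintype.card_fin, nsmul_eq_mul]
  have h := env_markov (BM.sum _ (fun v _ => PB_bm H hy hyZ v))
    (fun U => Finset.sum_nonneg (fun v _ => (PB_pos y U v).le))
    (Real.exp_pos (Real.log n ^ 5)) hE
  have h2 : n * Real.exp (100 * Real.log n ^ 3) / Real.exp (Real.log n ^ 5) ≤ 1 / n := by
    rw [div_le_div_iff₀ (Real.exp_pos _) hn, one_mul]
    have e : (n : ℝ) = Real.exp (Real.log n) := (Real.exp_log hn).symm
    calc (n : ℝ) * Real.exp (100 * Real.log n ^ 3) * n =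
          Real.exp (Real.log n) * Real.exp (100 * Real.log n ^ 3) * Real.exp (Real.log n) := by
          rw [← e]
      _ = Real.exp (Real.log n + 100 * Real.log n ^ 3 + Real.log n) := by
          rw [Real.exp_add, Real.exp_add]
      _ ≤ Real.exp (Real.log n ^ 5) := by
          apply Real.exp_le_exp.2
          norm_num at hLb
          have h6 : Real.log n ≤ Real.log n ^ 3 := by
            calc Real.log n = Real.log n ^ 1 := (pow_one _).symm
              _ ≤ Real.log n ^ 3 := pow_le_pow_right₀ hL1 (by norm_num)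
          have h8 : (200 : ℝ) ≤ Real.log n ^ 2 := by nlinarith
          have h7 : 200 * Real.log n ^ 3 ≤ Real.log n ^ 2 * Real.log n ^ 3 :=
            mul_le_mul_of_nonneg_right h8 (by positivity)
          have e2 : Real.log n ^ 5 = Real.log n ^ 2 * Real.log n ^ 3 := by ring
          rw [e2]
          have : 0 ≤ Real.log n ^ 3 := by positivity
          linarith
  refine le_trans (measure_mono ?_) (h.trans (ENNReal.ofReal_le_ofReal h2))
  rintro U ⟨v, hv⟩
  rw [Set.mem_ofPred_eq]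
  have h3 : Real.exp (Real.log n ^ 5) ≤ PB n Z y U v := by
    rw [PB_sum]
    exact Real.exp_le_exp.2 hv.le
  exact h3.trans (Finset.single_le_sum (f := fun v => PB n Z y U v)
    (fun w _ => (PB_pos y U w).le) (mem_univ v))

/-! ### the exploration -/

theorem vq_nn {h : Finset (Fin n) → Fin n → Fin n → Ev n → ℝ} (Hh : ExitH h) (pb : ℝ) (s0 : ℕ)
    (U : Ev n) (j : ℕ) : ∀ (S : Finset (Fin n)) (x : Fin n), 0 ≤ vq h pb s0 U j S x := by
  induction j with
  | zero => intro S x; exact zero_le_one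
  | succ j ih =>
    intro S x
    exact Finset.sum_nonneg fun w _ =>
      mul_nonneg (mul_nonneg (Hh.nonneg _ _ _ _) (ind_nonneg _)) (ih _ _)

theorem bm_rch {pb : ℝ} (A F T : Finset (Fin n)) :
    BM (fun U : Ev n => ind (rch pb U A F = T)) :=
  BM_lvl {pb} (fun U U' hU => by rw [rch_lvl pb A F hU])

theorem bm_rchc {pb : ℝ} (A F : Finset (Fin n)) (s0 : ℕ) :
    BM (fun U : Ev n => ind ((rch pb U A F).card < s0)) :=
  BM_lvl {pb} (fun U U' hU => by rw [rch_lvl pb A F hU])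

theorem sum_val (g : Finset (Fin n) → ℝ) (T : Finset (Fin n)) :
    ∑ T' : Finset (Fin n), ind (T = T') * g T' = g T := by
  rw [Finset.sum_eq_single T]
  · rw [ind_true rfl, one_mul]
  · intro T' _ h
    rw [ind_false (Ne.symm h), zero_mul]
  · intro h
    exact absurd (mem_univ _) h

theorem vq_bm {h : Finset (Fin n) → Fin n → Fin n → Ev n → ℝ} (Hh : ExitH h) (pb : ℝ) (s0 : ℕ)
    (j : ℕ) : ∀ (S : Finset (Fin n)) (x : Fin n), BM (fun U => vq h pb s0 U j S x) := by
  induction j with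
  | zero => intro S x; exact BM.const 1
  | succ j ih =>
    intro S x
    have e : (fun U : Ev n => vq h pb s0 U (j + 1) S x) = fun U => ∑ w ∈ univ \ S,
        h S x w U * ind ((rch pb U {w} (univ \ S)).card < s0) *
          ∑ T : Finset (Fin n), ind (rch pb U {w} (univ \ S) = T) *
            vq h pb s0 U j (S ∪ T) w := by
      funext U
      refine Finset.sum_congr rfl fun w _ => ?_
      rw [sum_val (fun T => vq h pb s0 U j (S ∪ T) w)]
    rw [e]
    exact BM.sum _ fun w hw => ((Hh.bm S x w (mem_sdiff.1 hw).2).mul (bm_rchc _ _ _)).mul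
      (BM.sum _ fun T _ => (bm_rch _ _ T).mul (ih _ _))

/-- the exit distributions of the environment -/
def hx (n : ℕ) (y : ℝ) : Finset (Fin n) → Fin n → Fin n → Ev n → ℝ :=
  fun S x w U => exitP (fun e => wA n y (U e)) S x w

theorem F_bm {h : Finset (Fin n) → Fin n → Fin n → Ev n → ℝ} (Hh : ExitH h) (pb : ℝ) (s0 : ℕ)
    (j : ℕ) (v : Fin n) : BM (fun U : Ev n => ind ((cmp (GU U pb) v).card < s0) *
      vq h pb s0 U j (cmp (GU U pb) v) v) := by
  have e : (fun U : Ev n => ind ((cmp (GU U pb) v).card < s0) *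
      vq h pb s0 U j (cmp (GU U pb) v) v) = fun U =>
      ind ((rch pb U {v} (univ.erase v)).card < s0) *
        ∑ T : Finset (Fin n), ind (rch pb U {v} (univ.erase v) = T) * vq h pb s0 U j T v := by
    funext U
    rw [sum_val (fun T => vq h pb s0 U j T v), rch_cmp]
  rw [e]
  exact (bm_rchc _ _ _).mul (BM.sum _ fun T _ => (bm_rch _ _ T).mul (vq_bm Hh pb s0 j T v))

theorem s0S_le (H : Nm n Z Z0) : (s0S n Z : ℝ) ≤ Real.log n ^ 6 * Z ^ 2 / 6400 ∧
    (s0S n Z : ℝ) * gbS n Z ^ 2 * 6400 ≤ 1 ∧ 1 ≤ s0S n Z := by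
  have hL := L0 H
  have hZ := Z0' H
  have hZ1 := Z1 H
  have hLb := Lbig H
  have e : 1 / (6400 * gbS n Z ^ 2) = Real.log n ^ 6 * Z ^ 2 / 6400 := by
    unfold gbS
    field_simp
  have h1 : (s0S n Z : ℝ) ≤ 1 / (6400 * gbS n Z ^ 2) := by
    unfold s0S
    apply Nat.floor_le
    have := gbS_pos H
    positivity
  have hg := gbS_pos H
  refine ⟨by rw [← e]; exact h1, ?_, ?_⟩
  · rw [le_div_iff₀ (by positivity)] at h1
    linarith
  · unfold s0S
    apply Nat.le_floor
    rw [e]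
    norm_num at hLb
    have h3 : Real.log n ≤ Real.log n ^ 6 := by
      calc Real.log n = Real.log n ^ 1 := (pow_one _).symm
        _ ≤ Real.log n ^ 6 := pow_le_pow_right₀ (L1 H) (by norm_num)
    have h4 : Real.log n ^ 6 * 1 ≤ Real.log n ^ 6 * Z ^ 2 :=
      mul_le_mul_of_nonneg_left (one_le_pow₀ hZ1) (by positivity)
    rw [le_div_iff₀ (by norm_num)]
    push_cast
    linarith

theorem q_le (H : Nm n Z Z0) (w : Fin n) (F : Finset (Fin n)) (hw : w ∉ F)
    (hF : n ≤ F.card + ⌊n * (gbS n Z / 4)⌋₊) :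
    Ex (fun U : Ev n => ind ((rch (pbS n Z) U {w} F).card < s0S n Z)) ≤ 1 - gbS n Z / 3 := by
  have hn := n0 H
  have hg := gbS_pos H
  obtain ⟨h1, h2, h3⟩ := s0S_le H
  have hL := L0 H
  have hZ := Z0' H
  have hLb := Lbig H
  have hn3 : (10 : ℝ) ^ 7 ≤ n * gbS n Z ^ 3 := by
    have h4 := LZn H (a := 10) (b := 3) (by norm_num) (by norm_num)
    have e : (n : ℝ) * gbS n Z ^ 3 = n / (Real.log n ^ 9 * Z ^ 3) := by
      unfold gbS
      field_simp
    rw [e, le_div_iff₀ (by positivity)]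
    refine le_trans ?_ h4
    have h5 : (10 : ℝ) ^ 7 ≤ Real.log n := le_trans (by norm_num) hLb
    calc (10 : ℝ) ^ 7 * (Real.log n ^ 9 * Z ^ 3) ≤ Real.log n * (Real.log n ^ 9 * Z ^ 3) :=
          mul_le_mul_of_nonneg_right h5 (by positivity)
      _ = Real.log n ^ 10 * Z ^ 3 := by ring
  have hFc : (n : ℝ) * (1 - gbS n Z / 4) ≤ F.card := by
    have h4 : (⌊(n : ℝ) * (gbS n Z / 4)⌋₊ : ℝ) ≤ n * (gbS n Z / 4) :=
      Nat.floor_le (by positivity)
    have h5 : (n : ℝ) ≤ F.card + ⌊(n : ℝ) * (gbS n Z / 4)⌋₊ := by exact_mod_cast hF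
    linarith
  have ht := test_prob_A (n := n) (pb := pbS n Z) (gb := gbS n Z) (s0 := s0S n Z) rfl hg (gbS_le H)
    hn3 h2 h3 0 w F hw hFc
  have hbm : BM (fun U : Ev n => ind (mk 0 (pbS n Z) 1 (s0S n Z) U w F)) :=
    BM_lvl {0, pbS n Z} (fun U U' hU => by rw [Count.mk_lvl hU])
  have h4 : Ex (fun U : Ev n => ind ((rch (pbS n Z) U {w} F).card < s0S n Z)) ≤
      Ex (fun U : Ev n => 1 - ind (mk 0 (pbS n Z) 1 (s0S n Z) U w F)) := by
    refine Ex_mono (bm_rchc _ _ _) ((BM.const 1).sub hbm) fun U => ?_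
    by_cases h5 : mk 0 (pbS n Z) 1 (s0S n Z) U w F
    · rw [ind_true h5, ind_false (not_lt.2 h5.2)]
      norm_num
    · rw [ind_false h5, sub_zero]
      exact ind_le_one _
  rw [Ex_sub (BM.const 1) hbm, Ex_const] at h4
  linarith

theorem hj_le (H : Nm n Z Z0) : (jS n Z + 2) * s0S n Z + 1 ≤ ⌊n * (gbS n Z / 4)⌋₊ := by
  have hn := n0 H
  have hg := gbS_pos H
  obtain ⟨h1, -, -⟩ := s0S_le H
  have hL := L0 H
  have hL1 := L1 H
  have hZ := Z0' H
  have hZ1 := Z1 H
  have hLb := Lbig H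
  apply Nat.le_floor
  push_cast
  have hj : (jS n Z : ℝ) ≤ Real.log n ^ 5 * Z + 1 := by
    unfold jS
    exact (Nat.ceil_lt_add_one (by positivity)).le
  have h5 : 1 ≤ Real.log n ^ 5 * Z := by
    have := mul_le_mul (one_le_pow₀ hL1 (n := 5)) hZ1 zero_le_one (by positivity)
    linarith
  have h6 : ((jS n Z : ℝ) + 2) * s0S n Z ≤
      (4 * (Real.log n ^ 5 * Z)) * (Real.log n ^ 6 * Z ^ 2 / 6400) :=
    mul_le_mul (by linarith) h1 (Nat.cast_nonneg _) (by positivity)
  have e : (n : ℝ) * (gbS n Z / 4) = n / (4 * (Real.log n ^ 3 * Z)) := by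
    unfold gbS
    field_simp
  rw [e, le_div_iff₀ (by positivity)]
  have h7 := LZn H (a := 15) (b := 4) (by norm_num) (by norm_num)
  refine le_trans ?_ h7
  have h8 : (4 * (Real.log n ^ 5 * Z)) * (Real.log n ^ 6 * Z ^ 2 / 6400) =
      Real.log n ^ 11 * Z ^ 3 / 1600 := by ring
  rw [h8] at h6
  have h9 : 1 ≤ Real.log n ^ 11 * Z ^ 3 := by
    have := mul_le_mul (one_le_pow₀ hL1 (n := 11)) (one_le_pow₀ hZ1 (n := 3)) zero_le_one
      (by positivity)
    linarith
  calc (((jS n Z : ℝ) + 2) * s0S n Z + 1) * (4 * (Real.log n ^ 3 * Z)) ≤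
        (2 * (Real.log n ^ 11 * Z ^ 3)) * (4 * (Real.log n ^ 3 * Z)) := by
        apply mul_le_mul_of_nonneg_right _ (by positivity)
        linarith
    _ = 8 * (Real.log n ^ 14 * Z ^ 4) := by ring
    _ ≤ Real.log n * (Real.log n ^ 14 * Z ^ 4) := by
        apply mul_le_mul_of_nonneg_right _ (by positivity)
        exact le_trans (by norm_num) hLb
    _ = Real.log n ^ 15 * Z ^ 4 := by ring

theorem vis_le (H : Nm n Z Z0) (y : ℝ) :
    env n {U : Ev n | ∃ v, (cmp (GU U (pbS n Z)) v).card < s0S n Z ∧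
      1 / (n : ℝ) < vq (hx n y) (pbS n Z) (s0S n Z) U (jS n Z) (cmp (GU U (pbS n Z)) v) v} ≤
      ENNReal.ofReal (1 / n) := by
  have hn := n0 H
  have hL := L0 H
  have hL1 := L1 H
  have hLb := Lbig H
  have hZ := Z0' H
  have hg := gbS_pos H
  have hg1 := gbS_le H
  have Hh : ExitH (hx n y) := exit_ok y
  have hq0 : 0 ≤ 1 - gbS n Z / 3 := by linarith
  have hv := fun v => vis_ann Hh (pb := pbS n Z) (s0 := s0S n Z) (X := ⌊n * (gbS n Z / 4)⌋₊) hq0
    (fun w F hw hF => q_le H w F hw hF) (jS n Z) (hj_le H) v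
  have hqj : (1 - gbS n Z / 3) ^ jS n Z ≤ Real.exp (-(4 * Real.log n)) := by
    have h1 : 1 - gbS n Z / 3 ≤ Real.exp (-(gbS n Z / 3)) := by
      have := Real.add_one_le_exp (-(gbS n Z / 3))
      linarith
    calc (1 - gbS n Z / 3) ^ jS n Z ≤ Real.exp (-(gbS n Z / 3)) ^ jS n Z :=
          pow_le_pow_left₀ hq0 h1 _
      _ = Real.exp (jS n Z * (-(gbS n Z / 3))) := by rw [← Real.exp_nat_mul]
      _ ≤ Real.exp (-(4 * Real.log n)) := by
          apply Real.exp_le_exp.2
          have h2 : Real.log n ^ 5 * Z ≤ jS n Z := Nat.le_ceil _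
          have h3 : Real.log n ^ 5 * Z * (gbS n Z / 3) ≤ jS n Z * (gbS n Z / 3) :=
            mul_le_mul_of_nonneg_right h2 (by positivity)
          have h4 : Real.log n ^ 5 * Z * (gbS n Z / 3) = Real.log n ^ 2 / 3 := by
            unfold gbS
            field_simp
          rw [h4] at h3
          have h5 : 12 * Real.log n ≤ Real.log n * Real.log n :=
            mul_le_mul_of_nonneg_right (le_trans (by norm_num) hLb) hL.le
          nlinarith
  have hE : Ex (fun U : Ev n => ∑ v, ind ((cmp (GU U (pbS n Z)) v).card < s0S n Z) *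
      vq (hx n y) (pbS n Z) (s0S n Z) U (jS n Z) (cmp (GU U (pbS n Z)) v) v) ≤
      n * Real.exp (-(4 * Real.log n)) := by
    rw [Ex_sum _ (fun v _ => F_bm Hh _ _ _ v)]
    calc _ ≤ ∑ _v : Fin n, Real.exp (-(4 * Real.log n)) :=
          Finset.sum_le_sum (fun v _ => (hv v).trans hqj)
      _ = n * Real.exp (-(4 * Real.log n)) := by
          rw [Finset.sum_const, Finset.card_univ, Fintype.card_fin, nsmul_eq_mul]
  have hnn : ∀ (U : Ev n) (v : Fin n), 0 ≤ ind ((cmp (GU U (pbS n Z)) v).card < s0S n Z) *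
      vq (hx n y) (pbS n Z) (s0S n Z) U (jS n Z) (cmp (GU U (pbS n Z)) v) v :=
    fun U v => mul_nonneg (ind_nonneg _) (vq_nn Hh _ _ _ _ _ _)
  have h := env_markov (BM.sum _ (fun v _ => F_bm Hh (pbS n Z) (s0S n Z) (jS n Z) v))
    (fun U => Finset.sum_nonneg (fun v _ => hnn U v)) (show (0 : ℝ) < 1 / n by positivity) hE
  have h2 : n * Real.exp (-(4 * Real.log n)) / (1 / n) ≤ 1 / (n : ℝ) := by
    have e : Real.exp (-(4 * Real.log n)) = 1 / (n : ℝ) ^ 4 := by
      rw [Real.exp_neg, one_div]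
      congr 1
      have : (4 : ℝ) * Real.log n = ((4 : ℕ) : ℝ) * Real.log n := by norm_num
      rw [this, Real.exp_nat_mul, Real.exp_log hn]
    rw [e]
    have e2 : (n : ℝ) * (1 / (n : ℝ) ^ 4) / (1 / n) = 1 / (n : ℝ) ^ 2 := by
      field_simp
    rw [e2]
    apply one_div_le_one_div_of_le hn
    have h1 : (1 : ℝ) ≤ n := by
      have := H.hn
      exact_mod_cast (by omega : 1 ≤ n)
    nlinarith
  refine le_trans (measure_mono ?_) (h.trans (ENNReal.ofReal_le_ofReal h2))
  rintro U ⟨v, hv1, hv2⟩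
  rw [Set.mem_ofPred_eq]
  refine le_trans ?_ (Finset.single_le_sum (f := fun v => ind ((cmp (GU U (pbS n Z)) v).card <
    s0S n Z) * vq (hx n y) (pbS n Z) (s0S n Z) U (jS n Z) (cmp (GU U (pbS n Z)) v) v)
    (fun w _ => hnn U w) (mem_univ v))
  show 1 / (n : ℝ) ≤ ind ((cmp (GU U (pbS n Z)) v).card < s0S n Z) *
      vq (hx n y) (pbS n Z) (s0S n Z) U (jS n Z) (cmp (GU U (pbS n Z)) v) v
  rw [ind_true hv1, one_mul]
  exact hv2.le

theorem total (H : Nm n Z Z0) : 11 / Real.log n + 1 / (n : ℝ) + 1 / n ≤ 20 / Real.log n := by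
  have hL := L0 H
  have hL1 := L1 H
  have hn := n0 H
  have h1 : 1 / (n : ℝ) ≤ 1 / Real.log n := by
    apply one_div_le_one_div_of_le hL
    have h2 := Ln H
    nlinarith
  have h2 : 11 / Real.log n = 11 * (1 / Real.log n) := by ring
  have h3 : 20 / Real.log n = 20 * (1 / Real.log n) := by ring
  have h4 : 0 ≤ 1 / Real.log n := by positivity
  rw [h2, h3]
  linarith

theorem main (H : Nm n Z Z0) {y : ℝ} (hyL : 1 / Real.log n ^ 3 ≤ y) (hyZ : y ≤ Z) :
    env n {U : Ev n | ¬ EnvS n Z y U} ≤ ENNReal.ofReal (20 / Real.log n) := by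
  have hn := n0 H
  have hL := L0 H
  have hn1 : (0 : ℝ) ≤ 1 / n := by positivity
  have b2 := GEnv.un (by positivity) hn1 (gd_le H) (kh_le H hyL hyZ)
  have b3 := GEnv.un (by positivity) hn1 b2 (vis_le H y)
  refine le_trans (measure_mono ?_) (b3.trans (ENNReal.ofReal_le_ofReal (total H)))
  intro U hU
  by_contra hc
  simp only [Set.mem_union, not_or] at hc
  obtain ⟨⟨d1, d2⟩, d3⟩ := hc
  apply hU
  have hG : (P0 n Z Z0).Gd (Real.log n ^ 8 / Z) U := not_not.1 d1
  have g1 := hG.hsm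
  have g2 := hG.hvmin
  have g3 := hG.iso
  have g4 := hG.rob
  have g5 := hG.deg
  rw [pb_eq, smax_eq] at g1
  have g2' : (P0 n Z Z0).vmin ≤ (gd (GU U (P0 n Z Z0).pb) (P0 n Z Z0).s0).card :=
    g2.trans (by exact_mod_cast Finset.card_le_card marks_sub)
  rw [pb_eq, s0_eq, vmin_eq] at g2'
  rw [pb_eq, s0_eq, pn_eq] at g3
  rw [pb_eq, s0_eq, pn_eq] at g4
  rw [pb_eq, s0_eq, pn_eq, Δ_eq H] at g5
  refine ⟨g1, g2', g3, g4, g5, ?_, ?_⟩
  · intro v
    by_contra h
    exact d2 ⟨v, not_le.1 h⟩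
  · intro v hv
    by_contra h
    exact d3 ⟨v, hv, not_le.1 h⟩

end num

end SoEnv

/-- good environments are typical -/
theorem soft_env {ε : ℝ} (hε : 0 < ε) (hε1 : ε ≤ 1 / 100) : ∀ᶠ n : ℕ in atTop, ∀ y : ℝ,
    1 / Real.log n ^ 3 ≤ y → y ≤ (n : ℝ) ^ ε →
    env n {U : Ev n | ¬ EnvS n ((n : ℝ) ^ ε) y U} ≤ ENNReal.ofReal (20 / Real.log n) := by
  filter_upwards [SoEnv.ev_nm hε hε1] with n hn y h1 h2
  exact SoEnv.main hn h1 h2

end

end Pool.Agent.TH972.U
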