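import Pool.Agent.TH972.U.SoEnv
import Pool.Agent.TH972.U.SoDet
import Pool.Agent.TH972.U.AvSum
import Pool.Agent.TH972.U.DnDet
import Pool.Agent.TH972.Lower

/-!
# Typical balls, soft regime (helper626)
-/

set_option autoImplicit false

namespace Pool.Agent.TH972.U

open Finset MeasureTheory Pool.Agent.W842.RST Pool.Agent.TH972 Filter Topology

noncomputable section

namespace SoTyp

lemma GG_eq {n : ℕ} (y : ℝ) (U : Ev n) (A : SimpleGraph (Fin n) → Prop) :
    GG (fun e => wA n y (U e)) A = GG (fun e => wexp (n * y) (U e)) A := by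
  have e : (fun e => wA n y (U e)) = fun e => Real.exp y * wexp (n * y) (U e) := by
    funext e
    unfold wA wexp
    rw [← Real.exp_add]
    congr 1
    ring
  rw [e, GG_scale (Real.exp_pos y)]

end SoTyp

theorem soft_typ {ε : ℝ} (hε : 0 < ε) (hε1 : ε ≤ 1 / 100) : ∀ᶠ n : ℕ in atTop, ∀ y : ℝ,
    1 / Real.log n ^ 3 ≤ y → y ≤ (n : ℝ) ^ ε →
    (1 - 30 / Real.log n) * n ≤ ∑ v, avgw (wexp (n * y)) n (fun T =>
      (n : ℝ) ^ (1 - 60 * ε) ≤ (ball T v ⌊(n : ℝ) ^ (1 / 2 - 5 * ε)⌋₊).card) ∧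
    1 - 30 / Real.log n ≤ avgw (wexp (n * y)) n (fun T =>
      (n : ℝ) ^ (1 / 2 - 30 * ε) ≤ T.diam) := by
  filter_upwards [soft_env hε hε1, soft_det hε hε1, eventually_ge_atTop 2] with n hE hD hn
  intro y hy1 hy2
  have hn1 : (1 : ℝ) < n := by
    have : 1 < n := by omega
    exact_mod_cast this
  have hn0 : (0 : ℝ) < n := by linarith
  have hlog : 0 < Real.log n := Real.log_pos hn1
  have hbad := hE y hy1 hy2
  have hdet := hD y hy1 hy2
  have e : (30 : ℝ) / Real.log n = 1 / Real.log n + 20 / Real.log n + 9 / Real.log n := by ring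
  have e9 : 0 < 9 / Real.log n := by positivity
  constructor
  · have h := avgw_sum_ge (w := wexp (n * y)) (n := n) (wexp_pos _) (wexp_meas _)
      (fun v T => (n : ℝ) ^ (1 - 60 * ε) ≤ (ball T v ⌊(n : ℝ) ^ (1 / 2 - 5 * ε)⌋₊).card)
      {U : Ev n | ¬ EnvS n ((n : ℝ) ^ ε) y U} (η := 20 / Real.log n) (δ := 1 / Real.log n)
      (by positivity) (by positivity) hbad (by
        intro U hU
        have hU1 : EnvS n ((n : ℝ) ^ ε) y U := by
          by_contra hcon
          exact hU hcon
        refine (hdet U hU1).1.trans (le_of_eq ?_)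
        exact Finset.sum_congr rfl fun v _ => SoTyp.GG_eq y U _)
    refine le_trans ?_ h
    apply mul_le_mul_of_nonneg_right _ hn0.le
    rw [e]
    linarith
  · have h := avgw_ge (w := wexp (n * y)) (n := n) (wexp_pos _) (wexp_meas _)
      (fun T => (n : ℝ) ^ (1 / 2 - 30 * ε) ≤ T.diam)
      {U : Ev n | ¬ EnvS n ((n : ℝ) ^ ε) y U} (η := 20 / Real.log n) (δ := 1 / Real.log n)
      (by positivity) (by positivity) hbad (by
        intro U hU
        have hU1 : EnvS n ((n : ℝ) ^ ε) y U := by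
          by_contra hcon
          exact hU hcon
        refine (hdet U hU1).2.trans (le_of_eq ?_)
        exact SoTyp.GG_eq y U _)
    refine le_trans ?_ h
    rw [e]
    linarith

end

end Pool.Agent.TH972.U
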