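import Pool.Agent.TH972.U.SoDef
import Pool.Agent.TH972.U.Rch
import Pool.Agent.TH972.U.Marks

/-!
# The number of vertices visited before the marks
(job RSTRE V-SoVis of helper972, written by helper811)
-/

set_option autoImplicit false
set_option linter.unusedSectionVars false

namespace Pool.Agent.TH972.U

open Finset MeasureTheory Pool.Agent.W842.RST Pool.Agent.TH972

noncomputable section

namespace SoVis

section general

variable {V : Type} [Fintype V] [DecidableEq V]

lemma exitP_nonneg (κ : Sym2 V → ℝ) (S : Finset V) (x w : V) : 0 ≤ exitP κ S x w := by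
  unfold exitP
  split_ifs with h
  · exact Finset.sum_nonneg fun u _ =>
      mul_nonneg (grn_nonneg _ _ _ _) (Kc_nonneg (fun e => (h.1 e).le) u w)
  · exact le_refl 0

/-- functions harmonic on `S` are represented by the exit distribution -/
lemma repr {κ : Sym2 V → ℝ} (hκ : ∀ e, 0 < κ e) {S : Finset V} (hS : (univ \ S).Nonempty)
    (φ : V → ℝ) (hφ : ∀ x ∈ S, cs κ x * φ x = ∑ w, Kc κ x w * φ w) {x : V} (hx : x ∈ S) :
    φ x = ∑ w ∈ univ \ S, exitP κ S x w * φ w := by
  set E := exN κ hκ (univ \ S) hS with hE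
  have hEκ : E.κ = κ := rfl
  have hEk : ∀ u ∈ S, E.k u = 0 := by
    intro u hu
    show (if u ∈ univ \ S then (1 : ℝ) else 0) = 0
    rw [if_neg]
    intro h
    exact (mem_sdiff.1 h).2 hu
  have hnot : ∀ u ∈ S, u ∉ univ \ S := fun u hu h => (mem_sdiff.1 h).2 hu
  have hex : ∀ w, exitP κ S x w = ∑ u ∈ S, grn E (univ \ S) x u * Kc κ u w := by
    intro w
    unfold exitP
    rw [dif_pos ⟨hκ, hS⟩]
  -- Green function identity
  have hG : ∀ w ∈ S, cs κ w * grn E (univ \ S) x w =
      (if w = x then 1 else 0) + ∑ u ∈ S, grn E (univ \ S) x u * Kc κ u w := by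
    intro w hw
    have h1 := grn_eq E (hnot w hw) (hnot x hx)
    rw [hEk w hw, add_zero, hEκ, grn_symm E _ w x] at h1
    rw [h1]
    congr 1
    rw [← Finset.sum_sdiff (Finset.subset_univ S)]
    have h2 : ∑ u ∈ univ \ S, Kc κ w u * grn E (univ \ S) u x = 0 :=
      Finset.sum_eq_zero fun u hu => by rw [grn_left E x hu, mul_zero]
    rw [h2, zero_add]
    apply Finset.sum_congr rfl
    intro u _
    rw [grn_symm E _ u x, Kc_symm κ w u]
    ring
  have h0 : ∑ u ∈ S, grn E (univ \ S) x u * (cs κ u * φ u) =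
      ∑ u ∈ S, grn E (univ \ S) x u * ∑ w, Kc κ u w * φ w :=
    Finset.sum_congr rfl fun u hu => by rw [hφ u hu]
  have h3 : ∑ u ∈ S, grn E (univ \ S) x u * (cs κ u * φ u) =
      φ x + ∑ w ∈ S, (∑ u ∈ S, grn E (univ \ S) x u * Kc κ u w) * φ w := by
    have e1 : ∀ u ∈ S, grn E (univ \ S) x u * (cs κ u * φ u) =
        (if u = x then φ u else 0) + (∑ v ∈ S, grn E (univ \ S) x v * Kc κ v u) * φ u := by
      intro u hu
      have := hG u hu
      have e : grn E (univ \ S) x u * (cs κ u * φ u) =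
          (cs κ u * grn E (univ \ S) x u) * φ u := by ring
      rw [e, this]
      split_ifs <;> ring
    rw [Finset.sum_congr rfl e1, Finset.sum_add_distrib, Finset.sum_ite_eq' S x, if_pos hx]
  have h4 : ∑ u ∈ S, grn E (univ \ S) x u * ∑ w, Kc κ u w * φ w =
      ∑ w ∈ univ \ S, (∑ u ∈ S, grn E (univ \ S) x u * Kc κ u w) * φ w +
        ∑ w ∈ S, (∑ u ∈ S, grn E (univ \ S) x u * Kc κ u w) * φ w := by
    rw [Finset.sum_sdiff (Finset.subset_univ S)]
    have e2 : ∀ u ∈ S, grn E (univ \ S) x u * ∑ w, Kc κ u w * φ w =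
        ∑ w, grn E (univ \ S) x u * Kc κ u w * φ w := by
      intro u _
      rw [Finset.mul_sum]
      exact Finset.sum_congr rfl fun w _ => by ring
    rw [Finset.sum_congr rfl e2, Finset.sum_comm]
    apply Finset.sum_congr rfl
    intro w _
    rw [Finset.sum_mul]
  have h5 : ∑ w ∈ univ \ S, exitP κ S x w * φ w =
      ∑ w ∈ univ \ S, (∑ u ∈ S, grn E (univ \ S) x u * Kc κ u w) * φ w :=
    Finset.sum_congr rfl fun w _ => by rw [hex w]
  rw [h5]
  linarith [h0, h3, h4]

lemma exitP_sum {κ : Sym2 V → ℝ} (hκ : ∀ e, 0 < κ e) {S : Finset V} {x : V} (hx : x ∈ S) :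
    ∑ w ∈ univ \ S, exitP κ S x w ≤ 1 := by
  by_cases hS : (univ \ S).Nonempty
  · have h := repr hκ hS (fun _ => 1) (fun x _ => by
      unfold cs
      simp) hx
    simp only [mul_one] at h
    rw [← h]
  · rw [Finset.not_nonempty_iff_eq_empty.1 hS, Finset.sum_empty]
    exact zero_le_one

end general

variable {n : ℕ}

lemma vq_nonneg {κ : Sym2 (Fin n) → ℝ} (pb : ℝ) (s0 : ℕ) (U : Ev n) (j : ℕ) :
    ∀ (S : Finset (Fin n)) (x : Fin n),
      0 ≤ vq (fun S x w _ => exitP κ S x w) pb s0 U j S x := by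
  induction j with
  | zero => intro S x; exact zero_le_one
  | succ j ih =>
    intro S x
    show 0 ≤ ∑ w ∈ univ \ S, _
    refine Finset.sum_nonneg fun w _ => ?_
    exact mul_nonneg (mul_nonneg (exitP_nonneg _ _ _ _) (ind_nonneg _)) (ih _ _)

/-- the cluster in the complement of a union of clusters -/
lemma rch_eq {pb : ℝ} {U : Ev n} {S : Finset (Fin n)}
    (hS : ∀ a ∈ S, ∀ b, (GU U pb).Reachable a b → b ∈ S) {w : Fin n} (hw : w ∉ S) :
    rch pb U {w} (univ \ S) = cmp (GU U pb) w := by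
  apply Subset.antisymm
  · intro u hu
    obtain ⟨a, ha, q, -⟩ := Rch.mem_rch.1 hu
    rw [mem_singleton] at ha
    subst ha
    exact Marks.mem_cmp.2 ⟨q⟩
  · intro u hu
    obtain ⟨q⟩ := Marks.mem_cmp.1 hu
    refine Rch.mem_rch.2 ⟨w, mem_singleton_self w, q, ?_⟩
    intro z hz
    refine mem_union_right _ (mem_sdiff.2 ⟨mem_univ z, fun hzS => hw ?_⟩)
    exact hS z hzS w ((q.takeUntil z hz).reachable.symm)

section net

variable {U : Ev n} {pb : ℝ} {s0 : ℕ} (P : PN (Fin n)) {k : ℝ} (hk : 0 < k)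

/-- probability to visit `u` before the marks -/
def Hv (x u : Fin n) : ℝ := grn (P.net k hk) P.M x u / grn (P.net k hk) P.M u u

lemma Hv_nonneg (x u : Fin n) : 0 ≤ Hv P hk x u := div_nonneg (grn_nonneg _ _ _ _) (grn_nonneg _ _ _ _)

lemma Hv_le_one (x u : Fin n) : Hv P hk x u ≤ 1 :=
  div_le_one_of_le₀ (grn_le_diag _ _ _ _) (grn_nonneg _ _ _ _)

lemma Hv_mem {x : Fin n} (hx : x ∈ P.M) (u : Fin n) : Hv P hk x u = 0 := by
  unfold Hv
  rw [grn_left _ _ hx, zero_div]

lemma Hv_harm {S : Finset (Fin n)} (hSM : Disjoint S P.M) {u : Fin n} (hu : u ∉ S) (huM : u ∉ P.M) :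
    ∀ x ∈ S, cs P.κ x * Hv P hk x u = ∑ w, Kc P.κ x w * Hv P hk w u := by
  intro x hx
  have hxM : x ∉ P.M := Finset.disjoint_left.1 hSM hx
  have h1 := grn_eq (P.net k hk) hxM huM
  have h2 : (P.net k hk).k x = 0 := by
    show (if x ∈ P.M then k else 0) = 0
    rw [if_neg hxM]
  have h3 : x ≠ u := fun h => hu (h ▸ hx)
  rw [h2, add_zero, if_neg h3, zero_add] at h1
  have h1' : cs P.κ x * grn (P.net k hk) P.M x u = ∑ w, Kc P.κ x w * grn (P.net k hk) P.M w u := h1
  unfold Hv
  rw [← mul_div_assoc, h1', Finset.sum_div]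
  exact Finset.sum_congr rfl fun w _ => by ring

/-- the split of the sum over a cluster -/
lemma split (T C : Finset (Fin n)) (x : Fin n) :
    ∑ u ∈ univ \ T, Hv P hk x u ≤ C.card + ∑ u ∈ univ \ (T ∪ C), Hv P hk x u := by
  have h1 : univ \ T ⊆ C ∪ (univ \ (T ∪ C)) := by
    intro u hu
    rw [mem_sdiff] at hu
    by_cases huC : u ∈ C
    · exact mem_union_left _ huC
    · refine mem_union_right _ (mem_sdiff.2 ⟨mem_univ u, fun h => ?_⟩)
      rcases mem_union.1 h with h | h
      · exact hu.2 h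
      · exact huC h
  calc ∑ u ∈ univ \ T, Hv P hk x u ≤ ∑ u ∈ C ∪ (univ \ (T ∪ C)), Hv P hk x u :=
        Finset.sum_le_sum_of_subset_of_nonneg h1 fun u _ _ => Hv_nonneg P hk x u
    _ ≤ ∑ u ∈ C, Hv P hk x u + ∑ u ∈ univ \ (T ∪ C), Hv P hk x u := by
        rw [← Finset.sum_union_inter]
        have : 0 ≤ ∑ u ∈ C ∩ (univ \ (T ∪ C)), Hv P hk x u :=
          Finset.sum_nonneg fun u _ => Hv_nonneg P hk x u
        linarith
    _ ≤ C.card + ∑ u ∈ univ \ (T ∪ C), Hv P hk x u := by
        have : ∑ u ∈ C, Hv P hk x u ≤ ∑ u ∈ C, (1 : ℝ) :=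
          Finset.sum_le_sum fun u _ => Hv_le_one P hk x u
        rw [Finset.sum_const, nsmul_eq_mul, mul_one] at this
        linarith

lemma main (hM : P.M = gd (GU U pb) s0) (j : ℕ) :
    ∀ (S : Finset (Fin n)) (x : Fin n), (∀ a ∈ S, ∀ b, (GU U pb).Reachable a b → b ∈ S) →
      Disjoint S P.M → x ∈ S →
      ∑ u ∈ univ \ (P.M ∪ S), Hv P hk x u ≤
        s0 * j + n * vq (fun S x w _ => exitP P.κ S x w) pb s0 U j S x := by
  induction j with
  | zero =>
    intro S x _ _ _
    have h1 : ∑ u ∈ univ \ (P.M ∪ S), Hv P hk x u ≤ ∑ u ∈ (univ : Finset (Fin n)), (1 : ℝ) :=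
      (Finset.sum_le_sum_of_subset_of_nonneg (Finset.sdiff_subset) fun u _ _ =>
        Hv_nonneg P hk x u).trans (Finset.sum_le_sum fun u _ => Hv_le_one P hk x u)
    rw [Finset.sum_const, nsmul_eq_mul, mul_one, Finset.card_univ, Fintype.card_fin] at h1
    show _ ≤ (s0 : ℝ) * ((0 : ℕ) : ℝ) + n * 1
    push_cast
    linarith
  | succ j ih =>
    intro S x hS hSM hx
    have hne : (univ \ S).Nonempty := by
      obtain ⟨m, hm⟩ := P.M_ne
      exact ⟨m, mem_sdiff.2 ⟨mem_univ m, fun h => Finset.disjoint_left.1 hSM h hm⟩⟩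
    have h1 : ∑ u ∈ univ \ (P.M ∪ S), Hv P hk x u =
        ∑ w ∈ univ \ S, exitP P.κ S x w * ∑ u ∈ univ \ (P.M ∪ S), Hv P hk w u := by
      have e1 : ∀ u ∈ univ \ (P.M ∪ S), Hv P hk x u =
          ∑ w ∈ univ \ S, exitP P.κ S x w * Hv P hk w u := by
        intro u hu
        have hu' := (mem_sdiff.1 hu).2
        rw [mem_union, not_or] at hu'
        exact repr P.κ_pos hne (fun w => Hv P hk w u) (Hv_harm P hk hSM hu'.2 hu'.1) hx
      rw [Finset.sum_congr rfl e1, Finset.sum_comm]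
      apply Finset.sum_congr rfl
      intro w _
      rw [Finset.mul_sum]
    have h2 : ∀ w ∈ univ \ S, exitP P.κ S x w * ∑ u ∈ univ \ (P.M ∪ S), Hv P hk w u ≤
        exitP P.κ S x w * ((s0 : ℝ) * (j + 1)) +
          n * (exitP P.κ S x w * ind ((rch pb U {w} (univ \ S)).card < s0) *
            vq (fun S x w _ => exitP P.κ S x w) pb s0 U j (S ∪ rch pb U {w} (univ \ S)) w) := by
      intro w hw
      have hwS := (mem_sdiff.1 hw).2
      have he := exitP_nonneg P.κ S x w
      by_cases hwM : w ∈ P.M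
      · have e0 : ∑ u ∈ univ \ (P.M ∪ S), Hv P hk w u = 0 :=
          Finset.sum_eq_zero fun u _ => Hv_mem P hk hwM u
        rw [e0, mul_zero]
        have a1 : 0 ≤ exitP P.κ S x w * ((s0 : ℝ) * (j + 1)) := by positivity
        have a2 : 0 ≤ (n : ℝ) * (exitP P.κ S x w * ind ((rch pb U {w} (univ \ S)).card < s0) *
            vq (fun S x w _ => exitP P.κ S x w) pb s0 U j (S ∪ rch pb U {w} (univ \ S)) w) :=
          mul_nonneg (Nat.cast_nonneg n) (mul_nonneg (mul_nonneg he (ind_nonneg _))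
            (vq_nonneg pb s0 U j _ _))
        linarith
      · have hr := rch_eq hS hwS
        have hcard : (cmp (GU U pb) w).card < s0 := by
          by_contra hcon
          apply hwM
          rw [hM]
          exact Marks.mem_gd.2 (not_lt.1 hcon)
        have hind : ind ((rch pb U {w} (univ \ S)).card < s0) = 1 := by
          unfold ind
          rw [if_pos (by rw [hr]; exact hcard)]
        rw [hind, mul_one, hr]
        -- the new set
        have hS' : ∀ a ∈ S ∪ cmp (GU U pb) w, ∀ b, (GU U pb).Reachable a b →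
            b ∈ S ∪ cmp (GU U pb) w := by
          intro a ha b hab
          rcases mem_union.1 ha with ha | ha
          · exact mem_union_left _ (hS a ha b hab)
          · exact mem_union_right _ (Marks.mem_cmp.2 ((Marks.mem_cmp.1 ha).trans hab))
        have hM' : Disjoint (S ∪ cmp (GU U pb) w) P.M := by
          rw [Finset.disjoint_union_left]
          refine ⟨hSM, Finset.disjoint_left.2 fun z hz hzM => ?_⟩
          rw [hM, Marks.mem_gd, Marks.cmp_eq hz] at hzM
          omega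
        have hih := ih (S ∪ cmp (GU U pb) w) w hS' hM'
          (mem_union_right _ (Marks.self_mem_cmp w))
        have hsp := split P hk (P.M ∪ S) (cmp (GU U pb) w) w
        rw [Finset.union_assoc] at hsp
        have hc : ((cmp (GU U pb) w).card : ℝ) ≤ s0 := by exact_mod_cast hcard.le
        have hfin : ∑ u ∈ univ \ (P.M ∪ S), Hv P hk w u ≤ (s0 : ℝ) * (j + 1) +
            n * vq (fun S x w _ => exitP P.κ S x w) pb s0 U j (S ∪ cmp (GU U pb) w) w := by
          linarith
        have := mul_le_mul_of_nonneg_left hfin he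
        calc _ ≤ _ := this
          _ = _ := by ring
    have h3 := Finset.sum_le_sum h2
    rw [← h1, Finset.sum_add_distrib, ← Finset.sum_mul, ← Finset.mul_sum] at h3
    have h4 := mul_le_mul_of_nonneg_right (exitP_sum P.κ_pos hx)
      (show (0 : ℝ) ≤ (s0 : ℝ) * (j + 1) by positivity)
    have h5 : vq (fun S x w _ => exitP P.κ S x w) pb s0 U (j + 1) S x =
        ∑ w ∈ univ \ S, exitP P.κ S x w * ind ((rch pb U {w} (univ \ S)).card < s0) *
          vq (fun S x w _ => exitP P.κ S x w) pb s0 U j (S ∪ rch pb U {w} (univ \ S)) w := rfl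
    rw [h5]
    push_cast
    linarith

end net

end SoVis

variable {n : ℕ}

/-- number of vertices visited before the marks -/
theorem vis_net (U : Ev n) {pb : ℝ} {s0 : ℕ} (P : PN (Fin n)) (hM : P.M = gd (GU U pb) s0)
    {k : ℝ} (hk : 0 < k) (j : ℕ) (v : Fin n) (hv : v ∉ P.M) :
    ∑ u ∈ univ \ P.M, grn (P.net k hk) P.M v u / grn (P.net k hk) P.M u u ≤
      s0 * (j + 1) + n * vq (fun S x w _ => exitP P.κ S x w) pb s0 U j (cmp (GU U pb) v) v := by
  have hcard : (cmp (GU U pb) v).card < s0 := by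
    by_contra hcon
    apply hv
    rw [hM]
    exact Marks.mem_gd.2 (not_lt.1 hcon)
  have h1 := SoVis.split P hk P.M (cmp (GU U pb) v) v
  have h2 := SoVis.main P hk hM j (cmp (GU U pb) v) v
    (fun a ha b hab => Marks.mem_cmp.2 ((Marks.mem_cmp.1 ha).trans hab))
    (Finset.disjoint_left.2 fun z hz hzM => by
      rw [hM, Marks.mem_gd, Marks.cmp_eq hz] at hzM
      omega) (Marks.self_mem_cmp v)
  have hc : ((cmp (GU U pb) v).card : ℝ) ≤ s0 := by exact_mod_cast hcard.le
  show ∑ u ∈ univ \ P.M, SoVis.Hv P hk v u ≤ _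
  linarith

end

end Pool.Agent.TH972.U
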