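import Pool.Agent.TH972.U.VBas
import Pool.Agent.TH972.U.VDef
import Pool.Agent.TH972.U.Forest

/-!
# Wilson's algorithm
-/

set_option autoImplicit false
set_option linter.unusedSectionVars false
set_option maxHeartbeats 4000000

namespace Pool.Agent.TH972.U

open Finset

noncomputable section

variable {V : Type} [Fintype V] [DecidableEq V]

namespace Wil

open Forest LEx

lemma mem_anc {f : V → Option V} {x z : V} :
    z ∈ anc f x ↔ ∃ j : ℕ, (fun o : Option V => o.bind f)^[j] (some x) = some z := by
  simp only [anc, mem_filter, mem_univ, true_and]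

lemma self_mem (f : V → Option V) (x : V) : x ∈ anc f x := mem_anc.2 ⟨0, rfl⟩

lemma iter_none (f : V → Option V) (j : ℕ) :
    (fun o : Option V => o.bind f)^[j] none = none := by
  induction j with
  | zero => rfl
  | succ j ih =>
    rw [Function.iterate_succ_apply]
    exact ih

lemma anc_none {f : V → Option V} {x : V} (h : f x = none) : anc f x = {x} := by
  ext z
  rw [mem_anc, mem_singleton]
  constructor
  · rintro ⟨j, hj⟩
    cases j with
    | zero => exact (Option.some.inj hj).symm
    | succ j =>
      rw [Function.iterate_succ_apply] at hj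
      have h1 : (some x : Option V).bind f = none := h
      simp only [h1] at hj
      rw [iter_none] at hj
      exact absurd hj (by simp)
  · rintro rfl
    exact ⟨0, rfl⟩

lemma anc_some {f : V → Option V} {x w : V} (h : f x = some w) :
    anc f x = insert x (anc f w) := by
  ext z
  rw [mem_anc, mem_insert, mem_anc]
  have h1 : (some x : Option V).bind f = some w := h
  constructor
  · rintro ⟨j, hj⟩
    cases j with
    | zero => exact Or.inl (Option.some.inj hj).symm
    | succ j =>
      rw [Function.iterate_succ_apply] at hj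
      simp only [h1] at hj
      exact Or.inr ⟨j, hj⟩
  · rintro (rfl | ⟨j, hj⟩)
    · exact ⟨0, rfl⟩
    · refine ⟨j + 1, ?_⟩
      rw [Function.iterate_succ_apply]
      simp only [h1]
      exact hj

/-- the iterates agree if the functions agree along the path -/
lemma iter_agree {f g : V → Option V} {x : V} (h : ∀ z ∈ anc f x, f z = g z) (j : ℕ) :
    (fun o : Option V => o.bind g)^[j] (some x) = (fun o : Option V => o.bind f)^[j] (some x) := by
  induction j with
  | zero => rfl
  | succ j ih =>
    rw [Function.iterate_succ_apply', Function.iterate_succ_apply', ih]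
    rcases hz : (fun o : Option V => o.bind f)^[j] (some x) with _ | z
    · rfl
    · have h1 := h z (mem_anc.2 ⟨j, hz⟩)
      exact h1.symm

lemma anc_agree {f g : V → Option V} {x : V} (h : ∀ z ∈ anc f x, f z = g z) :
    anc g x = anc f x := by
  ext z
  rw [mem_anc, mem_anc]
  constructor
  · rintro ⟨j, hj⟩
    exact ⟨j, by rw [← iter_agree h j]; exact hj⟩
  · rintro ⟨j, hj⟩
    exact ⟨j, by rw [iter_agree h j]; exact hj⟩

lemma rch_agree {f g : V → Option V} {x : V} (h : ∀ z ∈ anc f x, f z = g z) (hf : Rch f x) :
    Rch g x := by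
  obtain ⟨j, hj⟩ := hf
  exact ⟨j, by rw [iter_agree h j]; exact hj⟩

/-- a vertex is not on the path of its successor -/
lemma not_mem_anc {f : V → Option V} (hf : ∀ x, Rch f x) {x w : V} (h : f x = some w) :
    x ∉ anc f w := by
  obtain ⟨d, hd⟩ := exists_depth f hf
  have key : ∀ (j : ℕ) (w z : V), (fun o : Option V => o.bind f)^[j] (some w) = some z →
      d z ≤ d w := by
    intro j
    induction j with
    | zero =>
      intro w z hz
      rw [Option.some.inj hz]
    | succ j ih =>
      intro w z hz
      rw [Function.iterate_succ_apply] at hz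
      rcases hw : f w with _ | u
      · have h1 : (some w : Option V).bind f = none := hw
        simp only [h1] at hz
        rw [iter_none] at hz
        exact absurd hz (by simp)
      · have h1 : (some w : Option V).bind f = some u := hw
        simp only [h1] at hz
        have h2 := ih u z hz
        have h3 := hd w u hw
        omega
  intro hx
  obtain ⟨j, hj⟩ := mem_anc.1 hx
  have h1 := key j w x hj
  have h2 := hd x w h
  omega

lemma Zf_pos (N : Net V) (D : Finset V) : 0 < Zf N D := by
  classical
  obtain ⟨n, hn⟩ : ∃ n, (univ \ D).card = n := ⟨_, rfl⟩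
  induction n using Nat.strong_induction_on generalizing D with
  | _ n ih =>
    rcases (univ \ D).eq_empty_or_nonempty with h0 | ⟨x, hx⟩
    · unfold Zf
      refine sum_pos' (fun f _ => wF_nonneg N D f) ⟨fun _ => none, ?_, ?_⟩
      · simp only [mem_filter, mem_univ, true_and]
        exact ⟨fun _ _ => rfl, fun x => rch_none rfl⟩
      · rw [wF_eq, h0, prod_empty]
        exact one_pos
    · have hxD := (mem_sdiff.1 hx).2
      have h2 := ih _ (hn ▸ card_insert_lt hxD) (insert x D) rfl
      rw [Zf_insert N hxD] at h2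
      exact (pos_iff_pos_of_mul_pos h2).1 (grn_pos N hxD)

open Classical in
/-- the weight of the forests for which the path of `x` avoids `D`, with a function of the path -/
def AA (N : Net V) (D : Finset V) (x : V) (G : Finset V → ℝ) : ℝ :=
  ∑ f ∈ univ.filter (fun f : V → Option V => IsFor D f),
    wF N D f * (if Disjoint (anc f x) D then G (anc f x) else 0)

lemma AA_mem (N : Net V) {D : Finset V} {x : V} (hx : x ∈ D) (G : Finset V → ℝ) :
    AA N D x G = 0 := by
  unfold AA
  refine sum_eq_zero fun f _ => ?_
  rw [if_neg, mul_zero]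
  exact fun h => (disjoint_left.1 h) (self_mem f x) hx

lemma wF_step (N : Net V) {D : Finset V} {x : V} (hx : x ∉ D) (f : V → Option V) :
    wF N D f = wo N x (f x) * wF N (insert x D) f := by
  rw [wF_eq, wF_eq, ← mul_prod_erase (univ \ D) _ (mem_sdiff.2 ⟨mem_univ x, hx⟩)]
  congr 2
  ext z
  simp only [mem_erase, mem_sdiff, mem_univ, true_and, mem_insert, not_or]

lemma wF_congr (N : Net V) (D : Finset V) {f g : V → Option V} (h : ∀ z, z ∉ D → f z = g z) :
    wF N D f = wF N D g := by
  rw [wF_eq, wF_eq]
  exact prod_congr rfl fun z hz => by rw [h z (mem_sdiff.1 hz).2]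

/-- the first step of the path -/
theorem AA_step (N : Net V) {D : Finset V} {x : V} (hx : x ∉ D) (G : Finset V → ℝ) :
    AA N D x G = N.k x * G {x} * Zf N (insert x D) +
      ∑ w, Kc N.κ x w * AA N (insert x D) w (fun P => G (insert x P)) := by
  classical
  have h1 : AA N D x G = ∑ o : Option V, ∑ f ∈ (univ.filter (fun f : V → Option V =>
      IsFor D f)).filter (fun f => f x = o),
      wF N D f * (if Disjoint (anc f x) D then G (anc f x) else 0) := by
    unfold AA
    rw [sum_fiberwise]
  rw [h1, Fintype.sum_option]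
  congr 1
  · -- the root
    have h2 : (univ.filter (fun f : V → Option V => IsFor D f)).filter (fun f => f x = none) =
        univ.filter (fun f : V → Option V => IsFor (insert x D) f) := by
      ext f
      simp only [mem_filter, mem_univ, true_and]
      constructor
      · rintro ⟨h3, h4⟩
        refine ⟨fun z hz => ?_, h3.2⟩
        rcases mem_insert.1 hz with rfl | hz
        · exact h4
        · exact h3.1 z hz
      · rintro ⟨h3, h4⟩
        exact ⟨⟨fun z hz => h3 z (mem_insert_of_mem hz), h4⟩, h3 x (mem_insert_self x D)⟩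
    rw [h2]
    have h3 : ∀ f ∈ univ.filter (fun f : V → Option V => IsFor (insert x D) f),
        wF N D f * (if Disjoint (anc f x) D then G (anc f x) else 0) =
        N.k x * G {x} * wF N (insert x D) f := by
      intro f hf
      have hf' : f x = none := (mem_filter.1 hf).2.1 x (mem_insert_self x D)
      rw [wF_step N hx, hf', anc_none hf', if_pos (disjoint_singleton_left.2 hx)]
      show N.k x * _ * _ = _
      ring
    rw [sum_congr rfl h3, ← mul_sum]
    unfold Zf
    congr 1
  · refine sum_congr rfl fun w _ => ?_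
    unfold AA
    rw [mul_sum]
    -- only the terms with disjoint paths
    have h2 : ∑ f ∈ (univ.filter (fun f : V → Option V => IsFor D f)).filter
        (fun f => f x = some w),
        wF N D f * (if Disjoint (anc f x) D then G (anc f x) else 0) =
        ∑ f ∈ univ.filter (fun f : V → Option V => IsFor D f ∧ f x = some w ∧
          Disjoint (anc f x) D), wF N D f * G (anc f x) := by
      rw [filter_filter, sum_filter, sum_filter]
      refine sum_congr rfl fun f _ => ?_
      by_cases ha : IsFor D f ∧ f x = some w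
      · by_cases hb : Disjoint (anc f x) D
        · rw [if_pos ha, if_pos hb, if_pos ⟨ha.1, ha.2, hb⟩]
        · rw [if_pos ha, if_neg hb, if_neg (fun h => hb h.2.2), mul_zero]
      · rw [if_neg ha, if_neg (fun h => ha ⟨h.1, h.2.1⟩)]
    have h3 : ∑ f ∈ univ.filter (fun f : V → Option V => IsFor (insert x D) f),
        Kc N.κ x w * (wF N (insert x D) f * (if Disjoint (anc f w) (insert x D) then
          G (insert x (anc f w)) else 0)) =
        ∑ f ∈ univ.filter (fun f : V → Option V => IsFor (insert x D) f ∧
          Disjoint (anc f w) (insert x D)),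
          Kc N.κ x w * (wF N (insert x D) f * G (insert x (anc f w))) := by
      rw [sum_filter, sum_filter]
      refine sum_congr rfl fun f _ => ?_
      by_cases ha : IsFor (insert x D) f
      · by_cases hb : Disjoint (anc f w) (insert x D)
        · rw [if_pos ha, if_pos hb, if_pos ⟨ha, hb⟩]
        · rw [if_pos ha, if_neg hb, if_neg (fun h => hb h.2), mul_zero, mul_zero]
      · rw [if_neg ha, if_neg (fun h => ha h.1)]
    have h4 : ∑ f ∈ univ.filter (fun f : V → Option V => IsFor (insert x D) f),
        Kc N.κ x w * (wF N (insert x D) f * (if Disjoint (anc f w) (insert x D) then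
          G (insert x (anc f w)) else 0)) = ∑ i ∈ univ.filter
          (fun f : V → Option V => IsFor (insert x D) f), Kc N.κ x w * (wF N (insert x D) i *
          (if Disjoint (anc i w) (insert x D) then G (insert x (anc i w)) else 0)) := rfl
    rw [h2]
    refine Eq.trans ?_ (h3.symm.trans ?_)
    · refine sum_bij' (fun f _ => Function.update f x none) (fun f _ => Function.update f x (some w))
        ?_ ?_ ?_ ?_ ?_
      · intro f hf
        simp only [mem_filter, mem_univ, true_and] at hf ⊢
        obtain ⟨hf1, hf2, hf3⟩ := hf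
        have hxw := not_mem_anc hf1.2 hf2
        have hag : ∀ z ∈ anc f w, f z = Function.update f x none z := by
          intro z hz
          have : z ≠ x := fun h => hxw (h ▸ hz)
          rw [Function.update_of_ne this]
        refine ⟨⟨?_, ?_⟩, ?_⟩
        · intro z hz
          rcases mem_insert.1 hz with rfl | hz
          · rw [Function.update_self]
          · have : z ≠ x := fun h => hx (h ▸ hz)
            rw [Function.update_of_ne this]
            exact hf1.1 z hz
        · have h5 := (cut_isFor {x} hf1.2).2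
          have h6 : cut {x} f = Function.update f x none := by
            funext z
            unfold cut
            by_cases hz : z = x
            · subst hz
              rw [if_pos (mem_singleton_self z), Function.update_self]
            · rw [if_neg (fun h => hz (mem_singleton.1 h)), Function.update_of_ne hz]
          rw [h6] at h5
          exact h5
        · rw [anc_agree hag, disjoint_insert_right]
          refine ⟨hxw, ?_⟩
          rw [anc_some hf2] at hf3
          exact disjoint_of_subset_left (subset_insert _ _) hf3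
      · intro f hf
        simp only [mem_filter, mem_univ, true_and] at hf ⊢
        obtain ⟨hf1, hf2⟩ := hf
        have hf3 := disjoint_insert_right.1 hf2
        have hag : ∀ z ∈ anc f w, f z = Function.update f x (some w) z := by
          intro z hz
          have : z ≠ x := fun h => hf3.1 (h ▸ hz)
          rw [Function.update_of_ne this]
        have hx' : Function.update f x (some w) x = some w := Function.update_self _ _ _
        have hRw : Rch (Function.update f x (some w)) w := rch_agree hag (hf1.2 w)
        have hRx : Rch (Function.update f x (some w)) x := (rch_some hx').2 hRw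
        refine ⟨⟨?_, ?_⟩, hx', ?_⟩
        · intro z hz
          have : z ≠ x := fun h => hx (h ▸ hz)
          rw [Function.update_of_ne this]
          exact hf1.1 z (mem_insert_of_mem hz)
        · intro v
          refine rch_induction (f := f) (P := fun v => Rch (Function.update f x (some w)) v)
            ?_ ?_ (hf1.2 v)
          · intro v hv
            by_cases hvx : v = x
            · rw [hvx]
              exact hRx
            · exact rch_none (by rw [Function.update_of_ne hvx]; exact hv)
          · intro v u hvu hu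
            have hvx : v ≠ x := by
              rintro rfl
              rw [hf1.1 v (mem_insert_self v D)] at hvu
              simp at hvu
            exact (rch_some (by rw [Function.update_of_ne hvx]; exact hvu)).2 hu
        · rw [anc_some hx', anc_agree hag, disjoint_insert_left]
          exact ⟨hx, hf3.2⟩
      · intro f hf
        simp only [mem_filter, mem_univ, true_and] at hf
        rw [Function.update_idem, ← hf.2.1, Function.update_eq_self]
      · intro f hf
        simp only [mem_filter, mem_univ, true_and] at hf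
        rw [Function.update_idem, ← hf.1.1 x (mem_insert_self x D), Function.update_eq_self]
      · intro f hf
        simp only [mem_filter, mem_univ, true_and] at hf
        obtain ⟨hf1, hf2, hf3⟩ := hf
        have hxw := not_mem_anc hf1.2 hf2
        have hag : ∀ z ∈ anc f w, f z = Function.update f x none z := by
          intro z hz
          have : z ≠ x := fun h => hxw (h ▸ hz)
          rw [Function.update_of_ne this]
        rw [anc_agree hag, anc_some hf2, wF_step N hx, hf2, wF_congr N (insert x D)
          (f := Function.update f x none) (g := f) (fun z hz => by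
            rw [mem_insert, not_or] at hz
            rw [Function.update_of_ne hz.1])]
        show Kc N.κ x w * _ * _ = _
        ring
    · refine sum_congr (by congr!) fun f _ => by congr!

theorem AA_one (N : Net V) (D : Finset V) (x : V) :
    AA N D x (fun _ => 1) = Zf N D * surv N D x := by
  refine ind (P := fun D x => AA N D x (fun _ => 1) = Zf N D * surv N D x) ?_ D x
  intro D x ih
  by_cases hx : x ∈ D
  · rw [AA_mem N hx, surv_mem N hx, mul_zero]
  · have h := ih hx
    rw [AA_step N hx]
    simp only [h]
    rw [surv_eq N hx, Zf_insert N hx]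
    have e : ∑ w, Kc N.κ x w * (grn N D x x * Zf N D * surv N (insert x D) w) =
        grn N D x x * Zf N D * ∑ w, Kc N.κ x w * surv N (insert x D) w := by
      rw [mul_sum]
      exact sum_congr rfl fun w _ => by ring
    rw [e]
    ring

open Classical in
/-- the path meets `B` -/
def GB (B : Finset V) (P : Finset V) : ℝ := if ∃ z ∈ P, z ∈ B then 1 else 0

theorem AA_hit (N : Net V) (B D : Finset V) (x : V) :
    AA N D x (GB B) ≤ Zf N D * (surv N D x - surv N (D ∪ B) x) := by
  classical
  refine ind (P := fun D x => AA N D x (GB B) ≤ Zf N D * (surv N D x - surv N (D ∪ B) x)) ?_ D x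
  intro D x ih
  have hZ := Zf_pos N D
  by_cases hx : x ∈ D
  · rw [AA_mem N hx, surv_mem N hx, surv_mem N (mem_union_left B hx)]
    simp
  by_cases hB : x ∈ B
  · rw [surv_mem N (mem_union_right D hB), sub_zero, ← AA_one]
    refine le_of_eq ?_
    unfold AA
    refine sum_congr rfl fun f _ => ?_
    by_cases hd : Disjoint (anc f x) D
    · rw [if_pos hd, if_pos hd]
      unfold GB
      rw [if_pos ⟨x, self_mem f x, hB⟩]
    · rw [if_neg hd, if_neg hd]
  · have h := ih hx
    rw [AA_step N hx]
    have e1 : GB B {x} = 0 := by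
      unfold GB
      rw [if_neg]
      rintro ⟨z, hz, hz'⟩
      rw [mem_singleton] at hz
      exact hB (hz ▸ hz')
    have e2 : (fun P => GB B (insert x P)) = GB B := by
      funext P
      unfold GB
      have e3 : (∃ z ∈ insert x P, z ∈ B) ↔ ∃ z ∈ P, z ∈ B := by
        constructor
        · rintro ⟨z, hz, hz'⟩
          rcases mem_insert.1 hz with rfl | hz
          · exact absurd hz' hB
          · exact ⟨z, hz, hz'⟩
        · rintro ⟨z, hz, hz'⟩
          exact ⟨z, mem_insert_of_mem hz, hz'⟩
      simp only [e3]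
    rw [e1, e2, mul_zero, zero_mul, zero_add]
    have hxB : x ∉ D ∪ B := fun h => (mem_union.1 h).elim hx hB
    have h1 : ∑ w, Kc N.κ x w * AA N (insert x D) w (GB B) ≤
        ∑ w, Kc N.κ x w * (Zf N (insert x D) * (surv N (insert x D) w -
          surv N (insert x D ∪ B) w)) :=
      sum_le_sum fun w _ => mul_le_mul_of_nonneg_left (h w) (Grn.Kc_nn N x w)
    refine h1.trans ?_
    have h2 := surv_eq N hx
    have h3 := surv_eq N hxB
    have h4 : grn N (D ∪ B) x x ≤ grn N D x x := grn_anti N subset_union_left x x
    have h5 : 0 ≤ N.k x + ∑ w, Kc N.κ x w * surv N (insert x (D ∪ B)) w :=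
      add_nonneg (N.k_nonneg x) (sum_nonneg fun w _ =>
        mul_nonneg (Grn.Kc_nn N x w) (surv_nonneg N _ w))
    have h6 : surv N (D ∪ B) x ≤
        grn N D x x * (N.k x + ∑ w, Kc N.κ x w * surv N (insert x (D ∪ B)) w) := by
      rw [h3]
      exact mul_le_mul_of_nonneg_right h4 h5
    have h7 : ∑ w, Kc N.κ x w * (Zf N (insert x D) * (surv N (insert x D) w -
          surv N (insert x D ∪ B) w)) = Zf N D * (grn N D x x *
          (N.k x + ∑ w, Kc N.κ x w * surv N (insert x D) w) -
          grn N D x x * (N.k x + ∑ w, Kc N.κ x w * surv N (insert x (D ∪ B)) w)) := by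
      rw [Zf_insert N hx, insert_union, ← mul_sub, add_sub_add_left_eq_sub,
        ← sum_sub_distrib, mul_sum, mul_sum]
      exact sum_congr rfl fun w _ => by ring
    rw [h7, ← h2]
    exact mul_le_mul_of_nonneg_left (by linarith) hZ.le

theorem hit_le (N : Net V) (D B : Finset V) (y : V) {g0 : ℝ} (hg0 : 0 < g0)
    (hB : ∀ b ∈ B, g0 ≤ grn N ∅ b y) (x : V) :
    surv N D x - surv N (D ∪ B) x ≤ grn N ∅ x y / g0 := by
  have h := max_pr N (D ∪ B) (fun x => surv N D x - surv N (D ∪ B) x - grn N ∅ x y / g0) ?_ ?_ x
  · linarith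
  · intro z hz
    rw [surv_mem N hz]
    have h1 : 0 ≤ grn N ∅ z y / g0 := div_nonneg (grn_nonneg N ∅ z y) hg0.le
    rcases mem_union.1 hz with h | h
    · rw [surv_mem N h]
      linarith
    · have h2 : 1 ≤ grn N ∅ z y / g0 := by
        rw [le_div_iff₀ hg0, one_mul]
        exact hB z h
      have h3 := surv_le_one N D z
      linarith
  · intro z hz
    have hzD : z ∉ D := fun h => hz (mem_union_left B h)
    have h1 := surv_harm N hzD
    have h2 := surv_harm N hz
    have h3 := grn_eq N (D := ∅) (x := z) (y := y) (by simp) (by simp)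
    have h4 : ∑ w, Kc N.κ z w * (surv N D w - surv N (D ∪ B) w - grn N ∅ w y / g0) =
        (∑ w, Kc N.κ z w * surv N D w) - (∑ w, Kc N.κ z w * surv N (D ∪ B) w) -
          (∑ w, Kc N.κ z w * grn N ∅ w y) / g0 := by
      rw [sum_div, ← sum_sub_distrib, ← sum_sub_distrib]
      exact sum_congr rfl fun w _ => by ring
    rw [h4]
    have h5 : (cs N.κ z + N.k z) * (grn N ∅ z y / g0) =
        ((if z = y then 1 else 0) + ∑ w, Kc N.κ z w * grn N ∅ w y) / g0 := by
      rw [← h3]
      ring
    have h6 : (0 : ℝ) ≤ (if z = y then 1 else 0) / g0 := by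
      split_ifs <;> positivity
    rw [add_div] at h5
    nlinarith

/-! ### the partition of the forests by the skeleton -/

lemma anc_closed {f : V → Option V} {x z u : V} (hz : z ∈ anc f x) (hu : f z = some u) :
    u ∈ anc f x := by
  obtain ⟨j, hj⟩ := mem_anc.1 hz
  refine mem_anc.2 ⟨j + 1, ?_⟩
  rw [Function.iterate_succ_apply', hj]
  exact hu

lemma anc_subset {f : V → Option V} {S : Finset V} (hS : ∀ z ∈ S, ∀ w, f z = some w → w ∈ S)
    {x : V} (hx : x ∈ S) : anc f x ⊆ S := by
  have key : ∀ (j : ℕ) (z : V), (fun o : Option V => o.bind f)^[j] (some x) = some z → z ∈ S := by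
    intro j
    induction j with
    | zero =>
      intro z hz
      rw [← Option.some.inj hz]
      exact hx
    | succ j ih =>
      intro z hz
      rw [Function.iterate_succ_apply'] at hz
      rcases hw : (fun o : Option V => o.bind f)^[j] (some x) with _ | u
      · rw [hw] at hz
        exact absurd hz (by simp)
      · rw [hw] at hz
        exact hS u (ih u hw) z hz
  intro z hz
  obtain ⟨j, hj⟩ := mem_anc.1 hz
  exact key j z hj

lemma mem_skel {f : V → Option V} {W : Finset V} {z : V} :
    z ∈ skel f W ↔ ∃ w ∈ W, z ∈ anc f w := by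
  unfold skel
  rw [mem_biUnion]

lemma skel_closed (f : V → Option V) (W : Finset V) :
    ∀ z ∈ skel f W, ∀ w, f z = some w → w ∈ skel f W := by
  intro z hz w hw
  obtain ⟨v, hv, hz⟩ := mem_skel.1 hz
  exact mem_skel.2 ⟨v, hv, anc_closed hz hw⟩

lemma skel_agree {f g : V → Option V} {W : Finset V} (h : ∀ z ∈ skel f W, f z = g z) :
    skel g W = skel f W := by
  have h1 : ∀ w ∈ W, anc g w = anc f w := fun w hw =>
    anc_agree fun z hz => h z (mem_skel.2 ⟨w, hw, hz⟩)
  ext z
  rw [mem_skel, mem_skel]
  constructor
  · rintro ⟨w, hw, hz⟩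
    exact ⟨w, hw, h1 w hw ▸ hz⟩
  · rintro ⟨w, hw, hz⟩
    exact ⟨w, hw, (h1 w hw).symm ▸ hz⟩

lemma mt_iff {f : V → Option V} {x : V} {W : Finset V} :
    Mt f x W ↔ ¬ Disjoint (anc f x) (skel f W) := by
  unfold Mt Conn
  rw [not_disjoint_iff]
  constructor
  · rintro ⟨w, hw, z, hz, hz'⟩
    exact ⟨z, hz, mem_skel.2 ⟨w, hw, hz'⟩⟩
  · rintro ⟨z, hz, hz'⟩
    obtain ⟨w, hw, hz''⟩ := mem_skel.1 hz'
    exact ⟨w, hw, z, hz, hz''⟩

/-- `f₀` on `S` and `f` off `S` -/
def join (S : Finset V) (f₀ f : V → Option V) : V → Option V := fun z => if z ∈ S then f₀ z else f z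

lemma join_mem {S : Finset V} {f₀ f : V → Option V} {z : V} (hz : z ∈ S) :
    join S f₀ f z = f₀ z := if_pos hz

lemma join_not_mem {S : Finset V} {f₀ f : V → Option V} {z : V} (hz : z ∉ S) :
    join S f₀ f z = f z := if_neg hz

/-- the forests which agree with `f₀` on a closed set -/
theorem key (N : Net V) {S : Finset V} {f₀ : V → Option V} (hf₀ : ∀ x, Rch f₀ x)
    (hS : ∀ z ∈ S, ∀ w, f₀ z = some w → w ∈ S) (T S' : Finset (V → Option V))
    (hT : ∀ f, f ∈ T ↔ IsFor ∅ f ∧ ∀ z ∈ S, f z = f₀ z) (hS' : ∀ f, f ∈ S' ↔ IsFor S f)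
    (G : (V → Option V) → ℝ) :
    ∑ f ∈ T, wF N ∅ f * G f =
      (∏ z ∈ S, wo N z (f₀ z)) * ∑ f ∈ S', wF N S f * G (join S f₀ f) := by
  rw [mul_sum]
  refine sum_bij' (fun f _ => cut S f) (fun f _ => join S f₀ f) ?_ ?_ ?_ ?_ ?_
  · intro f hf
    exact (hS' _).2 (cut_isFor S ((hT f).1 hf).1.2)
  · intro f hf
    obtain ⟨h1, h2⟩ := (hS' f).1 hf
    refine (hT _).2 ⟨⟨fun z hz => absurd hz (by simp), ?_⟩, fun z hz => join_mem hz⟩
    have h3 : ∀ z ∈ S, Rch (join S f₀ f) z := fun z hz =>
      rch_agree (fun u hu => (join_mem (anc_subset hS hz hu)).symm) (hf₀ z)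
    intro z
    refine rch_induction (f := f) (P := fun z => Rch (join S f₀ f) z) ?_ ?_ (h2 z)
    · intro v hv
      by_cases hvS : v ∈ S
      · exact h3 v hvS
      · exact rch_none (by rw [join_not_mem hvS]; exact hv)
    · intro v u hvu hu
      have hvS : v ∉ S := by
        intro hvS
        rw [h1 v hvS] at hvu
        simp at hvu
      exact (rch_some (by rw [join_not_mem hvS]; exact hvu)).2 hu
  · intro f hf
    obtain ⟨-, h2⟩ := (hT f).1 hf
    funext z
    by_cases hz : z ∈ S
    · rw [join_mem hz, h2 z hz]
    · rw [join_not_mem hz]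
      exact if_neg hz
  · intro f hf
    obtain ⟨h1, -⟩ := (hS' f).1 hf
    funext z
    by_cases hz : z ∈ S
    · rw [h1 z hz]
      exact if_pos hz
    · have : cut S (join S f₀ f) z = join S f₀ f z := if_neg hz
      rw [this, join_not_mem hz]
  · intro f hf
    obtain ⟨-, h2⟩ := (hT f).1 hf
    have h3 : join S f₀ (cut S f) = f := by
      funext z
      by_cases hz : z ∈ S
      · rw [join_mem hz, h2 z hz]
      · rw [join_not_mem hz]
        exact if_neg hz
    rw [h3, wF_eq, sdiff_empty, ← prod_sdiff (subset_univ S), wF_eq]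
    have h4 : ∏ z ∈ S, wo N z (f z) = ∏ z ∈ S, wo N z (f₀ z) :=
      prod_congr rfl fun z hz => by rw [h2 z hz]
    have h5 : ∏ z ∈ univ \ S, wo N z (cut S f z) = ∏ z ∈ univ \ S, wo N z (f z) :=
      prod_congr rfl fun z hz => by
        have : cut S f z = f z := if_neg (mem_sdiff.1 hz).2
        rw [this]
    rw [h4, h5]
    ring

/-- the classes -/
def kap (W : Finset V) (f : V → Option V) : Finset V × (V → Option V) :=
  (skel f W, cut (skel f W)ᶜ f)

lemma kap_iff {W : Finset V} {f f₀ : V → Option V} :
    kap W f = kap W f₀ ↔ ∀ z ∈ skel f₀ W, f z = f₀ z := by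
  unfold kap
  rw [Prod.mk.injEq]
  constructor
  · rintro ⟨h1, h2⟩ z hz
    have h3 := congrFun h2 z
    rw [h1] at h3
    have h4 : z ∉ (skel f₀ W)ᶜ := fun h => (mem_compl.1 h) hz
    unfold cut at h3
    rw [if_neg h4, if_neg h4] at h3
    exact h3
  · intro h
    have h1 : skel f W = skel f₀ W := skel_agree fun z hz => (h z hz).symm
    refine ⟨h1, ?_⟩
    rw [h1]
    funext z
    unfold cut
    by_cases hz : z ∈ (skel f₀ W)ᶜ
    · rw [if_pos hz, if_pos hz]
    · rw [if_neg hz, if_neg hz]
      exact h z (by rwa [mem_compl, not_not] at hz)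

/-- comparison of sums over the classes -/
lemma class_le (W : Finset V) (T : Finset (V → Option V)) (F F' : (V → Option V) → ℝ)
    (h : ∀ f₀ ∈ T, ∑ f ∈ T.filter (fun f => kap W f = kap W f₀), F f ≤
      ∑ f ∈ T.filter (fun f => kap W f = kap W f₀), F' f) : ∑ f ∈ T, F f ≤ ∑ f ∈ T, F' f := by
  have hm : ∀ f ∈ T, kap W f ∈ T.image (kap W) := fun f hf => mem_image_of_mem _ hf
  rw [← sum_fiberwise_of_maps_to hm F, ← sum_fiberwise_of_maps_to hm F']
  refine sum_le_sum fun k hk => ?_
  obtain ⟨f₀, hf₀, rfl⟩ := mem_image.1 hk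
  exact h f₀ hf₀

lemma disj_join {S : Finset V} {f₀ f : V → Option V} {x : V} :
    Disjoint (anc (join S f₀ f) x) S ↔ Disjoint (anc f x) S := by
  constructor
  · intro h
    have h1 : anc f x = anc (join S f₀ f) x :=
      anc_agree fun z hz => join_not_mem (disjoint_left.1 h hz)
    rwa [h1]
  · intro h
    have h1 : anc (join S f₀ f) x = anc f x :=
      anc_agree fun z hz => (join_not_mem (disjoint_left.1 h hz)).symm
    rwa [h1]

open Classical in
/-- the value of a class -/
lemma class_eval (N : Net V) (W : Finset V) (x : V) (Φ : Finset V → ℝ) (G : Finset V → ℝ)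
    (T : Finset (V → Option V)) (hT : ∀ f, f ∈ T ↔ IsFor ∅ f) {f₀ : V → Option V}
    (hf₀ : f₀ ∈ T) :
    ∑ f ∈ T.filter (fun f => kap W f = kap W f₀),
      wF N ∅ f * (Φ (skel f W) * (if Mt f x W then 0 else G (anc f x))) =
      (∏ z ∈ skel f₀ W, wo N z (f₀ z)) * (Φ (skel f₀ W) * AA N (skel f₀ W) x G) := by
  rw [key N (S := skel f₀ W) (f₀ := f₀) ((hT f₀).1 hf₀).2 (skel_closed f₀ W) _
    (univ.filter (fun f : V → Option V => IsFor (skel f₀ W) f))
    (fun f => by rw [mem_filter, hT, kap_iff]) (fun f => by simp)
    (fun f => Φ (skel f W) * (if Mt f x W then 0 else G (anc f x)))]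
  congr 1
  unfold AA
  rw [mul_sum]
  refine sum_congr (by congr!) fun f _ => ?_
  have h1 : skel (join (skel f₀ W) f₀ f) W = skel f₀ W :=
    skel_agree fun z hz => (join_mem hz).symm
  have h2 : Mt (join (skel f₀ W) f₀ f) x W ↔ ¬ Disjoint (anc f x) (skel f₀ W) := by
    rw [mt_iff, h1, disj_join]
  rw [h1]
  by_cases hd : Disjoint (anc f x) (skel f₀ W)
  · have h3 : anc (join (skel f₀ W) f₀ f) x = anc f x :=
      anc_agree fun z hz => (join_not_mem (disjoint_left.1 hd hz)).symm
    rw [if_pos hd, if_neg (fun h => (h2.1 h) hd), h3]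
    ring
  · rw [if_neg hd, if_pos (h2.2 hd)]
    ring

lemma class_const (N : Net V) (W : Finset V) (Φ : Finset V → ℝ)
    (T : Finset (V → Option V)) (hT : ∀ f, f ∈ T ↔ IsFor ∅ f) {f₀ : V → Option V}
    (hf₀ : f₀ ∈ T) :
    ∑ f ∈ T.filter (fun f => kap W f = kap W f₀), wF N ∅ f * Φ (skel f W) =
      (∏ z ∈ skel f₀ W, wo N z (f₀ z)) * (Φ (skel f₀ W) * Zf N (skel f₀ W)) := by
  classical
  rw [key N (S := skel f₀ W) (f₀ := f₀) ((hT f₀).1 hf₀).2 (skel_closed f₀ W) _
    (univ.filter (fun f : V → Option V => IsFor (skel f₀ W) f))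
    (fun f => by rw [mem_filter, hT, kap_iff]) (fun f => by simp)
    (fun f => Φ (skel f W))]
  congr 1
  unfold Zf
  rw [mul_sum]
  refine sum_congr (by congr!) fun f _ => ?_
  have h1 : skel (join (skel f₀ W) f₀ f) W = skel f₀ W :=
    skel_agree fun z hz => (join_mem hz).symm
  rw [h1]
  ring

lemma prod_wo_nonneg (N : Net V) (S : Finset V) (f : V → Option V) :
    0 ≤ ∏ z ∈ S, wo N z (f z) := prod_nonneg fun z _ => wo_nonneg N z _

end Wil

open Wil Forest

/-- Wilson's algorithm: given the paths of the vertices of `W`, the path of `x` avoids them with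
probability `surv` -/
theorem skel_markov (N : Net V) (W : Finset V) (x : V) (Φ : Finset V → ℝ) :
    EF N ∅ (fun f => Φ (skel f W) * (open Classical in if Mt f x W then 0 else 1)) =
      EF N ∅ (fun f => Φ (skel f W) * surv N (skel f W) x) := by
  classical
  unfold EF
  congr 1
  have hT : ∀ f, f ∈ univ.filter (fun f : V → Option V => IsFor ∅ f) ↔ IsFor ∅ f := fun f => by
    simp
  have h : ∀ f₀ ∈ univ.filter (fun f : V → Option V => IsFor ∅ f),
      ∑ f ∈ (univ.filter (fun f : V → Option V => IsFor ∅ f)).filter
        (fun f => kap W f = kap W f₀),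
        wF N ∅ f * (Φ (skel f W) * (if Mt f x W then 0 else 1)) =
      ∑ f ∈ (univ.filter (fun f : V → Option V => IsFor ∅ f)).filter
        (fun f => kap W f = kap W f₀), wF N ∅ f * (Φ (skel f W) * surv N (skel f W) x) := by
    intro f₀ hf₀
    have h1 := class_eval N W x Φ (fun _ => 1) _ hT hf₀
    have h2 := class_const N W (fun S => Φ S * surv N S x) _ hT hf₀
    rw [AA_one] at h1
    refine Eq.trans ?_ (h1.trans (Eq.trans ?_ h2.symm))
    · exact sum_congr rfl fun f _ => by congr!
    · ring
  apply le_antisymm
  · exact class_le W _ _ _ fun f₀ hf₀ => (h f₀ hf₀).le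
  · exact class_le W _ _ _ fun f₀ hf₀ => (h f₀ hf₀).ge

/-- the path of `x` visits a set of vertices from which `y` is visited often -/
theorem skel_hit (N : Net V) (W : Finset V) (x : V) (Φ : Finset V → ℝ) (hΦ : ∀ S, 0 ≤ Φ S)
    (B : Finset V) (y : V) {g0 : ℝ} (hg0 : 0 < g0) (hB : ∀ b ∈ B, g0 ≤ grn N ∅ b y) :
    EF N ∅ (fun f => Φ (skel f W) *
      (open Classical in if ¬ Mt f x W ∧ ∃ z ∈ anc f x, z ∈ B then 1 else 0)) ≤
      EF N ∅ (fun f => Φ (skel f W)) * (grn N ∅ x y / g0) := by
  classical
  unfold EF
  rw [div_mul_eq_mul_div]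
  refine div_le_div_of_nonneg_right ?_ (Zf_pos N ∅).le
  have hT : ∀ f, f ∈ univ.filter (fun f : V → Option V => IsFor ∅ f) ↔ IsFor ∅ f := fun f => by
    simp
  rw [sum_mul]
  refine class_le W _ _ _ fun f₀ hf₀ => ?_
  have h1 := class_eval N W x Φ (GB B) _ hT hf₀
  have h2 := class_const N W (fun S => Φ S * (grn N ∅ x y / g0)) _ hT hf₀
  have h3 : ∑ f ∈ (univ.filter (fun f : V → Option V => IsFor ∅ f)).filter
      (fun f => kap W f = kap W f₀), wF N ∅ f * Φ (skel f W) * (grn N ∅ x y / g0) =
      ∑ f ∈ (univ.filter (fun f : V → Option V => IsFor ∅ f)).filter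
      (fun f => kap W f = kap W f₀), wF N ∅ f * (Φ (skel f W) * (grn N ∅ x y / g0)) :=
    sum_congr rfl fun f _ => by ring
  rw [h3]
  refine le_trans (le_of_eq ?_) ((h1.le.trans ?_).trans h2.ge)
  · refine sum_congr rfl fun f _ => ?_
    refine congrArg (fun t => wF N ∅ f * t) ?_
    show Φ (skel f W) * (open Classical in if ¬ Mt f x W ∧ ∃ z ∈ anc f x, z ∈ B then (1:ℝ) else 0) =
      Φ (skel f W) * (if Mt f x W then 0 else GB B (anc f x))
    refine congrArg (fun t => Φ (skel f W) * t) ?_
    unfold GB
    by_cases ha : Mt f x W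
    · rw [if_pos ha, if_neg (fun h => h.1 ha)]
    · rw [if_neg ha]
      by_cases hb : ∃ z ∈ anc f x, z ∈ B
      · rw [if_pos ⟨ha, hb⟩, if_pos hb]
      · rw [if_neg (fun h => hb h.2), if_neg hb]
  · have h4 : AA N (skel f₀ W) x (GB B) ≤ Zf N (skel f₀ W) * (grn N ∅ x y / g0) :=
      (AA_hit N B (skel f₀ W) x).trans (mul_le_mul_of_nonneg_left
        (hit_le N (skel f₀ W) B y hg0 hB x) (Zf_pos N _).le)
    have h5 : Φ (skel f₀ W) * AA N (skel f₀ W) x (GB B) ≤
        Φ (skel f₀ W) * (Zf N (skel f₀ W) * (grn N ∅ x y / g0)) :=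
      mul_le_mul_of_nonneg_left h4 (hΦ _)
    refine (mul_le_mul_of_nonneg_left h5 (prod_wo_nonneg N _ _)).trans (le_of_eq ?_)
    ring

end

end Pool.Agent.TH972.U
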