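import Pool.Agent.TH972.U.Eqm
import Pool.Agent.TH972.U.Wil

/-!
# Capacity of a union of paths in different trees: exchange argument (helper81)
-/

set_option autoImplicit false
set_option linter.unusedSectionVars false
set_option maxHeartbeats 4000000

namespace Pool.Agent.TH972.U

open Finset

noncomputable section

variable {V : Type} [Fintype V] [DecidableEq V]

namespace UnGen

/-- the vertex number `i` is not connected with the others -/
def Iso {K : ℕ} (f : V → Option V) (W : Fin K → V) (i : Fin K) : Prop :=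
  ∀ j, j ≠ i → ¬ Conn f (W i) (W j)

/-- the union of the first paths -/
def Sk {K : ℕ} (f : V → Option V) (W : Fin K → V) (a : Fin K) : Finset V :=
  skel f ((Iic a).image W)

/-- the equilibrium mass of one path -/
def yy {K : ℕ} (N : Net V) (f : V → Option V) (W : Fin K → V) (a i : Fin K) : ℝ :=
  ∑ z ∈ anc f (W i), eqm N (Sk f W a) z

lemma yy_nonneg {K : ℕ} (N : Net V) (f : V → Option V) (W : Fin K → V) (a i : Fin K) :
    0 ≤ yy N f W a i := sum_nonneg fun z _ => eqm_nonneg N _ z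

lemma Iso_comp {K : ℕ} (f : V → Option V) (W : Fin K → V) (σ : Equiv.Perm (Fin K)) (i : Fin K) :
    Iso f (W ∘ σ) i ↔ Iso f W (σ i) := by
  constructor
  · intro h j hj
    have h1 := h (σ.symm j) (fun h2 => hj (by rw [← h2, Equiv.apply_symm_apply]))
    simp only [Function.comp_apply, Equiv.apply_symm_apply] at h1
    exact h1
  · intro h j hj
    exact h (σ j) (fun h2 => hj (σ.injective h2))

open Classical in
lemma isoN_eq {K : ℕ} (f : V → Option V) (W : Fin K → V) :
    (isoN f W : ℝ) = ∑ i, (if Iso f W i then (1 : ℝ) else 0) := by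
  unfold isoN
  rw [Finset.sum_ite, Finset.sum_const_zero, add_zero, Finset.sum_const, nsmul_eq_mul, mul_one]
  congr 2
  ext i
  simp only [mem_filter, mem_univ, true_and]
  rfl

lemma isoN_comp {K : ℕ} (f : V → Option V) (W : Fin K → V) (σ : Equiv.Perm (Fin K)) :
    isoN f (W ∘ σ) = isoN f W := by
  classical
  have h : (isoN f (W ∘ σ) : ℝ) = isoN f W := by
    rw [isoN_eq, isoN_eq, ← Equiv.sum_comp σ (fun i => if Iso f W i then (1 : ℝ) else 0)]
    refine sum_congr rfl fun i _ => ?_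
    simp only [Iso_comp]
  exact_mod_cast h

lemma image_comp {K : ℕ} (W : Fin K → V) (σ : Equiv.Perm (Fin K)) :
    univ.image (W ∘ σ) = univ.image W := by
  ext z
  simp only [mem_image, mem_univ, true_and, Function.comp_apply]
  constructor
  · rintro ⟨i, h⟩
    exact ⟨σ i, h⟩
  · rintro ⟨i, h⟩
    exact ⟨σ.symm i, by rw [Equiv.apply_symm_apply]; exact h⟩

lemma Sk_comp {K : ℕ} (f : V → Option V) (W : Fin K → V) {i a : Fin K} (h : i ≤ a) :
    Sk f (W ∘ Equiv.swap i a) a = Sk f W a := by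
  unfold Sk
  congr 1
  have key : ∀ j, j ≤ a → Equiv.swap i a j ≤ a := by
    intro j hj
    rw [Equiv.swap_apply_def]
    split_ifs
    · exact le_rfl
    · exact h
    · exact hj
  ext z
  simp only [mem_image, mem_Iic, Function.comp_apply]
  constructor
  · rintro ⟨j, hj, hz⟩
    exact ⟨Equiv.swap i a j, key j hj, hz⟩
  · rintro ⟨j, hj, hz⟩
    exact ⟨Equiv.swap i a j, key j hj, by rw [Equiv.swap_apply_self]; exact hz⟩

lemma sum_perm {K : ℕ} (B : Finset V) (σ : Equiv.Perm (Fin K)) (G : (Fin K → V) → ℝ) :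
    ∑ W ∈ Fintype.piFinset (fun _ : Fin K => B), G (W ∘ σ) =
      ∑ W ∈ Fintype.piFinset (fun _ : Fin K => B), G W := by
  refine sum_bij' (fun W _ => W ∘ σ) (fun W _ => W ∘ σ.symm) ?_ ?_ ?_ ?_ ?_
  · intro W hW
    rw [Fintype.mem_piFinset] at hW ⊢
    intro i
    exact hW (σ i)
  · intro W hW
    rw [Fintype.mem_piFinset] at hW ⊢
    intro i
    exact hW (σ.symm i)
  · intro W _
    funext i
    simp
  · intro W _
    funext i
    simp
  · intro W _
    rfl

/-- capacities -/
lemma eqm_cap (P : PN V) (k : ℝ) (hk : 0 < k) (A : Finset V) :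
    ∑ z ∈ A, eqm (P.net k hk) A z = P.cap k hk A := by
  rw [eqm_sum]
  unfold PN.cap
  have h : ∀ x, (P.net k hk).k x * (1 - surv (P.net k hk) A x) =
      if x ∈ P.M then k * (1 - surv (P.net k hk) A x) else 0 := by
    intro x
    have h1 : (P.net k hk).k x = if x ∈ P.M then k else 0 := rfl
    rw [h1]
    split_ifs
    · rfl
    · ring
  rw [sum_congr rfl fun x _ => h x, sum_ite_mem, univ_inter, mul_sum]

lemma cap_mono (P : PN V) (k : ℝ) (hk : 0 < k) {A A' : Finset V} (h : A ⊆ A') :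
    P.cap k hk A ≤ P.cap k hk A' := by
  unfold PN.cap
  refine mul_le_mul_of_nonneg_left ?_ hk.le
  refine sum_le_sum fun m _ => ?_
  have := surv_anti (P.net k hk) h m
  linarith

open Classical in
lemma sum_iso_le (P : PN V) (k : ℝ) (hk : 0 < k) {K : ℕ} (f : V → Option V) (W : Fin K → V)
    (a : Fin K) :
    ∑ i ∈ Iic a, (if Iso f W i then (1 : ℝ) else 0) * yy (P.net k hk) f W a i ≤
      P.cap k hk (skel f (univ.image W)) := by
  have h1 : ∑ i ∈ Iic a, (if Iso f W i then (1 : ℝ) else 0) * yy (P.net k hk) f W a i =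
      ∑ i ∈ (Iic a).filter (fun i => Iso f W i), yy (P.net k hk) f W a i := by
    rw [sum_filter]
    refine sum_congr rfl fun i _ => ?_
    split_ifs
    · rw [one_mul]
    · rw [zero_mul]
  have h2 : Set.PairwiseDisjoint
      (((Iic a).filter (fun i => Iso f W i) : Finset (Fin K)) : Set (Fin K))
      (fun i => anc f (W i)) := by
    intro i hi j hj hij
    rw [mem_coe, mem_filter] at hi hj
    rw [Function.onFun, Finset.disjoint_left]
    intro z hz hz'
    exact hi.2 j hij.symm ⟨z, hz, hz'⟩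
  rw [h1]
  unfold yy
  rw [← sum_biUnion h2]
  have h3 : ((Iic a).filter (fun i => Iso f W i)).biUnion (fun i => anc f (W i)) ⊆ Sk f W a := by
    intro z hz
    rw [mem_biUnion] at hz
    obtain ⟨i, hi, hz⟩ := hz
    unfold Sk skel
    rw [mem_biUnion]
    exact ⟨W i, mem_image_of_mem W (mem_filter.1 hi).1, hz⟩
  refine (sum_le_sum_of_subset_of_nonneg h3 fun z _ _ => eqm_nonneg _ _ z).trans ?_
  rw [eqm_cap]
  refine cap_mono P k hk ?_
  unfold Sk skel
  exact biUnion_subset_biUnion_of_subset_left _ (image_subset_image (subset_univ _))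

open Classical in
/-- the event -/
def EE (P : PN V) (k : ℝ) (hk : 0 < k) (η L : ℝ) {K : ℕ} (f : V → Option V) (W : Fin K → V) : ℝ :=
  if (η * K ≤ isoN f W ∧ P.cap k hk (skel f (univ.image W)) < L) then 1 else 0

lemma EE_nonneg (P : PN V) (k : ℝ) (hk : 0 < k) (η L : ℝ) {K : ℕ} (f : V → Option V)
    (W : Fin K → V) : 0 ≤ EE P k hk η L f W := by
  unfold EE
  split_ifs <;> norm_num

open Classical in
/-- the exchange argument, for a fixed forest -/
lemma exch (P : PN V) (k : ℝ) (hk : 0 < k) (η L : ℝ) {K : ℕ} (f : V → Option V)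
    (B : Finset V) (a : Fin K) :
    ∑ W ∈ Fintype.piFinset (fun _ : Fin K => B), EE P k hk η L f W *
      ((if Iso f W a then (1 : ℝ) else 0) * yy (P.net k hk) f W a a) ≤
      L * (1 / ((a.1 : ℝ) + 1)) * ∑ W ∈ Fintype.piFinset (fun _ : Fin K => B),
        EE P k hk η L f W := by
  have h1 : ∀ i ∈ Iic a, ∑ W ∈ Fintype.piFinset (fun _ : Fin K => B), EE P k hk η L f W *
      ((if Iso f W i then (1 : ℝ) else 0) * yy (P.net k hk) f W a i) =
      ∑ W ∈ Fintype.piFinset (fun _ : Fin K => B), EE P k hk η L f W *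
      ((if Iso f W a then (1 : ℝ) else 0) * yy (P.net k hk) f W a a) := by
    intro i hi
    rw [mem_Iic] at hi
    rw [← sum_perm B (Equiv.swap i a) (fun W => EE P k hk η L f W *
      ((if Iso f W a then (1 : ℝ) else 0) * yy (P.net k hk) f W a a))]
    refine sum_congr rfl fun W _ => ?_
    have e1 : EE P k hk η L f (W ∘ Equiv.swap i a) = EE P k hk η L f W := by
      unfold EE
      rw [isoN_comp, image_comp]
    have e2 : Iso f (W ∘ Equiv.swap i a) a ↔ Iso f W i := by
      rw [Iso_comp, Equiv.swap_apply_right]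
    have e3 : yy (P.net k hk) f (W ∘ Equiv.swap i a) a a = yy (P.net k hk) f W a i := by
      unfold yy
      rw [Sk_comp f W hi, Function.comp_apply, Equiv.swap_apply_right]
    simp only [e1, e2, e3]
  have h2 : ((a.1 : ℝ) + 1) * ∑ W ∈ Fintype.piFinset (fun _ : Fin K => B), EE P k hk η L f W *
      ((if Iso f W a then (1 : ℝ) else 0) * yy (P.net k hk) f W a a) ≤
      L * ∑ W ∈ Fintype.piFinset (fun _ : Fin K => B), EE P k hk η L f W := by
    have e1 : ((a.1 : ℝ) + 1) * ∑ W ∈ Fintype.piFinset (fun _ : Fin K => B), EE P k hk η L f W *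
      ((if Iso f W a then (1 : ℝ) else 0) * yy (P.net k hk) f W a a) =
      ∑ i ∈ Iic a, ∑ W ∈ Fintype.piFinset (fun _ : Fin K => B), EE P k hk η L f W *
      ((if Iso f W i then (1 : ℝ) else 0) * yy (P.net k hk) f W a i) := by
      rw [sum_congr rfl h1, sum_const, Fin.card_Iic, nsmul_eq_mul]
      push_cast
      rfl
    rw [e1, sum_comm, mul_sum]
    refine sum_le_sum fun W _ => ?_
    rw [← mul_sum]
    have h3 := sum_iso_le P k hk f W a
    by_cases hE : η * K ≤ isoN f W ∧ P.cap k hk (skel f (univ.image W)) < L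
    · have e2 : EE P k hk η L f W = 1 := if_pos hE
      rw [e2, one_mul, mul_one]
      exact h3.trans hE.2.le
    · have e2 : EE P k hk η L f W = 0 := if_neg hE
      rw [e2, zero_mul, mul_zero]
  have ha : (0 : ℝ) < (a.1 : ℝ) + 1 := by positivity
  have h4 : L * (1 / ((a.1 : ℝ) + 1)) * ∑ W ∈ Fintype.piFinset (fun _ : Fin K => B),
        EE P k hk η L f W = (L * ∑ W ∈ Fintype.piFinset (fun _ : Fin K => B),
        EE P k hk η L f W) / ((a.1 : ℝ) + 1) := by ring
  rw [h4, le_div_iff₀ ha]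
  linarith

open Classical in
/-- the pointwise inequality -/
lemma ptw (P : PN V) (k : ℝ) (hk : 0 < k) {c η L : ℝ} (hc : 0 < c) {K : ℕ} (f : V → Option V)
    (W : Fin K → V) :
    c * (η * K) * EE P k hk η L f W ≤ ∑ a : Fin K, (EE P k hk η L f W *
      ((if Iso f W a then (1 : ℝ) else 0) * yy (P.net k hk) f W a a) +
      c * (if (Iso f W a ∧ yy (P.net k hk) f W a a < c) then 1 else 0)) := by
  have hE0 := EE_nonneg P k hk η L f W
  have key : ∀ a : Fin K, c * EE P k hk η L f W * (if Iso f W a then (1 : ℝ) else 0) ≤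
      EE P k hk η L f W * ((if Iso f W a then (1 : ℝ) else 0) * yy (P.net k hk) f W a a) +
      c * (if (Iso f W a ∧ yy (P.net k hk) f W a a < c) then 1 else 0) := by
    intro a
    have hE1 : EE P k hk η L f W ≤ 1 := by
      unfold EE
      split_ifs <;> norm_num
    have hy := yy_nonneg (P.net k hk) f W a a
    by_cases hI : Iso f W a
    · by_cases hX : yy (P.net k hk) f W a a < c
      · rw [if_pos hI, if_pos ⟨hI, hX⟩]
        have : 0 ≤ EE P k hk η L f W * (1 * yy (P.net k hk) f W a a) := by positivity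
        nlinarith
      · rw [if_pos hI, if_neg (fun h => hX h.2)]
        push Not at hX
        nlinarith
    · rw [if_neg hI, if_neg (fun h => hI h.1)]
      simp
  have h2 := sum_le_sum fun a (_ : a ∈ (univ : Finset (Fin K))) => key a
  refine le_trans ?_ h2
  rw [← mul_sum, ← isoN_eq]
  by_cases hE : η * K ≤ isoN f W ∧ P.cap k hk (skel f (univ.image W)) < L
  · have e2 : EE P k hk η L f W = 1 := if_pos hE
    rw [e2, mul_one, mul_one]
    exact mul_le_mul_of_nonneg_left hE.1 hc.le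
  · have e2 : EE P k hk η L f W = 0 := if_neg hE
    rw [e2]
    simp

lemma PF_eq (N : Net V) (A : (V → Option V) → Prop) [inst : DecidablePred A] :
    PF N A = EF N ∅ (fun f => if A f then 1 else 0) := by
  unfold PF
  congr 1
  funext f
  by_cases h : A f
  · rw [if_pos h, if_pos h]
  · rw [if_neg h, if_neg h]

lemma PF_mono (N : Net V) {A A' : (V → Option V) → Prop} (h : ∀ f, A f → A' f) :
    PF N A ≤ PF N A' := by
  classical
  rw [PF_eq, PF_eq]
  refine EF_mono N ∅ fun f _ => ?_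
  by_cases h1 : A f
  · rw [if_pos h1, if_pos (h f h1)]
  · rw [if_neg h1]
    split_ifs <;> norm_num

/-- the exceptional event -/
lemma exc (P : PN V) {k1 k2 c ε : ℝ} (hk1 : 0 < k1) (hk2 : 0 < k2) (B : Finset V) {K : ℕ}
    (hlow : ∀ (W : Finset V) (x : V), PF (P.net k1 hk1) (fun f => ¬ Mt f x W ∧
      ∑ z ∈ anc f x, eqm (P.net k2 hk2) (skel f W ∪ anc f x) z < c) ≤ ε) (a : Fin K) :
    ∑ W ∈ Fintype.piFinset (fun _ : Fin K => B), PF (P.net k1 hk1)
      (fun f => Iso f W a ∧ yy (P.net k2 hk2) f W a a < c) ≤ ε * (B.card : ℝ) ^ K := by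
  have h : ∀ W ∈ Fintype.piFinset (fun _ : Fin K => B), PF (P.net k1 hk1)
      (fun f => Iso f W a ∧ yy (P.net k2 hk2) f W a a < c) ≤ ε := by
    intro W _
    refine (PF_mono _ fun f hf => ?_).trans (hlow ((Iio a).image W) (W a))
    obtain ⟨h1, h2⟩ := hf
    constructor
    · rintro ⟨w, hw, hc⟩
      rw [mem_image] at hw
      obtain ⟨j, hj, rfl⟩ := hw
      rw [mem_Iio] at hj
      exact h1 j hj.ne hc
    · have e : skel f ((Iio a).image W) ∪ anc f (W a) = Sk f W a := by
        unfold Sk skel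
        ext z
        simp only [mem_union, mem_biUnion, mem_image, mem_Iio, mem_Iic]
        constructor
        · rintro (⟨w, ⟨j, hj, rfl⟩, hz⟩ | hz)
          · exact ⟨W j, ⟨j, hj.le, rfl⟩, hz⟩
          · exact ⟨W a, ⟨a, le_rfl, rfl⟩, hz⟩
        · rintro ⟨w, ⟨j, hj, rfl⟩, hz⟩
          rcases hj.eq_or_lt with h | h
          · right
            rw [← h]
            exact hz
          · exact Or.inl ⟨W j, ⟨j, h, rfl⟩, hz⟩
      rw [e]
      exact h2
  refine (sum_le_sum h).trans (le_of_eq ?_)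
  rw [sum_const, Fintype.card_piFinset_const, nsmul_eq_mul]
  push_cast
  ring

end UnGen

open UnGen

/-- capacity of a union of paths in different trees -/
theorem PN.union_gen (P : PN V) {k1 k2 c ε η L : ℝ} (hk1 : 0 < k1) (hk2 : 0 < k2)
    (hc : 0 < c) (hε : 0 ≤ ε) (hη : 0 < η) (hL : 0 ≤ L) (B : Finset V) (K : ℕ) (hK : 1 ≤ K)
    (hlow : ∀ (W : Finset V) (x : V), PF (P.net k1 hk1) (fun f => ¬ Mt f x W ∧
      ∑ z ∈ anc f x, eqm (P.net k2 hk2) (skel f W ∪ anc f x) z < c) ≤ ε)
    (hLc : 2 * L * ∑ a ∈ range K, 1 / ((a : ℝ) + 1) ≤ c * η * K) :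
    ∑ W ∈ Fintype.piFinset (fun _ : Fin K => B), PF (P.net k1 hk1)
      (fun f => η * K ≤ isoN f W ∧ P.cap k2 hk2 (skel f (univ.image W)) < L) ≤
      2 * ε / η * (B.card : ℝ) ^ K := by
  classical
  set T := Fintype.piFinset (fun _ : Fin K => B) with hT
  set N := P.net k1 hk1 with hN
  obtain ⟨p, hp⟩ : ∃ p, p = ∑ W ∈ T, PF N
      (fun f => η * K ≤ isoN f W ∧ P.cap k2 hk2 (skel f (univ.image W)) < L) := ⟨_, rfl⟩
  rw [← hp]
  have hpE : p = ∑ W ∈ T, EF N ∅ (fun f => EE P k2 hk2 η L f W) := by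
    rw [hp]
    refine sum_congr rfl fun W _ => ?_
    rw [PF_eq]
    unfold EE
    congr 1
  have hp0 : 0 ≤ p := by
    rw [hpE]
    refine sum_nonneg fun W _ => ?_
    have h := EF_mono N ∅ (F := fun _ => 0 * 1) (G := fun f => EE P k2 hk2 η L f W)
      (fun f _ => by rw [zero_mul]; exact EE_nonneg P k2 hk2 η L f W)
    rw [EF_mul, zero_mul] at h
    exact h
  -- pointwise
  have h1 : ∀ f : V → Option V, ∑ W ∈ T, c * (η * K) * EE P k2 hk2 η L f W ≤
      ∑ a : Fin K, (L * (1 / ((a.1 : ℝ) + 1)) * ∑ W ∈ T, EE P k2 hk2 η L f W +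
        c * ∑ W ∈ T, (if (Iso f W a ∧ yy (P.net k2 hk2) f W a a < c) then 1 else 0)) := by
    intro f
    calc ∑ W ∈ T, c * (η * K) * EE P k2 hk2 η L f W ≤
        ∑ W ∈ T, ∑ a : Fin K, (EE P k2 hk2 η L f W *
          ((if Iso f W a then (1 : ℝ) else 0) * yy (P.net k2 hk2) f W a a) +
          c * (if (Iso f W a ∧ yy (P.net k2 hk2) f W a a < c) then 1 else 0)) := by
          refine sum_le_sum fun W _ => ?_
          refine (ptw P k2 hk2 hc f W).trans (le_of_eq ?_)
          refine sum_congr rfl fun a _ => ?_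
          congr!
      _ = ∑ a : Fin K, (∑ W ∈ T, EE P k2 hk2 η L f W *
          ((if Iso f W a then (1 : ℝ) else 0) * yy (P.net k2 hk2) f W a a) +
          c * ∑ W ∈ T, (if (Iso f W a ∧ yy (P.net k2 hk2) f W a a < c) then 1 else 0)) := by
          rw [sum_comm]
          refine sum_congr rfl fun a _ => ?_
          rw [sum_add_distrib, mul_sum]
      _ ≤ _ := by
          refine sum_le_sum fun a _ => ?_
          have := exch P k2 hk2 η L f B a
          have e : ∑ W ∈ T, EE P k2 hk2 η L f W *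
              ((if Iso f W a then (1 : ℝ) else 0) * yy (P.net k2 hk2) f W a a) ≤
              L * (1 / ((a.1 : ℝ) + 1)) * ∑ W ∈ T, EE P k2 hk2 η L f W := by
            refine le_trans (le_of_eq ?_) this
            refine sum_congr rfl fun W _ => ?_
            congr!
          linarith
  have h2 := EF_mono N ∅ (F := fun f => ∑ W ∈ T, c * (η * K) * EE P k2 hk2 η L f W)
    (G := fun f => ∑ a : Fin K, (L * (1 / ((a.1 : ℝ) + 1)) * ∑ W ∈ T, EE P k2 hk2 η L f W +
        c * ∑ W ∈ T, (if (Iso f W a ∧ yy (P.net k2 hk2) f W a a < c) then 1 else 0)))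
    (fun f _ => h1 f)
  rw [EF_sum] at h2
  have e1 : ∑ W ∈ T, EF N ∅ (fun f => c * (η * K) * EE P k2 hk2 η L f W) =
      c * (η * K) * p := by
    rw [hpE, mul_sum]
    refine sum_congr rfl fun W _ => ?_
    rw [EF_mul]
  rw [e1, EF_sum] at h2
  have e2 : ∀ a : Fin K, EF N ∅ (fun f => L * (1 / ((a.1 : ℝ) + 1)) *
      ∑ W ∈ T, EE P k2 hk2 η L f W +
        c * ∑ W ∈ T, (if (Iso f W a ∧ yy (P.net k2 hk2) f W a a < c) then 1 else 0)) ≤
      L * p * (1 / ((a.1 : ℝ) + 1)) + c * (ε * (B.card : ℝ) ^ K) := by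
    intro a
    rw [EF_add, EF_mul, EF_mul, EF_sum, EF_sum, ← hpE]
    have e3 := exc P hk1 hk2 B hlow a
    have e4 : ∑ W ∈ T, EF N ∅ (fun f => if (Iso f W a ∧ yy (P.net k2 hk2) f W a a < c)
        then (1 : ℝ) else 0) ≤ ε * (B.card : ℝ) ^ K := by
      refine le_trans (le_of_eq ?_) e3
      refine sum_congr rfl fun W _ => ?_
      rw [PF_eq]
    have e5 := mul_le_mul_of_nonneg_left e4 hc.le
    linarith
  have h3 := h2.trans (sum_le_sum fun a _ => e2 a)
  rw [sum_add_distrib, ← mul_sum, sum_const, card_univ, Fintype.card_fin, nsmul_eq_mul,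
    Fin.sum_univ_eq_sum_range (fun a => 1 / ((a : ℝ) + 1)) K] at h3
  obtain ⟨H, hH⟩ : ∃ H, H = ∑ a ∈ range K, 1 / ((a : ℝ) + 1) := ⟨_, rfl⟩
  rw [← hH] at h3 hLc
  have h4 : 2 * L * H * p ≤ c * η * K * p := mul_le_mul_of_nonneg_right hLc hp0
  have hK0 : (0 : ℝ) < K := by exact_mod_cast hK
  have h5 : (c * K) * (η * p) ≤ (c * K) * (2 * (ε * (B.card : ℝ) ^ K)) := by nlinarith
  have h6 : η * p ≤ 2 * (ε * (B.card : ℝ) ^ K) := le_of_mul_le_mul_left h5 (by positivity)
  have h7 : 2 * ε / η * (B.card : ℝ) ^ K = (2 * (ε * (B.card : ℝ) ^ K)) / η := by ring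
  rw [h7, le_div_iff₀ hη]
  linarith

end

end Pool.Agent.TH972.U
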