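import Pool.Agent.TH972.U.Wil

/-!
# Capacity of unions of forest paths: well connected marks
-/

set_option autoImplicit false
set_option linter.unusedSectionVars false

namespace Pool.Agent.TH972.U

open Finset

noncomputable section

variable {V : Type} [Fintype V] [DecidableEq V]

open Classical in
/-- the vertices of `M` well connected to `D` -/
def PN.rea (P : PN V) (k1 k2 g0 : ℝ) (hk1 : 0 < k1) (hk2 : 0 < k2) (D : Finset V) : Finset V :=
  P.M.filter (fun y => ∃ v ∈ D, g0 ≤ grn (P.net k1 hk1) ∅ v y ∧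
    g0 * grn (P.net k2 hk2) ∅ v v ≤ grn (P.net k2 hk2) ∅ v y)

namespace UnMain

lemma surv_single (N : Net V) (v y : V) :
    surv N {v} y = 1 - grn N ∅ y v / grn N ∅ v v := by
  have hv : v ∉ (∅ : Finset V) := Finset.notMem_empty v
  have h1 : surv N (insert v ∅) y = surv N ∅ y - grn N ∅ y v / grn N ∅ v v * surv N ∅ v := by
    unfold surv
    rw [Finset.mul_sum, ← Finset.sum_sub_distrib]
    refine Finset.sum_congr rfl fun z _ => ?_
    rw [grn_insert N hv]
    ring
  rw [insert_empty_eq, surv_empty, surv_empty, mul_one] at h1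
  exact h1

lemma cap_ge (P : PN V) {k1 k2 g0 : ℝ} (hk1 : 0 < k1) (hk2 : 0 < k2) (D : Finset V) :
    k2 * g0 * (P.rea k1 k2 g0 hk1 hk2 D).card ≤ P.cap k2 hk2 D := by
  classical
  unfold PN.cap
  rw [mul_assoc]
  refine mul_le_mul_of_nonneg_left ?_ hk2.le
  have hsub : P.rea k1 k2 g0 hk1 hk2 D ⊆ P.M := Finset.filter_subset _ _
  calc g0 * ((P.rea k1 k2 g0 hk1 hk2 D).card : ℝ) = ∑ m ∈ P.rea k1 k2 g0 hk1 hk2 D, g0 := by
        rw [Finset.sum_const, nsmul_eq_mul]; ring
    _ ≤ ∑ m ∈ P.rea k1 k2 g0 hk1 hk2 D, (1 - surv (P.net k2 hk2) D m) := by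
        refine Finset.sum_le_sum fun y hy => ?_
        unfold PN.rea at hy
        rw [Finset.mem_filter] at hy
        obtain ⟨-, v, hv, -, h2⟩ := hy
        have h3 := surv_anti (P.net k2 hk2) (Finset.singleton_subset_iff.2 hv) y
        have h4 := surv_single (P.net k2 hk2) v y
        have hG := grn_pos (P.net k2 hk2) (Finset.notMem_empty v)
        have h5 : g0 ≤ grn (P.net k2 hk2) ∅ y v / grn (P.net k2 hk2) ∅ v v := by
          rw [le_div_iff₀ hG, grn_symm _ _ y v]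
          exact h2
        linarith
    _ ≤ ∑ m ∈ P.M, (1 - surv (P.net k2 hk2) D m) :=
        Finset.sum_le_sum_of_subset_of_nonneg hsub fun m _ _ =>
          sub_nonneg.2 (surv_le_one (P.net k2 hk2) D m)

lemma rea_mono (P : PN V) {k1 k2 g0 : ℝ} (hk1 : 0 < k1) (hk2 : 0 < k2) {D D' : Finset V}
    (h : D ⊆ D') : P.rea k1 k2 g0 hk1 hk2 D ⊆ P.rea k1 k2 g0 hk1 hk2 D' := by
  classical
  intro y hy
  unfold PN.rea at hy ⊢
  rw [Finset.mem_filter] at hy ⊢
  obtain ⟨hM, v, hv, h1⟩ := hy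
  exact ⟨hM, v, h hv, h1⟩

/-- Bonferroni -/
lemma bonf {ι α : Type} [DecidableEq ι] [DecidableEq α] (R : ι → Finset α) (T : Finset ι) :
    ∑ i ∈ T, (R i).card ≤ (T.biUnion R).card + ∑ p ∈ T.offDiag, (R p.1 ∩ R p.2).card := by
  induction T using Finset.induction_on with
  | empty => simp
  | insert a T ha ih =>
    rw [Finset.sum_insert ha, Finset.biUnion_insert]
    have h1 := Finset.card_union_add_card_inter (R a) (T.biUnion R)
    have h2 : (R a ∩ T.biUnion R).card ≤ ∑ i ∈ T, (R a ∩ R i).card := by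
      rw [Finset.inter_biUnion]
      exact Finset.card_biUnion_le
    have h3 : ∑ p ∈ T.offDiag, (R p.1 ∩ R p.2).card + ∑ i ∈ T, (R a ∩ R i).card ≤
        ∑ p ∈ (insert a T).offDiag, (R p.1 ∩ R p.2).card := by
      have h4 : ∑ i ∈ T, (R a ∩ R i).card = ∑ p ∈ ({a} : Finset ι) ×ˢ T, (R p.1 ∩ R p.2).card := by
        rw [Finset.sum_product]
        simp
      have h5 : Disjoint T.offDiag (({a} : Finset ι) ×ˢ T) := by
        rw [Finset.disjoint_left]
        intro p hp hp'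
        rw [Finset.mem_offDiag] at hp
        rw [Finset.mem_product, Finset.mem_singleton] at hp'
        exact ha (hp'.1 ▸ hp.1)
      rw [h4, ← Finset.sum_union h5]
      refine Finset.sum_le_sum_of_subset ?_
      rw [Finset.offDiag_insert ha]
      exact Finset.subset_union_left
    omega

lemma skel_singleton (f : V → Option V) (x : V) : skel f {x} = anc f x := by
  unfold skel
  rw [Finset.singleton_biUnion]

lemma conn_symm {f : V → Option V} {x y : V} (h : Conn f x y) : Conn f y x := by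
  obtain ⟨z, h1, h2⟩ := h
  exact ⟨z, h2, h1⟩

/-- two paths both visiting the neighbourhood of `y` -/
lemma pair_le (P : PN V) {k1 k2 g0 : ℝ} (hk1 : 0 < k1) (hk2 : 0 < k2) (hg0 : 0 < g0)
    (x x' y : V) :
    PF (P.net k1 hk1) (fun f => ¬ Conn f x x' ∧ y ∈ P.rea k1 k2 g0 hk1 hk2 (anc f x) ∧
      y ∈ P.rea k1 k2 g0 hk1 hk2 (anc f x')) ≤
      grn (P.net k1 hk1) ∅ x y * grn (P.net k1 hk1) ∅ x' y / g0 ^ 2 := by
  classical
  set N := P.net k1 hk1 with hN
  set B : Finset V := univ.filter (fun v => g0 ≤ grn N ∅ v y) with hB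
  have hBm : ∀ b ∈ B, g0 ≤ grn N ∅ b y := fun b hb => (Finset.mem_filter.1 hb).2
  set Φ : Finset V → ℝ := fun S => if ∃ z ∈ S, z ∈ B then 1 else 0 with hΦ
  have hΦ0 : ∀ S, 0 ≤ Φ S := by
    intro S
    rw [hΦ]
    simp only
    split_ifs <;> norm_num
  have h1 := skel_hit N {x} x' Φ hΦ0 B y hg0 hBm
  have h2 := skel_hit N ∅ x (fun _ => 1) (fun _ => zero_le_one) B y hg0 hBm
  rw [EF_one] at h2
  have hrea : ∀ (f : V → Option V) (x : V), y ∈ P.rea k1 k2 g0 hk1 hk2 (anc f x) →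
      ∃ z ∈ anc f x, z ∈ B := by
    intro f x hy
    unfold PN.rea at hy
    rw [Finset.mem_filter] at hy
    obtain ⟨-, v, hv, h3, -⟩ := hy
    exact ⟨v, hv, by rw [hB, Finset.mem_filter]; exact ⟨Finset.mem_univ _, h3⟩⟩
  have h3 : EF N ∅ (fun f => Φ (skel f {x})) ≤ grn N ∅ x y / g0 := by
    refine le_trans (EF_mono N ∅ fun f _ => ?_) (h2.trans (le_of_eq (one_mul _)))
    rw [hΦ]
    simp only
    rw [skel_singleton, one_mul]
    by_cases hz : ∃ z ∈ anc f x, z ∈ B
    · rw [if_pos hz, if_pos]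
      refine ⟨?_, hz⟩
      rintro ⟨w, hw, -⟩
      exact absurd hw (Finset.notMem_empty w)
    · rw [if_neg hz]
      split_ifs <;> norm_num
  have h4 : PF N (fun f => ¬ Conn f x x' ∧ y ∈ P.rea k1 k2 g0 hk1 hk2 (anc f x) ∧
      y ∈ P.rea k1 k2 g0 hk1 hk2 (anc f x')) ≤ EF N ∅ (fun f => Φ (skel f {x}) *
      (open Classical in if ¬ Mt f x' {x} ∧ ∃ z ∈ anc f x', z ∈ B then 1 else 0)) := by
    unfold PF
    refine EF_mono N ∅ fun f _ => ?_
    split_ifs with ha hb hb
    · rw [mul_one, hΦ]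
      simp only
      rw [if_pos]
      rw [skel_singleton]
      exact hrea f x ha.2.1
    · exfalso
      apply hb
      refine ⟨?_, hrea f x' ha.2.2⟩
      rintro ⟨w, hw, hc⟩
      rw [Finset.mem_singleton] at hw
      rw [hw] at hc
      exact ha.1 (conn_symm hc)
    · rw [mul_one]
      exact hΦ0 _
    · rw [mul_zero]
  have h5 : 0 ≤ grn N ∅ x' y / g0 := div_nonneg (grn_nonneg N ∅ x' y) hg0.le
  refine h4.trans (h1.trans ((mul_le_mul_of_nonneg_right h3 h5).trans (le_of_eq ?_)))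
  field_simp

/-- the deterministic part -/
lemma det_part (P : PN V) {k1 k2 g0 r η : ℝ} (hk1 : 0 < k1) (hk2 : 0 < k2) (hg0 : 0 < g0)
    (hr : 0 < r) (hη : 0 < η) (K : ℕ) (hK : 1 ≤ K) (f : V → Option V) (W : Fin K → V)
    (h1 : η * K ≤ isoN f W)
    (h2 : P.cap k2 hk2 (skel f (univ.image W)) < k2 * g0 * (η * K * r / 4)) :
    1 ≤ 2 / (η * K) * (∑ i : Fin K, (open Classical in
        if ((P.rea k1 k2 g0 hk1 hk2 (anc f (W i))).card : ℝ) < r then (1 : ℝ) else 0)) +
      4 / (η * K * r) * ∑ p ∈ (univ : Finset (Fin K)).offDiag, ∑ y ∈ P.M, (open Classical in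
        if ¬ Conn f (W p.1) (W p.2) ∧ y ∈ P.rea k1 k2 g0 hk1 hk2 (anc f (W p.1)) ∧
          y ∈ P.rea k1 k2 g0 hk1 hk2 (anc f (W p.2)) then (1 : ℝ) else 0) := by
  classical
  set R : Fin K → Finset V := fun i => P.rea k1 k2 g0 hk1 hk2 (anc f (W i)) with hR
  set I : Finset (Fin K) := univ.filter (fun i => ∀ j, j ≠ i → ¬ Conn f (W i) (W j)) with hI
  set J : Finset (Fin K) := univ.filter (fun i => ((R i).card : ℝ) < r) with hJ
  have hIc : isoN f W = I.card := by
    unfold isoN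
    rw [hI]
  have hJc : (∑ i : Fin K, (open Classical in
        if ((P.rea k1 k2 g0 hk1 hk2 (anc f (W i))).card : ℝ) < r then (1 : ℝ) else 0)) = J.card := by
    rw [hJ, Finset.card_filter]
    push_cast
    refine Finset.sum_congr rfl fun i _ => ?_
    congr
  set S : ℝ := ∑ p ∈ (univ : Finset (Fin K)).offDiag, ∑ y ∈ P.M, (open Classical in
        if ¬ Conn f (W p.1) (W p.2) ∧ y ∈ P.rea k1 k2 g0 hk1 hk2 (anc f (W p.1)) ∧
          y ∈ P.rea k1 k2 g0 hk1 hk2 (anc f (W p.2)) then (1 : ℝ) else 0) with hS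
  rw [hJc]
  rw [hIc] at h1
  set T : Finset (Fin K) := I \ J with hT
  have hKp : (0 : ℝ) < K := by exact_mod_cast hK
  -- the pairs in `T`
  have hPT : ((∑ p ∈ T.offDiag, (R p.1 ∩ R p.2).card : ℕ) : ℝ) ≤ S := by
    have hsub : T.offDiag ⊆ (univ : Finset (Fin K)).offDiag := Finset.offDiag_mono (Finset.subset_univ _)
    push_cast
    refine le_trans (Finset.sum_le_sum fun p hp => ?_)
      (Finset.sum_le_sum_of_subset_of_nonneg hsub fun p _ _ => Finset.sum_nonneg fun y _ => by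
        split_ifs <;> norm_num)
    rw [Finset.mem_offDiag] at hp
    obtain ⟨hp1, hp2, hne⟩ := hp
    have hI1 : p.1 ∈ I := (Finset.mem_sdiff.1 hp1).1
    rw [hI, Finset.mem_filter] at hI1
    have hnc : ¬ Conn f (W p.1) (W p.2) := hI1.2 p.2 (Ne.symm hne)
    have hsubM : R p.1 ∩ R p.2 ⊆ P.M := fun y hy =>
      (Finset.filter_subset _ _) (Finset.mem_inter.1 hy).1
    calc ((R p.1 ∩ R p.2).card : ℝ) = ∑ y ∈ R p.1 ∩ R p.2, (1 : ℝ) := by simp
      _ = ∑ y ∈ R p.1 ∩ R p.2, (open Classical in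
          if ¬ Conn f (W p.1) (W p.2) ∧ y ∈ P.rea k1 k2 g0 hk1 hk2 (anc f (W p.1)) ∧
          y ∈ P.rea k1 k2 g0 hk1 hk2 (anc f (W p.2)) then (1 : ℝ) else 0) := by
        refine Finset.sum_congr rfl fun y hy => ?_
        rw [Finset.mem_inter] at hy
        rw [if_pos ⟨hnc, hy.1, hy.2⟩]
      _ ≤ _ := Finset.sum_le_sum_of_subset_of_nonneg hsubM fun y _ _ => by
        split_ifs <;> norm_num
  have hbonf := bonf R T
  have hbonf' : ((∑ i ∈ T, (R i).card : ℕ) : ℝ) ≤ ((T.biUnion R).card : ℝ) + S := by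
    have : ((∑ i ∈ T, (R i).card : ℕ) : ℝ) ≤ ((T.biUnion R).card : ℝ) +
        ((∑ p ∈ T.offDiag, (R p.1 ∩ R p.2).card : ℕ) : ℝ) := by exact_mod_cast hbonf
    linarith
  have hTc : (I.card : ℝ) ≤ T.card + J.card := by
    have : I.card ≤ T.card + J.card := by
      rw [hT]
      have := Finset.card_sdiff_add_card I J
      have h3 : I.card ≤ (I ∪ J).card := Finset.card_le_card Finset.subset_union_left
      omega
    exact_mod_cast this
  have hTr : r * T.card ≤ ((∑ i ∈ T, (R i).card : ℕ) : ℝ) := by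
    push_cast
    calc r * (T.card : ℝ) = ∑ i ∈ T, r := by rw [Finset.sum_const, nsmul_eq_mul]; ring
      _ ≤ ∑ i ∈ T, ((R i).card : ℝ) := by
        refine Finset.sum_le_sum fun i hi => ?_
        have hiJ : i ∉ J := (Finset.mem_sdiff.1 hi).2
        rw [hJ, Finset.mem_filter] at hiJ
        push Not at hiJ
        exact hiJ (Finset.mem_univ _)
  have hcap := cap_ge P (k1 := k1) (g0 := g0) hk1 hk2 (skel f (univ.image W))
  have hsubU : T.biUnion R ⊆ P.rea k1 k2 g0 hk1 hk2 (skel f (univ.image W)) := by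
    intro y hy
    rw [Finset.mem_biUnion] at hy
    obtain ⟨i, -, hi⟩ := hy
    refine rea_mono P hk1 hk2 ?_ hi
    unfold skel
    exact Finset.subset_biUnion_of_mem (anc f) (Finset.mem_image_of_mem W (Finset.mem_univ i))
  have hUc : ((T.biUnion R).card : ℝ) ≤ ((P.rea k1 k2 g0 hk1 hk2 (skel f (univ.image W))).card : ℝ) := by
    exact_mod_cast Finset.card_le_card hsubU
  by_contra hcon
  push Not at hcon
  have hηK : 0 < η * K := by positivity
  -- clear denominators
  have h3 : 2 * r * J.card + 4 * S < η * K * r := by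
    have e : 2 / (η * K) * (J.card : ℝ) + 4 / (η * K * r) * S = (2 * r * J.card + 4 * S) / (η * K * r) := by
      field_simp
    rw [e, div_lt_one (by positivity)] at hcon
    exact hcon
  have h4 : k2 * g0 * ((T.biUnion R).card : ℝ) < k2 * g0 * (η * K * r / 4) := by
    refine lt_of_le_of_lt ?_ h2
    refine le_trans (mul_le_mul_of_nonneg_left hUc (by positivity)) hcap
  have h5 : ((T.biUnion R).card : ℝ) < η * K * r / 4 :=
    lt_of_mul_lt_mul_left h4 (by positivity)
  have h6 : r * (η * K) ≤ r * (T.card + J.card) := mul_le_mul_of_nonneg_left (h1.trans hTc) hr.le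
  have hSn : 0 ≤ S := by
    rw [hS]
    refine Finset.sum_nonneg fun p _ => Finset.sum_nonneg fun y _ => ?_
    split_ifs <;> norm_num
  nlinarith

end UnMain

open UnMain

/-- capacity of a union of paths in different trees -/
theorem PN.union_main (P : PN V) {k1 k2 g0 ε r η Ov : ℝ} (hk1 : 0 < k1) (hk2 : 0 < k2)
    (h12 : k1 ≤ k2) (hg0 : 0 < g0) (B : Finset V) (hB : B.Nonempty)
    (hlow : ∑ x ∈ B, PF (P.net k1 hk1) (fun f => ((P.rea k1 k2 g0 hk1 hk2 (anc f x)).card : ℝ) < r) ≤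
      ε * B.card)
    (hov : ∀ x ∈ B, ∀ x' ∈ B, ∑ y ∈ P.M, grn (P.net k1 hk1) ∅ x y * grn (P.net k1 hk1) ∅ x' y ≤ Ov)
    (hr : 0 < r) (hη : 0 < η) (K : ℕ) (hK : 1 ≤ K) :
    ∑ W ∈ Fintype.piFinset (fun _ : Fin K => B), PF (P.net k1 hk1)
      (fun f => η * K ≤ isoN f W ∧
        P.cap k2 hk2 (skel f (univ.image W)) < k2 * g0 * (η * K * r / 4)) ≤
      (2 * ε / η + 4 * K * Ov / (g0 ^ 2 * (η * r))) * (B.card : ℝ) ^ K := by
  classical
  set N := P.net k1 hk1 with hN
  have hKp : (0 : ℝ) < K := by exact_mod_cast hK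
  set pr : V → ℝ := fun x => PF N (fun f => ((P.rea k1 k2 g0 hk1 hk2 (anc f x)).card : ℝ) < r)
    with hpr
  have hOv : 0 ≤ Ov := by
    obtain ⟨x, hx⟩ := hB
    refine le_trans (Finset.sum_nonneg fun y _ => ?_) (hov x hx x hx)
    exact mul_nonneg (grn_nonneg _ _ _ _) (grn_nonneg _ _ _ _)
  -- bound for one `W`
  have hW : ∀ W ∈ Fintype.piFinset (fun _ : Fin K => B), PF N
      (fun f => η * K ≤ isoN f W ∧
        P.cap k2 hk2 (skel f (univ.image W)) < k2 * g0 * (η * K * r / 4)) ≤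
      2 / (η * K) * ∑ i : Fin K, pr (W i) + 4 / (η * K * r) * (K ^ 2 * (Ov / g0 ^ 2)) := by
    intro W hW
    rw [Fintype.mem_piFinset] at hW
    have h1 : PF N (fun f => η * K ≤ isoN f W ∧
        P.cap k2 hk2 (skel f (univ.image W)) < k2 * g0 * (η * K * r / 4)) ≤
        EF N ∅ (fun f => 2 / (η * K) * (∑ i : Fin K, (open Classical in
          if ((P.rea k1 k2 g0 hk1 hk2 (anc f (W i))).card : ℝ) < r then (1 : ℝ) else 0)) +
        4 / (η * K * r) * ∑ p ∈ (univ : Finset (Fin K)).offDiag, ∑ y ∈ P.M, (open Classical in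
          if ¬ Conn f (W p.1) (W p.2) ∧ y ∈ P.rea k1 k2 g0 hk1 hk2 (anc f (W p.1)) ∧
            y ∈ P.rea k1 k2 g0 hk1 hk2 (anc f (W p.2)) then (1 : ℝ) else 0)) := by
      unfold PF
      refine EF_mono N ∅ fun f _ => ?_
      split_ifs with ha
      · exact det_part P hk1 hk2 hg0 hr hη K hK f W ha.1 ha.2
      · refine add_nonneg (mul_nonneg (by positivity) (Finset.sum_nonneg fun i _ => ?_))
          (mul_nonneg (by positivity) (Finset.sum_nonneg fun p _ => Finset.sum_nonneg fun y _ => ?_))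
        · split_ifs <;> norm_num
        · split_ifs <;> norm_num
    refine h1.trans ?_
    rw [EF_add, EF_mul, EF_mul, EF_sum, EF_sum]
    refine add_le_add (le_of_eq rfl) (mul_le_mul_of_nonneg_left ?_ (by positivity))
    have h2 : ∀ p ∈ (univ : Finset (Fin K)).offDiag, EF N ∅ (fun f => ∑ y ∈ P.M, (open Classical in
          if ¬ Conn f (W p.1) (W p.2) ∧ y ∈ P.rea k1 k2 g0 hk1 hk2 (anc f (W p.1)) ∧
            y ∈ P.rea k1 k2 g0 hk1 hk2 (anc f (W p.2)) then (1 : ℝ) else 0)) ≤ Ov / g0 ^ 2 := by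
      intro p _
      rw [EF_sum]
      have h3 : ∀ y ∈ P.M, EF N ∅ (fun f => (open Classical in
          if ¬ Conn f (W p.1) (W p.2) ∧ y ∈ P.rea k1 k2 g0 hk1 hk2 (anc f (W p.1)) ∧
            y ∈ P.rea k1 k2 g0 hk1 hk2 (anc f (W p.2)) then (1 : ℝ) else 0)) ≤
          grn N ∅ (W p.1) y * grn N ∅ (W p.2) y / g0 ^ 2 := fun y _ => by
        refine le_trans (le_of_eq ?_) (pair_le P hk1 hk2 hg0 (W p.1) (W p.2) y)
        unfold PF
        congr 1
        funext f
        congr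
      refine (Finset.sum_le_sum h3).trans ?_
      rw [← Finset.sum_div]
      exact div_le_div_of_nonneg_right (hov _ (hW p.1) _ (hW p.2)) (by positivity)
    refine (Finset.sum_le_card_nsmul _ _ _ h2).trans ?_
    rw [nsmul_eq_mul]
    refine mul_le_mul_of_nonneg_right ?_ (div_nonneg hOv (by positivity))
    have h4 : (univ : Finset (Fin K)).offDiag.card ≤ K ^ 2 := by
      rw [Finset.offDiag_card, Finset.card_univ, Fintype.card_fin, pow_two]
      exact Nat.sub_le _ _
    exact_mod_cast h4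
  refine (Finset.sum_le_sum hW).trans ?_
  rw [Finset.sum_add_distrib, ← Finset.mul_sum, Finset.sum_const, Fintype.card_piFinset_const,
    nsmul_eq_mul]
  -- the sum over `W`
  have hsumW : ∑ W ∈ Fintype.piFinset (fun _ : Fin K => B), ∑ i : Fin K, pr (W i) ≤
      K * ε * (B.card : ℝ) ^ K := by
    rw [Finset.sum_comm]
    have h5 : ∀ i : Fin K, ∑ W ∈ Fintype.piFinset (fun _ : Fin K => B), pr (W i) ≤
        ε * (B.card : ℝ) ^ K := by
      intro i
      rw [Fintype.sum_piFinset_apply, Fintype.card_fin, nsmul_eq_mul]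
      push_cast
      have h6 : (B.card : ℝ) ^ (K - 1) * ∑ b ∈ B, pr b ≤ (B.card : ℝ) ^ (K - 1) * (ε * B.card) :=
        mul_le_mul_of_nonneg_left hlow (by positivity)
      refine h6.trans (le_of_eq ?_)
      obtain ⟨K', rfl⟩ : ∃ K', K = K' + 1 := ⟨K - 1, by omega⟩
      rw [Nat.add_sub_cancel, pow_succ]
      ring
    refine (Finset.sum_le_sum fun i _ => h5 i).trans (le_of_eq ?_)
    rw [Finset.sum_const, Finset.card_univ, Fintype.card_fin, nsmul_eq_mul]
    ring
  have h7 : 2 / (η * K) * ∑ W ∈ Fintype.piFinset (fun _ : Fin K => B), ∑ i : Fin K, pr (W i) ≤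
      2 / (η * K) * (K * ε * (B.card : ℝ) ^ K) :=
    mul_le_mul_of_nonneg_left hsumW (by positivity)
  refine (add_le_add h7 le_rfl).trans (le_of_eq ?_)
  push_cast
  field_simp

end

end Pool.Agent.TH972.U
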