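import Pool.Agent.TH972.U.Wil
set_option autoImplicit false
namespace Pool.Agent.TH972.U
open Finset
noncomputable section
variable {V : Type} [Fintype V] [DecidableEq V]

namespace UnSoft

open Grn Grn2

/-- harmonic at `x` -/
def Harm (N : Net V) (x : V) (f : V → ℝ) : Prop :=
  (cs N.κ x + N.k x) * f x = ∑ w, Kc N.κ x w * f w

theorem Harm.sub {N : Net V} {x : V} {f g : V → ℝ} (hf : Harm N x f) (hg : Harm N x g) :
    Harm N x (fun y => f y - g y) := by
  unfold Harm at *
  rw [mul_sub, hf, hg, ← Finset.sum_sub_distrib]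
  exact Finset.sum_congr rfl fun w _ => by ring

theorem Harm.mul_const {N : Net V} {x : V} {f : V → ℝ} (hf : Harm N x f) (c : ℝ) :
    Harm N x (fun y => f y * c) := by
  unfold Harm at *
  rw [← mul_assoc, hf, Finset.sum_mul]
  exact Finset.sum_congr rfl fun w _ => by ring

theorem Harm.sum {N : Net V} {x : V} {ι : Type} (s : Finset ι) {f : ι → V → ℝ}
    (hf : ∀ i ∈ s, Harm N x (f i)) : Harm N x (fun y => ∑ i ∈ s, f i y) := by
  unfold Harm at *
  rw [Finset.mul_sum, Finset.sum_congr rfl hf, Finset.sum_comm]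
  exact Finset.sum_congr rfl fun w _ => by rw [Finset.mul_sum]

/-- probability to visit `v` -/
def pv (N : Net V) (v y : V) : ℝ := grn N ∅ y v / grn N ∅ v v

theorem gpos (N : Net V) (v : V) : 0 < grn N ∅ v v := grn_pos N (Finset.notMem_empty v)

theorem pv_self (N : Net V) (v : V) : pv N v v = 1 := div_self (gpos N v).ne'

theorem pv_nonneg (N : Net V) (v y : V) : 0 ≤ pv N v y :=
  div_nonneg (grn_nonneg N ∅ y v) (gpos N v).le

theorem pv_harm (N : Net V) {v x : V} (h : x ≠ v) : Harm N x (pv N v) := by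
  have h1 := grn_eq N (Finset.notMem_empty x) (Finset.notMem_empty v)
  rw [if_neg h, zero_add] at h1
  unfold Harm pv
  rw [← mul_div_assoc, h1, Finset.sum_div]
  exact Finset.sum_congr rfl fun w _ => by rw [mul_div_assoc]

theorem hit_harm (N : Net V) {D : Finset V} {x : V} (hx : x ∉ D) :
    Harm N x (fun y => 1 - surv N D y) := by
  have h1 := harm_one N hx
  unfold Harm
  have h2 : ∑ w, Kc N.κ x w * (1 - surv N D w) = - ∑ w, Kc N.κ x w * (surv N D w - 1) := by
    rw [← Finset.sum_neg_distrib]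
    exact Finset.sum_congr rfl fun w _ => by ring
  rw [h2, ← h1]
  ring

theorem hit_le (N : Net V) (D : Finset V) (z : V) :
    1 - surv N D z ≤ ∑ u ∈ D, pv N u z := by
  have h := max_pr N D (fun x => (1 - surv N D x) - ∑ u ∈ D, pv N u x)
    (fun x hx => by
      have h1 : pv N x x ≤ ∑ u ∈ D, pv N u x :=
        Finset.single_le_sum (f := fun u => pv N u x) (fun u _ => pv_nonneg N u x) hx
      rw [pv_self] at h1
      rw [surv_mem N hx]
      linarith)
    (fun x hx => by
      refine le_of_eq ?_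
      exact Harm.sub (hit_harm N hx) (Harm.sum D (fun u hu => pv_harm N (fun h => hx (h ▸ hu))))) z
  linarith

/-- hitting probability of a union -/
theorem union_lower (N : Net V) {ι : Type} [DecidableEq ι] (s : Finset ι) (D : ι → Finset V)
    (y : V) :
    ∑ i ∈ s, (1 - surv N (D i) y) -
      ∑ i ∈ s, ∑ j ∈ s.erase i, ∑ v ∈ D i, ∑ u ∈ D j, pv N v y * pv N u v ≤
      1 - surv N (s.biUnion D) y := by
  have h := max_pr N (s.biUnion D) (fun x => (∑ i ∈ s, (1 - surv N (D i) x) -
      ∑ i ∈ s, ∑ j ∈ s.erase i, ∑ v ∈ D i, ∑ u ∈ D j, pv N v x * pv N u v) -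
      (1 - surv N (s.biUnion D) x))
    (fun z hz => by
      obtain ⟨i₀, hi₀, hzi⟩ := Finset.mem_biUnion.1 hz
      rw [surv_mem N hz]
      have h1 : ∑ i ∈ s, (1 - surv N (D i) z) =
          ∑ i ∈ s.erase i₀, (1 - surv N (D i) z) + 1 := by
        rw [← Finset.sum_erase_add s _ hi₀, surv_mem N hzi, sub_zero]
      have h2 : ∑ j ∈ s.erase i₀, (1 - surv N (D j) z) ≤
          ∑ j ∈ s.erase i₀, ∑ v ∈ D i₀, ∑ u ∈ D j, pv N v z * pv N u v := by
        refine Finset.sum_le_sum fun j _ => (hit_le N (D j) z).trans ?_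
        have h3 : ∑ u ∈ D j, pv N u z = ∑ u ∈ D j, pv N z z * pv N u z :=
          Finset.sum_congr rfl fun u _ => by rw [pv_self, one_mul]
        rw [h3]
        exact Finset.single_le_sum (f := fun v => ∑ u ∈ D j, pv N v z * pv N u v)
          (fun v _ => Finset.sum_nonneg fun u _ =>
            mul_nonneg (pv_nonneg N v z) (pv_nonneg N u v)) hzi
      have h4 : ∑ j ∈ s.erase i₀, ∑ v ∈ D i₀, ∑ u ∈ D j, pv N v z * pv N u v ≤
          ∑ i ∈ s, ∑ j ∈ s.erase i, ∑ v ∈ D i, ∑ u ∈ D j, pv N v z * pv N u v :=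
        Finset.single_le_sum
          (f := fun i => ∑ j ∈ s.erase i, ∑ v ∈ D i, ∑ u ∈ D j, pv N v z * pv N u v)
          (fun i _ => Finset.sum_nonneg fun j _ => Finset.sum_nonneg fun v _ =>
            Finset.sum_nonneg fun u _ => mul_nonneg (pv_nonneg N v z) (pv_nonneg N u v)) hi₀
      rw [h1]
      linarith)
    (fun x hx => by
      have hx' : ∀ i ∈ s, x ∉ D i := fun i hi h => hx (Finset.mem_biUnion.2 ⟨i, hi, h⟩)
      refine le_of_eq ?_
      refine Harm.sub (Harm.sub (Harm.sum s fun i hi => hit_harm N (hx' i hi))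
        (Harm.sum s fun i hi => Harm.sum _ fun j _ => Harm.sum _ fun v hv =>
          Harm.sum _ fun u _ => Harm.mul_const
            (pv_harm N (fun h : x = v => hx' i hi (by rw [h]; exact hv))) _))
        (hit_harm N hx)) y
  linarith

theorem sum_grn (P : PN V) (k : ℝ) (hk : 0 < k) (v : V) :
    k * ∑ x ∈ P.M, grn (P.net k hk) ∅ x v = 1 := by
  have h := surv_empty (P.net k hk) v
  unfold surv at h
  rw [← h, Finset.mul_sum, ← Finset.sum_filter_add_sum_filter_not univ (fun y => y ∈ P.M)]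
  have h1 : ∑ y ∈ univ.filter (fun y => ¬ y ∈ P.M), grn (P.net k hk) ∅ v y * (P.net k hk).k y = 0 := by
    refine Finset.sum_eq_zero fun y hy => ?_
    have h2 : (P.net k hk).k y = 0 := if_neg (Finset.mem_filter.1 hy).2
    rw [h2, mul_zero]
  rw [h1, add_zero]
  have h3 : univ.filter (fun y => y ∈ P.M) = P.M := by ext; simp
  rw [h3]
  refine Finset.sum_congr rfl fun y hy => ?_
  have h2 : (P.net k hk).k y = k := if_pos hy
  rw [h2, grn_symm]
  ring

/-- overlap weight -/
def om (N : Net V) (v u : V) : ℝ := grn N ∅ v u / (grn N ∅ v v * grn N ∅ u u)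

theorem om_nonneg (N : Net V) (v u : V) : 0 ≤ om N v u :=
  div_nonneg (grn_nonneg N ∅ v u) (mul_nonneg (gpos N v).le (gpos N u).le)

theorem sum_pv (P : PN V) (k : ℝ) (hk : 0 < k) (v u : V) :
    k * ∑ y ∈ P.M, pv (P.net k hk) v y * pv (P.net k hk) u v = om (P.net k hk) v u := by
  have h := sum_grn P k hk v
  have h1 := (gpos (P.net k hk) v).ne'
  have h2 := (gpos (P.net k hk) u).ne'
  have h3 : k * ∑ y ∈ P.M, pv (P.net k hk) v y * pv (P.net k hk) u v =
      (k * ∑ x ∈ P.M, grn (P.net k hk) ∅ x v) * (pv (P.net k hk) u v / grn (P.net k hk) ∅ v v) := by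
    rw [Finset.mul_sum, Finset.mul_sum, Finset.sum_mul]
    refine Finset.sum_congr rfl fun y _ => ?_
    unfold pv
    field_simp
  rw [h3, h, one_mul]
  unfold pv om
  field_simp

theorem cap_mono (P : PN V) (k : ℝ) (hk : 0 < k) {D D' : Finset V} (h : D ⊆ D') :
    P.cap k hk D ≤ P.cap k hk D' := by
  unfold PN.cap
  refine mul_le_mul_of_nonneg_left (Finset.sum_le_sum fun m _ => ?_) hk.le
  have := surv_anti (P.net k hk) h m
  linarith

theorem cap_nonneg (P : PN V) (k : ℝ) (hk : 0 < k) (D : Finset V) : 0 ≤ P.cap k hk D := by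
  unfold PN.cap
  refine mul_nonneg hk.le (Finset.sum_nonneg fun m _ => ?_)
  have := surv_le_one (P.net k hk) D m
  linarith

theorem cap_union (P : PN V) (k : ℝ) (hk : 0 < k) {ι : Type} [DecidableEq ι] (s : Finset ι)
    (D : ι → Finset V) :
    ∑ i ∈ s, P.cap k hk (D i) -
      ∑ i ∈ s, ∑ j ∈ s.erase i, ∑ v ∈ D i, ∑ u ∈ D j, om (P.net k hk) v u ≤
      P.cap k hk (s.biUnion D) := by
  have h1 : k * ∑ m ∈ P.M, (∑ i ∈ s, (1 - surv (P.net k hk) (D i) m) -
      ∑ i ∈ s, ∑ j ∈ s.erase i, ∑ v ∈ D i, ∑ u ∈ D j,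
        pv (P.net k hk) v m * pv (P.net k hk) u v) ≤ P.cap k hk (s.biUnion D) := by
    unfold PN.cap
    exact mul_le_mul_of_nonneg_left
      (Finset.sum_le_sum fun m _ => union_lower (P.net k hk) s D m) hk.le
  refine le_trans (le_of_eq ?_) h1
  rw [Finset.sum_sub_distrib, mul_sub]
  congr 1
  · unfold PN.cap
    rw [← Finset.mul_sum, Finset.sum_comm]
  · symm
    rw [Finset.sum_comm, Finset.mul_sum]
    refine Finset.sum_congr rfl fun i _ => ?_
    rw [Finset.sum_comm, Finset.mul_sum]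
    refine Finset.sum_congr rfl fun j _ => ?_
    rw [Finset.sum_comm, Finset.mul_sum]
    refine Finset.sum_congr rfl fun v _ => ?_
    rw [Finset.sum_comm, Finset.mul_sum]
    refine Finset.sum_congr rfl fun u _ => ?_
    exact sum_pv P k hk v u

omit [DecidableEq V] in
theorem conn_comm {f : V → Option V} {x y : V} : Conn f x y ↔ Conn f y x :=
  ⟨fun ⟨z, h1, h2⟩ => ⟨z, h2, h1⟩, fun ⟨z, h1, h2⟩ => ⟨z, h2, h1⟩⟩

open Classical in
theorem single_prob (N : Net V) (x v : V) :
    EF N ∅ (fun f => if v ∈ anc f x then 1 else 0) ≤ pv N v x := by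
  have h := skel_hit N ∅ x (fun _ => 1) (fun _ => zero_le_one) {v} v (gpos N v)
    (fun b hb => by rw [Finset.mem_singleton.1 hb])
  rw [EF_one, one_mul] at h
  refine le_trans (EF_mono N ∅ fun f _ => ?_) h
  by_cases hv : v ∈ anc f x
  · have h1 : ¬ Mt f x ∅ ∧ ∃ z ∈ anc f x, z ∈ ({v} : Finset V) :=
      ⟨fun ⟨w, hw, _⟩ => absurd hw (Finset.notMem_empty w), v, hv, Finset.mem_singleton_self v⟩
    rw [if_pos hv, if_pos h1, one_mul]
  · rw [if_neg hv]
    split_ifs <;> norm_num

open Classical in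
theorem pair_prob (N : Net V) (x x' v u : V) :
    EF N ∅ (fun f => if ¬ Conn f x x' ∧ v ∈ anc f x ∧ u ∈ anc f x' then 1 else 0) ≤
      pv N v x * pv N u x' := by
  have h := skel_hit N {x} x' (fun S => if v ∈ S then 1 else 0)
    (fun S => by split_ifs <;> norm_num) {u} u (gpos N u)
    (fun b hb => by rw [Finset.mem_singleton.1 hb])
  have hsk : ∀ f : V → Option V, skel f {x} = anc f x := fun f => Finset.singleton_biUnion
  have h2 : EF N ∅ (fun f => if v ∈ skel f {x} then 1 else 0) ≤ pv N v x := by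
    have h3 : (fun f : V → Option V => (if v ∈ skel f {x} then (1 : ℝ) else 0)) =
        fun f => if v ∈ anc f x then 1 else 0 := by
      funext f
      rw [hsk]
    rw [h3]
    exact single_prob N x v
  refine le_trans (EF_mono N ∅ fun f _ => ?_) (h.trans
    (mul_le_mul_of_nonneg_right h2 (pv_nonneg N u x')))
  by_cases hc : ¬ Conn f x x' ∧ v ∈ anc f x ∧ u ∈ anc f x'
  · have h1 : ¬ Mt f x' {x} ∧ ∃ z ∈ anc f x', z ∈ ({u} : Finset V) := by
      refine ⟨fun ⟨w, hw, hcw⟩ => hc.1 ?_, u, hc.2.2, Finset.mem_singleton_self u⟩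
      rw [Finset.mem_singleton.1 hw] at hcw
      exact conn_comm.1 hcw
    have h3 : v ∈ skel f {x} := by rw [hsk]; exact hc.2.1
    rw [if_pos hc, if_pos h1, if_pos h3, one_mul]
  · rw [if_neg hc]
    split_ifs <;> norm_num

open Classical in
/-- overlap of the paths of two vertices in different trees -/
def ovl (N : Net V) (f : V → Option V) (x x' : V) : ℝ :=
  if ¬ Conn f x x' then ∑ v ∈ anc f x, ∑ u ∈ anc f x', om N v u else 0

theorem ovl_nonneg (N : Net V) (f : V → Option V) (x x' : V) : 0 ≤ ovl N f x x' := by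
  unfold ovl
  split_ifs
  · exact le_rfl
  · exact Finset.sum_nonneg fun v _ => Finset.sum_nonneg fun u _ => om_nonneg N v u

theorem EF_ovl (N1 N2 : Net V) (x x' : V) :
    EF N1 ∅ (fun f => ovl N2 f x x') ≤ ∑ v, ∑ u, om N2 v u * (pv N1 v x * pv N1 u x') := by
  classical
  have h1 : (fun f => ovl N2 f x x') = fun f : V → Option V =>
      ∑ v, ∑ u, om N2 v u *
        (if ¬ Conn f x x' ∧ v ∈ anc f x ∧ u ∈ anc f x' then 1 else 0) := by
    funext f
    unfold ovl
    by_cases hc : Conn f x x'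
    · rw [if_neg (not_not.2 hc)]
      symm
      refine Finset.sum_eq_zero fun v _ => Finset.sum_eq_zero fun u _ => ?_
      rw [if_neg (fun h => h.1 hc), mul_zero]
    · rw [if_pos hc]
      have h2 : ∀ v, ∑ u, om N2 v u *
          (if ¬ Conn f x x' ∧ v ∈ anc f x ∧ u ∈ anc f x' then (1 : ℝ) else 0) =
          if v ∈ anc f x then ∑ u ∈ anc f x', om N2 v u else 0 := by
        intro v
        by_cases hv : v ∈ anc f x
        · rw [if_pos hv, ← Finset.sum_filter_add_sum_filter_not univ (fun u => u ∈ anc f x')]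
          have h3 : ∑ u ∈ univ.filter (fun u => ¬ u ∈ anc f x'), om N2 v u *
              (if ¬ Conn f x x' ∧ v ∈ anc f x ∧ u ∈ anc f x' then (1 : ℝ) else 0) = 0 := by
            refine Finset.sum_eq_zero fun u hu => ?_
            rw [if_neg (fun h => (Finset.mem_filter.1 hu).2 h.2.2), mul_zero]
          have h4 : univ.filter (fun u => u ∈ anc f x') = anc f x' := by ext; simp
          rw [h3, add_zero, h4]
          refine Finset.sum_congr rfl fun u hu => ?_
          rw [if_pos ⟨hc, hv, hu⟩, mul_one]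
        · rw [if_neg hv]
          refine Finset.sum_eq_zero fun u _ => ?_
          rw [if_neg (fun h => hv h.2.1), mul_zero]
      rw [Finset.sum_congr rfl fun v _ => h2 v, ← Finset.sum_filter]
      congr 1
      ext
      simp
  rw [h1, EF_sum]
  refine Finset.sum_le_sum fun v _ => ?_
  rw [EF_sum]
  refine Finset.sum_le_sum fun u _ => ?_
  rw [EF_mul]
  exact mul_le_mul_of_nonneg_left (pair_prob N1 x x' v u) (om_nonneg N2 v u)

omit [Fintype V] [DecidableEq V] in
theorem sum_pi_pair (M : Finset V) (hM : M.Nonempty) {K : ℕ} {i j : Fin K} (hij : i ≠ j)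
    (a b : V → ℝ) : ∑ W ∈ Fintype.piFinset (fun _ : Fin K => M), a (W i) * b (W j) =
      ((∑ x ∈ M, a x) / M.card) * ((∑ x ∈ M, b x) / M.card) * (M.card : ℝ) ^ K := by
  classical
  have hc : (M.card : ℝ) ≠ 0 := by exact_mod_cast hM.card_pos.ne'
  have h1 := Finset.prod_univ_sum (fun _ : Fin K => M)
    (fun l x => (if l = i then a x else 1) * (if l = j then b x else 1))
  have h2 : ∀ W : Fin K → V,
      ∏ l, ((if l = i then a (W l) else 1) * (if l = j then b (W l) else 1)) =
      a (W i) * b (W j) := by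
    intro W
    rw [Finset.prod_mul_distrib, Finset.prod_ite_eq', Finset.prod_ite_eq', if_pos (mem_univ _),
      if_pos (mem_univ _)]
  have h3 : ∀ l : Fin K, ∑ x ∈ M, ((if l = i then a x else 1) * (if l = j then b x else 1)) =
      (M.card : ℝ) * ((if l = i then (∑ x ∈ M, a x) / M.card else 1) *
        (if l = j then (∑ x ∈ M, b x) / M.card else 1)) := by
    intro l
    by_cases hi : l = i
    · have hj : l ≠ j := fun h => hij (hi.symm.trans h)
      simp only [if_pos hi, if_neg hj, mul_one]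
      field_simp
    · by_cases hj : l = j
      · simp only [if_neg hi, if_pos hj, one_mul]
        field_simp
      · simp only [if_neg hi, if_neg hj, mul_one]
        rw [Finset.sum_const, nsmul_eq_mul, mul_one]
  rw [Finset.prod_congr rfl fun l _ => h3 l, Finset.prod_mul_distrib, Finset.prod_const,
    Finset.prod_mul_distrib, Finset.prod_ite_eq', Finset.prod_ite_eq', if_pos (mem_univ _),
    if_pos (mem_univ _), Finset.card_univ, Fintype.card_fin] at h1
  rw [Finset.sum_congr rfl fun W _ => (h2 W).symm, ← h1]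
  ring

open Classical in
/-- the event implies a large number of small paths or a large overlap -/
theorem event_le (P : PN V) {k2 c η : ℝ} (hk2 : 0 < k2) (hc : 0 < c) (hη : 0 < η) {K : ℕ}
    (hK : 1 ≤ K) (f : V → Option V) (W : Fin K → V) :
    (if η * K ≤ isoN f W ∧ P.cap k2 hk2 (skel f (univ.image W)) < η * K * c / 4
      then (1 : ℝ) else 0) ≤
      2 / (η * K) * ∑ i, (if P.cap k2 hk2 (anc f (W i)) < c then (1 : ℝ) else 0) +
      2 / (η * K * c) * ∑ i, ∑ j ∈ univ.erase i, ovl (P.net k2 hk2) f (W i) (W j) := by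
  have hK0 : (0 : ℝ) < K := by exact_mod_cast hK
  have hηK : 0 < η * K := mul_pos hη hK0
  have hJ0 : 0 ≤ ∑ i, (if P.cap k2 hk2 (anc f (W i)) < c then (1 : ℝ) else 0) :=
    Finset.sum_nonneg fun i _ => by split_ifs <;> norm_num
  have hO0 : 0 ≤ ∑ i, ∑ j ∈ univ.erase i, ovl (P.net k2 hk2) f (W i) (W j) :=
    Finset.sum_nonneg fun i _ => Finset.sum_nonneg fun j _ => ovl_nonneg _ _ _ _
  split_ifs with hev
  · obtain ⟨h1, h2⟩ := hev
    obtain ⟨I, hI⟩ : ∃ I : Finset (Fin K), I = univ.filter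
      (fun i => ∀ j, j ≠ i → ¬ Conn f (W i) (W j)) := ⟨_, rfl⟩
    have hcard : (I.card : ℝ) = isoN f W := by rw [hI]; rfl
    have hsub : I.biUnion (fun i => anc f (W i)) ⊆ skel f (univ.image W) := by
      intro z hz
      obtain ⟨i, _, hzi⟩ := Finset.mem_biUnion.1 hz
      unfold skel
      exact Finset.mem_biUnion.2 ⟨W i, Finset.mem_image_of_mem W (mem_univ i), hzi⟩
    have h3 := cap_mono P k2 hk2 hsub
    have h4 := cap_union P k2 hk2 I (fun i => anc f (W i))
    have h5 : ∑ i ∈ I, ∑ j ∈ I.erase i, ∑ v ∈ anc f (W i), ∑ u ∈ anc f (W j),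
        om (P.net k2 hk2) v u ≤ ∑ i, ∑ j ∈ univ.erase i, ovl (P.net k2 hk2) f (W i) (W j) := by
      calc ∑ i ∈ I, ∑ j ∈ I.erase i, ∑ v ∈ anc f (W i), ∑ u ∈ anc f (W j),
            om (P.net k2 hk2) v u
          = ∑ i ∈ I, ∑ j ∈ I.erase i, ovl (P.net k2 hk2) f (W i) (W j) := by
            refine Finset.sum_congr rfl fun i hi => Finset.sum_congr rfl fun j hj => ?_
            have h6 : ¬ Conn f (W i) (W j) := by
              rw [hI] at hi
              exact (Finset.mem_filter.1 hi).2 j (Finset.ne_of_mem_erase hj)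
            unfold ovl
            rw [if_pos h6]
        _ ≤ ∑ i ∈ I, ∑ j ∈ univ.erase i, ovl (P.net k2 hk2) f (W i) (W j) :=
            Finset.sum_le_sum fun i _ => Finset.sum_le_sum_of_subset_of_nonneg
              (Finset.erase_subset_erase i (Finset.subset_univ I)) fun _ _ _ => ovl_nonneg _ _ _ _
        _ ≤ _ := Finset.sum_le_sum_of_subset_of_nonneg (Finset.subset_univ I)
            fun _ _ _ => Finset.sum_nonneg fun _ _ => ovl_nonneg _ _ _ _
    have h6 : c * I.card - c * ∑ i, (if P.cap k2 hk2 (anc f (W i)) < c then (1 : ℝ) else 0) ≤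
        ∑ i ∈ I, P.cap k2 hk2 (anc f (W i)) := by
      have h7 : ∑ i ∈ I, (if P.cap k2 hk2 (anc f (W i)) < c then (1 : ℝ) else 0) ≤
          ∑ i, (if P.cap k2 hk2 (anc f (W i)) < c then (1 : ℝ) else 0) :=
        Finset.sum_le_sum_of_subset_of_nonneg (Finset.subset_univ I)
          fun _ _ _ => by split_ifs <;> norm_num
      have h8 : c * I.card - c * ∑ i ∈ I, (if P.cap k2 hk2 (anc f (W i)) < c then (1 : ℝ) else 0) =
          ∑ i ∈ I, (c - c * (if P.cap k2 hk2 (anc f (W i)) < c then (1 : ℝ) else 0)) := by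
        rw [Finset.sum_sub_distrib, Finset.sum_const, nsmul_eq_mul, ← Finset.mul_sum]
        ring
      have h9 : ∑ i ∈ I, (c - c * (if P.cap k2 hk2 (anc f (W i)) < c then (1 : ℝ) else 0)) ≤
          ∑ i ∈ I, P.cap k2 hk2 (anc f (W i)) := by
        refine Finset.sum_le_sum fun i _ => ?_
        split_ifs with h
        · have := cap_nonneg P k2 hk2 (anc f (W i))
          linarith
        · rw [not_lt] at h
          linarith
      nlinarith
    obtain ⟨J, hJ⟩ : ∃ J : ℝ, J = ∑ i,
      (if P.cap k2 hk2 (anc f (W i)) < c then (1 : ℝ) else 0) := ⟨_, rfl⟩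
    obtain ⟨O, hO⟩ : ∃ O : ℝ, O = ∑ i, ∑ j ∈ univ.erase i,
      ovl (P.net k2 hk2) f (W i) (W j) := ⟨_, rfl⟩
    rw [← hJ] at h6 hJ0 ⊢
    rw [← hO] at h5 hO0 ⊢
    rw [hcard] at h6
    have h10 : 3 / 4 * (η * K * c) ≤ c * J + O := by
      have := mul_le_mul_of_nonneg_left h1 hc.le
      nlinarith
    have h11 : 2 / (η * K) * J + 2 / (η * K * c) * O = 2 * (c * J + O) / (η * K * c) := by
      field_simp
    rw [h11, le_div_iff₀ (by positivity)]
    nlinarith [mul_pos hηK hc]
  · positivity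

end UnSoft

open UnSoft

/-- capacity of a union of paths in different trees -/
theorem PN.union_soft (P : PN V) {k1 k2 γ A ε c η : ℝ} (hk1 : 0 < k1) (hk2 : 0 < k2)
    (h12 : k1 ≤ k2) (hγ0 : 0 ≤ γ) (hγ : ∀ v, 1 ≤ γ * grn (P.net k2 hk2) ∅ v v)
    (hA : ∀ v, ∑ u, grn (P.net k2 hk2) ∅ v u / grn (P.net k2 hk2) ∅ u u ≤ A)
    (hlow : ∀ x ∈ P.M, PF (P.net k1 hk1) (fun f => P.cap k2 hk2 (anc f x) < c) ≤ ε)
    (hc : 0 < c) (hη : 0 < η) (K : ℕ) (hK : 1 ≤ K) :
    ∑ W ∈ Fintype.piFinset (fun _ : Fin K => P.M), PF (P.net k1 hk1)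
      (fun f => η * K ≤ isoN f W ∧ P.cap k2 hk2 (skel f (univ.image W)) < η * K * c / 4) ≤
      (2 * ε / η + 8 * K * γ ^ 3 * Fintype.card V * A / (η * c * (k1 * P.M.card) ^ 2)) *
        (P.M.card : ℝ) ^ K := by
  classical
  obtain ⟨v₀, hv₀⟩ := P.M_ne
  have hA0 : 0 ≤ A := le_trans (Finset.sum_nonneg fun u _ =>
    div_nonneg (grn_nonneg _ _ _ _) (grn_nonneg _ _ _ _)) (hA v₀)
  have hm0 : (0 : ℝ) < P.M.card := by exact_mod_cast P.M_ne.card_pos
  have hK0 : (0 : ℝ) < K := by exact_mod_cast hK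
  have hηK : 0 < η * K := mul_pos hη hK0
  -- the mean of the hitting probabilities
  have hα : ∀ v, (∑ x ∈ P.M, pv (P.net k1 hk1) v x) / P.M.card ≤ γ / (k1 * P.M.card) := by
    intro v
    have h1 := sum_grn P k1 hk1 v
    have h2 := gpos (P.net k1 hk1) v
    have h3 : grn (P.net k2 hk2) ∅ v v ≤ grn (P.net k1 hk1) ∅ v v := by
      refine grn_anti_k (P.net k1 hk1) (P.net k2 hk2) rfl (fun x => ?_) ∅ v v
      change (if x ∈ P.M then k1 else 0) ≤ (if x ∈ P.M then k2 else 0)
      split_ifs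
      · exact h12
      · exact le_rfl
    have h4 : 1 ≤ γ * grn (P.net k1 hk1) ∅ v v :=
      (hγ v).trans (mul_le_mul_of_nonneg_left h3 hγ0)
    have h5 : ∑ x ∈ P.M, pv (P.net k1 hk1) v x = 1 / (k1 * grn (P.net k1 hk1) ∅ v v) := by
      unfold pv
      rw [← Finset.sum_div]
      field_simp
      linarith
    rw [h5, div_le_div_iff₀ hm0 (by positivity), div_mul_eq_mul_div, one_mul,
      div_le_iff₀ (by positivity)]
    nlinarith [mul_pos hk1 hm0]
  have hα0 : ∀ v, 0 ≤ (∑ x ∈ P.M, pv (P.net k1 hk1) v x) / P.M.card := fun v =>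
    div_nonneg (Finset.sum_nonneg fun x _ => pv_nonneg _ _ _) hm0.le
  have hg0 : 0 ≤ γ / (k1 * P.M.card) := div_nonneg hγ0 (by positivity)
  -- the total overlap weight
  have hom : ∑ v, ∑ u, om (P.net k2 hk2) v u ≤ Fintype.card V * (γ * A) := by
    have h1 : ∀ v, ∑ u, om (P.net k2 hk2) v u ≤ γ * A := by
      intro v
      have h2 := gpos (P.net k2 hk2) v
      have h3 : ∑ u, om (P.net k2 hk2) v u = 1 / grn (P.net k2 hk2) ∅ v v *
          ∑ u, grn (P.net k2 hk2) ∅ v u / grn (P.net k2 hk2) ∅ u u := by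
        rw [Finset.mul_sum]
        refine Finset.sum_congr rfl fun u _ => ?_
        unfold om
        have := (gpos (P.net k2 hk2) u).ne'
        field_simp
      rw [h3]
      refine mul_le_mul ?_ (hA v) (Finset.sum_nonneg fun u _ =>
        div_nonneg (grn_nonneg _ _ _ _) (grn_nonneg _ _ _ _)) hγ0
      rw [div_le_iff₀ h2]
      exact hγ v
    calc ∑ v, ∑ u, om (P.net k2 hk2) v u ≤ ∑ _v : V, γ * A := Finset.sum_le_sum fun v _ => h1 v
      _ = _ := by rw [Finset.sum_const, Finset.card_univ, nsmul_eq_mul]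
  -- pointwise bound
  have hW : ∀ W ∈ Fintype.piFinset (fun _ : Fin K => P.M), PF (P.net k1 hk1)
      (fun f => η * K ≤ isoN f W ∧ P.cap k2 hk2 (skel f (univ.image W)) < η * K * c / 4) ≤
      2 * ε / η + 2 / (η * K * c) * ∑ i, ∑ j ∈ univ.erase i, ∑ v, ∑ u,
        om (P.net k2 hk2) v u * (pv (P.net k1 hk1) v (W i) * pv (P.net k1 hk1) u (W j)) := by
    intro W hWm
    rw [Fintype.mem_piFinset] at hWm
    have h1 : PF (P.net k1 hk1) (fun f => η * K ≤ isoN f W ∧
        P.cap k2 hk2 (skel f (univ.image W)) < η * K * c / 4) ≤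
        EF (P.net k1 hk1) ∅ (fun f =>
          2 / (η * K) * ∑ i, (if P.cap k2 hk2 (anc f (W i)) < c then (1 : ℝ) else 0) +
          2 / (η * K * c) * ∑ i, ∑ j ∈ univ.erase i, ovl (P.net k2 hk2) f (W i) (W j)) :=
      EF_mono _ _ fun f _ => by
        have h := event_le P hk2 hc hη hK f W
        refine le_trans (le_of_eq ?_) h
        beta_reduce
        congr 1
    rw [EF_add, EF_mul, EF_mul, EF_sum, EF_sum] at h1
    have h2 : ∑ i, EF (P.net k1 hk1) ∅
        (fun f => (if P.cap k2 hk2 (anc f (W i)) < c then (1 : ℝ) else 0)) ≤ K * ε := by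
      calc _ ≤ ∑ _i : Fin K, ε := Finset.sum_le_sum fun i _ => hlow (W i) (hWm i)
        _ = K * ε := by rw [Finset.sum_const, Finset.card_univ, Fintype.card_fin, nsmul_eq_mul]
    have h3 : ∑ i, EF (P.net k1 hk1) ∅
        (fun f => ∑ j ∈ univ.erase i, ovl (P.net k2 hk2) f (W i) (W j)) ≤
        ∑ i, ∑ j ∈ univ.erase i, ∑ v, ∑ u,
        om (P.net k2 hk2) v u * (pv (P.net k1 hk1) v (W i) * pv (P.net k1 hk1) u (W j)) := by
      refine Finset.sum_le_sum fun i _ => ?_
      rw [EF_sum]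
      exact Finset.sum_le_sum fun j _ => EF_ovl _ _ _ _
    refine h1.trans (add_le_add ?_ (mul_le_mul_of_nonneg_left h3 (by positivity)))
    calc _ ≤ 2 / (η * K) * (K * ε) := mul_le_mul_of_nonneg_left h2 (by positivity)
      _ = 2 * ε / η := by field_simp
  refine (Finset.sum_le_sum hW).trans ?_
  rw [Finset.sum_add_distrib, Finset.sum_const, nsmul_eq_mul, Fintype.card_piFinset_const,
    ← Finset.mul_sum]
  have hpair : ∑ W ∈ Fintype.piFinset (fun _ : Fin K => P.M), ∑ i, ∑ j ∈ univ.erase i,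
      ∑ v, ∑ u, om (P.net k2 hk2) v u * (pv (P.net k1 hk1) v (W i) * pv (P.net k1 hk1) u (W j)) ≤
      K * (K * (Fintype.card V * (γ * A) * (γ / (k1 * P.M.card)) ^ 2)) * (P.M.card : ℝ) ^ K := by
    rw [Finset.sum_comm]
    have h1 : ∀ i : Fin K, ∑ W ∈ Fintype.piFinset (fun _ : Fin K => P.M), ∑ j ∈ univ.erase i,
        ∑ v, ∑ u, om (P.net k2 hk2) v u *
          (pv (P.net k1 hk1) v (W i) * pv (P.net k1 hk1) u (W j)) ≤
        K * (Fintype.card V * (γ * A) * (γ / (k1 * P.M.card)) ^ 2) * (P.M.card : ℝ) ^ K := by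
      intro i
      rw [Finset.sum_comm]
      have h2 : ∀ j ∈ univ.erase i, ∑ W ∈ Fintype.piFinset (fun _ : Fin K => P.M),
          ∑ v, ∑ u, om (P.net k2 hk2) v u *
            (pv (P.net k1 hk1) v (W i) * pv (P.net k1 hk1) u (W j)) ≤
          Fintype.card V * (γ * A) * (γ / (k1 * P.M.card)) ^ 2 * (P.M.card : ℝ) ^ K := by
        intro j hj
        have hij : i ≠ j := (Finset.ne_of_mem_erase hj).symm
        have h3 : ∑ W ∈ Fintype.piFinset (fun _ : Fin K => P.M),
            ∑ v, ∑ u, om (P.net k2 hk2) v u *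
              (pv (P.net k1 hk1) v (W i) * pv (P.net k1 hk1) u (W j)) =
            ∑ v, ∑ u, om (P.net k2 hk2) v u *
              (((∑ x ∈ P.M, pv (P.net k1 hk1) v x) / P.M.card) *
                ((∑ x ∈ P.M, pv (P.net k1 hk1) u x) / P.M.card) * (P.M.card : ℝ) ^ K) := by
          rw [Finset.sum_comm]
          refine Finset.sum_congr rfl fun v _ => ?_
          rw [Finset.sum_comm]
          refine Finset.sum_congr rfl fun u _ => ?_
          rw [← Finset.mul_sum, sum_pi_pair P.M P.M_ne hij]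
        rw [h3]
        calc ∑ v, ∑ u, om (P.net k2 hk2) v u *
              (((∑ x ∈ P.M, pv (P.net k1 hk1) v x) / P.M.card) *
                ((∑ x ∈ P.M, pv (P.net k1 hk1) u x) / P.M.card) * (P.M.card : ℝ) ^ K)
            ≤ ∑ v, ∑ u, om (P.net k2 hk2) v u *
              ((γ / (k1 * P.M.card)) ^ 2 * (P.M.card : ℝ) ^ K) := by
              refine Finset.sum_le_sum fun v _ => Finset.sum_le_sum fun u _ => ?_
              refine mul_le_mul_of_nonneg_left ?_ (om_nonneg _ _ _)
              refine mul_le_mul_of_nonneg_right ?_ (by positivity)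
              rw [sq]
              exact mul_le_mul (hα v) (hα u) (hα0 u) hg0
          _ = (∑ v, ∑ u, om (P.net k2 hk2) v u) *
              ((γ / (k1 * P.M.card)) ^ 2 * (P.M.card : ℝ) ^ K) := by
              rw [Finset.sum_mul]
              exact Finset.sum_congr rfl fun v _ => by rw [Finset.sum_mul]
          _ ≤ (Fintype.card V * (γ * A)) *
              ((γ / (k1 * P.M.card)) ^ 2 * (P.M.card : ℝ) ^ K) :=
              mul_le_mul_of_nonneg_right hom (by positivity)
          _ = _ := by ring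
      refine (Finset.sum_le_sum h2).trans ?_
      rw [Finset.sum_const, nsmul_eq_mul, mul_assoc (K : ℝ)]
      refine mul_le_mul_of_nonneg_right ?_ (by positivity)
      have h4 : (univ.erase i).card ≤ K := by
        refine (Finset.card_erase_le).trans ?_
        rw [Finset.card_univ, Fintype.card_fin]
      exact_mod_cast h4
    refine (Finset.sum_le_sum fun i _ => h1 i).trans (le_of_eq ?_)
    rw [Finset.sum_const, nsmul_eq_mul, Finset.card_univ, Fintype.card_fin]
    ring
  have hMK : (0 : ℝ) ≤ (P.M.card : ℝ) ^ K := by positivity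
  have hfin : 2 / (η * K * c) *
      (K * (K * (Fintype.card V * (γ * A) * (γ / (k1 * P.M.card)) ^ 2)) * (P.M.card : ℝ) ^ K) ≤
      8 * K * γ ^ 3 * Fintype.card V * A / (η * c * (k1 * P.M.card) ^ 2) *
        (P.M.card : ℝ) ^ K := by
    have h1 : 2 / (η * K * c) *
      (K * (K * (Fintype.card V * (γ * A) * (γ / (k1 * P.M.card)) ^ 2)) * (P.M.card : ℝ) ^ K) =
      (2 * K * γ ^ 3 * Fintype.card V * A / (η * c * (k1 * P.M.card) ^ 2)) *
        (P.M.card : ℝ) ^ K := by
      field_simp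
    rw [h1]
    refine mul_le_mul_of_nonneg_right ?_ hMK
    refine div_le_div_of_nonneg_right ?_ (by positivity)
    have h2 : 0 ≤ K * γ ^ 3 * Fintype.card V * A := by positivity
    nlinarith
  have h := mul_le_mul_of_nonneg_left hpair (by positivity : 0 ≤ 2 / (η * K * c))
  push_cast
  nlinarith [h.trans hfin]

end
end Pool.Agent.TH972.U
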