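import Pool.Agent.TH972.U.VDef

/-!
# Equilibrium measures (definition)
-/

set_option autoImplicit false
set_option linter.unusedSectionVars false

namespace Pool.Agent.TH972.U

open Finset

noncomputable section

variable {V : Type} [Fintype V] [DecidableEq V]

/-- the equilibrium measure of the set `A` at a vertex `z ∈ A` -/
def eqm (N : Net V) (A : Finset V) (z : V) : ℝ := N.k z + ∑ w, Kc N.κ z w * surv N A w

end

end Pool.Agent.TH972.U
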