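import Pool.Agent.TH972.U.SoTyp
import Pool.Agent.TH972.U.DnTyp
import Pool.Agent.TH972.U.MTyp
import Pool.Agent.TH972.U.MsTyp
import Pool.Agent.TH972.U.RegB
import Pool.Agent.TH972.LowerNum
import Pool.Agent.TH972.R3
import Pool.Agent.W842.RST.Asym

/-!
# The volume of the balls of radius proportional to the diameter, uniformly in the temperature
-/

set_option autoImplicit false
namespace Pool.Agent.TH972.U
open Finset MeasureTheory Pool.Agent.W842.RST Pool.Agent.TH972 Filter Topology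
noncomputable section

namespace VFin

theorem ball_mono {V : Type} [Fintype V] (G : SimpleGraph V) (v : V) {r s : ℕ} (h : r ≤ s) :
    ball G v r ⊆ ball G v s := by
  classical
  intro u hu
  unfold ball at hu ⊢
  simp only [mem_filter, mem_univ, true_and] at hu ⊢
  obtain ⟨p, hp⟩ := hu
  exact ⟨p, hp.trans h⟩

/-- from a ball of a given radius and a lower bound of the diameter to the event -/
theorem combine {β : ℝ} {n : ℕ} (hn : 1 ≤ n) {lam δ v0 R d a b L : ℝ} (hlam : 0 < lam)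
    (hL : 0 < L) (hvol : (n : ℝ) ^ (1 - δ) ≤ v0) (hR : R ≤ lam * d) (hab : a + b ≤ 100)
    (hball : (1 - a / L) * n ≤ ∑ v, avgw (wexp β) n (fun T => v0 ≤ (ball T v ⌊R⌋₊).card))
    (hdiam : 1 - b / L ≤ avgw (wexp β) n (fun T => d ≤ T.diam)) :
    (1 - 100 / L) * n ≤ ∑ v, avgw (wexp β) n (fun T =>
      (n : ℝ) ^ (1 - δ) ≤ (ball T v ⌊lam * T.diam⌋₊).card) := by
  have : Nonempty (Fin n) := ⟨⟨0, by omega⟩⟩
  have hn0 : (0 : ℝ) ≤ n := Nat.cast_nonneg _
  have key : ∀ v : Fin n, avgw (wexp β) n (fun T => v0 ≤ (ball T v ⌊R⌋₊).card) - b / L ≤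
      avgw (wexp β) n (fun T => (n : ℝ) ^ (1 - δ) ≤ (ball T v ⌊lam * T.diam⌋₊).card) := by
    intro v
    have h := avgw_inter (n := n) (wexp_pos β) (wexp_meas β)
      (A := fun T => v0 ≤ (ball T v ⌊R⌋₊).card) (B := fun T => d ≤ T.diam)
      (C := fun T => (n : ℝ) ^ (1 - δ) ≤ (ball T v ⌊lam * T.diam⌋₊).card)
      (a := 1 - avgw (wexp β) n (fun T => v0 ≤ (ball T v ⌊R⌋₊).card)) (b := b / L)
      (by
        intro T _ hA hB
        have hle : ⌊R⌋₊ ≤ ⌊lam * (T.diam : ℝ)⌋₊ := by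
          apply Nat.floor_le_floor
          exact hR.trans (mul_le_mul_of_nonneg_left hB hlam.le)
        have hc : ((ball T v ⌊R⌋₊).card : ℝ) ≤ (ball T v ⌊lam * (T.diam : ℝ)⌋₊).card := by
          exact_mod_cast card_le_card (ball_mono T v hle)
        exact hvol.trans (hA.trans hc))
      (by linarith) hdiam
    linarith
  have hs := Finset.sum_le_sum (fun v (_ : v ∈ (univ : Finset (Fin n))) => key v)
  rw [Finset.sum_sub_distrib, Finset.sum_const, Finset.card_univ, Fintype.card_fin,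
    nsmul_eq_mul] at hs
  refine le_trans ?_ hs
  have h1 : (1 - 100 / L) * n ≤ (1 - a / L) * n - n * (b / L) := by
    have h2 : (a + b) / L ≤ 100 / L := div_le_div_of_nonneg_right hab hL.le
    have h3 : (1 - a / L) * n - n * (b / L) = (1 - (a + b) / L) * n := by ring
    rw [h3]
    apply mul_le_mul_of_nonneg_right _ hn0
    linarith
  linarith

/-- powers with a smaller exponent are smaller by any factor -/
theorem ev_pow {s t lam : ℝ} (hst : s < t) (hlam : 0 < lam) :
    ∀ᶠ n : ℕ in atTop, (n : ℝ) ^ s ≤ lam * (n : ℝ) ^ t := by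
  have h := eventually_log 0 (ε := t - s) (by linarith) (C := 1 / lam) (by positivity)
  filter_upwards [h, eventually_ge_atTop 1] with n h hn
  have hn0 : (0 : ℝ) < n := by
    have : 0 < n := hn
    exact_mod_cast this
  rw [Real.rpow_zero, mul_one, Real.rpow_sub hn0, div_le_div_iff₀ hlam (Real.rpow_pos_of_pos hn0 s)]
    at h
  linarith

/-- powers with a smaller exponent are smaller by any factor and a logarithm -/
theorem ev_log {s t lam : ℝ} (hst : s < t) (hlam : 0 < lam) :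
    ∀ᶠ n : ℕ in atTop, (n : ℝ) ^ s ≤ lam * ((n : ℝ) ^ t / Real.log n) := by
  have h := eventually_log 1 (ε := t - s) (by linarith) (C := 1 / lam) (by positivity)
  have h3 : ∀ᶠ n : ℕ in atTop, 1 ≤ Real.log n :=
    (Real.tendsto_log_atTop.comp (tendsto_natCast_atTop_atTop (R := ℝ))).eventually
      (eventually_ge_atTop 1)
  filter_upwards [h, h3, eventually_ge_atTop 1] with n h hL hn
  have hn0 : (0 : ℝ) < n := by
    have : 0 < n := hn
    exact_mod_cast this
  have hL0 : 0 < Real.log n := by linarith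
  rw [Real.rpow_one, Real.rpow_sub hn0, le_div_iff₀ (Real.rpow_pos_of_pos hn0 s)] at h
  have h4 : 1 / lam * Real.log n * (n : ℝ) ^ s * (lam / Real.log n) ≤
      (n : ℝ) ^ t * (lam / Real.log n) := mul_le_mul_of_nonneg_right h (by positivity)
  have h5 : 1 / lam * Real.log n * (n : ℝ) ^ s * (lam / Real.log n) = (n : ℝ) ^ s := by
    field_simp
  have h6 : (n : ℝ) ^ t * (lam / Real.log n) = lam * ((n : ℝ) ^ t / Real.log n) := by ring
  rw [h5, h6] at h4
  exact h4

end VFin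

open VFin

/-- the ball volume, uniformly in the inverse temperature -/
theorem ball_unif {lam δ : ℝ} (hlam : 0 < lam) (hδ : 0 < δ) : ∀ᶠ n : ℕ in atTop, ∀ β : ℝ,
    0 ≤ β → (1 - 100 / Real.log n) * n ≤ ∑ v, avgw (wexp β) n (fun T =>
      (n : ℝ) ^ (1 - δ) ≤ (ball T v ⌊lam * T.diam⌋₊).card) := by
  obtain ⟨e, he0, he1, heδ⟩ : ∃ e : ℝ, 0 < e ∧ e ≤ 1 / 100 ∧ 70 * e ≤ δ := by
    refine ⟨min (δ / 70) (1 / 100), lt_min (by positivity) (by norm_num), min_le_right _ _, ?_⟩
    have := min_le_left (δ / 70) (1 / 100 : ℝ)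
    linarith
  have hLev : ∀ᶠ n : ℕ in atTop, 1 ≤ Real.log n :=
    (Real.tendsto_log_atTop.comp (tendsto_natCast_atTop_atTop (R := ℝ))).eventually
      (eventually_ge_atTop 1)
  filter_upwards [dense_typ he0 (by linarith), region_B, soft_typ he0 he1,
    soft_typ (ε := e / 8) (by positivity) (by linarith),
    main_typ (ε := e / 8) (δ := e / 128) (by positivity) (by positivity) (by linarith)
      (by linarith), mst_typ he0 he1,
    eventually_Par (γ := 1) (g := 1 / 3 - e / 4) (ε := e / 4) (by norm_num) (by linarith)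
      (by linarith) (by positivity) (by linarith),
    ev_log (s := 1 / 2 - e) (t := 1 / 2) (by linarith) hlam,
    ev_pow (s := 1 / 2 - 5 * e) (t := 1 / 2 - 30 * (e / 8)) (by linarith) hlam,
    ev_pow (s := -(e / 128)) (t := -(3 * e / 512)) (by linarith) hlam,
    ev_pow (s := 1 / 3 - e) (t := 1 / 3 - e / 2) (by linarith) hlam,
    eventually_log 6 (ε := e / 512) (by positivity) (C := 1000000000000 * 9 ^ 6) (by norm_num),
    eventually_log 1 (ε := e / 4) (by positivity) (C := 3000) (by norm_num),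
    hLev, eventually_ge_atTop 2]
    with n hdn hrb hso1 hso2 hmain hmst hpar hp1 hp2 hp3 hp4 hp5 hp6 hL hn β hβ0
  have hn1' : 1 ≤ n := by omega
  have hn1 : (1 : ℝ) ≤ n := by exact_mod_cast hn1'
  have hn0 : (0 : ℝ) < n := by linarith
  have hL0 : 0 < Real.log n := by linarith
  have hexp : ∀ s t : ℝ, s ≤ t → (n : ℝ) ^ s ≤ (n : ℝ) ^ t :=
    fun s t h => Real.rpow_le_rpow_of_exponent_le hn1 h
  by_cases h1 : β ≤ n / Real.log n ^ 3
  · -- very high temperature
    refine combine hn1' hlam hL0 (v0 := (n : ℝ) ^ (1 - 15 * e)) (R := (n : ℝ) ^ (1 / 2 - e))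
      (d := Real.sqrt n / Real.log n) (a := 3) (b := 2) (hexp _ _ (by linarith)) ?_ (by norm_num)
      (hdn β hβ0 h1) ?_
    · rw [Real.sqrt_eq_rpow]
      exact hp1
    · exact (hrb β hβ0 h1).trans (avgw_mono (wexp_pos β) (wexp_meas β) (fun T _ h => h.1))
  push Not at h1
  obtain ⟨y, hy⟩ : ∃ y : ℝ, y = β / n := ⟨_, rfl⟩
  have hβy : β = n * y := by rw [hy]; field_simp
  have hy1 : 1 / Real.log n ^ 3 ≤ y := by
    rw [hy, div_le_div_iff₀ (by positivity) hn0]
    have h2 : (n : ℝ) / Real.log n ^ 3 * Real.log n ^ 3 ≤ β * Real.log n ^ 3 :=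
      mul_le_mul_of_nonneg_right h1.le (by positivity)
    rw [div_mul_cancel₀ _ (by positivity)] at h2
    linarith
  have hy0 : 0 < y := lt_of_lt_of_le (by positivity) hy1
  by_cases h2 : y ≤ (n : ℝ) ^ (e / 8)
  · -- soft regime
    have hya : y ≤ (n : ℝ) ^ e := h2.trans (hexp _ _ (by linarith))
    rw [hβy]
    exact combine hn1' hlam hL0 (v0 := (n : ℝ) ^ (1 - 60 * e))
      (R := (n : ℝ) ^ (1 / 2 - 5 * e)) (d := (n : ℝ) ^ (1 / 2 - 30 * (e / 8))) (a := 30) (b := 30)
      (hexp _ _ (by linarith)) hp2 (by norm_num) (hso1 y hy1 hya).1 (hso2 y hy1 h2).2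
  push Not at h2
  by_cases h3 : y < (n : ℝ) ^ (1 / 3 - e / 4)
  · -- intermediate regime
    have hyb : y ≤ (n : ℝ) ^ (1 / 3 - e / 8) := h3.le.trans (hexp _ _ (by linarith))
    have hLB : LB n ((n : ℝ) ^ (e / 512)) y := by
      refine ⟨hL, ?_, ?_, ?_⟩
      · refine le_trans ?_ hp5
        have e1 : Real.log n ^ (6 : ℝ) = Real.log n ^ 6 := by
          rw [← Real.rpow_natCast]; norm_num
        rw [e1]
        have e2 : (1 + 8 * Real.log n) ^ 6 ≤ (9 * Real.log n) ^ 6 :=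
          pow_le_pow_left₀ (by linarith) (by linarith) 6
        rw [mul_pow] at e2
        linarith
      · exact (hexp _ _ (by linarith)).trans h2.le
      · have e1 : y ^ 3 ≤ (n : ℝ) ^ (1 - 3 * e / 4) := by
          calc y ^ 3 ≤ ((n : ℝ) ^ (1 / 3 - e / 4)) ^ 3 := pow_le_pow_left₀ hy0.le h3.le 3
            _ = (n : ℝ) ^ (1 - 3 * e / 4) := by
              rw [← Real.rpow_natCast, ← Real.rpow_mul hn0.le]
              congr 1
              push_cast
              ring
        have e2 : ((n : ℝ) ^ (e / 512)) ^ 8 = (n : ℝ) ^ (e / 64) := by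
          rw [← Real.rpow_natCast, ← Real.rpow_mul hn0.le]
          congr 1
          push_cast
          ring
        rw [e2]
        calc y ^ 3 * (n : ℝ) ^ (e / 64) ≤ (n : ℝ) ^ (1 - 3 * e / 4) * (n : ℝ) ^ (e / 64) :=
              mul_le_mul_of_nonneg_right e1 (Real.rpow_nonneg hn0.le _)
          _ = (n : ℝ) ^ (1 - 3 * e / 4 + e / 64) := (Real.rpow_add hn0 _ _).symm
          _ ≤ (n : ℝ) ^ (1 : ℝ) := hexp _ _ (by linarith)
          _ = n := Real.rpow_one _
    rw [hβy]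
    refine combine hn1' hlam hL0 (v0 := (n : ℝ) ^ (1 - 41 * (e / 128)))
      (R := Real.sqrt (n / y) / (n : ℝ) ^ (e / 128))
      (d := Real.sqrt (n / y) / ((n : ℝ) ^ (e / 512)) ^ 3) (a := 50) (b := 1)
      (hexp _ _ (by linarith)) ?_ (by norm_num) (hmain y h2.le hyb) (lower_num hLB)
    have e3 : ((n : ℝ) ^ (e / 512)) ^ 3 = (n : ℝ) ^ (3 * e / 512) := by
      rw [← Real.rpow_natCast, ← Real.rpow_mul hn0.le]
      congr 1
      push_cast
      ring
    rw [e3]
    rw [Real.rpow_neg hn0.le, Real.rpow_neg hn0.le] at hp3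
    have h4 := mul_le_mul_of_nonneg_left hp3 (Real.sqrt_nonneg (n / y))
    calc Real.sqrt (n / y) / (n : ℝ) ^ (e / 128)
        = Real.sqrt (n / y) * ((n : ℝ) ^ (e / 128))⁻¹ := div_eq_mul_inv _ _
      _ ≤ Real.sqrt (n / y) * (lam * ((n : ℝ) ^ (3 * e / 512))⁻¹) := h4
      _ = lam * (Real.sqrt (n / y) / (n : ℝ) ^ (3 * e / 512)) := by
        rw [div_eq_mul_inv]; ring
  push Not at h3
  -- low temperature
  have hβ1 : (n : ℝ) * (n : ℝ) ^ (1 / 3 - e / 4) ≤ β := by
    rw [hβy]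
    exact mul_le_mul_of_nonneg_left h3 hn0.le
  have hβ2 : (n : ℝ) ^ (4 / 3 - e) ≤ β := by
    refine le_trans ?_ hβ1
    have h5 : (n : ℝ) * (n : ℝ) ^ (1 / 3 - e / 4) = (n : ℝ) ^ (1 + (1 / 3 - e / 4)) := by
      rw [Real.rpow_add hn0, Real.rpow_one]
    rw [h5]
    exact hexp _ _ (by linarith)
  refine combine hn1' hlam hL0 (v0 := (n : ℝ) ^ (1 - 15 * e))
    (R := (n : ℝ) ^ (1 / 3 - e)) (d := (n : ℝ) ^ (1 / 3 - e / 2)) (a := 20) (b := 1)
    (hexp _ _ (by linarith)) hp4 (by norm_num) (hmst β hβ2) ?_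
  have hm := main_exp hpar hβ1 (fun T => (n : ℝ) ^ (1 / 3 - e / 2) ≤ T.diam) (by
    intro T h6 _
    rw [← Real.rpow_sub hn0] at h6
    have h7 : (1 : ℝ) / 3 - e / 4 - e / 4 = 1 / 3 - e / 2 := by ring
    rw [h7] at h6
    exact h6)
  refine le_trans ?_ hm
  have h8 : 3000 / (n : ℝ) ^ (e / 4) ≤ 1 / Real.log n := by
    rw [div_le_div_iff₀ (Real.rpow_pos_of_pos hn0 _) hL0]
    rw [Real.rpow_one] at hp6
    linarith
  linarith

end
end Pool.Agent.TH972.U
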