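import Pool.Agent.TH972.U.LowC
import Pool.Agent.TH972.U.UnGen
import Pool.Agent.TH972.U.HitP
import Pool.Agent.TH972.U.Multi

/-!
# The tree of a typical vertex is large (written by helper521, job 3315 of helper972)
-/

set_option autoImplicit false
set_option linter.unusedSectionVars false

namespace Pool.Agent.TH972.U

open Finset

noncomputable section

variable {V : Type} [Fintype V] [DecidableEq V]

/-- the error terms of `vol_gen` -/
def erV (σ K q M : ℝ) (j : ℕ) : ℝ :=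
  4 * ((1 + 2 * Real.exp 17) / Real.sqrt σ + 1 / K + 4 * (1 + Real.log K) / σ + j * q +
    (1 / 2) ^ j * Real.sqrt M)

namespace VolGen

theorem quarter (K : ℕ) (hK : 2 ≤ K) : (1 / 4 : ℝ) ≤ (1 - 1 / K) ^ K := by
  have hK0 : (0 : ℝ) < K := by
    have : (2 : ℝ) ≤ K := by exact_mod_cast hK
    linarith
  have hK2 : (2 : ℝ) ≤ K := by exact_mod_cast hK
  have h1 : (1 : ℝ) / K ≤ 1 / 2 := by
    rw [div_le_div_iff₀ hK0 two_pos]
    linarith
  have h2 := one_add_mul_self_le_rpow_one_add (s := -(1 / (K : ℝ))) (by linarith)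
    (p := (K : ℝ) / 2) (by linarith)
  have h3 : 1 + (K : ℝ) / 2 * -(1 / (K : ℝ)) = 1 / 2 := by
    field_simp
    norm_num
  rw [h3] at h2
  have h4 : (1 + -(1 / (K : ℝ))) = 1 - 1 / K := by ring
  rw [h4] at h2
  have h5 : (0 : ℝ) ≤ 1 - 1 / K := by linarith
  have h6 : ((1 - 1 / (K : ℝ)) ^ ((K : ℝ) / 2)) ^ 2 = (1 - 1 / (K : ℝ)) ^ K := by
    rw [← Real.rpow_natCast, ← Real.rpow_mul h5, ← Real.rpow_natCast]
    congr 1
    push_cast
    ring
  rw [← h6]
  nlinarith

theorem harm_le (K : ℕ) : ∑ a ∈ range K, 1 / ((a : ℝ) + 1) ≤ 1 + Real.log K := by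
  have h := harmonic_le_one_add_log K
  rw [harmonic] at h
  push_cast at h
  simpa [one_div] using h

theorem harm_ge (K : ℕ) (hK : 1 ≤ K) : 1 ≤ ∑ a ∈ range K, 1 / ((a : ℝ) + 1) := by
  have h := Finset.single_le_sum (f := fun a : ℕ => 1 / ((a : ℝ) + 1)) (s := range K)
    (fun a _ => by positivity) (mem_range.2 (show 0 < K by omega))
  simpa using h

theorem PF_nonneg (N : Net V) (A : (V → Option V) → Prop) : 0 ≤ PF N A := by
  rw [Multi.PF_ind, ← Multi.EF_const N 0]
  exact EF_mono N ∅ fun f _ => Multi.ind_nonneg _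

/-- the main capacity estimate, with the numbers inserted -/
theorem cap_num {k1 k2 g σ m K H : ℝ} (hk1 : 0 < k1) (hk2 : 0 < k2) (hg : 1 ≤ g) (hσ : 1 ≤ σ)
    (hk : k1 ^ 2 * m = σ ^ 2 * k2) (hK0 : 0 < K) (hK : g * σ ^ 5 ≤ K) (hH : 1 ≤ H) :
    2 * k1 * m / (k2 / (g * σ * k1) * (1 / Real.sqrt σ) * K / (2 * H)) ≤ 4 * H / σ := by
  have hg0 : 0 < g := by linarith
  have hσ0 : 0 < σ := by linarith
  have hH0 : 0 < H := by linarith
  set r := Real.sqrt σ with hr
  have hr0 : 0 < r := Real.sqrt_pos.2 hσ0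
  have hrσ : r ^ 2 = σ := Real.sq_sqrt hσ0.le
  have hr1 : 1 ≤ r := by
    rw [hr]
    exact Real.one_le_sqrt.2 hσ
  have hL : 0 < k2 / (g * σ * k1) * (1 / r) * K / (2 * H) := by positivity
  rw [div_le_iff₀ hL]
  have e1 : 4 * H / σ * (k2 / (g * σ * k1) * (1 / r) * K / (2 * H)) =
      2 * k2 * K / (g * σ ^ 2 * k1 * r) := by
    field_simp
    ring
  rw [e1, le_div_iff₀ (by positivity)]
  have e2 : 2 * k1 * m * (g * σ ^ 2 * k1 * r) = 2 * (k1 ^ 2 * m) * (g * σ ^ 2 * r) := by ring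
  rw [e2, hk]
  have e3 : 2 * (σ ^ 2 * k2) * (g * σ ^ 2 * r) = 2 * k2 * (g * σ ^ 4 * r) := by ring
  rw [e3]
  refine mul_le_mul_of_nonneg_left ?_ (by positivity)
  refine le_trans ?_ hK
  have e4 : g * σ ^ 5 = g * σ ^ 4 * σ := by ring
  rw [e4]
  refine mul_le_mul_of_nonneg_left ?_ (by positivity)
  nlinarith

end VolGen

open VolGen

open Classical in
/-- the tree of a typical vertex is large -/
theorem PN.vol_gen (P : PN V) {k1 k2 g σ : ℝ} (hk1 : 0 < k1) (hk2 : 0 < k2)
    (ht : k2 * P.t ≤ 1) (hg1 : 1 ≤ g) (hg : ∀ y ∈ P.M, grn (P.net k2 hk2) ∅ y y ≤ g)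
    (hσ : 1 ≤ σ) (hk : k1 ^ 2 * P.M.card = σ ^ 2 * k2) (hk12 : k1 * σ ≤ k2) (K : ℕ)
    (hK : g * σ ^ 5 ≤ K) (hK2 : 2 ≤ K) (j : ℕ) :
    ∑ v, PF (P.net k1 hk1) (fun f => (univ.filter (fun u => Conn f v u)).card ≤
      Fintype.card V / K) ≤
      erV σ K (k1 / k2) P.M.card j * Fintype.card V := by
  -- positivity
  have hg0 : 0 < g := by linarith
  have hσ0 : 0 < σ := by linarith
  have hK2' : (2 : ℝ) ≤ K := by exact_mod_cast hK2
  have hK0 : (0 : ℝ) < K := by linarith
  have hm0 : (0 : ℝ) < P.M.card := by exact_mod_cast P.M_ne.card_pos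
  have hV : Nonempty V := ⟨P.M_ne.choose⟩
  have hBn : (univ : Finset V).Nonempty := univ_nonempty
  have hN0 : (0 : ℝ) < ((univ : Finset V).card : ℝ) := by exact_mod_cast hBn.card_pos
  set r := Real.sqrt σ with hr
  have hr0 : 0 < r := Real.sqrt_pos.2 hσ0
  have hrσ : r ^ 2 = σ := Real.sq_sqrt hσ0.le
  set H := ∑ a ∈ range K, 1 / ((a : ℝ) + 1) with hH
  have hH1 : 1 ≤ H := harm_ge K (by omega)
  have hH2 : H ≤ 1 + Real.log K := harm_le K
  have hH0 : 0 < H := by linarith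
  have hgs : 0 < g * σ * k1 := by positivity
  set c := k2 / (g * σ * k1) with hc
  have hc0 : 0 < c := div_pos hk2 hgs
  set L := c * (1 / r) * K / (2 * H) with hL
  have hL0 : 0 < L := by positivity
  set ε := Real.exp 17 / σ with hε
  have hε0 : 0 < ε := by positivity
  -- conditional capacity bound
  have hk12' : k1 ≤ σ * k1 := by nlinarith
  have hlow : ∀ (W : Finset V) (x : V), PF (P.net k1 hk1) (fun f => ¬ Mt f x W ∧
      ∑ z ∈ anc f x, eqm (P.net k2 hk2) (skel f W ∪ anc f x) z < c) ≤ ε := by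
    intro W x
    have h3 : σ * k1 * (g * c) ≤ k2 := by
      rw [hc]
      apply le_of_eq
      field_simp
    refine (PN.low_cond P (k' := σ * k1) hk1 (by positivity) hk2 hk12' (by linarith) ht hg0 hg
      hc0 h3 W x).trans ?_
    have e1 : k1 / (σ * k1) = 1 / σ := by
      field_simp
    have e2 : 9 * k2 / (g * k1 ^ 2 * P.M.card) ≤ 9 := by
      rw [div_le_iff₀ (by positivity)]
      have e3 : g * k1 ^ 2 * (P.M.card : ℝ) = g * (k1 ^ 2 * P.M.card) := by ring
      rw [e3, hk]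
      have e4 : 1 ≤ g * σ ^ 2 := by
        have : 1 ≤ σ ^ 2 := one_le_pow₀ hσ
        nlinarith
      nlinarith
    rw [e1, hε, div_mul_eq_mul_div, one_mul]
    refine div_le_div_of_nonneg_right ?_ hσ0.le
    exact Real.exp_le_exp.2 (by linarith)
  have h2 := PN.union_gen P (k1 := k1) (k2 := k2) (c := c) (ε := ε) (η := 1 / r) (L := L) hk1 hk2
    hc0 hε0.le (by positivity) hL0.le (univ : Finset V) K (by omega) hlow (by
      rw [← hH, hL]
      apply le_of_eq
      field_simp)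
  -- hitting
  have hlog : 0 ≤ Real.log K := Real.log_nonneg (by linarith)
  set ε1 := 4 * (1 + Real.log K) / σ + j * (k1 / k2) + (1 / 2) ^ j * Real.sqrt P.M.card with hε1
  have hε10 : 0 ≤ ε1 := by positivity
  have h1 : ∀ D : Finset V, L ≤ P.cap k2 hk2 D →
      ∑ x ∈ (univ : Finset V), surv (P.net k1 hk1) D x ≤ ε1 * (univ : Finset V).card := by
    intro D hD
    have e1 : ∀ x ∈ (univ : Finset V), surv (P.net k1 hk1) D x ≤ ε1 := by
      intro x _
      have e2 := PN.hit P hk1 hk2 (by linarith) ht D hL0 hD j x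
      have e3 := cap_num hk1 hk2 hg1 hσ hk hK0 hK hH1
      have e4 : 4 * H / σ ≤ 4 * (1 + Real.log K) / σ :=
        div_le_div_of_nonneg_right (by linarith) hσ0.le
      have e5 : 2 * k1 * P.M.card / L ≤ 4 * H / σ := e3
      rw [hε1]
      linarith
    calc ∑ x ∈ (univ : Finset V), surv (P.net k1 hk1) D x ≤ ∑ x ∈ (univ : Finset V), ε1 :=
          sum_le_sum e1
      _ = ε1 * (univ : Finset V).card := by rw [sum_const, nsmul_eq_mul, mul_comm]
  have h3 := multi (P.net k1 hk1) (univ : Finset V) hBn K (P.cap k2 hk2) (L := L) (ε1 := ε1)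
    (ε2 := 2 * ε / (1 / r)) (η := 1 / r) hε10 (by positivity) h1 h2
  have h4 : 1 / r + 1 / ((K : ℝ) + 1) + ε1 + 2 * ε / (1 / r) ≤
      erV σ K (k1 / k2) P.M.card j / 4 := by
    unfold erV
    have e1 : 2 * ε / (1 / r) = 2 * Real.exp 17 / r := by
      rw [hε, ← hrσ]
      field_simp
    have e2 : 1 / ((K : ℝ) + 1) ≤ 1 / K := one_div_le_one_div_of_le hK0 (by linarith)
    have e3 : (1 + 2 * Real.exp 17) / r = 1 / r + 2 * Real.exp 17 / r := by ring
    rw [e1, hε1, ← hr, e3]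
    linarith
  set E := erV σ K (k1 / k2) P.M.card j with hE
  -- volume
  have hs : Fintype.card V / K ≤ (univ : Finset V).card := Nat.div_le_self _ _
  have h5 : ∀ v : V, PF (P.net k1 hk1) (fun f => (univ.filter (fun u => Conn f v u)).card ≤
      Fintype.card V / K) * (1 / 4 * ((univ : Finset V).card : ℝ) ^ K) ≤
      ∑ W ∈ Fintype.piFinset (fun _ : Fin K => (univ : Finset V)),
        PF (P.net k1 hk1) (fun f => ¬ Mt f v (univ.image W)) := by
    intro v
    refine le_trans ?_ (vol_low (P.net k1 hk1) (univ : Finset V) hBn K v (Fintype.card V / K) hs)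
    refine mul_le_mul_of_nonneg_left ?_ (PF_nonneg _ _)
    refine mul_le_mul_of_nonneg_right ?_ (by positivity)
    refine (quarter K hK2).trans ?_
    have e1 : (1 : ℝ) / K ≤ 1 / 2 := one_div_le_one_div_of_le two_pos hK2'
    refine pow_le_pow_left₀ (by linarith) ?_ K
    have e2 : ((Fintype.card V / K : ℕ) : ℝ) / ((univ : Finset V).card : ℝ) ≤ 1 / K := by
      rw [div_le_div_iff₀ hN0 hK0, one_mul]
      have : Fintype.card V / K * K ≤ (univ : Finset V).card := Nat.div_mul_le_self _ _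
      exact_mod_cast this
    linarith
  have h6 := sum_le_sum fun v (_ : v ∈ (univ : Finset V)) => h5 v
  rw [← sum_mul, sum_comm] at h6
  have h7 : (∑ v, PF (P.net k1 hk1) (fun f => (univ.filter (fun u => Conn f v u)).card ≤
      Fintype.card V / K)) * (1 / 4 * ((univ : Finset V).card : ℝ) ^ K) ≤
      E / 4 * ((univ : Finset V).card : ℝ) ^ (K + 1) :=
    h6.trans (h3.trans (mul_le_mul_of_nonneg_right h4 (by positivity)))
  have h8 : E / 4 * ((univ : Finset V).card : ℝ) ^ (K + 1) =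
      (E * Fintype.card V) * (1 / 4 * ((univ : Finset V).card : ℝ) ^ K) := by
    rw [card_univ]
    ring
  rw [h8] at h7
  exact le_of_mul_le_mul_right h7 (by positivity)

end

end Pool.Agent.TH972.U
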